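import Pool.Agent.Lib.MP_8ca597_hd.Defs

/-!
# Row A01: calculus of `EE`

`EE_insert`: `Finset.sum_powerset_insert`. `EE_const`: induction with `EE_insert`. `EE_union`:
induction on `S'` with `EE_insert` (or the bijection of the powersets). `EE_marg`: write
`S = S' ∪ (S \ S')`, use `EE_union` and `EE_const`. `EE_dep`: `EE_marg`, since `f T = f (T ∩ S')`.
`EE_mul`: marginals on `S1 ∪ S2` and `EE_union`.
-/

set_option autoImplicit false

namespace Pool.Agent.HD

open Finset
open scoped ENNReal

section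

variable {α : Type} [DecidableEq α] {p : ℝ} {S S' : Finset α} {f g : Finset α → ℝ}

theorem EE_congr (h : ∀ T ⊆ S, f T = g T) : EE p S f = EE p S g := by
  unfold EE
  refine sum_congr rfl fun T hT => ?_
  rw [h T (mem_powerset.1 hT)]

theorem EE_add (p : ℝ) (S : Finset α) (f g : Finset α → ℝ) :
    EE p S (fun T => f T + g T) = EE p S f + EE p S g := by
  unfold EE
  rw [← sum_add_distrib]
  exact sum_congr rfl fun T _ => by ring

theorem EE_sub (p : ℝ) (S : Finset α) (f g : Finset α → ℝ) :
    EE p S (fun T => f T - g T) = EE p S f - EE p S g := by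
  unfold EE
  rw [← sum_sub_distrib]
  exact sum_congr rfl fun T _ => by ring

theorem EE_const_mul (p c : ℝ) (S : Finset α) (f : Finset α → ℝ) :
    EE p S (fun T => c * f T) = c * EE p S f := by
  unfold EE
  rw [mul_sum]
  exact sum_congr rfl fun T _ => by ring

theorem EE_mul_const (p c : ℝ) (S : Finset α) (f : Finset α → ℝ) :
    EE p S (fun T => f T * c) = EE p S f * c := by
  unfold EE
  rw [sum_mul]
  exact sum_congr rfl fun T _ => by ring

theorem EE_sum {ι : Type} (p : ℝ) (S : Finset α) (s : Finset ι) (f : ι → Finset α → ℝ) :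
    EE p S (fun T => ∑ i ∈ s, f i T) = ∑ i ∈ s, EE p S (f i) := by
  unfold EE
  simp_rw [mul_sum]
  exact sum_comm

theorem EE_empty (p : ℝ) (f : Finset α → ℝ) : EE p ∅ f = f ∅ := by
  simp [EE]

theorem EE_insert (p : ℝ) {e : α} (he : e ∉ S) (f : Finset α → ℝ) :
    EE p (insert e S) f = p * EE p S (fun T => f (insert e T)) + (1 - p) * EE p S f := by
  unfold EE
  rw [sum_powerset_insert he, mul_sum, mul_sum, add_comm]
  congr 1
  · refine sum_congr rfl fun T hT => ?_
    have hTS := mem_powerset.1 hT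
    have heT : e ∉ T := fun h => he (hTS h)
    have h1 : insert e S \ insert e T = S \ T := by
      ext x
      simp only [mem_sdiff, mem_insert, not_or]
      constructor
      · rintro ⟨h1 | h1, h2, h3⟩
        · exact absurd h1 h2
        · exact ⟨h1, h3⟩
      · rintro ⟨h1, h2⟩
        exact ⟨Or.inr h1, fun h => he (h ▸ h1), h2⟩
    rw [card_insert_of_notMem heT, h1, pow_succ]
    ring
  · refine sum_congr rfl fun T hT => ?_
    have hTS := mem_powerset.1 hT
    have heT : e ∉ T := fun h => he (hTS h)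
    have h1 : insert e S \ T = insert e (S \ T) := insert_sdiff_of_notMem _ heT
    have h2 : e ∉ S \ T := fun h => he (mem_sdiff.1 h).1
    rw [h1, card_insert_of_notMem h2, pow_succ]
    ring

theorem EE_const (p : ℝ) (S : Finset α) (c : ℝ) : EE p S (fun _ => c) = c := by
  induction S using Finset.induction_on with
  | empty => exact EE_empty p _
  | insert e S he ih =>
    rw [EE_insert p he, ih]
    ring

theorem EE_nonneg (hp : 0 ≤ p) (hp1 : p ≤ 1) (h : ∀ T ⊆ S, 0 ≤ f T) : 0 ≤ EE p S f :=
  sum_nonneg fun T hT => mul_nonneg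
    (mul_nonneg (pow_nonneg hp _) (pow_nonneg (sub_nonneg.2 hp1) _)) (h T (mem_powerset.1 hT))

theorem EE_mono (hp : 0 ≤ p) (hp1 : p ≤ 1) (h : ∀ T ⊆ S, f T ≤ g T) : EE p S f ≤ EE p S g :=
  sum_le_sum fun T hT => mul_le_mul_of_nonneg_left (h T (mem_powerset.1 hT))
    (mul_nonneg (pow_nonneg hp _) (pow_nonneg (sub_nonneg.2 hp1) _))

theorem abs_EE_le (hp : 0 ≤ p) (hp1 : p ≤ 1) {c : ℝ} (h : ∀ T ⊆ S, |f T| ≤ c) :
    |EE p S f| ≤ c := by
  rw [abs_le]
  constructor
  · calc -c = EE p S (fun _ => -c) := (EE_const p S (-c)).symm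
      _ ≤ EE p S f := EE_mono hp hp1 fun T hT => (abs_le.1 (h T hT)).1
  · calc EE p S f ≤ EE p S (fun _ => c) := EE_mono hp hp1 fun T hT => (abs_le.1 (h T hT)).2
      _ = c := EE_const p S c

theorem EE_union (p : ℝ) (h : Disjoint S S') (f : Finset α → ℝ) :
    EE p (S ∪ S') f = EE p S fun T => EE p S' fun T' => f (T ∪ T') := by
  induction S using Finset.induction_on generalizing f with
  | empty =>
    rw [EE_empty, empty_union]
    exact EE_congr fun T _ => by rw [empty_union]
  | insert e S he ih =>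
    have h1 : Disjoint S S' := disjoint_of_subset_left (subset_insert e S) h
    have h2 : e ∉ S' := disjoint_left.1 h (mem_insert_self e S)
    have h3 : e ∉ S ∪ S' := fun h' => (mem_union.1 h').elim he h2
    rw [insert_union, EE_insert p h3, EE_insert p he, ih h1, ih h1]
    simp only [insert_union]

theorem EE_comm (p q : ℝ) (S S' : Finset α) (f : Finset α → Finset α → ℝ) :
    EE p S (fun T => EE q S' (f T)) = EE q S' fun T' => EE p S fun T => f T T' := by
  unfold EE
  simp_rw [mul_sum]
  rw [sum_comm]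
  exact sum_congr rfl fun T _ => sum_congr rfl fun T' _ => by ring

theorem EE_marg (p : ℝ) (h : S' ⊆ S) (f : Finset α → ℝ) :
    EE p S (fun T => f (T ∩ S')) = EE p S' f := by
  have h1 : S = S' ∪ (S \ S') := (union_sdiff_of_subset h).symm
  have h2 : Disjoint S' (S \ S') := disjoint_sdiff
  calc EE p S (fun T => f (T ∩ S')) = EE p (S' ∪ (S \ S')) (fun T => f (T ∩ S')) := by rw [← h1]
    _ = EE p S' fun T => EE p (S \ S') fun T' => f ((T ∪ T') ∩ S') := EE_union p h2 _
    _ = EE p S' fun T => EE p (S \ S') fun _ => f T := by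
        refine EE_congr fun T hT => EE_congr fun T' hT' => ?_
        have : (T ∪ T') ∩ S' = T := by
          ext x
          simp only [mem_inter, mem_union]
          constructor
          · rintro ⟨hx | hx, hx'⟩
            · exact hx
            · exact absurd hx' (mem_sdiff.1 (hT' hx)).2
          · intro hx
            exact ⟨Or.inl hx, hT hx⟩
        rw [this]
    _ = EE p S' f := EE_congr fun T _ => EE_const p _ _

theorem EE_dep (p : ℝ) (h : S' ⊆ S) (hf : DepF f S') : EE p S f = EE p S' f := by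
  rw [← EE_marg p h f]
  refine EE_congr fun T _ => hf _ _ ?_
  rw [inter_assoc, inter_self]

/-- Independence. -/
theorem EE_mul (p : ℝ) {S1 S2 : Finset α} (h1 : S1 ⊆ S) (h2 : S2 ⊆ S) (h : Disjoint S1 S2)
    (hf : DepF f S1) (hg : DepF g S2) : EE p S (fun T => f T * g T) = EE p S f * EE p S g := by
  have h3 : DepF (fun T => f T * g T) (S1 ∪ S2) := by
    intro T T' hT
    have h4 : T ∩ S1 = T' ∩ S1 := by
      have := congrArg (fun X => X ∩ S1) hT
      simpa only [inter_assoc, union_inter_cancel_left] using this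
    have h5 : T ∩ S2 = T' ∩ S2 := by
      have := congrArg (fun X => X ∩ S2) hT
      simpa only [inter_assoc, union_inter_cancel_right] using this
    change f T * g T = f T' * g T'
    rw [hf T T' h4, hg T T' h5]
  rw [EE_dep p (union_subset h1 h2) h3, EE_union p h, EE_dep p h1 hf, EE_dep p h2 hg,
    ← EE_mul_const]
  refine EE_congr fun T hT => ?_
  rw [← EE_const_mul]
  refine EE_congr fun T' hT' => ?_
  have h6 : T' ∩ S1 = ∅ := disjoint_iff_inter_eq_empty.1
    (disjoint_of_subset_left hT' h.symm)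
  have h7 : T ∩ S2 = ∅ := disjoint_iff_inter_eq_empty.1
    (disjoint_of_subset_left hT h)
  rw [hf (T ∪ T') T (by rw [union_inter_distrib_right, h6, union_empty]),
    hg (T ∪ T') T' (by rw [union_inter_distrib_right, h7, empty_union])]

/-- Cauchy-Schwarz. -/
theorem EE_cs (hp : 0 ≤ p) (hp1 : p ≤ 1) (f g : Finset α → ℝ) :
    EE p S (fun T => f T * g T) ^ 2 ≤ EE p S (fun T => f T ^ 2) * EE p S (fun T => g T ^ 2) := by
  have hw : ∀ T : Finset α, Real.sqrt (p ^ T.card * (1 - p) ^ (S \ T).card) ^ 2 =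
      p ^ T.card * (1 - p) ^ (S \ T).card := fun T =>
    Real.sq_sqrt (mul_nonneg (pow_nonneg hp _) (pow_nonneg (sub_nonneg.2 hp1) _))
  have key := sum_mul_sq_le_sq_mul_sq S.powerset
    (fun T => Real.sqrt (p ^ T.card * (1 - p) ^ (S \ T).card) * f T)
    (fun T => Real.sqrt (p ^ T.card * (1 - p) ^ (S \ T).card) * g T)
  have e1 : ∑ T ∈ S.powerset, (Real.sqrt (p ^ T.card * (1 - p) ^ (S \ T).card) * f T) *
      (Real.sqrt (p ^ T.card * (1 - p) ^ (S \ T).card) * g T) = EE p S (fun T => f T * g T) := by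
    refine sum_congr rfl fun T _ => ?_
    have h1 := hw T
    generalize Real.sqrt (p ^ T.card * (1 - p) ^ (S \ T).card) = r at h1 ⊢
    rw [← h1]
    ring
  have e2 : ∀ k : Finset α → ℝ, ∑ T ∈ S.powerset,
      (Real.sqrt (p ^ T.card * (1 - p) ^ (S \ T).card) * k T) ^ 2 =
      EE p S (fun T => k T ^ 2) := by
    intro k
    refine sum_congr rfl fun T _ => ?_
    rw [mul_pow, hw T]
  rw [e1, e2 f, e2 g] at key
  exact key

end

end Pool.Agent.HD
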