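import Pool.Agent.Lib.MP_8ca597_hd.A01

/-!
# Row A02: calculus of `PP`

Everything follows from A01. `PP_bonf`: pointwise, `∑ 1_{A i} ≤ 1_{∪ A i} + ∑_i ∑_{j ≠ i} 1_{A i ∩ A j}`
(if `k ≥ 1` of the events occur, `k ≤ 1 + k (k - 1)`).
-/

set_option autoImplicit false

namespace Pool.Agent.HD

open Finset
open scoped ENNReal

section

variable {α : Type} [DecidableEq α] {p : ℝ} {S S' : Finset α} {A B : Set (Finset α)}

open Classical in
theorem PP_def (p : ℝ) (S : Finset α) (A : Set (Finset α)) :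
    PP p S A = EE p S fun T => if T ∈ A then 1 else 0 := rfl

theorem PP_congr (h : ∀ T ⊆ S, (T ∈ A ↔ T ∈ B)) : PP p S A = PP p S B := by
  refine EE_congr fun T hT => ?_
  by_cases hA : T ∈ A
  · rw [if_pos hA, if_pos ((h T hT).1 hA)]
  · rw [if_neg hA, if_neg (fun hB => hA ((h T hT).2 hB))]

theorem PP_nonneg (hp : 0 ≤ p) (hp1 : p ≤ 1) : 0 ≤ PP p S A := by
  refine EE_nonneg hp hp1 fun T _ => ?_
  split_ifs
  · exact zero_le_one
  · exact le_rfl

theorem PP_le_one (hp : 0 ≤ p) (hp1 : p ≤ 1) : PP p S A ≤ 1 := by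
  rw [← EE_const p S 1]
  refine EE_mono hp hp1 fun T _ => ?_
  split_ifs
  · exact le_rfl
  · exact zero_le_one

theorem PP_mono (hp : 0 ≤ p) (hp1 : p ≤ 1) (h : ∀ T ⊆ S, T ∈ A → T ∈ B) :
    PP p S A ≤ PP p S B := by
  refine EE_mono hp hp1 fun T hT => ?_
  by_cases hA : T ∈ A
  · rw [if_pos hA, if_pos (h T hT hA)]
  · rw [if_neg hA]
    split_ifs
    · exact zero_le_one
    · exact le_rfl

theorem PP_univ (p : ℝ) (S : Finset α) : PP p S Set.univ = 1 := by
  rw [← EE_const p S 1]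
  exact EE_congr fun T _ => if_pos (Set.mem_univ T)

theorem PP_empty (p : ℝ) (S : Finset α) : PP p S ∅ = 0 := by
  rw [← EE_const p S 0]
  exact EE_congr fun T _ => if_neg (Set.notMem_empty T)

theorem PP_compl (p : ℝ) (S : Finset α) (A : Set (Finset α)) : PP p S Aᶜ = 1 - PP p S A := by
  rw [← EE_const p S 1]
  unfold PP
  rw [← EE_sub]
  refine EE_congr fun T _ => ?_
  by_cases hA : T ∈ A
  · rw [if_pos hA, if_neg (fun h => h hA)]; norm_num
  · rw [if_neg hA, if_pos (show T ∈ Aᶜ from hA)]; norm_num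

theorem PP_union_le (hp : 0 ≤ p) (hp1 : p ≤ 1) : PP p S (A ∪ B) ≤ PP p S A + PP p S B := by
  unfold PP
  rw [← EE_add]
  refine EE_mono hp hp1 fun T _ => ?_
  by_cases hA : T ∈ A
  · rw [if_pos hA, if_pos (show T ∈ A ∪ B from Or.inl hA)]
    split_ifs
    · norm_num
    · norm_num
  · by_cases hB : T ∈ B
    · rw [if_neg hA, if_pos hB, if_pos (show T ∈ A ∪ B from Or.inr hB)]; norm_num
    · rw [if_neg hA, if_neg hB, if_neg (show ¬ T ∈ A ∪ B from fun h => h.elim hA hB)]; norm_num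

theorem PP_union_add (p : ℝ) (S : Finset α) (A B : Set (Finset α)) :
    PP p S (A ∪ B) + PP p S (A ∩ B) = PP p S A + PP p S B := by
  unfold PP
  rw [← EE_add, ← EE_add]
  refine EE_congr fun T _ => ?_
  by_cases hA : T ∈ A
  · by_cases hB : T ∈ B
    · rw [if_pos hA, if_pos hB, if_pos (show T ∈ A ∪ B from Or.inl hA),
        if_pos (show T ∈ A ∩ B from ⟨hA, hB⟩)]
    · rw [if_pos hA, if_neg hB, if_pos (show T ∈ A ∪ B from Or.inl hA),
        if_neg (show ¬ T ∈ A ∩ B from fun h => hB h.2)]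
  · by_cases hB : T ∈ B
    · rw [if_neg hA, if_pos hB, if_pos (show T ∈ A ∪ B from Or.inr hB),
        if_neg (show ¬ T ∈ A ∩ B from fun h => hA h.1)]
      norm_num
    · rw [if_neg hA, if_neg hB, if_neg (show ¬ T ∈ A ∪ B from fun h => h.elim hA hB),
        if_neg (show ¬ T ∈ A ∩ B from fun h => hA h.1)]

theorem PP_exists_le {ι : Type} (hp : 0 ≤ p) (hp1 : p ≤ 1) (s : Finset ι)
    (A : ι → Set (Finset α)) : PP p S {T | ∃ i ∈ s, T ∈ A i} ≤ ∑ i ∈ s, PP p S (A i) := by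
  unfold PP
  rw [← EE_sum]
  refine EE_mono hp hp1 fun T _ => ?_
  have h0 : ∀ i ∈ s, (0 : ℝ) ≤ @ite ℝ (T ∈ A i) (Classical.propDecidable _) 1 0 := by
    intro i _
    split_ifs
    · exact zero_le_one
    · exact le_rfl
  by_cases h : ∃ i ∈ s, T ∈ A i
  · rw [if_pos (show T ∈ {T | ∃ i ∈ s, T ∈ A i} from h)]
    obtain ⟨i, hi, hT⟩ := h
    have h1 := Finset.single_le_sum h0 hi
    rw [if_pos hT] at h1
    exact h1
  · rw [if_neg (show ¬ T ∈ {T | ∃ i ∈ s, T ∈ A i} from h)]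
    exact Finset.sum_nonneg h0

/-- Disjoint events. -/
theorem PP_exists_eq {ι : Type} (p : ℝ) (s : Finset ι) (A : ι → Set (Finset α))
    (h : ∀ T ⊆ S, ∀ i ∈ s, ∀ j ∈ s, T ∈ A i → T ∈ A j → i = j) :
    PP p S {T | ∃ i ∈ s, T ∈ A i} = ∑ i ∈ s, PP p S (A i) := by
  unfold PP
  rw [← EE_sum]
  refine EE_congr fun T hT => ?_
  by_cases h' : ∃ i ∈ s, T ∈ A i
  · rw [if_pos (show T ∈ {T | ∃ i ∈ s, T ∈ A i} from h')]
    obtain ⟨i, hi, hTi⟩ := h'
    rw [Finset.sum_eq_single_of_mem i hi, if_pos hTi]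
    intro j hj hji
    rw [if_neg (fun hTj => hji (h T hT j hj i hi hTj hTi))]
  · rw [if_neg (show ¬ T ∈ {T | ∃ i ∈ s, T ∈ A i} from h')]
    refine (Finset.sum_eq_zero fun i hi => ?_).symm
    rw [if_neg (fun hTi => h' ⟨i, hi, hTi⟩)]

/-- The Bonferroni inequality. -/
theorem PP_bonf {ι : Type} [DecidableEq ι] (hp : 0 ≤ p) (hp1 : p ≤ 1) (s : Finset ι)
    (A : ι → Set (Finset α)) :
    ∑ i ∈ s, PP p S (A i) ≤ PP p S {T | ∃ i ∈ s, T ∈ A i} +
      ∑ i ∈ s, ∑ j ∈ s.erase i, PP p S (A i ∩ A j) := by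
  unfold PP
  simp only [← EE_sum]
  rw [← EE_add]
  refine EE_mono hp hp1 fun T _ => ?_
  have h0 : ∀ B : Set (Finset α), (0 : ℝ) ≤ @ite ℝ (T ∈ B) (Classical.propDecidable _) 1 0 := by
    intro B
    split_ifs
    · exact zero_le_one
    · exact le_rfl
  by_cases h : ∃ i ∈ s, T ∈ A i
  · rw [if_pos (show T ∈ {T | ∃ i ∈ s, T ∈ A i} from h)]
    obtain ⟨i, hi, hT⟩ := h
    have h1 : ∑ j ∈ s.erase i, @ite ℝ (T ∈ A i ∩ A j) (Classical.propDecidable _) 1 0 ≤
        ∑ i ∈ s, ∑ j ∈ s.erase i, @ite ℝ (T ∈ A i ∩ A j) (Classical.propDecidable _) 1 0 :=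
      Finset.single_le_sum
        (f := fun i => ∑ j ∈ s.erase i,
          @ite ℝ (T ∈ A i ∩ A j) (Classical.propDecidable _) 1 0)
        (fun i _ => Finset.sum_nonneg fun j _ => h0 _) hi
    have h2 : ∑ j ∈ s.erase i, @ite ℝ (T ∈ A j) (Classical.propDecidable _) 1 0 =
        ∑ j ∈ s.erase i, @ite ℝ (T ∈ A i ∩ A j) (Classical.propDecidable _) 1 0 := by
      refine Finset.sum_congr rfl fun j _ => ?_
      by_cases hj : T ∈ A j
      · rw [if_pos hj, if_pos ⟨hT, hj⟩]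
      · rw [if_neg hj, if_neg (fun h => hj h.2)]
    rw [← Finset.add_sum_erase s _ hi, if_pos hT, h2]
    exact add_le_add_right h1 1
  · rw [if_neg (show ¬ T ∈ {T | ∃ i ∈ s, T ∈ A i} from h), zero_add]
    have h1 : ∑ i ∈ s, @ite ℝ (T ∈ A i) (Classical.propDecidable _) 1 0 = 0 := by
      refine Finset.sum_eq_zero fun i hi => ?_
      rw [if_neg (fun hTi => h ⟨i, hi, hTi⟩)]
    rw [h1]
    exact Finset.sum_nonneg fun i _ => Finset.sum_nonneg fun j _ => h0 _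

theorem A02_depF {F : Finset α} (hA : Dep A F) :
    DepF (fun T => @ite ℝ (T ∈ A) (Classical.propDecidable _) 1 0) F := by
  intro T T' hTT
  by_cases h : T ∈ A
  · simp only
    rw [if_pos h, if_pos ((hA T T' hTT).1 h)]
  · simp only
    rw [if_neg h, if_neg (fun h' => h ((hA T T' hTT).2 h'))]

theorem PP_dep (p : ℝ) (h : S' ⊆ S) (hA : Dep A S') : PP p S A = PP p S' A :=
  EE_dep p h (A02_depF hA)

theorem PP_inter (p : ℝ) {S1 S2 : Finset α} (h1 : S1 ⊆ S) (h2 : S2 ⊆ S) (h : Disjoint S1 S2)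
    (hA : Dep A S1) (hB : Dep B S2) : PP p S (A ∩ B) = PP p S A * PP p S B := by
  unfold PP
  rw [← EE_mul p h1 h2 h (A02_depF hA) (A02_depF hB)]
  refine EE_congr fun T _ => ?_
  by_cases hA : T ∈ A
  · by_cases hB : T ∈ B
    · rw [if_pos hA, if_pos hB, if_pos ⟨hA, hB⟩, one_mul]
    · rw [if_neg hB, if_neg (fun h => hB h.2), mul_zero]
  · rw [if_neg hA, if_neg (fun h => hA h.1), zero_mul]

theorem PP_mem (p : ℝ) {e : α} (he : e ∈ S) : PP p S {T | e ∈ T} = p := by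
  have h1 : S = insert e (S.erase e) := (Finset.insert_erase he).symm
  rw [h1]
  unfold PP
  rw [EE_insert p (Finset.notMem_erase e S)]
  have h2 : EE p (S.erase e) (fun T => @ite ℝ (insert e T ∈ {T : Finset α | e ∈ T})
      (Classical.propDecidable _) 1 0) = 1 := by
    refine (EE_congr fun T _ => ?_).trans (EE_const p (S.erase e) 1)
    exact if_pos (show insert e T ∈ {T : Finset α | e ∈ T} from Finset.mem_insert_self e T)
  have h3 : EE p (S.erase e) (fun T => @ite ℝ (T ∈ {T : Finset α | e ∈ T})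
      (Classical.propDecidable _) 1 0) = 0 := by
    refine (EE_congr fun T hT => ?_).trans (EE_const p (S.erase e) 0)
    exact if_neg (show ¬ T ∈ {T : Finset α | e ∈ T} from
      fun h => Finset.notMem_erase e S (hT h))
  rw [h2, h3]
  ring

end

end Pool.Agent.HD
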