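import Pool.Agent.Lib.MP_8ca597_hd.A02

/-!
# Row A03: dependence on `p`

`EE_two`: induction on `S` with `EE_insert`. `EE_mono_p`: `EE_two` with `r = (p' - p) / (1 - p)`
(`p < 1`), or induction with `EE_insert`. `EE_deriv`: induction with `EE_insert`.
`EE_score`: the derivative of each summand (`0 < p < 1`). `EE_tilt`: for a set `T` with `A`
elements out of `N`, `p^A (1-p)^(N-A) ≤ exp(δ² N / p²) √(q^A (1-q)^(N-A)) √(p'^A (1-p')^(N-A))`
for `p = (q+p')/2`, `δ = p - q ≤ p/2`, `p ≤ 1/2`: `1/(1 - x) ≤ exp(2 x)` for `0 ≤ x ≤ 1/2`, and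
`q p' = p² - δ²`, `(1-q)(1-p') = (1-p)² - δ²`.
-/

set_option autoImplicit false

namespace Pool.Agent.HD

open Finset
open scoped ENNReal

section

variable {α : Type} [DecidableEq α] {p : ℝ} {S : Finset α}

theorem EE_two {p1 p2 r : ℝ} (h : 1 - p2 = (1 - p1) * (1 - r)) (S : Finset α)
    (f : Finset α → ℝ) : EE p2 S f = EE p1 S fun T1 => EE r S fun T2 => f (T1 ∪ T2) := by
  induction S using Finset.induction_on generalizing f with
  | empty => simp [EE_empty]
  | insert e S he ih =>
    rw [EE_insert p2 he, EE_insert p1 he, ih, ih]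
    have e1 : ∀ T1 : Finset α, (EE r (insert e S) fun T2 => f (insert e T1 ∪ T2)) =
        EE r S fun T2 => f (insert e (T1 ∪ T2)) := by
      intro T1
      rw [EE_insert r he]
      have a1 : ∀ T2 : Finset α, insert e T1 ∪ insert e T2 = insert e (T1 ∪ T2) := by
        intro T2; ext x; simp only [mem_union, mem_insert]; tauto
      have a2 : ∀ T2 : Finset α, insert e T1 ∪ T2 = insert e (T1 ∪ T2) := by
        intro T2; rw [insert_union]
      simp only [a1, a2]
      ring
    have e2 : ∀ T1 : Finset α, (EE r (insert e S) fun T2 => f (T1 ∪ T2)) =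
        r * (EE r S fun T2 => f (insert e (T1 ∪ T2))) +
          (1 - r) * EE r S fun T2 => f (T1 ∪ T2) := by
      intro T1
      rw [EE_insert r he]
      have a1 : ∀ T2 : Finset α, T1 ∪ insert e T2 = insert e (T1 ∪ T2) := by
        intro T2; rw [union_insert]
      simp only [a1]
    simp only [e1, e2, EE_add, EE_const_mul]
    have e3 : p2 = 1 - (1 - p1) * (1 - r) := by linarith
    rw [e3]
    ring

theorem EE_mono_p {p p' : ℝ} (hp : 0 ≤ p) (hpp : p ≤ p') (hp1 : p' ≤ 1) {f : Finset α → ℝ}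
    (hf : ∀ T T', T ⊆ T' → f T ≤ f T') : EE p S f ≤ EE p' S f := by
  induction S using Finset.induction_on generalizing f with
  | empty => simp [EE_empty]
  | insert e S he ih =>
    rw [EE_insert p he, EE_insert p' he]
    have h1 := ih hf
    have h2 := ih (f := fun T => f (insert e T))
      (fun T T' h => hf _ _ (insert_subset_insert e h))
    have h3 : EE p S f ≤ EE p S fun T => f (insert e T) :=
      EE_mono hp (hpp.trans hp1) fun T _ => hf _ _ (subset_insert e T)
    nlinarith [mul_nonneg (sub_nonneg.2 hpp) (sub_nonneg.2 h3),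
      mul_nonneg (hp.trans hpp) (sub_nonneg.2 h2),
      mul_nonneg (sub_nonneg.2 hp1) (sub_nonneg.2 h1)]

theorem PP_mono_p {p p' : ℝ} (hp : 0 ≤ p) (hpp : p ≤ p') (hp1 : p' ≤ 1) {A : Set (Finset α)}
    (hA : Up A) : PP p S A ≤ PP p' S A := by
  rw [PP_def, PP_def]
  refine EE_mono_p hp hpp hp1 fun T T' h => ?_
  by_cases hT : T ∈ A
  · rw [if_pos hT, if_pos (hA h hT)]
  · rw [if_neg hT]
    split_ifs <;> norm_num

theorem EE_deriv (S : Finset α) (f : Finset α → ℝ) (p : ℝ) :
    HasDerivAt (fun p => EE p S f)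
      (∑ e ∈ S, EE p S fun T => f (insert e T) - f (T.erase e)) p := by
  induction S using Finset.induction_on generalizing f with
  | empty =>
    simp only [EE_empty, sum_empty]
    exact hasDerivAt_const p (f ∅)
  | insert e S he ih =>
    have h1 := ih (fun T => f (insert e T))
    have h2 := ih f
    have h3 : HasDerivAt (fun p : ℝ => p * (EE p S fun T => f (insert e T)) + (1 - p) * EE p S f)
        ((1 * (EE p S fun T => f (insert e T)) +
          p * ∑ e' ∈ S, EE p S fun T => f (insert e (insert e' T)) - f (insert e (T.erase e'))) +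
          (-1 * EE p S f + (1 - p) * ∑ e' ∈ S, EE p S fun T => f (insert e' T) - f (T.erase e')))
        p := by
      refine HasDerivAt.add ?_ ?_
      · exact (hasDerivAt_id p).mul h1
      · have h4 : HasDerivAt (fun p : ℝ => 1 - p) (-1) p := by
          simpa using (hasDerivAt_id' p).const_sub 1
        exact h4.mul h2
    have h5 : (fun p : ℝ => EE p (insert e S) f) =
        fun p : ℝ => p * (EE p S fun T => f (insert e T)) + (1 - p) * EE p S f := by
      funext p
      exact EE_insert p he f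
    rw [h5]
    convert h3 using 1
    rw [sum_insert he]
    have b1 : (EE p (insert e S) fun T => f (insert e T) - f (T.erase e)) =
        (EE p S fun T => f (insert e T)) - EE p S f := by
      rw [EE_insert p he]
      have c1 : (EE p S fun T => f (insert e (insert e T)) - f ((insert e T).erase e)) =
          (EE p S fun T => f (insert e T)) - EE p S f := by
        rw [← EE_sub]
        refine EE_congr fun T hT => ?_
        have heT : e ∉ T := fun h => he (hT h)
        rw [insert_idem, erase_insert heT]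
      have c2 : (EE p S fun T => f (insert e T) - f (T.erase e)) =
          (EE p S fun T => f (insert e T)) - EE p S f := by
        rw [← EE_sub]
        refine EE_congr fun T hT => ?_
        have heT : e ∉ T := fun h => he (hT h)
        rw [erase_eq_of_notMem heT]
      rw [c1, c2]
      ring
    have b2 : (∑ e' ∈ S, EE p (insert e S) fun T => f (insert e' T) - f (T.erase e')) =
        p * (∑ e' ∈ S, EE p S fun T => f (insert e (insert e' T)) - f (insert e (T.erase e'))) +
          (1 - p) * ∑ e' ∈ S, EE p S fun T => f (insert e' T) - f (T.erase e') := by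
      rw [mul_sum, mul_sum, ← sum_add_distrib]
      refine sum_congr rfl fun e' he' => ?_
      have hne : e' ≠ e := fun h => he (h ▸ he')
      rw [EE_insert p he]
      congr 2
      refine EE_congr fun T _ => ?_
      rw [insert_comm e' e T, erase_insert_of_ne hne.symm]
    rw [b1, b2]
    ring

theorem EE_score (S : Finset α) (f : Finset α → ℝ) {p : ℝ} (hp : 0 < p) (hp1 : p < 1) :
    HasDerivAt (fun p => EE p S f)
      (EE p S fun T => f T * (T.card / p - (S \ T).card / (1 - p))) p := by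
  unfold EE
  refine HasDerivAt.fun_sum fun T _ => ?_
  have hq : (1 : ℝ) - p ≠ 0 := by linarith
  have hA : ∀ (n : ℕ) (x : ℝ), x ≠ 0 → (n : ℝ) * x ^ (n - 1) = x ^ n * (n / x) := by
    intro n x hx
    rcases n with _ | n
    · simp
    · rw [Nat.add_sub_cancel, pow_succ]
      field_simp
  have h1 : HasDerivAt (fun x : ℝ => x ^ T.card) (p ^ T.card * (T.card / p)) p := by
    have := hasDerivAt_pow T.card p
    rwa [hA T.card p hp.ne'] at this
  have h4 : HasDerivAt (fun x : ℝ => 1 - x) (-1) p := by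
    simpa using (hasDerivAt_id' p).const_sub 1
  have h2 : HasDerivAt (fun x : ℝ => (1 - x) ^ (S \ T).card)
      ((1 - p) ^ (S \ T).card * ((S \ T).card / (1 - p)) * (-1)) p := by
    have := h4.fun_pow (S \ T).card
    rwa [hA (S \ T).card (1 - p) hq] at this
  have h3 := (h1.fun_mul h2).mul_const (f T)
  have h5 : p ^ T.card * (1 - p) ^ (S \ T).card *
      (f T * (T.card / p - (S \ T).card / (1 - p))) =
      (p ^ T.card * (T.card / p) * (1 - p) ^ (S \ T).card +
        p ^ T.card * ((1 - p) ^ (S \ T).card * ((S \ T).card / (1 - p)) * (-1))) * f T := by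
    ring
  rw [h5]
  exact h3

theorem EE_continuous (S : Finset α) (f : Finset α → ℝ) : Continuous fun p => EE p S f := by
  unfold EE
  fun_prop

theorem PP_continuous (S : Finset α) (A : Set (Finset α)) : Continuous fun p => PP p S A := by
  unfold PP
  exact EE_continuous S _

theorem EE_tilt {q p' δ : ℝ} (hp : p ≤ 1 / 2) (hp0 : 0 < p) (hq : q = p - δ) (hp' : p' = p + δ)
    (h0 : 0 ≤ δ) (h1 : δ ≤ p / 2) (S T : Finset α) (hT : T ⊆ S) :
    p ^ T.card * (1 - p) ^ (S \ T).card ≤ Real.exp (δ ^ 2 * S.card / p ^ 2) *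
      (√(q ^ T.card * (1 - q) ^ (S \ T).card) * √(p' ^ T.card * (1 - p') ^ (S \ T).card)) := by
  have hcard : (S.card : ℝ) = T.card + (S \ T).card := by
    have := card_sdiff_add_card_eq_card hT
    rw [← this]
    push_cast
    ring
  set a := T.card
  set b := (S \ T).card
  set x : ℝ := δ ^ 2 / p ^ 2 with hx
  have hp2 : 0 < p ^ 2 := by positivity
  have hxp : x * p ^ 2 = δ ^ 2 := by rw [hx]; field_simp
  have hx0 : 0 ≤ x := by positivity
  have hδ : δ ^ 2 ≤ p ^ 2 / 4 := by nlinarith
  have key : ∀ u : ℝ, p ^ 2 ≤ u → u ≤ Real.exp (2 * x) * (u - δ ^ 2) := by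
    intro u hu
    have h2 : 2 * x + 1 ≤ Real.exp (2 * x) := Real.add_one_le_exp _
    have h3 : 0 ≤ u - δ ^ 2 := by nlinarith
    have h4 : (2 * x + 1) * (u - δ ^ 2) ≤ Real.exp (2 * x) * (u - δ ^ 2) :=
      mul_le_mul_of_nonneg_right h2 h3
    have h5 : x * p ^ 2 ≤ x * u := mul_le_mul_of_nonneg_left hu hx0
    have h6 : x * δ ^ 2 ≤ x * (p ^ 2 / 4) := mul_le_mul_of_nonneg_left hδ hx0
    nlinarith
  have hq0 : 0 ≤ q := by rw [hq]; linarith
  have hq1 : 0 ≤ 1 - q := by rw [hq]; linarith
  have hp'0 : 0 ≤ p' := by rw [hp']; linarith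
  have hp'1 : 0 ≤ 1 - p' := by rw [hp']; linarith
  have hX : 0 ≤ q ^ a * (1 - q) ^ b := by positivity
  have e1 : √(q ^ a * (1 - q) ^ b) * √(p' ^ a * (1 - p') ^ b) =
      √((p ^ 2 - δ ^ 2) ^ a * ((1 - p) ^ 2 - δ ^ 2) ^ b) := by
    rw [← Real.sqrt_mul hX]
    congr 1
    have c1 : p ^ 2 - δ ^ 2 = q * p' := by rw [hq, hp']; ring
    have c2 : (1 - p) ^ 2 - δ ^ 2 = (1 - q) * (1 - p') := by rw [hq, hp']; ring
    rw [c1, c2, mul_pow, mul_pow]
    ring
  have e2 : Real.exp (δ ^ 2 * S.card / p ^ 2) = √(Real.exp (2 * x) ^ a * Real.exp (2 * x) ^ b) := by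
    rw [← pow_add, ← Real.exp_nat_mul, Real.sqrt_eq_rpow, ← Real.exp_mul]
    congr 1
    rw [hcard, hx]
    push_cast
    ring
  rw [e1, e2, ← Real.sqrt_mul (by positivity)]
  refine Real.le_sqrt_of_sq_le ?_
  have hu1 := key (p ^ 2) le_rfl
  have hu2 := key ((1 - p) ^ 2) (by nlinarith)
  have e3 : (p ^ a * (1 - p) ^ b) ^ 2 = (p ^ 2) ^ a * ((1 - p) ^ 2) ^ b := by
    rw [mul_pow, ← pow_mul, ← pow_mul, ← pow_mul, ← pow_mul, mul_comm a 2, mul_comm b 2]
  have e4 : Real.exp (2 * x) ^ a * Real.exp (2 * x) ^ b *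
      ((p ^ 2 - δ ^ 2) ^ a * ((1 - p) ^ 2 - δ ^ 2) ^ b) =
      (Real.exp (2 * x) * (p ^ 2 - δ ^ 2)) ^ a *
        (Real.exp (2 * x) * ((1 - p) ^ 2 - δ ^ 2)) ^ b := by
    rw [mul_pow, mul_pow]
    ring
  rw [e3, e4]
  refine mul_le_mul (pow_le_pow_left₀ (by positivity) hu1 a)
    (pow_le_pow_left₀ (by positivity) hu2 b) (by positivity) ?_
  exact pow_nonneg (le_trans (by positivity) hu1) a

end

end Pool.Agent.HD
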