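import Pool.Agent.Lib.MP_8ca597_hd.A02

/-!
# Row A04: the van den Berg-Kesten inequality for `p ≤ 1 / 2`

Port of `Pool/Agent/Lib/MP_6bd702_perc_h60/BK.lean` (counting measure there). Induction on `S` for
all pairs of increasing events: with `A' = sec e A`, `a1 = P(A')`, `a0 = P(A)` on `S`,
`P((A □ B)') ≤ P(A' □ B) + P(A □ B') - P(A □ B)` (the union of the two events contains the section of
`A □ B` and the intersection contains `A □ B`), so on `insert e S`
`P(A □ B) ≤ p (a1 b0 + a0 b1) + (1 - 2 p) a0 b0 ≤ (p a1 + (1 - p) a0) (p b1 + (1 - p) b0)`, since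
the difference is `p² (a1 - a0) (b1 - b0) ≥ 0`.
-/

set_option autoImplicit false

namespace Pool.Agent.HD

open Finset
open scoped ENNReal

section

variable {α : Type} [DecidableEq α] {p : ℝ} {S : Finset α}

/-- The section at an open element. -/
private def A04_sec (e : α) (A : Set (Finset α)) : Set (Finset α) := {T | insert e T ∈ A}

private lemma A04_up_sec {A : Set (Finset α)} (hA : Up A) (e : α) : Up (A04_sec e A) :=
  fun _ _ h hT => hA (Finset.insert_subset_insert e h) hT

private lemma A04_subset_sec {A : Set (Finset α)} (hA : Up A) (e : α) : A ⊆ A04_sec e A :=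
  fun _ hT => hA (Finset.subset_insert e _) hT

private lemma A04_insert {e : α} (he : e ∉ S) (A : Set (Finset α)) :
    PP p (insert e S) A = p * PP p S (A04_sec e A) + (1 - p) * PP p S A := by
  classical
  rw [PP_def, EE_insert p he, PP_def, PP_def]
  rfl

private lemma A04_empty (p : ℝ) (A : Set (Finset α)) [Decidable (∅ ∈ A)] :
    PP p (∅ : Finset α) A = if ∅ ∈ A then 1 else 0 := by
  classical
  rw [PP_def, EE_empty]
  congr

theorem up_box (A B : Set (Finset α)) : Up (box A B) := by
  rintro T T' h ⟨K, L, h1, h2, h3⟩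
  exact ⟨K, L, h1.trans h, h2.trans h, h3⟩

theorem up_boxL (l : List (Set (Finset α))) : Up (boxL l) := by
  cases l with
  | nil => exact fun _ _ _ _ => Set.mem_univ _
  | cons A l => exact up_box _ _

theorem box_mono {A A' B B' : Set (Finset α)} (h : A ⊆ A') (h' : B ⊆ B') :
    box A B ⊆ box A' B' := by
  rintro T ⟨K, L, h1, h2, h3, h4, h5⟩
  exact ⟨K, L, h1, h2, h3, h h4, h' h5⟩

/-- The van den Berg-Kesten inequality. -/
theorem bk (hp : 0 ≤ p) (hp1 : p ≤ 1 / 2) (S : Finset α) {A B : Set (Finset α)} (hA : Up A)
    (hB : Up B) : PP p S (box A B) ≤ PP p S A * PP p S B := by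
  classical
  have hp1' : p ≤ 1 := by linarith
  induction S using Finset.induction_on generalizing A B with
  | empty =>
    rw [A04_empty, A04_empty, A04_empty]
    by_cases hA' : ∅ ∈ A
    · by_cases hB' : ∅ ∈ B
      · rw [if_pos hA', if_pos hB']
        split_ifs <;> norm_num
      · have : ∅ ∉ box A B := by
          rintro ⟨K, L, h2, h3, _, _, h6⟩
          rw [Finset.subset_empty] at h3
          subst h3
          exact hB' h6
        rw [if_neg this]
        split_ifs <;> norm_num
    · have : ∅ ∉ box A B := by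
        rintro ⟨K, L, h2, h3, _, h5, _⟩
        rw [Finset.subset_empty] at h2
        subst h2
        exact hA' h5
      rw [if_neg this]
      split_ifs <;> norm_num
  | @insert e S he ih =>
    have h00 := ih hA hB
    have h10 := ih (A04_up_sec hA e) hB
    have h01 := ih hA (A04_up_sec hB e)
    have hX : PP p S (A04_sec e (box A B)) ≤
        PP p S (box (A04_sec e A) B ∪ box A (A04_sec e B)) := by
      refine PP_mono hp hp1' ?_
      rintro T hT ⟨K, L, h1, h2, h3, h4, h5⟩
      by_cases hK : e ∈ K
      · left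
        have hL : e ∉ L := fun h => (Finset.disjoint_left.1 h3) hK h
        refine ⟨K.erase e, L, ?_, ?_, ?_, ?_, h5⟩
        · exact Finset.subset_insert_iff.1 h1
        · exact (Finset.subset_insert_iff_of_notMem hL).1 h2
        · exact h3.mono_left (Finset.erase_subset _ _)
        · change insert e (K.erase e) ∈ A
          rw [Finset.insert_erase hK]
          exact h4
      · right
        refine ⟨K, L.erase e, ?_, ?_, ?_, h4, ?_⟩
        · exact (Finset.subset_insert_iff_of_notMem hK).1 h1
        · exact Finset.subset_insert_iff.1 h2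
        · exact h3.mono_right (Finset.erase_subset _ _)
        · change insert e (L.erase e) ∈ B
          refine hB ?_ h5
          intro x hx
          by_cases hxe : x = e
          · subst hxe
            exact Finset.mem_insert_self _ _
          · exact Finset.mem_insert_of_mem (Finset.mem_erase.2 ⟨hxe, hx⟩)
    have hI : PP p S (box A B) ≤ PP p S (box (A04_sec e A) B ∩ box A (A04_sec e B)) := by
      refine PP_mono hp hp1' fun T _ hT => ⟨?_, ?_⟩
      · exact box_mono (A04_subset_sec hA e) (le_refl B) hT
      · exact box_mono (le_refl A) (A04_subset_sec hB e) hT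
    have hU := PP_union_add p S (box (A04_sec e A) B) (box A (A04_sec e B))
    have hAA : PP p S A ≤ PP p S (A04_sec e A) :=
      PP_mono hp hp1' fun T _ hT => A04_subset_sec hA e hT
    have hBB : PP p S B ≤ PP p S (A04_sec e B) :=
      PP_mono hp hp1' fun T _ hT => A04_subset_sec hB e hT
    rw [A04_insert he, A04_insert he, A04_insert he]
    set a0 := PP p S A
    set b0 := PP p S B
    set a1 := PP p S (A04_sec e A)
    set b1 := PP p S (A04_sec e B)
    set c0 := PP p S (box A B)
    have h3 : PP p S (A04_sec e (box A B)) ≤ a1 * b0 + a0 * b1 - c0 := by linarith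
    have h4 : p * PP p S (A04_sec e (box A B)) ≤ p * (a1 * b0 + a0 * b1 - c0) :=
      mul_le_mul_of_nonneg_left h3 hp
    have h5 : (1 - 2 * p) * c0 ≤ (1 - 2 * p) * (a0 * b0) :=
      mul_le_mul_of_nonneg_left h00 (by linarith)
    have h6 : 0 ≤ p ^ 2 * ((a1 - a0) * (b1 - b0)) :=
      mul_nonneg (sq_nonneg p) (mul_nonneg (sub_nonneg.2 hAA) (sub_nonneg.2 hBB))
    nlinarith

theorem bk3 (hp : 0 ≤ p) (hp1 : p ≤ 1 / 2) (S : Finset α) {A B C : Set (Finset α)} (hA : Up A)
    (hB : Up B) (hC : Up C) : PP p S (box A (box B C)) ≤ PP p S A * PP p S B * PP p S C := by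
  have h1 := bk hp hp1 S hA (up_box B C)
  have h2 := bk hp hp1 S hB hC
  have h3 : 0 ≤ PP p S A := PP_nonneg hp (by linarith)
  calc PP p S (box A (box B C)) ≤ PP p S A * PP p S (box B C) := h1
    _ ≤ PP p S A * (PP p S B * PP p S C) := mul_le_mul_of_nonneg_left h2 h3
    _ = _ := by ring

theorem bkL (hp : 0 ≤ p) (hp1 : p ≤ 1 / 2) (S : Finset α) (l : List (Set (Finset α)))
    (hl : ∀ A ∈ l, Up A) : PP p S (boxL l) ≤ (l.map fun A => PP p S A).prod := by
  induction l with
  | nil =>
    change PP p S Set.univ ≤ _
    rw [PP_univ, List.map_nil, List.prod_nil]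
  | cons A l ih =>
    have h1 := bk hp hp1 S (hl A List.mem_cons_self) (up_boxL l)
    have h2 := ih fun B hB => hl B (List.mem_cons_of_mem _ hB)
    have h3 : 0 ≤ PP p S A := PP_nonneg hp (by linarith)
    rw [List.map_cons, List.prod_cons]
    exact h1.trans (mul_le_mul_of_nonneg_left h2 h3)

end

end Pool.Agent.HD
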