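import Pool.Agent.Lib.MP_8ca597_hd.Defs

/-!
# Row A05: elementary facts on edges, connections and clusters
-/

set_option autoImplicit false

namespace Pool.Agent.HD

open Finset
open scoped ENNReal

variable {d : ℕ}

theorem adj_comm {x y : Vx d} : Adj x y ↔ Adj y x := by
  unfold Adj
  rw [Finset.sum_congr rfl fun i _ => abs_sub_comm (x i) (y i)]

theorem Adj.symm {x y : Vx d} (h : Adj x y) : Adj y x := adj_comm.1 h

theorem Adj.ne {x y : Vx d} (h : Adj x y) : x ≠ y := by
  rintro rfl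
  unfold Adj at h
  simp at h

theorem mem_edges {V : Finset (Vx d)} {x y : Vx d} :
    s(x, y) ∈ edges V ↔ x ∈ V ∧ y ∈ V ∧ Adj x y := by
  classical
  unfold edges
  rw [Finset.mem_filter, Finset.mk_mem_sym2_iff, and_assoc]
  refine and_congr_right fun _ => and_congr_right fun _ => ⟨?_, fun h => ⟨x, y, rfl, h⟩⟩
  rintro ⟨a, b, hab, h⟩
  rw [Sym2.eq_iff] at hab
  rcases hab with ⟨rfl, rfl⟩ | ⟨rfl, rfl⟩
  · exact h
  · exact h.symm

theorem edges_mono {V W : Finset (Vx d)} (h : V ⊆ W) : edges V ⊆ edges W := by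
  intro e
  induction e using Sym2.ind with
  | _ x y =>
    rw [mem_edges, mem_edges]
    exact fun h' => ⟨h h'.1, h h'.2.1, h'.2.2⟩

theorem mem_touch {V K : Finset (Vx d)} {x y : Vx d} :
    s(x, y) ∈ touch V K ↔ (x ∈ V ∧ y ∈ V ∧ Adj x y) ∧ (x ∈ K ∨ y ∈ K) := by
  classical
  unfold touch
  rw [Finset.mem_filter, mem_edges]
  refine and_congr_right fun _ => ⟨?_, ?_⟩
  · rintro ⟨z, hz, hz'⟩
    rw [Sym2.mem_iff] at hz'
    rcases hz' with rfl | rfl
    · exact Or.inl hz
    · exact Or.inr hz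
  · rintro (h | h)
    · exact ⟨x, h, Sym2.mem_mk_left _ _⟩
    · exact ⟨y, h, Sym2.mem_mk_right _ _⟩

theorem touch_subset (V K : Finset (Vx d)) : touch V K ⊆ edges V := by
  classical
  exact Finset.filter_subset _ _

/-- The edges of `V` which do not touch `K` are the edges of `V \ K`. -/
theorem edges_sdiff_touch (V K : Finset (Vx d)) : edges V \ touch V K = edges (V \ K) := by
  classical
  ext e
  induction e using Sym2.ind with
  | _ x y =>
    rw [Finset.mem_sdiff, mem_edges, mem_touch, mem_edges, Finset.mem_sdiff, Finset.mem_sdiff]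
    tauto

theorem Conn.left {T : Finset (Ed d)} {V : Set (Vx d)} {x y : Vx d} (h : Conn T V x y) :
    x ∈ V := h.1

theorem Conn.right {T : Finset (Ed d)} {V : Set (Vx d)} {x y : Vx d} (h : Conn T V x y) :
    y ∈ V := by
  rcases Relation.ReflTransGen.cases_tail h.2 with h1 | ⟨z, _, h2⟩
  · rw [h1]
    exact h.1
  · exact h2.1

theorem Conn.refl {T : Finset (Ed d)} {V : Set (Vx d)} {x : Vx d} (h : x ∈ V) : Conn T V x x :=
  ⟨h, Relation.ReflTransGen.refl⟩

theorem Conn.trans {T : Finset (Ed d)} {V : Set (Vx d)} {x y z : Vx d} (h : Conn T V x y)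
    (h' : Conn T V y z) : Conn T V x z :=
  ⟨h.1, h.2.trans h'.2⟩

theorem Conn.step {T : Finset (Ed d)} {V : Set (Vx d)} {x y z : Vx d} (h : Conn T V x y)
    (hz : z ∈ V) (ha : Adj y z) (he : s(y, z) ∈ T) : Conn T V x z :=
  ⟨h.1, h.2.tail ⟨hz, ha, he⟩⟩

theorem Conn.symm {T : Finset (Ed d)} {V : Set (Vx d)} {x y : Vx d} (h : Conn T V x y) :
    Conn T V y x := by
  obtain ⟨hx, h⟩ := h
  induction h with
  | refl => exact Conn.refl hx
  | @tail b c hb hc ih =>
    have hbV : b ∈ V := Conn.right ⟨hx, hb⟩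
    have h1 : Conn T V c b := ⟨hc.1, Relation.ReflTransGen.single
      ⟨hbV, hc.2.1.symm, by rw [Sym2.eq_swap]; exact hc.2.2⟩⟩
    exact h1.trans ih

theorem Conn.mono {T T' : Finset (Ed d)} {V V' : Set (Vx d)} {x y : Vx d} (h : Conn T V x y)
    (hT : T ⊆ T') (hV : V ⊆ V') : Conn T' V' x y := by
  obtain ⟨hx, h⟩ := h
  induction h with
  | refl => exact Conn.refl (hV hx)
  | tail _ hc ih => exact ih.step (hV hc.1) hc.2.1 (hT hc.2.2)

theorem conn_inter_edges {T : Finset (Ed d)} {V : Finset (Vx d)} {x y : Vx d} :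
    Conn (T ∩ edges V) V x y ↔ Conn T V x y := by
  classical
  refine ⟨fun h => h.mono Finset.inter_subset_left (Set.Subset.refl _), ?_⟩
  rintro ⟨hx, h⟩
  induction h with
  | refl => exact Conn.refl hx
  | @tail b c hb hc ih =>
    have hbV : b ∈ (V : Set (Vx d)) := ih.right
    exact ih.step hc.1 hc.2.1 (Finset.mem_inter.2 ⟨hc.2.2, mem_edges.2
      ⟨Finset.mem_coe.1 hbV, Finset.mem_coe.1 hc.1, hc.2.1⟩⟩)

/-- The event that two vertices are connected depends only on the edges of the domain. -/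
theorem dep_conn (V : Finset (Vx d)) (x y : Vx d) :
    Dep {T : Finset (Ed d) | Conn T V x y} (edges V) := by
  classical
  intro T T' h
  have h1 := conn_inter_edges (T := T) (V := V) (x := x) (y := y)
  have h2 := conn_inter_edges (T := T') (V := V) (x := x) (y := y)
  have h3 : T ∩ edges V = T' ∩ edges V := by convert h
  rw [h3] at h1
  exact h1.symm.trans h2

theorem up_conn (V : Set (Vx d)) (x y : Vx d) : Up {T : Finset (Ed d) | Conn T V x y} :=
  fun _ _ h h' => Conn.mono h' h (Set.Subset.refl _)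

theorem mem_cl {T : Finset (Ed d)} {V : Finset (Vx d)} {x y : Vx d} :
    y ∈ cl T V x ↔ Conn T V x y := by
  classical
  unfold cl
  rw [Finset.mem_filter]
  exact ⟨fun h => h.2, fun h => ⟨Finset.mem_coe.1 h.right, h⟩⟩

theorem cl_subset (T : Finset (Ed d)) (V : Finset (Vx d)) (x : Vx d) : cl T V x ⊆ V := by
  classical
  exact Finset.filter_subset _ _

theorem self_mem_cl {T : Finset (Ed d)} {V : Finset (Vx d)} {x : Vx d} (h : x ∈ V) :
    x ∈ cl T V x :=
  mem_cl.2 (Conn.refl (Finset.mem_coe.2 h))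

/-- A path which leaves the cluster uses a closed edge. -/
theorem cl_closed {T : Finset (Ed d)} {V : Finset (Vx d)} {a u v : Vx d} (hu : u ∈ cl T V a)
    (hv : v ∈ V) (ha : Adj u v) (he : s(u, v) ∈ T) : v ∈ cl T V a :=
  mem_cl.2 ((mem_cl.1 hu).step (Finset.mem_coe.2 hv) ha he)

theorem cl_inter_edges (T : Finset (Ed d)) (V : Finset (Vx d)) (x : Vx d) :
    cl (T ∩ edges V) V x = cl T V x := by
  ext y
  rw [mem_cl, mem_cl]
  exact conn_inter_edges

/-- A vertex of the cluster is connected to `a` inside the cluster. -/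
theorem conn_in_cl {T : Finset (Ed d)} {V : Finset (Vx d)} {a u : Vx d} (hu : u ∈ cl T V a) :
    Conn T (cl T V a) a u := by
  obtain ⟨ha, h⟩ := mem_cl.1 hu
  have haV : a ∈ V := Finset.mem_coe.1 ha
  clear hu
  induction h with
  | refl => exact Conn.refl (Finset.mem_coe.2 (self_mem_cl haV))
  | @tail b c hb hc ih =>
    have hbc : b ∈ cl T V a := mem_cl.2 ⟨ha, hb⟩
    exact ih.step (Finset.mem_coe.2 (cl_closed hbc (Finset.mem_coe.1 hc.1) hc.2.1 hc.2.2))
      hc.2.1 hc.2.2

/-- The cluster is determined by the edges which touch it. -/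
theorem cl_eq_of_touch {T T' : Finset (Ed d)} {V K : Finset (Vx d)} {a : Vx d}
    (h : T ∩ touch V K = T' ∩ touch V K) (hK : cl T V a = K) : cl T' V a = K := by
  classical
  by_cases ha : a ∈ V
  · have hmem : ∀ {x y : Vx d}, x ∈ V → y ∈ V → Adj x y → (x ∈ K ∨ y ∈ K) →
        (s(x, y) ∈ T ↔ s(x, y) ∈ T') := by
      intro x y hx hy hxy hK'
      have h1 : s(x, y) ∈ touch V K := mem_touch.2 ⟨⟨hx, hy, hxy⟩, hK'⟩
      have h2 : s(x, y) ∈ T ∩ touch V K ↔ s(x, y) ∈ T' ∩ touch V K := by rw [h]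
      rw [Finset.mem_inter, Finset.mem_inter] at h2
      tauto
    have haK : a ∈ K := hK ▸ self_mem_cl ha
    ext y
    constructor
    · intro hy
      obtain ⟨h1, h2⟩ := mem_cl.1 hy
      clear hy
      induction h2 with
      | refl => exact haK
      | @tail b c hb hc ih =>
        have hbV : b ∈ V := (cl_subset T V a) (hK.symm ▸ ih)
        have hcV : c ∈ V := Finset.mem_coe.1 hc.1
        have he : s(b, c) ∈ T := (hmem hbV hcV hc.2.1 (Or.inl ih)).2 hc.2.2
        rw [← hK]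
        exact cl_closed (hK.symm ▸ ih) hcV hc.2.1 he
    · intro hy
      rw [← hK] at hy
      obtain ⟨h1, h2⟩ := mem_cl.1 hy
      clear hy
      induction h2 with
      | refl => exact self_mem_cl ha
      | @tail b c hb hc ih =>
        have hbK : b ∈ K := hK ▸ mem_cl.2 ⟨h1, hb⟩
        have hbV : b ∈ V := Finset.mem_coe.1 (Conn.right ⟨h1, hb⟩)
        have hcV : c ∈ V := Finset.mem_coe.1 hc.1
        exact cl_closed ih hcV hc.2.1 ((hmem hbV hcV hc.2.1 (Or.inl hbK)).1 hc.2.2)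
  · have h1 : ∀ T : Finset (Ed d), cl T V a = ∅ := by
      intro T
      ext y
      simp only [Finset.notMem_empty, iff_false]
      exact fun hy => ha (Finset.mem_coe.1 (mem_cl.1 hy).left)
    rw [h1, ← h1 T, hK]

/-- The last vertex of a path in the cluster of `a` in `S`. -/
theorem conn_cases {T : Finset (Ed d)} {S V : Finset (Vx d)} (hS : S ⊆ V) {a x : Vx d}
    (ha : a ∈ S) (h : Conn T V a x) : x ∈ cl T S a ∨ ∃ q ∈ exits S V, q.1 ∈ cl T S a ∧
      s(q.1, q.2) ∈ T ∧ Conn T ((V : Set (Vx d)) \ cl T S a) q.2 x := by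
  classical
  obtain ⟨h1, h2⟩ := h
  induction h2 with
  | refl => exact Or.inl (self_mem_cl ha)
  | @tail b c hb hc ih =>
    by_cases hcc : c ∈ cl T S a
    · exact Or.inl hcc
    right
    have hcV : c ∈ V := Finset.mem_coe.1 hc.1
    have hcD : c ∈ (V : Set (Vx d)) \ cl T S a := ⟨hc.1, hcc⟩
    rcases ih with ih | ⟨q, hq, hq1, hq2, hq3⟩
    · refine ⟨(b, c), ?_, ih, hc.2.2, Conn.refl hcD⟩
      unfold exits
      rw [Finset.mem_filter, Finset.mem_product, Finset.mem_sdiff]
      refine ⟨⟨cl_subset _ _ _ ih, hcV, fun hcS => hcc (cl_closed ih hcS hc.2.1 hc.2.2)⟩, hc.2.1⟩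
    · exact ⟨q, hq, hq1, hq2, hq3.step hcD hc.2.1 hc.2.2⟩

end Pool.Agent.HD
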