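import Pool.Agent.Lib.MP_8ca597_hd.A02
import Pool.Agent.Lib.MP_8ca597_hd.A05

/-!
# Row A06: exploration of a cluster

`expl_K`: `{T | cl T S a = K}` depends only on `touch S K` (`cl_eq_of_touch`), and `PP_inter`,
`PP_dep`. `expl`: write both sides as the sum over `K ∈ S.powerset` of the part where the cluster
is `K` (`EE_sum`); for fixed `K` the integrand is the product of the indicator of `{cl T S a = K}`
and of a function of `T ∩ (edges V \ touch S K)`; `EE_mul`, `EE_dep`.
-/

set_option autoImplicit false

namespace Pool.Agent.HD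

open Finset
open scoped ENNReal

variable {d : ℕ}

/-- The event that the cluster of `a` in `S` is `K`. -/
theorem dep_cl (S K : Finset (Vx d)) (a : Vx d) :
    Dep {T : Finset (Ed d) | cl T S a = K} (touch S K) :=
  fun _ _ h => ⟨fun hT => cl_eq_of_touch h hT, fun hT => cl_eq_of_touch h.symm hT⟩

private theorem A06_touch_sub {S V : Finset (Vx d)} (h : S ⊆ V) (K : Finset (Vx d)) :
    touch S K ⊆ edges V := (touch_subset S K).trans (edges_mono h)

theorem expl_K (p : ℝ) {S V : Finset (Vx d)} (h : S ⊆ V) (a : Vx d) (K : Finset (Vx d))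
    {F : Finset (Ed d)} (hF : F ⊆ edges V) (hd : Disjoint F (touch S K))
    {A : Set (Finset (Ed d))} (hA : Dep A F) :
    PP p (edges V) {T | cl T S a = K ∧ T ∈ A} =
      PP p (edges S) {T | cl T S a = K} * PP p F A := by
  have h1 : {T : Finset (Ed d) | cl T S a = K ∧ T ∈ A} = {T | cl T S a = K} ∩ A := rfl
  rw [h1, PP_inter p (A06_touch_sub h K) hF hd.symm (dep_cl S K a) hA,
    PP_dep p (A06_touch_sub h K) (dep_cl S K a), ← PP_dep p (touch_subset S K) (dep_cl S K a),
    PP_dep p hF hA]

open Classical in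
private theorem A06_depF (S K : Finset (Vx d)) (a : Vx d) :
    DepF (fun T : Finset (Ed d) => if cl T S a = K then (1 : ℝ) else 0) (touch S K) := by
  intro T T' h
  by_cases hT : cl T S a = K
  · simp only [if_pos hT, if_pos (cl_eq_of_touch h hT)]
  · have hT' : cl T' S a ≠ K := fun h' => hT (cl_eq_of_touch h.symm h')
    simp only [if_neg hT, if_neg hT']

/-- Exploration: given the cluster `K` of `a` in `S`, the edges of `V` which do not belong to
`touch S K` are fresh. -/
theorem expl (p : ℝ) {S V : Finset (Vx d)} (h : S ⊆ V) (a : Vx d)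
    (g : Finset (Vx d) → Finset (Ed d) → ℝ) :
    EE p (edges V) (fun T => g (cl T S a) (T \ touch S (cl T S a))) =
      EE p (edges S) fun T' => EE p (edges V \ touch S (cl T' S a)) (g (cl T' S a)) := by
  classical
  have hL : EE p (edges V) (fun T => g (cl T S a) (T \ touch S (cl T S a))) =
      EE p (edges V) fun T => ∑ K ∈ S.powerset, (if cl T S a = K then (1 : ℝ) else 0) *
        g K (T ∩ (edges V \ touch S K)) := by
    refine EE_congr fun T hT => ?_
    rw [sum_eq_single (cl T S a)]
    · rw [if_pos rfl, one_mul]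
      congr 1
      ext e
      simp only [mem_sdiff, mem_inter]
      exact ⟨fun h => ⟨h.1, hT h.1, h.2⟩, fun h => ⟨h.1, h.2.2⟩⟩
    · intro K _ hK
      rw [if_neg (Ne.symm hK), zero_mul]
    · intro h'
      exact absurd (mem_powerset.2 (cl_subset T S a)) h'
  have hR : (EE p (edges S) fun T' => EE p (edges V \ touch S (cl T' S a)) (g (cl T' S a))) =
      EE p (edges S) fun T => ∑ K ∈ S.powerset, (if cl T S a = K then (1 : ℝ) else 0) *
        EE p (edges V \ touch S K) (g K) := by
    refine EE_congr fun T _ => ?_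
    rw [sum_eq_single (cl T S a)]
    · rw [if_pos rfl, one_mul]
    · intro K _ hK
      rw [if_neg (Ne.symm hK), zero_mul]
    · intro h'
      exact absurd (mem_powerset.2 (cl_subset T S a)) h'
  rw [hL, hR, EE_sum, EE_sum]
  refine sum_congr rfl fun K _ => ?_
  have hd : Disjoint (touch S K) (edges V \ touch S K) := disjoint_sdiff
  rw [EE_mul p (A06_touch_sub h K) sdiff_subset hd (A06_depF S K a)
    (g := fun T => g K (T ∩ (edges V \ touch S K))) (fun T T' hTT => by
      change g K (T ∩ (edges V \ touch S K)) = g K (T' ∩ (edges V \ touch S K))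
      rw [hTT]), EE_marg p sdiff_subset, EE_mul_const,
    EE_dep p (A06_touch_sub h K) (A06_depF S K a), ← EE_dep p (touch_subset S K) (A06_depF S K a)]

/-- The same for functions of the cluster and of the edges outside the cluster. -/
theorem expl_out (p : ℝ) {S V : Finset (Vx d)} (h : S ⊆ V) (a : Vx d)
    (g : Finset (Vx d) → Finset (Ed d) → ℝ) :
    EE p (edges V) (fun T => g (cl T S a) (T ∩ edges (V \ cl T S a))) =
      EE p (edges S) fun T' => EE p (edges (V \ cl T' S a)) (g (cl T' S a)) := by
  have hsub : ∀ K : Finset (Vx d), edges (V \ K) ⊆ edges V \ touch S K := by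
    intro K e
    refine Sym2.ind (fun x y he => ?_) e
    rw [mem_edges, mem_sdiff, mem_sdiff] at he
    rw [mem_sdiff, mem_edges, mem_touch]
    refine ⟨⟨he.1.1, he.2.1.1, he.2.2⟩, fun h' => ?_⟩
    rcases h'.2 with h' | h'
    · exact he.1.2 h'
    · exact he.2.1.2 h'
  have h1 := expl p h a (fun K U => g K (U ∩ edges (V \ K)))
  have h2 : ∀ (K : Finset (Vx d)) (T : Finset (Ed d)),
      (T \ touch S K) ∩ edges (V \ K) = T ∩ edges (V \ K) := by
    intro K T
    ext e
    simp only [mem_inter, mem_sdiff]
    exact ⟨fun h => ⟨h.1.1, h.2⟩, fun h => ⟨⟨h.1, (mem_sdiff.1 (hsub K h.2)).2⟩, h.2⟩⟩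
  simp only [h2] at h1
  rw [h1]
  refine EE_congr fun T _ => ?_
  exact EE_marg p (hsub _) _

end Pool.Agent.HD
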