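import Pool.Agent.Lib.MP_8ca597_hd.A06

/-!
# Row A07: the Simon-Lieb inequality

`SL_fine`: by `conn_cases` the event is contained in `{x ∈ cl T S a}` or, for some exit `q`,
`{q.1 ∈ cl T S a, s(q) ∈ T, Conn (V \ cl T S a) q.2 x}`; union bound, and `expl` (the edge `s(q)`
and the edges of `V \ K` are disjoint and do not belong to `touch S K`).
-/

set_option autoImplicit false

namespace Pool.Agent.HD

open Finset
open scoped ENNReal

variable {d : ℕ} {p : ℝ}

theorem tau_nonneg (hp : 0 ≤ p) (hp1 : p ≤ 1) (V : Finset (Vx d)) (x y : Vx d) :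
    0 ≤ tau p V x y := PP_nonneg hp hp1

theorem tau_le_one (hp : 0 ≤ p) (hp1 : p ≤ 1) (V : Finset (Vx d)) (x y : Vx d) :
    tau p V x y ≤ 1 := PP_le_one hp hp1

theorem tau_mono (hp : 0 ≤ p) (hp1 : p ≤ 1) {V W : Finset (Vx d)} (h : V ⊆ W) (x y : Vx d) :
    tau p V x y ≤ tau p W x y := by
  unfold tau
  rw [← PP_dep p (edges_mono h) (dep_conn V x y)]
  exact PP_mono hp hp1 fun T _ hT => Conn.mono hT (Finset.Subset.refl T) (by exact_mod_cast h)

/-- The probability that `u` and `v` are open connected to `a` is at most the two-point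
function. -/
theorem tau_eq_EE (p : ℝ) (S : Finset (Vx d)) (a u : Vx d) :
    tau p S a u = EE p (edges S) fun T => if u ∈ cl T S a then 1 else 0 := by
  unfold tau
  rw [PP_def]
  refine EE_congr fun T _ => ?_
  by_cases h : u ∈ cl T S a
  · rw [if_pos h, if_pos (show T ∈ {T | Conn T (S : Set (Vx d)) a u} from mem_cl.1 h)]
  · rw [if_neg h, if_neg (show T ∉ {T | Conn T (S : Set (Vx d)) a u} from
      fun h' => h (mem_cl.2 h'))]

private lemma A07_touch {S K : Finset (Vx d)} {x y : Vx d} (hy : y ∉ S) :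
    s(x, y) ∉ touch S K := fun h => hy (mem_touch.1 h).1.2.1

private lemma A07_inter (T : Finset (Ed d)) (S V K : Finset (Vx d)) :
    (T \ touch S K) ∩ edges (V \ K) = T ∩ edges (V \ K) := by
  ext e
  simp only [Finset.mem_inter, Finset.mem_sdiff]
  constructor
  · rintro ⟨⟨h1, _⟩, h2⟩
    exact ⟨h1, h2⟩
  · rintro ⟨h1, h2⟩
    refine ⟨⟨h1, ?_⟩, h2⟩
    induction e using Sym2.ind with
    | _ x y =>
      intro h3
      obtain ⟨h4, h5, _⟩ := mem_edges.1 h2
      rcases (mem_touch.1 h3).2 with h6 | h6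
      · exact (Finset.mem_sdiff.1 h4).2 h6
      · exact (Finset.mem_sdiff.1 h5).2 h6

private lemma A07_conn (T : Finset (Ed d)) (S V K : Finset (Vx d)) (x y : Vx d) :
    Conn (T \ touch S K) ((V \ K : Finset (Vx d)) : Set (Vx d)) x y ↔
      Conn T ((V \ K : Finset (Vx d)) : Set (Vx d)) x y := by
  rw [← conn_inter_edges (T := T \ touch S K), A07_inter, conn_inter_edges]

open Classical in
private lemma A07_term (p : ℝ) {S V : Finset (Vx d)} (h : S ⊆ V) (a x : Vx d) {q : Vx d × Vx d}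
    (hq : q ∈ exits S V) :
    EE p (edges V) (fun T => if q.1 ∈ cl T S a ∧ s(q.1, q.2) ∈ T ∧
      Conn T ((V \ cl T S a : Finset (Vx d)) : Set (Vx d)) q.2 x then 1 else 0) =
    EE p (edges S) fun T => if q.1 ∈ cl T S a then p * tau p (V \ cl T S a) q.2 x else 0 := by
  obtain ⟨hq1, hadj⟩ := Finset.mem_filter.1 hq
  obtain ⟨hqS, hqV⟩ := Finset.mem_product.1 hq1
  obtain ⟨hqV1, hqV2⟩ := Finset.mem_sdiff.1 hqV
  have h1 := expl p h a (fun K U => if q.1 ∈ K ∧ s(q.1, q.2) ∈ U ∧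
    Conn U ((V \ K : Finset (Vx d)) : Set (Vx d)) q.2 x then (1 : ℝ) else 0)
  have h2 : EE p (edges V) (fun T => if q.1 ∈ cl T S a ∧ s(q.1, q.2) ∈ T ∧
      Conn T ((V \ cl T S a : Finset (Vx d)) : Set (Vx d)) q.2 x then (1 : ℝ) else 0) =
      EE p (edges V) (fun T => if q.1 ∈ cl T S a ∧ s(q.1, q.2) ∈ T \ touch S (cl T S a) ∧
        Conn (T \ touch S (cl T S a)) ((V \ cl T S a : Finset (Vx d)) : Set (Vx d)) q.2 x
        then (1 : ℝ) else 0) := by
    refine EE_congr fun T _ => ?_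
    refine if_congr ?_ rfl rfl
    rw [A07_conn, Finset.mem_sdiff]
    constructor
    · rintro ⟨h3, h4, h5⟩
      exact ⟨h3, ⟨h4, A07_touch hqV2⟩, h5⟩
    · rintro ⟨h3, h4, h5⟩
      exact ⟨h3, h4.1, h5⟩
  rw [h2, h1]
  refine EE_congr fun T _ => ?_
  generalize hK : cl T S a = K
  by_cases hqK : q.1 ∈ K
  · rw [if_pos hqK]
    have hKS : K ⊆ S := hK ▸ cl_subset T S a
    have hin1 : ({s(q.1, q.2)} : Finset (Ed d)) ⊆ edges V \ touch S K := by
      rw [Finset.singleton_subset_iff, Finset.mem_sdiff]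
      exact ⟨mem_edges.2 ⟨h hqS, hqV1, hadj⟩, A07_touch hqV2⟩
    have hin2 : edges (V \ K) ⊆ edges V \ touch S K := by
      intro e he
      rw [Finset.mem_sdiff]
      refine ⟨edges_mono Finset.sdiff_subset he, ?_⟩
      induction e using Sym2.ind with
      | _ x y =>
        intro h3
        obtain ⟨h4, h5, _⟩ := mem_edges.1 he
        rcases (mem_touch.1 h3).2 with h6 | h6
        · exact (Finset.mem_sdiff.1 h4).2 h6
        · exact (Finset.mem_sdiff.1 h5).2 h6
    have hdis : Disjoint ({s(q.1, q.2)} : Finset (Ed d)) (edges (V \ K)) := by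
      rw [Finset.disjoint_singleton_left]
      intro he
      exact (Finset.mem_sdiff.1 (mem_edges.1 he).1).2 hqK
    have hA : Dep {U : Finset (Ed d) | s(q.1, q.2) ∈ U} {s(q.1, q.2)} := by
      intro U U' hU
      have h3 : s(q.1, q.2) ∈ U ∩ {s(q.1, q.2)} ↔ s(q.1, q.2) ∈ U' ∩ {s(q.1, q.2)} := by rw [hU]
      simpa using h3
    have h4 := PP_inter p hin1 hin2 hdis hA (dep_conn (V \ K) q.2 x)
    rw [PP_mem p (hin1 (Finset.mem_singleton_self _)), PP_dep p hin2 (dep_conn (V \ K) q.2 x)] at h4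
    change _ = p * PP p (edges (V \ K)) {T | Conn T ((V \ K : Finset (Vx d)) : Set (Vx d)) q.2 x}
    rw [← h4, PP_def]
    refine EE_congr fun U _ => ?_
    by_cases hU : s(q.1, q.2) ∈ U ∧ Conn U ((V \ K : Finset (Vx d)) : Set (Vx d)) q.2 x
    · rw [if_pos (show U ∈ {U : Finset (Ed d) | s(q.1, q.2) ∈ U} ∩
        {T | Conn T ((V \ K : Finset (Vx d)) : Set (Vx d)) q.2 x} from hU)]
      exact if_pos ⟨hqK, hU⟩
    · rw [if_neg (show U ∉ {U : Finset (Ed d) | s(q.1, q.2) ∈ U} ∩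
        {T | Conn T ((V \ K : Finset (Vx d)) : Set (Vx d)) q.2 x} from hU)]
      exact if_neg fun hh => hU hh.2
  · rw [if_neg hqK]
    have h3 : (fun U : Finset (Ed d) => if q.1 ∈ K ∧ s(q.1, q.2) ∈ U ∧
        Conn U ((V \ K : Finset (Vx d)) : Set (Vx d)) q.2 x then (1 : ℝ) else 0) = fun _ => 0 := by
      funext U
      exact if_neg fun h => hqK h.1
    change EE p (edges V \ touch S K) (fun U : Finset (Ed d) => if q.1 ∈ K ∧ s(q.1, q.2) ∈ U ∧
        Conn U ((V \ K : Finset (Vx d)) : Set (Vx d)) q.2 x then (1 : ℝ) else 0) = 0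
    rw [h3, EE_const]

theorem SL_fine (hp : 0 ≤ p) (hp1 : p ≤ 1) {S V : Finset (Vx d)} (h : S ⊆ V) {a : Vx d}
    (ha : a ∈ S) (x : Vx d) :
    tau p V a x ≤ tau p S a x + ∑ q ∈ exits S V, EE p (edges S) fun T =>
      if q.1 ∈ cl T S a then p * tau p (V \ cl T S a) q.2 x else 0 := by
  classical
  have h1 : tau p S a x = EE p (edges V) fun T => if x ∈ cl T S a then 1 else 0 := by
    rw [tau_eq_EE]
    symm
    apply EE_dep p (edges_mono h)
    intro T T' hT
    have e : cl T S a = cl T' S a := by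
      rw [← cl_inter_edges T, ← cl_inter_edges T', hT]
    change (if x ∈ cl T S a then (1 : ℝ) else 0) = if x ∈ cl T' S a then (1 : ℝ) else 0
    rw [e]
  have h2 : ∑ q ∈ exits S V, (EE p (edges S) fun T =>
      if q.1 ∈ cl T S a then p * tau p (V \ cl T S a) q.2 x else 0) =
      EE p (edges V) fun T => ∑ q ∈ exits S V, (if q.1 ∈ cl T S a ∧ s(q.1, q.2) ∈ T ∧
      Conn T ((V \ cl T S a : Finset (Vx d)) : Set (Vx d)) q.2 x then (1 : ℝ) else 0) := by
    rw [EE_sum]
    exact Finset.sum_congr rfl fun q hq => (A07_term p h a x hq).symm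
  rw [h1, h2, ← EE_add]
  unfold tau
  rw [PP_def]
  refine EE_mono hp hp1 fun T _ => ?_
  have hnn : 0 ≤ ∑ q ∈ exits S V, (if q.1 ∈ cl T S a ∧ s(q.1, q.2) ∈ T ∧
      Conn T ((V \ cl T S a : Finset (Vx d)) : Set (Vx d)) q.2 x then (1 : ℝ) else 0) :=
    Finset.sum_nonneg fun q _ => by split_ifs <;> norm_num
  have hnn' : (0 : ℝ) ≤ if x ∈ cl T S a then 1 else 0 := by split_ifs <;> norm_num
  by_cases hT : T ∈ {T | Conn T (V : Set (Vx d)) a x}
  · rw [if_pos hT]
    rcases conn_cases h ha hT with h3 | ⟨q, hq, h3, h4, h5⟩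
    · rw [if_pos h3]
      linarith
    · have h6 : (1 : ℝ) ≤ ∑ q ∈ exits S V, (if q.1 ∈ cl T S a ∧ s(q.1, q.2) ∈ T ∧
          Conn T ((V \ cl T S a : Finset (Vx d)) : Set (Vx d)) q.2 x then (1 : ℝ) else 0) := by
        have h7 : (if q.1 ∈ cl T S a ∧ s(q.1, q.2) ∈ T ∧
          Conn T ((V \ cl T S a : Finset (Vx d)) : Set (Vx d)) q.2 x then (1 : ℝ) else 0) = 1 := by
          rw [if_pos]
          refine ⟨h3, h4, ?_⟩
          rw [Finset.coe_sdiff]
          exact h5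
        exact h7.symm.le.trans (Finset.single_le_sum (f := fun q : Vx d × Vx d =>
          if q.1 ∈ cl T S a ∧ s(q.1, q.2) ∈ T ∧
          Conn T ((V \ cl T S a : Finset (Vx d)) : Set (Vx d)) q.2 x
          then (1 : ℝ) else 0) (fun q _ => by split_ifs <;> norm_num) hq)
      linarith
  · rw [if_neg hT]
    linarith

theorem SL (hp : 0 ≤ p) (hp1 : p ≤ 1) {S V : Finset (Vx d)} (h : S ⊆ V) {a : Vx d}
    (ha : a ∈ S) (x : Vx d) :
    tau p V a x ≤ tau p S a x + ∑ q ∈ exits S V, tau p S a q.1 * p * tau p V q.2 x := by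
  refine (SL_fine hp hp1 h ha x).trans ?_
  gcongr with q hq
  rw [tau_eq_EE p S a q.1, mul_assoc, ← EE_mul_const]
  refine EE_mono hp hp1 fun T _ => ?_
  by_cases h1 : q.1 ∈ cl T S a
  · rw [if_pos h1, if_pos h1, one_mul]
    exact mul_le_mul_of_nonneg_left (tau_mono hp hp1 Finset.sdiff_subset _ _) hp
  · rw [if_neg h1, if_neg h1, zero_mul]

end Pool.Agent.HD
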