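import Pool.Agent.Lib.MP_8ca597_hd.A07

/-!
# Row A08: the Bonferroni inequality for the exits of a cluster

For `q ∈ E` let `A q` be the event `q.1 ∈ K`, `s(q) ∈ T`, `Conn T (V \ K) q.2 x`, where
`K = cl T S a`. The union of the `A q` and the event `x ∈ K` are disjoint and contained in
`Conn T V a x`. `PP_bonf`; `PP (A q)` and `PP (A q ∩ A q')` by `expl` (two different exits are two
different edges, outside `touch S K` and outside `edges (V \ K)`).
-/

set_option autoImplicit false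

namespace Pool.Agent.HD

open Finset
open scoped ENNReal

variable {d : ℕ} {p : ℝ}

theorem A08_dep_mem (e : Ed d) : Dep {U : Finset (Ed d) | e ∈ U} {e} := by
  intro T T' h
  have h1 : e ∈ T ∩ {e} ↔ e ∈ T' ∩ {e} := by rw [h]
  simpa using h1

theorem A08_dep_subset (es : Finset (Ed d)) : Dep {U : Finset (Ed d) | es ⊆ U} es := by
  intro T T' h
  have key : ∀ U U' : Finset (Ed d), U ∩ es = U' ∩ es → es ⊆ U → es ⊆ U' := by
    intro U U' h1 h2 e he
    have h3 : e ∈ U ∩ es := mem_inter.2 ⟨h2 he, he⟩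
    rw [h1] at h3
    exact (mem_inter.1 h3).1
  exact ⟨key T T' h, key T' T h.symm⟩

theorem A08_PP_subset (p : ℝ) {F es : Finset (Ed d)} (h : es ⊆ F) :
    PP p F {U | es ⊆ U} = p ^ es.card := by
  induction es using Finset.induction_on with
  | empty =>
    have h1 : {U : Finset (Ed d) | (∅ : Finset (Ed d)) ⊆ U} = Set.univ := by
      ext U
      simp
    rw [h1, PP_univ, card_empty, pow_zero]
  | insert e es he ih =>
    have h1 : {U : Finset (Ed d) | insert e es ⊆ U} = {U | e ∈ U} ∩ {U | es ⊆ U} := by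
      ext U
      simp [insert_subset_iff]
    have h2 : e ∈ F := h (mem_insert_self e es)
    have h3 : es ⊆ F := fun x hx => h (mem_insert_of_mem hx)
    rw [h1, PP_inter p (S1 := {e}) (S2 := es) (singleton_subset_iff.2 h2) h3
      (disjoint_singleton_left.2 he) (A08_dep_mem e) (A08_dep_subset es), PP_mem p h2, ih h3,
      card_insert_of_notMem he, pow_succ]
    ring

open Classical in
/-- Exploration of the cluster of `a` in `S`, for the event that the edges `es` are open and an event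
outside the cluster. -/
theorem A08_gen (p : ℝ) {S V : Finset (Vx d)} (h : S ⊆ V) (a : Vx d) (P : Finset (Vx d) → Prop)
    (C : Finset (Vx d) → Set (Finset (Ed d))) (hC : ∀ K, Dep (C K) (edges (V \ K)))
    {es : Finset (Ed d)} (hes : es ⊆ edges V) (h1 : ∀ K, P K → Disjoint es (touch S K))
    (h2 : ∀ K, P K → Disjoint es (edges (V \ K))) :
    PP p (edges V) {T | P (cl T S a) ∧ es ⊆ T ∧ T ∈ C (cl T S a)} =
      EE p (edges S) fun T => if P (cl T S a) then
        p ^ es.card * PP p (edges (V \ cl T S a)) (C (cl T S a)) else 0 := by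
  have hsub : ∀ K, edges (V \ K) ⊆ edges V \ touch S K := by
    intro K e he
    rw [mem_sdiff]
    refine ⟨edges_mono sdiff_subset he, ?_⟩
    induction e using Sym2.ind with
    | _ x y =>
      rw [mem_edges, mem_sdiff, mem_sdiff] at he
      rw [mem_touch]
      rintro ⟨-, h3 | h3⟩
      · exact he.1.2 h3
      · exact he.2.1.2 h3
  have key := expl p h a (fun K U => if P K ∧ es ⊆ U ∧ U ∈ C K then 1 else 0)
  have e1 : PP p (edges V) {T | P (cl T S a) ∧ es ⊆ T ∧ T ∈ C (cl T S a)} =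
      EE p (edges V) (fun T => (fun K U => if P K ∧ es ⊆ U ∧ U ∈ C K then (1 : ℝ) else 0)
        (cl T S a) (T \ touch S (cl T S a))) := by
    rw [PP_def]
    apply EE_congr
    intro T hT
    obtain ⟨K, hK⟩ : ∃ K, K = cl T S a := ⟨_, rfl⟩
    have e2 : (P K ∧ es ⊆ T ∧ T ∈ C K) ↔
        (P K ∧ es ⊆ T \ touch S K ∧ T \ touch S K ∈ C K) := by
      have e3 : T ∈ C K ↔ T \ touch S K ∈ C K := by
        apply hC K
        ext e
        simp only [mem_inter, mem_sdiff]
        constructor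
        · rintro ⟨h3, h4⟩
          exact ⟨⟨h3, (mem_sdiff.1 (hsub K h4)).2⟩, h4⟩
        · rintro ⟨⟨h3, -⟩, h4⟩
          exact ⟨h3, h4⟩
      constructor
      · rintro ⟨h3, h4, h5⟩
        refine ⟨h3, ?_, e3.1 h5⟩
        intro e he
        exact mem_sdiff.2 ⟨h4 he, fun h6 => disjoint_left.1 (h1 K h3) he h6⟩
      · rintro ⟨h3, h4, h5⟩
        exact ⟨h3, fun e he => (mem_sdiff.1 (h4 he)).1, e3.2 h5⟩
    have e5 : T ∈ {T : Finset (Ed d) | P (cl T S a) ∧ es ⊆ T ∧ T ∈ C (cl T S a)} ↔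
        (P (cl T S a) ∧ es ⊆ T \ touch S (cl T S a) ∧ T \ touch S (cl T S a) ∈ C (cl T S a)) := by
      rw [← hK]
      change (P (cl T S a) ∧ es ⊆ T ∧ T ∈ C (cl T S a)) ↔ _
      rw [← hK]
      exact e2
    by_cases h3 : P (cl T S a) ∧ es ⊆ T \ touch S (cl T S a) ∧
        T \ touch S (cl T S a) ∈ C (cl T S a)
    · rw [if_pos (e5.2 h3)]
      exact (if_pos h3).symm
    · rw [if_neg (fun h4 => h3 (e5.1 h4))]
      exact (if_neg h3).symm
  rw [e1, key]
  apply EE_congr
  intro T hT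
  obtain ⟨K, hK⟩ : ∃ K, K = cl T S a := ⟨_, rfl⟩
  rw [← hK]
  by_cases hP : P K
  · rw [if_pos hP]
    have e4 : EE p (edges V \ touch S K) (fun U => if P K ∧ es ⊆ U ∧ U ∈ C K then (1 : ℝ) else 0) =
        PP p (edges V \ touch S K) ({U | es ⊆ U} ∩ C K) := by
      rw [PP_def]
      apply EE_congr
      intro U hU
      by_cases h3 : es ⊆ U ∧ U ∈ C K
      · rw [if_pos ⟨hP, h3⟩, if_pos]
        exact h3
      · rw [if_neg (fun h4 => h3 h4.2), if_neg]
        exact h3
    have h5 : es ⊆ edges V \ touch S K := by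
      intro e he
      exact mem_sdiff.2 ⟨hes he, fun h6 => disjoint_left.1 (h1 K hP) he h6⟩
    change EE p (edges V \ touch S K) (fun U => if P K ∧ es ⊆ U ∧ U ∈ C K then (1 : ℝ) else 0) = _
    rw [e4, PP_inter p (S1 := es) (S2 := edges (V \ K)) h5 (hsub K) (h2 K hP) (A08_dep_subset es)
      (hC K), A08_PP_subset p h5, PP_dep p (hsub K) (hC K)]
  · rw [if_neg hP]
    change EE p (edges V \ touch S K) (fun U => if P K ∧ es ⊆ U ∧ U ∈ C K then (1 : ℝ) else 0) = 0
    rw [EE_congr (g := fun _ => (0 : ℝ)) fun U _ => if_neg fun h3 => hP h3.1, EE_const]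

open Classical in
theorem A08_mem_exits {S V : Finset (Vx d)} {q : Vx d × Vx d} (h : q ∈ exits S V) :
    q.1 ∈ S ∧ q.2 ∈ V ∧ q.2 ∉ S ∧ Adj q.1 q.2 := by
  unfold exits at h
  rw [mem_filter, mem_product, mem_sdiff] at h
  exact ⟨h.1.1, h.1.2.1, h.1.2.2, h.2⟩

/-- two events outside the cluster -/
theorem A08_dep_conn2 (V K : Finset (Vx d)) (u v x : Vx d) :
    Dep {T' : Finset (Ed d) | Conn T' ((V \ K : Finset (Vx d)) : Set (Vx d)) u x ∧
      Conn T' ((V \ K : Finset (Vx d)) : Set (Vx d)) v x} (edges (V \ K)) := by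
  intro T T' h
  have h1 := dep_conn (V \ K) u x T T' h
  have h2 := dep_conn (V \ K) v x T T' h
  exact and_congr h1 h2

theorem bonf (hp : 0 ≤ p) (hp1 : p ≤ 1) {S V : Finset (Vx d)} (h : S ⊆ V) {a : Vx d}
    (ha : a ∈ S) (x : Vx d) {E : Finset (Vx d × Vx d)} (hE : E ⊆ exits S V) :
    tau p S a x + ∑ q ∈ E, EE p (edges S) (fun T =>
      if q.1 ∈ cl T S a then p * tau p (V \ cl T S a) q.2 x else 0) ≤
    tau p V a x + ∑ q ∈ E, ∑ q' ∈ E.erase q, EE p (edges S) fun T =>
      if q.1 ∈ cl T S a ∧ q'.1 ∈ cl T S a then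
        p ^ 2 * PP p (edges (V \ cl T S a)) {T' |
          Conn T' ((V \ cl T S a : Finset (Vx d)) : Set (Vx d)) q.2 x ∧
          Conn T' ((V \ cl T S a : Finset (Vx d)) : Set (Vx d)) q'.2 x} else 0 := by
  have hex : ∀ q ∈ E, q.1 ∈ S ∧ q.2 ∈ V ∧ q.2 ∉ S ∧ Adj q.1 q.2 := fun q hq =>
    A08_mem_exits (hE hq)
  have hedge : ∀ q ∈ E, s(q.1, q.2) ∈ edges V := fun q hq =>
    mem_edges.2 ⟨h (hex q hq).1, (hex q hq).2.1, (hex q hq).2.2.2⟩
  have htouch : ∀ q ∈ E, ∀ K, s(q.1, q.2) ∉ touch S K := by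
    intro q hq K hc
    rw [mem_touch] at hc
    exact (hex q hq).2.2.1 hc.1.2.1
  have hout : ∀ q ∈ E, ∀ K : Finset (Vx d), q.1 ∈ K → s(q.1, q.2) ∉ edges (V \ K) := by
    intro q hq K hK hc
    rw [mem_edges, mem_sdiff] at hc
    exact hc.1.2 hK
  obtain ⟨A, hA⟩ : ∃ A : Vx d × Vx d → Set (Finset (Ed d)), ∀ q, A q =
      {T | q.1 ∈ cl T S a ∧ s(q.1, q.2) ∈ T ∧
        Conn T ((V \ cl T S a : Finset (Vx d)) : Set (Vx d)) q.2 x} := ⟨_, fun _ => rfl⟩
  -- the probability of `A q`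
  have hA1 : ∀ q ∈ E, PP p (edges V) (A q) = EE p (edges S) (fun T =>
      if q.1 ∈ cl T S a then p * tau p (V \ cl T S a) q.2 x else 0) := by
    intro q hq
    have h1 := A08_gen p h a (fun K => q.1 ∈ K)
      (fun K => {T | Conn T ((V \ K : Finset (Vx d)) : Set (Vx d)) q.2 x})
      (fun K => dep_conn (V \ K) q.2 x) (es := {s(q.1, q.2)})
      (singleton_subset_iff.2 (hedge q hq))
      (fun K _ => disjoint_singleton_left.2 (htouch q hq K))
      (fun K hK => disjoint_singleton_left.2 (hout q hq K hK))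
    have h2 : A q = {T | q.1 ∈ cl T S a ∧ ({s(q.1, q.2)} : Finset (Ed d)) ⊆ T ∧
        T ∈ {T' : Finset (Ed d) | Conn T' ((V \ cl T S a : Finset (Vx d)) : Set (Vx d)) q.2 x}} := by
      rw [hA]
      ext T
      simp only [Set.mem_ofPred_eq, singleton_subset_iff]
    rw [h2]
    refine h1.trans ?_
    apply EE_congr
    intro T _
    by_cases h3 : q.1 ∈ cl T S a
    · rw [if_pos h3, if_pos h3, card_singleton, pow_one]
      rfl
    · rw [if_neg h3, if_neg h3]
  -- the probability of two events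
  have hA2 : ∀ q ∈ E, ∀ q' ∈ E.erase q, PP p (edges V) (A q ∩ A q') =
      EE p (edges S) fun T => if q.1 ∈ cl T S a ∧ q'.1 ∈ cl T S a then
        p ^ 2 * PP p (edges (V \ cl T S a)) {T' |
          Conn T' ((V \ cl T S a : Finset (Vx d)) : Set (Vx d)) q.2 x ∧
          Conn T' ((V \ cl T S a : Finset (Vx d)) : Set (Vx d)) q'.2 x} else 0 := by
    intro q hq q' hq'
    rw [mem_erase] at hq'
    have hne : s(q.1, q.2) ≠ s(q'.1, q'.2) := by
      intro he
      rw [Sym2.eq_iff] at he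
      rcases he with ⟨h3, h4⟩ | ⟨h3, h4⟩
      · exact hq'.1 (Prod.ext h3.symm h4.symm)
      · exact (hex q' hq'.2).2.2.1 (h3 ▸ (hex q hq).1)
    have h1 := A08_gen p h a (fun K => q.1 ∈ K ∧ q'.1 ∈ K)
      (fun K => {T | Conn T ((V \ K : Finset (Vx d)) : Set (Vx d)) q.2 x ∧
        Conn T ((V \ K : Finset (Vx d)) : Set (Vx d)) q'.2 x})
      (fun K => A08_dep_conn2 V K q.2 q'.2 x) (es := {s(q.1, q.2), s(q'.1, q'.2)})
      (by
        intro e he
        rw [mem_insert, mem_singleton] at he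
        rcases he with rfl | rfl
        · exact hedge q hq
        · exact hedge q' hq'.2)
      (fun K _ => by
        rw [disjoint_left]
        intro e he
        rw [mem_insert, mem_singleton] at he
        rcases he with rfl | rfl
        · exact htouch q hq K
        · exact htouch q' hq'.2 K)
      (fun K hK => by
        rw [disjoint_left]
        intro e he
        rw [mem_insert, mem_singleton] at he
        rcases he with rfl | rfl
        · exact hout q hq K hK.1
        · exact hout q' hq'.2 K hK.2)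
    have h2 : A q ∩ A q' = {T | (q.1 ∈ cl T S a ∧ q'.1 ∈ cl T S a) ∧
        ({s(q.1, q.2), s(q'.1, q'.2)} : Finset (Ed d)) ⊆ T ∧
        T ∈ {T' : Finset (Ed d) | Conn T' ((V \ cl T S a : Finset (Vx d)) : Set (Vx d)) q.2 x ∧
          Conn T' ((V \ cl T S a : Finset (Vx d)) : Set (Vx d)) q'.2 x}} := by
      rw [hA, hA]
      ext T
      simp only [Set.mem_inter_iff, Set.mem_ofPred_eq, insert_subset_iff, singleton_subset_iff]
      tauto
    rw [h2]
    refine h1.trans ?_
    apply EE_congr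
    intro T _
    by_cases h3 : q.1 ∈ cl T S a ∧ q'.1 ∈ cl T S a
    · rw [if_pos h3, if_pos h3, card_pair hne]
    · rw [if_neg h3, if_neg h3]
  -- the event that `x` is in the cluster
  have hx : PP p (edges V) {T : Finset (Ed d) | Conn T (S : Set (Vx d)) a x} = tau p S a x :=
    PP_dep p (edges_mono h) (dep_conn S a x)
  have hun : PP p (edges V) ({T : Finset (Ed d) | Conn T (S : Set (Vx d)) a x} ∪
      {T | ∃ q ∈ E, T ∈ A q}) ≤ tau p V a x := by
    apply PP_mono hp hp1
    rintro T _ (h1 | ⟨q, hq, h1⟩)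
    · exact Conn.mono h1 (Subset.refl _) (coe_subset.2 h)
    · rw [hA] at h1
      obtain ⟨h2, h3, h4⟩ := h1
      have h5 : Conn T (V : Set (Vx d)) a q.1 :=
        Conn.mono (mem_cl.1 h2) (Subset.refl _) (coe_subset.2 h)
      have h6 : Conn T (V : Set (Vx d)) a q.2 :=
        h5.step (mem_coe.2 (hex q hq).2.1) (hex q hq).2.2.2 h3
      exact h6.trans (Conn.mono h4 (Subset.refl _) (coe_subset.2 sdiff_subset))
  have hint : ({T : Finset (Ed d) | Conn T (S : Set (Vx d)) a x} ∩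
      {T | ∃ q ∈ E, T ∈ A q}) = ∅ := by
    ext T
    simp only [Set.mem_inter_iff, Set.mem_ofPred_eq, Set.mem_empty_iff_false, iff_false]
    rintro ⟨h1, q, hq, h2⟩
    rw [hA] at h2
    have h3 := h2.2.2.right
    rw [mem_coe, mem_sdiff] at h3
    exact h3.2 (mem_cl.2 h1)
  have hadd := PP_union_add p (edges V) {T : Finset (Ed d) | Conn T (S : Set (Vx d)) a x}
    {T | ∃ q ∈ E, T ∈ A q}
  rw [hint, PP_empty, add_zero, hx] at hadd
  have hb := PP_bonf hp hp1 (S := edges V) E A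
  rw [sum_congr rfl hA1] at hb
  have h7 : ∑ q ∈ E, ∑ q' ∈ E.erase q, PP p (edges V) (A q ∩ A q') =
      ∑ q ∈ E, ∑ q' ∈ E.erase q, EE p (edges S) fun T =>
      if q.1 ∈ cl T S a ∧ q'.1 ∈ cl T S a then
        p ^ 2 * PP p (edges (V \ cl T S a)) {T' |
          Conn T' ((V \ cl T S a : Finset (Vx d)) : Set (Vx d)) q.2 x ∧
          Conn T' ((V \ cl T S a : Finset (Vx d)) : Set (Vx d)) q'.2 x} else 0 :=
    sum_congr rfl fun q hq => sum_congr rfl fun q' hq' => hA2 q hq q' hq'
  rw [h7] at hb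
  linarith

end Pool.Agent.HD
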