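import Pool.Agent.Lib.MP_8ca597_hd.A03
import Pool.Agent.Lib.MP_8ca597_hd.A07

/-!
# Row A09: the increase of the two-point function with `p`

`EE_two` with `T = T1 ∪ H`. Let `K = cl T1 V a`. If `x ∉ K` and `Conn T V a x`, the last vertex `u`
in `K` of a path and the next vertex `v` satisfy `s(u, v) ∈ H \ T1` and `Conn T (V \ K) v x`.
Given `K` the edges of `V \ K` are fresh for `T1` and `H`, hence `T ∩ edges (V \ K)` has the law
with parameter `p2` (`EE_two` again), and is independent of `s(u, v) ∈ H`.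
-/

set_option autoImplicit false

namespace Pool.Agent.HD

open Finset
open scoped ENNReal

variable {d : ℕ}

theorem tau_mono_p {p p' : ℝ} (hp : 0 ≤ p) (hpp : p ≤ p') (hp1 : p' ≤ 1) (V : Finset (Vx d))
    (x y : Vx d) : tau p V x y ≤ tau p' V x y :=
  PP_mono_p hp hpp hp1 (up_conn _ _ _)

private theorem A09_last {T : Finset (Ed d)} {V K : Finset (Vx d)} {a x : Vx d} (ha : a ∈ K)
    (h : Conn T V a x) : x ∈ K ∨ ∃ u v : Vx d, u ∈ K ∧ u ∈ V ∧ v ∈ V ∧ v ∉ K ∧ Adj u v ∧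
      s(u, v) ∈ T ∧ Conn T ((V \ K : Finset (Vx d)) : Set (Vx d)) v x := by
  obtain ⟨haV, h⟩ := h
  have : x ∈ (V : Set (Vx d)) ∧ (x ∈ K ∨ ∃ u v : Vx d, u ∈ K ∧ u ∈ V ∧ v ∈ V ∧ v ∉ K ∧ Adj u v ∧
      s(u, v) ∈ T ∧ Conn T ((V \ K : Finset (Vx d)) : Set (Vx d)) v x) := by
    induction h with
    | refl => exact ⟨haV, Or.inl ha⟩
    | @tail b c _ hs ih =>
      obtain ⟨hbV, ih⟩ := ih
      refine ⟨hs.1, ?_⟩
      by_cases hc : c ∈ K
      · exact Or.inl hc
      · right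
        have hcV : c ∈ ((V \ K : Finset (Vx d)) : Set (Vx d)) := by
          have := hs.1
          simp only [Finset.coe_sdiff, Set.mem_diff, Finset.mem_coe] at this ⊢
          exact ⟨this, hc⟩
        rcases ih with hb | ⟨u, v, hu, huV, hvV, hv, hadj, he, hcon⟩
        · exact ⟨b, c, hb, by simpa using hbV, by simpa using hs.1, hc, hs.2.1, hs.2.2,
            Conn.refl hcV⟩
        · exact ⟨u, v, hu, huV, hvV, hv, hadj, he, hcon.step hcV hs.2.1 hs.2.2⟩
  exact this.2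

private theorem A09_point {T1 T2 : Finset (Ed d)} {V : Finset (Vx d)} {a x : Vx d}
    (h : Conn (T1 ∪ T2) V a x) : x ∈ cl T1 V a ∨ ∃ q ∈ prs V, q.1 ∈ cl T1 V a ∧
      s(q.1, q.2) ∈ T2 ∧
      Conn (T1 ∪ T2) ((V \ cl T1 V a : Finset (Vx d)) : Set (Vx d)) q.2 x := by
  classical
  rcases A09_last (self_mem_cl (T := T1) (by simpa using h.left)) h with hx |
    ⟨u, v, hu, huV, hvV, hv, hadj, he, hcon⟩
  · exact Or.inl hx
  · right
    refine ⟨(u, v), ?_, hu, ?_, hcon⟩
    · unfold prs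
      simp only [Finset.mem_filter, Finset.mem_product]
      exact ⟨⟨huV, hvV⟩, hadj⟩
    · rcases Finset.mem_union.1 he with he | he
      · exact absurd (cl_closed hu hvV hadj he) hv
      · exact he

/-- The inner expectation. -/
private theorem A09_inner {r : ℝ} (hr : 0 ≤ r) (hr1 : r ≤ 1) {V : Finset (Vx d)}
    {T1 : Finset (Ed d)} {a x : Vx d} {q : Vx d × Vx d} (hq : q ∈ prs V)
    (hqK : q.1 ∈ cl T1 V a) :
    PP r (edges V) {T2 | s(q.1, q.2) ∈ T2 ∧
      Conn (T1 ∪ T2) ((V \ cl T1 V a : Finset (Vx d)) : Set (Vx d)) q.2 x} =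
    r * PP r (edges (V \ cl T1 V a)) {T2 |
      Conn (T1 ∩ edges (V \ cl T1 V a) ∪ T2) ((V \ cl T1 V a : Finset (Vx d)) : Set (Vx d))
        q.2 x} := by
  classical
  set K := cl T1 V a with hK
  have hq' : (q.1 ∈ V ∧ q.2 ∈ V) ∧ Adj q.1 q.2 := by
    unfold prs at hq
    simpa only [Finset.mem_filter, Finset.mem_product] using hq
  have hmem : s(q.1, q.2) ∈ edges V := mem_edges.2 ⟨hq'.1.1, hq'.1.2, hq'.2⟩
  have hnot : s(q.1, q.2) ∉ edges (V \ K) := by
    intro h
    have := (mem_edges.1 h).1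
    exact (Finset.mem_sdiff.1 this).2 hqK
  have hdep1 : Dep {T2 : Finset (Ed d) | s(q.1, q.2) ∈ T2} {s(q.1, q.2)} := by
    intro T T' h
    have := congrArg (fun S => s(q.1, q.2) ∈ S) h
    simpa using this
  have hdep2 : Dep {T2 : Finset (Ed d) | Conn (T1 ∩ edges (V \ K) ∪ T2)
      ((V \ K : Finset (Vx d)) : Set (Vx d)) q.2 x} (edges (V \ K)) := by
    intro T T' h
    simp only [Set.mem_setOf_eq]
    rw [← conn_inter_edges, ← conn_inter_edges (T := T1 ∩ edges (V \ K) ∪ T'),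
      Finset.union_inter_distrib_right, Finset.union_inter_distrib_right, h]
  have hdisj : Disjoint ({s(q.1, q.2)} : Finset (Ed d)) (edges (V \ K)) := by
    rw [Finset.disjoint_singleton_left]
    exact hnot
  have hsub : edges (V \ K) ⊆ edges V := edges_mono Finset.sdiff_subset
  have h1 := PP_inter r (S := edges V) (Finset.singleton_subset_iff.2 hmem) hsub hdisj hdep1 hdep2
  rw [PP_mem r hmem, PP_dep r hsub hdep2] at h1
  rw [← h1]
  apply PP_congr
  intro T _
  simp only [Set.mem_setOf_eq, Set.mem_inter_iff]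
  refine and_congr_right fun _ => ?_
  rw [← conn_inter_edges, ← conn_inter_edges (T := T1 ∩ edges (V \ K) ∪ T),
    Finset.union_inter_distrib_right, Finset.union_inter_distrib_right, Finset.inter_assoc,
    Finset.inter_self]

theorem SL2 {p1 p2 r : ℝ} (h1 : 0 ≤ p1) (h1' : p1 ≤ 1) (hr : 0 ≤ r) (hr1 : r ≤ 1)
    (h : 1 - p2 = (1 - p1) * (1 - r)) (V : Finset (Vx d)) (a x : Vx d) :
    tau p2 V a x ≤ tau p1 V a x + r * ∑ q ∈ prs V, tau p1 V a q.1 * tau p2 V q.2 x := by
  classical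
  have h2' : p2 ≤ 1 := by nlinarith [mul_nonneg (sub_nonneg.2 h1') (sub_nonneg.2 hr1)]
  have h2 : 0 ≤ p2 := by
    have : (1 - p1) * (1 - r) ≤ 1 * 1 :=
      mul_le_mul (by linarith) (by linarith) (by linarith) (by norm_num)
    linarith
  -- the pointwise bound
  have key : ∀ T1 ⊆ edges V, PP r (edges V) {T2 | Conn (T1 ∪ T2) V a x} ≤
      (if x ∈ cl T1 V a then 1 else 0) + ∑ q ∈ prs V, (if q.1 ∈ cl T1 V a then
        r * PP r (edges (V \ cl T1 V a)) {T2 |
          Conn (T1 ∩ edges (V \ cl T1 V a) ∪ T2) ((V \ cl T1 V a : Finset (Vx d)) : Set (Vx d))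
          q.2 x} else 0) := by
    intro T1 _
    have ha : PP r (edges V) {T2 | Conn (T1 ∪ T2) V a x} ≤
        PP r (edges V) ({T2 | x ∈ cl T1 V a} ∪ {T2 | ∃ q ∈ prs V, T2 ∈
          {T2 : Finset (Ed d) | q.1 ∈ cl T1 V a ∧ s(q.1, q.2) ∈ T2 ∧
          Conn (T1 ∪ T2) ((V \ cl T1 V a : Finset (Vx d)) : Set (Vx d)) q.2 x}}) :=
      PP_mono hr hr1 fun T2 _ hT => A09_point hT
    refine ha.trans ((PP_union_le hr hr1).trans (add_le_add ?_ ?_))
    · split_ifs with hx
      · exact PP_le_one hr hr1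
      · rw [show ({T2 : Finset (Ed d) | x ∈ cl T1 V a} : Set (Finset (Ed d))) = ∅ by
          ext; simp [hx], PP_empty]
    · refine (PP_exists_le hr hr1 _ _).trans (Finset.sum_le_sum fun q hq => ?_)
      split_ifs with hqK
      · rw [← A09_inner hr hr1 hq hqK]
        exact PP_mono hr hr1 fun T2 _ hT => hT.2
      · rw [show ({T2 : Finset (Ed d) | q.1 ∈ cl T1 V a ∧ s(q.1, q.2) ∈ T2 ∧
          Conn (T1 ∪ T2) ((V \ cl T1 V a : Finset (Vx d)) : Set (Vx d)) q.2 x} :
          Set (Finset (Ed d))) = ∅ by ext; simp [hqK], PP_empty]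
  have e1 : tau p2 V a x = EE p1 (edges V) fun T1 =>
      PP r (edges V) {T2 | Conn (T1 ∪ T2) V a x} := by
    unfold tau
    rw [PP_def, EE_two h]
    apply EE_congr
    intro T1 _
    rw [PP_def]
    apply EE_congr
    intro T2 _
    simp only [Set.mem_setOf_eq]
  rw [e1]
  refine (EE_mono h1 h1' key).trans ?_
  rw [EE_add, EE_sum, Finset.mul_sum]
  refine add_le_add (tau_eq_EE p1 V a x).ge (Finset.sum_le_sum fun q hq => ?_)
  have e2 := expl_out p1 (S := V) (V := V) (le_refl _) a (fun K T => if q.1 ∈ K then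
        r * PP r (edges (V \ K)) {T2 |
          Conn (T ∪ T2) ((V \ K : Finset (Vx d)) : Set (Vx d)) q.2 x} else 0)
  rw [e2]
  have e3 : r * (tau p1 V a q.1 * tau p2 V q.2 x) = EE p1 (edges V) fun T' =>
      (if q.1 ∈ cl T' V a then 1 else 0) * (r * tau p2 V q.2 x) := by
    rw [EE_mul_const, ← tau_eq_EE]
    ring
  rw [e3]
  apply EE_mono h1 h1'
  intro T' _
  by_cases hqK : q.1 ∈ cl T' V a
  · simp only [hqK, if_true, one_mul]
    rw [EE_const_mul]
    refine mul_le_mul_of_nonneg_left ?_ hr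
    refine le_trans (le_of_eq ?_) (tau_mono h2 h2' (Finset.sdiff_subset (t := cl T' V a)) q.2 x)
    unfold tau
    rw [PP_def, EE_two h]
    apply EE_congr
    intro T1 _
    rw [PP_def]
    apply EE_congr
    intro T2 _
    simp only [Set.mem_setOf_eq]
  · simp only [hqK, if_false, zero_mul]
    rw [EE_const]

end Pool.Agent.HD
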