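import Pool.Agent.Lib.MP_8ca597_hd.A04
import Pool.Agent.Lib.MP_8ca597_hd.A07

/-!
# Row A10: the inequality for connections off a set

If `v ↔ x` in `V` but not in `V \ K`, a self-avoiding path from `v` to `x` passes through some
`a ∈ K`; its two parts use disjoint sets of edges, so `{v ↔ a} □ {a ↔ x}` occurs. Use
`SimpleGraph.Walk` (`IsPath`, `takeUntil`, `dropUntil`, `edges` nodup) for the graph with the
adjacency `x ∈ V ∧ y ∈ V ∧ Adj x y ∧ s(x, y) ∈ T`. Union bound and `bk`.
-/

set_option autoImplicit false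

namespace Pool.Agent.HD

open Finset
open scoped ENNReal

variable {d : ℕ} {p : ℝ}

private lemma A10_first {T : Finset (Ed d)} {V : Finset (Vx d)} {v x : Vx d}
    (h : Conn T V v x) (hne : v ≠ x) : ∃ w ∈ V \ {v}, Adj v w ∧ s(v, w) ∈ T ∧
      Conn T ((V \ {v} : Finset (Vx d)) : Set (Vx d)) w x := by
  classical
  have hv : v ∈ V := h.left
  have hcl : cl T {v} v = {v} := by
    apply Finset.Subset.antisymm (cl_subset T {v} v)
    rw [Finset.singleton_subset_iff]
    exact self_mem_cl (Finset.mem_singleton_self v)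
  rcases conn_cases (Finset.singleton_subset_iff.2 hv) (Finset.mem_singleton_self v) h with
    h1 | ⟨q, hq, h1, h2, h3⟩
  · rw [hcl, Finset.mem_singleton] at h1
    exact absurd h1.symm hne
  · rw [hcl] at h1 h3
    have hq1 : q.1 = v := Finset.mem_singleton.1 h1
    obtain ⟨h4, h5⟩ := Finset.mem_filter.1 hq
    obtain ⟨_, h6⟩ := Finset.mem_product.1 h4
    rw [hq1] at h2 h5
    refine ⟨q.2, h6, h5, h2, ?_⟩
    rw [Finset.coe_sdiff]
    exact h3

private lemma A10_main (T : Finset (Ed d)) (n : ℕ) :
    ∀ (V : Finset (Vx d)), V.card = n → ∀ (A : Finset (Vx d)) (v x : Vx d), Conn T V v x →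
      ¬ Conn T ((V : Set (Vx d)) \ A) v x → ∃ a ∈ A,
      T ∈ box {T : Finset (Ed d) | Conn T V v a} {T : Finset (Ed d) | Conn T V a x} := by
  classical

  induction n with
  | zero =>
    intro V hV A v x h _
    rw [Finset.card_eq_zero] at hV
    have := h.left
    rw [hV] at this
    simp at this
  | succ n ih =>
    intro V hV A v x h h'
    have hv : v ∈ V := h.left
    by_cases hvA : v ∈ A
    · refine ⟨v, hvA, ∅, T, Finset.empty_subset _, Finset.Subset.refl _,
        Finset.disjoint_empty_left _, Conn.refl hv, h⟩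
    · have hvx : v ≠ x := by
        rintro rfl
        exact h' (Conn.refl ⟨hv, hvA⟩)
      obtain ⟨w, hw, hadj, he, hc⟩ := A10_first h hvx
      have hc' : ¬ Conn T (((V \ {v} : Finset (Vx d)) : Set (Vx d)) \ A) w x := by
        intro hcon
        have h1 : Conn T ((V : Set (Vx d)) \ A) w x := by
          refine hcon.mono (Finset.Subset.refl _) ?_
          rw [Finset.coe_sdiff]
          intro y hy
          exact ⟨hy.1.1, hy.2⟩
        have h0 : Conn T ((V : Set (Vx d)) \ A) v v := Conn.refl ⟨hv, hvA⟩
        have h2 : Conn T ((V : Set (Vx d)) \ A) v w := h0.step h1.left hadj he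
        exact h' (h2.trans h1)
      have hcard : (V \ {v}).card = n := by
        rw [Finset.card_sdiff_of_subset (Finset.singleton_subset_iff.2 hv), hV,
          Finset.card_singleton]
        rfl
      obtain ⟨a, ha, T1, T2, h1, h2, hd, hc1, hc2⟩ := ih (V \ {v}) hcard A w x hc hc'
      have hsub : ((V \ {v} : Finset (Vx d)) : Set (Vx d)) ⊆ (V : Set (Vx d)) := by
        rw [Finset.coe_sdiff]
        exact Set.sdiff_subset
      have hnv : ∀ y, s(v, y) ∉ edges (V \ {v}) := by
        intro y hy
        exact (Finset.mem_sdiff.1 (mem_edges.1 hy).1).2 (Finset.mem_singleton_self v)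
      refine ⟨a, ha, insert s(v, w) (T1 ∩ edges (V \ {v})), T2 ∩ edges (V \ {v}), ?_, ?_, ?_, ?_,
        ?_⟩
      · rw [Finset.insert_subset_iff]
        exact ⟨he, Finset.inter_subset_left.trans h1⟩
      · exact Finset.inter_subset_left.trans h2
      · rw [Finset.disjoint_insert_left]
        refine ⟨fun hh => hnv w (Finset.mem_inter.1 hh).2, ?_⟩
        exact hd.mono Finset.inter_subset_left Finset.inter_subset_left
      · have h3 : Conn (T1 ∩ edges (V \ {v})) ((V \ {v} : Finset (Vx d)) : Set (Vx d)) w a :=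
          conn_inter_edges.2 hc1
        have h4 : Conn (insert s(v, w) (T1 ∩ edges (V \ {v}))) (V : Set (Vx d)) w a :=
          h3.mono (Finset.subset_insert _ _) hsub
        have h5 : Conn (insert s(v, w) (T1 ∩ edges (V \ {v}))) (V : Set (Vx d)) v w :=
          (Conn.refl hv).step h4.left hadj (Finset.mem_insert_self _ _)
        exact h5.trans h4
      · have h3 : Conn (T2 ∩ edges (V \ {v})) ((V \ {v} : Finset (Vx d)) : Set (Vx d)) a x :=
          conn_inter_edges.2 hc2
        exact h3.mono (Finset.Subset.refl _) hsub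

/-- A connection which passes through `a` for every choice of the path, as disjoint
occurrence. -/
theorem conn_off {T : Finset (Ed d)} {K V : Finset (Vx d)} {v x : Vx d} (h : Conn T V v x)
    (h' : ¬ Conn T ((V : Set (Vx d)) \ K) v x) : ∃ a ∈ K,
      T ∈ box {T : Finset (Ed d) | Conn T V v a} {T : Finset (Ed d) | Conn T V a x} :=
  A10_main T V.card V rfl K v x h h'

theorem OFF (hp : 0 ≤ p) (hp1 : p ≤ 1 / 2) (V K : Finset (Vx d)) (v x : Vx d) :
    tau p V v x ≤ tau p (V \ K) v x + ∑ a ∈ K, tau p V v a * tau p V a x := by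
  classical
  have hp2 : p ≤ 1 := by linarith
  have h1 : tau p V v x ≤ PP p (edges V)
      ({T | Conn T ((V \ K : Finset (Vx d)) : Set (Vx d)) v x} ∪
        {T | ∃ a ∈ K, T ∈ box {T : Finset (Ed d) | Conn T V v a}
          {T : Finset (Ed d) | Conn T V a x}}) := by
    unfold tau
    refine PP_mono hp hp2 fun T _ hT => ?_
    by_cases h2 : Conn T ((V : Set (Vx d)) \ K) v x
    · left
      change Conn T ((V \ K : Finset (Vx d)) : Set (Vx d)) v x
      rw [Finset.coe_sdiff]
      exact h2
    · right
      exact conn_off hT h2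
  refine h1.trans ((PP_union_le hp hp2).trans ?_)
  refine add_le_add ?_ ?_
  · rw [PP_dep p (edges_mono Finset.sdiff_subset) (dep_conn (V \ K) v x)]
    exact le_refl _
  · refine (PP_exists_le hp hp2 K _).trans ?_
    refine Finset.sum_le_sum fun a _ => ?_
    exact bk hp hp1 (edges V) (up_conn _ v a) (up_conn _ a x)

end Pool.Agent.HD
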