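import Pool.Agent.Lib.MP_8ca597_hd.A04
import Pool.Agent.Lib.MP_8ca597_hd.A07

/-!
# Row A11: the tree graph inequality

Let `P` be a self-avoiding open path from `a` to `x` and `Q` one from `a` to `y`, and let `w` be
the last vertex of `Q` on `P`. The part of `P` before `w`, the part of `P` after `w` and the part
of `Q` after `w` use disjoint sets of edges. Union bound over `w ∈ V` and `bk3`.
-/

set_option autoImplicit false

namespace Pool.Agent.HD

open Finset
open scoped ENNReal

variable {d : ℕ} {p : ℝ}

/-- The graph of the open edges in `V`. -/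
private def A11_G (T : Finset (Ed d)) (V : Set (Vx d)) : SimpleGraph (Vx d) where
  Adj x y := x ∈ V ∧ y ∈ V ∧ Adj x y ∧ s(x, y) ∈ T
  symm := ⟨fun x y h => ⟨h.2.1, h.1, h.2.2.1.symm, by rw [Sym2.eq_swap]; exact h.2.2.2⟩⟩
  loopless := ⟨fun _ h => h.2.2.1.ne rfl⟩

private theorem A11_reach {T : Finset (Ed d)} {V : Set (Vx d)} {x y : Vx d} (h : Conn T V x y) :
    (A11_G T V).Reachable x y := by
  obtain ⟨hx, h⟩ := h
  have : y ∈ V ∧ (A11_G T V).Reachable x y := by
    induction h with
    | refl => exact ⟨hx, SimpleGraph.Reachable.refl _⟩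
    | tail _ hs ih =>
      exact ⟨hs.1, ih.2.trans (SimpleGraph.Adj.reachable (G := A11_G T V)
        ⟨ih.1, hs.1, hs.2.1, hs.2.2⟩)⟩
  exact this.2

private theorem A11_conn {T K : Finset (Ed d)} {V : Set (Vx d)} {x y : Vx d}
    (q : (A11_G T V).Walk x y) (hx : x ∈ V) (h : ∀ e ∈ q.edges, e ∈ K) : Conn K V x y := by
  induction q with
  | nil => exact Conn.refl hx
  | cons hadj q ih =>
    rw [SimpleGraph.Walk.edges_cons] at h
    refine Conn.trans (Conn.step (Conn.refl hx) hadj.2.1 hadj.2.2.1 (h _ (by simp))) ?_
    exact ih hadj.2.1 fun e he => h e (by simp [he])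

private theorem A11_mem {T : Finset (Ed d)} {V : Set (Vx d)} {x y : Vx d}
    (q : (A11_G T V).Walk x y) {e : Ed d} (he : e ∈ q.edges) : e ∈ T := by
  have := q.edges_subset_edgeSet he
  induction e using Sym2.ind with
  | _ u v => exact this.2.2.2

theorem conn_tree {T : Finset (Ed d)} {V : Finset (Vx d)} {a x y : Vx d} (h : Conn T V a x)
    (h' : Conn T V a y) : ∃ w ∈ V, T ∈ box {T : Finset (Ed d) | Conn T V a w}
      (box {T : Finset (Ed d) | Conn T V w x} {T : Finset (Ed d) | Conn T V w y}) := by
  classical
  have haV : a ∈ (V : Set (Vx d)) := h.left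
  obtain ⟨P, hP⟩ := (A11_reach h).exists_isPath
  obtain ⟨R, hR⟩ := (A11_reach h'.symm).exists_isPath
  obtain ⟨w, hwP, hwR, hw⟩ := R.exists_mem_support_forall_mem_support_imp_eq P.support.toFinset
    ⟨a, by simp⟩
  have hwP' : w ∈ P.support := by simpa using hwP
  have hconn : Conn T V a w := A11_conn (P.takeUntil w hwP') haV fun e he => A11_mem _ he
  have hwV : w ∈ (V : Set (Vx d)) := hconn.right
  have hdisj : Disjoint (P.takeUntil w hwP').edges.toFinset (P.dropUntil w hwP').edges.toFinset := by
    rw [Finset.disjoint_left]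
    intro e he he'
    exact hP.isTrail.disjoint_edges_takeUntil_dropUntil hwP' (by simpa using he) (by simpa using he')
  have hdR : ∀ e ∈ (R.takeUntil w hwR).edges, e ∉ P.edges := by
    intro e he heP
    have hadj := (R.takeUntil w hwR).edges_subset_edgeSet he
    induction e using Sym2.ind with
    | _ u v =>
      have hu := hw u (by simpa using P.fst_mem_support_of_mem_edges heP)
        ((R.takeUntil w hwR).fst_mem_support_of_mem_edges he)
      have hv := hw v (by simpa using P.snd_mem_support_of_mem_edges heP)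
        ((R.takeUntil w hwR).snd_mem_support_of_mem_edges he)
      exact hadj.2.2.1.ne (hu.trans hv.symm)
  have htakeP : ∀ e ∈ (P.takeUntil w hwP').edges, e ∈ P.edges := fun e he =>
    P.edges_takeUntil_subset_edges hwP' he
  have hdropP : ∀ e ∈ (P.dropUntil w hwP').edges, e ∈ P.edges := fun e he =>
    P.edges_dropUntil_subset_edges hwP' he
  refine ⟨w, by simpa using hwV, (P.takeUntil w hwP').edges.toFinset,
    (P.dropUntil w hwP').edges.toFinset ∪ (R.takeUntil w hwR).edges.toFinset, ?_, ?_, ?_, ?_, ?_⟩
  · intro e he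
    exact A11_mem _ (by simpa using he)
  · intro e he
    rw [Finset.mem_union] at he
    rcases he with he | he
    · exact A11_mem _ (by simpa using he)
    · exact A11_mem _ (by simpa using he)
  · rw [Finset.disjoint_union_right]
    refine ⟨hdisj, ?_⟩
    rw [Finset.disjoint_left]
    intro e he he'
    exact hdR e (by simpa using he') (htakeP e (by simpa using he))
  · exact A11_conn (P.takeUntil w hwP') haV fun e he => by simpa using he
  · refine ⟨(P.dropUntil w hwP').edges.toFinset, (R.takeUntil w hwR).edges.toFinset,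
      Finset.subset_union_left, Finset.subset_union_right, ?_, ?_, ?_⟩
    · rw [Finset.disjoint_left]
      intro e he he'
      exact hdR e (by simpa using he') (hdropP e (by simpa using he))
    · exact A11_conn (P.dropUntil w hwP') hwV fun e he => by simpa using he
    · exact (A11_conn (V := (V : Set (Vx d))) (R.takeUntil w hwR) h'.right
        fun e he => by simpa using he).symm

/-- The tree graph inequality. -/
theorem TG (hp : 0 ≤ p) (hp1 : p ≤ 1 / 2) (V : Finset (Vx d)) (a x y : Vx d) :
    PP p (edges V) {T | Conn T V a x ∧ Conn T V a y} ≤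
      ∑ w ∈ V, tau p V a w * tau p V w x * tau p V w y := by
  have hp1' : p ≤ 1 := hp1.trans (by norm_num)
  refine (PP_mono hp hp1' (B := {T | ∃ w ∈ V, T ∈ box {T : Finset (Ed d) | Conn T V a w}
      (box {T : Finset (Ed d) | Conn T V w x} {T : Finset (Ed d) | Conn T V w y})})
      fun T _ hT => conn_tree hT.1 hT.2).trans ?_
  refine (PP_exists_le hp hp1' V _).trans ?_
  exact Finset.sum_le_sum fun w _ => bk3 hp hp1 (edges V) (up_conn _ _ _) (up_conn _ _ _)
    (up_conn _ _ _)

end Pool.Agent.HD
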