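import Pool.Agent.Lib.MP_8ca597_hd.A09

/-!
# Row A12: elementary facts on the two-point function, symmetries
-/

set_option autoImplicit false

namespace Pool.Agent.HD

open Finset
open scoped ENNReal

variable {d : ℕ} {p : ℝ}

theorem tau_symm (p : ℝ) (V : Finset (Vx d)) (x y : Vx d) : tau p V x y = tau p V y x :=
  PP_congr fun _ _ => ⟨fun h => Conn.symm h, fun h => Conn.symm h⟩

theorem tau_self (p : ℝ) {V : Finset (Vx d)} {x : Vx d} (h : x ∈ V) : tau p V x x = 1 := by
  rw [← PP_univ p (edges V)]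
  exact PP_congr fun _ _ => ⟨fun _ => Set.mem_univ _, fun _ => Conn.refl h⟩

theorem tau_zero_left (p : ℝ) {V : Finset (Vx d)} {x : Vx d} (h : x ∉ V) (y : Vx d) :
    tau p V x y = 0 := by
  rw [← PP_empty p (edges V)]
  exact PP_congr fun _ _ => ⟨fun h' => absurd (Conn.left h') h, fun h' => absurd h' (by simp)⟩

theorem tau_zero_right (p : ℝ) {V : Finset (Vx d)} {y : Vx d} (h : y ∉ V) (x : Vx d) :
    tau p V x y = 0 := by
  rw [← PP_empty p (edges V)]
  exact PP_congr fun _ _ => ⟨fun h' => absurd (Conn.right h') h, fun h' => absurd h' (by simp)⟩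

theorem tau_continuous (V : Finset (Vx d)) (x y : Vx d) : Continuous fun p => tau p V x y :=
  PP_continuous _ _

theorem A12_EE_map {α β : Type} [DecidableEq α] [DecidableEq β] (p : ℝ) (E : α ↪ β)
    (S : Finset α) (f : Finset β → ℝ) : EE p (S.map E) f = EE p S fun T => f (T.map E) := by
  induction S using Finset.induction_on generalizing f with
  | empty => rw [Finset.map_empty, EE_empty, EE_empty, Finset.map_empty]
  | insert a S ha ih =>
    have h1 : E a ∉ S.map E := by
      rw [Finset.mem_map']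
      exact ha
    rw [Finset.map_insert, EE_insert p h1, EE_insert p ha, ih, ih]
    simp only [Finset.map_insert]

/-- The action on the edges. -/
def A12_E (σ : Vx d ≃ Vx d) : Ed d ↪ Ed d := ⟨Sym2.map σ, Sym2.map.injective σ.injective⟩

theorem A12_E_mk (σ : Vx d ≃ Vx d) (x y : Vx d) : A12_E σ s(x, y) = s(σ x, σ y) := rfl

theorem A12_edges (σ : Vx d ≃ Vx d) (hσ : ∀ x y, Adj (σ x) (σ y) ↔ Adj x y)
    (V : Finset (Vx d)) : edges (V.map σ.toEmbedding) = (edges V).map (A12_E σ) := by
  ext e
  induction e using Sym2.ind with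
  | _ a b =>
    obtain ⟨a, rfl⟩ := σ.surjective a
    obtain ⟨b, rfl⟩ := σ.surjective b
    have hm : ∀ v : Vx d, σ v ∈ V.map σ.toEmbedding ↔ v ∈ V := by
      intro v
      exact Finset.mem_map' σ.toEmbedding
    rw [← A12_E_mk, Finset.mem_map', A12_E_mk, mem_edges, mem_edges, hm, hm, hσ]

theorem A12_conn (σ : Vx d ≃ Vx d) (hσ : ∀ x y, Adj (σ x) (σ y) ↔ Adj x y)
    (V : Finset (Vx d)) (T : Finset (Ed d)) (x y : Vx d) :
    Conn (T.map (A12_E σ)) (V.map σ.toEmbedding : Finset (Vx d)) (σ x) (σ y) ↔ Conn T V x y := by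
  have hm : ∀ v : Vx d, σ v ∈ ((V.map σ.toEmbedding : Finset (Vx d)) : Set (Vx d)) ↔
      v ∈ (V : Set (Vx d)) := by
    intro v
    exact Finset.mem_map' σ.toEmbedding
  have hs : ∀ u v : Vx d, Step (T.map (A12_E σ)) ((V.map σ.toEmbedding : Finset (Vx d)) :
      Set (Vx d)) (σ u) (σ v) ↔ Step T V u v := by
    intro u v
    unfold Step
    rw [hm, hσ, ← A12_E_mk, Finset.mem_map']
  constructor
  · rintro ⟨h1, h2⟩
    refine ⟨(hm x).1 h1, ?_⟩
    have h3 : ∀ u v, Relation.ReflTransGen (Step (T.map (A12_E σ))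
        ((V.map σ.toEmbedding : Finset (Vx d)) : Set (Vx d))) u v →
        Relation.ReflTransGen (Step T (V : Set (Vx d))) (σ.symm u) (σ.symm v) := by
      intro u v huv
      refine Relation.ReflTransGen.lift (fun w => σ.symm w) (fun a b hab => ?_) u v huv
      show Step T V (σ.symm a) (σ.symm b)
      rw [← hs, σ.apply_symm_apply, σ.apply_symm_apply]
      exact hab
    have h4 := h3 _ _ h2
    rwa [σ.symm_apply_apply, σ.symm_apply_apply] at h4
  · rintro ⟨h1, h2⟩
    refine ⟨(hm x).2 h1, ?_⟩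
    exact Relation.ReflTransGen.lift (fun w => σ w) (fun a b hab => (hs a b).2 hab) x y h2

/-- Automorphisms of the lattice. -/
theorem tau_equiv (p : ℝ) (σ : Vx d ≃ Vx d) (hσ : ∀ x y, Adj (σ x) (σ y) ↔ Adj x y)
    (V : Finset (Vx d)) (x y : Vx d) :
    tau p (V.map σ.toEmbedding) (σ x) (σ y) = tau p V x y := by
  unfold tau
  rw [A12_edges σ hσ, PP_def, A12_EE_map, PP_def]
  refine EE_congr fun T _ => ?_
  have h := A12_conn σ hσ V T x y
  by_cases hc : Conn T V x y
  · rw [if_pos (show T ∈ {T : Finset (Ed d) | Conn T V x y} from hc)]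
    exact if_pos (h.2 hc)
  · rw [if_neg (show ¬ T ∈ {T : Finset (Ed d) | Conn T V x y} from hc)]
    exact if_neg (fun h' => hc (h.1 h'))

theorem adj_add (x y z : Vx d) : Adj (x + z) (y + z) ↔ Adj x y := by
  unfold Adj
  have h : ∀ i, |(x + z) i - (y + z) i| = |x i - y i| := by
    intro i
    congr 1
    simp only [Pi.add_apply]
    ring
  simp only [h]

theorem adj_neg (x y : Vx d) : Adj (-x) (-y) ↔ Adj x y := by
  unfold Adj
  have h : ∀ i, |(-x) i - (-y) i| = |x i - y i| := by
    intro i
    rw [← abs_neg (x i - y i)]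
    congr 1
    simp only [Pi.neg_apply]
    ring
  simp only [h]

/-- Signed permutations of the coordinates. -/
theorem adj_signed (π : Equiv.Perm (Fin d)) (ε : Fin d → ℤ) (hε : ∀ i, ε i = 1 ∨ ε i = -1)
    (x y : Vx d) : Adj (fun i => ε i * x (π i)) (fun i => ε i * y (π i)) ↔ Adj x y := by
  unfold Adj
  have h : ∀ i, |ε i * x (π i) - ε i * y (π i)| = |x (π i) - y (π i)| := by
    intro i
    rw [← mul_sub, abs_mul]
    rcases hε i with h | h <;> rw [h] <;> simp
  simp only [h]
  rw [Equiv.sum_comp π (fun i => |x i - y i|)]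

theorem A12_natAbs_le (x : Vx d) (i : Fin d) : (x i).natAbs ≤ nm x :=
  Finset.le_sup (f := fun i => (x i).natAbs) (Finset.mem_univ i)

theorem A12_nm_le {n : ℕ} {x : Vx d} (h : ∀ i, (x i).natAbs ≤ n) : nm x ≤ n :=
  Finset.sup_le fun i _ => h i

theorem mem_Bx {n : ℕ} {x : Vx d} : x ∈ Bx d n ↔ nm x ≤ n := by
  unfold Bx
  rw [Fintype.mem_piFinset]
  constructor
  · intro h
    refine A12_nm_le fun i => ?_
    have h1 := Finset.mem_Icc.1 (h i)
    omega
  · intro h i
    have h1 := (A12_natAbs_le x i).trans h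
    rw [Finset.mem_Icc]
    omega

theorem mem_Bd {n : ℕ} {x : Vx d} : x ∈ Bd d n ↔ nm x = n := by
  unfold Bd
  rw [Finset.mem_filter, mem_Bx]
  exact ⟨fun h => h.2, fun h => ⟨h.le, h⟩⟩

theorem nm_add_le (x y : Vx d) : nm (x + y) ≤ nm x + nm y := by
  refine A12_nm_le fun i => ?_
  have h1 := A12_natAbs_le x i
  have h2 := A12_natAbs_le y i
  have h3 : (x + y) i = x i + y i := rfl
  rw [h3]
  omega

theorem nm_neg (x : Vx d) : nm (-x) = nm x := by
  unfold nm
  refine Finset.sup_congr rfl fun i _ => ?_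
  exact Int.natAbs_neg (x i)

theorem A12_adj_le {x y : Vx d} (h : Adj x y) (i : Fin d) : |x i - y i| ≤ 1 := by
  unfold Adj at h
  rw [← h]
  exact Finset.single_le_sum (f := fun i => |x i - y i|) (fun i _ => abs_nonneg _)
    (Finset.mem_univ i)

theorem nm_adj {x y : Vx d} (h : Adj x y) : nm y ≤ nm x + 1 := by
  refine A12_nm_le fun i => ?_
  have h1 := A12_natAbs_le x i
  have h2 := abs_le.1 (A12_adj_le h i)
  omega

theorem mem_nbr {x y : Vx d} : y ∈ nbr x ↔ Adj x y := by
  classical
  unfold nbr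
  rw [Finset.mem_filter, Fintype.mem_piFinset]
  refine ⟨fun h => h.2, fun h => ⟨fun i => ?_, h⟩⟩
  have h2 := abs_le.1 (A12_adj_le h i)
  rw [Finset.mem_Icc]
  omega

/-- The neighbours are obtained by changing one coordinate by `1` or `-1`. -/
theorem A12_adj_iff {x y : Vx d} : Adj x y ↔ ∃ (i : Fin d) (b : Bool),
    y = Function.update x i (x i + if b then 1 else -1) := by
  constructor
  · intro h
    have h0 : ∃ i, x i ≠ y i := by
      by_contra hcon
      push Not at hcon
      unfold Adj at h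
      simp [hcon] at h
    obtain ⟨i, hi⟩ := h0
    have hsplit := Finset.add_sum_erase Finset.univ (fun i => |x i - y i|) (Finset.mem_univ i)
    have h1 : (1 : ℤ) ≤ |x i - y i| := Int.one_le_abs (sub_ne_zero.2 hi)
    have h2 : ∑ j ∈ Finset.univ.erase i, |x j - y j| = 0 := by
      have h3 : 0 ≤ ∑ j ∈ Finset.univ.erase i, |x j - y j| :=
        Finset.sum_nonneg fun j _ => abs_nonneg _
      unfold Adj at h
      omega
    have h4 : |x i - y i| = 1 := le_antisymm (A12_adj_le h i) h1
    have h5 : ∀ j, j ≠ i → y j = x j := by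
      intro j hj
      have h6 := (Finset.sum_eq_zero_iff_of_nonneg (fun j _ => abs_nonneg _)).1 h2 j
        (Finset.mem_erase.2 ⟨hj, Finset.mem_univ _⟩)
      have h7 := abs_eq_zero.1 h6
      omega
    rcases (abs_eq zero_le_one).1 h4 with h8 | h8
    · refine ⟨i, false, ?_⟩
      funext j
      by_cases hj : j = i
      · rw [hj, Function.update_self]
        simp only [Bool.false_eq_true, if_false]
        omega
      · rw [Function.update_of_ne hj]
        exact h5 j hj
    · refine ⟨i, true, ?_⟩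
      funext j
      by_cases hj : j = i
      · rw [hj, Function.update_self]
        simp only [if_true]
        omega
      · rw [Function.update_of_ne hj]
        exact h5 j hj
  · rintro ⟨i, b, rfl⟩
    unfold Adj
    rw [Finset.sum_eq_single_of_mem i (Finset.mem_univ i)]
    · rw [Function.update_self]
      cases b <;> simp
    · intro j _ hj
      rw [Function.update_of_ne hj]
      simp

theorem card_nbr (x : Vx d) : (nbr x).card = 2 * d := by
  classical
  have hinj : Function.Injective (fun q : Fin d × Bool =>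
      Function.update x q.1 (x q.1 + if q.2 then (1 : ℤ) else -1)) := by
    rintro ⟨i, b⟩ ⟨j, c⟩ h
    simp only at h
    have hij : i = j := by
      by_contra hne
      have h1 := congrFun h i
      rw [Function.update_self, Function.update_of_ne hne] at h1
      cases b <;> simp at h1
    subst hij
    have h1 := congrFun h i
    rw [Function.update_self, Function.update_self] at h1
    cases b <;> cases c <;> simp_all
  have h1 : nbr x = (Finset.univ : Finset (Fin d × Bool)).image (fun q : Fin d × Bool =>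
      Function.update x q.1 (x q.1 + if q.2 then (1 : ℤ) else -1)) := by
    ext y
    rw [mem_nbr, A12_adj_iff, Finset.mem_image]
    constructor
    · rintro ⟨i, b, h⟩
      exact ⟨(i, b), Finset.mem_univ _, h.symm⟩
    · rintro ⟨⟨i, b⟩, _, h⟩
      exact ⟨i, b, h.symm⟩
  rw [h1, Finset.card_image_of_injective _ hinj, Finset.card_univ, Fintype.card_prod,
    Fintype.card_fin, Fintype.card_bool, mul_comm]

theorem mem_nbh {K : Finset (Vx d)} {y : Vx d} : y ∈ nbh K ↔ y ∈ K ∨ ∃ x ∈ K, Adj x y := by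
  unfold nbh
  rw [Finset.mem_union, Finset.mem_biUnion]
  simp only [mem_nbr]

theorem mem_exits {S V : Finset (Vx d)} {q : Vx d × Vx d} :
    q ∈ exits S V ↔ q.1 ∈ S ∧ q.2 ∈ V ∧ q.2 ∉ S ∧ Adj q.1 q.2 := by
  classical
  unfold exits
  rw [Finset.mem_filter, Finset.mem_product, Finset.mem_sdiff]
  tauto

theorem mem_prs {V : Finset (Vx d)} {q : Vx d × Vx d} :
    q ∈ prs V ↔ q.1 ∈ V ∧ q.2 ∈ V ∧ Adj q.1 q.2 := by
  classical
  unfold prs
  rw [Finset.mem_filter, Finset.mem_product]
  tauto

/-- A path of length `nm x` through the box. -/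
theorem exists_box (V : Finset (Vx d)) : ∃ n : ℕ, V ⊆ Bx d n :=
  ⟨V.sup nm, fun _ hx => mem_Bx.2 (Finset.le_sup hx)⟩

end Pool.Agent.HD
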