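import Pool.Agent.Lib.MP_8ca597_hd.A12

/-!
# Row A13: elementary facts on the infinite volume two-point function

`tauI_seq`: `tau` is monotone in the domain and every finite set is contained in a box.
`tauI_left`: `tau p V x y` is continuous in `p`.
-/

set_option autoImplicit false
set_option linter.unusedVariables false

namespace Pool.Agent.HD

open Finset
open scoped ENNReal

variable {d : ℕ} {p : ℝ}

theorem le_tauI (p : ℝ) {V : Finset (Vx d)} {S : Set (Vx d)} (h : (V : Set (Vx d)) ⊆ S)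
    (x y : Vx d) : ENNReal.ofReal (tau p V x y) ≤ tauI p S x y :=
  le_iSup₂ (f := fun (V : Finset (Vx d)) (_ : (V : Set (Vx d)) ⊆ S) =>
    ENNReal.ofReal (tau p V x y)) V h

theorem tauI_le {S : Set (Vx d)} {x y : Vx d} {c : ℝ≥0∞}
    (h : ∀ V : Finset (Vx d), (V : Set (Vx d)) ⊆ S → ENNReal.ofReal (tau p V x y) ≤ c) :
    tauI p S x y ≤ c :=
  iSup₂_le h

theorem tauI_mono (hp : 0 ≤ p) (hp1 : p ≤ 1) {S S' : Set (Vx d)} (h : S ⊆ S') (x y : Vx d) :
    tauI p S x y ≤ tauI p S' x y :=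
  tauI_le fun _ hV => le_tauI p (hV.trans h) x y

theorem tauI_mono_p {p' : ℝ} (hp : 0 ≤ p) (hpp : p ≤ p') (hp1 : p' ≤ 1) (S : Set (Vx d))
    (x y : Vx d) : tauI p S x y ≤ tauI p' S x y :=
  tauI_le fun V hV => (ENNReal.ofReal_le_ofReal (tau_mono_p hp hpp hp1 V x y)).trans
    (le_tauI p' hV x y)

theorem tauI_le_one (hp : 0 ≤ p) (hp1 : p ≤ 1) (S : Set (Vx d)) (x y : Vx d) :
    tauI p S x y ≤ 1 :=
  tauI_le fun V _ => ENNReal.ofReal_le_one.2 (tau_le_one hp hp1 V x y)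

theorem tauI_symm (p : ℝ) (S : Set (Vx d)) (x y : Vx d) : tauI p S x y = tauI p S y x := by
  unfold tauI
  simp only [tau_symm p _ x y]

theorem tauI_self (p : ℝ) {S : Set (Vx d)} {x : Vx d} (h : x ∈ S) : tauI p S x x = 1 := by
  apply le_antisymm
  · refine tauI_le fun V _ => ?_
    by_cases hx : x ∈ V
    · rw [tau_self p hx, ENNReal.ofReal_one]
    · rw [tau_zero_left p hx, ENNReal.ofReal_zero]
      exact zero_le_one
  · have h1 := le_tauI p (V := {x}) (S := S) (by simpa using h) x x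
    rw [tau_self p (Finset.mem_singleton_self x), ENNReal.ofReal_one] at h1
    exact h1

theorem tauI_zero_left (p : ℝ) {S : Set (Vx d)} {x : Vx d} (h : x ∉ S) (y : Vx d) :
    tauI p S x y = 0 := by
  refine le_antisymm (tauI_le fun V hV => ?_) (zero_le)
  rw [tau_zero_left p (fun hx => h (hV hx)), ENNReal.ofReal_zero]

theorem tauI_zero_right (p : ℝ) {S : Set (Vx d)} {y : Vx d} (h : y ∉ S) (x : Vx d) :
    tauI p S x y = 0 := by
  refine le_antisymm (tauI_le fun V hV => ?_) (zero_le)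
  rw [tau_zero_right p (fun hx => h (hV hx)), ENNReal.ofReal_zero]

theorem tauI_coe (hp : 0 ≤ p) (hp1 : p ≤ 1) (V : Finset (Vx d)) (x y : Vx d) :
    tauI p V x y = ENNReal.ofReal (tau p V x y) := by
  refine le_antisymm (tauI_le fun W hW => ?_) (le_tauI p (subset_rfl) x y)
  exact ENNReal.ofReal_le_ofReal (tau_mono hp hp1 (Finset.coe_subset.1 hW) x y)

theorem tauI_seq (hp : 0 ≤ p) (hp1 : p ≤ 1) (S : Set (Vx d)) [DecidablePred (· ∈ S)]
    (x y : Vx d) :
    tauI p S x y = ⨆ n : ℕ, ENNReal.ofReal (tau p ((Bx d n).filter (· ∈ S)) x y) := by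
  apply le_antisymm
  · refine tauI_le fun V hV => ?_
    obtain ⟨n, hn⟩ := exists_box V
    refine le_trans (ENNReal.ofReal_le_ofReal (tau_mono hp hp1 ?_ x y))
      (le_iSup (fun n : ℕ => ENNReal.ofReal (tau p ((Bx d n).filter (· ∈ S)) x y)) n)
    intro v hv
    exact Finset.mem_filter.2 ⟨hn hv, hV hv⟩
  · refine iSup_le fun n => le_tauI p ?_ x y
    intro v hv
    exact (Finset.mem_filter.1 hv).2

theorem tauI_equiv (p : ℝ) (σ : Vx d ≃ Vx d) (hσ : ∀ x y, Adj (σ x) (σ y) ↔ Adj x y)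
    (S : Set (Vx d)) (x y : Vx d) : tauI p (σ '' S) (σ x) (σ y) = tauI p S x y := by
  have key : ∀ (σ : Vx d ≃ Vx d) (_ : ∀ x y, Adj (σ x) (σ y) ↔ Adj x y) (S : Set (Vx d))
      (x y : Vx d), tauI p S x y ≤ tauI p (σ '' S) (σ x) (σ y) := by
    intro σ hσ S x y
    refine tauI_le fun V hV => ?_
    rw [← tau_equiv p σ hσ V x y]
    refine le_tauI p ?_ _ _
    rintro v hv
    obtain ⟨u, hu, rfl⟩ := Finset.mem_map.1 hv
    exact ⟨u, hV hu, rfl⟩
  refine le_antisymm ?_ (key σ hσ S x y)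
  have hσ' : ∀ x y, Adj (σ.symm x) (σ.symm y) ↔ Adj x y := by
    intro x y
    rw [← hσ, σ.apply_symm_apply, σ.apply_symm_apply]
  have h1 := key σ.symm hσ' (σ '' S) (σ x) (σ y)
  rwa [σ.symm_image_image, σ.symm_apply_apply, σ.symm_apply_apply] at h1

/-- Translations. -/
theorem tauI_add (p : ℝ) (S : Set (Vx d)) (x y z : Vx d) :
    tauI p ((· + z) '' S) (x + z) (y + z) = tauI p S x y :=
  tauI_equiv p (Equiv.addRight z) (fun x y => adj_add x y z) S x y

/-- Left continuity in `p`. -/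
theorem tauI_left (hp : 0 < p) (S : Set (Vx d)) (x y : Vx d) {c : ℝ≥0∞}
    (h : ∀ p' : ℝ, 0 ≤ p' → p' < p → tauI p' S x y ≤ c) : tauI p S x y ≤ c := by
  refine tauI_le fun V hV => ?_
  have hc : Continuous fun p' : ℝ => ENNReal.ofReal (tau p' V x y) :=
    ENNReal.continuous_ofReal.comp (tau_continuous V x y)
  have ht : Filter.Tendsto (fun p' : ℝ => ENNReal.ofReal (tau p' V x y))
      (nhdsWithin p (Set.Iio p)) (nhds (ENNReal.ofReal (tau p V x y))) :=
    (hc.tendsto p).mono_left nhdsWithin_le_nhds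
  refine le_of_tendsto ht ?_
  have h1 : ∀ᶠ p' in nhdsWithin p (Set.Iio p), p' ∈ Set.Ioo 0 p :=
    Ioo_mem_nhdsLT hp
  filter_upwards [h1] with p' hp'
  exact (le_tauI p' hV x y).trans (h p' hp'.1.le hp'.2)

theorem tt_neg (p : ℝ) (x : Vx d) : tt p (-x) = tt p x := by
  unfold tt
  have h := tauI_equiv p (Equiv.neg (Vx d)) (fun x y => adj_neg x y) Set.univ 0 x
  rw [Set.image_univ, Equiv.range_eq_univ] at h
  simp only [Equiv.neg_apply, neg_zero] at h
  exact h

theorem tauI_univ (p : ℝ) (x y : Vx d) : tauI p Set.univ x y = tt p (y - x) := by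
  unfold tt
  have h := tauI_equiv p (Equiv.addRight (-x)) (fun a b => adj_add a b (-x)) Set.univ x y
  rw [Set.image_univ, Equiv.range_eq_univ] at h
  simp only [Equiv.coe_addRight, add_neg_cancel] at h
  rw [← h, sub_eq_add_neg]

theorem tauI_le_tt (hp : 0 ≤ p) (hp1 : p ≤ 1) (S : Set (Vx d)) (x y : Vx d) :
    tauI p S x y ≤ tt p (y - x) := by
  rw [← tauI_univ]
  exact tauI_mono hp hp1 (Set.subset_univ S) x y

theorem tt_zero (p : ℝ) : tt p (0 : Vx d) = 1 := tauI_self p (Set.mem_univ _)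

end Pool.Agent.HD
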