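import Pool.Agent.Lib.MP_8ca597_hd.A13
import Pool.Agent.Lib.MP_8ca597_hd.A10
import Pool.Agent.Lib.MP_8ca597_hd.A11

/-!
# Row A14: the inequalities in infinite domains

From the finite versions: bound `tau p V a x`, `V` finite, by the finite version with
`S ∩ V`, and every term by the infinite one (`le_tauI`, `ENNReal.sum_le_tsum`; a finite sum over
`exits` is at most the `tsum` over the subtype).
-/

set_option autoImplicit false

namespace Pool.Agent.HD

open Finset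
open scoped ENNReal

variable {d : ℕ} {p : ℝ}

theorem A14_sum {ι : Type} (A : Set ι) (f : ι → ℝ≥0∞) (s : Finset ι)
    (hs : ∀ q ∈ s, q ∈ A) : ∑ q ∈ s, f q ≤ ∑' q : A, f q.1 := by
  rw [tsum_subtype A f]
  refine le_trans (le_of_eq ?_) (ENNReal.sum_le_tsum s)
  refine Finset.sum_congr rfl fun q hq => ?_
  rw [Set.indicator_of_mem (hs q hq)]

theorem SLI (hp : 0 ≤ p) (hp1 : p ≤ 1) {S W : Set (Vx d)} (h : S ⊆ W) {a : Vx d} (ha : a ∈ S)
    (x : Vx d) : tauI p W a x ≤ tauI p S a x +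
      ∑' q : exI S W, tauI p S a q.1.1 * ENNReal.ofReal p * tauI p W q.1.2 x := by
  classical
  refine tauI_le fun V hV => ?_
  have hV' : ((insert a V : Finset (Vx d)) : Set (Vx d)) ⊆ W := by
    rw [Finset.coe_insert]
    exact Set.insert_subset (h ha) hV
  have h1 : tau p V a x ≤ tau p (insert a V) a x :=
    tau_mono hp hp1 (Finset.subset_insert a V) a x
  have h2 := SL hp hp1 (S := (insert a V).filter (· ∈ S)) (V := insert a V)
    (Finset.filter_subset _ _) (a := a)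
    (Finset.mem_filter.2 ⟨Finset.mem_insert_self a V, ha⟩) x
  have hS' : (((insert a V).filter (· ∈ S) : Finset (Vx d)) : Set (Vx d)) ⊆ S := by
    intro v hv
    exact (Finset.mem_filter.1 hv).2
  refine (ENNReal.ofReal_le_ofReal (h1.trans h2)).trans ?_
  rw [ENNReal.ofReal_add (tau_nonneg hp hp1 _ _ _) (Finset.sum_nonneg fun q _ =>
    mul_nonneg (mul_nonneg (tau_nonneg hp hp1 _ _ _) hp) (tau_nonneg hp hp1 _ _ _)),
    ENNReal.ofReal_sum_of_nonneg (fun q _ =>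
    mul_nonneg (mul_nonneg (tau_nonneg hp hp1 _ _ _) hp) (tau_nonneg hp hp1 _ _ _))]
  refine add_le_add (le_tauI p hS' a x) ?_
  refine le_trans (Finset.sum_le_sum fun q _ => ?_)
    (A14_sum (exI S W) (fun q => tauI p S a q.1 * ENNReal.ofReal p * tauI p W q.2 x)
      (exits ((insert a V).filter (· ∈ S)) (insert a V)) ?_)
  · rw [ENNReal.ofReal_mul (mul_nonneg (tau_nonneg hp hp1 _ _ _) hp),
      ENNReal.ofReal_mul (tau_nonneg hp hp1 _ _ _)]
    exact mul_le_mul' (mul_le_mul' (le_tauI p hS' _ _) le_rfl) (le_tauI p hV' _ _)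
  · intro q hq
    have h3 := mem_exits.1 hq
    refine ⟨hS' h3.1, hV' h3.2.1, fun h4 => h3.2.2.1 ?_, h3.2.2.2⟩
    exact Finset.mem_filter.2 ⟨h3.2.1, h4⟩

theorem SL2I {p1 p2 r : ℝ} (h1 : 0 ≤ p1) (h1' : p1 ≤ 1) (hr : 0 ≤ r) (hr1 : r ≤ 1)
    (h : 1 - p2 = (1 - p1) * (1 - r)) (W : Set (Vx d)) (a x : Vx d) :
    tauI p2 W a x ≤ tauI p1 W a x + ENNReal.ofReal r *
      ∑' q : {q : Vx d × Vx d | q.1 ∈ W ∧ q.2 ∈ W ∧ Adj q.1 q.2},
        tauI p1 W a q.1.1 * tauI p2 W q.1.2 x := by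
  have h2 : 0 ≤ p2 := by nlinarith
  have h2' : p2 ≤ 1 := by nlinarith [mul_nonneg (sub_nonneg.2 h1') (sub_nonneg.2 hr1)]
  refine tauI_le fun V hV => ?_
  refine (ENNReal.ofReal_le_ofReal (SL2 h1 h1' hr hr1 h V a x)).trans ?_
  have hn : ∀ q : Vx d × Vx d, 0 ≤ tau p1 V a q.1 * tau p2 V q.2 x := fun q =>
    mul_nonneg (tau_nonneg h1 h1' _ _ _) (tau_nonneg h2 h2' _ _ _)
  rw [ENNReal.ofReal_add (tau_nonneg h1 h1' _ _ _)
    (mul_nonneg hr (Finset.sum_nonneg fun q _ => hn q)), ENNReal.ofReal_mul hr,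
    ENNReal.ofReal_sum_of_nonneg (fun q _ => hn q)]
  refine add_le_add (le_tauI p1 hV a x) (mul_le_mul' le_rfl ?_)
  refine le_trans (Finset.sum_le_sum fun q _ => ?_)
    (A14_sum {q : Vx d × Vx d | q.1 ∈ W ∧ q.2 ∈ W ∧ Adj q.1 q.2}
      (fun q => tauI p1 W a q.1 * tauI p2 W q.2 x) (prs V) ?_)
  · rw [ENNReal.ofReal_mul (tau_nonneg h1 h1' _ _ _)]
    exact mul_le_mul' (le_tauI p1 hV _ _) (le_tauI p2 hV _ _)
  · intro q hq
    have h3 := mem_prs.1 hq
    exact ⟨hV h3.1, hV h3.2.1, h3.2.2⟩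

theorem OFFI (hp : 0 ≤ p) (hp1 : p ≤ 1 / 2) (W : Set (Vx d)) (K : Finset (Vx d))
    (v x : Vx d) : tauI p W v x ≤ tauI p (W \ K) v x + ∑ a ∈ K, tauI p W v a * tauI p W a x := by
  have hp2 : p ≤ 1 := by linarith
  refine tauI_le fun V hV => ?_
  refine (ENNReal.ofReal_le_ofReal (OFF hp hp1 V K v x)).trans ?_
  have hn : ∀ a : Vx d, 0 ≤ tau p V v a * tau p V a x := fun a =>
    mul_nonneg (tau_nonneg hp hp2 _ _ _) (tau_nonneg hp hp2 _ _ _)
  rw [ENNReal.ofReal_add (tau_nonneg hp hp2 _ _ _) (Finset.sum_nonneg fun a _ => hn a),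
    ENNReal.ofReal_sum_of_nonneg (fun a _ => hn a)]
  refine add_le_add (le_tauI p ?_ v x) (Finset.sum_le_sum fun a _ => ?_)
  · rw [Finset.coe_sdiff]
    exact Set.sdiff_subset_sdiff_left hV
  · rw [ENNReal.ofReal_mul (tau_nonneg hp hp2 _ _ _)]
    exact mul_le_mul' (le_tauI p hV _ _) (le_tauI p hV _ _)

/-- The random walk bound. -/
theorem RW (hp : 0 ≤ p) (hp1 : p ≤ 1) (x : Vx d) : tt p x ≤ (if x = 0 then 1 else 0) +
    ENNReal.ofReal p * ∑ e ∈ nbr (0 : Vx d), tt p (x - e) := by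
  classical
  have h1 := SLI hp hp1 (S := {0}) (W := Set.univ) (Set.subset_univ _) (a := 0)
    (Set.mem_singleton (0 : Vx d)) x
  have h2 : tauI p ({0} : Set (Vx d)) 0 x = if x = 0 then 1 else 0 := by
    by_cases hx : x = 0
    · rw [if_pos hx, hx]
      exact tauI_self p (Set.mem_singleton (0 : Vx d))
    · rw [if_neg hx]
      exact tauI_zero_right p (S := ({0} : Set (Vx d)))
        (fun h => hx (Set.mem_singleton_iff.1 h)) 0
  rw [h2] at h1
  refine h1.trans (add_le_add le_rfl ?_)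
  let E : Vx d ↪ Vx d × Vx d := ⟨fun e => (0, e), fun a b hab => congrArg Prod.snd hab⟩
  have h3 : exI ({0} : Set (Vx d)) Set.univ = (((nbr (0 : Vx d)).map E : Finset _) : Set _) := by
    ext q
    rw [Finset.coe_map]
    constructor
    · rintro ⟨h4, _, _, h5⟩
      have h6 : q.1 = 0 := h4
      rw [h6] at h5
      exact ⟨q.2, mem_nbr.2 h5, Prod.ext h6.symm rfl⟩
    · rintro ⟨e, he, rfl⟩
      have h5 : Adj 0 e := mem_nbr.1 he
      exact ⟨rfl, Set.mem_univ _, fun h => h5.ne (Set.mem_singleton_iff.1 h).symm, h5⟩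
  rw [h3]
  have h4 := Finset.tsum_subtype' ((nbr (0 : Vx d)).map E)
    (fun q : Vx d × Vx d => tauI p ({0} : Set (Vx d)) 0 q.1 * ENNReal.ofReal p *
      tauI p Set.univ q.2 x)
  refine (le_of_eq h4).trans ?_
  rw [Finset.sum_map, Finset.mul_sum]
  refine Finset.sum_le_sum fun e _ => ?_
  show tauI p ({0} : Set (Vx d)) 0 0 * ENNReal.ofReal p * tauI p Set.univ e x ≤ _
  rw [tauI_self p (Set.mem_singleton (0 : Vx d)), one_mul, tauI_univ]

end Pool.Agent.HD
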