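import Pool.Agent.Lib.MP_8ca597_hd.A13

/-!
# Row A15: the weights of finite clusters

`PP_cl_eq`: `touch V K = touch (nbh K) K` if `nbh K ⊆ V` and the event depends only on these edges
(`cl T V 0 = K` iff `K` is connected by open edges and the edges from `K` to its complement are
closed). `ww_root`: translate by `-z`; the event that `K` is the cluster of `z` is the event that
`K` is the cluster of `0` if both are in `K`.
-/

set_option autoImplicit false

namespace Pool.Agent.HD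

open Finset
open scoped ENNReal

variable {d : ℕ} {p : ℝ}

/-! ### Relabelling -/

private theorem A15_EE_map {α β : Type} [DecidableEq α] [DecidableEq β] (p : ℝ) (S : Finset α)
    (e : α ↪ β) (f : Finset β → ℝ) : EE p (S.map e) f = EE p S fun T => f (T.map e) := by
  unfold EE
  have h : (S.map e).powerset = S.powerset.map (Finset.mapEmbedding e).toEmbedding := by
    ext T
    simp only [Finset.mem_powerset, Finset.mem_map, RelEmbedding.coe_toEmbedding,
      Finset.mapEmbedding_apply]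
    constructor
    · intro hT
      obtain ⟨U, hU, rfl⟩ := Finset.subset_map_iff.1 hT
      exact ⟨U, hU, rfl⟩
    · rintro ⟨U, hU, rfl⟩
      exact Finset.map_subset_map.2 hU
  rw [h, Finset.sum_map]
  refine Finset.sum_congr rfl fun T _ => ?_
  simp only [RelEmbedding.coe_toEmbedding, Finset.mapEmbedding_apply, Finset.card_map]
  rw [← Finset.map_sdiff, Finset.card_map]

private theorem A15_PP_map {α β : Type} [DecidableEq α] [DecidableEq β] (p : ℝ) (S : Finset α)
    (e : α ↪ β) (A : Set (Finset β)) : PP p (S.map e) A = PP p S {T | T.map e ∈ A} := by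
  classical
  rw [PP_def, A15_EE_map, PP_def]
  apply EE_congr
  intro T _
  simp only [Set.mem_setOf_eq]

private theorem A15_edges_map (σ : Vx d ≃ Vx d) (hσ : ∀ x y, Adj (σ x) (σ y) ↔ Adj x y)
    (V : Finset (Vx d)) :
    edges (V.map σ.toEmbedding) = (edges V).map σ.toEmbedding.sym2Map := by
  ext e
  induction e using Sym2.ind with
  | _ x y =>
    rw [mem_edges]
    refine Iff.trans ?_ Finset.mem_map.symm
    constructor
    · rintro ⟨hx, hy, hadj⟩
      obtain ⟨x', hx', rfl⟩ := Finset.mem_map.1 hx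
      obtain ⟨y', hy', rfl⟩ := Finset.mem_map.1 hy
      exact ⟨s(x', y'), mem_edges.2 ⟨hx', hy', (hσ _ _).1 hadj⟩, by simp⟩
    · rintro ⟨e, he, h⟩
      induction e using Sym2.ind with
      | _ a b =>
        obtain ⟨ha, hb, hab⟩ := mem_edges.1 he
        have h' : s(σ a, σ b) = s(x, y) := by simpa using h
        have h1 : s(σ a, σ b) ∈ edges (V.map σ.toEmbedding) :=
          mem_edges.2 ⟨by simpa using ha, by simpa using hb, (hσ _ _).2 hab⟩
        rw [h'] at h1
        exact mem_edges.1 h1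

private theorem A15_conn_map (σ : Vx d ≃ Vx d) (hσ : ∀ x y, Adj (σ x) (σ y) ↔ Adj x y)
    {T : Finset (Ed d)} {V : Finset (Vx d)} {x y : Vx d} (h : Conn T V x y) :
    Conn (T.map σ.toEmbedding.sym2Map) ((V.map σ.toEmbedding : Finset (Vx d)) : Set (Vx d))
      (σ x) (σ y) := by
  refine ⟨by simpa using h.left, ?_⟩
  refine h.2.lift σ (fun a b hab => ?_)
  refine ⟨by simpa using hab.1, (hσ _ _).2 hab.2.1, ?_⟩
  exact Finset.mem_map.2 ⟨s(a, b), hab.2.2, by simp⟩

private theorem A15_conn_map_iff (σ : Vx d ≃ Vx d) (hσ : ∀ x y, Adj (σ x) (σ y) ↔ Adj x y)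
    {T : Finset (Ed d)} {V : Finset (Vx d)} {x y : Vx d} :
    Conn (T.map σ.toEmbedding.sym2Map) ((V.map σ.toEmbedding : Finset (Vx d)) : Set (Vx d))
      (σ x) (σ y) ↔ Conn T V x y := by
  refine ⟨fun h => ?_, A15_conn_map σ hσ⟩
  have h' := A15_conn_map σ.symm (fun x y => by
    have := hσ (σ.symm x) (σ.symm y)
    simpa using this.symm) h
  have e1 : ((T.map σ.toEmbedding.sym2Map).map σ.symm.toEmbedding.sym2Map) = T := by
    ext e
    simp only [Finset.mem_map]
    constructor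
    · rintro ⟨_, ⟨e', he', rfl⟩, rfl⟩
      induction e' using Sym2.ind with
      | _ a b => simpa using he'
    · intro he
      refine ⟨_, ⟨e, he, rfl⟩, ?_⟩
      induction e using Sym2.ind with
      | _ a b => simp
  have e2 : ((V.map σ.toEmbedding).map σ.symm.toEmbedding) = V := by
    ext v
    simp
  rw [e1, e2] at h'
  simpa using h'

private theorem A15_cl_map (σ : Vx d ≃ Vx d) (hσ : ∀ x y, Adj (σ x) (σ y) ↔ Adj x y)
    (T : Finset (Ed d)) (V : Finset (Vx d)) (x : Vx d) :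
    cl (T.map σ.toEmbedding.sym2Map) (V.map σ.toEmbedding) (σ x) =
      (cl T V x).map σ.toEmbedding := by
  ext y
  obtain ⟨y, rfl⟩ := σ.surjective y
  rw [mem_cl, A15_conn_map_iff σ hσ]
  simp [mem_cl]

private theorem A15_nbh_map (σ : Vx d ≃ Vx d) (hσ : ∀ x y, Adj (σ x) (σ y) ↔ Adj x y)
    (K : Finset (Vx d)) : nbh (K.map σ.toEmbedding) = (nbh K).map σ.toEmbedding := by
  ext y
  obtain ⟨y, rfl⟩ := σ.surjective y
  rw [mem_nbh]
  have h1 : ∀ z : Vx d, σ z ∈ K.map σ.toEmbedding ↔ z ∈ K := fun z => by simp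
  have h2 : σ y ∈ (nbh K).map σ.toEmbedding ↔ y ∈ nbh K := by simp
  rw [h1, h2, mem_nbh]
  refine or_congr_right ⟨?_, ?_⟩
  · rintro ⟨x, hx, hadj⟩
    obtain ⟨x, rfl⟩ := σ.surjective x
    exact ⟨x, (h1 x).1 hx, (hσ _ _).1 hadj⟩
  · rintro ⟨x, hx, hadj⟩
    exact ⟨σ x, (h1 x).2 hx, (hσ _ _).2 hadj⟩

/-- The weight of the image under an automorphism. -/
private theorem A15_ww_map (p : ℝ) (σ : Vx d ≃ Vx d) (hσ : ∀ x y, Adj (σ x) (σ y) ↔ Adj x y)
    (K : Finset (Vx d)) : ww p (K.map σ.toEmbedding) =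
      PP p (edges (nbh K)) {T | σ.symm 0 ∈ K ∧ cl T (nbh K) (σ.symm 0) = K} := by
  unfold ww
  rw [A15_nbh_map σ hσ, A15_edges_map σ hσ, A15_PP_map]
  apply PP_congr
  intro T _
  have h0 : (0 : Vx d) = σ (σ.symm 0) := by simp
  simp only [Set.mem_setOf_eq]
  refine and_congr ?_ ?_
  · conv_lhs => rw [h0]
    simp
  · conv_lhs => rw [h0]
    rw [A15_cl_map σ hσ]
    exact Finset.map_inj

/-! ### Clusters -/

private theorem A15_cl_char {T : Finset (Ed d)} {V K : Finset (Vx d)} {a : Vx d} (ha : a ∈ K)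
    (hK : K ⊆ V) : cl T V a = K ↔ (∀ x ∈ K, Conn T K a x) ∧
      ∀ u ∈ K, ∀ v ∈ V, Adj u v → s(u, v) ∈ T → v ∈ K := by
  constructor
  · rintro rfl
    exact ⟨fun x hx => conn_in_cl hx, fun u hu v hv hadj he => cl_closed hu hv hadj he⟩
  · rintro ⟨h1, h2⟩
    ext x
    rw [mem_cl]
    constructor
    · rintro ⟨_, h⟩
      induction h with
      | refl => exact ha
      | tail _ hs ih => exact h2 _ ih _ (by simpa using hs.1) hs.2.1 hs.2.2
    · intro hx
      exact (h1 x hx).mono (le_refl _) (by simpa using hK)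

private theorem A15_cl_iff {T : Finset (Ed d)} {V K : Finset (Vx d)} (h : nbh K ⊆ V) {a : Vx d}
    (ha : a ∈ K) : cl T V a = K ↔ cl T (nbh K) a = K := by
  have hK : K ⊆ nbh K := fun x hx => mem_nbh.2 (Or.inl hx)
  rw [A15_cl_char ha (hK.trans h), A15_cl_char ha hK]
  refine and_congr_right fun _ => ⟨fun h2 u hu v hv => h2 u hu v (h hv), fun h2 u hu v _ hadj => ?_⟩
  exact h2 u hu v (mem_nbh.2 (Or.inr ⟨u, hu, hadj⟩)) hadj

private theorem A15_touch {V K : Finset (Vx d)} (h : nbh K ⊆ V) :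
    touch V K = touch (nbh K) K := by
  ext e
  induction e using Sym2.ind with
  | _ x y =>
    rw [mem_touch, mem_touch]
    constructor
    · rintro ⟨⟨_, _, hadj⟩, hxy⟩
      refine ⟨⟨?_, ?_, hadj⟩, hxy⟩
      · rcases hxy with hx | hy
        · exact mem_nbh.2 (Or.inl hx)
        · exact mem_nbh.2 (Or.inr ⟨y, hy, hadj.symm⟩)
      · rcases hxy with hx | hy
        · exact mem_nbh.2 (Or.inr ⟨x, hx, hadj⟩)
        · exact mem_nbh.2 (Or.inl hy)
    · rintro ⟨⟨hx, hy, hadj⟩, hxy⟩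
      exact ⟨⟨h hx, h hy, hadj⟩, hxy⟩

private theorem A15_card_touch (K : Finset (Vx d)) : (touch (nbh K) K).card ≤ 2 * d * K.card := by
  classical
  have hsub : touch (nbh K) K ⊆ K.biUnion fun x => (nbr x).image fun y => s(x, y) := by
    intro e he
    induction e using Sym2.ind with
    | _ x y =>
      obtain ⟨⟨_, _, hadj⟩, hxy⟩ := mem_touch.1 he
      rw [Finset.mem_biUnion]
      rcases hxy with hx | hy
      · exact ⟨x, hx, Finset.mem_image.2 ⟨y, mem_nbr.2 hadj, rfl⟩⟩
      · exact ⟨y, hy, Finset.mem_image.2 ⟨x, mem_nbr.2 hadj.symm, Sym2.eq_swap⟩⟩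
  refine (Finset.card_le_card hsub).trans (Finset.card_biUnion_le.trans ?_)
  refine (Finset.sum_le_sum fun x _ => Finset.card_image_le).trans ?_
  simp only [card_nbr, Finset.sum_const, smul_eq_mul]
  rw [mul_comm]

/-- The weight as a probability in the edges which touch the set. -/
private theorem A15_ww_touch (p : ℝ) {K : Finset (Vx d)} (h0 : (0 : Vx d) ∈ K) :
    ww p K = PP p (touch (nbh K) K) {T | cl T (nbh K) 0 = K} := by
  unfold ww
  rw [← PP_dep p (touch_subset (nbh K) K) (dep_cl (nbh K) K 0)]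
  apply PP_congr
  intro T _
  simp [h0]

theorem ww_nonneg (hp : 0 ≤ p) (hp1 : p ≤ 1) (K : Finset (Vx d)) : 0 ≤ ww p K :=
  PP_nonneg hp hp1

theorem ww_zero (p : ℝ) {K : Finset (Vx d)} (h : (0 : Vx d) ∉ K) : ww p K = 0 := by
  unfold ww
  rw [show {T : Finset (Ed d) | (0 : Vx d) ∈ K ∧ cl T (nbh K) 0 = K} = ∅ by ext; simp [h],
    PP_empty]

theorem ww_continuous (K : Finset (Vx d)) : Continuous fun p => ww p K :=
  PP_continuous _ _

/-- The cluster of `0` in a domain which contains `K` and its neighbours. -/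
theorem PP_cl_eq (p : ℝ) {V K : Finset (Vx d)} (h : nbh K ⊆ V) (h0 : (0 : Vx d) ∈ K) :
    PP p (edges V) {T | cl T V 0 = K} = ww p K := by
  rw [A15_ww_touch p h0, PP_dep p (touch_subset V K) (dep_cl V K 0), A15_touch h]
  apply PP_congr
  intro T _
  exact A15_cl_iff h h0

/-- The sum over finitely many clusters. -/
theorem sum_ww_le (hp : 0 ≤ p) (hp1 : p ≤ 1) (s : Finset (Finset (Vx d))) :
    ∑ K ∈ s, ww p K ≤ 1 := by
  classical
  have h1 : ∑ K ∈ s, ww p K = ∑ K ∈ s.filter ((0 : Vx d) ∈ ·), ww p K := by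
    rw [Finset.sum_filter]
    refine Finset.sum_congr rfl fun K _ => ?_
    split_ifs with h
    · rfl
    · exact ww_zero p h
  rw [h1]
  set V := s.biUnion nbh with hV
  have h2 : ∀ K ∈ s.filter ((0 : Vx d) ∈ ·), ww p K = PP p (edges V) {T | cl T V 0 = K} := by
    intro K hK
    rw [Finset.mem_filter] at hK
    exact (PP_cl_eq p (Finset.subset_biUnion_of_mem nbh hK.1) hK.2).symm
  rw [Finset.sum_congr rfl h2, ← PP_exists_eq]
  · exact PP_le_one hp hp1
  · intro T _ K _ K' _ hK hK'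
    exact hK.symm.trans hK'

theorem tsum_ww_le (hp : 0 ≤ p) (hp1 : p ≤ 1) :
    ∑' K : Finset (Vx d), ENNReal.ofReal (ww p K) ≤ 1 := by
  rw [ENNReal.tsum_eq_iSup_sum]
  refine iSup_le fun s => ?_
  rw [← ENNReal.ofReal_sum_of_nonneg fun K _ => ww_nonneg hp hp1 K, ← ENNReal.ofReal_one]
  exact ENNReal.ofReal_le_ofReal (sum_ww_le hp hp1 s)

private theorem A15_image (K : Finset (Vx d)) (z : Vx d) :
    K.image (· - z) = K.map (Equiv.subRight z).toEmbedding := by
  rw [Finset.map_eq_image]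
  rfl

/-- The weight does not depend on the root. -/
theorem ww_root (p : ℝ) (K : Finset (Vx d)) {z : Vx d} (hz : z ∈ K) (h0 : (0 : Vx d) ∈ K) :
    ww p (K.image (· - z)) = ww p K := by
  rw [A15_image, A15_ww_map p (Equiv.subRight z) (fun x y => by
    have := adj_add x y (-z)
    simpa [sub_eq_add_neg] using this)]
  unfold ww
  have hs : (Equiv.subRight z).symm 0 = z := by simp
  rw [hs]
  apply PP_congr
  intro T _
  have key : ∀ a b : Vx d, a ∈ K → b ∈ K → cl T (nbh K) a = K → cl T (nbh K) b = K := by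
    intro a b _ hb h
    have hab : Conn T (nbh K) a b := by
      rw [← mem_cl, h]; exact hb
    refine Eq.trans ?_ h
    ext x
    rw [mem_cl, mem_cl]
    exact ⟨fun hx => hab.trans hx, fun hx => hab.symm.trans hx⟩
  simp only [Set.mem_setOf_eq]
  exact ⟨fun h => ⟨h0, key z 0 hz h0 h.2⟩, fun h => ⟨hz, key 0 z h0 hz h.2⟩⟩

/-- Automorphisms which fix `0`. -/
theorem ww_equiv (p : ℝ) (σ : Vx d ≃ Vx d) (hσ : ∀ x y, Adj (σ x) (σ y) ↔ Adj x y)
    (h0 : σ 0 = 0) (K : Finset (Vx d)) : ww p (K.map σ.toEmbedding) = ww p K := by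
  rw [A15_ww_map p σ hσ]
  have hs : σ.symm 0 = 0 := by rw [Equiv.symm_apply_eq, h0]
  rw [hs]
  rfl

/-- Mass transport. -/
theorem mass_transport (hp : 0 ≤ p) (hp1 : p ≤ 1) (φ : Vx d → Finset (Vx d) → ℝ≥0∞)
    (hφ : ∀ x z K, φ (x - z) (K.image (· - z)) = φ x K) :
    ∑' K : Finset (Vx d), ENNReal.ofReal (ww p K) * ∑ x ∈ K, φ x K =
      ∑' K : Finset (Vx d), ENNReal.ofReal (ww p K) * (K.card * φ 0 K) := by
  classical
  have h1 : ∀ K : Finset (Vx d), ENNReal.ofReal (ww p K) * ∑ x ∈ K, φ x K =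
      ∑' x : Vx d, if x ∈ K then ENNReal.ofReal (ww p K) * φ x K else 0 := by
    intro K
    rw [Finset.mul_sum, tsum_eq_sum (s := K) (fun x hx => by simp [hx])]
    exact Finset.sum_congr rfl fun x hx => by simp [hx]
  have h2 : ∀ x : Vx d, (∑' K : Finset (Vx d),
      if x ∈ K then ENNReal.ofReal (ww p K) * φ x K else 0) =
      ∑' K : Finset (Vx d), if -x ∈ K then ENNReal.ofReal (ww p K) * φ 0 K else 0 := by
    intro x
    rw [← (Equiv.finsetCongr (Equiv.subRight x)).tsum_eq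
      (fun K : Finset (Vx d) => if -x ∈ K then ENNReal.ofReal (ww p K) * φ 0 K else 0)]
    refine tsum_congr fun K => ?_
    have hc : Equiv.finsetCongr (Equiv.subRight x) K = K.image (· - x) := (A15_image K x).symm
    rw [hc]
    have hm : -x ∈ K.image (· - x) ↔ (0 : Vx d) ∈ K := by
      rw [A15_image]; simp
    have hm' : (0 : Vx d) ∈ K.image (· - x) ↔ x ∈ K := by
      rw [A15_image]; simp
    by_cases h0 : (0 : Vx d) ∈ K
    · rw [if_pos (hm.2 h0)]
      by_cases hx : x ∈ K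
      · rw [if_pos hx, ww_root p K hx h0]
        congr 1
        rw [← hφ x x K, sub_self]
      · rw [if_neg hx, ww_zero p (fun h => hx (hm'.1 h))]
        simp
    · rw [if_neg (fun h => h0 (hm.1 h)), ww_zero p h0]
      simp
  have h3 : ∀ K : Finset (Vx d), ENNReal.ofReal (ww p K) * (K.card * φ 0 K) =
      ∑' x : Vx d, if -x ∈ K then ENNReal.ofReal (ww p K) * φ 0 K else 0 := by
    intro K
    have hneg := (Equiv.neg (Vx d)).tsum_eq
      (fun x : Vx d => if x ∈ K then ENNReal.ofReal (ww p K) * φ 0 K else 0)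
    simp only [Equiv.neg_apply] at hneg
    rw [hneg, tsum_eq_sum (s := K) (fun x hx => by simp [hx]),
      Finset.sum_congr rfl (fun x hx => if_pos hx), Finset.sum_const, nsmul_eq_mul]
    ring
  rw [tsum_congr h1, ENNReal.tsum_comm, tsum_congr h2, ENNReal.tsum_comm, tsum_congr h3]

/-- The tilt of the parameter. -/
theorem ww_tilt {q p' δ : ℝ} (hp : p ≤ 1 / 2) (hp0 : 0 < p) (hq : q = p - δ) (hp' : p' = p + δ)
    (h0 : 0 ≤ δ) (h1 : δ ≤ p / 2) (K : Finset (Vx d)) {n : ℕ} (hn : K.card ≤ n) :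
    ww p K ≤ Real.exp (δ ^ 2 * (2 * d * n) / p ^ 2) * (√(ww q K) * √(ww p' K)) := by
  classical
  by_cases hK : (0 : Vx d) ∈ K
  swap
  · rw [ww_zero p hK]
    positivity
  have hq0 : 0 ≤ q := by rw [hq]; linarith
  have hq1 : 0 ≤ 1 - q := by rw [hq]; linarith
  have hp0' : 0 ≤ p' := by rw [hp']; linarith
  have hp1' : 0 ≤ 1 - p' := by rw [hp']; linarith
  rw [A15_ww_touch p hK, A15_ww_touch q hK, A15_ww_touch p' hK]
  set S := touch (nbh K) K with hS
  set A : Set (Finset (Ed d)) := {T | cl T (nbh K) 0 = K} with hA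
  have hform : ∀ t : ℝ, PP t S A =
      ∑ T ∈ S.powerset.filter (· ∈ A), t ^ T.card * (1 - t) ^ (S \ T).card := by
    intro t
    rw [PP_def]
    unfold EE
    rw [Finset.sum_filter]
    refine Finset.sum_congr rfl fun T _ => ?_
    by_cases hT : T ∈ A
    · simp only [hT, if_true, mul_one]
    · simp only [hT, if_false, mul_zero]
  have hcard : (S.card : ℝ) ≤ 2 * d * n := by
    have hc := A15_card_touch K
    have : S.card ≤ 2 * d * n := hc.trans (Nat.mul_le_mul_left _ hn)
    exact_mod_cast this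
  have hexp : Real.exp (δ ^ 2 * S.card / p ^ 2) ≤ Real.exp (δ ^ 2 * (2 * d * n) / p ^ 2) := by
    apply Real.exp_le_exp.2
    gcongr
  have hterm : ∀ T ∈ S.powerset.filter (· ∈ A), p ^ T.card * (1 - p) ^ (S \ T).card ≤
      Real.exp (δ ^ 2 * (2 * d * n) / p ^ 2) * (√(q ^ T.card * (1 - q) ^ (S \ T).card) *
        √(p' ^ T.card * (1 - p') ^ (S \ T).card)) := by
    intro T hT
    rw [Finset.mem_filter, Finset.mem_powerset] at hT
    refine (EE_tilt hp hp0 hq hp' h0 h1 S T hT.1).trans ?_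
    exact mul_le_mul_of_nonneg_right hexp (by positivity)
  rw [hform p, hform q, hform p']
  refine (Finset.sum_le_sum hterm).trans ?_
  rw [← Finset.mul_sum]
  refine mul_le_mul_of_nonneg_left ?_ (Real.exp_pos _).le
  exact Real.sum_sqrt_mul_sqrt_le _
    (fun T => mul_nonneg (pow_nonneg hq0 _) (pow_nonneg hq1 _))
    (fun T => mul_nonneg (pow_nonneg hp0' _) (pow_nonneg hp1' _))

end Pool.Agent.HD
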