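import Pool.Agent.Lib.MP_8ca597_hd.A06
import Pool.Agent.Lib.MP_8ca597_hd.A12

/-!
# Row A16: exploration of the cluster of a set, the vertices connected to the boundary

The same proofs as in A05, A06 for the union of the clusters of the vertices of `B`.
`dep_nc`: the set `nc T n` of the vertices of the box which are not connected to the boundary is
`S` iff `clS T (Bx d n) (Bd d n) = Bx d n \ S`; this depends only on the edges which touch
`Bx d n \ S`, i.e. the edges which do not belong to `edges S`.
-/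

set_option autoImplicit false

namespace Pool.Agent.HD

open Finset
open scoped ENNReal

variable {d : ℕ}

open Classical in
/-- The union of the clusters of the vertices of `B` in `V`. -/
noncomputable def clS (T : Finset (Ed d)) (V B : Finset (Vx d)) : Finset (Vx d) :=
  V.filter fun y => ∃ b ∈ B, Conn T V b y

theorem mem_clS {T : Finset (Ed d)} {V B : Finset (Vx d)} {y : Vx d} :
    y ∈ clS T V B ↔ ∃ b ∈ B, Conn T V b y := by
  simp only [clS, Finset.mem_filter]
  constructor
  · exact fun h => h.2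
  · rintro ⟨b, hb, h⟩
    exact ⟨h.right, b, hb, h⟩

theorem clS_single (T : Finset (Ed d)) (V : Finset (Vx d)) (a : Vx d) :
    clS T V {a} = cl T V a := by
  ext y
  rw [mem_clS, mem_cl]
  constructor
  · rintro ⟨b, hb, h⟩
    rw [Finset.mem_singleton.1 hb] at h
    exact h
  · exact fun h => ⟨a, Finset.mem_singleton_self a, h⟩

/-- a path from a vertex of `B` can be transferred from `T` to `T'` -/
private lemma A16_transfer {T T' : Finset (Ed d)} {V K : Finset (Vx d)}
    (h : T ∩ touch V K = T' ∩ touch V K) {b : Vx d}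
    (hK : ∀ u, Conn T V b u → u ∈ K) {y : Vx d} (hy : Conn T V b y) : Conn T' V b y := by
  obtain ⟨hbV, hy⟩ := hy
  induction hy with
  | refl => exact Conn.refl hbV
  | @tail u v hbu huv ih =>
    obtain ⟨hv, hadj, he⟩ := huv
    have h1 : Conn T V b u := ⟨hbV, hbu⟩
    have h2 : s(u, v) ∈ touch V K := mem_touch.2 ⟨⟨h1.right, hv, hadj⟩, Or.inl (hK u h1)⟩
    have h3 : s(u, v) ∈ T' ∩ touch V K := h ▸ Finset.mem_inter.2 ⟨he, h2⟩
    exact ih.step hv hadj (Finset.mem_inter.1 h3).1

theorem clS_eq_of_touch {T T' : Finset (Ed d)} {V K B : Finset (Vx d)}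
    (h : T ∩ touch V K = T' ∩ touch V K) (hK : clS T V B = K) : clS T' V B = K := by
  have hin : ∀ b ∈ B, ∀ u, Conn T V b u → u ∈ K := by
    intro b hb u hu
    rw [← hK]
    exact mem_clS.2 ⟨b, hb, hu⟩
  have hin' : ∀ b ∈ B, ∀ u, Conn T' V b u → u ∈ K := by
    rintro b hb u ⟨hbV, hu⟩
    induction hu with
    | refl => exact hin b hb b (Conn.refl hbV)
    | @tail u v hbu huv ih =>
      obtain ⟨hv, hadj, he⟩ := huv
      have h1 : Conn T' V b u := ⟨hbV, hbu⟩
      have h2 : s(u, v) ∈ touch V K := mem_touch.2 ⟨⟨h1.right, hv, hadj⟩, Or.inl ih⟩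
      have h3 : s(u, v) ∈ T ∩ touch V K := h.symm ▸ Finset.mem_inter.2 ⟨he, h2⟩
      rw [← hK] at ih
      obtain ⟨b', hb', hc⟩ := mem_clS.1 ih
      exact hin b' hb' v (hc.step hv hadj (Finset.mem_inter.1 h3).1)
  apply Finset.Subset.antisymm
  · intro y hy
    obtain ⟨b, hb, hc⟩ := mem_clS.1 hy
    exact hin' b hb y hc
  · intro y hy
    rw [← hK] at hy
    obtain ⟨b, hb, hc⟩ := mem_clS.1 hy
    exact mem_clS.2 ⟨b, hb, A16_transfer h (hin b hb) hc⟩

theorem dep_clS (S K B : Finset (Vx d)) :
    Dep {T : Finset (Ed d) | clS T S B = K} (touch S K) := fun _ _ h =>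
  ⟨fun hK => clS_eq_of_touch h hK, fun hK => clS_eq_of_touch h.symm hK⟩

private lemma A16_clS_subset (T : Finset (Ed d)) (V B : Finset (Vx d)) : clS T V B ⊆ V := by
  intro y hy
  obtain ⟨b, _, h⟩ := mem_clS.1 hy
  exact h.right

private lemma A16_sub {S V : Finset (Vx d)} (K : Finset (Vx d)) :
    edges (V \ K) ⊆ edges V \ touch S K := by
  intro e he
  rw [Finset.mem_sdiff]
  refine ⟨edges_mono Finset.sdiff_subset he, ?_⟩
  induction e using Sym2.ind with
  | _ x y =>
    intro h3
    obtain ⟨h4, h5, _⟩ := mem_edges.1 he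
    rcases (mem_touch.1 h3).2 with h6 | h6
    · exact (Finset.mem_sdiff.1 h4).2 h6
    · exact (Finset.mem_sdiff.1 h5).2 h6

/-- Exploration of the cluster of a set. -/
theorem explS (p : ℝ) {S V : Finset (Vx d)} (h : S ⊆ V) (B : Finset (Vx d))
    (g : Finset (Vx d) → Finset (Ed d) → ℝ) :
    EE p (edges V) (fun T => g (clS T S B) (T \ touch S (clS T S B))) =
      EE p (edges S) fun T' => EE p (edges V \ touch S (clS T' S B)) (g (clS T' S B)) := by
  classical
  have hL : EE p (edges V) (fun T => g (clS T S B) (T \ touch S (clS T S B))) =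
      EE p (edges V) (fun T => ∑ K ∈ S.powerset,
        (if clS T S B = K then (1 : ℝ) else 0) * g K (T ∩ (edges V \ touch S K))) := by
    refine EE_congr fun T hT => ?_
    rw [Finset.sum_eq_single_of_mem (clS T S B) (Finset.mem_powerset.2 (A16_clS_subset T S B))]
    · rw [if_pos rfl, one_mul]
      congr 1
      rw [← Finset.inter_sdiff_assoc, Finset.inter_eq_left.2 hT]
    · intro K _ hK
      rw [if_neg (Ne.symm hK), zero_mul]
  have hR : (EE p (edges S) fun T' => EE p (edges V \ touch S (clS T' S B)) (g (clS T' S B))) =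
      EE p (edges S) (fun T => ∑ K ∈ S.powerset,
        (if clS T S B = K then (1 : ℝ) else 0) * EE p (edges V \ touch S K) (g K)) := by
    refine EE_congr fun T hT => ?_
    rw [Finset.sum_eq_single_of_mem (clS T S B) (Finset.mem_powerset.2 (A16_clS_subset T S B))]
    · rw [if_pos rfl, one_mul]
    · intro K _ hK
      rw [if_neg (Ne.symm hK), zero_mul]
  rw [hL, hR, EE_sum, EE_sum]
  refine Finset.sum_congr rfl fun K _ => ?_
  have hf : DepF (fun T : Finset (Ed d) => if clS T S B = K then (1 : ℝ) else 0) (touch S K) := by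
    intro T T' hT
    exact if_congr (dep_clS S K B T T' hT) rfl rfl
  have hg : DepF (fun T : Finset (Ed d) => g K (T ∩ (edges V \ touch S K)))
      (edges V \ touch S K) := by
    intro T T' hT
    change g K (T ∩ (edges V \ touch S K)) = g K (T' ∩ (edges V \ touch S K))
    rw [hT]
  have hsub : touch S K ⊆ edges S := touch_subset S K
  have hsub' : touch S K ⊆ edges V := hsub.trans (edges_mono h)
  rw [EE_mul p hsub' Finset.sdiff_subset Finset.disjoint_sdiff hf hg, EE_mul_const,
    EE_marg p Finset.sdiff_subset, EE_dep p hsub' hf, EE_dep p hsub hf]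

theorem explS_out (p : ℝ) {S V : Finset (Vx d)} (h : S ⊆ V) (B : Finset (Vx d))
    (g : Finset (Vx d) → Finset (Ed d) → ℝ) :
    EE p (edges V) (fun T => g (clS T S B) (T ∩ edges (V \ clS T S B))) =
      EE p (edges S) fun T' => EE p (edges (V \ clS T' S B)) (g (clS T' S B)) := by
  have h1 := explS p h B (fun K U => g K (U ∩ edges (V \ K)))
  have h2 : EE p (edges V) (fun T => g (clS T S B) (T ∩ edges (V \ clS T S B))) =
      EE p (edges V) (fun T => g (clS T S B)
        ((T \ touch S (clS T S B)) ∩ edges (V \ clS T S B))) := by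
    refine EE_congr fun T _ => ?_
    congr 1
    ext e
    simp only [Finset.mem_inter, Finset.mem_sdiff]
    constructor
    · rintro ⟨h3, h4⟩
      exact ⟨⟨h3, (Finset.mem_sdiff.1 (A16_sub (S := S) _ h4)).2⟩, h4⟩
    · rintro ⟨⟨h3, _⟩, h4⟩
      exact ⟨h3, h4⟩
  rw [h2, h1]
  refine EE_congr fun T _ => ?_
  exact EE_marg p (A16_sub _) _

/-- A vertex outside `J = clS T V B` has the same cluster in `V` and in `V \ J`. -/
theorem cl_sdiff_clS {T : Finset (Ed d)} {V B : Finset (Vx d)} {a : Vx d}
    (ha : a ∉ clS T V B) : cl T (V \ clS T V B) a = cl T V a := by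
  ext y
  rw [mem_cl, mem_cl]
  constructor
  · intro hy
    refine hy.mono (Finset.Subset.refl _) ?_
    rw [Finset.coe_sdiff]
    exact Set.sdiff_subset
  · rintro ⟨haV, hy⟩
    induction hy with
    | refl =>
      refine Conn.refl ?_
      rw [Finset.coe_sdiff]
      exact ⟨haV, ha⟩
    | @tail u v hau huv ih =>
      have h1 : Conn T V a u := ⟨haV, hau⟩
      obtain ⟨hv, hadj, he⟩ := huv
      have h2 : Conn T V a v := h1.step hv hadj he
      refine ih.step ?_ hadj he
      rw [Finset.coe_sdiff]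
      refine ⟨hv, fun hvJ => ha ?_⟩
      obtain ⟨b, hb, hc⟩ := mem_clS.1 hvJ
      exact mem_clS.2 ⟨b, hb, hc.trans h2.symm⟩

end Pool.Agent.HD
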