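import Pool.Agent.Lib.MP_8ca597_hd.A16
import Pool.Agent.Lib.MP_8ca597_hd.A03

/-!
# Row A17: flux and escape

Let `f p` be the probability of the event that `Z` is connected to the boundary, `S(T)` the set of
the vertices of the box which are not connected to the boundary. By `EE_deriv` the derivative of
`f` is the sum over the edges `e` of the probability that `e` is pivotal; this is at least the sum
of the probabilities that `e` is closed and pivotal (divided by `1 - p`, drop this factor). If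
`Z ⊆ S(T)`, the edge `s(x, y)` with `x ∈ S(T)`, `y ∉ S(T)` is closed and it is pivotal if
`Z ↔ x` in `S(T)`. `{S(T) = S}` depends only on the edges which do not belong to `edges S`, so
`f' ≥ (1 - f) κ / p0` for `p ≥ p0` (`PP_mono_p`); hence `(1 - f) exp (κ (p - p0) / p0)` is
nonincreasing.
-/

set_option autoImplicit false

namespace Pool.Agent.HD

open Finset
open scoped ENNReal

variable {d : ℕ}

private theorem A17_Bd_sub (n : ℕ) : Bd d n ⊆ Bx d n := Finset.filter_subset _ _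

/-- The event that `Z` is connected to the boundary. -/
private def A17Ev (n : ℕ) (Z : Finset (Vx d)) : Set (Finset (Ed d)) :=
  {T | ∃ z ∈ Z, ∃ b ∈ Bd d n, Conn T (Bx d n) z b}

private theorem A17_up (n : ℕ) (Z : Finset (Vx d)) : Up (A17Ev n Z) := by
  rintro T T' hT ⟨z, hz, b, hb, h⟩
  exact ⟨z, hz, b, hb, h.mono hT (Set.Subset.refl _)⟩

private theorem A17_not_mem {n : ℕ} {Z : Finset (Vx d)} (hZ : Z ⊆ Bx d n) (T : Finset (Ed d)) :
    T ∉ A17Ev n Z ↔ Z ⊆ Bx d n \ clS T (Bx d n) (Bd d n) := by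
  constructor
  · intro h z hz
    refine Finset.mem_sdiff.2 ⟨hZ hz, fun h' => h ?_⟩
    obtain ⟨b, hb, hc⟩ := mem_clS.1 h'
    exact ⟨z, hz, b, hb, hc.symm⟩
  · rintro h ⟨z, hz, b, hb, hc⟩
    exact (Finset.mem_sdiff.1 (h hz)).2 (mem_clS.2 ⟨b, hb, hc.symm⟩)

open Classical in
/-- The number of exits connected to `Z` in `S`. -/
private noncomputable def A17N (n : ℕ) (Z S : Finset (Vx d)) (T : Finset (Ed d)) : ℝ :=
  if Z ⊆ S then ∑ q ∈ exits S (Bx d n), (if ∃ z ∈ Z, Conn T S z q.1 then 1 else 0) else 0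

open Classical in
/-- Closed pivotal edges. -/
private theorem A17_piv {n : ℕ} {Z : Finset (Vx d)} (hZ : Z ⊆ Bx d n) (T : Finset (Ed d)) :
    A17N n Z (Bx d n \ clS T (Bx d n) (Bd d n)) T ≤
      ∑ e ∈ edges (Bx d n), ((if insert e T ∈ A17Ev n Z then (1 : ℝ) else 0) -
        (if T.erase e ∈ A17Ev n Z then 1 else 0)) := by
  have hnn : ∀ e ∈ edges (Bx d n), 0 ≤ ((if insert e T ∈ A17Ev n Z then (1 : ℝ) else 0) -
        (if T.erase e ∈ A17Ev n Z then 1 else 0)) := by
    intro e _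
    by_cases h1 : T.erase e ∈ A17Ev n Z
    · have h2 : insert e T ∈ A17Ev n Z :=
        A17_up n Z ((Finset.erase_subset _ _).trans (Finset.subset_insert _ _)) h1
      rw [if_pos h1, if_pos h2]; simp
    · rw [if_neg h1]
      split_ifs <;> simp
  unfold A17N
  split_ifs with hS
  swap
  · exact Finset.sum_nonneg hnn
  set K := clS T (Bx d n) (Bd d n) with hK
  set S := Bx d n \ K with hSdef
  have hT : T ∉ A17Ev n Z := (A17_not_mem hZ T).2 hS
  rw [← Finset.sum_filter]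
  -- the map from exits to edges
  set E := (exits S (Bx d n)).filter (fun q => ∃ z ∈ Z, Conn T S z q.1) with hE
  have hinj : Set.InjOn (fun q : Vx d × Vx d => s(q.1, q.2)) (E : Set (Vx d × Vx d)) := by
    intro q hq q' hq' hqq
    have h1 := mem_exits.1 (Finset.mem_filter.1 hq).1
    have h2 := mem_exits.1 (Finset.mem_filter.1 hq').1
    rcases Sym2.eq_iff.1 hqq with ⟨h3, h4⟩ | ⟨h3, h4⟩
    · exact Prod.ext h3 h4
    · exact absurd (h4 ▸ h2.1) h1.2.2.1
  have hsum : (∑ q ∈ E, (1 : ℝ)) = ∑ e ∈ E.image (fun q : Vx d × Vx d => s(q.1, q.2)), 1 := by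
    rw [Finset.sum_image hinj]
  rw [hsum]
  have hsub : E.image (fun q : Vx d × Vx d => s(q.1, q.2)) ⊆ edges (Bx d n) := by
    intro e he
    obtain ⟨q, hq, rfl⟩ := Finset.mem_image.1 he
    have h1 := mem_exits.1 (Finset.mem_filter.1 hq).1
    exact mem_edges.2 ⟨(Finset.mem_sdiff.1 h1.1).1, h1.2.1, h1.2.2.2⟩
  refine le_trans ?_ (Finset.sum_le_sum_of_subset_of_nonneg hsub (fun e he _ => hnn e he))
  refine Finset.sum_le_sum ?_
  intro e he
  obtain ⟨q, hq, rfl⟩ := Finset.mem_image.1 he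
  obtain ⟨h1, z, hz, hzq⟩ := Finset.mem_filter.1 hq
  obtain ⟨hq1, hq2, hq3, hadj⟩ := mem_exits.1 h1
  have hq2K : q.2 ∈ K := by
    by_contra hcon
    exact hq3 (Finset.mem_sdiff.2 ⟨hq2, hcon⟩)
  obtain ⟨b, hb, hbq⟩ := mem_clS.1 hq2K
  have hclosed : s(q.1, q.2) ∉ T := by
    intro hin
    have : Conn T (Bx d n) b q.1 := by
      refine hbq.step (Finset.mem_coe.2 (Finset.mem_sdiff.1 hq1).1) hadj.symm ?_
      rw [Sym2.eq_swap]; exact hin
    exact (Finset.mem_sdiff.1 hq1).2 (mem_clS.2 ⟨b, hb, this⟩)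
  have h2 : insert s(q.1, q.2) T ∈ A17Ev n Z := by
    refine ⟨z, hz, b, hb, ?_⟩
    have h3 : Conn (insert s(q.1, q.2) T) (Bx d n) z q.1 := by
      refine hzq.mono (Finset.subset_insert _ _) ?_
      intro x hx
      exact Finset.mem_coe.2 (Finset.mem_sdiff.1 (Finset.mem_coe.1 hx)).1
    have h4 : Conn (insert s(q.1, q.2) T) (Bx d n) z q.2 :=
      h3.step (Finset.mem_coe.2 hq2) hadj (Finset.mem_insert_self _ _)
    exact h4.trans (hbq.symm.mono (Finset.subset_insert _ _) (Set.Subset.refl _))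
  rw [Finset.erase_eq_of_notMem hclosed, if_neg hT, if_pos h2]
  simp

open Classical in
private theorem A17_flux {n : ℕ} {p0 κ : ℝ} (hp0 : 0 < p0) (Z : Finset (Vx d))
    (hZ : Z ⊆ Bx d n) (hκ : 0 ≤ κ)
    (h : ∀ S : Finset (Vx d), Z ⊆ S → S ⊆ Bx d n \ Bd d n →
      κ ≤ p0 * ∑ q ∈ exits S (Bx d n), PP p0 (edges S) {T | ∃ z ∈ Z, Conn T S z q.1})
    {p : ℝ} (hp : p0 ≤ p) (hp1 : p ≤ 1) :
    κ / p0 * PP p (edges (Bx d n)) (A17Ev n Z)ᶜ ≤ ∑ e ∈ edges (Bx d n), EE p (edges (Bx d n))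
      fun T => (if insert e T ∈ A17Ev n Z then (1 : ℝ) else 0) -
        (if T.erase e ∈ A17Ev n Z then 1 else 0) := by
  have hp' : 0 ≤ p := hp0.le.trans hp
  rw [← EE_sum]
  refine le_trans ?_ (EE_mono hp' hp1 (fun T _ => A17_piv hZ T))
  have h1 : EE p (edges (Bx d n)) (fun T =>
      A17N n Z (Bx d n \ clS T (Bx d n) (Bd d n)) T) =
      EE p (edges (Bx d n)) (fun T => (fun (K : Finset (Vx d)) (T : Finset (Ed d)) =>
        A17N n Z (Bx d n \ K) T) (clS T (Bx d n) (Bd d n))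
        (T ∩ edges (Bx d n \ clS T (Bx d n) (Bd d n)))) := by
    refine EE_congr ?_
    intro T _
    unfold A17N
    simp only [conn_inter_edges]
  rw [h1, explS_out p (Finset.Subset.refl _) (Bd d n)
    (fun (K : Finset (Vx d)) (T : Finset (Ed d)) => A17N n Z (Bx d n \ K) T)]
  rw [PP_def, ← EE_const_mul]
  refine EE_mono hp' hp1 ?_
  intro T _

  set K := clS T (Bx d n) (Bd d n) with hK
  set S := Bx d n \ K with hSdef
  by_cases hT : T ∈ (A17Ev n Z)ᶜ
  · have hS : Z ⊆ S := (A17_not_mem hZ T).1 hT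
    rw [if_pos hT, mul_one]
    have h2 : EE p (edges S) (A17N n Z S) =
        ∑ q ∈ exits S (Bx d n), PP p (edges S) {T | ∃ z ∈ Z, Conn T S z q.1} := by
      have h3 : EE p (edges S) (A17N n Z S) = EE p (edges S) (fun T =>
        ∑ q ∈ exits S (Bx d n), (if ∃ z ∈ Z, Conn T S z q.1 then (1 : ℝ) else 0)) := by
        refine EE_congr ?_
        intro T _
        unfold A17N
        rw [if_pos hS]
      rw [h3, EE_sum]
      refine Finset.sum_congr rfl ?_
      intro q _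
      rw [PP_def]
      refine EE_congr ?_
      intro T _
      by_cases hc : ∃ z ∈ Z, Conn T S z q.1
      · rw [if_pos hc, if_pos (show T ∈ {T : Finset (Ed d) | ∃ z ∈ Z, Conn T S z q.1} from hc)]
      · rw [if_neg hc, if_neg (show T ∉ {T : Finset (Ed d) | ∃ z ∈ Z, Conn T S z q.1} from hc)]
    rw [h2, div_le_iff₀ hp0, mul_comm]
    have hSB : S ⊆ Bx d n \ Bd d n := by
      intro x hx
      refine Finset.mem_sdiff.2 ⟨(Finset.mem_sdiff.1 hx).1, fun hxB => ?_⟩
      exact (Finset.mem_sdiff.1 hx).2 (mem_clS.2 ⟨x, hxB,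
        Conn.refl (Finset.mem_coe.2 (Finset.mem_sdiff.1 hx).1)⟩)
    refine (h S hS hSB).trans ?_
    refine mul_le_mul_of_nonneg_left ?_ hp0.le
    refine Finset.sum_le_sum ?_
    intro q _
    refine PP_mono_p hp0.le hp hp1 ?_
    rintro T1 T2 h12 ⟨z, hz, hc⟩
    exact ⟨z, hz, hc.mono h12 (Set.Subset.refl _)⟩
  · rw [if_neg hT, mul_zero]
    refine EE_nonneg hp' hp1 ?_
    intro T' _
    unfold A17N
    split_ifs
    · refine Finset.sum_nonneg ?_
      intro q _
      split_ifs <;> simp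
    · exact le_rfl

theorem escape {n : ℕ} {p0 κ : ℝ} (hp0 : 0 < p0) (Z : Finset (Vx d))
    (hZ : Z ⊆ Bx d n) (hκ : 0 ≤ κ)
    (h : ∀ S : Finset (Vx d), Z ⊆ S → S ⊆ Bx d n \ Bd d n →
      κ ≤ p0 * ∑ q ∈ exits S (Bx d n), PP p0 (edges S) {T | ∃ z ∈ Z, Conn T S z q.1})
    {p : ℝ} (hp : p0 ≤ p) (hp1 : p ≤ 1) :
    PP p (edges (Bx d n)) {T | ¬ ∃ z ∈ Z, ∃ b ∈ Bd d n, Conn T (Bx d n) z b} ≤
      Real.exp (-(κ * (p - p0) / p0)) := by
  classical
  show PP p (edges (Bx d n)) (A17Ev n Z)ᶜ ≤ _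
  set F : ℝ → ℝ := fun p => PP p (edges (Bx d n)) (A17Ev n Z) with hF
  have hder : ∀ x, HasDerivAt F (∑ e ∈ edges (Bx d n), EE x (edges (Bx d n))
      fun T => (if insert e T ∈ A17Ev n Z then (1 : ℝ) else 0) -
        (if T.erase e ∈ A17Ev n Z then 1 else 0)) x := by
    intro x
    have h1 := EE_deriv (edges (Bx d n)) (fun T => if T ∈ A17Ev n Z then (1 : ℝ) else 0) x
    have h2 : F = fun p => EE p (edges (Bx d n))
        (fun T => if T ∈ A17Ev n Z then (1 : ℝ) else 0) := by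
      funext p
      exact PP_def _ _ _
    rw [h2]
    exact h1
  set G : ℝ → ℝ := fun x => (1 - F x) * Real.exp (κ * (x - p0) / p0) with hG
  have hGder : ∀ x, HasDerivAt G (-(∑ e ∈ edges (Bx d n), EE x (edges (Bx d n))
      fun T => (if insert e T ∈ A17Ev n Z then (1 : ℝ) else 0) -
        (if T.erase e ∈ A17Ev n Z then 1 else 0)) * Real.exp (κ * (x - p0) / p0) +
      (1 - F x) * (Real.exp (κ * (x - p0) / p0) * (κ / p0))) x := by
    intro x
    have h1 : HasDerivAt (fun x => 1 - F x) (-(∑ e ∈ edges (Bx d n), EE x (edges (Bx d n))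
      fun T => (if insert e T ∈ A17Ev n Z then (1 : ℝ) else 0) -
        (if T.erase e ∈ A17Ev n Z then 1 else 0))) x := by
      simpa using (hder x).const_sub 1
    have h2 : HasDerivAt (fun x : ℝ => κ * (x - p0) / p0) (κ / p0) x := by
      have := (((hasDerivAt_id x).sub_const p0).const_mul κ).div_const p0
      simpa using this
    exact h1.mul h2.exp
  have hanti : AntitoneOn G (Set.Icc p0 1) := by
    refine antitoneOn_of_deriv_nonpos (convex_Icc p0 1)
      (fun x _ => (hGder x).continuousAt.continuousWithinAt)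
      (fun x _ => (hGder x).differentiableAt.differentiableWithinAt) ?_
    intro x hx
    rw [interior_Icc] at hx
    rw [(hGder x).deriv]
    have h1 := A17_flux hp0 Z hZ hκ h hx.1.le hx.2.le
    rw [PP_compl] at h1
    have h2 := Real.exp_pos (κ * (x - p0) / p0)
    have h3 : κ / p0 * (1 - F x) ≤ ∑ e ∈ edges (Bx d n), EE x (edges (Bx d n))
      fun T => (if insert e T ∈ A17Ev n Z then (1 : ℝ) else 0) -
        (if T.erase e ∈ A17Ev n Z then 1 else 0) := h1
    nlinarith [mul_le_mul_of_nonneg_right h3 h2.le]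
  have hp0' : 0 ≤ p0 := hp0.le
  have hle := hanti ⟨le_rfl, hp.trans hp1⟩ ⟨hp, hp1⟩ hp
  have hG0 : G p0 ≤ 1 := by
    have : 0 ≤ F p0 := PP_nonneg hp0' (hp.trans hp1)
    simp only [hG]
    simp
    exact this
  have h5 : (1 - F p) * Real.exp (κ * (p - p0) / p0) ≤ 1 := hle.trans hG0
  rw [PP_compl]
  rw [Real.exp_neg, ← one_div, le_div_iff₀ (Real.exp_pos _)]
  exact h5

end Pool.Agent.HD
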