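import Pool.Agent.Lib.MP_8ca597_hd.A14
import Pool.Agent.Lib.MP_8ca597_hd.A15

/-!
# Row A18: the subcritical phase

`Sub p`: the flux out of some finite set is `< 1`. `sub_chi`: for `V` finite let
`X = max_a ∑_{x ∈ V} tau p V a x`; `SL` with `S + a` gives `X ≤ |S| + Φ X`. `sub_mom`: with
`S ⊆ Bx d L`, `∑_x (1 + |x|)^k tt x`: iterate `SLI`, `X_k = ∑ (1+|x|)^k tt` in finite volume satisfies
`X_k ≤ |S| (1+L)^k + Φ (1 + L + 1)^k ∑_{j<k} .. `: simpler: the exponential moment
`∑ exp(c |x|) tt x ≤ |S| e^{cL} + Φ e^{c(L+1)} ∑ exp(c|x|) tt x` in finite volume, with `c` such that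
`Φ e^{c(L+1)} < 1`. `sub_theta`: `P(0 ↔ Bd n in Bx n) ≤ ∑_{x ∈ Bd n} tt x → 0`, and
`∑_{K ⊆ Bx (n-1)} ww p K = P(0 not ↔ Bd n)`.
-/

set_option autoImplicit false

namespace Pool.Agent.HD

open Finset
open scoped ENNReal

variable {d : ℕ} {p : ℝ}

/-- The flux out of some finite set is smaller than `1`. -/
def Sub (d : ℕ) (p : ℝ) : Prop := ∃ S : Finset (Vx d), 0 ∈ S ∧ flux p (S : Set (Vx d)) 0 < 1

theorem flux_finset (hp : 0 ≤ p) (hp1 : p ≤ 1) (S : Finset (Vx d)) (x : Vx d) :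
    flux p (S : Set (Vx d)) x =
      ENNReal.ofReal (p * ∑ q ∈ exits S (nbh S), tau p S x q.1) := by
  unfold flux
  have hset : exI (S : Set (Vx d)) Set.univ = ((exits S (nbh S) : Finset (Vx d × Vx d)) :
      Set (Vx d × Vx d)) := by
    ext q
    rw [Finset.mem_coe, mem_exits, mem_nbh]
    constructor
    · rintro ⟨h1, _, h2, h3⟩
      exact ⟨h1, Or.inr ⟨q.1, h1, h3⟩, h2, h3⟩
    · rintro ⟨h1, _, h2, h3⟩
      exact ⟨h1, Set.mem_univ _, h2, h3⟩
  rw [hset, Finset.tsum_subtype' (exits S (nbh S))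
    (fun q : Vx d × Vx d => tauI p (S : Set (Vx d)) x q.1 * ENNReal.ofReal p), Finset.mul_sum,
    ENNReal.ofReal_sum_of_nonneg fun q _ => mul_nonneg hp (tau_nonneg hp hp1 _ _ _)]
  refine Finset.sum_congr rfl fun q _ => ?_
  rw [tauI_coe hp hp1, mul_comm, ENNReal.ofReal_mul hp]

theorem Sub.mono {p' : ℝ} (hp : 0 ≤ p') (h : Sub d p) (hpp : p' ≤ p) (hp1 : p ≤ 1) :
    Sub d p' := by
  obtain ⟨S, h0, hS⟩ := h
  refine ⟨S, h0, lt_of_le_of_lt ?_ hS⟩
  unfold flux
  refine ENNReal.tsum_le_tsum fun q => ?_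
  exact mul_le_mul' (tauI_mono_p hp hpp hp1 _ _ _) (ENNReal.ofReal_le_ofReal hpp)

/-- `Sub` is an open condition. -/
theorem Sub.opn (hp : 0 ≤ p) (hp1 : p < 1) (h : Sub d p) :
    ∃ p' : ℝ, p < p' ∧ p' < 1 ∧ Sub d p' := by
  obtain ⟨S, h0, hS⟩ := h
  rw [flux_finset hp hp1.le, ENNReal.ofReal_lt_one] at hS
  have hc : Continuous fun p : ℝ => p * ∑ q ∈ exits S (nbh S), tau p S 0 q.1 :=
    continuous_id.mul (continuous_finsetSum _ fun q _ => tau_continuous S 0 q.1)
  have h1 : ∀ᶠ t in nhdsWithin p (Set.Ioi p),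
      t * ∑ q ∈ exits S (nbh S), tau t S 0 q.1 < 1 :=
    (hc.continuousAt.tendsto.mono_left nhdsWithin_le_nhds).eventually (gt_mem_nhds hS)
  have h2 : ∀ᶠ t in nhdsWithin p (Set.Ioi p), t < 1 :=
    (Filter.tendsto_id.mono_left nhdsWithin_le_nhds).eventually (gt_mem_nhds hp1)
  have h3 : ∀ᶠ t in nhdsWithin p (Set.Ioi p), p < t := eventually_mem_nhdsWithin
  obtain ⟨t, ht1, ht2, ht3⟩ := (h1.and (h2.and h3)).exists
  refine ⟨t, ht3, ht2, S, h0, ?_⟩
  rw [flux_finset (hp.trans ht3.le) ht2.le, ENNReal.ofReal_lt_one]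
  exact ht1

/-! ### The exponential moment -/

private theorem A18_flux_shift (hp : 0 ≤ p) (hp1 : p ≤ 1) {S V : Finset (Vx d)} {a : Vx d} :
    ∑ q ∈ exits ((S.image (· + a)).filter (· ∈ V)) V,
      tau p ((S.image (· + a)).filter (· ∈ V)) a q.1 ≤
    ∑ q ∈ exits S (nbh S), tau p S 0 q.1 := by
  classical
  have hmap : S.image (· + a) = S.map (Equiv.addRight a).toEmbedding := by
    rw [Finset.map_eq_image]; rfl
  have h1 : ∀ y : Vx d, tau p (S.image (· + a)) a y = tau p S 0 (y - a) := by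
    intro y
    have := tau_equiv p (Equiv.addRight a) (fun x y => by simpa using adj_add x y a) S 0 (y - a)
    rw [← hmap] at this
    simpa using this
  calc ∑ q ∈ exits ((S.image (· + a)).filter (· ∈ V)) V,
        tau p ((S.image (· + a)).filter (· ∈ V)) a q.1
      ≤ ∑ q ∈ exits ((S.image (· + a)).filter (· ∈ V)) V, tau p S 0 (q.1 - a) := by
        refine Finset.sum_le_sum fun q _ => ?_
        rw [← h1]
        exact tau_mono hp hp1 (Finset.filter_subset _ _) _ _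
    _ = ∑ q ∈ (exits ((S.image (· + a)).filter (· ∈ V)) V).image
          (fun q : Vx d × Vx d => (q.1 - a, q.2 - a)), tau p S 0 q.1 := by
        rw [Finset.sum_image]
        intro q _ q' _ h
        simp only [Prod.mk.injEq, sub_left_inj] at h
        exact Prod.ext h.1 h.2
    _ ≤ _ := by
        refine Finset.sum_le_sum_of_subset_of_nonneg ?_ fun q _ _ => tau_nonneg hp hp1 _ _ _
        intro q hq
        obtain ⟨q, hqE, rfl⟩ := Finset.mem_image.1 hq
        obtain ⟨hq1, hq2, hq3, hadj⟩ := mem_exits.1 hqE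
        rw [Finset.mem_filter, Finset.mem_image] at hq1 hq3
        obtain ⟨⟨y, hy, hy'⟩, hyV⟩ := hq1
        have e1 : q.1 - a = y := by rw [← hy']; simp
        have hadj' : Adj (q.1 - a) (q.2 - a) := by
          have := adj_add q.1 q.2 (-a)
          rw [← sub_eq_add_neg, ← sub_eq_add_neg] at this
          exact this.2 hadj
        refine mem_exits.2 ⟨?_, ?_, ?_, hadj'⟩
        · simpa only [e1] using hy
        · exact mem_nbh.2 (Or.inr ⟨q.1 - a, by rw [e1]; exact hy, hadj'⟩)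
        · intro hmem
          exact hq3 ⟨⟨q.2 - a, hmem, by simp⟩, hq2⟩

private theorem A18_step (hp : 0 ≤ p) (hp1 : p ≤ 1) {S V : Finset (Vx d)} {L : ℕ}
    (h0 : (0 : Vx d) ∈ S) (hL : S ⊆ Bx d L) {c Y : ℝ} (hc : 0 ≤ c) (hY0 : 0 ≤ Y)
    (hY : ∀ b ∈ V, ∑ x ∈ V, Real.exp (c * nm (x - b)) * tau p V b x ≤ Y) {a : Vx d}
    (ha : a ∈ V) :
    ∑ x ∈ V, Real.exp (c * nm (x - a)) * tau p V a x ≤ S.card * Real.exp (c * L) +
      (p * ∑ q ∈ exits S (nbh S), tau p S 0 q.1) * Real.exp (c * (L + 1)) * Y := by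
  classical
  set Sa := (S.image (· + a)).filter (· ∈ V) with hSa
  have hSaV : Sa ⊆ V := fun x hx => (Finset.mem_filter.1 hx).2
  have haSa : a ∈ Sa := Finset.mem_filter.2 ⟨Finset.mem_image.2 ⟨0, h0, by simp⟩, ha⟩
  have hnm : ∀ x ∈ Sa, nm (x - a) ≤ L := by
    intro x hx
    obtain ⟨y, hy, rfl⟩ := Finset.mem_image.1 (Finset.mem_filter.1 hx).1
    have : (y + a) - a = y := by simp
    rw [this]
    exact mem_Bx.1 (hL hy)
  have hSL : ∀ x ∈ V, Real.exp (c * nm (x - a)) * tau p V a x ≤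
      Real.exp (c * nm (x - a)) * tau p Sa a x + ∑ q ∈ exits Sa V,
        tau p Sa a q.1 * p * (Real.exp (c * (L + 1)) *
          (Real.exp (c * nm (x - q.2)) * tau p V q.2 x)) := by
    intro x hx
    have h1 := mul_le_mul_of_nonneg_left (SL hp hp1 hSaV haSa x) (Real.exp_pos (c * nm (x - a))).le
    refine h1.trans ?_
    rw [mul_add, Finset.mul_sum]
    refine add_le_add (le_refl _) (Finset.sum_le_sum fun q hq => ?_)
    obtain ⟨hq1, hq2, hq3, hadj⟩ := mem_exits.1 hq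
    have hadj' : Adj (q.1 - a) (q.2 - a) := by
      have := adj_add q.1 q.2 (-a)
      rw [← sub_eq_add_neg, ← sub_eq_add_neg] at this
      exact this.2 hadj
    have h2 : nm (x - a) ≤ nm (x - q.2) + (L + 1) := by
      have e : x - a = (x - q.2) + (q.2 - a) := by abel
      rw [e]
      refine (nm_add_le _ _).trans (Nat.add_le_add_left ?_ _)
      exact (nm_adj hadj').trans (Nat.add_le_add_right (hnm _ hq1) 1)
    have h3 : Real.exp (c * nm (x - a)) ≤
        Real.exp (c * (L + 1)) * Real.exp (c * nm (x - q.2)) := by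
      rw [← Real.exp_add]
      apply Real.exp_le_exp.2
      have : (nm (x - a) : ℝ) ≤ nm (x - q.2) + (L + 1) := by exact_mod_cast h2
      nlinarith
    have h4 : 0 ≤ tau p Sa a q.1 * p * tau p V q.2 x :=
      mul_nonneg (mul_nonneg (tau_nonneg hp hp1 _ _ _) hp) (tau_nonneg hp hp1 _ _ _)
    calc Real.exp (c * nm (x - a)) * (tau p Sa a q.1 * p * tau p V q.2 x)
        ≤ Real.exp (c * (L + 1)) * Real.exp (c * nm (x - q.2)) *
          (tau p Sa a q.1 * p * tau p V q.2 x) := mul_le_mul_of_nonneg_right h3 h4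
      _ = _ := by ring
  refine (Finset.sum_le_sum hSL).trans ?_
  rw [Finset.sum_add_distrib]
  refine add_le_add ?_ ?_
  · -- the first term
    calc ∑ x ∈ V, Real.exp (c * nm (x - a)) * tau p Sa a x
        = ∑ x ∈ Sa, Real.exp (c * nm (x - a)) * tau p Sa a x := by
          symm
          refine Finset.sum_subset hSaV fun x _ hx => ?_
          rw [tau_zero_right p hx, mul_zero]
      _ ≤ ∑ x ∈ Sa, Real.exp (c * L) := by
          refine Finset.sum_le_sum fun x hx => ?_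
          have h1 : Real.exp (c * nm (x - a)) ≤ Real.exp (c * L) := by
            apply Real.exp_le_exp.2
            have : (nm (x - a) : ℝ) ≤ L := by exact_mod_cast hnm x hx
            exact mul_le_mul_of_nonneg_left this hc
          calc Real.exp (c * nm (x - a)) * tau p Sa a x ≤ Real.exp (c * L) * 1 :=
                mul_le_mul h1 (tau_le_one hp hp1 _ _ _) (tau_nonneg hp hp1 _ _ _)
                  (Real.exp_pos _).le
            _ = _ := mul_one _
      _ = Sa.card * Real.exp (c * L) := by rw [Finset.sum_const, nsmul_eq_mul]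
      _ ≤ S.card * Real.exp (c * L) := by
          refine mul_le_mul_of_nonneg_right ?_ (Real.exp_pos _).le
          have : Sa.card ≤ S.card :=
            (Finset.card_filter_le _ _).trans Finset.card_image_le
          exact_mod_cast this
  · rw [Finset.sum_comm]
    have h5 : ∀ q ∈ exits Sa V, ∑ x ∈ V, tau p Sa a q.1 * p * (Real.exp (c * (L + 1)) *
          (Real.exp (c * nm (x - q.2)) * tau p V q.2 x)) ≤
        tau p Sa a q.1 * (p * Real.exp (c * (L + 1)) * Y) := by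
      intro q hq
      rw [← Finset.mul_sum, ← Finset.mul_sum]
      have h6 := hY q.2 (mem_exits.1 hq).2.1
      calc tau p Sa a q.1 * p * (Real.exp (c * (L + 1)) *
            ∑ x ∈ V, Real.exp (c * nm (x - q.2)) * tau p V q.2 x)
          ≤ tau p Sa a q.1 * p * (Real.exp (c * (L + 1)) * Y) := by
            refine mul_le_mul_of_nonneg_left ?_ (mul_nonneg (tau_nonneg hp hp1 _ _ _) hp)
            exact mul_le_mul_of_nonneg_left h6 (Real.exp_pos _).le
        _ = _ := by ring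
    refine (Finset.sum_le_sum h5).trans ?_
    rw [← Finset.sum_mul]
    have h7 : 0 ≤ p * Real.exp (c * (L + 1)) * Y := by positivity
    calc (∑ q ∈ exits Sa V, tau p Sa a q.1) * (p * Real.exp (c * (L + 1)) * Y)
        ≤ (∑ q ∈ exits S (nbh S), tau p S 0 q.1) * (p * Real.exp (c * (L + 1)) * Y) :=
          mul_le_mul_of_nonneg_right (A18_flux_shift hp hp1) h7
      _ = _ := by ring

private theorem A18_exp (hp : 0 ≤ p) (hp1 : p ≤ 1) (h : Sub d p) :
    ∃ c : ℝ, 0 < c ∧ ∃ M : ℝ, 0 ≤ M ∧ ∀ (V : Finset (Vx d)) (a : Vx d),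
      ∑ x ∈ V, Real.exp (c * nm (x - a)) * tau p V a x ≤ M := by
  classical
  obtain ⟨S, h0, hS⟩ := h
  rw [flux_finset hp hp1, ENNReal.ofReal_lt_one] at hS
  obtain ⟨L, hL⟩ := exists_box S
  set Φ := p * ∑ q ∈ exits S (nbh S), tau p S 0 q.1 with hΦ
  have hΦ0 : 0 ≤ Φ := mul_nonneg hp (Finset.sum_nonneg fun q _ => tau_nonneg hp hp1 _ _ _)
  have hcont : Continuous fun c : ℝ => Φ * Real.exp (c * (L + 1)) := by fun_prop
  have h1 : ∀ᶠ c in nhdsWithin (0 : ℝ) (Set.Ioi 0), Φ * Real.exp (c * (L + 1)) < 1 := by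
    refine (hcont.continuousAt.tendsto.mono_left nhdsWithin_le_nhds).eventually (gt_mem_nhds ?_)
    simpa using hS
  have h2 : ∀ᶠ c in nhdsWithin (0 : ℝ) (Set.Ioi 0), 0 < c := eventually_mem_nhdsWithin
  obtain ⟨c, hc1, hc0⟩ := (h1.and h2).exists
  have hden : 0 < 1 - Φ * Real.exp (c * (L + 1)) := by linarith
  refine ⟨c, hc0, S.card * Real.exp (c * L) / (1 - Φ * Real.exp (c * (L + 1))),
    by positivity, fun V a => ?_⟩
  by_cases haV : a ∈ V
  · obtain ⟨a0, ha0, hmax⟩ := Finset.exists_max_image V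
      (fun b => ∑ x ∈ V, Real.exp (c * nm (x - b)) * tau p V b x) ⟨a, haV⟩
    refine (hmax a haV).trans ?_
    rw [le_div_iff₀ hden]
    have hst := A18_step hp hp1 h0 hL hc0.le
      (Finset.sum_nonneg fun x _ => mul_nonneg (Real.exp_pos _).le (tau_nonneg hp hp1 _ _ _))
      hmax ha0
    rw [← hΦ] at hst
    linarith
  · have : ∀ x ∈ V, Real.exp (c * nm (x - a)) * tau p V a x = 0 := fun x _ => by
      rw [tau_zero_left p haV, mul_zero]
    rw [Finset.sum_eq_zero this]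
    positivity

private theorem A18_tt_seq (hp : 0 ≤ p) (hp1 : p ≤ 1) (x : Vx d) :
    tt p x = ⨆ n : ℕ, ENNReal.ofReal (tau p (Bx d n) 0 x) := by
  classical
  unfold tt
  rw [tauI_seq hp hp1 Set.univ]
  simp

private theorem A18_Bx_mono {m n : ℕ} (h : m ≤ n) : Bx d m ⊆ Bx d n := fun _ hx =>
  mem_Bx.2 ((mem_Bx.1 hx).trans h)

private theorem A18_expI (hp : 0 ≤ p) (hp1 : p ≤ 1) (h : Sub d p) :
    ∃ c : ℝ, 0 < c ∧ ∑' x : Vx d, ENNReal.ofReal (Real.exp (c * nm x)) * tt p x < ⊤ := by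
  classical
  obtain ⟨c, hc, M, hM0, hM⟩ := A18_exp hp hp1 h
  refine ⟨c, hc, lt_of_le_of_lt ?_ (ENNReal.ofReal_lt_top (r := M))⟩
  rw [ENNReal.tsum_eq_iSup_sum]
  refine iSup_le fun F => ?_
  have h1 : ∀ x ∈ F, ENNReal.ofReal (Real.exp (c * nm x)) * tt p x =
      ⨆ n : ℕ, ENNReal.ofReal (Real.exp (c * nm x)) * ENNReal.ofReal (tau p (Bx d n) 0 x) := by
    intro x _
    rw [A18_tt_seq hp hp1, ENNReal.mul_iSup]
  rw [Finset.sum_congr rfl h1, ENNReal.finsetSum_iSup_of_monotone]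
  · refine iSup_le fun n => ?_
    have h2 : ∀ x ∈ F, ENNReal.ofReal (Real.exp (c * nm x)) *
        ENNReal.ofReal (tau p (Bx d n) 0 x) =
        ENNReal.ofReal (Real.exp (c * nm x) * tau p (Bx d n) 0 x) := fun x _ => by
      rw [ENNReal.ofReal_mul (Real.exp_pos _).le]
    rw [Finset.sum_congr rfl h2, ← ENNReal.ofReal_sum_of_nonneg fun x _ =>
      mul_nonneg (Real.exp_pos _).le (tau_nonneg hp hp1 _ _ _)]
    apply ENNReal.ofReal_le_ofReal
    refine le_trans ?_ (hM (Bx d n) 0)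
    have h3 : ∑ x ∈ F, Real.exp (c * nm x) * tau p (Bx d n) 0 x =
        ∑ x ∈ F.filter (· ∈ Bx d n), Real.exp (c * nm x) * tau p (Bx d n) 0 x := by
      rw [Finset.sum_filter]
      refine Finset.sum_congr rfl fun x _ => ?_
      split_ifs with hx
      · rfl
      · rw [tau_zero_right p hx, mul_zero]
    rw [h3]
    simp only [sub_zero]
    exact Finset.sum_le_sum_of_subset_of_nonneg (fun x hx => (Finset.mem_filter.1 hx).2)
      fun x _ _ => mul_nonneg (Real.exp_pos _).le (tau_nonneg hp hp1 _ _ _)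
  · intro x m n hmn
    exact mul_le_mul' (le_refl _)
      (ENNReal.ofReal_le_ofReal (tau_mono hp hp1 (A18_Bx_mono hmn) _ _))

theorem sub_chi (hp : 0 ≤ p) (hp1 : p ≤ 1) (h : Sub d p) : chi d p < ⊤ := by
  obtain ⟨c, hc, hfin⟩ := A18_expI hp hp1 h
  refine lt_of_le_of_lt (ENNReal.tsum_le_tsum fun x => ?_) hfin
  have : (1 : ℝ≥0∞) ≤ ENNReal.ofReal (Real.exp (c * nm x)) := by
    rw [ENNReal.one_le_ofReal]
    exact Real.one_le_exp (by positivity)
  calc tt p x = 1 * tt p x := (one_mul _).symm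
    _ ≤ _ := mul_le_mul' this (le_refl _)

theorem sub_mom (hp : 0 ≤ p) (hp1 : p ≤ 1) (h : Sub d p) (k : ℕ) :
    ∑' x : Vx d, (1 + nm x : ℝ≥0∞) ^ k * tt p x < ⊤ := by
  obtain ⟨c, hc, hfin⟩ := A18_expI hp hp1 h
  have key : ∀ n : ℕ, (1 + (n : ℝ)) ^ k ≤
      (k.factorial * Real.exp c / c ^ k) * Real.exp (c * n) := by
    intro n
    have h1 := Real.pow_div_factorial_le_exp (c * (1 + n)) (by positivity) k
    rw [div_le_iff₀ (by positivity), mul_pow, mul_add, mul_one, Real.exp_add] at h1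
    rw [div_mul_eq_mul_div, le_div_iff₀ (by positivity)]
    nlinarith
  have h2 : ∀ x : Vx d, (1 + nm x : ℝ≥0∞) ^ k * tt p x ≤
      ENNReal.ofReal (k.factorial * Real.exp c / c ^ k) *
        (ENNReal.ofReal (Real.exp (c * nm x)) * tt p x) := by
    intro x
    rw [← mul_assoc, ← ENNReal.ofReal_mul (by positivity)]
    refine mul_le_mul' ?_ (le_refl _)
    have e : (1 + nm x : ℝ≥0∞) ^ k = ENNReal.ofReal ((1 + (nm x : ℝ)) ^ k) := by
      rw [ENNReal.ofReal_pow (by positivity), ENNReal.ofReal_add (by norm_num) (by positivity)]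
      simp
    rw [e]
    exact ENNReal.ofReal_le_ofReal (key _)
  refine lt_of_le_of_lt (ENNReal.tsum_le_tsum h2) ?_
  rw [ENNReal.tsum_mul_left]
  exact ENNReal.mul_lt_top ENNReal.ofReal_lt_top hfin

theorem one_le_chi (p : ℝ) : 1 ≤ chi d p := by
  unfold chi
  rw [← tt_zero (d := d) p]
  exact ENNReal.le_tsum (0 : Vx d)

/-! ### Boxes -/

private theorem A18_nbh_box {n : ℕ} {K : Finset (Vx d)} (hK : K ⊆ Bx d n \ Bd d n) :
    nbh K ⊆ Bx d n := by
  intro y hy
  rw [mem_nbh] at hy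
  rcases hy with hy | ⟨x, hx, hadj⟩
  · exact (Finset.mem_sdiff.1 (hK hy)).1
  · have h1 := Finset.mem_sdiff.1 (hK hx)
    rw [mem_Bx, mem_Bd] at h1
    rw [mem_Bx]
    have := nm_adj hadj
    omega

private theorem A18_zero_mem (n : ℕ) : (0 : Vx d) ∈ Bx d n := by
  rw [mem_Bx]
  have : nm (0 : Vx d) = 0 := by
    unfold nm
    simp
  omega

private theorem A18_ww_box (p : ℝ) {n : ℕ} {K : Finset (Vx d)} (hK : K ⊆ Bx d n \ Bd d n) :
    ww p K = PP p (edges (Bx d n)) {T | cl T (Bx d n) 0 = K} := by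
  by_cases h0 : (0 : Vx d) ∈ K
  · exact (PP_cl_eq p (A18_nbh_box hK) h0).symm
  · rw [ww_zero p h0]
    have : {T : Finset (Ed d) | cl T (Bx d n) 0 = K} = ∅ := by
      ext T
      simp only [Set.mem_setOf_eq, Set.mem_empty_iff_false, iff_false]
      intro h
      exact h0 (h ▸ self_mem_cl (A18_zero_mem n))
    rw [this, PP_empty]

/-- The probability that `0` is connected to the boundary of a box. -/
theorem sum_ww_box (p : ℝ) (n : ℕ) :
    ∑ K ∈ (Bx d n \ Bd d n).powerset, ww p K =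
      PP p (edges (Bx d n)) {T | ¬ ∃ b ∈ Bd d n, Conn T (Bx d n) 0 b} := by
  rw [Finset.sum_congr rfl fun K hK => A18_ww_box p (Finset.mem_powerset.1 hK), ← PP_exists_eq]
  · apply PP_congr
    intro T _
    simp only [Set.mem_setOf_eq, Finset.mem_powerset, not_exists, not_and]
    constructor
    · rintro ⟨K, hK, hcl⟩ b hb hcon
      have : b ∈ K := by rw [← hcl, mem_cl]; exact hcon
      exact (Finset.mem_sdiff.1 (hK this)).2 hb
    · intro h
      refine ⟨_, ?_, rfl⟩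
      intro x hx
      exact Finset.mem_sdiff.2 ⟨cl_subset _ _ _ hx, fun hb => h x hb (mem_cl.1 hx)⟩
  · intro T _ K _ K' _ hK hK'
    exact hK.symm.trans hK'

/-- The probability of a connection to the boundary tends to zero. -/
private theorem A18_tend (hp : 0 ≤ p) (hp1 : p ≤ 1) (h : Sub d p) :
    Filter.Tendsto (fun n : ℕ => ∑ b ∈ Bd d n, tt p b) Filter.atTop (nhds 0) := by
  classical
  apply ENNReal.tendsto_atTop_zero_of_tsum_ne_top
  refine ne_of_lt (lt_of_le_of_lt ?_ (sub_chi hp hp1 h))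
  have h1 : ∀ n : ℕ, ∑ b ∈ Bd d n, tt p b = ∑' b : Vx d, if nm b = n then tt p b else 0 := by
    intro n
    rw [tsum_eq_sum (s := Bd d n) fun b hb => by
      rw [mem_Bd] at hb
      simp [hb]]
    exact Finset.sum_congr rfl fun b hb => by rw [if_pos (mem_Bd.1 hb)]
  rw [tsum_congr h1, ENNReal.tsum_comm]
  unfold chi
  refine ENNReal.tsum_le_tsum fun b => ?_
  rw [tsum_eq_single (nm b) fun n hn => by rw [if_neg (Ne.symm hn)]]
  simp

private theorem A18_esc (hp : 0 ≤ p) (hp1 : p ≤ 1) (n : ℕ) :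
    ENNReal.ofReal (PP p (edges (Bx d n)) {T | ∃ b ∈ Bd d n, Conn T (Bx d n) 0 b}) ≤
      ∑ b ∈ Bd d n, tt p b := by
  have h1 := PP_exists_le hp hp1 (S := edges (Bx d n)) (Bd d n)
    (fun b => {T : Finset (Ed d) | Conn T (Bx d n) 0 b})
  refine (ENNReal.ofReal_le_ofReal h1).trans ?_
  rw [ENNReal.ofReal_sum_of_nonneg fun b _ => PP_nonneg hp hp1]
  exact Finset.sum_le_sum fun b _ => le_tauI p (Set.subset_univ _) 0 b

theorem sub_theta (hp : 0 ≤ p) (hp1 : p ≤ 1) (h : Sub d p) : theta d p = 0 := by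
  unfold theta
  rw [tsub_eq_zero_iff_le]
  refine ge_of_tendsto' (b := (1 : ℝ≥0∞))
    (x := (Filter.atTop : Filter ℕ))
    (f := fun n => (∑' K : Finset (Vx d), ENNReal.ofReal (ww p K)) + ∑ b ∈ Bd d n, tt p b)
    (by simpa using (tendsto_const_nhds (x := ∑' K : Finset (Vx d),
      ENNReal.ofReal (ww p K))).add (A18_tend hp hp1 h)) fun n => ?_
  have h1 : (1 : ℝ) = ∑ K ∈ (Bx d n \ Bd d n).powerset, ww p K +
      PP p (edges (Bx d n)) {T | ∃ b ∈ Bd d n, Conn T (Bx d n) 0 b} := by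
    rw [sum_ww_box]
    have := PP_compl p (edges (Bx d n)) {T : Finset (Ed d) | ∃ b ∈ Bd d n, Conn T (Bx d n) 0 b}
    have e : {T : Finset (Ed d) | ∃ b ∈ Bd d n, Conn T (Bx d n) 0 b}ᶜ =
        {T | ¬ ∃ b ∈ Bd d n, Conn T (Bx d n) 0 b} := rfl
    rw [e] at this
    linarith
  calc (1 : ℝ≥0∞) = ENNReal.ofReal 1 := ENNReal.ofReal_one.symm
    _ = ENNReal.ofReal (∑ K ∈ (Bx d n \ Bd d n).powerset, ww p K) + ENNReal.ofReal
        (PP p (edges (Bx d n)) {T | ∃ b ∈ Bd d n, Conn T (Bx d n) 0 b}) := by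
        conv_lhs => rw [h1]
        exact ENNReal.ofReal_add (Finset.sum_nonneg fun K _ => ww_nonneg hp hp1 K)
          (PP_nonneg hp hp1)
    _ ≤ _ := by
        refine add_le_add ?_ (A18_esc hp hp1 n)
        rw [ENNReal.ofReal_sum_of_nonneg fun K _ => ww_nonneg hp hp1 K]
        exact ENNReal.sum_le_tsum _

/-- In the subcritical phase the two-point function is the sum of the weights. -/
theorem sub_tt (hp : 0 ≤ p) (hp1 : p ≤ 1) (h : Sub d p) (x : Vx d) :
    tt p x = ∑' K : Finset (Vx d), if x ∈ K then ENNReal.ofReal (ww p K) else 0 := by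
  classical
  apply le_antisymm
  · -- upper bound
    refine tauI_le fun V _ => ?_
    obtain ⟨N, hN⟩ := exists_box V
    refine ge_of_tendsto (b := ENNReal.ofReal (tau p V 0 x))
      (x := (Filter.atTop : Filter ℕ))
      (f := fun n => (∑' K : Finset (Vx d), if x ∈ K then ENNReal.ofReal (ww p K) else 0) +
        ∑ b ∈ Bd d n, tt p b)
      (by simpa using (tendsto_const_nhds (x := ∑' K : Finset (Vx d),
        if x ∈ K then ENNReal.ofReal (ww p K) else 0)).add (A18_tend hp hp1 h)) ?_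
    filter_upwards [Filter.eventually_ge_atTop N] with n hn
    have hVn : V ⊆ Bx d n := hN.trans (A18_Bx_mono hn)
    have h1 : tau p (Bx d n) 0 x ≤
        ∑ K ∈ (Bx d n \ Bd d n).powerset.filter (x ∈ ·), ww p K +
        PP p (edges (Bx d n)) {T | ∃ b ∈ Bd d n, Conn T (Bx d n) 0 b} := by
      rw [Finset.sum_congr rfl fun K hK =>
        A18_ww_box p (Finset.mem_powerset.1 (Finset.mem_filter.1 hK).1), ← PP_exists_eq]
      · refine le_trans (PP_mono hp hp1 fun T _ hT => ?_) (PP_union_le hp hp1)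
        by_cases hb : ∃ b ∈ Bd d n, Conn T (Bx d n) 0 b
        · exact Or.inr hb
        · left
          refine ⟨cl T (Bx d n) 0, ?_, rfl⟩
          rw [Finset.mem_filter, Finset.mem_powerset]
          refine ⟨?_, mem_cl.2 hT⟩
          intro y hy
          exact Finset.mem_sdiff.2 ⟨cl_subset _ _ _ hy, fun hb' => hb ⟨y, hb', mem_cl.1 hy⟩⟩
      · intro T _ K _ K' _ hK hK'
        exact hK.symm.trans hK'
    calc ENNReal.ofReal (tau p V 0 x) ≤ ENNReal.ofReal (tau p (Bx d n) 0 x) :=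
          ENNReal.ofReal_le_ofReal (tau_mono hp hp1 hVn _ _)
      _ ≤ ENNReal.ofReal (∑ K ∈ (Bx d n \ Bd d n).powerset.filter (x ∈ ·), ww p K) +
          ENNReal.ofReal
            (PP p (edges (Bx d n)) {T | ∃ b ∈ Bd d n, Conn T (Bx d n) 0 b}) := by
          rw [← ENNReal.ofReal_add (Finset.sum_nonneg fun K _ => ww_nonneg hp hp1 K)
            (PP_nonneg hp hp1)]
          exact ENNReal.ofReal_le_ofReal h1
      _ ≤ _ := by
          refine add_le_add ?_ (A18_esc hp hp1 n)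
          rw [ENNReal.ofReal_sum_of_nonneg fun K _ => ww_nonneg hp hp1 K, Finset.sum_filter]
          exact ENNReal.sum_le_tsum _
  · -- lower bound
    rw [ENNReal.tsum_eq_iSup_sum]
    refine iSup_le fun s => ?_
    have h1 : ∑ K ∈ s, (if x ∈ K then ENNReal.ofReal (ww p K) else 0) =
        ∑ K ∈ s.filter (fun K => x ∈ K ∧ (0 : Vx d) ∈ K), ENNReal.ofReal (ww p K) := by
      rw [Finset.sum_filter]
      refine Finset.sum_congr rfl fun K _ => ?_
      by_cases hx : x ∈ K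
      · by_cases h0 : (0 : Vx d) ∈ K
        · simp [hx, h0]
        · simp [hx, h0, ww_zero p h0]
      · simp [hx]
    rw [h1]
    set V := s.biUnion nbh with hV
    have h2 : ∀ K ∈ s.filter (fun K => x ∈ K ∧ (0 : Vx d) ∈ K), ENNReal.ofReal (ww p K) =
        ENNReal.ofReal (PP p (edges V) {T | cl T V 0 = K}) := by
      intro K hK
      rw [Finset.mem_filter] at hK
      rw [PP_cl_eq p (Finset.subset_biUnion_of_mem nbh hK.1) hK.2.2]
    rw [Finset.sum_congr rfl h2, ← ENNReal.ofReal_sum_of_nonneg fun K _ => PP_nonneg hp hp1,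
      ← PP_exists_eq]
    · refine le_trans (ENNReal.ofReal_le_ofReal ?_) (le_tauI p (V := V) (Set.subset_univ _) 0 x)
      refine PP_mono hp hp1 fun T _ hT => ?_
      obtain ⟨K, hK, hcl⟩ := hT
      have hxK : x ∈ K := (Finset.mem_filter.1 hK).2.1
      have hcl' : cl T V 0 = K := hcl
      rw [← hcl', mem_cl] at hxK
      exact hxK
    · intro T _ K _ K' _ hK hK'
      exact hK.symm.trans hK'

end Pool.Agent.HD
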