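import Pool.Agent.Lib.MP_8ca597_hd.A17
import Pool.Agent.Lib.MP_8ca597_hd.A18

/-!
# Row A19: the critical point

If `¬ Sub d p0`, all finite sets have flux `≥ 1` at `p0`, and `escape` with `Z = {0}`, `κ = 1` gives
`theta_n(p) ≥ 1 - exp(-(p-p0)/p0)` for all `n ≥ 1`; `sum_ww_box` and the limit `n → ∞` give the same
for `theta`. Conversely `Sub` implies `theta = 0`. `pc_pos`: for `p < 1/(2d)` the set `{0}` has
flux `2 d p < 1`. `pc_chi_lower` (C3): `SL2I` gives `chi p' ≤ chi p + 2 d r chi p chi p'`,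
`r = (p' - p)/(1 - p)`; let `p' → pc`, where `chi` tends to infinity (`chi_pc`: at `pc` the sum over
`k ≤ n` of the fluxes of the boxes `Bx d k` is at least `n + 1`, and at most `2 d p chi`).
-/

set_option autoImplicit false

namespace Pool.Agent.HD

open Finset
open scoped ENNReal

variable {d : ℕ} {p : ℝ}

private lemma A19_zero_mem (n : ℕ) : (0 : Vx d) ∈ Bx d n := by
  rw [mem_Bx]
  simp [nm]

private lemma A19_sum_le {p0 : ℝ} (h0 : 0 ≤ p0) (h01 : p0 ≤ 1) {n : ℕ} {S : Finset (Vx d)}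
    (hS : S ⊆ Bx d n \ Bd d n) :
    ∑ q ∈ exits S (nbh S), tau p0 S 0 q.1 ≤ ∑ q ∈ exits S (Bx d n), tau p0 S 0 q.1 := by
  classical
  refine Finset.sum_le_sum_of_subset_of_nonneg ?_ fun q _ _ => tau_nonneg h0 h01 _ _ _
  intro q hq
  rw [mem_exits] at hq ⊢
  obtain ⟨h1, h2, h3, h4⟩ := hq
  refine ⟨h1, ?_, h3, h4⟩
  have h5 := Finset.mem_sdiff.1 (hS h1)
  have h6 := mem_Bx.1 h5.1
  have h7 : nm q.1 ≠ n := fun e => h5.2 (mem_Bd.2 e)
  have h8 := nm_adj h4
  rw [mem_Bx]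
  omega

theorem theta_of_not_sub {p0 : ℝ} (h0 : 0 < p0) (h : ¬ Sub d p0) (hp : p0 ≤ p) (hp1 : p ≤ 1) :
    ENNReal.ofReal (1 - Real.exp (-((p - p0) / p0))) ≤ theta d p := by
  classical
  have h01 : p0 ≤ 1 := hp.trans hp1
  have hflux : ∀ S : Finset (Vx d), (0 : Vx d) ∈ S →
      1 ≤ p0 * ∑ q ∈ exits S (nbh S), tau p0 S 0 q.1 := by
    intro S hS
    have h1 : 1 ≤ flux p0 (S : Set (Vx d)) 0 := by
      by_contra hcon
      exact h ⟨S, hS, not_le.1 hcon⟩
    rw [flux_finset h0.le h01] at h1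
    by_contra hcon
    have h2 := not_le.1 hcon
    have h3 : ENNReal.ofReal (p0 * ∑ q ∈ exits S (nbh S), tau p0 S 0 q.1) < 1 := by
      rw [← ENNReal.ofReal_one]
      exact (ENNReal.ofReal_lt_ofReal_iff one_pos).2 h2
    exact absurd h1 (not_le.2 h3)
  have hbox : ∀ n : ℕ, ∑ K ∈ (Bx d n \ Bd d n).powerset, ww p K ≤
      Real.exp (-((p - p0) / p0)) := by
    intro n
    rw [sum_ww_box]
    have h1 := escape (d := d) (n := n) (κ := 1) h0 {0}
      (Finset.singleton_subset_iff.2 (A19_zero_mem n)) zero_le_one (by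
        intro S hS hS'
        have h2 := hflux S (Finset.singleton_subset_iff.1 hS)
        refine h2.trans (mul_le_mul_of_nonneg_left ?_ h0.le)
        refine (A19_sum_le h0.le h01 hS').trans (le_of_eq ?_)
        refine Finset.sum_congr rfl fun q _ => ?_
        unfold tau
        refine PP_congr fun T _ => ?_
        constructor
        · intro hT
          exact ⟨0, Finset.mem_singleton_self _, hT⟩
        · rintro ⟨z, hz, hT⟩
          rw [Finset.mem_singleton.1 hz] at hT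
          exact hT) hp hp1
    have h2 : PP p (edges (Bx d n)) {T | ¬ ∃ b ∈ Bd d n, Conn T (Bx d n) 0 b} =
        PP p (edges (Bx d n)) {T | ¬ ∃ z ∈ ({0} : Finset (Vx d)), ∃ b ∈ Bd d n,
          Conn T (Bx d n) z b} := by
      refine PP_congr fun T _ => ?_
      simp
    rw [h2]
    refine h1.trans (le_of_eq ?_)
    rw [one_mul]
  have htsum : ∑' K : Finset (Vx d), ENNReal.ofReal (ww p K) ≤
      ENNReal.ofReal (Real.exp (-((p - p0) / p0))) := by
    rw [ENNReal.tsum_eq_iSup_sum]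
    refine iSup_le fun s => ?_
    obtain ⟨m, hm⟩ := exists_box (s.biUnion id)
    have hsub : s ⊆ (Bx d (m + 1) \ Bd d (m + 1)).powerset := by
      intro K hK
      rw [Finset.mem_powerset]
      intro x hx
      have h1 : x ∈ Bx d m := hm (Finset.mem_biUnion.2 ⟨K, hK, hx⟩)
      have h2 := mem_Bx.1 h1
      rw [Finset.mem_sdiff, mem_Bx, mem_Bd]
      omega
    rw [← ENNReal.ofReal_sum_of_nonneg fun K _ => ww_nonneg (h0.le.trans hp) hp1 K]
    refine ENNReal.ofReal_le_ofReal (le_trans ?_ (hbox (m + 1)))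
    exact Finset.sum_le_sum_of_subset_of_nonneg hsub fun K _ _ =>
      ww_nonneg (h0.le.trans hp) hp1 K
  unfold theta
  rw [ENNReal.ofReal_sub _ (Real.exp_pos _).le, ENNReal.ofReal_one]
  exact tsub_le_tsub_left htsum 1

theorem pc_le_one (d : ℕ) : pc d ≤ 1 := by
  unfold pc
  rcases Set.eq_empty_or_nonempty {p : ℝ | p ∈ Set.Icc (0 : ℝ) 1 ∧ 0 < theta d p} with h | h
  · rw [h, Real.sInf_empty]
    exact zero_le_one
  · obtain ⟨p, hp⟩ := h
    exact (csInf_le ⟨0, fun q hq => hq.1.1⟩ hp).trans hp.1.2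

private lemma A19_pc_le {p : ℝ} (hp : 0 ≤ p) (hp1 : p ≤ 1) (h : 0 < theta d p) : pc d ≤ p :=
  csInf_le ⟨0, fun _ hq => hq.1.1⟩ ⟨⟨hp, hp1⟩, h⟩

theorem sub_of_lt (hp : 0 ≤ p) (h : p < pc d) : Sub d p := by
  by_contra hcon
  rcases hp.eq_or_lt with h0 | h0
  · apply hcon
    refine ⟨{0}, Finset.mem_singleton_self _, ?_⟩
    unfold flux
    rw [← h0]
    simp
  · obtain ⟨p', h1, h2⟩ := exists_between h
    have h3 : p' ≤ 1 := h2.le.trans (pc_le_one d)
    have h4 := theta_of_not_sub h0 hcon h1.le h3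
    have h5 : 0 < (p' - p) / p := div_pos (by linarith) h0
    have h6 : Real.exp (-((p' - p) / p)) < 1 := by
      rw [Real.exp_lt_one_iff]
      linarith
    have h7 : 0 < theta d p' := lt_of_lt_of_le (ENNReal.ofReal_pos.2 (by linarith)) h4
    exact absurd (A19_pc_le (h0.le.trans h1.le) h3 h7) (not_le.2 h2)

private lemma A19_exit (hd : 0 < d) (K : Finset (Vx d)) (h0 : (0 : Vx d) ∈ K) :
    ∃ x ∈ K, ∃ y, y ∉ K ∧ Adj x y := by
  classical
  obtain ⟨x, hx, hmax⟩ := Finset.exists_max_image K (fun x : Vx d => x ⟨0, hd⟩) ⟨0, h0⟩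
  refine ⟨x, hx, Function.update x ⟨0, hd⟩ (x ⟨0, hd⟩ + 1), ?_, ?_⟩
  · intro hy
    have := hmax _ hy
    rw [Function.update_self] at this
    omega
  · unfold Adj
    rw [Finset.sum_eq_single_of_mem (⟨0, hd⟩ : Fin d) (Finset.mem_univ _)]
    · rw [Function.update_self]
      have : x ⟨0, hd⟩ - (x ⟨0, hd⟩ + 1) = -1 := by ring
      rw [this]
      rfl
    · intro i _ hi
      rw [Function.update_of_ne hi, sub_self, abs_zero]

private lemma A19_PP_one {α : Type} [DecidableEq α] (S : Finset α) (A : Set (Finset α))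
    (h : S ∉ A) : PP 1 S A = 0 := by
  classical
  rw [PP_def]
  unfold EE
  refine Finset.sum_eq_zero fun T hT => ?_
  by_cases hTS : T = S
  · rw [hTS]
    simp [h]
  · have h1 : (S \ T).card ≠ 0 := by
      intro h2
      rw [Finset.card_eq_zero, Finset.sdiff_eq_empty_iff_subset] at h2
      exact hTS (Finset.Subset.antisymm (Finset.mem_powerset.1 hT) h2)
    rw [sub_self, zero_pow h1, mul_zero, zero_mul]

private lemma A19_theta_one (hd : 0 < d) : theta d 1 = 1 := by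
  classical
  have h1 : ∀ K : Finset (Vx d), ww 1 K = 0 := by
    intro K
    by_cases h0 : (0 : Vx d) ∈ K
    · unfold ww
      apply A19_PP_one
      rintro ⟨_, hcl⟩
      obtain ⟨x, hx, y, hy, hadj⟩ := A19_exit hd K h0
      apply hy
      rw [← hcl]
      have hyn : y ∈ nbh K := mem_nbh.2 (Or.inr ⟨x, hx, hadj⟩)
      have hxn : x ∈ nbh K := mem_nbh.2 (Or.inl hx)
      refine cl_closed (u := x) ?_ hyn hadj (mem_edges.2 ⟨hxn, hyn, hadj⟩)
      rw [hcl]
      exact hx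
    · exact ww_zero 1 h0
  unfold theta
  simp [h1]

private lemma A19_ne (hd : 0 < d) :
    {p : ℝ | p ∈ Set.Icc (0 : ℝ) 1 ∧ 0 < theta d p}.Nonempty :=
  ⟨1, ⟨zero_le_one, le_refl 1⟩, by rw [A19_theta_one hd]; exact one_pos⟩

theorem pc_pos (hd : 0 < d) : 1 / (2 * d : ℝ) ≤ pc d := by
  classical
  refine le_csInf (A19_ne hd) ?_
  rintro p ⟨⟨hp, hp1⟩, hth⟩
  by_contra hcon
  have hlt := not_le.1 hcon
  have hd' : (0 : ℝ) < 2 * d := by
    have : (0 : ℝ) < d := by exact_mod_cast hd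
    linarith
  rw [lt_div_iff₀ hd'] at hlt
  have hsub : Sub d p := by
    refine ⟨{0}, Finset.mem_singleton_self _, ?_⟩
    rw [flux_finset hp hp1]
    have h1 : ∑ q ∈ exits {0} (nbh {0}), tau p {0} (0 : Vx d) q.1 ≤ 2 * d := by
      refine (Finset.sum_le_card_nsmul _ _ 1 fun q _ => tau_le_one hp hp1 _ _ _).trans ?_
      have h2 : (exits {0} (nbh {(0 : Vx d)})).card ≤ (nbr (0 : Vx d)).card := by
        refine Finset.card_le_card_of_injOn Prod.snd ?_ ?_
        · intro q hq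
          rw [Finset.mem_coe, mem_exits] at hq
          rw [Finset.mem_coe, mem_nbr]
          have := Finset.mem_singleton.1 hq.1
          rw [← this]
          exact hq.2.2.2
        · intro q hq q' hq' hqq
          rw [Finset.mem_coe, mem_exits] at hq hq'
          exact Prod.ext ((Finset.mem_singleton.1 hq.1).trans (Finset.mem_singleton.1 hq'.1).symm)
            hqq
      rw [card_nbr] at h2
      rw [nsmul_eq_mul, mul_one]
      exact_mod_cast h2
    rw [← ENNReal.ofReal_one]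
    refine (ENNReal.ofReal_lt_ofReal_iff one_pos).2 ?_
    exact lt_of_le_of_lt (mul_le_mul_of_nonneg_left h1 hp) hlt
  rw [sub_theta hp hp1 hsub] at hth
  exact lt_irrefl _ hth

private lemma A19_pos (hd : 0 < d) : 0 < pc d := by
  refine lt_of_lt_of_le ?_ (pc_pos hd)
  have : (0 : ℝ) < d := by exact_mod_cast hd
  positivity

theorem not_sub_pc (hd : 0 < d) (h : pc d < 1) : ¬ Sub d (pc d) := by
  intro hsub
  obtain ⟨p', h1, h2, h3⟩ := hsub.opn (A19_pos hd).le h
  have h4 : p' ≤ pc d := by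
    refine le_csInf (A19_ne hd) ?_
    rintro p ⟨⟨hp, hp1⟩, hth⟩
    by_contra hcon
    rw [sub_theta hp hp1 (h3.mono hp (not_le.1 hcon).le h2.le)] at hth
    exact lt_irrefl _ hth
  exact absurd h1 (not_lt.2 h4)

private lemma A19_flux_add (p : ℝ) (S : Set (Vx d)) (x z : Vx d) :
    flux p ((· + z) '' S) (x + z) = flux p S x := by
  unfold flux
  let e : exI S Set.univ ≃ exI ((· + z) '' S) Set.univ :=
    { toFun := fun q => ⟨(q.1.1 + z, q.1.2 + z), ⟨q.1.1, q.2.1, rfl⟩, Set.mem_univ _, (by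
        rintro ⟨y, hy, hyz⟩
        have : y = q.1.2 := add_right_cancel hyz
        exact q.2.2.2.1 (this ▸ hy)), (adj_add _ _ _).2 q.2.2.2.2⟩
      invFun := fun q => ⟨(q.1.1 - z, q.1.2 - z), (by
        obtain ⟨y, hy, hyz⟩ := q.2.1
        have h1 : y + z = q.1.1 := hyz
        have : q.1.1 - z = y := by rw [← h1, add_sub_cancel_right]
        change q.1.1 - z ∈ S
        rw [this]
        exact hy), Set.mem_univ _, (by
        intro hy
        exact q.2.2.2.1 ⟨q.1.2 - z, hy, by simp⟩), (by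
        have h1 := q.2.2.2.2
        have h2 := adj_add (q.1.1 - z) (q.1.2 - z) z
        rw [sub_add_cancel, sub_add_cancel] at h2
        exact h2.1 h1)⟩
      left_inv := fun q => Subtype.ext (Prod.ext (by simp) (by simp))
      right_inv := fun q => Subtype.ext (Prod.ext (by simp) (by simp)) }
  rw [← e.tsum_eq]
  refine tsum_congr fun q => ?_
  change tauI p ((· + z) '' S) (x + z) (q.1.1 + z) * _ = _
  rw [tauI_add]

/-- At the critical point all fluxes are at least `1`. -/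
theorem flux_pc (hd : 0 < d) (h : pc d < 1) (S : Finset (Vx d)) (x : Vx d) (hx : x ∈ S) :
    1 ≤ flux (pc d) (S : Set (Vx d)) x := by
  classical
  have h1 := A19_flux_add (pc d) (S : Set (Vx d)) x (-x)
  rw [add_neg_cancel] at h1
  rw [← h1]
  by_contra hcon
  refine not_sub_pc hd h ⟨S.image (· + -x), ?_, ?_⟩
  · exact Finset.mem_image.2 ⟨x, hx, add_neg_cancel x⟩
  · rw [Finset.coe_image]
    exact not_le.1 hcon

theorem theta_ge (hd : 0 < d) (hp : pc d ≤ p) (hp1 : p ≤ 1) :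
    ENNReal.ofReal (1 - Real.exp (-((p - pc d) / pc d))) ≤ theta d p := by
  rcases (pc_le_one d).lt_or_eq with h | h
  · exact theta_of_not_sub (A19_pos hd) (not_sub_pc hd h) hp hp1
  · have h1 : p = pc d := le_antisymm (by rw [h]; exact hp1) hp
    rw [h1, sub_self, zero_div, neg_zero, Real.exp_zero, sub_self, ENNReal.ofReal_zero]
    exact zero_le

theorem chi_pc (hd : 0 < d) (h : pc d < 1) : chi d (pc d) = ⊤ := by
  classical
  have hp := (A19_pos hd).le
  have hp1 := h.le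
  have h1 : ∀ k : ℕ, 1 ≤ flux (pc d) (Bx d k : Set (Vx d)) 0 := fun k =>
    flux_pc hd h (Bx d k) 0 (A19_zero_mem k)
  let g : Vx d × (nbr (0 : Vx d)) → ℝ≥0∞ := fun y => tt (pc d) y.1 * ENNReal.ofReal (pc d)
  let F : (Σ k : ℕ, exI (Bx d k : Set (Vx d)) Set.univ) → Vx d × (nbr (0 : Vx d)) := fun y =>
    (y.2.1.1, ⟨y.2.1.2 - y.2.1.1, by
      rw [mem_nbr]
      have h2 := adj_add (0 : Vx d) (y.2.1.2 - y.2.1.1) y.2.1.1
      rw [zero_add, sub_add_cancel] at h2
      exact h2.1 y.2.2.2.2.2⟩)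
  have hk : ∀ y : (Σ k : ℕ, exI (Bx d k : Set (Vx d)) Set.univ), nm y.2.1.1 = y.1 := by
    rintro ⟨k, ⟨q, hq1, _, hq3, hq4⟩⟩
    have h2 : nm q.1 ≤ k := mem_Bx.1 (Finset.mem_coe.1 hq1)
    have h3 : ¬ nm q.2 ≤ k := fun hh => hq3 (Finset.mem_coe.2 (mem_Bx.2 hh))
    have h4 := nm_adj hq4
    change nm q.1 = k
    omega
  have hF : Function.Injective F := by
    intro y y' hyy
    have h2 : (F y).1 = (F y').1 := congrArg Prod.fst hyy
    have h3 : (F y).2.1 = (F y').2.1 := congrArg (fun z => z.2.1) hyy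
    change y.2.1.1 = y'.2.1.1 at h2
    change y.2.1.2 - y.2.1.1 = y'.2.1.2 - y'.2.1.1 at h3
    have h4 : y.2.1.2 = y'.2.1.2 := by
      rw [h2] at h3
      exact sub_left_inj.1 h3
    have h5 : y.1 = y'.1 := by rw [← hk y, ← hk y', h2]
    obtain ⟨k, q⟩ := y
    obtain ⟨k', q'⟩ := y'
    change k = k' at h5
    subst h5
    have h6 : q = q' := Subtype.ext (Prod.ext h2 h4)
    rw [h6]
  have h2 : (∑' _ : ℕ, (1 : ℝ≥0∞)) ≤ ∑' y, g y := by
    calc (∑' _ : ℕ, (1 : ℝ≥0∞)) ≤ ∑' k : ℕ, flux (pc d) (Bx d k : Set (Vx d)) 0 :=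
          ENNReal.tsum_le_tsum h1
      _ ≤ ∑' k : ℕ, ∑' q : exI (Bx d k : Set (Vx d)) Set.univ, g (F ⟨k, q⟩) := by
          refine ENNReal.tsum_le_tsum fun k => ?_
          unfold flux
          refine ENNReal.tsum_le_tsum fun q => ?_
          change _ ≤ tt (pc d) q.1.1 * ENNReal.ofReal (pc d)
          gcongr
          have h3 := tauI_le_tt hp hp1 (Bx d k : Set (Vx d)) 0 q.1.1
          rw [sub_zero] at h3
          exact h3
      _ = ∑' y : (Σ k : ℕ, exI (Bx d k : Set (Vx d)) Set.univ), g (F y) :=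
          (ENNReal.tsum_sigma' (fun y => g (F y))).symm
      _ ≤ ∑' y, g y := ENNReal.tsum_comp_le_tsum_of_injective hF g
  have h3 : ∑' y, g y = chi d (pc d) * (ENNReal.ofReal (pc d) * (2 * d : ℕ)) := by
    rw [ENNReal.tsum_prod']
    have h4 : ∀ u : Vx d, ∑' e : (nbr (0 : Vx d)), g (u, e) =
        tt (pc d) u * (ENNReal.ofReal (pc d) * (2 * d : ℕ)) := by
      intro u
      change ∑' _ : (nbr (0 : Vx d)), tt (pc d) u * ENNReal.ofReal (pc d) = _
      rw [tsum_fintype, Finset.sum_const, Finset.card_univ, Fintype.card_coe, card_nbr,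
        nsmul_eq_mul]
      ring
    simp_rw [h4]
    rw [ENNReal.tsum_mul_right]
    rfl
  rw [h3] at h2
  have h5 : (∑' _ : ℕ, (1 : ℝ≥0∞)) = ⊤ := ENNReal.tsum_const_eq_top_of_ne_zero one_ne_zero
  rw [h5, top_le_iff] at h2
  by_contra hcon
  exact (ENNReal.mul_ne_top hcon (ENNReal.mul_ne_top ENNReal.ofReal_ne_top
    (ENNReal.natCast_ne_top _))) h2

private lemma A19_chi_mono {p p' : ℝ} (hp : 0 ≤ p) (hpp : p ≤ p') (hp1 : p' ≤ 1) :
    chi d p ≤ chi d p' :=
  ENNReal.tsum_le_tsum fun x => tauI_mono_p hp hpp hp1 Set.univ 0 x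

private lemma A19_SL2 {p1 p2 r : ℝ} (h1 : 0 ≤ p1) (h1' : p1 ≤ 1) (hr : 0 ≤ r) (hr1 : r ≤ 1)
    (h : 1 - p2 = (1 - p1) * (1 - r)) :
    chi d p2 ≤ chi d p1 + ENNReal.ofReal r * ((2 * d : ℕ) * (chi d p1 * chi d p2)) := by
  classical
  have h2 : ∀ x : Vx d, tt p2 x ≤ tt p1 x + ENNReal.ofReal r *
      ∑' q : {q : Vx d × Vx d | q.1 ∈ (Set.univ : Set (Vx d)) ∧ q.2 ∈ (Set.univ : Set (Vx d)) ∧
        Adj q.1 q.2}, tt p1 q.1.1 * tt p2 (x - q.1.2) := by
    intro x
    refine (SL2I h1 h1' hr hr1 h Set.univ 0 x).trans (le_of_eq ?_)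
    congr 2
    refine tsum_congr fun q => ?_
    rw [tauI_univ p2 q.1.2 x]
    rfl
  have h3 : chi d p2 ≤ chi d p1 + ENNReal.ofReal r * ∑' x : Vx d,
      ∑' q : {q : Vx d × Vx d | q.1 ∈ (Set.univ : Set (Vx d)) ∧ q.2 ∈ (Set.univ : Set (Vx d)) ∧
        Adj q.1 q.2}, tt p1 q.1.1 * tt p2 (x - q.1.2) := by
    unfold chi
    rw [← ENNReal.tsum_mul_left, ← ENNReal.tsum_add]
    exact ENNReal.tsum_le_tsum h2
  refine h3.trans ?_
  gcongr
  rw [ENNReal.tsum_comm]
  have h4 : ∀ q : {q : Vx d × Vx d | q.1 ∈ (Set.univ : Set (Vx d)) ∧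
      q.2 ∈ (Set.univ : Set (Vx d)) ∧ Adj q.1 q.2},
      ∑' x : Vx d, tt p1 q.1.1 * tt p2 (x - q.1.2) = tt p1 q.1.1 * chi d p2 := by
    intro q
    rw [ENNReal.tsum_mul_left]
    congr 1
    exact (Equiv.subRight q.1.2).tsum_eq (fun x => tt p2 x)
  simp_rw [h4]
  rw [ENNReal.tsum_mul_right]
  rw [← mul_assoc]
  gcongr
  let G : {q : Vx d × Vx d | q.1 ∈ (Set.univ : Set (Vx d)) ∧
      q.2 ∈ (Set.univ : Set (Vx d)) ∧ Adj q.1 q.2} → Vx d × (nbr (0 : Vx d)) := fun q =>
    (q.1.1, ⟨q.1.2 - q.1.1, by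
      rw [mem_nbr]
      have h5 := adj_add (0 : Vx d) (q.1.2 - q.1.1) q.1.1
      rw [zero_add, sub_add_cancel] at h5
      exact h5.1 q.2.2.2⟩)
  have hG : Function.Injective G := by
    intro y y' hyy
    have h5 : (G y).1 = (G y').1 := congrArg Prod.fst hyy
    have h6 : (G y).2.1 = (G y').2.1 := congrArg (fun z => z.2.1) hyy
    change y.1.1 = y'.1.1 at h5
    change y.1.2 - y.1.1 = y'.1.2 - y'.1.1 at h6
    rw [h5] at h6
    exact Subtype.ext (Prod.ext h5 (sub_left_inj.1 h6))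
  have h5 := ENNReal.tsum_comp_le_tsum_of_injective hG (fun y => tt p1 y.1)
  refine h5.trans (le_of_eq ?_)
  rw [ENNReal.tsum_prod']
  have h6 : ∀ u : Vx d, ∑' _ : (nbr (0 : Vx d)), tt p1 u = (2 * d : ℕ) * tt p1 u := by
    intro u
    rw [tsum_fintype, Finset.sum_const, Finset.card_univ, Fintype.card_coe, card_nbr,
      nsmul_eq_mul]
  simp_rw [h6]
  rw [ENNReal.tsum_mul_left]
  rfl

/-- (C3). -/
theorem chi_ge (hd : 0 < d) (h : pc d < 1) (hp : 0 ≤ p) (hpp : p < pc d) :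
    ENNReal.ofReal ((1 - p) / (2 * d * (pc d - p))) ≤ chi d p := by
  classical
  by_contra hcon
  have hlt := not_le.1 hcon
  have hd' : (0 : ℝ) < d := by exact_mod_cast hd
  have h1p : 0 < 1 - p := by linarith
  have hpcp : 0 < pc d - p := by linarith
  have hXtop : chi d p ≠ ⊤ := (lt_of_lt_of_le hlt le_top).ne
  set X : ℝ := (chi d p).toReal with hX
  have hX0 : 0 ≤ X := ENNReal.toReal_nonneg
  have hXe : chi d p = ENNReal.ofReal X := (ENNReal.ofReal_toReal hXtop).symm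
  have hXlt : X < (1 - p) / (2 * d * (pc d - p)) := by
    rw [hXe] at hlt
    exact (ENNReal.ofReal_lt_ofReal_iff_of_nonneg hX0).1 hlt
  have hXlt' : 2 * d * ((pc d - p) / (1 - p)) * X < 1 := by
    rw [lt_div_iff₀ (by positivity)] at hXlt
    have e : 2 * d * ((pc d - p) / (1 - p)) * X = X * (2 * d * (pc d - p)) / (1 - p) := by ring
    rw [e, div_lt_one h1p]
    exact hXlt
  set a : ℝ := 2 * d * ((pc d - p) / (1 - p)) * X with ha
  have hbound : ∀ p2, p ≤ p2 → p2 < pc d → chi d p2 ≤ ENNReal.ofReal (X / (1 - a)) := by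
    intro p2 h2 h3
    have hp21 : p2 ≤ 1 := h3.le.trans h.le
    have hYtop : chi d p2 ≠ ⊤ := (sub_chi (hp.trans h2) hp21 (sub_of_lt (hp.trans h2) h3)).ne
    set Y : ℝ := (chi d p2).toReal with hY
    have hY0 : 0 ≤ Y := ENNReal.toReal_nonneg
    have hYe : chi d p2 = ENNReal.ofReal Y := (ENNReal.ofReal_toReal hYtop).symm
    have hr0 : 0 ≤ (p2 - p) / (1 - p) := div_nonneg (by linarith) h1p.le
    have hr1 : (p2 - p) / (1 - p) ≤ 1 := by
      rw [div_le_one h1p]
      linarith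
    have h4 := A19_SL2 (d := d) hp (by linarith) hr0 hr1 (p2 := p2) (by
      field_simp
      ring)
    rw [hYe, hXe, ← ENNReal.ofReal_mul hX0, ← ENNReal.ofReal_natCast, ← ENNReal.ofReal_mul
      (Nat.cast_nonneg _), ← ENNReal.ofReal_mul hr0, ← ENNReal.ofReal_add hX0 (by positivity),
      ENNReal.ofReal_le_ofReal_iff (by positivity)] at h4
    push_cast at h4
    have h5 : (p2 - p) / (1 - p) * (2 * d * (X * Y)) ≤ a * Y := by
      have h6 : (p2 - p) / (1 - p) ≤ (pc d - p) / (1 - p) := by gcongr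
      have e : a * Y = (pc d - p) / (1 - p) * (2 * d * (X * Y)) := by rw [ha]; ring
      rw [e]
      exact mul_le_mul_of_nonneg_right h6 (by positivity)
    rw [hYe]
    refine ENNReal.ofReal_le_ofReal ?_
    rw [le_div_iff₀ (by linarith)]
    nlinarith
  -- an increasing sequence with limit pc
  let ps : ℕ → ℝ := fun n => max p (pc d - 1 / ((n : ℝ) + 1))
  have hps1 : ∀ n, p ≤ ps n := fun n => le_max_left _ _
  have hps2 : ∀ n, ps n < pc d := fun n => max_lt hpp (by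
    have : (0 : ℝ) < 1 / ((n : ℝ) + 1) := by positivity
    linarith)
  have hpsm : Monotone ps := by
    intro n m hnm
    refine max_le_max (le_refl _) ?_
    have h6 : (n : ℝ) ≤ m := by exact_mod_cast hnm
    have : 1 / ((m : ℝ) + 1) ≤ 1 / ((n : ℝ) + 1) := by
      apply one_div_le_one_div_of_le
      · positivity
      · linarith
    linarith
  have htt : ∀ x : Vx d, tt (pc d) x ≤ ⨆ n, tt (ps n) x := by
    intro x
    refine tauI_left (A19_pos hd) Set.univ 0 x ?_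
    intro p' hp' hp'2
    obtain ⟨n, hn⟩ := exists_nat_one_div_lt (show 0 < pc d - p' by linarith)
    refine le_trans ?_ (le_iSup (fun n => tt (ps n) x) n)
    refine tauI_mono_p hp' ?_ ((hps2 n).le.trans h.le) Set.univ 0 x
    exact le_trans (by linarith) (le_max_right _ _)
  have hchi : chi d (pc d) ≤ ENNReal.ofReal (X / (1 - a)) := by
    unfold chi
    rw [ENNReal.tsum_eq_iSup_sum]
    refine iSup_le fun s => ?_
    calc ∑ x ∈ s, tt (pc d) x ≤ ∑ x ∈ s, ⨆ n, tt (ps n) x :=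
          Finset.sum_le_sum fun x _ => htt x
      _ = ⨆ n, ∑ x ∈ s, tt (ps n) x := by
          refine ENNReal.finsetSum_iSup_of_monotone fun x n m hnm => ?_
          exact tauI_mono_p (hp.trans (hps1 n)) (hpsm hnm) ((hps2 m).le.trans h.le) Set.univ 0 x
      _ ≤ ENNReal.ofReal (X / (1 - a)) := by
          refine iSup_le fun n => ?_
          exact (ENNReal.sum_le_tsum s).trans (hbound (ps n) (hps1 n) (hps2 n))
  rw [chi_pc hd h, top_le_iff] at hchi
  exact ENNReal.ofReal_ne_top hchi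

end Pool.Agent.HD
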