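import Pool.Agent.Lib.MP_8ca597_hd.BDefs

/-!
# Row B01: calculus of convolutions

All in `[0, ∞]`: `ENNReal.tsum_comm`, `ENNReal.tsum_mul_left`, reindexing by equivalences
(`Equiv.tsum_eq`).
-/

set_option autoImplicit false

namespace Pool.Agent.HD

open Finset
open scoped ENNReal

section

variable {n : ℕ} {f g h : Vx n → ℝ≥0∞}

theorem cv_comm (f g : Vx n → ℝ≥0∞) : cv f g = cv g f := by
  funext x
  unfold cv
  rw [← (Equiv.subLeft x).tsum_eq (fun y => f y * g (x - y))]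
  apply tsum_congr
  intro y
  simp only [Equiv.subLeft_apply, sub_sub_cancel]
  exact mul_comm _ _

theorem cv_assoc (f g h : Vx n → ℝ≥0∞) : cv (cv f g) h = cv f (cv g h) := by
  funext x
  unfold cv
  calc ∑' y, (∑' z, f z * g (y - z)) * h (x - y)
      = ∑' y, ∑' z, f z * g (y - z) * h (x - y) := by
        apply tsum_congr; intro y; rw [ENNReal.tsum_mul_right]
    _ = ∑' z, ∑' y, f z * g (y - z) * h (x - y) := ENNReal.tsum_comm
    _ = ∑' z, f z * ∑' y, g y * h (x - z - y) := by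
        apply tsum_congr; intro z
        rw [← ENNReal.tsum_mul_left, ← (Equiv.addRight z).tsum_eq]
        apply tsum_congr; intro y
        simp only [Equiv.coe_addRight, add_sub_cancel_right]
        rw [mul_assoc, sub_sub, add_comm z y]

theorem dl_cv (f : Vx n → ℝ≥0∞) : cv dl f = f := by
  funext x
  unfold cv
  rw [tsum_eq_single 0]
  · simp [dl]
  · intro y hy; simp [dl, hy]

theorem cv_dl (f : Vx n → ℝ≥0∞) : cv f dl = f := by
  rw [cv_comm, dl_cv]

theorem cv_mono {f f' g g' : Vx n → ℝ≥0∞} (hf : ∀ x, f x ≤ f' x) (hg : ∀ x, g x ≤ g' x)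
    (x : Vx n) : cv f g x ≤ cv f' g' x :=
  ENNReal.tsum_le_tsum fun y => mul_le_mul' (hf y) (hg (x - y))

theorem cv_add (f g h : Vx n → ℝ≥0∞) (x : Vx n) :
    cv f (fun y => g y + h y) x = cv f g x + cv f h x := by
  unfold cv
  rw [← ENNReal.tsum_add]
  apply tsum_congr; intro y; rw [mul_add]

theorem add_cv (f g h : Vx n → ℝ≥0∞) (x : Vx n) :
    cv (fun y => f y + g y) h x = cv f h x + cv g h x := by
  unfold cv
  rw [← ENNReal.tsum_add]
  apply tsum_congr; intro y; rw [add_mul]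

theorem cv_smul (c : ℝ≥0∞) (f g : Vx n → ℝ≥0∞) (x : Vx n) :
    cv f (fun y => c * g y) x = c * cv f g x := by
  unfold cv
  rw [← ENNReal.tsum_mul_left]
  apply tsum_congr; intro y; rw [mul_left_comm]

theorem smul_cv (c : ℝ≥0∞) (f g : Vx n → ℝ≥0∞) (x : Vx n) :
    cv (fun y => c * f y) g x = c * cv f g x := by
  unfold cv
  rw [← ENNReal.tsum_mul_left]
  apply tsum_congr; intro y; rw [mul_assoc]

theorem cv_sum {ι : Type} (s : Finset ι) (f : Vx n → ℝ≥0∞) (g : ι → Vx n → ℝ≥0∞) (x : Vx n) :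
    cv f (fun y => ∑ i ∈ s, g i y) x = ∑ i ∈ s, cv f (g i) x := by
  classical
  induction s using Finset.induction_on with
  | empty => simp [cv]
  | insert a s ha ih =>
    rw [Finset.sum_insert ha, ← ih, ← cv_add]
    simp only [Finset.sum_insert ha]

theorem cpw_one (f : Vx n → ℝ≥0∞) : cpw f 1 = f := by
  show cv f dl = f
  exact cv_dl f

theorem cpw_add (f : Vx n → ℝ≥0∞) (a b : ℕ) : cpw f (a + b) = cv (cpw f a) (cpw f b) := by
  induction a with
  | zero => rw [Nat.zero_add]; exact (dl_cv _).symm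
  | succ a ih =>
    rw [Nat.succ_add]
    show cv f (cpw f (a + b)) = cv (cv f (cpw f a)) (cpw f b)
    rw [ih, cv_assoc]

theorem cpw_mono {f g : Vx n → ℝ≥0∞} (h : ∀ x, f x ≤ g x) (k : ℕ) (x : Vx n) :
    cpw f k x ≤ cpw g k x := by
  induction k generalizing x with
  | zero => exact le_rfl
  | succ k ih => exact cv_mono h ih x

theorem tsum_cv (f g : Vx n → ℝ≥0∞) : ∑' x, cv f g x = (∑' x, f x) * ∑' x, g x := by
  unfold cv
  rw [ENNReal.tsum_comm, ← ENNReal.tsum_mul_right]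
  apply tsum_congr; intro y
  rw [ENNReal.tsum_mul_left]
  congr 1
  exact (Equiv.subRight y).tsum_eq g

theorem tsum_dl : ∑' x : Vx n, dl x = 1 := by
  rw [tsum_eq_single 0]
  · simp [dl]
  · intro y hy; simp [dl, hy]

theorem tsum_cpw (f : Vx n → ℝ≥0∞) (k : ℕ) : ∑' x, cpw f k x = (∑' x, f x) ^ k := by
  induction k with
  | zero => rw [pow_zero]; exact tsum_dl
  | succ k ih =>
    show ∑' x, cv f (cpw f k) x = _
    rw [tsum_cv, ih, pow_succ']

theorem cv_le_sup (f g : Vx n → ℝ≥0∞) {c : ℝ≥0∞} (h : ∀ x, g x ≤ c) (x : Vx n) :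
    cv f g x ≤ (∑' y, f y) * c := by
  unfold cv
  rw [← ENNReal.tsum_mul_right]
  exact ENNReal.tsum_le_tsum fun y => mul_le_mul' le_rfl (h _)

/-- Additive automorphisms. -/
theorem cv_equiv (σ : Vx n ≃+ Vx n) (hf : ∀ x, f (σ x) = f x) (hg : ∀ x, g (σ x) = g x)
    (x : Vx n) : cv f g (σ x) = cv f g x := by
  unfold cv
  rw [← σ.toEquiv.tsum_eq]
  apply tsum_congr; intro y
  have h1 : σ.toEquiv y = σ y := rfl
  rw [h1, hf, ← map_sub, hg]

theorem cpw_equiv (σ : Vx n ≃+ Vx n) (hf : ∀ x, f (σ x) = f x) (k : ℕ) (x : Vx n) :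
    cpw f k (σ x) = cpw f k x := by
  induction k generalizing x with
  | zero =>
    show dl (σ x) = dl x
    unfold dl
    simp
  | succ k ih => exact cv_equiv σ hf ih x

theorem cv_neg (hf : ∀ x, f (-x) = f x) (hg : ∀ x, g (-x) = g x) (x : Vx n) :
    cv f g (-x) = cv f g x :=
  cv_equiv (AddEquiv.neg (Vx n)) hf hg x

theorem cpw_neg (hf : ∀ x, f (-x) = f x) (k : ℕ) (x : Vx n) : cpw f k (-x) = cpw f k x :=
  cpw_equiv (AddEquiv.neg (Vx n)) hf k x

end

end Pool.Agent.HD
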