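import Pool.Agent.Lib.MP_8ca597_hd.BDefs
import Pool.Agent.Lib.MP_8ca597_hd.A13

/-!
# Row B02: symmetries of the two-point function and of the half-space sums

Automorphisms `x ↦ ε_i x (π i)`. `lev_rev`: translate by `-z`: a point `z` at depth `l` below the
plane of `0` in `Hf e 1` becomes the point `-z` on the top plane of `Hf e (l + 1)`.
-/

set_option autoImplicit false

namespace Pool.Agent.HD

open Finset
open scoped ENNReal

variable {d : ℕ} {p : ℝ}

/-- The signed permutations as additive automorphisms. -/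
def sp (π : Equiv.Perm (Fin d)) (ε : Fin d → ℤˣ) : Vx d ≃+ Vx d where
  toFun x i := (ε i : ℤ) * x (π i)
  invFun y j := ((ε (π.symm j))⁻¹ : ℤˣ) * y (π.symm j)
  left_inv x := by
    funext j
    simp [← mul_assoc]
  right_inv y := by
    funext i
    simp [← mul_assoc]
  map_add' x y := by
    funext i
    simp [mul_add]

theorem sp_adj (π : Equiv.Perm (Fin d)) (ε : Fin d → ℤˣ) (x y : Vx d) :
    Adj (sp π ε x) (sp π ε y) ↔ Adj x y := by
  refine adj_signed π (fun i => (ε i : ℤ)) (fun i => ?_) x y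
  rcases Int.units_eq_one_or (ε i) with h | h
  · left; rw [h]; rfl
  · right; rw [h]; rfl

theorem tt_sp (p : ℝ) (π : Equiv.Perm (Fin d)) (ε : Fin d → ℤˣ) (x : Vx d) :
    tt p (sp π ε x) = tt p x := by
  unfold tt
  have h := tauI_equiv p (sp π ε).toEquiv (fun x y => sp_adj π ε x y) Set.univ 0 x
  rw [Set.image_univ, Equiv.range_eq_univ] at h
  have h0 : (sp π ε).toEquiv 0 = 0 := (sp π ε).map_zero
  rw [h0] at h
  exact h

theorem nm_sp (π : Equiv.Perm (Fin d)) (ε : Fin d → ℤˣ) (x : Vx d) :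
    nm (sp π ε x) = nm x := by
  have h : ∀ i, ((sp π ε x) i).natAbs = (x (π i)).natAbs := by
    intro i
    show ((ε i : ℤ) * x (π i)).natAbs = _
    rw [Int.natAbs_mul, Int.units_natAbs, one_mul]
  apply le_antisymm
  · refine A12_nm_le fun i => ?_
    rw [h]
    exact A12_natAbs_le x (π i)
  · refine A12_nm_le fun i => ?_
    have h1 := A12_natAbs_le (sp π ε x) (π.symm i)
    rwa [h, Equiv.apply_symm_apply] at h1

theorem tw_sp (p : ℝ) (π : Equiv.Perm (Fin d)) (ε : Fin d → ℤˣ) (x : Vx d) :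
    tw p (sp π ε x) = tw p x := by
  unfold tw
  rw [nm_sp, tt_sp]

theorem tw_neg (p : ℝ) (x : Vx d) : tw p (-x) = tw p x := by
  unfold tw
  rw [nm_neg, tt_neg]

theorem tt_le_tw (p : ℝ) (x : Vx d) : tt p x ≤ tw p x := by
  unfold tw
  refine le_mul_of_one_le_left (zero_le) ?_
  exact one_le_pow₀ le_self_add

/-- Every direction is the image of a given direction. -/
theorem exists_sp (e e' : Dir d) : ∃ (π : Equiv.Perm (Fin d)) (ε : Fin d → ℤˣ),
    ∀ z : Vx d, dt (sp π ε z) e' = dt z e := by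
  refine ⟨Equiv.swap e.1 e'.1, fun _ => if e.2 = e'.2 then 1 else -1, fun z => ?_⟩
  unfold dt
  show sg e'.2 * (((if e.2 = e'.2 then 1 else -1 : ℤˣ) : ℤ) * z (Equiv.swap e.1 e'.1 e'.1)) = _
  rw [Equiv.swap_apply_right]
  rcases e with ⟨i, b⟩
  rcases e' with ⟨j, c⟩
  cases b <;> cases c <;> simp [sg]

theorem uv_adj (e : Dir d) (x : Vx d) : Adj x (x + uv e) := by
  unfold Adj
  rw [Finset.sum_eq_single e.1]
  · rw [Pi.add_apply]
    unfold uv
    rw [Pi.single_eq_same, sub_add_cancel_left, abs_neg]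
    unfold sg
    split_ifs <;> rfl
  · intro i _ hi
    rw [Pi.add_apply]
    unfold uv
    rw [Pi.single_eq_of_ne hi, add_zero, sub_self, abs_zero]
  · intro h
    exact absurd (Finset.mem_univ _) h

/-- All neighbours are of this form. -/
theorem adj_iff_uv (x y : Vx d) : Adj x y ↔ ∃ e : Dir d, y = x + uv e := by
  constructor
  · intro h
    obtain ⟨i, b, h⟩ := A12_adj_iff.1 h
    refine ⟨(i, b), ?_⟩
    rw [h]
    funext j
    rw [Pi.add_apply]
    unfold uv
    by_cases hj : j = i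
    · subst hj
      rw [Function.update_self, Pi.single_eq_same]
      rfl
    · rw [Function.update_of_ne hj, Pi.single_eq_of_ne hj, add_zero]
  · rintro ⟨e, rfl⟩
    exact uv_adj e x

theorem dt_add (x y : Vx d) (e : Dir d) : dt (x + y) e = dt x e + dt y e := by
  unfold dt
  rw [Pi.add_apply, mul_add]

theorem dt_neg (x : Vx d) (e : Dir d) : dt (-x) e = -dt x e := by
  unfold dt
  rw [Pi.neg_apply, mul_neg]

theorem dt_uv (e : Dir d) : dt (uv e) e = 1 := by
  unfold dt uv
  rw [Pi.single_eq_same]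
  unfold sg
  split_ifs <;> rfl

theorem dt_uv_le (e e' : Dir d) (h : e ≠ e') : dt (uv e) e' ≤ 0 := by
  unfold dt uv
  by_cases h1 : e'.1 = e.1
  · rw [h1, Pi.single_eq_same]
    have h2 : e.2 ≠ e'.2 := fun h2 => h (Prod.ext h1.symm h2)
    unfold sg
    cases hb : e.2 <;> cases hc : e'.2
    · exact absurd (hb.trans hc.symm) h2
    · simp
    · simp
    · exact absurd (hb.trans hc.symm) h2
  · rw [Pi.single_eq_of_ne h1, mul_zero]

theorem abs_dt_le (z : Vx d) (e : Dir d) : |dt z e| ≤ nm z := by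
  unfold dt
  rw [abs_mul]
  have h1 : |sg e.2| = 1 := by unfold sg; split_ifs <;> rfl
  rw [h1, one_mul, Int.abs_eq_natAbs]
  exact_mod_cast A12_natAbs_le z e.1

theorem lev_dir (p : ℝ) (e e' : Dir d) (r : ℤ) (l : ℕ) : lev p e r l = lev p e' r l := by
  obtain ⟨π, ε, h⟩ := exists_sp e e'
  unfold lev
  have hE : ∀ z : Vx d, dt z e = r - 1 - l ↔ dt ((sp π ε).toEquiv z) e' = r - 1 - l := by
    intro z
    show _ ↔ dt (sp π ε z) e' = _
    rw [h]
  have hi : (sp π ε).toEquiv '' Hf e r = Hf e' r := by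
    ext z
    constructor
    · rintro ⟨w, hw, rfl⟩
      show dt (sp π ε w) e' ≤ r - 1
      rw [h]
      exact hw
    · intro hz
      refine ⟨(sp π ε).toEquiv.symm z, ?_, Equiv.apply_symm_apply _ z⟩
      show dt _ e ≤ r - 1
      rw [← h]
      have : sp π ε ((sp π ε).toEquiv.symm z) = z := (sp π ε).toEquiv.apply_symm_apply z
      rw [this]
      exact hz
  refine Eq.trans ?_ ((Equiv.subtypeEquiv (sp π ε).toEquiv hE).tsum_eq
    (fun z : {z : Vx d // dt z e' = r - 1 - l} => tauI p (Hf e' r) 0 z.1))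
  refine tsum_congr fun z => ?_
  have h1 := tauI_equiv p (sp π ε).toEquiv (fun x y => sp_adj π ε x y) (Hf e r) 0 z.1
  have h0 : (sp π ε).toEquiv 0 = 0 := (sp π ε).map_zero
  rw [hi, h0] at h1
  exact h1.symm

theorem ff_dir (p : ℝ) (e e' : Dir d) (r : ℤ) : ff p e r = ff p e' r := by
  unfold ff
  rw [lev_dir p e e' r 0]

private theorem B02_exit {e : Dir d} {r : ℤ} {q : Vx d × Vx d} (h1 : dt q.1 e ≤ r - 1)
    (h2 : ¬ dt q.2 e ≤ r - 1) (h3 : Adj q.1 q.2) : dt q.1 e = r - 1 ∧ q.2 = q.1 + uv e := by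
  obtain ⟨e', he⟩ := (adj_iff_uv q.1 q.2).1 h3
  rw [he, dt_add] at h2
  by_cases hee : e' = e
  · subst hee
    rw [dt_uv] at h2
    exact ⟨by omega, he⟩
  · have := dt_uv_le e' e hee
    omega

theorem ff_eq_flux (p : ℝ) (e : Dir d) (r : ℤ) (hr : 1 ≤ r) : ff p e r = flux p (Hf e r) 0 := by
  unfold ff lev flux
  let E : {z : Vx d // dt z e = r - 1 - (0 : ℕ)} ≃ exI (Hf e r) Set.univ :=
    { toFun := fun z => ⟨(z.1, z.1 + uv e), by
        have hz : dt z.1 e = r - 1 := by
          have := z.2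
          simpa using this
        refine ⟨?_, Set.mem_univ _, ?_, uv_adj e z.1⟩
        · show dt z.1 e ≤ r - 1
          exact hz.le
        · show ¬ dt (z.1 + uv e) e ≤ r - 1
          rw [dt_add, dt_uv]
          omega⟩
      invFun := fun q => ⟨q.1.1, by
        obtain ⟨h1, -, h2, h3⟩ := q.2
        have := (B02_exit h1 h2 h3).1
        rw [Nat.cast_zero, sub_zero]
        exact this⟩
      left_inv := fun z => rfl
      right_inv := fun q => by
        obtain ⟨h1, -, h2, h3⟩ := q.2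
        have := (B02_exit h1 h2 h3).2
        exact Subtype.ext (Prod.ext rfl this.symm) }
  rw [← E.tsum_eq, ENNReal.tsum_mul_right, mul_comm]
  rfl

theorem lev_rev (p : ℝ) (e : Dir d) (l : ℕ) : lev p e 1 l = lev p e (l + 1) 0 := by
  unfold lev
  have hE : ∀ z : Vx d, dt z e = 1 - 1 - (l : ℤ) ↔
      dt (Equiv.neg (Vx d) z) e = (l : ℤ) + 1 - 1 - (0 : ℕ) := by
    intro z
    rw [Equiv.neg_apply, dt_neg, Nat.cast_zero]
    constructor <;> intro h <;> omega
  refine Eq.trans ?_ ((Equiv.subtypeEquiv (Equiv.neg (Vx d)) hE).tsum_eq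
    (fun z : {z : Vx d // dt z e = (l : ℤ) + 1 - 1 - (0 : ℕ)} =>
      tauI p (Hf e ((l : ℤ) + 1)) 0 z.1))
  refine tsum_congr fun z => ?_
  have h1 := tauI_add p (Hf e 1) 0 z.1 (-z.1)
  rw [zero_add, add_neg_cancel] at h1
  have hi : (· + -z.1) '' Hf e 1 = Hf e ((l : ℤ) + 1) := by
    have hz := z.2
    ext w
    constructor
    · rintro ⟨u, hu, rfl⟩
      have hu' : dt u e ≤ 1 - 1 := hu
      show dt (u + -z.1) e ≤ (l : ℤ) + 1 - 1
      rw [dt_add, dt_neg]
      omega
    · intro hw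
      have hw' : dt w e ≤ (l : ℤ) + 1 - 1 := hw
      refine ⟨w + z.1, ?_, by simp⟩
      show dt (w + z.1) e ≤ 1 - 1
      rw [dt_add]
      omega
  rw [hi, tauI_symm] at h1
  exact h1.symm

end Pool.Agent.HD
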