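import Pool.Agent.Lib.MP_8ca597_hd.B02
import Pool.Agent.Lib.MP_8ca597_hd.A14

/-!
# Row B03: levels of half-spaces

`lev_step`: `SLI` with `W = Hf e r`, `S = Hf e (r - 1)` for every `z` at depth `l ≥ 1` below the top
plane of `Hf e r`; the exits lead to the top plane of `Hf e r`, and by translation the sum over `z`
of `tauI p (Hf e r) v z` is `lev p e 1 l = lev p e (l + 1) 0`. `lev_le`: induction on `r`.
-/

set_option autoImplicit false

namespace Pool.Agent.HD

open Finset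
open scoped ENNReal

variable {d : ℕ} {p : ℝ}

private theorem B03_exit {e : Dir d} {r : ℤ} {q : Vx d × Vx d} (h1 : dt q.1 e ≤ r - 1)
    (h2 : ¬ dt q.2 e ≤ r - 1) (h3 : Adj q.1 q.2) : dt q.2 e = r := by
  obtain ⟨e', he⟩ := (adj_iff_uv q.1 q.2).1 h3
  rw [he, dt_add] at h2 ⊢
  by_cases hee : e' = e
  · subst hee
    rw [dt_uv] at h2 ⊢
    omega
  · have := dt_uv_le e' e hee
    omega

private theorem B03_at (p : ℝ) (e : Dir d) (r : ℤ) (l : ℕ) (v : Vx d) :
    ∑' z : {z : Vx d // dt z e = r - 1 - l}, tauI p (Hf e r) v z = lev p e (r - dt v e) l := by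
  unfold lev
  have hE : ∀ z : Vx d, dt z e = r - 1 - l ↔
      dt (Equiv.addRight (-v) z) e = r - dt v e - 1 - l := by
    intro z
    rw [Equiv.coe_addRight, dt_add, dt_neg]
    constructor <;> intro h <;> omega
  refine Eq.trans ?_ ((Equiv.subtypeEquiv (Equiv.addRight (-v)) hE).tsum_eq
    (fun z : {z : Vx d // dt z e = r - dt v e - 1 - l} => tauI p (Hf e (r - dt v e)) 0 z.1))
  refine tsum_congr fun z => ?_
  have h1 := tauI_add p (Hf e r) v z.1 (-v)
  rw [add_neg_cancel] at h1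
  have hi : (· + -v) '' Hf e r = Hf e (r - dt v e) := by
    ext w
    constructor
    · rintro ⟨u, hu, rfl⟩
      have hu' : dt u e ≤ r - 1 := hu
      show dt (u + -v) e ≤ r - dt v e - 1
      rw [dt_add, dt_neg]
      omega
    · intro hw
      have hw' : dt w e ≤ r - dt v e - 1 := hw
      refine ⟨w + v, ?_, by simp⟩
      show dt (w + v) e ≤ r - 1
      rw [dt_add]
      omega
  rw [hi] at h1
  exact h1.symm

private theorem B03_zero (e : Dir d) : dt (0 : Vx d) e = 0 := by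
  unfold dt
  rw [Pi.zero_apply, mul_zero]

/-- The basic inequality: the sum of SLI over the points of a level. -/
private theorem B03_main (hp : 0 ≤ p) (hp1 : p ≤ 1) (e : Dir d) {r s : ℤ} (hr : 1 ≤ r)
    (hrs : r ≤ s) (l : ℕ) :
    lev p e s l ≤ ∑' z : {z : Vx d // dt z e = s - 1 - l}, tauI p (Hf e r) 0 z
      + ff p e r * lev p e (s - r) l := by
  have hS : Hf e r ⊆ Hf e s := fun z hz => by
    have hz' : dt z e ≤ r - 1 := hz
    show dt z e ≤ s - 1
    omega
  have h0 : (0 : Vx d) ∈ Hf e r := by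
    show dt (0 : Vx d) e ≤ r - 1
    rw [B03_zero]
    omega
  have h1 : lev p e s l ≤ ∑' z : {z : Vx d // dt z e = s - 1 - l}, (tauI p (Hf e r) 0 z
      + ∑' q : exI (Hf e r) (Hf e s), tauI p (Hf e r) 0 q.1.1 * ENNReal.ofReal p *
        tauI p (Hf e s) q.1.2 z) :=
    ENNReal.tsum_le_tsum fun z => SLI hp hp1 hS h0 z.1
  refine h1.trans ?_
  rw [ENNReal.tsum_add]
  refine add_le_add le_rfl ?_
  rw [ENNReal.tsum_comm]
  have h2 : ∀ q : exI (Hf e r) (Hf e s), ∑' z : {z : Vx d // dt z e = s - 1 - l},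
      tauI p (Hf e r) 0 q.1.1 * ENNReal.ofReal p * tauI p (Hf e s) q.1.2 z
      = tauI p (Hf e r) 0 q.1.1 * ENNReal.ofReal p * lev p e (s - r) l := by
    intro q
    obtain ⟨h3, h4, h5, h6⟩ := q.2
    rw [ENNReal.tsum_mul_left, B03_at, B03_exit h3 h5 h6]
  rw [tsum_congr h2, ENNReal.tsum_mul_right, ff_eq_flux p e r hr]
  refine mul_le_mul_left ?_ _
  unfold flux
  exact ENNReal.tsum_mono_subtype
    (fun q : Vx d × Vx d => tauI p (Hf e r) 0 q.1 * ENNReal.ofReal p)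
    (fun q hq => ⟨hq.1, Set.mem_univ _, hq.2.2⟩)

theorem lev_step (hp : 0 ≤ p) (hp1 : p ≤ 1) (e : Dir d) {r : ℤ} (hr : 2 ≤ r) (l : ℕ) :
    lev p e r (l + 1) ≤ lev p e (r - 1) l + ff p e (r - 1) * lev p e (l + 2) 0 := by
  have h := B03_main hp hp1 e (r := r - 1) (s := r) (by omega) (by omega) (l + 1)
  have h1 : r - (r - 1) = 1 := by ring
  rw [h1, lev_rev] at h
  have h2 : ((l + 1 : ℕ) : ℤ) + 1 = (l : ℤ) + 2 := by push_cast; ring
  rw [h2] at h
  refine h.trans (add_le_add (le_of_eq ?_) le_rfl)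
  unfold lev
  have hE : ∀ z : Vx d, dt z e = r - 1 - ((l + 1 : ℕ) : ℤ) ↔
      dt (Equiv.refl (Vx d) z) e = r - 1 - 1 - (l : ℤ) := by
    intro z
    rw [Equiv.refl_apply]
    constructor <;> intro h <;> push_cast at h ⊢ <;> omega
  exact (Equiv.subtypeEquiv (Equiv.refl (Vx d)) hE).tsum_eq
    (fun z : {z : Vx d // dt z e = r - 1 - 1 - (l : ℤ)} => tauI p (Hf e (r - 1)) 0 z.1)

theorem lev_le (hp : 0 ≤ p) (hp1 : p ≤ 1) {F N : ℝ≥0∞} (hF : 1 ≤ F)
    (h1 : ∀ (e : Dir d) (r : ℤ), 1 ≤ r → ff p e r ≤ F)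
    (h2 : ∀ (e : Dir d) (r : ℤ), 1 ≤ r → lev p e r 0 ≤ N) (e : Dir d) {r : ℤ} (hr : 1 ≤ r)
    (l : ℕ) : lev p e r l ≤ (l + 1) * F * N := by
  have hFN : N ≤ F * N := le_mul_of_one_le_left (zero_le) hF
  induction l generalizing r with
  | zero =>
    rw [Nat.cast_zero, zero_add, one_mul]
    exact (h2 e r hr).trans hFN
  | succ l ih =>
    have h3 : ((l + 1 : ℕ) : ℝ≥0∞) + 1 = ((l : ℝ≥0∞) + 1) + 1 := by push_cast; ring
    rw [h3, add_mul, add_mul, one_mul]
    by_cases hr2 : 2 ≤ r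
    · refine (lev_step hp hp1 e hr2 l).trans ?_
      exact add_le_add (ih (by omega)) (mul_le_mul' (h1 e (r - 1) (by omega))
        (h2 e (l + 2) (by omega)))
    · have hr1 : r = 1 := by omega
      rw [hr1, lev_rev]
      exact ((h2 e _ (by omega)).trans hFN).trans le_add_self

/-- Submultiplicativity. -/
theorem ff_submul (hp : 0 ≤ p) (hp1 : p ≤ 1) (e : Dir d) {r s : ℤ} (hr : 1 ≤ r) (hs : 1 ≤ s) :
    ff p e (r + s) ≤ ff p e r * ff p e s := by
  have h := B03_main hp hp1 e (r := r) (s := r + s) hr (by omega) 0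
  have h1 : r + s - r = s := by ring
  rw [h1] at h
  have h2 : ∑' z : {z : Vx d // dt z e = r + s - 1 - (0 : ℕ)}, tauI p (Hf e r) 0 z = 0 := by
    rw [ENNReal.tsum_eq_zero]
    intro z
    refine tauI_zero_right p ?_ 0
    intro hz
    have hz' : dt z.1 e ≤ r - 1 := hz
    have := z.2
    rw [this] at hz'
    rw [Nat.cast_zero] at hz'
    omega
  rw [h2, zero_add] at h
  have h3 : ff p e (r + s) = ENNReal.ofReal p * lev p e (r + s) 0 := rfl
  have h4 : ff p e s = ENNReal.ofReal p * lev p e s 0 := rfl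
  rw [h3, h4]
  refine (mul_le_mul_right h _).trans (le_of_eq ?_)
  ring

end Pool.Agent.HD
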