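import Pool.Agent.Lib.MP_8ca597_hd.A08
import Pool.Agent.Lib.MP_8ca597_hd.A10
import Pool.Agent.Lib.MP_8ca597_hd.A11

/-!
# Row B04: the Bonferroni bound in a finite domain

From `bonf`: by `OFF` (in `V`, with `K = cl T S a`)
`tau p V q.2 x ≤ tau p (V \ K) q.2 x + ∑_{c ∈ K} tau p V q.2 c * tau p V c x`; take the expectation of
`1_{q.1 ∈ K}` times this. For the pairs use `TG` in `V \ K` from `x` (with `tau_mono`, `tau_symm`).
-/

set_option autoImplicit false

namespace Pool.Agent.HD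

open Finset
open scoped ENNReal

variable {d : ℕ} {p : ℝ}

private theorem B04_symm (p : ℝ) (V : Finset (Vx d)) (x y : Vx d) : tau p V x y = tau p V y x :=
  PP_congr fun _ _ => ⟨fun h => Conn.symm h, fun h => Conn.symm h⟩

private theorem B04_first (hp : 0 ≤ p) (hp1 : p ≤ 1 / 2) {S V : Finset (Vx d)} (a x : Vx d)
    (q : Vx d × Vx d) : tau p S a q.1 * p * tau p V q.2 x ≤
      EE p (edges S) (fun T => if q.1 ∈ cl T S a then p * tau p (V \ cl T S a) q.2 x else 0) +
      ∑ c ∈ S, p * PP p (edges S) {T | Conn T S a q.1 ∧ Conn T S a c} *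
        (tau p V q.2 c * tau p V c x) := by
  classical
  have hp1' : p ≤ 1 := by linarith
  have h1 : tau p S a q.1 * p * tau p V q.2 x =
      EE p (edges S) (fun T => if q.1 ∈ cl T S a then p * tau p V q.2 x else 0) := by
    rw [tau_eq_EE, mul_assoc, ← EE_mul_const]
    refine EE_congr fun T _ => ?_
    by_cases h : q.1 ∈ cl T S a
    · rw [if_pos h, if_pos h, one_mul]
    · rw [if_neg h, if_neg h, zero_mul]
  have h2 : ∑ c ∈ S, p * PP p (edges S) {T | Conn T S a q.1 ∧ Conn T S a c} *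
        (tau p V q.2 c * tau p V c x) =
      EE p (edges S) (fun T => if q.1 ∈ cl T S a then
        p * ∑ c ∈ cl T S a, tau p V q.2 c * tau p V c x else 0) := by
    have h3 : ∀ c ∈ S, p * PP p (edges S) {T | Conn T S a q.1 ∧ Conn T S a c} *
        (tau p V q.2 c * tau p V c x) = EE p (edges S) (fun T =>
          if q.1 ∈ cl T S a ∧ c ∈ cl T S a then p * (tau p V q.2 c * tau p V c x) else 0) := by
      intro c _
      rw [PP_def, mul_comm p, mul_assoc, ← EE_mul_const]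
      refine EE_congr fun T _ => ?_
      by_cases h : q.1 ∈ cl T S a ∧ c ∈ cl T S a
      · rw [if_pos h, if_pos (show T ∈ {T : Finset (Ed d) | Conn T S a q.1 ∧ Conn T S a c} from
          ⟨mem_cl.1 h.1, mem_cl.1 h.2⟩), one_mul]
      · rw [if_neg h, if_neg (show T ∉ {T : Finset (Ed d) | Conn T S a q.1 ∧ Conn T S a c} from
          fun h' => h ⟨mem_cl.2 h'.1, mem_cl.2 h'.2⟩), zero_mul]
    rw [Finset.sum_congr rfl h3, ← EE_sum]
    refine EE_congr fun T _ => ?_
    by_cases h : q.1 ∈ cl T S a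
    · rw [if_pos h, Finset.mul_sum]
      have h4 : ∀ c ∈ S, (if q.1 ∈ cl T S a ∧ c ∈ cl T S a then
          p * (tau p V q.2 c * tau p V c x) else 0) =
          if c ∈ cl T S a then p * (tau p V q.2 c * tau p V c x) else 0 := by
        intro c _
        simp only [h, true_and]
      rw [Finset.sum_congr rfl h4, ← Finset.sum_filter]
      congr 1
      ext c
      rw [Finset.mem_filter]
      exact ⟨fun h => h.2, fun h => ⟨cl_subset T S a h, h⟩⟩
    · rw [if_neg h]
      refine Finset.sum_eq_zero fun c _ => ?_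
      rw [if_neg (fun h' => h h'.1)]
  rw [h1, h2, ← EE_add]
  refine EE_mono hp hp1' fun T _ => ?_
  by_cases h : q.1 ∈ cl T S a
  · rw [if_pos h, if_pos h, if_pos h, ← mul_add]
    exact mul_le_mul_of_nonneg_left (OFF hp hp1 V (cl T S a) q.2 x) hp
  · rw [if_neg h, if_neg h, if_neg h, add_zero]

private theorem B04_second (hp : 0 ≤ p) (hp1 : p ≤ 1 / 2) {S V : Finset (Vx d)} (a x : Vx d)
    (q q' : Vx d × Vx d) :
    EE p (edges S) (fun T => if q.1 ∈ cl T S a ∧ q'.1 ∈ cl T S a then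
        p ^ 2 * PP p (edges (V \ cl T S a)) {T' |
          Conn T' ((V \ cl T S a : Finset (Vx d)) : Set (Vx d)) q.2 x ∧
          Conn T' ((V \ cl T S a : Finset (Vx d)) : Set (Vx d)) q'.2 x} else 0) ≤
      p ^ 2 * PP p (edges S) {T | Conn T S a q.1 ∧ Conn T S a q'.1} *
        ∑ w ∈ V, tau p V q.2 w * tau p V q'.2 w * tau p V w x := by
  classical
  have hp1' : p ≤ 1 := by linarith
  have key : ∀ K : Finset (Vx d), PP p (edges (V \ K)) {T' |
      Conn T' ((V \ K : Finset (Vx d)) : Set (Vx d)) q.2 x ∧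
      Conn T' ((V \ K : Finset (Vx d)) : Set (Vx d)) q'.2 x} ≤
      ∑ w ∈ V, tau p V q.2 w * tau p V q'.2 w * tau p V w x := by
    intro K
    have h1 := TG hp hp1 (V \ K) x q.2 q'.2
    have h2 : PP p (edges (V \ K)) {T' |
      Conn T' ((V \ K : Finset (Vx d)) : Set (Vx d)) q.2 x ∧
      Conn T' ((V \ K : Finset (Vx d)) : Set (Vx d)) q'.2 x} = PP p (edges (V \ K)) {T |
        Conn T ((V \ K : Finset (Vx d)) : Set (Vx d)) x q.2 ∧
        Conn T ((V \ K : Finset (Vx d)) : Set (Vx d)) x q'.2} :=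
      PP_congr fun T _ => ⟨fun h => ⟨Conn.symm h.1, Conn.symm h.2⟩,
        fun h => ⟨Conn.symm h.1, Conn.symm h.2⟩⟩
    rw [h2]
    refine h1.trans ?_
    have h3 : ∀ w ∈ V \ K, tau p (V \ K) x w * tau p (V \ K) w q.2 * tau p (V \ K) w q'.2 ≤
        tau p V q.2 w * tau p V q'.2 w * tau p V w x := by
      intro w _
      have e1 : tau p (V \ K) x w ≤ tau p V w x := by
        rw [B04_symm p V w x]
        exact tau_mono hp hp1' Finset.sdiff_subset _ _
      have e2 : tau p (V \ K) w q.2 ≤ tau p V q.2 w := by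
        rw [B04_symm p V q.2 w]
        exact tau_mono hp hp1' Finset.sdiff_subset _ _
      have e3 : tau p (V \ K) w q'.2 ≤ tau p V q'.2 w := by
        rw [B04_symm p V q'.2 w]
        exact tau_mono hp hp1' Finset.sdiff_subset _ _
      calc tau p (V \ K) x w * tau p (V \ K) w q.2 * tau p (V \ K) w q'.2
          ≤ tau p V w x * tau p V q.2 w * tau p V q'.2 w := by
            refine mul_le_mul (mul_le_mul e1 e2 (tau_nonneg hp hp1' _ _ _)
              (tau_nonneg hp hp1' _ _ _)) e3 (tau_nonneg hp hp1' _ _ _)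
              (mul_nonneg (tau_nonneg hp hp1' _ _ _) (tau_nonneg hp hp1' _ _ _))
        _ = tau p V q.2 w * tau p V q'.2 w * tau p V w x := by ring
    refine (Finset.sum_le_sum h3).trans ?_
    refine Finset.sum_le_sum_of_subset_of_nonneg Finset.sdiff_subset fun w _ _ => ?_
    exact mul_nonneg (mul_nonneg (tau_nonneg hp hp1' _ _ _) (tau_nonneg hp hp1' _ _ _))
      (tau_nonneg hp hp1' _ _ _)
  have h4 : p ^ 2 * PP p (edges S) {T | Conn T S a q.1 ∧ Conn T S a q'.1} *
        ∑ w ∈ V, tau p V q.2 w * tau p V q'.2 w * tau p V w x =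
      EE p (edges S) (fun T => if q.1 ∈ cl T S a ∧ q'.1 ∈ cl T S a then
        p ^ 2 * ∑ w ∈ V, tau p V q.2 w * tau p V q'.2 w * tau p V w x else 0) := by
    rw [PP_def, mul_comm (p ^ 2), mul_assoc, ← EE_mul_const]
    refine EE_congr fun T _ => ?_
    by_cases h : q.1 ∈ cl T S a ∧ q'.1 ∈ cl T S a
    · rw [if_pos h, if_pos (show T ∈ {T : Finset (Ed d) | Conn T S a q.1 ∧ Conn T S a q'.1} from
        ⟨mem_cl.1 h.1, mem_cl.1 h.2⟩), one_mul]
    · rw [if_neg h, if_neg (show T ∉ {T : Finset (Ed d) | Conn T S a q.1 ∧ Conn T S a q'.1} from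
        fun h' => h ⟨mem_cl.2 h'.1, mem_cl.2 h'.2⟩), zero_mul]
  rw [h4]
  refine EE_mono hp hp1' fun T _ => ?_
  by_cases h : q.1 ∈ cl T S a ∧ q'.1 ∈ cl T S a
  · rw [if_pos h, if_pos h]
    exact mul_le_mul_of_nonneg_left (key _) (sq_nonneg p)
  · rw [if_neg h, if_neg h]

theorem bonf2 (hp : 0 ≤ p) (hp1 : p ≤ 1 / 2) {S V : Finset (Vx d)} (h : S ⊆ V) {a : Vx d}
    (ha : a ∈ S) (x : Vx d) {E : Finset (Vx d × Vx d)} (hE : E ⊆ exits S V) :
    ∑ q ∈ E, tau p S a q.1 * p * tau p V q.2 x ≤ tau p V a x +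
      ∑ q ∈ E, ∑ c ∈ S, p * PP p (edges S) {T | Conn T S a q.1 ∧ Conn T S a c} *
        (tau p V q.2 c * tau p V c x) +
      ∑ q ∈ E, ∑ q' ∈ E.erase q, p ^ 2 * PP p (edges S) {T | Conn T S a q.1 ∧ Conn T S a q'.1} *
        ∑ w ∈ V, tau p V q.2 w * tau p V q'.2 w * tau p V w x := by
  classical
  have hp1' : p ≤ 1 := by linarith
  have h1 := bonf hp hp1' h ha x hE
  have h2 : ∑ q ∈ E, tau p S a q.1 * p * tau p V q.2 x ≤
      ∑ q ∈ E, EE p (edges S) (fun T =>
        if q.1 ∈ cl T S a then p * tau p (V \ cl T S a) q.2 x else 0) +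
      ∑ q ∈ E, ∑ c ∈ S, p * PP p (edges S) {T | Conn T S a q.1 ∧ Conn T S a c} *
        (tau p V q.2 c * tau p V c x) := by
    rw [← Finset.sum_add_distrib]
    exact Finset.sum_le_sum fun q _ => B04_first hp hp1 a x q
  have h3 : ∑ q ∈ E, ∑ q' ∈ E.erase q, EE p (edges S) (fun T =>
      if q.1 ∈ cl T S a ∧ q'.1 ∈ cl T S a then
        p ^ 2 * PP p (edges (V \ cl T S a)) {T' |
          Conn T' ((V \ cl T S a : Finset (Vx d)) : Set (Vx d)) q.2 x ∧
          Conn T' ((V \ cl T S a : Finset (Vx d)) : Set (Vx d)) q'.2 x} else 0) ≤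
      ∑ q ∈ E, ∑ q' ∈ E.erase q, p ^ 2 * PP p (edges S) {T | Conn T S a q.1 ∧ Conn T S a q'.1} *
        ∑ w ∈ V, tau p V q.2 w * tau p V q'.2 w * tau p V w x :=
    Finset.sum_le_sum fun q _ => Finset.sum_le_sum fun q' _ => B04_second hp hp1 a x q q'
  have h4 := tau_nonneg hp hp1' S a x
  linarith

/-- The same with the tree graph inequality in `S`. -/
theorem bonf3 (hp : 0 ≤ p) (hp1 : p ≤ 1 / 2) {S V : Finset (Vx d)} (h : S ⊆ V) {a : Vx d}
    (ha : a ∈ S) (x : Vx d) {E : Finset (Vx d × Vx d)} (hE : E ⊆ exits S V) :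
    ∑ q ∈ E, tau p S a q.1 * p * tau p V q.2 x ≤ tau p V a x +
      ∑ q ∈ E, ∑ z ∈ S, ∑ c ∈ S, tau p S a z * tau p S z q.1 * p * tau p S z c *
        (tau p V q.2 c * tau p V c x) +
      ∑ q ∈ E, ∑ q' ∈ E.erase q, ∑ z ∈ S, tau p S a z * tau p S z q.1 * tau p S z q'.1 * p ^ 2 *
        ∑ w ∈ V, tau p V q.2 w * tau p V q'.2 w * tau p V w x := by
  have hp1' : p ≤ 1 := by linarith
  refine (bonf2 hp hp1 h ha x hE).trans ?_
  refine add_le_add (add_le_add le_rfl (Finset.sum_le_sum fun q _ => ?_))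
    (Finset.sum_le_sum fun q _ => Finset.sum_le_sum fun q' _ => ?_)
  · rw [Finset.sum_comm]
    refine Finset.sum_le_sum fun c _ => ?_
    have h1 := TG hp hp1 S a q.1 c
    have h2 : 0 ≤ tau p V q.2 c * tau p V c x :=
      mul_nonneg (tau_nonneg hp hp1' _ _ _) (tau_nonneg hp hp1' _ _ _)
    calc p * PP p (edges S) {T | Conn T S a q.1 ∧ Conn T S a c} * (tau p V q.2 c * tau p V c x)
        ≤ p * (∑ w ∈ S, tau p S a w * tau p S w q.1 * tau p S w c) *
          (tau p V q.2 c * tau p V c x) :=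
          mul_le_mul_of_nonneg_right (mul_le_mul_of_nonneg_left h1 hp) h2
      _ = _ := by
          rw [Finset.mul_sum, Finset.sum_mul]
          refine Finset.sum_congr rfl fun z _ => ?_
          ring
  · have h1 := TG hp hp1 S a q.1 q'.1
    have h2 : 0 ≤ ∑ w ∈ V, tau p V q.2 w * tau p V q'.2 w * tau p V w x :=
      Finset.sum_nonneg fun w _ => mul_nonneg (mul_nonneg (tau_nonneg hp hp1' _ _ _)
        (tau_nonneg hp hp1' _ _ _)) (tau_nonneg hp hp1' _ _ _)
    generalize (∑ w ∈ V, tau p V q.2 w * tau p V q'.2 w * tau p V w x) = W at h2 ⊢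
    calc p ^ 2 * PP p (edges S) {T | Conn T S a q.1 ∧ Conn T S a q'.1} * W
        ≤ p ^ 2 * (∑ w ∈ S, tau p S a w * tau p S w q.1 * tau p S w q'.1) * W :=
          mul_le_mul_of_nonneg_right (mul_le_mul_of_nonneg_left h1 (sq_nonneg p)) h2
      _ = _ := by
          rw [Finset.mul_sum, Finset.sum_mul]
          refine Finset.sum_congr rfl fun z _ => ?_
          ring

end Pool.Agent.HD
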