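import Pool.Agent.Lib.MP_8ca597_hd.B04
import Pool.Agent.Lib.MP_8ca597_hd.B01
import Pool.Agent.Lib.MP_8ca597_hd.A14
import Pool.Agent.Lib.MP_8ca597_hd.A18

/-!
# Row B05: the Bonferroni bound of the flux of a set

Let `0 < chi < ∞`. For finite sets `E0` of exits of `S` and `X0` of vertices and all large `n`,
`bonf3` for `V = Bx d n`, `S ∩ V`, summed over `x ∈ X0`, gives
`∑_{q ∈ E0} tau (S ∩ V) 0 q.1 * p * ∑_{x ∈ X0} tau V q.2 x ≤ chi + er1 * chi + er2 * chi`
(`∑_x tau V c x ≤ chi`, all factors bounded by `tt`, `∑_c tt (c - z) tt (c - v) = cv tt tt (v - z)`,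
`∑_w tt (w - v) tt (w - v') = cv tt tt (v - v')`). Take the supremum over `n`, then over `X0`, `E0`:
`flux * chi ≤ (1 + er1 + er2) * chi`.
-/

set_option autoImplicit false

namespace Pool.Agent.HD

open Finset
open scoped ENNReal

variable {d : ℕ} {p : ℝ}

/-- `bonf3` in `[0, ∞]`. -/
private theorem B05_bonf (hp : 0 ≤ p) (hp1 : p ≤ 1 / 2) {S V : Finset (Vx d)} (h : S ⊆ V)
    {a : Vx d} (ha : a ∈ S) (x : Vx d) {E : Finset (Vx d × Vx d)} (hE : E ⊆ exits S V) :
    ∑ q ∈ E, ENNReal.ofReal (tau p S a q.1) * ENNReal.ofReal p * ENNReal.ofReal (tau p V q.2 x) ≤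
      ENNReal.ofReal (tau p V a x) +
      ∑ q ∈ E, ∑ z ∈ S, ∑ c ∈ S, ENNReal.ofReal (tau p S a z) * ENNReal.ofReal (tau p S z q.1) *
        ENNReal.ofReal p * ENNReal.ofReal (tau p S z c) *
        (ENNReal.ofReal (tau p V q.2 c) * ENNReal.ofReal (tau p V c x)) +
      ∑ q ∈ E, ∑ q' ∈ E.erase q, ∑ z ∈ S, ENNReal.ofReal (tau p S a z) *
        ENNReal.ofReal (tau p S z q.1) * ENNReal.ofReal (tau p S z q'.1) *
        ENNReal.ofReal p ^ 2 * ∑ w ∈ V, ENNReal.ofReal (tau p V q.2 w) *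
          ENNReal.ofReal (tau p V q'.2 w) * ENNReal.ofReal (tau p V w x) := by
  have hp1' : p ≤ 1 := by linarith
  let tS : Vx d → Vx d → NNReal := fun x y => ⟨tau p S x y, tau_nonneg hp hp1' S x y⟩
  let tV : Vx d → Vx d → NNReal := fun x y => ⟨tau p V x y, tau_nonneg hp hp1' V x y⟩
  let P : NNReal := ⟨p, hp⟩
  have e1 : ∀ x y, ENNReal.ofReal (tau p S x y) = (tS x y : ℝ≥0∞) :=
    fun x y => ENNReal.ofReal_eq_coe_nnreal _
  have e2 : ∀ x y, ENNReal.ofReal (tau p V x y) = (tV x y : ℝ≥0∞) :=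
    fun x y => ENNReal.ofReal_eq_coe_nnreal _
  have e3 : ENNReal.ofReal p = (P : ℝ≥0∞) := ENNReal.ofReal_eq_coe_nnreal _
  have f1 : ∀ x y, ((tS x y : NNReal) : ℝ) = tau p S x y := fun _ _ => rfl
  have f2 : ∀ x y, ((tV x y : NNReal) : ℝ) = tau p V x y := fun _ _ => rfl
  have f3 : ((P : NNReal) : ℝ) = p := rfl
  simp only [e1, e2, e3]
  have key : ∑ q ∈ E, tS a q.1 * P * tV q.2 x ≤ tV a x +
      ∑ q ∈ E, ∑ z ∈ S, ∑ c ∈ S, tS a z * tS z q.1 * P * tS z c * (tV q.2 c * tV c x) +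
      ∑ q ∈ E, ∑ q' ∈ E.erase q, ∑ z ∈ S, tS a z * tS z q.1 * tS z q'.1 * P ^ 2 *
        ∑ w ∈ V, tV q.2 w * tV q'.2 w * tV w x := by
    rw [← NNReal.coe_le_coe]
    push_cast
    simp only [f1, f2, f3]
    exact bonf3 hp hp1 h ha x hE
  exact_mod_cast key

private theorem B05_tsum (p : ℝ) (c : Vx d) : ∑' x : Vx d, tt p (x - c) = chi d p := by
  rw [chi]
  exact Equiv.tsum_eq (Equiv.subRight c) (fun x => tt p x)

private theorem B05_cv (p : ℝ) (a b : Vx d) :
    ∑' c : Vx d, tt p (c - a) * tt p (c - b) = cv (tt p) (tt p) (b - a) := by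
  rw [cv, ← Equiv.tsum_eq (Equiv.subRight a) (fun y => tt p y * tt p (b - a - y))]
  refine tsum_congr fun c => ?_
  have h : b - a - (Equiv.subRight a) c = -(c - b) := by
    change b - a - (c - a) = _
    abel
  rw [h, tt_neg]
  rfl

private theorem B05_le (hp : 0 ≤ p) (hp1 : p ≤ 1) (V : Finset (Vx d)) (x y : Vx d) :
    ENNReal.ofReal (tau p V x y) ≤ tt p (y - x) :=
  (le_tauI p (Set.subset_univ _) x y).trans (tauI_le_tt hp hp1 Set.univ x y)

private theorem B05_sum (hp : 0 ≤ p) (hp1 : p ≤ 1) (V X : Finset (Vx d)) (c : Vx d) :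
    ∑ x ∈ X, ENNReal.ofReal (tau p V c x) ≤ chi d p := by
  calc ∑ x ∈ X, ENNReal.ofReal (tau p V c x) ≤ ∑ x ∈ X, tt p (x - c) :=
        Finset.sum_le_sum fun x _ => B05_le hp hp1 V c x
    _ ≤ ∑' x : Vx d, tt p (x - c) := ENNReal.sum_le_tsum X
    _ = chi d p := B05_tsum p c

/-- The first error term in finite volume. -/
private theorem B05_T2 (hp : 0 ≤ p) (hp1 : p ≤ 1) (S : Set (Vx d)) (Sn V X : Finset (Vx d))
    (hSn : (Sn : Set (Vx d)) ⊆ S) (E0 : Finset (exI S Set.univ)) :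
    ∑ x ∈ X, ∑ q ∈ E0, ∑ z ∈ Sn, ∑ c ∈ Sn, ENNReal.ofReal (tau p Sn 0 z) *
        ENNReal.ofReal (tau p Sn z q.1.1) * ENNReal.ofReal p * ENNReal.ofReal (tau p Sn z c) *
        (ENNReal.ofReal (tau p V q.1.2 c) * ENNReal.ofReal (tau p V c x)) ≤
      er1 p S * chi d p := by
  calc ∑ x ∈ X, ∑ q ∈ E0, ∑ z ∈ Sn, ∑ c ∈ Sn, ENNReal.ofReal (tau p Sn 0 z) *
        ENNReal.ofReal (tau p Sn z q.1.1) * ENNReal.ofReal p * ENNReal.ofReal (tau p Sn z c) *
        (ENNReal.ofReal (tau p V q.1.2 c) * ENNReal.ofReal (tau p V c x))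
      = ∑ q ∈ E0, ∑ z ∈ Sn, ∑ c ∈ Sn, ENNReal.ofReal (tau p Sn 0 z) *
        ENNReal.ofReal (tau p Sn z q.1.1) * ENNReal.ofReal p * ENNReal.ofReal (tau p Sn z c) *
        (ENNReal.ofReal (tau p V q.1.2 c) * ∑ x ∈ X, ENNReal.ofReal (tau p V c x)) := by
        rw [Finset.sum_comm]
        refine Finset.sum_congr rfl fun q _ => ?_
        rw [Finset.sum_comm]
        refine Finset.sum_congr rfl fun z _ => ?_
        rw [Finset.sum_comm]
        refine Finset.sum_congr rfl fun c _ => ?_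
        rw [Finset.mul_sum, Finset.mul_sum]
    _ ≤ ∑ q ∈ E0, ∑ z ∈ Sn, ∑ c ∈ Sn, tauI p S 0 z * tt p (q.1.1 - z) * ENNReal.ofReal p *
          tt p (c - z) * (tt p (c - q.1.2) * chi d p) := by
        refine Finset.sum_le_sum fun q _ => Finset.sum_le_sum fun z _ =>
          Finset.sum_le_sum fun c _ => ?_
        gcongr
        · exact le_tauI p hSn 0 z
        · exact B05_le hp hp1 Sn z q.1.1
        · exact B05_le hp hp1 Sn z c
        · exact B05_le hp hp1 V q.1.2 c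
        · exact B05_sum hp hp1 V X c
    _ = (∑ q ∈ E0, ∑ z ∈ Sn, tauI p S 0 z * tt p (q.1.1 - z) * ENNReal.ofReal p *
          ∑ c ∈ Sn, tt p (c - z) * tt p (c - q.1.2)) * chi d p := by
        rw [Finset.sum_mul]
        refine Finset.sum_congr rfl fun q _ => ?_
        rw [Finset.sum_mul]
        refine Finset.sum_congr rfl fun z _ => ?_
        rw [Finset.mul_sum, Finset.sum_mul]
        refine Finset.sum_congr rfl fun c _ => ?_
        ring
    _ ≤ er1 p S * chi d p := by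
        gcongr
        rw [er1]
        refine le_trans (Finset.sum_le_sum fun q _ => ?_) (ENNReal.sum_le_tsum E0)
        refine le_trans (Finset.sum_le_sum fun z _ => ?_) (ENNReal.sum_le_tsum Sn)
        gcongr
        rw [← B05_cv]
        exact ENNReal.sum_le_tsum Sn

/-- The second error term in finite volume. -/
private theorem B05_T3 (hp : 0 ≤ p) (hp1 : p ≤ 1) (S : Set (Vx d)) (Sn V X : Finset (Vx d))
    (hSn : (Sn : Set (Vx d)) ⊆ S) [DecidableEq (exI S Set.univ)]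
    (E0 : Finset (exI S Set.univ)) :
    ∑ x ∈ X, ∑ q ∈ E0, ∑ q' ∈ E0.erase q, ∑ z ∈ Sn, ENNReal.ofReal (tau p Sn 0 z) *
        ENNReal.ofReal (tau p Sn z q.1.1) * ENNReal.ofReal (tau p Sn z q'.1.1) *
        ENNReal.ofReal p ^ 2 * ∑ w ∈ V, ENNReal.ofReal (tau p V q.1.2 w) *
          ENNReal.ofReal (tau p V q'.1.2 w) * ENNReal.ofReal (tau p V w x) ≤
      er2 p S * chi d p := by
  calc ∑ x ∈ X, ∑ q ∈ E0, ∑ q' ∈ E0.erase q, ∑ z ∈ Sn, ENNReal.ofReal (tau p Sn 0 z) *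
        ENNReal.ofReal (tau p Sn z q.1.1) * ENNReal.ofReal (tau p Sn z q'.1.1) *
        ENNReal.ofReal p ^ 2 * ∑ w ∈ V, ENNReal.ofReal (tau p V q.1.2 w) *
          ENNReal.ofReal (tau p V q'.1.2 w) * ENNReal.ofReal (tau p V w x)
      = ∑ q ∈ E0, ∑ q' ∈ E0.erase q, ∑ z ∈ Sn, ENNReal.ofReal (tau p Sn 0 z) *
        ENNReal.ofReal (tau p Sn z q.1.1) * ENNReal.ofReal (tau p Sn z q'.1.1) *
        ENNReal.ofReal p ^ 2 * ∑ w ∈ V, ENNReal.ofReal (tau p V q.1.2 w) *
          ENNReal.ofReal (tau p V q'.1.2 w) * ∑ x ∈ X, ENNReal.ofReal (tau p V w x) := by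
        rw [Finset.sum_comm]
        refine Finset.sum_congr rfl fun q _ => ?_
        rw [Finset.sum_comm]
        refine Finset.sum_congr rfl fun q' _ => ?_
        rw [Finset.sum_comm]
        refine Finset.sum_congr rfl fun z _ => ?_
        rw [← Finset.mul_sum, Finset.sum_comm]
        congr 1
        refine Finset.sum_congr rfl fun w _ => ?_
        rw [Finset.mul_sum]
    _ ≤ ∑ q ∈ E0, ∑ q' ∈ E0.erase q, ∑ z ∈ Sn, tauI p S 0 z * tt p (q.1.1 - z) *
          tt p (q'.1.1 - z) * ENNReal.ofReal p ^ 2 *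
          (cv (tt p) (tt p) (q.1.2 - q'.1.2) * chi d p) := by
        refine Finset.sum_le_sum fun q _ => Finset.sum_le_sum fun q' _ =>
          Finset.sum_le_sum fun z _ => ?_
        gcongr ?_ * ?_ * ?_ * _ * ?_
        · exact le_tauI p hSn 0 z
        · exact B05_le hp hp1 Sn z q.1.1
        · exact B05_le hp hp1 Sn z q'.1.1
        · calc ∑ w ∈ V, ENNReal.ofReal (tau p V q.1.2 w) *
                ENNReal.ofReal (tau p V q'.1.2 w) * ∑ x ∈ X, ENNReal.ofReal (tau p V w x)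
              ≤ ∑ w ∈ V, tt p (w - q'.1.2) * tt p (w - q.1.2) * chi d p := by
                refine Finset.sum_le_sum fun w _ => ?_
                rw [mul_comm (tt p (w - q'.1.2))]
                gcongr
                · exact B05_le hp hp1 V q.1.2 w
                · exact B05_le hp hp1 V q'.1.2 w
                · exact B05_sum hp hp1 V X w
            _ = (∑ w ∈ V, tt p (w - q'.1.2) * tt p (w - q.1.2)) * chi d p := by
                rw [Finset.sum_mul]
            _ ≤ cv (tt p) (tt p) (q.1.2 - q'.1.2) * chi d p := by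
                gcongr
                rw [← B05_cv]
                exact ENNReal.sum_le_tsum V
    _ = (∑ q ∈ E0, ∑ q' ∈ E0.erase q, ∑ z ∈ Sn, tauI p S 0 z * tt p (q.1.1 - z) *
          tt p (q'.1.1 - z) * ENNReal.ofReal p ^ 2 *
          cv (tt p) (tt p) (q.1.2 - q'.1.2)) * chi d p := by
        rw [Finset.sum_mul]
        refine Finset.sum_congr rfl fun q _ => ?_
        rw [Finset.sum_mul]
        refine Finset.sum_congr rfl fun q' _ => ?_
        rw [Finset.sum_mul]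
        refine Finset.sum_congr rfl fun z _ => ?_
        ring
    _ ≤ er2 p S * chi d p := by
        gcongr
        rw [er2]
        refine le_trans (Finset.sum_le_sum fun q _ => ?_) (ENNReal.sum_le_tsum E0)
        refine le_trans (Finset.sum_le_sum fun q' hq' => ?_) (ENNReal.sum_le_tsum (E0.erase q))
        rw [if_neg (Finset.ne_of_mem_erase hq').symm]
        exact ENNReal.sum_le_tsum Sn

theorem flux_le (hp : 0 ≤ p) (hp1 : p ≤ 1 / 2) (hs : Sub d p) (S : Set (Vx d))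
    (h0 : (0 : Vx d) ∈ S) : flux p S 0 ≤ 1 + er1 p S + er2 p S := by
  classical
  have hp1' : p ≤ 1 := by linarith
  have hχ1 := one_le_chi (d := d) p
  have hχ := sub_chi hp hp1' hs
  have hχ0 : chi d p ≠ 0 := fun h => by rw [h] at hχ1; exact absurd hχ1 (by simp)
  suffices H : flux p S 0 * chi d p ≤ (1 + er1 p S + er2 p S) * chi d p by
    exact (ENNReal.mul_le_mul_iff_left hχ0 hχ.ne).1 H
  have e1 : flux p S 0 * chi d p = ∑' q : exI S Set.univ, ∑' x : Vx d,
      tauI p S 0 q.1.1 * ENNReal.ofReal p * tauI p Set.univ q.1.2 x := by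
    rw [flux, ← ENNReal.tsum_mul_right]
    refine tsum_congr fun q => ?_
    rw [ENNReal.tsum_mul_left, ← B05_tsum p q.1.2]
    congr 1
    exact tsum_congr fun x => (tauI_univ p q.1.2 x).symm
  rw [e1, ENNReal.tsum_eq_iSup_sum]
  refine iSup_le fun E0 => ?_
  rw [← Summable.tsum_finsetSum (fun _ _ => ENNReal.summable), ENNReal.tsum_eq_iSup_sum]
  refine iSup_le fun X => ?_
  -- finite volume
  let V : ℕ → Finset (Vx d) := fun n => Bx d n
  let Sn : ℕ → Finset (Vx d) := fun n => (Bx d n).filter (· ∈ S)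
  have hmV : ∀ m n, m ≤ n → V m ⊆ V n := by
    intro m n hmn x hx
    exact mem_Bx.2 ((mem_Bx.1 hx).trans hmn)
  have hmS : ∀ m n, m ≤ n → Sn m ⊆ Sn n := by
    intro m n hmn x hx
    rw [Finset.mem_filter] at hx ⊢
    exact ⟨hmV m n hmn hx.1, hx.2⟩
  have t1 : ∀ x y, Filter.Tendsto (fun n => ENNReal.ofReal (tau p (Sn n) x y)) Filter.atTop
      (nhds (tauI p S x y)) := by
    intro x y
    rw [tauI_seq hp hp1' S x y]
    refine tendsto_atTop_iSup fun m n hmn => ?_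
    exact ENNReal.ofReal_le_ofReal (tau_mono hp hp1' (hmS m n hmn) x y)
  have t2 : ∀ x y, Filter.Tendsto (fun n => ENNReal.ofReal (tau p (V n) x y)) Filter.atTop
      (nhds (tauI p Set.univ x y)) := by
    intro x y
    have h := tauI_seq hp hp1' (Set.univ : Set (Vx d)) x y
    simp only [Set.mem_univ, Finset.filter_true] at h
    rw [h]
    refine tendsto_atTop_iSup fun m n hmn => ?_
    exact ENNReal.ofReal_le_ofReal (tau_mono hp hp1' (hmV m n hmn) x y)
  have ne1 : ∀ (W : Set (Vx d)) x y, tauI p W x y ≠ ⊤ := fun W x y =>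
    ((tauI_le_one hp hp1' W x y).trans_lt ENNReal.one_lt_top).ne
  have t3 : Filter.Tendsto (fun n => ∑ x ∈ X, ∑ q ∈ E0, ENNReal.ofReal (tau p (Sn n) 0 q.1.1) *
      ENNReal.ofReal p * ENNReal.ofReal (tau p (V n) q.1.2 x)) Filter.atTop
      (nhds (∑ x ∈ X, ∑ q ∈ E0, tauI p S 0 q.1.1 * ENNReal.ofReal p *
        tauI p Set.univ q.1.2 x)) := by
    refine tendsto_finsetSum _ fun x _ => tendsto_finsetSum _ fun q _ => ?_
    refine ENNReal.Tendsto.mul (ENNReal.Tendsto.mul_const (t1 _ _) (Or.inr ENNReal.ofReal_ne_top))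
      (Or.inr (ne1 _ _ _)) (t2 _ _) (Or.inr (ENNReal.mul_ne_top (ne1 _ _ _) ENNReal.ofReal_ne_top))
  refine le_of_tendsto t3 ?_
  have ev : ∀ᶠ n in Filter.atTop, ∀ q ∈ E0, q.1.1 ∈ V n ∧ q.1.2 ∈ V n := by
    rw [Finset.eventually_all]
    intro q _
    filter_upwards [Filter.eventually_ge_atTop (nm q.1.1), Filter.eventually_ge_atTop (nm q.1.2)]
      with n h1 h2
    exact ⟨mem_Bx.2 h1, mem_Bx.2 h2⟩
  filter_upwards [ev] with n hn
  have h0n : (0 : Vx d) ∈ Sn n := by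
    rw [Finset.mem_filter]
    refine ⟨mem_Bx.2 ?_, h0⟩
    simp [nm]
  have hSV : Sn n ⊆ V n := Finset.filter_subset _ _
  have hSS : (Sn n : Set (Vx d)) ⊆ S := by
    intro x hx
    rw [Finset.mem_coe, Finset.mem_filter] at hx
    exact hx.2
  let emb : exI S Set.univ ↪ Vx d × Vx d := Function.Embedding.subtype _
  have hE : E0.map emb ⊆ exits (Sn n) (V n) := by
    intro q hq
    rw [Finset.mem_map] at hq
    obtain ⟨q', hq', rfl⟩ := hq
    obtain ⟨a1, a2⟩ := hn q' hq'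
    obtain ⟨b1, _, b3, b4⟩ := q'.2
    rw [exits, Finset.mem_filter, Finset.mem_product, Finset.mem_sdiff]
    refine ⟨⟨Finset.mem_filter.2 ⟨a1, b1⟩, a2, ?_⟩, b4⟩
    intro h
    exact b3 (Finset.mem_filter.1 h).2
  have hb : ∀ x, ∑ q ∈ E0, ENNReal.ofReal (tau p (Sn n) 0 q.1.1) *
      ENNReal.ofReal p * ENNReal.ofReal (tau p (V n) q.1.2 x) ≤
      ENNReal.ofReal (tau p (V n) 0 x) +
      ∑ q ∈ E0, ∑ z ∈ Sn n, ∑ c ∈ Sn n, ENNReal.ofReal (tau p (Sn n) 0 z) *
        ENNReal.ofReal (tau p (Sn n) z q.1.1) *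
        ENNReal.ofReal p * ENNReal.ofReal (tau p (Sn n) z c) *
        (ENNReal.ofReal (tau p (V n) q.1.2 c) * ENNReal.ofReal (tau p (V n) c x)) +
      ∑ q ∈ E0, ∑ q' ∈ E0.erase q, ∑ z ∈ Sn n, ENNReal.ofReal (tau p (Sn n) 0 z) *
        ENNReal.ofReal (tau p (Sn n) z q.1.1) * ENNReal.ofReal (tau p (Sn n) z q'.1.1) *
        ENNReal.ofReal p ^ 2 * ∑ w ∈ V n, ENNReal.ofReal (tau p (V n) q.1.2 w) *
          ENNReal.ofReal (tau p (V n) q'.1.2 w) * ENNReal.ofReal (tau p (V n) w x) := by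
    intro x
    have h := B05_bonf hp hp1 hSV h0n x hE
    rw [Finset.sum_map, Finset.sum_map, Finset.sum_map] at h
    refine h.trans (le_of_eq ?_)
    congr 1
    refine Finset.sum_congr rfl fun q _ => ?_
    rw [← Finset.map_erase, Finset.sum_map]
    rfl
  calc ∑ x ∈ X, ∑ q ∈ E0, ENNReal.ofReal (tau p (Sn n) 0 q.1.1) *
      ENNReal.ofReal p * ENNReal.ofReal (tau p (V n) q.1.2 x) ≤ _ :=
        Finset.sum_le_sum fun x _ => hb x
    _ ≤ (1 + er1 p S + er2 p S) * chi d p := by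
        rw [Finset.sum_add_distrib, Finset.sum_add_distrib, add_mul, add_mul, one_mul]
        refine add_le_add (add_le_add ?_ ?_) ?_
        · exact B05_sum hp hp1' (V n) X 0
        · exact B05_T2 hp hp1' S (Sn n) (V n) X hSS E0
        · exact B05_T3 hp hp1' S (Sn n) (V n) X hSS E0

end Pool.Agent.HD
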