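import Pool.Agent.Lib.MP_8ca597_hd.B03
import Pool.Agent.Lib.MP_8ca597_hd.B01

/-!
# Row B06: the errors for boxes

The exits of `BoxS E R` are the pairs `(u, u + uv e)`, `e ∈ E`, `dt u e = R e - 1` (`adj_iff_uv`,
`dt_uv_le`). `er1_box`: for the face `e` put `y = u - z`, `l = dt y e ≥ 0` (the depth of `z` below the
face); `BoxS E R ⊆ Hf e (R e)`, so the sum over the `z` at depth `l` of `tauI p S 0 z` is at most
`lev p e (R e) l ≤ (l + 1) F N`, `p N ≤ F`; the rest is
`∑_{y, dt y e ≥ 0} (1 + dt y e) tt y * cv tt tt (y + uv e) ≤ cpw tw 3 (uv e)` (`1 + |dt y e| ≤ 1 + nm y`,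
`tt ≤ tw`, all functions are even). `er2_box`: similarly
`∑_{y} (1 + l) tt y ∑_{y'} tt y' * cv tt tt (y + uv e - y' - uv e') ≤ cpw tw 4 (uv e - uv e')`.
-/

set_option autoImplicit false

namespace Pool.Agent.HD

open Finset
open scoped ENNReal

variable {d : ℕ} {p : ℝ}

/-- The exits of a box. -/
theorem mem_exI_box {E : Finset (Dir d)} {R : Dir d → ℤ} {q : Vx d × Vx d}
    (hq : q ∈ exI (BoxS E R) Set.univ) : ∃ e ∈ E, dt q.1 e = R e - 1 ∧ q.2 = q.1 + uv e := by
  obtain ⟨h1, -, h2, h3⟩ := hq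
  obtain ⟨e', he'⟩ := (adj_iff_uv q.1 q.2).1 h3
  simp only [BoxS, Set.mem_ofPred_eq, not_forall, not_le] at h2
  obtain ⟨e, he, hlt⟩ := h2
  have h1e := h1 e he
  rw [he', dt_add] at hlt
  by_cases h : e' = e
  · subst h
    rw [dt_uv] at hlt
    exact ⟨e', he, by omega, he'⟩
  · have := dt_uv_le e' e h
    omega

/-- Sums over the exits of a box. -/
theorem B06_exit_sum {E : Finset (Dir d)} {R : Dir d → ℤ} (g : Vx d × Vx d → ℝ≥0∞) :
    ∑' q : exI (BoxS E R) Set.univ, g q ≤
      ∑ e ∈ E, ∑' u : Vx d, if dt u e = R e - 1 then g (u, u + uv e) else 0 := by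
  classical
  choose f hfE hf1 hf2 using fun q : exI (BoxS E R) Set.univ => mem_exI_box q.2
  set φ : E × Vx d → ℝ≥0∞ := fun s =>
    if dt s.2 s.1 = R s.1 - 1 then g (s.2, s.2 + uv s.1) else 0 with hφ
  have hinj : Function.Injective
      (fun q : exI (BoxS E R) Set.univ => ((⟨f q, hfE q⟩, q.1.1) : E × Vx d)) := by
    intro q q' h
    have h1 : f q = f q' := congrArg (fun s : E × Vx d => (s.1 : Dir d)) h
    have h2 : q.1.1 = q'.1.1 := congrArg (fun s : E × Vx d => s.2) h
    refine Subtype.ext (Prod.ext h2 ?_)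
    rw [hf2 q, hf2 q', h1, h2]
  calc ∑' q : exI (BoxS E R) Set.univ, g q
      = ∑' q : exI (BoxS E R) Set.univ, φ (⟨f q, hfE q⟩, q.1.1) := by
        refine tsum_congr fun q => ?_
        simp only [hφ]
        rw [if_pos (hf1 q), ← hf2 q]
    _ ≤ ∑' s : E × Vx d, φ s := ENNReal.tsum_comp_le_tsum_of_injective hinj φ
    _ = ∑' e : E, ∑' u, φ (e, u) := ENNReal.tsum_prod (f := fun e u => φ (e, u))
    _ = ∑ e : E, ∑' u, φ (e, u) := tsum_fintype _
    _ = ∑ e ∈ E, ∑' u : Vx d, if dt u e = R e - 1 then g (u, u + uv e) else 0 :=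
        Finset.sum_coe_sort E
          (fun e => ∑' u : Vx d, if dt u e = R e - 1 then g (u, u + uv e) else 0)

theorem B06_lev_le (hp : 0 ≤ p) (hp1 : p ≤ 1) {F : ℝ≥0∞} (hF : 1 ≤ F)
    (h1 : ∀ (e : Dir d) (r : ℤ), 1 ≤ r → ff p e r ≤ F) (e : Dir d) {r : ℤ} (hr : 1 ≤ r) (l : ℕ) :
    ENNReal.ofReal p * lev p e r l ≤ (l + 1) * F ^ 2 := by
  rcases eq_or_lt_of_le hp with h0 | h0
  · rw [← h0]
    simp
  · have hp0 : ENNReal.ofReal p ≠ 0 := by
      rw [Ne, ENNReal.ofReal_eq_zero]
      exact not_le.2 h0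
    have h2 : ∀ (e : Dir d) (r : ℤ), 1 ≤ r → lev p e r 0 ≤ F / ENNReal.ofReal p := by
      intro e r hr
      rw [ENNReal.le_div_iff_mul_le (Or.inl hp0) (Or.inl ENNReal.ofReal_ne_top), mul_comm]
      exact h1 e r hr
    calc ENNReal.ofReal p * lev p e r l
        ≤ ENNReal.ofReal p * ((l + 1) * F * (F / ENNReal.ofReal p)) :=
          mul_le_mul_right (lev_le hp hp1 hF h1 h2 e hr l) _
      _ = (l + 1) * F * (ENNReal.ofReal p * (F / ENNReal.ofReal p)) := by ring
      _ = (l + 1) * F ^ 2 := by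
          rw [ENNReal.mul_div_cancel hp0 ENNReal.ofReal_ne_top]
          ring

/-- The sum over one face. -/
theorem B06_face_sum (hp : 0 ≤ p) (hp1 : p ≤ 1) {F : ℝ≥0∞} (hF : 1 ≤ F)
    (h1 : ∀ (e : Dir d) (r : ℤ), 1 ≤ r → ff p e r ≤ F) {E : Finset (Dir d)} {R : Dir d → ℤ}
    {e : Dir d} (he : e ∈ E) (hR : 1 ≤ R e) (H : Vx d → ℝ≥0∞) :
    ∑' u : Vx d, (if dt u e = R e - 1 then ∑' z : Vx d, tauI p (BoxS E R) 0 z * tt p (u - z) *
      ENNReal.ofReal p * H (u - z) else 0) ≤ F ^ 2 * ∑' y : Vx d, tw p y * H y := by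
  classical
  set S := BoxS E R with hS
  have hSH : S ⊆ Hf e (R e) := fun z hz => hz e he
  have key : ∀ y : Vx d, ENNReal.ofReal p *
      ∑' z : Vx d, (if dt z e = R e - 1 - dt y e then tauI p S 0 z else 0) ≤
        (1 + nm y) * F ^ 2 := by
    intro y
    rcases lt_or_ge (dt y e) 0 with hy | hy
    · have : ∀ z : Vx d, (if dt z e = R e - 1 - dt y e then tauI p S 0 z else 0) = 0 := by
        intro z
        split_ifs with hz
        · refine tauI_zero_right p (fun hzS => ?_) 0
          have := hSH hzS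
          simp only [Hf, Set.mem_ofPred_eq] at this
          omega
        · rfl
      rw [ENNReal.tsum_eq_zero.2 this, mul_zero]
      exact zero_le
    · obtain ⟨l, hl⟩ := Int.eq_ofNat_of_zero_le hy
      have h2 : ∑' z : Vx d, (if dt z e = R e - 1 - dt y e then tauI p S 0 z else 0) ≤
          lev p e (R e) l := by
        unfold lev
        rw [hl]
        have h5 := tsum_subtype {z : Vx d | dt z e = R e - 1 - l} (fun z => tauI p (Hf e (R e)) 0 z)
        refine le_of_le_of_eq ?_ h5.symm
        refine ENNReal.tsum_le_tsum fun z => ?_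
        by_cases hz : dt z e = R e - 1 - l
        · rw [if_pos hz, Set.indicator_of_mem (by exact hz)]
          exact tauI_mono hp hp1 hSH 0 z
        · rw [if_neg hz]
          exact zero_le
      calc _ ≤ ENNReal.ofReal p * lev p e (R e) l := mul_le_mul_right h2 _
        _ ≤ (l + 1) * F ^ 2 := B06_lev_le hp hp1 hF h1 e hR l
        _ ≤ (1 + nm y) * F ^ 2 := by
            refine mul_le_mul_left ?_ _
            rw [add_comm]
            refine add_le_add le_rfl ?_
            have h3 := abs_dt_le y e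
            rw [hl] at h3
            have h4 : l ≤ nm y := by
              rw [abs_of_nonneg (by positivity)] at h3
              exact_mod_cast h3
            exact_mod_cast h4
  calc ∑' u : Vx d, (if dt u e = R e - 1 then ∑' z : Vx d, tauI p S 0 z * tt p (u - z) *
      ENNReal.ofReal p * H (u - z) else 0)
      = ∑' u : Vx d, ∑' z : Vx d, (if dt u e = R e - 1 then tauI p S 0 z * tt p (u - z) *
      ENNReal.ofReal p * H (u - z) else 0) := by
        refine tsum_congr fun u => ?_
        split_ifs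
        · rfl
        · simp
    _ = ∑' z : Vx d, ∑' u : Vx d, (if dt u e = R e - 1 then tauI p S 0 z * tt p (u - z) *
      ENNReal.ofReal p * H (u - z) else 0) := ENNReal.tsum_comm
    _ = ∑' z : Vx d, ∑' y : Vx d, (if dt z e = R e - 1 - dt y e then tauI p S 0 z * tt p y *
      ENNReal.ofReal p * H y else 0) := by
        refine tsum_congr fun z => ?_
        rw [← (Equiv.addRight z).tsum_eq]
        refine tsum_congr fun y => ?_
        simp only [Equiv.coe_addRight, add_sub_cancel_right, dt_add]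
        have : (dt y e + dt z e = R e - 1) ↔ (dt z e = R e - 1 - dt y e) := by
          constructor <;> intro h <;> omega
        simp only [this]
    _ = ∑' y : Vx d, ∑' z : Vx d, (if dt z e = R e - 1 - dt y e then tauI p S 0 z * tt p y *
      ENNReal.ofReal p * H y else 0) := ENNReal.tsum_comm
    _ = ∑' y : Vx d, tt p y * H y * (ENNReal.ofReal p *
          ∑' z : Vx d, (if dt z e = R e - 1 - dt y e then tauI p S 0 z else 0)) := by
        refine tsum_congr fun y => ?_
        rw [← ENNReal.tsum_mul_left, ← ENNReal.tsum_mul_left]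
        refine tsum_congr fun z => ?_
        split_ifs
        · ring
        · simp
    _ ≤ ∑' y : Vx d, tt p y * H y * ((1 + nm y) * F ^ 2) :=
        ENNReal.tsum_le_tsum fun y => mul_le_mul_right (key y) _
    _ ≤ ∑' y : Vx d, F ^ 2 * (tw p y * H y) := by
        refine ENNReal.tsum_le_tsum fun y => ?_
        unfold tw
        have h5 : ((1 : ℝ≥0∞) + nm y) ≤ (1 + nm y) ^ 2 := by
          rw [pow_two]
          exact le_mul_of_one_le_left (zero_le) (by simp)
        calc tt p y * H y * ((1 + nm y) * F ^ 2) = (1 + nm y) * (F ^ 2 * tt p y * H y) := by ring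
          _ ≤ (1 + nm y) ^ 2 * (F ^ 2 * tt p y * H y) := mul_le_mul_left h5 _
          _ = F ^ 2 * ((1 + nm y) ^ 2 * tt p y * H y) := by ring
    _ = F ^ 2 * ∑' y : Vx d, tw p y * H y := ENNReal.tsum_mul_left

/-- A convolution at a shifted point. -/
theorem B06_conv (H : Vx d → ℝ≥0∞) (x : Vx d) :
    ∑' y : Vx d, tw p y * H (y + x) = cv (tw p) H x := by
  unfold cv
  rw [← (Equiv.neg (Vx d)).tsum_eq]
  refine tsum_congr fun y => ?_
  rw [Equiv.neg_apply, tw_neg, neg_add_eq_sub]

theorem er1_box (hp : 0 ≤ p) (hp1 : p ≤ 1) {F w : ℝ≥0∞} (hF : 1 ≤ F)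
    (h1 : ∀ (e : Dir d) (r : ℤ), 1 ≤ r → ff p e r ≤ F)
    (hw : ∀ e : Dir d, cpw (tw p) 3 (uv e) ≤ w) (E : Finset (Dir d)) {R : Dir d → ℤ}
    (hR : ∀ e ∈ E, 1 ≤ R e) : er1 p (BoxS E R) ≤ E.card * F ^ 2 * w := by
  have hle : ∀ x : Vx d, cv (tt p) (tt p) x ≤ cpw (tw p) 2 x := by
    intro x
    have : cpw (tw (d := d) p) 2 = cv (tw p) (cpw (tw p) 1) := rfl
    rw [this, cpw_one]
    exact cv_mono (tt_le_tw p) (tt_le_tw p) x
  unfold er1
  calc _ ≤ ∑ e ∈ E, ∑' u : Vx d, (if dt u e = R e - 1 then ∑' z : Vx d,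
        tauI p (BoxS E R) 0 z * tt p (u - z) * ENNReal.ofReal p *
          cv (tt p) (tt p) (u + uv e - z) else 0) :=
        B06_exit_sum (fun q => ∑' z : Vx d, tauI p (BoxS E R) 0 z * tt p (q.1 - z) *
          ENNReal.ofReal p * cv (tt p) (tt p) (q.2 - z))
    _ ≤ ∑ e ∈ E, F ^ 2 * w := by
        refine Finset.sum_le_sum fun e he => ?_
        have h2 := B06_face_sum hp hp1 hF h1 he (hR e he)
          (fun y => cv (tt p) (tt p) (y + uv e))
        simp only [sub_add_eq_add_sub] at h2
        refine h2.trans (mul_le_mul_right ?_ _)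
        calc ∑' y : Vx d, tw p y * cv (tt p) (tt p) (y + uv e)
            = cv (tw p) (cv (tt p) (tt p)) (uv e) := B06_conv _ _
          _ ≤ cv (tw p) (cpw (tw p) 2) (uv e) := cv_mono (fun x => le_rfl) hle _
          _ ≤ w := hw e
    _ = E.card * F ^ 2 * w := by
        rw [Finset.sum_const, nsmul_eq_mul, mul_assoc]

theorem er2_box (hp : 0 ≤ p) (hp1 : p ≤ 1) {F w : ℝ≥0∞} (hF : 1 ≤ F)
    (h1 : ∀ (e : Dir d) (r : ℤ), 1 ≤ r → ff p e r ≤ F)
    (hw : ∀ e e' : Dir d, cpw (tw p) 4 (uv e - uv e') ≤ w) (E : Finset (Dir d)) {R : Dir d → ℤ}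
    (hR : ∀ e ∈ E, 1 ≤ R e) :
    er2 p (BoxS E R) ≤ (E.card : ℝ≥0∞) ^ 2 * ENNReal.ofReal p * F ^ 2 * w := by
  classical
  set S := BoxS E R with hS
  have hle : ∀ x : Vx d, cv (tt p) (cv (tt p) (tt p)) x ≤ cpw (tw p) 3 x := by
    intro x
    have e3 : cpw (tw (d := d) p) 3 = cv (tw p) (cv (tw p) (cpw (tw p) 1)) := rfl
    rw [e3, cpw_one]
    exact cv_mono (tt_le_tw p) (cv_mono (tt_le_tw p) (tt_le_tw p)) x
  -- the sum over the second exit
  set G : Vx d × Vx d → Vx d × Vx d → ℝ≥0∞ := fun q q' =>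
    ∑' z : Vx d, tauI p S 0 z * tt p (q.1 - z) * tt p (q'.1 - z) * ENNReal.ofReal p ^ 2 *
      cv (tt p) (tt p) (q.2 - q'.2) with hG
  have hsecond : ∀ (u : Vx d) (e e' : Dir d),
      ∑' u' : Vx d, (if dt u' e' = R e' - 1 then G (u, u + uv e) (u', u' + uv e') else 0) ≤
        ∑' z : Vx d, tauI p S 0 z * tt p (u - z) * ENNReal.ofReal p *
          (ENNReal.ofReal p * cv (tt p) (cv (tt p) (tt p)) (u - z + (uv e - uv e'))) := by
    intro u e e'
    calc _ ≤ ∑' u' : Vx d, G (u, u + uv e) (u', u' + uv e') := by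
          refine ENNReal.tsum_le_tsum fun u' => ?_
          split_ifs
          · exact le_rfl
          · exact zero_le
      _ = ∑' z : Vx d, ∑' u' : Vx d, tauI p S 0 z * tt p (u - z) * tt p (u' - z) *
            ENNReal.ofReal p ^ 2 * cv (tt p) (tt p) (u + uv e - (u' + uv e')) := by
          simp only [hG]
          exact ENNReal.tsum_comm
      _ = _ := by
          refine tsum_congr fun z => ?_
          rw [← (Equiv.addRight z).tsum_eq]
          simp only [Equiv.coe_addRight, add_sub_cancel_right]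
          conv_rhs => unfold cv
          rw [← ENNReal.tsum_mul_left, ← ENNReal.tsum_mul_left]
          refine tsum_congr fun y => ?_
          have : u + uv e - (y + z + uv e') = u - z + (uv e - uv e') - y := by abel
          rw [this]
          change _ = tauI p S 0 z * tt p (u - z) * ENNReal.ofReal p *
            (ENNReal.ofReal p * (tt p y * cv (tt p) (tt p) (u - z + (uv e - uv e') - y)))
          ring
  unfold er2
  calc _ ≤ ∑' q : exI S Set.univ, ∑' q' : exI S Set.univ, G q q' := by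
        refine ENNReal.tsum_le_tsum fun q => ENNReal.tsum_le_tsum fun q' => ?_
        split_ifs
        · exact zero_le
        · exact le_rfl
    _ ≤ ∑' q : exI S Set.univ, ∑ e' ∈ E, ∑' u' : Vx d,
          (if dt u' e' = R e' - 1 then G q (u', u' + uv e') else 0) :=
        ENNReal.tsum_le_tsum fun q => B06_exit_sum (fun q' => G q q')
    _ ≤ ∑ e ∈ E, ∑' u : Vx d, (if dt u e = R e - 1 then ∑ e' ∈ E, ∑' u' : Vx d,
          (if dt u' e' = R e' - 1 then G (u, u + uv e) (u', u' + uv e') else 0) else 0) :=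
        B06_exit_sum (fun q => ∑ e' ∈ E, ∑' u' : Vx d,
          (if dt u' e' = R e' - 1 then G q (u', u' + uv e') else 0))
    _ ≤ ∑ e ∈ E, ∑ e' ∈ E, ENNReal.ofReal p * F ^ 2 * w := by
        refine Finset.sum_le_sum fun e he => ?_
        calc _ = ∑' u : Vx d, ∑ e' ∈ E, (if dt u e = R e - 1 then ∑' u' : Vx d,
          (if dt u' e' = R e' - 1 then G (u, u + uv e) (u', u' + uv e') else 0) else 0) := by
              refine tsum_congr fun u => ?_
              split_ifs
              · rfl
              · simp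
          _ = ∑ e' ∈ E, ∑' u : Vx d, (if dt u e = R e - 1 then ∑' u' : Vx d,
          (if dt u' e' = R e' - 1 then G (u, u + uv e) (u', u' + uv e') else 0) else 0) :=
              Summable.tsum_finsetSum (fun _ _ => ENNReal.summable)
          _ ≤ ∑ e' ∈ E, ENNReal.ofReal p * F ^ 2 * w := by
              refine Finset.sum_le_sum fun e' he' => ?_
              have h2 := B06_face_sum hp hp1 hF h1 he (hR e he)
                (fun y => ENNReal.ofReal p * cv (tt p) (cv (tt p) (tt p)) (y + (uv e - uv e')))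
              refine le_trans (ENNReal.tsum_le_tsum fun u => ?_) (h2.trans ?_)
              · split_ifs
                · exact hsecond u e e'
                · exact le_rfl
              · calc F ^ 2 * ∑' y : Vx d, tw p y * (ENNReal.ofReal p *
                    cv (tt p) (cv (tt p) (tt p)) (y + (uv e - uv e')))
                    = F ^ 2 * (ENNReal.ofReal p * ∑' y : Vx d, tw p y *
                    cv (tt p) (cv (tt p) (tt p)) (y + (uv e - uv e'))) := by
                      congr 1
                      rw [← ENNReal.tsum_mul_left]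
                      refine tsum_congr fun y => ?_
                      ring
                  _ = F ^ 2 * (ENNReal.ofReal p *
                        cv (tw p) (cv (tt p) (cv (tt p) (tt p))) (uv e - uv e')) := by
                      rw [B06_conv]
                  _ ≤ F ^ 2 * (ENNReal.ofReal p * w) := by
                      refine mul_le_mul_right (mul_le_mul_right ?_ _) _
                      exact (cv_mono (fun x => le_rfl) hle _).trans (hw e e')
                  _ = ENNReal.ofReal p * F ^ 2 * w := by ring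
    _ = (E.card : ℝ≥0∞) ^ 2 * ENNReal.ofReal p * F ^ 2 * w := by
        rw [Finset.sum_const, Finset.sum_const, nsmul_eq_mul, nsmul_eq_mul]
        ring

end Pool.Agent.HD
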