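import Pool.Agent.Lib.MP_8ca597_hd.B05
import Pool.Agent.Lib.MP_8ca597_hd.B06

/-!
# Row B07: the flux of boxes, the bound of `q = 2 d p`

`flux_box`: `flux_le`, `er1_box`, `er2_box`. `q_le`: `S = {0}`: the exits are `(0, uv e)`,
`er1 = q * cv tt tt (uv e)`, `er2 = p² ∑_{e ≠ e'} cv tt tt (uv e - uv e')`.
-/

set_option autoImplicit false

namespace Pool.Agent.HD

open Finset
open scoped ENNReal

variable {d : ℕ} {p : ℝ}

theorem flux_box (hp : 0 ≤ p) (hp1 : p ≤ 1 / 2) (hs : Sub d p) {F w3 w4 : ℝ≥0∞} (hF : 1 ≤ F)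
    (h1 : ∀ (e : Dir d) (r : ℤ), 1 ≤ r → ff p e r ≤ F)
    (h3 : ∀ e : Dir d, cpw (tw p) 3 (uv e) ≤ w3)
    (h4 : ∀ e e' : Dir d, cpw (tw p) 4 (uv e - uv e') ≤ w4) (E : Finset (Dir d))
    {R : Dir d → ℤ} (hR : ∀ e ∈ E, 1 ≤ R e) : flux p (BoxS E R) 0 ≤
      1 + E.card * F ^ 2 * w3 + (E.card : ℝ≥0∞) ^ 2 * ENNReal.ofReal p * F ^ 2 * w4 := by
  have hp2 : p ≤ 1 := by linarith
  have h0 : (0 : Vx d) ∈ BoxS E R := by
    intro e he
    have h5 := hR e he
    have h6 : dt (0 : Vx d) e = 0 := by simp [dt]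
    rw [h6]
    omega
  refine (flux_le hp hp1 hs (BoxS E R) h0).trans ?_
  exact add_le_add (add_le_add (le_refl _) (er1_box hp hp2 hF h1 h3 E hR))
    (er2_box hp hp2 hF h1 h4 E hR)

private lemma B07_mem (e : Dir d) : ((0 : Vx d), uv e) ∈ exI ({0} : Set (Vx d)) Set.univ := by
  have h1 := uv_adj e (0 : Vx d)
  rw [zero_add] at h1
  exact ⟨rfl, Set.mem_univ _, fun h => h1.ne (Set.mem_singleton_iff.1 h).symm, h1⟩

private noncomputable def B07_equiv (d : ℕ) : Dir d ≃ exI ({0} : Set (Vx d)) Set.univ :=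
  Equiv.ofBijective (fun e => ⟨((0 : Vx d), uv e), B07_mem e⟩) (by
    constructor
    · intro e e' h
      have h1 : uv e = uv e' := congrArg (fun q => q.1.2) h
      by_contra hne
      have h2 := dt_uv_le e e' hne
      rw [h1, dt_uv] at h2
      omega
    · rintro ⟨⟨x, y⟩, h1, _, _, h4⟩
      have hx : x = 0 := h1
      subst hx
      obtain ⟨e, he⟩ := (adj_iff_uv _ _).1 h4
      change y = 0 + uv e at he
      rw [zero_add] at he
      refine ⟨e, ?_⟩
      subst he
      rfl)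

private lemma B07_card : (Fintype.card (Dir d) : ℝ≥0∞) = 2 * d := by
  rw [Fintype.card_prod, Fintype.card_fin, Fintype.card_bool]
  push_cast
  ring

private lemma B07_tsum (f : exI ({0} : Set (Vx d)) Set.univ → ℝ≥0∞) :
    ∑' q, f q = ∑ e : Dir d, f (B07_equiv d e) := by
  rw [← (B07_equiv d).tsum_eq, tsum_fintype]

private lemma B07_z (g : Vx d → ℝ≥0∞) :
    ∑' z : Vx d, tauI p ({0} : Set (Vx d)) 0 z * g z = g 0 := by
  rw [tsum_eq_single 0]
  · rw [tauI_self p (Set.mem_singleton _), one_mul]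
  · intro z hz
    rw [tauI_zero_right p (fun h => hz (Set.mem_singleton_iff.1 h)), zero_mul]

theorem q_le (hp : 0 ≤ p) (hp1 : p ≤ 1 / 2) (hs : Sub d p) {b1 b2 : ℝ≥0∞}
    (h1 : ∀ e : Dir d, cv (tt p) (tt p) (uv e) ≤ b1)
    (h2 : ∀ e e' : Dir d, e ≠ e' → cv (tt p) (tt p) (uv e - uv e') ≤ b2) :
    ENNReal.ofReal (2 * d * p) ≤ 1 + ENNReal.ofReal (2 * d * p) * b1 +
      ENNReal.ofReal (2 * d * p) ^ 2 * b2 := by
  classical
  have hq : ENNReal.ofReal (2 * d * p) = 2 * d * ENNReal.ofReal p := by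
    rw [ENNReal.ofReal_mul (by positivity)]
    congr 1
    rw [ENNReal.ofReal_mul (by norm_num), ENNReal.ofReal_natCast]
    simp
  have h0 := flux_le hp hp1 hs ({0} : Set (Vx d)) (Set.mem_singleton _)
  have hflux : flux p ({0} : Set (Vx d)) 0 = 2 * d * ENNReal.ofReal p := by
    unfold flux
    rw [B07_tsum]
    have h3 : ∀ e : Dir d, tauI p ({0} : Set (Vx d)) 0 (B07_equiv d e).1.1 * ENNReal.ofReal p =
        ENNReal.ofReal p := by
      intro e
      change tauI p ({0} : Set (Vx d)) 0 0 * ENNReal.ofReal p = _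
      rw [tauI_self p (Set.mem_singleton _), one_mul]
    simp_rw [h3]
    rw [Finset.sum_const, Finset.card_univ, nsmul_eq_mul, B07_card]
  have her1 : er1 p ({0} : Set (Vx d)) ≤ 2 * d * ENNReal.ofReal p * b1 := by
    unfold er1
    rw [B07_tsum]
    have h3 : ∀ e : Dir d, (∑' z : Vx d, tauI p ({0} : Set (Vx d)) 0 z *
        tt p ((B07_equiv d e).1.1 - z) * ENNReal.ofReal p *
        cv (tt p) (tt p) ((B07_equiv d e).1.2 - z)) ≤ ENNReal.ofReal p * b1 := by
      intro e
      have h4 := B07_z (p := p) (fun z : Vx d => tt p ((B07_equiv d e).1.1 - z) *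
        ENNReal.ofReal p * cv (tt p) (tt p) ((B07_equiv d e).1.2 - z))
      simp only [← mul_assoc] at h4
      rw [h4]
      change tt p ((0 : Vx d) - 0) * ENNReal.ofReal p * cv (tt p) (tt p) (uv e - 0) ≤ _
      rw [sub_zero, sub_zero, tt_zero, one_mul]
      gcongr
      exact h1 e
    refine (Finset.sum_le_sum fun e _ => h3 e).trans (le_of_eq ?_)
    rw [Finset.sum_const, Finset.card_univ, nsmul_eq_mul, B07_card]
    ring
  have her2 : er2 p ({0} : Set (Vx d)) ≤ (2 * d * ENNReal.ofReal p) ^ 2 * b2 := by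
    unfold er2
    rw [B07_tsum]
    have h3 : ∀ e e' : Dir d, (if B07_equiv d e = B07_equiv d e' then 0 else
        ∑' z : Vx d, tauI p ({0} : Set (Vx d)) 0 z * tt p ((B07_equiv d e).1.1 - z) *
        tt p ((B07_equiv d e').1.1 - z) * ENNReal.ofReal p ^ 2 *
        cv (tt p) (tt p) ((B07_equiv d e).1.2 - (B07_equiv d e').1.2)) ≤
        ENNReal.ofReal p ^ 2 * b2 := by
      intro e e'
      by_cases hee : B07_equiv d e = B07_equiv d e'
      · rw [if_pos hee]
        exact zero_le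
      · rw [if_neg hee]
        have hne : e ≠ e' := fun h => hee (by rw [h])
        have h4 := B07_z (p := p) (fun z : Vx d => tt p ((B07_equiv d e).1.1 - z) *
          tt p ((B07_equiv d e').1.1 - z) * ENNReal.ofReal p ^ 2 *
          cv (tt p) (tt p) ((B07_equiv d e).1.2 - (B07_equiv d e').1.2))
        simp only [← mul_assoc] at h4
        rw [h4]
        change tt p ((0 : Vx d) - 0) * tt p ((0 : Vx d) - 0) * ENNReal.ofReal p ^ 2 *
          cv (tt p) (tt p) (uv e - uv e') ≤ _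
        rw [sub_zero, tt_zero, one_mul, one_mul]
        gcongr
        exact h2 e e' hne
    refine (Finset.sum_le_sum fun e _ => (?_ : _ ≤ (2 * d : ℝ≥0∞) *
      (ENNReal.ofReal p ^ 2 * b2))).trans (le_of_eq ?_)
    · rw [B07_tsum]
      refine (Finset.sum_le_sum fun e' _ => h3 e e').trans (le_of_eq ?_)
      rw [Finset.sum_const, Finset.card_univ, nsmul_eq_mul, B07_card]
    · rw [Finset.sum_const, Finset.card_univ, nsmul_eq_mul, B07_card]
      ring
  rw [hflux] at h0
  rw [hq]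
  exact h0.trans (add_le_add (add_le_add (le_refl _) her1) her2)

end Pool.Agent.HD
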