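import Pool.Agent.Lib.MP_8ca597_hd.B01

/-!
# Row B10: the Fourier transform of finite measures on `ℤ^m`

`ft f θ = ∑ f(k) exp(i θ·k)` for `f` of finite total mass. `ft_cv`: `tsum_mul_tsum_of_summable_norm`
and the reindexing `(y, z) ↦ (y, y + z)` (`Equiv.tsum_eq`, `Summable.tsum_prod'`); the value
`(cv f g x).toReal` is the `tsum` of the `toReal` (`ENNReal.tsum_toReal_eq`). `ft_cpw`: induction,
`tsum_cpw`.
-/

set_option autoImplicit false

namespace Pool.Agent.HD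

open Finset
open scoped ENNReal

variable {m : ℕ}

/-- The character `k ↦ exp(i θ·k)`. -/
noncomputable def fch (θ : Fin m → ℝ) (k : Vx m) : ℂ :=
  Complex.exp (((∑ i, θ i * (k i : ℝ) : ℝ) : ℂ) * Complex.I)

/-- The Fourier transform. -/
noncomputable def ft (f : Vx m → ℝ≥0∞) (θ : Fin m → ℝ) : ℂ :=
  ∑' k, ((f k).toReal : ℂ) * fch θ k

theorem fch_add (θ : Fin m → ℝ) (k l : Vx m) : fch θ (k + l) = fch θ k * fch θ l := by
  unfold fch
  rw [← Complex.exp_add, ← add_mul, ← Complex.ofReal_add, ← Finset.sum_add_distrib]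
  congr 3
  refine Finset.sum_congr rfl fun i _ => ?_
  rw [Pi.add_apply, Int.cast_add, mul_add]

theorem fch_zero (θ : Fin m → ℝ) : fch θ 0 = 1 := by
  unfold fch
  simp

theorem norm_fch (θ : Fin m → ℝ) (k : Vx m) : ‖fch θ k‖ = 1 := by
  unfold fch
  exact Complex.norm_exp_ofReal_mul_I _

private theorem B10_summable {f : Vx m → ℝ≥0∞} (hf : ∑' k, f k ≠ ⊤) :
    Summable fun k => (f k).toReal := ENNReal.summable_toReal hf

private theorem B10_norm (f : Vx m → ℝ≥0∞) (θ : Fin m → ℝ) (k : Vx m) :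
    ‖((f k).toReal : ℂ) * fch θ k‖ = (f k).toReal := by
  rw [norm_mul, norm_fch, mul_one, Complex.norm_real, Real.norm_of_nonneg ENNReal.toReal_nonneg]

private theorem B10_summable_norm {f : Vx m → ℝ≥0∞} (hf : ∑' k, f k ≠ ⊤) (θ : Fin m → ℝ) :
    Summable fun k => ‖((f k).toReal : ℂ) * fch θ k‖ := by
  simp_rw [B10_norm]
  exact B10_summable hf

theorem summable_ft {f : Vx m → ℝ≥0∞} (hf : ∑' k, f k ≠ ⊤) (θ : Fin m → ℝ) :
    Summable fun k => ((f k).toReal : ℂ) * fch θ k :=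
  (B10_summable_norm hf θ).of_norm

theorem norm_ft_le {f : Vx m → ℝ≥0∞} (hf : ∑' k, f k ≠ ⊤) (θ : Fin m → ℝ) :
    ‖ft f θ‖ ≤ (∑' k, f k).toReal := by
  unfold ft
  refine (norm_tsum_le_tsum_norm (B10_summable_norm hf θ)).trans (le_of_eq ?_)
  simp_rw [B10_norm]
  rw [ENNReal.tsum_toReal_eq (fun k => ENNReal.ne_top_of_tsum_ne_top hf k)]

theorem ft_dl (θ : Fin m → ℝ) : ft dl θ = 1 := by
  unfold ft
  rw [tsum_eq_single (0 : Vx m)]
  · rw [fch_zero]; simp [dl]
  · intro k hk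
    simp [dl, hk]

/-- The reindexing. -/
private def B10_e (m : ℕ) : Vx m × Vx m ≃ Vx m × Vx m where
  toFun z := (z.2, z.1 - z.2)
  invFun w := (w.1 + w.2, w.1)
  left_inv z := Prod.ext (add_sub_cancel z.2 z.1) rfl
  right_inv w := Prod.ext rfl (add_sub_cancel_left w.1 w.2)

private theorem B10_sum {F G : Vx m → ℂ} (hF : Summable fun k => ‖F k‖)
    (hG : Summable fun k => ‖G k‖) :
    Summable fun z : Vx m × Vx m => F z.2 * G (z.1 - z.2) := by
  have h := summable_mul_of_summable_norm hF hG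
  exact ((B10_e m).summable_iff (f := fun z : Vx m × Vx m => F z.1 * G z.2)).2 h

private theorem B10_mul {F G : Vx m → ℂ} (hF : Summable fun k => ‖F k‖)
    (hG : Summable fun k => ‖G k‖) :
    (∑' k, F k) * (∑' k, G k) = ∑' x : Vx m, ∑' y : Vx m, F y * G (x - y) := by
  rw [tsum_mul_tsum_of_summable_norm hF hG]
  refine Eq.trans ?_ (B10_sum hF hG).tsum_prod
  exact ((B10_e m).tsum_eq (fun z : Vx m × Vx m => F z.1 * G z.2)).symm

private theorem B10_val (f g : Vx m → ℝ≥0∞) (θ : Fin m → ℝ) (x y : Vx m) :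
    (((f y).toReal : ℂ) * fch θ y) * (((g (x - y)).toReal : ℂ) * fch θ (x - y)) =
      ((f y * g (x - y)).toReal : ℂ) * fch θ x := by
  rw [ENNReal.toReal_mul, Complex.ofReal_mul]
  have h3 : fch θ x = fch θ y * fch θ (x - y) := by
    rw [← fch_add]; congr 1; abel
  rw [h3]; ring

private theorem B10_real {f g : Vx m → ℝ≥0∞} (hf : ∑' k, f k ≠ ⊤) (hg : ∑' k, g k ≠ ⊤)
    (x : Vx m) : (cv f g x).toReal = ∑' y, (f y * g (x - y)).toReal := by
  unfold cv
  refine ENNReal.tsum_toReal_eq fun y => ?_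
  exact ENNReal.mul_ne_top (ENNReal.ne_top_of_tsum_ne_top hf y)
    (ENNReal.ne_top_of_tsum_ne_top hg (x - y))

theorem ft_cv {f g : Vx m → ℝ≥0∞} (hf : ∑' k, f k ≠ ⊤) (hg : ∑' k, g k ≠ ⊤)
    (θ : Fin m → ℝ) : ft (cv f g) θ = ft f θ * ft g θ := by
  refine Eq.trans ?_ (B10_mul (B10_summable_norm hf θ) (B10_summable_norm hg θ)).symm
  refine tsum_congr fun x => ?_
  rw [tsum_congr fun y => B10_val f g θ x y, tsum_mul_right, ← Complex.ofReal_tsum,
    B10_real hf hg]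

theorem ft_cpw {f : Vx m → ℝ≥0∞} (hf : ∑' k, f k ≠ ⊤) (n : ℕ) (θ : Fin m → ℝ) :
    ft (cpw f n) θ = ft f θ ^ n := by
  induction n with
  | zero => rw [pow_zero]; exact ft_dl θ
  | succ n ih =>
    have h : ∑' k, cpw f n k ≠ ⊤ := by
      rw [tsum_cpw]; exact ENNReal.pow_ne_top hf
    rw [pow_succ', ← ih]
    exact ft_cv hf h θ

end Pool.Agent.HD
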