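import Pool.Agent.Lib.MP_8ca597_hd.B10

/-!
# Row B11: the inversion inequality

Let `θ_ξ i = 2 π ξ_i / N`. Then `∑_ξ ft f θ_ξ * conj (fch θ_ξ k) = ∑' l, f l ∑_ξ fch θ_ξ (l - k)
= N^m ∑_{l ≡ k mod N} f l`, which is at least `N^m f k`. The inner sum is the product over `i` of the
sums `∑_{t < N} exp(2 π i t (l_i - k_i) / N)` (`Finset.prod_univ_sum`, `Fintype.piFinset_univ`), and
each factor is `N` if `N ∣ l_i - k_i` and `0` otherwise (geometric sum; it suffices that it is a real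
number `≥ 0` and equal to `N` if `l_i = k_i`).
-/

set_option autoImplicit false

namespace Pool.Agent.HD

open Finset
open scoped ENNReal

variable {m : ℕ}

/-- The points of the grid. -/
noncomputable def grd (N : ℕ) (ξ : Fin m → Fin N) (i : Fin m) : ℝ :=
  2 * Real.pi * (ξ i : ℕ) / N

/-- The basic character. -/
private noncomputable def B11_z (N : ℕ) (a : ℤ) : ℂ :=
  Complex.exp (((2 * Real.pi * a / N : ℝ) : ℂ) * Complex.I)

open Classical in
/-- The value of the geometric sum. -/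
private noncomputable def B11_r (N : ℕ) (a : ℤ) : ℝ := if B11_z N a = 1 then N else 0

private theorem B11_r_nonneg (N : ℕ) (a : ℤ) : 0 ≤ B11_r N a := by
  unfold B11_r
  split_ifs
  · exact Nat.cast_nonneg N
  · exact le_rfl

private theorem B11_r_zero (N : ℕ) : B11_r N 0 = N := by
  have h : B11_z N 0 = 1 := by
    unfold B11_z
    simp
  unfold B11_r
  rw [if_pos h]

private theorem B11_pow {N : ℕ} (hN : 0 < N) (a : ℤ) : B11_z N a ^ N = 1 := by
  unfold B11_z
  rw [← Complex.exp_nat_mul]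
  have hN' : (N : ℂ) ≠ 0 := by exact_mod_cast hN.ne'
  have h : (N : ℂ) * (((2 * Real.pi * a / N : ℝ) : ℂ) * Complex.I) =
      (a : ℂ) * (2 * Real.pi * Complex.I) := by
    push_cast
    field_simp
  rw [h]
  exact Complex.exp_int_mul_two_pi_mul_I a

private theorem B11_geo {N : ℕ} (hN : 0 < N) (a : ℤ) :
    ∑ t : Fin N, B11_z N a ^ (t : ℕ) = ((B11_r N a : ℝ) : ℂ) := by
  rw [Fin.sum_univ_eq_sum_range (fun t => B11_z N a ^ t) N]
  unfold B11_r
  split_ifs with h
  · simp [h]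
  · have h1 := geom_sum_mul (B11_z N a) N
    rw [B11_pow hN, sub_self] at h1
    have h2 : B11_z N a - 1 ≠ 0 := sub_ne_zero.2 h
    rw [(mul_eq_zero.1 h1).resolve_right h2]
    simp

private theorem B11_fch {N : ℕ} (ξ : Fin m → Fin N) (j : Vx m) :
    fch (grd N ξ) j = ∏ i, B11_z N (j i) ^ (ξ i : ℕ) := by
  unfold fch grd B11_z
  rw [Complex.ofReal_sum, Finset.sum_mul, Complex.exp_sum]
  refine Finset.prod_congr rfl fun i _ => ?_
  rw [← Complex.exp_nat_mul]
  congr 1
  push_cast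
  ring

private theorem B11_sum {N : ℕ} (hN : 0 < N) (j : Vx m) :
    ∑ ξ : Fin m → Fin N, fch (grd N ξ) j = ((∏ i, B11_r N (j i) : ℝ) : ℂ) := by
  rw [Finset.sum_congr rfl fun ξ _ => B11_fch ξ j]
  have h := Finset.prod_univ_sum (fun _ : Fin m => (Finset.univ : Finset (Fin N)))
    (fun i (t : Fin N) => B11_z N (j i) ^ (t : ℕ))
  rw [Fintype.piFinset_univ] at h
  rw [← h, Complex.ofReal_prod]
  exact Finset.prod_congr rfl fun i _ => B11_geo hN (j i)

private theorem B11_shift {f : Vx m → ℝ≥0∞} (θ : Fin m → ℝ) (k : Vx m) :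
    ft f θ * fch θ (-k) = ∑' l, ((f l).toReal : ℂ) * fch θ (l - k) := by
  unfold ft
  rw [← tsum_mul_right]
  refine tsum_congr fun l => ?_
  rw [mul_assoc, ← fch_add, sub_eq_add_neg]

private theorem B11_summable {f : Vx m → ℝ≥0∞} (hf : ∑' k, f k ≠ ⊤) (θ : Fin m → ℝ)
    (k : Vx m) : Summable fun l => ((f l).toReal : ℂ) * fch θ (l - k) := by
  refine ((summable_ft hf θ).mul_right (fch θ (-k))).congr fun l => ?_
  rw [mul_assoc, ← fch_add, sub_eq_add_neg]

theorem le_ft {N : ℕ} (hN : 0 < N) {f : Vx m → ℝ≥0∞} (hf : ∑' k, f k ≠ ⊤) (k : Vx m) :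
    (N : ℝ) ^ m * (f k).toReal ≤ ∑ ξ : Fin m → Fin N, ‖ft f (grd N ξ)‖ := by
  -- the finite sum of the transforms
  have h1 : ∑ ξ : Fin m → Fin N, ft f (grd N ξ) * fch (grd N ξ) (-k) =
      ((∑' l, (f l).toReal * ∏ i, B11_r N ((l - k) i) : ℝ) : ℂ) := by
    rw [Finset.sum_congr rfl fun ξ _ => B11_shift (grd N ξ) k,
      ← Summable.tsum_finsetSum fun ξ _ => B11_summable hf (grd N ξ) k, Complex.ofReal_tsum]
    refine tsum_congr fun l => ?_
    rw [← Finset.mul_sum, B11_sum hN, Complex.ofReal_mul]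
  have hs : Summable fun l : Vx m => (f l).toReal * ∏ i, B11_r N ((l - k) i) := by
    have h2 : Summable fun l : Vx m => ∑ ξ : Fin m → Fin N,
        ((f l).toReal : ℂ) * fch (grd N ξ) (l - k) :=
      summable_sum fun ξ _ => B11_summable hf (grd N ξ) k
    have h3 : Summable fun l : Vx m => (((f l).toReal * ∏ i, B11_r N ((l - k) i) : ℝ) : ℂ) := by
      refine h2.congr fun l => ?_
      rw [← Finset.mul_sum, B11_sum hN, Complex.ofReal_mul]
    exact Complex.summable_ofReal.1 h3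
  have hnn : ∀ l : Vx m, 0 ≤ (f l).toReal * ∏ i, B11_r N ((l - k) i) := fun l =>
    mul_nonneg ENNReal.toReal_nonneg (Finset.prod_nonneg fun i _ => B11_r_nonneg N _)
  have h4 : (N : ℝ) ^ m * (f k).toReal ≤ ∑' l, (f l).toReal * ∏ i, B11_r N ((l - k) i) := by
    refine le_trans (le_of_eq ?_) (hs.le_tsum k fun l _ => hnn l)
    have h5 : ∏ i, B11_r N ((k - k) i) = (N : ℝ) ^ m := by
      rw [Finset.prod_congr rfl fun i _ => by rw [sub_self, Pi.zero_apply, B11_r_zero]]
      simp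
    rw [h5, mul_comm]
  have h6 : ‖((∑' l, (f l).toReal * ∏ i, B11_r N ((l - k) i) : ℝ) : ℂ)‖ =
      ∑' l, (f l).toReal * ∏ i, B11_r N ((l - k) i) := by
    rw [Complex.norm_real, Real.norm_of_nonneg (tsum_nonneg hnn)]
  refine h4.trans ?_
  rw [← h6, ← h1]
  refine (norm_sum_le _ _).trans (Finset.sum_le_sum fun ξ _ => ?_)
  rw [norm_mul, norm_fch, mul_one]

end Pool.Agent.HD
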