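import Pool.Agent.Lib.MP_8ca597_hd.B10

/-!
# Row B12: the transform of a measure on the faces of a box

`face_mass`: by permutation symmetry (a transposition) the masses of `{|k i| = r}` are equal for
all `i`, and these sets are disjoint on the support (`supp`), so `m` times this mass is at most `M0`.
`norm_ft_face`: split the sum according to the unique `i` with `|k i| = r`
(`μ r k = ∑ i, if |k i| = r then μ r k else 0` for `r ≥ 1`); for fixed `i` the reflection
`k ↦ update k i (-k i)` (an involution, `Equiv.tsum_eq`) shows that the sum is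
`∑' k, μ r k * exp(i ∑_{j ≠ i} θ j k j) * cos (θ i r)`, of modulus `≤ face mass * |cos (θ i r)|`.
(It suffices that `2 * sum = ∑' k, μ r k (fch θ k + fch θ (refl k))`, and
`|fch θ k + fch θ (refl k)| = 2 |cos (θ i k i)|`.)
-/

set_option autoImplicit false

namespace Pool.Agent.HD

open Finset
open scoped ENNReal

variable {m : ℕ} {M0 : ℝ} {μ : ℕ → Vx m → ℝ≥0∞}

theorem IsFace.ne_top (h : IsFace M0 μ) {r : ℕ} (hr : 1 ≤ r) : ∑' k, μ r k ≠ ⊤ :=
  ne_top_of_le_ne_top ENNReal.ofReal_ne_top (h.mass r hr)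

/-- The part of the measure on the `i`-th faces. -/
private def B12_g (μ : ℕ → Vx m → ℝ≥0∞) (r : ℕ) (i : Fin m) (k : Vx m) : ℝ≥0∞ :=
  if (k i).natAbs = r then μ r k else 0

private theorem B12_sum (h : IsFace M0 μ) {r : ℕ} (hr : 1 ≤ r) (k : Vx m) :
    ∑ i, B12_g μ r i k = μ r k := by
  by_cases h0 : μ r k = 0
  · rw [h0]
    refine Finset.sum_eq_zero fun i _ => ?_
    unfold B12_g
    rw [h0, ite_self]
  · obtain ⟨_, i, hi, huniq⟩ := h.supp r k hr h0
    rw [Finset.sum_eq_single i]
    · unfold B12_g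
      rw [if_pos hi]
    · intro j _ hj
      unfold B12_g
      rw [if_neg]
      exact fun hj' => hj (huniq j hj')
    · intro hi'
      exact absurd (Finset.mem_univ i) hi'

private theorem B12_le (r : ℕ) (i : Fin m) (k : Vx m) : B12_g μ r i k ≤ μ r k := by
  unfold B12_g
  split_ifs
  · exact le_rfl
  · exact zero_le

/-- Permutation of the coordinates. -/
private def B12_pe (π : Equiv.Perm (Fin m)) : Vx m ≃ Vx m where
  toFun k := fun i => k (π i)
  invFun k := fun i => k (π.symm i)
  left_inv k := by funext i; simp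
  right_inv k := by funext i; simp

private theorem B12_eq (h : IsFace M0 μ) (r : ℕ) (i j : Fin m) :
    ∑' k, B12_g μ r i k = ∑' k, B12_g μ r j k := by
  rw [← (B12_pe (Equiv.swap i j)).tsum_eq]
  refine tsum_congr fun k => ?_
  have h1 : (B12_pe (Equiv.swap i j) k) i = k j := by
    change k (Equiv.swap i j i) = k j
    rw [Equiv.swap_apply_left]
  have h2 : μ r (B12_pe (Equiv.swap i j) k) = μ r k := h.perm r k (Equiv.swap i j)
  unfold B12_g
  rw [h1, h2]

theorem face_mass (h : IsFace M0 μ) {r : ℕ} (hr : 1 ≤ r) (i : Fin m) :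
    (m : ℝ≥0∞) * (∑' k, if (k i).natAbs = r then μ r k else 0) ≤ ENNReal.ofReal M0 := by
  have h1 : (m : ℝ≥0∞) * (∑' k, B12_g μ r i k) = ∑ j : Fin m, ∑' k, B12_g μ r j k := by
    rw [Finset.sum_congr rfl fun j _ => B12_eq h r j i, Finset.sum_const, Finset.card_univ,
      Fintype.card_fin, nsmul_eq_mul]
  have h2 : ∑ j : Fin m, ∑' k, B12_g μ r j k = ∑' k, μ r k := by
    rw [← Summable.tsum_finsetSum fun j _ => ENNReal.summable]
    exact tsum_congr fun k => B12_sum h hr k
  have h3 := h.mass r hr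
  rw [← h2, ← h1] at h3
  exact h3

/-- Reflection of one coordinate. -/
private def B12_re (i : Fin m) : Vx m ≃ Vx m where
  toFun k := Function.update k i (-k i)
  invFun k := Function.update k i (-k i)
  left_inv k := by
    change Function.update (Function.update k i (-k i)) i
      (-(Function.update k i (-k i) i)) = k
    rw [Function.update_self, neg_neg, Function.update_idem, Function.update_eq_self]
  right_inv k := by
    change Function.update (Function.update k i (-k i)) i
      (-(Function.update k i (-k i) i)) = k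
    rw [Function.update_self, neg_neg, Function.update_idem, Function.update_eq_self]

private theorem B12_refl (h : IsFace M0 μ) (r : ℕ) (i : Fin m) (k : Vx m) :
    B12_g μ r i (B12_re i k) = B12_g μ r i k := by
  have h1 : (B12_re i k) i = -k i := by
    change Function.update k i (-k i) i = -k i
    rw [Function.update_self]
  have h2 : μ r (B12_re i k) = μ r k := h.refl r k i
  unfold B12_g
  rw [h1, h2, Int.natAbs_neg]

private theorem B12_trig (A t : ℝ) :
    Complex.exp (((A + t : ℝ) : ℂ) * Complex.I) + Complex.exp (((A - t : ℝ) : ℂ) * Complex.I) =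
      Complex.exp ((A : ℂ) * Complex.I) * (2 * (Real.cos t : ℝ)) := by
  have h1 : ((A + t : ℝ) : ℂ) * Complex.I = (A : ℂ) * Complex.I + (t : ℂ) * Complex.I := by
    push_cast; ring
  have h2 : ((A - t : ℝ) : ℂ) * Complex.I = (A : ℂ) * Complex.I + (-(t : ℂ)) * Complex.I := by
    push_cast; ring
  rw [h1, h2, Complex.exp_add, Complex.exp_add, Complex.ofReal_cos, Complex.two_cos]
  ring

private theorem B12_fch (θ : Fin m → ℝ) (i : Fin m) (k : Vx m) :
    ‖fch θ k + fch θ (B12_re i k)‖ = 2 * |Real.cos (θ i * (k i : ℝ))| := by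
  have hupd : (∑ j, θ j * ((B12_re i k) j : ℝ)) =
      (∑ j, θ j * (k j : ℝ)) - 2 * (θ i * (k i : ℝ)) := by
    have h1 : ∀ j, θ j * ((B12_re i k) j : ℝ) = θ j * (k j : ℝ) -
        (if j = i then 2 * (θ i * (k i : ℝ)) else 0) := by
      intro j
      change θ j * ((Function.update k i (-k i) j : ℤ) : ℝ) = _
      rcases eq_or_ne j i with rfl | hj
      · rw [Function.update_self, if_pos rfl]
        push_cast
        ring
      · rw [Function.update_of_ne hj, if_neg hj, sub_zero]
    rw [Finset.sum_congr rfl fun j _ => h1 j, Finset.sum_sub_distrib, Finset.sum_ite_eq']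
    simp
  unfold fch
  rw [hupd]
  have hA := B12_trig ((∑ j, θ j * (k j : ℝ)) - θ i * (k i : ℝ)) (θ i * (k i : ℝ))
  have e1 : (∑ j, θ j * (k j : ℝ)) - θ i * (k i : ℝ) + θ i * (k i : ℝ) =
      ∑ j, θ j * (k j : ℝ) := by ring
  have e2 : (∑ j, θ j * (k j : ℝ)) - θ i * (k i : ℝ) - θ i * (k i : ℝ) =
      (∑ j, θ j * (k j : ℝ)) - 2 * (θ i * (k i : ℝ)) := by ring
  rw [e1, e2] at hA
  rw [hA, norm_mul, Complex.norm_exp_ofReal_mul_I, one_mul, norm_mul, Complex.norm_real,
    Real.norm_eq_abs]
  simp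

private theorem B12_ne_top (h : IsFace M0 μ) {r : ℕ} (hr : 1 ≤ r) (i : Fin m) :
    ∑' k, B12_g μ r i k ≠ ⊤ :=
  ne_top_of_le_ne_top (h.ne_top hr) (ENNReal.tsum_le_tsum fun k => B12_le r i k)

private theorem B12_cos (θ : Fin m → ℝ) (r : ℕ) (i : Fin m) (k : Vx m) :
    (B12_g μ r i k).toReal * |Real.cos (θ i * (k i : ℝ))| =
      (B12_g μ r i k).toReal * |Real.cos (θ i * r)| := by
  unfold B12_g
  split_ifs with hk
  · congr 2
    rcases Int.natAbs_eq (k i) with h1 | h1
    · rw [hk] at h1
      rw [h1]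
      simp
    · rw [hk] at h1
      rw [h1]
      push_cast
      rw [mul_neg, Real.cos_neg]
  · simp

private theorem B12_face (h : IsFace M0 μ) {r : ℕ} (hr : 1 ≤ r) (θ : Fin m → ℝ) (i : Fin m) :
    ‖ft (B12_g μ r i) θ‖ ≤ |Real.cos (θ i * r)| * (∑' k, B12_g μ r i k).toReal := by
  have hs := summable_ft (B12_ne_top h hr i) θ
  have h1 : ft (B12_g μ r i) θ = ∑' k, ((B12_g μ r i k).toReal : ℂ) * fch θ (B12_re i k) := by
    unfold ft
    rw [← (B12_re i).tsum_eq]
    exact tsum_congr fun k => by rw [B12_refl h]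
  have hs' : Summable fun k => ((B12_g μ r i k).toReal : ℂ) * fch θ (B12_re i k) := by
    have h2 : Summable ((fun k => ((B12_g μ r i k).toReal : ℂ) * fch θ k) ∘ (B12_re i)) :=
      ((B12_re i).summable_iff).2 hs
    refine h2.congr fun k => ?_
    change ((B12_g μ r i (B12_re i k)).toReal : ℂ) * fch θ (B12_re i k) = _
    rw [B12_refl h]
  have h3 : 2 * ft (B12_g μ r i) θ =
      ∑' k, ((B12_g μ r i k).toReal : ℂ) * (fch θ k + fch θ (B12_re i k)) := by
    rw [two_mul]
    nth_rewrite 2 [h1]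
    unfold ft
    rw [← hs.tsum_add hs']
    exact tsum_congr fun k => by ring
  have h4 : ∀ k, ‖((B12_g μ r i k).toReal : ℂ) * (fch θ k + fch θ (B12_re i k))‖ =
      (B12_g μ r i k).toReal * (2 * |Real.cos (θ i * r)|) := by
    intro k
    rw [norm_mul, Complex.norm_real, Real.norm_of_nonneg ENNReal.toReal_nonneg, B12_fch]
    have := B12_cos (μ := μ) θ r i k
    linear_combination 2 * this
  have hsr : Summable fun k => (B12_g μ r i k).toReal :=
    ENNReal.summable_toReal (B12_ne_top h hr i)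
  have h5 : Summable fun k => ‖((B12_g μ r i k).toReal : ℂ) *
      (fch θ k + fch θ (B12_re i k))‖ := by
    refine (hsr.mul_right (2 * |Real.cos (θ i * r)|)).congr fun k => (h4 k).symm
  have h6 : ‖2 * ft (B12_g μ r i) θ‖ ≤
      (∑' k, B12_g μ r i k).toReal * (2 * |Real.cos (θ i * r)|) := by
    rw [h3]
    refine (norm_tsum_le_tsum_norm h5).trans (le_of_eq ?_)
    rw [tsum_congr h4, tsum_mul_right,
      ENNReal.tsum_toReal_eq fun k => ENNReal.ne_top_of_tsum_ne_top (B12_ne_top h hr i) k]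
  rw [norm_mul] at h6
  have h7 : ‖(2 : ℂ)‖ = 2 := by simp
  rw [h7] at h6
  linarith

theorem norm_ft_face (h : IsFace M0 μ) (hM : 0 ≤ M0) {r : ℕ} (hr : 1 ≤ r) (θ : Fin m → ℝ) :
    ‖ft (μ r) θ‖ ≤ M0 / m * ∑ i, |Real.cos (θ i * r)| := by
  have h1 : ft (μ r) θ = ∑ i, ft (B12_g μ r i) θ := by
    unfold ft
    rw [← Summable.tsum_finsetSum fun i _ => summable_ft (B12_ne_top h hr i) θ]
    refine tsum_congr fun k => ?_
    rw [← Finset.sum_mul, ← Complex.ofReal_sum]
    congr 2
    rw [← B12_sum h hr k, ENNReal.toReal_sum]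
    intro i _
    exact ENNReal.ne_top_of_tsum_ne_top (B12_ne_top h hr i) k
  rw [h1, Finset.mul_sum]
  refine (norm_sum_le _ _).trans (Finset.sum_le_sum fun i _ => ?_)
  refine (B12_face h hr θ i).trans ?_
  rw [mul_comm]
  refine mul_le_mul_of_nonneg_right ?_ (abs_nonneg _)
  have hm : (0 : ℝ) < m := by exact_mod_cast i.pos
  rw [le_div_iff₀ hm, mul_comm]
  have h2 := ENNReal.toReal_mono ENNReal.ofReal_ne_top (face_mass h hr i)
  rw [ENNReal.toReal_mul, ENNReal.toReal_natCast, ENNReal.toReal_ofReal hM] at h2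
  exact h2

end Pool.Agent.HD
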