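import Pool.Agent.Lib.MP_8ca597_hd.B12

/-!
# Row B13: averages of cosines

`aR_le_78`: Cauchy-Schwarz, `aR² ≤ (1/R) ∑ cos²(t r) = 1/2 + (1/(2R)) ∑ cos (2 t r)`, and
`|∑_{r ∈ Ico R (2R)} cos (2 t r)| * |sin t| ≤ 1` (telescoping:
`2 sin t cos (2 t r) = sin ((2 r + 1) t) - sin ((2 r - 1) t)`); so `aR² ≤ 3/4 ≤ (7/8)²`.
`norm_ft_mub`: linearity of `ft` on finite sums and multiples, `norm_ft_face`.
-/

set_option autoImplicit false

namespace Pool.Agent.HD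

open Finset
open scoped ENNReal

/-- The average of `|cos (t r)|` over `R ≤ r < 2 R`. -/
noncomputable def aR (R : ℕ) (t : ℝ) : ℝ := (R : ℝ)⁻¹ * ∑ r ∈ Ico R (2 * R), |Real.cos (t * r)|

theorem aR_nonneg (R : ℕ) (t : ℝ) : 0 ≤ aR R t := by
  unfold aR
  positivity

private theorem B13_card (R : ℕ) : (Ico R (2 * R)).card = R := by
  rw [Nat.card_Ico]; omega

theorem aR_le_one (R : ℕ) (t : ℝ) : aR R t ≤ 1 := by
  unfold aR
  rcases Nat.eq_zero_or_pos R with rfl | hR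
  · simp
  · have hR' : (0 : ℝ) < R := by exact_mod_cast hR
    rw [inv_mul_le_iff₀ hR', mul_one]
    calc ∑ r ∈ Ico R (2 * R), |Real.cos (t * r)| ≤ ∑ r ∈ Ico R (2 * R), (1 : ℝ) :=
          Finset.sum_le_sum fun r _ => Real.abs_cos_le_one _
      _ = R := by rw [Finset.sum_const, B13_card]; simp

private theorem B13_tel (R : ℕ) (t : ℝ) :
    |∑ r ∈ Ico R (2 * R), Real.cos (2 * (t * r))| * |Real.sin t| ≤ 1 := by
  have h1 : ∀ r : ℕ, 2 * Real.sin t * Real.cos (2 * (t * r)) =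
      Real.sin ((2 * ((r + 1 : ℕ) : ℝ) - 1) * t) - Real.sin ((2 * (r : ℝ) - 1) * t) := by
    intro r
    have e1 : ((2 * ((r + 1 : ℕ) : ℝ) - 1) * t - (2 * (r : ℝ) - 1) * t) / 2 = t := by
      push_cast; ring
    have e2 : ((2 * ((r + 1 : ℕ) : ℝ) - 1) * t + (2 * (r : ℝ) - 1) * t) / 2 = 2 * (t * r) := by
      push_cast; ring
    rw [Real.sin_sub_sin, e1, e2]
  have h2 : ∑ r ∈ Ico R (2 * R), (Real.sin ((2 * ((r + 1 : ℕ) : ℝ) - 1) * t) -
      Real.sin ((2 * (r : ℝ) - 1) * t)) =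
      Real.sin ((2 * ((2 * R : ℕ) : ℝ) - 1) * t) - Real.sin ((2 * (R : ℝ) - 1) * t) :=
    Finset.sum_Ico_sub (fun r : ℕ => Real.sin ((2 * (r : ℝ) - 1) * t)) (by omega)
  have h3 : 2 * Real.sin t * ∑ r ∈ Ico R (2 * R), Real.cos (2 * (t * r)) =
      Real.sin ((2 * ((2 * R : ℕ) : ℝ) - 1) * t) - Real.sin ((2 * (R : ℝ) - 1) * t) := by
    rw [Finset.mul_sum, ← h2]
    exact Finset.sum_congr rfl fun r _ => h1 r
  have h4 : |2 * Real.sin t * ∑ r ∈ Ico R (2 * R), Real.cos (2 * (t * r))| ≤ 2 := by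
    rw [h3]
    refine (abs_sub _ _).trans ?_
    linarith [Real.abs_sin_le_one ((2 * ((2 * R : ℕ) : ℝ) - 1) * t),
      Real.abs_sin_le_one ((2 * (R : ℝ) - 1) * t)]
  rw [abs_mul, abs_mul, abs_two] at h4
  linarith

theorem aR_le_78 {R : ℕ} {t : ℝ} (h : 2 ≤ R * |Real.sin t|) : aR R t ≤ 7 / 8 := by
  have hR : (0 : ℝ) < R := by
    rcases Nat.eq_zero_or_pos R with rfl | hR
    · norm_num at h
    · exact_mod_cast hR
  have hs : 0 < |Real.sin t| := by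
    rcases (abs_nonneg (Real.sin t)).eq_or_lt with h0 | h0
    · rw [← h0, mul_zero] at h
      norm_num at h
    · exact h0
  set A := ∑ r ∈ Ico R (2 * R), |Real.cos (t * r)| with hA
  set C := ∑ r ∈ Ico R (2 * R), Real.cos (2 * (t * r)) with hC
  have h1 : A ^ 2 ≤ R * ∑ r ∈ Ico R (2 * R), Real.cos (t * r) ^ 2 := by
    have := sq_sum_le_card_mul_sum_sq (s := Ico R (2 * R)) (f := fun r : ℕ => |Real.cos (t * r)|)
    rw [B13_card] at this
    simpa [sq_abs] using this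
  have h2 : ∑ r ∈ Ico R (2 * R), Real.cos (t * r) ^ 2 = R / 2 + C / 2 := by
    have : ∀ r ∈ Ico R (2 * R), Real.cos (t * r) ^ 2 = 1 / 2 + Real.cos (2 * (t * r)) / 2 :=
      fun r _ => Real.cos_sq _
    rw [Finset.sum_congr rfl this, Finset.sum_add_distrib, Finset.sum_const, B13_card,
      ← Finset.sum_div, nsmul_eq_mul]
    ring
  have h3 : |C| * |Real.sin t| ≤ 1 := B13_tel R t
  have h4 : |C| ≤ R / 2 := by
    by_contra hcon
    rw [not_le] at hcon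
    have : R / 2 * |Real.sin t| < |C| * |Real.sin t| := mul_lt_mul_of_pos_right hcon hs
    linarith
  have h5 : C ≤ R / 2 := (le_abs_self C).trans h4
  have h6 : A ^ 2 ≤ (7 / 8 * R) ^ 2 := by
    rw [h2] at h1
    nlinarith
  have h7 : A ≤ 7 / 8 * R := by
    refine le_of_sq_le_sq ?_ (by positivity)
    exact h6
  unfold aR
  rw [inv_mul_le_iff₀ hR]
  linarith

variable {m : ℕ} {M0 : ℝ} {μ : ℕ → Vx m → ℝ≥0∞}

theorem tsum_mub (h : IsFace M0 μ) {R : ℕ} (hR : 1 ≤ R) :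
    ∑' k, mub μ R k ≤ ENNReal.ofReal M0 := by
  unfold mub
  have hR0 : (R : ℝ≥0∞) ≠ 0 := by
    have : R ≠ 0 := by omega
    exact_mod_cast this
  rw [ENNReal.tsum_mul_left, Summable.tsum_finsetSum fun _ _ => ENNReal.summable]
  calc (R : ℝ≥0∞)⁻¹ * ∑ r ∈ Ico R (2 * R), ∑' k, μ r k
      ≤ (R : ℝ≥0∞)⁻¹ * ∑ r ∈ Ico R (2 * R), ENNReal.ofReal M0 := by
        refine mul_le_mul' (le_refl _) (Finset.sum_le_sum fun r hr => ?_)
        exact h.mass r (hR.trans (Finset.mem_Ico.1 hr).1)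
    _ = ENNReal.ofReal M0 := by
        rw [Finset.sum_const, B13_card, nsmul_eq_mul, ← mul_assoc,
          ENNReal.inv_mul_cancel hR0 (ENNReal.natCast_ne_top R), one_mul]

theorem norm_ft_mub (h : IsFace M0 μ) (hM : 0 ≤ M0) {R : ℕ} (hR : 1 ≤ R) (θ : Fin m → ℝ) :
    ‖ft (mub μ R) θ‖ ≤ M0 * ((∑ i, aR R (θ i)) / m) := by
  have hR' : (0 : ℝ) < R := by exact_mod_cast hR
  have hr1 : ∀ r ∈ Ico R (2 * R), 1 ≤ r := fun r hr => hR.trans (Finset.mem_Ico.1 hr).1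
  have hfin : ∀ r ∈ Ico R (2 * R), ∀ k, μ r k ≠ ⊤ := fun r hr k =>
    ENNReal.ne_top_of_tsum_ne_top (h.ne_top (hr1 r hr)) k
  have h1 : ∀ k, (mub μ R k).toReal = (R : ℝ)⁻¹ * ∑ r ∈ Ico R (2 * R), (μ r k).toReal := by
    intro k
    unfold mub
    rw [ENNReal.toReal_mul, ENNReal.toReal_inv, ENNReal.toReal_natCast,
      ENNReal.toReal_sum fun r hr => hfin r hr k]
  have h2 : ft (mub μ R) θ = (R : ℂ)⁻¹ * ∑ r ∈ Ico R (2 * R), ft (μ r) θ := by
    unfold ft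
    rw [← Summable.tsum_finsetSum fun r hr => summable_ft (h.ne_top (hr1 r hr)) θ,
      ← tsum_mul_left]
    refine tsum_congr fun k => ?_
    rw [h1]
    push_cast
    rw [Finset.mul_sum, Finset.mul_sum, Finset.sum_mul]
    refine Finset.sum_congr rfl fun r _ => ?_
    ring
  rw [h2, norm_mul, norm_inv, Complex.norm_natCast]
  have h3 : ‖∑ r ∈ Ico R (2 * R), ft (μ r) θ‖ ≤
      ∑ r ∈ Ico R (2 * R), M0 / m * ∑ i, |Real.cos (θ i * r)| :=
    (norm_sum_le _ _).trans (Finset.sum_le_sum fun r hr => norm_ft_face h hM (hr1 r hr) θ)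
  calc (R : ℝ)⁻¹ * ‖∑ r ∈ Ico R (2 * R), ft (μ r) θ‖
      ≤ (R : ℝ)⁻¹ * ∑ r ∈ Ico R (2 * R), M0 / m * ∑ i, |Real.cos (θ i * r)| :=
        mul_le_mul_of_nonneg_left h3 (by positivity)
    _ = M0 * ((∑ i, aR R (θ i)) / m) := by
        rw [← Finset.mul_sum, Finset.sum_comm]
        unfold aR
        rw [← Finset.mul_sum]
        ring

end Pool.Agent.HD
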