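import Pool.Agent.Lib.MP_8ca597_hd.B13

/-!
# Row B14: the transform of the multiscale convolution

`mean_pow`: with `x ≤ exp (x - 1)`: the mean of the `a i` is at most `exp (-(1/m) ∑ (1 - a i))`, so
its power `16 m` is at most `∏ exp (-16 (1 - a i))`; if `a i ≤ 7/8` the factor is
`≤ exp (-2) ≤ 1/4`. `norm_ft_nu`: induction on `J`, `ft_cv`, `ft_cpw`, `norm_ft_mub`, `mean_pow`,
`aR_le_78` (if `2 ≤ 2^j |sin t|` then `aR (2^j) t ≤ 7/8`).
-/

set_option autoImplicit false

namespace Pool.Agent.HD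

open Finset
open scoped ENNReal

variable {m : ℕ} {M0 : ℝ} {μ : ℕ → Vx m → ℝ≥0∞}

open Classical in
theorem mean_pow (hm : 1 ≤ m) (a : Fin m → ℝ) (h0 : ∀ i, 0 ≤ a i) (h1 : ∀ i, a i ≤ 1) :
    ((∑ i, a i) / m) ^ (16 * m) ≤ ∏ i, if a i ≤ 7 / 8 then (1 / 4 : ℝ) else 1 := by
  have hm0 : (0 : ℝ) < m := by exact_mod_cast hm
  have hS : 0 ≤ (∑ i, a i) / m := div_nonneg (Finset.sum_nonneg fun i _ => h0 i) hm0.le
  have h2 : (∑ i, a i) / m ≤ Real.exp ((∑ i, a i) / m - 1) := by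
    have := Real.add_one_le_exp ((∑ i, a i) / m - 1)
    linarith
  calc ((∑ i, a i) / m) ^ (16 * m) ≤ Real.exp ((∑ i, a i) / m - 1) ^ (16 * m) :=
        pow_le_pow_left₀ hS h2 _
    _ = Real.exp (∑ i, -16 * (1 - a i)) := by
        rw [← Real.exp_nat_mul]
        congr 1
        rw [← Finset.mul_sum, Finset.sum_sub_distrib]
        simp only [Finset.sum_const, Finset.card_univ, Fintype.card_fin, nsmul_eq_mul, mul_one]
        push_cast
        field_simp
        ring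
    _ = ∏ i, Real.exp (-16 * (1 - a i)) := Real.exp_sum _ _
    _ ≤ ∏ i, if a i ≤ 7 / 8 then (1 / 4 : ℝ) else 1 := by
        apply Finset.prod_le_prod
        · intro i _; exact (Real.exp_pos _).le
        · intro i _
          split_ifs with h
          · have h3 : Real.exp (-16 * (1 - a i)) ≤ Real.exp (-2) := by
              apply Real.exp_le_exp.mpr; linarith
            have h4 : (4 : ℝ) ≤ Real.exp 2 := by
              have h5 := Real.add_one_le_exp (1 : ℝ)
              have h6 : Real.exp 2 = Real.exp 1 * Real.exp 1 := by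
                rw [← Real.exp_add]; norm_num
              rw [h6]
              nlinarith
            rw [Real.exp_neg] at h3
            refine h3.trans ?_
            rw [one_div]
            exact inv_anti₀ (by norm_num) h4
          · rw [Real.exp_le_one_iff]
            have := h1 i
            linarith

open Classical in
/-- The one-dimensional factor. -/
noncomputable def hh (J : ℕ) (t : ℝ) : ℝ :=
  ∏ j ∈ range (J + 1), if 2 ≤ (2 : ℝ) ^ j * |Real.sin t| then (1 / 4 : ℝ) else 1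

theorem tsum_cpw_mub (h : IsFace M0 μ) (hM : 1 ≤ M0) {R : ℕ} (hR : 1 ≤ R) :
    ∑' k, cpw (mub μ R) (16 * m) k ≤ ENNReal.ofReal (M0 ^ (16 * m)) := by
  rw [tsum_cpw, ENNReal.ofReal_pow (by linarith)]
  exact pow_le_pow_left' (tsum_mub h hR) _

theorem tsum_nu (hm : 1 ≤ m) (h : IsFace M0 μ) (hM : 1 ≤ M0) (J : ℕ) :
    ∑' k, nu μ J k ≤ ENNReal.ofReal (M0 ^ (16 * m * (J + 1))) := by
  induction J with
  | zero =>
    have := tsum_cpw_mub h hM (le_refl 1)
    simpa [nu] using this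
  | succ J ih =>
    show ∑' k, cv (cpw (mub μ (2 ^ (J + 1))) (16 * m)) (nu μ J) k ≤ _
    rw [tsum_cv]
    have h2 := tsum_cpw_mub h hM (R := 2 ^ (J + 1)) Nat.one_le_two_pow
    refine (mul_le_mul' h2 ih).trans ?_
    rw [← ENNReal.ofReal_mul (by positivity), ← pow_add]
    apply le_of_eq
    congr 2
    ring

open Classical in
theorem norm_ft_step (hm : 1 ≤ m) (h : IsFace M0 μ) (hM : 1 ≤ M0) (j : ℕ) (θ : Fin m → ℝ) :
    ‖ft (cpw (mub μ (2 ^ j)) (16 * m)) θ‖ ≤ M0 ^ (16 * m) *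
      ∏ i, if 2 ≤ (2 : ℝ) ^ j * |Real.sin (θ i)| then (1 / 4 : ℝ) else 1 := by
  have hR : 1 ≤ 2 ^ j := Nat.one_le_two_pow
  have hfin : ∑' k, mub μ (2 ^ j) k ≠ ⊤ := ((tsum_mub h hR).trans_lt ENNReal.ofReal_lt_top).ne
  rw [ft_cpw hfin, norm_pow]
  have h1 := norm_ft_mub h (by linarith) hR θ
  have h2 := mean_pow hm (fun i => aR (2 ^ j) (θ i)) (fun i => aR_nonneg _ _)
    (fun i => aR_le_one _ _)
  calc ‖ft (mub μ (2 ^ j)) θ‖ ^ (16 * m)
      ≤ (M0 * ((∑ i, aR (2 ^ j) (θ i)) / m)) ^ (16 * m) := pow_le_pow_left₀ (norm_nonneg _) h1 _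
    _ = M0 ^ (16 * m) * ((∑ i, aR (2 ^ j) (θ i)) / m) ^ (16 * m) := mul_pow _ _ _
    _ ≤ M0 ^ (16 * m) * ∏ i, if aR (2 ^ j) (θ i) ≤ 7 / 8 then (1 / 4 : ℝ) else 1 :=
        mul_le_mul_of_nonneg_left h2 (by positivity)
    _ ≤ M0 ^ (16 * m) * ∏ i, if 2 ≤ (2 : ℝ) ^ j * |Real.sin (θ i)| then (1 / 4 : ℝ) else 1 := by
        apply mul_le_mul_of_nonneg_left _ (by positivity)
        apply Finset.prod_le_prod
        · intro i _; split_ifs <;> norm_num
        · intro i _
          by_cases hc : 2 ≤ (2 : ℝ) ^ j * |Real.sin (θ i)|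
          · have h3 : aR (2 ^ j) (θ i) ≤ 7 / 8 := by
              apply aR_le_78
              push_cast
              exact hc
            rw [if_pos h3, if_pos hc]
          · rw [if_neg hc]
            split_ifs <;> norm_num

theorem norm_ft_nu (hm : 1 ≤ m) (h : IsFace M0 μ) (hM : 1 ≤ M0) (J : ℕ) (θ : Fin m → ℝ) :
    ‖ft (nu μ J) θ‖ ≤ M0 ^ (16 * m * (J + 1)) * ∏ i, hh J (θ i) := by
  classical
  induction J with
  | zero =>
    have h1 := norm_ft_step hm h hM 0 θ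
    have h2 : nu μ 0 = cpw (mub μ (2 ^ 0)) (16 * m) := by rw [pow_zero]; rfl
    rw [h2]
    refine h1.trans (le_of_eq ?_)
    simp [hh]
  | succ J ih =>
    have h1 := norm_ft_step hm h hM (J + 1) θ
    have h2 : nu μ (J + 1) = cv (cpw (mub μ (2 ^ (J + 1))) (16 * m)) (nu μ J) := rfl
    have f1 : ∑' k, cpw (mub μ (2 ^ (J + 1))) (16 * m) k ≠ ⊤ :=
      ((tsum_cpw_mub h hM (R := 2 ^ (J + 1)) Nat.one_le_two_pow).trans_lt
        ENNReal.ofReal_lt_top).ne
    have f2 : ∑' k, nu μ J k ≠ ⊤ := ((tsum_nu hm h hM J).trans_lt ENNReal.ofReal_lt_top).ne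
    rw [h2, ft_cv f1 f2, norm_mul]
    have h3 : ∀ i, hh (J + 1) (θ i) = hh J (θ i) *
        (if 2 ≤ (2 : ℝ) ^ (J + 1) * |Real.sin (θ i)| then (1 / 4 : ℝ) else 1) := by
      intro i
      unfold hh
      rw [Finset.prod_range_succ]
    refine (mul_le_mul h1 ih (norm_nonneg _) ?_).trans (le_of_eq ?_)
    · apply mul_nonneg (by positivity)
      apply Finset.prod_nonneg
      intro i _
      split_ifs <;> norm_num
    · rw [Finset.prod_congr rfl (fun i _ => h3 i), Finset.prod_mul_distrib]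
      ring

end Pool.Agent.HD
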