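import Pool.Agent.Lib.MP_8ca597_hd.B14

/-!
# Row B15: the one-dimensional sum

`card_sin`: `|sin (π y)| ≥ 2 dist(y, ℤ)`; with `y = 2 t / N`, `|sin (2 π t / N)| < x` implies
`|2 t / N - n| < x / 2` for some `n ∈ {0, 1, 2}`, at most `N x / 2 + 1` values of `t` for each `n`.
`hh_le`: the set of the `j ≤ J` with `2 ≤ 2^j |sin t|` is `{j0, ..., J}` for some `1 ≤ j0 ≤ J + 1`
(`j0 ≥ 1` as `|sin t| ≤ 1`), `hh J t = 4^(-(J + 1 - j0))`, and `2^(j0 - 1) |sin t| < 2`.
`sum_hh`: sum `hh_le` over `t`, `card_sin` with `x = 4 / 2^j0`, geometric series.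
-/

set_option autoImplicit false

namespace Pool.Agent.HD

open Finset
open scoped ENNReal

theorem card_near (s : Finset ℕ) {c L : ℝ} (hL : 0 < L) (h : ∀ t ∈ s, |(t : ℝ) - c| < L / 2) :
    (s.card : ℝ) ≤ L + 1 := by
  rcases s.eq_empty_or_nonempty with rfl | hne
  · simp; linarith
  · have h1 : s ⊆ Icc (s.min' hne) (s.max' hne) := by
      intro t ht
      exact mem_Icc.mpr ⟨s.min'_le t ht, s.le_max' t ht⟩
    have h2 := card_le_card h1
    rw [Nat.card_Icc] at h2
    have h3 := abs_lt.mp (h _ (s.min'_mem hne))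
    have h4 := abs_lt.mp (h _ (s.max'_mem hne))
    have h5 : s.min' hne ≤ s.max' hne := s.min'_le _ (s.max'_mem hne)
    have h6 : (s.card : ℝ) ≤ (s.max' hne : ℝ) + 1 - (s.min' hne : ℝ) := by
      have : s.card + s.min' hne ≤ s.max' hne + 1 := by omega
      have h7 : ((s.card + s.min' hne : ℕ) : ℝ) ≤ ((s.max' hne + 1 : ℕ) : ℝ) := by
        exact_mod_cast this
      push_cast at h7
      linarith
    linarith [h3.1, h4.2]

theorem abs_sin_ge (n : ℕ) {y : ℝ} (h : |y - n| ≤ 1 / 2) : 2 * |y - n| ≤ |Real.sin (Real.pi * y)| := by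
  have hpi := Real.pi_pos
  have h1 : |Real.pi * (y - n)| ≤ Real.pi / 2 := by
    rw [abs_mul, abs_of_pos hpi]
    nlinarith
  have h2 := Real.mul_abs_le_abs_sin h1
  have h3 : Real.sin (Real.pi * (y - n)) = (-1) ^ n * Real.sin (Real.pi * y) := by
    rw [← Real.sin_sub_nat_mul_pi]
    congr 1
    ring
  have h5 : |(-1 : ℝ) ^ n * Real.sin (Real.pi * y)| = |Real.sin (Real.pi * y)| := by
    rw [abs_mul, abs_pow, abs_neg, abs_one, one_pow, one_mul]
  have h6 : |Real.pi * (y - n)| = Real.pi * |y - n| := by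
    rw [abs_mul, abs_of_pos hpi]
  rw [h3, h5, h6] at h2
  have h4 : 2 / Real.pi * (Real.pi * |y - n|) = 2 * |y - n| := by
    field_simp
  linarith

theorem card_sin {N : ℕ} (hN : 0 < N) {x : ℝ} (hx : 0 < x) :
    (((range N).filter fun t : ℕ => |Real.sin (2 * Real.pi * t / N)| < x).card : ℝ) ≤
      3 * (N * x / 2 + 1) := by
  classical
  have hN0 : (0 : ℝ) < N := by exact_mod_cast hN
  set A : ℕ → Finset ℕ := fun n => (range N).filter fun t : ℕ => |(t : ℝ) - N * n / 2| < N * x / 2 / 2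
    with hA
  have hsub : ((range N).filter fun t : ℕ => |Real.sin (2 * Real.pi * t / N)| < x) ⊆
      (range 3).biUnion A := by
    intro t ht
    rw [mem_filter, mem_range] at ht
    obtain ⟨ht1, ht2⟩ := ht
    have ht3 : (t : ℝ) < N := by exact_mod_cast ht1
    set y : ℝ := 2 * t / N with hy
    have hy0 : 0 ≤ y := by positivity
    have hy2 : y < 2 := by
      rw [hy, div_lt_iff₀ hN0]; linarith
    have hs : 2 * Real.pi * t / N = Real.pi * y := by
      rw [hy]; ring
    rw [hs] at ht2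
    obtain ⟨n, hn, hn2⟩ : ∃ n : ℕ, n < 3 ∧ |y - n| ≤ 1 / 2 := by
      by_cases c1 : y ≤ 1 / 2
      · refine ⟨0, by norm_num, ?_⟩
        push_cast
        rw [abs_le]; constructor <;> linarith
      · by_cases c2 : y ≤ 3 / 2
        · refine ⟨1, by norm_num, ?_⟩
          push_cast
          rw [abs_le]; constructor <;> linarith
        · refine ⟨2, by norm_num, ?_⟩
          push_cast
          rw [abs_le]; constructor <;> linarith
    have h3 := abs_sin_ge n hn2
    have h4 : |y - n| < x / 2 := by linarith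
    rw [mem_biUnion]
    refine ⟨n, mem_range.mpr hn, ?_⟩
    rw [hA, mem_filter]
    refine ⟨mem_range.mpr ht1, ?_⟩
    have h5 : (t : ℝ) - N * n / 2 = (N / 2) * (y - n) := by
      rw [hy]; field_simp
    rw [h5, abs_mul, abs_of_pos (by positivity : (0 : ℝ) < N / 2)]
    nlinarith
  have h6 : (((range 3).biUnion A).card : ℝ) ≤ ∑ n ∈ range 3, ((A n).card : ℝ) := by
    exact_mod_cast card_biUnion_le
  have h7 : ∀ n ∈ range 3, ((A n).card : ℝ) ≤ N * x / 2 + 1 := by
    intro n _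
    apply card_near (A n) (c := N * n / 2) (L := N * x / 2) (by positivity)
    intro t ht
    rw [hA, mem_filter] at ht
    exact ht.2
  calc (((range N).filter fun t : ℕ => |Real.sin (2 * Real.pi * t / N)| < x).card : ℝ)
      ≤ (((range 3).biUnion A).card : ℝ) := by exact_mod_cast card_le_card hsub
    _ ≤ ∑ n ∈ range 3, ((A n).card : ℝ) := h6
    _ ≤ ∑ n ∈ range 3, (N * x / 2 + 1 : ℝ) := sum_le_sum h7
    _ = 3 * (N * x / 2 + 1) := by
        rw [sum_const, card_range, nsmul_eq_mul]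
        norm_num

theorem hh_nonneg (J : ℕ) (t : ℝ) : 0 ≤ hh J t := by
  unfold hh
  apply prod_nonneg
  intro i _
  split_ifs <;> norm_num

theorem hh_le_one (J : ℕ) (t : ℝ) : hh J t ≤ 1 := by
  unfold hh
  apply prod_le_one
  · intro i _
    split_ifs <;> norm_num
  · intro i _
    split_ifs <;> norm_num

open Classical in
theorem hh_le (J : ℕ) (t : ℝ) : hh J t ≤ ∑ j ∈ Icc 1 (J + 1),
    (1 / 4 : ℝ) ^ (J + 1 - j) * if |Real.sin t| < 4 / (2 : ℝ) ^ j then 1 else 0 := by
  induction J with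
  | zero =>
    have h1 : |Real.sin t| < 4 / (2 : ℝ) ^ 1 := by
      have := Real.abs_sin_le_one t
      norm_num
      linarith
    have h2 : (∑ j ∈ Icc 1 (0 + 1), (1 / 4 : ℝ) ^ (0 + 1 - j) *
        if |Real.sin t| < 4 / (2 : ℝ) ^ j then (1 : ℝ) else 0) = 1 := by
      rw [zero_add, Icc_self, sum_singleton, if_pos h1]
      norm_num
    rw [h2]
    exact hh_le_one 0 t
  | succ J ih =>
    have h3 : hh (J + 1) t = hh J t *
        (if 2 ≤ (2 : ℝ) ^ (J + 1) * |Real.sin t| then (1 / 4 : ℝ) else 1) := by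
      unfold hh
      rw [Finset.prod_range_succ]
    have h4 : (∑ j ∈ Icc 1 (J + 1 + 1), (1 / 4 : ℝ) ^ (J + 1 + 1 - j) *
        if |Real.sin t| < 4 / (2 : ℝ) ^ j then (1 : ℝ) else 0) =
        (1 / 4) * (∑ j ∈ Icc 1 (J + 1), (1 / 4 : ℝ) ^ (J + 1 - j) *
          if |Real.sin t| < 4 / (2 : ℝ) ^ j then (1 : ℝ) else 0) +
        if |Real.sin t| < 4 / (2 : ℝ) ^ (J + 1 + 1) then (1 : ℝ) else 0 := by
      rw [sum_Icc_succ_top (by omega), mul_sum]
      congr 1
      · apply sum_congr rfl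
        intro j hj
        rw [mem_Icc] at hj
        have : J + 1 + 1 - j = (J + 1 - j) + 1 := by omega
        rw [this, pow_succ]
        ring
      · rw [Nat.sub_self, pow_zero, one_mul]
    have hR : 0 ≤ ∑ j ∈ Icc 1 (J + 1), (1 / 4 : ℝ) ^ (J + 1 - j) *
          if |Real.sin t| < 4 / (2 : ℝ) ^ j then (1 : ℝ) else 0 := by
      apply sum_nonneg
      intro j _
      apply mul_nonneg (by positivity)
      split_ifs <;> norm_num
    rw [h4]
    by_cases hc : 2 ≤ (2 : ℝ) ^ (J + 1) * |Real.sin t|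
    · rw [h3, if_pos hc]
      have : (0 : ℝ) ≤ if |Real.sin t| < 4 / (2 : ℝ) ^ (J + 1 + 1) then (1 : ℝ) else 0 := by
        split_ifs <;> norm_num
      linarith
    · have h5 : |Real.sin t| < 4 / (2 : ℝ) ^ (J + 1 + 1) := by
        rw [lt_div_iff₀ (by positivity), pow_succ]
        rw [not_le] at hc
        linarith
      rw [if_pos h5]
      have := hh_le_one (J + 1) t
      linarith

theorem geo_aux (N : ℕ) : ∀ J : ℕ, 2 ^ J ≤ N → ∑ j ∈ Icc 1 (J + 1),
    (1 / 4 : ℝ) ^ (J + 1 - j) * (2 * N / 2 ^ j + 1) ≤ 4 * (N / 2 ^ J) := by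
  intro J
  induction J with
  | zero =>
    intro hN
    have hN0 : (1 : ℝ) ≤ N := by
      have : 1 ≤ N := by simpa using hN
      exact_mod_cast this
    rw [zero_add, Icc_self, sum_singleton]
    norm_num
    linarith
  | succ J ih =>
    intro hN
    have hN1 : 2 ^ J ≤ N := le_trans (Nat.pow_le_pow_right (by norm_num) (by omega)) hN
    have ih' := ih hN1
    have hN2 : (2 : ℝ) ^ (J + 1) ≤ N := by exact_mod_cast hN
    have h4 : (∑ j ∈ Icc 1 (J + 1 + 1), (1 / 4 : ℝ) ^ (J + 1 + 1 - j) * (2 * N / 2 ^ j + 1)) =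
        (1 / 4) * (∑ j ∈ Icc 1 (J + 1), (1 / 4 : ℝ) ^ (J + 1 - j) * (2 * N / 2 ^ j + 1)) +
        (2 * N / 2 ^ (J + 1 + 1) + 1) := by
      rw [sum_Icc_succ_top (by omega), mul_sum]
      congr 1
      · apply sum_congr rfl
        intro j hj
        rw [mem_Icc] at hj
        have : J + 1 + 1 - j = (J + 1 - j) + 1 := by omega
        rw [this, pow_succ]
        ring
      · rw [Nat.sub_self, pow_zero, one_mul]
    rw [h4]
    have h5 : (1 : ℝ) ≤ N / 2 ^ (J + 1) := by
      rw [le_div_iff₀ (by positivity)]; linarith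
    have h6 : (N : ℝ) / 2 ^ J = 2 * (N / 2 ^ (J + 1)) := by
      rw [pow_succ]; field_simp
    have h7 : (2 : ℝ) * N / 2 ^ (J + 1 + 1) = N / 2 ^ (J + 1) := by
      rw [pow_succ (2 : ℝ) (J + 1)]; field_simp
    rw [h6] at ih'
    rw [h7]
    linarith

theorem sum_hh : ∃ C : ℝ, 0 < C ∧ ∀ (J N : ℕ), 2 ^ J ≤ N →
    ∑ t ∈ range N, hh J (2 * Real.pi * t / N) ≤ C * (N / 2 ^ J) := by
  classical
  refine ⟨12, by norm_num, ?_⟩
  intro J N hJN
  have hN : 0 < N := lt_of_lt_of_le (by positivity) hJN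
  calc ∑ t ∈ range N, hh J (2 * Real.pi * t / N)
      ≤ ∑ t ∈ range N, ∑ j ∈ Icc 1 (J + 1), (1 / 4 : ℝ) ^ (J + 1 - j) *
          if |Real.sin (2 * Real.pi * t / N)| < 4 / (2 : ℝ) ^ j then 1 else 0 :=
        sum_le_sum fun t _ => hh_le J _
    _ = ∑ j ∈ Icc 1 (J + 1), (1 / 4 : ℝ) ^ (J + 1 - j) *
          (((range N).filter fun t : ℕ =>
            |Real.sin (2 * Real.pi * t / N)| < 4 / (2 : ℝ) ^ j).card : ℝ) := by
        rw [sum_comm]
        apply sum_congr rfl
        intro j _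
        rw [← mul_sum, sum_boole]
    _ ≤ ∑ j ∈ Icc 1 (J + 1), (1 / 4 : ℝ) ^ (J + 1 - j) * (3 * (2 * N / 2 ^ j + 1)) := by
        apply sum_le_sum
        intro j _
        apply mul_le_mul_of_nonneg_left _ (by positivity)
        have h1 := card_sin hN (x := 4 / (2 : ℝ) ^ j) (by positivity)
        refine h1.trans (le_of_eq ?_)
        ring
    _ = 3 * ∑ j ∈ Icc 1 (J + 1), (1 / 4 : ℝ) ^ (J + 1 - j) * (2 * N / 2 ^ j + 1) := by
        rw [mul_sum]
        apply sum_congr rfl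
        intro j _
        ring
    _ ≤ 3 * (4 * (N / 2 ^ J)) := by
        have := geo_aux N J hJN
        linarith
    _ = 12 * (N / 2 ^ J) := by ring

end Pool.Agent.HD
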