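import Pool.Agent.Lib.MP_8ca597_hd.B15
import Pool.Agent.Lib.MP_8ca597_hd.B11

/-!
# Row B19: the Fourier lemma

`le_ft` for `f = nu μ J`, `N = 2^J`, `norm_ft_nu`, and the sum over the grid of the product is the
product of the sums (`Finset.prod_univ_sum`), each `≤ C N / 2^J = C` (`sum_hh`). Then divide by
`N^m`; `nu μ J k` is finite (`tsum_nu`).
-/

set_option autoImplicit false

namespace Pool.Agent.HD

open Finset
open scoped ENNReal

theorem nu_sup : ∃ C : ℝ, 0 < C ∧ ∀ (m : ℕ), 1 ≤ m → ∀ M0 : ℝ, 1 ≤ M0 →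
    ∀ μ : ℕ → Vx m → ℝ≥0∞, IsFace M0 μ → ∀ (J : ℕ) (k : Vx m),
      nu μ J k ≤ ENNReal.ofReal (M0 ^ (16 * m * (J + 1)) * (C / 2 ^ J) ^ m) := by
  obtain ⟨C, hC, hsum⟩ := sum_hh
  refine ⟨C, hC, ?_⟩
  intro m hm M0 hM μ hμ J k
  have hfin : ∑' k, nu μ J k ≠ ⊤ :=
    ((tsum_nu hm hμ hM J).trans_lt ENNReal.ofReal_lt_top).ne
  have hk : nu μ J k ≠ ⊤ := ENNReal.ne_top_of_tsum_ne_top hfin k
  have hN : 0 < 2 ^ J := by positivity
  have h1 := le_ft hN hfin k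
  set A : ℝ := M0 ^ (16 * m * (J + 1)) with hA
  have hA0 : 0 ≤ A := by positivity
  have h2 : ∑ ξ : Fin m → Fin (2 ^ J), ‖ft (nu μ J) (grd (2 ^ J) ξ)‖ ≤ A * C ^ m := by
    have h3 : ∑ ξ : Fin m → Fin (2 ^ J), ‖ft (nu μ J) (grd (2 ^ J) ξ)‖ ≤
        ∑ ξ : Fin m → Fin (2 ^ J), A * ∏ i, hh J (2 * Real.pi * ((ξ i : ℕ) : ℝ) / (2 ^ J : ℕ)) := by
      refine Finset.sum_le_sum ?_
      intro ξ _
      exact norm_ft_nu hm hμ hM J _
    refine h3.trans ?_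
    rw [← Finset.mul_sum]
    refine mul_le_mul_of_nonneg_left ?_ hA0
    have h4 : ∑ ξ : Fin m → Fin (2 ^ J), ∏ i, hh J (2 * Real.pi * ((ξ i : ℕ) : ℝ) / (2 ^ J : ℕ)) =
        ∏ _i : Fin m, ∑ t : Fin (2 ^ J), hh J (2 * Real.pi * ((t : ℕ) : ℝ) / (2 ^ J : ℕ)) := by
      rw [Finset.prod_univ_sum, Fintype.piFinset_univ]
    rw [h4, Finset.prod_const, Finset.card_univ, Fintype.card_fin]
    refine pow_le_pow_left₀ ?_ ?_ m
    · refine Finset.sum_nonneg ?_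
      intro t _
      refine Finset.prod_nonneg ?_
      intro j _
      split_ifs <;> norm_num
    · have h5 := hsum J (2 ^ J) le_rfl
      rw [Fin.sum_univ_eq_sum_range (fun t : ℕ => hh J (2 * Real.pi * (t : ℝ) / (2 ^ J : ℕ)))]
      refine h5.trans (le_of_eq ?_)
      push_cast
      rw [div_self (by positivity), mul_one]
  have h6 : ((2 ^ J : ℕ) : ℝ) ^ m * (nu μ J k).toReal ≤ A * C ^ m := h1.trans h2
  rw [← ENNReal.ofReal_toReal hk]
  refine ENNReal.ofReal_le_ofReal ?_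
  have h7 : (0 : ℝ) < ((2 : ℝ) ^ J) ^ m := by positivity
  rw [div_pow, ← mul_div_assoc, le_div_iff₀ h7, mul_comm]
  push_cast at h6
  exact h6

end Pool.Agent.HD
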