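import Pool.Agent.Lib.MP_8ca597_hd.B01
import Pool.Agent.Lib.MP_8ca597_hd.A12

/-!
# Row B20: projections to the first `m` coordinates, volumes

Everything is elementary. `nm x = univ.sup fun i => (x i).natAbs` (`Finset.sup_le_iff`,
`Finset.le_sup`, `Finset.exists_mem_eq_sup`). `card_Bx`: `Fintype.card_piFinset`. For `tpj`, `Vv`:
`ENNReal.tsum_comm`, `tsum_ite_eq`, `Equiv.tsum_eq` (for `tpj_sub` the translation
`Equiv.subRight y`, for `tpj_perm` the permutation of `Fin d` which extends `π` by the identity: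
`π.extendDomain` along the injection `Fin.castLE h`, or `Equiv.Perm.viaFintypeEmbedding`; the function
`pj` of `x ∘ π'` is `(pj h x) ∘ π`). `tsum_tpj_mul`: exchange the two sums. `tpj_cv`: both sides are
the sum over `y` of `f y * tpj h g (k - pj h y)` (`tpj_sub`, `tsum_tpj_mul`).
-/

set_option autoImplicit false

namespace Pool.Agent.HD

open Finset
open scoped ENNReal

variable {d m : ℕ}

theorem pj_zero (h : m ≤ d) : pj h (0 : Vx d) = 0 := rfl

theorem pj_add (h : m ≤ d) (x y : Vx d) : pj h (x + y) = pj h x + pj h y := rfl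

theorem pj_sub (h : m ≤ d) (x y : Vx d) : pj h (x - y) = pj h x - pj h y := rfl

theorem nm_pj_le (h : m ≤ d) (x : Vx d) : nm (pj h x) ≤ nm x :=
  Finset.sup_le fun i _ => Finset.le_sup (f := fun i => (x i).natAbs) (Finset.mem_univ _)

theorem nm_le_iff {n : ℕ} {x : Vx d} : nm x ≤ n ↔ ∀ i, (x i).natAbs ≤ n := by
  unfold nm
  simp [Finset.sup_le_iff]

theorem natAbs_le_nm (x : Vx d) (i : Fin d) : (x i).natAbs ≤ nm x :=
  nm_le_iff.1 (le_refl _) i

theorem exists_natAbs_eq (hd : 1 ≤ d) (x : Vx d) : ∃ i, (x i).natAbs = nm x := by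
  have hne : (Finset.univ : Finset (Fin d)).Nonempty := ⟨⟨0, hd⟩, Finset.mem_univ _⟩
  obtain ⟨i, -, hi⟩ := Finset.exists_mem_eq_sup Finset.univ hne (fun i => (x i).natAbs)
  exact ⟨i, hi.symm⟩

theorem nm_eq_zero {x : Vx d} : nm x = 0 ↔ x = 0 := by
  constructor
  · intro h
    funext i
    have := natAbs_le_nm x i
    rw [h] at this
    simpa using this
  · rintro rfl
    exact Nat.le_zero.1 (nm_le_iff.2 fun i => by simp)

theorem nm_sub_le (x y : Vx d) : nm (x - y) ≤ nm x + nm y := by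
  rw [sub_eq_add_neg, ← nm_neg y]
  exact nm_add_le _ _

theorem nm_le_sub_add (x y : Vx d) : nm x ≤ nm (x - y) + nm y := by
  conv_lhs => rw [← sub_add_cancel x y]
  exact nm_add_le _ _

theorem nm_comp_perm (π : Equiv.Perm (Fin d)) (x : Vx d) : nm (fun i => x (π i)) = nm x := by
  apply le_antisymm
  · exact nm_le_iff.2 fun i => natAbs_le_nm x (π i)
  · refine nm_le_iff.2 fun i => ?_
    have := natAbs_le_nm (fun i => x (π i)) (π.symm i)
    simpa using this

theorem card_Bx (m n : ℕ) : (Bx m n).card = (2 * n + 1) ^ m := by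
  unfold Bx
  rw [Fintype.card_piFinset_const, Int.card_Icc]
  congr 1
  omega

section

variable {g g' : Vx d → ℝ≥0∞}

theorem le_tpj (h : m ≤ d) (g : Vx d → ℝ≥0∞) (x : Vx d) : g x ≤ tpj h g (pj h x) := by
  unfold tpj
  calc g x = if pj h x = pj h x then g x else 0 := by rw [if_pos rfl]
    _ ≤ _ := ENNReal.le_tsum (f := fun y => if pj h y = pj h x then g y else 0) x

theorem tpj_mono (h : m ≤ d) (hg : ∀ x, g x ≤ g' x) (k : Vx m) : tpj h g k ≤ tpj h g' k := by
  unfold tpj
  refine ENNReal.tsum_le_tsum fun x => ?_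
  split_ifs
  · exact hg x
  · exact le_refl _

theorem tpj_smul (h : m ≤ d) (c : ℝ≥0∞) (g : Vx d → ℝ≥0∞) (k : Vx m) :
    tpj h (fun x => c * g x) k = c * tpj h g k := by
  unfold tpj
  rw [← ENNReal.tsum_mul_left]
  refine tsum_congr fun x => ?_
  split_ifs <;> simp

theorem tsum_tpj_mul (h : m ≤ d) (g : Vx d → ℝ≥0∞) (F : Vx m → ℝ≥0∞) :
    ∑' k, tpj h g k * F k = ∑' x, g x * F (pj h x) := by
  unfold tpj
  have h1 : ∀ k : Vx m, (∑' x : Vx d, if pj h x = k then g x else 0) * F k =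
      ∑' x : Vx d, if pj h x = k then g x * F (pj h x) else 0 := by
    intro k
    rw [← ENNReal.tsum_mul_right]
    refine tsum_congr fun x => ?_
    split_ifs with hx
    · rw [hx]
    · rw [zero_mul]
  rw [tsum_congr h1, ENNReal.tsum_comm]
  refine tsum_congr fun x => ?_
  rw [tsum_eq_single (pj h x) fun k hk => by rw [if_neg (Ne.symm hk)], if_pos rfl]

theorem tsum_tpj (h : m ≤ d) (g : Vx d → ℝ≥0∞) : ∑' k, tpj h g k = ∑' x, g x := by
  have := tsum_tpj_mul h g (fun _ => 1)
  simpa using this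

/-- Translations. -/
theorem tpj_sub (h : m ≤ d) (g : Vx d → ℝ≥0∞) (y : Vx d) (k : Vx m) :
    tpj h (fun x => g (x - y)) k = tpj h g (k - pj h y) := by
  unfold tpj
  rw [← (Equiv.subRight y).tsum_eq fun x => if pj h x = k - pj h y then g x else 0]
  refine tsum_congr fun x => ?_
  simp only [Equiv.subRight_apply, pj_sub, sub_left_inj]

theorem tpj_cv (h : m ≤ d) (f g : Vx d → ℝ≥0∞) :
    tpj h (cv f g) = cv (tpj h f) (tpj h g) := by
  funext k
  have h1 : tpj h (cv f g) k = ∑' y, f y * tpj h g (k - pj h y) := by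
    have h2 : ∀ y, f y * tpj h g (k - pj h y) =
        ∑' x, if pj h x = k then f y * g (x - y) else 0 := by
      intro y
      rw [← tpj_sub, ← tpj_smul]
      rfl
    rw [tsum_congr h2, ENNReal.tsum_comm]
    unfold tpj cv
    refine tsum_congr fun x => ?_
    split_ifs
    · rfl
    · simp
  rw [h1]
  unfold cv
  exact (tsum_tpj_mul h f fun k' => tpj h g (k - k')).symm

theorem tpj_perm (h : m ≤ d) (hg : ∀ (π : Equiv.Perm (Fin d)) x, g (fun i => x (π i)) = g x)
    (π : Equiv.Perm (Fin m)) (k : Vx m) : tpj h g (fun i => k (π i)) = tpj h g k := by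
  set π' : Equiv.Perm (Fin d) := π.viaFintypeEmbedding (Fin.castLEEmb h) with hπ'
  have hπ : ∀ i : Fin m, π' (Fin.castLE h i) = Fin.castLE h (π i) := fun i =>
    Equiv.Perm.viaFintypeEmbedding_apply_image (e := π) (f := Fin.castLEEmb h) i
  have hpj : ∀ x : Vx d, pj h (fun i => x (π' i)) = fun i => pj h x (π i) := by
    intro x
    funext i
    show x (π' (Fin.castLE h i)) = x (Fin.castLE h (π i))
    rw [hπ]
  unfold tpj
  rw [← (Equiv.arrowCongr π'.symm (Equiv.refl ℤ)).tsum_eq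
    fun x : Vx d => if pj h x = fun i => k (π i) then g x else 0]
  refine tsum_congr fun x => ?_
  have hx : (Equiv.arrowCongr π'.symm (Equiv.refl ℤ)) x = fun i => x (π' i) := by
    funext i
    simp [Equiv.arrowCongr]
  rw [hx, hpj, hg]
  have hiff : ((fun i => pj h x (π i)) = fun i => k (π i)) ↔ pj h x = k := by
    constructor
    · intro h1
      funext i
      have := congrFun h1 (π.symm i)
      simpa using this
    · intro h1
      rw [h1]
  simp only [hiff]

theorem Vv_eq (h : m ≤ d) (g : Vx d → ℝ≥0∞) (R : ℕ) : Vv h g R = ∑ k ∈ Bx m R, tpj h g k := by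
  unfold Vv tpj
  rw [← Summable.tsum_finsetSum fun _ _ => ENNReal.summable]
  refine tsum_congr fun x => ?_
  simp only [Finset.sum_ite_eq, mem_Bx]

theorem Vv_mono (h : m ≤ d) (hg : ∀ x, g x ≤ g' x) (R : ℕ) : Vv h g R ≤ Vv h g' R := by
  unfold Vv
  refine ENNReal.tsum_le_tsum fun x => ?_
  split_ifs
  · exact hg x
  · exact le_refl _

theorem Vv_mono_R (h : m ≤ d) (g : Vx d → ℝ≥0∞) {R R' : ℕ} (hR : R ≤ R') :
    Vv h g R ≤ Vv h g R' := by
  unfold Vv
  refine ENNReal.tsum_le_tsum fun x => ?_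
  by_cases h1 : nm (pj h x) ≤ R
  · rw [if_pos h1, if_pos (h1.trans hR)]
  · rw [if_neg h1]
    exact zero_le

theorem Vv_le_tsum (h : m ≤ d) (g : Vx d → ℝ≥0∞) (R : ℕ) : Vv h g R ≤ ∑' x, g x := by
  unfold Vv
  refine ENNReal.tsum_le_tsum fun x => ?_
  split_ifs
  · exact le_refl _
  · exact zero_le

theorem tpj_le_Vv (h : m ≤ d) (g : Vx d → ℝ≥0∞) {R : ℕ} {k : Vx m} (hk : nm k ≤ R) :
    tpj h g k ≤ Vv h g R := by
  unfold Vv tpj
  refine ENNReal.tsum_le_tsum fun x => ?_
  by_cases h1 : pj h x = k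
  · rw [if_pos h1, if_pos (h1 ▸ hk)]
  · rw [if_neg h1]
    exact zero_le

end

end Pool.Agent.HD
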