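import Pool.Agent.Lib.MP_8ca597_hd.B20
import Pool.Agent.Lib.MP_8ca597_hd.B02

/-!
# Row B21: the symmetries of the exit measures

`mu_equiv`: `tauI_equiv` (with `σ '' Sm h r = Sm h r`, `σ 0 = 0`) and the bijection
`(u, v) ↦ (σ u, σ v)` of `exI (Sm h r) univ`; `pj h (σ v) = τ k ↔ pj h v = k`. For the permutations
`σ = sp π' 1`, where `π'` extends the permutation of `Fin m` (the first `m` coordinates) to `Fin d` by
the identity, and for the reflections `σ = sp 1 ε` with `ε` equal to `-1` at `Fin.castLE h i` and `1`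
elsewhere.
-/

set_option autoImplicit false

namespace Pool.Agent.HD

open Finset
open scoped ENNReal

variable {d m : ℕ}

theorem mu_equiv (p : ℝ) (h : m ≤ d) (r : ℕ) (σ : Vx d ≃ Vx d)
    (hσ : ∀ x y, Adj (σ x) (σ y) ↔ Adj x y) (h0 : σ 0 = 0) (τ : Vx m ≃ Vx m)
    (hτ : ∀ x, pj h (σ x) = τ (pj h x)) (hS : ∀ x, σ x ∈ Sm h r ↔ x ∈ Sm h r) (k : Vx m) :
    mu p h r (τ k) = mu p h r k := by
  have himg : σ '' Sm h r = Sm h r := by
    ext x
    constructor
    · rintro ⟨y, hy, rfl⟩
      exact (hS y).2 hy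
    · intro hx
      exact ⟨σ.symm x, (hS _).1 (by simpa using hx), by simp⟩
  have htau : ∀ x, tauI p (Sm h r) 0 (σ x) = tauI p (Sm h r) 0 x := by
    intro x
    have := tauI_equiv p σ hσ (Sm h r) 0 x
    rwa [himg, h0] at this
  let E : exI (Sm h r) (Set.univ : Set (Vx d)) ≃ exI (Sm h r) (Set.univ : Set (Vx d)) :=
    (Equiv.prodCongr σ σ).subtypeEquiv fun q => by
      show q ∈ exI (Sm h r) Set.univ ↔ (σ q.1, σ q.2) ∈ exI (Sm h r) Set.univ
      unfold exI
      simp only [Set.mem_setOf_eq, Set.mem_univ, true_and, hS, hσ]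
  unfold mu
  rw [← E.tsum_eq fun q : exI (Sm h r) (Set.univ : Set (Vx d)) => if pj h q.1.2 = τ k then
    tauI p (Sm h r) 0 q.1.1 * ENNReal.ofReal p else 0]
  refine tsum_congr fun q => ?_
  have h1 : (E q).1.2 = σ q.1.2 := rfl
  have h2 : (E q).1.1 = σ q.1.1 := rfl
  rw [h1, h2, hτ, htau]
  simp only [EmbeddingLike.apply_eq_iff_eq]

theorem mu_perm (p : ℝ) (h : m ≤ d) (r : ℕ) (k : Vx m) (π : Equiv.Perm (Fin m)) :
    mu p h r (fun i => k (π i)) = mu p h r k := by
  set π' : Equiv.Perm (Fin d) := π.viaFintypeEmbedding (Fin.castLEEmb h) with hπ'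
  have hπ : ∀ i : Fin m, π' (Fin.castLE h i) = Fin.castLE h (π i) := fun i =>
    Equiv.Perm.viaFintypeEmbedding_apply_image (e := π) (f := Fin.castLEEmb h) i
  have hτ : ∀ x, pj h ((sp π' 1).toEquiv x) = (sp π 1).toEquiv (pj h x) := by
    intro x
    funext i
    show ((1 : ℤˣ) : ℤ) * x (π' (Fin.castLE h i)) = ((1 : ℤˣ) : ℤ) * x (Fin.castLE h (π i))
    rw [hπ]
  have h1 := mu_equiv p h r (sp π' 1).toEquiv (sp_adj π' 1) (map_zero (sp π' 1))
    (sp π 1).toEquiv hτ (fun x => by
      unfold Sm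
      simp only [Set.mem_setOf_eq]
      rw [hτ]
      constructor
      · intro hx i
        have := hx (π.symm i)
        have e : (sp π 1).toEquiv (pj h x) (π.symm i) = pj h x i := by
          show ((1 : ℤˣ) : ℤ) * pj h x (π (π.symm i)) = _
          simp
        rwa [e] at this
      · intro hx i
        have e : (sp π 1).toEquiv (pj h x) i = pj h x (π i) := by
          show ((1 : ℤˣ) : ℤ) * pj h x (π i) = _
          simp
        rw [e]
        exact hx _) k
  have h2 : (sp π 1).toEquiv k = fun i => k (π i) := by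
    funext i
    show ((1 : ℤˣ) : ℤ) * k (π i) = _
    simp
  rwa [h2] at h1

theorem mu_refl (p : ℝ) (h : m ≤ d) (r : ℕ) (k : Vx m) (i : Fin m) :
    mu p h r (Function.update k i (-k i)) = mu p h r k := by
  classical
  let ε : Fin d → ℤˣ := fun j => if j = Fin.castLE h i then -1 else 1
  let ε' : Fin m → ℤˣ := fun j => if j = i then -1 else 1
  have hε : ∀ j : Fin m, ε (Fin.castLE h j) = ε' j := by
    intro j
    show (if Fin.castLE h j = Fin.castLE h i then (-1 : ℤˣ) else 1) =
      if j = i then (-1 : ℤˣ) else 1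
    simp only [Fin.castLE_inj]
  have hτ : ∀ x, pj h ((sp 1 ε).toEquiv x) = (sp 1 ε').toEquiv (pj h x) := by
    intro x
    funext j
    show ((ε (Fin.castLE h j) : ℤˣ) : ℤ) * x (Fin.castLE h j) =
      ((ε' j : ℤˣ) : ℤ) * x (Fin.castLE h j)
    rw [hε]
  have habs : ∀ (x : Vx m) (j : Fin m), |(sp 1 ε').toEquiv x j| = |x j| := by
    intro x j
    show |((ε' j : ℤˣ) : ℤ) * x j| = |x j|
    rcases Int.units_eq_one_or (ε' j) with h1 | h1 <;> simp [h1]
  have h1 := mu_equiv p h r (sp 1 ε).toEquiv (sp_adj 1 ε) (map_zero (sp 1 ε))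
    (sp 1 ε').toEquiv hτ (fun x => by
      unfold Sm
      simp only [Set.mem_setOf_eq]
      rw [hτ]
      simp only [habs]) k
  have h2 : (sp 1 ε').toEquiv k = Function.update k i (-k i) := by
    funext j
    show ((ε' j : ℤˣ) : ℤ) * k j = _
    by_cases hj : j = i
    · subst hj
      rw [Function.update_self]
      simp [ε']
    · rw [Function.update_of_ne hj]
      simp [ε', hj]
  rwa [h2] at h1

end Pool.Agent.HD
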