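import Pool.Agent.Lib.MP_8ca597_hd.B21

/-!
# Row B22: support and mass of the exit measures

`mu_supp`: some exit `(u, v)` has `pj h v = k`, `u ∈ Sm h r`, `v ∉ Sm h r`; `u` and `v` differ in one
coordinate by one (`adj_iff_uv`), so exactly one of the first `m` coordinates of `v` has modulus `≥ r`
and this modulus is `r`. `mu_mass`: exchange the sums. `exists_box_Sm`: the faces are
`(Fin.castLE h i, b)`; `|z| < r` iff `z ≤ r - 1` and `-z ≤ r - 1`.
-/

set_option autoImplicit false

namespace Pool.Agent.HD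

open Finset
open scoped ENNReal

variable {d m : ℕ}

theorem mu_supp (p : ℝ) (h : m ≤ d) {r : ℕ} (hr : 1 ≤ r) {k : Vx m} (hk : mu p h r k ≠ 0) :
    nm k = r ∧ ∃! i, (k i).natAbs = r := by
  have hex : ∃ q : exI (Sm h r) (Set.univ : Set (Vx d)), pj h q.1.2 = k := by
    by_contra hcon
    push Not at hcon
    apply hk
    unfold mu
    rw [ENNReal.tsum_eq_zero]
    intro q
    rw [if_neg (hcon q)]
  obtain ⟨⟨⟨u, v⟩, hu, -, hv, hadj⟩, rfl⟩ := hex
  obtain ⟨e, rfl⟩ := (adj_iff_uv u v).1 hadj
  have hu' : ∀ i, |pj h u i| < r := hu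
  have hv' : ∃ i, (r : ℤ) ≤ |pj h (u + uv e) i| := by
    by_contra hcon
    push Not at hcon
    exact hv hcon
  obtain ⟨i, hi⟩ := hv'
  -- coordinates
  have hco : ∀ j : Fin m, Fin.castLE h j ≠ e.1 → pj h (u + uv e) j = pj h u j := by
    intro j hj
    show u (Fin.castLE h j) + (Pi.single e.1 (sg e.2) : Vx d) (Fin.castLE h j) =
      u (Fin.castLE h j)
    rw [Pi.single_eq_of_ne hj, add_zero]
  have hie : Fin.castLE h i = e.1 := by
    by_contra hne
    rw [hco i hne] at hi
    exact absurd (hu' i) (not_lt.2 hi)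
  have hsg : |sg e.2| = 1 := by
    unfold sg
    split_ifs <;> simp
  have hiv : pj h (u + uv e) i = pj h u i + sg e.2 := by
    show u (Fin.castLE h i) + (Pi.single e.1 (sg e.2) : Vx d) (Fin.castLE h i) =
      u (Fin.castLE h i) + sg e.2
    rw [hie, Pi.single_eq_same]
  have hir : |pj h (u + uv e) i| = r := by
    apply le_antisymm _ hi
    rw [hiv]
    have h1 := abs_add_le (pj h u i) (sg e.2)
    have h2 := hu' i
    rw [hsg] at h1
    omega
  have hir' : (pj h (u + uv e) i).natAbs = r := by
    have : ((pj h (u + uv e) i).natAbs : ℤ) = r := by rw [Int.natCast_natAbs]; exact hir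
    exact_mod_cast this
  have hother : ∀ j, j ≠ i → (pj h (u + uv e) j).natAbs < r := by
    intro j hj
    have hne : Fin.castLE h j ≠ e.1 := by
      rw [← hie]
      intro hc
      exact hj ((Fin.castLE_inj).1 hc)
    rw [hco j hne]
    have h1 := hu' j
    have : ((pj h u j).natAbs : ℤ) < r := by rw [Int.natCast_natAbs]; exact h1
    exact_mod_cast this
  refine ⟨?_, i, hir', ?_⟩
  · apply le_antisymm
    · refine nm_le_iff.2 fun j => ?_
      by_cases hj : j = i
      · rw [hj, hir']
      · exact (hother j hj).le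
    · exact hir'.symm.le.trans (natAbs_le_nm _ i)
  · intro j hj
    by_contra hne
    exact absurd hj (hother j hne).ne

theorem mu_mass (p : ℝ) (h : m ≤ d) (r : ℕ) : ∑' k, mu p h r k = flux p (Sm h r) 0 := by
  unfold mu flux
  rw [ENNReal.tsum_comm]
  refine tsum_congr fun q => ?_
  rw [tsum_eq_single (pj h q.1.2) fun k hk => by rw [if_neg (Ne.symm hk)], if_pos rfl]

theorem exists_box_Sm (h : m ≤ d) (r : ℕ) :
    ∃ E : Finset (Dir d), E.card ≤ 2 * m ∧ Sm h r = BoxS E fun _ => (r : ℤ) := by
  classical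
  refine ⟨(Finset.univ : Finset (Fin m × Bool)).image fun q => (Fin.castLE h q.1, q.2), ?_, ?_⟩
  · refine Finset.card_image_le.trans ?_
    rw [Finset.card_univ, Fintype.card_prod, Fintype.card_fin, Fintype.card_bool, mul_comm]
  · ext z
    unfold Sm BoxS
    simp only [Set.mem_setOf_eq]
    constructor
    · intro hz e he
      obtain ⟨q, -, rfl⟩ := Finset.mem_image.1 he
      have h1 : |z (Fin.castLE h q.1)| < r := hz q.1
      rw [abs_lt] at h1
      unfold dt sg
      simp only
      split_ifs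
      · linarith [h1.2]
      · linarith [h1.1]
    · intro hz i
      have h1 := hz (Fin.castLE h i, true) (Finset.mem_image.2 ⟨(i, true), Finset.mem_univ _, rfl⟩)
      have h2 := hz (Fin.castLE h i, false)
        (Finset.mem_image.2 ⟨(i, false), Finset.mem_univ _, rfl⟩)
      unfold dt sg at h1 h2
      simp only [if_true, one_mul] at h1
      simp only [Bool.false_eq_true, if_false] at h2
      show |z (Fin.castLE h i)| < r
      rw [abs_lt]
      constructor <;> linarith

theorem mu_isFace {p : ℝ} (_hp : 0 ≤ p) (_hp1 : p ≤ 1) (_hm : 1 ≤ m) (h : m ≤ d) {M0 : ℝ}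
    (hM : ∀ r : ℕ, 1 ≤ r → flux p (Sm h r) 0 ≤ ENNReal.ofReal M0) : IsFace M0 (mu p h) where
  perm r k π := mu_perm p h r k π
  refl r k i := mu_refl p h r k i
  supp r k hr hk := mu_supp p h hr hk
  mass r hr := by
    rw [mu_mass]
    exact hM r hr

end Pool.Agent.HD
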