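import Pool.Agent.Lib.MP_8ca597_hd.B20

/-!
# Row B23: the multiscale iteration (abstract)

`cpw_supp`: induction. `mub_supp`: `IsFace.supp`. Let `th J = 32 * m * (2 ^ (J + 1) - 1)`, so
`th J ≤ 64 * m * 2 ^ J`. `nu_supp`: the support of `nu μ J` is in `nm k ≤ th J`. `iter_cpw`: induction
on `n`: `t k ≤ ∑ a y * t (k - y)`, and `nm (k - y) ≥ nm k - s` for the `y` in the support (use
`cv_assoc`). `iter_mub`: average over `r`. `iter`: induction on `J`: `t k ≤ cv (nu μ J) t k` if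
`th J ≤ nm k`.
-/

set_option autoImplicit false

namespace Pool.Agent.HD

open Finset
open scoped ENNReal

variable {m : ℕ} {M0 : ℝ} {μ : ℕ → Vx m → ℝ≥0∞}

theorem cv_supp {f g : Vx m → ℝ≥0∞} {s s' : ℕ} (hf : ∀ k, f k ≠ 0 → nm k ≤ s)
    (hg : ∀ k, g k ≠ 0 → nm k ≤ s') (k : Vx m) (hk : cv f g k ≠ 0) : nm k ≤ s + s' := by
  unfold cv at hk
  rw [Ne, ENNReal.tsum_eq_zero, not_forall] at hk
  obtain ⟨y, hy⟩ := hk
  have h1 : f y ≠ 0 := fun h => hy (by rw [h, zero_mul])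
  have h2 : g (k - y) ≠ 0 := fun h => hy (by rw [h, mul_zero])
  have h3 := nm_le_sub_add k y
  have h4 := hf y h1
  have h5 := hg _ h2
  omega

theorem cpw_supp {f : Vx m → ℝ≥0∞} {s : ℕ} (hf : ∀ k, f k ≠ 0 → nm k ≤ s) (n : ℕ) (k : Vx m)
    (hk : cpw f n k ≠ 0) : nm k ≤ n * s := by
  induction n generalizing k with
  | zero =>
    have h0 : k = 0 := by
      by_contra h
      exact hk (if_neg h)
    rw [nm_eq_zero.2 h0, zero_mul]
  | succ n ih =>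
    have h1 := cv_supp hf ih k hk
    rw [Nat.succ_mul, add_comm]
    exact h1

theorem mub_supp (hμ : IsFace M0 μ) {R : ℕ} (hR : 1 ≤ R) (k : Vx m) (hk : mub μ R k ≠ 0) :
    nm k ≤ 2 * R := by
  unfold mub at hk
  have h1 : ∑ r ∈ Ico R (2 * R), μ r k ≠ 0 := fun h => hk (by rw [h, mul_zero])
  obtain ⟨r, hr, h2⟩ := Finset.exists_ne_zero_of_sum_ne_zero h1
  rw [Finset.mem_Ico] at hr
  have h3 := (hμ.supp r k (by omega) h2).1
  omega

private theorem B23_supp (hμ : IsFace M0 μ) (J : ℕ) (k : Vx m) (hk : nu μ J k ≠ 0) :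
    nm k + 32 * m ≤ 32 * m * 2 ^ (J + 1) := by
  induction J generalizing k with
  | zero =>
    have h1 := cpw_supp (s := 2 * 1) (fun k hk => mub_supp hμ le_rfl k hk) (16 * m) k hk
    omega
  | succ J ih =>
    have hR : 1 ≤ 2 ^ (J + 1) := Nat.one_le_two_pow
    have ih' : ∀ k, nu μ J k ≠ 0 → nm k ≤ 32 * m * 2 ^ (J + 1) - 32 * m := fun k hk => by
      have := ih k hk
      omega
    have h1 := cv_supp (s := 16 * m * (2 * 2 ^ (J + 1)))
      (fun k hk => cpw_supp (fun k hk => mub_supp hμ hR k hk) (16 * m) k hk) ih' k hk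
    have h2 : 16 * m * (2 * 2 ^ (J + 1)) = 32 * m * 2 ^ (J + 1) := by ring
    have h3 : 32 * m ≤ 32 * m * 2 ^ (J + 1) := Nat.le_mul_of_pos_right _ (by positivity)
    have h4 : 32 * m * 2 ^ (J + 1 + 1) = 32 * m * 2 ^ (J + 1) + 32 * m * 2 ^ (J + 1) := by ring
    omega

theorem nu_supp (hμ : IsFace M0 μ) (J : ℕ) (k : Vx m) (hk : nu μ J k ≠ 0) :
    nm k ≤ 64 * m * 2 ^ J := by
  have h1 := B23_supp hμ J k hk
  have h2 : 32 * m * 2 ^ (J + 1) = 64 * m * 2 ^ J := by ring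
  omega

/-- One more step of the iteration. -/
theorem iter_cv {a b t : Vx m → ℝ≥0∞} {s A B : ℕ} (ha : ∀ k, a k ≠ 0 → nm k ≤ s)
    (hA : ∀ k, A ≤ nm k → t k ≤ cv a t k) (hB : ∀ k, B ≤ nm k → t k ≤ cv b t k) (k : Vx m)
    (hk : A ≤ nm k) (hk' : B + s ≤ nm k) : t k ≤ cv (cv a b) t k := by
  rw [cv_assoc]
  refine (hA k hk).trans ?_
  unfold cv
  refine ENNReal.tsum_le_tsum fun y => ?_
  by_cases hy : a y = 0
  · rw [hy, zero_mul, zero_mul]
  · have h1 := ha y hy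
    have h2 := nm_le_sub_add k y
    exact mul_le_mul_right (hB (k - y) (by omega)) _

theorem iter_cpw {a t : Vx m → ℝ≥0∞} {s : ℕ} (ha : ∀ k, a k ≠ 0 → nm k ≤ s)
    (hA : ∀ k, s ≤ nm k → t k ≤ cv a t k) (n : ℕ) (k : Vx m) (hk : n * s ≤ nm k) :
    t k ≤ cv (cpw a n) t k := by
  induction n generalizing k with
  | zero =>
    have h : cpw a 0 = dl := rfl
    rw [h, dl_cv]
  | succ n ih =>
    rw [Nat.succ_mul] at hk
    exact iter_cv (b := cpw a n) ha hA ih k (by omega) hk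

theorem iter_mub {t : Vx m → ℝ≥0∞} {R : ℕ} (hR : 1 ≤ R)
    (ht : ∀ r, R ≤ r → r < 2 * R → ∀ k, r ≤ nm k → t k ≤ cv (μ r) t k) (k : Vx m)
    (hk : 2 * R ≤ nm k) : t k ≤ cv (mub μ R) t k := by
  have h1 : cv (mub μ R) t k = (R : ℝ≥0∞)⁻¹ * ∑ r ∈ Ico R (2 * R), cv (μ r) t k := by
    unfold mub
    rw [smul_cv (R : ℝ≥0∞)⁻¹ (fun k => ∑ r ∈ Ico R (2 * R), μ r k) t k, cv_comm, cv_sum]
    congr 1
    refine Finset.sum_congr rfl fun r _ => ?_
    rw [cv_comm]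
  rw [h1]
  have hR0 : (R : ℝ≥0∞) ≠ 0 := by
    exact_mod_cast (by omega : R ≠ 0)
  have hRt : (R : ℝ≥0∞) ≠ ⊤ := ENNReal.natCast_ne_top R
  have h2 : (R : ℝ≥0∞) * t k ≤ ∑ r ∈ Ico R (2 * R), cv (μ r) t k := by
    have h3 : ∑ _r ∈ Ico R (2 * R), t k ≤ ∑ r ∈ Ico R (2 * R), cv (μ r) t k := by
      refine Finset.sum_le_sum fun r hr => ?_
      rw [Finset.mem_Ico] at hr
      exact ht r hr.1 hr.2 k (by omega)
    rw [Finset.sum_const, Nat.card_Ico, nsmul_eq_mul] at h3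
    have h4 : 2 * R - R = R := by omega
    rwa [h4] at h3
  calc t k = (R : ℝ≥0∞)⁻¹ * ((R : ℝ≥0∞) * t k) := by
        rw [← mul_assoc, ENNReal.inv_mul_cancel hR0 hRt, one_mul]
    _ ≤ _ := mul_le_mul_right h2 _

theorem iter (hμ : IsFace M0 μ) {t : Vx m → ℝ≥0∞} {J : ℕ}
    (ht : ∀ r, 1 ≤ r → r < 2 ^ (J + 1) → ∀ k, r ≤ nm k → t k ≤ cv (μ r) t k) (k : Vx m)
    (hk : 64 * m * 2 ^ J ≤ nm k) : t k ≤ cv (nu μ J) t k := by
  have key : ∀ J', J' ≤ J → ∀ k, 32 * m * 2 ^ (J' + 1) - 32 * m ≤ nm k →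
      t k ≤ cv (nu μ J') t k := by
    intro J'
    induction J' with
    | zero =>
      intro _ k hk
      refine iter_cpw (s := 2 * 1) (fun k hk => mub_supp hμ le_rfl k hk) (fun k hk => ?_)
        (16 * m) k (by omega)
      refine iter_mub le_rfl (fun r h1 h2 => ht r h1 (h2.trans_le ?_)) k hk
      calc 2 * 1 = 2 ^ 1 := by norm_num
        _ ≤ 2 ^ (J + 1) := Nat.pow_le_pow_right (by norm_num) (by omega)
    | succ J' ih =>
      intro hJ k hk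
      have hR : 1 ≤ 2 ^ (J' + 1) := Nat.one_le_two_pow
      have h2 : 16 * m * (2 * 2 ^ (J' + 1)) = 32 * m * 2 ^ (J' + 1) := by ring
      have h3 : 32 * m ≤ 32 * m * 2 ^ (J' + 1) := Nat.le_mul_of_pos_right _ (by positivity)
      have h4 : 32 * m * 2 ^ (J' + 1 + 1) = 32 * m * 2 ^ (J' + 1) + 32 * m * 2 ^ (J' + 1) := by
        ring
      refine iter_cv (s := 16 * m * (2 * 2 ^ (J' + 1))) (A := 16 * m * (2 * 2 ^ (J' + 1)))
        (fun k hk => cpw_supp (fun k hk => mub_supp hμ hR k hk) (16 * m) k hk) (fun k hk => ?_)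
        (ih (by omega)) k (by omega) (by omega)
      refine iter_cpw (fun k hk => mub_supp hμ hR k hk) (fun k hk => ?_) (16 * m) k hk
      refine iter_mub hR (fun r h1 h2 => ht r (by omega) (h2.trans_le ?_)) k hk
      calc 2 * 2 ^ (J' + 1) = 2 ^ (J' + 2) := by ring
        _ ≤ 2 ^ (J + 1) := Nat.pow_le_pow_right (by norm_num) (by omega)
  refine key J le_rfl k ?_
  have h2 : 32 * m * 2 ^ (J + 1) = 64 * m * 2 ^ J := by ring
  omega

end Pool.Agent.HD
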