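import Pool.Agent.Lib.MP_8ca597_hd.B20
import Pool.Agent.Lib.MP_8ca597_hd.A14

/-!
# Row B24: the Simon-Lieb inequality for the projections

`tt_SL`: `SLI` with `W = univ`, `a = 0`, and `tauI_univ`. `sum_tt_SL`: sum over `x` with weights.
`tpj_tt_le`: for `r ≤ nm k` the vertices `x` with `pj h x = k` do not belong to `Sm h r`
(`tauI_zero_right`); sum over these `x`: `tpj_sub`; then group the exits by `pj h q.2`
(`∑' y, mu p h r y * F y = ∑' q, tauI ... * ofReal p * F (pj h q.1.2)`).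
-/

set_option autoImplicit false

namespace Pool.Agent.HD

open Finset
open scoped ENNReal

variable {d m : ℕ} {p : ℝ}

theorem tt_SL (hp : 0 ≤ p) (hp1 : p ≤ 1) {S : Set (Vx d)} (h0 : (0 : Vx d) ∈ S) (x : Vx d) :
    tt p x ≤ tauI p S 0 x +
      ∑' q : exI S Set.univ, tauI p S 0 q.1.1 * ENNReal.ofReal p * tt p (x - q.1.2) := by
  have h1 := SLI hp hp1 (Set.subset_univ S) h0 x
  refine h1.trans (le_of_eq ?_)
  congr 1
  refine tsum_congr fun q => ?_
  rw [tauI_univ]

theorem tsum_mu_mul (p : ℝ) (h : m ≤ d) (r : ℕ) (F : Vx m → ℝ≥0∞) :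
    ∑' k, mu p h r k * F k = ∑' q : exI (Sm h r) Set.univ,
      tauI p (Sm h r) 0 q.1.1 * ENNReal.ofReal p * F (pj h q.1.2) := by
  unfold mu
  have h1 : ∀ k : Vx m, (∑' q : exI (Sm h r) (Set.univ : Set (Vx d)), if pj h q.1.2 = k then
      tauI p (Sm h r) 0 q.1.1 * ENNReal.ofReal p else 0) * F k =
      ∑' q : exI (Sm h r) (Set.univ : Set (Vx d)), if pj h q.1.2 = k then
        tauI p (Sm h r) 0 q.1.1 * ENNReal.ofReal p * F (pj h q.1.2) else 0 := by
    intro k
    rw [← ENNReal.tsum_mul_right]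
    refine tsum_congr fun q => ?_
    split_ifs with hq
    · rw [hq]
    · rw [zero_mul]
  rw [tsum_congr h1, ENNReal.tsum_comm]
  refine tsum_congr fun q => ?_
  rw [tsum_eq_single (pj h q.1.2) fun k hk => by rw [if_neg (Ne.symm hk)], if_pos rfl]

theorem tpj_tt_le (hp : 0 ≤ p) (hp1 : p ≤ 1) (h : m ≤ d) {r : ℕ} (hr : 1 ≤ r) {k : Vx m}
    (hk : r ≤ nm k) : tpj h (tt p) k ≤ cv (mu p h r) (tpj h (tt p)) k := by
  have h0 : (0 : Vx d) ∈ Sm h r := by
    intro i
    rw [pj_zero]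
    show |(0 : ℤ)| < r
    rw [abs_zero]
    exact_mod_cast hr
  have hm : 1 ≤ m := by
    rcases Nat.eq_zero_or_pos m with rfl | hm
    · exfalso
      have : nm k ≤ 0 := nm_le_iff.2 fun i => i.elim0
      omega
    · exact hm
  obtain ⟨i, hi⟩ := exists_natAbs_eq hm k
  have hout : ∀ x : Vx d, pj h x = k → x ∉ Sm h r := by
    intro x hx hxS
    have h1 : |pj h x i| < r := hxS i
    rw [hx] at h1
    have h2 : ((k i).natAbs : ℤ) = |k i| := Int.natCast_natAbs _
    omega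
  have h1 : tpj h (tt p) k ≤ ∑' x : Vx d, ∑' q : exI (Sm h r) (Set.univ : Set (Vx d)),
      if pj h x = k then tauI p (Sm h r) 0 q.1.1 * ENNReal.ofReal p * tt p (x - q.1.2)
        else 0 := by
    unfold tpj
    refine ENNReal.tsum_le_tsum fun x => ?_
    split_ifs with hx
    · have h2 := tt_SL hp hp1 h0 x
      rwa [tauI_zero_right p (hout x hx), zero_add] at h2
    · exact zero_le
  refine h1.trans (le_of_eq ?_)
  rw [ENNReal.tsum_comm]
  unfold cv
  rw [tsum_mu_mul]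
  refine tsum_congr fun q => ?_
  rw [← tpj_sub, ← tpj_smul]
  rfl

end Pool.Agent.HD
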