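import Pool.Agent.Lib.MP_8ca597_hd.B19
import Pool.Agent.Lib.MP_8ca597_hd.B23

/-!
# Row B25: pointwise decay from the multiscale iteration (abstract)

Let `n = nm k`, `C0` the constant of `nu_sup`. If `n < 64 m`, `t k` is a term of the sum and
`n ^ (m - 1) ≤ (64 m) ^ (m - 1)`. Otherwise let `J` be maximal with `64 m 2 ^ J ≤ n`, so
`n < 128 m 2 ^ J` and `2 ^ (J + 1) ≤ n ≤ L`. By `iter`, `nu_supp` (so `nm (k - y) ≤ 2 n` for the `y` in
the support) and `nu_sup`: `t k ≤ M0 ^ (16 m (J + 1)) (C0 / 2 ^ J) ^ m ∑_{l ∈ Bx m (2 n)} t l`, and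
`M0 ^ (16 m (J + 1)) ≤ √2 ^ (J + 1) ≤ 2 * 2 ^ J`, `n ^ (m - 1) ≤ (128 m) ^ (m - 1) (2 ^ J) ^ (m - 1)`. So
`C = 2 C0 ^ m (128 m) ^ (m - 1) + (64 m) ^ (m - 1)`.
-/

set_option autoImplicit false

namespace Pool.Agent.HD

open Finset
open scoped ENNReal

private theorem B25_mem {m n : ℕ} {x : Vx m} : x ∈ Bx m n ↔ nm x ≤ n := by
  rw [nm_le_iff, Bx, Fintype.mem_piFinset]
  refine forall_congr' fun i => ?_
  rw [mem_Icc]
  omega

private theorem B25_sum {m : ℕ} {f t : Vx m → ℝ≥0∞} {S : ℝ≥0∞} {n : ℕ} {k : Vx m}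
    (hf : ∀ y, f y ≠ 0 → nm y ≤ n) (hS : ∀ y, f y ≤ S) (hk : nm k ≤ n) :
    cv f t k ≤ S * ∑ l ∈ Bx m (2 * n), t l := by
  classical
  have h1 : ∀ y, f y * t (k - y) ≤ if k - y ∈ Bx m (2 * n) then S * t (k - y) else 0 := by
    intro y
    by_cases hy : f y = 0
    · rw [hy, zero_mul]
      exact zero_le
    · rw [if_pos]
      · exact mul_le_mul_left (hS y) _
      · rw [B25_mem]
        have h2 := nm_sub_le k y
        have h3 := hf y hy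
        omega
  calc cv f t k = ∑' y, f y * t (k - y) := rfl
    _ ≤ ∑' y, if k - y ∈ Bx m (2 * n) then S * t (k - y) else 0 := ENNReal.tsum_le_tsum h1
    _ = ∑' l, if l ∈ Bx m (2 * n) then S * t l else 0 :=
        (Equiv.subLeft k).tsum_eq (fun l => if l ∈ Bx m (2 * n) then S * t l else 0)
    _ = ∑ l ∈ Bx m (2 * n), S * t l := by
        rw [tsum_eq_sum (s := Bx m (2 * n)) (fun l hl => if_neg hl)]
        exact sum_congr rfl fun l hl => if_pos hl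
    _ = S * ∑ l ∈ Bx m (2 * n), t l := (mul_sum _ _ _).symm

private theorem B25_real {m : ℕ} (hm : 1 ≤ m) {C0 M0 : ℝ} (hC0 : 0 < C0) (hM1 : 1 ≤ M0)
    (hM : M0 ^ (16 * m) ≤ √2) {J n : ℕ} (hn : n ≤ 128 * m * 2 ^ J) :
    M0 ^ (16 * m * (J + 1)) * (C0 / 2 ^ J) ^ m * (n : ℝ) ^ (m - 1) ≤
      2 * C0 ^ m * (128 * m) ^ (m - 1) := by
  have hJ : (0 : ℝ) < 2 ^ J := by positivity
  have h1 : M0 ^ (16 * m * (J + 1)) ≤ 2 * 2 ^ J := by
    rw [pow_mul]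
    calc (M0 ^ (16 * m)) ^ (J + 1) ≤ (2 : ℝ) ^ (J + 1) := by
          refine pow_le_pow_left₀ (by positivity) (hM.trans ?_) _
          rw [Real.sqrt_le_left (by norm_num)]
          norm_num
      _ = 2 * 2 ^ J := by ring
  have h2 : (n : ℝ) ^ (m - 1) ≤ (128 * m) ^ (m - 1) * (2 ^ J) ^ (m - 1) := by
    rw [← mul_pow]
    refine pow_le_pow_left₀ (by positivity) ?_ _
    exact_mod_cast hn
  have h3 : (C0 / 2 ^ J) ^ m * ((2 : ℝ) ^ J) ^ (m - 1) * 2 ^ J = C0 ^ m := by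
    have h4 : ((2 : ℝ) ^ J) ^ (m - 1) * 2 ^ J = ((2 : ℝ) ^ J) ^ m := by
      rw [← pow_succ]
      congr 1
      omega
    rw [mul_assoc, h4, div_pow]
    field_simp
  calc M0 ^ (16 * m * (J + 1)) * (C0 / 2 ^ J) ^ m * (n : ℝ) ^ (m - 1)
      ≤ (2 * 2 ^ J) * (C0 / 2 ^ J) ^ m * ((128 * m) ^ (m - 1) * (2 ^ J) ^ (m - 1)) := by
        gcongr
    _ = 2 * (128 * m) ^ (m - 1) * ((C0 / 2 ^ J) ^ m * ((2 : ℝ) ^ J) ^ (m - 1) * 2 ^ J) := by ring
    _ = 2 * C0 ^ m * (128 * m) ^ (m - 1) := by rw [h3]; ring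

theorem point_decay (m : ℕ) (hm : 1 ≤ m) : ∃ C : ℝ, 0 < C ∧ ∀ M0 : ℝ, 1 ≤ M0 →
    M0 ^ (16 * m) ≤ √2 → ∀ μ : ℕ → Vx m → ℝ≥0∞, IsFace M0 μ → ∀ (t : Vx m → ℝ≥0∞) (L : ℕ),
    (∀ r, 1 ≤ r → r ≤ L → ∀ k, r ≤ nm k → t k ≤ cv (μ r) t k) →
    ∀ k : Vx m, 1 ≤ nm k → nm k ≤ L → t k * (nm k : ℝ≥0∞) ^ (m - 1) ≤
      ENNReal.ofReal C * ∑ l ∈ Bx m (2 * nm k), t l := by
  obtain ⟨C0, hC0, hnu⟩ := nu_sup
  have hA : (0 : ℝ) ≤ 2 * C0 ^ m * (128 * m) ^ (m - 1) := by positivity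
  have hB : (0 : ℝ) < (64 * m) ^ (m - 1) := by
    have : (0 : ℝ) < 64 * m := by
      have : (1 : ℝ) ≤ m := by exact_mod_cast hm
      linarith
    positivity
  refine ⟨2 * C0 ^ m * (128 * m) ^ (m - 1) + (64 * m) ^ (m - 1), by linarith, ?_⟩
  intro M0 hM1 hM μ hμ t L ht k hk1 hkL
  set n := nm k with hn
  have hpow : (n : ℝ≥0∞) ^ (m - 1) = ENNReal.ofReal ((n : ℝ) ^ (m - 1)) := by
    rw [ENNReal.ofReal_pow (by positivity), ENNReal.ofReal_natCast]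
  rcases lt_or_ge n (64 * m) with hlt | hge
  · have h1 : t k ≤ ∑ l ∈ Bx m (2 * n), t l :=
      single_le_sum (f := t) (fun _ _ => zero_le) (B25_mem.2 (by omega))
    have h2 : (n : ℝ≥0∞) ^ (m - 1) ≤
        ENNReal.ofReal (2 * C0 ^ m * (128 * m) ^ (m - 1) + (64 * m) ^ (m - 1)) := by
      rw [hpow]
      refine ENNReal.ofReal_le_ofReal ?_
      have h3 : (n : ℝ) ^ (m - 1) ≤ (64 * m) ^ (m - 1) := by
        refine pow_le_pow_left₀ (by positivity) ?_ _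
        exact_mod_cast hlt.le
      linarith
    rw [mul_comm]
    exact mul_le_mul' h2 h1
  · -- the scale
    have hq0 : n / (64 * m) ≠ 0 := by
      rw [Nat.div_ne_zero_iff]
      exact ⟨by omega, hge⟩
    set J := Nat.log 2 (n / (64 * m)) with hJ
    have hJ1 : 2 ^ J ≤ n / (64 * m) := Nat.pow_log_le_self 2 hq0
    have hJ2 : n / (64 * m) < 2 ^ (J + 1) := Nat.lt_pow_succ_log_self (by norm_num) _
    have hJn : 64 * m * 2 ^ J ≤ n := by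
      calc 64 * m * 2 ^ J ≤ 64 * m * (n / (64 * m)) := Nat.mul_le_mul_left _ hJ1
        _ ≤ n := Nat.mul_div_le _ _
    have hnJ : n ≤ 128 * m * 2 ^ J := by
      have h1 : n < 64 * m * (n / (64 * m) + 1) := Nat.lt_mul_div_succ n (by omega)
      have h2 : 64 * m * (n / (64 * m) + 1) ≤ 64 * m * 2 ^ (J + 1) :=
        Nat.mul_le_mul_left _ hJ2
      have h3 : 64 * m * 2 ^ (J + 1) = 128 * m * 2 ^ J := by ring
      omega
    have h2J : 2 ^ (J + 1) ≤ n := by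
      calc 2 ^ (J + 1) = 2 * 2 ^ J := by ring
        _ ≤ 64 * m * 2 ^ J := Nat.mul_le_mul_right _ (by omega)
        _ ≤ n := hJn
    have h1 : t k ≤ cv (nu μ J) t k :=
      iter hμ (fun r hr1 hr2 k' hk' => ht r hr1 (by omega) k' hk') k hJn
    have h2 := B25_sum (t := t) (fun y hy => (nu_supp hμ J y hy).trans hJn)
      (fun y => hnu m hm M0 hM1 μ hμ J y) hn.ge
    calc t k * (n : ℝ≥0∞) ^ (m - 1)
        ≤ (ENNReal.ofReal (M0 ^ (16 * m * (J + 1)) * (C0 / 2 ^ J) ^ m) *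
          ∑ l ∈ Bx m (2 * n), t l) * (n : ℝ≥0∞) ^ (m - 1) := mul_le_mul_left (h1.trans h2) _
      _ = ENNReal.ofReal (M0 ^ (16 * m * (J + 1)) * (C0 / 2 ^ J) ^ m * (n : ℝ) ^ (m - 1)) *
          ∑ l ∈ Bx m (2 * n), t l := by
          rw [ENNReal.ofReal_mul (p := M0 ^ (16 * m * (J + 1)) * (C0 / 2 ^ J) ^ m)
            (by positivity), hpow]
          ring
      _ ≤ _ := by
          refine mul_le_mul_left (ENNReal.ofReal_le_ofReal ?_) _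
          have h3 := B25_real hm hC0 hM1 hM hnJ
          linarith

end Pool.Agent.HD
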