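import Pool.Agent.Lib.MP_8ca597_hd.B24
import Pool.Agent.Lib.MP_8ca597_hd.B22
import Pool.Agent.Lib.MP_8ca597_hd.B03

/-!
# Row B26: the volume bound from a slab

Slab: `S = BoxS {(i, true), (i, false)} (fun _ => R2)`, `i : Fin d` one of the first `m` coordinates:
`z ∈ S` iff `|z i| < R2`. `slab_mass`: `S ⊆ Hf e R2` with `e = (i, true)`; every `x ∈ S` has
`dt x e = R2 - 1 - l` for exactly one `l < 2 * R2`, so the sum is at most
`∑_{l < 2 R2} lev p e R2 l ≤ ∑_{l < 2 R2} (l + 1) F N` (`lev_le`, with `F = 2`,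
`N = ofReal (8 d)`: `ofReal p * lev p e r 0 ≤ 2` and `p ≥ 1 / (4 d)`) `≤ 4 R2² * 2 * 8 d`.
`slab_le`: `tt_SL` for the slab, summed over the `x` with `nm (pj h x) ≤ R`; the second term:
`∑_{q} tauI p S 0 q.1 * ofReal p * ∑_{k ∈ Bx m R} tpj h (tt p) (k - pj h q.2)` (`tpj_sub`, `Vv_eq`) and
`nm (k - pj h q.2) ≥ R2 - R`; `card_Bx`; the flux of the slab is at most `M0 ≤ 2`.
-/

set_option autoImplicit false

namespace Pool.Agent.HD

open Finset
open scoped ENNReal

variable {d m : ℕ} {p : ℝ}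

private lemma B26_mem (i : Fin d) (R2 : ℕ) (x : Vx d) :
    x ∈ BoxS ({(i, true), (i, false)} : Finset (Dir d)) (fun _ => (R2 : ℤ)) ↔
      x i ≤ R2 - 1 ∧ -(x i) ≤ R2 - 1 := by
  simp [BoxS, dt, sg]

theorem slab_mass (hp1 : p ≤ 1) (hd : 1 ≤ d) (hpd : 1 / (4 * d) ≤ p)
    (hF : ∀ (e : Dir d) (r : ℤ), 1 ≤ r → ff p e r ≤ 2) (i : Fin d) {R2 : ℕ} (hR : 1 ≤ R2) :
    ∑' x : Vx d, tauI p (BoxS {(i, true), (i, false)} fun _ => (R2 : ℤ)) 0 x ≤
      ENNReal.ofReal (64 * d) * R2 ^ 2 := by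
  have hd' : (0 : ℝ) < d := by exact_mod_cast hd
  have hp0 : 0 < p := lt_of_lt_of_le (by positivity) hpd
  have hdt : ∀ z : Vx d, dt z ((i, true) : Dir d) = z i := fun z => by simp [dt, sg]
  have hSH : BoxS ({(i, true), (i, false)} : Finset (Dir d)) (fun _ => (R2 : ℤ)) ⊆
      Hf ((i, true) : Dir d) R2 := by
    intro z hz
    have := ((B26_mem i R2 z).1 hz).1
    change dt z ((i, true) : Dir d) ≤ R2 - 1
    rw [hdt]
    exact this
  have h1 : ∀ x : Vx d, tauI p (BoxS {(i, true), (i, false)} fun _ => (R2 : ℤ)) 0 x ≤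
      ∑ l ∈ range (2 * R2), Set.indicator {z : Vx d | dt z ((i, true) : Dir d) = R2 - 1 - l}
        (fun z => tauI p (Hf ((i, true) : Dir d) R2) 0 z) x := by
    intro x
    by_cases hx : x ∈ BoxS ({(i, true), (i, false)} : Finset (Dir d)) (fun _ => (R2 : ℤ))
    · have hx' := (B26_mem i R2 x).1 hx
      have hl : ((((R2 : ℤ) - 1 - x i).toNat : ℕ) : ℤ) = R2 - 1 - x i :=
        Int.toNat_of_nonneg (by linarith [hx'.1])
      have hlm : ((R2 : ℤ) - 1 - x i).toNat ∈ range (2 * R2) := by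
        rw [mem_range]
        have := hx'.2
        omega
      refine (tauI_mono hp0.le hp1 hSH 0 x).trans ?_
      refine le_trans ?_ (single_le_sum (f := fun l : ℕ =>
        Set.indicator {z : Vx d | dt z ((i, true) : Dir d) = R2 - 1 - l}
        (fun z => tauI p (Hf ((i, true) : Dir d) R2) 0 z) x) (fun _ _ => zero_le) hlm)
      have hmem : x ∈ {z : Vx d | dt z ((i, true) : Dir d) =
          R2 - 1 - (((R2 : ℤ) - 1 - x i).toNat : ℕ)} := by
        change dt x ((i, true) : Dir d) = R2 - 1 - (((R2 : ℤ) - 1 - x i).toNat : ℕ)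
        rw [hdt, hl]
        ring
      rw [Set.indicator_of_mem hmem]
    · rw [tauI_zero_right p hx]
      exact zero_le
  have hlev0 : ∀ (e : Dir d) (r : ℤ), 1 ≤ r → lev p e r 0 ≤ ENNReal.ofReal (8 * d) := by
    intro e r hr
    have h2 := hF e r hr
    unfold ff at h2
    have h3 : (1 : ℝ≥0∞) ≤ ENNReal.ofReal (4 * d) * ENNReal.ofReal p := by
      rw [← ENNReal.ofReal_mul (by positivity), ← ENNReal.ofReal_one]
      refine ENNReal.ofReal_le_ofReal ?_
      rw [div_le_iff₀ (by positivity)] at hpd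
      linarith
    calc lev p e r 0 = 1 * lev p e r 0 := (one_mul _).symm
      _ ≤ (ENNReal.ofReal (4 * d) * ENNReal.ofReal p) * lev p e r 0 := by gcongr
      _ = ENNReal.ofReal (4 * d) * (ENNReal.ofReal p * lev p e r 0) := by rw [mul_assoc]
      _ ≤ ENNReal.ofReal (4 * d) * 2 := by gcongr
      _ = ENNReal.ofReal (8 * d) := by
        have : (2 : ℝ≥0∞) = ENNReal.ofReal 2 := by simp
        rw [this, ← ENNReal.ofReal_mul (by positivity)]
        congr 1
        ring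
  have h64 : ENNReal.ofReal (64 * d) = 8 * ENNReal.ofReal (8 * d) := by
    have : (8 : ℝ≥0∞) = ENNReal.ofReal 8 := by simp
    rw [this, ← ENNReal.ofReal_mul (by positivity)]
    congr 1
    ring
  calc ∑' x : Vx d, tauI p (BoxS {(i, true), (i, false)} fun _ => (R2 : ℤ)) 0 x
      ≤ ∑' x : Vx d, ∑ l ∈ range (2 * R2),
        Set.indicator {z : Vx d | dt z ((i, true) : Dir d) = R2 - 1 - l}
        (fun z => tauI p (Hf ((i, true) : Dir d) R2) 0 z) x := ENNReal.tsum_le_tsum h1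
    _ = ∑ l ∈ range (2 * R2), ∑' x : Vx d,
        Set.indicator {z : Vx d | dt z ((i, true) : Dir d) = R2 - 1 - l}
        (fun z => tauI p (Hf ((i, true) : Dir d) R2) 0 z) x :=
        Summable.tsum_finsetSum fun _ _ => ENNReal.summable
    _ = ∑ l ∈ range (2 * R2), lev p ((i, true) : Dir d) R2 l := by
        refine sum_congr rfl fun l _ => ?_
        exact (tsum_subtype {z : Vx d | dt z ((i, true) : Dir d) = R2 - 1 - l}
          (fun z => tauI p (Hf ((i, true) : Dir d) R2) 0 z)).symm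
    _ ≤ ∑ l ∈ range (2 * R2), (2 * R2 : ℝ≥0∞) * 2 * ENNReal.ofReal (8 * d) := by
        refine sum_le_sum fun l hl => ?_
        rw [mem_range] at hl
        refine (lev_le hp0.le hp1 (F := 2) (N := ENNReal.ofReal (8 * d)) (by norm_num) hF hlev0
          _ (by exact_mod_cast hR) l).trans ?_
        have : (l + 1 : ℝ≥0∞) ≤ 2 * R2 := by exact_mod_cast hl
        gcongr
    _ = ENNReal.ofReal (64 * d) * R2 ^ 2 := by
        rw [sum_const, card_range, nsmul_eq_mul, h64]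
        push_cast
        ring

theorem slab_le (hm : 1 ≤ m) (h : m ≤ d) (hp1 : p ≤ 1) (hpd : 1 / (4 * d) ≤ p)
    (hF : ∀ (e : Dir d) (r : ℤ), 1 ≤ r → ff p e r ≤ 2)
    (hbox : ∀ (E : Finset (Dir d)) (R : Dir d → ℤ), E.card ≤ 2 * m → (∀ e ∈ E, 1 ≤ R e) →
      flux p (BoxS E R) 0 ≤ 2) {R R2 : ℕ} (hR : R < R2) :
    Vv h (tt p) R ≤ ENNReal.ofReal (64 * d) * R2 ^ 2 +
      2 * (2 * R + 1) ^ m * ⨆ (k : Vx m) (_ : R2 - R ≤ nm k), tpj h (tt p) k := by
  have hd : 1 ≤ d := hm.trans h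
  have hd' : (0 : ℝ) < d := by exact_mod_cast hd
  have hp0 : 0 < p := lt_of_lt_of_le (by positivity) hpd
  have hR2 : 1 ≤ R2 := by omega
  have h0 : (0 : Vx d) ∈ BoxS ({(Fin.castLE h ⟨0, hm⟩, true), (Fin.castLE h ⟨0, hm⟩, false)} :
      Finset (Dir d)) (fun _ => (R2 : ℤ)) := by
    rw [B26_mem]
    simp only [Pi.zero_apply]
    omega
  have hmass := slab_mass hp1 hd hpd hF (Fin.castLE h ⟨0, hm⟩) hR2
  generalize hSdef : BoxS ({(Fin.castLE h ⟨0, hm⟩, true), (Fin.castLE h ⟨0, hm⟩, false)} :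
      Finset (Dir d)) (fun _ => (R2 : ℤ)) = S at h0 hmass
  have hSL := fun x => tt_SL hp0.le hp1 h0 x
  have hflux : flux p S 0 ≤ 2 := by
    rw [← hSdef]
    refine hbox _ _ ?_ fun _ _ => by exact_mod_cast hR2
    exact (card_le_two).trans (by omega)
  have hnm : ∀ q : exI S Set.univ, R2 ≤ nm (pj h q.1.2) := by
    intro q
    have hq : q.1.2 ∉ S := q.2.2.2.1
    have hq' : ∀ z : Vx d, z ∉ S → ¬ (z (Fin.castLE h ⟨0, hm⟩) ≤ R2 - 1 ∧
        -(z (Fin.castLE h ⟨0, hm⟩)) ≤ R2 - 1) := by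
      intro z hz
      rw [← hSdef, B26_mem] at hz
      exact hz
    replace hq := hq' _ hq
    refine le_trans ?_ (natAbs_le_nm (pj h q.1.2) ⟨0, hm⟩)
    change R2 ≤ (q.1.2 (Fin.castLE h ⟨0, hm⟩)).natAbs
    omega
  have hVq : ∀ q : exI S Set.univ, Vv h (fun x => tt p (x - q.1.2)) R ≤
      (2 * R + 1) ^ m * ⨆ (k : Vx m) (_ : R2 - R ≤ nm k), tpj h (tt p) k := by
    intro q
    rw [Vv_eq]
    have hk : ∀ k ∈ Bx m R, tpj h (fun x => tt p (x - q.1.2)) k ≤
        ⨆ (k : Vx m) (_ : R2 - R ≤ nm k), tpj h (tt p) k := by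
      intro k hk
      rw [mem_Bx] at hk
      rw [tpj_sub]
      have h5 : R2 - R ≤ nm (k - pj h q.1.2) := by
        have h6 := nm_le_sub_add (pj h q.1.2) k
        have h7 : nm (k - pj h q.1.2) = nm (pj h q.1.2 - k) := by
          rw [← nm_neg, neg_sub]
        have h8 := hnm q
        omega
      exact le_iSup₂ (f := fun (k : Vx m) (_ : R2 - R ≤ nm k) => tpj h (tt p) k) _ h5
    refine (sum_le_sum hk).trans ?_
    rw [sum_const, card_Bx, nsmul_eq_mul]
    push_cast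
    exact le_rfl
  unfold Vv
  calc ∑' x : Vx d, (if nm (pj h x) ≤ R then tt p x else 0)
      ≤ ∑' x : Vx d, (tauI p S 0 x + ∑' q : exI S Set.univ, tauI p S 0 q.1.1 * ENNReal.ofReal p *
          (if nm (pj h x) ≤ R then tt p (x - q.1.2) else 0)) := by
        refine ENNReal.tsum_le_tsum fun x => ?_
        split_ifs with hx
        · exact hSL x
        · exact zero_le
    _ = ∑' x : Vx d, tauI p S 0 x + ∑' q : exI S Set.univ, tauI p S 0 q.1.1 * ENNReal.ofReal p *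
          Vv h (fun x => tt p (x - q.1.2)) R := by
        rw [ENNReal.tsum_add, ENNReal.tsum_comm]
        congr 1
        refine tsum_congr fun q => ?_
        rw [ENNReal.tsum_mul_left]
        rfl
    _ ≤ ENNReal.ofReal (64 * d) * R2 ^ 2 + ∑' q : exI S Set.univ, tauI p S 0 q.1.1 *
          ENNReal.ofReal p * ((2 * R + 1) ^ m *
            ⨆ (k : Vx m) (_ : R2 - R ≤ nm k), tpj h (tt p) k) := by
        refine add_le_add hmass (ENNReal.tsum_le_tsum fun q => ?_)
        gcongr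
        exact hVq q
    _ = ENNReal.ofReal (64 * d) * R2 ^ 2 + flux p S 0 * ((2 * R + 1) ^ m *
            ⨆ (k : Vx m) (_ : R2 - R ≤ nm k), tpj h (tt p) k) := by
        rw [ENNReal.tsum_mul_right]
        rfl
    _ ≤ ENNReal.ofReal (64 * d) * R2 ^ 2 + 2 * ((2 * R + 1) ^ m *
            ⨆ (k : Vx m) (_ : R2 - R ≤ nm k), tpj h (tt p) k) := by gcongr
    _ = _ := by rw [mul_assoc]

end Pool.Agent.HD
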