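import Pool.Agent.Lib.MP_8ca597_hd.B20

/-!
# Row B27: the bootstrap of the volume growth (abstract)

Let `V R = ∑ l ∈ Bx m R, t l` and `v = ⨆ R ≥ 1, V R / R ^ 7`, finite. For `nm k = n ≥ 1`:
`t k * n ^ (m - 1) ≤ C1 V (2 n) ≤ C1 v 128 n ^ 7`, i.e. `t k * n ^ (m - 8) ≤ 128 C1 v`. With
`R2 = K R ^ 3`, `K ≥ 2`, and `R2 - R ≥ K R ^ 3 / 2`:
`V R ≤ 64 D K² R ^ 6 + 2 (3 R) ^ m * 128 C1 v / (K R ^ 3 / 2) ^ (m - 8)` and
`R ^ m ≤ R ^ 7 (R ^ 3) ^ (m - 8)` (`m ≥ 10`), so, if `K ≥ 2 + 2 * (512 * 3 ^ m * C1)`: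
`2 * 3 ^ m * 128 * C1 * (2 / K) ^ (m - 8) ≤ 1 / 2` and `V R / R ^ 7 ≤ 64 D K² + v / 2`, hence
`v ≤ 128 D K²`. (It may be convenient to pass to real numbers: everything is finite.)
-/

set_option autoImplicit false

namespace Pool.Agent.HD

open Finset
open scoped ENNReal

/-- The real inequality which closes the bootstrap. -/
private theorem boot_arith (m : ℕ) (hm : 10 ≤ m) (C1 : ℝ) (hC1 : 0 < C1) (K : ℕ)
    (hK : 2 + 2 * (2 * (256 * 3 ^ m * C1)) < K) (D v : ℝ) (hD : 1 ≤ D) (hv : 0 ≤ v) (R : ℕ)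
    (hR : 1 ≤ R) :
    64 * D * ((K * R ^ 3 : ℕ) : ℝ) ^ 2 + 2 * (2 * R + 1) ^ m *
      (128 * C1 * v / ((K : ℝ) * R ^ 3 / 2) ^ (m - 8)) ≤ (64 * D * K ^ 2 + v / 2) * R ^ 7 := by
  obtain ⟨j, rfl⟩ : ∃ j, m = j + 10 := ⟨m - 10, by omega⟩
  have hj : j + 10 - 8 = j + 2 := by omega
  rw [hj]
  have hR1 : (1 : ℝ) ≤ R := by exact_mod_cast hR
  have hR0 : (0 : ℝ) < R := by linarith
  have h3 : (0 : ℝ) < 3 ^ (j + 10) := by positivity
  have hK2 : (2 : ℝ) < K := lt_trans (lt_add_of_pos_right _ (by positivity)) hK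
  have hK0 : (0 : ℝ) < K := by linarith
  have hK4 : 4 * (256 * 3 ^ (j + 10) * C1) ≤ K := by
    have : 2 * (2 * (256 * 3 ^ (j + 10) * C1)) < K := by linarith
    linarith
  have e1 : 64 * D * ((K * R ^ 3 : ℕ) : ℝ) ^ 2 ≤ 64 * D * K ^ 2 * R ^ 7 := by
    push_cast
    have : (R : ℝ) ^ 6 ≤ R ^ 7 := pow_le_pow_right₀ hR1 (by norm_num)
    have h64 : (0 : ℝ) ≤ 64 * D * K ^ 2 := by positivity
    calc 64 * D * ((K : ℝ) * R ^ 3) ^ 2 = 64 * D * K ^ 2 * R ^ 6 := by ring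
      _ ≤ 64 * D * K ^ 2 * R ^ 7 := mul_le_mul_of_nonneg_left this h64
  have e2 : ((2 : ℝ) * R + 1) ^ (j + 10) ≤ 3 ^ (j + 10) * R ^ (j + 10) := by
    rw [← mul_pow]
    exact pow_le_pow_left₀ (by positivity) (by linarith) _
  have e3 : (R : ℝ) ^ (j + 10) ≤ R ^ 7 * (R ^ 3) ^ (j + 2) := by
    rw [← pow_mul, ← pow_add]
    exact pow_le_pow_right₀ hR1 (by omega)
  have e4 : (K : ℝ) / 2 ≤ (K / 2) ^ (j + 2) := by
    have h1 : (1 : ℝ) ≤ K / 2 := by linarith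
    calc (K : ℝ) / 2 = (K / 2) ^ 1 := (pow_one _).symm
      _ ≤ (K / 2) ^ (j + 2) := pow_le_pow_right₀ h1 (by omega)
  have hden : (0 : ℝ) < ((K : ℝ) * R ^ 3 / 2) ^ (j + 2) := by positivity
  have e5 : 2 * ((2 : ℝ) * R + 1) ^ (j + 10) *
      (128 * C1 * v / ((K : ℝ) * R ^ 3 / 2) ^ (j + 2)) ≤ v / 2 * R ^ 7 := by
    rw [mul_div_assoc', div_le_iff₀ hden]
    have e6 : ((K : ℝ) * R ^ 3 / 2) ^ (j + 2) = (K / 2) ^ (j + 2) * (R ^ 3) ^ (j + 2) := by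
      rw [← mul_pow]
      congr 1
      ring
    rw [e6]
    have hc : (0 : ℝ) ≤ 256 * C1 * v := by positivity
    calc 2 * ((2 : ℝ) * R + 1) ^ (j + 10) * (128 * C1 * v)
        = 256 * C1 * v * ((2 : ℝ) * R + 1) ^ (j + 10) := by ring
      _ ≤ 256 * C1 * v * (3 ^ (j + 10) * R ^ (j + 10)) := mul_le_mul_of_nonneg_left e2 hc
      _ ≤ 256 * C1 * v * (3 ^ (j + 10) * (R ^ 7 * (R ^ 3) ^ (j + 2))) :=
          mul_le_mul_of_nonneg_left (mul_le_mul_of_nonneg_left e3 h3.le) hc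
      _ = (256 * 3 ^ (j + 10) * C1) * (v * (R ^ 7 * (R ^ 3) ^ (j + 2))) := by ring
      _ ≤ (K / 4) * (v * (R ^ 7 * (R ^ 3) ^ (j + 2))) :=
          mul_le_mul_of_nonneg_right (by linarith) (by positivity)
      _ = 1 / 2 * (v * (R ^ 7 * (R ^ 3) ^ (j + 2))) * (K / 2) := by ring
      _ ≤ 1 / 2 * (v * (R ^ 7 * (R ^ 3) ^ (j + 2))) * (K / 2) ^ (j + 2) :=
          mul_le_mul_of_nonneg_left e4 (by positivity)
      _ = v / 2 * R ^ 7 * ((K / 2) ^ (j + 2) * (R ^ 3) ^ (j + 2)) := by ring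
  linarith

theorem boot (m : ℕ) (hm : 10 ≤ m) (C1 : ℝ) (hC1 : 0 < C1) : ∃ C : ℝ, 0 < C ∧
    ∀ (D : ℝ) (t : Vx m → ℝ≥0∞), 1 ≤ D → ∑' k, t k < ⊤ →
    (∀ k, 1 ≤ nm k → t k * (nm k : ℝ≥0∞) ^ (m - 1) ≤
      ENNReal.ofReal C1 * ∑ l ∈ Bx m (2 * nm k), t l) →
    (∀ R R2 : ℕ, 1 ≤ R → R < R2 → ∑ l ∈ Bx m R, t l ≤ ENNReal.ofReal (64 * D) * R2 ^ 2 +
      2 * (2 * R + 1) ^ m * ⨆ (k : Vx m) (_ : R2 - R ≤ nm k), t k) →
    ∀ R : ℕ, 1 ≤ R → ∑ l ∈ Bx m R, t l ≤ ENNReal.ofReal (C * D) * R ^ 7 := by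
  obtain ⟨K, hK⟩ := exists_nat_gt (2 + 2 * (2 * (256 * 3 ^ m * C1)))
  have hK2 : (2 : ℝ) < K := lt_trans (lt_add_of_pos_right _ (by positivity)) hK
  have hK0 : (0 : ℝ) < K := by linarith
  have hK2n : 2 < K := by exact_mod_cast hK2
  refine ⟨128 * K ^ 2, by positivity, fun D t hD hfin h1 h2 => ?_⟩
  have hVle : ∀ R, ∑ l ∈ Bx m R, t l ≤ ∑' k, t k := fun R => ENNReal.sum_le_tsum _
  have hVtop : ∀ R, ∑ l ∈ Bx m R, t l ≠ ⊤ := fun R => ((hVle R).trans_lt hfin).ne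
  have httop : ∀ k, t k ≠ ⊤ := fun k => ((ENNReal.le_tsum k).trans_lt hfin).ne
  obtain ⟨a, ha⟩ : ∃ a : ℕ → ℝ, ∀ R, a R = (∑ l ∈ Bx m R, t l).toReal := ⟨_, fun _ => rfl⟩
  have ha0 : ∀ R, 0 ≤ a R := fun R => by
    rw [ha]
    exact ENNReal.toReal_nonneg
  have hVa : ∀ R, ∑ l ∈ Bx m R, t l = ENNReal.ofReal (a R) := fun R => by
    rw [ha, ENNReal.ofReal_toReal (hVtop R)]
  have haM : ∀ R, a R ≤ (∑' k, t k).toReal := fun R => by
    rw [ha]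
    exact ENNReal.toReal_mono hfin.ne (hVle R)
  have hbdd : BddAbove (Set.range fun R : ℕ => a (R + 1) / ((R : ℝ) + 1) ^ 7) := by
    refine ⟨(∑' k, t k).toReal, ?_⟩
    rintro _ ⟨R, rfl⟩
    have h7 : (1 : ℝ) ≤ ((R : ℝ) + 1) ^ 7 := one_le_pow₀ (by linarith [(Nat.cast_nonneg R : (0 : ℝ) ≤ R)])
    exact (div_le_self (ha0 _) h7).trans (haM _)
  obtain ⟨v, hv⟩ : ∃ v : ℝ, v = ⨆ R : ℕ, a (R + 1) / ((R : ℝ) + 1) ^ 7 := ⟨_, rfl⟩
  have hav : ∀ R : ℕ, 1 ≤ R → a R ≤ v * (R : ℝ) ^ 7 := by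
    intro R hR
    obtain ⟨S, rfl⟩ : ∃ S, R = S + 1 := ⟨R - 1, by omega⟩
    have h := le_ciSup hbdd S
    rw [← hv] at h
    have h7 : (0 : ℝ) < ((S : ℝ) + 1) ^ 7 := by positivity
    have h8 : a (S + 1) / ((S : ℝ) + 1) ^ 7 ≤ v := h
    rw [div_le_iff₀ h7] at h8
    push_cast
    exact h8
  have hv0 : 0 ≤ v := by
    have h := hav 1 le_rfl
    have := ha0 1
    norm_num at h
    linarith
  have htb : ∀ k, 1 ≤ nm k → (t k).toReal ≤ 128 * C1 * v / (nm k : ℝ) ^ (m - 8) := by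
    intro k hk
    have hk0 : (0 : ℝ) < nm k := by exact_mod_cast hk
    have h3 := h1 k hk
    rw [hVa] at h3
    have h4 : (t k).toReal * (nm k : ℝ) ^ (m - 1) ≤ C1 * a (2 * nm k) := by
      have h5 := ENNReal.toReal_mono (by
        exact ENNReal.mul_ne_top ENNReal.ofReal_ne_top ENNReal.ofReal_ne_top) h3
      rw [ENNReal.toReal_mul, ENNReal.toReal_mul, ENNReal.toReal_pow, ENNReal.toReal_natCast,
        ENNReal.toReal_ofReal hC1.le, ENNReal.toReal_ofReal (ha0 _)] at h5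
      exact h5
    have h6 := hav (2 * nm k) (by omega)
    have h7 : (nm k : ℝ) ^ (m - 1) = (nm k : ℝ) ^ (m - 8) * (nm k : ℝ) ^ 7 := by
      rw [← pow_add]
      congr 1
      omega
    rw [le_div_iff₀ (by positivity)]
    have h8 : (0 : ℝ) < (nm k : ℝ) ^ 7 := by positivity
    refine le_of_mul_le_mul_right ?_ h8
    calc (t k).toReal * (nm k : ℝ) ^ (m - 8) * (nm k : ℝ) ^ 7
        = (t k).toReal * (nm k : ℝ) ^ (m - 1) := by rw [h7]; ring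
      _ ≤ C1 * a (2 * nm k) := h4
      _ ≤ C1 * (v * ((2 * nm k : ℕ) : ℝ) ^ 7) := mul_le_mul_of_nonneg_left h6 hC1.le
      _ = 128 * C1 * v * (nm k : ℝ) ^ 7 := by
          push_cast
          ring
  have hmain : ∀ R : ℕ, 1 ≤ R → a R ≤ (64 * D * K ^ 2 + v / 2) * (R : ℝ) ^ 7 := by
    intro R hR
    have hRR : R ≤ R ^ 3 := Nat.le_self_pow (by norm_num) R
    have hR3 : 1 ≤ R ^ 3 := hR.trans hRR
    have hlt : R < K * R ^ 3 := by nlinarith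
    have h3 := h2 R (K * R ^ 3) hR hlt
    obtain ⟨B, hB⟩ : ∃ B : ℝ, B = 128 * C1 * v / ((K : ℝ) * R ^ 3 / 2) ^ (m - 8) := ⟨_, rfl⟩
    have hB0 : 0 ≤ B := by rw [hB]; positivity
    have hsup : ⨆ (k : Vx m) (_ : K * R ^ 3 - R ≤ nm k), t k ≤ ENNReal.ofReal B := by
      refine iSup_le fun k => iSup_le fun hk => ?_
      have hR0 : (0 : ℝ) < R := by exact_mod_cast hR
      have hn : (K : ℝ) * R ^ 3 / 2 ≤ nm k := by
        have h4 : K * R ^ 3 ≤ nm k + R := by omega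
        have h5 : ((K * R ^ 3 : ℕ) : ℝ) ≤ ((nm k + R : ℕ) : ℝ) := by exact_mod_cast h4
        push_cast at h5
        have h6 : (R : ℝ) ≤ (R : ℝ) ^ 3 := by exact_mod_cast hRR
        have h7 : (2 : ℝ) * R ^ 3 ≤ K * R ^ 3 :=
          mul_le_mul_of_nonneg_right hK2.le (by positivity)
        linarith
      have hn1 : 1 ≤ nm k := by
        have h4 : K * R ^ 3 ≤ nm k + R := by omega
        nlinarith
      rw [← ENNReal.ofReal_toReal (httop k)]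
      refine ENNReal.ofReal_le_ofReal ((htb k hn1).trans ?_)
      rw [hB]
      exact div_le_div_of_nonneg_left (by positivity) (by positivity)
        (pow_le_pow_left₀ (by positivity) hn _)
    have h4 : ENNReal.ofReal (a R) ≤ ENNReal.ofReal (64 * D * ((K * R ^ 3 : ℕ) : ℝ) ^ 2 +
        2 * (2 * R + 1) ^ m * B) := by
      rw [← hVa]
      refine h3.trans ?_
      have e1 : ENNReal.ofReal (64 * D * ((K * R ^ 3 : ℕ) : ℝ) ^ 2) =
          ENNReal.ofReal (64 * D) * ((K * R ^ 3 : ℕ) : ℝ≥0∞) ^ 2 := by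
        rw [ENNReal.ofReal_mul (show (0 : ℝ) ≤ 64 * D by positivity),
          ENNReal.ofReal_pow (by positivity), ENNReal.ofReal_natCast]
      have e2 : ENNReal.ofReal (2 * (2 * (R : ℝ) + 1) ^ m * B) =
          2 * (2 * R + 1) ^ m * ENNReal.ofReal B := by
        rw [ENNReal.ofReal_mul (show (0 : ℝ) ≤ 2 * (2 * (R : ℝ) + 1) ^ m by positivity),
          ENNReal.ofReal_mul (show (0 : ℝ) ≤ 2 by norm_num), ENNReal.ofReal_pow (by positivity),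
          ENNReal.ofReal_add (show (0 : ℝ) ≤ 2 * (R : ℝ) by positivity) (by norm_num),
          ENNReal.ofReal_mul (show (0 : ℝ) ≤ 2 by norm_num), ENNReal.ofReal_natCast,
          ENNReal.ofReal_one, ENNReal.ofReal_ofNat]
      rw [ENNReal.ofReal_add (by positivity) (by positivity), e1, e2]
      exact add_le_add le_rfl (mul_le_mul_right hsup _)
    have h5 := (ENNReal.ofReal_le_ofReal_iff (by positivity)).1 h4
    rw [hB] at h5
    exact h5.trans (boot_arith m hm C1 hC1 K hK D v hD hv0 R hR)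
  have hvle : v ≤ 64 * D * K ^ 2 + v / 2 := by
    rw [hv]
    refine ciSup_le fun R => ?_
    rw [← hv, div_le_iff₀ (by positivity)]
    have h := hmain (R + 1) (by omega)
    push_cast at h
    exact h
  intro R hR
  rw [hVa, ← ENNReal.ofReal_natCast, ← ENNReal.ofReal_pow (by positivity),
    ← ENNReal.ofReal_mul (by positivity)]
  refine ENNReal.ofReal_le_ofReal ((hav R hR).trans ?_)
  refine mul_le_mul_of_nonneg_right ?_ (by positivity)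
  linarith

end Pool.Agent.HD
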