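import Pool.Agent.Lib.MP_8ca597_hd.B25
import Pool.Agent.Lib.MP_8ca597_hd.B26
import Pool.Agent.Lib.MP_8ca597_hd.B27
import Pool.Agent.Lib.MP_8ca597_hd.A18

/-!
# Row B28: growth and decay of the two-point function

Let `C1` be the constant of `point_decay m`, `C2` the constant of `boot m C1`. `point_decay` for
`μ = mu p h` (`mu_isFace`, `exists_box_Sm`), `t = tpj h (tt p)` (`tpj_tt_le`), all `L`; `boot` with
`D = d` (`slab_le`, `M0 ≤ 2`, `Vv_eq`, `tsum_tpj`, `sub_chi`). Second part: for `n = nm k ≥ 1`: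
`t k * n ^ (m - 8) * n ^ 7 ≤ C1 C2 d (2 n) ^ 7`; for `n = 0` the left side is `0`.
-/

set_option autoImplicit false

namespace Pool.Agent.HD

open Finset
open scoped ENNReal

theorem decay_tt (m : ℕ) (hm : 10 ≤ m) : ∃ C : ℝ, 0 < C ∧ ∀ (d : ℕ) (h : m ≤ d) (p : ℝ),
    1 / (4 * d) ≤ p → p ≤ 1 / 2 → Sub d p →
    (∀ (e : Dir d) (r : ℤ), 1 ≤ r → ff p e r ≤ 2) →
    ∀ M0 : ℝ, 1 ≤ M0 → M0 ^ (16 * m) ≤ √2 →
    (∀ (E : Finset (Dir d)) (R : Dir d → ℤ), E.card ≤ 2 * m → (∀ e ∈ E, 1 ≤ R e) →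
      flux p (BoxS E R) 0 ≤ ENNReal.ofReal M0) →
    (∀ R : ℕ, 1 ≤ R → Vv h (tt p) R ≤ ENNReal.ofReal (C * d) * R ^ 7) ∧
    ∀ k : Vx m, tpj h (tt p) k * (nm k : ℝ≥0∞) ^ (m - 8) ≤ ENNReal.ofReal (C * d) := by
  obtain ⟨C1, hC1, hpd⟩ := point_decay m (by omega)
  obtain ⟨C2, hC2, hboot⟩ := boot m hm C1 hC1
  refine ⟨C2 + 128 * C1 * C2, by positivity, ?_⟩
  intro d h p hp4 hp2 hsub hF M0 hM1 hM0 hflux
  have hd1 : 1 ≤ d := by omega
  have hd1' : (1 : ℝ) ≤ d := by exact_mod_cast hd1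
  have hp : 0 ≤ p := le_trans (by positivity) hp4
  have hp1 : p ≤ 1 := by linarith
  have hM2 : ENNReal.ofReal M0 ≤ 2 := by
    have h1 : M0 ≤ 2 := by
      have h2 : M0 ≤ M0 ^ (16 * m) := le_self_pow₀ hM1 (by omega)
      have h3 : √2 ≤ 2 := by
        rw [Real.sqrt_le_left (by norm_num)]
        norm_num
      linarith
    calc ENNReal.ofReal M0 ≤ ENNReal.ofReal 2 := ENNReal.ofReal_le_ofReal h1
      _ = 2 := by simp
  have hface : IsFace M0 (mu p h) := mu_isFace hp hp1 (by omega) h (fun r hr => by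
    obtain ⟨E, hE, hS⟩ := exists_box_Sm h r
    rw [hS]
    exact hflux E _ hE (fun e _ => by exact_mod_cast hr))
  have hdec : ∀ k : Vx m, 1 ≤ nm k → tpj h (tt p) k * (nm k : ℝ≥0∞) ^ (m - 1) ≤
      ENNReal.ofReal C1 * ∑ l ∈ Bx m (2 * nm k), tpj h (tt p) l := fun k hk =>
    hpd M0 hM1 hM0 (mu p h) hface (tpj h (tt p)) (nm k)
      (fun r hr _ k' hk' => tpj_tt_le hp hp1 h hr hk') k hk le_rfl
  have hV : ∀ R : ℕ, 1 ≤ R → ∑ l ∈ Bx m R, tpj h (tt p) l ≤ ENNReal.ofReal (C2 * d) * R ^ 7 := by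
    refine hboot d (tpj h (tt p)) hd1' ?_ hdec ?_
    · rw [tsum_tpj]
      exact sub_chi hp hp1 hsub
    · intro R R2 _ hRR
      rw [← Vv_eq]
      exact slab_le (by omega) h hp1 hp4 hF
        (fun E R hE hR => (hflux E R hE hR).trans hM2) hRR
  have hC2' : ENNReal.ofReal (C2 * d) ≤ ENNReal.ofReal ((C2 + 128 * C1 * C2) * d) := by
    apply ENNReal.ofReal_le_ofReal
    have : 0 ≤ 128 * C1 * C2 * d := by positivity
    linarith [add_mul C2 (128 * C1 * C2) (d : ℝ)]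
  refine ⟨fun R hR => ?_, fun k => ?_⟩
  · rw [Vv_eq]
    refine (hV R hR).trans ?_
    exact mul_le_mul' hC2' le_rfl
  · by_cases hk : nm k = 0
    · rw [hk, Nat.cast_zero, zero_pow (by omega), mul_zero]
      exact zero_le
    · have hk1 : 1 ≤ nm k := by omega
      have hn0 : ((nm k : ℕ) : ℝ≥0∞) ^ 7 ≠ 0 := by
        apply pow_ne_zero
        exact_mod_cast hk
      have hnt : ((nm k : ℕ) : ℝ≥0∞) ^ 7 ≠ ⊤ := ENNReal.pow_ne_top (ENNReal.natCast_ne_top _)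
      have e1 : tpj h (tt p) k * (nm k : ℝ≥0∞) ^ (m - 8) * (nm k : ℝ≥0∞) ^ 7 =
          tpj h (tt p) k * (nm k : ℝ≥0∞) ^ (m - 1) := by
        rw [mul_assoc, ← pow_add]
        congr 2
        omega
      have e2 : tpj h (tt p) k * (nm k : ℝ≥0∞) ^ (m - 8) * (nm k : ℝ≥0∞) ^ 7 ≤
          ENNReal.ofReal ((C2 + 128 * C1 * C2) * d) * (nm k : ℝ≥0∞) ^ 7 := by
        rw [e1]
        refine (hdec k hk1).trans ?_
        calc ENNReal.ofReal C1 * ∑ l ∈ Bx m (2 * nm k), tpj h (tt p) l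
            ≤ ENNReal.ofReal C1 * (ENNReal.ofReal (C2 * d) * ((2 * nm k : ℕ) : ℝ≥0∞) ^ 7) :=
              mul_le_mul' le_rfl (hV (2 * nm k) (by omega))
          _ = ENNReal.ofReal (128 * C1 * C2 * d) * (nm k : ℝ≥0∞) ^ 7 := by
              have e3 : ENNReal.ofReal (128 * C1 * C2 * d) =
                  128 * (ENNReal.ofReal C1 * ENNReal.ofReal (C2 * d)) := by
                rw [← ENNReal.ofReal_mul hC1.le, show (128 : ℝ≥0∞) = ENNReal.ofReal 128 by simp,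
                  ← ENNReal.ofReal_mul (by norm_num)]
                congr 1
                ring
              rw [e3]
              push_cast
              ring
          _ ≤ _ := by
              refine mul_le_mul' (ENNReal.ofReal_le_ofReal ?_) le_rfl
              have : 0 ≤ C2 * d := by positivity
              linarith [add_mul C2 (128 * C1 * C2) (d : ℝ)]
      exact (ENNReal.mul_le_mul_iff_left hn0 hnt).1 e2

end Pool.Agent.HD
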