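import Pool.Agent.Lib.MP_8ca597_hd.B29b

/-!
# Row B29c: the volume of a convolution

`∑ k ∈ Bx m R, cv t t' k = ∑' l, t l * ∑ k ∈ Bx m R, t' (k - l)`. The `l` with `nm l ≤ 2 * R`:
`nm (k - l) ≤ 3 * R`, so at most `A (2 R) ^ α * A' (3 R) ^ α'`. The `l` with `2 * R < nm l`:
`nm l ≤ 2 * nm (k - l)`, so `t' (k - l) ≤ A' 2 ^ a ((nm l) ^ a)⁻¹`, there are `(2 R + 1) ^ m ≤ (3 R) ^ m`
values of `k` (`card_Bx`), and `tail_sum` at radius `2 R`: at most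
`(3 R) ^ m A' 2 ^ a 2 ^ (α + 1) A ((2 R) ^ (a - α))⁻¹ ≤ 3 ^ m 2 ^ (2 α + 1) A A' R ^ (α + (m - a))`
(`R ^ m = R ^ (m - a) R ^ α R ^ (a - α)`). The sum of the constants is
`2 ^ α 3 ^ α' + 3 ^ m 2 ^ (2 α + 1) ≤ 64 ^ m` because `α, α' ≤ a ≤ m` and `1 ≤ m`.
-/

set_option autoImplicit false

namespace Pool.Agent.HD

open Finset
open scoped ENNReal

variable {m : ℕ}

private theorem B29c_near {t' : Vx m → ℝ≥0∞} {A' : ℝ≥0∞} {α' : ℕ}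
    (ht' : ∀ R : ℕ, 1 ≤ R → ∑ l ∈ Bx m R, t' l ≤ A' * R ^ α') {R : ℕ} (hR : 1 ≤ R) {l : Vx m}
    (hl : nm l ≤ 2 * R) : ∑ k ∈ Bx m R, t' (k - l) ≤ A' * (3 ^ α' * R ^ α') := by
  have h1 : ∑ k ∈ Bx m R, t' (k - l) ≤ ∑ k ∈ Bx m (3 * R), t' k := by
    have h2 : ∑ k ∈ Bx m R, t' (k - l) = ∑ k ∈ (Bx m R).image (fun k => k - l), t' k := by
      rw [Finset.sum_image]
      intro x _ y _ hxy
      exact sub_left_injective hxy
    rw [h2]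
    refine Finset.sum_le_sum_of_subset ?_
    intro x hx
    obtain ⟨k, hk, rfl⟩ := Finset.mem_image.1 hx
    rw [mem_Bx] at hk ⊢
    exact (nm_sub_le k l).trans (by omega)
  refine h1.trans ((ht' (3 * R) (by omega)).trans (le_of_eq ?_))
  push_cast
  rw [mul_pow]

private theorem B29c_far {t' : Vx m → ℝ≥0∞} {A' : ℝ≥0∞} {a : ℕ}
    (hd' : ∀ k, t' k * (nm k : ℝ≥0∞) ^ a ≤ A') {R : ℕ} (hR : 1 ≤ R) {l : Vx m}
    (hl : 2 * R < nm l) :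
    ∑ k ∈ Bx m R, t' (k - l) ≤ 3 ^ m * R ^ m * (A' * 2 ^ a) * ((nm l : ℝ≥0∞) ^ a)⁻¹ := by
  have h1 : ∀ k ∈ Bx m R, t' (k - l) ≤ (A' * 2 ^ a) * ((nm l : ℝ≥0∞) ^ a)⁻¹ := by
    intro k hk
    rw [mem_Bx] at hk
    have h2 : nm l ≤ nm (k - l) + nm k := by
      have := nm_le_sub_add l k
      have h3 : nm (l - k) = nm (k - l) := by
        rw [← nm_neg (l - k), neg_sub]
      omega
    have h4 : nm l ≤ 2 * nm (k - l) := by omega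
    have h5 : ((nm l : ℕ) : ℝ≥0∞) ≤ 2 * ((nm (k - l) : ℕ) : ℝ≥0∞) := by exact_mod_cast h4
    have h6 : ((nm l : ℕ) : ℝ≥0∞) ^ a ≤ 2 ^ a * ((nm (k - l) : ℕ) : ℝ≥0∞) ^ a := by
      rw [← mul_pow]
      exact pow_le_pow_left' h5 a
    have h7 : ((nm l : ℕ) : ℝ≥0∞) ^ a ≠ 0 := by
      apply pow_ne_zero
      exact_mod_cast (by omega : nm l ≠ 0)
    have h8 : ((nm l : ℕ) : ℝ≥0∞) ^ a ≠ ⊤ := ENNReal.pow_ne_top (ENNReal.natCast_ne_top _)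
    rw [← div_eq_mul_inv, ENNReal.le_div_iff_mul_le (Or.inl h7) (Or.inl h8)]
    calc t' (k - l) * ((nm l : ℕ) : ℝ≥0∞) ^ a
        ≤ t' (k - l) * (2 ^ a * ((nm (k - l) : ℕ) : ℝ≥0∞) ^ a) := by gcongr
      _ = (t' (k - l) * ((nm (k - l) : ℕ) : ℝ≥0∞) ^ a) * 2 ^ a := by ring
      _ ≤ A' * 2 ^ a := by
        gcongr
        exact hd' (k - l)
  refine (Finset.sum_le_card_nsmul _ _ _ h1).trans ?_
  rw [card_Bx, nsmul_eq_mul, mul_assoc (3 ^ m * (R : ℝ≥0∞) ^ m)]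
  gcongr
  rw [← mul_pow]
  have h9 : (2 * R + 1) ^ m ≤ (3 * R) ^ m := Nat.pow_le_pow_left (by omega) m
  exact_mod_cast h9

private theorem B29c_const {α α' m : ℕ} (h : α + α' + 2 ≤ m) :
    (2 : ℝ≥0∞) ^ α * 3 ^ α' + 3 ^ m * 2 ^ (2 * α + 1) ≤ 64 ^ m := by
  have h1 : 2 ^ α * 3 ^ α' + 3 ^ m * 2 ^ (2 * α + 1) ≤ 64 ^ m := by
    calc 2 ^ α * 3 ^ α' + 3 ^ m * 2 ^ (2 * α + 1) ≤ 3 ^ α * 3 ^ α' + 3 ^ m * 2 ^ (2 * α + 1) :=
          Nat.add_le_add_right (Nat.mul_le_mul_right _ (Nat.pow_le_pow_left (by norm_num) _)) _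
      _ = 3 ^ (α + α') + 3 ^ m * 2 ^ (2 * α + 1) := by rw [pow_add 3 α α']
      _ ≤ 3 ^ m + 3 ^ m * 2 ^ (2 * α + 1) :=
          Nat.add_le_add_right (Nat.pow_le_pow_right (by norm_num) (by omega)) _
      _ = 3 ^ m * (1 + 2 ^ (2 * α + 1)) := by ring
      _ ≤ 3 ^ m * (2 ^ (2 * α + 1) + 2 ^ (2 * α + 1)) :=
          Nat.mul_le_mul_left _ (Nat.add_le_add_right (Nat.one_le_pow _ _ (by norm_num)) _)
      _ = 3 ^ m * 2 ^ (2 * α + 2) := by ring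
      _ ≤ 3 ^ m * 2 ^ (2 * m) :=
          Nat.mul_le_mul_left _ (Nat.pow_le_pow_right (by norm_num) (by omega))
      _ = 12 ^ m := by
          rw [pow_mul, ← mul_pow]
          norm_num
      _ ≤ 64 ^ m := Nat.pow_le_pow_left (by norm_num) m
  exact_mod_cast h1

theorem conv_vol {t t' : Vx m → ℝ≥0∞} {A A' : ℝ≥0∞} {α α' a : ℕ} (ha : a ≤ m)
    (hα : α + α' + 2 ≤ a) (ht : ∀ R : ℕ, 1 ≤ R → ∑ l ∈ Bx m R, t l ≤ A * R ^ α)
    (ht' : ∀ R : ℕ, 1 ≤ R → ∑ l ∈ Bx m R, t' l ≤ A' * R ^ α')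
    (hd' : ∀ k, t' k * (nm k : ℝ≥0∞) ^ a ≤ A') {R : ℕ} (hR : 1 ≤ R) :
    ∑ k ∈ Bx m R, cv t t' k ≤ 64 ^ m * A * A' * R ^ (α + α' + (m - a)) := by
  have hR1 : (1 : ℝ≥0∞) ≤ (R : ℝ≥0∞) := by exact_mod_cast hR
  have h1 : ∑ k ∈ Bx m R, cv t t' k = ∑' l, t l * ∑ k ∈ Bx m R, t' (k - l) := by
    unfold cv
    rw [← Summable.tsum_finsetSum (fun _ _ => ENNReal.summable)]
    exact tsum_congr fun l => (Finset.mul_sum _ _ _).symm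
  let T : ℝ≥0∞ := ∑' l : Vx m, if 2 * R < nm l then t l * ((nm l : ℝ≥0∞) ^ a)⁻¹ else 0
  have h2 : ∑' l, t l * ∑ k ∈ Bx m R, t' (k - l) ≤
      (∑' l : Vx m, (if l ∈ Bx m (2 * R) then t l else 0) * (A' * (3 ^ α' * (R : ℝ≥0∞) ^ α'))) +
      ∑' l : Vx m, (3 ^ m * (R : ℝ≥0∞) ^ m * (A' * 2 ^ a)) *
        (if 2 * R < nm l then t l * ((nm l : ℝ≥0∞) ^ a)⁻¹ else 0) := by
    rw [← ENNReal.tsum_add]
    refine ENNReal.tsum_le_tsum fun l => ?_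
    by_cases hl : nm l ≤ 2 * R
    · rw [if_pos (mem_Bx.2 hl)]
      refine le_trans ?_ le_self_add
      gcongr
      exact B29c_near ht' hR hl
    · push Not at hl
      rw [if_pos hl]
      refine le_trans ?_ le_add_self
      calc t l * ∑ k ∈ Bx m R, t' (k - l)
          ≤ t l * (3 ^ m * R ^ m * (A' * 2 ^ a) * ((nm l : ℝ≥0∞) ^ a)⁻¹) := by
            gcongr
            exact B29c_far hd' hR hl
        _ = _ := by ring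
  have h3 : (∑' l : Vx m, (if l ∈ Bx m (2 * R) then t l else 0) *
      (A' * (3 ^ α' * (R : ℝ≥0∞) ^ α'))) ≤
      (2 ^ α * 3 ^ α') * (A * A' * (R : ℝ≥0∞) ^ (α + α' + (m - a))) := by
    rw [ENNReal.tsum_mul_right]
    have h4 : (∑' l : Vx m, if l ∈ Bx m (2 * R) then t l else 0) ≤ A * (2 ^ α * R ^ α) := by
      rw [tsum_eq_sum (s := Bx m (2 * R)) (fun l hl => if_neg hl)]
      rw [Finset.sum_congr rfl fun l hl => if_pos hl]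
      refine (ht (2 * R) (by omega)).trans (le_of_eq ?_)
      push_cast
      rw [mul_pow]
    calc (∑' l : Vx m, if l ∈ Bx m (2 * R) then t l else 0) *
          (A' * (3 ^ α' * (R : ℝ≥0∞) ^ α'))
        ≤ (A * (2 ^ α * R ^ α)) * (A' * (3 ^ α' * (R : ℝ≥0∞) ^ α')) := by gcongr
      _ = (2 ^ α * 3 ^ α') * (A * A' * (R : ℝ≥0∞) ^ (α + α')) := by
          rw [pow_add]
          ring
      _ ≤ _ := mul_le_mul' le_rfl (mul_le_mul' le_rfl (pow_le_pow_right₀ hR1 (by omega)))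
  have h5 : (∑' l : Vx m, (3 ^ m * (R : ℝ≥0∞) ^ m * (A' * 2 ^ a)) *
        (if 2 * R < nm l then t l * ((nm l : ℝ≥0∞) ^ a)⁻¹ else 0)) ≤
      (3 ^ m * 2 ^ (2 * α + 1)) * (A * A' * (R : ℝ≥0∞) ^ (α + α' + (m - a))) := by
    rw [ENNReal.tsum_mul_left]
    have h6 := tail_sum (t := t) (A := A) (α := α) (a := a) (by omega) ht
      (R := 2 * R) (by omega)
    have e1 : (R : ℝ≥0∞) ^ m = (R : ℝ≥0∞) ^ (α + (m - a)) * (R : ℝ≥0∞) ^ (a - α) := by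
      rw [← pow_add]
      congr 1
      omega
    have e2 : (2 : ℝ≥0∞) ^ a = 2 ^ α * 2 ^ (a - α) := by
      rw [← pow_add]
      congr 1
      omega
    have e3 : (((2 * R : ℕ) : ℝ≥0∞)) ^ (a - α) = 2 ^ (a - α) * (R : ℝ≥0∞) ^ (a - α) := by
      push_cast
      rw [mul_pow]
    rw [e3] at h6
    calc (3 ^ m * (R : ℝ≥0∞) ^ m * (A' * 2 ^ a)) *
          (∑' l : Vx m, if 2 * R < nm l then t l * ((nm l : ℝ≥0∞) ^ a)⁻¹ else 0)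
        = 3 ^ m * (R : ℝ≥0∞) ^ (α + (m - a)) * A' * 2 ^ α *
          ((∑' l : Vx m, if 2 * R < nm l then t l * ((nm l : ℝ≥0∞) ^ a)⁻¹ else 0) *
            (2 ^ (a - α) * (R : ℝ≥0∞) ^ (a - α))) := by
          rw [e1, e2]
          ring
      _ ≤ 3 ^ m * (R : ℝ≥0∞) ^ (α + (m - a)) * A' * 2 ^ α * (2 ^ (α + 1) * A) := by gcongr
      _ = (3 ^ m * 2 ^ (2 * α + 1)) * (A * A' * (R : ℝ≥0∞) ^ (α + (m - a))) := by
          have e4 : (2 : ℝ≥0∞) ^ (2 * α + 1) = 2 ^ α * 2 ^ (α + 1) := by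
            rw [← pow_add]
            congr 1
            omega
          rw [e4]
          ring
      _ ≤ _ := mul_le_mul' le_rfl (mul_le_mul' le_rfl (pow_le_pow_right₀ hR1 (by omega)))
  rw [h1]
  refine h2.trans ((add_le_add h3 h5).trans ?_)
  rw [← add_mul]
  calc (2 ^ α * 3 ^ α' + 3 ^ m * 2 ^ (2 * α + 1)) *
        (A * A' * (R : ℝ≥0∞) ^ (α + α' + (m - a)))
      ≤ 64 ^ m * (A * A' * (R : ℝ≥0∞) ^ (α + α' + (m - a))) := by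
        gcongr
        exact B29c_const (by omega)
    _ = _ := by ring

end Pool.Agent.HD
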