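import Pool.Agent.Lib.MP_8ca597_hd.B29b

/-!
# Row B29d: the decay of a convolution

For `k = 0` the left side is `0` (the exponent is at least `2`). Let `n = nm k ≥ 1`. The `l` with
`nm l ≤ 2 * n`, `n ≤ 2 * nm l`: `t l ≤ A 2 ^ a (n ^ a)⁻¹`, `nm (k - l) ≤ 3 * n`, sum at most
`A 2 ^ a (n ^ a)⁻¹ A' (3 n) ^ α'`. The `l` with `nm l ≤ 2 * n`, `2 * nm l < n`: `n ≤ 2 * nm (k - l)`,
`t' (k - l) ≤ A' 2 ^ a (n ^ a)⁻¹`, sum at most `A' 2 ^ a (n ^ a)⁻¹ A (2 n) ^ α`. The `l` with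
`2 * n < nm l`: `nm l ≤ 2 * nm (k - l)`, `t' (k - l) ≤ A' 2 ^ a ((nm l) ^ a)⁻¹` and `tail_sum` at radius
`2 n`: at most `A' 2 ^ a 2 ^ (α + 1) A ((2 n) ^ (a - α))⁻¹`. All three, times `n ^ (a - α - α')`, are at
most a constant times `A * A'`, the constants `2 ^ a 3 ^ α'`, `2 ^ a 2 ^ α`, `2 ^ (2 α + 1)` have sum at
most `64 ^ m`.
-/

set_option autoImplicit false

namespace Pool.Agent.HD

open Finset
open scoped ENNReal

variable {m : ℕ}

/-- a decaying function, the exponent cleared -/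
private theorem B29d_dec {t : Vx m → ℝ≥0∞} {A : ℝ≥0∞} {a : ℕ}
    (hd : ∀ k, t k * (nm k : ℝ≥0∞) ^ a ≤ A) {n : ℕ} {l : Vx m} (h : n ≤ 2 * nm l) :
    t l * (n : ℝ≥0∞) ^ a ≤ 2 ^ a * A := by
  have h1 : (n : ℝ≥0∞) ≤ 2 * nm l := by exact_mod_cast h
  calc t l * (n : ℝ≥0∞) ^ a ≤ t l * (2 * nm l) ^ a := mul_le_mul' le_rfl (pow_le_pow_left' h1 a)
    _ = 2 ^ a * (t l * (nm l : ℝ≥0∞) ^ a) := by rw [mul_pow]; ring
    _ ≤ 2 ^ a * A := mul_le_mul' le_rfl (hd l)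

private theorem B29d_cancel {S C N : ℝ≥0∞} {P α α' : ℕ} (hN1 : 1 ≤ N) (hNt : N ≠ ⊤)
    (h : S * N ^ (P + α + α') ≤ C * N ^ α') : S * N ^ P ≤ C := by
  have hN0 : N ^ α' ≠ 0 := pow_ne_zero _ (by
    rintro rfl
    simp at hN1)
  have hNt' : N ^ α' ≠ ⊤ := ENNReal.pow_ne_top hNt
  have h1 : S * N ^ (P + α) * N ^ α' ≤ C * N ^ α' := by
    calc S * N ^ (P + α) * N ^ α' = S * N ^ (P + α + α') := by rw [mul_assoc, ← pow_add]
      _ ≤ _ := h
  have h2 : S * N ^ (P + α) ≤ C := (ENNReal.mul_le_mul_iff_left hN0 hNt').1 h1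
  refine le_trans (mul_le_mul' le_rfl ?_) h2
  exact pow_le_pow_right₀ hN1 (by omega)

private theorem B29d_const {m a α α' : ℕ} (ha : a ≤ m) (hα : α + α' + 2 ≤ a) :
    2 ^ a * 3 ^ α' + 2 ^ a * 2 ^ α + 2 ^ (2 * α + 1) ≤ 64 ^ m := by
  have h1 : 2 ^ a ≤ 2 ^ m := Nat.pow_le_pow_right (by norm_num) ha
  have h2 : 3 ^ α' ≤ 3 ^ m := Nat.pow_le_pow_right (by norm_num) (by omega)
  have h3 : 2 ^ α ≤ 2 ^ m := Nat.pow_le_pow_right (by norm_num) (by omega)
  have h4 : 2 ^ (2 * α + 1) ≤ 2 ^ (2 * m) := Nat.pow_le_pow_right (by norm_num) (by omega)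
  have h5 : 2 ^ a * 3 ^ α' ≤ 6 ^ m := by
    calc 2 ^ a * 3 ^ α' ≤ 2 ^ m * 3 ^ m := Nat.mul_le_mul h1 h2
      _ = 6 ^ m := by rw [← Nat.mul_pow]
  have h6 : 2 ^ a * 2 ^ α ≤ 4 ^ m := by
    calc 2 ^ a * 2 ^ α ≤ 2 ^ m * 2 ^ m := Nat.mul_le_mul h1 h3
      _ = 4 ^ m := by rw [← Nat.mul_pow]
  have h7 : 2 ^ (2 * α + 1) ≤ 4 ^ m := by
    refine h4.trans ?_
    rw [pow_mul]
    norm_num
  have h8 : 6 ^ m + 4 ^ m + 4 ^ m ≤ 64 ^ m := by
    have hm : 1 ≤ m := by omega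
    have h9 : 6 ^ m ≤ 16 ^ m := Nat.pow_le_pow_left (by norm_num) m
    have h10 : 4 ^ m ≤ 16 ^ m := Nat.pow_le_pow_left (by norm_num) m
    have h11 : 4 * 16 ^ m ≤ 64 ^ m := by
      calc 4 * 16 ^ m ≤ 4 ^ m * 16 ^ m := by
            refine Nat.mul_le_mul_right _ ?_
            calc 4 = 4 ^ 1 := by norm_num
              _ ≤ 4 ^ m := Nat.pow_le_pow_right (by norm_num) hm
        _ = 64 ^ m := by rw [← Nat.mul_pow]
    omega
  omega

theorem conv_dec {t t' : Vx m → ℝ≥0∞} {A A' : ℝ≥0∞} {α α' a : ℕ} (ha : a ≤ m)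
    (hα : α + α' + 2 ≤ a) (ht : ∀ R : ℕ, 1 ≤ R → ∑ l ∈ Bx m R, t l ≤ A * R ^ α)
    (ht' : ∀ R : ℕ, 1 ≤ R → ∑ l ∈ Bx m R, t' l ≤ A' * R ^ α')
    (hd : ∀ k, t k * (nm k : ℝ≥0∞) ^ a ≤ A)
    (hd' : ∀ k, t' k * (nm k : ℝ≥0∞) ^ a ≤ A') (k : Vx m) :
    cv t t' k * (nm k : ℝ≥0∞) ^ (a - α - α') ≤ 64 ^ m * A * A' := by
  classical
  rcases Nat.eq_zero_or_pos (nm k) with h0 | hn
  · rw [h0, Nat.cast_zero, zero_pow (by omega), mul_zero]
    exact zero_le
  set n := nm k with hnk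
  set N : ℝ≥0∞ := (n : ℝ≥0∞) with hN
  have hN1 : 1 ≤ N := by rw [hN]; exact_mod_cast hn
  have hNt : N ≠ ⊤ := ENNReal.natCast_ne_top n
  obtain ⟨P, hP⟩ : ∃ P, a = P + α + α' := ⟨a - α - α', by omega⟩
  have hPe : a - α - α' = P := by omega
  rw [hPe]
  -- the three parts
  set f1 : Vx m → ℝ≥0∞ := fun l => if nm l ≤ 2 * n ∧ n ≤ 2 * nm l then t l * t' (k - l) else 0
    with hf1
  set f2 : Vx m → ℝ≥0∞ := fun l => if 2 * nm l < n then t l * t' (k - l) else 0 with hf2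
  set f3 : Vx m → ℝ≥0∞ := fun l => if 2 * n < nm l then t l * t' (k - l) else 0 with hf3
  have hsplit : cv t t' k ≤ ∑' l, f1 l + ∑' l, f2 l + ∑' l, f3 l := by
    rw [← ENNReal.tsum_add, ← ENNReal.tsum_add, cv]
    refine ENNReal.tsum_le_tsum fun l => ?_
    by_cases h1 : 2 * n < nm l
    · simp only [hf3, h1, if_true]
      exact le_add_self
    · by_cases h2 : 2 * nm l < n
      · simp only [hf2, h2, if_true]
        exact le_add_self.trans le_self_add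
      · have h3 : nm l ≤ 2 * n ∧ n ≤ 2 * nm l := ⟨by omega, by omega⟩
        simp only [hf1, h3, and_self, if_true]
        exact le_self_add.trans le_self_add
  have hkl : ∀ l : Vx m, nm (k - l) ≤ n + nm l := fun l => nm_sub_le k l
  have hlk : ∀ l : Vx m, n ≤ nm (k - l) + nm l := fun l => nm_le_sub_add k l
  have hlk' : ∀ l : Vx m, nm l ≤ nm (k - l) + n := by
    intro l
    have h1 := nm_sub_le k (k - l)
    rw [sub_sub_cancel] at h1
    omega
  -- first part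
  have hS1 : (∑' l, f1 l) * N ^ P ≤ 2 ^ a * 3 ^ α' * A * A' := by
    refine B29d_cancel (α := α) (α' := α') hN1 hNt ?_
    rw [← hP, ← ENNReal.tsum_mul_right]
    have h1 : ∀ l, f1 l * N ^ a ≤ 2 ^ a * A * (if k - l ∈ Bx m (3 * n) then t' (k - l) else 0) := by
      intro l
      by_cases h2 : nm l ≤ 2 * n ∧ n ≤ 2 * nm l
      · have h3 : k - l ∈ Bx m (3 * n) := by
          rw [mem_Bx]
          have := hkl l
          omega
        simp only [hf1, h2, and_self, if_true, h3]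
        calc t l * t' (k - l) * N ^ a = t l * N ^ a * t' (k - l) := by ring
          _ ≤ 2 ^ a * A * t' (k - l) := mul_le_mul' (B29d_dec hd h2.2) le_rfl
      · simp only [hf1, h2, if_false, zero_mul]
        exact zero_le
    calc ∑' l, f1 l * N ^ a
        ≤ ∑' l, 2 ^ a * A * (if k - l ∈ Bx m (3 * n) then t' (k - l) else 0) :=
          ENNReal.tsum_le_tsum h1
      _ = 2 ^ a * A * ∑' l, (if l ∈ Bx m (3 * n) then t' l else 0) := by
          rw [ENNReal.tsum_mul_left]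
          congr 1
          exact (Equiv.subLeft k).tsum_eq (fun l => if l ∈ Bx m (3 * n) then t' l else 0)
      _ = 2 ^ a * A * ∑ l ∈ Bx m (3 * n), t' l := by
          congr 1
          rw [tsum_eq_sum (s := Bx m (3 * n))]
          · refine Finset.sum_congr rfl fun x hx => ?_
            rw [if_pos hx]
          · intro x hx
            rw [if_neg hx]
      _ ≤ 2 ^ a * A * (A' * ((3 * n : ℕ) : ℝ≥0∞) ^ α') :=
          mul_le_mul' le_rfl (ht' (3 * n) (by omega))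
      _ = 2 ^ a * 3 ^ α' * A * A' * N ^ α' := by
          rw [Nat.cast_mul, mul_pow, Nat.cast_ofNat]
          ring
  -- second part
  have hS2 : (∑' l, f2 l) * N ^ P ≤ 2 ^ a * 2 ^ α * A * A' := by
    refine B29d_cancel (α := α') (α' := α) hN1 hNt ?_
    have hP' : a = P + α' + α := by omega
    rw [← hP', ← ENNReal.tsum_mul_right]
    have h1 : ∀ l, f2 l * N ^ a ≤ 2 ^ a * A' * (if l ∈ Bx m (2 * n) then t l else 0) := by
      intro l
      by_cases h2 : 2 * nm l < n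
      · have h3 : l ∈ Bx m (2 * n) := by
          rw [mem_Bx]
          omega
        have h4 : n ≤ 2 * nm (k - l) := by
          have := hlk l
          omega
        simp only [hf2, h2, if_true, h3]
        calc t l * t' (k - l) * N ^ a = t' (k - l) * N ^ a * t l := by ring
          _ ≤ 2 ^ a * A' * t l := mul_le_mul' (B29d_dec hd' h4) le_rfl
      · simp only [hf2, h2, if_false, zero_mul]
        exact zero_le
    calc ∑' l, f2 l * N ^ a
        ≤ ∑' l, 2 ^ a * A' * (if l ∈ Bx m (2 * n) then t l else 0) :=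
          ENNReal.tsum_le_tsum h1
      _ = 2 ^ a * A' * ∑ l ∈ Bx m (2 * n), t l := by
          rw [ENNReal.tsum_mul_left]
          congr 1
          rw [tsum_eq_sum (s := Bx m (2 * n))]
          · refine Finset.sum_congr rfl fun x hx => ?_
            rw [if_pos hx]
          · intro x hx
            rw [if_neg hx]
      _ ≤ 2 ^ a * A' * (A * ((2 * n : ℕ) : ℝ≥0∞) ^ α) :=
          mul_le_mul' le_rfl (ht (2 * n) (by omega))
      _ = 2 ^ a * 2 ^ α * A * A' * N ^ α := by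
          rw [Nat.cast_mul, mul_pow, Nat.cast_ofNat]
          ring
  -- third part
  have hS3 : (∑' l, f3 l) * N ^ P ≤ 2 ^ (2 * α + 1) * A * A' := by
    set T : ℝ≥0∞ := ∑' l : Vx m, if 2 * n < nm l then t l * ((nm l : ℝ≥0∞) ^ a)⁻¹ else 0 with hT
    have h1 : ∀ l, f3 l ≤ 2 ^ a * A' * (if 2 * n < nm l then t l * ((nm l : ℝ≥0∞) ^ a)⁻¹ else 0) := by
      intro l
      by_cases h2 : 2 * n < nm l
      · have h3 : nm l ≤ 2 * nm (k - l) := by
          have := hlk' l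
          omega
        have h4 := B29d_dec hd' h3
        have h5 : (nm l : ℝ≥0∞) ^ a ≠ 0 := pow_ne_zero _ (by
          exact_mod_cast (by omega : nm l ≠ 0))
        have h6 : (nm l : ℝ≥0∞) ^ a ≠ ⊤ := ENNReal.pow_ne_top (ENNReal.natCast_ne_top _)
        have h7 : t' (k - l) ≤ 2 ^ a * A' * ((nm l : ℝ≥0∞) ^ a)⁻¹ := by
          rw [← div_eq_mul_inv, ENNReal.le_div_iff_mul_le (Or.inl h5) (Or.inl h6)]
          exact h4
        simp only [hf3, h2, if_true]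
        calc t l * t' (k - l) ≤ t l * (2 ^ a * A' * ((nm l : ℝ≥0∞) ^ a)⁻¹) :=
              mul_le_mul' le_rfl h7
          _ = 2 ^ a * A' * (t l * ((nm l : ℝ≥0∞) ^ a)⁻¹) := by ring
      · simp only [hf3, h2, if_false]
        exact zero_le
    have h2 : ∑' l, f3 l ≤ 2 ^ a * A' * T := by
      refine (ENNReal.tsum_le_tsum h1).trans ?_
      rw [ENNReal.tsum_mul_left]
    have h3 : T * ((2 * n : ℕ) : ℝ≥0∞) ^ (a - α) ≤ 2 ^ (α + 1) * A :=
      tail_sum (by omega) ht (R := 2 * n) (by omega)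
    have h4 : N ^ P ≤ N ^ (a - α) := pow_le_pow_right₀ hN1 (by omega)
    have h5 : (2 : ℝ≥0∞) ^ a = 2 ^ α * 2 ^ (a - α) := by
      rw [← pow_add]
      congr 1
      omega
    calc (∑' l, f3 l) * N ^ P ≤ 2 ^ a * A' * T * N ^ (a - α) := mul_le_mul' h2 h4
      _ = 2 ^ α * A' * (T * ((2 * n : ℕ) : ℝ≥0∞) ^ (a - α)) := by
          rw [Nat.cast_mul, mul_pow, Nat.cast_ofNat, h5]
          ring
      _ ≤ 2 ^ α * A' * (2 ^ (α + 1) * A) := mul_le_mul' le_rfl h3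
      _ = 2 ^ (2 * α + 1) * A * A' := by
          ring
  have hc : (2 ^ a * 3 ^ α' + 2 ^ a * 2 ^ α + 2 ^ (2 * α + 1) : ℝ≥0∞) ≤ 64 ^ m := by
    exact_mod_cast B29d_const ha hα
  calc cv t t' k * N ^ P ≤ (∑' l, f1 l + ∑' l, f2 l + ∑' l, f3 l) * N ^ P :=
        mul_le_mul' hsplit le_rfl
    _ = (∑' l, f1 l) * N ^ P + (∑' l, f2 l) * N ^ P + (∑' l, f3 l) * N ^ P := by ring
    _ ≤ 2 ^ a * 3 ^ α' * A * A' + 2 ^ a * 2 ^ α * A * A' + 2 ^ (2 * α + 1) * A * A' :=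
        add_le_add (add_le_add hS1 hS2) hS3
    _ = (2 ^ a * 3 ^ α' + 2 ^ a * 2 ^ α + 2 ^ (2 * α + 1)) * (A * A') := by ring
    _ ≤ 64 ^ m * (A * A') := mul_le_mul' hc le_rfl
    _ = 64 ^ m * A * A' := by ring

end Pool.Agent.HD
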