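import Pool.Agent.Lib.MP_8ca597_hd.B29a
import Pool.Agent.Lib.MP_8ca597_hd.B29c
import Pool.Agent.Lib.MP_8ca597_hd.B29d

/-!
# Row B29e: convolutions in the class `Dc`
-/

set_option autoImplicit false

namespace Pool.Agent.HD

open Finset
open scoped ENNReal

variable {d m : ℕ} {h : m ≤ d} {g g' : Vx d → ℝ≥0∞} {A A' : ℝ≥0∞} {α α' a : ℕ}

/-- Permutations as additive automorphisms. -/
def pmE (π : Equiv.Perm (Fin d)) : Vx d ≃+ Vx d where
  toFun x i := x (π i)
  invFun x i := x (π.symm i)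
  left_inv x := by
    funext i
    simp
  right_inv x := by
    funext i
    simp
  map_add' x y := rfl

theorem Dc.conv (ha : a ≤ m) (hα : α + α' + 2 ≤ a) (H : Dc h g A α a) (H' : Dc h g' A' α' a) :
    Dc h (cv g g') (64 ^ m * A * A') (α + α' + (m - a)) (a - α - α') where
  symm π x := cv_equiv (pmE π) (fun y => H.symm π y) (fun y => H'.symm π y) x
  vol R hR := by
    rw [Vv_eq, tpj_cv]
    refine conv_vol ha hα (fun R hR => ?_) (fun R hR => ?_) H'.dec hR
    · rw [← Vv_eq]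
      exact H.vol R hR
    · rw [← Vv_eq]
      exact H'.vol R hR
  dec k := by
    rw [tpj_cv]
    refine conv_dec ha hα (fun R hR => ?_) (fun R hR => ?_) H.dec H'.dec k
    · rw [← Vv_eq]
      exact H.vol R hR
    · rw [← Vv_eq]
      exact H'.vol R hR

/-- Convolutions. -/
theorem dc_cv (m α α' a : ℕ) (ha : a ≤ m) (h1 : α + α' + 2 ≤ a) : ∃ C : ℝ, 0 < C ∧
    ∀ (d : ℕ) (h : m ≤ d) (g g' : Vx d → ℝ≥0∞) (A A' : ℝ≥0∞), Dc h g A α a → Dc h g' A' α' a →
      Dc h (cv g g') (ENNReal.ofReal C * A * A') (α + α' + (m - a)) (a - α - α') := by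
  refine ⟨64 ^ m, by positivity, fun d h g g' A A' H H' => ?_⟩
  have h2 : ENNReal.ofReal (64 ^ m) = 64 ^ m := by
    rw [ENNReal.ofReal_pow (by norm_num)]
    norm_num
  rw [h2]
  exact Dc.conv ha h1 H H'

end Pool.Agent.HD
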