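import Pool.Agent.Lib.MP_8ca597_hd.B20

/-!
# Row B29b: sums over the complement of a box (dyadic decomposition)

Every `l` with `R < nm l` satisfies `2 ^ j * R < nm l ≤ 2 ^ (j + 1) * R` for some `j`. The sum is at
most `∑' j, ∑ l ∈ Bx m (2 ^ (j + 1) * R), t l * ((2 ^ j * R) ^ a)⁻¹ ≤
∑' j, A (2 ^ (j + 1) R) ^ α ((2 ^ j R) ^ a)⁻¹`, the `j`-th term times `R ^ (a - α)` is
`2 ^ α A 2 ^ (- j (a - α)) ≤ 2 ^ α A (1 / 2) ^ j`, and `∑' j, (1 / 2) ^ j = 2`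
(`ENNReal.tsum_geometric_two` or `ENNReal.tsum_geometric`).
-/

set_option autoImplicit false

namespace Pool.Agent.HD

open Finset
open scoped ENNReal

variable {m : ℕ}

private theorem B29b_mem {n : ℕ} {x : Vx m} : x ∈ Bx m n ↔ nm x ≤ n := by
  rw [nm_le_iff, Bx, Fintype.mem_piFinset]
  refine forall_congr' fun i => ?_
  rw [mem_Icc]
  omega

private theorem B29b_dyadic {n R : ℕ} (hR : 1 ≤ R) (h : R < n) :
    ∃ j : ℕ, 2 ^ j * R < n ∧ n ≤ 2 ^ (j + 1) * R := by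
  have hex : ∃ j : ℕ, n ≤ 2 ^ (j + 1) * R := by
    refine ⟨n, ?_⟩
    have h1 : n < 2 ^ n := Nat.lt_two_pow_self
    calc n ≤ 2 ^ (n + 1) := by rw [pow_succ]; omega
      _ ≤ 2 ^ (n + 1) * R := Nat.le_mul_of_pos_right _ hR
  classical
  refine ⟨Nat.find hex, ?_, Nat.find_spec hex⟩
  rcases Nat.eq_zero_or_pos (Nat.find hex) with h0 | h0
  · rw [h0, pow_zero, one_mul]
    exact h
  · have h1 := Nat.find_min hex (Nat.sub_lt h0 one_pos)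
    have h2 : Nat.find hex - 1 + 1 = Nat.find hex := by omega
    rw [h2] at h1
    exact not_le.1 h1

private theorem B29b_term {A : ℝ≥0∞} {α a : ℕ} (ha : α + 1 ≤ a) {R : ℕ} (hR : 1 ≤ R) (j : ℕ) :
    ((((2 ^ j * R : ℕ) : ℝ≥0∞) ^ a)⁻¹ * (A * ((2 ^ (j + 1) * R : ℕ) : ℝ≥0∞) ^ α)) *
      (R : ℝ≥0∞) ^ (a - α) ≤ 2 ^ α * A * (2⁻¹) ^ j := by
  have hr0 : (R : ℝ≥0∞) ^ a ≠ 0 := pow_ne_zero _ (by exact_mod_cast (by omega : R ≠ 0))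
  have hrt : (R : ℝ≥0∞) ^ a ≠ ∞ := ENNReal.pow_ne_top (ENNReal.natCast_ne_top R)
  have h1 : (((2 ^ j * R : ℕ) : ℝ≥0∞) ^ a)⁻¹ = ((2 : ℝ≥0∞) ^ (j * a))⁻¹ * ((R : ℝ≥0∞) ^ a)⁻¹ := by
    rw [Nat.cast_mul, mul_pow, ENNReal.mul_inv (Or.inr hrt) (Or.inr hr0), Nat.cast_pow,
      Nat.cast_ofNat, ← pow_mul]
  have h2 : ((2 ^ (j + 1) * R : ℕ) : ℝ≥0∞) ^ α =
      (2 : ℝ≥0∞) ^ (j * α) * 2 ^ α * (R : ℝ≥0∞) ^ α := by
    rw [Nat.cast_mul, mul_pow, Nat.cast_pow, Nat.cast_ofNat, ← pow_mul, add_mul, one_mul, pow_add]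
  have h3 : (R : ℝ≥0∞) ^ α * (R : ℝ≥0∞) ^ (a - α) = (R : ℝ≥0∞) ^ a := by
    rw [← pow_add]
    congr 1
    omega
  have h4 : ((2 : ℝ≥0∞) ^ (j * a))⁻¹ * (2 : ℝ≥0∞) ^ (j * α) ≤ (2⁻¹) ^ j := by
    have h5 : (2 : ℝ≥0∞) ^ (j * α) * 2 ^ j ≤ 2 ^ (j * a) := by
      rw [← pow_add]
      refine pow_le_pow_right₀ (by norm_num) ?_
      calc j * α + j = j * (α + 1) := by ring
        _ ≤ j * a := Nat.mul_le_mul_left _ ha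
    have h6 : (2 : ℝ≥0∞) ^ (j * α) ≠ 0 := pow_ne_zero _ (by norm_num)
    have h7 : (2 : ℝ≥0∞) ^ (j * α) ≠ ∞ := ENNReal.pow_ne_top (by norm_num)
    calc ((2 : ℝ≥0∞) ^ (j * a))⁻¹ * (2 : ℝ≥0∞) ^ (j * α)
        ≤ ((2 : ℝ≥0∞) ^ (j * α) * 2 ^ j)⁻¹ * (2 : ℝ≥0∞) ^ (j * α) :=
          mul_le_mul' (ENNReal.inv_le_inv.2 h5) le_rfl
      _ = ((2 : ℝ≥0∞) ^ (j * α) * ((2 : ℝ≥0∞) ^ (j * α))⁻¹) * (2 ^ j)⁻¹ := by
          rw [ENNReal.mul_inv (Or.inl h6) (Or.inl h7)]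
          ring
      _ = (2⁻¹) ^ j := by rw [ENNReal.mul_inv_cancel h6 h7, one_mul, ENNReal.inv_pow]
  calc ((((2 ^ j * R : ℕ) : ℝ≥0∞) ^ a)⁻¹ * (A * ((2 ^ (j + 1) * R : ℕ) : ℝ≥0∞) ^ α)) *
        (R : ℝ≥0∞) ^ (a - α)
      = 2 ^ α * A * (((2 : ℝ≥0∞) ^ (j * a))⁻¹ * (2 : ℝ≥0∞) ^ (j * α)) *
          (((R : ℝ≥0∞) ^ α * (R : ℝ≥0∞) ^ (a - α)) * ((R : ℝ≥0∞) ^ a)⁻¹) := by
        rw [h1, h2]
        ring
    _ = 2 ^ α * A * (((2 : ℝ≥0∞) ^ (j * a))⁻¹ * (2 : ℝ≥0∞) ^ (j * α)) := by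
        rw [h3, ENNReal.mul_inv_cancel hr0 hrt, mul_one]
    _ ≤ 2 ^ α * A * (2⁻¹) ^ j := mul_le_mul' le_rfl h4

theorem tail_sum {t : Vx m → ℝ≥0∞} {A : ℝ≥0∞} {α a : ℕ} (ha : α + 1 ≤ a)
    (ht : ∀ R : ℕ, 1 ≤ R → ∑ l ∈ Bx m R, t l ≤ A * R ^ α) {R : ℕ} (hR : 1 ≤ R) :
    (∑' l : Vx m, if R < nm l then t l * ((nm l : ℝ≥0∞) ^ a)⁻¹ else 0) *
      (R : ℝ≥0∞) ^ (a - α) ≤ 2 ^ (α + 1) * A := by
  classical
  have h1 : ∀ l : Vx m, (if R < nm l then t l * ((nm l : ℝ≥0∞) ^ a)⁻¹ else 0) ≤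
      ∑' j : ℕ, if l ∈ Bx m (2 ^ (j + 1) * R) then
        (((2 ^ j * R : ℕ) : ℝ≥0∞) ^ a)⁻¹ * t l else 0 := by
    intro l
    split_ifs with hl
    · obtain ⟨j, hj1, hj2⟩ := B29b_dyadic hR hl
      refine le_trans ?_ (ENNReal.le_tsum j)
      rw [if_pos (B29b_mem.2 hj2), mul_comm]
      refine mul_le_mul' (ENNReal.inv_le_inv.2 (pow_le_pow_left' ?_ a)) le_rfl
      exact_mod_cast hj1.le
    · exact zero_le
  calc (∑' l : Vx m, if R < nm l then t l * ((nm l : ℝ≥0∞) ^ a)⁻¹ else 0) * (R : ℝ≥0∞) ^ (a - α)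
      ≤ (∑' l : Vx m, ∑' j : ℕ, if l ∈ Bx m (2 ^ (j + 1) * R) then
        (((2 ^ j * R : ℕ) : ℝ≥0∞) ^ a)⁻¹ * t l else 0) * (R : ℝ≥0∞) ^ (a - α) :=
        mul_le_mul' (ENNReal.tsum_le_tsum h1) le_rfl
    _ = ∑' j : ℕ, ((((2 ^ j * R : ℕ) : ℝ≥0∞) ^ a)⁻¹ * ∑ l ∈ Bx m (2 ^ (j + 1) * R), t l) *
          (R : ℝ≥0∞) ^ (a - α) := by
        rw [ENNReal.tsum_comm, ← ENNReal.tsum_mul_right]
        congr 1
        funext j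
        congr 1
        rw [tsum_eq_sum (s := Bx m (2 ^ (j + 1) * R)) (fun l hl => if_neg hl), mul_sum]
        exact sum_congr rfl fun l hl => if_pos hl
    _ ≤ ∑' j : ℕ, 2 ^ α * A * (2⁻¹) ^ j := by
        refine ENNReal.tsum_le_tsum fun j => ?_
        refine le_trans ?_ (B29b_term ha hR j)
        refine mul_le_mul' (mul_le_mul' le_rfl (ht _ ?_)) le_rfl
        exact Nat.mul_pos (by positivity) hR
    _ = 2 ^ (α + 1) * A := by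
        rw [ENNReal.tsum_mul_left, ENNReal.tsum_geometric, ENNReal.one_sub_inv_two, inv_inv]
        ring

private theorem B29b_step {K : ℕ} (hK : 1 ≤ K) :
    (((K + 1 : ℕ) : ℝ≥0∞) ^ 2)⁻¹ + ((K + 1 : ℕ) : ℝ≥0∞)⁻¹ ≤ (K : ℝ≥0∞)⁻¹ := by
  have hK' : (0 : ℝ) < K := by exact_mod_cast hK
  rw [← ENNReal.ofReal_natCast K, ← ENNReal.ofReal_natCast (K + 1), ← ENNReal.ofReal_pow (by positivity),
    ← ENNReal.ofReal_inv_of_pos (by positivity), ← ENNReal.ofReal_inv_of_pos (by positivity),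
    ← ENNReal.ofReal_inv_of_pos hK', ← ENNReal.ofReal_add (by positivity) (by positivity)]
  refine ENNReal.ofReal_le_ofReal ?_
  push_cast
  have h1 : (((K : ℝ) + 1) ^ 2)⁻¹ + ((K : ℝ) + 1)⁻¹ = ((K : ℝ) + 2) / ((K : ℝ) + 1) ^ 2 := by
    field_simp
    ring
  rw [h1, inv_eq_one_div, div_le_div_iff₀ (by positivity) hK']
  nlinarith

private theorem B29b_sq (ν : ℕ) : (∑' n : ℕ, if ν < n then ((n : ℝ≥0∞) ^ 2)⁻¹ else 0) ≤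
    2 * ((max ν 1 : ℕ) : ℝ≥0∞)⁻¹ := by
  have key : ∀ K : ℕ, max ν 1 ≤ K →
      ∑ n ∈ range (K + 1), (if ν < n then ((n : ℝ≥0∞) ^ 2)⁻¹ else 0) + (K : ℝ≥0∞)⁻¹ ≤
        2 * ((max ν 1 : ℕ) : ℝ≥0∞)⁻¹ := by
    intro K hK
    induction K, hK using Nat.le_induction with
    | base =>
      rcases Nat.eq_zero_or_pos ν with h0 | h0
      · subst h0
        have h1 : max 0 1 = 1 := rfl
        rw [h1, sum_range_succ, sum_range_one, if_neg (by omega), if_pos (by omega)]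
        norm_num
      · have h1 : max ν 1 = ν := by omega
        rw [h1, sum_eq_zero, zero_add]
        · exact le_mul_of_one_le_left zero_le (by norm_num)
        · intro n hn
          rw [mem_range] at hn
          exact if_neg (by omega)
    | succ K hK ih =>
      rw [sum_range_succ, if_pos (by omega)]
      refine le_trans ?_ ih
      rw [add_assoc]
      exact add_le_add_right (B29b_step (by omega)) _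
  refine ENNReal.tsum_le_of_sum_range_le fun K => ?_
  have h1 := key (max K (max ν 1)) (by omega)
  refine le_trans ?_ (le_self_add.trans h1)
  exact sum_le_sum_of_subset (range_subset_range.2 (by omega))

/-- The elementary sum over the integers. -/
theorem tail_sum_nat {a ν : ℕ} (ha : 5 ≤ a) : (∑' n : ℕ, if ν < n then
    (1 + n : ℝ≥0∞) ^ 2 * ((n : ℝ≥0∞) ^ a)⁻¹ else 0) * ((max ν 1 : ℕ) : ℝ≥0∞) ^ (a - 3) ≤ 8 := by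
  set N := max ν 1 with hN
  have hN1 : 1 ≤ N := by omega
  have hN0 : (N : ℝ≥0∞) ≠ 0 := by exact_mod_cast (by omega : N ≠ 0)
  have hNt : (N : ℝ≥0∞) ≠ ∞ := ENNReal.natCast_ne_top N
  have h1 : ∀ n : ℕ, (if ν < n then (1 + n : ℝ≥0∞) ^ 2 * ((n : ℝ≥0∞) ^ a)⁻¹ else 0) ≤
      4 * ((N : ℝ≥0∞) ^ (a - 4))⁻¹ * (if ν < n then ((n : ℝ≥0∞) ^ 2)⁻¹ else 0) := by
    intro n
    by_cases hn : ν < n
    · rw [if_pos hn, if_pos hn]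
      have hn1 : 1 ≤ n := by omega
      have hn0 : (n : ℝ≥0∞) ^ 2 ≠ 0 := pow_ne_zero _ (by exact_mod_cast (by omega : n ≠ 0))
      have hnt : (n : ℝ≥0∞) ^ 2 ≠ ∞ := ENNReal.pow_ne_top (ENNReal.natCast_ne_top n)
      have h2 : (1 + n : ℝ≥0∞) ^ 2 ≤ 4 * (n : ℝ≥0∞) ^ 2 := by
        have h3 : (1 + n : ℝ≥0∞) ≤ 2 * n := by
          have : (1 : ℝ≥0∞) ≤ n := by exact_mod_cast hn1
          rw [two_mul]
          exact add_le_add_left this _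
        calc (1 + n : ℝ≥0∞) ^ 2 ≤ (2 * n) ^ 2 := pow_le_pow_left' h3 2
          _ = 4 * (n : ℝ≥0∞) ^ 2 := by ring
      have h4 : ((n : ℝ≥0∞) ^ a)⁻¹ = ((n : ℝ≥0∞) ^ 2)⁻¹ * (((n : ℝ≥0∞) ^ 2)⁻¹ *
          ((n : ℝ≥0∞) ^ (a - 4))⁻¹) := by
        rw [← ENNReal.mul_inv (Or.inl hn0) (Or.inl hnt), ← ENNReal.mul_inv (Or.inl hn0) (Or.inl hnt),
          ← pow_add, ← pow_add]
        congr 2
        omega
      have h5 : ((n : ℝ≥0∞) ^ (a - 4))⁻¹ ≤ ((N : ℝ≥0∞) ^ (a - 4))⁻¹ := by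
        refine ENNReal.inv_le_inv.2 (pow_le_pow_left' ?_ _)
        exact_mod_cast (by omega : N ≤ n)
      calc (1 + n : ℝ≥0∞) ^ 2 * ((n : ℝ≥0∞) ^ a)⁻¹
          ≤ 4 * (n : ℝ≥0∞) ^ 2 * (((n : ℝ≥0∞) ^ 2)⁻¹ * (((n : ℝ≥0∞) ^ 2)⁻¹ *
            ((N : ℝ≥0∞) ^ (a - 4))⁻¹)) := by
            rw [h4]
            exact mul_le_mul' h2 (mul_le_mul' le_rfl (mul_le_mul' le_rfl h5))
        _ = 4 * ((N : ℝ≥0∞) ^ (a - 4))⁻¹ * ((n : ℝ≥0∞) ^ 2)⁻¹ *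
            ((n : ℝ≥0∞) ^ 2 * ((n : ℝ≥0∞) ^ 2)⁻¹) := by ring
        _ = 4 * ((N : ℝ≥0∞) ^ (a - 4))⁻¹ * ((n : ℝ≥0∞) ^ 2)⁻¹ := by
            rw [ENNReal.mul_inv_cancel hn0 hnt, mul_one]
    · rw [if_neg hn]
      exact zero_le
  have hp0 : (N : ℝ≥0∞) ^ (a - 4) ≠ 0 := pow_ne_zero _ hN0
  have hpt : (N : ℝ≥0∞) ^ (a - 4) ≠ ∞ := ENNReal.pow_ne_top hNt
  have h6 : (N : ℝ≥0∞) ^ (a - 3) = (N : ℝ≥0∞) ^ (a - 4) * N := by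
    rw [← pow_succ]
    congr 1
    omega
  calc (∑' n : ℕ, if ν < n then (1 + n : ℝ≥0∞) ^ 2 * ((n : ℝ≥0∞) ^ a)⁻¹ else 0) *
        (N : ℝ≥0∞) ^ (a - 3)
      ≤ (4 * ((N : ℝ≥0∞) ^ (a - 4))⁻¹ * (2 * (N : ℝ≥0∞)⁻¹)) * (N : ℝ≥0∞) ^ (a - 3) := by
        refine mul_le_mul' ?_ le_rfl
        refine (ENNReal.tsum_le_tsum h1).trans ?_
        rw [ENNReal.tsum_mul_left]
        exact mul_le_mul' le_rfl (B29b_sq ν)
    _ = 8 * ((N : ℝ≥0∞) ^ (a - 4) * ((N : ℝ≥0∞) ^ (a - 4))⁻¹) * ((N : ℝ≥0∞) * (N : ℝ≥0∞)⁻¹) := by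
        rw [h6]
        ring
    _ = 8 := by rw [ENNReal.mul_inv_cancel hp0 hpt, ENNReal.mul_inv_cancel hN0 hNt, mul_one, mul_one]

end Pool.Agent.HD
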