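import Pool.Agent.Lib.MP_8ca597_hd.B20

/-!
# Row B29f: exchanging a large coordinate with the first one

`i0 = Fin.castLE h ⟨0, hm⟩`. `swap_sum`: reindex the sum by the exchange `π` of the coordinates `i`
and `i0` (`g` is symmetric, `Equiv.tsum_eq`): for `pj h x ∈ U`, `(x i).natAbs = n` the point
`x' = x ∘ π` has `pj h x' = Function.update (pj h x) ⟨0, hm⟩ (x i)`, because `i` is not in the range of
`Fin.castLE h`, and this belongs to `updS hm U n`; then `tsum_tpj_mul` with the indicator of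
`updS hm U n`. `outer_le`: if `nm (pj h x) ≤ N0 < nm x = n`, some `i` has `(x i).natAbs = n`
(`exists_natAbs_eq`), and this `i` is not in the range of `Fin.castLE h`; so the indicator is at most
`∑ i, ∑' n, if N0 < n ∧ i ∉ range then ... 1_{(x i).natAbs = n}`; exchange the sums.
-/

set_option autoImplicit false

namespace Pool.Agent.HD

open Finset
open scoped ENNReal

variable {d m : ℕ} {h : m ≤ d} {g : Vx d → ℝ≥0∞}

/-- The points of `U` with the first coordinate replaced by `n` and by `-n`. -/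
def updS (hm : 1 ≤ m) (U : Finset (Vx m)) (n : ℕ) : Finset (Vx m) :=
  U.image (fun k => Function.update k ⟨0, hm⟩ (n : ℤ)) ∪
    U.image fun k => Function.update k ⟨0, hm⟩ (-(n : ℤ))

theorem swap_sum (hm : 1 ≤ m) (hs : ∀ (π : Equiv.Perm (Fin d)) x, g (fun i => x (π i)) = g x)
    {i : Fin d} (hi : ∀ j : Fin m, Fin.castLE h j ≠ i) (n : ℕ) (U : Finset (Vx m)) :
    (∑' x : Vx d, if pj h x ∈ U ∧ (x i).natAbs = n then g x else 0) ≤
      ∑ k ∈ updS hm U n, tpj h g k := by
  classical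
  let π : Equiv.Perm (Fin d) := Equiv.swap i (Fin.castLE h ⟨0, hm⟩)
  let σ : Vx d ≃ Vx d :=
    { toFun := fun x j => x (π j)
      invFun := fun x j => x (π.symm j)
      left_inv := fun x => by
        funext j
        simp
      right_inv := fun x => by
        funext j
        simp }
  have hσ : ∀ x, g (σ x) = g x := fun x => hs π x
  have hpj : ∀ x, pj h (σ x) = Function.update (pj h x) ⟨0, hm⟩ (x i) := by
    intro x
    funext j
    by_cases hj : j = ⟨0, hm⟩
    · subst hj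
      rw [Function.update_self]
      change x (π (Fin.castLE h ⟨0, hm⟩)) = x i
      rw [Equiv.swap_apply_right]
    · rw [Function.update_of_ne hj]
      change x (π (Fin.castLE h j)) = pj h x j
      rw [Equiv.swap_apply_of_ne_of_ne (hi j) (fun e => hj (Fin.castLE_injective h e))]
      rfl
  have h1 : ∑ k ∈ updS hm U n, tpj h g k =
      ∑' x : Vx d, if pj h x ∈ updS hm U n then g x else 0 := by
    unfold tpj
    rw [← Summable.tsum_finsetSum fun _ _ => ENNReal.summable]
    refine tsum_congr fun x => ?_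
    rw [sum_ite_eq]
  rw [h1, ← Equiv.tsum_eq σ (fun x => if pj h x ∈ updS hm U n then g x else 0)]
  refine ENNReal.tsum_le_tsum fun x => ?_
  by_cases hx : pj h x ∈ U ∧ (x i).natAbs = n
  · have h2 : pj h (σ x) ∈ updS hm U n := by
      rw [hpj, updS, mem_union, mem_image, mem_image]
      rcases Int.natAbs_eq (x i) with h4 | h4
      · rw [hx.2] at h4
        exact Or.inl ⟨_, hx.1, by rw [h4]⟩
      · rw [hx.2] at h4
        exact Or.inr ⟨_, hx.1, by rw [h4]⟩
    rw [if_pos hx, if_pos h2, hσ]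
  · rw [if_neg hx]
    exact zero_le

theorem outer_le (hm : 1 ≤ m) (hs : ∀ (π : Equiv.Perm (Fin d)) x, g (fun i => x (π i)) = g x)
    (U : Finset (Vx m)) {N0 : ℕ} (hU : ∀ k ∈ U, nm k ≤ N0) :
    (∑' x : Vx d, if pj h x ∈ U ∧ N0 < nm x then (1 + (nm x : ℝ≥0∞)) ^ 2 * g x else 0) ≤
      (d : ℝ≥0∞) * ∑' n : ℕ, if N0 < n then (1 + (n : ℝ≥0∞)) ^ 2 * ∑ k ∈ updS hm U n, tpj h g k else 0 := by
  classical
  have hd : 1 ≤ d := hm.trans h
  have hx : ∀ x : Vx d,
      (if pj h x ∈ U ∧ N0 < nm x then (1 + (nm x : ℝ≥0∞)) ^ 2 * g x else 0) ≤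
      ∑ i : Fin d, ∑' n : ℕ,
        ((if N0 < n ∧ (∀ j : Fin m, Fin.castLE h j ≠ i) then (1 + n : ℝ≥0∞) ^ 2 else 0) *
          (if pj h x ∈ U ∧ (x i).natAbs = n then g x else 0)) := by
    intro x
    by_cases hpx : pj h x ∈ U ∧ N0 < nm x
    · rw [if_pos hpx]
      obtain ⟨i, hi⟩ := exists_natAbs_eq hd x
      have h3 : ∀ j : Fin m, Fin.castLE h j ≠ i := by
        rintro j rfl
        have h4 := natAbs_le_nm (pj h x) j
        have h5 := hU _ hpx.1
        have h6 : (pj h x j).natAbs = nm x := hi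
        have h7 := hpx.2
        omega
      refine le_trans ?_ (single_le_sum (f := fun i : Fin d => ∑' n : ℕ,
        ((if N0 < n ∧ (∀ j : Fin m, Fin.castLE h j ≠ i) then (1 + n : ℝ≥0∞) ^ 2 else 0) *
        (if pj h x ∈ U ∧ (x i).natAbs = n then g x else 0))) (fun _ _ => zero_le)
        (mem_univ i))
      refine le_trans ?_ (ENNReal.le_tsum (nm x))
      rw [if_pos ⟨hpx.2, h3⟩, if_pos ⟨hpx.1, hi⟩]
    · rw [if_neg hpx]
      exact zero_le
  calc (∑' x : Vx d, if pj h x ∈ U ∧ N0 < nm x then (1 + (nm x : ℝ≥0∞)) ^ 2 * g x else 0)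
      ≤ ∑' x : Vx d, ∑ i : Fin d, ∑' n : ℕ,
        ((if N0 < n ∧ (∀ j : Fin m, Fin.castLE h j ≠ i) then (1 + n : ℝ≥0∞) ^ 2 else 0) *
          (if pj h x ∈ U ∧ (x i).natAbs = n then g x else 0)) := ENNReal.tsum_le_tsum hx
    _ = ∑ i : Fin d, ∑' n : ℕ,
        ((if N0 < n ∧ (∀ j : Fin m, Fin.castLE h j ≠ i) then (1 + n : ℝ≥0∞) ^ 2 else 0) *
          ∑' x : Vx d, (if pj h x ∈ U ∧ (x i).natAbs = n then g x else 0)) := by
        rw [Summable.tsum_finsetSum fun _ _ => ENNReal.summable]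
        refine sum_congr rfl fun i _ => ?_
        rw [ENNReal.tsum_comm]
        refine tsum_congr fun n => ?_
        rw [ENNReal.tsum_mul_left]
    _ ≤ ∑ i : Fin d, ∑' n : ℕ,
        (if N0 < n then (1 + (n : ℝ≥0∞)) ^ 2 * ∑ k ∈ updS hm U n, tpj h g k else 0) := by
        refine sum_le_sum fun i _ => ENNReal.tsum_le_tsum fun n => ?_
        by_cases hc : N0 < n ∧ (∀ j : Fin m, Fin.castLE h j ≠ i)
        · rw [if_pos hc, if_pos hc.1]
          gcongr
          exact swap_sum hm hs hc.2 n U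
        · rw [if_neg hc, zero_mul]
          exact zero_le
    _ = _ := by
        rw [sum_const, card_univ, Fintype.card_fin, nsmul_eq_mul]

end Pool.Agent.HD
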