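import Pool.Agent.Lib.MP_8ca597_hd.B29a
import Pool.Agent.Lib.MP_8ca597_hd.B29b
import Pool.Agent.Lib.MP_8ca597_hd.B29f

/-!
# Row B29g: the weight `(1 + |x|)²` in the class `Dc`

Let `w x = (1 + nm x) ^ 2 * g x`. `outer_dc`: every `k ∈ updS hm U n`, `n > N0`, has `nm k = n`
(the other coordinates are at most `N0`), so `tpj h g k ≤ A (n ^ a)⁻¹`, and `(updS hm U n).card ≤ M`;
`outer_le` and `tail_sum_nat`. `card_updS`: the image of `Bx m R` is contained in the boxes with the
first coordinate fixed. `Dc.weight`, `dec` (`ν = nm k`, for `ν = 0` the left side is `0`):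
`tpj h w k ≤ (1 + ν) ^ 2 tpj h g k + (outer part with U = {k}, N0 = ν, M = 2)`, `(1 + ν) ^ 2 ≤ 4 ν ^ 2`;
constant `4 + 16 d`. `vol`: `Vv h w R ≤ (1 + R) ^ 2 Vv h g R + (outer part with U = Bx m R, N0 = R,
M = 2 (2 R + 1) ^ (m - 1) ≤ 2 (3 R) ^ (m - 1))`; the constants are `4` and `16 * 3 ^ (m - 1) d`.
-/

set_option autoImplicit false

namespace Pool.Agent.HD

open Finset
open scoped ENNReal

variable {d m : ℕ} {h : m ≤ d} {g : Vx d → ℝ≥0∞} {A : ℝ≥0∞} {α β a : ℕ}

theorem outer_dc (hm : 1 ≤ m) (ha : 5 ≤ a) (H : Dc h g A α a) (U : Finset (Vx m)) {N0 M : ℕ}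
    (hU : ∀ k ∈ U, nm k ≤ N0) (hM : ∀ n, (updS hm U n).card ≤ M) :
    (∑' x : Vx d, if pj h x ∈ U ∧ N0 < nm x then (1 + (nm x : ℝ≥0∞)) ^ 2 * g x else 0) ≤
      8 * (M : ℝ≥0∞) * d * A * (((max N0 1 : ℕ) : ℝ≥0∞) ^ (a - 3))⁻¹ := by
  classical
  refine (outer_le hm H.symm U hU).trans ?_
  have hS := tail_sum_nat (ν := N0) ha
  have hM0 : ((max N0 1 : ℕ) : ℝ≥0∞) ^ (a - 3) ≠ 0 := by
    refine pow_ne_zero _ ?_
    have : max N0 1 ≠ 0 := by omega
    exact_mod_cast this
  have hM1 : ((max N0 1 : ℕ) : ℝ≥0∞) ^ (a - 3) ≠ ⊤ :=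
    ENNReal.pow_ne_top (ENNReal.natCast_ne_top _)
  rw [← ENNReal.le_div_iff_mul_le (Or.inl hM0) (Or.inl hM1), div_eq_mul_inv] at hS
  have hterm : ∀ n : ℕ, N0 < n → ∑ k ∈ updS hm U n, tpj h g k ≤
      M * A * ((n : ℝ≥0∞) ^ a)⁻¹ := by
    intro n hn
    have hn0 : (n : ℝ≥0∞) ≠ 0 := by
      have : n ≠ 0 := by omega
      exact_mod_cast this
    have key : ∀ k ∈ updS hm U n, tpj h g k ≤ A * ((n : ℝ≥0∞) ^ a)⁻¹ := by
      intro k hk
      have h1 := H.dec k
      have h2 : n ≤ nm k := by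
        rw [updS, mem_union, mem_image, mem_image] at hk
        have h5 := natAbs_le_nm k ⟨0, hm⟩
        rcases hk with ⟨k', -, rfl⟩ | ⟨k', -, rfl⟩
        · rw [Function.update_self] at h5
          simpa using h5
        · rw [Function.update_self] at h5
          simpa using h5
      have h3 : (n : ℝ≥0∞) ^ a ≠ 0 := pow_ne_zero _ hn0
      have h4 : (n : ℝ≥0∞) ^ a ≠ ⊤ := ENNReal.pow_ne_top (ENNReal.natCast_ne_top n)
      rw [← div_eq_mul_inv, ENNReal.le_div_iff_mul_le (Or.inl h3) (Or.inl h4)]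
      refine le_trans ?_ h1
      gcongr
    refine (sum_le_sum key).trans ?_
    rw [sum_const, nsmul_eq_mul, mul_assoc]
    have := hM n
    gcongr
  calc (d : ℝ≥0∞) * ∑' n : ℕ,
        (if N0 < n then (1 + (n : ℝ≥0∞)) ^ 2 * ∑ k ∈ updS hm U n, tpj h g k else 0)
      ≤ (d : ℝ≥0∞) * ∑' n : ℕ,
        (M * A * (if N0 < n then (1 + (n : ℝ≥0∞)) ^ 2 * ((n : ℝ≥0∞) ^ a)⁻¹ else 0)) := by
        gcongr with n
        split_ifs with hc
        · calc (1 + (n : ℝ≥0∞)) ^ 2 * ∑ k ∈ updS hm U n, tpj h g k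
              ≤ (1 + (n : ℝ≥0∞)) ^ 2 * (M * A * ((n : ℝ≥0∞) ^ a)⁻¹) := by
                gcongr
                exact hterm n hc
            _ = _ := by ring
        · exact zero_le
    _ = (d : ℝ≥0∞) * (M * A * ∑' n : ℕ,
        (if N0 < n then (1 + (n : ℝ≥0∞)) ^ 2 * ((n : ℝ≥0∞) ^ a)⁻¹ else 0)) := by
        rw [ENNReal.tsum_mul_left]
    _ ≤ (d : ℝ≥0∞) * (M * A * (8 * (((max N0 1 : ℕ) : ℝ≥0∞) ^ (a - 3))⁻¹)) := by gcongr
    _ = _ := by ring

theorem card_updS (hm : 1 ≤ m) (R n : ℕ) :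
    (updS hm (Bx m R) n).card ≤ 2 * (2 * R + 1) ^ (m - 1) := by
  classical
  have key : ∀ c : ℤ, ((Bx m R).image fun k => Function.update k ⟨0, hm⟩ c).card ≤
      (2 * R + 1) ^ (m - 1) := by
    intro c
    have h1 : ((Bx m R).image fun k => Function.update k ⟨0, hm⟩ c) ⊆
        Fintype.piFinset fun j : Fin m => if j = ⟨0, hm⟩ then {c} else Icc (-(R : ℤ)) R := by
      intro k hk
      rw [mem_image] at hk
      obtain ⟨k', hk', rfl⟩ := hk
      rw [Fintype.mem_piFinset]
      intro j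
      split_ifs with hj
      · subst hj
        rw [Function.update_self]
        exact mem_singleton_self c
      · rw [Function.update_of_ne hj]
        unfold Bx at hk'
        exact Fintype.mem_piFinset.1 hk' j
    refine (card_le_card h1).trans (le_of_eq ?_)
    rw [Fintype.card_piFinset]
    have h2 : ∀ j : Fin m, (if j = ⟨0, hm⟩ then ({c} : Finset ℤ) else Icc (-(R : ℤ)) R).card =
        if j = ⟨0, hm⟩ then 1 else 2 * R + 1 := by
      intro j
      split_ifs
      · rfl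
      · rw [Int.card_Icc]
        omega
    rw [prod_congr rfl fun j _ => h2 j, prod_ite, prod_const_one, one_mul, prod_const]
    congr 1
    rw [filter_ne', card_erase_of_mem (mem_univ _), card_univ, Fintype.card_fin]
  refine (card_union_le _ _).trans ?_
  have h1 := key n
  have h2 := key (-(n : ℤ))
  omega

theorem Dc.weight (hm : 1 ≤ m) (ha : 5 ≤ a) (ham : a ≤ m) (hα : α + 2 ≤ β)
    (hβ : m + 2 - a ≤ β) (H : Dc h g A α a) :
    Dc h (fun x => (1 + nm x) ^ 2 * g x) (64 ^ m * d * A) β (a - 3) := by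
  classical
  have hd : 1 ≤ d := hm.trans h
  have hd1 : (1 : ℝ≥0∞) ≤ d := by exact_mod_cast hd
  have hm5 : 5 ≤ m := ha.trans ham
  have hnum : 4 + 16 * 3 ^ (m - 1) ≤ 64 ^ m := by
    have e1 : 64 ^ m = 4 ^ m * 16 ^ m := by
      rw [← mul_pow]
      norm_num
    have e2 : 3 ^ (m - 1) ≤ 4 ^ m :=
      (Nat.pow_le_pow_left (by norm_num) _).trans (Nat.pow_le_pow_right (by norm_num) (by omega))
    have e3 : 16 ^ 5 ≤ 16 ^ m := Nat.pow_le_pow_right (by norm_num) hm5
    have e4 : 1 ≤ 3 ^ (m - 1) := Nat.one_le_pow _ _ (by norm_num)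
    rw [e1]
    nlinarith
  have hnum' : (4 + 16 * 3 ^ (m - 1) : ℝ≥0∞) ≤ 64 ^ m := by exact_mod_cast hnum
  have hone : ∀ n : ℕ, 1 ≤ n → (1 + n : ℝ≥0∞) ^ 2 ≤ 4 * n ^ 2 := by
    intro n hn
    have : (1 + n) ^ 2 ≤ 4 * n ^ 2 := by nlinarith
    exact_mod_cast this
  refine ⟨?_, ?_, ?_⟩
  · intro π x
    rw [nm_comp_perm, H.symm]
  · intro R hR
    have hR1 : (1 : ℝ≥0∞) ≤ R := by exact_mod_cast hR
    have hmax : max R 1 = R := by omega
    have hR0 : (R : ℝ≥0∞) ^ (a - 3) ≠ 0 := by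
      refine pow_ne_zero _ ?_
      have : R ≠ 0 := by omega
      exact_mod_cast this
    have hRt : (R : ℝ≥0∞) ^ (a - 3) ≠ ⊤ := ENNReal.pow_ne_top (ENNReal.natCast_ne_top _)
    have hout := outer_dc hm ha H (Bx m R) (N0 := R) (M := 2 * (2 * R + 1) ^ (m - 1))
      (fun k hk => mem_Bx.1 hk) (card_updS hm R)
    rw [hmax] at hout
    have h3R : ((2 * (2 * R + 1) ^ (m - 1) : ℕ) : ℝ≥0∞) ≤ 2 * (3 ^ (m - 1) * R ^ (m - 1)) := by
      have : 2 * (2 * R + 1) ^ (m - 1) ≤ 2 * (3 ^ (m - 1) * R ^ (m - 1)) := by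
        rw [← mul_pow]
        exact Nat.mul_le_mul_left 2 (Nat.pow_le_pow_left (by omega) _)
      exact_mod_cast this
    calc Vv h (fun x => (1 + nm x) ^ 2 * g x) R
        ≤ ∑' x : Vx d, ((1 + R) ^ 2 * (if nm (pj h x) ≤ R then g x else 0) +
          (if pj h x ∈ Bx m R ∧ R < nm x then (1 + (nm x : ℝ≥0∞)) ^ 2 * g x else 0)) := by
          refine ENNReal.tsum_le_tsum fun x => ?_
          by_cases hx : nm (pj h x) ≤ R
          · rw [if_pos hx, if_pos hx]
            rcases le_or_gt (nm x) R with h1 | h1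
            · refine le_trans ?_ le_self_add
              beta_reduce
              gcongr
            · rw [if_pos ⟨mem_Bx.2 hx, h1⟩]
              exact le_add_self
          · rw [if_neg hx]
            exact zero_le
      _ = (1 + R) ^ 2 * Vv h g R + (∑' x : Vx d,
          if pj h x ∈ Bx m R ∧ R < nm x then (1 + (nm x : ℝ≥0∞)) ^ 2 * g x else 0) := by
          rw [ENNReal.tsum_add, ENNReal.tsum_mul_left]
          rfl
      _ ≤ (4 * R ^ 2) * (A * R ^ α) + 8 * (2 * (3 ^ (m - 1) * R ^ (m - 1))) * d * A *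
          ((R : ℝ≥0∞) ^ (a - 3))⁻¹ := by
          refine add_le_add ?_ (hout.trans ?_)
          · gcongr
            · exact hone R hR
            · exact H.vol R hR
          · gcongr
      _ = 4 * A * R ^ (α + 2) + 16 * 3 ^ (m - 1) * d * A * R ^ (m + 2 - a) := by
          have e : (R : ℝ≥0∞) ^ (m - 1) = R ^ (m + 2 - a) * R ^ (a - 3) := by
            rw [← pow_add]
            congr 1
            omega
          have e2 : (R : ℝ≥0∞) ^ (m - 1) * ((R : ℝ≥0∞) ^ (a - 3))⁻¹ = R ^ (m + 2 - a) := by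
            rw [e, mul_assoc, ENNReal.mul_inv_cancel hR0 hRt, mul_one]
          rw [← e2]
          ring
      _ ≤ 4 * (d * A) * R ^ β + 16 * 3 ^ (m - 1) * d * A * R ^ β := by
          have hA : A ≤ d * A := le_mul_of_one_le_left zero_le hd1
          have e1 : (R : ℝ≥0∞) ^ (α + 2) ≤ R ^ β := pow_le_pow_right₀ hR1 hα
          have e2 : (R : ℝ≥0∞) ^ (m + 2 - a) ≤ R ^ β := pow_le_pow_right₀ hR1 hβ
          gcongr
      _ = (4 + 16 * 3 ^ (m - 1)) * d * A * R ^ β := by ring
      _ ≤ 64 ^ m * d * A * R ^ β := by gcongr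
  · intro k
    rcases Nat.eq_zero_or_pos (nm k) with h0 | h0
    · rw [h0]
      have : a - 3 ≠ 0 := by omega
      simp [this]
    · have hM0 : (nm k : ℝ≥0∞) ^ (a - 3) ≠ 0 := by
        refine pow_ne_zero _ ?_
        have : nm k ≠ 0 := by omega
        exact_mod_cast this
      have hM1 : (nm k : ℝ≥0∞) ^ (a - 3) ≠ ⊤ :=
        ENNReal.pow_ne_top (ENNReal.natCast_ne_top _)
      have hk1 : (1 : ℝ≥0∞) ≤ nm k := by exact_mod_cast h0
      have hmax : max (nm k) 1 = nm k := by omega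
      have hout := outer_dc hm ha H {k} (N0 := nm k) (M := 2)
        (fun k' hk' => by rw [mem_singleton.1 hk']) (fun n => by
          unfold updS
          rw [image_singleton, image_singleton]
          exact card_le_two)
      rw [hmax] at hout
      have h1 : tpj h (fun x => (1 + nm x) ^ 2 * g x) k ≤ (1 + nm k) ^ 2 * tpj h g k +
          16 * d * A * ((nm k : ℝ≥0∞) ^ (a - 3))⁻¹ := by
        calc tpj h (fun x => (1 + nm x) ^ 2 * g x) k
            ≤ ∑' x : Vx d, ((1 + nm k) ^ 2 * (if pj h x = k then g x else 0) +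
              (if pj h x ∈ ({k} : Finset (Vx m)) ∧ nm k < nm x then
                (1 + (nm x : ℝ≥0∞)) ^ 2 * g x else 0)) := by
              refine ENNReal.tsum_le_tsum fun x => ?_
              by_cases hx : pj h x = k
              · rw [if_pos hx, if_pos hx]
                rcases le_or_gt (nm x) (nm k) with h2 | h2
                · refine le_trans ?_ le_self_add
                  beta_reduce
                  gcongr
                · rw [if_pos ⟨mem_singleton.2 hx, h2⟩]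
                  exact le_add_self
              · rw [if_neg hx]
                exact zero_le
          _ = (1 + nm k) ^ 2 * tpj h g k + (∑' x : Vx d,
              if pj h x ∈ ({k} : Finset (Vx m)) ∧ nm k < nm x then
                (1 + (nm x : ℝ≥0∞)) ^ 2 * g x else 0) := by
              rw [ENNReal.tsum_add, ENNReal.tsum_mul_left]
              rfl
          _ ≤ (1 + nm k) ^ 2 * tpj h g k +
              8 * ((2 : ℕ) : ℝ≥0∞) * d * A * ((nm k : ℝ≥0∞) ^ (a - 3))⁻¹ :=
              add_le_add le_rfl hout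
          _ = _ := by
              push_cast
              ring
      calc tpj h (fun x => (1 + nm x) ^ 2 * g x) k * (nm k : ℝ≥0∞) ^ (a - 3)
          ≤ ((1 + nm k) ^ 2 * tpj h g k + 16 * d * A * ((nm k : ℝ≥0∞) ^ (a - 3))⁻¹) *
            (nm k : ℝ≥0∞) ^ (a - 3) := by gcongr
        _ = (1 + nm k) ^ 2 * (nm k : ℝ≥0∞) ^ (a - 3) * tpj h g k + 16 * d * A *
            (((nm k : ℝ≥0∞) ^ (a - 3))⁻¹ * (nm k : ℝ≥0∞) ^ (a - 3)) := by ring
        _ = (1 + nm k) ^ 2 * (nm k : ℝ≥0∞) ^ (a - 3) * tpj h g k + 16 * d * A := by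
            rw [ENNReal.inv_mul_cancel hM0 hM1, mul_one]
        _ ≤ (4 * nm k ^ 2) * (nm k : ℝ≥0∞) ^ (a - 3) * tpj h g k + 16 * d * A := by
            gcongr
            exact hone _ h0
        _ = 4 * (tpj h g k * (nm k : ℝ≥0∞) ^ (a - 1)) + 16 * d * A := by
            have e : a - 1 = 2 + (a - 3) := by omega
            rw [e, pow_add]
            ring
        _ ≤ 4 * (tpj h g k * (nm k : ℝ≥0∞) ^ a) + 16 * d * A := by
            have : (nm k : ℝ≥0∞) ^ (a - 1) ≤ (nm k : ℝ≥0∞) ^ a :=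
              pow_le_pow_right₀ hk1 (by omega)
            gcongr
        _ ≤ 4 * A + 16 * d * A := by
            have := H.dec k
            gcongr
        _ ≤ 4 * (d * A) + 16 * d * A := by
            have hA : A ≤ d * A := le_mul_of_one_le_left zero_le hd1
            gcongr
        _ = 20 * d * A := by ring
        _ ≤ 64 ^ m * d * A := by
            have : (20 : ℝ≥0∞) ≤ 64 ^ m := by
              have e : 20 ≤ 64 ^ m := by
                have e4 : 1 ≤ 3 ^ (m - 1) := Nat.one_le_pow _ _ (by norm_num)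
                omega
              exact_mod_cast e
            gcongr

end Pool.Agent.HD
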