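import Pool.Agent.Lib.MP_8ca597_hd.B28
import Pool.Agent.Lib.MP_8ca597_hd.B29e
import Pool.Agent.Lib.MP_8ca597_hd.B29g

/-!
# Row B29: the two-point function belongs to the class `Dc`

`tt_perm`: `tauI_equiv` with the permutation of the coordinates (`adj_signed` with `ε = 1`), or `tt_sp`.
`dc_tw`: `Dc h (tt p) (ofReal (C * d)) 7 (m - 8)` by the hypotheses, and `Dc.weight` with `a = m - 8`,
`β = 10` (`64 ^ m * d * ofReal (C * d) ≤ ofReal (C' * d ^ 2)` with `C' = 64 ^ m * |C| + 1`; `tw p` is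
`fun x => (1 + nm x) ^ 2 * tt p x` by definition).
-/

set_option autoImplicit false

namespace Pool.Agent.HD

open Finset
open scoped ENNReal

theorem tt_perm {d : ℕ} (p : ℝ) (π : Equiv.Perm (Fin d)) (x : Vx d) :
    tt p (fun i => x (π i)) = tt p x := by
  have hσ : ∀ x y : Vx d, Adj ((pmE π : Vx d ≃+ Vx d).toEquiv x) ((pmE π).toEquiv y) ↔ Adj x y := by
    intro x y
    have h := adj_signed π (fun _ => 1) (fun _ => Or.inl rfl) x y
    simp only [one_mul] at h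
    exact h
  have h1 := tauI_equiv p (pmE π : Vx d ≃+ Vx d).toEquiv hσ Set.univ 0 x
  rw [Set.image_univ, (pmE π : Vx d ≃+ Vx d).toEquiv.surjective.range_eq] at h1
  exact h1

/-- The weighted two-point function. -/
theorem dc_tw (m : ℕ) (hm : 20 ≤ m) (C : ℝ) : ∃ C' : ℝ, 0 < C' ∧ ∀ (d : ℕ) (h : m ≤ d) (p : ℝ),
    0 ≤ p → p ≤ 1 → (∀ R : ℕ, 1 ≤ R → Vv h (tt p) R ≤ ENNReal.ofReal (C * d) * R ^ 7) →
    (∀ k : Vx m, tpj h (tt p) k * (nm k : ℝ≥0∞) ^ (m - 8) ≤ ENNReal.ofReal (C * d)) →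
    Dc h (tw p) (ENNReal.ofReal (C' * d ^ 2)) 10 (m - 11) := by
  refine ⟨64 ^ m * |C| + 1, by positivity, fun d h p _ _ hV hk => ?_⟩
  have H : Dc h (tt p) (ENNReal.ofReal (C * d)) 7 (m - 8) := ⟨tt_perm p, hV, hk⟩
  have H2 := Dc.weight (β := 10) (by omega) (by omega) (by omega) (by omega) (by omega) H
  have e : m - 8 - 3 = m - 11 := by omega
  rw [e] at H2
  refine H2.mono ?_ le_rfl le_rfl (by omega)
  have h1 : (64 : ℝ≥0∞) ^ m * d = ENNReal.ofReal (64 ^ m * d) := by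
    rw [ENNReal.ofReal_mul (by positivity), ENNReal.ofReal_pow (by norm_num),
      ENNReal.ofReal_natCast]
    norm_num
  rw [h1, ← ENNReal.ofReal_mul (by positivity)]
  refine ENNReal.ofReal_le_ofReal ?_
  have h2 : C ≤ |C| := le_abs_self C
  have h3 : (0 : ℝ) ≤ 64 ^ m * (d : ℝ) ^ 2 := by positivity
  have h4 : (64 : ℝ) ^ m * d * (C * d) = 64 ^ m * (d : ℝ) ^ 2 * C := by ring
  rw [h4]
  have h5 : 64 ^ m * (d : ℝ) ^ 2 * C ≤ 64 ^ m * (d : ℝ) ^ 2 * |C| :=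
    mul_le_mul_of_nonneg_left h2 h3
  have h6 : (0 : ℝ) ≤ (d : ℝ) ^ 2 := by positivity
  nlinarith

end Pool.Agent.HD
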