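import Pool.Agent.Lib.MP_8ca597_hd.B20

/-!
# Row B29a: the class `Dc`, first properties

`Dc.mono`: for `dec` distinguish `nm k = 0` (the left side is `0`, as `1 ≤ a'`) and `1 ≤ nm k`.
`Dc.sup`: let `i` be a coordinate with `(x i).natAbs = nm x` (`exists_natAbs_eq`), `π` the
transposition of `i` and the first coordinate (`Fin.castLE h ⟨0, hm⟩`), `x' = x ∘ π`: `g x' = g x`,
`nm (pj h x') = nm x` (`nm_pj_le`, `nm_comp_perm`, `natAbs_le_nm`), `le_tpj`. `Dc.le_const`:
`k = pj h x`; if `nm k ≤ 1` use `tpj_le_Vv` and `vol 1`, if `1 ≤ nm k` use `dec`. `dl_dc`: the unit mass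
is symmetric, `tpj h dl = dl`, `Vv h dl R = 1`, `nm 0 = 0`.
-/

set_option autoImplicit false

namespace Pool.Agent.HD

open Finset
open scoped ENNReal

variable {d m : ℕ} {h : m ≤ d} {g : Vx d → ℝ≥0∞} {A : ℝ≥0∞} {α a : ℕ}

private theorem B29a_one {n : ℕ} (hn : 1 ≤ n) : (1 : ℝ≥0∞) ≤ n := by exact_mod_cast hn

theorem Dc.mono (hg : Dc h g A α a) {A' : ℝ≥0∞} {α' a' : ℕ} (hA : A ≤ A') (hα : α ≤ α')
    (ha : a' ≤ a) (ha' : 1 ≤ a') : Dc h g A' α' a' where
  symm := hg.symm
  vol R hR := (hg.vol R hR).trans (mul_le_mul' hA (pow_le_pow_right₀ (B29a_one hR) hα))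
  dec k := by
    rcases Nat.eq_zero_or_pos (nm k) with h0 | h1
    · rw [h0, Nat.cast_zero, zero_pow (by omega), mul_zero]
      exact zero_le
    · refine le_trans ?_ ((hg.dec k).trans hA)
      exact mul_le_mul' le_rfl (pow_le_pow_right₀ (B29a_one h1) ha)

/-- The class is closed under passage to smaller symmetric functions. -/
theorem Dc.mono_fun {g' : Vx d → ℝ≥0∞} (H : Dc h g A α a) (hg : ∀ x, g' x ≤ g x)
    (hs : ∀ (π : Equiv.Perm (Fin d)) x, g' (fun i => x (π i)) = g' x) : Dc h g' A α a where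
  symm := hs
  vol R hR := (Vv_mono h hg R).trans (H.vol R hR)
  dec k := (mul_le_mul' (tpj_mono h hg k) le_rfl).trans (H.dec k)

/-- The pointwise bound. -/
theorem Dc.sup (hg : Dc h g A α a) (hm : 1 ≤ m) (x : Vx d) : g x * (nm x : ℝ≥0∞) ^ a ≤ A := by
  obtain ⟨i, hi⟩ := exists_natAbs_eq (hm.trans h) x
  set π : Equiv.Perm (Fin d) := Equiv.swap (Fin.castLE h ⟨0, hm⟩) i with hπ
  set x' : Vx d := fun j => x (π j) with hx'
  have h1 : g x' = g x := hg.symm π x
  have h2 : nm (pj h x') = nm x := by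
    apply le_antisymm
    · calc nm (pj h x') ≤ nm x' := nm_pj_le h x'
        _ = nm x := nm_comp_perm π x
    · rw [← hi]
      have h3 := natAbs_le_nm (pj h x') ⟨0, hm⟩
      have h4 : pj h x' ⟨0, hm⟩ = x i := by
        simp only [pj, hx', hπ, Equiv.swap_apply_left]
      rw [h4] at h3
      exact h3
  rw [← h1, ← h2]
  exact (mul_le_mul' (le_tpj h g x') le_rfl).trans (hg.dec _)

theorem Dc.le_const (H : Dc h g A α a) (x : Vx d) : g x ≤ A := by
  refine (le_tpj h g x).trans ?_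
  rcases Nat.lt_or_ge (nm (pj h x)) 1 with h0 | h1
  · have h2 := H.vol 1 le_rfl
    rw [Nat.cast_one, one_pow, mul_one] at h2
    exact (tpj_le_Vv h g (by omega)).trans h2
  · refine le_trans ?_ (H.dec (pj h x))
    exact le_mul_of_one_le_right zero_le (one_le_pow₀ (B29a_one h1))

private theorem B29a_Vv (h : m ≤ d) (R : ℕ) : Vv h (dl : Vx d → ℝ≥0∞) R ≤ 1 := by
  refine (Vv_le_tsum h _ R).trans ?_
  rw [tsum_eq_single (0 : Vx d) (fun x hx => by rw [dl, if_neg hx]), dl, if_pos rfl]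

theorem dl_dc (h : m ≤ d) (α a : ℕ) (ha : 1 ≤ a) : Dc h (dl : Vx d → ℝ≥0∞) 1 α a where
  symm π x := by
    have h1 : (fun i => x (π i)) = (0 : Vx d) ↔ x = 0 := by
      constructor
      · intro h0
        funext i
        have h2 := congrFun h0 (π.symm i)
        simpa using h2
      · rintro rfl
        rfl
    unfold dl
    by_cases hx : x = 0
    · rw [if_pos hx, if_pos (h1.2 hx)]
    · rw [if_neg hx, if_neg (fun h0 => hx (h1.1 h0))]
  vol R hR := (B29a_Vv h R).trans (by
    rw [one_mul]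
    exact one_le_pow₀ (B29a_one hR))
  dec k := by
    rcases Nat.eq_zero_or_pos (nm k) with h0 | h1
    · rw [h0, Nat.cast_zero, zero_pow (by omega), mul_zero]
      exact zero_le
    · have h2 : tpj h (dl : Vx d → ℝ≥0∞) k = 0 := by
        unfold tpj
        rw [ENNReal.tsum_eq_zero]
        intro x
        by_cases hx : x = 0
        · rw [if_neg]
          rintro rfl
          rw [hx, pj_zero, nm_eq_zero.2 rfl] at h1
          exact lt_irrefl _ h1
        · rw [dl, if_neg hx, ite_self]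
      rw [h2, zero_mul]
      exact zero_le

end Pool.Agent.HD
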