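import Pool.Agent.Lib.MP_8ca597_hd.B01
import Pool.Agent.Lib.MP_8ca597_hd.A12

/-!
# Row B30: simple random walk, basic facts

`Dr d n x` is the real-valued version of `cpw (DD d) n x`.
-/

set_option autoImplicit false

namespace Pool.Agent.HD

open Finset
open scoped ENNReal

variable {d : ℕ}

/-- The `n` step transition probabilities of simple random walk. -/
noncomputable def Dr (d : ℕ) : ℕ → Vx d → ℝ
  | 0 => fun x => if x = 0 then 1 else 0
  | n + 1 => fun x => (2 * d : ℝ)⁻¹ * ∑ y ∈ nbr (0 : Vx d), Dr d n (x - y)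

theorem Dr_nonneg (n : ℕ) (x : Vx d) : 0 ≤ Dr d n x := by
  induction n generalizing x with
  | zero =>
    show 0 ≤ (if x = 0 then (1 : ℝ) else 0)
    split_ifs <;> norm_num
  | succ n ih =>
    show 0 ≤ (2 * d : ℝ)⁻¹ * ∑ y ∈ nbr (0 : Vx d), Dr d n (x - y)
    exact mul_nonneg (by positivity) (Finset.sum_nonneg fun y _ => ih (x - y))

theorem B30_tsum (f : Vx d → ℝ≥0∞) :
    ∑' y, DD d y * f y = ∑ y ∈ nbr (0 : Vx d), (2 * d : ℝ≥0∞)⁻¹ * f y := by
  rw [tsum_eq_sum (s := nbr (0 : Vx d))]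
  · refine Finset.sum_congr rfl fun y hy => ?_
    unfold DD
    rw [if_pos hy]
  · intro y hy
    unfold DD
    rw [if_neg hy, zero_mul]

theorem B30_inv (hd : 0 < d) : (2 * d : ℝ≥0∞)⁻¹ = ENNReal.ofReal (2 * d : ℝ)⁻¹ := by
  have h : (0 : ℝ) < 2 * d := by positivity
  rw [ENNReal.ofReal_inv_of_pos h, ENNReal.ofReal_mul (by norm_num), ENNReal.ofReal_natCast]
  norm_num

theorem cpw_DD (hd : 0 < d) (n : ℕ) (x : Vx d) :
    cpw (DD d) n x = ENNReal.ofReal (Dr d n x) := by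
  induction n generalizing x with
  | zero =>
    show (if x = 0 then (1 : ℝ≥0∞) else 0) = ENNReal.ofReal (if x = 0 then (1 : ℝ) else 0)
    split_ifs <;> simp
  | succ n ih =>
    show ∑' y, DD d y * cpw (DD d) n (x - y) =
      ENNReal.ofReal ((2 * d : ℝ)⁻¹ * ∑ y ∈ nbr (0 : Vx d), Dr d n (x - y))
    rw [B30_tsum (fun y => cpw (DD d) n (x - y)), ENNReal.ofReal_mul (by positivity),
      ENNReal.ofReal_sum_of_nonneg (fun y _ => Dr_nonneg n (x - y)), ← B30_inv hd, Finset.mul_sum]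
    exact Finset.sum_congr rfl fun y _ => by rw [ih]

theorem tsum_DD0 (hd : 0 < d) : ∑' x, DD d x = 1 := by
  have h := B30_tsum (d := d) (fun _ => 1)
  simp only [mul_one] at h
  rw [h, Finset.sum_const, card_nbr, nsmul_eq_mul]
  have h2 : ((2 * d : ℕ) : ℝ≥0∞) = 2 * d := by push_cast; rfl
  rw [h2]
  refine ENNReal.mul_inv_cancel ?_ ?_
  · intro h0
    rw [← h2] at h0
    have : 2 * d = 0 := by exact_mod_cast h0
    omega
  · rw [← h2]
    exact ENNReal.natCast_ne_top _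

theorem tsum_cpw_DD (hd : 0 < d) (n : ℕ) : ∑' x, cpw (DD d) n x = 1 := by
  rw [tsum_cpw, tsum_DD0 hd, one_pow]

theorem cpw_DD_neg (n : ℕ) (x : Vx d) : cpw (DD d) n (-x) = cpw (DD d) n x := by
  refine cpw_neg (fun y => ?_) n x
  unfold DD
  have h : (-y ∈ nbr (0 : Vx d)) ↔ y ∈ nbr (0 : Vx d) := by
    rw [mem_nbr, mem_nbr, ← adj_neg 0 y, neg_zero]
  by_cases hy : y ∈ nbr (0 : Vx d)
  · rw [if_pos hy, if_pos (h.2 hy)]
  · rw [if_neg hy, if_neg fun h' => hy (h.1 h')]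

/-- Signed permutations as additive automorphisms. -/
def B30_sp (π : Equiv.Perm (Fin d)) (ε : Fin d → ℤ) (hε : ∀ i, ε i * ε i = 1) : Vx d ≃+ Vx d where
  toFun x := fun i => ε i * x (π i)
  invFun y := fun j => ε (π.symm j) * y (π.symm j)
  left_inv x := by
    funext j
    show ε (π.symm j) * (ε (π.symm j) * x (π (π.symm j))) = x j
    rw [← mul_assoc, hε, one_mul, Equiv.apply_symm_apply]
  right_inv y := by
    funext i
    show ε i * (ε (π.symm (π i)) * y (π.symm (π i))) = y i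
    rw [Equiv.symm_apply_apply, ← mul_assoc, hε, one_mul]
  map_add' x y := by
    funext i
    show ε i * (x (π i) + y (π i)) = ε i * x (π i) + ε i * y (π i)
    ring

/-- Signed permutations of the coordinates. -/
theorem cpw_DD_signed (n : ℕ) (π : Equiv.Perm (Fin d)) (ε : Fin d → ℤ)
    (hε : ∀ i, ε i = 1 ∨ ε i = -1) (x : Vx d) :
    cpw (DD d) n (fun i => ε i * x (π i)) = cpw (DD d) n x := by
  have hε2 : ∀ i, ε i * ε i = 1 := by
    intro i
    rcases hε i with h | h <;> rw [h] <;> norm_num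
  refine cpw_equiv (B30_sp π ε hε2) (fun y => ?_) n x
  unfold DD
  have h0 : (fun i => ε i * (0 : Vx d) (π i)) = (0 : Vx d) := by
    funext i
    show ε i * 0 = 0
    rw [mul_zero]
  have h : (B30_sp π ε hε2 y ∈ nbr (0 : Vx d)) ↔ y ∈ nbr (0 : Vx d) := by
    rw [mem_nbr, mem_nbr, ← adj_signed π ε hε 0 y, h0]
    rfl
  by_cases hy : y ∈ nbr (0 : Vx d)
  · rw [if_pos hy, if_pos (h.2 hy)]
  · rw [if_neg hy, if_neg fun h' => hy (h.1 h')]

theorem B30_nm0 : nm (0 : Vx d) = 0 := by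
  have h : nm (0 : Vx d) ≤ 0 := A12_nm_le fun i => by simp
  omega

theorem B30_eq0 {y : Vx d} (h : nm y = 0) : y = 0 := by
  funext i
  have h1 := A12_natAbs_le y i
  rw [h] at h1
  show y i = 0
  omega

theorem nm_nbr {y : Vx d} (h : y ∈ nbr (0 : Vx d)) : nm y = 1 := by
  rw [mem_nbr] at h
  have h1 := nm_adj h
  rw [B30_nm0] at h1
  have h2 : nm y ≠ 0 := by
    intro h0
    rw [B30_eq0 h0] at h
    unfold Adj at h
    simp at h
  omega

theorem cpw_DD_supp {n : ℕ} {x : Vx d} (h : cpw (DD d) n x ≠ 0) : nm x ≤ n := by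
  induction n generalizing x with
  | zero =>
    by_cases hx : x = 0
    · rw [hx, B30_nm0]
    · exact absurd (show (if x = 0 then (1 : ℝ≥0∞) else 0) = 0 from if_neg hx) h
  | succ n ih =>
    by_contra hn
    apply h
    show ∑' y, DD d y * cpw (DD d) n (x - y) = 0
    rw [B30_tsum (fun y => cpw (DD d) n (x - y))]
    refine Finset.sum_eq_zero fun y hy => ?_
    have h1 : cpw (DD d) n (x - y) = 0 := by
      by_contra h2
      have h3 := ih h2
      have h4 := nm_add_le (x - y) y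
      rw [sub_add_cancel, nm_nbr hy] at h4
      omega
    rw [h1, mul_zero]

theorem DD_le0 (x : Vx d) : DD d x ≤ (2 * d : ℝ≥0∞)⁻¹ := by
  unfold DD
  split_ifs
  · exact le_refl _
  · exact bot_le

theorem cpw_DD_le (hd : 0 < d) {n : ℕ} (hn : 1 ≤ n) (x : Vx d) :
    cpw (DD d) n x ≤ (2 * d : ℝ≥0∞)⁻¹ := by
  obtain ⟨k, rfl⟩ : ∃ k, n = k + 1 := ⟨n - 1, by omega⟩
  show cv (DD d) (cpw (DD d) k) x ≤ _
  rw [cv_comm]
  refine (cv_le_sup _ _ DD_le0 x).trans ?_
  rw [tsum_cpw_DD hd, one_mul]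

end Pool.Agent.HD
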