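import Pool.Agent.Lib.MP_8ca597_hd.B30

/-!
# Row B31: even return probabilities
-/

set_option autoImplicit false

namespace Pool.Agent.HD

open Finset
open scoped ENNReal

variable {d : ℕ}

theorem B31_two (a b : ℝ≥0∞) : 2 * (a * b) ≤ a * a + b * b := by
  have key : ∀ a c : ℝ≥0∞, 2 * (a * (a + c)) ≤ a * a + (a + c) * (a + c) := by
    intro a c
    have h : a * a + (a + c) * (a + c) = 2 * (a * (a + c)) + c * c := by ring
    rw [h]
    exact le_self_add
  rcases le_total a b with h | h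
  · obtain ⟨c, rfl⟩ := exists_add_of_le h
    exact key a c
  · obtain ⟨c, rfl⟩ := exists_add_of_le h
    rw [mul_comm (b + c) b, add_comm ((b + c) * (b + c))]
    exact key b c

theorem cpw_DD_even (hd : 0 < d) (k : ℕ) (x : Vx d) :
    cpw (DD d) (2 * k) x ≤ cpw (DD d) (2 * k) 0 := by
  have _h := hd
  have e1 : cpw (DD d) (2 * k) = cv (cpw (DD d) k) (cpw (DD d) k) := by
    rw [two_mul, cpw_add]
  rw [e1]
  set f := cpw (DD d) k with hf
  have hneg : ∀ y, f (-y) = f y := fun y => cpw_DD_neg k y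
  have e2 : cv f f 0 = ∑' y, f y * f y := by
    unfold cv
    refine tsum_congr fun y => ?_
    rw [zero_sub, hneg]
  have e3 : ∑' y, f (x - y) * f (x - y) = ∑' y, f y * f y := by
    exact (Equiv.subLeft x).tsum_eq (fun y => f y * f y)
  have e4 : 2 * cv f f x ≤ 2 * cv f f 0 := by
    calc 2 * cv f f x = ∑' y, 2 * (f y * f (x - y)) := by
          unfold cv
          rw [ENNReal.tsum_mul_left]
      _ ≤ ∑' y, (f y * f y + f (x - y) * f (x - y)) :=
          ENNReal.tsum_le_tsum fun y => B31_two _ _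
      _ = ∑' y, f y * f y + ∑' y, f (x - y) * f (x - y) := ENNReal.tsum_add
      _ = 2 * cv f f 0 := by rw [e3, e2, two_mul]
  exact (ENNReal.mul_le_mul_iff_right (by norm_num) (by norm_num)).1 e4

theorem cpw_DD_le_even (hd : 0 < d) (n : ℕ) (x : Vx d) :
    cpw (DD d) n x ≤ cpw (DD d) (2 * (n / 2)) 0 := by
  rcases Nat.even_or_odd' n with ⟨k, h | h⟩
  · have h1 : n / 2 = k := by omega
    rw [h1, h]
    exact cpw_DD_even hd k x
  · have h1 : n / 2 = k := by omega
    rw [h1, h]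
    show cv (DD d) (cpw (DD d) (2 * k)) x ≤ _
    refine (cv_le_sup _ _ (fun y => cpw_DD_even hd k y) x).trans ?_
    rw [tsum_DD0 hd, one_mul]

theorem cpw_DD_anti (hd : 0 < d) {j k : ℕ} (h : j ≤ k) :
    cpw (DD d) (2 * k) 0 ≤ cpw (DD d) (2 * j) 0 := by
  have h1 : 2 * k = 2 * (k - j) + 2 * j := by omega
  rw [h1, cpw_add]
  refine (cv_le_sup _ _ (fun y => cpw_DD_even hd j y) 0).trans ?_
  rw [tsum_cpw_DD hd, one_mul]

end Pool.Agent.HD
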