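import Pool.Agent.Lib.MP_8ca597_hd.B30

/-!
# Row B32: the size of the return probabilities

`Dr_mul`: exchangeability of the steps (Leibniz rule), by induction on `n`: write
`x i = y i + (x - y) i` in `Dr d (n + 2) x = (2d)⁻¹ ∑ y, Dr d (n + 1) (x - y)`, use the induction
hypothesis for `(x - y) i * Dr d (n + 1) (x - y)` and exchange the two sums. `Dr_unit`: the values at
unit vectors are equal (`cpw_DD_signed`, `cpw_DD`, or induction). `Dr_rec`:
`Dr d (2 j + 2) 0 = (2d)⁻¹ ∑ y, Dr d (2 j + 1) (-y) = Dr d (2 j + 1) e` for a unit vector `e` in the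
direction `i`, and `Dr_mul` gives
`Dr d (2 j + 1) e = (2 j + 1) / (2 d) * (Dr d (2 j) 0 - Dr d (2 j) (2 e))`.
`Dr_pow`: induction, `(2 j + 1) j^j ≤ (j + 1)^(j + 1)` (Bernoulli: `(1 + 1/j)^j ≥ 2`).
-/

set_option autoImplicit false

namespace Pool.Agent.HD

open Finset
open scoped ENNReal

variable {d : ℕ}

theorem Dr_mul (n : ℕ) (x : Vx d) (i : Fin d) : (x i : ℝ) * Dr d (n + 1) x =
    (n + 1) / (2 * d) * ∑ y ∈ nbr (0 : Vx d), (y i : ℝ) * Dr d n (x - y) := by
  induction n generalizing x with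
  | zero =>
    show (x i : ℝ) * ((2 * d : ℝ)⁻¹ * ∑ y ∈ nbr (0 : Vx d), Dr d 0 (x - y)) = _
    rw [mul_left_comm, Finset.mul_sum]
    have : ∀ y ∈ nbr (0 : Vx d), (x i : ℝ) * Dr d 0 (x - y) = (y i : ℝ) * Dr d 0 (x - y) := by
      intro y _
      by_cases h : x - y = 0
      · rw [sub_eq_zero.1 h]
      · have h0 : Dr d 0 (x - y) = 0 := by
          show (if x - y = 0 then (1 : ℝ) else 0) = 0
          rw [if_neg h]
        rw [h0, mul_zero, mul_zero]
    rw [Finset.sum_congr rfl this]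
    push_cast
    rw [zero_add, one_div]
  | succ n ih =>
    have h1 : (x i : ℝ) * Dr d (n + 1 + 1) x =
        (2 * d : ℝ)⁻¹ * (∑ y ∈ nbr (0 : Vx d), (y i : ℝ) * Dr d (n + 1) (x - y) +
          ∑ y ∈ nbr (0 : Vx d), ((x - y) i : ℝ) * Dr d (n + 1) (x - y)) := by
      show (x i : ℝ) * ((2 * d : ℝ)⁻¹ * ∑ y ∈ nbr (0 : Vx d), Dr d (n + 1) (x - y)) = _
      rw [mul_left_comm, Finset.mul_sum, ← Finset.sum_add_distrib]
      refine congrArg _ (Finset.sum_congr rfl ?_)
      intro y _
      have : ((x - y) i : ℤ) = x i - y i := rfl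
      rw [this]
      push_cast
      ring
    have h2 : ∑ y ∈ nbr (0 : Vx d), ((x - y) i : ℝ) * Dr d (n + 1) (x - y) =
        (n + 1) / (2 * d) * ∑ z ∈ nbr (0 : Vx d), (z i : ℝ) *
          ∑ y ∈ nbr (0 : Vx d), Dr d n (x - z - y) := by
      have h3 : ∀ y ∈ nbr (0 : Vx d), ((x - y) i : ℝ) * Dr d (n + 1) (x - y) =
          (n + 1) / (2 * d) * ∑ z ∈ nbr (0 : Vx d), (z i : ℝ) * Dr d n (x - y - z) :=
        fun y _ => ih (x - y)
      rw [Finset.sum_congr rfl h3, ← Finset.mul_sum, Finset.sum_comm]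
      refine congrArg _ (Finset.sum_congr rfl ?_)
      intro z _
      rw [Finset.mul_sum]
      refine Finset.sum_congr rfl ?_
      intro y _
      rw [sub_right_comm]
    have h4 : ∀ z : Vx d, ∑ y ∈ nbr (0 : Vx d), Dr d n (x - z - y) =
        (2 * d : ℝ) * Dr d (n + 1) (x - z) := by
      intro z
      show _ = (2 * d : ℝ) * ((2 * d : ℝ)⁻¹ * ∑ y ∈ nbr (0 : Vx d), Dr d n (x - z - y))
      rcases Nat.eq_zero_or_pos d with h0 | h0
      · exfalso
        subst h0
        exact i.elim0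
      · rw [← mul_assoc, mul_inv_cancel₀ (by positivity), one_mul]
    rw [h1, h2]
    simp only [h4]
    have hd : (2 * d : ℝ) ≠ 0 := by
      rcases Nat.eq_zero_or_pos d with h0 | h0
      · exfalso
        subst h0
        exact i.elim0
      · positivity
    have h5 : ∑ z ∈ nbr (0 : Vx d), (z i : ℝ) * ((2 * d : ℝ) * Dr d (n + 1) (x - z)) =
        (2 * d : ℝ) * ∑ z ∈ nbr (0 : Vx d), (z i : ℝ) * Dr d (n + 1) (x - z) := by
      rw [Finset.mul_sum]
      refine Finset.sum_congr rfl ?_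
      intro z _
      ring
    rw [h5]
    set X := ∑ z ∈ nbr (0 : Vx d), (z i : ℝ) * Dr d (n + 1) (x - z) with hX
    have h6 : (n + 1 : ℝ) / (2 * d) * (2 * d * X) = (n + 1) * X := by
      rw [← mul_assoc, div_mul_cancel₀ _ hd]
    rw [h6]
    push_cast
    rw [div_eq_inv_mul]
    ring

theorem Dr_unit (hd : 0 < d) (n : ℕ) {x y : Vx d} (hx : x ∈ nbr (0 : Vx d))
    (hy : y ∈ nbr (0 : Vx d)) : Dr d n x = Dr d n y := by
  classical
  -- every unit vector is a signed permutation of every other one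
  have key : ∀ z : Vx d, z ∈ nbr (0 : Vx d) → ∃ i : Fin d, ∃ s : ℤ, (s = 1 ∨ s = -1) ∧
      z = Pi.single i s := by
    intro z hz
    have h1 : ∑ i, |(0 : Vx d) i - z i| = 1 := mem_nbr.1 hz
    have h2 : ∑ i, |z i| = 1 := by
      rw [← h1]
      refine Finset.sum_congr rfl ?_
      intro i _
      simp
    have h3 : ∃ i, z i ≠ 0 := by
      by_contra hcon
      push Not at hcon
      have : ∑ i, |z i| = 0 := Finset.sum_eq_zero (fun i _ => by rw [hcon i]; simp)
      omega
    obtain ⟨i, hi⟩ := h3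
    have h4 : |z i| + ∑ j ∈ univ.erase i, |z j| = 1 := by
      rw [Finset.add_sum_erase univ (fun j => |z j|) (Finset.mem_univ i)]
      exact h2
    have h5 : 1 ≤ |z i| := Int.one_le_abs hi
    have h6 : 0 ≤ ∑ j ∈ univ.erase i, |z j| := Finset.sum_nonneg (fun j _ => abs_nonneg _)
    have h7 : ∑ j ∈ univ.erase i, |z j| = 0 := by omega
    have h8 : |z i| = 1 := by omega
    refine ⟨i, z i, ?_, ?_⟩
    · rcases abs_eq (by norm_num : (0 : ℤ) ≤ 1) |>.1 h8 with h | h
      · exact Or.inl h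
      · exact Or.inr h
    · funext j
      by_cases hj : j = i
      · subst hj; simp
      · rw [Pi.single_eq_of_ne hj]
        have := (Finset.sum_eq_zero_iff_of_nonneg (fun j _ => abs_nonneg (z j))).1 h7 j
          (Finset.mem_erase.2 ⟨hj, Finset.mem_univ j⟩)
        exact abs_eq_zero.1 this
  obtain ⟨i, s, hs, rfl⟩ := key x hx
  obtain ⟨j, t, ht, rfl⟩ := key y hy
  have h1 := cpw_DD_signed n (Equiv.swap i j) (fun _ => s * t)
    (by
      intro k
      rcases hs with rfl | rfl <;> rcases ht with rfl | rfl <;> simp)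
    (Pi.single i s : Vx d)
  have h2 : (fun k => (s * t) * (Pi.single i s : Vx d) (Equiv.swap i j k)) = Pi.single j t := by
    funext k
    by_cases hk : k = j
    · subst hk
      rw [Equiv.swap_apply_right, Pi.single_eq_same, Pi.single_eq_same]
      rcases hs with rfl | rfl <;> rcases ht with rfl | rfl <;> norm_num
    · rw [Pi.single_eq_of_ne hk]
      have : Equiv.swap i j k ≠ i := by
        intro h
        apply hk
        have := congrArg (Equiv.swap i j) h
        rw [Equiv.swap_apply_self, Equiv.swap_apply_left] at this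
        exact this
      rw [Pi.single_eq_of_ne this, mul_zero]
  rw [h2, cpw_DD hd, cpw_DD hd] at h1
  have h3 := congrArg ENNReal.toReal h1
  rw [ENNReal.toReal_ofReal (Dr_nonneg _ _), ENNReal.toReal_ofReal (Dr_nonneg _ _)] at h3
  exact h3.symm

theorem Dr_rec (hd : 0 < d) (j : ℕ) :
    Dr d (2 * (j + 1)) 0 ≤ (2 * j + 1) / (2 * d) * Dr d (2 * j) 0 := by
  classical
  set i : Fin d := ⟨0, hd⟩ with hi
  set e : Vx d := Pi.single i 1 with he
  have heN : ∀ s : ℤ, (s = 1 ∨ s = -1) → (Pi.single i s : Vx d) ∈ nbr (0 : Vx d) := by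
    intro s hs
    refine mem_nbr.2 ?_
    show ∑ k, |(0 : Vx d) k - (Pi.single i s : Vx d) k| = 1
    rw [Finset.sum_eq_single i]
    · rw [Pi.single_eq_same]
      rcases hs with rfl | rfl <;> simp
    · intro k _ hk
      rw [Pi.single_eq_of_ne hk]; simp
    · intro h; exact absurd (Finset.mem_univ i) h
  have hnegN : ∀ y : Vx d, y ∈ nbr (0 : Vx d) → -y ∈ nbr (0 : Vx d) := by
    intro y hy
    have h1 : Adj (-(0 : Vx d)) (-y) := (adj_neg 0 y).2 (mem_nbr.1 hy)
    rw [neg_zero] at h1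
    exact mem_nbr.2 h1
  have h1 : Dr d (2 * (j + 1)) 0 = Dr d (2 * j + 1) e := by
    show (2 * d : ℝ)⁻¹ * ∑ y ∈ nbr (0 : Vx d), Dr d (2 * j + 1) (0 - y) = _
    have : ∀ y ∈ nbr (0 : Vx d), Dr d (2 * j + 1) (0 - y) = Dr d (2 * j + 1) e := by
      intro y hy
      rw [zero_sub]
      exact Dr_unit hd _ (hnegN y hy) (heN 1 (Or.inl rfl))
    rw [Finset.sum_congr rfl this, Finset.sum_const, card_nbr, nsmul_eq_mul]
    push_cast
    rw [← mul_assoc, inv_mul_cancel₀ (by positivity), one_mul]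
  have h2 := Dr_mul (2 * j) e i
  have he1 : (e i : ℝ) = 1 := by rw [he, Pi.single_eq_same]; norm_num
  rw [he1, one_mul] at h2
  have h3 : ∑ y ∈ nbr (0 : Vx d), (y i : ℝ) * Dr d (2 * j) (e - y) ≤ Dr d (2 * j) 0 := by
    have hle : ∑ y ∈ nbr (0 : Vx d), (y i : ℝ) * Dr d (2 * j) (e - y) ≤
        ∑ y ∈ nbr (0 : Vx d), if y = e then Dr d (2 * j) 0 else 0 := by
      refine Finset.sum_le_sum ?_
      intro y hy
      by_cases hye : y = e
      · rw [if_pos hye, hye, he1, one_mul, sub_self]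
      · rw [if_neg hye]
        have hyi : y i ≤ 0 := by
          by_contra hcon
          push Not at hcon
          apply hye
          have h1 : ∑ k, |(0 : Vx d) k - y k| = 1 := mem_nbr.1 hy
          have h2 : ∑ k, |y k| = 1 := by
            rw [← h1]
            refine Finset.sum_congr rfl ?_
            intro k _
            simp
          have h4 : |y i| + ∑ k ∈ univ.erase i, |y k| = 1 := by
            rw [Finset.add_sum_erase univ (fun k => |y k|) (Finset.mem_univ i)]
            exact h2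
          have h5 : |y i| = y i := abs_of_pos hcon
          have h6 : 0 ≤ ∑ k ∈ univ.erase i, |y k| :=
            Finset.sum_nonneg (fun k _ => abs_nonneg _)
          have h7 : ∑ k ∈ univ.erase i, |y k| = 0 := by omega
          have h8 : y i = 1 := by omega
          funext k
          by_cases hk : k = i
          · subst hk; rw [he, Pi.single_eq_same]; exact h8
          · rw [he, Pi.single_eq_of_ne hk]
            exact abs_eq_zero.1 ((Finset.sum_eq_zero_iff_of_nonneg
              (fun k _ => abs_nonneg (y k))).1 h7 k (Finset.mem_erase.2 ⟨hk, Finset.mem_univ k⟩))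
        have : (y i : ℝ) ≤ 0 := by exact_mod_cast hyi
        exact mul_nonpos_of_nonpos_of_nonneg this (Dr_nonneg _ _)
    refine hle.trans ?_
    rw [Finset.sum_ite_eq' (nbr (0 : Vx d)) e]
    split_ifs
    · exact le_rfl
    · exact Dr_nonneg _ _
  rw [h1, h2]
  have h4 : ((2 * j : ℕ) : ℝ) + 1 = 2 * j + 1 := by push_cast; ring
  rw [h4]
  refine mul_le_mul_of_nonneg_left h3 ?_
  positivity

theorem Dr_pow (hd : 0 < d) (j : ℕ) : Dr d (2 * j) 0 ≤ (j / (2 * d)) ^ j := by
  have hd' : (0 : ℝ) < 2 * d := by positivity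
  induction j with
  | zero =>
    show (if (0 : Vx d) = 0 then (1 : ℝ) else 0) ≤ _
    simp
  | succ j ih =>
    refine (Dr_rec hd j).trans ?_
    refine (mul_le_mul_of_nonneg_left ih (by positivity)).trans ?_
    rw [div_pow, div_pow, div_mul_div_comm]
    have h1 : (2 * (d : ℝ)) * (2 * (d : ℝ)) ^ j = (2 * (d : ℝ)) ^ (j + 1) := by ring
    rw [h1]
    refine div_le_div_of_nonneg_right ?_ (by positivity)
    rcases Nat.eq_zero_or_pos j with rfl | hj
    · simp
    · have hj' : (0 : ℝ) < j := by exact_mod_cast hj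
      have h2 : (1 : ℝ) + j * (1 / j) ≤ (1 + 1 / j) ^ j :=
        one_add_mul_le_pow (by have : (0 : ℝ) < 1 / j := by positivity
                               linarith) j
      have h3 : (2 : ℝ) ≤ (1 + 1 / j) ^ j := by
        have : (1 : ℝ) + j * (1 / j) = 2 := by field_simp; norm_num
        linarith
      have h4 : (2 : ℝ) * (j : ℝ) ^ j ≤ ((j : ℝ) + 1) ^ j := by
        have : ((j : ℝ) + 1) ^ j = (1 + 1 / j) ^ j * (j : ℝ) ^ j := by
          rw [← mul_pow]; congr 1; field_simp
        rw [this]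
        exact mul_le_mul_of_nonneg_right h3 (by positivity)
      push_cast
      have h5 : ((j : ℝ) + 1) ^ (j + 1) = ((j : ℝ) + 1) * ((j : ℝ) + 1) ^ j := by ring
      rw [h5]
      have h6 : (0 : ℝ) ≤ (j : ℝ) ^ j := by positivity
      nlinarith [mul_le_mul_of_nonneg_left h4 (by positivity : (0 : ℝ) ≤ (j : ℝ) + 1)]

theorem cpw_DD_pow (hd : 0 < d) (j : ℕ) :
    cpw (DD d) (2 * j) 0 ≤ ENNReal.ofReal ((j / (2 * d)) ^ j) := by
  rw [cpw_DD hd]
  exact ENNReal.ofReal_le_ofReal (Dr_pow hd j)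

end Pool.Agent.HD
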