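import Pool.Agent.Lib.MP_8ca597_hd.B30
import Pool.Agent.Lib.MP_8ca597_hd.A14

/-!
# Row B33: comparison of the two-point function with the Green function

`tt_step`: the random walk bound `RW`; `p ∑_{e ∈ nbr 0} tt p (x - e) = q cv (DD d) (tt p) x` with
`q = 2 d p` (finite sum, `DD d e = (2 d)⁻¹` on `nbr 0`). `tt_iter`: induction on `K`:
insert `tt_step` into the last term (`cv_mono`, `cv_add`, `cv_smul`, `cv_assoc`, `cpw_add`, `cv_dl`).
-/

set_option autoImplicit false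

namespace Pool.Agent.HD

open Finset
open scoped ENNReal

variable {d : ℕ} {p : ℝ}

private lemma B33_cv (hd : 0 < d) (hp : 0 ≤ p) (f : Vx d → ℝ≥0∞) (x : Vx d) :
    ENNReal.ofReal (2 * d * p) * cv (DD d) f x =
      ENNReal.ofReal p * ∑ e ∈ nbr (0 : Vx d), f (x - e) := by
  have h1 : cv (DD d) f x = ∑ e ∈ nbr (0 : Vx d), (2 * d : ℝ≥0∞)⁻¹ * f (x - e) := by
    unfold cv
    rw [tsum_eq_sum (s := nbr (0 : Vx d))]
    · refine sum_congr rfl fun e he => ?_
      rw [DD, if_pos he]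
    · intro e he
      rw [DD, if_neg he, zero_mul]
  rw [h1, ← mul_sum, ← mul_assoc]
  congr 1
  have h0 : (2 * d : ℝ≥0∞) ≠ 0 := by
    simp [hd.ne']
  have h2 : (2 * d : ℝ≥0∞) ≠ ⊤ := by
    exact ENNReal.mul_ne_top (by simp) (by simp)
  have h3 : ENNReal.ofReal (2 * d * p) = (2 * d : ℝ≥0∞) * ENNReal.ofReal p := by
    rw [ENNReal.ofReal_mul (by positivity), ENNReal.ofReal_mul (by norm_num)]
    simp
  rw [h3, mul_comm (2 * d : ℝ≥0∞), mul_assoc, ENNReal.mul_inv_cancel h0 h2, mul_one]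

theorem tt_step (hd : 0 < d) (hp : 0 ≤ p) (hp1 : p ≤ 1) (x : Vx d) :
    tt p x ≤ dl x + ENNReal.ofReal (2 * d * p) * cv (DD d) (tt p) x := by
  rw [B33_cv hd hp]
  exact RW hp hp1 x

theorem tt_iter (hd : 0 < d) (hp : 0 ≤ p) (hp1 : p ≤ 1) (K : ℕ) (x : Vx d) :
    tt p x ≤ ∑ n ∈ range K, ENNReal.ofReal (2 * d * p) ^ n * cpw (DD d) n x +
      ENNReal.ofReal (2 * d * p) ^ K * cv (cpw (DD d) K) (tt p) x := by
  induction K with
  | zero =>
    have h : cpw (DD d) 0 = dl := rfl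
    rw [range_zero, sum_empty, zero_add, pow_zero, one_mul, h, dl_cv]
  | succ K ih =>
    refine ih.trans ?_
    rw [sum_range_succ, add_assoc]
    refine add_le_add le_rfl ?_
    have h1 : cv (cpw (DD d) K) (tt p) x ≤ cpw (DD d) K x +
        ENNReal.ofReal (2 * d * p) * cv (cpw (DD d) (K + 1)) (tt p) x := by
      refine (cv_mono (fun _ => le_rfl) (fun y => tt_step hd hp hp1 y) x).trans ?_
      rw [cv_add, cv_smul, cv_dl, cpw_add, cpw_one, cv_assoc]
    calc ENNReal.ofReal (2 * d * p) ^ K * cv (cpw (DD d) K) (tt p) x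
        ≤ ENNReal.ofReal (2 * d * p) ^ K * (cpw (DD d) K x +
          ENNReal.ofReal (2 * d * p) * cv (cpw (DD d) (K + 1)) (tt p) x) := by gcongr
      _ = _ := by rw [mul_add, ← mul_assoc, ← pow_succ]

end Pool.Agent.HD
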