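import Pool.Agent.Lib.MP_8ca597_hd.B31
import Pool.Agent.Lib.MP_8ca597_hd.B32

/-!
# Row B34: the remainder

`rem_vol`: the step distribution is supported on `nm y ≤ 2 j` (`cpw_DD_supp`), its values are at most
`(j / (2 d))^j` (`cpw_DD_even`, `cpw_DD_pow`), and for `nm x ≤ 2 j`, `nm y ≤ 2 j` the projection of
`x - y` has norm at most `4 j` (`nm (pj h z) ≤ nm z`); reindex `y ↦ x - y`. `rem_le`: with
`j = d / 8`: `(2 d p)^(2 j) ≤ (1 + 20/d)^(d/4) ≤ exp 5`, `(j / (2 d))^j ≤ 16^(-j)` and `16^j ≥ exp(2 j) ≥ exp (2 (d/8) - 2)`,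
`(4 j)^7 ≤ d^7`, and `exp 7 * C * d^8 * exp (-(d/4)) ≤ exp (-(d/8))` for large `d`.
-/

set_option autoImplicit false

namespace Pool.Agent.HD

open Finset
open scoped ENNReal

private theorem B34_nm_le {d : ℕ} {x : Vx d} {n : ℕ} : nm x ≤ n ↔ ∀ i, (x i).natAbs ≤ n := by
  unfold nm
  rw [Finset.sup_le_iff]
  exact ⟨fun h i => h i (mem_univ i), fun h i _ => h i⟩

private theorem B34_nm_pj {d m : ℕ} (h : m ≤ d) (x : Vx d) : nm (pj h x) ≤ nm x :=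
  B34_nm_le.2 fun i => B34_nm_le.1 le_rfl (Fin.castLE h i)

private theorem B34_nm_sub {d : ℕ} (x y : Vx d) : nm (x - y) ≤ nm x + nm y := by
  refine B34_nm_le.2 fun i => ?_
  have h1 := (B34_nm_le (x := x)).1 le_rfl i
  have h2 := (B34_nm_le (x := y)).1 le_rfl i
  have h3 : (x - y) i = x i - y i := rfl
  rw [h3]
  omega

theorem rem_vol {d m j : ℕ} (hd : 0 < d) (h : m ≤ d) (g : Vx d → ℝ≥0∞) {x : Vx d}
    (hx : nm x ≤ 2 * j) :
    cv (cpw (DD d) (2 * j)) g x ≤ ENNReal.ofReal ((j / (2 * d)) ^ j) * Vv h g (4 * j) := by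
  have h1 : ∀ y : Vx d, cpw (DD d) (2 * j) y * g (x - y) ≤
      ENNReal.ofReal ((j / (2 * d)) ^ j) *
        (if nm (pj h (x - y)) ≤ 4 * j then g (x - y) else 0) := by
    intro y
    by_cases hy : cpw (DD d) (2 * j) y = 0
    · rw [hy, zero_mul]
      exact zero_le
    · have hy1 := cpw_DD_supp hy
      have hy2 := B34_nm_sub x y
      have hy3 := B34_nm_pj h (x - y)
      rw [if_pos (by omega)]
      exact mul_le_mul_left ((cpw_DD_even hd j y).trans (cpw_DD_pow hd j)) _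
  have h2 : ∑' y : Vx d, (if nm (pj h (x - y)) ≤ 4 * j then g (x - y) else 0) =
      Vv h g (4 * j) :=
    (Equiv.subLeft x).tsum_eq (fun z : Vx d => if nm (pj h z) ≤ 4 * j then g z else 0)
  calc cv (cpw (DD d) (2 * j)) g x
      ≤ ∑' y : Vx d, ENNReal.ofReal ((j / (2 * d)) ^ j) *
        (if nm (pj h (x - y)) ≤ 4 * j then g (x - y) else 0) := ENNReal.tsum_le_tsum h1
    _ = _ := by rw [ENNReal.tsum_mul_left, h2]

private theorem B34_real (C : ℝ) (hC : 0 < C) : ∃ d0 : ℕ, 0 < d0 ∧ ∀ d : ℕ, d0 ≤ d →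
    C * Real.exp 7 * (d : ℝ) ^ 8 * Real.exp (-(d / 4 : ℝ)) ≤ Real.exp (-(d / 8 : ℝ)) := by
  have h1 := Real.tendsto_pow_mul_exp_neg_atTop_nhds_zero 8
  have h2 : Filter.Tendsto (fun d : ℕ => (d : ℝ) / 8) Filter.atTop Filter.atTop :=
    tendsto_natCast_atTop_atTop.atTop_div_const (by norm_num)
  have h3 := h1.comp h2
  have hK : 0 < (C * Real.exp 7 * 8 ^ 8)⁻¹ := by positivity
  obtain ⟨d1, hd1⟩ := Filter.eventually_atTop.1 (h3.eventually (gt_mem_nhds hK))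
  refine ⟨d1 + 1, Nat.succ_pos _, fun d hd => ?_⟩
  have h4 : ((d : ℝ) / 8) ^ 8 * Real.exp (-((d : ℝ) / 8)) < (C * Real.exp 7 * 8 ^ 8)⁻¹ :=
    hd1 d (by omega)
  have h5 : 0 < C * Real.exp 7 * 8 ^ 8 := by positivity
  have h6 : C * Real.exp 7 * 8 ^ 8 * (((d : ℝ) / 8) ^ 8 * Real.exp (-((d : ℝ) / 8))) ≤ 1 := by
    calc C * Real.exp 7 * 8 ^ 8 * (((d : ℝ) / 8) ^ 8 * Real.exp (-((d : ℝ) / 8)))
        ≤ C * Real.exp 7 * 8 ^ 8 * (C * Real.exp 7 * 8 ^ 8)⁻¹ :=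
          mul_le_mul_of_nonneg_left h4.le h5.le
      _ = 1 := mul_inv_cancel₀ h5.ne'
  have h7 : Real.exp (-(d / 4 : ℝ)) = Real.exp (-((d : ℝ) / 8)) * Real.exp (-((d : ℝ) / 8)) := by
    rw [← Real.exp_add]
    congr 1
    ring
  calc C * Real.exp 7 * (d : ℝ) ^ 8 * Real.exp (-(d / 4 : ℝ))
      = (C * Real.exp 7 * 8 ^ 8 * (((d : ℝ) / 8) ^ 8 * Real.exp (-((d : ℝ) / 8)))) *
        Real.exp (-((d : ℝ) / 8)) := by rw [h7]; ring
    _ ≤ 1 * Real.exp (-((d : ℝ) / 8)) := mul_le_mul_of_nonneg_right h6 (Real.exp_pos _).le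
    _ = _ := one_mul _

theorem rem_le (C : ℝ) (hC : 0 < C) : ∃ d0 : ℕ, 0 < d0 ∧ ∀ d, d0 ≤ d → ∀ (m : ℕ) (h : m ≤ d)
    (p : ℝ), 0 ≤ p → 2 * d * p ≤ 1 + 20 / d →
    ∀ g : Vx d → ℝ≥0∞, (∀ R : ℕ, 1 ≤ R → Vv h g R ≤ ENNReal.ofReal (C * d) * R ^ 7) →
    ∀ x : Vx d, nm x ≤ 2 * (d / 8) →
      ENNReal.ofReal (2 * d * p) ^ (2 * (d / 8)) * cv (cpw (DD d) (2 * (d / 8))) g x ≤
        ENNReal.ofReal (Real.exp (-(d / 8 : ℝ))) := by
  obtain ⟨d1, hd1, hreal⟩ := B34_real C hC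
  refine ⟨max d1 8, by omega, ?_⟩
  intro d hd m h p hp hdp g hg x hx
  have hd8 : 8 ≤ d := le_trans (le_max_right _ _) hd
  have hdd1 : d1 ≤ d := le_trans (le_max_left _ _) hd
  have hdpos : 0 < d := by omega
  have hdR : (0 : ℝ) < d := by exact_mod_cast hdpos
  obtain ⟨j, hj⟩ : ∃ j, j = d / 8 := ⟨_, rfl⟩
  rw [← hj] at hx ⊢
  have hj1 : 1 ≤ j := by omega
  have hjd : 8 * j ≤ d := by omega
  have hdj : d < 8 * j + 8 := by omega
  have hjR : (8 : ℝ) * j ≤ d := by exact_mod_cast hjd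
  have hjR' : (d : ℝ) < 8 * j + 8 := by exact_mod_cast hdj
  have h1 := rem_vol hdpos h g hx
  have h2 := hg (4 * j) (by omega)
  have hq0 : 0 ≤ 2 * (d : ℝ) * p := by positivity
  have hb0 : (0 : ℝ) ≤ (j / (2 * d)) ^ j := by positivity
  have h3 : ENNReal.ofReal (2 * d * p) ^ (2 * j) * cv (cpw (DD d) (2 * j)) g x ≤
      ENNReal.ofReal ((2 * d * p) ^ (2 * j) * ((j / (2 * d)) ^ j * (C * d * (4 * j : ℝ) ^ 7))) := by
    calc ENNReal.ofReal (2 * d * p) ^ (2 * j) * cv (cpw (DD d) (2 * j)) g x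
        ≤ ENNReal.ofReal (2 * d * p) ^ (2 * j) * (ENNReal.ofReal ((j / (2 * d)) ^ j) *
          (ENNReal.ofReal (C * d) * ((4 * j : ℕ) : ℝ≥0∞) ^ 7)) := by gcongr; exact h1.trans (by gcongr)
      _ = _ := by
        have e1 : ENNReal.ofReal ((4 * j : ℝ) ^ 7) = ((4 * j : ℕ) : ℝ≥0∞) ^ 7 := by
          rw [ENNReal.ofReal_pow (by positivity), ← ENNReal.ofReal_natCast]
          push_cast
          rfl
        rw [← e1, ← ENNReal.ofReal_mul (by positivity), ← ENNReal.ofReal_mul hb0,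
          ← ENNReal.ofReal_pow hq0, ← ENNReal.ofReal_mul (by positivity)]
  refine h3.trans (ENNReal.ofReal_le_ofReal ?_)
  have a1 : (2 * d * p) ^ (2 * j) ≤ Real.exp 5 := by
    have b1 : 2 * d * p ≤ Real.exp (20 / d) := by
      have := Real.add_one_le_exp (20 / (d : ℝ))
      linarith
    calc (2 * d * p) ^ (2 * j) ≤ Real.exp (20 / d) ^ (2 * j) := pow_le_pow_left₀ hq0 b1 _
      _ = Real.exp ((2 * j : ℕ) * (20 / d)) := by rw [← Real.exp_nat_mul]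
      _ ≤ Real.exp 5 := by
        refine Real.exp_le_exp.2 ?_
        rw [← mul_div_assoc, div_le_iff₀ hdR]
        push_cast
        linarith
  have a2 : ((j : ℝ) / (2 * d)) ^ j ≤ Real.exp (2 - d / 4) := by
    have b1 : (j : ℝ) / (2 * d) ≤ 1 / 16 := by
      rw [div_le_div_iff₀ (by positivity) (by norm_num)]
      linarith
    have b2 : (1 / 16 : ℝ) ≤ Real.exp (-2) := by
      have e1 : Real.exp 1 < 2.7182818286 := Real.exp_one_lt_d9
      have e2 : Real.exp 2 = Real.exp 1 * Real.exp 1 := by rw [← Real.exp_add]; norm_num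
      have e3 : Real.exp 2 ≤ 16 := by
        rw [e2]
        nlinarith [Real.exp_pos 1]
      rw [Real.exp_neg, one_div]
      exact inv_anti₀ (Real.exp_pos 2) e3
    calc ((j : ℝ) / (2 * d)) ^ j ≤ Real.exp (-2) ^ j :=
        pow_le_pow_left₀ (by positivity) (b1.trans b2) _
      _ = Real.exp (j * (-2)) := by rw [← Real.exp_nat_mul]
      _ ≤ Real.exp (2 - d / 4) := by
        refine Real.exp_le_exp.2 ?_
        linarith
  have a3 : (4 * j : ℝ) ^ 7 ≤ (d : ℝ) ^ 7 := pow_le_pow_left₀ (by positivity) (by linarith) 7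
  calc (2 * d * p) ^ (2 * j) * ((j / (2 * d)) ^ j * (C * d * (4 * j : ℝ) ^ 7))
      ≤ Real.exp 5 * (Real.exp (2 - d / 4) * (C * d * (d : ℝ) ^ 7)) := by gcongr
    _ = C * (Real.exp 5 * Real.exp (2 - d / 4)) * (d : ℝ) ^ 8 := by ring
    _ = C * Real.exp 7 * (d : ℝ) ^ 8 * Real.exp (-(d / 4 : ℝ)) := by
      have e : Real.exp 5 * Real.exp (2 - d / 4) = Real.exp 7 * Real.exp (-(d / 4 : ℝ)) := by
        rw [← Real.exp_add, ← Real.exp_add]
        congr 1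
        ring
      rw [e]
      ring
    _ ≤ Real.exp (-(d / 8 : ℝ)) := hreal d hdd1

end Pool.Agent.HD
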