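import Pool.Agent.Lib.MP_8ca597_hd.B33
import Pool.Agent.Lib.MP_8ca597_hd.B34

/-!
# Row B39: the random walk estimates in the form used by part B
-/

set_option autoImplicit false

namespace Pool.Agent.HD

open Finset
open scoped ENNReal

variable {d m : ℕ}

theorem tsum_DD (hd : 1 ≤ d) (n : ℕ) : ∑' x : Vx d, cpw (DD d) n x = 1 :=
  tsum_cpw_DD hd n

theorem DD_supp (n : ℕ) (x : Vx d) (hx : cpw (DD d) n x ≠ 0) : nm x ≤ n :=
  cpw_DD_supp hx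

/-- The bound of the transition probabilities. -/
theorem DD_le (hd : 1 ≤ d) (n : ℕ) (x : Vx d) :
    cpw (DD d) n x ≤ ENNReal.ofReal (((n / 2 : ℕ) / (2 * d : ℝ)) ^ (n / 2)) :=
  (cpw_DD_le_even hd n x).trans (cpw_DD_pow hd (n / 2))

/-- For all positive times. -/
theorem DD_le_one (hd : 1 ≤ d) (n : ℕ) (hn : 1 ≤ n) (x : Vx d) :
    cpw (DD d) n x ≤ ENNReal.ofReal (1 / (2 * d)) := by
  refine (cpw_DD_le hd hn x).trans (le_of_eq ?_)
  have hd' : (0 : ℝ) < 2 * d := by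
    have : (0 : ℝ) < d := by exact_mod_cast hd
    linarith
  rw [one_div, ENNReal.ofReal_inv_of_pos hd', ENNReal.ofReal_mul (by norm_num)]
  simp

/-- Iteration of `RW`. -/
theorem rw_iter {p : ℝ} (hp : 0 ≤ p) (hp1 : p ≤ 1) (hd : 1 ≤ d) (K : ℕ) (x : Vx d) : tt p x ≤
    ∑ n ∈ range K, ENNReal.ofReal (2 * d * p) ^ n * cpw (DD d) n x +
      ENNReal.ofReal (2 * d * p) ^ K * cv (cpw (DD d) K) (tt p) x :=
  tt_iter hd hp hp1 K x

/-- The remainder for `K = 2 (d / 8)`. -/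
theorem rw_rem (m : ℕ) (C : ℝ) : ∃ d0 : ℕ, ∀ d : ℕ, d0 ≤ d → ∀ (h : m ≤ d) (p : ℝ), 0 ≤ p →
    p ≤ 1 → 2 * d * p ≤ 1 + 20 / d →
    (∀ R : ℕ, 1 ≤ R → Vv h (tt p) R ≤ ENNReal.ofReal (C * d) * R ^ 7) →
    ∀ x : Vx d, nm x ≤ 2 * (d / 8) →
      ENNReal.ofReal (2 * d * p) ^ (2 * (d / 8)) * cv (cpw (DD d) (2 * (d / 8))) (tt p) x ≤
        ENNReal.ofReal (Real.exp (-(d / 8 : ℝ))) := by
  obtain ⟨d0, -, hd0⟩ := rem_le (max C 1) (lt_of_lt_of_le one_pos (le_max_right _ _))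
  refine ⟨d0, ?_⟩
  intro d hd h p hp _ hq hV x hx
  refine hd0 d hd m h p hp hq (tt p) ?_ x hx
  intro R hR
  refine (hV R hR).trans (mul_le_mul' (ENNReal.ofReal_le_ofReal ?_) le_rfl)
  exact mul_le_mul_of_nonneg_right (le_max_left _ _) (by positivity)

end Pool.Agent.HD
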