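import Pool.Agent.Lib.MP_8ca597_hd.B01

/-!
# Row B40: perturbation of convolution powers

`cpw_split`: `g = tr L g + trc L g`, induction on `k`:
`cpw g (k+2) = cv (tr L g) (cpw g (k+1)) + cv (trc L g) (cpw g (k+1))`, in the first term use the
induction hypothesis, `cv_add`, `cv_smul` and `cv (tr L g) (cv (trc L g) (cpw g k)) =
cv (trc L g) (cv (tr L g) (cpw g k)) ≤ cv (trc L g) (cpw g (k+1))`.
`cpw_pert`: induction on `k`: `cpw u (k+2) ≤ cv w (cpw u (k+1)) + cv E (cpw u (k+1))`, and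
`cv E v ≤ ε ∑ v`, `cv w (const) ≤ (∑ w) const`.
-/

set_option autoImplicit false

namespace Pool.Agent.HD

open Finset
open scoped ENNReal

/-- Truncation. -/
noncomputable def tr {n : ℕ} (L : ℕ) (g : Vx n → ℝ≥0∞) (x : Vx n) : ℝ≥0∞ :=
  if nm x ≤ L then g x else 0

/-- The rest. -/
noncomputable def trc {n : ℕ} (L : ℕ) (g : Vx n → ℝ≥0∞) (x : Vx n) : ℝ≥0∞ :=
  if nm x ≤ L then 0 else g x

variable {n : ℕ}

theorem tr_add_trc (L : ℕ) (g : Vx n → ℝ≥0∞) (x : Vx n) : tr L g x + trc L g x = g x := by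
  unfold tr trc
  split_ifs <;> simp

private theorem B40_tr_le (L : ℕ) (g : Vx n → ℝ≥0∞) (x : Vx n) : tr L g x ≤ g x := by
  unfold tr
  split_ifs <;> simp

theorem cpw_split (L : ℕ) (g : Vx n → ℝ≥0∞) (k : ℕ) (x : Vx n) :
    cpw g (k + 1) x ≤ cpw (tr L g) (k + 1) x + (k + 1) * cv (trc L g) (cpw g k) x := by
  induction k generalizing x with
  | zero =>
    have h1 : cpw g (0 + 1) = g := cpw_one g
    have h2 : cpw (tr L g) (0 + 1) = tr L g := cpw_one _
    have h3 : cv (trc L g) (cpw g 0) = trc L g := cv_dl _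
    rw [h1, h2, h3, Nat.cast_zero, zero_add, one_mul, tr_add_trc]
  | succ k ih =>
    have h1 : cpw g (k + 1 + 1) x = cv (tr L g) (cpw g (k + 1)) x +
        cv (trc L g) (cpw g (k + 1)) x := by
      rw [← add_cv]
      show cv g (cpw g (k + 1)) x = _
      congr 1
      funext y
      exact (tr_add_trc L g y).symm
    have h2 : cv (tr L g) (cpw g (k + 1)) x ≤ cpw (tr L g) (k + 1 + 1) x +
        (k + 1) * cv (trc L g) (cpw g (k + 1)) x := by
      calc cv (tr L g) (cpw g (k + 1)) x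
          ≤ cv (tr L g) (fun y => cpw (tr L g) (k + 1) y +
              (k + 1) * cv (trc L g) (cpw g k) y) x := cv_mono (fun _ => le_rfl) ih x
        _ = cv (tr L g) (cpw (tr L g) (k + 1)) x +
              (k + 1) * cv (tr L g) (cv (trc L g) (cpw g k)) x := by
            rw [cv_add, cv_smul]
        _ = cpw (tr L g) (k + 1 + 1) x +
              (k + 1) * cv (trc L g) (cv (tr L g) (cpw g k)) x := by
            rw [← cv_assoc (tr L g), cv_comm (tr L g) (trc L g), cv_assoc]
            rfl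
        _ ≤ _ := by
            gcongr
            exact cv_mono (fun _ => le_rfl) (fun y => cv_mono (B40_tr_le L g)
              (fun _ => le_rfl) y) x
    rw [h1]
    calc cv (tr L g) (cpw g (k + 1)) x + cv (trc L g) (cpw g (k + 1)) x
        ≤ (cpw (tr L g) (k + 1 + 1) x + (k + 1) * cv (trc L g) (cpw g (k + 1)) x) +
            cv (trc L g) (cpw g (k + 1)) x := by gcongr
      _ = cpw (tr L g) (k + 1 + 1) x + ((k + 1 : ℕ) + 1) * cv (trc L g) (cpw g (k + 1)) x := by
          push_cast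
          ring

theorem cpw_pert {u w E : Vx n → ℝ≥0∞} {ε P : ℝ≥0∞} (h : ∀ x, u x ≤ w x + E x)
    (hE : ∀ x, E x ≤ ε) (hu : ∑' x, u x ≤ P) (hw : ∑' x, w x ≤ P) (k : ℕ) (x : Vx n) :
    cpw u (k + 1) x ≤ cpw w (k + 1) x + (k + 1) * ε * P ^ k := by
  induction k generalizing x with
  | zero =>
    have h1 : cpw u (0 + 1) = u := cpw_one u
    have h2 : cpw w (0 + 1) = w := cpw_one w
    rw [h1, h2, Nat.cast_zero, zero_add, one_mul, pow_zero, mul_one]
    exact (h x).trans (by gcongr; exact hE x)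
  | succ k ih =>
    have h1 : cpw u (k + 1 + 1) x ≤ cv w (cpw u (k + 1)) x + cv E (cpw u (k + 1)) x := by
      rw [← add_cv]
      exact cv_mono h (fun _ => le_rfl) x
    have h2 : cv E (cpw u (k + 1)) x ≤ P ^ (k + 1) * ε := by
      rw [cv_comm]
      refine (cv_le_sup _ _ hE x).trans ?_
      rw [tsum_cpw]
      gcongr
    have h3 : cv w (cpw u (k + 1)) x ≤ cpw w (k + 1 + 1) x + P * ((k + 1) * ε * P ^ k) := by
      calc cv w (cpw u (k + 1)) x
          ≤ cv w (fun y => cpw w (k + 1) y + (fun _ => (k + 1) * ε * P ^ k) y) x :=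
            cv_mono (fun _ => le_rfl) ih x
        _ = cv w (cpw w (k + 1)) x + cv w (fun _ => (k + 1) * ε * P ^ k) x := by
            rw [cv_add]
        _ ≤ _ := by
            refine add_le_add le_rfl ?_
            refine (cv_le_sup _ _ (fun _ => le_rfl) x).trans ?_
            gcongr
    calc cpw u (k + 1 + 1) x ≤ cv w (cpw u (k + 1)) x + cv E (cpw u (k + 1)) x := h1
      _ ≤ (cpw w (k + 1 + 1) x + P * ((k + 1) * ε * P ^ k)) + P ^ (k + 1) * ε :=
          add_le_add h3 h2
      _ = cpw w (k + 1 + 1) x + ((k + 1 : ℕ) + 1) * ε * P ^ (k + 1) := by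
          push_cast
          ring

end Pool.Agent.HD
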