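import Pool.Agent.Lib.MP_8ca597_hd.B29

/-!
# The end statements of the decay section in the form of the interface
-/

set_option autoImplicit false

namespace Pool.Agent.HD

open Finset
open scoped ENNReal

variable {d m : ℕ}

/-- Iteration of `t k ≤ (μ r * t) k`. -/
theorem le_nu_cv {M0 : ℝ} {μ : ℕ → Vx m → ℝ≥0∞} (_hm : 1 ≤ m) (hμ : IsFace M0 μ) (J : ℕ)
    {t : Vx m → ℝ≥0∞}
    (ht : ∀ r : ℕ, 1 ≤ r → r < 2 ^ (J + 1) → ∀ k, r ≤ nm k → t k ≤ cv (μ r) t k) (k : Vx m)
    (hk : 64 * m * 2 ^ J ≤ nm k) : t k ≤ cv (nu μ J) t k := iter hμ ht k hk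

theorem tpj_le_mu {p : ℝ} (hp : 0 ≤ p) (hp1 : p ≤ 1) (_hm : 1 ≤ m) (h : m ≤ d) (r : ℕ)
    (hr : 1 ≤ r) (k : Vx m) (hk : r ≤ nm k) :
    tpj h (tt p) k ≤ cv (mu p h r) (tpj h (tt p)) k := tpj_tt_le hp hp1 h hr hk

/-- The exit measures of the boxes of radius `< N`. -/
theorem mu_isFace_cut (p : ℝ) (h : m ≤ d) {M0 : ℝ} (N : ℕ)
    (hM : ∀ r : ℕ, 1 ≤ r → r < N → flux p (Sm h r) 0 ≤ ENNReal.ofReal M0) :
    IsFace M0 (fun r => if r < N then mu p h r else 0) where
  perm r k π := by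
    by_cases hr : r < N
    · simp only [if_pos hr]
      exact mu_perm p h r k π
    · simp only [if_neg hr, Pi.zero_apply]
  refl r k i := by
    by_cases hr : r < N
    · simp only [if_pos hr]
      exact mu_refl p h r k i
    · simp only [if_neg hr, Pi.zero_apply]
  supp r k h1 hk := by
    by_cases hr : r < N
    · simp only [if_pos hr] at hk
      exact mu_supp p h h1 hk
    · simp only [if_neg hr, Pi.zero_apply, ne_eq, not_true_eq_false] at hk
  mass r h1 := by
    by_cases hr : r < N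
    · simp only [if_pos hr]
      rw [mu_mass]
      exact hM r h1 hr
    · simp only [if_neg hr, Pi.zero_apply, tsum_zero, zero_le]

end Pool.Agent.HD
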