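import Pool.Agent.Lib.MP_8ca597_hd.B07
import Pool.Agent.Lib.MP_8ca597_hd.B19
import Pool.Agent.Lib.MP_8ca597_hd.B39
import Pool.Agent.Lib.MP_8ca597_hd.BY

/-!
# Interface of the Fourier lemma, of the decay estimates and of the random walk estimates
-/
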