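import Pool.Agent.Lib.MP_8ca597_hd.B40
import Pool.Agent.Lib.MP_8ca597_hd.BX

/-!
# Row B41: tails of convolutions in the class `Dc`; powers of the weighted two-point function

`Dc.tail`: split the `y` with `nm y > L` into the shells `2^i L < nm y ≤ 2^(i+1) L`. There
`nm (x - y) ≥ nm y - nm x ≥ nm y / 2 ≥ 2^i L / 2`, so `g' (x - y) ≤ A' (2^i L / 2)^(-a')` by `Dc.sup`,
and the sum of `g` over the shell is at most `Vv h g (2^(i+1) L) ≤ A (2^(i+1) L)^α` (`nm (pj h y) ≤ nm y`).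
The sum over `i` is geometric (ratio `2^(α - a') ≤ 1/4`).
`dc_pow4`: `k = 0`: `dl_dc`; `k = 1`: `Dc.mono`; `k = 2`: `dc_cv` with exponents `10, 10`, `a = m - 11`:
growth `31`, decay `m - 31`; `k = 3`: `dc_cv` with `31, 10`, `a = m - 31`: growth `72`, decay `m - 72`;
`k = 4 = 2 + 2`: `31, 31`, `a = m - 31`: growth `93`, decay `m - 93`. Constants: use the maximum of
the finitely many constants, `d ≥ m ≥ 1`.
-/

set_option autoImplicit false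

namespace Pool.Agent.HD

open Finset
open scoped ENNReal

private theorem B41_nm_sub {d : ℕ} (x y : Vx d) : nm y ≤ nm (x - y) + nm x := by
  unfold nm
  refine Finset.sup_le fun i _ => ?_
  have h1 : ((x - y) i).natAbs ≤ univ.sup fun i => ((x - y) i).natAbs :=
    Finset.le_sup (f := fun i => ((x - y) i).natAbs) (mem_univ i)
  have h2 : (x i).natAbs ≤ univ.sup fun i => (x i).natAbs :=
    Finset.le_sup (f := fun i => (x i).natAbs) (mem_univ i)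
  have h3 : (y i).natAbs ≤ ((x - y) i).natAbs + (x i).natAbs := by
    rw [Pi.sub_apply]
    omega
  omega

private theorem B41_nm_pj {d m : ℕ} (h : m ≤ d) (y : Vx d) : nm (pj h y) ≤ nm y := by
  unfold nm pj
  refine Finset.sup_le fun i _ => ?_
  exact Finset.le_sup (f := fun i => (y i).natAbs) (mem_univ (Fin.castLE h i))

private theorem B41_shell {L n : ℕ} (hL : 1 ≤ L) (h : L < n) :
    ∃ i : ℕ, 2 ^ i * L < n ∧ n ≤ 2 ^ (i + 1) * L := by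
  classical
  have hex : ∃ i : ℕ, n ≤ 2 ^ (i + 1) * L := by
    refine ⟨n, ?_⟩
    have h1 : n < 2 ^ n := Nat.lt_two_pow_self
    have h2 : 2 ^ n ≤ 2 ^ (n + 1) := Nat.pow_le_pow_right (by norm_num) (Nat.le_succ n)
    calc n ≤ 2 ^ (n + 1) * 1 := by omega
      _ ≤ 2 ^ (n + 1) * L := Nat.mul_le_mul_left _ hL
  refine ⟨Nat.find hex, ?_, Nat.find_spec hex⟩
  rcases Nat.eq_zero_or_pos (Nat.find hex) with h0 | h0
  · rw [h0, pow_zero, one_mul]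
    exact h
  · have h1 := Nat.find_min hex (Nat.sub_lt h0 Nat.one_pos)
    rw [Nat.sub_add_cancel h0] at h1
    omega

theorem Dc.tail (m α a' : ℕ) (hm : 1 ≤ m) (h2 : α + 2 ≤ a') : ∃ C : ℝ, 0 < C ∧
    ∀ (d : ℕ) (h : m ≤ d) (g g' : Vx d → ℝ≥0∞) (A A' : ℝ≥0∞) (a α' : ℕ), Dc h g A α a →
      Dc h g' A' α' a' → ∀ L : ℕ, 1 ≤ L → ∀ x : Vx d, 2 * nm x ≤ L →
      cv (trc L g) g' x * (L : ℝ≥0∞) ^ (a' - α) ≤ ENNReal.ofReal C * A * A' := by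
  classical
  refine ⟨2 ^ (a' + α + 1), by positivity, ?_⟩
  intro d h g g' A A' a α' hg hg' L hL x hx
  let S : ℕ → Vx d → ℝ≥0∞ := fun i y =>
    if 2 ^ i * L < nm y ∧ nm y ≤ 2 ^ (i + 1) * L then g y * g' (x - y) else 0
  have hpt : ∀ y, trc L g y * g' (x - y) ≤ ∑' i, S i y := by
    intro y
    unfold trc
    split_ifs with hy
    · rw [zero_mul]
      exact zero_le
    · obtain ⟨i, hi⟩ := B41_shell hL (not_le.1 hy)
      refine le_trans ?_ (ENNReal.le_tsum i)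
      show _ ≤ if _ then _ else _
      rw [if_pos hi]
  have hsum : cv (trc L g) g' x ≤ ∑' i, ∑' y, S i y := by
    rw [ENNReal.tsum_comm]
    exact ENNReal.tsum_le_tsum hpt
  have hL0 : (L : ℝ≥0∞) ≠ 0 := by
    have : L ≠ 0 := by omega
    exact_mod_cast this
  have hLt : (L : ℝ≥0∞) ≠ ∞ := ENNReal.natCast_ne_top L
  have hshell : ∀ i, (∑' y, S i y) * (L : ℝ≥0∞) ^ (a' - α) ≤
      2 ^ (a' + α) * A * A' * (2⁻¹ : ℝ≥0∞) ^ i := by
    intro i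
    set Y : ℝ≥0∞ := ((2 : ℝ≥0∞) ^ i * L) ^ a' with hYdef
    have hY0 : Y ≠ 0 := pow_ne_zero _ (mul_ne_zero (pow_ne_zero _ (by norm_num)) hL0)
    have hYt : Y ≠ ∞ := ENNReal.pow_ne_top (ENNReal.mul_ne_top (ENNReal.pow_ne_top (by norm_num)) hLt)
    have hg'y : ∀ y, 2 ^ i * L < nm y → g' (x - y) ≤ 2 ^ a' * A' * Y⁻¹ := by
      intro y hy
      have h3 : nm y ≤ 2 * nm (x - y) := by
        have h4 := B41_nm_sub x y
        have h5 : L ≤ 2 ^ i * L := Nat.le_mul_of_pos_left L (by positivity)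
        omega
      have h6 : (2 : ℝ≥0∞) ^ i * L ≤ 2 * (nm (x - y) : ℝ≥0∞) := by
        exact_mod_cast hy.le.trans h3
      have h7 : g' (x - y) * Y ≤ 2 ^ a' * A' := by
        calc g' (x - y) * Y ≤ g' (x - y) * (2 * (nm (x - y) : ℝ≥0∞)) ^ a' := by
              rw [hYdef]
              gcongr
          _ = 2 ^ a' * (g' (x - y) * (nm (x - y) : ℝ≥0∞) ^ a') := by
              rw [mul_pow]
              ring
          _ ≤ 2 ^ a' * A' := by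
              gcongr
              exact hg'.sup hm (x - y)
      rw [← div_eq_mul_inv]
      exact (ENNReal.le_div_iff_mul_le (Or.inl hY0) (Or.inl hYt)).2 h7
    have hgV : ∑' y, (if 2 ^ i * L < nm y ∧ nm y ≤ 2 ^ (i + 1) * L then g y else 0) ≤
        A * (2 ^ (i + 1) * (L : ℝ≥0∞)) ^ α := by
      have h3 := hg.vol (2 ^ (i + 1) * L) (Nat.one_le_iff_ne_zero.2 (Nat.mul_ne_zero
        (by positivity) (by omega)))
      push_cast at h3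
      refine le_trans (ENNReal.tsum_le_tsum fun y => ?_) h3
      by_cases h4 : 2 ^ i * L < nm y ∧ nm y ≤ 2 ^ (i + 1) * L
      · rw [if_pos h4, if_pos ((B41_nm_pj h y).trans h4.2)]
      · rw [if_neg h4]
        exact zero_le
    have hS : ∑' y, S i y ≤ (A * (2 ^ (i + 1) * (L : ℝ≥0∞)) ^ α) * (2 ^ a' * A' * Y⁻¹) := by
      refine le_trans ?_ (mul_le_mul_left hgV _)
      rw [← ENNReal.tsum_mul_right]
      refine ENNReal.tsum_le_tsum fun y => ?_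
      show (if _ then _ else _) ≤ _
      split_ifs with h4
      · gcongr
        exact hg'y y h4.1
      · exact zero_le
    have hbr : ((2 : ℝ≥0∞) ^ i * L) ^ α * (L : ℝ≥0∞) ^ (a' - α) * Y⁻¹ ≤ (2⁻¹ : ℝ≥0∞) ^ i := by
      rw [← div_eq_mul_inv, ENNReal.div_le_iff hY0 hYt]
      have h3 : Y = ((2 : ℝ≥0∞) ^ i * L) ^ α * ((2 : ℝ≥0∞) ^ i * L) ^ (a' - α) := by
        rw [hYdef, ← pow_add]
        congr 1
        omega
      rw [h3, mul_pow ((2 : ℝ≥0∞) ^ i) (L : ℝ≥0∞) (a' - α)]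
      have h4 : (1 : ℝ≥0∞) ≤ (2⁻¹ : ℝ≥0∞) ^ i * ((2 : ℝ≥0∞) ^ i) ^ (a' - α) := by
        have h5 : ((2 : ℝ≥0∞) ^ i) ≤ ((2 : ℝ≥0∞) ^ i) ^ (a' - α) := by
          have h6 : (1 : ℝ≥0∞) ≤ 2 ^ i := one_le_pow₀ (by norm_num)
          calc (2 : ℝ≥0∞) ^ i = ((2 : ℝ≥0∞) ^ i) ^ 1 := (pow_one _).symm
            _ ≤ ((2 : ℝ≥0∞) ^ i) ^ (a' - α) := pow_le_pow_right₀ h6 (by omega)
        calc (1 : ℝ≥0∞) = (2⁻¹ : ℝ≥0∞) ^ i * (2 : ℝ≥0∞) ^ i := by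
              rw [← mul_pow, ENNReal.inv_mul_cancel (by norm_num) (by norm_num), one_pow]
          _ ≤ _ := by gcongr
      calc ((2 : ℝ≥0∞) ^ i * L) ^ α * (L : ℝ≥0∞) ^ (a' - α)
          = 1 * (((2 : ℝ≥0∞) ^ i * L) ^ α * (L : ℝ≥0∞) ^ (a' - α)) := (one_mul _).symm
        _ ≤ ((2⁻¹ : ℝ≥0∞) ^ i * ((2 : ℝ≥0∞) ^ i) ^ (a' - α)) *
              (((2 : ℝ≥0∞) ^ i * L) ^ α * (L : ℝ≥0∞) ^ (a' - α)) := by gcongr
        _ = _ := by ring
    calc (∑' y, S i y) * (L : ℝ≥0∞) ^ (a' - α)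
        ≤ ((A * (2 ^ (i + 1) * (L : ℝ≥0∞)) ^ α) * (2 ^ a' * A' * Y⁻¹)) *
            (L : ℝ≥0∞) ^ (a' - α) := by gcongr
      _ = 2 ^ (a' + α) * A * A' *
            (((2 : ℝ≥0∞) ^ i * L) ^ α * (L : ℝ≥0∞) ^ (a' - α) * Y⁻¹) := by
          have e : (2 : ℝ≥0∞) ^ (i + 1) * (L : ℝ≥0∞) = 2 * ((2 : ℝ≥0∞) ^ i * L) := by ring
          rw [e, mul_pow 2, pow_add 2 a' α]
          ring
      _ ≤ _ := by gcongr
  calc cv (trc L g) g' x * (L : ℝ≥0∞) ^ (a' - α)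
      ≤ (∑' i, ∑' y, S i y) * (L : ℝ≥0∞) ^ (a' - α) := by gcongr
    _ = ∑' i, (∑' y, S i y) * (L : ℝ≥0∞) ^ (a' - α) := ENNReal.tsum_mul_right.symm
    _ ≤ ∑' i : ℕ, 2 ^ (a' + α) * A * A' * (2⁻¹ : ℝ≥0∞) ^ i := ENNReal.tsum_le_tsum hshell
    _ = 2 ^ (a' + α) * A * A' * 2 := by
        rw [ENNReal.tsum_mul_left, ENNReal.tsum_geometric, ENNReal.one_sub_inv_two, inv_inv]
    _ = ENNReal.ofReal (2 ^ (a' + α + 1)) * A * A' := by
        rw [ENNReal.ofReal_pow (by norm_num), ENNReal.ofReal_ofNat, pow_succ]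
        ring

theorem dc_pow4 (m : ℕ) (hm : 300 ≤ m) (C : ℝ) : ∃ C' : ℝ, 0 < C' ∧
    ∀ (d : ℕ) (h : m ≤ d) (p : ℝ), Dc h (tw p) (ENNReal.ofReal (C * d ^ 2)) 10 (m - 11) →
      ∀ k ≤ 4, Dc h (cpw (tw p) k) (ENNReal.ofReal (C' * d ^ 8)) 100 (m - 100) := by
  obtain ⟨C₂, hC₂, H₂⟩ := dc_cv m 10 10 (m - 11) (by omega) (by omega)
  obtain ⟨C₃, hC₃, H₃⟩ := dc_cv m 10 31 (m - 31) (by omega) (by omega)
  obtain ⟨C₄, hC₄, H₄⟩ := dc_cv m 31 31 (m - 31) (by omega) (by omega)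
  set C₁ : ℝ := max C 1 with hC₁def
  have hC₁ : 1 ≤ C₁ := le_max_right _ _
  have hC₁0 : 0 < C₁ := by linarith
  refine ⟨1 + C₁ + C₂ * C₁ ^ 2 + C₃ * C₂ * C₁ ^ 3 + C₄ * C₂ ^ 2 * C₁ ^ 4, by positivity, ?_⟩
  intro d h p hT k hk
  set C' : ℝ := 1 + C₁ + C₂ * C₁ ^ 2 + C₃ * C₂ * C₁ ^ 3 + C₄ * C₂ ^ 2 * C₁ ^ 4 with hC'
  have hd : (1 : ℝ) ≤ d := by
    have : 1 ≤ d := by omega
    exact_mod_cast this
  have hd0 : (0 : ℝ) ≤ d := by linarith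
  have hpow : ∀ j ≤ 8, (d : ℝ) ^ j ≤ (d : ℝ) ^ 8 := fun j hj => pow_le_pow_right₀ hd hj
  have p1 : 0 ≤ C₁ := hC₁0.le
  have p2 : 0 ≤ C₂ * C₁ ^ 2 := by positivity
  have p3 : 0 ≤ C₃ * C₂ * C₁ ^ 3 := by positivity
  have p4 : 0 ≤ C₄ * C₂ ^ 2 * C₁ ^ 4 := by positivity
  have hT1 : Dc h (tw p) (ENNReal.ofReal (C₁ * d ^ 2)) 10 (m - 11) := by
    refine hT.mono (ENNReal.ofReal_le_ofReal ?_) le_rfl le_rfl (by omega)
    exact mul_le_mul_of_nonneg_right (le_max_left _ _) (by positivity)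
  have e1 : cpw (tw p) 1 = (tw p : Vx d → ℝ≥0∞) := cpw_one _
  have hT2 : Dc h (cpw (tw p) 2) (ENNReal.ofReal (C₂ * C₁ ^ 2 * d ^ 4)) 31 (m - 31) := by
    have h1 := H₂ d h (tw p) (tw p) _ _ hT1 hT1
    have e2 : cpw (tw p) 2 = cv (tw p) (tw p : Vx d → ℝ≥0∞) := by
      show cv (tw p) (cpw (tw p) 1) = _
      rw [e1]
    have e3 : 10 + 10 + (m - (m - 11)) = 31 := by omega
    have e4 : m - 11 - 10 - 10 = m - 31 := by omega
    rw [e2]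
    rw [e3, e4, ← ENNReal.ofReal_mul hC₂.le, ← ENNReal.ofReal_mul (by positivity)] at h1
    have e5 : C₂ * (C₁ * (d : ℝ) ^ 2) * (C₁ * (d : ℝ) ^ 2) = C₂ * C₁ ^ 2 * (d : ℝ) ^ 4 := by ring
    rw [e5] at h1
    exact h1
  have hT3 : Dc h (cpw (tw p) 3) (ENNReal.ofReal (C₃ * C₂ * C₁ ^ 3 * d ^ 6)) 72 (m - 72) := by
    have h1 := H₃ d h (tw p) (cpw (tw p) 2) _ _
      (hT1.mono le_rfl le_rfl (by omega : m - 31 ≤ m - 11) (by omega)) hT2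
    have e2 : cpw (tw p) 3 = cv (tw p) (cpw (tw p) 2 : Vx d → ℝ≥0∞) := rfl
    have e3 : 10 + 31 + (m - (m - 31)) = 72 := by omega
    have e4 : m - 31 - 10 - 31 = m - 72 := by omega
    rw [e2]
    rw [e3, e4, ← ENNReal.ofReal_mul hC₃.le, ← ENNReal.ofReal_mul (by positivity)] at h1
    have e5 : C₃ * (C₁ * (d : ℝ) ^ 2) * (C₂ * C₁ ^ 2 * (d : ℝ) ^ 4) =
        C₃ * C₂ * C₁ ^ 3 * (d : ℝ) ^ 6 := by ring
    rw [e5] at h1
    exact h1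
  have hT4 : Dc h (cpw (tw p) 4) (ENNReal.ofReal (C₄ * C₂ ^ 2 * C₁ ^ 4 * d ^ 8)) 93 (m - 93) := by
    have h1 := H₄ d h (cpw (tw p) 2) (cpw (tw p) 2) _ _ hT2 hT2
    have e2 : cpw (tw p) 4 = cv (cpw (tw p) 2) (cpw (tw p) 2 : Vx d → ℝ≥0∞) :=
      cpw_add (tw p) 2 2
    have e3 : 31 + 31 + (m - (m - 31)) = 93 := by omega
    have e4 : m - 31 - 31 - 31 = m - 93 := by omega
    rw [e2]
    rw [e3, e4, ← ENNReal.ofReal_mul hC₄.le, ← ENNReal.ofReal_mul (by positivity)] at h1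
    have e5 : C₄ * (C₂ * C₁ ^ 2 * (d : ℝ) ^ 4) * (C₂ * C₁ ^ 2 * (d : ℝ) ^ 4) =
        C₄ * C₂ ^ 2 * C₁ ^ 4 * (d : ℝ) ^ 8 := by ring
    rw [e5] at h1
    exact h1
  have hd8 : (0 : ℝ) ≤ (d : ℝ) ^ 8 := by positivity
  interval_cases k
  · have h0 : (1 : ℝ≥0∞) ≤ ENNReal.ofReal (C' * d ^ 8) := by
      rw [← ENNReal.ofReal_one]
      refine ENNReal.ofReal_le_ofReal ?_
      have h1 : (1 : ℝ) ≤ (d : ℝ) ^ 8 := one_le_pow₀ hd
      have h2 : (1 : ℝ) ≤ C' := by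
        rw [hC']
        linarith
      nlinarith
    exact (dl_dc h 100 (m - 100) (by omega)).mono h0 le_rfl le_rfl (by omega)
  · rw [e1]
    refine hT1.mono (ENNReal.ofReal_le_ofReal ?_) (by norm_num) (by omega) (by omega)
    calc C₁ * (d : ℝ) ^ 2 ≤ C₁ * (d : ℝ) ^ 8 :=
          mul_le_mul_of_nonneg_left (hpow 2 (by norm_num)) p1
      _ ≤ C' * (d : ℝ) ^ 8 := mul_le_mul_of_nonneg_right (by rw [hC']; linarith) hd8
  · refine hT2.mono (ENNReal.ofReal_le_ofReal ?_) (by norm_num) (by omega) (by omega)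
    calc C₂ * C₁ ^ 2 * (d : ℝ) ^ 4 ≤ C₂ * C₁ ^ 2 * (d : ℝ) ^ 8 :=
          mul_le_mul_of_nonneg_left (hpow 4 (by norm_num)) p2
      _ ≤ C' * (d : ℝ) ^ 8 := mul_le_mul_of_nonneg_right (by rw [hC']; linarith) hd8
  · refine hT3.mono (ENNReal.ofReal_le_ofReal ?_) (by norm_num) (by omega) (by omega)
    calc C₃ * C₂ * C₁ ^ 3 * (d : ℝ) ^ 6 ≤ C₃ * C₂ * C₁ ^ 3 * (d : ℝ) ^ 8 :=
          mul_le_mul_of_nonneg_left (hpow 6 (by norm_num)) p3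
      _ ≤ C' * (d : ℝ) ^ 8 := mul_le_mul_of_nonneg_right (by rw [hC']; linarith) hd8
  · refine hT4.mono (ENNReal.ofReal_le_ofReal ?_) (by norm_num) (by omega) (by omega)
    exact mul_le_mul_of_nonneg_right (by rw [hC']; linarith) hd8

end Pool.Agent.HD
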