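import Pool.Agent.Lib.MP_8ca597_hd.BX

/-!
# Row B42: the Green function of the walk

`cpw_GW`: induction on `k`. `(1 + nm x)^2 D^n(x) ≤ (n+1)^2 D^n(x)` (`DD_supp`);
`cv (D^n) (D^n') = D^(n+n')` (`cpw_add`). For `N = n + n'` there are at most `N + 1` pairs and
`(n+1)^2 (n'+1)^(3k) ≤ (N+1)^(3k+2)`. `cv_GG`: the number of pairs `n, n' < K` with sum `N` is at
most `N + 1`.
-/

set_option autoImplicit false

namespace Pool.Agent.HD

open Finset
open scoped ENNReal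

/-- The Green function of the walk up to the time `K`. -/
noncomputable def GG (d : ℕ) (q : ℝ≥0∞) (K : ℕ) (x : Vx d) : ℝ≥0∞ :=
  ∑ n ∈ range K, q ^ n * cpw (DD d) n x

/-- The weighted Green function. -/
noncomputable def GW (d : ℕ) (q : ℝ≥0∞) (K : ℕ) (x : Vx d) : ℝ≥0∞ :=
  (1 + nm x) ^ 2 * GG d q K x

variable {d : ℕ}

theorem GW_le (q : ℝ≥0∞) (K : ℕ) (x : Vx d) :
    GW d q K x ≤ ∑ n ∈ range K, (n + 1 : ℝ≥0∞) ^ 2 * q ^ n * cpw (DD d) n x := by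
  unfold GW GG
  rw [mul_sum]
  refine sum_le_sum fun n _ => ?_
  rw [← mul_assoc]
  by_cases h : cpw (DD d) n x = 0
  · rw [h, mul_zero, mul_zero]
  · have h1 : (nm x : ℝ≥0∞) ≤ n := by exact_mod_cast DD_supp n x h
    rw [add_comm (1 : ℝ≥0∞)]
    gcongr

theorem tsum_GW_le (hd : 1 ≤ d) (q : ℝ≥0∞) (K : ℕ) :
    ∑' x : Vx d, GW d q K x ≤ ∑ n ∈ range K, (n + 1 : ℝ≥0∞) ^ 2 * q ^ n := by
  calc ∑' x : Vx d, GW d q K x
      ≤ ∑' x : Vx d, ∑ n ∈ range K, (n + 1 : ℝ≥0∞) ^ 2 * q ^ n * cpw (DD d) n x :=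
        ENNReal.tsum_le_tsum fun x => GW_le q K x
    _ = ∑ n ∈ range K, ∑' x : Vx d, (n + 1 : ℝ≥0∞) ^ 2 * q ^ n * cpw (DD d) n x :=
        Summable.tsum_finsetSum fun _ _ => ENNReal.summable
    _ = ∑ n ∈ range K, (n + 1 : ℝ≥0∞) ^ 2 * q ^ n := by
        refine sum_congr rfl fun n _ => ?_
        rw [ENNReal.tsum_mul_left, tsum_DD hd, mul_one]

private theorem B42_conv (a b M : ℕ) (h : a + b ≤ M + 1) (c : ℕ → ℕ → ℝ≥0∞) (C F : ℕ → ℝ≥0∞)
    (hc : ∀ n m, c n m ≤ C (n + m)) :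
    ∑ n ∈ range a, ∑ m ∈ range b, c n m * F (n + m) ≤
      ∑ N ∈ range M, (N + 1 : ℝ≥0∞) * C N * F N := by
  rw [← sum_product']
  have hmaps : ∀ z ∈ range a ×ˢ range b, z.1 + z.2 ∈ range M := by
    intro z hz
    rw [mem_product, mem_range, mem_range] at hz
    rw [mem_range]
    omega
  rw [← sum_fiberwise_of_maps_to hmaps]
  refine sum_le_sum fun N _ => ?_
  have h1 : ∀ z ∈ (range a ×ˢ range b).filter (fun z => z.1 + z.2 = N),
      c z.1 z.2 * F (z.1 + z.2) ≤ C N * F N := by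
    intro z hz
    rw [mem_filter] at hz
    rw [← hz.2]
    gcongr
    exact hc _ _
  have h2 : ((range a ×ˢ range b).filter (fun z => z.1 + z.2 = N)).card ≤ N + 1 := by
    rw [← Finset.Nat.card_antidiagonal N]
    refine card_le_card fun z hz => ?_
    rw [mem_filter] at hz
    exact mem_antidiagonal.2 hz.2
  calc ∑ z ∈ (range a ×ˢ range b).filter (fun z => z.1 + z.2 = N), c z.1 z.2 * F (z.1 + z.2)
      ≤ ((range a ×ˢ range b).filter (fun z => z.1 + z.2 = N)).card • (C N * F N) :=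
        sum_le_card_nsmul _ _ _ h1
    _ = (((range a ×ˢ range b).filter (fun z => z.1 + z.2 = N)).card : ℝ≥0∞) * (C N * F N) := by
        rw [nsmul_eq_mul]
    _ ≤ ((N + 1 : ℕ) : ℝ≥0∞) * (C N * F N) := by
        gcongr
    _ = (N + 1 : ℝ≥0∞) * C N * F N := by
        push_cast
        ring

private theorem B42_cv (s t : Finset ℕ) (u v : ℕ → ℝ≥0∞) (x : Vx d) :
    cv (fun y => ∑ n ∈ s, u n * cpw (DD d) n y) (fun y => ∑ m ∈ t, v m * cpw (DD d) m y) x =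
      ∑ n ∈ s, ∑ m ∈ t, u n * v m * cpw (DD d) (n + m) x := by
  rw [cv_comm, cv_sum]
  refine sum_congr rfl fun n _ => ?_
  rw [cv_comm, cv_sum]
  refine sum_congr rfl fun m _ => ?_
  rw [cv_smul, smul_cv, ← cpw_add]
  ring

theorem cpw_GW (q : ℝ≥0∞) (K k : ℕ) (x : Vx d) : cpw (GW d q K) k x ≤
    ∑ n ∈ range (k * K + 1), (n + 1 : ℝ≥0∞) ^ (3 * k) * q ^ n * cpw (DD d) n x := by
  induction k generalizing x with
  | zero =>
    simp [cpw]
  | succ k ih =>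
    calc cpw (GW d q K) (k + 1) x
        ≤ cv (fun y => ∑ n ∈ range K, ((n + 1 : ℝ≥0∞) ^ 2 * q ^ n) * cpw (DD d) n y)
            (fun y => ∑ n ∈ range (k * K + 1), ((n + 1 : ℝ≥0∞) ^ (3 * k) * q ^ n) *
              cpw (DD d) n y) x := cv_mono (GW_le q K) ih x
      _ = ∑ n ∈ range K, ∑ m ∈ range (k * K + 1), ((n + 1 : ℝ≥0∞) ^ 2 * q ^ n) *
            ((m + 1 : ℝ≥0∞) ^ (3 * k) * q ^ m) * cpw (DD d) (n + m) x := B42_cv _ _ _ _ x
      _ = ∑ n ∈ range K, ∑ m ∈ range (k * K + 1), ((n + 1 : ℝ≥0∞) ^ 2 *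
            (m + 1 : ℝ≥0∞) ^ (3 * k)) * (q ^ (n + m) * cpw (DD d) (n + m) x) := by
          refine sum_congr rfl fun n _ => sum_congr rfl fun m _ => ?_
          rw [pow_add]
          ring
      _ ≤ ∑ N ∈ range ((k + 1) * K + 1), (N + 1 : ℝ≥0∞) * (N + 1 : ℝ≥0∞) ^ (3 * k + 2) *
            (q ^ N * cpw (DD d) N x) := by
          refine B42_conv K (k * K + 1) ((k + 1) * K + 1) ?_
            (fun n m => (n + 1 : ℝ≥0∞) ^ 2 * (m + 1 : ℝ≥0∞) ^ (3 * k))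
            (fun N => (N + 1 : ℝ≥0∞) ^ (3 * k + 2)) (fun N => q ^ N * cpw (DD d) N x) ?_
          · rw [Nat.succ_mul]
            omega
          · intro n m
            have h1 : (n + 1 : ℝ≥0∞) ≤ ((n + m : ℕ) : ℝ≥0∞) + 1 := by
              exact_mod_cast Nat.succ_le_succ (Nat.le_add_right n m)
            have h2 : (m + 1 : ℝ≥0∞) ≤ ((n + m : ℕ) : ℝ≥0∞) + 1 := by
              exact_mod_cast Nat.succ_le_succ (Nat.le_add_left m n)
            calc (n + 1 : ℝ≥0∞) ^ 2 * (m + 1 : ℝ≥0∞) ^ (3 * k)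
                ≤ (((n + m : ℕ) : ℝ≥0∞) + 1) ^ 2 * (((n + m : ℕ) : ℝ≥0∞) + 1) ^ (3 * k) := by
                  gcongr
              _ = (((n + m : ℕ) : ℝ≥0∞) + 1) ^ (3 * k + 2) := by
                  rw [← pow_add, add_comm 2 (3 * k)]
      _ = ∑ n ∈ range ((k + 1) * K + 1), (n + 1 : ℝ≥0∞) ^ (3 * (k + 1)) * q ^ n *
            cpw (DD d) n x := by
          refine sum_congr rfl fun n _ => ?_
          have e : 3 * (k + 1) = 3 * k + 2 + 1 := by ring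
          rw [e, pow_succ _ (3 * k + 2)]
          ring

theorem cv_GG (q : ℝ≥0∞) (K : ℕ) (x : Vx d) : cv (GG d q K) (GG d q K) x ≤
    ∑ n ∈ range (2 * K), (n + 1 : ℝ≥0∞) * q ^ n * cpw (DD d) n x := by
  calc cv (GG d q K) (GG d q K) x
      = ∑ n ∈ range K, ∑ m ∈ range K, q ^ n * q ^ m * cpw (DD d) (n + m) x := B42_cv _ _ _ _ x
    _ = ∑ n ∈ range K, ∑ m ∈ range K, 1 * (q ^ (n + m) * cpw (DD d) (n + m) x) := by
        refine sum_congr rfl fun n _ => sum_congr rfl fun m _ => ?_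
        rw [pow_add, one_mul]
    _ ≤ ∑ N ∈ range (2 * K), (N + 1 : ℝ≥0∞) * 1 * (q ^ N * cpw (DD d) N x) := by
        refine B42_conv K K (2 * K) (by omega) (fun _ _ => 1) (fun _ => 1)
          (fun N => q ^ N * cpw (DD d) N x) (fun _ _ => le_rfl)
    _ = ∑ n ∈ range (2 * K), (n + 1 : ℝ≥0∞) * q ^ n * cpw (DD d) n x := by
        refine sum_congr rfl fun n _ => ?_
        rw [mul_one, mul_assoc]

end Pool.Agent.HD
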