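import Pool.Agent.Lib.MP_8ca597_hd.BX

/-!
# Row B43: sums of transition probabilities

`q^n ≤ (1 + 20/d)^d ≤ e^20` for `n ≤ d` (if `q ≤ 1` trivial). With `j = n / 2 ≤ d / 2`, `j ≥ 1`:
`D^n(x) ≤ (j/(2d))^j ≤ (j/(2d)) 4^(-(j-1))`, for `j ≥ 2` also `≤ (j/(2d))^2 4^(-(j-2))`; the sums of
`(2j+2)^12 j^2 4^(-j)` converge. `n = 1`: `DD_le_one`.
-/

set_option autoImplicit false

namespace Pool.Agent.HD

open Finset
open scoped ENNReal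

private lemma B43_sm (m : ℕ) : Summable fun n : ℕ => ((n : ℝ) + 1) ^ m * (1 / 2 : ℝ) ^ n := by
  have h := summable_pow_mul_geometric_of_norm_lt_one (R := ℝ) m (r := 1 / 2)
    (by rw [Real.norm_eq_abs, abs_of_pos] <;> norm_num)
  have h2 := (summable_nat_add_iff 1).2 h
  have h3 := h2.mul_left 2
  refine h3.congr fun n => ?_
  push_cast
  rw [pow_succ]
  ring

private lemma B43_q {d : ℕ} (hd : 1 ≤ d) {q : ℝ} (hq : 0 ≤ q) (hq1 : q ≤ 1 + 20 / d) {n : ℕ}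
    (hn : n ≤ d) : q ^ n ≤ Real.exp 20 := by
  have hd' : (0 : ℝ) < d := by exact_mod_cast hd
  have hn' : (n : ℝ) ≤ d := by exact_mod_cast hn
  have h1 : q ≤ Real.exp (20 / d) := by
    have := Real.add_one_le_exp (20 / (d : ℝ))
    linarith
  calc q ^ n ≤ Real.exp (20 / d) ^ n := pow_le_pow_left₀ hq h1 n
    _ = Real.exp (n * (20 / d)) := (Real.exp_nat_mul _ _).symm
    _ ≤ Real.exp 20 := by
      refine Real.exp_le_exp.2 ?_
      rw [mul_div_assoc', div_le_iff₀ hd']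
      nlinarith

private lemma B43_t {d : ℕ} (hd : 1 ≤ d) {n k : ℕ} (hn : n ≤ d) (hk : k ≤ n / 2) :
    (((n / 2 : ℕ) : ℝ) / (2 * d)) ^ (n / 2) ≤ 2 * ((n : ℝ) + 1) ^ k * (1 / 2) ^ n / d ^ k := by
  have hd' : (0 : ℝ) < d := by exact_mod_cast hd
  obtain ⟨i, hi⟩ := Nat.exists_eq_add_of_le hk
  have h2 : 2 * (n / 2) ≤ n := Nat.mul_div_le n 2
  have h3 : n ≤ 2 * (n / 2) + 1 := by omega
  have h2' : 2 * ((n / 2 : ℕ) : ℝ) ≤ n := by exact_mod_cast h2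
  have hn' : (n : ℝ) ≤ d := by exact_mod_cast hn
  have hj0 : (0 : ℝ) ≤ ((n / 2 : ℕ) : ℝ) / (2 * d) := by positivity
  have hj1 : ((n / 2 : ℕ) : ℝ) / (2 * d) ≤ 1 / 4 := by
    rw [div_le_iff₀ (by positivity)]
    linarith
  have hj2 : ((n / 2 : ℕ) : ℝ) / (2 * d) ≤ ((n : ℝ) + 1) / d * (1 / 4) := by
    rw [div_le_iff₀ (by positivity)]
    have : ((n : ℝ) + 1) / d * (1 / 4) * (2 * d) = ((n : ℝ) + 1) / 2 := by
      field_simp
      ring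
    rw [this]
    linarith
  have h4 : (1 / 4 : ℝ) ^ (n / 2) ≤ 2 * (1 / 2) ^ n := by
    have e : (1 / 4 : ℝ) ^ (n / 2) = 2 * (1 / 2) ^ (2 * (n / 2) + 1) := by
      rw [pow_succ, pow_mul]
      norm_num
      ring
    rw [e]
    refine mul_le_mul_of_nonneg_left ?_ (by norm_num)
    exact pow_le_pow_of_le_one (by norm_num) (by norm_num) h3
  calc (((n / 2 : ℕ) : ℝ) / (2 * d)) ^ (n / 2)
      = (((n / 2 : ℕ) : ℝ) / (2 * d)) ^ k * (((n / 2 : ℕ) : ℝ) / (2 * d)) ^ i := by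
        rw [← pow_add, ← hi]
    _ ≤ (((n : ℝ) + 1) / d * (1 / 4)) ^ k * (1 / 4) ^ i := by
        refine mul_le_mul (pow_le_pow_left₀ hj0 hj2 k) (pow_le_pow_left₀ hj0 hj1 i)
          (by positivity) (by positivity)
    _ = (((n : ℝ) + 1) ^ k / d ^ k) * (1 / 4) ^ (n / 2) := by
        rw [mul_pow, mul_assoc, ← pow_add, ← hi, div_pow]
    _ ≤ (((n : ℝ) + 1) ^ k / d ^ k) * (2 * (1 / 2) ^ n) :=
        mul_le_mul_of_nonneg_left h4 (by positivity)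
    _ = _ := by ring

private lemma B43_main (a k : ℕ) (h : ∀ d : ℕ, 1 ≤ d → ∀ n, a ≤ n → n ≤ d → ∀ x : Vx d,
      cpw (DD d) n x ≤ ENNReal.ofReal (2 * ((n : ℝ) + 1) ^ k * (1 / 2) ^ n / d ^ k)) :
    ∃ C : ℝ, 0 < C ∧ ∀ d : ℕ, 1 ≤ d → ∀ q : ℝ, 0 ≤ q → q ≤ 1 + 20 / d →
      ∀ x : Vx d, ∑ n ∈ Ico a (d + 1), (n + 1 : ℝ≥0∞) ^ 12 * ENNReal.ofReal q ^ n *
        cpw (DD d) n x ≤ ENNReal.ofReal (C / d ^ k) := by
  have hS := B43_sm (12 + k)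
  have hS0 : 0 ≤ ∑' n : ℕ, ((n : ℝ) + 1) ^ (12 + k) * (1 / 2 : ℝ) ^ n :=
    tsum_nonneg fun n => by positivity
  refine ⟨2 * Real.exp 20 * (∑' n : ℕ, ((n : ℝ) + 1) ^ (12 + k) * (1 / 2 : ℝ) ^ n) + 1,
    by positivity, fun d hd q hq hq1 x => ?_⟩
  have hd' : (0 : ℝ) < d := by exact_mod_cast hd
  have hterm : ∀ n ∈ Ico a (d + 1), (n + 1 : ℝ≥0∞) ^ 12 * ENNReal.ofReal q ^ n *
      cpw (DD d) n x ≤ ENNReal.ofReal (2 * Real.exp 20 / d ^ k *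
        (((n : ℝ) + 1) ^ (12 + k) * (1 / 2 : ℝ) ^ n)) := by
    intro n hn
    rw [mem_Ico] at hn
    have hn1 : n ≤ d := by omega
    have e1 : (n + 1 : ℝ≥0∞) ^ 12 = ENNReal.ofReal (((n : ℝ) + 1) ^ 12) := by
      rw [ENNReal.ofReal_pow (by positivity), ENNReal.ofReal_add (by positivity) zero_le_one]
      simp
    rw [e1, ← ENNReal.ofReal_pow hq]
    calc ENNReal.ofReal (((n : ℝ) + 1) ^ 12) * ENNReal.ofReal (q ^ n) * cpw (DD d) n x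
        ≤ ENNReal.ofReal (((n : ℝ) + 1) ^ 12) * ENNReal.ofReal (Real.exp 20) *
          ENNReal.ofReal (2 * ((n : ℝ) + 1) ^ k * (1 / 2) ^ n / d ^ k) := by
          gcongr
          · exact B43_q hd hq hq1 hn1
          · exact h d hd n hn.1 hn1 x
      _ = ENNReal.ofReal (2 * Real.exp 20 / d ^ k *
        (((n : ℝ) + 1) ^ (12 + k) * (1 / 2 : ℝ) ^ n)) := by
          rw [← ENNReal.ofReal_mul (by positivity), ← ENNReal.ofReal_mul (by positivity)]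
          congr 1
          rw [pow_add]
          ring
  refine (sum_le_sum hterm).trans ?_
  rw [← ENNReal.ofReal_sum_of_nonneg fun n _ => by positivity]
  refine ENNReal.ofReal_le_ofReal ?_
  rw [← mul_sum]
  have h1 : ∑ n ∈ Ico a (d + 1), ((n : ℝ) + 1) ^ (12 + k) * (1 / 2 : ℝ) ^ n ≤
      ∑' n : ℕ, ((n : ℝ) + 1) ^ (12 + k) * (1 / 2 : ℝ) ^ n :=
    hS.sum_le_tsum _ fun n _ => by positivity
  calc 2 * Real.exp 20 / d ^ k * ∑ n ∈ Ico a (d + 1), ((n : ℝ) + 1) ^ (12 + k) * (1 / 2 : ℝ) ^ n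
      ≤ 2 * Real.exp 20 / d ^ k * ∑' n : ℕ, ((n : ℝ) + 1) ^ (12 + k) * (1 / 2 : ℝ) ^ n :=
        mul_le_mul_of_nonneg_left h1 (by positivity)
    _ = (2 * Real.exp 20 * ∑' n : ℕ, ((n : ℝ) + 1) ^ (12 + k) * (1 / 2 : ℝ) ^ n) / d ^ k := by
        ring
    _ ≤ _ := by
        gcongr
        linarith

theorem sum_DD_one : ∃ C : ℝ, 0 < C ∧ ∀ d : ℕ, 1 ≤ d → ∀ q : ℝ, 0 ≤ q → q ≤ 1 + 20 / d →
    ∀ x : Vx d, ∑ n ∈ Ico 1 (d + 1), (n + 1 : ℝ≥0∞) ^ 12 * ENNReal.ofReal q ^ n *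
      cpw (DD d) n x ≤ ENNReal.ofReal (C / d) := by
  have := B43_main 1 1 fun d hd n hn hn1 x => ?_
  · simpa only [pow_one] using this
  · have hd' : (0 : ℝ) < d := by exact_mod_cast hd
    rcases hn.lt_or_eq with h | h
    · refine (DD_le hd n x).trans (ENNReal.ofReal_le_ofReal ?_)
      exact B43_t hd hn1 (by omega)
    · subst h
      refine (DD_le_one hd 1 le_rfl x).trans (ENNReal.ofReal_le_ofReal ?_)
      rw [div_le_div_iff₀ (by positivity) (by positivity)]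
      norm_num
      nlinarith

theorem sum_DD_four : ∃ C : ℝ, 0 < C ∧ ∀ d : ℕ, 1 ≤ d → ∀ q : ℝ, 0 ≤ q → q ≤ 1 + 20 / d →
    ∀ x : Vx d, ∑ n ∈ Ico 4 (d + 1), (n + 1 : ℝ≥0∞) ^ 12 * ENNReal.ofReal q ^ n *
      cpw (DD d) n x ≤ ENNReal.ofReal (C / d ^ 2) :=
  B43_main 4 2 fun _ hd n hn hn1 x =>
    (DD_le hd n x).trans (ENNReal.ofReal_le_ofReal (B43_t hd hn1 (by omega)))

end Pool.Agent.HD
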