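import Pool.Agent.Lib.MP_8ca597_hd.B41
import Pool.Agent.Lib.MP_8ca597_hd.B42
import Pool.Agent.Lib.MP_8ca597_hd.B43

/-!
# Row B44: the weighted two-point function near the origin

Let `K = 2 (d / 8)`, `q = ENNReal.ofReal (2 d p)`. `tt_near`: `rw_iter` and `rw_rem`.
`near_pow`: `cpw_pert` with `u = tr K (tw p)`, `w = GW d q K`, `E = ε = (1 + K)^2 exp(-d/8)`,
`∑ u ≤ (1+K)^2 Vv h (tt p) K ≤ (1+K)^2 C d K^7`, `∑ w ≤ ∑_{n<K} (n+1)^2 q^n ≤ K^3 e^20`
(`tsum_GW_le`), `4 K + 1 ≤ d + 1`, and `sum_DD_one` after `cpw_GW` (the term `n = 0` is `dl x`; the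
exponent `3 k ≤ 12`). The error `k ε P^(k-1)` is `≤ 1 / d` for large `d`.
`near_two`: the same with `u = tr K (tt p)`, `w = GG d q K` and `cv_GG`: the terms `n = 1, 2, 3` are at
most `(2 q + 3 q^2 + 4 q^3) / (2 d)` with `q ≤ 1 + 20/d` (`DD_le_one`), `sum_DD_four` for the others;
the total is at most `4.9 / d` for large `d`.
-/

set_option autoImplicit false

namespace Pool.Agent.HD

open Finset
open scoped ENNReal

/-- The polynomial bounds of part B4. -/
structure Dy {d m : ℕ} (h : m ≤ d) (p C : ℝ) : Prop where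
  vol : ∀ R : ℕ, 1 ≤ R → Vv h (tt p) R ≤ ENNReal.ofReal (C * d) * R ^ 7
  dc : Dc h (tw p) (ENNReal.ofReal (C * d ^ 2)) 10 (m - 11)

/-- The exponential beats the powers. -/
private theorem B44_ev (A : ℝ) (N : ℕ) {δ : ℝ} (hδ : 0 < δ) : ∃ d0 : ℕ, ∀ d : ℕ, d0 ≤ d →
    A * (d : ℝ) ^ N * Real.exp (-(d / 8 : ℝ)) ≤ δ / d := by
  have h1 := Real.tendsto_pow_mul_exp_neg_atTop_nhds_zero (N + 1)
  have h2 : Filter.Tendsto (fun d : ℕ => (d / 8 : ℝ)) Filter.atTop Filter.atTop :=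
    Filter.Tendsto.atTop_div_const (by norm_num) tendsto_natCast_atTop_atTop
  have h3 : Filter.Tendsto (fun d : ℕ => A * 8 ^ (N + 1) *
      ((d / 8 : ℝ) ^ (N + 1) * Real.exp (-(d / 8 : ℝ)))) Filter.atTop (nhds 0) := by
    have := (h1.comp h2).const_mul (A * 8 ^ (N + 1))
    rw [mul_zero] at this
    exact this
  have h4 := (h3.eventually (gt_mem_nhds hδ)).and (Filter.eventually_ge_atTop 1)
  obtain ⟨d0, hd0⟩ := Filter.eventually_atTop.1 h4
  refine ⟨d0, ?_⟩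
  intro d hd
  obtain ⟨h5, h6⟩ := hd0 d hd
  have hd' : (0 : ℝ) < d := by exact_mod_cast h6
  rw [le_div_iff₀ hd']
  have h7 : A * (d : ℝ) ^ N * Real.exp (-(d / 8 : ℝ)) * d = A * 8 ^ (N + 1) *
      ((d / 8 : ℝ) ^ (N + 1) * Real.exp (-(d / 8 : ℝ))) := by
    rw [div_pow]
    field_simp
    ring
  rw [h7]
  exact h5.le

private theorem B44_q {d : ℕ} (hd : 1 ≤ d) {q : ℝ} (hq0 : 0 ≤ q) (hq : q ≤ 1 + 20 / d) {n : ℕ}
    (hn : n ≤ d) : ENNReal.ofReal q ^ n ≤ ENNReal.ofReal (Real.exp 20) := by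
  have hd' : (0 : ℝ) < d := by exact_mod_cast hd
  rw [← ENNReal.ofReal_pow hq0]
  refine ENNReal.ofReal_le_ofReal ?_
  have h1 : q ≤ Real.exp (20 / d) := by
    have := Real.add_one_le_exp (20 / (d : ℝ))
    linarith
  refine (pow_le_pow_left₀ hq0 h1 n).trans ?_
  rw [← Real.exp_nat_mul]
  refine Real.exp_le_exp.2 ?_
  have h2 : (n : ℝ) ≤ d := by exact_mod_cast hn
  have h3 : (n : ℝ) * (20 / d) ≤ d * (20 / d) := mul_le_mul_of_nonneg_right h2 (by positivity)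
  have h4 : (d : ℝ) * (20 / d) = 20 := by field_simp
  linarith

private theorem B44_nm {d m : ℕ} (h : m ≤ d) (x : Vx d) : nm (pj h x) ≤ nm x := by
  refine Finset.sup_le ?_
  intro i _
  exact Finset.le_sup (f := fun i => (x i).natAbs) (Finset.mem_univ (Fin.castLE h i))

private theorem B44_tt (m : ℕ) (C : ℝ) : ∃ d0 : ℕ, ∀ d : ℕ, d0 ≤ d → ∀ (h : m ≤ d) (p : ℝ), 0 ≤ p →
    p ≤ 1 → 2 * d * p ≤ 1 + 20 / d →
    (∀ R : ℕ, 1 ≤ R → Vv h (tt p) R ≤ ENNReal.ofReal (C * d) * R ^ 7) →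
    ∀ x : Vx d, nm x ≤ 2 * (d / 8) → tt p x ≤
      GG d (ENNReal.ofReal (2 * d * p)) (2 * (d / 8)) x +
        ENNReal.ofReal (Real.exp (-(d / 8 : ℝ))) := by
  obtain ⟨d0, hd0⟩ := rw_rem m C
  refine ⟨max d0 1, ?_⟩
  intro d hd h p hp hp1 hq hV x hx
  have h1 : 1 ≤ d := (le_max_right _ _).trans hd
  refine (rw_iter hp hp1 h1 (2 * (d / 8)) x).trans ?_
  exact add_le_add le_rfl (hd0 d ((le_max_left _ _).trans hd) h p hp hp1 hq hV x hx)

theorem tt_near (m : ℕ) (C : ℝ) : ∃ d0 : ℕ, ∀ d : ℕ, d0 ≤ d → ∀ (h : m ≤ d) (p : ℝ), 0 ≤ p →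
    p ≤ 1 → 2 * d * p ≤ 1 + 20 / d →
    (∀ R : ℕ, 1 ≤ R → Vv h (tt p) R ≤ ENNReal.ofReal (C * d) * R ^ 7) →
    ∀ x : Vx d, nm x ≤ 2 * (d / 8) → tt p x ≤
      GG d (ENNReal.ofReal (2 * d * p)) (2 * (d / 8)) x +
        ENNReal.ofReal (Real.exp (-(d / 8 : ℝ))) :=
  B44_tt m C

/-- The mass of the truncated two-point function. -/
private theorem B44_mass {d m : ℕ} (hd : 8 ≤ d) (h : m ≤ d) {p C : ℝ}
    (hV : ∀ R : ℕ, 1 ≤ R → Vv h (tt p) R ≤ ENNReal.ofReal (C * d) * R ^ 7) :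
    ∑' x : Vx d, tr (2 * (d / 8)) (tw p) x ≤ ENNReal.ofReal (4 * max C 0 * d ^ 10) := by
  set K := 2 * (d / 8) with hK
  have hK1 : 1 ≤ K := by omega
  have hKd : K ≤ d := by omega
  have hd1 : (1 : ℝ) ≤ d := by exact_mod_cast (by omega : 1 ≤ d)
  have hKr : (K : ℝ) ≤ d := by exact_mod_cast hKd
  have h1 : ∑' x : Vx d, tr K (tw p) x ≤ (1 + (K : ℝ≥0∞)) ^ 2 * Vv h (tt p) K := by
    rw [Vv, ← ENNReal.tsum_mul_left]
    refine ENNReal.tsum_le_tsum ?_
    intro x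
    unfold tr
    by_cases hx : nm x ≤ K
    · rw [if_pos hx, if_pos ((B44_nm h x).trans hx)]
      unfold tw
      refine mul_le_mul' ?_ le_rfl
      have : (nm x : ℝ≥0∞) ≤ K := by exact_mod_cast hx
      exact pow_le_pow_left' (add_le_add le_rfl this) 2
    · rw [if_neg hx]
      exact zero_le
  refine h1.trans ?_
  refine (mul_le_mul' le_rfl (hV K hK1)).trans ?_
  have h2 : (1 + (K : ℝ≥0∞)) ^ 2 = ENNReal.ofReal ((1 + K) ^ 2) := by
    rw [ENNReal.ofReal_pow (by positivity), ENNReal.ofReal_add (by norm_num) (by positivity)]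
    simp
  have h3 : (K : ℝ≥0∞) ^ 7 = ENNReal.ofReal (K ^ 7) := by
    rw [ENNReal.ofReal_pow (by positivity)]
    simp
  have h4 : ENNReal.ofReal (C * d) ≤ ENNReal.ofReal (max C 0 * d) :=
    ENNReal.ofReal_le_ofReal (mul_le_mul_of_nonneg_right (le_max_left _ _) (by positivity))
  rw [h2, h3]
  refine (mul_le_mul' le_rfl (mul_le_mul' h4 le_rfl)).trans ?_
  have hC0 : 0 ≤ max C 0 := le_max_right _ _
  rw [← ENNReal.ofReal_mul (by positivity), ← ENNReal.ofReal_mul (by positivity)]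
  refine ENNReal.ofReal_le_ofReal ?_
  have h5 : (1 + (K : ℝ)) ^ 2 ≤ (2 * d) ^ 2 := pow_le_pow_left₀ (by positivity) (by linarith) 2
  have h6 : (K : ℝ) ^ 7 ≤ (d : ℝ) ^ 7 := pow_le_pow_left₀ (by positivity) hKr 7
  calc (1 + (K : ℝ)) ^ 2 * (max C 0 * d * K ^ 7) ≤ (2 * d) ^ 2 * (max C 0 * d * d ^ 7) :=
        mul_le_mul h5 (mul_le_mul_of_nonneg_left h6 (by positivity)) (by positivity)
          (by positivity)
    _ = 4 * max C 0 * d ^ 10 := by ring

/-- The mass of the Green function. -/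
private theorem B44_massG {d : ℕ} (hd : 8 ≤ d) {q : ℝ} (hq0 : 0 ≤ q) (hq : q ≤ 1 + 20 / d) :
    ∑' x : Vx d, GW d (ENNReal.ofReal q) (2 * (d / 8)) x ≤
      ENNReal.ofReal (Real.exp 20 * d ^ 10) := by
  set K := 2 * (d / 8) with hK
  have hKd : K ≤ d := by omega
  have hd1 : (1 : ℝ) ≤ d := by exact_mod_cast (by omega : 1 ≤ d)
  refine (tsum_GW_le (by omega) _ _).trans ?_
  have h1 : ∑ n ∈ range K, (n + 1 : ℝ≥0∞) ^ 2 * ENNReal.ofReal q ^ n ≤
      ∑ _n ∈ range K, ENNReal.ofReal ((d : ℝ) ^ 2) * ENNReal.ofReal (Real.exp 20) := by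
    refine Finset.sum_le_sum ?_
    intro n hn
    have hn' := Finset.mem_range.1 hn
    refine mul_le_mul' ?_ (B44_q (by omega) hq0 hq (by omega))
    rw [ENNReal.ofReal_pow (by positivity), ENNReal.ofReal_natCast]
    refine pow_le_pow_left' ?_ 2
    exact_mod_cast (by omega : n + 1 ≤ d)
  refine h1.trans ?_
  rw [Finset.sum_const, Finset.card_range, nsmul_eq_mul, ← ENNReal.ofReal_mul (by positivity),
    ← ENNReal.ofReal_natCast K, ← ENNReal.ofReal_mul (by positivity)]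
  refine ENNReal.ofReal_le_ofReal ?_
  have hKr : (K : ℝ) ≤ d := by exact_mod_cast hKd
  have hexp := Real.exp_pos 20
  have h2 : (d : ℝ) ^ 3 ≤ (d : ℝ) ^ 10 := pow_le_pow_right₀ hd1 (by norm_num)
  calc (K : ℝ) * ((d : ℝ) ^ 2 * Real.exp 20) ≤ d * ((d : ℝ) ^ 2 * Real.exp 20) :=
        mul_le_mul_of_nonneg_right hKr (by positivity)
    _ = Real.exp 20 * d ^ 3 := by ring
    _ ≤ Real.exp 20 * d ^ 10 := mul_le_mul_of_nonneg_left h2 hexp.le

theorem near_pow (m : ℕ) (C : ℝ) : ∃ C' : ℝ, 0 < C' ∧ ∃ d0 : ℕ, ∀ d : ℕ, d0 ≤ d →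
    ∀ (h : m ≤ d) (p : ℝ), 0 ≤ p → p ≤ 1 → 2 * d * p ≤ 1 + 20 / d →
    (∀ R : ℕ, 1 ≤ R → Vv h (tt p) R ≤ ENNReal.ofReal (C * d) * R ^ 7) →
    ∀ k : ℕ, 1 ≤ k → k ≤ 4 → ∀ x : Vx d,
      cpw (tr (2 * (d / 8)) (tw p)) k x ≤ dl x + ENNReal.ofReal (C' / d) := by
  obtain ⟨C1, hC1, hsum⟩ := sum_DD_one
  obtain ⟨da, hnear⟩ := B44_tt m C
  set B : ℝ := 4 * max C 0 + Real.exp 20 with hB
  have hexp20 : 1 ≤ Real.exp 20 := Real.one_le_exp (by norm_num)
  have hB1 : 1 ≤ B := by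
    have : 0 ≤ max C 0 := le_max_right _ _
    linarith
  obtain ⟨db, hev⟩ := B44_ev (16 * B ^ 3) 32 (δ := 1) one_pos
  refine ⟨C1 + 1, by linarith, max (max da db) 8, ?_⟩
  intro d hd h p hp hp1 hq hV k hk1 hk4 x
  have hda : da ≤ d := ((le_max_left _ _).trans (le_max_left _ _)).trans hd
  have hdb : db ≤ d := ((le_max_right _ _).trans (le_max_left _ _)).trans hd
  have hd8 : 8 ≤ d := (le_max_right _ _).trans hd
  have hd1 : (1 : ℝ) ≤ d := by exact_mod_cast (by omega : 1 ≤ d)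
  have hd0 : (0 : ℝ) < d := by linarith
  set K := 2 * (d / 8) with hK
  have hK1 : 1 ≤ K := by omega
  have hKd : K ≤ d := by omega
  have h4K : 4 * K ≤ d := by omega
  have hKr : (K : ℝ) ≤ d := by exact_mod_cast hKd
  have hq0 : 0 ≤ 2 * (d : ℝ) * p := by positivity
  set q : ℝ≥0∞ := ENNReal.ofReal (2 * d * p) with hqd
  set ε : ℝ≥0∞ := ENNReal.ofReal ((1 + K) ^ 2 * Real.exp (-(d / 8 : ℝ))) with hε
  set P : ℝ≥0∞ := ENNReal.ofReal (B * d ^ 10) with hP
  have hBd : 1 ≤ B * (d : ℝ) ^ 10 := one_le_mul_of_one_le_of_one_le hB1 (one_le_pow₀ hd1)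
  -- the comparison
  have hcmp : ∀ y : Vx d, tr K (tw p) y ≤ GW d q K y + (fun _ => ε) y := by
    intro y
    unfold tr
    by_cases hy : nm y ≤ K
    · rw [if_pos hy]
      unfold tw GW
      refine (mul_le_mul' le_rfl (hnear d hda h p hp hp1 hq hV y hy)).trans ?_
      rw [mul_add]
      refine add_le_add le_rfl ?_
      rw [hε, ENNReal.ofReal_mul (by positivity)]
      refine mul_le_mul' ?_ le_rfl
      rw [ENNReal.ofReal_pow (by positivity), ENNReal.ofReal_add (by norm_num) (by positivity),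
        ENNReal.ofReal_one, ENNReal.ofReal_natCast]
      have : (nm y : ℝ≥0∞) ≤ K := by exact_mod_cast hy
      exact pow_le_pow_left' (add_le_add le_rfl this) 2
    · rw [if_neg hy]
      exact zero_le
  have hu : ∑' y : Vx d, tr K (tw p) y ≤ P := by
    refine (B44_mass hd8 h hV).trans (ENNReal.ofReal_le_ofReal ?_)
    refine mul_le_mul_of_nonneg_right ?_ (by positivity)
    linarith
  have hw : ∑' y : Vx d, GW d q K y ≤ P := by
    refine (B44_massG hd8 hq0 hq).trans (ENNReal.ofReal_le_ofReal ?_)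
    refine mul_le_mul_of_nonneg_right ?_ (by positivity)
    have : 0 ≤ max C 0 := le_max_right _ _
    linarith
  obtain ⟨k', rfl⟩ : ∃ k', k = k' + 1 := ⟨k - 1, by omega⟩
  have hpert := cpw_pert hcmp (fun _ => le_rfl) hu hw k' x
  refine hpert.trans ?_
  have hmain : cpw (GW d q K) (k' + 1) x ≤ dl x + ENNReal.ofReal (C1 / d) := by
    refine (cpw_GW q K (k' + 1) x).trans ?_
    rw [Finset.range_eq_Ico, Finset.sum_eq_sum_Ico_succ_bot (by omega)]
    refine add_le_add ?_ ?_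
    · simp [cpw]
    · refine le_trans ?_ (hsum d (by omega) (2 * d * p) hq0 hq x)
      have hsub : Ico (0 + 1) ((k' + 1) * K + 1) ⊆ Ico 1 (d + 1) := by
        intro n hn
        rw [Finset.mem_Ico] at hn ⊢
        have : (k' + 1) * K ≤ 4 * K := Nat.mul_le_mul_right K hk4
        omega
      refine (Finset.sum_le_sum_of_subset hsub).trans ?_
      refine Finset.sum_le_sum ?_
      intro n _
      refine mul_le_mul' (mul_le_mul' ?_ le_rfl) le_rfl
      refine pow_le_pow_right' ?_ (by omega)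
      exact_mod_cast (by omega : 1 ≤ n + 1)
  have herr : ((k' : ℝ≥0∞) + 1) * ε * P ^ k' ≤ ENNReal.ofReal (1 / d) := by
    have h1 : ((k' : ℝ≥0∞) + 1) ≤ ENNReal.ofReal 4 := by
      have : ((k' + 1 : ℕ) : ℝ≥0∞) ≤ ((4 : ℕ) : ℝ≥0∞) := by exact_mod_cast hk4
      push_cast at this
      simpa using this
    have h2 : P ^ k' ≤ ENNReal.ofReal ((B * d ^ 10) ^ 3) := by
      rw [hP, ← ENNReal.ofReal_pow (by linarith)]
      refine ENNReal.ofReal_le_ofReal ?_
      exact pow_le_pow_right₀ hBd (by omega)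
    refine (mul_le_mul' (mul_le_mul' h1 le_rfl) h2).trans ?_
    rw [hε, ← ENNReal.ofReal_mul (by norm_num), ← ENNReal.ofReal_mul (by positivity)]
    refine ENNReal.ofReal_le_ofReal ?_
    refine le_trans ?_ (hev d hdb)
    have h3 : (1 + (K : ℝ)) ^ 2 ≤ (2 * d) ^ 2 := pow_le_pow_left₀ (by positivity) (by linarith) 2
    have h4 := Real.exp_pos (-(d / 8 : ℝ))
    calc 4 * ((1 + (K : ℝ)) ^ 2 * Real.exp (-(d / 8 : ℝ))) * (B * d ^ 10) ^ 3
        ≤ 4 * ((2 * d) ^ 2 * Real.exp (-(d / 8 : ℝ))) * (B * d ^ 10) ^ 3 := by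
          refine mul_le_mul_of_nonneg_right ?_ (by positivity)
          refine mul_le_mul_of_nonneg_left ?_ (by norm_num)
          exact mul_le_mul_of_nonneg_right h3 h4.le
      _ = 16 * B ^ 3 * (d : ℝ) ^ 32 * Real.exp (-(d / 8 : ℝ)) := by ring
  refine (add_le_add hmain herr).trans ?_
  rw [add_assoc, ← ENNReal.ofReal_add (by positivity) (by positivity)]
  refine add_le_add le_rfl (ENNReal.ofReal_le_ofReal (le_of_eq ?_))
  ring

theorem near_two (m : ℕ) (C : ℝ) : ∃ d0 : ℕ, ∀ d : ℕ, d0 ≤ d →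
    ∀ (h : m ≤ d) (p : ℝ), 0 ≤ p → p ≤ 1 → 2 * d * p ≤ 1 + 20 / d →
    (∀ R : ℕ, 1 ≤ R → Vv h (tt p) R ≤ ENNReal.ofReal (C * d) * R ^ 7) →
    ∀ x : Vx d, x ≠ 0 →
      cpw (tr (2 * (d / 8)) (tt p)) 2 x ≤ ENNReal.ofReal (4.9 / d) := by
  obtain ⟨C2, hC2, hsum⟩ := sum_DD_four
  obtain ⟨da, hnear⟩ := B44_tt m C
  set B : ℝ := 4 * max C 0 + Real.exp 20 with hB
  have hexp20 : 1 ≤ Real.exp 20 := Real.one_le_exp (by norm_num)
  have hC0 : 0 ≤ max C 0 := le_max_right _ _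
  have hB1 : 1 ≤ B := by linarith
  obtain ⟨db, hev⟩ := B44_ev (2 * B) 10 (δ := 1 / 10) (by norm_num)
  obtain ⟨dc, hdc⟩ := exists_nat_ge (10 * C2)
  refine ⟨max (max da db) (max dc 2000), ?_⟩
  intro d hd h p hp hp1 hq hV x hx
  have hda : da ≤ d := ((le_max_left _ _).trans (le_max_left _ _)).trans hd
  have hdb : db ≤ d := ((le_max_right _ _).trans (le_max_left _ _)).trans hd
  have hdc' : dc ≤ d := ((le_max_left _ _).trans (le_max_right _ _)).trans hd
  have hd2000 : 2000 ≤ d := ((le_max_right _ _).trans (le_max_right _ _)).trans hd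
  have hd2000' : (2000 : ℝ) ≤ d := by exact_mod_cast hd2000
  have hdcr : 10 * C2 ≤ d := hdc.trans (by exact_mod_cast hdc')
  have hd1 : (1 : ℝ) ≤ d := by linarith
  have hd0 : (0 : ℝ) < d := by linarith
  have hd8 : 8 ≤ d := by omega
  set K := 2 * (d / 8) with hK
  have hK1 : 1 ≤ K := by omega
  have hKd : K ≤ d := by omega
  have hq0 : 0 ≤ 2 * (d : ℝ) * p := by positivity
  set q : ℝ≥0∞ := ENNReal.ofReal (2 * d * p) with hqd
  set ε : ℝ≥0∞ := ENNReal.ofReal (Real.exp (-(d / 8 : ℝ))) with hε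
  set P : ℝ≥0∞ := ENNReal.ofReal (B * d ^ 10) with hP
  have hcmp : ∀ y : Vx d, tr K (tt p) y ≤ GG d q K y + (fun _ => ε) y := by
    intro y
    unfold tr
    by_cases hy : nm y ≤ K
    · rw [if_pos hy]
      exact hnear d hda h p hp hp1 hq hV y hy
    · rw [if_neg hy]
      exact zero_le
  have hone : ∀ y : Vx d, (1 : ℝ≥0∞) ≤ (1 + (nm y : ℝ≥0∞)) ^ 2 := fun y =>
    one_le_pow₀ (le_add_right le_rfl)
  have hu : ∑' y : Vx d, tr K (tt p) y ≤ P := by
    have h1 : ∑' y : Vx d, tr K (tt p) y ≤ ∑' y : Vx d, tr K (tw p) y := by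
      refine ENNReal.tsum_le_tsum ?_
      intro y
      unfold tr
      split_ifs
      · unfold tw
        exact le_mul_of_one_le_left (zero_le) (hone y)
      · exact le_rfl
    refine h1.trans ((B44_mass hd8 h hV).trans (ENNReal.ofReal_le_ofReal ?_))
    refine mul_le_mul_of_nonneg_right ?_ (by positivity)
    linarith
  have hw : ∑' y : Vx d, GG d q K y ≤ P := by
    have h1 : ∑' y : Vx d, GG d q K y ≤ ∑' y : Vx d, GW d q K y := by
      refine ENNReal.tsum_le_tsum ?_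
      intro y
      unfold GW
      exact le_mul_of_one_le_left (zero_le) (hone y)
    refine h1.trans ((B44_massG hd8 hq0 hq).trans (ENNReal.ofReal_le_ofReal ?_))
    refine mul_le_mul_of_nonneg_right ?_ (by positivity)
    linarith
  have hpert := cpw_pert hcmp (fun _ => le_rfl) hu hw 1 x
  refine hpert.trans ?_
  have hcv : cpw (GG d q K) (1 + 1) x = cv (GG d q K) (GG d q K) x := by
    show cv (GG d q K) (cpw (GG d q K) 1) x = _
    rw [cpw_one]
  -- the terms of the sum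
  have hterm : ∀ n : ℕ, 1 ≤ n → (n + 1 : ℝ≥0∞) * q ^ n * cpw (DD d) n x ≤
      ENNReal.ofReal ((n + 1) * (2 * d * p) ^ n / (2 * d)) := by
    intro n hn
    refine (mul_le_mul' le_rfl (DD_le_one (by omega) n hn x)).trans ?_
    rw [hqd, ← ENNReal.ofReal_pow hq0]
    have h1 : (n + 1 : ℝ≥0∞) = ENNReal.ofReal (n + 1) := by
      rw [ENNReal.ofReal_add (by positivity) (by norm_num)]
      simp
    rw [h1, ← ENNReal.ofReal_mul (by positivity), ← ENNReal.ofReal_mul (by positivity)]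
    refine ENNReal.ofReal_le_ofReal (le_of_eq ?_)
    ring
  have hmain : cpw (GG d q K) (1 + 1) x ≤ ENNReal.ofReal (4.7 / d) + ENNReal.ofReal (C2 / d ^ 2) := by
    rw [hcv]
    refine (cv_GG q K x).trans ?_
    have h2K : 4 ≤ 2 * K := by omega
    have hsplit : ∑ n ∈ range (2 * K), (n + 1 : ℝ≥0∞) * q ^ n * cpw (DD d) n x =
        ∑ n ∈ range 4, (n + 1 : ℝ≥0∞) * q ^ n * cpw (DD d) n x +
        ∑ n ∈ Ico 4 (2 * K), (n + 1 : ℝ≥0∞) * q ^ n * cpw (DD d) n x := by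
      rw [Finset.range_eq_Ico, Finset.range_eq_Ico]
      exact (Finset.sum_Ico_consecutive _ (by omega) h2K).symm
    rw [hsplit]
    refine add_le_add ?_ ?_
    · rw [Finset.sum_range_succ, Finset.sum_range_succ, Finset.sum_range_succ,
        Finset.sum_range_one]
      have h0 : ((0 : ℕ) + 1 : ℝ≥0∞) * q ^ 0 * cpw (DD d) 0 x = 0 := by
        have : cpw (DD d) 0 x = 0 := by
          show dl x = 0
          unfold dl
          rw [if_neg hx]
        rw [this, mul_zero]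
      rw [h0, zero_add]
      refine (add_le_add (add_le_add (hterm 1 le_rfl) (hterm 2 (by norm_num)))
        (hterm 3 (by norm_num))).trans ?_
      rw [← ENNReal.ofReal_add (by positivity) (by positivity),
        ← ENNReal.ofReal_add (by positivity) (by positivity)]
      refine ENNReal.ofReal_le_ofReal ?_
      set r : ℝ := 2 * d * p with hr
      have hr1 : r ≤ 1 + 1 / 100 := by
        have : (20 : ℝ) / d ≤ 20 / 2000 :=
          div_le_div_of_nonneg_left (by norm_num) (by norm_num) hd2000'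
        linarith
      have hr2 : r ^ 2 ≤ (1 + 1 / 100) ^ 2 := pow_le_pow_left₀ hq0 hr1 2
      have hr3 : r ^ 3 ≤ (1 + 1 / 100) ^ 3 := pow_le_pow_left₀ hq0 hr1 3
      rw [← add_div, ← add_div, div_le_div_iff₀ (by positivity) hd0]
      push_cast
      rw [pow_one]
      have h9 : (1 + 1) * r + (2 + 1) * r ^ 2 + (3 + 1) * r ^ 3 ≤ 9.4 := by
        norm_num at hr2 hr3 ⊢
        linarith
      nlinarith [mul_le_mul_of_nonneg_right h9 hd0.le]
    · refine le_trans ?_ (hsum d (by omega) (2 * d * p) hq0 hq x)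
      have hsub : Ico 4 (2 * K) ⊆ Ico 4 (d + 1) := by
        intro n hn
        rw [Finset.mem_Ico] at hn ⊢
        omega
      refine (Finset.sum_le_sum_of_subset hsub).trans ?_
      refine Finset.sum_le_sum ?_
      intro n _
      refine mul_le_mul' (mul_le_mul' ?_ le_rfl) le_rfl
      refine le_self_pow₀ ?_ (by norm_num)
      exact_mod_cast (by omega : 1 ≤ n + 1)
  have herr : (((1 : ℕ) : ℝ≥0∞) + 1) * ε * P ^ 1 ≤ ENNReal.ofReal (1 / 10 / d) := by
    have h1 : (((1 : ℕ) : ℝ≥0∞) + 1) = ENNReal.ofReal 2 := by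
      norm_num
    rw [h1, pow_one, hε, hP, ← ENNReal.ofReal_mul (by norm_num),
      ← ENNReal.ofReal_mul (by positivity)]
    refine ENNReal.ofReal_le_ofReal ?_
    refine le_trans (le_of_eq ?_) (hev d hdb)
    ring
  refine (add_le_add hmain herr).trans ?_
  rw [← ENNReal.ofReal_add (by positivity) (by positivity),
    ← ENNReal.ofReal_add (by positivity) (by positivity)]
  refine ENNReal.ofReal_le_ofReal ?_
  have h1 : C2 / (d : ℝ) ^ 2 ≤ 1 / 10 / d := by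
    rw [div_le_div_iff₀ (by positivity) hd0]
    nlinarith
  have h2 : (4.7 : ℝ) / d + 1 / 10 / d + 1 / 10 / d = 4.9 / d := by
    rw [← add_div, ← add_div]
    norm_num
  linarith

end Pool.Agent.HD
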