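import Pool.Agent.Lib.MP_8ca597_hd.B44

/-!
# Row B45: the diagrams

`K = 2 (d / 8)`. If `2 * nm x ≤ K`: `cpw_split` with `L = K`, `Dc.tail` with `g = tw p`
(`α = 10`) and `g' = cpw (tw p) (k - 1)` (`dc_pow4`, `a' = m - 100 ≥ 200`), `near_pow`; the tail is at most
`4 C (C d^2) (C' d^8) K^(10 - a') ≤ 1 / d` for large `d`. If `K < 2 * nm x`: `dl x = 0` and
`cpw (tw p) k x ≤ C' d^8 (K / 2)^(-(m-100)) ≤ 1 / d` by `dc_pow4`, `Dc.sup`.
`diag2`: the same with `near_two`: `cpw (tt p) 2 x ≤ cpw (tr K (tt p)) 2 x + 2 cv (trc K (tt p)) (tt p) x`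
and `tt ≤ tw`.
-/

set_option autoImplicit false

namespace Pool.Agent.HD

open Finset
open scoped ENNReal

/-- Polynomial bounds in terms of `d`. -/
theorem b45_le_of_mul_pow_le {y : ℝ≥0∞} {n s e d : ℕ} {A : ℝ} (hA : 0 ≤ A) (hd : 1 ≤ d)
    (hn : d ≤ 16 * n) (hs : e + 2 ≤ s) (h : y * (n : ℝ≥0∞) ^ s ≤ ENNReal.ofReal (A * d ^ e)) :
    y ≤ ENNReal.ofReal (A * 16 ^ (e + 2) / d ^ 2) := by
  have hn1 : 1 ≤ n := by omega
  have hn0 : (0 : ℝ) < n := by exact_mod_cast hn1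
  have hd0 : (0 : ℝ) < d := by exact_mod_cast hd
  have hn' : (d : ℝ) ≤ 16 * n := by exact_mod_cast hn
  have h1 : y * (n : ℝ≥0∞) ^ (e + 2) ≤ ENNReal.ofReal (A * d ^ e) := by
    refine le_trans ?_ h
    gcongr
    exact_mod_cast hn1
  have e1 : (n : ℝ≥0∞) ^ (e + 2) = ENNReal.ofReal ((n : ℝ) ^ (e + 2)) := by
    rw [ENNReal.ofReal_pow hn0.le, ENNReal.ofReal_natCast]
  have h2 : y ≤ ENNReal.ofReal (A * d ^ e) / (n : ℝ≥0∞) ^ (e + 2) := by
    rw [ENNReal.le_div_iff_mul_le]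
    · exact h1
    · left
      exact pow_ne_zero _ (by exact_mod_cast (by omega : n ≠ 0))
    · left
      exact ENNReal.pow_ne_top (ENNReal.natCast_ne_top n)
  refine h2.trans ?_
  rw [e1, ← ENNReal.ofReal_div_of_pos (by positivity)]
  apply ENNReal.ofReal_le_ofReal
  rw [div_le_div_iff₀ (by positivity) (by positivity)]
  have h3 : (d : ℝ) ^ (e + 2) ≤ (16 * n) ^ (e + 2) := pow_le_pow_left₀ hd0.le hn' _
  rw [mul_pow] at h3
  calc A * (d : ℝ) ^ e * d ^ 2 = A * d ^ (e + 2) := by ring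
    _ ≤ A * (16 ^ (e + 2) * (n : ℝ) ^ (e + 2)) := mul_le_mul_of_nonneg_left h3 hA
    _ = A * 16 ^ (e + 2) * (n : ℝ) ^ (e + 2) := by ring

/-- The tail. -/
theorem diag_tail (m : ℕ) (hm : 300 ≤ m) (C : ℝ) : ∃ A : ℝ, 0 < A ∧ ∀ d : ℕ, 16 ≤ d →
    ∀ (h : m ≤ d) (p : ℝ), Dy h p C → ∀ k ≤ 4, ∀ x : Vx d, 2 * nm x ≤ 2 * (d / 8) →
      cv (trc (2 * (d / 8)) (tw p)) (cpw (tw p) k) x ≤ ENNReal.ofReal (A / d ^ 2) := by
  obtain ⟨C1, hC1, ht⟩ := Dc.tail m 10 (m - 100) (by omega) (by omega)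
  obtain ⟨C2, hC2, hp⟩ := dc_pow4 m hm C
  refine ⟨C1 * |C| * C2 * 16 ^ (10 + 2) + 1, by positivity, fun d hd h p hD k hk x hx => ?_⟩
  have hd0 : (0 : ℝ) < d := by exact_mod_cast (by omega : 0 < d)
  have h1 := ht d h (tw p) (cpw (tw p) k) _ _ _ _ hD.dc (hp d h p hD.dc k hk) (2 * (d / 8))
    (by omega) x hx
  have h2 : ENNReal.ofReal C1 * ENNReal.ofReal (C * d ^ 2) * ENNReal.ofReal (C2 * d ^ 8) ≤
      ENNReal.ofReal (C1 * |C| * C2 * d ^ 10) := by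
    calc ENNReal.ofReal C1 * ENNReal.ofReal (C * d ^ 2) * ENNReal.ofReal (C2 * d ^ 8)
        ≤ ENNReal.ofReal C1 * ENNReal.ofReal (|C| * d ^ 2) * ENNReal.ofReal (C2 * d ^ 8) := by
          gcongr
          exact le_abs_self C
      _ = ENNReal.ofReal (C1 * |C| * C2 * d ^ 10) := by
          rw [← ENNReal.ofReal_mul (by positivity), ← ENNReal.ofReal_mul (by positivity)]
          congr 1
          ring
  have h3 := b45_le_of_mul_pow_le (by positivity) (by omega) (by omega) (by omega) (h1.trans h2)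
  refine h3.trans (ENNReal.ofReal_le_ofReal ?_)
  gcongr
  linarith

/-- Far away. -/
theorem diag_far (m : ℕ) (hm : 300 ≤ m) (C : ℝ) : ∃ A : ℝ, 0 < A ∧ ∀ d : ℕ, 16 ≤ d →
    ∀ (h : m ≤ d) (p : ℝ), Dy h p C → ∀ k ≤ 4, ∀ x : Vx d, 2 * (d / 8) < 2 * nm x →
      cpw (tw p) k x ≤ ENNReal.ofReal (A / d ^ 2) := by
  obtain ⟨C2, hC2, hp⟩ := dc_pow4 m hm C
  refine ⟨C2 * 16 ^ (8 + 2), by positivity, fun d hd h p hD k hk x hx => ?_⟩
  have h1 := (hp d h p hD.dc k hk).sup (by omega) x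
  exact b45_le_of_mul_pow_le hC2.le (by omega) (by omega) (by omega) h1

theorem diag (m : ℕ) (hm : 300 ≤ m) (C : ℝ) : ∃ CB : ℝ, 0 < CB ∧ ∃ d0 : ℕ, ∀ d : ℕ, d0 ≤ d →
    ∀ (h : m ≤ d) (p : ℝ), 0 ≤ p → p ≤ 1 → 2 * d * p ≤ 1 + 20 / d → Dy h p C →
    ∀ k : ℕ, 1 ≤ k → k ≤ 4 → ∀ x : Vx d, cpw (tw p) k x ≤ dl x + ENNReal.ofReal (CB / d) := by
  obtain ⟨A1, hA1, ht⟩ := diag_tail m hm C
  obtain ⟨A2, hA2, hf⟩ := diag_far m hm C
  obtain ⟨C', hC', d1, hn⟩ := near_pow m C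
  refine ⟨C' + 4 * A1 + A2, by positivity, max 16 d1, fun d hd h p hp hp1 hq hD k hk1 hk4 x => ?_⟩
  have hd16 : 16 ≤ d := le_trans (le_max_left _ _) hd
  have hd1 : d1 ≤ d := le_trans (le_max_right _ _) hd
  have hd1' : (1 : ℝ) ≤ d := by exact_mod_cast (by omega : 1 ≤ d)
  have hd0 : (0 : ℝ) < d := by linarith
  have hsq : ∀ A : ℝ, 0 < A → A / (d : ℝ) ^ 2 ≤ A / d := by
    intro A hA
    apply div_le_div_of_nonneg_left hA.le hd0
    nlinarith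
  rcases Nat.lt_or_ge (2 * (d / 8)) (2 * nm x) with h1 | h1
  · refine (hf d hd16 h p hD k hk4 x h1).trans ?_
    refine le_trans ?_ le_add_self
    apply ENNReal.ofReal_le_ofReal
    refine (hsq A2 hA2).trans ?_
    gcongr
    linarith
  · obtain ⟨j, rfl⟩ : ∃ j, k = j + 1 := ⟨k - 1, by omega⟩
    refine (cpw_split (2 * (d / 8)) (tw p) j x).trans ?_
    have h2 := hn d hd1 h p hp hp1 hq hD.vol (j + 1) hk1 hk4 x
    have h3 := ht d hd16 h p hD j (by omega) x h1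
    have h4 : ((j : ℝ≥0∞) + 1) ≤ 4 := by exact_mod_cast hk4
    have e4 : (4 : ℝ≥0∞) = ENNReal.ofReal 4 := by rw [ENNReal.ofReal_ofNat]
    calc cpw (tr (2 * (d / 8)) (tw p)) (j + 1) x +
          ((j : ℝ≥0∞) + 1) * cv (trc (2 * (d / 8)) (tw p)) (cpw (tw p) j) x
        ≤ (dl x + ENNReal.ofReal (C' / d)) + 4 * ENNReal.ofReal (A1 / d ^ 2) := by gcongr
      _ = dl x + ENNReal.ofReal (C' / d + 4 * (A1 / d ^ 2)) := by
          rw [add_assoc, e4, ← ENNReal.ofReal_mul (by norm_num),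
            ← ENNReal.ofReal_add (by positivity) (by positivity)]
      _ ≤ dl x + ENNReal.ofReal ((C' + 4 * A1 + A2) / d) := by
          gcongr
          have h5 := hsq A1 hA1
          have h6 : 0 < A2 / d := by positivity
          have h7 : (C' + 4 * A1 + A2) / d = C' / d + 4 * (A1 / d) + A2 / d := by ring
          rw [h7]
          linarith

theorem b45_trc_mono {n : ℕ} (L : ℕ) {f g : Vx n → ℝ≥0∞} (h : ∀ x, f x ≤ g x) (x : Vx n) :
    trc L f x ≤ trc L g x := by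
  rw [trc, trc]
  split_ifs
  · exact le_rfl
  · exact h x

theorem diag2 (m : ℕ) (hm : 300 ≤ m) (C : ℝ) : ∃ d0 : ℕ, ∀ d : ℕ, d0 ≤ d →
    ∀ (h : m ≤ d) (p : ℝ), 0 ≤ p → p ≤ 1 → 2 * d * p ≤ 1 + 20 / d → Dy h p C →
    ∀ x : Vx d, x ≠ 0 → cv (tt p) (tt p) x ≤ ENNReal.ofReal (5 / d) := by
  obtain ⟨A1, hA1, ht⟩ := diag_tail m hm C
  obtain ⟨A2, hA2, hf⟩ := diag_far m hm C
  obtain ⟨d1, hn⟩ := near_two m C
  obtain ⟨N, hN⟩ := exists_nat_ge (20 * A1 + A2 + 16)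
  refine ⟨max N d1, fun d hd h p hp hp1 hq hD x hx0 => ?_⟩
  have hdN : N ≤ d := le_trans (le_max_left _ _) hd
  have hd1 : d1 ≤ d := le_trans (le_max_right _ _) hd
  have hdN' : (N : ℝ) ≤ d := by exact_mod_cast hdN
  have hdA : 20 * A1 + A2 + 16 ≤ (d : ℝ) := hN.trans hdN'
  have hd16 : 16 ≤ d := by
    have : (16 : ℝ) ≤ d := by linarith
    exact_mod_cast this
  have hd0 : (0 : ℝ) < d := by linarith
  have hsq : ∀ A : ℝ, A / (d : ℝ) ^ 2 = A / d / d := by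
    intro A
    rw [div_div, sq]
  rcases Nat.lt_or_ge (2 * (d / 8)) (2 * nm x) with h1 | h1
  · have h2 : cv (tt p) (tt p) x ≤ cpw (tw p) 2 x := by
      rw [show (2 : ℕ) = 1 + 1 by norm_num, cpw, cpw_one]
      exact cv_mono (tt_le_tw p) (tt_le_tw p) x
    refine h2.trans ((hf d hd16 h p hD 2 (by norm_num) x h1).trans ?_)
    apply ENNReal.ofReal_le_ofReal
    rw [hsq]
    gcongr
    rw [div_le_iff₀ hd0]
    linarith
  · have h0 : cv (tt p) (tt p) x = cpw (tt p) (1 + 1) x := by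
      rw [cpw, cpw_one]
    rw [h0]
    refine (cpw_split (2 * (d / 8)) (tt p) 1 x).trans ?_
    have h2 := hn d hd1 h p hp hp1 hq hD.vol x hx0
    have h3 := ht d hd16 h p hD 1 (by norm_num) x h1
    rw [cpw_one] at h3
    rw [cpw_one]
    have h4 : cv (trc (2 * (d / 8)) (tt p)) (tt p) x ≤ cv (trc (2 * (d / 8)) (tw p)) (tw p) x :=
      cv_mono (b45_trc_mono _ (tt_le_tw p)) (tt_le_tw p) x
    have e2 : (((1 : ℕ) : ℝ≥0∞) + 1) = ENNReal.ofReal 2 := by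
      rw [ENNReal.ofReal_ofNat]
      norm_num
    calc cpw (tr (2 * (d / 8)) (tt p)) (1 + 1) x +
          (((1 : ℕ) : ℝ≥0∞) + 1) * cv (trc (2 * (d / 8)) (tt p)) (tt p) x
        ≤ ENNReal.ofReal (4.9 / d) + ENNReal.ofReal 2 * ENNReal.ofReal (A1 / d ^ 2) := by
          rw [e2]
          gcongr
          exact h4.trans h3
      _ = ENNReal.ofReal (4.9 / d + 2 * (A1 / d ^ 2)) := by
          rw [← ENNReal.ofReal_mul (by norm_num),
            ← ENNReal.ofReal_add (by positivity) (by positivity)]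
      _ ≤ ENNReal.ofReal (5 / d) := by
          apply ENNReal.ofReal_le_ofReal
          rw [hsq]
          have h5 : A1 / d ≤ 1 / 20 := by
            rw [div_le_iff₀ hd0]
            linarith
          have h6 : 2 * (A1 / d / d) ≤ 2 * (1 / 20 / d) := by gcongr
          have h7 : (5 : ℝ) / d = 4.9 / d + 2 * (1 / 20 / d) := by ring
          rw [h7]
          linarith

end Pool.Agent.HD
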