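import Pool.Agent.Lib.MP_8ca597_hd.B03
import Pool.Agent.Lib.MP_8ca597_hd.B01

/-!
# Row B50: monotone left-continuous functions of `p`

`Lc.mul`: `F p = ⨆_{p' < p} F p'` (from `left` and `mono`), `ENNReal.iSup_mul`, `ENNReal.mul_iSup`, and for
`p', p'' < p` `F p' * G p'' ≤ (F * G) (max p' p'')`. `Lc.add`: similarly (`ENNReal.iSup_add`).
`Lc.tsum`: `ENNReal.tsum_eq_iSup_sum` and finite sums. `Lc.tauI`: `tauI_left`, `tauI_mono_p`.
-/

set_option autoImplicit false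

namespace Pool.Agent.HD

open Finset
open scoped ENNReal

/-- Monotone and left-continuous on `[0, 1]`. -/
structure Lc (F : ℝ → ℝ≥0∞) : Prop where
  mono : ∀ p p' : ℝ, 0 ≤ p → p ≤ p' → p' ≤ 1 → F p ≤ F p'
  left : ∀ p : ℝ, 0 < p → p ≤ 1 → ∀ c : ℝ≥0∞, (∀ p' : ℝ, 0 ≤ p' → p' < p → F p' ≤ c) → F p ≤ c

/-- The value is the supremum of the values on the left. -/
private theorem Lc.sup {F : ℝ → ℝ≥0∞} (hF : Lc F) {p : ℝ} (h0 : 0 < p) (h1 : p ≤ 1) :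
    F p = ⨆ q : Set.Ico (0 : ℝ) p, F q := by
  apply le_antisymm
  · exact hF.left p h0 h1 _ fun p' h h' => le_iSup (fun q : Set.Ico (0 : ℝ) p => F q) ⟨p', h, h'⟩
  · exact iSup_le fun q => hF.mono _ _ q.2.1 q.2.2.le h1

theorem Lc.const (c : ℝ≥0∞) : Lc fun _ => c :=
  ⟨fun _ _ _ _ _ => le_rfl, fun _ h0 _ _ h => h 0 le_rfl h0⟩

theorem Lc.ofReal : Lc fun p => ENNReal.ofReal p := by
  refine ⟨fun p p' _ h _ => ENNReal.ofReal_le_ofReal h, fun p h0 h1 c h => ?_⟩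
  by_cases hc : c = ⊤
  · rw [hc]
    exact le_top
  rw [ENNReal.ofReal_le_iff_le_toReal hc]
  by_contra hcon
  push Not at hcon
  have hc0 : 0 ≤ c.toReal := ENNReal.toReal_nonneg
  have := h ((c.toReal + p) / 2) (by linarith) (by linarith)
  rw [ENNReal.ofReal_le_iff_le_toReal hc] at this
  linarith

theorem Lc.add {F G : ℝ → ℝ≥0∞} (hF : Lc F) (hG : Lc G) : Lc fun p => F p + G p := by
  refine ⟨fun p p' h0 h h1 => add_le_add (hF.mono _ _ h0 h h1) (hG.mono _ _ h0 h h1),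
    fun p h0 h1 c h => ?_⟩
  rw [hF.sup h0 h1, hG.sup h0 h1, ENNReal.iSup_add_iSup]
  · exact iSup_le fun q => h q q.2.1 q.2.2
  · intro i j
    rcases le_total (i : ℝ) j with hij | hij
    · exact ⟨j, add_le_add (hF.mono _ _ i.2.1 hij (j.2.2.le.trans h1)) le_rfl⟩
    · exact ⟨i, add_le_add le_rfl (hG.mono _ _ j.2.1 hij (i.2.2.le.trans h1))⟩

theorem Lc.mul {F G : ℝ → ℝ≥0∞} (hF : Lc F) (hG : Lc G) : Lc fun p => F p * G p := by
  refine ⟨fun p p' h0 h h1 => mul_le_mul' (hF.mono _ _ h0 h h1) (hG.mono _ _ h0 h h1),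
    fun p h0 h1 c h => ?_⟩
  rw [hF.sup h0 h1, hG.sup h0 h1, ENNReal.iSup_mul]
  refine iSup_le fun i => ?_
  rw [ENNReal.mul_iSup]
  refine iSup_le fun j => ?_
  rcases le_total (i : ℝ) j with hij | hij
  · exact (mul_le_mul' (hF.mono _ _ i.2.1 hij (j.2.2.le.trans h1)) le_rfl).trans
      (h j j.2.1 j.2.2)
  · exact (mul_le_mul' le_rfl (hG.mono _ _ j.2.1 hij (i.2.2.le.trans h1))).trans
      (h i i.2.1 i.2.2)

theorem Lc.sum {ι : Type} (s : Finset ι) {F : ι → ℝ → ℝ≥0∞} (hF : ∀ i, Lc (F i)) :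
    Lc fun p => ∑ i ∈ s, F i p := by
  classical
  induction s using Finset.induction_on with
  | empty =>
    simp only [Finset.sum_empty]
    exact Lc.const 0
  | insert a s ha ih =>
    simp only [Finset.sum_insert ha]
    exact (hF a).add ih

theorem Lc.tsum {ι : Type} {F : ι → ℝ → ℝ≥0∞} (hF : ∀ i, Lc (F i)) :
    Lc fun p => ∑' i, F i p := by
  refine ⟨fun p p' h0 h h1 => ENNReal.tsum_le_tsum fun i => (hF i).mono _ _ h0 h h1,
    fun p h0 h1 c h => ?_⟩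
  rw [ENNReal.tsum_eq_iSup_sum]
  refine iSup_le fun s => ?_
  exact (Lc.sum s hF).left p h0 h1 c fun p' h' h'' =>
    (ENNReal.sum_le_tsum s).trans (h p' h' h'')

theorem Lc.cv {n : ℕ} {f g : ℝ → Vx n → ℝ≥0∞} (hf : ∀ x, Lc fun p => f p x)
    (hg : ∀ x, Lc fun p => g p x) (x : Vx n) : Lc fun p => cv (f p) (g p) x :=
  Lc.tsum fun y => (hf y).mul (hg (x - y))

theorem Lc.cpw {n : ℕ} {f : ℝ → Vx n → ℝ≥0∞} (hf : ∀ x, Lc fun p => f p x) (k : ℕ) (x : Vx n) :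
    Lc fun p => cpw (f p) k x := by
  induction k generalizing x with
  | zero => exact Lc.const _
  | succ k ih => exact Lc.cv hf ih x

variable {d : ℕ}

theorem Lc.tauI (S : Set (Vx d)) (x y : Vx d) : Lc fun p => tauI p S x y :=
  ⟨fun _ _ h0 h h1 => tauI_mono_p h0 h h1 S x y, fun _ h0 _ _ h => tauI_left h0 S x y h⟩

theorem Lc.tt (x : Vx d) : Lc fun p => tt p x := Lc.tauI _ _ _

theorem Lc.tw (x : Vx d) : Lc fun p => tw p x :=
  (Lc.const ((1 + (nm x : ℝ≥0∞)) ^ 2)).mul (Lc.tt x)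

theorem Lc.chi (d : ℕ) : Lc fun p => chi d p := Lc.tsum fun x => Lc.tt x

theorem Lc.flux (S : Set (Vx d)) (x : Vx d) : Lc fun p => flux p S x :=
  Lc.tsum fun q : exI S Set.univ => (Lc.tauI S x q.1.1).mul Lc.ofReal

theorem Lc.lev (e : Dir d) (r : ℤ) (l : ℕ) : Lc fun p => lev p e r l :=
  Lc.tsum fun z : {z : Vx d // dt z e = r - 1 - l} => Lc.tauI (Hf e r) 0 z

theorem Lc.ff (e : Dir d) (r : ℤ) : Lc fun p => ff p e r := Lc.ofReal.mul (Lc.lev e r 0)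

private theorem Lc.ite {c : Prop} [Decidable c] {F : ℝ → ℝ≥0∞} (hF : Lc F) :
    Lc fun p => if c then F p else 0 := by
  by_cases h : c
  · simp only [if_pos h]
    exact hF
  · simp only [if_neg h]
    exact Lc.const 0

theorem Lc.tpj {m : ℕ} (h : m ≤ d) {g : ℝ → Vx d → ℝ≥0∞} (hg : ∀ x, Lc fun p => g p x)
    (k : Vx m) : Lc fun p => tpj h (g p) k := Lc.tsum fun x => (hg x).ite

theorem Lc.Vv {m : ℕ} (h : m ≤ d) {g : ℝ → Vx d → ℝ≥0∞} (hg : ∀ x, Lc fun p => g p x) (R : ℕ) :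
    Lc fun p => Vv h (g p) R := Lc.tsum fun x => (hg x).ite

end Pool.Agent.HD
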