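import Pool.Agent.Lib.MP_8ca597_hd.B40
import Pool.Agent.Lib.MP_8ca597_hd.B03
import Pool.Agent.Lib.MP_8ca597_hd.A18

/-!
# Row B51: bounds of the increase with `p` in the subcritical phase

`SL2I` with `r = (p' - p) / (1 - p)`: `tt p' x ≤ tt p x + r w x`,
`w x = ∑_{u ~ v} tt p1 u * tt p1 (x - v)`; `∑_x (1 + nm x)^2 w x < ∞` by `sub_mom`
(`1 + nm x ≤ (1 + nm u) (1 + nm (v - u)) (1 + nm (x - v))`, `nm (v - u) = 1`), so `cpw_pert` with
`E = r (1 + nm)^2 w ≤ r ∑ ..` gives the first bound. `right_ff`: sum `SL2I` in `Hf e r` over the top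
plane: `lev p' ≤ lev p + r 2 d (chi d p1)^2`, and `(p' - p) lev p ≤ r chi d p1`.
-/

set_option autoImplicit false

namespace Pool.Agent.HD

open Finset
open scoped ENNReal

variable {d : ℕ}

private theorem pairs_le (W : Set (Vx d)) (F : Vx d → Vx d → ℝ≥0∞) :
    ∑' q : {q : Vx d × Vx d | q.1 ∈ W ∧ q.2 ∈ W ∧ Adj q.1 q.2}, F q.1.1 q.1.2 ≤
      ∑' u, ∑ v ∈ nbr u, F u v := by
  classical
  rw [tsum_subtype {q : Vx d × Vx d | q.1 ∈ W ∧ q.2 ∈ W ∧ Adj q.1 q.2}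
    (fun q : Vx d × Vx d => F q.1 q.2), ENNReal.tsum_prod']
  refine ENNReal.tsum_le_tsum fun u => ?_
  rw [tsum_eq_sum (s := nbr u)]
  · refine sum_le_sum fun v _ => ?_
    exact Set.indicator_le_self _ _ (u, v)
  · intro v hv
    apply Set.indicator_of_notMem
    intro h
    exact hv (mem_nbr.2 h.2.2)

/-- The bound of the increase. -/
private noncomputable def wB (p1 : ℝ) (x : Vx d) : ℝ≥0∞ :=
  ∑' u : Vx d, ∑ v ∈ nbr u, tt p1 u * tt p1 (x - v)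

private theorem step_le {p p' p1 : ℝ} (h0 : 0 ≤ p) (h : p ≤ p') (h' : p' ≤ p1) (h1 : p1 < 1)
    (W : Set (Vx d)) (x : Vx d) : tauI p' W 0 x ≤ tauI p W 0 x +
      ENNReal.ofReal ((p' - p) / (1 - p)) * wB p1 x := by
  have hp : 0 < 1 - p := by linarith
  have hne : 1 - p ≠ 0 := hp.ne'
  have hr : 0 ≤ (p' - p) / (1 - p) := div_nonneg (by linarith) hp.le
  have hr1 : (p' - p) / (1 - p) ≤ 1 := by
    rw [div_le_one hp]
    linarith
  have hh : 1 - p' = (1 - p) * (1 - (p' - p) / (1 - p)) := by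
    field_simp
    ring
  refine (SL2I h0 (by linarith) hr hr1 hh W 0 x).trans ?_
  refine add_le_add le_rfl (mul_le_mul' le_rfl ?_)
  refine le_trans ?_ (pairs_le W fun u v => tt p1 u * tt p1 (x - v))
  refine ENNReal.tsum_le_tsum fun q => mul_le_mul' ?_ ?_
  · refine (tauI_le_tt h0 (by linarith) W 0 q.1.1).trans ?_
    rw [sub_zero]
    exact tauI_mono_p h0 (by linarith) h1.le _ _ _
  · refine (tauI_le_tt (by linarith) (by linarith) W q.1.2 x).trans ?_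
    exact tauI_mono_p (by linarith) h' h1.le _ _ _

private theorem tsum_pairs (f g : Vx d → ℝ≥0∞) :
    ∑' x : Vx d, ∑' u : Vx d, ∑ v ∈ nbr u, f u * g (x - v) =
      (2 * d : ℕ) * ((∑' x, f x) * ∑' x, g x) := by
  rw [ENNReal.tsum_comm]
  have key : ∀ u : Vx d, ∑' x : Vx d, ∑ v ∈ nbr u, f u * g (x - v) =
      ((2 * d : ℕ) : ℝ≥0∞) * (f u * ∑' x, g x) := by
    intro u
    rw [Summable.tsum_finsetSum (fun _ _ => ENNReal.summable)]
    have : ∀ v ∈ nbr u, ∑' x : Vx d, f u * g (x - v) = f u * ∑' x, g x := by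
      intro v _
      rw [ENNReal.tsum_mul_left]
      congr 1
      exact (Equiv.subRight v).tsum_eq g
    rw [sum_congr rfl this, sum_const, card_nbr, nsmul_eq_mul]
  simp only [key]
  rw [ENNReal.tsum_mul_left, ENNReal.tsum_mul_right]

private theorem tsum_wB (p1 : ℝ) : ∑' x : Vx d, wB p1 x = (2 * d : ℕ) * (chi d p1 * chi d p1) :=
  tsum_pairs (tt p1) (tt p1)

private theorem nm_bound {u v x : Vx d} (h : Adj u v) :
    (1 + nm x : ℝ≥0∞) ^ 2 ≤ 4 * ((1 + nm u) ^ 2 * (1 + nm (x - v)) ^ 2) := by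
  have h1 : nm x ≤ nm v + nm (x - v) := by
    have := nm_add_le v (x - v)
    rwa [add_sub_cancel] at this
  have h2 := nm_adj h
  have h3 : 1 + nm x ≤ 2 * ((1 + nm u) * (1 + nm (x - v))) := by
    have : 0 ≤ nm u * nm (x - v) := Nat.zero_le _
    nlinarith
  have h4 : (1 + nm x) ^ 2 ≤ 4 * ((1 + nm u) ^ 2 * (1 + nm (x - v)) ^ 2) := by
    calc (1 + nm x) ^ 2 ≤ (2 * ((1 + nm u) * (1 + nm (x - v)))) ^ 2 := Nat.pow_le_pow_left h3 2
      _ = 4 * ((1 + nm u) ^ 2 * (1 + nm (x - v)) ^ 2) := by ring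
  exact_mod_cast h4

private theorem tsum_wB2 (p1 : ℝ) : ∑' x : Vx d, (1 + nm x : ℝ≥0∞) ^ 2 * wB p1 x ≤
    4 * ((2 * d : ℕ) * ((∑' x : Vx d, tw p1 x) * ∑' x : Vx d, tw p1 x)) := by
  rw [← tsum_pairs (tw p1) (tw p1), ← ENNReal.tsum_mul_left]
  refine ENNReal.tsum_le_tsum fun x => ?_
  rw [wB, ← ENNReal.tsum_mul_left, ← ENNReal.tsum_mul_left]
  refine ENNReal.tsum_le_tsum fun u => ?_
  rw [mul_sum, mul_sum]
  refine sum_le_sum fun v hv => ?_
  have h := nm_bound (x := x) (mem_nbr.1 hv)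
  calc (1 + nm x : ℝ≥0∞) ^ 2 * (tt p1 u * tt p1 (x - v)) ≤
      4 * ((1 + nm u) ^ 2 * (1 + nm (x - v)) ^ 2) * (tt p1 u * tt p1 (x - v)) :=
        mul_le_mul' h le_rfl
    _ = 4 * (tw p1 u * tw p1 (x - v)) := by
        rw [tw, tw]
        ring

theorem right_cpw {p1 : ℝ} (h0 : 0 ≤ p1) (h1 : p1 < 1) (hs : Sub d p1) (k : ℕ) :
    ∃ M : ℝ≥0∞, M ≠ ⊤ ∧ ∀ p p' : ℝ, 0 ≤ p → p ≤ p' → p' ≤ p1 → ∀ x : Vx d,
      cpw (tw p') k x ≤ cpw (tw p) k x + ENNReal.ofReal ((p' - p) / (1 - p)) * M := by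
  rcases k with - | k
  · refine ⟨0, ENNReal.zero_ne_top, fun p p' _ _ _ x => ?_⟩
    have e1 : cpw (tw p') 0 x = dl x := rfl
    have e2 : cpw (tw p) 0 x = dl x := rfl
    rw [e1, e2]
    exact le_self_add
  have hP : ∑' x : Vx d, tw p1 x ≠ ⊤ := (sub_mom h0 h1.le hs 2).ne
  set P : ℝ≥0∞ := ∑' x : Vx d, tw p1 x with hPdef
  set W2 : ℝ≥0∞ := ∑' x : Vx d, (1 + nm x : ℝ≥0∞) ^ 2 * wB p1 x with hW2
  have hW2t : W2 ≠ ⊤ := by
    refine ne_top_of_le_ne_top ?_ (tsum_wB2 p1)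
    exact ENNReal.mul_ne_top (by norm_num) (ENNReal.mul_ne_top (ENNReal.natCast_ne_top _)
      (ENNReal.mul_ne_top hP hP))
  refine ⟨(k + 1) * W2 * P ^ k, ?_, ?_⟩
  · refine ENNReal.mul_ne_top (ENNReal.mul_ne_top ?_ hW2t) (ENNReal.pow_ne_top hP)
    exact ENNReal.add_ne_top.2 ⟨ENNReal.natCast_ne_top _, ENNReal.one_ne_top⟩
  · intro p p' hp hpp hp1 x
    have hmono : ∀ q : ℝ, 0 ≤ q → q ≤ p1 → ∑' x : Vx d, tw q x ≤ P := by
      intro q hq hq1
      exact ENNReal.tsum_le_tsum fun x => mul_le_mul' le_rfl (tauI_mono_p hq hq1 h1.le _ _ _)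
    have key := cpw_pert (u := tw p') (w := tw p)
      (E := fun x => ENNReal.ofReal ((p' - p) / (1 - p)) * ((1 + nm x : ℝ≥0∞) ^ 2 * wB p1 x))
      (ε := ENNReal.ofReal ((p' - p) / (1 - p)) * W2) (P := P) ?_ ?_ (hmono p' (by linarith) hp1)
      (hmono p hp (by linarith)) k x
    · refine key.trans (le_of_eq ?_)
      ring
    · intro x
      rw [tw, tw]
      calc (1 + nm x : ℝ≥0∞) ^ 2 * tt p' x ≤ (1 + nm x : ℝ≥0∞) ^ 2 * (tt p x +
            ENNReal.ofReal ((p' - p) / (1 - p)) * wB p1 x) :=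
            mul_le_mul' le_rfl (step_le hp hpp hp1 h1 Set.univ x)
        _ = (1 + nm x : ℝ≥0∞) ^ 2 * tt p x + ENNReal.ofReal ((p' - p) / (1 - p)) *
            ((1 + nm x : ℝ≥0∞) ^ 2 * wB p1 x) := by ring
    · intro x
      exact mul_le_mul' le_rfl (ENNReal.le_tsum x)

theorem right_ff {p1 : ℝ} (h0 : 0 ≤ p1) (h1 : p1 < 1) (hs : Sub d p1) :
    ∃ M : ℝ≥0∞, M ≠ ⊤ ∧ ∀ p p' : ℝ, 0 ≤ p → p ≤ p' → p' ≤ p1 → ∀ (e : Dir d) (r : ℤ), 1 ≤ r →
      ff p' e r ≤ ff p e r + ENNReal.ofReal ((p' - p) / (1 - p)) * M := by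
  have hchi : chi d p1 ≠ ⊤ := (sub_chi h0 h1.le hs).ne
  refine ⟨chi d p1 + (2 * d : ℕ) * (chi d p1 * chi d p1), ?_, ?_⟩
  · exact ENNReal.add_ne_top.2 ⟨hchi, ENNReal.mul_ne_top (ENNReal.natCast_ne_top _)
      (ENNReal.mul_ne_top hchi hchi)⟩
  intro p p' hp hpp hp1 e r _
  set ρ : ℝ≥0∞ := ENNReal.ofReal ((p' - p) / (1 - p)) with hρ
  have hpos : 0 < 1 - p := by linarith
  have hlev : lev p' e r 0 ≤ lev p e r 0 + ρ * ((2 * d : ℕ) * (chi d p1 * chi d p1)) := by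
    rw [← tsum_wB]
    calc lev p' e r 0 ≤ ∑' z : {z : Vx d // dt z e = r - 1 - (0 : ℕ)},
          (tauI p (Hf e r) 0 z + ρ * wB p1 (z : Vx d)) :=
          ENNReal.tsum_le_tsum fun z => step_le hp hpp hp1 h1 (Hf e r) z
      _ = lev p e r 0 + ρ * ∑' z : {z : Vx d // dt z e = r - 1 - (0 : ℕ)}, wB p1 (z : Vx d) := by
          rw [ENNReal.tsum_add, ENNReal.tsum_mul_left]
          rfl
      _ ≤ lev p e r 0 + ρ * ∑' x : Vx d, wB p1 x := by
          refine add_le_add le_rfl (mul_le_mul' le_rfl ?_)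
          exact ENNReal.tsum_comp_le_tsum_of_injective Subtype.val_injective _
  have hlevchi : lev p e r 0 ≤ chi d p1 := by
    refine le_trans (ENNReal.tsum_le_tsum (g := fun z : {z : Vx d // dt z e = r - 1 - (0 : ℕ)} =>
      tt p1 (z : Vx d)) fun z => ?_)
      (ENNReal.tsum_comp_le_tsum_of_injective Subtype.val_injective _)
    refine (tauI_le_tt hp (by linarith) (Hf e r) 0 z).trans ?_
    rw [sub_zero]
    exact tauI_mono_p hp (by linarith) h1.le _ _ _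
  have hp'1 : ENNReal.ofReal p' ≤ 1 := by
    rw [← ENNReal.ofReal_one]
    exact ENNReal.ofReal_le_ofReal (by linarith)
  have hsplit : ENNReal.ofReal p' ≤ ENNReal.ofReal p + ρ := by
    rw [hρ, ← ENNReal.ofReal_add hp (div_nonneg (by linarith) hpos.le)]
    apply ENNReal.ofReal_le_ofReal
    have : p' - p ≤ (p' - p) / (1 - p) := by
      rw [le_div_iff₀ hpos]
      nlinarith
    linarith
  calc ff p' e r = ENNReal.ofReal p' * lev p' e r 0 := rfl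
    _ ≤ ENNReal.ofReal p' * (lev p e r 0 + ρ * ((2 * d : ℕ) * (chi d p1 * chi d p1))) :=
        mul_le_mul' le_rfl hlev
    _ = ENNReal.ofReal p' * lev p e r 0 +
        ENNReal.ofReal p' * (ρ * ((2 * d : ℕ) * (chi d p1 * chi d p1))) := mul_add _ _ _
    _ ≤ (ENNReal.ofReal p + ρ) * lev p e r 0 +
        1 * (ρ * ((2 * d : ℕ) * (chi d p1 * chi d p1))) :=
        add_le_add (mul_le_mul' hsplit le_rfl) (mul_le_mul' hp'1 le_rfl)
    _ = ff p e r + (ρ * lev p e r 0 + ρ * ((2 * d : ℕ) * (chi d p1 * chi d p1))) := by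
        rw [ff]
        ring
    _ ≤ ff p e r + (ρ * chi d p1 + ρ * ((2 * d : ℕ) * (chi d p1 * chi d p1))) :=
        add_le_add le_rfl (add_le_add (mul_le_mul' le_rfl hlevchi) le_rfl)
    _ = ff p e r + ρ * (chi d p1 + (2 * d : ℕ) * (chi d p1 * chi d p1)) := by
        ring

end Pool.Agent.HD
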