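import Pool.Agent.Lib.MP_8ca597_hd.BX
import Pool.Agent.Lib.MP_8ca597_hd.A19

/-!
# Row B52: the bootstrap hypothesis and the base case `p = 1 / (4 d)`

`q = 2 d p = 1/2`. `Sub d p` by `pc_pos`, `sub_of_lt`. `rw_iter` for `K → ∞` (`cv (cpw (DD d) K) (tt p) ≤ chi`,
finite): `tt p x ≤ ∑'_n 2^(-n) D^n(x)`, `tw p x ≤ ∑'_n (n+1)^2 2^(-n) D^n(x)`, and
`cpw (tw p) k x ≤ ∑'_n (n+1)^12 2^(-n) D^n(x)` for `k = 3, 4` (as in row B42, with infinite sums: the number of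
pairs with sum `N` is `N + 1`), so `≤ dl x + (1/(2d)) ∑'_n (n+1)^12 2^(-n)` by `DD_le_one`.
`ff p e r ≤ p chi ≤ p * 2`.
-/

set_option autoImplicit false

namespace Pool.Agent.HD

open Finset
open scoped ENNReal

/-- The bootstrap hypothesis. -/
structure BH (d : ℕ) (p : ℝ) : Prop where
  q : 2 * d * p ≤ 1 + 20 / d
  f : ∀ (e : Dir d) (r : ℤ), 1 ≤ r → ff p e r ≤ 2
  w3 : ∀ e : Dir d, cpw (tw p) 3 (uv e) ≤ ENNReal.ofReal (1 / √d)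
  w4 : ∀ e e' : Dir d, cpw (tw p) 4 (uv e - uv e') ≤ 4

private theorem qhalf {d : ℕ} (hd : 1 ≤ d) :
    ENNReal.ofReal (2 * d * (1 / (4 * d : ℝ))) = (1 / 2 : ℝ≥0∞) := by
  have hd' : (d : ℝ) ≠ 0 := by
    have : (1 : ℝ) ≤ d := by exact_mod_cast hd
    linarith
  have : 2 * d * (1 / (4 * d : ℝ)) = 2⁻¹ := by
    field_simp
    norm_num
  rw [this, ENNReal.ofReal_inv_of_pos (by norm_num)]
  norm_num

private theorem pbase {d : ℕ} (hd : 1 ≤ d) :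
    (0 : ℝ) ≤ 1 / (4 * d : ℝ) ∧ 1 / (4 * d : ℝ) ≤ 1 := by
  have : (1 : ℝ) ≤ d := by exact_mod_cast hd
  refine ⟨by positivity, ?_⟩
  rw [div_le_one (by linarith)]
  linarith

theorem base_tt {d : ℕ} (hd : 1 ≤ d) (x : Vx d) :
    tt (1 / (4 * d : ℝ)) x ≤ ∑' n : ℕ, (1 / 2 : ℝ≥0∞) ^ n * cpw (DD d) n x := by
  obtain ⟨hp, hp1⟩ := pbase hd
  have key : ∀ K : ℕ, tt (1 / (4 * d : ℝ)) x ≤
      ∑' n : ℕ, (1 / 2 : ℝ≥0∞) ^ n * cpw (DD d) n x + (1 / 2 : ℝ≥0∞) ^ K := by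
    intro K
    refine (rw_iter hp hp1 hd K x).trans ?_
    rw [qhalf hd]
    refine add_le_add (ENNReal.sum_le_tsum _) ?_
    have h := cv_le_sup (cpw (DD d) K) (tt (1 / (4 * d : ℝ))) (c := 1)
      (fun x => tauI_le_one hp hp1 _ _ _) x
    rw [tsum_DD hd K, one_mul] at h
    calc (1 / 2 : ℝ≥0∞) ^ K * cv (cpw (DD d) K) (tt (1 / (4 * d : ℝ))) x ≤
        (1 / 2 : ℝ≥0∞) ^ K * 1 := mul_le_mul' le_rfl h
      _ = (1 / 2 : ℝ≥0∞) ^ K := mul_one _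
  have hlim : Filter.Tendsto (fun K : ℕ => ∑' n : ℕ, (1 / 2 : ℝ≥0∞) ^ n * cpw (DD d) n x +
      (1 / 2 : ℝ≥0∞) ^ K) Filter.atTop
      (nhds (∑' n : ℕ, (1 / 2 : ℝ≥0∞) ^ n * cpw (DD d) n x + 0)) := by
    refine Filter.Tendsto.add tendsto_const_nhds
      (ENNReal.tendsto_pow_atTop_nhds_zero_of_lt_one ?_)
    rw [one_div]
    exact ENNReal.one_half_lt_one
  have := ge_of_tendsto' hlim key
  rwa [add_zero] at this

/-- The weighted sum of the transition probabilities. -/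
private noncomputable def Hs (d j : ℕ) (x : Vx d) : ℝ≥0∞ :=
  ∑' n : ℕ, (n + 1 : ℝ≥0∞) ^ j * (1 / 2 : ℝ≥0∞) ^ n * cpw (DD d) n x

private theorem tw_le_Hs {d : ℕ} (hd : 1 ≤ d) (x : Vx d) :
    tw (1 / (4 * d : ℝ)) x ≤ Hs d 2 x := by
  rw [tw]
  calc (1 + nm x : ℝ≥0∞) ^ 2 * tt (1 / (4 * d : ℝ)) x ≤
      (1 + nm x : ℝ≥0∞) ^ 2 * ∑' n : ℕ, (1 / 2 : ℝ≥0∞) ^ n * cpw (DD d) n x :=
        mul_le_mul' le_rfl (base_tt hd x)
    _ = ∑' n : ℕ, (1 + nm x : ℝ≥0∞) ^ 2 * ((1 / 2 : ℝ≥0∞) ^ n * cpw (DD d) n x) :=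
        ENNReal.tsum_mul_left.symm
    _ ≤ Hs d 2 x := by
        refine ENNReal.tsum_le_tsum fun n => ?_
        by_cases h : cpw (DD d) n x = 0
        · rw [h, mul_zero, mul_zero, mul_zero]
        · have h1 : (1 + nm x : ℝ≥0∞) ≤ n + 1 := by
            have := DD_supp n x h
            rw [add_comm]
            exact add_le_add (by exact_mod_cast this) le_rfl
          rw [mul_assoc]
          exact mul_le_mul' (pow_le_pow_left' h1 2) le_rfl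

private theorem tsum_anti (F : ℕ → ℕ → ℝ≥0∞) :
    ∑' n : ℕ, ∑' m : ℕ, F n m = ∑' N : ℕ, ∑ q ∈ antidiagonal N, F q.1 q.2 := by
  rw [← ENNReal.tsum_prod (f := F)]
  rw [← Finset.HasAntidiagonal.sigmaAntidiagonalEquivProd.tsum_eq fun p : ℕ × ℕ => F p.1 p.2]
  rw [ENNReal.tsum_sigma']
  refine tsum_congr fun N => ?_
  rw [← Finset.tsum_subtype (antidiagonal N) fun q : ℕ × ℕ => F q.1 q.2]
  rfl

private theorem cv_Hs (d j : ℕ) (x : Vx d) : cv (Hs d 2) (Hs d j) x ≤ Hs d (j + 3) x := by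
  have h1 : cv (Hs d 2) (Hs d j) x = ∑' n : ℕ, ∑' m : ℕ,
      ((n + 1 : ℝ≥0∞) ^ 2 * (1 / 2 : ℝ≥0∞) ^ n) * ((m + 1 : ℝ≥0∞) ^ j * (1 / 2 : ℝ≥0∞) ^ m) *
        cpw (DD d) (n + m) x := by
    calc cv (Hs d 2) (Hs d j) x = ∑' y : Vx d, ∑' n : ℕ, ∑' m : ℕ,
        ((n + 1 : ℝ≥0∞) ^ 2 * (1 / 2 : ℝ≥0∞) ^ n) * ((m + 1 : ℝ≥0∞) ^ j * (1 / 2 : ℝ≥0∞) ^ m) *
          (cpw (DD d) n y * cpw (DD d) m (x - y)) := by
          refine tsum_congr fun y => ?_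
          rw [Hs, Hs, ← ENNReal.tsum_mul_right]
          refine tsum_congr fun n => ?_
          rw [← ENNReal.tsum_mul_left]
          refine tsum_congr fun m => ?_
          ring
      _ = ∑' n : ℕ, ∑' m : ℕ, ∑' y : Vx d,
        ((n + 1 : ℝ≥0∞) ^ 2 * (1 / 2 : ℝ≥0∞) ^ n) * ((m + 1 : ℝ≥0∞) ^ j * (1 / 2 : ℝ≥0∞) ^ m) *
          (cpw (DD d) n y * cpw (DD d) m (x - y)) := by
          rw [ENNReal.tsum_comm]
          refine tsum_congr fun n => ?_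
          rw [ENNReal.tsum_comm]
      _ = _ := by
          refine tsum_congr fun n => tsum_congr fun m => ?_
          rw [ENNReal.tsum_mul_left, cpw_add]
          rfl
  rw [h1, tsum_anti (fun n m => ((n + 1 : ℝ≥0∞) ^ 2 * (1 / 2 : ℝ≥0∞) ^ n) *
    ((m + 1 : ℝ≥0∞) ^ j * (1 / 2 : ℝ≥0∞) ^ m) * cpw (DD d) (n + m) x), Hs]
  refine ENNReal.tsum_le_tsum fun N => ?_
  have h2 : ∀ q ∈ antidiagonal N, ((q.1 + 1 : ℝ≥0∞) ^ 2 * (1 / 2 : ℝ≥0∞) ^ q.1) *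
      ((q.2 + 1 : ℝ≥0∞) ^ j * (1 / 2 : ℝ≥0∞) ^ q.2) * cpw (DD d) (q.1 + q.2) x ≤
      (N + 1 : ℝ≥0∞) ^ (j + 2) * (1 / 2 : ℝ≥0∞) ^ N * cpw (DD d) N x := by
    intro q hq
    rw [HasAntidiagonal.mem_antidiagonal] at hq
    subst hq
    refine mul_le_mul' ?_ le_rfl
    have ha : ((q.1 : ℝ≥0∞) + 1) ≤ ((q.1 + q.2 : ℕ) : ℝ≥0∞) + 1 := by
      refine add_le_add ?_ le_rfl
      exact_mod_cast Nat.le_add_right _ _
    have hb : ((q.2 : ℝ≥0∞) + 1) ≤ ((q.1 + q.2 : ℕ) : ℝ≥0∞) + 1 := by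
      refine add_le_add ?_ le_rfl
      exact_mod_cast Nat.le_add_left _ _
    calc ((q.1 + 1 : ℝ≥0∞) ^ 2 * (1 / 2 : ℝ≥0∞) ^ q.1) *
        ((q.2 + 1 : ℝ≥0∞) ^ j * (1 / 2 : ℝ≥0∞) ^ q.2) =
        ((q.1 + 1 : ℝ≥0∞) ^ 2 * (q.2 + 1 : ℝ≥0∞) ^ j) * (1 / 2 : ℝ≥0∞) ^ (q.1 + q.2) := by
          rw [pow_add (1 / 2 : ℝ≥0∞)]
          ring
      _ ≤ ((((q.1 + q.2 : ℕ) : ℝ≥0∞) + 1) ^ 2 * (((q.1 + q.2 : ℕ) : ℝ≥0∞) + 1) ^ j) *
          (1 / 2 : ℝ≥0∞) ^ (q.1 + q.2) :=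
          mul_le_mul' (mul_le_mul' (pow_le_pow_left' ha 2) (pow_le_pow_left' hb j)) le_rfl
      _ = _ := by
          rw [← pow_add, add_comm 2 j]
  refine (sum_le_sum h2).trans (le_of_eq ?_)
  rw [sum_const, Nat.card_antidiagonal, nsmul_eq_mul]
  push_cast
  ring

private theorem cpw_le_Hs {d : ℕ} (hd : 1 ≤ d) (k : ℕ) (x : Vx d) :
    cpw (tw (1 / (4 * d : ℝ))) (k + 1) x ≤ Hs d (3 * k + 2) x := by
  induction k generalizing x with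
  | zero =>
    rw [zero_add, cpw_one]
    exact tw_le_Hs hd x
  | succ k ih =>
    calc cpw (tw (1 / (4 * d : ℝ))) (k + 1 + 1) x =
        cv (tw (1 / (4 * d : ℝ))) (cpw (tw (1 / (4 * d : ℝ))) (k + 1)) x := rfl
      _ ≤ cv (Hs d 2) (Hs d (3 * k + 2)) x := cv_mono (tw_le_Hs hd) ih x
      _ ≤ Hs d (3 * k + 2 + 3) x := cv_Hs d _ x
      _ = Hs d (3 * (k + 1) + 2) x := by ring_nf

private theorem Hs_le {d : ℕ} (hd : 1 ≤ d) {j : ℕ} (hj : j ≤ 12) (x : Vx d) :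
    Hs d j x ≤ dl x + (∑' n : ℕ, (n + 1 : ℝ≥0∞) ^ 12 * (1 / 2 : ℝ≥0∞) ^ n) *
      ENNReal.ofReal (1 / (2 * d)) := by
  have key : ∀ n : ℕ, (n + 1 : ℝ≥0∞) ^ j * (1 / 2 : ℝ≥0∞) ^ n * cpw (DD d) n x ≤
      (if n = 0 then dl x else 0) + (n + 1 : ℝ≥0∞) ^ 12 * (1 / 2 : ℝ≥0∞) ^ n *
        ENNReal.ofReal (1 / (2 * d)) := by
    intro n
    rcases Nat.eq_zero_or_pos n with rfl | hn
    · have e0 : cpw (DD d) 0 x = dl x := rfl
      rw [e0, if_pos rfl]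
      refine le_trans (le_of_eq ?_) le_self_add
      simp
    · rw [if_neg hn.ne', zero_add]
      refine mul_le_mul' (mul_le_mul' ?_ le_rfl) (DD_le_one hd n hn x)
      exact pow_le_pow_right₀ le_add_self hj
  rw [Hs]
  refine (ENNReal.tsum_le_tsum key).trans (le_of_eq ?_)
  rw [ENNReal.tsum_add, ENNReal.tsum_mul_right, tsum_ite_eq]

private theorem tsum_fin : ∑' n : ℕ, (n + 1 : ℝ≥0∞) ^ 12 * (1 / 2 : ℝ≥0∞) ^ n ≠ ⊤ := by
  have h1 : Summable fun n : ℕ => (n : ℝ) ^ 12 * (1 / 2 : ℝ) ^ n :=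
    summable_pow_mul_geometric_of_norm_lt_one 12 (by norm_num)
  have h2 : Summable fun n : ℕ => ((n + 1 : ℕ) : ℝ) ^ 12 * (1 / 2 : ℝ) ^ (n + 1) :=
    (summable_nat_add_iff 1).2 h1
  have h3 : Summable fun n : ℕ => ((n : ℝ) + 1) ^ 12 * (1 / 2 : ℝ) ^ n := by
    refine (h2.mul_left 2).congr fun n => ?_
    push_cast
    rw [pow_succ]
    ring
  have h4 : ∀ n : ℕ, (n + 1 : ℝ≥0∞) ^ 12 * (1 / 2 : ℝ≥0∞) ^ n =
      ENNReal.ofReal (((n : ℝ) + 1) ^ 12 * (1 / 2 : ℝ) ^ n) := by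
    intro n
    rw [ENNReal.ofReal_mul (by positivity), ENNReal.ofReal_pow (by positivity),
      ENNReal.ofReal_pow (by positivity), ENNReal.ofReal_add (by positivity) (by positivity),
      ENNReal.ofReal_natCast, ENNReal.ofReal_one, one_div, one_div,
      ENNReal.ofReal_inv_of_pos (by norm_num)]
    norm_num
  simp only [h4]
  rw [← ENNReal.ofReal_tsum_of_nonneg (fun n => by positivity) h3]
  exact ENNReal.ofReal_ne_top

theorem base_cpw : ∃ C : ℝ, 0 < C ∧ ∀ d : ℕ, 1 ≤ d → ∀ k : ℕ, 1 ≤ k → k ≤ 4 → ∀ x : Vx d,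
    cpw (tw (1 / (4 * d : ℝ))) k x ≤ dl x + ENNReal.ofReal (C / d) := by
  set S : ℝ≥0∞ := ∑' n : ℕ, (n + 1 : ℝ≥0∞) ^ 12 * (1 / 2 : ℝ≥0∞) ^ n with hS
  have hSt : S ≠ ⊤ := tsum_fin
  refine ⟨S.toReal + 1, by positivity, fun d hd k hk hk4 x => ?_⟩
  have hd' : (1 : ℝ) ≤ d := by exact_mod_cast hd
  obtain ⟨k, rfl⟩ : ∃ k', k = k' + 1 := ⟨k - 1, by omega⟩
  refine (cpw_le_Hs hd k x).trans ((Hs_le hd (by omega) x).trans ?_)
  refine add_le_add le_rfl ?_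
  rw [← hS]
  calc S * ENNReal.ofReal (1 / (2 * d)) = ENNReal.ofReal (S.toReal * (1 / (2 * d))) := by
        rw [ENNReal.ofReal_mul ENNReal.toReal_nonneg, ENNReal.ofReal_toReal hSt]
    _ ≤ ENNReal.ofReal ((S.toReal + 1) / d) := by
        apply ENNReal.ofReal_le_ofReal
        have h0 : 0 ≤ S.toReal := ENNReal.toReal_nonneg
        rw [mul_one_div, div_le_div_iff₀ (by linarith) (by linarith)]
        nlinarith

private theorem base_chi {d : ℕ} (hd : 1 ≤ d) : chi d (1 / (4 * d : ℝ)) ≤ 2 := by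
  calc chi d (1 / (4 * d : ℝ)) ≤ ∑' x : Vx d, ∑' n : ℕ, (1 / 2 : ℝ≥0∞) ^ n * cpw (DD d) n x :=
        ENNReal.tsum_le_tsum fun x => base_tt hd x
    _ = ∑' n : ℕ, (1 / 2 : ℝ≥0∞) ^ n := by
        rw [ENNReal.tsum_comm]
        refine tsum_congr fun n => ?_
        rw [ENNReal.tsum_mul_left, tsum_DD hd n, mul_one]
    _ = 2 := by
        rw [ENNReal.tsum_geometric, one_div, ENNReal.one_sub_inv_two, inv_inv]

private theorem base_ff {d : ℕ} (hd : 1 ≤ d) (e : Dir d) (r : ℤ) :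
    ff (1 / (4 * d : ℝ)) e r ≤ 2 := by
  obtain ⟨hp, hp1⟩ := pbase hd
  have hlevchi : lev (1 / (4 * d : ℝ)) e r 0 ≤ chi d (1 / (4 * d : ℝ)) := by
    refine le_trans (ENNReal.tsum_le_tsum (g := fun z : {z : Vx d // dt z e = r - 1 - (0 : ℕ)} =>
      tt (1 / (4 * d : ℝ)) (z : Vx d)) fun z => ?_)
      (ENNReal.tsum_comp_le_tsum_of_injective Subtype.val_injective _)
    refine (tauI_le_tt hp hp1 (Hf e r) 0 z).trans ?_
    rw [sub_zero]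
  have h1 : ENNReal.ofReal (1 / (4 * d : ℝ)) ≤ 1 := by
    rw [← ENNReal.ofReal_one]
    exact ENNReal.ofReal_le_ofReal hp1
  calc ff (1 / (4 * d : ℝ)) e r =
      ENNReal.ofReal (1 / (4 * d : ℝ)) * lev (1 / (4 * d : ℝ)) e r 0 := rfl
    _ ≤ 1 * 2 := mul_le_mul' h1 (hlevchi.trans (base_chi hd))
    _ = 2 := one_mul 2

theorem base : ∃ d0 : ℕ, 1 ≤ d0 ∧ ∀ d : ℕ, d0 ≤ d → BH d (1 / (4 * d : ℝ)) := by
  obtain ⟨C, hC, h⟩ := base_cpw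
  refine ⟨max 1 ⌈max C (C ^ 2)⌉₊, le_max_left _ _, fun d hd => ?_⟩
  have hd1 : 1 ≤ d := (le_max_left _ _).trans hd
  have hd1' : (1 : ℝ) ≤ d := by exact_mod_cast hd1
  have hd2 : max C (C ^ 2) ≤ d := by
    have h2 : ⌈max C (C ^ 2)⌉₊ ≤ d := (le_max_right _ _).trans hd
    exact (Nat.le_ceil _).trans (by exact_mod_cast h2)
  have hC1 : C ≤ d := (le_max_left _ _).trans hd2
  have hC2 : C ^ 2 ≤ d := (le_max_right _ _).trans hd2
  refine ⟨?_, fun e r _ => base_ff hd1 e r, ?_, ?_⟩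
  · have : 2 * d * (1 / (4 * d : ℝ)) = 1 / 2 := by
      field_simp
      norm_num
    rw [this]
    have : (0 : ℝ) ≤ 20 / d := by positivity
    linarith
  · intro e
    refine (h d hd1 3 (by norm_num) (by norm_num) (uv e)).trans ?_
    have hne : uv e ≠ 0 := by
      intro h0
      have := congrFun h0 e.1
      rw [uv, Pi.single_eq_same, sg] at this
      split_ifs at this
      simp at this
    rw [dl, if_neg hne, zero_add]
    apply ENNReal.ofReal_le_ofReal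
    have hs : 0 < √(d : ℝ) := Real.sqrt_pos.2 (by linarith)
    have hs2 : √(d : ℝ) * √(d : ℝ) = d := Real.mul_self_sqrt (by linarith)
    have hCs : C ≤ √(d : ℝ) := Real.le_sqrt_of_sq_le hC2
    rw [div_le_div_iff₀ (by linarith) hs]
    nlinarith
  · intro e e'
    refine (h d hd1 4 (by norm_num) (by norm_num) (uv e - uv e')).trans ?_
    have h1 : dl (uv e - uv e') ≤ (1 : ℝ≥0∞) := by
      rw [dl]
      split_ifs
      · exact le_rfl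
      · exact zero_le_one
    have h2 : ENNReal.ofReal (C / d) ≤ 1 := by
      rw [← ENNReal.ofReal_one]
      apply ENNReal.ofReal_le_ofReal
      rw [div_le_one (by linarith)]
      exact hC1
    refine (add_le_add h1 h2).trans ?_
    norm_num

end Pool.Agent.HD
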