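import Pool.Agent.Lib.MP_8ca597_hd.B45
import Pool.Agent.Lib.MP_8ca597_hd.B52

/-!
# Row B53: the bootstrap hypothesis improves itself

`flux_box` with `F = 2`, `w3 = 1/√d`, `w4 = 4`, `E.card ≤ 2 m`, `p ≤ (1 + 20/d)/(2 d) ≤ 1/d`: all fluxes are at
most `1 + 8 m/√d + 64 m²/d ≤ 1 + 1/(64 m)` for large `d`; `M0 = 1 + 1/(64 m)` satisfies
`M0^(16 m) ≤ e^(1/4) ≤ √2`. So `decay_tt`, `dc_tw` give `Dy`; `diag`, `diag2`. Then `q_le` with
`b1 = b2 = 5/d` gives `q ≤ 1 + 11/d` (real arithmetic: `q ≤ 1 + 20/d ≤ 1.01`,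
`1 + q 5/d + q² 5/d ≤ 1 + 11/d`); `ff_eq_flux` and `flux_box` with one direction: `1 + 4/√d + 16/d ≤ 3/2`;
`w3 ≤ C_B/d ≤ 1/(2√d)` (`uv e ≠ 0`), `w4 ≤ 1 + C_B/d ≤ 2`.
-/

set_option autoImplicit false

namespace Pool.Agent.HD

open Finset
open scoped ENNReal

/-- The conclusions of part B at the parameter `p`. -/
structure TB {d m : ℕ} (h : m ≤ d) (p C CB : ℝ) : Prop where
  q : 2 * d * p ≤ 1 + 11 / d
  f : ∀ (e : Dir d) (r : ℤ), 1 ≤ r → ff p e r ≤ 3 / 2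
  w3 : ∀ e : Dir d, cpw (tw p) 3 (uv e) ≤ ENNReal.ofReal (1 / (2 * √d))
  w4 : ∀ e e' : Dir d, cpw (tw p) 4 (uv e - uv e') ≤ 2
  dy : Dy h p C
  fl : ∀ (E : Finset (Dir d)) (R : Dir d → ℤ), E.card ≤ 2 * m → (∀ e ∈ E, 1 ≤ R e) →
    flux p (BoxS E R) 0 ≤ ENNReal.ofReal (1 + 1 / (64 * m))
  dg : ∀ k : ℕ, 1 ≤ k → k ≤ 4 → ∀ x : Vx d, cpw (tw p) k x ≤ dl x + ENNReal.ofReal (CB / d)
  c2 : ∀ x : Vx d, x ≠ 0 → cv (tt p) (tt p) x ≤ ENNReal.ofReal (5 / d)

theorem b53_uv_ne_zero {d : ℕ} (e : Dir d) : (uv e : Vx d) ≠ 0 := by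
  intro h
  have h1 := congrFun h e.1
  rw [uv, Pi.single_eq_same] at h1
  have h2 : sg e.2 = 0 := h1
  unfold sg at h2
  split_ifs at h2
  all_goals omega

theorem b53_uv_sub_ne_zero {d : ℕ} {e e' : Dir d} (h : e ≠ e') : (uv e - uv e' : Vx d) ≠ 0 := by
  intro h0
  have h1 : (uv e : Vx d) = uv e' := sub_eq_zero.mp h0
  have h2 := congrFun h1 e.1
  rw [uv, Pi.single_eq_same, uv] at h2
  by_cases h3 : e.1 = e'.1
  · rw [h3, Pi.single_eq_same] at h2
    apply h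
    apply Prod.ext h3
    unfold sg at h2
    revert h2
    cases e.2 <;> cases e'.2 <;> simp
  · rw [Pi.single_eq_of_ne h3] at h2
    unfold sg at h2
    split_ifs at h2
    all_goals omega

theorem b53_boxS_singleton {d : ℕ} (e : Dir d) (r : ℤ) : BoxS {e} (fun _ => r) = Hf e r := by
  ext z
  simp [BoxS, Hf]

/-- The elementary bound of the power of the constant `M0`. -/
theorem b53_m0_pow {m : ℕ} (hm : 1 ≤ m) : (1 + 1 / (64 * m : ℝ)) ^ (16 * m) ≤ √2 := by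
  have hm0 : (0 : ℝ) < m := by exact_mod_cast hm
  have h1 : (1 + 1 / (64 * m : ℝ)) ≤ Real.exp (1 / (64 * m)) := by
    have := Real.add_one_le_exp (1 / (64 * m : ℝ))
    linarith
  have h2 : (1 + 1 / (64 * m : ℝ)) ^ (16 * m) ≤ Real.exp (1 / (64 * m)) ^ (16 * m) :=
    pow_le_pow_left₀ (by positivity) h1 _
  have h3 : Real.exp (1 / (64 * m)) ^ (16 * m) = Real.exp (1 / 4) := by
    rw [← Real.exp_nat_mul]
    congr 1
    push_cast
    field_simp
    norm_num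
  rw [h3] at h2
  refine h2.trans ?_
  apply Real.le_sqrt_of_sq_le
  rw [← Real.exp_nat_mul]
  have h4 : Real.exp (((2 : ℕ) : ℝ) * (1 / 4)) ^ 2 = Real.exp 1 := by
    rw [← Real.exp_nat_mul]
    congr 1
    norm_num
  have h5 := Real.exp_one_lt_d9
  have h6 : 0 < Real.exp (((2 : ℕ) : ℝ) * (1 / 4)) := Real.exp_pos _
  nlinarith

theorem improve (m : ℕ) (hm : 300 ≤ m) : ∃ C CB : ℝ, 0 < C ∧ 0 < CB ∧ ∃ d0 : ℕ, ∀ d : ℕ,
    d0 ≤ d → ∀ (h : m ≤ d) (p : ℝ), 1 / (4 * d : ℝ) ≤ p → p ≤ 1 / 2 → Sub d p → BH d p →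
      TB h p C CB := by
  obtain ⟨C1, hC1, hdt⟩ := decay_tt m (by omega)
  obtain ⟨C2, hC2, htw⟩ := dc_tw m (by omega) C1
  obtain ⟨C, hC, hC1C, hC2C⟩ : ∃ C : ℝ, 0 < C ∧ C1 ≤ C ∧ C2 ≤ C :=
    ⟨max C1 C2, lt_max_of_lt_left hC1, le_max_left _ _, le_max_right _ _⟩
  obtain ⟨CB, hCB, d1, hdg⟩ := diag m hm C
  obtain ⟨d2, hdg2⟩ := diag2 m hm C
  obtain ⟨N, hN⟩ := exists_nat_ge (2048 * (m : ℝ) ^ 3 + 2 * CB + 100)
  refine ⟨C, CB, hC, hCB, max (max d1 d2) (N ^ 2), fun d hd h p hp4 hp2 hsub hBH => ?_⟩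
  have hdd1 : d1 ≤ d := le_trans (le_max_left _ _) (le_trans (le_max_left _ _) hd)
  have hdd2 : d2 ≤ d := le_trans (le_max_right _ _) (le_trans (le_max_left _ _) hd)
  have hdN : N ^ 2 ≤ d := le_trans (le_max_right _ _) hd
  have hm0 : (300 : ℝ) ≤ m := by exact_mod_cast hm
  have hdN' : (N : ℝ) ^ 2 ≤ d := by exact_mod_cast hdN
  have hsN : (N : ℝ) ≤ √d := Real.le_sqrt_of_sq_le hdN'
  have hs : 2048 * (m : ℝ) ^ 3 + 2 * CB + 100 ≤ √d := hN.trans hsN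
  have hm3 : 0 < (m : ℝ) ^ 3 := by positivity
  have hs1 : 2048 * (m : ℝ) ^ 3 ≤ √d := by linarith
  have hs2 : 2 * CB ≤ √d := by linarith
  have hs3 : 100 ≤ √d := by linarith
  have hs0 : 0 < √d := by linarith
  have hsq : √(d : ℝ) * √d = d := Real.mul_self_sqrt (Nat.cast_nonneg d)
  have hd4 : (10000 : ℝ) ≤ d := by nlinarith
  have hd0 : (0 : ℝ) < d := by linarith
  have hp0 : 0 ≤ p := le_trans (by positivity) hp4
  have hp1 : p ≤ 1 := by linarith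
  -- `p ≤ 1 / d`
  have hpd : p ≤ 1 / d := by
    have h1 := hBH.q
    have h2 : (20 : ℝ) / d ≤ 1 := by
      rw [div_le_one hd0]
      linarith
    rw [le_div_iff₀ hd0]
    nlinarith
  have hsi : 1 / √(d : ℝ) ≤ 1 / (2048 * (m : ℝ) ^ 3) :=
    one_div_le_one_div_of_le (by positivity) hs1
  have hsi0 : 0 < 1 / √(d : ℝ) := by positivity
  have hsi1 : 1 / √(d : ℝ) ≤ 1 / 100 := one_div_le_one_div_of_le (by norm_num) hs3
  have hdi : 1 / (d : ℝ) = 1 / √d * (1 / √d) := by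
    rw [one_div_mul_one_div, hsq]
  have hflux : ∀ (E : Finset (Dir d)) (R : Dir d → ℤ), (∀ e ∈ E, 1 ≤ R e) →
      flux p (BoxS E R) 0 ≤
        ENNReal.ofReal (1 + 4 * E.card * (1 / √d) + 16 * (E.card : ℝ) ^ 2 * (1 / √d * (1 / √d))) := by
    intro E R hR
    have h1 := flux_box hp0 hp2 hsub (F := 2) (w3 := ENNReal.ofReal (1 / √d)) (w4 := 4)
      (by norm_num) hBH.f hBH.w3 hBH.w4 E hR
    refine h1.trans ?_
    have e1 : (E.card : ℝ≥0∞) = ENNReal.ofReal (E.card : ℝ) := by simp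
    have e2 : (2 : ℝ≥0∞) ^ 2 = ENNReal.ofReal 4 := by
      rw [ENNReal.ofReal_ofNat]
      norm_num
    have e3 : (4 : ℝ≥0∞) = ENNReal.ofReal 4 := by
      rw [ENNReal.ofReal_ofNat]
    rw [e1, e2, ← ENNReal.ofReal_pow (by positivity), ← ENNReal.ofReal_mul (by positivity),
      ← ENNReal.ofReal_mul (by positivity), ← ENNReal.ofReal_mul (by positivity),
      ← ENNReal.ofReal_mul (by positivity), ← ENNReal.ofReal_one,
      ← ENNReal.ofReal_add (by positivity) (by positivity)]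
    rw [e3, ← ENNReal.ofReal_mul (by positivity),
      ← ENNReal.ofReal_add (by positivity) (by positivity)]
    apply ENNReal.ofReal_le_ofReal
    have h2 : p ≤ 1 / √d * (1 / √d) := by rw [← hdi]; exact hpd
    have h3 : 0 ≤ (E.card : ℝ) ^ 2 := by positivity
    nlinarith [mul_le_mul_of_nonneg_left h2 h3]
  have hfl : ∀ (E : Finset (Dir d)) (R : Dir d → ℤ), E.card ≤ 2 * m → (∀ e ∈ E, 1 ≤ R e) →
      flux p (BoxS E R) 0 ≤ ENNReal.ofReal (1 + 1 / (64 * m)) := by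
    intro E R hE hR
    refine (hflux E R hR).trans (ENNReal.ofReal_le_ofReal ?_)
    have hE' : (E.card : ℝ) ≤ 2 * m := by exact_mod_cast hE
    have hE0 : 0 ≤ (E.card : ℝ) := by positivity
    have h1 : 4 * (E.card : ℝ) * (1 / √d) ≤ 8 * m * (1 / (2048 * (m : ℝ) ^ 3)) := by
      apply mul_le_mul (by linarith) hsi hsi0.le (by positivity)
    have h2 : 16 * (E.card : ℝ) ^ 2 * (1 / √d * (1 / √d)) ≤
        16 * (2 * m) ^ 2 * (1 / (2048 * (m : ℝ) ^ 3) * (1 / (2048 * (m : ℝ) ^ 3))) := by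
      apply mul_le_mul _ (mul_le_mul hsi hsi hsi0.le (by positivity)) (by positivity)
        (by positivity)
      have : (E.card : ℝ) ^ 2 ≤ (2 * m) ^ 2 := pow_le_pow_left₀ hE0 hE' 2
      linarith
    have h3 : 8 * (m : ℝ) * (1 / (2048 * (m : ℝ) ^ 3)) ≤ 1 / (128 * m) := by
      have hmm : (0 : ℝ) < m := by linarith
      rw [show 8 * (m : ℝ) * (1 / (2048 * (m : ℝ) ^ 3)) = 1 / (256 * (m : ℝ) ^ 2) by
        field_simp; norm_num]
      apply one_div_le_one_div_of_le (by positivity)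
      nlinarith
    have h4 : 16 * (2 * (m : ℝ)) ^ 2 * (1 / (2048 * (m : ℝ) ^ 3) * (1 / (2048 * (m : ℝ) ^ 3))) ≤
        1 / (128 * m) := by
      have hmm : (0 : ℝ) < m := by linarith
      rw [show 16 * (2 * (m : ℝ)) ^ 2 * (1 / (2048 * (m : ℝ) ^ 3) * (1 / (2048 * (m : ℝ) ^ 3))) =
        1 / (65536 * (m : ℝ) ^ 4) by field_simp; norm_num]
      apply one_div_le_one_div_of_le (by positivity)
      have : (m : ℝ) ≤ (m : ℝ) ^ 4 := by
        have h5 : (1 : ℝ) ≤ (m : ℝ) ^ 3 := one_le_pow₀ (by linarith)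
        nlinarith
      nlinarith
    have h5 : 1 / (64 * (m : ℝ)) = 1 / (128 * m) + 1 / (128 * m) := by
      have hmm : (0 : ℝ) < m := by linarith
      field_simp
      norm_num
    linarith
  have hdec := hdt d h p hp4 hp2 hsub hBH.f (1 + 1 / (64 * m))
    (by
      have : (0 : ℝ) < 1 / (64 * m) := by positivity
      linarith)
    (b53_m0_pow (by omega)) hfl
  have hdcw := htw d h p hp0 hp1 hdec.1 hdec.2
  have hDy : Dy h p C := by
    refine ⟨fun R hR => (hdec.1 R hR).trans ?_, ?_⟩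
    · gcongr
    · refine hdcw.mono ?_ le_rfl le_rfl (by omega)
      apply ENNReal.ofReal_le_ofReal
      gcongr
  have hdg' := hdg d hdd1 h p hp0 hp1 hBH.q hDy
  have hdg2' := hdg2 d hdd2 h p hp0 hp1 hBH.q hDy
  have hCBd : CB / d ≤ 1 / (2 * √d) := by
    rw [div_le_div_iff₀ hd0 (by positivity)]
    nlinarith
  refine ⟨?_, ?_, ?_, ?_, hDy, hfl, hdg', hdg2'⟩
  · -- `q`
    have h1 := q_le hp0 hp2 hsub (b1 := ENNReal.ofReal (5 / d)) (b2 := ENNReal.ofReal (5 / d))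
      (fun e => hdg2' _ (b53_uv_ne_zero e)) (fun e e' he => hdg2' _ (b53_uv_sub_ne_zero he))
    have hq0 : 0 ≤ 2 * (d : ℝ) * p := by positivity
    have h2 : 2 * (d : ℝ) * p ≤ 1 + 2 * d * p * (5 / d) + (2 * d * p) ^ 2 * (5 / d) := by
      rw [← ENNReal.ofReal_pow hq0, ← ENNReal.ofReal_mul hq0, ← ENNReal.ofReal_mul (by positivity),
        ← ENNReal.ofReal_one, ← ENNReal.ofReal_add (by positivity) (by positivity),
        ← ENNReal.ofReal_add (by positivity) (by positivity)] at h1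
      exact (ENNReal.ofReal_le_ofReal_iff (by positivity)).mp h1
    have h3 := hBH.q
    have h4 : 20 / (d : ℝ) ≤ 1 / 100 := by
      rw [div_le_div_iff₀ hd0 (by norm_num)]
      linarith
    have h5 : 2 * (d : ℝ) * p ≤ 1.01 := by linarith
    have h6 : (2 * (d : ℝ) * p) ^ 2 ≤ 1.01 ^ 2 := pow_le_pow_left₀ hq0 h5 2
    have h7 : (0 : ℝ) < 5 / d := by positivity
    have h8 : 2 * (d : ℝ) * p * (5 / d) ≤ 1.01 * (5 / d) := mul_le_mul_of_nonneg_right h5 h7.le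
    have h9 : (2 * (d : ℝ) * p) ^ 2 * (5 / d) ≤ 1.01 ^ 2 * (5 / d) :=
      mul_le_mul_of_nonneg_right h6 h7.le
    have h10 : (11 : ℝ) / d = 11 / 5 * (5 / d) := by ring
    rw [h10]
    nlinarith
  · -- `f`
    intro e r hr
    rw [ff_eq_flux p e r hr, ← b53_boxS_singleton e r]
    refine (hflux {e} (fun _ => r) (fun _ _ => hr)).trans ?_
    rw [card_singleton, show (3 / 2 : ℝ≥0∞) = ENNReal.ofReal (3 / 2) by
      rw [ENNReal.ofReal_div_of_pos (by norm_num)]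
      norm_num]
    apply ENNReal.ofReal_le_ofReal
    push_cast
    have h1 : 1 / √(d : ℝ) * (1 / √d) ≤ 1 / 100 * (1 / 100) :=
      mul_le_mul hsi1 hsi1 hsi0.le (by norm_num)
    nlinarith
  · -- `w3`
    intro e
    refine (hdg' 3 (by norm_num) (by norm_num) (uv e)).trans ?_
    rw [dl, if_neg (b53_uv_ne_zero e), zero_add]
    exact ENNReal.ofReal_le_ofReal hCBd
  · -- `w4`
    intro e e'
    refine (hdg' 4 (by norm_num) (by norm_num) (uv e - uv e')).trans ?_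
    have h1 : dl (uv e - uv e' : Vx d) ≤ 1 := by
      rw [dl]
      split_ifs
      · exact le_rfl
      · exact zero_le_one
    have h2 : ENNReal.ofReal (CB / d) ≤ 1 := by
      rw [← ENNReal.ofReal_one]
      apply ENNReal.ofReal_le_ofReal
      refine hCBd.trans ?_
      rw [div_le_one (by positivity)]
      linarith
    calc dl (uv e - uv e' : Vx d) + ENNReal.ofReal (CB / d) ≤ 1 + 1 := add_le_add h1 h2
      _ = 2 := by norm_num

end Pool.Agent.HD
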