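import Pool.Agent.Lib.MP_8ca597_hd.B50
import Pool.Agent.Lib.MP_8ca597_hd.B51
import Pool.Agent.Lib.MP_8ca597_hd.B53

/-!
# Row B54: the bootstrap

`TB.lc`, `BH.lc`: `Lc` of every bounded quantity (the bound of `q` by continuity). `BH.anti`: monotonicity.
`boot_all`: let `s` be the supremum of the `p` in `[1/(4d), min(pc, 1/2))` with `BH d p`. If
`s < min(pc, 1/2)`: `BH d s` (`BH.lc`), so `TB` at `s` (`improve`), and by `right_cpw`, `right_ff` (`Sub.opn` or
any `p1` in `(s, min(pc, 1/2))`) `BH d p` for some `p > s`.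
`boot`: all `p < min(pc, 1/2)` satisfy `p ≤ (1 + 11/d)/(2d)`, so `pc < 1/2`.
-/

set_option autoImplicit false

namespace Pool.Agent.HD

open Finset
open scoped ENNReal

variable {d m : ℕ}

/-- Continuity of the linear bound. -/
private theorem B54_lin {p c : ℝ} (h0 : 0 < p) (h : ∀ p' : ℝ, 0 ≤ p' → p' < p → 2 * d * p' ≤ c) :
    2 * d * p ≤ c := by
  by_contra hcon
  push Not at hcon
  rcases Nat.eq_zero_or_pos d with hd | hd
  · subst hd
    have := h 0 le_rfl h0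
    simp at this hcon
    linarith
  · have hd' : (0 : ℝ) < 2 * d := by positivity
    -- take p' = max 0 ((c / (2d) + p) / 2)
    have h1 : c / (2 * d) < p := by rw [div_lt_iff₀ hd']; linarith
    have h2 := h (max 0 ((c / (2 * d) + p) / 2)) (le_max_left _ _)
      (max_lt h0 (by linarith))
    have h3 : (c / (2 * d) + p) / 2 ≤ max 0 ((c / (2 * d) + p) / 2) := le_max_right _ _
    have h4 : 2 * d * ((c / (2 * d) + p) / 2) ≤ c :=
      (mul_le_mul_of_nonneg_left h3 hd'.le).trans h2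
    have h5 : 2 * d * ((c / (2 * d) + p) / 2) = (c + 2 * d * p) / 2 := by
      field_simp
    rw [h5] at h4
    linarith

theorem BH.anti {p p' : ℝ} (h0 : 0 ≤ p) (hpp : p ≤ p') (hp1 : p' ≤ 1) (h : BH d p') :
    BH d p where
  q := (mul_le_mul_of_nonneg_left hpp (by positivity)).trans h.q
  f e r hr := ((Lc.ff e r).mono p p' h0 hpp hp1).trans (h.f e r hr)
  w3 e := ((Lc.cpw (f := fun p => tw p) Lc.tw 3 (uv e)).mono p p' h0 hpp hp1).trans (h.w3 e)
  w4 e e' := ((Lc.cpw (f := fun p => tw p) Lc.tw 4 (uv e - uv e')).mono p p' h0 hpp hp1).trans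
    (h.w4 e e')

theorem BH.lc {p : ℝ} (h0 : 0 < p) (hp1 : p ≤ 1) (h : ∀ p' : ℝ, 0 ≤ p' → p' < p → BH d p') :
    BH d p where
  q := B54_lin h0 fun p' h1 h2 => (h p' h1 h2).q
  f e r hr := (Lc.ff e r).left p h0 hp1 _ fun p' h1 h2 => (h p' h1 h2).f e r hr
  w3 e := (Lc.cpw (f := fun p => tw p) Lc.tw 3 (uv e)).left p h0 hp1 _
    fun p' h1 h2 => (h p' h1 h2).w3 e
  w4 e e' := (Lc.cpw (f := fun p => tw p) Lc.tw 4 (uv e - uv e')).left p h0 hp1 _
    fun p' h1 h2 => (h p' h1 h2).w4 e e'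

private theorem B54_symm (p : ℝ) (π : Equiv.Perm (Fin d)) (x : Vx d) :
    tw p (fun i => x (π i)) = tw p x := by
  have h := tw_sp p π (fun _ => 1) x
  have h2 : sp π (fun _ => 1) x = fun i => x (π i) := by
    funext i
    show ((1 : ℤˣ) : ℤ) * x (π i) = x (π i)
    simp
  rw [h2] at h
  exact h

theorem TB.anti {h : m ≤ d} {p p' C CB : ℝ} (h0 : 0 ≤ p) (hpp : p ≤ p') (hp1 : p' ≤ 1)
    (ht : TB h p' C CB) : TB h p C CB where
  q := (mul_le_mul_of_nonneg_left hpp (by positivity)).trans ht.q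
  f e r hr := ((Lc.ff e r).mono p p' h0 hpp hp1).trans (ht.f e r hr)
  w3 e := ((Lc.cpw (f := fun p => tw p) Lc.tw 3 (uv e)).mono p p' h0 hpp hp1).trans (ht.w3 e)
  w4 e e' := ((Lc.cpw (f := fun p => tw p) Lc.tw 4 (uv e - uv e')).mono p p' h0 hpp hp1).trans
    (ht.w4 e e')
  dy := {
    vol := fun R hR => ((Lc.Vv h (g := fun p => tt p) Lc.tt R).mono p p' h0 hpp hp1).trans
      (ht.dy.vol R hR)
    dc := {
      symm := fun π x => B54_symm p π x
      vol := fun R hR => ((Lc.Vv h (g := fun p => tw p) Lc.tw R).mono p p' h0 hpp hp1).trans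
        (ht.dy.dc.vol R hR)
      dec := fun k => (mul_le_mul' ((Lc.tpj h (g := fun p => tw p) Lc.tw k).mono p p' h0 hpp hp1)
        le_rfl).trans (ht.dy.dc.dec k) } }
  fl E R hE hR := ((Lc.flux (BoxS E R) 0).mono p p' h0 hpp hp1).trans (ht.fl E R hE hR)
  dg k h1 h4 x := ((Lc.cpw (f := fun p => tw p) Lc.tw k x).mono p p' h0 hpp hp1).trans
    (ht.dg k h1 h4 x)
  c2 x hx := ((Lc.cv (f := fun p => tt p) (g := fun p => tt p) Lc.tt Lc.tt x).mono
    p p' h0 hpp hp1).trans (ht.c2 x hx)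

theorem TB.lc {h : m ≤ d} {p C CB : ℝ} (h0 : 0 < p) (hp1 : p ≤ 1)
    (ht : ∀ p' : ℝ, 0 ≤ p' → p' < p → TB h p' C CB) : TB h p C CB where
  q := B54_lin h0 fun p' h1 h2 => (ht p' h1 h2).q
  f e r hr := (Lc.ff e r).left p h0 hp1 _ fun p' h1 h2 => (ht p' h1 h2).f e r hr
  w3 e := (Lc.cpw (f := fun p => tw p) Lc.tw 3 (uv e)).left p h0 hp1 _
    fun p' h1 h2 => (ht p' h1 h2).w3 e
  w4 e e' := (Lc.cpw (f := fun p => tw p) Lc.tw 4 (uv e - uv e')).left p h0 hp1 _
    fun p' h1 h2 => (ht p' h1 h2).w4 e e'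
  dy := {
    vol := fun R hR => (Lc.Vv h (g := fun p => tt p) Lc.tt R).left p h0 hp1 _
      fun p' h1 h2 => (ht p' h1 h2).dy.vol R hR
    dc := {
      symm := fun π x => B54_symm p π x
      vol := fun R hR => (Lc.Vv h (g := fun p => tw p) Lc.tw R).left p h0 hp1 _
        fun p' h1 h2 => (ht p' h1 h2).dy.dc.vol R hR
      dec := fun k => (Lc.mul (Lc.tpj h (g := fun p => tw p) Lc.tw k)
        (Lc.const ((nm k : ℝ≥0∞) ^ (m - 11)))).left p h0 hp1 _
        fun p' h1 h2 => (ht p' h1 h2).dy.dc.dec k } }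
  fl E R hE hR := (Lc.flux (BoxS E R) 0).left p h0 hp1 _
    fun p' h1 h2 => (ht p' h1 h2).fl E R hE hR
  dg k h1 h4 x := (Lc.cpw (f := fun p => tw p) Lc.tw k x).left p h0 hp1 _
    fun p' h5 h6 => (ht p' h5 h6).dg k h1 h4 x
  c2 x hx := (Lc.cv (f := fun p => tt p) (g := fun p => tt p) Lc.tt Lc.tt x).left p h0 hp1 _
    fun p' h1 h2 => (ht p' h1 h2).c2 x hx

/-- The step of the continuity argument. -/
private theorem B54_step {h : m ≤ d} (hd : 1 ≤ d) {s p1 C CB : ℝ} (hs0 : 0 ≤ s) (hsp : s < p1)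
    (hp1 : p1 ≤ 1 / 2) (hsub : Sub d p1) (ht : TB h s C CB) : ∃ p : ℝ, s < p ∧ p ≤ p1 ∧ BH d p := by
  have hd' : (0 : ℝ) < d := by exact_mod_cast hd
  have hp10 : 0 ≤ p1 := hs0.trans hsp.le
  obtain ⟨M3, hM3, h3⟩ := right_cpw hp10 (by linarith) hsub 3
  obtain ⟨M4, hM4, h4⟩ := right_cpw hp10 (by linarith) hsub 4
  obtain ⟨M, hM, hf⟩ := right_ff hp10 (by linarith) hsub
  set A : ℝ := M3.toReal + M4.toReal + M.toReal + 1 with hA
  have hA1 : 1 ≤ A := by
    have := @ENNReal.toReal_nonneg M3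
    have := @ENNReal.toReal_nonneg M4
    have := @ENNReal.toReal_nonneg M
    linarith
  have hsq : 0 < √(d : ℝ) := Real.sqrt_pos.2 hd'
  set η : ℝ := min (9 / (2 * d ^ 2)) (min (1 / (4 * A)) (1 / (4 * √d * A))) with hη
  have hη0 : 0 < η := by
    refine lt_min (by positivity) (lt_min (by positivity) (by positivity))
  set p : ℝ := min p1 (s + η) with hp
  have hsp' : s < p := lt_min hsp (by linarith)
  have hpp1 : p ≤ p1 := min_le_left _ _
  have hpη : p - s ≤ η := by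
    have : p ≤ s + η := min_le_right _ _
    linarith
  have hfrac : (p - s) / (1 - s) ≤ 2 * η := by
    rw [div_le_iff₀ (by linarith)]
    nlinarith
  have hbd : ∀ N : ℝ≥0∞, N ≠ ⊤ → N.toReal ≤ A → ENNReal.ofReal ((p - s) / (1 - s)) * N ≤
      ENNReal.ofReal (2 * η * A) := by
    intro N hN hNA
    rw [← ENNReal.ofReal_toReal hN, ← ENNReal.ofReal_mul' ENNReal.toReal_nonneg]
    refine ENNReal.ofReal_le_ofReal ?_
    exact mul_le_mul hfrac hNA ENNReal.toReal_nonneg (by positivity)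
  have hM3A : M3.toReal ≤ A := by
    have := @ENNReal.toReal_nonneg M4
    have := @ENNReal.toReal_nonneg M
    linarith
  have hM4A : M4.toReal ≤ A := by
    have := @ENNReal.toReal_nonneg M3
    have := @ENNReal.toReal_nonneg M
    linarith
  have hMA : M.toReal ≤ A := by
    have := @ENNReal.toReal_nonneg M3
    have := @ENNReal.toReal_nonneg M4
    linarith
  have hη1 : 2 * η * A ≤ 1 / 2 := by
    have h1 : η ≤ 1 / (4 * A) := (min_le_right _ _).trans (min_le_left _ _)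
    have h2 : η * A ≤ 1 / (4 * A) * A := mul_le_mul_of_nonneg_right h1 (by linarith)
    have h3 : 1 / (4 * A) * A = 1 / 4 := by field_simp
    linarith
  have hη2 : 2 * η * A ≤ 1 / (2 * √d) := by
    have h1 : η ≤ 1 / (4 * √d * A) := (min_le_right _ _).trans (min_le_right _ _)
    have h2 : η * A ≤ 1 / (4 * √d * A) * A := mul_le_mul_of_nonneg_right h1 (by linarith)
    have h3 : 1 / (4 * √d * A) * A = 1 / (4 * √d) := by field_simp
    have h4 : 2 * (1 / (4 * √(d : ℝ))) = 1 / (2 * √d) := by field_simp; norm_num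
    linarith
  have hη3 : 2 * d * η ≤ 9 / d := by
    have h1 : η ≤ 9 / (2 * d ^ 2) := min_le_left _ _
    have h2 : 2 * d * η ≤ 2 * d * (9 / (2 * d ^ 2)) :=
      mul_le_mul_of_nonneg_left h1 (by positivity)
    have h3 : 2 * (d : ℝ) * (9 / (2 * d ^ 2)) = 9 / d := by field_simp
    linarith
  refine ⟨p, hsp', hpp1, ?_⟩
  refine ⟨?_, ?_, ?_, ?_⟩
  · have h1 := ht.q
    have h2 : 2 * (d : ℝ) * p ≤ 2 * d * s + 2 * d * η := by
      have : 2 * (d : ℝ) * p ≤ 2 * d * (s + η) :=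
        mul_le_mul_of_nonneg_left (by linarith) (by positivity)
      linarith
    have h5 : (11 : ℝ) / d + 9 / d = 20 / d := by ring
    linarith
  · intro e r hr
    refine (hf s p hs0 hsp'.le hpp1 e r hr).trans ?_
    refine (add_le_add (ht.f e r hr) ((hbd M hM hMA).trans (ENNReal.ofReal_le_ofReal hη1))).trans ?_
    have h1 : (3 / 2 : ℝ≥0∞) = ENNReal.ofReal (3 / 2) := by
      rw [ENNReal.ofReal_div_of_pos (by norm_num)]
      norm_num
    rw [h1, ← ENNReal.ofReal_add (by norm_num) (by norm_num)]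
    norm_num
  · intro e
    refine (h3 s p hs0 hsp'.le hpp1 (uv e)).trans ?_
    refine (add_le_add (ht.w3 e) ((hbd M3 hM3 hM3A).trans (ENNReal.ofReal_le_ofReal hη2))).trans ?_
    rw [← ENNReal.ofReal_add (by positivity) (by positivity)]
    refine ENNReal.ofReal_le_ofReal (le_of_eq ?_)
    field_simp
    norm_num
  · intro e e'
    refine (h4 s p hs0 hsp'.le hpp1 (uv e - uv e')).trans ?_
    refine (add_le_add (ht.w4 e e') ((hbd M4 hM4 hM4A).trans
      (ENNReal.ofReal_le_ofReal hη1))).trans ?_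
    have h1 : (2 : ℝ≥0∞) = ENNReal.ofReal 2 := by norm_num
    have h2 : (4 : ℝ≥0∞) = ENNReal.ofReal 4 := by norm_num
    rw [h1, h2, ← ENNReal.ofReal_add (by norm_num) (by norm_num)]
    exact ENNReal.ofReal_le_ofReal (by norm_num)

theorem boot_all (m : ℕ) (hm : 300 ≤ m) : ∃ d0 : ℕ, ∀ d : ℕ, d0 ≤ d → m ≤ d → ∀ p : ℝ,
    1 / (4 * d : ℝ) ≤ p → p < pc d → p < 1 / 2 → BH d p := by
  obtain ⟨db, hdb1, hbase⟩ := base
  obtain ⟨C, CB, hC, hCB, di, himp⟩ := improve m hm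
  refine ⟨max db di, ?_⟩
  intro d hd h p hp hpc hp2
  have hdb : db ≤ d := (le_max_left _ _).trans hd
  have hdi : di ≤ d := (le_max_right _ _).trans hd
  have hd1 : 1 ≤ d := hdb1.trans hdb
  have hd' : (0 : ℝ) < d := by exact_mod_cast hd1
  have h4d : (0 : ℝ) < 1 / (4 * d) := by positivity
  by_contra hcon
  set S : Set ℝ := {x | 1 / (4 * d : ℝ) ≤ x ∧ x ≤ p ∧ BH d x} with hS
  have hmem : 1 / (4 * d : ℝ) ∈ S := ⟨le_rfl, hp, hbase d hdb⟩
  have hbdd : BddAbove S := ⟨p, fun x hx => hx.2.1⟩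
  set s : ℝ := sSup S with hs
  have hs1 : 1 / (4 * d : ℝ) ≤ s := le_csSup hbdd hmem
  have hsp : s ≤ p := csSup_le ⟨_, hmem⟩ fun x hx => hx.2.1
  have hs0 : 0 < s := h4d.trans_le hs1
  have hBs : BH d s := by
    refine BH.lc hs0 (by linarith) ?_
    intro p' h0 hp'
    obtain ⟨x, hx, hxp⟩ := exists_lt_of_lt_csSup ⟨_, hmem⟩ hp'
    exact BH.anti h0 hxp.le (by linarith [hx.2.1]) hx.2.2
  have hne : s ≠ p := fun heq => hcon (heq ▸ hBs)
  have hlt : s < p := lt_of_le_of_ne hsp hne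
  have hT := himp d hdi h s hs1 (by linarith) (sub_of_lt hs0.le (hlt.trans hpc)) hBs
  obtain ⟨p2, h1, h2, h3⟩ := B54_step hd1 hs0.le hlt hp2.le
    (sub_of_lt (hs0.le.trans hlt.le) hpc) hT
  have : p2 ≤ s := le_csSup hbdd ⟨hs1.trans h1.le, h2, h3⟩
  linarith

/-- Theorem B: `pc < 1/2` and the bounds up to and including the critical point. -/
theorem boot_crit (m : ℕ) (hm : 300 ≤ m) : ∃ C CB : ℝ, 0 < C ∧ 0 < CB ∧ ∃ d0 : ℕ, ∀ d : ℕ,
    d0 ≤ d → ∀ h : m ≤ d, 1 / (2 * d : ℝ) ≤ pc d ∧ pc d < 1 / 2 ∧ ∀ p : ℝ, 0 ≤ p →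
      p ≤ pc d → TB h p C CB := by
  obtain ⟨da, hall⟩ := boot_all m hm
  obtain ⟨C, CB, hC, hCB, di, himp⟩ := improve m hm
  refine ⟨C, CB, hC, hCB, max (max da di) 8, ?_⟩
  intro d hd h
  have hda : da ≤ d := ((le_max_left _ _).trans (le_max_left _ _)).trans hd
  have hdi : di ≤ d := ((le_max_right _ _).trans (le_max_left _ _)).trans hd
  have hd8 : 8 ≤ d := (le_max_right _ _).trans hd
  have hd8' : (8 : ℝ) ≤ d := by exact_mod_cast hd8
  have hd0 : (0 : ℝ) < d := by linarith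
  have hpos : 1 / (2 * d : ℝ) ≤ pc d := pc_pos (by omega)
  have hlt : pc d < 1 / 2 := by
    by_contra hcon
    push Not at hcon
    have h1 : 1 / (4 * d : ℝ) ≤ 2 / 5 := by
      rw [div_le_div_iff₀ (by positivity) (by norm_num)]
      linarith
    have h2 := (hall d hda h (2 / 5) h1 (by linarith) (by norm_num)).q
    have h3 : (20 : ℝ) / d ≤ 20 / 8 := div_le_div_of_nonneg_left (by norm_num) (by norm_num) hd8'
    linarith
  refine ⟨hpos, hlt, ?_⟩
  have hpc0 : 0 < pc d := lt_of_lt_of_le (by positivity) hpos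
  have h42 : 1 / (4 * d : ℝ) < 1 / (2 * d) := by
    rw [div_lt_div_iff₀ (by positivity) (by positivity)]
    linarith
  have key : ∀ p : ℝ, 0 ≤ p → p < pc d → TB h p C CB := by
    intro p hp0 hp
    have hmx : max p (1 / (4 * d)) < pc d := max_lt hp (h42.trans_le hpos)
    have h1 : TB h (max p (1 / (4 * d))) C CB := by
      refine himp d hdi h _ (le_max_right _ _) (by linarith)
        (sub_of_lt (hp0.trans (le_max_left _ _)) hmx) ?_
      exact hall d hda h _ (le_max_right _ _) hmx (by linarith)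
    exact TB.anti hp0 (le_max_left _ _) (by linarith) h1
  intro p hp0 hp
  rcases lt_or_eq_of_le hp with hlt' | rfl
  · exact key p hp0 hlt'
  · exact TB.lc hpc0 (by linarith) fun p' h1 h2 => key p' h1 h2

end Pool.Agent.HD
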