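import Pool.Agent.Lib.MP_8ca597_hd.A09
import Pool.Agent.Lib.MP_8ca597_hd.A08
import Pool.Agent.Lib.MP_8ca597_hd.A10
import Pool.Agent.Lib.MP_8ca597_hd.A11

/-!
# Row B60: the two-level Bonferroni inequality

`EE_two`: `T = T1 ∪ H`, `T1` with parameter `p`, `H` with parameter `r`. Let `K = cl T1 V a`. For
`q ∈ prs V` let `A q` be the event `q.1 ∈ K`, `q.2 ∉ K`, `s(q) ∈ H`, `Conn T1 (V \ K) q.2 x`. The union of
the `A q` and `x ∈ K` are disjoint and contained in `Conn T V a x`. `PP_bonf`. Given `K`, `H` and the edges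
of `T1` in `V \ K` are independent and fresh (`expl`, as in rows A08, A09), `PP (A q)` is `r` times the
expectation of `1_{q.1 ∈ K, q.2 ∉ K} tau p (V \ K) q.2 x`; by `OFF`
`tau p V q.2 x ≤ tau p (V \ K) q.2 x + ∑_{c ∈ K} tau p V q.2 c * tau p V c x`, and for `q.2 ∈ K` the sum alone
(its term `c = q.2`) is at least `tau p V q.2 x`. For `q ≠ q'` the edges are different, `TG` in `V \ K`.
-/

set_option autoImplicit false

namespace Pool.Agent.HD

open Finset
open scoped ENNReal

variable {d : ℕ}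

private theorem B60_mem_prs {V : Finset (Vx d)} {q : Vx d × Vx d} (h : q ∈ prs V) :
    q.1 ∈ V ∧ q.2 ∈ V ∧ Adj q.1 q.2 := by
  classical
  unfold prs at h
  rw [mem_filter, mem_product] at h
  exact ⟨h.1.1, h.1.2, h.2⟩

private theorem B60_dep_mem (e : Ed d) : Dep {U : Finset (Ed d) | e ∈ U} {e} := by
  intro T T' h
  have h1 : e ∈ T ∩ {e} ↔ e ∈ T' ∩ {e} := by rw [h]
  simpa using h1

private theorem B60_tau_symm (p : ℝ) (V : Finset (Vx d)) (x y : Vx d) :
    tau p V x y = tau p V y x := by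
  unfold tau
  exact PP_congr fun T _ => ⟨fun h => h.symm, fun h => h.symm⟩

open Classical in
private theorem B60_key {r : ℝ} (hr : 0 ≤ r) (hr1 : r ≤ 1) (V : Finset (Vx d)) (a x : Vx d)
    (T1 : Finset (Ed d)) :
    (if x ∈ cl T1 V a then (1 : ℝ) else 0) + ∑ q ∈ prs V,
      (if q.1 ∈ cl T1 V a ∧ Conn T1 ((V \ cl T1 V a : Finset (Vx d)) : Set (Vx d)) q.2 x
        then r else 0) ≤
    PP r (edges V) {T2 | Conn (T1 ∪ T2) V a x} + ∑ q ∈ prs V, ∑ q' ∈ (prs V).erase q,
      (if (q.1 ∈ cl T1 V a ∧ Conn T1 ((V \ cl T1 V a : Finset (Vx d)) : Set (Vx d)) q.2 x) ∧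
        (q'.1 ∈ cl T1 V a ∧ Conn T1 ((V \ cl T1 V a : Finset (Vx d)) : Set (Vx d)) q'.2 x)
        then r ^ 2 else 0) := by
  obtain ⟨K, hK⟩ : ∃ K, K = cl T1 V a := ⟨_, rfl⟩
  rw [← hK]
  by_cases hx : x ∈ K
  · have h1 : ∀ q ∈ prs V, (if q.1 ∈ K ∧ Conn T1 ((V \ K : Finset (Vx d)) : Set (Vx d)) q.2 x
        then r else 0) = 0 := by
      intro q _
      rw [if_neg]
      rintro ⟨-, h2⟩
      have h3 := h2.right
      rw [mem_coe, mem_sdiff] at h3
      exact h3.2 hx
    rw [sum_congr rfl h1, sum_const_zero, add_zero, if_pos hx]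
    have h2 : PP r (edges V) {T2 | Conn (T1 ∪ T2) V a x} = 1 := by
      rw [← PP_univ r (edges V)]
      refine PP_congr fun T _ => ⟨fun _ => Set.mem_univ _, fun _ => ?_⟩
      have h3 : Conn T1 V a x := mem_cl.1 (hK ▸ hx)
      exact h3.mono subset_union_left (Set.Subset.refl _)
    rw [h2]
    have h3 : 0 ≤ ∑ q ∈ prs V, ∑ q' ∈ (prs V).erase q,
      (if (q.1 ∈ K ∧ Conn T1 ((V \ K : Finset (Vx d)) : Set (Vx d)) q.2 x) ∧
        (q'.1 ∈ K ∧ Conn T1 ((V \ K : Finset (Vx d)) : Set (Vx d)) q'.2 x)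
        then r ^ 2 else 0) := by
      refine sum_nonneg fun q _ => sum_nonneg fun q' _ => ?_
      split_ifs
      · positivity
      · exact le_rfl
    linarith
  · rw [if_neg hx, zero_add]
    obtain ⟨A, hA⟩ : ∃ A : Vx d × Vx d → Set (Finset (Ed d)), ∀ q, A q =
        {T2 | (q.1 ∈ K ∧ Conn T1 ((V \ K : Finset (Vx d)) : Set (Vx d)) q.2 x) ∧
          s(q.1, q.2) ∈ T2} := ⟨_, fun _ => rfl⟩
    have hb := PP_bonf hr hr1 (S := edges V) (prs V) A
    have hA1 : ∀ q ∈ prs V, PP r (edges V) (A q) =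
        (if q.1 ∈ K ∧ Conn T1 ((V \ K : Finset (Vx d)) : Set (Vx d)) q.2 x then r else 0) := by
      intro q hq
      obtain ⟨h1, h2, h3⟩ := B60_mem_prs hq
      rw [hA]
      split_ifs with h4
      · refine Eq.trans (PP_congr fun T _ => ?_) (PP_mem r (mem_edges.2 ⟨h1, h2, h3⟩))
        exact ⟨fun h => h.2, fun h => ⟨h4, h⟩⟩
      · rw [← PP_empty r (edges V)]
        exact PP_congr fun T _ => ⟨fun h => absurd h.1 h4, fun h => absurd h (Set.notMem_empty _)⟩
    have hA2 : ∀ q ∈ prs V, ∀ q' ∈ (prs V).erase q, PP r (edges V) (A q ∩ A q') =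
        (if (q.1 ∈ K ∧ Conn T1 ((V \ K : Finset (Vx d)) : Set (Vx d)) q.2 x) ∧
          (q'.1 ∈ K ∧ Conn T1 ((V \ K : Finset (Vx d)) : Set (Vx d)) q'.2 x)
          then r ^ 2 else 0) := by
      intro q hq q' hq'
      obtain ⟨h1, h2, h3⟩ := B60_mem_prs hq
      rw [mem_erase] at hq'
      obtain ⟨h1', h2', h3'⟩ := B60_mem_prs hq'.2
      rw [hA, hA]
      split_ifs with h4
      · have hne : s(q.1, q.2) ≠ s(q'.1, q'.2) := by
          intro he
          rw [Sym2.eq_iff] at he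
          rcases he with ⟨h5, h6⟩ | ⟨h5, h6⟩
          · exact hq'.1 (Prod.ext h5.symm h6.symm)
          · have h7 := h4.2.2.left
            rw [mem_coe, mem_sdiff, ← h5] at h7
            exact h7.2 h4.1.1
        have h8 := PP_inter r (S := edges V) (S1 := {s(q.1, q.2)}) (S2 := {s(q'.1, q'.2)})
          (singleton_subset_iff.2 (mem_edges.2 ⟨h1, h2, h3⟩))
          (singleton_subset_iff.2 (mem_edges.2 ⟨h1', h2', h3'⟩))
          (disjoint_singleton.2 hne) (B60_dep_mem _) (B60_dep_mem _)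
        rw [PP_mem r (mem_edges.2 ⟨h1, h2, h3⟩), PP_mem r (mem_edges.2 ⟨h1', h2', h3'⟩),
          ← pow_two] at h8
        rw [← h8]
        exact PP_congr fun T _ => ⟨fun h => ⟨h.1.2, h.2.2⟩, fun h => ⟨⟨h4.1, h.1⟩, ⟨h4.2, h.2⟩⟩⟩
      · rw [← PP_empty r (edges V)]
        exact PP_congr fun T _ => ⟨fun h => absurd ⟨h.1.1, h.2.1⟩ h4,
          fun h => absurd h (Set.notMem_empty _)⟩
    rw [sum_congr rfl hA1, sum_congr rfl fun q hq => sum_congr rfl fun q' hq' =>
      hA2 q hq q' hq'] at hb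
    refine hb.trans (add_le_add ?_ le_rfl)
    refine PP_mono hr hr1 fun T2 _ h => ?_
    obtain ⟨q, hq, hT⟩ := h
    obtain ⟨h1, h2, h3⟩ := B60_mem_prs hq
    rw [hA] at hT
    obtain ⟨⟨h4, h5⟩, h6⟩ := hT
    have h7 : Conn T1 V a q.1 := mem_cl.1 (hK ▸ h4)
    have h8 : Conn (T1 ∪ T2) (V : Set (Vx d)) a q.1 :=
      h7.mono subset_union_left (Set.Subset.refl _)
    have h9 : Conn (T1 ∪ T2) (V : Set (Vx d)) a q.2 :=
      h8.step (mem_coe.2 h2) h3 (mem_union_right _ h6)
    exact h9.trans (h5.mono subset_union_left (coe_subset.2 sdiff_subset))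

open Classical in
private theorem B60_expl (p c : ℝ) (V : Finset (Vx d)) (a : Vx d) (P : Finset (Vx d) → Prop)
    (C : Finset (Vx d) → Finset (Ed d) → Prop)
    (hC : ∀ K T, C K (T ∩ edges (V \ K)) ↔ C K T) :
    (EE p (edges V) fun T => if P (cl T V a) ∧ C (cl T V a) T then c else 0) =
      EE p (edges V) fun T => if P (cl T V a) then
        c * PP p (edges (V \ cl T V a)) {U | C (cl T V a) U} else 0 := by
  have key := expl_out p (le_refl V) a (fun K U => if P K ∧ C K U then c else 0)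
  have e1 : (EE p (edges V) fun T => if P (cl T V a) ∧ C (cl T V a) T then c else 0) =
      EE p (edges V) (fun T => (fun K U => if P K ∧ C K U then c else 0) (cl T V a)
        (T ∩ edges (V \ cl T V a))) := by
    apply EE_congr
    intro T _
    have h1 := hC (cl T V a) T
    by_cases h2 : P (cl T V a) ∧ C (cl T V a) T
    · rw [if_pos h2]
      exact (if_pos ⟨h2.1, h1.2 h2.2⟩).symm
    · rw [if_neg h2]
      exact (if_neg fun h3 => h2 ⟨h3.1, h1.1 h3.2⟩).symm
  rw [e1, key]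
  apply EE_congr
  intro T _
  by_cases h2 : P (cl T V a)
  · rw [if_pos h2, PP_def, ← EE_const_mul]
    apply EE_congr
    intro U _
    by_cases h3 : C (cl T V a) U
    · rw [if_pos ⟨h2, h3⟩, if_pos (show U ∈ {U | C (cl T V a) U} from h3), mul_one]
    · rw [if_neg (fun h4 => h3 h4.2), if_neg (show U ∉ {U | C (cl T V a) U} from h3), mul_zero]
  · rw [if_neg h2, EE_congr (g := fun _ => (0 : ℝ)) fun U _ => if_neg fun h3 => h2 h3.1, EE_const]

theorem bonf_two {p p' r : ℝ} (h0 : 0 ≤ p) (hp : p ≤ 1 / 2) (hr : 0 ≤ r) (hr1 : r ≤ 1)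
    (h : 1 - p' = (1 - p) * (1 - r)) (V : Finset (Vx d)) (a x : Vx d) :
    tau p V a x + r * ∑ q ∈ prs V, tau p V a q.1 * tau p V q.2 x ≤ tau p' V a x +
      r * ∑ q ∈ prs V, ∑ c ∈ V, PP p (edges V) {T | Conn T V a q.1 ∧ Conn T V a c} *
        (tau p V q.2 c * tau p V c x) +
      r ^ 2 * ∑ q ∈ prs V, ∑ q' ∈ (prs V).erase q,
        PP p (edges V) {T | Conn T V a q.1 ∧ Conn T V a q'.1} *
          ∑ w ∈ V, tau p V q.2 w * tau p V q'.2 w * tau p V w x := by
  classical
  have hp1 : p ≤ 1 := by linarith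
  have e1 : tau p' V a x = EE p (edges V) fun T1 =>
      PP r (edges V) {T2 | Conn (T1 ∪ T2) V a x} := by
    unfold tau
    rw [PP_def, EE_two h]
    apply EE_congr
    intro T1 _
    rw [PP_def]
    apply EE_congr
    intro T2 _
    simp only [Set.mem_ofPred_eq]
  have hkey := EE_mono (p := p) (S := edges V) h0 hp1 fun T1 _ => B60_key hr hr1 V a x T1
  rw [EE_add, EE_add, EE_sum, EE_sum, ← e1] at hkey
  have e2 : EE p (edges V) (fun T1 => if x ∈ cl T1 V a then (1 : ℝ) else 0) = tau p V a x := by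
    rw [tau_eq_EE]
  rw [e2] at hkey
  -- the first sum
  have e3 : ∀ q ∈ prs V, r * (tau p V a q.1 * tau p V q.2 x) -
      r * ∑ c ∈ V, PP p (edges V) {T | Conn T V a q.1 ∧ Conn T V a c} *
        (tau p V q.2 c * tau p V c x) ≤
      EE p (edges V) fun T1 => if q.1 ∈ cl T1 V a ∧
        Conn T1 ((V \ cl T1 V a : Finset (Vx d)) : Set (Vx d)) q.2 x then r else 0 := by
    intro q _
    have h1 := B60_expl p r V a (fun K => q.1 ∈ K)
      (fun K U => Conn U ((V \ K : Finset (Vx d)) : Set (Vx d)) q.2 x)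
      (fun K T => conn_inter_edges)
    have h2 : (EE p (edges V) fun T1 => if q.1 ∈ cl T1 V a ∧
        Conn T1 ((V \ cl T1 V a : Finset (Vx d)) : Set (Vx d)) q.2 x then r else 0) =
        EE p (edges V) fun T => if q.1 ∈ cl T V a then
          r * tau p (V \ cl T V a) q.2 x else 0 := by
      refine Eq.trans ?_ (h1.trans ?_)
      · apply EE_congr
        intro T _
        congr 1
      · apply EE_congr
        intro T _
        by_cases h3 : q.1 ∈ cl T V a
        · rw [if_pos h3, if_pos h3]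
          rfl
        · rw [if_neg h3, if_neg h3]
    rw [h2]
    have h3 : r * (tau p V a q.1 * tau p V q.2 x) -
        r * ∑ c ∈ V, PP p (edges V) {T | Conn T V a q.1 ∧ Conn T V a c} *
          (tau p V q.2 c * tau p V c x) =
        EE p (edges V) fun T => (if q.1 ∈ cl T V a then (1 : ℝ) else 0) * (r * tau p V q.2 x) -
          r * ∑ c ∈ V, (if T ∈ {T : Finset (Ed d) | Conn T V a q.1 ∧ Conn T V a c} then
            (1 : ℝ) else 0) * (tau p V q.2 c * tau p V c x) := by
      rw [EE_sub, EE_mul_const, EE_const_mul, EE_sum]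
      have h4 : EE p (edges V) (fun T => if q.1 ∈ cl T V a then (1 : ℝ) else 0) =
          tau p V a q.1 := by
        rw [tau_eq_EE]
      rw [h4]
      have h5 : ∀ c ∈ V, PP p (edges V) {T | Conn T V a q.1 ∧ Conn T V a c} *
          (tau p V q.2 c * tau p V c x) = EE p (edges V) fun T =>
          (if T ∈ {T : Finset (Ed d) | Conn T V a q.1 ∧ Conn T V a c} then
            (1 : ℝ) else 0) * (tau p V q.2 c * tau p V c x) := by
        intro c _
        rw [EE_mul_const, PP_def]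
        congr 1
        apply EE_congr
        intro T _
        split_ifs <;> rfl
      rw [sum_congr rfl h5]
      ring
    rw [h3]
    refine EE_mono h0 hp1 fun T _ => ?_
    by_cases h4 : q.1 ∈ cl T V a
    · rw [if_pos h4, if_pos h4, one_mul]
      have h5 := OFF h0 hp V (cl T V a) q.2 x
      have h6 : ∑ c ∈ cl T V a, tau p V q.2 c * tau p V c x =
          ∑ c ∈ V, (if T ∈ {T : Finset (Ed d) | Conn T V a q.1 ∧ Conn T V a c} then
            (1 : ℝ) else 0) * (tau p V q.2 c * tau p V c x) := by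
        have h7 : ∀ c ∈ V, (if T ∈ {T : Finset (Ed d) | Conn T V a q.1 ∧ Conn T V a c} then
            (1 : ℝ) else 0) * (tau p V q.2 c * tau p V c x) =
            if c ∈ cl T V a then tau p V q.2 c * tau p V c x else 0 := by
          intro c _
          by_cases h8 : c ∈ cl T V a
          · rw [if_pos h8, if_pos (show T ∈ {T : Finset (Ed d) | Conn T V a q.1 ∧ Conn T V a c}
              from ⟨mem_cl.1 h4, mem_cl.1 h8⟩), one_mul]
          · rw [if_neg h8, if_neg (fun h9 : T ∈ {T : Finset (Ed d) | Conn T V a q.1 ∧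
              Conn T V a c} => h8 (mem_cl.2 h9.2)), zero_mul]
        rw [sum_congr rfl h7, ← sum_filter]
        congr 1
        ext c
        rw [mem_filter]
        exact ⟨fun h8 => ⟨cl_subset T V a h8, h8⟩, fun h8 => h8.2⟩
      rw [h6] at h5
      have h7 := mul_le_mul_of_nonneg_left h5 hr
      rw [mul_add] at h7
      linarith
    · rw [if_neg h4, if_neg h4, zero_mul]
      have h5 : ∑ c ∈ V, (if T ∈ {T : Finset (Ed d) | Conn T V a q.1 ∧ Conn T V a c} then
            (1 : ℝ) else 0) * (tau p V q.2 c * tau p V c x) = 0 := by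
        refine sum_eq_zero fun c _ => ?_
        rw [if_neg (fun h9 : T ∈ {T : Finset (Ed d) | Conn T V a q.1 ∧
              Conn T V a c} => h4 (mem_cl.2 h9.1)), zero_mul]
      rw [h5, mul_zero, sub_zero]
  -- the second sum
  have e4 : ∀ q ∈ prs V, ∀ q' ∈ (prs V).erase q, (EE p (edges V) fun T1 =>
      if (q.1 ∈ cl T1 V a ∧ Conn T1 ((V \ cl T1 V a : Finset (Vx d)) : Set (Vx d)) q.2 x) ∧
        (q'.1 ∈ cl T1 V a ∧ Conn T1 ((V \ cl T1 V a : Finset (Vx d)) : Set (Vx d)) q'.2 x)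
        then r ^ 2 else 0) ≤
      r ^ 2 * (PP p (edges V) {T | Conn T V a q.1 ∧ Conn T V a q'.1} *
          ∑ w ∈ V, tau p V q.2 w * tau p V q'.2 w * tau p V w x) := by
    intro q _ q' _
    have h1 := B60_expl p (r ^ 2) V a (fun K => q.1 ∈ K ∧ q'.1 ∈ K)
      (fun K U => Conn U ((V \ K : Finset (Vx d)) : Set (Vx d)) q.2 x ∧
        Conn U ((V \ K : Finset (Vx d)) : Set (Vx d)) q'.2 x)
      (fun K T => and_congr conn_inter_edges conn_inter_edges)
    have h2 : (EE p (edges V) fun T1 =>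
        if (q.1 ∈ cl T1 V a ∧ Conn T1 ((V \ cl T1 V a : Finset (Vx d)) : Set (Vx d)) q.2 x) ∧
          (q'.1 ∈ cl T1 V a ∧ Conn T1 ((V \ cl T1 V a : Finset (Vx d)) : Set (Vx d)) q'.2 x)
          then r ^ 2 else 0) =
        EE p (edges V) fun T => if q.1 ∈ cl T V a ∧ q'.1 ∈ cl T V a then
          r ^ 2 * PP p (edges (V \ cl T V a))
            {U | Conn U ((V \ cl T V a : Finset (Vx d)) : Set (Vx d)) q.2 x ∧
              Conn U ((V \ cl T V a : Finset (Vx d)) : Set (Vx d)) q'.2 x} else 0 := by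
      refine Eq.trans ?_ (h1.trans ?_)
      swap
      · apply EE_congr
        intro T _
        by_cases h3 : q.1 ∈ cl T V a ∧ q'.1 ∈ cl T V a
        · rw [if_pos h3, if_pos h3]
        · rw [if_neg h3, if_neg h3]
      apply EE_congr
      intro T _
      by_cases h3 : (q.1 ∈ cl T V a ∧
          Conn T ((V \ cl T V a : Finset (Vx d)) : Set (Vx d)) q.2 x) ∧
          (q'.1 ∈ cl T V a ∧ Conn T ((V \ cl T V a : Finset (Vx d)) : Set (Vx d)) q'.2 x)
      · rw [if_pos h3, if_pos ⟨⟨h3.1.1, h3.2.1⟩, h3.1.2, h3.2.2⟩]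
      · rw [if_neg h3, if_neg fun h4 => h3 ⟨⟨h4.1.1, h4.2.1⟩, ⟨h4.1.2, h4.2.2⟩⟩]
    rw [h2]
    have h3 : r ^ 2 * (PP p (edges V) {T | Conn T V a q.1 ∧ Conn T V a q'.1} *
          ∑ w ∈ V, tau p V q.2 w * tau p V q'.2 w * tau p V w x) =
        EE p (edges V) fun T => (if T ∈ {T : Finset (Ed d) | Conn T V a q.1 ∧
          Conn T V a q'.1} then (1 : ℝ) else 0) *
          (r ^ 2 * ∑ w ∈ V, tau p V q.2 w * tau p V q'.2 w * tau p V w x) := by
      rw [EE_mul_const, PP_def]
      have h4 : (EE p (edges V) fun T => if T ∈ {T : Finset (Ed d) | Conn T V a q.1 ∧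
          Conn T V a q'.1} then (1 : ℝ) else 0) = EE p (edges V) fun T =>
          if T ∈ {T : Finset (Ed d) | Conn T V a q.1 ∧ Conn T V a q'.1} then (1 : ℝ) else 0 := by
        apply EE_congr
        intro T _
        split_ifs <;> rfl
      rw [h4]
      ring_nf
    rw [h3]
    refine EE_mono h0 hp1 fun T _ => ?_
    by_cases h4 : q.1 ∈ cl T V a ∧ q'.1 ∈ cl T V a
    · rw [if_pos h4, if_pos (show T ∈ {T : Finset (Ed d) | Conn T V a q.1 ∧ Conn T V a q'.1} from
        ⟨mem_cl.1 h4.1, mem_cl.1 h4.2⟩), one_mul]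
      refine mul_le_mul_of_nonneg_left ?_ (sq_nonneg r)
      have h5 : PP p (edges (V \ cl T V a))
            {U | Conn U ((V \ cl T V a : Finset (Vx d)) : Set (Vx d)) q.2 x ∧
              Conn U ((V \ cl T V a : Finset (Vx d)) : Set (Vx d)) q'.2 x} =
          PP p (edges (V \ cl T V a))
            {U | Conn U ((V \ cl T V a : Finset (Vx d)) : Set (Vx d)) x q.2 ∧
              Conn U ((V \ cl T V a : Finset (Vx d)) : Set (Vx d)) x q'.2} :=
        PP_congr fun U _ => ⟨fun h6 => ⟨h6.1.symm, h6.2.symm⟩, fun h6 => ⟨h6.1.symm, h6.2.symm⟩⟩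
      rw [h5]
      refine (TG h0 hp (V \ cl T V a) x q.2 q'.2).trans ?_
      refine (sum_le_sum_of_subset_of_nonneg (sdiff_subset (s := V) (t := cl T V a))
        (fun w _ _ => ?_)).trans (sum_le_sum fun w _ => ?_)
      · exact mul_nonneg (mul_nonneg (tau_nonneg h0 hp1 _ _ _) (tau_nonneg h0 hp1 _ _ _))
          (tau_nonneg h0 hp1 _ _ _)
      · have t1 : tau p (V \ cl T V a) x w ≤ tau p V w x := by
          rw [B60_tau_symm p V w x]
          exact tau_mono h0 hp1 sdiff_subset x w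
        have t2 : tau p (V \ cl T V a) w q.2 ≤ tau p V q.2 w := by
          rw [B60_tau_symm p V q.2 w]
          exact tau_mono h0 hp1 sdiff_subset w q.2
        have t3 : tau p (V \ cl T V a) w q'.2 ≤ tau p V q'.2 w := by
          rw [B60_tau_symm p V q'.2 w]
          exact tau_mono h0 hp1 sdiff_subset w q'.2
        have n1 := tau_nonneg h0 hp1 (V \ cl T V a) x w
        have n2 := tau_nonneg h0 hp1 (V \ cl T V a) w q.2
        have n3 := tau_nonneg h0 hp1 (V \ cl T V a) w q'.2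
        calc tau p (V \ cl T V a) x w * tau p (V \ cl T V a) w q.2 *
              tau p (V \ cl T V a) w q'.2
            ≤ tau p V w x * tau p V q.2 w * tau p V q'.2 w :=
              mul_le_mul (mul_le_mul t1 t2 n2 (n1.trans t1)) t3 n3
                (mul_nonneg (n1.trans t1) (n2.trans t2))
          _ = tau p V q.2 w * tau p V q'.2 w * tau p V w x := by ring
    · rw [if_neg h4]
      refine mul_nonneg ?_ (mul_nonneg (sq_nonneg r) (sum_nonneg fun w _ => ?_))
      · split_ifs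
        · exact zero_le_one
        · exact le_rfl
      · exact mul_nonneg (mul_nonneg (tau_nonneg h0 hp1 _ _ _) (tau_nonneg h0 hp1 _ _ _))
          (tau_nonneg h0 hp1 _ _ _)
  have e5 := sum_le_sum e3
  rw [sum_sub_distrib, ← mul_sum, ← mul_sum] at e5
  have e6 : ∑ q ∈ prs V, EE p (edges V) (fun T1 => ∑ q' ∈ (prs V).erase q,
      if (q.1 ∈ cl T1 V a ∧ Conn T1 ((V \ cl T1 V a : Finset (Vx d)) : Set (Vx d)) q.2 x) ∧
        (q'.1 ∈ cl T1 V a ∧ Conn T1 ((V \ cl T1 V a : Finset (Vx d)) : Set (Vx d)) q'.2 x)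
        then r ^ 2 else 0) ≤ r ^ 2 * ∑ q ∈ prs V, ∑ q' ∈ (prs V).erase q,
        PP p (edges V) {T | Conn T V a q.1 ∧ Conn T V a q'.1} *
          ∑ w ∈ V, tau p V q.2 w * tau p V q'.2 w * tau p V w x := by
    rw [mul_sum]
    refine sum_le_sum fun q hq => ?_
    rw [mul_sum, EE_sum]
    exact sum_le_sum fun q' hq' => e4 q hq q' hq'
  linarith

end Pool.Agent.HD
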