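import Pool.Agent.Lib.MP_8ca597_hd.B60
import Pool.Agent.Lib.MP_8ca597_hd.B02
import Pool.Agent.Lib.MP_8ca597_hd.B01

/-!
# Row B61: lower bound of the increase of the susceptibility

`bonf_two` for `V = Bx d n`, `a = 0`, summed over `x ∈ V` (`∑_x tau p V c x ≤ chi`); the tree graph
inequality `TG` for the `PP`; all factors bounded by `tt`; neighbours are `q.2 = q.1 + uv e`:
`∑_z tt z ∑_u tt (u - z) ∑_c tt (c - z) tt (u + uv e - c) = chi * cpw (tt p) 3 (uv e)` and
`∑_z tt z ∑_{u,u'} tt (u - z) tt (u' - z) cv tt tt (u + uv e - u' - uv e') = chi * cpw (tt p) 4 (uv e - uv e')`.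
The left side for `n → ∞`: `∑_{x ∈ Bx n} tau p (Bx n) 0 x → chi` and
`∑_{q ∈ prs (Bx n)} tau 0 q.1 ∑_x tau q.2 x → 2 d chi^2` (suprema over finite sets of `q` and `x` first).
-/

set_option autoImplicit false

namespace Pool.Agent.HD

open Finset
open scoped ENNReal

variable {d : ℕ}

/-! ### Auxiliary lemmas -/

private theorem B61_mct {ι : Type} (f : ℕ → ι → ℝ≥0∞) (hf : ∀ i, Monotone fun n => f n i) :
    ∑' i, ⨆ n, f n i ≤ ⨆ n, ∑' i, f n i := by
  rw [ENNReal.tsum_eq_iSup_sum]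
  refine iSup_le fun s => ?_
  rw [ENNReal.finsetSum_iSup_of_monotone hf]
  exact iSup_le fun n => le_trans (ENNReal.sum_le_tsum s) (le_iSup (fun n => ∑' i, f n i) n)

private theorem B61_mul_iSup {f g : ℕ → ℝ≥0∞} (hf : Monotone f) (hg : Monotone g) :
    (⨆ n, f n) * (⨆ n, g n) ≤ ⨆ n, f n * g n := by
  rw [ENNReal.iSup_mul]
  refine iSup_le fun i => ?_
  rw [ENNReal.mul_iSup]
  refine iSup_le fun j => ?_
  exact le_trans (mul_le_mul' (hf (le_max_left i j)) (hg (le_max_right i j)))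
    (le_iSup (fun n => f n * g n) (max i j))

private theorem B61_uv_inj {e e' : Dir d} (h : uv e = (uv e' : Vx d)) : e = e' := by
  by_contra hne
  have h1 := dt_uv_le e e' hne
  rw [h, dt_uv] at h1
  omega

private theorem B61_tt_shift (p : ℝ) (c : Vx d) : ∑' x : Vx d, tt p (x - c) = chi d p :=
  (Equiv.subRight c).tsum_eq (tt p)

private theorem B61_sum_le (V : Finset (Vx d)) (F : Vx d → Vx d → ℝ≥0∞) :
    ∑ q ∈ prs V, F q.1 q.2 ≤ ∑ e : Dir d, ∑' u : Vx d, F u (u + uv e) := by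
  classical
  have h1 : ∀ q ∈ prs V, F q.1 q.2 ≤ ∑ e : Dir d, if q.2 = q.1 + uv e then F q.1 (q.1 + uv e)
      else 0 := by
    intro q hq
    obtain ⟨e, he⟩ := (adj_iff_uv q.1 q.2).1 (mem_prs.1 hq).2.2
    refine le_trans (le_of_eq ?_) (single_le_sum (f := fun e => if q.2 = q.1 + uv e then
      F q.1 (q.1 + uv e) else 0) (fun _ _ => zero_le) (mem_univ e))
    show _ = if _ then _ else _
    rw [if_pos he, ← he]
  refine (sum_le_sum h1).trans ?_
  rw [sum_comm]
  refine sum_le_sum fun e _ => ?_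
  rw [← sum_filter]
  have h2 : ∑ q ∈ (prs V).filter (fun q => q.2 = q.1 + uv e), F q.1 (q.1 + uv e) =
      ∑ u ∈ ((prs V).filter (fun q => q.2 = q.1 + uv e)).image Prod.fst, F u (u + uv e) := by
    rw [sum_image]
    rintro ⟨u, v⟩ hq ⟨u', v'⟩ hq' huu
    rw [mem_coe, mem_filter] at hq hq'
    have h3 : u = u' := huu
    subst h3
    exact Prod.ext rfl (hq.2.trans hq'.2.symm)
  rw [h2]
  exact ENNReal.sum_le_tsum _

private theorem B61_le_sum (V : Finset (Vx d)) (F : Vx d → Vx d → ℝ≥0∞)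
    (hF : ∀ u v, u ∉ V ∨ v ∉ V → F u v = 0) :
    ∑ e : Dir d, ∑' u : Vx d, F u (u + uv e) ≤ ∑ q ∈ prs V, F q.1 q.2 := by
  classical
  have h1 : ∀ e : Dir d, ∑' u : Vx d, F u (u + uv e) =
      ∑ u ∈ V.filter (fun u => u + uv e ∈ V), F u (u + uv e) := by
    intro e
    refine tsum_eq_sum fun u hu => ?_
    rw [mem_filter, not_and_or] at hu
    exact hF _ _ hu
  rw [sum_congr rfl fun e _ => h1 e, sum_sigma']
  have h2 : ∑ z ∈ (univ : Finset (Dir d)).sigma (fun e => V.filter (fun u => u + uv e ∈ V)),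
      F z.2 (z.2 + uv z.1) = ∑ q ∈ ((univ : Finset (Dir d)).sigma
        (fun e => V.filter (fun u => u + uv e ∈ V))).image
        (fun z => (z.2, z.2 + uv z.1)), F q.1 q.2 := by
    rw [sum_image]
    rintro ⟨e, u⟩ _ ⟨e', u'⟩ _ h
    obtain ⟨h3, h4⟩ : u = u' ∧ u + uv e = u' + uv e' := by
      simpa only [Prod.mk.injEq] using h
    subst h3
    have h5 := B61_uv_inj (add_left_cancel h4)
    subst h5
    rfl
  rw [h2]
  refine sum_le_sum_of_subset fun q hq => ?_
  rw [mem_image] at hq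
  obtain ⟨⟨e, u⟩, hz, rfl⟩ := hq
  rw [mem_sigma, mem_filter] at hz
  exact mem_prs.2 ⟨hz.2.1, hz.2.2, uv_adj e u⟩

private theorem B61_cpw3 (p : ℝ) (e : Vx d) :
    ∑' u : Vx d, ∑' c : Vx d, ∑' z : Vx d, tt p z * tt p (u - z) * tt p (c - z) *
      tt p (c - (u + e)) = chi d p * cpw (tt p) 3 e := by
  have h0 : ∀ f : Vx d → ℝ≥0∞, ∀ z, ∑' u, f (u - z) = ∑' u, f u := fun f z =>
    (Equiv.subRight z).tsum_eq f
  have hn : ∀ f : Vx d → ℝ≥0∞, ∑' u, f (-u) = ∑' u, f u := fun f => (Equiv.neg _).tsum_eq f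
  have h1 : ∀ z : Vx d, ∑' u : Vx d, ∑' c : Vx d, tt p (u - z) * tt p (c - z) *
      tt p (c - (u + e)) = cpw (tt p) 3 e := by
    intro z
    have h2 : ∀ u c : Vx d, tt p (u - z) * tt p (c - z) * tt p (c - (u + e)) =
        (fun u' => (fun c' => tt p u' * tt p c' * tt p (c' - (u' + e))) (c - z)) (u - z) := by
      intro u c
      show _ = tt p (u - z) * tt p (c - z) * tt p (c - z - (u - z + e))
      congr 2
      abel
    calc ∑' u : Vx d, ∑' c : Vx d, tt p (u - z) * tt p (c - z) * tt p (c - (u + e))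
        = ∑' u : Vx d, (fun u' => ∑' c : Vx d, tt p u' * tt p (c - z) *
            tt p (c - z - (u' + e))) (u - z) := by
          refine tsum_congr fun u => ?_
          refine tsum_congr fun c => ?_
          exact h2 u c
      _ = ∑' u : Vx d, ∑' c : Vx d, tt p u * tt p (c - z) * tt p (c - z - (u + e)) :=
          h0 (fun u' => ∑' c : Vx d, tt p u' * tt p (c - z) * tt p (c - z - (u' + e))) z
      _ = ∑' u : Vx d, ∑' c : Vx d, tt p u * tt p c * tt p (c - (u + e)) := by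
          refine tsum_congr fun u => ?_
          exact h0 (fun c => tt p u * tt p c * tt p (c - (u + e))) z
      _ = ∑' u : Vx d, ∑' c : Vx d, tt p (-u) * tt p c * tt p (c - (-u + e)) :=
          (hn fun u => ∑' c : Vx d, tt p u * tt p c * tt p (c - (u + e))).symm
      _ = ∑' u : Vx d, tt p u * ∑' c : Vx d, tt p c * tt p (e - u - c) := by
          refine tsum_congr fun u => ?_
          rw [← ENNReal.tsum_mul_left]
          refine tsum_congr fun c => ?_
          rw [tt_neg, mul_assoc, ← tt_neg p (c - (-u + e))]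
          congr 3
          abel
      _ = cpw (tt p) 3 e := by
          show _ = cv (tt p) (cv (tt p) (cpw (tt p) 1)) e
          rw [cpw_one]
          rfl
  have h3 : ∀ u c z : Vx d, tt p z * tt p (u - z) * tt p (c - z) * tt p (c - (u + e)) =
      tt p z * (tt p (u - z) * tt p (c - z) * tt p (c - (u + e))) := fun u c z => by ring
  calc ∑' u : Vx d, ∑' c : Vx d, ∑' z : Vx d, tt p z * tt p (u - z) * tt p (c - z) *
        tt p (c - (u + e))
      = ∑' u : Vx d, ∑' z : Vx d, ∑' c : Vx d, tt p z * (tt p (u - z) * tt p (c - z) *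
        tt p (c - (u + e))) := by
        refine tsum_congr fun u => ?_
        rw [ENNReal.tsum_comm]
        exact tsum_congr fun z => tsum_congr fun c => h3 u c z
    _ = ∑' z : Vx d, ∑' u : Vx d, ∑' c : Vx d, tt p z * (tt p (u - z) * tt p (c - z) *
        tt p (c - (u + e))) := ENNReal.tsum_comm
    _ = ∑' z : Vx d, tt p z * cpw (tt p) 3 e := by
        refine tsum_congr fun z => ?_
        rw [← h1 z, ← ENNReal.tsum_mul_left]
        exact tsum_congr fun u => ENNReal.tsum_mul_left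
    _ = chi d p * cpw (tt p) 3 e := ENNReal.tsum_mul_right

private theorem B61_cv (p : ℝ) (u v : Vx d) :
    ∑' w : Vx d, tt p (w - u) * tt p (w - v) = cv (tt p) (tt p) (u - v) := by
  have h0 : ∑' w : Vx d, (fun y => tt p y * tt p (y + u - v)) (w - u) =
      ∑' y : Vx d, tt p y * tt p (y + u - v) :=
    (Equiv.subRight u).tsum_eq fun y => tt p y * tt p (y + u - v)
  have h1 : ∑' w : Vx d, tt p (w - u) * tt p (w - v) =
      ∑' w : Vx d, (fun y => tt p y * tt p (y + u - v)) (w - u) := by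
    refine tsum_congr fun w => ?_
    show _ = tt p (w - u) * tt p (w - u + u - v)
    rw [sub_add_cancel]
  rw [h1, h0]
  have h2 : ∑' y : Vx d, tt p (-y) * tt p (-y + u - v) = ∑' y : Vx d, tt p y * tt p (y + u - v) :=
    (Equiv.neg _).tsum_eq fun y => tt p y * tt p (y + u - v)
  rw [← h2]
  refine tsum_congr fun y => ?_
  rw [tt_neg]
  congr 2
  abel

private theorem B61_cpw4 (p : ℝ) (e e' : Vx d) :
    ∑' u : Vx d, ∑' u' : Vx d, (∑' z : Vx d, tt p z * tt p (u - z) * tt p (u' - z)) *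
      (∑' w : Vx d, tt p (w - (u + e)) * tt p (w - (u' + e'))) =
      chi d p * cpw (tt p) 4 (e - e') := by
  have h0 : ∀ f : Vx d → ℝ≥0∞, ∀ z, ∑' u, f (u - z) = ∑' u, f u := fun f z =>
    (Equiv.subRight z).tsum_eq f
  have hn : ∀ f : Vx d → ℝ≥0∞, ∑' u, f (-u) = ∑' u, f u := fun f => (Equiv.neg _).tsum_eq f
  obtain ⟨b, hb⟩ : ∃ b : Vx d → ℝ≥0∞, b = cv (tt p) (tt p) := ⟨_, rfl⟩
  have h1 : ∀ z : Vx d, ∑' u : Vx d, ∑' u' : Vx d, tt p (u - z) * tt p (u' - z) *
      b (u + e - (u' + e')) = cpw (tt p) 4 (e - e') := by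
    intro z
    calc ∑' u : Vx d, ∑' u' : Vx d, tt p (u - z) * tt p (u' - z) * b (u + e - (u' + e'))
        = ∑' u : Vx d, (fun v => ∑' u' : Vx d, tt p v * tt p (u' - z) *
            b (v + z + e - (u' + e'))) (u - z) := by
          refine tsum_congr fun u => ?_
          refine tsum_congr fun c => ?_
          show _ = tt p (u - z) * tt p (c - z) * b (u - z + z + e - (c + e'))
          rw [sub_add_cancel]
      _ = ∑' v : Vx d, ∑' u' : Vx d, tt p v * tt p (u' - z) * b (v + z + e - (u' + e')) :=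
          h0 (fun v => ∑' u' : Vx d, tt p v * tt p (u' - z) * b (v + z + e - (u' + e'))) z
      _ = ∑' v : Vx d, ∑' u' : Vx d, (fun c => tt p v * tt p c *
            b (v + e - (c + e'))) (u' - z) := by
          refine tsum_congr fun v => tsum_congr fun c => ?_
          show _ = tt p v * tt p (c - z) * b (v + e - (c - z + e'))
          congr 2
          abel
      _ = ∑' v : Vx d, ∑' c : Vx d, tt p v * tt p c * b (v + e - (c + e')) :=
          tsum_congr fun v => h0 (fun c => tt p v * tt p c * b (v + e - (c + e'))) z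
      _ = ∑' v : Vx d, ∑' c : Vx d, tt p (-v) * tt p c * b (-v + e - (c + e')) :=
          (hn fun v => ∑' c : Vx d, tt p v * tt p c * b (v + e - (c + e'))).symm
      _ = ∑' v : Vx d, tt p v * ∑' c : Vx d, tt p c * b (e - e' - v - c) := by
          refine tsum_congr fun v => ?_
          rw [← ENNReal.tsum_mul_left]
          refine tsum_congr fun c => ?_
          rw [tt_neg, mul_assoc]
          congr 3
          abel
      _ = cpw (tt p) 4 (e - e') := by
          show _ = cv (tt p) (cv (tt p) (cv (tt p) (cpw (tt p) 1))) (e - e')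
          rw [cpw_one, ← hb]
          rfl
  calc ∑' u : Vx d, ∑' u' : Vx d, (∑' z : Vx d, tt p z * tt p (u - z) * tt p (u' - z)) *
        (∑' w : Vx d, tt p (w - (u + e)) * tt p (w - (u' + e')))
      = ∑' u : Vx d, ∑' u' : Vx d, ∑' z : Vx d, tt p z * (tt p (u - z) * tt p (u' - z) *
          b (u + e - (u' + e'))) := by
        refine tsum_congr fun u => tsum_congr fun u' => ?_
        rw [B61_cv, ← hb, ← ENNReal.tsum_mul_right]
        exact tsum_congr fun z => by ring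
    _ = ∑' u : Vx d, ∑' z : Vx d, ∑' u' : Vx d, tt p z * (tt p (u - z) * tt p (u' - z) *
          b (u + e - (u' + e'))) := tsum_congr fun u => ENNReal.tsum_comm
    _ = ∑' z : Vx d, ∑' u : Vx d, ∑' u' : Vx d, tt p z * (tt p (u - z) * tt p (u' - z) *
          b (u + e - (u' + e'))) := ENNReal.tsum_comm
    _ = ∑' z : Vx d, tt p z * cpw (tt p) 4 (e - e') := by
        refine tsum_congr fun z => ?_
        rw [← h1 z, ← ENNReal.tsum_mul_left]
        exact tsum_congr fun u => ENNReal.tsum_mul_left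
    _ = chi d p * cpw (tt p) 4 (e - e') := ENNReal.tsum_mul_right

private theorem B61_const (c : ℝ≥0∞) : ∑ _e : Dir d, c = (2 * d : ℝ≥0∞) * c := by
  rw [sum_const, nsmul_eq_mul]
  congr 1
  simp [Dir, mul_comm]

private theorem B61_upper {p p' r : ℝ} (h0 : 0 ≤ p) (hp : p ≤ 1 / 2) (hr : 0 ≤ r) (hr1 : r ≤ 1)
    (h : 1 - p' = (1 - p) * (1 - r)) (V : Finset (Vx d)) {w3 w4 : ℝ≥0∞}
    (h3 : ∀ e : Dir d, cpw (tt p) 3 (uv e) ≤ w3)
    (h4 : ∀ e e' : Dir d, cpw (tt p) 4 (uv e - uv e') ≤ w4) :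
    ∑ x ∈ V, ENNReal.ofReal (tau p V 0 x) + ENNReal.ofReal r * ∑ q ∈ prs V,
      ENNReal.ofReal (tau p V 0 q.1) * ∑ x ∈ V, ENNReal.ofReal (tau p V q.2 x) ≤
    chi d p' + ENNReal.ofReal (2 * d * r) * w3 * chi d p ^ 2 +
      ENNReal.ofReal (2 * d * r) ^ 2 * w4 * chi d p ^ 2 := by
  classical
  have hp1 : p ≤ 1 := by linarith
  have tn : ∀ x y, 0 ≤ tau p V x y := fun x y => tau_nonneg h0 hp1 V x y
  obtain ⟨T, hT⟩ : ∃ T : Vx d → Vx d → ℝ≥0∞, ∀ x y, T x y = ENNReal.ofReal (tau p V x y) :=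
    ⟨_, fun _ _ => rfl⟩
  have hTle : ∀ x y, T x y ≤ tt p (y - x) := by
    intro x y
    rw [hT, ← tauI_univ]
    exact le_tauI p (Set.subset_univ _) x y
  obtain ⟨PQ, hPQ⟩ : ∃ PQ : Vx d → Vx d → ℝ≥0∞, ∀ u c, PQ u c =
      ENNReal.ofReal (PP p (edges V) {T | Conn T V 0 u ∧ Conn T V 0 c}) := ⟨_, fun _ _ => rfl⟩
  have hPQle : ∀ u c, PQ u c ≤ ∑' z : Vx d, tt p z * tt p (u - z) * tt p (c - z) := by
    intro u c
    rw [hPQ]
    refine (ENNReal.ofReal_le_ofReal (TG h0 hp V 0 u c)).trans ?_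
    rw [ENNReal.ofReal_sum_of_nonneg fun w _ => mul_nonneg (mul_nonneg (tn _ _) (tn _ _)) (tn _ _)]
    refine (sum_le_sum fun w _ => ?_).trans (ENNReal.sum_le_tsum V)
    rw [ENNReal.ofReal_mul (mul_nonneg (tn _ _) (tn _ _)), ENNReal.ofReal_mul (tn _ _), ← hT,
      ← hT, ← hT]
    have h5 := hTle 0 w
    rw [sub_zero] at h5
    exact mul_le_mul' (mul_le_mul' h5 (hTle w u)) (hTle w c)
  have hchi : ∀ c, ∑ x ∈ V, T c x ≤ chi d p := by
    intro c
    rw [← B61_tt_shift p c]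
    exact (sum_le_sum fun x _ => hTle c x).trans (ENNReal.sum_le_tsum V)
  -- the inequality for every `x`
  have hx : ∀ x, T 0 x + ENNReal.ofReal r * ∑ q ∈ prs V, T 0 q.1 * T q.2 x ≤
      ENNReal.ofReal (tau p' V 0 x) + ENNReal.ofReal r * ∑ q ∈ prs V, ∑ c ∈ V,
        PQ q.1 c * (T q.2 c * T c x) + ENNReal.ofReal r ^ 2 * ∑ q ∈ prs V,
        ∑ q' ∈ (prs V).erase q, PQ q.1 q'.1 * ∑ w ∈ V, T q.2 w * T q'.2 w * T w x := by
    intro x
    have hb := ENNReal.ofReal_le_ofReal (bonf_two h0 hp hr hr1 h V 0 x)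
    have hPn : ∀ u c, 0 ≤ PP p (edges V) {T | Conn T V 0 u ∧ Conn T V 0 c} :=
      fun u c => PP_nonneg h0 hp1
    have hp'0 : 0 ≤ tau p' V 0 x := by
      have h5 : 0 ≤ (1 - p) * (1 - r) := mul_nonneg (by linarith) (by linarith)
      have h6 : (1 - p) * (1 - r) ≤ 1 := by nlinarith
      exact tau_nonneg (by linarith) (by linarith) V 0 x
    have e1 : ENNReal.ofReal (tau p V 0 x + r * ∑ q ∈ prs V, tau p V 0 q.1 * tau p V q.2 x) =
        T 0 x + ENNReal.ofReal r * ∑ q ∈ prs V, T 0 q.1 * T q.2 x := by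
      rw [ENNReal.ofReal_add (tn _ _) (mul_nonneg hr (sum_nonneg fun q _ =>
        mul_nonneg (tn _ _) (tn _ _))), ENNReal.ofReal_mul hr,
        ENNReal.ofReal_sum_of_nonneg fun q _ => mul_nonneg (tn _ _) (tn _ _), ← hT]
      congr 2
      refine sum_congr rfl fun q _ => ?_
      rw [ENNReal.ofReal_mul (tn _ _), ← hT, ← hT]
    have e2 : ENNReal.ofReal (r * ∑ q ∈ prs V, ∑ c ∈ V, PP p (edges V) {T | Conn T V 0 q.1 ∧
        Conn T V 0 c} * (tau p V q.2 c * tau p V c x)) = ENNReal.ofReal r * ∑ q ∈ prs V, ∑ c ∈ V,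
        PQ q.1 c * (T q.2 c * T c x) := by
      rw [ENNReal.ofReal_mul hr, ENNReal.ofReal_sum_of_nonneg fun q _ => sum_nonneg fun c _ =>
        mul_nonneg (hPn _ _) (mul_nonneg (tn _ _) (tn _ _))]
      congr 1
      refine sum_congr rfl fun q _ => ?_
      rw [ENNReal.ofReal_sum_of_nonneg fun c _ =>
        mul_nonneg (hPn _ _) (mul_nonneg (tn _ _) (tn _ _))]
      refine sum_congr rfl fun c _ => ?_
      rw [ENNReal.ofReal_mul (hPn _ _), ENNReal.ofReal_mul (tn _ _), ← hT, ← hT, ← hPQ]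
    have e3 : ENNReal.ofReal (r ^ 2 * ∑ q ∈ prs V, ∑ q' ∈ (prs V).erase q,
        PP p (edges V) {T | Conn T V 0 q.1 ∧ Conn T V 0 q'.1} *
          ∑ w ∈ V, tau p V q.2 w * tau p V q'.2 w * tau p V w x) =
        ENNReal.ofReal r ^ 2 * ∑ q ∈ prs V, ∑ q' ∈ (prs V).erase q,
        PQ q.1 q'.1 * ∑ w ∈ V, T q.2 w * T q'.2 w * T w x := by
      have hw : ∀ q q' : Vx d × Vx d, 0 ≤ ∑ w ∈ V, tau p V q.2 w * tau p V q'.2 w *
          tau p V w x := fun q q' => sum_nonneg fun w _ =>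
        mul_nonneg (mul_nonneg (tn _ _) (tn _ _)) (tn _ _)
      rw [ENNReal.ofReal_mul (sq_nonneg r), ENNReal.ofReal_pow hr,
        ENNReal.ofReal_sum_of_nonneg fun q _ => sum_nonneg fun q' _ =>
        mul_nonneg (hPn _ _) (hw q q')]
      congr 1
      refine sum_congr rfl fun q _ => ?_
      rw [ENNReal.ofReal_sum_of_nonneg fun q' _ => mul_nonneg (hPn _ _) (hw q q')]
      refine sum_congr rfl fun q' _ => ?_
      rw [ENNReal.ofReal_mul (hPn _ _), ← hPQ, ENNReal.ofReal_sum_of_nonneg fun w _ =>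
        mul_nonneg (mul_nonneg (tn _ _) (tn _ _)) (tn _ _)]
      congr 1
      refine sum_congr rfl fun w _ => ?_
      rw [ENNReal.ofReal_mul (mul_nonneg (tn _ _) (tn _ _)), ENNReal.ofReal_mul (tn _ _), ← hT,
        ← hT, ← hT]
    rw [e1] at hb
    refine hb.trans ?_
    rw [← e2, ← e3]
    exact ENNReal.ofReal_add_le.trans (add_le_add ENNReal.ofReal_add_le le_rfl)
  -- summation over `x`
  have hsum := sum_le_sum fun x (_ : x ∈ V) => hx x
  rw [sum_add_distrib, sum_add_distrib, sum_add_distrib, ← mul_sum, ← mul_sum, ← mul_sum] at hsum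
  have hL : ∑ x ∈ V, ∑ q ∈ prs V, T 0 q.1 * T q.2 x =
      ∑ q ∈ prs V, T 0 q.1 * ∑ x ∈ V, T q.2 x := by
    rw [sum_comm]
    exact sum_congr rfl fun q _ => (mul_sum _ _ _).symm
  rw [hL] at hsum
  have hS1 : ∑ x ∈ V, ENNReal.ofReal (tau p' V 0 x) ≤ chi d p' := by
    refine (sum_le_sum fun x _ => ?_).trans (ENNReal.sum_le_tsum V)
    exact le_tauI p' (Set.subset_univ _) 0 x
  have hS2 : ∑ x ∈ V, ∑ q ∈ prs V, ∑ c ∈ V, PQ q.1 c * (T q.2 c * T c x) ≤
      (2 * d : ℝ≥0∞) * (chi d p * w3) * chi d p := by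
    calc ∑ x ∈ V, ∑ q ∈ prs V, ∑ c ∈ V, PQ q.1 c * (T q.2 c * T c x)
        = ∑ q ∈ prs V, ∑ c ∈ V, PQ q.1 c * (T q.2 c * ∑ x ∈ V, T c x) := by
          rw [sum_comm]
          refine sum_congr rfl fun q _ => ?_
          rw [sum_comm]
          refine sum_congr rfl fun c _ => ?_
          rw [mul_sum, mul_sum]
      _ ≤ ∑ q ∈ prs V, (∑' c : Vx d, ∑' z : Vx d, tt p z * tt p (q.1 - z) * tt p (c - z) *
            tt p (c - q.2)) * chi d p := by
          refine sum_le_sum fun q _ => ?_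
          rw [← ENNReal.tsum_mul_right]
          refine (sum_le_sum fun c _ => ?_).trans (ENNReal.sum_le_tsum V)
          rw [ENNReal.tsum_mul_right, mul_assoc]
          exact mul_le_mul' (hPQle _ _) (mul_le_mul' (hTle _ _) (hchi c))
      _ = (∑ q ∈ prs V, (∑' c : Vx d, ∑' z : Vx d, tt p z * tt p (q.1 - z) * tt p (c - z) *
            tt p (c - q.2))) * chi d p := (sum_mul _ _ _).symm
      _ ≤ (∑ e : Dir d, ∑' u : Vx d, ∑' c : Vx d, ∑' z : Vx d, tt p z * tt p (u - z) *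
            tt p (c - z) * tt p (c - (u + uv e))) * chi d p :=
          mul_le_mul' (B61_sum_le V fun u v => ∑' c : Vx d, ∑' z : Vx d, tt p z * tt p (u - z) *
            tt p (c - z) * tt p (c - v)) le_rfl
      _ ≤ (∑ _e : Dir d, chi d p * w3) * chi d p := by
          refine mul_le_mul' (sum_le_sum fun e _ => ?_) le_rfl
          rw [B61_cpw3]
          exact mul_le_mul' le_rfl (h3 e)
      _ = (2 * d : ℝ≥0∞) * (chi d p * w3) * chi d p := by rw [B61_const]
  have hS3 : ∑ x ∈ V, ∑ q ∈ prs V, ∑ q' ∈ (prs V).erase q, PQ q.1 q'.1 *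
      ∑ w ∈ V, T q.2 w * T q'.2 w * T w x ≤
      (2 * d : ℝ≥0∞) * ((2 * d : ℝ≥0∞) * (chi d p * w4)) * chi d p := by
    calc ∑ x ∈ V, ∑ q ∈ prs V, ∑ q' ∈ (prs V).erase q, PQ q.1 q'.1 *
          ∑ w ∈ V, T q.2 w * T q'.2 w * T w x
        ≤ ∑ x ∈ V, ∑ q ∈ prs V, ∑ q' ∈ prs V, PQ q.1 q'.1 *
          ∑ w ∈ V, T q.2 w * T q'.2 w * T w x :=
          sum_le_sum fun x _ => sum_le_sum fun q _ => sum_le_sum_of_subset (erase_subset _ _)
      _ = ∑ q ∈ prs V, ∑ q' ∈ prs V, PQ q.1 q'.1 *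
          ∑ w ∈ V, T q.2 w * T q'.2 w * ∑ x ∈ V, T w x := by
          rw [sum_comm]
          refine sum_congr rfl fun q _ => ?_
          rw [sum_comm]
          refine sum_congr rfl fun q' _ => ?_
          rw [← mul_sum, sum_comm]
          congr 1
          exact sum_congr rfl fun w _ => (mul_sum _ _ _).symm
      _ ≤ ∑ q ∈ prs V, ∑ q' ∈ prs V, ((∑' z : Vx d, tt p z * tt p (q.1 - z) *
            tt p (q'.1 - z)) * (∑' w : Vx d, tt p (w - q.2) * tt p (w - q'.2))) * chi d p := by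
          refine sum_le_sum fun q _ => sum_le_sum fun q' _ => ?_
          rw [mul_assoc]
          refine mul_le_mul' (hPQle _ _) ?_
          rw [← ENNReal.tsum_mul_right]
          refine (sum_le_sum fun w _ => ?_).trans (ENNReal.sum_le_tsum V)
          exact mul_le_mul' (mul_le_mul' (hTle _ _) (hTle _ _)) (hchi w)
      _ = (∑ q ∈ prs V, ∑ q' ∈ prs V, (∑' z : Vx d, tt p z * tt p (q.1 - z) *
            tt p (q'.1 - z)) * (∑' w : Vx d, tt p (w - q.2) * tt p (w - q'.2))) * chi d p := by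
          rw [sum_mul]
          exact sum_congr rfl fun q _ => (sum_mul _ _ _).symm
      _ ≤ (∑ q ∈ prs V, ∑ e' : Dir d, ∑' u' : Vx d, (∑' z : Vx d, tt p z * tt p (q.1 - z) *
            tt p (u' - z)) * (∑' w : Vx d, tt p (w - q.2) * tt p (w - (u' + uv e')))) *
              chi d p := by
          refine mul_le_mul' (sum_le_sum fun q _ => ?_) le_rfl
          exact B61_sum_le V fun u' v' => (∑' z : Vx d, tt p z * tt p (q.1 - z) *
            tt p (u' - z)) * (∑' w : Vx d, tt p (w - q.2) * tt p (w - v'))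
      _ ≤ (∑ e : Dir d, ∑' u : Vx d, ∑ e' : Dir d, ∑' u' : Vx d, (∑' z : Vx d, tt p z *
            tt p (u - z) * tt p (u' - z)) * (∑' w : Vx d, tt p (w - (u + uv e)) *
              tt p (w - (u' + uv e')))) * chi d p := by
          refine mul_le_mul' ?_ le_rfl
          exact B61_sum_le V fun u v => ∑ e' : Dir d, ∑' u' : Vx d, (∑' z : Vx d, tt p z *
            tt p (u - z) * tt p (u' - z)) * (∑' w : Vx d, tt p (w - v) *
              tt p (w - (u' + uv e')))
      _ ≤ (∑ _e : Dir d, ∑ _e' : Dir d, chi d p * w4) * chi d p := by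
          refine mul_le_mul' (sum_le_sum fun e _ => ?_) le_rfl
          rw [Summable.tsum_finsetSum fun _ _ => ENNReal.summable]
          refine sum_le_sum fun e' _ => ?_
          rw [B61_cpw4]
          exact mul_le_mul' le_rfl (h4 e e')
      _ = (2 * d : ℝ≥0∞) * ((2 * d : ℝ≥0∞) * (chi d p * w4)) * chi d p := by
          rw [B61_const, B61_const]
  have hfin : ENNReal.ofReal (2 * d * r) = (2 * d : ℝ≥0∞) * ENNReal.ofReal r := by
    rw [ENNReal.ofReal_mul (by positivity), ENNReal.ofReal_mul (by norm_num),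
      ENNReal.ofReal_ofNat, ENNReal.ofReal_natCast]
  have hgoal : ∑ x ∈ V, ENNReal.ofReal (tau p V 0 x) + ENNReal.ofReal r * ∑ q ∈ prs V,
      ENNReal.ofReal (tau p V 0 q.1) * ∑ x ∈ V, ENNReal.ofReal (tau p V q.2 x) =
      ∑ x ∈ V, T 0 x + ENNReal.ofReal r * ∑ q ∈ prs V, T 0 q.1 * ∑ x ∈ V, T q.2 x := by
    simp only [hT]
  rw [hgoal, hfin]
  refine hsum.trans ?_
  calc ∑ x ∈ V, ENNReal.ofReal (tau p' V 0 x) + ENNReal.ofReal r * (∑ x ∈ V, ∑ q ∈ prs V,
        ∑ c ∈ V, PQ q.1 c * (T q.2 c * T c x)) + ENNReal.ofReal r ^ 2 * (∑ x ∈ V, ∑ q ∈ prs V,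
        ∑ q' ∈ (prs V).erase q, PQ q.1 q'.1 * ∑ w ∈ V, T q.2 w * T q'.2 w * T w x)
      ≤ chi d p' + ENNReal.ofReal r * ((2 * d : ℝ≥0∞) * (chi d p * w3) * chi d p) +
        ENNReal.ofReal r ^ 2 * ((2 * d : ℝ≥0∞) * ((2 * d : ℝ≥0∞) * (chi d p * w4)) *
          chi d p) := add_le_add (add_le_add hS1 (mul_le_mul' le_rfl hS2))
            (mul_le_mul' le_rfl hS3)
    _ = _ := by ring

theorem chi_two {p p' r : ℝ} (h0 : 0 ≤ p) (hp : p ≤ 1 / 2) (hr : 0 ≤ r) (hr1 : r ≤ 1)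
    (h : 1 - p' = (1 - p) * (1 - r)) {w3 w4 : ℝ≥0∞}
    (h3 : ∀ e : Dir d, cpw (tt p) 3 (uv e) ≤ w3)
    (h4 : ∀ e e' : Dir d, cpw (tt p) 4 (uv e - uv e') ≤ w4) :
    chi d p + ENNReal.ofReal (2 * d * r) * chi d p ^ 2 ≤ chi d p' +
      ENNReal.ofReal (2 * d * r) * w3 * chi d p ^ 2 +
      ENNReal.ofReal (2 * d * r) ^ 2 * w4 * chi d p ^ 2 := by
  classical
  have hp1 : p ≤ 1 := by linarith
  obtain ⟨T, hT⟩ : ∃ T : ℕ → Vx d → Vx d → ℝ≥0∞, ∀ n x y, T n x y =
      ENNReal.ofReal (tau p (Bx d n) x y) := ⟨_, fun _ _ _ => rfl⟩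
  have hBx : ∀ n m, n ≤ m → Bx d n ⊆ Bx d m := by
    intro n m hnm x hx
    rw [mem_Bx] at hx ⊢
    omega
  have hTmono : ∀ x y, Monotone fun n => T n x y := by
    intro x y n m hnm
    show T n x y ≤ T m x y
    rw [hT, hT]
    exact ENNReal.ofReal_le_ofReal (tau_mono h0 hp1 (hBx n m hnm) x y)
  have hTsup : ∀ x y, ⨆ n, T n x y = tt p (y - x) := by
    intro x y
    rw [← tauI_univ, tauI_seq h0 hp1]
    refine iSup_congr fun n => ?_
    rw [hT, filter_true_of_mem fun z _ => Set.mem_univ z]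
  have hup : ∀ n, ∑' x, T n 0 x + ENNReal.ofReal r * ∑ q ∈ prs (Bx d n), T n 0 q.1 *
      ∑' x, T n q.2 x ≤ chi d p' +
      ENNReal.ofReal (2 * d * r) * w3 * chi d p ^ 2 +
      ENNReal.ofReal (2 * d * r) ^ 2 * w4 * chi d p ^ 2 := by
    intro n
    have h5 : ∀ y, ∑' x, T n y x = ∑ x ∈ Bx d n, ENNReal.ofReal (tau p (Bx d n) y x) := by
      intro y
      rw [tsum_eq_sum (s := Bx d n) fun x hx => by
        rw [hT, tau_zero_right p hx, ENNReal.ofReal_zero]]
      exact sum_congr rfl fun x _ => hT n y x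
    have h6 := B61_upper h0 hp hr hr1 h (Bx d n) h3 h4
    simp only [h5]
    simp only [hT]
    exact h6
  have hsup1 : chi d p ≤ ⨆ n, ∑' x, T n 0 x := by
    refine le_trans (le_of_eq ?_) (B61_mct (fun n x => T n 0 x) fun x => hTmono 0 x)
    refine tsum_congr fun x => ?_
    rw [hTsup, sub_zero]
  have hsup2 : (2 * d : ℝ≥0∞) * chi d p ^ 2 ≤
      ⨆ n, ∑ q ∈ prs (Bx d n), T n 0 q.1 * ∑' x, T n q.2 x := by
    have h5 : (2 * d : ℝ≥0∞) * chi d p ^ 2 = ∑' z : Dir d × Vx d × Vx d,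
        tt p z.2.1 * tt p (z.2.2 - (z.2.1 + uv z.1)) := by
      rw [ENNReal.tsum_prod', tsum_fintype]
      have h6 : ∀ e : Dir d, ∑' z : Vx d × Vx d, tt p z.1 * tt p (z.2 - (z.1 + uv e)) =
          chi d p ^ 2 := by
        intro e
        rw [ENNReal.tsum_prod']
        calc ∑' u : Vx d, ∑' x : Vx d, tt p u * tt p (x - (u + uv e))
            = ∑' u : Vx d, tt p u * chi d p := by
              refine tsum_congr fun u => ?_
              rw [ENNReal.tsum_mul_left, B61_tt_shift]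
          _ = chi d p ^ 2 := by
              rw [ENNReal.tsum_mul_right, pow_two]
              rfl
      rw [sum_congr rfl fun e _ => h6 e, B61_const]
    rw [h5]
    have h6 : ∀ z : Dir d × Vx d × Vx d, tt p z.2.1 * tt p (z.2.2 - (z.2.1 + uv z.1)) ≤
        ⨆ n, T n 0 z.2.1 * T n (z.2.1 + uv z.1) z.2.2 := by
      intro z
      refine le_trans (le_of_eq ?_) (B61_mul_iSup (hTmono 0 z.2.1)
        (hTmono (z.2.1 + uv z.1) z.2.2))
      rw [hTsup, hTsup, sub_zero]
    refine (ENNReal.tsum_le_tsum h6).trans ?_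
    refine (B61_mct (fun n (z : Dir d × Vx d × Vx d) => T n 0 z.2.1 * T n (z.2.1 + uv z.1) z.2.2)
      fun z n m hnm => mul_le_mul' (hTmono _ _ hnm) (hTmono _ _ hnm)).trans ?_
    refine iSup_mono fun n => ?_
    rw [ENNReal.tsum_prod', tsum_fintype]
    refine le_trans (le_of_eq ?_) (B61_le_sum (Bx d n) (fun u v => T n 0 u * ∑' x, T n v x) ?_)
    · refine sum_congr rfl fun e _ => ?_
      rw [ENNReal.tsum_prod']
      refine tsum_congr fun u => ?_
      show ∑' x : Vx d, T n 0 u * T n (u + uv e) x = T n 0 u * ∑' x, T n (u + uv e) x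
      exact ENNReal.tsum_mul_left
    · rintro u v (hu | hv)
      · rw [hT, tau_zero_right p hu, ENNReal.ofReal_zero, zero_mul]
      · have h7 : ∀ x, T n v x = 0 := fun x => by
          rw [hT, tau_zero_left p hv, ENNReal.ofReal_zero]
        simp only [h7, tsum_zero, mul_zero]
  have hmono1 : Monotone fun n => ∑' x, T n 0 x := fun n m hnm =>
    ENNReal.tsum_le_tsum fun x => hTmono 0 x hnm
  have hprs : ∀ n m, n ≤ m → prs (Bx d n) ⊆ prs (Bx d m) := by
    intro n m hnm q hq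
    rw [mem_prs] at hq ⊢
    exact ⟨hBx n m hnm hq.1, hBx n m hnm hq.2.1, hq.2.2⟩
  have hmono2 : Monotone fun n => ∑ q ∈ prs (Bx d n), T n 0 q.1 * ∑' x, T n q.2 x := by
    intro n m hnm
    refine le_trans (sum_le_sum fun q _ => mul_le_mul' (hTmono 0 q.1 hnm)
      (ENNReal.tsum_le_tsum fun x => hTmono q.2 x hnm)) (sum_le_sum_of_subset (hprs n m hnm))
  have hfin : ENNReal.ofReal (2 * d * r) = ENNReal.ofReal r * (2 * d : ℝ≥0∞) := by
    rw [mul_comm, ENNReal.ofReal_mul hr, ENNReal.ofReal_mul (by norm_num),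
      ENNReal.ofReal_ofNat, ENNReal.ofReal_natCast]
  calc chi d p + ENNReal.ofReal (2 * d * r) * chi d p ^ 2
      = chi d p + ENNReal.ofReal r * ((2 * d : ℝ≥0∞) * chi d p ^ 2) := by
        rw [hfin, mul_assoc]
    _ ≤ (⨆ n, ∑' x, T n 0 x) + ENNReal.ofReal r *
          ⨆ n, ∑ q ∈ prs (Bx d n), T n 0 q.1 * ∑' x, T n q.2 x :=
        add_le_add hsup1 (mul_le_mul' le_rfl hsup2)
    _ = ⨆ n, (∑' x, T n 0 x + ENNReal.ofReal r *
          ∑ q ∈ prs (Bx d n), T n 0 q.1 * ∑' x, T n q.2 x) := by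
        rw [ENNReal.mul_iSup]
        exact ENNReal.iSup_add_iSup_of_monotone hmono1
          fun n m hnm => mul_le_mul' le_rfl (hmono2 hnm)
    _ ≤ _ := iSup_le hup

end Pool.Agent.HD
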