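import Pool.Agent.Lib.MP_8ca597_hd.B61
import Pool.Agent.Lib.MP_8ca597_hd.A19

/-!
# Row B62: the upper bound of the susceptibility

`local_to_global`: subdivide `[a, b]`. `chi_le`: for `p < p' < pc` put `X = chi d p`, `X' = chi d p'` (finite),
`r = (p' - p)/(1 - p) ≥ p' - p`, `ρ = 2 d r`. If `ρ ≤ 1/16`, `chi_two` with `w3 = 1/8`, `w4 = 2` gives
`X' ≥ X + (3/4) ρ X²`, and if also `ρ X ≤ 1`: `1/X - 1/X' ≥ (3/8) ρ ≥ (3/4) d (p' - p)`. By
`local_to_global` for `f = 1 / chi` on `[p, p']` (steps so small that `ρ chi d p' ≤ 1`)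
`1 / chi d p ≥ (3/4) d (p' - p)`; let `p' → pc`.
-/

set_option autoImplicit false

namespace Pool.Agent.HD

open Finset
open scoped ENNReal

variable {d : ℕ}

theorem local_to_global {f : ℝ → ℝ} {a b c δ : ℝ} (hab : a ≤ b) (hδ : 0 < δ)
    (h : ∀ x y : ℝ, a ≤ x → x ≤ y → y ≤ b → y - x ≤ δ → c * (y - x) ≤ f x - f y) :
    c * (b - a) ≤ f a - f b := by
  obtain ⟨N, hN⟩ := exists_nat_gt ((b - a) / δ)
  have hN0 : (0 : ℝ) < N := lt_of_le_of_lt (div_nonneg (sub_nonneg.2 hab) hδ.le) hN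
  have hstep : (b - a) / N ≤ δ := by
    rw [div_le_iff₀ hN0]
    rw [div_lt_iff₀ hδ] at hN
    linarith
  have hs0 : 0 ≤ (b - a) / N := div_nonneg (sub_nonneg.2 hab) hN0.le
  have key : ∀ i : ℕ, i ≤ N → c * (i * ((b - a) / N)) ≤ f a - f (a + i * ((b - a) / N)) := by
    intro i
    induction i with
    | zero =>
      intro _
      simp
    | succ i ih =>
      intro hi
      have h1 := ih (by omega)
      have hi' : ((i : ℝ) + 1) ≤ N := by exact_mod_cast hi
      have h2 := h (a + i * ((b - a) / N)) (a + ((i + 1 : ℕ) : ℝ) * ((b - a) / N))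
        (by
          have : 0 ≤ (i : ℝ) * ((b - a) / N) := mul_nonneg (Nat.cast_nonneg _) hs0
          linarith)
        (by
          push_cast
          linarith [add_mul (i : ℝ) 1 ((b - a) / N)])
        (by
          have h3 : ((i : ℝ) + 1) * ((b - a) / N) ≤ N * ((b - a) / N) :=
            mul_le_mul_of_nonneg_right hi' hs0
          have h4 : (N : ℝ) * ((b - a) / N) = b - a := by
            field_simp
          push_cast
          linarith)
        (by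
          push_cast
          linarith [add_mul (i : ℝ) 1 ((b - a) / N)])
      push_cast at h2 ⊢
      have e1 : c * (((i : ℝ) + 1) * ((b - a) / N)) = c * (i * ((b - a) / N)) +
          c * (a + ((i : ℝ) + 1) * ((b - a) / N) - (a + i * ((b - a) / N))) := by ring
      rw [e1]
      linarith
  have h5 := key N le_rfl
  have h6 : (N : ℝ) * ((b - a) / N) = b - a := by
    field_simp
  rw [h6] at h5
  rwa [show a + (b - a) = b by ring] at h5

private theorem B62_fin {x : ℝ} (h0 : 0 ≤ x) (hx : x < pc d) : chi d x ≠ ⊤ :=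
  (sub_chi h0 (hx.le.trans (pc_le_one d)) (sub_of_lt h0 hx)).ne

private theorem B62_local (hpc : pc d ≤ 1 / 2)
    (h3 : ∀ p : ℝ, 0 ≤ p → p < pc d → ∀ e : Dir d, cpw (tt p) 3 (uv e) ≤ 1 / 8)
    (h4 : ∀ p : ℝ, 0 ≤ p → p < pc d → ∀ e e' : Dir d, cpw (tt p) 4 (uv e - uv e') ≤ 2)
    {x y : ℝ} (h0 : 0 ≤ x) (hxy : x ≤ y) (hy : y < pc d) (hδ : 64 * d * (y - x) ≤ 1) :
    ∃ ρ : ℝ, 2 * d * (y - x) ≤ ρ ∧ ρ ≤ 4 * d * (y - x) ∧
      (chi d x).toReal + 3 / 4 * ρ * (chi d x).toReal ^ 2 ≤ (chi d y).toReal := by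
  have hx : x < pc d := lt_of_le_of_lt hxy hy
  have hx2 : x ≤ 1 / 2 := by linarith
  have hd0 : (0 : ℝ) ≤ d := Nat.cast_nonneg d
  obtain ⟨r, hr⟩ : ∃ r : ℝ, r = (y - x) / (1 - x) := ⟨_, rfl⟩
  have h1x : 0 < 1 - x := by linarith
  have hr1 : r * (1 - x) = y - x := by
    rw [hr]
    field_simp
  have hr0 : 0 ≤ r := by
    rw [hr]
    exact div_nonneg (by linarith) h1x.le
  have hrle : r ≤ 2 * (y - x) := by nlinarith
  have hrge : y - x ≤ r := by nlinarith
  have hrone : r ≤ 1 := by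
    rw [hr, div_le_one h1x]
    linarith
  have h := chi_two (d := d) (p := x) (p' := y) (r := r) h0 hx2 hr0 hrone (by linarith)
    (w3 := 1 / 8) (w4 := 2) (h3 x h0 hx) (h4 x h0 hx)
  have hX := ENNReal.ofReal_toReal (B62_fin h0 hx)
  have hY := ENNReal.ofReal_toReal (B62_fin (h0.trans hxy) hy)
  have hX0 : 0 ≤ (chi d x).toReal := ENNReal.toReal_nonneg
  have hY0 : 0 ≤ (chi d y).toReal := ENNReal.toReal_nonneg
  rw [← hX, ← hY] at h
  obtain ⟨X, hXd⟩ : ∃ X : ℝ, X = (chi d x).toReal := ⟨_, rfl⟩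
  obtain ⟨Y, hYd⟩ : ∃ Y : ℝ, Y = (chi d y).toReal := ⟨_, rfl⟩
  rw [← hXd] at h hX0 ⊢
  rw [← hYd] at h hY0 ⊢
  obtain ⟨ρ, hρ⟩ : ∃ ρ : ℝ, ρ = 2 * d * r := ⟨_, rfl⟩
  have hρ0 : 0 ≤ ρ := by
    rw [hρ]
    positivity
  rw [← hρ] at h
  have hρle : ρ ≤ 4 * d * (y - x) := by
    rw [hρ]
    nlinarith
  have h8 : (1 / 8 : ℝ≥0∞) = ENNReal.ofReal (1 / 8) := by
    rw [ENNReal.ofReal_div_of_pos (by norm_num)]
    simp
  have h2 : (2 : ℝ≥0∞) = ENNReal.ofReal 2 := by simp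
  rw [h8, h2] at h
  have h' : X + ρ * X ^ 2 ≤ Y + ρ * (1 / 8) * X ^ 2 + ρ ^ 2 * 2 * X ^ 2 := by
    rw [← ENNReal.ofReal_pow hX0, ← ENNReal.ofReal_pow hρ0, ← ENNReal.ofReal_mul hρ0,
      ← ENNReal.ofReal_mul hρ0, ← ENNReal.ofReal_mul (by positivity),
      ← ENNReal.ofReal_mul (by positivity), ← ENNReal.ofReal_mul (by positivity),
      ← ENNReal.ofReal_add hX0 (by positivity), ← ENNReal.ofReal_add hY0 (by positivity),
      ← ENNReal.ofReal_add (by positivity) (by positivity)] at h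
    exact (ENNReal.ofReal_le_ofReal_iff (by positivity)).1 h
  have hρ16 : ρ ≤ 1 / 16 := by linarith
  refine ⟨ρ, ?_, hρle, ?_⟩
  · rw [hρ]
    exact mul_le_mul_of_nonneg_left hrge (by positivity)
  · have h5 : ρ ^ 2 * 2 * X ^ 2 ≤ ρ * (1 / 8) * X ^ 2 := by
      apply mul_le_mul_of_nonneg_right _ (sq_nonneg X)
      nlinarith
    nlinarith

/-- (4) of Theorem B. -/
theorem chi_le (hd : 1 ≤ d) (hpc : pc d ≤ 1 / 2)
    (h3 : ∀ p : ℝ, 0 ≤ p → p < pc d → ∀ e : Dir d, cpw (tt p) 3 (uv e) ≤ 1 / 8)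
    (h4 : ∀ p : ℝ, 0 ≤ p → p < pc d → ∀ e e' : Dir d, cpw (tt p) 4 (uv e - uv e') ≤ 2)
    {p : ℝ} (h0 : 0 ≤ p) (hp : p < pc d) :
    chi d p ≤ ENNReal.ofReal (2 / (d * (pc d - p))) := by
  have hd0 : (0 : ℝ) < d := by exact_mod_cast hd
  obtain ⟨q, hq⟩ : ∃ q : ℝ, q = p + 2 / 3 * (pc d - p) := ⟨_, rfl⟩
  have hpq : p ≤ q := by linarith
  have hqpc : q < pc d := by linarith
  have hone : ∀ x : ℝ, 0 ≤ x → x < pc d → 1 ≤ (chi d x).toReal := by
    intro x hx0 hx
    have h1 := ENNReal.toReal_mono (B62_fin hx0 hx) (one_le_chi (d := d) x)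
    simpa using h1
  obtain ⟨M, hM⟩ : ∃ M : ℝ, M = (chi d q).toReal := ⟨_, rfl⟩
  have hM1 : 1 ≤ M := by
    rw [hM]
    exact hone q (h0.trans hpq) hqpc
  have hmono : ∀ x : ℝ, p ≤ x → x ≤ q → (chi d x).toReal ≤ M := by
    intro x hx hxq
    have h1 := local_to_global (f := fun t => -(chi d t).toReal) (a := x) (b := q) (c := 0)
      (δ := 1 / (64 * d)) hxq (by positivity) (by
        intro u v hu huv hv huvδ
        have h2 : 64 * d * (v - u) ≤ 1 := by
          rw [le_div_iff₀ (by positivity)] at huvδ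
          linarith
        obtain ⟨ρ, hρ1, hρ2, hρ3⟩ := B62_local hpc h3 h4 (h0.trans (hx.trans hu)) huv
          (lt_of_le_of_lt hv hqpc) h2
        have hρ0 : 0 ≤ ρ := le_trans (mul_nonneg (by positivity) (sub_nonneg.2 huv)) hρ1
        have h5 : 0 ≤ 3 / 4 * ρ * (chi d u).toReal ^ 2 := by positivity
        show 0 * (v - u) ≤ -(chi d u).toReal - -(chi d v).toReal
        linarith)
    simp only [zero_mul] at h1
    rw [hM]
    linarith
  have hmain := local_to_global (f := fun t => 1 / (chi d t).toReal) (a := p) (b := q)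
    (c := 3 / 4 * d) (δ := min (1 / (64 * d)) (1 / (4 * d * M))) hpq
    (lt_min (by positivity) (by positivity)) (by
      intro x y hx hxy hy hδ
      have hδ1 := hδ.trans (min_le_left _ _)
      have hδ2 := hδ.trans (min_le_right _ _)
      have h2 : 64 * d * (y - x) ≤ 1 := by
        rw [le_div_iff₀ (by positivity)] at hδ1
        linarith
      have h2' : 4 * d * (y - x) * M ≤ 1 := by
        rw [le_div_iff₀ (by positivity)] at hδ2
        linarith
      have hx0 : 0 ≤ x := h0.trans hx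
      have hxpc : x < pc d := lt_of_le_of_lt (hxy.trans hy) hqpc
      have hypc : y < pc d := lt_of_le_of_lt hy hqpc
      obtain ⟨ρ, hρ1, hρ2, hρ3⟩ := B62_local hpc h3 h4 hx0 hxy hypc h2
      have hX1 := hone x hx0 hxpc
      have hY1 := hone y (hx0.trans hxy) hypc
      have hXM := hmono x hx (hxy.trans hy)
      obtain ⟨X, hXd⟩ : ∃ X : ℝ, X = (chi d x).toReal := ⟨_, rfl⟩
      obtain ⟨Y, hYd⟩ : ∃ Y : ℝ, Y = (chi d y).toReal := ⟨_, rfl⟩
      show 3 / 4 * d * (y - x) ≤ 1 / (chi d x).toReal - 1 / (chi d y).toReal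
      rw [← hXd] at hρ3 hX1 hXM ⊢
      rw [← hYd] at hρ3 hY1 ⊢
      have hρ0 : 0 ≤ ρ := le_trans (mul_nonneg (by positivity) (sub_nonneg.2 hxy)) hρ1
      have hρX : ρ * X ≤ 1 := by
        have h6 : ρ * X ≤ (4 * d * (y - x)) * M :=
          mul_le_mul hρ2 hXM (by linarith) (le_trans hρ0 hρ2)
        linarith
      have hX0 : 0 < X := by linarith
      have hY0 : 0 < Y := by linarith
      have h7 : 3 / 8 * ρ ≤ 1 / X - 1 / Y := by
        rw [div_sub_div _ _ hX0.ne' hY0.ne', le_div_iff₀ (mul_pos hX0 hY0)]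
        have h8 : X * (1 + 3 / 4 * (ρ * X)) ≤ Y := by nlinarith
        have h9 : 3 / 8 * ρ * X ≤ 3 / 8 := by nlinarith
        have h10 : 0 ≤ (Y - X * (1 + 3 / 4 * (ρ * X))) * (1 - 3 / 8 * (ρ * X)) :=
          mul_nonneg (by linarith) (by nlinarith)
        have h11 : 0 ≤ (ρ * X) * (1 - ρ * X) * X := by
          apply mul_nonneg (mul_nonneg _ _) hX0.le
          · exact mul_nonneg hρ0 hX0.le
          · linarith
        have h12 : 0 ≤ (ρ * X) * X := mul_nonneg (mul_nonneg hρ0 hX0.le) hX0.le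
        nlinarith
      linarith)
  have hX1 := hone p h0 hp
  have hX0 : 0 < (chi d p).toReal := by linarith
  have hq0 : 0 ≤ 1 / (chi d q).toReal := by positivity
  have hmain' : 3 / 4 * d * (q - p) ≤ 1 / (chi d p).toReal - 1 / (chi d q).toReal := hmain
  have h13 : d * (pc d - p) / 2 ≤ 1 / (chi d p).toReal := by
    have e1 : 3 / 4 * d * (q - p) = d * (pc d - p) / 2 := by
      rw [hq]
      ring
    linarith
  rw [← ENNReal.ofReal_toReal (B62_fin h0 hp)]
  apply ENNReal.ofReal_le_ofReal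
  have hpos : 0 < d * (pc d - p) := mul_pos hd0 (sub_pos.2 hp)
  rw [le_div_iff₀ hX0] at h13
  rw [le_div_iff₀ hpos]
  linarith

end Pool.Agent.HD
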