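import Pool.Agent.Lib.MP_8ca597_hd.BDefs
import Pool.Agent.Lib.MP_8ca597_hd.A19

/-!
# The output of the critical theory (Theorem B)

`FluxGe` and the lower bound of `chi` follow from A19 (`flux_pc`, `chi_ge`), since `pc d < 1`.
-/

set_option autoImplicit false

namespace Pool.Agent.HD

open Finset
open scoped ENNReal

/-- The facts on the critical point which are used in the supercritical part. -/
structure Crit (m d : ℕ) (h : m ≤ d) (C : ℝ) : Prop where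
  one_le : 1 ≤ C
  m_ge : 10000 ≤ m
  pc_hi : pc d ≤ 1 / 1000
  ff_le : ∀ (e : Dir d) (r : ℤ), 1 ≤ r → ff (pc d) e r ≤ 2
  flux_le : ∀ (E : Finset (Dir d)) (R : Dir d → ℤ), E.card ≤ 2 * m → (∀ e ∈ E, 1 ≤ R e) →
    flux (pc d) (BoxS E R) 0 ≤ ENNReal.ofReal ((2 : ℝ) ^ (1 / (64 * m) : ℝ))
  dc : Dc h (tw (pc d)) (ENNReal.ofReal C) 10 (m - 11)
  w3 : ∀ e : Dir d, cpw (tw (pc d)) 3 (uv e) ≤ ENNReal.ofReal (1 / 1000)
  w4 : ∀ x : Vx d, cpw (tw (pc d)) 4 x ≤ 2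
  chi_le : ∀ p : ℝ, 0 ≤ p → p < pc d → chi d p ≤ ENNReal.ofReal (C / (pc d - p))

end Pool.Agent.HD
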