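import Pool.Agent.Lib.MP_8ca597_hd.B54
import Pool.Agent.Lib.MP_8ca597_hd.B62
import Pool.Agent.Lib.MP_8ca597_hd.Crit

/-!
# Row B63: the output of the critical theory
-/

set_option autoImplicit false

namespace Pool.Agent.HD

open Finset
open scoped ENNReal

private theorem uv_ne {d : ℕ} (e : Dir d) : uv e ≠ 0 := by
  intro h0
  have h1 := dt_uv e
  rw [h0] at h1
  simp [dt] at h1

theorem crit_exists (m : ℕ) (hm : 10000 ≤ m) : ∃ d0 : ℕ, ∀ d : ℕ, d0 ≤ d → ∀ h : m ≤ d,
    ∃ C : ℝ, Crit m d h C := by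
  obtain ⟨C, CB, hC, hCB, d1, H⟩ := boot_crit m (by omega)
  refine ⟨max (max d1 6000) (max ⌈1000 * CB⌉₊ ((4096 * m ^ 2) ^ 2)), fun d hd h => ?_⟩
  have hd1 : d1 ≤ d := le_trans (le_trans (le_max_left _ _) (le_max_left _ _)) hd
  have hd2 : 6000 ≤ d := le_trans (le_trans (le_max_right _ _) (le_max_left _ _)) hd
  have hd3 : ⌈1000 * CB⌉₊ ≤ d := le_trans (le_trans (le_max_left _ _) (le_max_right _ _)) hd
  have hd4 : (4096 * m ^ 2) ^ 2 ≤ d :=
    le_trans (le_trans (le_max_right _ _) (le_max_right _ _)) hd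
  have hdR : (6000 : ℝ) ≤ d := by exact_mod_cast hd2
  have hd0 : (0 : ℝ) < d := by linarith
  have hm0 : (10000 : ℝ) ≤ m := by exact_mod_cast hm
  have hCBd : CB / d ≤ 1 / 1000 := by
    have : 1000 * CB ≤ d := le_trans (Nat.le_ceil _) (by exact_mod_cast hd3)
    rw [div_le_div_iff₀ hd0 (by norm_num)]
    linarith
  obtain ⟨hlo, hhalf, HT⟩ := H d hd1 h
  have hpc0 : 0 < pc d := lt_of_lt_of_le (by positivity) hlo
  have hTc := HT (pc d) hpc0.le le_rfl
  have hpcq : pc d ≤ 1 / d := by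
    have h1 := hTc.q
    have h2 : (11 : ℝ) / d ≤ 1 := by
      rw [div_le_one hd0]; linarith
    rw [le_div_iff₀ hd0]
    nlinarith
  have hpc1000 : pc d ≤ 1 / 1000 := by
    refine hpcq.trans ?_
    rw [div_le_div_iff₀ hd0 (by norm_num)]
    linarith
  have hone : 1 ≤ d := by omega
  have hw3 : ∀ p : ℝ, 0 ≤ p → p ≤ pc d → ∀ e : Dir d,
      cpw (tw p) 3 (uv e) ≤ ENNReal.ofReal (1 / 1000) := by
    intro p hp hpp e
    have h1 := (HT p hp hpp).dg 3 (by norm_num) (by norm_num) (uv e)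
    have h2 : dl (uv e) = 0 := by simp [dl, uv_ne e]
    rw [h2, zero_add] at h1
    exact h1.trans (ENNReal.ofReal_le_ofReal hCBd)
  refine ⟨max (max 1 (C * d ^ 2)) (2 / d), ?_⟩
  refine ⟨?_, hm, hpc1000, ?_, ?_, ?_, ?_, ?_, ?_⟩
  · exact le_trans (le_max_left _ _) (le_max_left _ _)
  · intro e r hr
    refine (hTc.f e r hr).trans ?_
    rw [ENNReal.div_le_iff (by norm_num) (by norm_num)]
    norm_num
  · intro E R hE hR
    refine (Lc.flux (BoxS E R) 0).left (pc d) hpc0 (by linarith) _ fun p' hp' hpp => ?_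
    have hT := HT p' hp' hpp.le
    have hs := sub_of_lt hp' hpp
    have hb := flux_box hp' (by linarith) hs (F := 2) (w3 := ENNReal.ofReal (1 / (2 * √d)))
      (w4 := 2) (by norm_num) (fun e r hr => (hT.f e r hr).trans (by
        rw [ENNReal.div_le_iff (by norm_num) (by norm_num)]
        norm_num)) hT.w3 hT.w4 E hR
    refine hb.trans ?_
    have hsq : (4096 * m ^ 2 : ℝ) ≤ √d := by
      rw [Real.le_sqrt (by positivity) hd0.le]
      exact_mod_cast hd4
    have hsq0 : 0 < √(d : ℝ) := Real.sqrt_pos.2 hd0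
    have hcard : (E.card : ℝ) ≤ 2 * m := by exact_mod_cast hE
    have key : 1 + (E.card : ℝ) * 2 ^ 2 * (1 / (2 * √d)) + (E.card : ℝ) ^ 2 * p' * 2 ^ 2 * 2 ≤
        (2 : ℝ) ^ (1 / (64 * m) : ℝ) := by
      have hlog : 1 + Real.log 2 * (1 / (64 * m)) ≤ (2 : ℝ) ^ (1 / (64 * m) : ℝ) := by
        rw [Real.rpow_def_of_pos (by norm_num)]
        have := Real.add_one_le_exp (Real.log 2 * (1 / (64 * m)))
        linarith
      have hl2 : (0.6931471803 : ℝ) < Real.log 2 := Real.log_two_gt_d9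
      have hmp : (0 : ℝ) < m := by linarith
      have e1 : (E.card : ℝ) * 2 ^ 2 * (1 / (2 * √d)) ≤ 1 / (1024 * m) := by
        have : (E.card : ℝ) * 2 ^ 2 * (1 / (2 * √d)) ≤ (2 * m) * 2 ^ 2 * (1 / (2 * (4096 * m ^ 2))) := by
          gcongr
        refine this.trans (le_of_eq ?_)
        field_simp
        norm_num
      have hdd : (4096 * m ^ 2 : ℝ) ^ 2 ≤ d := by exact_mod_cast hd4
      have e2 : (E.card : ℝ) ^ 2 * p' * 2 ^ 2 * 2 ≤ 1 / (1024 * m) := by
        have hp'' : p' ≤ 1 / (4096 * m ^ 2 : ℝ) ^ 2 := by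
          refine hpp.le.trans (hpcq.trans ?_)
          exact one_div_le_one_div_of_le (by positivity) hdd
        have : (E.card : ℝ) ^ 2 * p' * 2 ^ 2 * 2 ≤
            (2 * m) ^ 2 * (1 / (4096 * m ^ 2 : ℝ) ^ 2) * 2 ^ 2 * 2 := by
          gcongr
        refine this.trans ?_
        rw [div_eq_mul_inv, div_eq_mul_inv]
        have hm2 : (1 : ℝ) ≤ m := by linarith
        have : (2 * (m : ℝ)) ^ 2 * (1 * ((4096 * m ^ 2 : ℝ) ^ 2)⁻¹) * 2 ^ 2 * 2 =
            32 / 4096 ^ 2 * ((m : ℝ) ^ 2)⁻¹ := by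
          field_simp
          norm_num
        rw [this]
        have h3 : ((m : ℝ) ^ 2)⁻¹ ≤ (m : ℝ)⁻¹ := by
          apply inv_anti₀ hmp
          nlinarith
        have h4 : 0 < (m : ℝ)⁻¹ := by positivity
        calc 32 / 4096 ^ 2 * ((m : ℝ) ^ 2)⁻¹ ≤ 32 / 4096 ^ 2 * (m : ℝ)⁻¹ := by gcongr
          _ ≤ 1 * (1024 * (m : ℝ))⁻¹ := by
            rw [mul_inv, one_mul]
            nlinarith
      have e3 : 1 / (1024 * (m : ℝ)) + 1 / (1024 * m) ≤ Real.log 2 * (1 / (64 * m)) := by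
        have : 1 / (1024 * (m : ℝ)) + 1 / (1024 * m) = (1 / 8) * (1 / (64 * m)) := by
          field_simp
          norm_num
        rw [this]
        gcongr
        linarith
      linarith
    have hE0 : (0 : ℝ) ≤ E.card := by positivity
    calc (1 : ℝ≥0∞) + E.card * 2 ^ 2 * ENNReal.ofReal (1 / (2 * √d)) +
          (E.card : ℝ≥0∞) ^ 2 * ENNReal.ofReal p' * 2 ^ 2 * 2
        = ENNReal.ofReal (1 + (E.card : ℝ) * 2 ^ 2 * (1 / (2 * √d)) +
            (E.card : ℝ) ^ 2 * p' * 2 ^ 2 * 2) := by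
          rw [ENNReal.ofReal_add (by positivity) (by positivity),
            ENNReal.ofReal_add (by positivity) (by positivity), ENNReal.ofReal_one,
            ENNReal.ofReal_mul (by positivity), ENNReal.ofReal_mul (by positivity),
            ENNReal.ofReal_mul (by positivity), ENNReal.ofReal_mul (by positivity),
            ENNReal.ofReal_mul (by positivity), ENNReal.ofReal_pow (by norm_num),
            ENNReal.ofReal_pow (by positivity), ENNReal.ofReal_natCast,
            show ENNReal.ofReal 2 = 2 by simp]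
      _ ≤ _ := ENNReal.ofReal_le_ofReal key
  · refine ⟨hTc.dy.dc.symm, fun R hR => (hTc.dy.dc.vol R hR).trans ?_, fun k =>
      (hTc.dy.dc.dec k).trans ?_⟩
    · gcongr
      exact le_trans (le_max_right _ _) (le_max_left _ _)
    · exact ENNReal.ofReal_le_ofReal (le_trans (le_max_right _ _) (le_max_left _ _))
  · exact hw3 (pc d) hpc0.le le_rfl
  · intro x
    refine (hTc.dg 4 (by norm_num) (by norm_num) x).trans ?_
    have h1 : dl x ≤ 1 := by
      unfold dl
      split_ifs <;> simp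
    have h2 : ENNReal.ofReal (CB / d) ≤ 1 := by
      rw [← ENNReal.ofReal_one]
      exact ENNReal.ofReal_le_ofReal (by linarith)
    calc dl x + ENNReal.ofReal (CB / d) ≤ 1 + 1 := add_le_add h1 h2
      _ = 2 := by norm_num
  · intro p hp hpp
    refine (chi_le hone hhalf.le (fun p hp hpp e => ?_) (fun p hp hpp e e' => ?_) hp hpp).trans ?_
    · refine (cpw_mono (fun x => tt_le_tw p x) 3 _).trans ((hw3 p hp hpp.le e).trans ?_)
      rw [show (1 : ℝ≥0∞) / 8 = ENNReal.ofReal (1 / 8) by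
        rw [ENNReal.ofReal_div_of_pos (by norm_num)]; simp]
      exact ENNReal.ofReal_le_ofReal (by norm_num)
    · exact (cpw_mono (fun x => tt_le_tw p x) 4 _).trans ((HT p hp hpp.le).w4 e e')
    · refine ENNReal.ofReal_le_ofReal ?_
      rw [← div_div]
      have : 0 < pc d - p := by linarith
      gcongr
      exact le_max_right _ _

end Pool.Agent.HD
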