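import Pool.Agent.Lib.MP_8ca597_hd.Defs

/-!
# Definitions of part B (the critical theory)
-/

set_option autoImplicit false

namespace Pool.Agent.HD

open Finset
open scoped ENNReal

/-- Convolution. -/
noncomputable def cv {n : ℕ} (f g : Vx n → ℝ≥0∞) (x : Vx n) : ℝ≥0∞ := ∑' y, f y * g (x - y)

/-- The unit mass at `0`. -/
noncomputable def dl {n : ℕ} (x : Vx n) : ℝ≥0∞ := if x = 0 then 1 else 0

/-- Convolution powers. -/
noncomputable def cpw {n : ℕ} (f : Vx n → ℝ≥0∞) : ℕ → Vx n → ℝ≥0∞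
  | 0 => dl
  | k + 1 => cv f (cpw f k)

variable {d : ℕ}

/-- The weighted two-point function. -/
noncomputable def tw (p : ℝ) (x : Vx d) : ℝ≥0∞ := (1 + nm x) ^ 2 * tt p x

/-- The law of a step of simple random walk. -/
noncomputable def DD (d : ℕ) (x : Vx d) : ℝ≥0∞ := if x ∈ nbr (0 : Vx d) then (2 * d : ℝ≥0∞)⁻¹ else 0

/-- The directions. -/
abbrev Dir (d : ℕ) : Type := Fin d × Bool

/-- The sign. -/
def sg (b : Bool) : ℤ := if b then 1 else -1

/-- The scalar product with a unit vector. -/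
def dt (z : Vx d) (e : Dir d) : ℤ := sg e.2 * z e.1

/-- The unit vector. -/
def uv (e : Dir d) : Vx d := Pi.single e.1 (sg e.2)

/-- The half-space. -/
def Hf (e : Dir d) (r : ℤ) : Set (Vx d) := {z | dt z e ≤ r - 1}

/-- The expected number of points at depth `l` below the top plane of the half-space which are
connected to `0` in the half-space. -/
noncomputable def lev (p : ℝ) (e : Dir d) (r : ℤ) (l : ℕ) : ℝ≥0∞ :=
  ∑' z : {z : Vx d // dt z e = r - 1 - l}, tauI p (Hf e r) 0 z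

/-- The flux out of the half-space. -/
noncomputable def ff (p : ℝ) (e : Dir d) (r : ℤ) : ℝ≥0∞ := ENNReal.ofReal p * lev p e r 0

/-- Intersections of half-spaces. -/
def BoxS (E : Finset (Dir d)) (R : Dir d → ℤ) : Set (Vx d) := {z | ∀ e ∈ E, dt z e ≤ R e - 1}

/-- The first error of the Bonferroni bound. -/
noncomputable def er1 (p : ℝ) (S : Set (Vx d)) : ℝ≥0∞ :=
  ∑' q : exI S Set.univ, ∑' z : Vx d, tauI p S 0 z * tt p (q.1.1 - z) * ENNReal.ofReal p *
    cv (tt p) (tt p) (q.1.2 - z)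

open Classical in
/-- The second error of the Bonferroni bound. -/
noncomputable def er2 (p : ℝ) (S : Set (Vx d)) : ℝ≥0∞ :=
  ∑' q : exI S Set.univ, ∑' q' : exI S Set.univ, if q = q' then 0 else
    ∑' z : Vx d, tauI p S 0 z * tt p (q.1.1 - z) * tt p (q'.1.1 - z) * ENNReal.ofReal p ^ 2 *
      cv (tt p) (tt p) (q.1.2 - q'.1.2)

/-! ### The projection to the first `m` coordinates -/

variable {m : ℕ}

/-- The first `m` coordinates. -/
def pj (h : m ≤ d) (x : Vx d) : Vx m := fun i => x (Fin.castLE h i)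

/-- The box in the first `m` coordinates. -/
def Sm (h : m ≤ d) (r : ℕ) : Set (Vx d) := {z | ∀ i, |pj h z i| < r}

/-- The exit measure of the box. -/
noncomputable def mu (p : ℝ) (h : m ≤ d) (r : ℕ) (k : Vx m) : ℝ≥0∞ :=
  ∑' q : exI (Sm h r) Set.univ, if pj h q.1.2 = k then
    tauI p (Sm h r) 0 q.1.1 * ENNReal.ofReal p else 0

/-- The projection of a function. -/
noncomputable def tpj (h : m ≤ d) (g : Vx d → ℝ≥0∞) (k : Vx m) : ℝ≥0∞ :=
  ∑' x : Vx d, if pj h x = k then g x else 0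

/-- The sum of a function over the points whose projection belongs to the box. -/
noncomputable def Vv (h : m ≤ d) (g : Vx d → ℝ≥0∞) (R : ℕ) : ℝ≥0∞ :=
  ∑' x : Vx d, if nm (pj h x) ≤ R then g x else 0

/-- Families of measures on the boundaries of boxes. -/
structure IsFace (M0 : ℝ) (μ : ℕ → Vx m → ℝ≥0∞) : Prop where
  perm : ∀ r k (π : Equiv.Perm (Fin m)), μ r (fun i => k (π i)) = μ r k
  refl : ∀ r k i, μ r (Function.update k i (-k i)) = μ r k
  supp : ∀ r k, 1 ≤ r → μ r k ≠ 0 → nm k = r ∧ ∃! i, (k i).natAbs = r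
  mass : ∀ r, 1 ≤ r → ∑' k, μ r k ≤ ENNReal.ofReal M0

/-- The average over the radii between `R` and `2 R`. -/
noncomputable def mub (μ : ℕ → Vx m → ℝ≥0∞) (R : ℕ) (k : Vx m) : ℝ≥0∞ :=
  (R : ℝ≥0∞)⁻¹ * ∑ r ∈ Ico R (2 * R), μ r k

/-- The multiscale convolution. -/
noncomputable def nu (μ : ℕ → Vx m → ℝ≥0∞) : ℕ → Vx m → ℝ≥0∞
  | 0 => cpw (mub μ 1) (16 * m)
  | J + 1 => cv (cpw (mub μ (2 ^ (J + 1))) (16 * m)) (nu μ J)

/-- Functions with polynomial growth and decay of the projection. -/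
structure Dc (h : m ≤ d) (g : Vx d → ℝ≥0∞) (A : ℝ≥0∞) (α a : ℕ) : Prop where
  symm : ∀ (π : Equiv.Perm (Fin d)) x, g (fun i => x (π i)) = g x
  vol : ∀ R : ℕ, 1 ≤ R → Vv h g R ≤ A * R ^ α
  dec : ∀ k : Vx m, tpj h g k * (nm k : ℝ≥0∞) ^ a ≤ A

end Pool.Agent.HD
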