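import Mathlib

/-!
# Percolation on `ℤ^d`: finitary definitions

A configuration is the finite set of open edges. All probabilities are finite sums; infinite volume
quantities are suprema over finite volumes.
-/

set_option autoImplicit false

namespace Pool.Agent.HD

open Finset
open scoped ENNReal

/-! ### Finite products of Bernoulli measures -/

section fin

variable {α : Type} [DecidableEq α]

/-- The expectation of `f (T)`, where `T` is the random subset of `S` which contains every element
of `S` independently with probability `p`. -/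
noncomputable def EE (p : ℝ) (S : Finset α) (f : Finset α → ℝ) : ℝ :=
  ∑ T ∈ S.powerset, p ^ T.card * (1 - p) ^ (S \ T).card * f T

open Classical in
/-- The probability of the event `A`. -/
noncomputable def PP (p : ℝ) (S : Finset α) (A : Set (Finset α)) : ℝ :=
  EE p S fun T => if T ∈ A then 1 else 0

/-- The event `A` depends only on the elements of `F`. -/
def Dep (A : Set (Finset α)) (F : Finset α) : Prop :=
  ∀ T T', T ∩ F = T' ∩ F → (T ∈ A ↔ T' ∈ A)

/-- The function `f` depends only on the elements of `F`. -/
def DepF (f : Finset α → ℝ) (F : Finset α) : Prop := ∀ T T', T ∩ F = T' ∩ F → f T = f T'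

/-- Increasing events. -/
def Up (A : Set (Finset α)) : Prop := ∀ ⦃T T' : Finset α⦄, T ⊆ T' → T ∈ A → T' ∈ A

/-- Disjoint occurrence. -/
def box (A B : Set (Finset α)) : Set (Finset α) :=
  {T | ∃ K L : Finset α, K ⊆ T ∧ L ⊆ T ∧ Disjoint K L ∧ K ∈ A ∧ L ∈ B}

/-- Disjoint occurrence of a list of events. -/
def boxL : List (Set (Finset α)) → Set (Finset α)
  | [] => Set.univ
  | A :: l => box A (boxL l)

end fin

/-! ### The lattice -/

/-- The vertices. -/
abbrev Vx (d : ℕ) : Type := Fin d → ℤ

/-- Pairs of vertices. -/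
abbrev Ed (d : ℕ) : Type := Sym2 (Vx d)

variable {d : ℕ}

/-- Nearest neighbours. -/
def Adj (x y : Vx d) : Prop := ∑ i, |x i - y i| = 1

/-- The nearest neighbour edges. -/
def IsEd (e : Ed d) : Prop := ∃ x y, e = s(x, y) ∧ Adj x y

open Classical in
/-- The edges with both ends in `V`. -/
noncomputable def edges (V : Finset (Vx d)) : Finset (Ed d) := V.sym2.filter IsEd

open Classical in
/-- The edges of `V` with at least one end in `K`. -/
noncomputable def touch (V K : Finset (Vx d)) : Finset (Ed d) :=
  (edges V).filter fun e => ∃ x ∈ K, x ∈ e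

/-- An open edge from `x` to the vertex `y` of `V`. -/
def Step (T : Finset (Ed d)) (V : Set (Vx d)) (x y : Vx d) : Prop := y ∈ V ∧ Adj x y ∧ s(x, y) ∈ T

/-- `x` and `y` are connected by a path of open edges in `V`. -/
def Conn (T : Finset (Ed d)) (V : Set (Vx d)) (x y : Vx d) : Prop :=
  x ∈ V ∧ Relation.ReflTransGen (Step T V) x y

open Classical in
/-- The cluster of `x` in the finite domain `V`. -/
noncomputable def cl (T : Finset (Ed d)) (V : Finset (Vx d)) (x : Vx d) : Finset (Vx d) :=
  V.filter fun y => Conn T V x y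

/-- The two-point function in the finite domain `V`. -/
noncomputable def tau (p : ℝ) (V : Finset (Vx d)) (x y : Vx d) : ℝ :=
  PP p (edges V) {T | Conn T V x y}

open Classical in
/-- The pairs of neighbours `(u, v)` with `u` in `S` and `v` in `V` outside `S`. -/
noncomputable def exits (S V : Finset (Vx d)) : Finset (Vx d × Vx d) :=
  (S ×ˢ (V \ S)).filter fun q => Adj q.1 q.2

open Classical in
/-- All pairs of neighbours in `V`. -/
noncomputable def prs (V : Finset (Vx d)) : Finset (Vx d × Vx d) :=
  (V ×ˢ V).filter fun q => Adj q.1 q.2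

/-- The box of radius `n`. -/
noncomputable def Bx (d n : ℕ) : Finset (Vx d) := Fintype.piFinset fun _ => Icc (-(n : ℤ)) n

/-- The supremum norm. -/
def nm (x : Vx d) : ℕ := univ.sup fun i => (x i).natAbs

/-- The inner boundary of the box. -/
noncomputable def Bd (d n : ℕ) : Finset (Vx d) := (Bx d n).filter fun x => nm x = n

open Classical in
/-- The neighbours of a vertex. -/
noncomputable def nbr (x : Vx d) : Finset (Vx d) :=
  (Fintype.piFinset fun i => Icc (x i - 1) (x i + 1)).filter fun y => Adj x y

open Classical in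
/-- `K` and its neighbours. -/
noncomputable def nbh (K : Finset (Vx d)) : Finset (Vx d) := K ∪ K.biUnion nbr

/-- The probability that the cluster of `0` is `K` (computed in the edges which touch `K`). -/
noncomputable def ww (p : ℝ) (K : Finset (Vx d)) : ℝ :=
  PP p (edges (nbh K)) {T | 0 ∈ K ∧ cl T (nbh K) 0 = K}

/-- The two-point function in the (possibly infinite) domain `S`. -/
noncomputable def tauI (p : ℝ) (S : Set (Vx d)) (x y : Vx d) : ℝ≥0∞ :=
  ⨆ (V : Finset (Vx d)) (_ : (V : Set (Vx d)) ⊆ S), ENNReal.ofReal (tau p V x y)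

/-- The two-point function. -/
noncomputable def tt (p : ℝ) (x : Vx d) : ℝ≥0∞ := tauI p Set.univ 0 x

/-- The susceptibility. -/
noncomputable def chi (d : ℕ) (p : ℝ) : ℝ≥0∞ := ∑' x : Vx d, tt p x

/-- The probability that the cluster of `0` is infinite. -/
noncomputable def theta (d : ℕ) (p : ℝ) : ℝ≥0∞ := 1 - ∑' K : Finset (Vx d), ENNReal.ofReal (ww p K)

/-- The critical point. -/
noncomputable def pc (d : ℕ) : ℝ := sInf {p : ℝ | p ∈ Set.Icc (0 : ℝ) 1 ∧ 0 < theta d p}

/-- The pairs of neighbours `(u, v)` with `u` in `S` and `v` in `W` outside `S`. -/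
def exI (S W : Set (Vx d)) : Set (Vx d × Vx d) := {q | q.1 ∈ S ∧ q.2 ∈ W ∧ q.2 ∉ S ∧ Adj q.1 q.2}

/-- The flux from `x` out of `S`. -/
noncomputable def flux (p : ℝ) (S : Set (Vx d)) (x : Vx d) : ℝ≥0∞ :=
  ∑' q : exI S Set.univ, tauI p S x q.1.1 * ENNReal.ofReal p

end Pool.Agent.HD
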