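import Pool.Agent.Lib.MP_8ca597_hd.S12

/-!
# Row N20: the tilt for `EF`

`ww_tilt` (A15) and the Cauchy-Schwarz inequality `(∑ √(w_q w_p') A B)² ≤ ∑ w_q A² ∑ w_p' B²` in `[0, ∞]`
(`ENNReal.inner_le_Lp_mul_Lq_tsum` with exponents `2, 2`). `EF_tilt1`: `A = B = F ^ (1/2)` (real power).
-/

set_option autoImplicit false

namespace Pool.Agent.HD

open Finset
open scoped ENNReal

variable {d : ℕ} {p : ℝ}

private theorem N20_half (x : ℝ≥0∞) : (x ^ (1 / 2 : ℝ)) ^ 2 = x := by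
  rw [← ENNReal.rpow_natCast, ← ENNReal.rpow_mul]
  norm_num

private theorem N20_half' (x : ℝ≥0∞) : x ^ (1 / 2 : ℝ) * x ^ (1 / 2 : ℝ) = x := by
  rw [← sq, N20_half]

private theorem N20_cs {ι : Type} (f g : ι → ℝ≥0∞) :
    (∑' i, f i * g i) ^ 2 ≤ (∑' i, f i ^ 2) * ∑' i, g i ^ 2 := by
  have h : ∑' i, f i * g i ≤ (∑' i, f i ^ 2) ^ (1 / 2 : ℝ) * (∑' i, g i ^ 2) ^ (1 / 2 : ℝ) := by
    rw [ENNReal.tsum_eq_iSup_sum]
    refine iSup_le fun s => ?_
    have h1 := ENNReal.inner_le_Lp_mul_Lq s f g (Real.holderConjugate_iff.2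
      ⟨one_lt_two, by norm_num⟩ : Real.HolderConjugate 2 2)
    refine h1.trans ?_
    have h2 : ∀ (u : ι → ℝ≥0∞), ∑ i ∈ s, u i ^ (2 : ℝ) ≤ ∑' i, u i ^ 2 := by
      intro u
      have h3 : ∑ i ∈ s, u i ^ (2 : ℝ) = ∑ i ∈ s, u i ^ 2 := by
        refine Finset.sum_congr rfl fun i _ => ?_
        rw [← ENNReal.rpow_natCast]
        norm_num
      rw [h3]
      exact ENNReal.sum_le_tsum s
    exact mul_le_mul' (ENNReal.rpow_le_rpow (h2 f) (by norm_num))
      (ENNReal.rpow_le_rpow (h2 g) (by norm_num))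
  calc (∑' i, f i * g i) ^ 2
      ≤ ((∑' i, f i ^ 2) ^ (1 / 2 : ℝ) * (∑' i, g i ^ 2) ^ (1 / 2 : ℝ)) ^ 2 :=
        pow_le_pow_left' h 2
    _ = (∑' i, f i ^ 2) * ∑' i, g i ^ 2 := by rw [mul_pow, N20_half, N20_half]

private theorem N20_sqrt (x : ℝ) : ENNReal.ofReal (√x) ^ 2 = ENNReal.ofReal x := by
  rw [← ENNReal.ofReal_pow (Real.sqrt_nonneg x)]
  rcases le_total 0 x with h | h
  · rw [Real.sq_sqrt h]
  · rw [Real.sqrt_eq_zero'.2 h, ENNReal.ofReal_of_nonpos h]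
    simp

theorem EF_tilt {q p' δ : ℝ} (hp : p ≤ 1 / 2) (hp0 : 0 < p) (hq : q = p - δ) (hp' : p' = p + δ)
    (h0 : 0 ≤ δ) (h1 : δ ≤ p / 2) (n : ℕ) (A B : Finset (Vx d) → ℝ≥0∞) :
    EF p (fun K => if K.card ≤ n then A K * B K else 0) ^ 2 ≤
      ENNReal.ofReal (Real.exp (2 * (δ ^ 2 * (2 * d * n) / p ^ 2))) *
        (EF q (fun K => if K.card ≤ n then A K ^ 2 else 0) *
          EF p' (fun K => if K.card ≤ n then B K ^ 2 else 0)) := by
  set t : ℝ := δ ^ 2 * (2 * d * n) / p ^ 2 with ht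
  set c : ℝ≥0∞ := ENNReal.ofReal (Real.exp t) with hc
  set f : Finset (Vx d) → ℝ≥0∞ := fun K => ENNReal.ofReal (√(ww q K)) *
    (if K.card ≤ n then A K else 0) with hf
  set g : Finset (Vx d) → ℝ≥0∞ := fun K => ENNReal.ofReal (√(ww p' K)) *
    (if K.card ≤ n then B K else 0) with hg
  have h2 : EF p (fun K => if K.card ≤ n then A K * B K else 0) ≤ c * ∑' K, f K * g K := by
    rw [EF, ← ENNReal.tsum_mul_left]
    refine ENNReal.tsum_le_tsum fun K => ?_
    by_cases hK : K.card ≤ n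
    · have h3 := ww_tilt hp hp0 hq hp' h0 h1 K hK
      have h4 : ENNReal.ofReal (ww p K) ≤ c * (ENNReal.ofReal (√(ww q K)) *
          ENNReal.ofReal (√(ww p' K))) := by
        rw [hc, ← ENNReal.ofReal_mul (Real.sqrt_nonneg _), ← ENNReal.ofReal_mul (Real.exp_pos _).le]
        exact ENNReal.ofReal_le_ofReal h3
      simp only [hf, hg, hK, if_true]
      calc ENNReal.ofReal (ww p K) * (A K * B K)
          ≤ c * (ENNReal.ofReal (√(ww q K)) * ENNReal.ofReal (√(ww p' K))) * (A K * B K) :=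
            mul_le_mul' h4 le_rfl
        _ = c * (ENNReal.ofReal √(ww q K) * A K * (ENNReal.ofReal √(ww p' K) * B K)) := by ring
    · simp [hK]
  have h5 : ∀ (r : ℝ) (U : Finset (Vx d) → ℝ≥0∞),
      ∑' K, (ENNReal.ofReal (√(ww r K)) * (if K.card ≤ n then U K else 0)) ^ 2 =
        EF r (fun K => if K.card ≤ n then U K ^ 2 else 0) := by
    intro r U
    rw [EF]
    refine tsum_congr fun K => ?_
    rw [mul_pow, N20_sqrt]
    by_cases hK : K.card ≤ n <;> simp [hK]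
  have h6 : ENNReal.ofReal (Real.exp (2 * t)) = c ^ 2 := by
    rw [hc, ← ENNReal.ofReal_pow (Real.exp_pos _).le, ← Real.exp_nat_mul]
    norm_num
  rw [h6]
  calc EF p (fun K => if K.card ≤ n then A K * B K else 0) ^ 2
      ≤ (c * ∑' K, f K * g K) ^ 2 := pow_le_pow_left' h2 2
    _ = c ^ 2 * (∑' K, f K * g K) ^ 2 := by rw [mul_pow]
    _ ≤ c ^ 2 * ((∑' K, f K ^ 2) * ∑' K, g K ^ 2) := mul_le_mul' le_rfl (N20_cs f g)
    _ = _ := by rw [h5 q A, h5 p' B]

theorem EF_tilt1 {q p' δ : ℝ} (hp : p ≤ 1 / 2) (hp0 : 0 < p) (hq : q = p - δ) (hp' : p' = p + δ)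
    (h0 : 0 ≤ δ) (h1 : δ ≤ p / 2) (n : ℕ) (F : Finset (Vx d) → ℝ≥0∞) :
    EF p (fun K => if K.card ≤ n then F K else 0) ^ 2 ≤
      ENNReal.ofReal (Real.exp (2 * (δ ^ 2 * (2 * d * n) / p ^ 2))) *
        (EF q (fun K => if K.card ≤ n then F K else 0) *
          EF p' (fun K => if K.card ≤ n then F K else 0)) := by
  have h := EF_tilt hp hp0 hq hp' h0 h1 n (fun K => F K ^ (1 / 2 : ℝ)) (fun K => F K ^ (1 / 2 : ℝ))
  simp only [N20_half, N20_half'] at h
  exact h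

/-- The truncated two-point function is at most the two-point function. -/
theorem tauf_le_tt (hp : 0 ≤ p) (hp1 : p ≤ 1) (x : Vx d) : tauf p x ≤ tt p x := by
  classical
  rw [tauf, EF, ENNReal.tsum_eq_iSup_sum]
  refine iSup_le fun s => ?_
  set s' : Finset (Finset (Vx d)) := s.filter (fun K => (0 : Vx d) ∈ K ∧ x ∈ K) with hs'
  set V := s.biUnion nbh with hV
  have h1 : ∑ K ∈ s, ENNReal.ofReal (ww p K) * (if x ∈ K then 1 else 0) =
      ENNReal.ofReal (∑ K ∈ s', ww p K) := by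
    rw [ENNReal.ofReal_sum_of_nonneg fun K _ => ww_nonneg hp hp1 K, hs', Finset.sum_filter]
    refine Finset.sum_congr rfl fun K _ => ?_
    by_cases hx : x ∈ K
    · by_cases h0 : (0 : Vx d) ∈ K
      · simp [hx, h0]
      · simp [hx, h0, ww_zero p h0]
    · simp [hx]
  have h2 : ∑ K ∈ s', ww p K ≤ tau p V 0 x := by
    have h3 : ∀ K ∈ s', ww p K = PP p (edges V) {T | cl T V 0 = K} := by
      intro K hK
      rw [hs', Finset.mem_filter] at hK
      exact (PP_cl_eq p (Finset.subset_biUnion_of_mem nbh hK.1) hK.2.1).symm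
    rw [Finset.sum_congr rfl h3, ← PP_exists_eq, tau]
    · refine PP_mono hp hp1 ?_
      rintro T _ ⟨K, hK, hT⟩
      rw [hs', Finset.mem_filter] at hK
      have h4 : x ∈ cl T V 0 := by
        rw [show cl T V 0 = K from hT]
        exact hK.2.2
      rw [mem_cl] at h4
      exact h4
    · intro T _ K _ K' _ hK hK'
      exact hK.symm.trans hK'
  rw [h1, tt, tauI]
  exact (ENNReal.ofReal_le_ofReal h2).trans (le_iSup₂_of_le V (Set.subset_univ _) le_rfl)

/-- Sums over the cluster. -/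
theorem EF_sum_mem (p : ℝ) (g : Vx d → ℝ≥0∞) :
    EF p (fun K => ∑ x ∈ K, g x) = ∑' x : Vx d, g x * tauf p x := by
  classical
  have h1 : ∀ x : Vx d, g x * tauf p x =
      ∑' K : Finset (Vx d), ENNReal.ofReal (ww p K) * (if x ∈ K then g x else 0) := by
    intro x
    rw [tauf, EF, ← ENNReal.tsum_mul_left]
    refine tsum_congr fun K => ?_
    by_cases hx : x ∈ K
    · simp only [hx, if_true]
      ring
    · simp [hx]
  rw [tsum_congr h1, ENNReal.tsum_comm, EF]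
  refine tsum_congr fun K => ?_
  rw [ENNReal.tsum_mul_left]
  congr 1
  rw [tsum_eq_sum (s := K)]
  · refine Finset.sum_congr rfl fun x hx => ?_
    simp [hx]
  · intro x hx
    simp [hx]

end Pool.Agent.HD
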