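import Pool.Agent.Lib.MP_8ca597_hd.S19

/-!
# Row S20: the energy and the moments (A11, A12), the exponent gamma'

`energy`: split the sum over `z` at `4 nm z ≤ ρ`: near part `bush` and `∑_z bI z cpw Dk (j+1) z = cv (cpw Dk (j+1)) bI 0`
(evenness) `≤ C2` (`Dk_conv`, `j + 1 ≤ 5`), the error term is at most `C' ρ ^ 40 ρ ^ (-1000)`; far part: `bI z ≤
C' / (ρ/4) ^ 800`, times `EF |K| ^ (k+1) ≤ 2 ε ^ (-3k-3)`, `ε⁻¹ ≤ (2ρ) ^ 50`, `3 k + 3 ≤ 15`, `15 * 50 = 750`.
`energy_mt`: `EF_mt` with `φ x K = |K| ^ (k-1) ∑ z ∈ K.erase x, bI (z - x)`. `moment`: with `A = EF |K| ^ k`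
(`< ∞` by `apriori`), `cap_ge`: `|K| ^ k ≤ λ |K| ^ (k-1) cap K + (1/(2λ)) |K| ^ (k-1) (|K| + en K)` for `λ > 0`,
`|K| ^ (k-1) cap K ≤ η |K| ^ k + η ^ (-(k-1)) cap K ^ k` for `0 < η ≤ 1`; choose `λ` then `η` (constants):
`A ≤ A / 2 + C EF cap ^ k + 1`, `cap_moment`. `chif_le`: `k = 1`.
-/

set_option autoImplicit false

namespace Pool.Agent.HD

open Finset
open scoped ENNReal

variable {m d : ℕ} {h : m ≤ d} {C : ℝ}

private theorem S20_even (hc : Crit m d h C) (x : Vx d) : bI d (-x) = bI d x := by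
  rw [← ofReal_bR hc, ← ofReal_bR hc, bR_even]

/-- The near error. -/
private theorem S20_num1 {C' r : ℝ} (hC : 0 ≤ C') (hr : 1 ≤ r) (h : 2 * C' ≤ r) :
    1 / r ^ 1000 * (C' * r ^ 40) ≤ 1 / 2 := by
  have hr0 : 0 < r := by linarith
  have h1 : r ^ 41 ≤ r ^ 1000 := pow_le_pow_right₀ hr (by norm_num)
  have h2 : 0 < r ^ 1000 := by positivity
  rw [div_mul_eq_mul_div, one_mul, div_le_iff₀ h2]
  have h3 : C' * r ^ 40 * 2 ≤ r ^ 41 := by
    have : r ^ 41 = r * r ^ 40 := by ring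
    rw [this]
    have h4 : 0 ≤ r ^ 40 := by positivity
    nlinarith
  linarith

/-- The far error. -/
private theorem S20_num2 {A D r e : ℝ} {n : ℕ} (hA : 0 ≤ A) (hD : D = A * 2 * 2 ^ 750)
    (hr : 1 ≤ r) (h : 2 * D ≤ r) (he : 0 < e) (hn : n ≤ 15) (h1 : 1 ≤ e * (2 * r) ^ 50) :
    A / r ^ 800 * (2 / e ^ n) ≤ 1 / 2 := by
  have hr0 : 0 < r := by linarith
  have h2r : 1 ≤ 2 * r := by linarith
  have h2 : 1 / e ≤ (2 * r) ^ 50 := by
    rw [div_le_iff₀ he]
    linarith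
  have h3 : 1 / e ^ n ≤ (2 * r) ^ 750 := by
    have h4 : 1 / e ^ n = (1 / e) ^ n := by rw [one_div, one_div, inv_pow]
    rw [h4]
    calc (1 / e) ^ n ≤ ((2 * r) ^ 50) ^ n := pow_le_pow_left₀ (by positivity) h2 n
      _ = (2 * r) ^ (50 * n) := by rw [← pow_mul]
      _ ≤ (2 * r) ^ 750 := pow_le_pow_right₀ h2r (by omega)
  have h5 : (2 * r) ^ 750 = 2 ^ 750 * r ^ 750 := mul_pow _ _ _
  have h6 : A / r ^ 800 * (2 / e ^ n) ≤ A / r ^ 800 * (2 * (2 ^ 750 * r ^ 750)) := by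
    apply mul_le_mul_of_nonneg_left _ (by positivity)
    rw [← h5, show (2 : ℝ) / e ^ n = 2 * (1 / e ^ n) by ring]
    linarith
  refine h6.trans ?_
  have h7 : A / r ^ 800 * (2 * (2 ^ 750 * r ^ 750)) = D * r ^ 750 / r ^ 800 := by
    rw [hD]
    ring
  rw [h7, div_le_iff₀ (by positivity)]
  have h8 : r ^ 751 ≤ r ^ 800 := pow_le_pow_right₀ hr (by norm_num)
  have h9 : r ^ 751 = r * r ^ 750 := by rw [pow_succ]; ring
  have h10 : 0 ≤ r ^ 750 := by positivity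
  rw [h9] at h8
  nlinarith [mul_le_mul_of_nonneg_right h h10]

/-- The constants. -/
private theorem S20_const {C' : ℝ} (hC : 0 ≤ C') : ∃ A D : ℝ, 0 ≤ A ∧ 0 ≤ D ∧
    (∀ r n : ℝ, 0 < r → r ≤ 4 * n → C' / n ^ 800 ≤ A / r ^ 800) ∧
    ∀ (r e : ℝ) (n : ℕ), 1 ≤ r → 2 * D ≤ r → 0 < e → n ≤ 15 → 1 ≤ e * (2 * r) ^ 50 →
      A / r ^ 800 * (2 / e ^ n) ≤ 1 / 2 := by
  refine ⟨C' * 4 ^ 800, C' * 4 ^ 800 * 2 * 2 ^ 750, by positivity, by positivity, ?_, ?_⟩
  · intro r n hr h1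
    have h2 : 0 < n := by linarith
    have h3 : r ^ 800 ≤ 4 ^ 800 * n ^ 800 := by
      rw [← mul_pow]
      exact pow_le_pow_left₀ hr.le h1 800
    rw [div_le_div_iff₀ (by positivity) (by positivity)]
    calc C' * r ^ 800 ≤ C' * (4 ^ 800 * n ^ 800) := mul_le_mul_of_nonneg_left h3 hC
      _ = C' * 4 ^ 800 * n ^ 800 := by rw [mul_assoc]
  · intro r e n h1 h2 h3 h4 h5
    exact S20_num2 (by positivity) rfl h1 h2 h3 h4 h5

theorem energy (hc : Crit m d h C) (k : ℕ) (hk : 1 ≤ k) (hk4 : k ≤ 4) : ∃ c ε0 : ℝ,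
    0 < c ∧ 0 < ε0 ∧ ∀ ε : ℝ, 0 < ε → ε ≤ ε0 →
      EF (d := d) (pc d + ε) (fun K => (K.card : ℝ≥0∞) ^ k * ∑ z ∈ K.erase 0, bI d z) ≤
        ENNReal.ofReal c * EF (d := d) (pc d + ε) (fun K => (K.card : ℝ≥0∞) ^ k) + 1 := by
  classical
  obtain ⟨c0, ρa, hc0, hbush⟩ := bush hc k hk hk4
  obtain ⟨C2, ρb, hC2, hconv⟩ := Dk_conv hc
  obtain ⟨C', hC', hgrow, hdec⟩ := bR_le hc
  obtain ⟨εa, hεa, hap⟩ := apriori hc (k + 1)
  obtain ⟨A, D, hA0, hD0, hAfar, hDfar⟩ := S20_const (C' := C') (by linarith)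
  obtain ⟨ρc, hρc⟩ := exists_nat_ge (2 * C' + 2 * D)
  obtain ⟨ε1, hε1, hlarge⟩ := scale_large (max (max ρa ρb) ρc)
  refine ⟨c0 * (4 * C2), min (min εa ε1) 1, by positivity, by positivity, fun ε hε hε0 => ?_⟩
  have hεa' : ε ≤ εa := hε0.trans ((min_le_left _ _).trans (min_le_left _ _))
  have hε1' : ε ≤ ε1 := hε0.trans ((min_le_left _ _).trans (min_le_right _ _))
  have hεone : ε ≤ 1 := hε0.trans (min_le_right _ _)
  obtain ⟨ρ, hs⟩ := exists_scale hε hεone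
  have hρ := hlarge ε ρ hε1' hs
  have hρa : ρa ≤ ρ := ((le_max_left _ _).trans (le_max_left _ _)).trans hρ
  have hρb : ρb ≤ ρ := ((le_max_right _ _).trans (le_max_left _ _)).trans hρ
  have hρc' : 2 * C' + 2 * D ≤ (ρ : ℝ) := hρc.trans (by exact_mod_cast (le_max_right _ _).trans hρ)
  have hρ1 : (1 : ℝ) ≤ ρ := by exact_mod_cast hs.rho
  have hρ0 : (0 : ℝ) < ρ := by linarith
  set E := EF (d := d) (pc d + ε) (fun K => (K.card : ℝ≥0∞) ^ k) with hE
  set N := ((Bx d ρ).erase 0).filter (fun z => 4 * nm z ≤ ρ) with hN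
  set B : ℝ≥0∞ := ENNReal.ofReal (A / (ρ : ℝ) ^ 800) with hB
  -- the far bound
  have hfar : ∀ z : Vx d, z ≠ 0 → ¬ 4 * nm z ≤ ρ → bI d z ≤ B := by
    intro z hz hz4
    rw [← ofReal_bR hc]
    apply ENNReal.ofReal_le_ofReal
    refine (hdec z hz).trans ?_
    rw [not_le] at hz4
    have h1 : (ρ : ℝ) ≤ 4 * nm z := by exact_mod_cast hz4.le
    exact hAfar _ _ hρ0 h1
  have hpt : ∀ K : Finset (Vx d), (K.card : ℝ≥0∞) ^ k * ∑ z ∈ K.erase 0, bI d z ≤
      ∑ z ∈ N, bI d z * (if z ∈ K then (K.card : ℝ≥0∞) ^ k else 0) +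
        B * (K.card : ℝ≥0∞) ^ (k + 1) := by
    intro K
    have h1 : ∑ z ∈ (K.erase 0).filter (fun z => 4 * nm z ≤ ρ), bI d z ≤
        ∑ z ∈ N, if z ∈ K then bI d z else 0 := by
      rw [← Finset.sum_filter]
      refine Finset.sum_le_sum_of_subset ?_
      intro z hz
      rw [Finset.mem_filter, Finset.mem_erase] at hz
      rw [Finset.mem_filter, hN, Finset.mem_filter, Finset.mem_erase]
      refine ⟨⟨⟨hz.1.1, ?_⟩, hz.2⟩, hz.1.2⟩
      rw [mem_Bx]
      have := hz.2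
      omega
    have h2 : ∑ z ∈ (K.erase 0).filter (fun z => ¬ 4 * nm z ≤ ρ), bI d z ≤ K.card * B := by
      calc ∑ z ∈ (K.erase 0).filter (fun z => ¬ 4 * nm z ≤ ρ), bI d z
          ≤ ∑ z ∈ (K.erase 0).filter (fun z => ¬ 4 * nm z ≤ ρ), B := by
            refine Finset.sum_le_sum fun z hz => ?_
            rw [Finset.mem_filter, Finset.mem_erase] at hz
            exact hfar z hz.1.1 hz.2
        _ = ((K.erase 0).filter (fun z => ¬ 4 * nm z ≤ ρ)).card * B := by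
            rw [Finset.sum_const, nsmul_eq_mul]
        _ ≤ K.card * B := by
            gcongr
            exact (Finset.filter_subset _ _).trans (Finset.erase_subset _ _)
    rw [← Finset.sum_filter_add_sum_filter_not (K.erase 0) (fun z => 4 * nm z ≤ ρ), mul_add]
    refine add_le_add ?_ ?_
    · refine (mul_le_mul_right h1 _).trans (le_of_eq ?_)
      rw [Finset.mul_sum]
      refine Finset.sum_congr rfl fun z _ => ?_
      split_ifs
      · rw [mul_comm]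
      · rw [mul_zero, mul_zero]
    · refine (mul_le_mul_right h2 _).trans (le_of_eq ?_)
      rw [pow_succ]
      ring
  have hsumN : ∑ z ∈ N, bI d z ≤ ENNReal.ofReal (C' * (ρ : ℝ) ^ 40) := by
    calc ∑ z ∈ N, bI d z ≤ ∑ z ∈ (Bx d ρ).erase 0, bI d z :=
          Finset.sum_le_sum_of_subset (Finset.filter_subset _ _)
      _ = ENNReal.ofReal (∑ z ∈ (Bx d ρ).erase 0, bR d z) := by
          rw [ENNReal.ofReal_sum_of_nonneg fun z _ => bR_nonneg d z]
          exact Finset.sum_congr rfl fun z _ => (ofReal_bR hc z).symm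
      _ ≤ _ := ENNReal.ofReal_le_ofReal (hgrow ρ hs.rho)
  have hconvN : ∀ j ∈ Icc 1 k, ∑ z ∈ N, bI d z * cpw (Dk d (pc d + ε) ρ) (j + 1) z ≤
      ENNReal.ofReal C2 := by
    intro j hj
    rw [Finset.mem_Icc] at hj
    have h1 := hconv ρ ε hρb hs (j + 1) 0 (by omega)
    refine le_trans ?_ h1
    unfold cv
    calc ∑ z ∈ N, bI d z * cpw (Dk d (pc d + ε) ρ) (j + 1) z
        = ∑ z ∈ N, cpw (Dk d (pc d + ε) ρ) (j + 1) z * bI d (0 - z) := by
          refine Finset.sum_congr rfl fun z _ => ?_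
          rw [zero_sub, S20_even hc, mul_comm]
      _ ≤ _ := ENNReal.sum_le_tsum N
  have hbushN : ∑ z ∈ N, bI d z *
      EF (d := d) (pc d + ε) (fun K => if z ∈ K then (K.card : ℝ≥0∞) ^ k else 0) ≤
      ENNReal.ofReal (c0 * (4 * C2)) * E + ENNReal.ofReal (1 / 2) := by
    calc ∑ z ∈ N, bI d z *
          EF (d := d) (pc d + ε) (fun K => if z ∈ K then (K.card : ℝ≥0∞) ^ k else 0)
        ≤ ∑ z ∈ N, bI d z * (ENNReal.ofReal c0 *
            (∑ j ∈ Icc 1 k, cpw (Dk d (pc d + ε) ρ) (j + 1) z) * E +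
            ENNReal.ofReal (1 / (ρ : ℝ) ^ 1000)) := by
          refine Finset.sum_le_sum fun z hz => ?_
          rw [hN, Finset.mem_filter] at hz
          have h1 := hbush ρ ε hρa hs z hz.2
          refine mul_le_mul_right ?_ _
          convert h1 using 2
      _ = ENNReal.ofReal c0 * E * (∑ j ∈ Icc 1 k, ∑ z ∈ N,
            bI d z * cpw (Dk d (pc d + ε) ρ) (j + 1) z) +
            ENNReal.ofReal (1 / (ρ : ℝ) ^ 1000) * ∑ z ∈ N, bI d z := by
          rw [Finset.sum_comm, Finset.mul_sum, Finset.mul_sum, ← Finset.sum_add_distrib]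
          refine Finset.sum_congr rfl fun z _ => ?_
          rw [← Finset.mul_sum]
          ring
      _ ≤ ENNReal.ofReal c0 * E * (∑ j ∈ Icc 1 k, ENNReal.ofReal C2) +
            ENNReal.ofReal (1 / (ρ : ℝ) ^ 1000) * ENNReal.ofReal (C' * (ρ : ℝ) ^ 40) := by
          gcongr with j hj
          exact hconvN j hj
      _ ≤ ENNReal.ofReal (c0 * (4 * C2)) * E + ENNReal.ofReal (1 / 2) := by
          refine add_le_add ?_ ?_
          · rw [Finset.sum_const, Nat.card_Icc, nsmul_eq_mul, Nat.add_sub_cancel,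
              ENNReal.ofReal_mul hc0.le, ENNReal.ofReal_mul (by norm_num)]
            have h1 : ((k : ℕ) : ℝ≥0∞) ≤ ENNReal.ofReal 4 := by
              rw [show ENNReal.ofReal 4 = 4 by norm_num]
              exact_mod_cast hk4
            calc ENNReal.ofReal c0 * E * ((k : ℝ≥0∞) * ENNReal.ofReal C2)
                ≤ ENNReal.ofReal c0 * E * (ENNReal.ofReal 4 * ENNReal.ofReal C2) := by gcongr
              _ = _ := by ring
          · rw [← ENNReal.ofReal_mul (by positivity)]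
            exact ENNReal.ofReal_le_ofReal (S20_num1 (by linarith) hρ1 (by linarith))
  have hfarE : B * EF (d := d) (pc d + ε) (fun K => (K.card : ℝ≥0∞) ^ (k + 1)) ≤
      ENNReal.ofReal (1 / 2) := by
    calc B * EF (d := d) (pc d + ε) (fun K => (K.card : ℝ≥0∞) ^ (k + 1))
        ≤ B * ENNReal.ofReal (2 / ε ^ (3 * (k + 1))) := mul_le_mul_right (hap ε hε hεa') _
      _ = ENNReal.ofReal (A / (ρ : ℝ) ^ 800 * (2 / ε ^ (3 * (k + 1)))) := by
          rw [hB, ← ENNReal.ofReal_mul (by positivity)]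
      _ ≤ _ := ENNReal.ofReal_le_ofReal
          (hDfar _ _ _ hρ1 (by linarith) hε (by omega) hs.ge)
  calc EF (d := d) (pc d + ε) (fun K => (K.card : ℝ≥0∞) ^ k * ∑ z ∈ K.erase 0, bI d z)
      ≤ EF (d := d) (pc d + ε) (fun K =>
          ∑ z ∈ N, bI d z * (if z ∈ K then (K.card : ℝ≥0∞) ^ k else 0) +
          B * (K.card : ℝ≥0∞) ^ (k + 1)) := EF_mono fun K _ => hpt K
    _ = ∑ z ∈ N, bI d z *
          EF (d := d) (pc d + ε) (fun K => if z ∈ K then (K.card : ℝ≥0∞) ^ k else 0) +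
          B * EF (d := d) (pc d + ε) (fun K => (K.card : ℝ≥0∞) ^ (k + 1)) := by
        rw [EF_add, EF_sum, EF_const_mul]
        congr 1
        exact Finset.sum_congr rfl fun z _ => EF_const_mul _ _ _
    _ ≤ (ENNReal.ofReal (c0 * (4 * C2)) * E + ENNReal.ofReal (1 / 2)) +
          ENNReal.ofReal (1 / 2) := add_le_add hbushN hfarE
    _ = ENNReal.ofReal (c0 * (4 * C2)) * E + 1 := by
        rw [add_assoc, ← ENNReal.ofReal_add (by norm_num) (by norm_num)]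
        norm_num

theorem energy_mt (hc : Crit m d h C) (k : ℕ) (hk : 1 ≤ k) {p : ℝ} (hp : 0 ≤ p) (hp1 : p ≤ 1) :
    EF (d := d) p (fun K => (K.card : ℝ≥0∞) ^ (k - 1) * ENNReal.ofReal (en (bR d) K)) =
      EF (d := d) p (fun K => (K.card : ℝ≥0∞) ^ k * ∑ z ∈ K.erase 0, bI d z) := by
  classical
  have hinj : ∀ z : Vx d, Function.Injective (fun x : Vx d => x - z) :=
    fun z => sub_left_injective
  have h1 := EF_mt (d := d) hp hp1
    (fun x K => (K.card : ℝ≥0∞) ^ (k - 1) * ∑ z ∈ K.erase x, bI d (z - x)) (by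
      intro x z K
      rw [Finset.card_image_of_injective _ (hinj z), ← Finset.image_erase (hinj z),
        Finset.sum_image (fun a _ b _ e => hinj z e)]
      congr 1
      exact Finset.sum_congr rfl fun w _ => by rw [sub_sub_sub_cancel_right])
  have h2 : (fun K : Finset (Vx d) => (K.card : ℝ≥0∞) ^ (k - 1) *
      ENNReal.ofReal (en (bR d) K)) = fun K : Finset (Vx d) => ∑ x ∈ K, (K.card : ℝ≥0∞) ^ (k - 1) *
        ∑ z ∈ K.erase x, bI d (z - x) := by
    funext K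
    rw [← Finset.mul_sum]
    congr 1
    unfold en
    rw [ENNReal.ofReal_sum_of_nonneg fun z _ => Finset.sum_nonneg fun z' _ => bR_nonneg d _]
    refine Finset.sum_congr rfl fun x _ => ?_
    rw [ENNReal.ofReal_sum_of_nonneg fun z' _ => bR_nonneg d _]
    refine Finset.sum_congr rfl fun z _ => ?_
    rw [ofReal_bR hc, ← S20_even hc (x - z), neg_sub]
  rw [h2, h1]
  congr 1
  funext K
  rw [← mul_assoc]
  congr 1
  · have e : k = (k - 1) + 1 := by omega
    conv_rhs => rw [e, pow_succ]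
    ring
  · exact Finset.sum_congr rfl fun z _ => by rw [sub_zero]

/-- The pointwise inequality. -/
private theorem S20_pt {n cp e lam : ℝ} {k : ℕ} (hk : 1 ≤ k) (hn : 0 ≤ n) (hcp : 0 ≤ cp)
    (he : 0 ≤ e) (hlam : 1 / 4 ≤ lam) (h : n ^ 2 ≤ 2 * cp * (n + e)) :
    n ^ k ≤ 1 / 4 * n ^ k + lam * (4 * lam) ^ (k - 1) * cp ^ k +
      1 / (2 * lam) * (n ^ k + n ^ (k - 1) * e) := by
  have hl0 : 0 < lam := by linarith
  have h1 : n ≤ lam * cp + 1 / (2 * lam) * (n + e) := by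
    have h2 : n ^ 2 ≤ (lam * cp + 1 / (2 * lam) * (n + e)) ^ 2 := by
      have h3 : (lam * cp + 1 / (2 * lam) * (n + e)) ^ 2 =
          (lam * cp - 1 / (2 * lam) * (n + e)) ^ 2 + 2 * cp * (n + e) := by
        field_simp
        ring
      rw [h3]
      nlinarith [sq_nonneg (lam * cp - 1 / (2 * lam) * (n + e))]
    have h4 : 0 ≤ lam * cp + 1 / (2 * lam) * (n + e) := by positivity
    exact abs_le_of_sq_le_sq' h2 h4 |>.2
  have h2 : n ^ k = n ^ (k - 1) * n := by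
    conv_lhs => rw [show k = (k - 1) + 1 by omega]
    rw [pow_succ]
  have h3 : n ^ (k - 1) * cp ≤ 1 / (4 * lam) * n ^ k + (4 * lam) ^ (k - 1) * cp ^ k := by
    have hcpk : cp ^ k = cp ^ (k - 1) * cp := by
      conv_lhs => rw [show k = (k - 1) + 1 by omega]
      rw [pow_succ]
    rcases le_total cp (1 / (4 * lam) * n) with h4 | h4
    · have h5 : n ^ (k - 1) * cp ≤ 1 / (4 * lam) * n ^ k := by
        rw [h2]
        have : n ^ (k - 1) * cp ≤ n ^ (k - 1) * (1 / (4 * lam) * n) :=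
          mul_le_mul_of_nonneg_left h4 (by positivity)
        linarith
      have h6 : 0 ≤ (4 * lam) ^ (k - 1) * cp ^ k := by positivity
      linarith
    · have h5 : n ≤ 4 * lam * cp := by
        rw [div_mul_eq_mul_div, one_mul, div_le_iff₀ (by positivity)] at h4
        linarith
      have h6 : n ^ (k - 1) * cp ≤ (4 * lam) ^ (k - 1) * cp ^ k := by
        rw [hcpk, ← mul_assoc, ← mul_pow]
        exact mul_le_mul_of_nonneg_right (pow_le_pow_left₀ hn h5 _) hcp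
      have h7 : 0 ≤ 1 / (4 * lam) * n ^ k := by positivity
      linarith
  calc n ^ k = n ^ (k - 1) * n := h2
    _ ≤ n ^ (k - 1) * (lam * cp + 1 / (2 * lam) * (n + e)) :=
        mul_le_mul_of_nonneg_left h1 (by positivity)
    _ = lam * (n ^ (k - 1) * cp) + 1 / (2 * lam) * (n ^ k + n ^ (k - 1) * e) := by
        rw [h2]
        ring
    _ ≤ lam * (1 / (4 * lam) * n ^ k + (4 * lam) ^ (k - 1) * cp ^ k) +
          1 / (2 * lam) * (n ^ k + n ^ (k - 1) * e) := by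
        have := mul_le_mul_of_nonneg_left h3 hl0.le
        linarith
    _ = _ := by
        field_simp

/-- The moments of the volume of the finite cluster. -/
theorem moment (hc : Crit m d h C) (k : ℕ) (hk : 1 ≤ k) (hk4 : k ≤ 4) : ∃ c ε0 : ℝ,
    0 < c ∧ 0 < ε0 ∧ ∀ ε : ℝ, 0 < ε → ε ≤ ε0 →
      EF (d := d) (pc d + ε) (fun K => (K.card : ℝ≥0∞) ^ k) ≤
        ENNReal.ofReal (c / ε ^ (2 * k - 1)) := by
  obtain ⟨c1, ε1, hc1, hε1, hen⟩ := energy hc k hk hk4
  obtain ⟨C', ε2, hC', hε2, hcap⟩ := cap_moment hc k hk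
  obtain ⟨ε3, hε3, hap⟩ := apriori hc k
  have hpc := hc.pc_hi
  have hpc0 : 0 ≤ pc d := by
    have := hc.pc_lo
    have h1 : (0 : ℝ) ≤ 1 / (2 * d) := by positivity
    linarith
  obtain ⟨lam, hlam⟩ : ∃ lam : ℝ, lam = 2 * (1 + c1) := ⟨_, rfl⟩
  have hl1 : 2 ≤ lam := by rw [hlam]; linarith
  obtain ⟨L, hL⟩ : ∃ L : ℝ, L = lam * (4 * lam) ^ (k - 1) := ⟨_, rfl⟩
  have hL0 : 0 < L := by rw [hL]; positivity
  refine ⟨2 * (L * C' + 1), min (min ε1 ε2) (min ε3 (1 / 2)), by positivity, by positivity,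
    fun ε hε hε0 => ?_⟩
  have he1 : ε ≤ ε1 := hε0.trans ((min_le_left _ _).trans (min_le_left _ _))
  have he2 : ε ≤ ε2 := hε0.trans ((min_le_left _ _).trans (min_le_right _ _))
  have he3 : ε ≤ ε3 := hε0.trans ((min_le_right _ _).trans (min_le_left _ _))
  have he4 : ε ≤ 1 / 2 := hε0.trans ((min_le_right _ _).trans (min_le_right _ _))
  have hp : 0 ≤ pc d + ε := by linarith
  have hp1 : pc d + ε ≤ 1 := by linarith
  set A := EF (d := d) (pc d + ε) (fun K => (K.card : ℝ≥0∞) ^ k) with hA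
  have hAtop : A ≠ ⊤ := ne_top_of_le_ne_top ENNReal.ofReal_ne_top (hap ε hε he3)
  obtain ⟨a, ha0, haA⟩ : ∃ a : ℝ, 0 ≤ a ∧ A = ENNReal.ofReal a :=
    ⟨A.toReal, ENNReal.toReal_nonneg, (ENNReal.ofReal_toReal hAtop).symm⟩
  have hcard : ∀ (K : Finset (Vx d)) (n : ℕ), (K.card : ℝ≥0∞) ^ n =
      ENNReal.ofReal ((K.card : ℝ) ^ n) := by
    intro K n
    rw [ENNReal.ofReal_pow (Nat.cast_nonneg _), ENNReal.ofReal_natCast]
  have hpt : ∀ K : Finset (Vx d), (K.card : ℝ≥0∞) ^ k ≤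
      ENNReal.ofReal (1 / 4) * (K.card : ℝ≥0∞) ^ k +
      ENNReal.ofReal L * ENNReal.ofReal (cap (bR d) K ^ k) +
      (ENNReal.ofReal (1 / (2 * lam)) * (K.card : ℝ≥0∞) ^ k +
      ENNReal.ofReal (1 / (2 * lam)) *
        ((K.card : ℝ≥0∞) ^ (k - 1) * ENNReal.ofReal (en (bR d) K))) := by
    intro K
    have hcp := cap_nonneg (bR d) K
    have hee := en_nonneg (bR_nonneg d) K
    have h1 := S20_pt hk (Nat.cast_nonneg K.card) hcp hee (by linarith : 1 / 4 ≤ lam)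
      (cap_ge (bR_nonneg d) K)
    rw [hcard, hcard, ← ENNReal.ofReal_mul (by positivity), ← ENNReal.ofReal_mul (by positivity),
      ← ENNReal.ofReal_mul (by positivity), ← ENNReal.ofReal_mul (by positivity),
      ← ENNReal.ofReal_mul (by positivity), ← ENNReal.ofReal_add (by positivity) (by positivity),
      ← ENNReal.ofReal_add (by positivity) (by positivity),
      ← ENNReal.ofReal_add (by positivity) (by positivity)]
    apply ENNReal.ofReal_le_ofReal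
    rw [hL]
    linarith
  have hmain : A ≤ ENNReal.ofReal (1 / 4) * A +
      ENNReal.ofReal L * ENNReal.ofReal (C' / ε ^ (2 * k - 1)) +
      (ENNReal.ofReal (1 / (2 * lam)) * A +
        ENNReal.ofReal (1 / (2 * lam)) * (ENNReal.ofReal c1 * A + 1)) := by
    calc A ≤ EF (d := d) (pc d + ε) (fun K => ENNReal.ofReal (1 / 4) * (K.card : ℝ≥0∞) ^ k +
        ENNReal.ofReal L * ENNReal.ofReal (cap (bR d) K ^ k) +
        (ENNReal.ofReal (1 / (2 * lam)) * (K.card : ℝ≥0∞) ^ k +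
        ENNReal.ofReal (1 / (2 * lam)) *
          ((K.card : ℝ≥0∞) ^ (k - 1) * ENNReal.ofReal (en (bR d) K)))) :=
          EF_mono fun K _ => hpt K
      _ = ENNReal.ofReal (1 / 4) * A +
          ENNReal.ofReal L * EF (d := d) (pc d + ε)
            (fun K => ENNReal.ofReal (cap (bR d) K ^ k)) +
          (ENNReal.ofReal (1 / (2 * lam)) * A + ENNReal.ofReal (1 / (2 * lam)) *
            EF (d := d) (pc d + ε) (fun K => (K.card : ℝ≥0∞) ^ k * ∑ z ∈ K.erase 0, bI d z)) := by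
          rw [EF_add, EF_add, EF_add, EF_const_mul, EF_const_mul, EF_const_mul, EF_const_mul,
            energy_mt hc k hk hp hp1]
      _ ≤ _ := by
          gcongr
          · exact hcap ε hε he2
          · exact hen ε hε he1
  have hεk : 1 ≤ 1 / ε ^ (2 * k - 1) := by
    rw [le_div_iff₀ (by positivity), one_mul]
    exact pow_le_one₀ hε.le (by linarith)
  rw [haA] at hmain ⊢
  apply ENNReal.ofReal_le_ofReal
  have hli : 0 ≤ 1 / (2 * lam) := by positivity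
  have hX : 0 ≤ 1 / 4 * a := by positivity
  have hY : 0 ≤ L * (C' / ε ^ (2 * k - 1)) := by positivity
  have hZ : 0 ≤ 1 / (2 * lam) * a := by positivity
  have hca : 0 ≤ c1 * a := by positivity
  have hW : 0 ≤ 1 / (2 * lam) * (c1 * a + 1) := by positivity
  rw [← ENNReal.ofReal_one, ← ENNReal.ofReal_mul (by norm_num : (0 : ℝ) ≤ 1 / 4),
    ← ENNReal.ofReal_mul hL0.le, ← ENNReal.ofReal_mul hli,
    ← ENNReal.ofReal_mul hc1.le, ← ENNReal.ofReal_add hca zero_le_one,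
    ← ENNReal.ofReal_mul hli, ← ENNReal.ofReal_add hX hY,
    ← ENNReal.ofReal_add hZ hW,
    ← ENNReal.ofReal_add (add_nonneg hX hY) (add_nonneg hZ hW),
    ENNReal.ofReal_le_ofReal_iff (add_nonneg (add_nonneg hX hY) (add_nonneg hZ hW))] at hmain
  have h5 : 1 / (2 * lam) * a + 1 / (2 * lam) * (c1 * a + 1) = 1 / 4 * a + 1 / (2 * lam) := by
    have h6 : 1 / (2 * lam) * (1 + c1) = 1 / 4 := by
      rw [hlam]
      field_simp
      norm_num
    linear_combination a * h6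
  have h7 : 1 / (2 * lam) ≤ 1 := by
    rw [div_le_one (by positivity)]
    linarith
  have h8 : a ≤ 2 * (L * (C' / ε ^ (2 * k - 1)) + 1) := by linarith
  refine h8.trans ?_
  have h9 : 2 * (L * C' + 1) / ε ^ (2 * k - 1) =
      2 * (L * (C' / ε ^ (2 * k - 1)) + 1 / ε ^ (2 * k - 1)) := by ring
  rw [h9]
  linarith

theorem chif_le (hc : Crit m d h C) : ∃ c ε0 : ℝ, 0 < c ∧ 0 < ε0 ∧ ∀ ε : ℝ, 0 < ε → ε ≤ ε0 →
    chif d (pc d + ε) ≤ ENNReal.ofReal (c / ε) := by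
  obtain ⟨c, ε0, h1, h2, h3⟩ := moment hc 1 le_rfl (by norm_num)
  refine ⟨c, ε0, h1, h2, fun ε hε hε0 => ?_⟩
  have h4 := h3 ε hε hε0
  simpa [chif] using h4

/-- The exponent `γ' = 1`. -/
theorem gamma_prime (hc : Crit m d h C) : ∃ c c' ε0 : ℝ, 0 < c ∧ 0 < c' ∧ 0 < ε0 ∧
    ∀ ε : ℝ, 0 < ε → ε ≤ ε0 → ENNReal.ofReal (c / ε) ≤ chif d (pc d + ε) ∧
      chif d (pc d + ε) ≤ ENNReal.ofReal (c' / ε) := by
  obtain ⟨c, hc0, h1⟩ := chif_ge hc
  obtain ⟨c', ε0, hc', hε0, h2⟩ := chif_le hc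
  exact ⟨c, c', min c ε0, hc0, hc', lt_min hc0 hε0, fun ε hε hε' =>
    ⟨h1 ε hε (hε'.trans (min_le_left _ _)), h2 ε hε (hε'.trans (min_le_right _ _))⟩⟩

end Pool.Agent.HD
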