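import Pool.Agent.Lib.MP_8ca597_hd.N13
import Pool.Agent.Lib.MP_8ca597_hd.N20
import Pool.Agent.Lib.MP_8ca597_hd.S20

/-!
# Row N22: the upper bound of the second moment (N3)

`X K = ∑ x ∈ K, (nm x) ^ 2`. (a) `second_small`: `EF_tilt` with `A = X`, `B = 1`, `q = pc - 1/√n`, `p' = 2 p - q`,
bound `2 n` of the volume; `X² ≤ |K| ∑ (nm x) ^ 4` (Cauchy-Schwarz), `EF q ≤ 2 n ∑ (nm x)^4 tt q x ≤ C n n^(3/2)`
(`moment_tt`), `EF p' (1; n ≤ |K|) ≤ Pge p' n ≤ C / √n` (`Pge_le`). (b) `second_large`: with `q = pc - ε`,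
`p' = pc + 3 ε`: `ww_tilt`: `w_p ≤ exp (C j) (w_q w_p') ^ (1/2)` for `|K| ≤ 2 n ≤ 2 j / ε²`, so
`w_p ≤ exp C (w_q w_p') ^ (1/(2j)) w_p ^ (1 - 1/j)`; Hoelder with the exponents `2 j, 2 j, j / (j - 1)`
(`ENNReal.inner_le_Lp_mul_Lq_tsum` twice): `EF p (X; n ≤ |K| ≤ 2 n) ≤ C (EF q (X ^ (2j); |K| ≤ 2n)) ^ (1/(2j))
(EF p' (1; n ≤ |K|)) ^ (1/(2j)) (EF p (1; n ≤ |K|)) ^ (1 - 1/j)`; `X ^ (2j) ≤ |K| ^ (2j-1) ∑ (nm x) ^ (4j)` (power
mean), `moment_tt` with `4 j`; `Pge_le'`: `Pge p' n ≤ C ε`; `moment` with `k = 4` and Markov: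
`EF p (1; n ≤ |K|) ≤ C ε j ^ (-4)`. Product: `2 n (C/(ε n))^(1/(2j)) (4 C j)² ε⁻¹ (C ε)^(1/(2j)) (C ε j^(-4))^(1-1/j)
≤ C j⁻¹ j^(4/j) ε⁻² ≤ C' j⁻¹ ε⁻²`. `second_le`: sum over the dyadic `n = 2 ^ i`: (a) if `n ≤ ε⁻²`, else (b) with
`j = ⌈n ε²⌉`.
-/

set_option autoImplicit false

namespace Pool.Agent.HD

open Finset
open scoped ENNReal

variable {m d : ℕ} {h : m ≤ d} {C : ℝ}

private theorem N22_pm (K : Finset (Vx d)) (k : ℕ) (hk : 1 ≤ k) :
    (∑ x ∈ K, (nm x : ℝ≥0∞) ^ 2) ^ k ≤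
      (K.card : ℝ≥0∞) ^ (k - 1) * ∑ x ∈ K, (nm x : ℝ≥0∞) ^ (2 * k) := by
  have h1 := ENNReal.rpow_sum_le_const_mul_sum_rpow K (fun x : Vx d => (nm x : ℝ≥0∞) ^ 2)
    (p := (k : ℝ)) (by exact_mod_cast hk)
  have h2 : ((k : ℝ) - 1) = ((k - 1 : ℕ) : ℝ) := by
    rw [Nat.cast_sub hk, Nat.cast_one]
  rw [h2] at h1
  simp only [ENNReal.rpow_natCast] at h1
  refine h1.trans (le_of_eq ?_)
  congr 1
  refine Finset.sum_congr rfl fun x _ => ?_
  rw [← pow_mul]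

private theorem N22_EF {q : ℝ} (hq : 0 ≤ q) (hq1 : q ≤ 1) (N k : ℕ) (hk : 1 ≤ k) :
    EF q (fun K : Finset (Vx d) =>
      if K.card ≤ N then (∑ x ∈ K, (nm x : ℝ≥0∞) ^ 2) ^ k else 0) ≤
      (N : ℝ≥0∞) ^ (k - 1) * ∑' x : Vx d, (nm x : ℝ≥0∞) ^ (2 * k) * tt q x := by
  have h1 : EF q (fun K : Finset (Vx d) =>
      if K.card ≤ N then (∑ x ∈ K, (nm x : ℝ≥0∞) ^ 2) ^ k else 0) ≤
      EF q (fun K : Finset (Vx d) =>
        (N : ℝ≥0∞) ^ (k - 1) * ∑ x ∈ K, (nm x : ℝ≥0∞) ^ (2 * k)) := by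
    refine EF_mono fun K _ => ?_
    split_ifs with hK
    · refine (N22_pm K k hk).trans (mul_le_mul' (pow_le_pow_left' ?_ _) le_rfl)
      exact_mod_cast hK
    · exact zero_le
  refine h1.trans ?_
  rw [EF_const_mul, EF_sum_mem]
  refine mul_le_mul' le_rfl (ENNReal.tsum_le_tsum fun x => ?_)
  exact mul_le_mul' le_rfl (tauf_le_tt hq hq1 x)

private theorem N22_holder3 {ι : Type} (F0 F1 F2 : ι → ℝ≥0∞) {a b c : ℝ} (ha : 0 ≤ a) (hb : 0 ≤ b)
    (hc : 0 ≤ c) (habc : a + b + c = 1) :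
    ∑' i, F0 i ^ a * F1 i ^ b * F2 i ^ c ≤
      (∑' i, F0 i) ^ a * (∑' i, F1 i) ^ b * (∑' i, F2 i) ^ c := by
  let _ : MeasurableSpace ι := ⊤
  have h1 := ENNReal.lintegral_prod_norm_pow_le (μ := (MeasureTheory.Measure.count : MeasureTheory.Measure ι))
    (Finset.univ : Finset (Fin 3)) (f := ![F0, F1, F2]) (fun i _ => measurable_from_top.aemeasurable)
    (p := ![a, b, c]) (by simp [Fin.sum_univ_three, habc]) (by
      intro i _
      fin_cases i <;> simp [ha, hb, hc])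
  simpa [Fin.prod_univ_three, MeasureTheory.lintegral_count] using h1

private theorem N22_ww {p q p' δ : ℝ} (hp : p ≤ 1 / 2) (hp0 : 0 < p) (hq : q = p - δ)
    (hp' : p' = p + δ) (h0 : 0 ≤ δ) (h1 : δ ≤ p / 2) (N j : ℕ) (hj : 1 ≤ j)
    (K : Finset (Vx d)) (hK : K.card ≤ N) :
    ENNReal.ofReal (ww p K) ≤
      ENNReal.ofReal (Real.exp (δ ^ 2 * (2 * d * N) / p ^ 2 / j)) *
        (ENNReal.ofReal (ww q K) ^ (1 / (2 * j) : ℝ) *
          ENNReal.ofReal (ww p' K) ^ (1 / (2 * j) : ℝ) *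
          ENNReal.ofReal (ww p K) ^ (1 - 1 / j : ℝ)) := by
  have hj0 : (0 : ℝ) < j := by exact_mod_cast hj
  have hj1 : (1 : ℝ) ≤ j := by exact_mod_cast hj
  have hjj : (1 : ℝ) / j ≤ 1 := by rw [div_le_one hj0]; exact hj1
  have hjn : (0 : ℝ) ≤ 1 / j := by positivity
  have hw : 0 ≤ ww p K := ww_nonneg hp0.le (by linarith) K
  have hwq : 0 ≤ ww q K := ww_nonneg (by rw [hq]; linarith) (by rw [hq]; linarith) K
  have hwp : 0 ≤ ww p' K := ww_nonneg (by rw [hp']; linarith) (by rw [hp']; linarith) K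
  rcases hw.eq_or_lt with h2 | h2
  · rw [← h2]
    simp
  have h3 := ww_tilt hp hp0 hq hp' h0 h1 K hK
  set t : ℝ := δ ^ 2 * (2 * d * N) / p ^ 2 with ht
  have h4 : ww p K ≤ Real.exp (t / j) * (ww q K ^ (1 / (2 * j) : ℝ) *
      ww p' K ^ (1 / (2 * j) : ℝ) * ww p K ^ (1 - 1 / j : ℝ)) := by
    have h5 : ww p K = ww p K ^ (1 / j : ℝ) * ww p K ^ (1 - 1 / j : ℝ) := by
      rw [← Real.rpow_add h2]
      simp
    have h6 : ww p K ^ (1 / j : ℝ) ≤ Real.exp (t / j) * (ww q K ^ (1 / (2 * j) : ℝ) *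
        ww p' K ^ (1 / (2 * j) : ℝ)) := by
      calc ww p K ^ (1 / j : ℝ) ≤ (Real.exp t * (√(ww q K) * √(ww p' K))) ^ (1 / j : ℝ) :=
            Real.rpow_le_rpow hw h3 hjn
        _ = _ := by
          rw [Real.mul_rpow (Real.exp_pos _).le (by positivity),
            Real.mul_rpow (Real.sqrt_nonneg _) (Real.sqrt_nonneg _), ← Real.exp_mul,
            Real.sqrt_eq_rpow, Real.sqrt_eq_rpow, ← Real.rpow_mul hwq, ← Real.rpow_mul hwp]
          have h7 : (1 / 2 : ℝ) * (1 / j) = 1 / (2 * j) := by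
            field_simp
          rw [h7, mul_one_div]
    calc ww p K = ww p K ^ (1 / j : ℝ) * ww p K ^ (1 - 1 / j : ℝ) := h5
      _ ≤ Real.exp (t / j) * (ww q K ^ (1 / (2 * j) : ℝ) *
        ww p' K ^ (1 / (2 * j) : ℝ)) * ww p K ^ (1 - 1 / j : ℝ) :=
          mul_le_mul_of_nonneg_right h6 (Real.rpow_nonneg hw _)
      _ = _ := by ring
  have hb : (0 : ℝ) ≤ 1 / (2 * j) := by positivity
  refine (ENNReal.ofReal_le_ofReal h4).trans (le_of_eq ?_)
  rw [ENNReal.ofReal_mul (Real.exp_pos _).le, ENNReal.ofReal_mul (by positivity),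
    ENNReal.ofReal_mul (by positivity), ENNReal.ofReal_rpow_of_nonneg hwq hb,
    ENNReal.ofReal_rpow_of_nonneg hwp hb, ENNReal.ofReal_rpow_of_nonneg hw (by linarith)]

private theorem N22_holder {p q p' δ : ℝ} (hp : p ≤ 1 / 2) (hp0 : 0 < p) (hq : q = p - δ)
    (hp' : p' = p + δ) (h0 : 0 ≤ δ) (h1 : δ ≤ p / 2) (n N j : ℕ) (hj : 1 ≤ j)
    (X : Finset (Vx d) → ℝ≥0∞) :
    EF p (fun K => if n ≤ K.card ∧ K.card ≤ N then X K else 0) ≤
      ENNReal.ofReal (Real.exp (δ ^ 2 * (2 * d * N) / p ^ 2 / j)) *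
        ((EF q (fun K => if K.card ≤ N then X K ^ (2 * j) else 0)) ^ (1 / (2 * j) : ℝ) *
          (EF (d := d) p' (fun K => if n ≤ K.card then 1 else 0)) ^ (1 / (2 * j) : ℝ) *
          (EF (d := d) p (fun K => if n ≤ K.card then 1 else 0)) ^ (1 - 1 / j : ℝ)) := by
  have hj0 : (0 : ℝ) < j := by exact_mod_cast hj
  have hj1 : (1 : ℝ) ≤ j := by exact_mod_cast hj
  have hjj : (1 : ℝ) / j ≤ 1 := by rw [div_le_one hj0]; exact hj1
  have hb : (0 : ℝ) ≤ 1 / (2 * j) := by positivity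
  have h2 := N22_holder3 (ι := Finset (Vx d))
    (fun K => ENNReal.ofReal (ww q K) * (if K.card ≤ N then X K ^ (2 * j) else 0))
    (fun K => ENNReal.ofReal (ww p' K) * (if n ≤ K.card then 1 else 0))
    (fun K => ENNReal.ofReal (ww p K) * (if n ≤ K.card then 1 else 0))
    (a := 1 / (2 * j)) (b := 1 / (2 * j)) (c := 1 - 1 / j) hb hb (by linarith) (by
      field_simp; ring)
  refine le_trans ?_ (mul_le_mul' le_rfl h2)
  rw [EF, ← ENNReal.tsum_mul_left]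
  refine ENNReal.tsum_le_tsum fun K => ?_
  by_cases hK : n ≤ K.card ∧ K.card ≤ N
  · have h3 := N22_ww hp hp0 hq hp' h0 h1 N j hj K hK.2
    simp only [hK.1, hK.2, and_self, if_true, mul_one]
    have h4 : X K = (X K ^ (2 * j)) ^ (1 / (2 * j) : ℝ) := by
      rw [← ENNReal.rpow_natCast, ← ENNReal.rpow_mul]
      push_cast
      rw [mul_one_div_cancel (by positivity), ENNReal.rpow_one]
    rw [ENNReal.mul_rpow_of_nonneg _ _ hb, ← h4]
    calc ENNReal.ofReal (ww p K) * X K ≤ _ := mul_le_mul' h3 le_rfl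
      _ = _ := by ring
  · rw [if_neg hK, mul_zero]
    exact zero_le


private theorem N22_pc (hc : Crit m d h C) : 0 < pc d := by
  have h1 := hc.pc_lo
  have h2 : (0 : ℝ) < d := by exact_mod_cast hc.pos
  have h3 : (0 : ℝ) < 1 / (2 * d) := by positivity
  linarith

private theorem N22_tail4 {p : ℝ} {n : ℕ} (hn : 1 ≤ n) {B : ℝ}
    (hB : EF (d := d) p (fun K => (K.card : ℝ≥0∞) ^ 4) ≤ ENNReal.ofReal B) :
    EF (d := d) p (fun K => if n ≤ K.card then 1 else 0) ≤ ENNReal.ofReal (B / (n : ℝ) ^ 4) := by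
  have hn0 : (0 : ℝ) < n := by exact_mod_cast hn
  have h1 : EF (d := d) p (fun K => (n : ℝ≥0∞) ^ 4 * (if n ≤ K.card then 1 else 0)) ≤
      ENNReal.ofReal B := by
    refine (EF_mono fun K _ => ?_).trans hB
    split_ifs with hK
    · rw [mul_one]
      exact pow_le_pow_left' (by exact_mod_cast hK) 4
    · simp
  rw [EF_const_mul] at h1
  rw [ENNReal.ofReal_div_of_pos (by positivity), ENNReal.ofReal_pow hn0.le, ENNReal.ofReal_natCast,
    ENNReal.le_div_iff_mul_le (Or.inl (pow_ne_zero 4 (Nat.cast_ne_zero.2 (by omega))))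
      (Or.inl (by finiteness)), mul_comm]
  exact h1

private theorem N22_rpow_le {x a : ℝ} (hx : 0 ≤ x) (ha : 0 ≤ a) (ha1 : a ≤ 1) : x ^ a ≤ 1 + x := by
  calc x ^ a ≤ (1 + x) ^ a := Real.rpow_le_rpow hx (by linarith) ha
    _ ≤ (1 + x) ^ (1 : ℝ) := Real.rpow_le_rpow_of_exponent_le (by linarith) ha1
    _ = 1 + x := Real.rpow_one _

private theorem N22_R0 {C1 ε : ℝ} {n j : ℕ} (h1 : 0 < C1) (hε : 0 < ε) (hj : 1 ≤ j)
    (hn : 1 ≤ n) :
    ((2 * n : ℝ) ^ (2 * j - 1) * ((C1 * (2 * (2 * j) : ℕ) / √ε) ^ (2 * (2 * j)) * (C1 / ε))) ^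
      (1 / (2 * j) : ℝ) =
      2 * n * (16 * C1 ^ 2 * j ^ 2 / ε) * (C1 / (2 * n * ε)) ^ (1 / (2 * j) : ℝ) := by
  have hj0 : (0 : ℝ) < j := by exact_mod_cast hj
  have hn0 : (0 : ℝ) < n := by exact_mod_cast hn
  have hs : 0 < √ε := Real.sqrt_pos.2 hε
  have h2 : (2 * n : ℝ) ^ (2 * j - 1) * ((C1 * (2 * (2 * j) : ℕ) / √ε) ^ (2 * (2 * j)) * (C1 / ε)) =
      (2 * n * (16 * C1 ^ 2 * j ^ 2 / ε)) ^ (2 * j) * (C1 / (2 * n * ε)) := by
    have h3 : (2 * n : ℝ) ^ (2 * j) = (2 * n : ℝ) ^ (2 * j - 1) * (2 * n) := by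
      rw [← pow_succ]
      congr 1
      omega
    have h4 : (C1 * (2 * (2 * j) : ℕ) / √ε) ^ (2 * (2 * j)) = (16 * C1 ^ 2 * j ^ 2 / ε) ^ (2 * j) := by
      rw [pow_mul]
      congr 1
      rw [div_pow, Real.sq_sqrt hε.le]
      push_cast
      ring
    have h5 : C1 / ε = 2 * n * (C1 / (2 * n * ε)) := by
      field_simp
    rw [h4, mul_pow _ (16 * C1 ^ 2 * (j : ℝ) ^ 2 / ε), h3]
    nth_rewrite 1 [h5]
    ring
  rw [h2, Real.mul_rpow (by positivity) (by positivity)]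
  congr 1
  have h5 := Real.pow_rpow_inv_natCast (x := 2 * n * (16 * C1 ^ 2 * j ^ 2 / ε)) (n := 2 * j)
    (by positivity) (by omega)
  rw [one_div]
  push_cast at h5
  exact h5

private theorem N22_real {C1 C2 C3 ε : ℝ} {n j : ℕ} (h1 : 0 < C1) (h2 : 0 < C2) (h3 : 0 < C3)
    (hε : 0 < ε) (hj : 2 ≤ j) (hn : (j : ℝ) / (2 * ε ^ 2) ≤ n) (hn' : (n : ℝ) ≤ j / ε ^ 2) :
    2 * n * (16 * C1 ^ 2 * j ^ 2 / ε) * (C1 / (2 * n * ε)) ^ (1 / (2 * j) : ℝ) *
      (4 * C2 * ε) ^ (1 / (2 * j) : ℝ) * (16 * C3 * ε / j ^ 4) ^ (1 - 1 / j : ℝ) ≤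
      32 * C1 ^ 2 * (1 + 2 * C1 * C2) * (1 + 16 * C3) * Real.exp 4 / (j * ε ^ 2) := by
  have hj0 : (0 : ℝ) < j := by exact_mod_cast (by omega : 0 < j)
  have hj2 : (2 : ℝ) ≤ j := by exact_mod_cast hj
  have hn0 : (0 : ℝ) < n := lt_of_lt_of_le (by positivity) hn
  have ha : (0 : ℝ) ≤ 1 / (2 * j) := by positivity
  have ha1 : (1 : ℝ) / (2 * j) ≤ 1 := by rw [div_le_one (by positivity)]; linarith
  have hb0 : (0 : ℝ) ≤ 1 / j := by positivity
  have hb1 : (1 : ℝ) / j ≤ 1 := by rw [div_le_one (by positivity)]; linarith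
  have hb : (0 : ℝ) ≤ 1 - 1 / j := by linarith
  -- the first product
  have e1 : (C1 / (2 * n * ε)) ^ (1 / (2 * j) : ℝ) * (4 * C2 * ε) ^ (1 / (2 * j) : ℝ) ≤
      (1 + 2 * C1 * C2) * ε ^ (1 / j : ℝ) := by
    rw [← Real.mul_rpow (by positivity) (by positivity)]
    have e2 : C1 / (2 * n * ε) * (4 * C2 * ε) ≤ (2 * C1 * C2) * ε ^ 2 := by
      have e3 : 1 ≤ n * ε ^ 2 := by
        rw [div_le_iff₀ (by positivity)] at hn
        nlinarith
      have e4 : C1 / (2 * n * ε) * (4 * C2 * ε) = 2 * C1 * C2 / n := by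
        field_simp
        ring
      rw [e4, div_le_iff₀ hn0]
      have e5 : 0 < 2 * C1 * C2 := by positivity
      nlinarith
    calc (C1 / (2 * n * ε) * (4 * C2 * ε)) ^ (1 / (2 * j) : ℝ)
        ≤ ((2 * C1 * C2) * ε ^ 2) ^ (1 / (2 * j) : ℝ) :=
          Real.rpow_le_rpow (by positivity) e2 ha
      _ = (2 * C1 * C2) ^ (1 / (2 * j) : ℝ) * ε ^ (1 / j : ℝ) := by
          rw [Real.mul_rpow (by positivity) (by positivity), ← Real.rpow_natCast ε 2,
            ← Real.rpow_mul hε.le]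
          congr 2
          push_cast
          field_simp
      _ ≤ (1 + 2 * C1 * C2) * ε ^ (1 / j : ℝ) :=
          mul_le_mul_of_nonneg_right (N22_rpow_le (by positivity) ha ha1)
            (Real.rpow_nonneg hε.le _)
  -- the last factor
  have f1 : (16 * C3 * ε / j ^ 4) ^ (1 - 1 / j : ℝ) ≤
      (1 + 16 * C3) * ε ^ (1 - 1 / j : ℝ) * (Real.exp 4 / j ^ 4) := by
    rw [div_eq_mul_inv, Real.mul_rpow (by positivity) (by positivity),
      Real.mul_rpow (by positivity) (by positivity)]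
    have f2 : (16 * C3) ^ (1 - 1 / j : ℝ) ≤ 1 + 16 * C3 :=
      N22_rpow_le (by positivity) hb (by linarith)
    have f3 : (((j : ℝ) ^ 4)⁻¹) ^ (1 - 1 / j : ℝ) ≤ Real.exp 4 / j ^ 4 := by
      rw [Real.rpow_sub (by positivity), Real.rpow_one, Real.inv_rpow (by positivity),
        div_inv_eq_mul]
      have f4 : ((j : ℝ) ^ 4) ^ (1 / j : ℝ) ≤ Real.exp 4 := by
        rw [Real.rpow_def_of_pos (by positivity), Real.log_pow]
        refine Real.exp_le_exp.2 ?_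
        have f5 : Real.log j ≤ j := (Real.log_le_sub_one_of_pos hj0).trans (by linarith)
        rw [mul_one_div, div_le_iff₀ hj0]
        push_cast
        linarith
      calc ((j : ℝ) ^ 4)⁻¹ * ((j : ℝ) ^ 4) ^ (1 / j : ℝ) ≤ ((j : ℝ) ^ 4)⁻¹ * Real.exp 4 :=
            mul_le_mul_of_nonneg_left f4 (by positivity)
        _ = _ := by rw [div_eq_mul_inv, mul_comm]
    exact mul_le_mul (mul_le_mul_of_nonneg_right f2 (Real.rpow_nonneg hε.le _)) f3
      (Real.rpow_nonneg (by positivity) _) (by positivity)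
  have g1 : ε ^ (1 / j : ℝ) * ε ^ (1 - 1 / j : ℝ) = ε := by
    rw [← Real.rpow_add hε]
    simp
  calc 2 * n * (16 * C1 ^ 2 * j ^ 2 / ε) * (C1 / (2 * n * ε)) ^ (1 / (2 * j) : ℝ) *
      (4 * C2 * ε) ^ (1 / (2 * j) : ℝ) * (16 * C3 * ε / j ^ 4) ^ (1 - 1 / j : ℝ)
      = (2 * n * (16 * C1 ^ 2 * j ^ 2 / ε)) * (((C1 / (2 * n * ε)) ^ (1 / (2 * j) : ℝ) *
      (4 * C2 * ε) ^ (1 / (2 * j) : ℝ)) * (16 * C3 * ε / j ^ 4) ^ (1 - 1 / j : ℝ)) := by ring
    _ ≤ (2 * n * (16 * C1 ^ 2 * j ^ 2 / ε)) * (((1 + 2 * C1 * C2) * ε ^ (1 / j : ℝ)) *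
        ((1 + 16 * C3) * ε ^ (1 - 1 / j : ℝ) * (Real.exp 4 / j ^ 4))) := by
        refine mul_le_mul_of_nonneg_left ?_ (by positivity)
        exact mul_le_mul e1 f1 (Real.rpow_nonneg (by positivity) _)
          (mul_nonneg (by positivity) (Real.rpow_nonneg hε.le _))
    _ = (2 * n * (16 * C1 ^ 2 * j ^ 2 / ε)) * ((1 + 2 * C1 * C2) * (1 + 16 * C3) *
        (Real.exp 4 / j ^ 4) * (ε ^ (1 / j : ℝ) * ε ^ (1 - 1 / j : ℝ))) := by ring
    _ = (32 * C1 ^ 2 * (1 + 2 * C1 * C2) * (1 + 16 * C3) * Real.exp 4 / j ^ 2) * n := by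
        rw [g1]
        field_simp
        ring
    _ ≤ (32 * C1 ^ 2 * (1 + 2 * C1 * C2) * (1 + 16 * C3) * Real.exp 4 / j ^ 2) * (j / ε ^ 2) :=
        mul_le_mul_of_nonneg_left hn' (by positivity)
    _ = _ := by
        field_simp

theorem second_large (hc : Crit m d h C) : ∃ C1 ε0 : ℝ, 0 < C1 ∧ 0 < ε0 ∧ ∀ (ε : ℝ) (n j : ℕ),
    0 < ε → ε ≤ ε0 → 2 ≤ j → (j : ℝ) / (2 * ε ^ 2) ≤ n → (n : ℝ) ≤ j / ε ^ 2 →
      EF (d := d) (pc d + ε) (fun K => if n ≤ K.card ∧ K.card < 2 * n then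
        ∑ x ∈ K, (nm x : ℝ≥0∞) ^ 2 else 0) ≤ ENNReal.ofReal (C1 / (j * ε ^ 2)) := by
  obtain ⟨C1, ε1, hC1, hε1, hε1', hm⟩ := moment_tt hc
  obtain ⟨C2, hC2, hP⟩ := Pge_le' hc
  obtain ⟨C3, ε3, hC3, hε3, hM⟩ := moment hc 4 (by norm_num) le_rfl
  have hpc := N22_pc hc
  have hpc1 := hc.pc_hi
  have hd : (0 : ℝ) < d := by exact_mod_cast hc.pos
  refine ⟨Real.exp (16 * d / pc d ^ 2) * (32 * C1 ^ 2 * (1 + 2 * C1 * C2) * (1 + 16 * C3) *
    Real.exp 4), min (min ε1 ε3) (pc d / 4), by positivity,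
    lt_min (lt_min hε1 hε3) (by positivity), fun ε n j hε hε0 hj hn hn' => ?_⟩
  have hεa : ε ≤ ε1 := hε0.trans ((min_le_left _ _).trans (min_le_left _ _))
  have hεb : ε ≤ ε3 := hε0.trans ((min_le_left _ _).trans (min_le_right _ _))
  have hεc : ε ≤ pc d / 4 := hε0.trans (min_le_right _ _)
  have hj0 : (0 : ℝ) < j := by exact_mod_cast (by omega : 0 < j)
  have hj2 : (2 : ℝ) ≤ j := by exact_mod_cast hj
  have hn0 : (0 : ℝ) < n := lt_of_lt_of_le (by positivity) hn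
  have hn1 : 1 ≤ n := by exact_mod_cast (by exact_mod_cast hn0 : 0 < n)
  have hnε : 1 ≤ n * ε ^ 2 := by
    rw [div_le_iff₀ (by positivity)] at hn
    nlinarith
  have h1 : EF (d := d) (pc d + ε) (fun K => if n ≤ K.card ∧ K.card < 2 * n then
        ∑ x ∈ K, (nm x : ℝ≥0∞) ^ 2 else 0) ≤ EF (d := d) (pc d + ε)
        (fun K => if n ≤ K.card ∧ K.card ≤ 2 * n then ∑ x ∈ K, (nm x : ℝ≥0∞) ^ 2 else 0) := by
    refine EF_mono fun K _ => ?_
    by_cases hK : n ≤ K.card ∧ K.card < 2 * n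
    · rw [if_pos hK, if_pos ⟨hK.1, hK.2.le⟩]
    · rw [if_neg hK]
      exact zero_le
  refine h1.trans ((N22_holder (δ := 2 * ε) (q := pc d - ε) (p' := pc d + 3 * ε) (by linarith)
    (by linarith) (by ring) (by ring) (by positivity) (by linarith) n (2 * n) j (by omega)
    (fun K => ∑ x ∈ K, (nm x : ℝ≥0∞) ^ 2)).trans ?_)
  -- the exponential
  have hE : Real.exp ((2 * ε) ^ 2 * (2 * d * (2 * n : ℕ)) / (pc d + ε) ^ 2 / j) ≤
      Real.exp (16 * d / pc d ^ 2) := by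
    refine Real.exp_le_exp.2 ?_
    rw [div_div, div_le_div_iff₀ (by positivity) (by positivity)]
    rw [le_div_iff₀ (by positivity)] at hn'
    push_cast
    have e1 : pc d ^ 2 ≤ (pc d + ε) ^ 2 := by nlinarith
    calc (2 * ε) ^ 2 * (2 * d * (2 * n)) * pc d ^ 2 = 16 * d * (n * ε ^ 2) * pc d ^ 2 := by ring
      _ ≤ 16 * d * j * (pc d + ε) ^ 2 := by
          refine mul_le_mul ?_ e1 (by positivity) (by positivity)
          exact mul_le_mul_of_nonneg_left hn' (by positivity)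
      _ = _ := by ring
  -- the first factor
  have hS0 : EF (d := d) (pc d - ε) (fun K => if K.card ≤ 2 * n then
      (∑ x ∈ K, (nm x : ℝ≥0∞) ^ 2) ^ (2 * j) else 0) ≤
      ENNReal.ofReal ((2 * n : ℝ) ^ (2 * j - 1) *
        ((C1 * (2 * (2 * j) : ℕ) / √ε) ^ (2 * (2 * j)) * (C1 / ε))) := by
    refine (N22_EF (by linarith) (by linarith) (2 * n) (2 * j) (by omega)).trans ?_
    refine (mul_le_mul' le_rfl (hm ε hε hεa (2 * (2 * j)))).trans (le_of_eq ?_)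
    rw [ENNReal.ofReal_mul (p := (2 * n : ℝ) ^ (2 * j - 1)) (by positivity),
      ENNReal.ofReal_pow (by positivity), ENNReal.ofReal_mul (p := (2 : ℝ)) (by norm_num)]
    simp
  -- the second factor
  have hS1 : EF (d := d) (pc d + 3 * ε) (fun K => if n ≤ K.card then 1 else 0) ≤
      ENNReal.ofReal (4 * C2 * ε) := by
    have e1 : EF (d := d) (pc d + 3 * ε) (fun K => if n ≤ K.card then 1 else 0) ≤
        ENNReal.ofReal (Pge d (pc d + 3 * ε) n) := by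
      rw [← EF_ge (by linarith) (by linarith) n]
      exact le_self_add
    refine e1.trans (ENNReal.ofReal_le_ofReal ((hP (3 * ε) n (by positivity) (by linarith)
      hn1).trans ?_))
    have e2 : 1 / √(n : ℝ) ≤ ε := by
      rw [div_le_iff₀ (Real.sqrt_pos.2 hn0)]
      have e3 : 1 ≤ √((n : ℝ) * ε ^ 2) := Real.one_le_sqrt.2 hnε
      rw [Real.sqrt_mul (by positivity), Real.sqrt_sq hε.le] at e3
      linarith
    nlinarith
  -- the third factor
  have hS2 : EF (d := d) (pc d + ε) (fun K => if n ≤ K.card then 1 else 0) ≤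
      ENNReal.ofReal (16 * C3 * ε / j ^ 4) := by
    refine (N22_tail4 hn1 (hM ε hε hεb)).trans (ENNReal.ofReal_le_ofReal ?_)
    rw [div_div, div_le_div_iff₀ (by positivity) (by positivity)]
    have e1 : (j : ℝ) ≤ n * (2 * ε ^ 2) := by
      rwa [div_le_iff₀ (by positivity)] at hn
    have e2 : (j : ℝ) ^ 4 ≤ (n * (2 * ε ^ 2)) ^ 4 := pow_le_pow_left₀ hj0.le e1 4
    calc C3 * (j : ℝ) ^ 4 ≤ C3 * (n * (2 * ε ^ 2)) ^ 4 := mul_le_mul_of_nonneg_left e2 hC3.le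
      _ = _ := by ring
  have ha : (0 : ℝ) ≤ 1 / (2 * j) := by positivity
  have hb1 : (1 : ℝ) / j ≤ 1 := by rw [div_le_one (by positivity)]; linarith
  have hfin := N22_real (n := n) hC1 hC2 hC3 hε hj hn hn'
  rw [← N22_R0 hC1 hε (by omega) hn1] at hfin
  calc _ ≤ ENNReal.ofReal (Real.exp (16 * d / pc d ^ 2)) *
      (ENNReal.ofReal ((2 * n : ℝ) ^ (2 * j - 1) *
        ((C1 * (2 * (2 * j) : ℕ) / √ε) ^ (2 * (2 * j)) * (C1 / ε))) ^ (1 / (2 * j) : ℝ) *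
        ENNReal.ofReal (4 * C2 * ε) ^ (1 / (2 * j) : ℝ) *
        ENNReal.ofReal (16 * C3 * ε / j ^ 4) ^ (1 - 1 / j : ℝ)) := by
        refine mul_le_mul' (ENNReal.ofReal_le_ofReal hE) (mul_le_mul' (mul_le_mul' ?_ ?_) ?_)
        · exact ENNReal.rpow_le_rpow hS0 ha
        · exact ENNReal.rpow_le_rpow hS1 ha
        · exact ENNReal.rpow_le_rpow hS2 (by linarith)
    _ = ENNReal.ofReal (Real.exp (16 * d / pc d ^ 2) *
        (((2 * n : ℝ) ^ (2 * j - 1) * ((C1 * (2 * (2 * j) : ℕ) / √ε) ^ (2 * (2 * j)) *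
          (C1 / ε))) ^ (1 / (2 * j) : ℝ) * (4 * C2 * ε) ^ (1 / (2 * j) : ℝ) *
          (16 * C3 * ε / j ^ 4) ^ (1 - 1 / j : ℝ))) := by
        rw [ENNReal.ofReal_rpow_of_nonneg (by positivity) ha,
          ENNReal.ofReal_rpow_of_nonneg (by positivity) ha,
          ENNReal.ofReal_rpow_of_nonneg (by positivity) (by linarith),
          ENNReal.ofReal_mul (Real.exp_pos _).le, ENNReal.ofReal_mul (by positivity),
          ENNReal.ofReal_mul (by positivity)]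
    _ ≤ _ := by
        refine ENNReal.ofReal_le_ofReal ?_
        refine (mul_le_mul_of_nonneg_left hfin (Real.exp_pos _).le).trans (le_of_eq ?_)
        ring


/-- Monotonicity on the support of the weights. -/
private theorem N22_mono {p : ℝ} {F G : Finset (Vx d) → ℝ≥0∞}
    (h : ∀ K, ww p K ≠ 0 → F K ≤ G K) : EF p F ≤ EF p G := by
  refine ENNReal.tsum_le_tsum fun K => ?_
  by_cases h0 : ww p K = 0
  · simp [h0]
  · exact mul_le_mul' le_rfl (h K h0)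

private theorem N22_nm {p : ℝ} {K : Finset (Vx d)} (h : ww p K ≠ 0) {x : Vx d} (hx : x ∈ K) :
    nm x ≤ K.card := by
  have h1 := nbh_subset_of_ww h
  have h2 : x ∈ nbh K := by
    classical
    rw [nbh]
    exact Finset.mem_union_left _ hx
  exact mem_Bx.1 (h1 h2)

theorem second_small (hc : Crit m d h C) : ∃ C1 ε0 : ℝ, 0 < C1 ∧ 0 < ε0 ∧ ∀ (ε : ℝ) (n : ℕ),
    0 < ε → ε ≤ ε0 → 1 ≤ n → (n : ℝ) ≤ 1 / ε ^ 2 →
      EF (d := d) (pc d + ε) (fun K => if n ≤ K.card ∧ K.card < 2 * n then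
        ∑ x ∈ K, (nm x : ℝ≥0∞) ^ 2 else 0) ≤ ENNReal.ofReal (C1 * n) := by
  obtain ⟨C1, ε1, hC1, hε1, hε1', hm⟩ := moment_tt hc
  obtain ⟨C2, hC2, hP⟩ := Pge_le hc 3
  have hpc := N22_pc hc
  have hpc1 := hc.pc_hi
  have hd : (0 : ℝ) < d := by exact_mod_cast hc.pos
  set η0 : ℝ := min ε1 (pc d / 4) with hη0
  have hη : 0 < η0 := lt_min hε1 (by positivity)
  have hη1 : η0 ≤ ε1 := min_le_left _ _
  have hη2 : η0 ≤ pc d / 4 := min_le_right _ _
  refine ⟨8 / η0 ^ 4 + Real.exp (16 * d / pc d ^ 2) * (512 * C1 ^ 5 * C2) ^ (1 / 2 : ℝ), pc d / 4,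
    by positivity, by positivity, fun ε n hε hε0 hn hnε => ?_⟩
  have hn0 : (0 : ℝ) < n := by exact_mod_cast hn
  have hs : 0 < √(n : ℝ) := Real.sqrt_pos.2 hn0
  have hss : √(n : ℝ) * √(n : ℝ) = n := Real.mul_self_sqrt hn0.le
  have hεn : ε ≤ 1 / √(n : ℝ) := by
    rw [le_div_iff₀ hs]
    rw [le_div_iff₀ (by positivity)] at hnε
    have e1 : √((n : ℝ) * ε ^ 2) ≤ 1 := Real.sqrt_le_one.2 hnε
    rw [Real.sqrt_mul (by positivity), Real.sqrt_sq hε.le] at e1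
    linarith
  rcases le_or_gt (1 / √(n : ℝ)) η0 with hcase | hcase
  · -- the main case
    set η : ℝ := 1 / √(n : ℝ) with hηdef
    have hη3 : 0 < η := by positivity
    have h1 : EF (d := d) (pc d + ε) (fun K => if n ≤ K.card ∧ K.card < 2 * n then
          ∑ x ∈ K, (nm x : ℝ≥0∞) ^ 2 else 0) ≤ EF (d := d) (pc d + ε)
          (fun K => if n ≤ K.card ∧ K.card ≤ 2 * n then ∑ x ∈ K, (nm x : ℝ≥0∞) ^ 2 else 0) := by
      refine EF_mono fun K _ => ?_
      by_cases hK : n ≤ K.card ∧ K.card < 2 * n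
      · rw [if_pos hK, if_pos ⟨hK.1, hK.2.le⟩]
      · rw [if_neg hK]
        exact zero_le
    refine h1.trans ((N22_holder (δ := ε + η) (q := pc d - η) (p' := pc d + 2 * ε + η)
      (by linarith) (by linarith) (by ring) (by ring) (by positivity) (by linarith) n (2 * n) 1
      le_rfl (fun K => ∑ x ∈ K, (nm x : ℝ≥0∞) ^ 2)).trans ?_)
    have hE : Real.exp ((ε + η) ^ 2 * (2 * d * (2 * n : ℕ)) / (pc d + ε) ^ 2 / (1 : ℕ)) ≤
        Real.exp (16 * d / pc d ^ 2) := by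
      refine Real.exp_le_exp.2 ?_
      rw [Nat.cast_one, div_one, div_le_div_iff₀ (by positivity) (by positivity)]
      push_cast
      have e1 : pc d ^ 2 ≤ (pc d + ε) ^ 2 := by nlinarith
      have e2 : (ε + η) ^ 2 * n ≤ 4 := by
        have e3 : (ε + η) ^ 2 ≤ (2 * η) ^ 2 := pow_le_pow_left₀ (by positivity) (by linarith) 2
        have e4 : (2 * η) ^ 2 * n = 4 := by
          rw [hηdef, mul_pow, div_pow, Real.sq_sqrt hn0.le]
          field_simp
          norm_num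
        nlinarith
      calc (ε + η) ^ 2 * (2 * d * (2 * n)) * pc d ^ 2
          = 4 * d * ((ε + η) ^ 2 * n) * pc d ^ 2 := by ring
        _ ≤ 4 * d * 4 * (pc d + ε) ^ 2 := by
            refine mul_le_mul ?_ e1 (by positivity) (by positivity)
            exact mul_le_mul_of_nonneg_left e2 (by positivity)
        _ = _ := by ring
    have hS0 : EF (d := d) (pc d - η) (fun K => if K.card ≤ 2 * n then
        (∑ x ∈ K, (nm x : ℝ≥0∞) ^ 2) ^ (2 * 1) else 0) ≤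
        ENNReal.ofReal (512 * C1 ^ 5 * n ^ 2 * √n) := by
      refine (N22_EF (by linarith) (by linarith) (2 * n) (2 * 1) (by omega)).trans ?_
      refine (mul_le_mul' le_rfl (hm η hη3 (hcase.trans hη1) (2 * (2 * 1)))).trans (le_of_eq ?_)
      have e1 : (C1 * (2 * (2 * 1) : ℕ) / √η) ^ (2 * (2 * 1)) * (C1 / η) =
          256 * C1 ^ 5 * (n * √n) := by
        have e2 : √η ^ (2 * (2 * 1)) = η ^ 2 := by
          rw [pow_mul, Real.sq_sqrt hη3.le]
        rw [div_pow, e2]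
        have e3 : η ^ 2 = 1 / n := by
          rw [hηdef, div_pow, Real.sq_sqrt hn0.le]
          norm_num
        rw [e3, hηdef]
        push_cast
        field_simp
        norm_num
      rw [e1, show (512 * C1 ^ 5 * (n : ℝ) ^ 2 * √n) = (2 * n) * (256 * C1 ^ 5 * (n * √n)) by ring,
        ENNReal.ofReal_mul (p := 2 * (n : ℝ)) (by positivity),
        ENNReal.ofReal_mul (p := (2 : ℝ)) (by norm_num)]
      simp
    have hS1 : EF (d := d) (pc d + 2 * ε + η) (fun K => if n ≤ K.card then 1 else 0) ≤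
        ENNReal.ofReal (C2 / √n) := by
      have e1 : EF (d := d) (pc d + 2 * ε + η) (fun K => if n ≤ K.card then 1 else 0) ≤
          ENNReal.ofReal (Pge d (pc d + 2 * ε + η) n) := by
        rw [← EF_ge (by linarith) (by linarith) n]
        exact le_self_add
      refine e1.trans (ENNReal.ofReal_le_ofReal (hP _ n (by positivity) (by linarith) hn ?_))
      have e2 : (3 : ℝ) / √n = 3 * η := by
        rw [hηdef]
        ring
      rw [e2]
      linarith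
    have ha : (0 : ℝ) ≤ 1 / (2 * (1 : ℕ)) := by norm_num
    calc _ ≤ ENNReal.ofReal (Real.exp (16 * d / pc d ^ 2)) *
        (ENNReal.ofReal (512 * C1 ^ 5 * n ^ 2 * √n) ^ (1 / (2 * (1 : ℕ)) : ℝ) *
          ENNReal.ofReal (C2 / √n) ^ (1 / (2 * (1 : ℕ)) : ℝ) * 1) := by
          refine mul_le_mul' (ENNReal.ofReal_le_ofReal hE) (mul_le_mul' (mul_le_mul' ?_ ?_) ?_)
          · exact ENNReal.rpow_le_rpow hS0 ha
          · exact ENNReal.rpow_le_rpow hS1 ha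
          · simp
      _ = ENNReal.ofReal (Real.exp (16 * d / pc d ^ 2) *
          ((512 * C1 ^ 5 * n ^ 2 * √n) ^ (1 / (2 * (1 : ℕ)) : ℝ) *
            (C2 / √n) ^ (1 / (2 * (1 : ℕ)) : ℝ))) := by
          rw [ENNReal.ofReal_rpow_of_nonneg (by positivity) ha,
            ENNReal.ofReal_rpow_of_nonneg (by positivity) ha,
            ENNReal.ofReal_mul (Real.exp_pos _).le, ENNReal.ofReal_mul (by positivity), mul_one]
      _ ≤ _ := by
          refine ENNReal.ofReal_le_ofReal ?_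
          rw [← Real.mul_rpow (by positivity) (by positivity)]
          have e1 : 512 * C1 ^ 5 * (n : ℝ) ^ 2 * √n * (C2 / √n) =
              (512 * C1 ^ 5 * C2) * (n : ℝ) ^ 2 := by
            field_simp
          have e2 : (1 / (2 * (1 : ℕ)) : ℝ) = 1 / 2 := by norm_num
          have e3 : ((n : ℝ) ^ 2) ^ (1 / 2 : ℝ) = n := by
            rw [← Real.sqrt_eq_rpow, Real.sqrt_sq hn0.le]
          rw [e1, e2, Real.mul_rpow (by positivity) (by positivity), e3, add_mul, ← mul_assoc]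
          have e4 : 0 ≤ 8 / η0 ^ 4 * (n : ℝ) := by positivity
          linarith
  · -- small `n`
    have h1 : EF (d := d) (pc d + ε) (fun K => if n ≤ K.card ∧ K.card < 2 * n then
          ∑ x ∈ K, (nm x : ℝ≥0∞) ^ 2 else 0) ≤
          EF (d := d) (pc d + ε) (fun _ => ENNReal.ofReal (8 * n ^ 3)) := by
      refine N22_mono fun K hK => ?_
      split_ifs with h2
      · have h3 : ∑ x ∈ K, (nm x : ℝ≥0∞) ^ 2 ≤ ∑ _x ∈ K, ((2 * n : ℕ) : ℝ≥0∞) ^ 2 := by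
          refine Finset.sum_le_sum fun x hx => pow_le_pow_left' ?_ 2
          exact_mod_cast (N22_nm hK hx).trans h2.2.le
        refine h3.trans ?_
        rw [Finset.sum_const, nsmul_eq_mul]
        have h4 : (K.card : ℝ≥0∞) * ((2 * n : ℕ) : ℝ≥0∞) ^ 2 ≤
            ((2 * n : ℕ) : ℝ≥0∞) * ((2 * n : ℕ) : ℝ≥0∞) ^ 2 :=
          mul_le_mul' (by exact_mod_cast h2.2.le) le_rfl
        refine h4.trans (le_of_eq ?_)
        rw [show (8 * (n : ℝ) ^ 3) = ((2 * n * (2 * n) ^ 2 : ℕ) : ℝ) by push_cast; ring,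
          ENNReal.ofReal_natCast]
        push_cast
        ring
      · exact zero_le
    refine h1.trans ((EF_const_le (by linarith) (by linarith) _).trans ?_)
    refine ENNReal.ofReal_le_ofReal ?_
    have e1 : (n : ℝ) * η0 ^ 2 ≤ 1 := by
      have e2 : η0 * √(n : ℝ) ≤ 1 := by
        rw [lt_div_iff₀ hs] at hcase
        exact hcase.le
      calc (n : ℝ) * η0 ^ 2 = (η0 * √(n : ℝ)) ^ 2 := by
            rw [mul_pow, Real.sq_sqrt hn0.le]; ring
        _ ≤ 1 ^ 2 := pow_le_pow_left₀ (by positivity) e2 2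
        _ = 1 := by norm_num
    have e3 : (n : ℝ) ^ 2 * η0 ^ 4 ≤ 1 := by
      calc (n : ℝ) ^ 2 * η0 ^ 4 = ((n : ℝ) * η0 ^ 2) ^ 2 := by ring
        _ ≤ 1 ^ 2 := pow_le_pow_left₀ (by positivity) e1 2
        _ = 1 := by norm_num
    have e4 : 8 * (n : ℝ) ^ 3 ≤ 8 / η0 ^ 4 * n := by
      rw [div_mul_eq_mul_div, le_div_iff₀ (by positivity)]
      calc 8 * (n : ℝ) ^ 3 * η0 ^ 4 = (8 * (n : ℝ)) * ((n : ℝ) ^ 2 * η0 ^ 4) := by ring
        _ ≤ (8 * (n : ℝ)) * 1 := mul_le_mul_of_nonneg_left e3 (by positivity)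
        _ = 8 * (n : ℝ) := by ring
    rw [add_mul]
    have e5 : 0 ≤ Real.exp (16 * d / pc d ^ 2) * (512 * C1 ^ 5 * C2) ^ (1 / 2 : ℝ) * (n : ℝ) := by
      positivity
    linarith

theorem second_le (hc : Crit m d h C) : ∃ C1 ε0 : ℝ, 0 < C1 ∧ 0 < ε0 ∧ ∀ ε : ℝ, 0 < ε → ε ≤ ε0 →
    ∑' x : Vx d, (nm x : ℝ≥0∞) ^ 2 * tauf (pc d + ε) x ≤ ENNReal.ofReal (C1 / ε ^ 2) := by
  obtain ⟨A, εa, hA, hεa, HA⟩ := second_small hc
  obtain ⟨B, εb, hB, hεb, HB⟩ := second_large hc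
  refine ⟨2 * A + 2 * B, min (min εa εb) 1, by positivity, lt_min (lt_min hεa hεb) one_pos,
    fun ε hε hε0 => ?_⟩
  have h1 : ε ≤ εa := hε0.trans ((min_le_left _ _).trans (min_le_left _ _))
  have h2 : ε ≤ εb := hε0.trans ((min_le_left _ _).trans (min_le_right _ _))
  have h3 : ε ≤ 1 := hε0.trans (min_le_right _ _)
  set F : ℕ → ℝ≥0∞ := fun i => EF (d := d) (pc d + ε) (fun K =>
    if 2 ^ i ≤ K.card ∧ K.card < 2 * 2 ^ i then ∑ x ∈ K, (nm x : ℝ≥0∞) ^ 2 else 0) with hF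
  have h4 : ∑' x : Vx d, (nm x : ℝ≥0∞) ^ 2 * tauf (pc d + ε) x ≤ ∑' i, F i := by
    rw [← EF_sum_mem, ← EF_tsum]
    refine EF_mono fun K hK => ?_
    have h5 : 0 < K.card := Finset.card_pos.2 ⟨0, hK⟩
    have h6 : 2 ^ (Nat.log 2 K.card) ≤ K.card ∧ K.card < 2 * 2 ^ (Nat.log 2 K.card) := by
      refine ⟨Nat.pow_log_le_self 2 h5.ne', ?_⟩
      have := Nat.lt_pow_succ_log_self (b := 2) (by norm_num) K.card
      rw [pow_succ] at this
      omega
    refine le_trans (le_of_eq ?_) (ENNReal.le_tsum (Nat.log 2 K.card))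
    rw [if_pos h6]
  obtain ⟨i0, hi0, hi1⟩ := exists_nat_pow_near (x := 1 / ε ^ 2) (y := 2)
    (by rw [le_div_iff₀ (by positivity)]; nlinarith) (by norm_num)
  have h7 : ∀ i, i ≤ i0 → F i ≤ ENNReal.ofReal (A * 2 ^ i) := by
    intro i hi
    have h8 : ((2 ^ i : ℕ) : ℝ) ≤ 1 / ε ^ 2 := by
      push_cast
      exact (pow_le_pow_right₀ (by norm_num) hi).trans hi0
    have h9 := HA ε (2 ^ i) hε h1 Nat.one_le_two_pow h8
    push_cast at h9
    exact h9
  have h10 : ∀ k, F (k + (i0 + 1)) ≤ ENNReal.ofReal (B / ε ^ 2 * (1 / 2) ^ k) := by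
    intro k
    set n : ℕ := 2 ^ (k + (i0 + 1)) with hn
    have hnR : (n : ℝ) = 2 ^ k * 2 ^ (i0 + 1) := by
      rw [hn]
      push_cast
      rw [pow_add]
    have hk0 : (0 : ℝ) < 2 ^ k := by positivity
    have hk1 : (1 : ℝ) ≤ 2 ^ k := one_le_pow₀ (by norm_num)
    have hn0 : (2 : ℝ) ^ k * (1 / ε ^ 2) ≤ n := by
      rw [hnR]
      exact mul_le_mul_of_nonneg_left hi1.le hk0.le
    have hn1 : (1 : ℝ) / ε ^ 2 < n := by
      rw [hnR]
      calc (1 : ℝ) / ε ^ 2 < 2 ^ (i0 + 1) := hi1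
        _ ≤ 2 ^ k * 2 ^ (i0 + 1) := le_mul_of_one_le_left (by positivity) hk1
    have hn2 : 1 < n * ε ^ 2 := by
      rwa [div_lt_iff₀ (by positivity)] at hn1
    set j : ℕ := ⌈(n : ℝ) * ε ^ 2⌉₊ with hj
    have hj1 : (n : ℝ) * ε ^ 2 ≤ j := Nat.le_ceil _
    have hj2 : (j : ℝ) < n * ε ^ 2 + 1 := Nat.ceil_lt_add_one (by positivity)
    have hj3 : 2 ≤ j := by
      have : (1 : ℝ) < j := hn2.trans_le hj1
      exact_mod_cast this
    have h11 := HB ε n j hε h2 hj3 (by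
      rw [div_le_iff₀ (by positivity)]
      nlinarith) (by
      rw [le_div_iff₀ (by positivity)]
      exact hj1)
    refine h11.trans (ENNReal.ofReal_le_ofReal ?_)
    have h12 : (2 : ℝ) ^ k ≤ j := by
      refine le_trans ?_ hj1
      calc (2 : ℝ) ^ k = 2 ^ k * (1 / ε ^ 2) * ε ^ 2 := by field_simp
        _ ≤ n * ε ^ 2 := mul_le_mul_of_nonneg_right hn0 (by positivity)
    rw [one_div, inv_pow, ← div_eq_mul_inv, div_div]
    refine div_le_div_of_nonneg_left hB.le (by positivity) ?_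
    rw [mul_comm (ε ^ 2)]
    exact mul_le_mul_of_nonneg_right h12 (by positivity)
  refine h4.trans ?_
  rw [← Summable.sum_add_tsum_nat_add' (f := F) (k := i0 + 1) ENNReal.summable]
  have h13 : ∑ i ∈ Finset.range (i0 + 1), F i ≤ ENNReal.ofReal (2 * A / ε ^ 2) := by
    calc ∑ i ∈ Finset.range (i0 + 1), F i
        ≤ ∑ i ∈ Finset.range (i0 + 1), ENNReal.ofReal (A * 2 ^ i) :=
          Finset.sum_le_sum fun i hi => h7 i (by rw [Finset.mem_range] at hi; omega)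
      _ = ENNReal.ofReal (∑ i ∈ Finset.range (i0 + 1), A * 2 ^ i) :=
          (ENNReal.ofReal_sum_of_nonneg fun i _ => by positivity).symm
      _ ≤ _ := by
          refine ENNReal.ofReal_le_ofReal ?_
          rw [← Finset.mul_sum]
          have e1 : ∑ i ∈ Finset.range (i0 + 1), (2 : ℝ) ^ i ≤ 2 * 2 ^ i0 := by
            rw [geom_sum_eq (by norm_num)]
            rw [pow_succ]
            linarith
          calc A * ∑ i ∈ Finset.range (i0 + 1), (2 : ℝ) ^ i ≤ A * (2 * 2 ^ i0) :=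
                mul_le_mul_of_nonneg_left e1 hA.le
            _ ≤ A * (2 * (1 / ε ^ 2)) :=
                mul_le_mul_of_nonneg_left (by linarith) hA.le
            _ = _ := by ring
  have h14 : ∑' k, F (k + (i0 + 1)) ≤ ENNReal.ofReal (2 * B / ε ^ 2) := by
    calc ∑' k, F (k + (i0 + 1)) ≤ ∑' k : ℕ, ENNReal.ofReal (B / ε ^ 2 * (1 / 2) ^ k) :=
          ENNReal.tsum_le_tsum h10
      _ = ENNReal.ofReal (∑' k : ℕ, B / ε ^ 2 * (1 / 2) ^ k) :=
          (ENNReal.ofReal_tsum_of_nonneg (fun k => by positivity)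
            (summable_geometric_two.mul_left _)).symm
      _ = _ := by
          rw [tsum_mul_left, tsum_geometric_two]
          congr 1
          ring
  refine (add_le_add h13 h14).trans (le_of_eq ?_)
  rw [← ENNReal.ofReal_add (by positivity) (by positivity)]
  congr 1
  ring

end Pool.Agent.HD
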