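import Pool.Agent.Lib.MP_8ca597_hd.N21
import Pool.Agent.Lib.MP_8ca597_hd.N22

/-!
# The second moment correlation length
-/

set_option autoImplicit false

namespace Pool.Agent.HD

open Finset
open scoped ENNReal

variable {m d : ℕ} {h : m ≤ d} {C : ℝ}

theorem xi2_le (hc : Crit m d h C) : ∃ C' ε0 : ℝ, 0 < C' ∧ 0 < ε0 ∧ ∀ ε : ℝ, 0 < ε → ε ≤ ε0 →
    ∑' x : Vx d, (nm x : ℝ≥0∞) ^ 2 * tauf (pc d + ε) x ≤
      ENNReal.ofReal (C' / ε) * chif d (pc d + ε) := by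
  obtain ⟨C1, ε1, hC1, hε1, h1⟩ := second_le hc
  obtain ⟨c2, hc2, h2⟩ := chif_ge hc
  refine ⟨C1 / c2, min ε1 c2, div_pos hC1 hc2, lt_min hε1 hc2, fun ε hε hε' => ?_⟩
  refine (h1 ε hε (hε'.trans (min_le_left _ _))).trans ?_
  refine le_trans ?_ (mul_le_mul_right (h2 ε hε (hε'.trans (min_le_right _ _))) _)
  rw [← ENNReal.ofReal_mul (by positivity)]
  refine ENNReal.ofReal_le_ofReal (le_of_eq ?_)
  field_simp

theorem xi2_ge (hc : Crit m d h C) : ∃ c ε0 : ℝ, 0 < c ∧ 0 < ε0 ∧ ∀ ε : ℝ, 0 < ε → ε ≤ ε0 →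
    ENNReal.ofReal (c / ε) * chif d (pc d + ε) ≤
      ∑' x : Vx d, (nm x : ℝ≥0∞) ^ 2 * tauf (pc d + ε) x := by
  obtain ⟨c1, ε1, hc1, hε1, h1⟩ := second_ge hc
  obtain ⟨C2, ε2, hC2, hε2, h2⟩ := chif_le hc
  refine ⟨c1 / C2, min ε1 ε2, div_pos hc1 hC2, lt_min hε1 hε2, fun ε hε hε' => ?_⟩
  refine le_trans ?_ (h1 ε hε (hε'.trans (min_le_left _ _)))
  refine le_trans (mul_le_mul_right (h2 ε hε (hε'.trans (min_le_right _ _))) _) ?_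
  rw [← ENNReal.ofReal_mul (by positivity)]
  refine ENNReal.ofReal_le_ofReal (le_of_eq ?_)
  field_simp

end Pool.Agent.HD
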