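import Mathlib

/-!
# Bond percolation on `ℤ^d`: the definitions used in the final statement
-/

set_option autoImplicit false

namespace Pool.Agent.HDM

open MeasureTheory
open scoped ENNReal

/-- The vertices of the lattice. -/
abbrev V (d : ℕ) : Type := Fin d → ℤ

/-- Nearest neighbours. -/
def NN {d : ℕ} (x y : V d) : Prop := ∑ i, |x i - y i| = 1

/-- The edges: unordered pairs of nearest neighbours. -/
def Edge (d : ℕ) : Type := {e : Sym2 (V d) // ∃ x y, e = s(x, y) ∧ NN x y}

/-- The law of the state of one edge: `true` (occupied) with probability `p`. -/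
noncomputable def edgeLaw (p : unitInterval) : Measure Bool :=
  ENNReal.ofReal p • Measure.dirac true + ENNReal.ofReal (1 - p) • Measure.dirac false

instance (p : unitInterval) : IsProbabilityMeasure (edgeLaw p) where
  measure_univ := by
    have h1 : (0 : ℝ) ≤ p := p.2.1
    have h2 : (0 : ℝ) ≤ 1 - p := sub_nonneg.2 p.2.2
    simp [edgeLaw, ← ENNReal.ofReal_add h1 h2]

/-- Bernoulli bond percolation with parameter `p ∈ [0, 1]`: the states of the edges are independent
with the law `edgeLaw p`. -/
noncomputable def Perc (d : ℕ) (p : ℝ) : Measure (Edge d → Bool) :=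
  Measure.infinitePi fun _ => edgeLaw (Set.projIcc 0 1 zero_le_one p)

/-- The cluster of the origin: the vertices which are joined to the origin by a path of occupied
edges. -/
def Cluster {d : ℕ} (ω : Edge d → Bool) : Set (V d) :=
  {x | Relation.ReflTransGen (fun u v => ∃ h : NN u v, ω ⟨s(u, v), u, v, rfl, h⟩ = true) 0 x}

/-- The probability that the cluster of the origin is infinite. -/
noncomputable def theta (d : ℕ) (p : ℝ) : ℝ≥0∞ := Perc d p {ω | (Cluster ω).Infinite}

/-- The critical point. -/
noncomputable def pc (d : ℕ) : ℝ := sInf {p : ℝ | p ∈ Set.Icc (0 : ℝ) 1 ∧ 0 < theta d p}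

/-- The truncated two-point function. -/
noncomputable def tauF (d : ℕ) (p : ℝ) (x : V d) : ℝ≥0∞ :=
  Perc d p {ω | x ∈ Cluster ω ∧ (Cluster ω).Finite}

open Classical in
/-- The expected size of the cluster of the origin on the event that it is finite. -/
noncomputable def chiF (d : ℕ) (p : ℝ) : ℝ≥0∞ :=
  ∫⁻ ω, (if (Cluster ω).Finite then ((Cluster ω).ncard : ℝ≥0∞) else 0) ∂(Perc d p)

/-- The square of the Euclidean norm. -/
noncomputable def sqNorm {d : ℕ} (x : V d) : ℝ≥0∞ := ENNReal.ofReal (∑ i, (x i : ℝ) ^ 2)

/-- The square of the second-moment correlation length. -/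
noncomputable def xi2sq (d : ℕ) (p : ℝ) : ℝ≥0∞ := (∑' x : V d, sqNorm x * tauF d p x) / chiF d p

/-- The vertex `n e₁`. -/
def axis (d n : ℕ) : V d := fun i => if (i : ℕ) = 0 then (n : ℤ) else 0

end Pool.Agent.HDM
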