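import Pool.Agent.Lib.MP_8ca597_hd.N12

/-!
# Row N13: decay of the two-point function below the critical point

`p = pc - ε`, `ff ≤ 2` (monotone in `p`), `Rs ≤ C' / √ε` by `Rs_sq_le` and `Crit.chi_le`; so some `1 ≤ r0 ≤ 4 Rs + 1` has
`ff p e r0 ≤ 1/4` (`ff_dir`), `ff p e (k r0) ≤ 4 ^ (-k)` (`ff_submul`), and `SLI` with `S = Hf e (k r0)` gives
`∑_{dt x e ≥ k r0} tt x ≤ 4 ^ (-k) chi`. Union over the `2 d` directions. `moment_tt`: group the `x` by
`k = nm x / r0`. `ff_ge_half`: if `ff p e r < 1/2` then `Rs ≤ 4 r` (`ff_submul`, `ff ≤ 2`); `chi ≥ c / ε`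
(`chi_ge` of A19) and `chi_le_Rs` give `Rs ≥ c' / √ε`.
-/

set_option autoImplicit false

namespace Pool.Agent.HD

open Finset
open scoped ENNReal

variable {m d : ℕ} {h : m ≤ d} {C : ℝ}

private theorem N13_ff_mono {p p' : ℝ} (hp : 0 ≤ p) (hpp : p ≤ p') (hp1 : p' ≤ 1) (e : Dir d)
    (r : ℤ) : ff p e r ≤ ff p' e r :=
  mul_le_mul' (ENNReal.ofReal_le_ofReal hpp)
    (ENNReal.tsum_le_tsum fun _ => tauI_mono_p hp hpp hp1 _ _ _)

private theorem N13_ff_pow {p : ℝ} (hp : 0 ≤ p) (hp1 : p ≤ 1) (e : Dir d) {r s : ℤ} (hr : 1 ≤ r)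
    (hs : 1 ≤ s) (k : ℕ) : ff p e (k * r + s) ≤ ff p e r ^ k * ff p e s := by
  induction k with
  | zero => simp
  | succ k ih =>
    have h1 : ((k + 1 : ℕ) : ℤ) * r + s = r + (k * r + s) := by push_cast; ring
    have h2 : (1 : ℤ) ≤ k * r + s := by
      have := mul_nonneg (Int.natCast_nonneg k) (by omega : (0 : ℤ) ≤ r)
      omega
    rw [h1, pow_succ', mul_assoc]
    exact (ff_submul hp hp1 e hr h2).trans (mul_le_mul' le_rfl ih)

private theorem N13_pc (hc : Crit m d h C) : 0 < pc d := by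
  have h1 := hc.pc_lo
  have h2 : (0 : ℝ) < d := by exact_mod_cast hc.pos
  have h3 : (0 : ℝ) < 1 / (2 * d) := by positivity
  linarith

private theorem N13_Rs (hc : Crit m d h C) {ε : ℝ} (hε : 0 < ε) (hε1 : ε ≤ pc d / 2) (e : Dir d) :
    Rs (pc d - ε) e ≤ ENNReal.ofReal (√(2 * C) / √ε) := by
  have hP := N13_pc hc
  have h1 := hc.pc_hi
  have h0 := hc.one_le
  have hp : 0 ≤ pc d - ε := by linarith
  have h2 := Rs_sq_le hc hp (by linarith) e
  have h3 := hc.chi_le (pc d - ε) hp (by linarith)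
  rw [show pc d - (pc d - ε) = ε by ring] at h3
  have h4 : (ENNReal.ofReal (√(2 * C) / √ε)) ^ 2 = 2 * 1 * ENNReal.ofReal (C / ε) := by
    rw [← ENNReal.ofReal_pow (by positivity), div_pow, Real.sq_sqrt (by linarith),
      Real.sq_sqrt hε.le, mul_one, mul_div_assoc, ENNReal.ofReal_mul (by norm_num)]
    norm_num
  rw [← ENNReal.pow_le_pow_left_iff two_ne_zero, h4]
  refine h2.trans (mul_le_mul' (mul_le_mul' le_rfl ?_) h3)
  exact ENNReal.ofReal_le_one.2 (by linarith)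

private theorem N13_r0 (hc : Crit m d h C) {ε : ℝ} (hε : 0 < ε) (hε1 : ε ≤ pc d / 2) :
    ∃ r0 : ℕ, 1 ≤ r0 ∧ (r0 : ℝ) ≤ (4 * √(2 * C) + 1) / √ε ∧
      ∀ e : Dir d, ff (pc d - ε) e r0 ≤ ENNReal.ofReal (1 / 4) := by
  have hP := hc.pc_hi
  have hs : 0 < √ε := Real.sqrt_pos.2 hε
  have hs1 : √ε ≤ 1 := Real.sqrt_le_one.2 (by linarith)
  have hA : 0 ≤ √(2 * C) := Real.sqrt_nonneg _
  generalize hAA : √(2 * C) = A at *
  let e0 : Dir d := (⟨0, hc.pos⟩, true)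
  by_contra! hcon
  have h1 : ∀ r ∈ Finset.range (⌊4 * A / √ε⌋₊ + 1),
      ENNReal.ofReal (1 / 4) ≤ ff (pc d - ε) e0 ((r : ℤ) + 1) := by
    intro r hr
    rw [Finset.mem_range] at hr
    by_contra! hlt
    obtain ⟨e, he⟩ := hcon (r + 1) (by omega) (by
      have h2 : (r : ℝ) ≤ 4 * A / √ε := by
        have h3 : (r : ℝ) ≤ (⌊4 * A / √ε⌋₊ : ℝ) := by exact_mod_cast Nat.lt_succ_iff.1 hr
        exact h3.trans (Nat.floor_le (by positivity))
      have h4 : (1 : ℝ) ≤ 1 / √ε := by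
        rw [le_div_iff₀ hs]
        linarith
      push_cast
      rw [add_div]
      linarith)
    rw [ff_dir _ e e0] at he
    push_cast at he
    exact absurd he (not_lt.2 hlt.le)
  have h2 : ((⌊4 * A / √ε⌋₊ + 1 : ℕ) : ℝ≥0∞) * ENNReal.ofReal (1 / 4) ≤ Rs (pc d - ε) e0 := by
    calc ((⌊4 * A / √ε⌋₊ + 1 : ℕ) : ℝ≥0∞) * ENNReal.ofReal (1 / 4)
        = ∑ _r ∈ Finset.range (⌊4 * A / √ε⌋₊ + 1), ENNReal.ofReal (1 / 4) := by
          rw [Finset.sum_const, Finset.card_range, nsmul_eq_mul]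
      _ ≤ ∑ r ∈ Finset.range (⌊4 * A / √ε⌋₊ + 1), ff (pc d - ε) e0 ((r : ℤ) + 1) :=
          Finset.sum_le_sum h1
      _ ≤ Rs (pc d - ε) e0 := ENNReal.sum_le_tsum _
  have h3 := h2.trans (N13_Rs hc hε hε1 e0)
  rw [hAA, ← ENNReal.ofReal_natCast, ← ENNReal.ofReal_mul (by positivity),
    ENNReal.ofReal_le_ofReal_iff (by positivity)] at h3
  have h4 : 4 * A / √ε < ((⌊4 * A / √ε⌋₊ + 1 : ℕ) : ℝ) := by
    push_cast
    exact Nat.lt_floor_add_one _
  have h5 : 4 * A / √ε = 4 * (A / √ε) := mul_div_assoc _ _ _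
  linarith

private theorem N13_half {p : ℝ} (hp : 0 ≤ p) (hp1 : p ≤ 1) (e : Dir d) {R : ℤ} (hR : 1 ≤ R) :
    (∑' x : Vx d, if R ≤ dt x e then tt p x else 0) ≤ ff p e R * chi d p := by
  rw [ff_eq_flux p e R hR, flux]
  have h0 : (0 : Vx d) ∈ Hf e R := by
    show dt (0 : Vx d) e ≤ R - 1
    have h1 : dt (0 : Vx d) e = 0 := by
      show sg e.2 * (0 : Vx d) e.1 = 0
      rw [Pi.zero_apply, mul_zero]
    omega
  calc (∑' x : Vx d, if R ≤ dt x e then tt p x else 0)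
      ≤ ∑' x : Vx d, ∑' q : exI (Hf e R) Set.univ,
        tauI p (Hf e R) 0 q.1.1 * ENNReal.ofReal p * tauI p Set.univ q.1.2 x := by
        refine ENNReal.tsum_le_tsum fun x => ?_
        split_ifs with hx
        · have h1 := SLI hp hp1 (Set.subset_univ (Hf e R)) h0 x
          have h2 : x ∉ Hf e R := fun h3 => by
            have h4 : dt x e ≤ R - 1 := h3
            omega
          rw [tauI_zero_right p h2, zero_add] at h1
          exact h1
        · exact zero_le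
    _ = ∑' q : exI (Hf e R) Set.univ, ∑' x : Vx d,
        tauI p (Hf e R) 0 q.1.1 * ENNReal.ofReal p * tauI p Set.univ q.1.2 x := ENNReal.tsum_comm
    _ = ∑' q : exI (Hf e R) Set.univ,
        tauI p (Hf e R) 0 q.1.1 * ENNReal.ofReal p * chi d p := by
        refine tsum_congr fun q => ?_
        rw [ENNReal.tsum_mul_left]
        congr 1
        simp_rw [tauI_univ]
        exact (Equiv.subRight q.1.2).tsum_eq (fun x => tt p x)
    _ = (∑' q : exI (Hf e R) Set.univ, tauI p (Hf e R) 0 q.1.1 * ENNReal.ofReal p) * chi d p :=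
        ENNReal.tsum_mul_right

private theorem N13_dir (hd : 0 < d) {K : ℕ} {x : Vx d} (hx : K ≤ nm x) :
    ∃ e : Dir d, (K : ℤ) ≤ dt x e := by
  obtain ⟨i, -, hi⟩ := Finset.exists_mem_eq_sup (univ : Finset (Fin d)) ⟨⟨0, hd⟩, mem_univ _⟩
    (fun i => (x i).natAbs)
  have h1 : K ≤ (x i).natAbs := by
    rw [← hi]
    exact hx
  rcases le_total 0 (x i) with h2 | h2
  · refine ⟨(i, true), ?_⟩
    show (K : ℤ) ≤ 1 * x i
    omega
  · refine ⟨(i, false), ?_⟩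
    show (K : ℤ) ≤ -1 * x i
    omega

private theorem N13_tail (hc : Crit m d h C) {ε : ℝ} (hε : 0 < ε) (hε1 : ε ≤ pc d / 2) {r0 : ℕ}
    (hr : 1 ≤ r0) (hff : ∀ e : Dir d, ff (pc d - ε) e r0 ≤ ENNReal.ofReal (1 / 4)) (k : ℕ) :
    (∑' x : Vx d, if k * r0 ≤ nm x then tt (pc d - ε) x else 0) ≤
      ENNReal.ofReal (2 * d * C / ε / 4 ^ k) := by
  have hP := N13_pc hc
  have h1 := hc.pc_hi
  have h0 := hc.one_le
  have hd : (1 : ℝ) ≤ d := by exact_mod_cast hc.pos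
  have hp : 0 ≤ pc d - ε := by linarith
  have hp1 : pc d - ε ≤ 1 := by linarith
  have h3 := hc.chi_le (pc d - ε) hp (by linarith)
  rw [show pc d - (pc d - ε) = ε by ring] at h3
  rcases Nat.eq_zero_or_pos k with rfl | hk
  · calc (∑' x : Vx d, if 0 * r0 ≤ nm x then tt (pc d - ε) x else 0)
        = chi d (pc d - ε) := by
          refine tsum_congr fun x => ?_
          rw [if_pos (by omega)]
      _ ≤ ENNReal.ofReal (C / ε) := h3
      _ ≤ ENNReal.ofReal (2 * d * C / ε / 4 ^ 0) := by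
          refine ENNReal.ofReal_le_ofReal ?_
          rw [pow_zero, div_one]
          refine div_le_div_of_nonneg_right ?_ hε.le
          nlinarith
  obtain ⟨k, rfl⟩ : ∃ k', k = k' + 1 := ⟨k - 1, by omega⟩
  have hK : (1 : ℤ) ≤ (((k + 1) * r0 : ℕ) : ℤ) := by
    have := Nat.mul_pos hk hr
    omega
  have hpow : ∀ e : Dir d, ff (pc d - ε) e (((k + 1) * r0 : ℕ) : ℤ) ≤
      ENNReal.ofReal (1 / 4) ^ (k + 1) := by
    intro e
    have h5 := N13_ff_pow hp hp1 e (r := (r0 : ℤ)) (s := (r0 : ℤ)) (by omega) (by omega) k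
    rw [← pow_succ] at h5
    have h6 : (((k + 1) * r0 : ℕ) : ℤ) = (k : ℤ) * r0 + r0 := by push_cast; ring
    rw [h6]
    exact h5.trans (pow_le_pow_left' (hff e) _)
  calc (∑' x : Vx d, if (k + 1) * r0 ≤ nm x then tt (pc d - ε) x else 0)
      ≤ ∑' x : Vx d, ∑ e : Dir d,
        if (((k + 1) * r0 : ℕ) : ℤ) ≤ dt x e then tt (pc d - ε) x else 0 := by
        refine ENNReal.tsum_le_tsum fun x => ?_
        split_ifs with hx
        · obtain ⟨e, he⟩ := N13_dir hc.pos hx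
          refine le_trans (le_of_eq ?_) (Finset.single_le_sum (fun _ _ => zero_le) (mem_univ e))
          rw [if_pos he]
        · exact zero_le
    _ = ∑ e : Dir d, ∑' x : Vx d,
        if (((k + 1) * r0 : ℕ) : ℤ) ≤ dt x e then tt (pc d - ε) x else 0 :=
        Summable.tsum_finsetSum fun _ _ => ENNReal.summable
    _ ≤ ∑ _e : Dir d, ENNReal.ofReal (1 / 4) ^ (k + 1) * ENNReal.ofReal (C / ε) :=
        Finset.sum_le_sum fun e _ => (N13_half hp hp1 e hK).trans (mul_le_mul' (hpow e) h3)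
    _ = ENNReal.ofReal (2 * d * C / ε / 4 ^ (k + 1)) := by
        rw [Finset.sum_const, Finset.card_univ, Fintype.card_prod, Fintype.card_fin,
          Fintype.card_bool, nsmul_eq_mul, ← ENNReal.ofReal_pow (by norm_num),
          ← ENNReal.ofReal_mul (by positivity), ← ENNReal.ofReal_natCast,
          ← ENNReal.ofReal_mul (by positivity)]
        congr 1
        push_cast
        rw [div_pow, one_pow]
        ring

private theorem N13_geom {K D : ℝ} (hK : 0 ≤ K) (hD : 0 ≤ D) :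
    ∑' k : ℕ, ENNReal.ofReal (D * 3 ^ (k + 1) * (K / 4 ^ k)) = ENNReal.ofReal (12 * D * K) := by
  have h1 : HasSum (fun k : ℕ => D * 3 ^ (k + 1) * (K / 4 ^ k)) (12 * D * K) := by
    have h2 := (hasSum_geometric_of_lt_one (r := (3 / 4 : ℝ)) (by norm_num) (by norm_num)).mul_left
      (3 * D * K)
    have h3 : 3 * D * K * (1 - 3 / 4)⁻¹ = 12 * D * K := by norm_num; ring
    rw [h3] at h2
    have h4 : (fun k : ℕ => D * 3 ^ (k + 1) * (K / 4 ^ k)) =
        fun k : ℕ => 3 * D * K * (3 / 4) ^ k := by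
      funext k
      rw [div_pow, pow_succ]
      ring
    rw [h4]
    exact h2
  rw [← ENNReal.ofReal_tsum_of_nonneg (fun k => by positivity) h1.summable, h1.tsum_eq]

private theorem N13_group {p : ℝ} {r0 : ℕ} (hr : 1 ≤ r0) {K D : ℝ} (hK : 0 ≤ K) (hD : 0 ≤ D)
    (ht : ∀ k : ℕ, (∑' x : Vx d, if k * r0 ≤ nm x then tt p x else 0) ≤
      ENNReal.ofReal (K / 4 ^ k))
    (f : ℕ → ℝ≥0∞) (hm : Monotone f)
    (hf : ∀ k : ℕ, f ((k + 1) * r0) ≤ ENNReal.ofReal (D * 3 ^ (k + 1))) :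
    ∑' x : Vx d, f (nm x) * tt p x ≤ ENNReal.ofReal (12 * D * K) := by
  calc ∑' x : Vx d, f (nm x) * tt p x
      ≤ ∑' x : Vx d, ∑' k : ℕ, f ((k + 1) * r0) * (if k * r0 ≤ nm x then tt p x else 0) := by
        refine ENNReal.tsum_le_tsum fun x => ?_
        refine le_trans ?_ (ENNReal.le_tsum (nm x / r0))
        rw [if_pos (Nat.div_mul_le_self _ _)]
        refine mul_le_mul' (hm ?_) le_rfl
        have h1 := Nat.div_add_mod (nm x) r0
        have h2 := Nat.mod_lt (nm x) hr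
        rw [add_mul, one_mul, mul_comm]
        omega
    _ = ∑' k : ℕ, f ((k + 1) * r0) * ∑' x : Vx d, (if k * r0 ≤ nm x then tt p x else 0) := by
        rw [ENNReal.tsum_comm]
        exact tsum_congr fun k => ENNReal.tsum_mul_left
    _ ≤ ∑' k : ℕ, ENNReal.ofReal (D * 3 ^ (k + 1) * (K / 4 ^ k)) := by
        refine ENNReal.tsum_le_tsum fun k => ?_
        rw [ENNReal.ofReal_mul (by positivity)]
        exact mul_le_mul' (hf k) (ht k)
    _ = ENNReal.ofReal (12 * D * K) := N13_geom hK hD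

private theorem N13_exp_le (n : ℕ) : Real.exp n ≤ 3 ^ n := by
  have h1 : Real.exp n = Real.exp 1 ^ n := by
    rw [← Real.exp_nat_mul, mul_one]
  rw [h1]
  exact pow_le_pow_left₀ (Real.exp_pos _).le (Real.exp_one_lt_d9.le.trans (by norm_num)) n

private theorem N13_pow_le (n j : ℕ) : (n : ℝ) ^ j ≤ (j : ℝ) ^ j * 3 ^ n := by
  rcases Nat.eq_zero_or_pos j with rfl | hj
  · simp only [pow_zero, one_mul]
    exact one_le_pow₀ (by norm_num)
  have hj' : (0 : ℝ) < j := by exact_mod_cast hj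
  have h1 : (n : ℝ) / j ≤ Real.exp (n / j) := by
    have := Real.add_one_le_exp ((n : ℝ) / j)
    linarith
  have h2 : ((n : ℝ) / j) ^ j ≤ Real.exp n := by
    refine (pow_le_pow_left₀ (by positivity) h1 j).trans (le_of_eq ?_)
    rw [← Real.exp_nat_mul]
    congr 1
    field_simp
  rw [div_pow, div_le_iff₀ (by positivity)] at h2
  calc (n : ℝ) ^ j ≤ Real.exp n * (j : ℝ) ^ j := h2
    _ ≤ 3 ^ n * (j : ℝ) ^ j := mul_le_mul_of_nonneg_right (N13_exp_le n) (by positivity)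
    _ = (j : ℝ) ^ j * 3 ^ n := mul_comm _ _

private theorem N13_Rs_le {p : ℝ} (hp : 0 ≤ p) (hp1 : p ≤ 1) (e : Dir d) {r : ℕ} (hr : 1 ≤ r)
    (h2 : ∀ s : ℤ, 1 ≤ s → ff p e s ≤ 2) (hf : ff p e r ≤ ENNReal.ofReal (1 / 2)) :
    Rs p e ≤ ENNReal.ofReal (4 * r) := by
  have : NeZero r := ⟨by omega⟩
  have hg : HasSum (fun k : ℕ => (r : ℝ) * (2 * (1 / 2) ^ k)) (4 * r) := by
    have h3 := (hasSum_geometric_of_lt_one (r := (1 / 2 : ℝ)) (by norm_num) (by norm_num)).mul_left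
      ((r : ℝ) * 2)
    have h4 : (r : ℝ) * 2 * (1 - 1 / 2)⁻¹ = 4 * r := by norm_num; ring
    rw [h4] at h3
    simpa only [mul_assoc] using h3
  calc Rs p e = ∑' q : ℕ × Fin r, ff p e (((Nat.divModEquiv r).symm q : ℕ) + 1) :=
        ((Nat.divModEquiv r).symm.tsum_eq (fun n : ℕ => ff p e ((n : ℤ) + 1))).symm
    _ = ∑' k : ℕ, ∑' t : Fin r, ff p e (((Nat.divModEquiv r).symm (k, t) : ℕ) + 1) :=
        ENNReal.tsum_prod'
    _ ≤ ∑' k : ℕ, ∑' _t : Fin r, ENNReal.ofReal (2 * (1 / 2) ^ k) := by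
        refine ENNReal.tsum_le_tsum fun k => ENNReal.tsum_le_tsum fun t => ?_
        have h3 : ((((Nat.divModEquiv r).symm (k, t) : ℕ) : ℤ) + 1) =
            (k : ℤ) * r + ((t : ℕ) + 1) := by
          rw [Nat.divModEquiv_symm_apply]
          push_cast
          ring
        rw [h3]
        refine (N13_ff_pow hp hp1 e (by omega) (by omega) k).trans ?_
        rw [mul_comm (2 : ℝ), ENNReal.ofReal_mul (by positivity), ENNReal.ofReal_pow (by norm_num)]
        refine mul_le_mul' (pow_le_pow_left' hf k) ?_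
        rw [ENNReal.ofReal_ofNat]
        exact h2 _ (by omega)
    _ = ∑' k : ℕ, ENNReal.ofReal ((r : ℝ) * (2 * (1 / 2) ^ k)) := by
        refine tsum_congr fun k => ?_
        rw [tsum_fintype, Finset.sum_const, Finset.card_univ, Fintype.card_fin, nsmul_eq_mul,
          ← ENNReal.ofReal_natCast, ← ENNReal.ofReal_mul (by positivity)]
    _ = ENNReal.ofReal (4 * r) := by
        rw [← ENNReal.ofReal_tsum_of_nonneg (fun k => by positivity) hg.summable, hg.tsum_eq]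

theorem decay_geom (hc : Crit m d h C) : ∃ C1 ε0 : ℝ, 0 < C1 ∧ 0 < ε0 ∧ ε0 < pc d ∧
    ∀ ε : ℝ, 0 < ε → ε ≤ ε0 → ∃ r0 : ℕ, 1 ≤ r0 ∧ (r0 : ℝ) ≤ C1 / √ε ∧ ∀ k : ℕ,
      (∑' x : Vx d, if k * r0 ≤ nm x then tt (pc d - ε) x else 0) ≤
        ENNReal.ofReal (C1 / ε / 4 ^ k) := by
  have hP := N13_pc hc
  have h0 := hc.one_le
  have hd : (1 : ℝ) ≤ d := by exact_mod_cast hc.pos
  have hdC : 0 < 2 * d * C := by positivity
  refine ⟨(4 * √(2 * C) + 1) + 2 * d * C, pc d / 2, by positivity, by positivity, by linarith,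
    fun ε hε hε1 => ?_⟩
  obtain ⟨r0, h1, h2, h3⟩ := N13_r0 hc hε hε1
  refine ⟨r0, h1, h2.trans ?_, fun k => (N13_tail hc hε hε1 h1 h3 k).trans ?_⟩
  · exact div_le_div_of_nonneg_right (by linarith) (Real.sqrt_nonneg _)
  · refine ENNReal.ofReal_le_ofReal ?_
    refine div_le_div_of_nonneg_right (div_le_div_of_nonneg_right ?_ hε.le) (by positivity)
    have := Real.sqrt_nonneg (2 * C)
    linarith

theorem moment_tt (hc : Crit m d h C) : ∃ C1 ε0 : ℝ, 0 < C1 ∧ 0 < ε0 ∧ ε0 < pc d ∧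
    ∀ ε : ℝ, 0 < ε → ε ≤ ε0 → ∀ j : ℕ, ∑' x : Vx d, (nm x : ℝ≥0∞) ^ j * tt (pc d - ε) x ≤
      ENNReal.ofReal ((C1 * j / √ε) ^ j * (C1 / ε)) := by
  obtain ⟨C0, ε0, hC0, hε0, hε0', H⟩ := decay_geom hc
  refine ⟨12 * C0, ε0, by positivity, hε0, hε0', fun ε hε hε1 j => ?_⟩
  obtain ⟨r0, h1, h2, h3⟩ := H ε hε hε1
  have hs : 0 < √ε := Real.sqrt_pos.2 hε
  have h4 := N13_group (p := pc d - ε) h1 (K := C0 / ε) (D := (C0 * j / √ε) ^ j) (by positivity)
    (by positivity) h3 (fun n => (n : ℝ≥0∞) ^ j) (fun a b hab => by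
      show (a : ℝ≥0∞) ^ j ≤ (b : ℝ≥0∞) ^ j
      exact pow_le_pow_left' (by exact_mod_cast hab) j) (fun k => by
      show (((k + 1) * r0 : ℕ) : ℝ≥0∞) ^ j ≤ _
      rw [← ENNReal.ofReal_natCast, ← ENNReal.ofReal_pow (by positivity)]
      refine ENNReal.ofReal_le_ofReal ?_
      have h5 := N13_pow_le (k + 1) j
      push_cast at h5 ⊢
      calc (((k : ℝ) + 1) * r0) ^ j = ((k : ℝ) + 1) ^ j * (r0 : ℝ) ^ j := mul_pow _ _ _
        _ ≤ ((j : ℝ) ^ j * 3 ^ (k + 1)) * (C0 / √ε) ^ j :=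
            mul_le_mul h5 (pow_le_pow_left₀ (by positivity) h2 j) (by positivity) (by positivity)
        _ = (C0 * j / √ε) ^ j * 3 ^ (k + 1) := by
            rw [mul_div_right_comm, mul_pow]
            ring)
  refine h4.trans (ENNReal.ofReal_le_ofReal ?_)
  have h6 : (C0 * j / √ε) ^ j ≤ (12 * C0 * j / √ε) ^ j := by
    refine pow_le_pow_left₀ (by positivity) ?_ j
    refine div_le_div_of_nonneg_right ?_ hs.le
    have : (0 : ℝ) ≤ C0 * j := by positivity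
    nlinarith
  calc 12 * (C0 * j / √ε) ^ j * (C0 / ε) = (C0 * j / √ε) ^ j * (12 * C0 / ε) := by ring
    _ ≤ (12 * C0 * j / √ε) ^ j * (12 * C0 / ε) :=
        mul_le_mul_of_nonneg_right h6 (by positivity)

theorem exp_tt (hc : Crit m d h C) : ∃ c C1 ε0 : ℝ, 0 < c ∧ 0 < C1 ∧ 0 < ε0 ∧ ε0 < pc d ∧
    ∀ ε : ℝ, 0 < ε → ε ≤ ε0 →
      ∑' x : Vx d, ENNReal.ofReal (Real.exp (c * √ε * nm x)) * tt (pc d - ε) x ≤
        ENNReal.ofReal (C1 / ε) := by
  obtain ⟨C0, ε0, hC0, hε0, hε0', H⟩ := decay_geom hc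
  refine ⟨1 / C0, 12 * C0, ε0, by positivity, by positivity, hε0, hε0', fun ε hε hε1 => ?_⟩
  obtain ⟨r0, h1, h2, h3⟩ := H ε hε hε1
  have hs : 0 < √ε := Real.sqrt_pos.2 hε
  have h4 := N13_group (p := pc d - ε) h1 (K := C0 / ε) (D := 1) (by positivity)
    (by norm_num) h3 (fun n => ENNReal.ofReal (Real.exp (1 / C0 * √ε * n))) (fun a b hab => by
      refine ENNReal.ofReal_le_ofReal (Real.exp_le_exp.2 ?_)
      refine mul_le_mul_of_nonneg_left (by exact_mod_cast hab) (by positivity)) (fun k => by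
      refine ENNReal.ofReal_le_ofReal ?_
      rw [one_mul]
      refine le_trans (Real.exp_le_exp.2 ?_) (N13_exp_le (k + 1))
      push_cast
      rw [le_div_iff₀ hs] at h2
      have h5 : 1 / C0 * √ε * r0 ≤ 1 := by
        rw [mul_assoc, mul_comm √ε, one_div, inv_mul_le_iff₀ hC0, mul_one]
        exact h2
      have h6 : (0 : ℝ) ≤ (k : ℝ) + 1 := by positivity
      calc 1 / C0 * √ε * (((k : ℝ) + 1) * r0) = ((k : ℝ) + 1) * (1 / C0 * √ε * r0) := by ring
        _ ≤ ((k : ℝ) + 1) * 1 := mul_le_mul_of_nonneg_left h5 h6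
        _ = (k : ℝ) + 1 := mul_one _)
  refine h4.trans (le_of_eq ?_)
  congr 1
  ring

theorem plane_tt (hc : Crit m d h C) : ∃ C1 ε0 : ℝ, 0 < C1 ∧ 0 < ε0 ∧ ε0 < pc d ∧
    ∀ ε : ℝ, 0 < ε → ε ≤ ε0 → ∀ (e : Dir d) (j : ℤ),
      ∑' z : {z : Vx d // dt z e = j}, tt (pc d - ε) z.1 ≤ ENNReal.ofReal (C1 / √ε) := by
  have hP := N13_pc hc
  have hP1 := hc.pc_hi
  have h0 := hc.one_le
  refine ⟨4 * √(2 * C) / pc d, pc d / 2, by positivity, by positivity, by linarith,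
    fun ε hε hε1 e j => ?_⟩
  have hp : 0 < pc d - ε := by linarith
  have hp1 : pc d - ε ≤ 1 := by linarith
  have h1 := plane_le hp.le hp1 (F := 2) (by norm_num) (fun e r hr =>
    (N13_ff_mono hp.le (by linarith : pc d - ε ≤ pc d) (by linarith) e r).trans
      (hc.ff_le e r hr)) e j
  have h2 := h1.trans (mul_le_mul' le_rfl (N13_Rs hc hε hε1 e))
  have h3 : (2 : ℝ≥0∞) * ENNReal.ofReal (√(2 * C) / √ε) =
      ENNReal.ofReal (pc d / 2) * ENNReal.ofReal (4 * √(2 * C) / pc d / √ε) := by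
    rw [← ENNReal.ofReal_mul (by positivity), ← ENNReal.ofReal_ofNat 2,
      ← ENNReal.ofReal_mul (by norm_num)]
    congr 1
    field_simp
    norm_num
  rw [h3] at h2
  have h4 : ENNReal.ofReal (pc d / 2) * ∑' z : {z : Vx d // dt z e = j}, tt (pc d - ε) z.1 ≤
      ENNReal.ofReal (pc d / 2) * ENNReal.ofReal (4 * √(2 * C) / pc d / √ε) :=
    (mul_le_mul' (ENNReal.ofReal_le_ofReal (by linarith)) le_rfl).trans h2
  exact (ENNReal.mul_le_mul_iff_right (ENNReal.ofReal_pos.2 (by positivity)).ne'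
    ENNReal.ofReal_ne_top).1 h4

theorem ff_ge_half (hc : Crit m d h C) : ∃ c ε0 : ℝ, 0 < c ∧ 0 < ε0 ∧ ε0 < pc d ∧
    ∀ ε : ℝ, 0 < ε → ε ≤ ε0 → ∀ (e : Dir d) (r : ℤ), 1 ≤ r → (r : ℝ) ≤ c / √ε →
      ENNReal.ofReal (1 / 2) ≤ ff (pc d - ε) e r := by
  have hP := N13_pc hc
  have hP1 := hc.pc_hi
  have hd : (0 : ℝ) < d := by exact_mod_cast hc.pos
  refine ⟨√(pc d / (400 * d)), pc d / 2, by positivity, by positivity, by linarith,
    fun ε hε hε1 e r hr hr2 => ?_⟩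
  have hs : 0 < √ε := Real.sqrt_pos.2 hε
  have hp : 0 < pc d - ε := by linarith
  have hp1 : pc d - ε ≤ 1 := by linarith
  obtain ⟨n, rfl⟩ := Int.eq_ofNat_of_zero_le (by omega : 0 ≤ r)
  have hn : 1 ≤ n := by omega
  by_contra! hlt
  have h1 := N13_Rs_le hp.le hp1 e hn (fun s hs =>
    (N13_ff_mono hp.le (by linarith : pc d - ε ≤ pc d) (by linarith) e s).trans
      (hc.ff_le e s hs)) hlt.le
  have h2 := chi_le_Rs hp.le hp1 e
  have h3 := chi_ge hc.pos (by linarith : pc d < 1) hp.le (by linarith : pc d - ε < pc d)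
  rw [show pc d - (pc d - ε) = ε by ring] at h3
  have hn' : (1 : ℝ) ≤ n := by exact_mod_cast hn
  have h4 : ENNReal.ofReal ((pc d - ε) * ((1 - (pc d - ε)) / (2 * d * ε))) ≤
      ENNReal.ofReal ((1 + 4 * n) * (4 * n)) := by
    rw [ENNReal.ofReal_mul hp.le, ENNReal.ofReal_mul (by positivity),
      ENNReal.ofReal_add (by norm_num) (by positivity), ENNReal.ofReal_one]
    exact (mul_le_mul' le_rfl h3).trans (h2.trans (mul_le_mul' (by gcongr) h1))
  rw [ENNReal.ofReal_le_ofReal_iff (by positivity)] at h4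
  have h5 : (n : ℝ) ^ 2 ≤ pc d / (400 * d) / ε := by
    have h6 : (n : ℝ) ≤ √(pc d / (400 * d)) / √ε := by exact_mod_cast hr2
    calc (n : ℝ) ^ 2 ≤ (√(pc d / (400 * d)) / √ε) ^ 2 := pow_le_pow_left₀ (by positivity) h6 2
      _ = pc d / (400 * d) / ε := by
          rw [div_pow, Real.sq_sqrt (by positivity), Real.sq_sqrt hε.le]
  have h7 : pc d / 2 * ((1 / 2) / (2 * d * ε)) ≤ (pc d - ε) * ((1 - (pc d - ε)) / (2 * d * ε)) :=
    mul_le_mul (by linarith) (div_le_div_of_nonneg_right (by linarith) (by positivity))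
      (by positivity) hp.le
  have h8 : (1 + 4 * (n : ℝ)) * (4 * n) ≤ 20 * (n : ℝ) ^ 2 := by nlinarith
  have h9 : pc d / 2 * ((1 / 2) / (2 * d * ε)) = 50 * (pc d / (400 * d) / ε) := by
    field_simp
    norm_num
  have h10 : 0 < pc d / (400 * d) / ε := by positivity
  rw [h9] at h7
  linarith

end Pool.Agent.HD
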