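import Pool.Agent.Lib.MP_8ca597_hd.N71
import Pool.Agent.Lib.MP_8ca597_hd.N13
import Pool.Agent.Lib.MP_8ca597_hd.Model

/-!
# N72: the third exponent, final form
-/

set_option autoImplicit false

namespace Pool.Agent.HD

open Finset Filter Topology
open scoped ENNReal

variable {m d : ℕ} {h : m ≤ d} {C : ℝ}

private theorem N72_exp (hc : Crit m d h C) :
    ∃ c C' : ℝ, 0 < c ∧ ∀ ε : ℝ, 0 < ε → ε ≤ pc d / 2 →
      ∑' x : Vx d, ENNReal.ofReal (Real.exp (c * √ε * nm x)) * tt (pc d - ε) x ≤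
        ENNReal.ofReal (C' / ε) := by
  obtain ⟨c, C1, ε0, hc0, hC1, h0, h1, h2⟩ := exp_tt hc
  have hpc : 0 < pc d := h0.trans h1
  refine ⟨c * √(ε0 / (ε0 + pc d)), C1 * ((ε0 + pc d) / ε0), by positivity, ?_⟩
  intro ε hε hε'
  rcases le_or_gt ε ε0 with hle | hgt
  · refine le_trans ?_ ((h2 ε hε hle).trans (ENNReal.ofReal_le_ofReal ?_))
    · refine ENNReal.tsum_le_tsum fun x => ?_
      gcongr
      have h3 : √(ε0 / (ε0 + pc d)) ≤ 1 := by
        rw [Real.sqrt_le_one]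
        rw [div_le_one (by positivity)]
        linarith
      calc c * √(ε0 / (ε0 + pc d)) ≤ c * 1 := by gcongr
        _ = c := mul_one c
    · gcongr
      have : 1 ≤ (ε0 + pc d) / ε0 := by
        rw [one_le_div h0]
        linarith
      nlinarith
  · refine le_trans ?_ ((h2 ε0 h0 le_rfl).trans (ENNReal.ofReal_le_ofReal ?_))
    · refine ENNReal.tsum_le_tsum fun x => ?_
      have h4 : c * √(ε0 / (ε0 + pc d)) * √ε * nm x ≤ c * √ε0 * nm x := by
        have h5 : √(ε0 / (ε0 + pc d)) * √ε ≤ √ε0 := by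
          rw [← Real.sqrt_mul (by positivity)]
          apply Real.sqrt_le_sqrt
          rw [div_mul_eq_mul_div, div_le_iff₀ (by positivity)]
          nlinarith
        calc c * √(ε0 / (ε0 + pc d)) * √ε * nm x = c * (√(ε0 / (ε0 + pc d)) * √ε) * nm x := by ring
          _ ≤ _ := by gcongr
      have h6 : tt (pc d - ε) x ≤ tt (pc d - ε0) x := by
        refine tauI_mono_p (by linarith) (by linarith) ?_ _ _ _
        have := hc.pc_hi
        linarith
      exact mul_le_mul' (ENNReal.ofReal_le_ofReal (Real.exp_le_exp.2 h4)) h6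
    · rw [div_le_div_iff₀ h0 hε]
      have : C1 * ((ε0 + pc d) / ε0) * ε0 = C1 * (ε0 + pc d) := by
        field_simp
      rw [this]
      gcongr
      linarith

/-- The correlation length of the supercritical phase. -/
theorem nu_prime (hc : Crit m d h C) : ∃ c C' ε0 : ℝ, 0 < c ∧ 0 < C' ∧ 0 < ε0 ∧
    ∀ ε : ℝ, 0 < ε → ε ≤ ε0 → ∃ κ : ℝ,
      Tendsto (fun n : ℕ => -Real.log (tauf (pc d + ε) (HDM.axis d n)).toReal / n) atTop (𝓝 κ) ∧
        c * √ε ≤ κ ∧ κ ≤ C' * √ε := by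
  obtain ⟨c1, ε1, hc1, hε1, h1, h2⟩ := ff_ge_half hc
  have hd : 0 < d := hc.pos
  obtain ⟨c, C', ε0, h3, h4, h5, h6⟩ := nu_prime0 hc (N72_exp hc) (c1 := min c1 ε1)
    (lt_min hc1 hε1) (fun ε hε hε' e r hr hr' => by
      refine h2 ε hε (hε'.trans (min_le_right _ _)) e (r : ℤ) (by exact_mod_cast hr) ?_
      refine le_trans (by exact_mod_cast hr') ?_
      gcongr
      exact min_le_left _ _) (⟨0, hd⟩ : Fin d)
  refine ⟨1 / C', 1 / c, ε0, by positivity, by positivity, h5, ?_⟩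
  intro ε hε hε'
  obtain ⟨ξ, h7, h8, h9⟩ := h6 ε hε hε'
  have hs : 0 < √ε := Real.sqrt_pos.2 hε
  have hξ : 0 < ξ := lt_of_lt_of_le (by positivity) h8
  refine ⟨1 / ξ, ?_, ?_, ?_⟩
  · have : ∀ n : ℕ, HDM.axis d n = Pi.single (⟨0, hd⟩ : Fin d) (n : ℤ) := by
      intro n
      funext i
      by_cases hi : i = ⟨0, hd⟩
      · subst hi
        simp [HDM.axis]
      · have : (i : ℕ) ≠ 0 := fun h0 => hi (Fin.ext h0)
        simp [HDM.axis, this, hi]
    simp only [this]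
    exact h7
  · rw [le_div_iff₀ hξ]
    calc 1 / C' * √ε * ξ ≤ 1 / C' * √ε * (C' / √ε) := by gcongr
      _ = 1 := by field_simp
  · rw [div_le_iff₀ hξ]
    calc (1 : ℝ) = 1 / c * √ε * (c / √ε) := by field_simp
      _ ≤ 1 / c * √ε * ξ := by gcongr

end Pool.Agent.HD
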