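import Pool.Agent.Lib.MP_8ca597_hd.Z02
import Pool.Agent.Lib.MP_8ca597_hd.S20
import Pool.Agent.Lib.MP_8ca597_hd.N23
import Pool.Agent.Lib.MP_8ca597_hd.N72
import Pool.Agent.Lib.MP_8ca597_hd.B63

/-!
# The final statement (assembly; not a row)
-/

set_option autoImplicit false

namespace Pool.Agent.HD

open Finset MeasureTheory Filter Topology
open scoped ENNReal

theorem sqNorm_le {d : ℕ} (x : Vx d) : HDM.sqNorm x ≤ d * (nm x : ℝ≥0∞) ^ 2 := by
  unfold HDM.sqNorm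
  have h1 : (∑ i, (x i : ℝ) ^ 2) ≤ d * (nm x : ℝ) ^ 2 := by
    have : ∀ i ∈ (univ : Finset (Fin d)), (x i : ℝ) ^ 2 ≤ (nm x : ℝ) ^ 2 := by
      intro i _
      have h2 : (x i).natAbs ≤ nm x := Finset.le_sup (f := fun i => (x i).natAbs) (mem_univ i)
      have h3 : |(x i : ℝ)| ≤ nm x := by
        rw [← Int.cast_abs, Int.abs_eq_natAbs]
        exact_mod_cast h2
      rw [← sq_abs (x i : ℝ)]
      exact pow_le_pow_left₀ (abs_nonneg _) h3 2
    refine (sum_le_sum this).trans ?_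
    simp
  refine (ENNReal.ofReal_le_ofReal h1).trans (le_of_eq ?_)
  rw [ENNReal.ofReal_mul (by positivity), ENNReal.ofReal_natCast,
    ENNReal.ofReal_pow (by positivity), ENNReal.ofReal_natCast]

theorem le_sqNorm {d : ℕ} (x : Vx d) : (nm x : ℝ≥0∞) ^ 2 ≤ HDM.sqNorm x := by
  unfold HDM.sqNorm
  rcases Nat.eq_zero_or_pos (nm x) with h0 | h0
  · simp [h0]
  have hne : (univ : Finset (Fin d)).Nonempty := by
    by_contra hne
    rw [not_nonempty_iff_eq_empty] at hne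
    simp [nm, hne] at h0
  obtain ⟨i, _, hi⟩ := exists_mem_eq_sup univ hne fun i => (x i).natAbs
  have h1 : (nm x : ℝ) ^ 2 ≤ ∑ i, (x i : ℝ) ^ 2 := by
    have h2 : (nm x : ℝ) ^ 2 = (x i : ℝ) ^ 2 := by
      have : (nm x : ℝ) = |(x i : ℝ)| := by
        rw [← Int.cast_abs, Int.abs_eq_natAbs]
        exact_mod_cast hi
      rw [this, sq_abs]
    rw [h2]
    exact single_le_sum (f := fun i => (x i : ℝ) ^ 2) (fun j _ => sq_nonneg _) (mem_univ i)
  calc (nm x : ℝ≥0∞) ^ 2 = ENNReal.ofReal ((nm x : ℝ) ^ 2) := by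
        rw [ENNReal.ofReal_pow (by positivity), ENNReal.ofReal_natCast]
    _ ≤ _ := ENNReal.ofReal_le_ofReal h1

/-- The finitary form of the final statement. -/
theorem super {m d : ℕ} {h : m ≤ d} {C : ℝ} (hc : Crit m d h C) :
    ∃ c C ε : ℝ, 0 < c ∧ 0 < C ∧ 0 < ε ∧ 0 < pc d ∧ pc d + ε < 1 ∧ ∀ p : ℝ, pc d < p →
      p < pc d + ε →
      (ENNReal.ofReal (c / (p - pc d)) ≤ chif d p ∧
        chif d p ≤ ENNReal.ofReal (C / (p - pc d))) ∧
      (ENNReal.ofReal (c / (p - pc d)) ≤ (∑' x : Vx d, HDM.sqNorm x * tauf p x) / chif d p ∧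
        (∑' x : Vx d, HDM.sqNorm x * tauf p x) / chif d p ≤ ENNReal.ofReal (C / (p - pc d))) ∧
      ∃ ξ : ℝ, Tendsto (fun n : ℕ => -Real.log (tauf p (HDM.axis d n)).toReal / n) atTop
          (𝓝 (1 / ξ)) ∧
        c / √(p - pc d) ≤ ξ ∧ ξ ≤ C / √(p - pc d) := by
  obtain ⟨c1, hc1, H1⟩ := chif_ge hc
  obtain ⟨C2, e2, hC2, he2, H2⟩ := chif_le hc
  obtain ⟨C3, e3, hC3, he3, H3⟩ := xi2_le hc
  obtain ⟨c4, e4, hc4, he4, H4⟩ := xi2_ge hc
  obtain ⟨c5, C5, e5, hc5, hC5, he5, H5⟩ := nu_prime hc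
  have hd : 0 < d := hc.pos
  have hpc0 : 0 < pc d := lt_of_lt_of_le (by positivity) hc.pc_lo
  have hpc1 : pc d ≤ 1 / 1000 := hc.pc_hi
  refine ⟨min (min c1 c4) (1 / C5), max (max C2 (d * C3)) (1 / c5),
    min (min (min c1 e2) (min e3 e4)) (min e5 (1 / 2)), by positivity, by positivity,
    by positivity, hpc0, ?_, fun p hp hp' => ?_⟩
  · have : min (min (min c1 e2) (min e3 e4)) (min e5 (1 / 2)) ≤ 1 / 2 :=
      (min_le_right _ _).trans (min_le_right _ _)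
    linarith
  set ε : ℝ := p - pc d with hε
  have hε0 : 0 < ε := by rw [hε]; linarith
  have hεle : ε ≤ min (min (min c1 e2) (min e3 e4)) (min e5 (1 / 2)) := by rw [hε]; linarith
  have hpe : p = pc d + ε := by rw [hε]; ring
  have l1 : ε ≤ c1 := hεle.trans ((min_le_left _ _).trans ((min_le_left _ _).trans (min_le_left _ _)))
  have l2 : ε ≤ e2 := hεle.trans ((min_le_left _ _).trans ((min_le_left _ _).trans (min_le_right _ _)))
  have l3 : ε ≤ e3 := hεle.trans ((min_le_left _ _).trans ((min_le_right _ _).trans (min_le_left _ _)))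
  have l4 : ε ≤ e4 := hεle.trans ((min_le_left _ _).trans ((min_le_right _ _).trans (min_le_right _ _)))
  have l5 : ε ≤ e5 := hεle.trans ((min_le_right _ _).trans (min_le_left _ _))
  have b1 := H1 ε hε0 l1
  have b2 := H2 ε hε0 l2
  have b3 := H3 ε hε0 l3
  have b4 := H4 ε hε0 l4
  obtain ⟨κ, hκ, hκ1, hκ2⟩ := H5 ε hε0 l5
  rw [← hpe] at b1 b2 b3 b4
  rw [← hpe] at hκ
  have hX0 : chif d p ≠ 0 := by
    intro h0
    rw [h0] at b1
    have : 0 < ENNReal.ofReal (c1 / ε) := ENNReal.ofReal_pos.2 (by positivity)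
    exact absurd b1 (not_le.2 this)
  have hXt : chif d p ≠ ⊤ := ne_top_of_le_ne_top ENNReal.ofReal_ne_top b2
  refine ⟨⟨?_, ?_⟩, ⟨?_, ?_⟩, 1 / κ, ?_, ?_, ?_⟩
  · refine le_trans (ENNReal.ofReal_le_ofReal ?_) b1
    gcongr
    exact (min_le_left _ _).trans (min_le_left _ _)
  · refine le_trans b2 (ENNReal.ofReal_le_ofReal ?_)
    gcongr
    exact (le_max_left _ _).trans (le_max_left _ _)
  · rw [ENNReal.le_div_iff_mul_le (Or.inl hX0) (Or.inl hXt)]
    calc ENNReal.ofReal (min (min c1 c4) (1 / C5) / ε) * chif d p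
        ≤ ENNReal.ofReal (c4 / ε) * chif d p := by
          gcongr
          exact (min_le_left _ _).trans (min_le_right _ _)
      _ ≤ ∑' x : Vx d, (nm x : ℝ≥0∞) ^ 2 * tauf p x := b4
      _ ≤ ∑' x : Vx d, HDM.sqNorm x * tauf p x :=
          ENNReal.tsum_le_tsum fun x => mul_le_mul_left (le_sqNorm x) _
  · rw [ENNReal.div_le_iff hX0 hXt]
    calc ∑' x : Vx d, HDM.sqNorm x * tauf p x
        ≤ ∑' x : Vx d, d * ((nm x : ℝ≥0∞) ^ 2 * tauf p x) := by
          refine ENNReal.tsum_le_tsum fun x => ?_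
          rw [← mul_assoc]
          exact mul_le_mul_left (sqNorm_le x) _
      _ = d * ∑' x : Vx d, (nm x : ℝ≥0∞) ^ 2 * tauf p x := ENNReal.tsum_mul_left
      _ ≤ d * (ENNReal.ofReal (C3 / ε) * chif d p) := by gcongr
      _ = ENNReal.ofReal (d * C3 / ε) * chif d p := by
          rw [← mul_assoc, mul_div_assoc, ENNReal.ofReal_mul (by positivity),
            ENNReal.ofReal_natCast]
      _ ≤ ENNReal.ofReal (max (max C2 (d * C3)) (1 / c5) / ε) * chif d p := by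
          gcongr
          exact (le_max_right _ _).trans (le_max_left _ _)
  · simpa using hκ
  · have hs : 0 < √ε := Real.sqrt_pos.2 hε0
    have hκ0 : 0 < κ := lt_of_lt_of_le (by positivity) hκ1
    rw [div_le_div_iff₀ hs hκ0]
    have : min (min c1 c4) (1 / C5) ≤ 1 / C5 := min_le_right _ _
    calc min (min c1 c4) (1 / C5) * κ ≤ (1 / C5) * (C5 * √ε) := by gcongr
      _ = 1 * √ε := by field_simp
  · have hs : 0 < √ε := Real.sqrt_pos.2 hε0
    have hκ0 : 0 < κ := lt_of_lt_of_le (by positivity) hκ1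
    rw [div_le_div_iff₀ hκ0 hs]
    have h1 : 1 / c5 ≤ max (max C2 (d * C3)) (1 / c5) := le_max_right _ _
    calc 1 * √ε = (1 / c5) * (c5 * √ε) := by field_simp
      _ ≤ max (max C2 (d * C3)) (1 / c5) * κ := by gcongr

/-- The supercritical exponents. -/
theorem final : ∃ d₀ : ℕ, ∀ d : ℕ, d₀ ≤ d → ∃ c C ε : ℝ, 0 < c ∧ 0 < C ∧ 0 < ε ∧
    0 < HDM.pc d ∧ HDM.pc d + ε < 1 ∧ ∀ p : ℝ, HDM.pc d < p → p < HDM.pc d + ε →
      (ENNReal.ofReal (c / (p - HDM.pc d)) ≤ HDM.chiF d p ∧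
        HDM.chiF d p ≤ ENNReal.ofReal (C / (p - HDM.pc d))) ∧
      (ENNReal.ofReal (c / (p - HDM.pc d)) ≤ HDM.xi2sq d p ∧
        HDM.xi2sq d p ≤ ENNReal.ofReal (C / (p - HDM.pc d))) ∧
      ∃ ξ : ℝ, Tendsto (fun n : ℕ => -Real.log (HDM.tauF d p (HDM.axis d n)).toReal / n) atTop
          (𝓝 (1 / ξ)) ∧
        c / √(p - HDM.pc d) ≤ ξ ∧ ξ ≤ C / √(p - HDM.pc d) := by
  obtain ⟨d1, H⟩ := crit_exists 10000 le_rfl
  refine ⟨max d1 10000, fun d hd => ?_⟩
  obtain ⟨C0, hC⟩ := H d ((le_max_left _ _).trans hd) ((le_max_right _ _).trans hd)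
  obtain ⟨c, C, ε, h1, h2, h3, h4, h5, h6⟩ := super hC
  rw [pc_eq]
  refine ⟨c, C, ε, h1, h2, h3, h4, h5, fun p hp hp' => ?_⟩
  have hp0 : 0 ≤ p := h4.le.trans hp.le
  have hp1 : p ≤ 1 := hp'.le.trans h5.le
  obtain ⟨g1, g2, g3⟩ := h6 p hp hp'
  have et : ∀ x : Vx d, HDM.tauF d p x = tauf p x := tauF_eq hp0 hp1
  refine ⟨?_, ?_, ?_⟩
  · rw [chiF_eq hp0 hp1]
    exact g1
  · unfold HDM.xi2sq
    simp only [et, chiF_eq hp0 hp1]
    exact g2
  · simp only [et]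
    exact g3

end Pool.Agent.HD
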