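import Pool.Agent.Lib.MP_8ca597_hd.B04
import Pool.Agent.Lib.MP_8ca597_hd.A14

/-!
# Row N10: the Bonferroni bound, complete form

`bonf3'`: `bonf` (A08) has the additional term `tau p S a x` on the left side; the proof of `bonf2`, `bonf3` in
B04 (copy the private lemmas) gives it. `bonfI`: fix a finite set `E0` of exits of `S` in `W`; for large `n` apply
`bonf3'` in `V = W ∩ Bx d n` with `S ∩ Bx d n`; the right side is at most the infinite one; let `n → ∞`
(`tauI_seq`, all terms on the left side are monotone in `n`), then take the supremum over `E0`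
(`ENNReal.tsum_eq_iSup_sum`).
-/

set_option autoImplicit false

namespace Pool.Agent.HD

open Finset
open scoped ENNReal

variable {d : ℕ} {p : ℝ}

private theorem N10_symm (p : ℝ) (V : Finset (Vx d)) (x y : Vx d) : tau p V x y = tau p V y x :=
  PP_congr fun _ _ => ⟨fun h => Conn.symm h, fun h => Conn.symm h⟩

private theorem N10_first (hp : 0 ≤ p) (hp1 : p ≤ 1 / 2) {S V : Finset (Vx d)} (a x : Vx d)
    (q : Vx d × Vx d) : tau p S a q.1 * p * tau p V q.2 x ≤
      EE p (edges S) (fun T => if q.1 ∈ cl T S a then p * tau p (V \ cl T S a) q.2 x else 0) +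
      ∑ c ∈ S, p * PP p (edges S) {T | Conn T S a q.1 ∧ Conn T S a c} *
        (tau p V q.2 c * tau p V c x) := by
  classical
  have hp1' : p ≤ 1 := by linarith
  have h1 : tau p S a q.1 * p * tau p V q.2 x =
      EE p (edges S) (fun T => if q.1 ∈ cl T S a then p * tau p V q.2 x else 0) := by
    rw [tau_eq_EE, mul_assoc, ← EE_mul_const]
    refine EE_congr fun T _ => ?_
    by_cases h : q.1 ∈ cl T S a
    · rw [if_pos h, if_pos h, one_mul]
    · rw [if_neg h, if_neg h, zero_mul]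
  have h2 : ∑ c ∈ S, p * PP p (edges S) {T | Conn T S a q.1 ∧ Conn T S a c} *
        (tau p V q.2 c * tau p V c x) =
      EE p (edges S) (fun T => if q.1 ∈ cl T S a then
        p * ∑ c ∈ cl T S a, tau p V q.2 c * tau p V c x else 0) := by
    have h3 : ∀ c ∈ S, p * PP p (edges S) {T | Conn T S a q.1 ∧ Conn T S a c} *
        (tau p V q.2 c * tau p V c x) = EE p (edges S) (fun T =>
          if q.1 ∈ cl T S a ∧ c ∈ cl T S a then p * (tau p V q.2 c * tau p V c x) else 0) := by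
      intro c _
      rw [PP_def, mul_comm p, mul_assoc, ← EE_mul_const]
      refine EE_congr fun T _ => ?_
      by_cases h : q.1 ∈ cl T S a ∧ c ∈ cl T S a
      · rw [if_pos h, if_pos (show T ∈ {T : Finset (Ed d) | Conn T S a q.1 ∧ Conn T S a c} from
          ⟨mem_cl.1 h.1, mem_cl.1 h.2⟩), one_mul]
      · rw [if_neg h, if_neg (show T ∉ {T : Finset (Ed d) | Conn T S a q.1 ∧ Conn T S a c} from
          fun h' => h ⟨mem_cl.2 h'.1, mem_cl.2 h'.2⟩), zero_mul]
    rw [Finset.sum_congr rfl h3, ← EE_sum]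
    refine EE_congr fun T _ => ?_
    by_cases h : q.1 ∈ cl T S a
    · rw [if_pos h, Finset.mul_sum]
      have h4 : ∀ c ∈ S, (if q.1 ∈ cl T S a ∧ c ∈ cl T S a then
          p * (tau p V q.2 c * tau p V c x) else 0) =
          if c ∈ cl T S a then p * (tau p V q.2 c * tau p V c x) else 0 := by
        intro c _
        simp only [h, true_and]
      rw [Finset.sum_congr rfl h4, ← Finset.sum_filter]
      congr 1
      ext c
      rw [Finset.mem_filter]
      exact ⟨fun h => h.2, fun h => ⟨cl_subset T S a h, h⟩⟩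
    · rw [if_neg h]
      refine Finset.sum_eq_zero fun c _ => ?_
      rw [if_neg (fun h' => h h'.1)]
  rw [h1, h2, ← EE_add]
  refine EE_mono hp hp1' fun T _ => ?_
  by_cases h : q.1 ∈ cl T S a
  · rw [if_pos h, if_pos h, if_pos h, ← mul_add]
    exact mul_le_mul_of_nonneg_left (OFF hp hp1 V (cl T S a) q.2 x) hp
  · rw [if_neg h, if_neg h, if_neg h, add_zero]

private theorem N10_second (hp : 0 ≤ p) (hp1 : p ≤ 1 / 2) {S V : Finset (Vx d)} (a x : Vx d)
    (q q' : Vx d × Vx d) :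
    EE p (edges S) (fun T => if q.1 ∈ cl T S a ∧ q'.1 ∈ cl T S a then
        p ^ 2 * PP p (edges (V \ cl T S a)) {T' |
          Conn T' ((V \ cl T S a : Finset (Vx d)) : Set (Vx d)) q.2 x ∧
          Conn T' ((V \ cl T S a : Finset (Vx d)) : Set (Vx d)) q'.2 x} else 0) ≤
      p ^ 2 * PP p (edges S) {T | Conn T S a q.1 ∧ Conn T S a q'.1} *
        ∑ w ∈ V, tau p V q.2 w * tau p V q'.2 w * tau p V w x := by
  classical
  have hp1' : p ≤ 1 := by linarith
  have key : ∀ K : Finset (Vx d), PP p (edges (V \ K)) {T' |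
      Conn T' ((V \ K : Finset (Vx d)) : Set (Vx d)) q.2 x ∧
      Conn T' ((V \ K : Finset (Vx d)) : Set (Vx d)) q'.2 x} ≤
      ∑ w ∈ V, tau p V q.2 w * tau p V q'.2 w * tau p V w x := by
    intro K
    have h1 := TG hp hp1 (V \ K) x q.2 q'.2
    have h2 : PP p (edges (V \ K)) {T' |
      Conn T' ((V \ K : Finset (Vx d)) : Set (Vx d)) q.2 x ∧
      Conn T' ((V \ K : Finset (Vx d)) : Set (Vx d)) q'.2 x} = PP p (edges (V \ K)) {T |
        Conn T ((V \ K : Finset (Vx d)) : Set (Vx d)) x q.2 ∧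
        Conn T ((V \ K : Finset (Vx d)) : Set (Vx d)) x q'.2} :=
      PP_congr fun T _ => ⟨fun h => ⟨Conn.symm h.1, Conn.symm h.2⟩,
        fun h => ⟨Conn.symm h.1, Conn.symm h.2⟩⟩
    rw [h2]
    refine h1.trans ?_
    have h3 : ∀ w ∈ V \ K, tau p (V \ K) x w * tau p (V \ K) w q.2 * tau p (V \ K) w q'.2 ≤
        tau p V q.2 w * tau p V q'.2 w * tau p V w x := by
      intro w _
      have e1 : tau p (V \ K) x w ≤ tau p V w x := by
        rw [N10_symm p V w x]
        exact tau_mono hp hp1' Finset.sdiff_subset _ _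
      have e2 : tau p (V \ K) w q.2 ≤ tau p V q.2 w := by
        rw [N10_symm p V q.2 w]
        exact tau_mono hp hp1' Finset.sdiff_subset _ _
      have e3 : tau p (V \ K) w q'.2 ≤ tau p V q'.2 w := by
        rw [N10_symm p V q'.2 w]
        exact tau_mono hp hp1' Finset.sdiff_subset _ _
      calc tau p (V \ K) x w * tau p (V \ K) w q.2 * tau p (V \ K) w q'.2
          ≤ tau p V w x * tau p V q.2 w * tau p V q'.2 w := by
            refine mul_le_mul (mul_le_mul e1 e2 (tau_nonneg hp hp1' _ _ _)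
              (tau_nonneg hp hp1' _ _ _)) e3 (tau_nonneg hp hp1' _ _ _)
              (mul_nonneg (tau_nonneg hp hp1' _ _ _) (tau_nonneg hp hp1' _ _ _))
        _ = tau p V q.2 w * tau p V q'.2 w * tau p V w x := by ring
    refine (Finset.sum_le_sum h3).trans ?_
    refine Finset.sum_le_sum_of_subset_of_nonneg Finset.sdiff_subset fun w _ _ => ?_
    exact mul_nonneg (mul_nonneg (tau_nonneg hp hp1' _ _ _) (tau_nonneg hp hp1' _ _ _))
      (tau_nonneg hp hp1' _ _ _)
  have h4 : p ^ 2 * PP p (edges S) {T | Conn T S a q.1 ∧ Conn T S a q'.1} *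
        ∑ w ∈ V, tau p V q.2 w * tau p V q'.2 w * tau p V w x =
      EE p (edges S) (fun T => if q.1 ∈ cl T S a ∧ q'.1 ∈ cl T S a then
        p ^ 2 * ∑ w ∈ V, tau p V q.2 w * tau p V q'.2 w * tau p V w x else 0) := by
    rw [PP_def, mul_comm (p ^ 2), mul_assoc, ← EE_mul_const]
    refine EE_congr fun T _ => ?_
    by_cases h : q.1 ∈ cl T S a ∧ q'.1 ∈ cl T S a
    · rw [if_pos h, if_pos (show T ∈ {T : Finset (Ed d) | Conn T S a q.1 ∧ Conn T S a q'.1} from
        ⟨mem_cl.1 h.1, mem_cl.1 h.2⟩), one_mul]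
    · rw [if_neg h, if_neg (show T ∉ {T : Finset (Ed d) | Conn T S a q.1 ∧ Conn T S a q'.1} from
        fun h' => h ⟨mem_cl.2 h'.1, mem_cl.2 h'.2⟩), zero_mul]
  rw [h4]
  refine EE_mono hp hp1' fun T _ => ?_
  by_cases h : q.1 ∈ cl T S a ∧ q'.1 ∈ cl T S a
  · rw [if_pos h, if_pos h]
    exact mul_le_mul_of_nonneg_left (key _) (sq_nonneg p)
  · rw [if_neg h, if_neg h]

private theorem N10_bonf2 (hp : 0 ≤ p) (hp1 : p ≤ 1 / 2) {S V : Finset (Vx d)} (h : S ⊆ V) {a : Vx d}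
    (ha : a ∈ S) (x : Vx d) {E : Finset (Vx d × Vx d)} (hE : E ⊆ exits S V) :
    tau p S a x + ∑ q ∈ E, tau p S a q.1 * p * tau p V q.2 x ≤ tau p V a x +
      ∑ q ∈ E, ∑ c ∈ S, p * PP p (edges S) {T | Conn T S a q.1 ∧ Conn T S a c} *
        (tau p V q.2 c * tau p V c x) +
      ∑ q ∈ E, ∑ q' ∈ E.erase q, p ^ 2 * PP p (edges S) {T | Conn T S a q.1 ∧ Conn T S a q'.1} *
        ∑ w ∈ V, tau p V q.2 w * tau p V q'.2 w * tau p V w x := by
  classical
  have hp1' : p ≤ 1 := by linarith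
  have h1 := bonf hp hp1' h ha x hE
  have h2 : ∑ q ∈ E, tau p S a q.1 * p * tau p V q.2 x ≤
      ∑ q ∈ E, EE p (edges S) (fun T =>
        if q.1 ∈ cl T S a then p * tau p (V \ cl T S a) q.2 x else 0) +
      ∑ q ∈ E, ∑ c ∈ S, p * PP p (edges S) {T | Conn T S a q.1 ∧ Conn T S a c} *
        (tau p V q.2 c * tau p V c x) := by
    rw [← Finset.sum_add_distrib]
    exact Finset.sum_le_sum fun q _ => N10_first hp hp1 a x q
  have h3 : ∑ q ∈ E, ∑ q' ∈ E.erase q, EE p (edges S) (fun T =>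
      if q.1 ∈ cl T S a ∧ q'.1 ∈ cl T S a then
        p ^ 2 * PP p (edges (V \ cl T S a)) {T' |
          Conn T' ((V \ cl T S a : Finset (Vx d)) : Set (Vx d)) q.2 x ∧
          Conn T' ((V \ cl T S a : Finset (Vx d)) : Set (Vx d)) q'.2 x} else 0) ≤
      ∑ q ∈ E, ∑ q' ∈ E.erase q, p ^ 2 * PP p (edges S) {T | Conn T S a q.1 ∧ Conn T S a q'.1} *
        ∑ w ∈ V, tau p V q.2 w * tau p V q'.2 w * tau p V w x :=
    Finset.sum_le_sum fun q _ => Finset.sum_le_sum fun q' _ => N10_second hp hp1 a x q q'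
  linarith

theorem bonf3' (hp : 0 ≤ p) (hp1 : p ≤ 1 / 2) {S V : Finset (Vx d)} (h : S ⊆ V) {a : Vx d}
    (ha : a ∈ S) (x : Vx d) {E : Finset (Vx d × Vx d)} (hE : E ⊆ exits S V) :
    tau p S a x + ∑ q ∈ E, tau p S a q.1 * p * tau p V q.2 x ≤ tau p V a x +
      ∑ q ∈ E, ∑ z ∈ S, ∑ c ∈ S, tau p S a z * tau p S z q.1 * p * tau p S z c *
        (tau p V q.2 c * tau p V c x) +
      ∑ q ∈ E, ∑ q' ∈ E.erase q, ∑ z ∈ S, tau p S a z * tau p S z q.1 * tau p S z q'.1 * p ^ 2 *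
        ∑ w ∈ V, tau p V q.2 w * tau p V q'.2 w * tau p V w x := by
  have hp1' : p ≤ 1 := by linarith
  refine (N10_bonf2 hp hp1 h ha x hE).trans ?_
  refine add_le_add (add_le_add le_rfl (Finset.sum_le_sum fun q _ => ?_))
    (Finset.sum_le_sum fun q _ => Finset.sum_le_sum fun q' _ => ?_)
  · rw [Finset.sum_comm]
    refine Finset.sum_le_sum fun c _ => ?_
    have h1 := TG hp hp1 S a q.1 c
    have h2 : 0 ≤ tau p V q.2 c * tau p V c x :=
      mul_nonneg (tau_nonneg hp hp1' _ _ _) (tau_nonneg hp hp1' _ _ _)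
    calc p * PP p (edges S) {T | Conn T S a q.1 ∧ Conn T S a c} * (tau p V q.2 c * tau p V c x)
        ≤ p * (∑ w ∈ S, tau p S a w * tau p S w q.1 * tau p S w c) *
          (tau p V q.2 c * tau p V c x) :=
          mul_le_mul_of_nonneg_right (mul_le_mul_of_nonneg_left h1 hp) h2
      _ = _ := by
          rw [Finset.mul_sum, Finset.sum_mul]
          refine Finset.sum_congr rfl fun z _ => ?_
          ring
  · have h1 := TG hp hp1 S a q.1 q'.1
    have h2 : 0 ≤ ∑ w ∈ V, tau p V q.2 w * tau p V q'.2 w * tau p V w x :=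
      Finset.sum_nonneg fun w _ => mul_nonneg (mul_nonneg (tau_nonneg hp hp1' _ _ _)
        (tau_nonneg hp hp1' _ _ _)) (tau_nonneg hp hp1' _ _ _)
    generalize (∑ w ∈ V, tau p V q.2 w * tau p V q'.2 w * tau p V w x) = W at h2 ⊢
    calc p ^ 2 * PP p (edges S) {T | Conn T S a q.1 ∧ Conn T S a q'.1} * W
        ≤ p ^ 2 * (∑ w ∈ S, tau p S a w * tau p S w q.1 * tau p S w q'.1) * W :=
          mul_le_mul_of_nonneg_right (mul_le_mul_of_nonneg_left h1 (sq_nonneg p)) h2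
      _ = _ := by
          rw [Finset.mul_sum, Finset.sum_mul]
          refine Finset.sum_congr rfl fun z _ => ?_
          ring

private theorem N10_mul {a b : ℝ} {A B : ℝ≥0∞} (ha : 0 ≤ a) (h1 : ENNReal.ofReal a ≤ A)
    (h2 : ENNReal.ofReal b ≤ B) : ENNReal.ofReal (a * b) ≤ A * B := by
  rw [ENNReal.ofReal_mul ha]
  exact mul_le_mul' h1 h2

private theorem N10_sum {ι : Type} {s : Finset ι} {f : ι → ℝ} {F : ι → ℝ≥0∞}
    (h0 : ∀ i ∈ s, 0 ≤ f i) (h : ∀ i ∈ s, ENNReal.ofReal (f i) ≤ F i) :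
    ENNReal.ofReal (∑ i ∈ s, f i) ≤ ∑' i, F i := by
  rw [ENNReal.ofReal_sum_of_nonneg h0]
  exact (Finset.sum_le_sum h).trans (ENNReal.sum_le_tsum s)

open Classical in
private theorem N10_fin (hp : 0 ≤ p) (hp1 : p ≤ 1 / 2) {S W : Set (Vx d)} {S' V : Finset (Vx d)}
    (hS : (S' : Set (Vx d)) ⊆ S) (hV : (V : Set (Vx d)) ⊆ W) (h : S' ⊆ V) {a : Vx d}
    (ha : a ∈ S') (x : Vx d) (E0 : Finset (exI S W))
    (hE : ∀ q ∈ E0, q.1.1 ∈ S' ∧ q.1.2 ∈ V) :
    ENNReal.ofReal (tau p S' a x) + ∑ q ∈ E0, ENNReal.ofReal (tau p S' a q.1.1) *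
      ENNReal.ofReal p * ENNReal.ofReal (tau p V q.1.2 x) ≤
      tauI p W a x +
      (∑' q : exI S W, ∑' z : Vx d, ∑' c : Vx d, tauI p S a z * tauI p S z q.1.1 *
        ENNReal.ofReal p * tauI p S z c * (tauI p W q.1.2 c * tauI p W c x)) +
      ∑' q : exI S W, ∑' q' : exI S W, if q = q' then 0 else ∑' z : Vx d, tauI p S a z *
        tauI p S z q.1.1 * tauI p S z q'.1.1 * ENNReal.ofReal p ^ 2 *
        ∑' w : Vx d, tauI p W q.1.2 w * tauI p W q'.1.2 w * tauI p W w x := by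
  have hp1' : p ≤ 1 := by linarith
  have hn : ∀ (U : Finset (Vx d)) (y z : Vx d), 0 ≤ tau p U y z := fun U y z =>
    tau_nonneg hp hp1' U y z
  have tS : ∀ y z : Vx d, ENNReal.ofReal (tau p S' y z) ≤ tauI p S y z := fun y z =>
    le_tauI p hS y z
  have tW : ∀ y z : Vx d, ENNReal.ofReal (tau p V y z) ≤ tauI p W y z := fun y z =>
    le_tauI p hV y z
  have hsub : E0.map (Function.Embedding.subtype _) ⊆ exits S' V := by
    intro q hq
    obtain ⟨q0, hq0, rfl⟩ := Finset.mem_map.1 hq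
    have h1 := hE q0 hq0
    have h2 := q0.2
    simp only [exits, Finset.mem_filter, Finset.mem_product, Finset.mem_sdiff]
    exact ⟨⟨h1.1, h1.2, fun h3 => h2.2.2.1 (hS h3)⟩, h2.2.2.2⟩
  have main := ENNReal.ofReal_le_ofReal (bonf3' hp hp1 h ha x hsub)
  rw [Finset.sum_map, Finset.sum_map, Finset.sum_map] at main
  have hl : ENNReal.ofReal (tau p S' a x) + ∑ q ∈ E0, ENNReal.ofReal (tau p S' a q.1.1) *
      ENNReal.ofReal p * ENNReal.ofReal (tau p V q.1.2 x) =
      ENNReal.ofReal (tau p S' a x + ∑ q ∈ E0, tau p S' a q.1.1 * p * tau p V q.1.2 x) := by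
    rw [ENNReal.ofReal_add (hn _ _ _) (Finset.sum_nonneg fun q _ =>
      mul_nonneg (mul_nonneg (hn _ _ _) hp) (hn _ _ _)), ENNReal.ofReal_sum_of_nonneg
      (fun q _ => mul_nonneg (mul_nonneg (hn _ _ _) hp) (hn _ _ _))]
    congr 1
    refine Finset.sum_congr rfl fun q _ => ?_
    rw [ENNReal.ofReal_mul (mul_nonneg (hn _ _ _) hp), ENNReal.ofReal_mul (hn _ _ _)]
  rw [hl]
  refine (main.trans (ENNReal.ofReal_add_le.trans (add_le_add ENNReal.ofReal_add_le le_rfl))).trans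
    (add_le_add (add_le_add (tW a x) ?_) ?_)
  · refine N10_sum (fun q _ => Finset.sum_nonneg fun z _ => Finset.sum_nonneg fun c _ =>
      mul_nonneg (mul_nonneg (mul_nonneg (mul_nonneg (hn _ _ _) (hn _ _ _)) hp) (hn _ _ _))
        (mul_nonneg (hn _ _ _) (hn _ _ _))) fun q _ => ?_
    refine N10_sum (fun z _ => Finset.sum_nonneg fun c _ =>
      mul_nonneg (mul_nonneg (mul_nonneg (mul_nonneg (hn _ _ _) (hn _ _ _)) hp) (hn _ _ _))
        (mul_nonneg (hn _ _ _) (hn _ _ _))) fun z _ => ?_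
    refine N10_sum (fun c _ =>
      mul_nonneg (mul_nonneg (mul_nonneg (mul_nonneg (hn _ _ _) (hn _ _ _)) hp) (hn _ _ _))
        (mul_nonneg (hn _ _ _) (hn _ _ _))) fun c _ => ?_
    exact N10_mul (mul_nonneg (mul_nonneg (mul_nonneg (hn _ _ _) (hn _ _ _)) hp) (hn _ _ _))
      (N10_mul (mul_nonneg (mul_nonneg (hn _ _ _) (hn _ _ _)) hp)
        (N10_mul (mul_nonneg (hn _ _ _) (hn _ _ _))
          (N10_mul (hn _ _ _) (tS _ _) (tS _ _)) le_rfl) (tS _ _))
      (N10_mul (hn _ _ _) (tW _ _) (tW _ _))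
  · have hw : ∀ q q' : Vx d × Vx d, 0 ≤ ∑ w ∈ V, tau p V q.2 w * tau p V q'.2 w * tau p V w x :=
      fun q q' => Finset.sum_nonneg fun w _ => mul_nonneg (mul_nonneg (hn _ _ _) (hn _ _ _))
        (hn _ _ _)
    have hz : ∀ (q q' : Vx d × Vx d) (z : Vx d), 0 ≤ tau p S' a z * tau p S' z q.1 *
        tau p S' z q'.1 * p ^ 2 := fun q q' z => mul_nonneg (mul_nonneg (mul_nonneg (hn _ _ _)
          (hn _ _ _)) (hn _ _ _)) (sq_nonneg p)
    refine N10_sum (fun q _ => Finset.sum_nonneg fun q' _ => Finset.sum_nonneg fun z _ =>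
      mul_nonneg (hz _ _ _) (hw _ _)) fun q _ => ?_
    have e1 : (E0.map (Function.Embedding.subtype _)).erase
        ((Function.Embedding.subtype (fun q => q ∈ exI S W)) q) =
        (E0.erase q).map (Function.Embedding.subtype _) := by
      rw [Finset.map_erase]
    rw [e1, Finset.sum_map]
    refine N10_sum (fun q' _ => Finset.sum_nonneg fun z _ =>
      mul_nonneg (hz _ _ _) (hw _ _)) fun q' hq' => ?_
    rw [if_neg (fun hqq => (Finset.mem_erase.1 hq').1 hqq.symm)]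
    refine N10_sum (fun z _ => mul_nonneg (hz _ _ _) (hw _ _)) fun z _ => ?_
    refine N10_mul (hz _ _ _) ?_ ?_
    · refine N10_mul (mul_nonneg (mul_nonneg (hn _ _ _) (hn _ _ _)) (hn _ _ _))
        (N10_mul (mul_nonneg (hn _ _ _) (hn _ _ _)) (N10_mul (hn _ _ _) (tS _ _) (tS _ _))
          (tS _ _)) ?_
      rw [ENNReal.ofReal_pow hp]
    · refine N10_sum (fun w _ => mul_nonneg (mul_nonneg (hn _ _ _) (hn _ _ _)) (hn _ _ _))
        fun w _ => ?_
      exact N10_mul (mul_nonneg (hn _ _ _) (hn _ _ _)) (N10_mul (hn _ _ _) (tW _ _) (tW _ _))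
        (tW _ _)

open Classical in
theorem bonfI (hp : 0 ≤ p) (hp1 : p ≤ 1 / 2) {S W : Set (Vx d)} (h : S ⊆ W) {a : Vx d}
    (ha : a ∈ S) (x : Vx d) :
    tauI p S a x + ∑' q : exI S W, tauI p S a q.1.1 * ENNReal.ofReal p * tauI p W q.1.2 x ≤
      tauI p W a x +
      (∑' q : exI S W, ∑' z : Vx d, ∑' c : Vx d, tauI p S a z * tauI p S z q.1.1 *
        ENNReal.ofReal p * tauI p S z c * (tauI p W q.1.2 c * tauI p W c x)) +
      ∑' q : exI S W, ∑' q' : exI S W, if q = q' then 0 else ∑' z : Vx d, tauI p S a z *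
        tauI p S z q.1.1 * tauI p S z q'.1.1 * ENNReal.ofReal p ^ 2 *
        ∑' w : Vx d, tauI p W q.1.2 w * tauI p W q'.1.2 w * tauI p W w x := by
  have hp1' : p ≤ 1 := by linarith
  have fin := @N10_fin d p hp hp1 S W
  generalize hR : tauI p W a x +
      (∑' q : exI S W, ∑' z : Vx d, ∑' c : Vx d, tauI p S a z * tauI p S z q.1.1 *
        ENNReal.ofReal p * tauI p S z c * (tauI p W q.1.2 c * tauI p W c x)) +
      (∑' q : exI S W, ∑' q' : exI S W, if q = q' then 0 else ∑' z : Vx d, tauI p S a z *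
        tauI p S z q.1.1 * tauI p S z q'.1.1 * ENNReal.ofReal p ^ 2 *
        ∑' w : Vx d, tauI p W q.1.2 w * tauI p W q'.1.2 w * tauI p W w x) = R
  have hmono : ∀ (U : Set (Vx d)) (y z : Vx d),
      Monotone fun n : ℕ => ENNReal.ofReal (tau p ((Bx d n).filter (· ∈ U)) y z) := by
    intro U y z m n hmn
    refine ENNReal.ofReal_le_ofReal (tau_mono hp hp1' ?_ y z)
    exact Finset.filter_subset_filter _ fun y hy => mem_Bx.2 ((mem_Bx.1 hy).trans hmn)
  have hlim : ∀ (U : Set (Vx d)) (y z : Vx d), Filter.Tendsto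
      (fun n : ℕ => ENNReal.ofReal (tau p ((Bx d n).filter (· ∈ U)) y z)) Filter.atTop
      (nhds (tauI p U y z)) := by
    intro U y z
    rw [tauI_seq hp hp1' U y z]
    exact tendsto_atTop_iSup (hmono U y z)
  have hne : ∀ (U : Set (Vx d)) (y z : Vx d), tauI p U y z ≠ ⊤ := fun U y z =>
    ne_top_of_le_ne_top ENNReal.one_ne_top (tauI_le_one hp hp1' U y z)
  rw [ENNReal.tsum_eq_iSup_sum, ENNReal.add_iSup]
  refine iSup_le fun E0 => ?_
  have hlim2 : Filter.Tendsto (fun n : ℕ => ENNReal.ofReal (tau p ((Bx d n).filter (· ∈ S)) a x) +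
      ∑ q ∈ E0, ENNReal.ofReal (tau p ((Bx d n).filter (· ∈ S)) a q.1.1) *
        ENNReal.ofReal p * ENNReal.ofReal (tau p ((Bx d n).filter (· ∈ W)) q.1.2 x)) Filter.atTop
      (nhds (tauI p S a x + ∑ q ∈ E0, tauI p S a q.1.1 * ENNReal.ofReal p *
        tauI p W q.1.2 x)) := by
    refine (hlim S a x).add (tendsto_finsetSum E0 fun q _ => ?_)
    refine ENNReal.Tendsto.mul ?_ (Or.inr (hne _ _ _)) (hlim W q.1.2 x)
      (Or.inr (ENNReal.mul_ne_top (hne _ _ _) ENNReal.ofReal_ne_top))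
    exact ENNReal.Tendsto.mul_const (hlim S a q.1.1) (Or.inr ENNReal.ofReal_ne_top)
  refine le_of_tendsto hlim2 ?_
  have hBx : ∀ y : Vx d, ∀ᶠ n : ℕ in Filter.atTop, y ∈ Bx d n := by
    intro y
    filter_upwards [Filter.eventually_ge_atTop (nm y)] with n hn
    exact mem_Bx.2 hn
  have hE0 : ∀ᶠ n : ℕ in Filter.atTop, ∀ q ∈ E0, q.1.1 ∈ Bx d n ∧ q.1.2 ∈ Bx d n :=
    (Filter.eventually_all_finset E0).2 fun q _ => (hBx q.1.1).and (hBx q.1.2)
  filter_upwards [hBx a, hE0] with n h1 h2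
  rw [← hR]
  refine fin (S' := (Bx d n).filter (· ∈ S)) (V := (Bx d n).filter (· ∈ W)) ?_ ?_ ?_ ?_ x E0 ?_
  · intro y hy
    exact (Finset.mem_filter.1 (Finset.mem_coe.1 hy)).2
  · intro y hy
    exact (Finset.mem_filter.1 (Finset.mem_coe.1 hy)).2
  · intro y hy
    have := Finset.mem_filter.1 hy
    exact Finset.mem_filter.2 ⟨this.1, h this.2⟩
  · exact Finset.mem_filter.2 ⟨h1, ha⟩
  · intro q hq
    exact ⟨Finset.mem_filter.2 ⟨(h2 q hq).1, q.2.1⟩, Finset.mem_filter.2 ⟨(h2 q hq).2, q.2.2.1⟩⟩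

end Pool.Agent.HD
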