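import Pool.Agent.Lib.MP_8ca597_hd.B03

/-!
# Row N11: half-space sums

`Hs p e l` is the expected number of the vertices connected in the half-space to a vertex at depth `l` below
its top plane. `Rs_eq`: `lev p e (r + 1) 0 = lev p e 1 r` (`lev_rev`), sum over the depths. `Hs_le`: `SLI` with
`S = Hf e j`, `W = Hf e (j + 1)`, `j = 1, …, l`, summed over `z`: the exits lead to the top plane of `W`
(`mem_exI_box`-like: `q.2 = q.1 + uv e`), from where the sum is `Hs p e 0`, and the flux is `ff p e j`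
(`ff_eq_flux`). `chi_le_Hs`: the same and `l → ∞` (`tauI` of the union of the half-spaces is the supremum:
every finite `V` is contained in some `Hf e (l + 1)`). `sum_lev_eq`: reversal: translate by `-z`, as in
`lev_rev`. `plane_le`: for `j ≥ 0` the same telescoping for the `z` with `dt z e = j` only (start: `j ≥ 1`: no such
point in `Hf e j`; `j = 0`: `lev p e 1 0`), the sum over these `z` from a vertex of height `s` in `Hf e (s + 1)` is
`lev p e 1 (s - j) = lev p e (s - j + 1) 0`; for `j < 0` use the reflection `x ↦ -x` (`tt_neg`).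
-/

set_option autoImplicit false

namespace Pool.Agent.HD

open Finset
open scoped ENNReal

variable {d : ℕ} {p : ℝ}

/-- The sum of the half-space two-point function from depth `l` below the top plane. -/
noncomputable def Hs (p : ℝ) (e : Dir d) (l : ℕ) : ℝ≥0∞ :=
  ∑' z : Vx d, tauI p (Hf e ((l : ℤ) + 1)) 0 z

/-- The sum of the half-space fluxes. -/
noncomputable def Rs (p : ℝ) (e : Dir d) : ℝ≥0∞ := ∑' r : ℕ, ff p e ((r : ℤ) + 1)

private theorem N11_zero (e : Dir d) : dt (0 : Vx d) e = 0 := by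
  unfold dt
  rw [Pi.zero_apply, mul_zero]

private theorem N11_exit {e : Dir d} {r : ℤ} {q : Vx d × Vx d} (h1 : dt q.1 e ≤ r - 1)
    (h2 : ¬ dt q.2 e ≤ r - 1) (h3 : Adj q.1 q.2) : dt q.2 e = r := by
  obtain ⟨e', he⟩ := (adj_iff_uv q.1 q.2).1 h3
  rw [he, dt_add] at h2 ⊢
  by_cases hee : e' = e
  · subst hee
    rw [dt_uv] at h2 ⊢
    omega
  · have := dt_uv_le e' e hee
    omega

private theorem N11_image (e : Dir d) (r : ℤ) (v : Vx d) :
    (· + -v) '' Hf e r = Hf e (r - dt v e) := by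
  ext w
  constructor
  · rintro ⟨u, hu, rfl⟩
    have hu' : dt u e ≤ r - 1 := hu
    show dt (u + -v) e ≤ r - dt v e - 1
    rw [dt_add, dt_neg]
    omega
  · intro hw
    have hw' : dt w e ≤ r - dt v e - 1 := hw
    refine ⟨w + v, ?_, by simp⟩
    show dt (w + v) e ≤ r - 1
    rw [dt_add]
    omega

private theorem N11_shift (p : ℝ) (e : Dir d) (r : ℤ) (v z : Vx d) :
    tauI p (Hf e r) v z = tauI p (Hf e (r - dt v e)) 0 (z + -v) := by
  have h1 := tauI_add p (Hf e r) v z (-v)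
  rw [add_neg_cancel, N11_image] at h1
  exact h1.symm

private theorem N11_at (p : ℝ) (e : Dir d) (r : ℤ) (l : ℕ) (v : Vx d) :
    ∑' z : {z : Vx d // dt z e = r - 1 - l}, tauI p (Hf e r) v z = lev p e (r - dt v e) l := by
  unfold lev
  have hE : ∀ z : Vx d, dt z e = r - 1 - l ↔
      dt (Equiv.addRight (-v) z) e = r - dt v e - 1 - l := by
    intro z
    rw [Equiv.coe_addRight, dt_add, dt_neg]
    constructor <;> intro h <;> omega
  refine Eq.trans ?_ ((Equiv.subtypeEquiv (Equiv.addRight (-v)) hE).tsum_eq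
    (fun z : {z : Vx d // dt z e = r - dt v e - 1 - l} => tauI p (Hf e (r - dt v e)) 0 z.1))
  refine tsum_congr fun z => ?_
  exact N11_shift p e r v z.1

/-- The sum over all depths. -/
private theorem N11_levels (p : ℝ) (e : Dir d) (s : ℤ) (v : Vx d) :
    ∑' r : ℕ, ∑' z : {z : Vx d // dt z e = s - 1 - r}, tauI p (Hf e s) v z =
      ∑' z : Vx d, tauI p (Hf e s) v z := by
  classical
  have h1 : ∀ r : ℕ, ∑' z : {z : Vx d // dt z e = s - 1 - r}, tauI p (Hf e s) v z =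
      ∑' z : Vx d, if dt z e = s - 1 - r then tauI p (Hf e s) v z else 0 := by
    intro r
    have h2 := tsum_subtype {z : Vx d | dt z e = s - 1 - r} (fun z => tauI p (Hf e s) v z)
    refine h2.trans (tsum_congr fun z => ?_)
    by_cases h : dt z e = s - 1 - r
    · rw [Set.indicator_of_mem (show z ∈ {z : Vx d | dt z e = s - 1 - r} from h), if_pos h]
    · rw [Set.indicator_of_notMem (show z ∉ {z : Vx d | dt z e = s - 1 - r} from h), if_neg h]
  rw [tsum_congr h1, ENNReal.tsum_comm]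
  refine tsum_congr fun z => ?_
  by_cases hz : dt z e ≤ s - 1
  · obtain ⟨r₀, hr₀⟩ := Int.eq_ofNat_of_zero_le (show 0 ≤ s - 1 - dt z e by omega)
    rw [tsum_eq_single r₀]
    · rw [if_pos (by omega)]
    · intro r hr
      rw [if_neg]
      intro h
      apply hr
      omega
  · rw [tauI_zero_right p (show z ∉ Hf e s from hz)]
    simp

private theorem N11_sum_lev (p : ℝ) (e : Dir d) (l : ℕ) :
    ∑' r : ℕ, lev p e ((l : ℤ) + 1) r = Hs p e l := N11_levels p e ((l : ℤ) + 1) 0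

/-- Reversal. -/
private theorem N11_rev (p : ℝ) (e : Dir d) (r j : ℕ) :
    lev p e ((r : ℤ) + 1) j = lev p e ((j : ℤ) + 1) r := by
  unfold lev
  have hE : ∀ z : Vx d, dt z e = (r : ℤ) + 1 - 1 - j ↔
      dt (Equiv.neg (Vx d) z) e = (j : ℤ) + 1 - 1 - r := by
    intro z
    rw [Equiv.neg_apply, dt_neg]
    constructor <;> intro h <;> omega
  refine Eq.trans ?_ ((Equiv.subtypeEquiv (Equiv.neg (Vx d)) hE).tsum_eq
    (fun z : {z : Vx d // dt z e = (j : ℤ) + 1 - 1 - r} => tauI p (Hf e ((j : ℤ) + 1)) 0 z.1))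
  refine tsum_congr fun z => ?_
  show tauI p (Hf e ((r : ℤ) + 1)) 0 z.1 = tauI p (Hf e ((j : ℤ) + 1)) 0 (-z.1)
  rw [tauI_symm, N11_shift, zero_add]
  congr 2
  have := z.2
  omega

theorem Rs_eq (p : ℝ) (e : Dir d) : Rs p e = ENNReal.ofReal p * Hs p e 0 := by
  unfold Rs
  rw [← N11_sum_lev, ← ENNReal.tsum_mul_left]
  refine tsum_congr fun r => ?_
  show ENNReal.ofReal p * lev p e ((r : ℤ) + 1) 0 = _
  rw [N11_rev]

theorem sum_tauI_Hf (p : ℝ) (e : Dir d) {s : ℤ} {v : Vx d} {l : ℕ} (hv : dt v e = s - 1 - l) :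
    ∑' x : Vx d, tauI p (Hf e s) v x = Hs p e l := by
  unfold Hs
  refine Eq.trans ?_ ((Equiv.addRight (-v)).tsum_eq
    (fun z : Vx d => tauI p (Hf e ((l : ℤ) + 1)) 0 z))
  refine tsum_congr fun z => ?_
  rw [N11_shift, Equiv.coe_addRight]
  congr 2
  omega

/-- The basic inequality: the sum of SLI. -/
private theorem N11_main (hp : 0 ≤ p) (hp1 : p ≤ 1) (e : Dir d) {s : ℤ} (hs : 1 ≤ s)
    {ι : Type} (f : ι → Vx d) {c : ℝ≥0∞}
    (hc : ∀ v : Vx d, dt v e = s → ∑' i, tauI p (Hf e (s + 1)) v (f i) ≤ c) :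
    ∑' i, tauI p (Hf e (s + 1)) 0 (f i) ≤ ∑' i, tauI p (Hf e s) 0 (f i) + ff p e s * c := by
  have hS : Hf e s ⊆ Hf e (s + 1) := fun z hz => by
    have hz' : dt z e ≤ s - 1 := hz
    show dt z e ≤ s + 1 - 1
    omega
  have h0 : (0 : Vx d) ∈ Hf e s := by
    show dt (0 : Vx d) e ≤ s - 1
    rw [N11_zero]
    omega
  have h1 : ∑' i, tauI p (Hf e (s + 1)) 0 (f i) ≤ ∑' i, (tauI p (Hf e s) 0 (f i)
      + ∑' q : exI (Hf e s) (Hf e (s + 1)), tauI p (Hf e s) 0 q.1.1 * ENNReal.ofReal p *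
        tauI p (Hf e (s + 1)) q.1.2 (f i)) :=
    ENNReal.tsum_le_tsum fun i => SLI hp hp1 hS h0 (f i)
  refine h1.trans ?_
  rw [ENNReal.tsum_add]
  refine add_le_add le_rfl ?_
  rw [ENNReal.tsum_comm]
  have h2 : ∀ q : exI (Hf e s) (Hf e (s + 1)), ∑' i,
      tauI p (Hf e s) 0 q.1.1 * ENNReal.ofReal p * tauI p (Hf e (s + 1)) q.1.2 (f i)
      ≤ tauI p (Hf e s) 0 q.1.1 * ENNReal.ofReal p * c := by
    intro q
    obtain ⟨h3, h4, h5, h6⟩ := q.2
    rw [ENNReal.tsum_mul_left]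
    exact mul_le_mul' le_rfl (hc _ (N11_exit h3 h5 h6))
  refine (ENNReal.tsum_le_tsum h2).trans ?_
  rw [ENNReal.tsum_mul_right, ff_eq_flux p e s hs]
  refine mul_le_mul' ?_ le_rfl
  unfold flux
  exact ENNReal.tsum_mono_subtype
    (fun q : Vx d × Vx d => tauI p (Hf e s) 0 q.1 * ENNReal.ofReal p)
    (fun q hq => ⟨hq.1, Set.mem_univ _, hq.2.2⟩)

private theorem N11_Hs_succ (hp : 0 ≤ p) (hp1 : p ≤ 1) (e : Dir d) (l : ℕ) :
    Hs p e (l + 1) ≤ Hs p e l + ff p e ((l : ℤ) + 1) * Hs p e 0 := by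
  have h1 := N11_main hp hp1 e (s := (l : ℤ) + 1) (by omega) (fun z : Vx d => z)
    (c := Hs p e 0) (fun v hv => le_of_eq (sum_tauI_Hf p e (by
      rw [hv]
      push_cast
      ring)))
  unfold Hs at h1 ⊢
  have h2 : (((l + 1 : ℕ) : ℤ) + 1) = (l : ℤ) + 1 + 1 := by push_cast; ring
  rw [h2]
  exact h1

theorem Hs_le (hp : 0 ≤ p) (hp1 : p ≤ 1) {F : ℝ≥0∞} (hF : 1 ≤ F)
    (h1 : ∀ (e : Dir d) (r : ℤ), 1 ≤ r → ff p e r ≤ F) (e : Dir d) (l : ℕ) :
    Hs p e l ≤ (l + 1) * F * Hs p e 0 := by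
  induction l with
  | zero =>
    rw [Nat.cast_zero, zero_add, one_mul]
    exact le_mul_of_one_le_left zero_le hF
  | succ l ih =>
    have h3 : ((l + 1 : ℕ) : ℝ≥0∞) + 1 = ((l : ℝ≥0∞) + 1) + 1 := by push_cast; ring
    rw [h3, add_mul, add_mul, one_mul]
    refine (N11_Hs_succ hp hp1 e l).trans (add_le_add ih ?_)
    exact mul_le_mul' (h1 e _ (by omega)) le_rfl

private theorem N11_Hs_sum (hp : 0 ≤ p) (hp1 : p ≤ 1) (e : Dir d) (l : ℕ) :
    Hs p e l ≤ (1 + ∑ r ∈ range l, ff p e ((r : ℤ) + 1)) * Hs p e 0 := by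
  induction l with
  | zero => rw [range_zero, sum_empty, add_zero, one_mul]
  | succ l ih =>
    rw [sum_range_succ, ← add_assoc, add_mul]
    exact (N11_Hs_succ hp hp1 e l).trans (add_le_add ih le_rfl)

/-- The exhaustion of the space by half-spaces. -/
private theorem N11_sup (p : ℝ) (hp : 0 ≤ p) (hp1 : p ≤ 1) (e : Dir d) {ι : Type} (f : ι → Vx d)
    {c : ℝ≥0∞} (h : ∀ l : ℕ, ∑' i, tauI p (Hf e ((l : ℤ) + 1)) 0 (f i) ≤ c) :
    ∑' i, tt p (f i) ≤ c := by
  have hmono : ∀ i, Monotone fun l : ℕ => tauI p (Hf e ((l : ℤ) + 1)) 0 (f i) := by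
    intro i l l' hl
    refine tauI_mono hp hp1 (fun z hz => ?_) _ _
    have hz' : dt z e ≤ (l : ℤ) + 1 - 1 := hz
    show dt z e ≤ (l' : ℤ) + 1 - 1
    have : (l : ℤ) ≤ l' := by exact_mod_cast hl
    omega
  have h1 : ∀ i, tt p (f i) ≤ ⨆ l : ℕ, tauI p (Hf e ((l : ℤ) + 1)) 0 (f i) := by
    intro i
    refine tauI_le fun V _ => ?_
    obtain ⟨n, hn⟩ := exists_box V
    refine le_trans (le_tauI p ?_ 0 (f i))
      (le_iSup (fun l : ℕ => tauI p (Hf e ((l : ℤ) + 1)) 0 (f i)) n)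
    intro z hz
    have h2 : nm z ≤ n := mem_Bx.1 (hn (mem_coe.1 hz))
    have h3 := abs_dt_le z e
    have h4 := le_abs_self (dt z e)
    show dt z e ≤ (n : ℤ) + 1 - 1
    have h5 : ((nm z : ℕ) : ℤ) ≤ n := by exact_mod_cast h2
    omega
  refine (ENNReal.tsum_le_tsum h1).trans ?_
  rw [ENNReal.tsum_eq_iSup_sum]
  refine iSup_le fun s => ?_
  rw [ENNReal.finsetSum_iSup_of_monotone hmono]
  exact iSup_le fun l => (ENNReal.sum_le_tsum s).trans (h l)

theorem chi_le_Hs (hp : 0 ≤ p) (hp1 : p ≤ 1) (e : Dir d) :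
    chi d p ≤ (1 + Rs p e) * Hs p e 0 := by
  refine N11_sup p hp hp1 e (fun z : Vx d => z) fun l => ?_
  refine (N11_Hs_sum hp hp1 e l).trans (mul_le_mul' (add_le_add le_rfl ?_) le_rfl)
  exact ENNReal.sum_le_tsum (f := fun r : ℕ => ff p e ((r : ℤ) + 1)) (range l)

theorem sum_lev_eq (p : ℝ) (e : Dir d) (j : ℕ) :
    ∑' r : ℕ, lev p e ((r : ℤ) + 1) j = Hs p e j := by
  rw [← N11_sum_lev]
  exact tsum_congr fun r => N11_rev p e r j

private theorem N11_plane (hp : 0 ≤ p) (hp1 : p ≤ 1) {F : ℝ≥0∞} (hF : 1 ≤ F)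
    (h1 : ∀ (e : Dir d) (r : ℤ), 1 ≤ r → ff p e r ≤ F) (e : Dir d) (n s : ℕ) :
    ∑' z : {z : Vx d // dt z e = n}, tauI p (Hf e ((s : ℤ) + 1)) 0 z.1 ≤
      F * ∑ i ∈ range (s + 1 - n), lev p e 1 i := by
  have hzero : ∀ t : ℕ, t < n →
      ∑' z : {z : Vx d // dt z e = n}, tauI p (Hf e ((t : ℤ) + 1)) 0 z.1 = 0 := by
    intro t ht
    rw [ENNReal.tsum_eq_zero]
    intro z
    refine tauI_zero_right p ?_ 0
    intro hz
    have hz' : dt z.1 e ≤ (t : ℤ) + 1 - 1 := hz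
    have := z.2
    rw [this] at hz'
    omega
  induction s with
  | zero =>
    rcases Nat.eq_zero_or_pos n with hn | hn
    · subst hn
      have h2 : ∑' z : {z : Vx d // dt z e = ((0 : ℕ) : ℤ)}, tauI p (Hf e (((0 : ℕ) : ℤ) + 1)) 0 z.1
          = lev p e 1 0 := by
        unfold lev
        simp
      rw [h2]
      simp only [Nat.sub_zero, zero_add, range_one, sum_singleton]
      exact le_mul_of_one_le_left zero_le hF
    · rw [hzero 0 hn]
      exact zero_le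
  | succ s ih =>
    by_cases hn : s + 1 < n
    · rw [hzero (s + 1) hn]
      exact zero_le
    · have h2 := N11_main hp hp1 e (s := (s : ℤ) + 1) (by omega)
        (fun z : {z : Vx d // dt z e = n} => z.1) (c := lev p e 1 (s + 1 - n)) (by
          intro v hv
          have h3 := N11_at p e ((s : ℤ) + 1 + 1) (s + 1 - n) v
          have h4 : (s : ℤ) + 1 + 1 - dt v e = 1 := by omega
          rw [h4] at h3
          rw [← h3]
          refine le_of_eq ?_
          have h5 : ∀ z : Vx d, dt z e = n ↔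
              dt (Equiv.refl (Vx d) z) e = (s : ℤ) + 1 + 1 - 1 - ((s + 1 - n : ℕ) : ℤ) := by
            intro z
            rw [Equiv.refl_apply]
            constructor <;> intro h <;> omega
          exact (Equiv.subtypeEquiv (Equiv.refl (Vx d)) h5).tsum_eq
            (fun z : {z : Vx d // dt z e = (s : ℤ) + 1 + 1 - 1 - ((s + 1 - n : ℕ) : ℤ)} =>
              tauI p (Hf e ((s : ℤ) + 1 + 1)) v z.1))
      have h6 : (((s + 1 : ℕ) : ℤ) + 1) = (s : ℤ) + 1 + 1 := by push_cast; ring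
      have h7 : s + 1 + 1 - n = (s + 1 - n) + 1 := by omega
      rw [h6, h7, sum_range_succ, mul_add]
      exact h2.trans (add_le_add ih (mul_le_mul' (h1 e _ (by omega)) le_rfl))

private theorem N11_plane_nat (hp : 0 ≤ p) (hp1 : p ≤ 1) {F : ℝ≥0∞} (hF : 1 ≤ F)
    (h1 : ∀ (e : Dir d) (r : ℤ), 1 ≤ r → ff p e r ≤ F) (e : Dir d) (n : ℕ) :
    ENNReal.ofReal p * ∑' z : {z : Vx d // dt z e = n}, tt p z.1 ≤ F * Rs p e := by
  have h2 : ∑' z : {z : Vx d // dt z e = n}, tt p z.1 ≤ F * Hs p e 0 := by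
    refine N11_sup p hp hp1 e (fun z : {z : Vx d // dt z e = n} => z.1) fun l => ?_
    refine (N11_plane hp hp1 hF h1 e n l).trans (mul_le_mul' le_rfl ?_)
    have h3 := N11_sum_lev p e 0
    rw [← h3]
    have h4 : ((0 : ℕ) : ℤ) + 1 = 1 := by norm_num
    rw [h4]
    exact ENNReal.sum_le_tsum _
  rw [Rs_eq]
  calc ENNReal.ofReal p * ∑' z : {z : Vx d // dt z e = n}, tt p z.1
      ≤ ENNReal.ofReal p * (F * Hs p e 0) := mul_le_mul' le_rfl h2
    _ = F * (ENNReal.ofReal p * Hs p e 0) := by ring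

theorem plane_le (hp : 0 ≤ p) (hp1 : p ≤ 1) {F : ℝ≥0∞} (hF : 1 ≤ F)
    (h1 : ∀ (e : Dir d) (r : ℤ), 1 ≤ r → ff p e r ≤ F) (e : Dir d) (j : ℤ) :
    ENNReal.ofReal p * ∑' z : {z : Vx d // dt z e = j}, tt p z.1 ≤ F * Rs p e := by
  rcases le_total 0 j with hj | hj
  · obtain ⟨n, rfl⟩ := Int.eq_ofNat_of_zero_le hj
    exact N11_plane_nat hp hp1 hF h1 e n
  · obtain ⟨n, hn⟩ := Int.eq_ofNat_of_zero_le (show 0 ≤ -j by omega)
    refine le_trans (le_of_eq ?_) (N11_plane_nat hp hp1 hF h1 e n)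
    congr 1
    have hE : ∀ z : Vx d, dt z e = j ↔ dt (Equiv.neg (Vx d) z) e = n := by
      intro z
      rw [Equiv.neg_apply, dt_neg]
      constructor <;> intro h <;> omega
    refine Eq.trans ?_ ((Equiv.subtypeEquiv (Equiv.neg (Vx d)) hE).tsum_eq
      (fun z : {z : Vx d // dt z e = n} => tt p z.1))
    refine tsum_congr fun z => ?_
    show tt p z.1 = tt p (-z.1)
    rw [tt_neg]

end Pool.Agent.HD
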