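import Pool.Agent.Lib.MP_8ca597_hd.S02
import Pool.Agent.Lib.MP_8ca597_hd.A17

/-!
# Row S03: the probability that a finite set is not joined to the boundary (A2)

From `escape` (A17) and `flux_set` (S02): for `S ⊆ Bx d n \ Bd d n` the exits of `S` in `Bx d n` and in
`nbh S` are the same. If `kap bb Z < 0` the bound is trivial. `Disjoint Z (JJ n T)` iff no `z ∈ Z` is
connected to a vertex of `Bd d n` in `Bx d n`. `escape_zero`: `Z = {0}`, `κ = 1`, `FluxGe`.
-/

set_option autoImplicit false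

namespace Pool.Agent.HD

open Finset
open scoped ENNReal

variable {d : ℕ}

private theorem s03_disjoint {n : ℕ} {T : Finset (Ed d)} {Z : Finset (Vx d)} :
    Disjoint Z (JJ n T) ↔
      ¬ ∃ z ∈ Z, ∃ b ∈ Bd d n, Conn T (Bx d n : Finset (Vx d)) z b := by
  unfold JJ
  rw [Finset.disjoint_left]
  constructor
  · rintro h ⟨z, hz, b, hb, hc⟩
    exact h hz (mem_clS.mpr ⟨b, hb, hc.symm⟩)
  · intro h z hz hz'
    obtain ⟨b, hb, hc⟩ := mem_clS.mp hz'
    exact h ⟨z, hz, b, hb, hc.symm⟩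

private theorem s03_exits {n : ℕ} {S : Finset (Vx d)} (hS : S ⊆ Bx d n \ Bd d n) :
    exits S (Bx d n) = exits S (nbh S) := by
  ext q
  rw [mem_exits, mem_exits]
  constructor
  · rintro ⟨h1, _, h3, h4⟩
    exact ⟨h1, mem_nbh.mpr (Or.inr ⟨q.1, h1, h4⟩), h3, h4⟩
  · rintro ⟨h1, _, h3, h4⟩
    refine ⟨h1, mem_Bx.mpr ?_, h3, h4⟩
    have h5 := hS h1
    rw [Finset.mem_sdiff, mem_Bx, mem_Bd] at h5
    have h6 := nm_adj h4
    omega

/-- The probability that `Z` is not joined to the boundary of the box. -/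
theorem escape_set {p0 p : ℝ} (hp0 : 0 < p0) (hp : p0 ≤ p) (hp1 : p ≤ 1) {bb : Vx d → ℝ}
    (hF : FluxGe d p0) (hb : Ker d p0 bb) {n : ℕ} {Z : Finset (Vx d)} (hZ : Z ⊆ Bx d n) :
    PP p (edges (Bx d n)) {T | Disjoint Z (JJ n T)} ≤
      Real.exp (-(kap bb Z * ((p - p0) / p0))) := by
  have hp1' : p0 ≤ 1 := hp.trans hp1
  have hp' : 0 ≤ p := hp0.le.trans hp
  have hr : 0 ≤ (p - p0) / p0 := div_nonneg (sub_nonneg.mpr hp) hp0.le
  by_cases hk : 0 ≤ kap bb Z
  · have h := escape hp0 Z hZ hk (fun S hZS hS => by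
      have h1 := flux_set hp0.le hp1' hF hb S Z hZS
      rw [s03_exits hS, Finset.mul_sum]
      exact h1) hp hp1
    rw [← mul_div_assoc]
    refine le_trans (le_of_eq (PP_congr fun T _ => ?_)) h
    exact s03_disjoint
  · refine (PP_le_one hp' hp1).trans ?_
    rw [← Real.exp_zero]
    apply Real.exp_le_exp.mpr
    have h2 : kap bb Z * ((p - p0) / p0) ≤ 0 :=
      mul_nonpos_of_nonpos_of_nonneg (not_le.mp hk).le hr
    linarith

/-- The probability that the origin is not joined to the boundary. -/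
theorem escape_zero {p0 p : ℝ} (hp0 : 0 < p0) (hp : p0 ≤ p) (hp1 : p ≤ 1) (hF : FluxGe d p0)
    (n : ℕ) :
    PP p (edges (Bx d n)) {T | (0 : Vx d) ∉ JJ n T} ≤ Real.exp (-((p - p0) / p0)) := by
  have hp1' : p0 ≤ 1 := hp.trans hp1
  have hZ : ({0} : Finset (Vx d)) ⊆ Bx d n := by
    rw [Finset.singleton_subset_iff, mem_Bx]
    simp [nm]
  have h := escape hp0 {0} hZ zero_le_one (fun S hZS hS => by
    have h0 : (0 : Vx d) ∈ S := hZS (Finset.mem_singleton_self _)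
    have h1 := hF S 0 h0
    rw [s03_exits hS, Finset.mul_sum]
    refine h1.trans (le_of_eq (Finset.sum_congr rfl fun q _ => ?_))
    rw [mul_comm]
    congr 1
    unfold tau
    refine PP_congr fun T _ => ?_
    simp) hp hp1
  rw [one_mul] at h
  refine le_trans (le_of_eq (PP_congr fun T _ => ?_)) h
  rw [Set.mem_ofPred_eq, Set.mem_ofPred_eq, ← s03_disjoint, Finset.disjoint_singleton_left]

theorem cap_nonneg (bb : Vx d → ℝ) (K : Finset (Vx d)) : 0 ≤ cap bb K := by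
  have h : kap bb ∅ ≤ cap bb K := by
    unfold cap
    exact Finset.le_sup' (kap bb) (Finset.empty_mem_powerset K)
  rwa [kap_empty] at h

theorem kap_le_cap (bb : Vx d → ℝ) {Z K : Finset (Vx d)} (h : Z ⊆ K) : kap bb Z ≤ cap bb K := by
  unfold cap
  exact Finset.le_sup' (kap bb) (Finset.mem_powerset.mpr h)

theorem cap_mono (bb : Vx d → ℝ) {K K' : Finset (Vx d)} (h : K ⊆ K') :
    cap bb K ≤ cap bb K' := by
  conv_lhs => unfold cap
  refine Finset.sup'_le _ _ fun Z hZ => ?_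
  exact kap_le_cap bb ((Finset.mem_powerset.mp hZ).trans h)

theorem exists_cap (bb : Vx d → ℝ) (K : Finset (Vx d)) : ∃ Z ⊆ K, kap bb Z = cap bb K := by
  obtain ⟨Z, hZ, h⟩ := Finset.exists_mem_eq_sup' (s := K.powerset)
    ⟨∅, Finset.empty_mem_powerset K⟩ (kap bb)
  exact ⟨Z, Finset.mem_powerset.mp hZ, h.symm⟩

theorem cap_le_card {bb : Vx d → ℝ} (hb : ∀ x, 0 ≤ bb x) (K : Finset (Vx d)) :
    cap bb K ≤ K.card := by
  obtain ⟨Z, hZ, h⟩ := exists_cap bb K
  rw [← h]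
  have h1 : 0 ≤ en bb Z := Finset.sum_nonneg fun z _ => Finset.sum_nonneg fun z' _ => hb _
  have h2 : (Z.card : ℝ) ≤ K.card := by exact_mod_cast Finset.card_le_card hZ
  unfold kap
  linarith

theorem escape_cap {p0 p : ℝ} (hp0 : 0 < p0) (hp : p0 ≤ p) (hp1 : p ≤ 1) {bb : Vx d → ℝ}
    (hF : FluxGe d p0) (hb : Ker d p0 bb) {n : ℕ} {K : Finset (Vx d)} (hK : K ⊆ Bx d n) :
    PP p (edges (Bx d n)) {T | Disjoint K (JJ n T)} ≤
      Real.exp (-(cap bb K * ((p - p0) / p0))) := by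
  obtain ⟨Z, hZ, h⟩ := exists_cap bb K
  rw [← h]
  refine le_trans (PP_mono (hp0.le.trans hp) hp1 fun T _ hT => ?_)
    (escape_set hp0 hp hp1 hF hb (hZ.trans hK))
  exact Disjoint.mono_left hZ hT

end Pool.Agent.HD
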