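import Pool.Agent.Lib.MP_8ca597_hd.S09
import Pool.Agent.Lib.MP_8ca597_hd.S03
import Pool.Agent.Lib.MP_8ca597_hd.Crit

/-!
# Row S10: the volume near the critical point (A6.2, A6.3)

Upper bounds: `vv_le_chi` at `pc - pc / (2 √n)` with `Crit.chi_le`, then `vv_growth` (`p1 = pc / 2`).
`Pge ≤ vv / n`. `theta ≤ Pge n` with `n = ⌊ε⁻²⌋`. For `n ≥ ε⁻²` use `Pge_anti`. Lower bounds: for `p < pc` and
`V ⊇ Bx d n`, `|C| ∧ n ≥ |C| - |C|² / n` and `EE |C|² ≤ chi³` (`TG`, sum over `x, y`), so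
`vv ≥ chi - chi³ / n`; `p = pc - A / √n`, `chi_ge` (A19), `chi_le`, `A` a large constant, `n ≥ (2 A / pc)²`;
for smaller `n` use `one_le_vv`. `Pge_ge`: `vv (K n) ≤ vv n + (K - 1) n Pge n` (`vv_eq_sum`, `Pge_anti`),
`K` a large constant.
-/

set_option autoImplicit false

namespace Pool.Agent.HD

open Finset
open scoped ENNReal

variable {m d : ℕ} {h : m ≤ d} {C : ℝ}

theorem Crit.pos (hc : Crit m d h C) : 0 < d := by
  have := hc.m_ge
  omega

theorem Crit.pc_lo (hc : Crit m d h C) : 1 / (2 * d : ℝ) ≤ pc d := pc_pos hc.pos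

private theorem S10_pc (hc : Crit m d h C) : 0 < pc d := by
  have h1 := hc.pc_lo
  have h2 : (0 : ℝ) < d := by exact_mod_cast hc.pos
  have h3 : (0 : ℝ) < 1 / (2 * d) := by positivity
  linarith

theorem Crit.fluxGe (hc : Crit m d h C) : FluxGe d (pc d) := by
  intro S a ha
  have h0 := S10_pc hc
  have h1 := hc.pc_hi
  have h2 := flux_pc hc.pos (by linarith) S a ha
  rw [flux_finset h0.le (by linarith), ENNReal.one_le_ofReal] at h2
  rw [← Finset.sum_mul, mul_comm]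
  exact h2

private theorem S10_vv0 (hc : Crit m d h C) {n : ℕ} (hn : 1 ≤ n) :
    vv d (pc d - pc d / (2 * √n)) n ≤ 2 * C / pc d * √n := by
  have h0 := S10_pc hc
  have h1 := hc.pc_hi
  have hn1 : (1 : ℝ) ≤ √n := Real.one_le_sqrt.2 (by exact_mod_cast hn)
  have h2 : 0 < pc d / (2 * √n) := by positivity
  have h3 : pc d / (2 * √n) ≤ pc d / 2 := by
    apply div_le_div_of_nonneg_left h0.le (by norm_num) (by linarith)
  have h4 := vv_le_chi (d := d) (p := pc d - pc d / (2 * √n)) (by linarith) (by linarith) n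
  have h5 := hc.chi_le (pc d - pc d / (2 * √n)) (by linarith) (by linarith)
  have hC := hc.one_le
  have h6 : C / (pc d - (pc d - pc d / (2 * √n))) = 2 * C / pc d * √n := by
    field_simp
    ring
  rw [h6] at h5
  exact (ENNReal.ofReal_le_ofReal_iff (by positivity)).1 (h4.trans h5)

theorem vv_le (hc : Crit m d h C) (A : ℝ) : ∃ C' : ℝ, 0 < C' ∧ ∀ (p : ℝ) (n : ℕ), 0 ≤ p →
    p ≤ 1 / 2 → 1 ≤ n → p - pc d ≤ A / √n → vv d p n ≤ C' * √n := by
  have h0 := S10_pc hc
  have h1 := hc.pc_hi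
  have hC := hc.one_le
  refine ⟨2 * C / pc d * Real.exp (√(8 * d / pc d) * (|A| + pc d / 2)), by positivity, ?_⟩
  intro p n hp hp1 hn hpn
  have hn1 : (1 : ℝ) ≤ √n := Real.one_le_sqrt.2 (by exact_mod_cast hn)
  have h2 : 0 < pc d / (2 * √n) := by positivity
  have h3 : pc d / (2 * √n) ≤ pc d / 2 := by
    apply div_le_div_of_nonneg_left h0.le (by norm_num) (by linarith)
  have h4 := S10_vv0 hc hn
  have h5 : (1 : ℝ) ≤ Real.exp (√(8 * d / pc d) * (|A| + pc d / 2)) := by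
    apply Real.one_le_exp
    positivity
  rcases le_total p (pc d - pc d / (2 * √n)) with hle | hle
  · have h6 := vv_mono_p (d := d) hp hle (by linarith) n
    refine h6.trans (h4.trans ?_)
    rw [mul_right_comm]
    exact le_mul_of_one_le_right (by positivity) h5
  · have h6 := vv_growth (d := d) (p1 := pc d / 2) (p := pc d - pc d / (2 * √n)) (p' := p)
      (by linarith) (by linarith) hle hp1 n
    have h7 : √(4 * d * n / (pc d / 2)) * (p - (pc d - pc d / (2 * √n))) ≤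
        √(8 * d / pc d) * (|A| + pc d / 2) := by
      have e1 : √(4 * d * n / (pc d / 2)) = √(8 * d / pc d) * √n := by
        rw [← Real.sqrt_mul (by positivity)]
        congr 1
        field_simp
        ring
      rw [e1, mul_assoc]
      refine mul_le_mul_of_nonneg_left ?_ (Real.sqrt_nonneg _)
      have e2 : p - (pc d - pc d / (2 * √n)) ≤ (|A| + pc d / 2) / √n := by
        have e3 : (|A| + pc d / 2) / √n = |A| / √n + pc d / (2 * √n) := by
          field_simp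
        rw [e3]
        have e4 : A / √n ≤ |A| / √n := by
          apply div_le_div_of_nonneg_right (le_abs_self A) (by positivity)
        linarith
      calc √n * (p - (pc d - pc d / (2 * √n))) ≤ √n * ((|A| + pc d / 2) / √n) :=
            mul_le_mul_of_nonneg_left e2 (by positivity)
        _ = |A| + pc d / 2 := by field_simp
    calc vv d p n ≤ _ := h6
      _ ≤ (2 * C / pc d * √n) * Real.exp (√(8 * d / pc d) * (|A| + pc d / 2)) :=
          mul_le_mul h4 (Real.exp_le_exp.2 h7) (Real.exp_nonneg _) (by positivity)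
      _ = _ := by ring

theorem Pge_le (hc : Crit m d h C) (A : ℝ) : ∃ C' : ℝ, 0 < C' ∧ ∀ (p : ℝ) (n : ℕ), 0 ≤ p →
    p ≤ 1 / 2 → 1 ≤ n → p - pc d ≤ A / √n → Pge d p n ≤ C' / √n := by
  obtain ⟨C', h1, h2⟩ := vv_le hc A
  refine ⟨C', h1, fun p n hp hp1 hn hpn => ?_⟩
  have h3 := h2 p n hp hp1 hn hpn
  have h4 := mul_Pge_le (d := d) hp (by linarith) n
  have hn1 : (1 : ℝ) ≤ √n := Real.one_le_sqrt.2 (by exact_mod_cast hn)
  have h5 : √(n : ℝ) * √n = n := Real.mul_self_sqrt (by positivity)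
  rw [le_div_iff₀ (by positivity)]
  have h6 : √(n : ℝ) * (Pge d p n * √n) ≤ √n * C' := by
    calc √(n : ℝ) * (Pge d p n * √n) = (√n * √n) * Pge d p n := by ring
      _ = n * Pge d p n := by rw [h5]
      _ ≤ _ := h4.trans h3
      _ = _ := by ring
  exact le_of_mul_le_mul_left h6 (by positivity)

/-- A number of size `ε⁻²`. -/
private theorem S10_n {ε : ℝ} (h0 : 0 < ε) (h1 : ε ≤ 1 / 2) : ∃ n : ℕ, 1 ≤ n ∧ ε ≤ 1 / √n ∧
    1 / √n ≤ 2 * ε ∧ (n : ℝ) ≤ 1 / ε ^ 2 := by
  have h2 : (4 : ℝ) ≤ 1 / ε ^ 2 := by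
    rw [le_div_iff₀ (by positivity)]
    nlinarith
  have h3 : ((⌊1 / ε ^ 2⌋₊ : ℕ) : ℝ) ≤ 1 / ε ^ 2 := Nat.floor_le (by positivity)
  have h4 : 1 / ε ^ 2 < (⌊1 / ε ^ 2⌋₊ : ℕ) + 1 := Nat.lt_floor_add_one _
  have h5 : (1 : ℝ) ≤ (⌊1 / ε ^ 2⌋₊ : ℕ) := by linarith
  have h6 : (0 : ℝ) < √(⌊1 / ε ^ 2⌋₊ : ℕ) := Real.sqrt_pos.2 (by linarith)
  refine ⟨⌊1 / ε ^ 2⌋₊, by exact_mod_cast h5, ?_, ?_, h3⟩
  · rw [le_div_iff₀ h6]
    have h7 : √((⌊1 / ε ^ 2⌋₊ : ℕ) : ℝ) ≤ 1 / ε := by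
      rw [Real.sqrt_le_left (by positivity)]
      rw [div_pow, one_pow]
      exact h3
    calc ε * √(⌊1 / ε ^ 2⌋₊ : ℕ) ≤ ε * (1 / ε) := mul_le_mul_of_nonneg_left h7 h0.le
      _ = 1 := by field_simp
  · rw [div_le_iff₀ h6]
    have h7 : 1 / (2 * ε) ≤ √((⌊1 / ε ^ 2⌋₊ : ℕ) : ℝ) := by
      apply Real.le_sqrt_of_sq_le
      have h8 : (1 / (2 * ε)) ^ 2 = 1 / ε ^ 2 / 4 := by
        field_simp
        ring
      rw [h8]
      linarith
    calc (1 : ℝ) = 2 * ε * (1 / (2 * ε)) := by field_simp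
      _ ≤ _ := mul_le_mul_of_nonneg_left h7 (by positivity)

theorem theta_le (hc : Crit m d h C) : ∃ C' : ℝ, 0 < C' ∧ ∀ ε : ℝ, 0 < ε → pc d + ε ≤ 1 / 2 →
    theta d (pc d + ε) ≤ ENNReal.ofReal (C' * ε) := by
  have h0 := S10_pc hc
  obtain ⟨C', h1, h2⟩ := Pge_le hc 1
  refine ⟨2 * C', by positivity, fun ε hε hε1 => ?_⟩
  obtain ⟨n, hn, h3, h4, _⟩ := S10_n hε (by linarith)
  refine (theta_le_Pge (by linarith) (by linarith) n).trans (ENNReal.ofReal_le_ofReal ?_)
  have h5 := h2 (pc d + ε) n (by linarith) hε1 hn (by linarith)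
  calc Pge d (pc d + ε) n ≤ C' / √n := h5
    _ = C' * (1 / √n) := by ring
    _ ≤ C' * (2 * ε) := mul_le_mul_of_nonneg_left h4 h1.le
    _ = _ := by ring

theorem Pge_le' (hc : Crit m d h C) : ∃ C' : ℝ, 0 < C' ∧ ∀ (ε : ℝ) (n : ℕ), 0 < ε →
    pc d + ε ≤ 1 / 2 → 1 ≤ n → Pge d (pc d + ε) n ≤ C' * (1 / √n + ε) := by
  have h0 := S10_pc hc
  obtain ⟨C', h1, h2⟩ := Pge_le hc 1
  refine ⟨2 * C', by positivity, fun ε n hε hε1 hn => ?_⟩
  have hn1 : (1 : ℝ) ≤ √n := Real.one_le_sqrt.2 (by exact_mod_cast hn)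
  have hn2 : 0 < 1 / √(n : ℝ) := by positivity
  rcases le_total ε (1 / √n) with hle | hle
  · have h5 := h2 (pc d + ε) n (by linarith) hε1 hn (by linarith)
    calc Pge d (pc d + ε) n ≤ C' / √n := h5
      _ = C' * (1 / √n) := by ring
      _ ≤ 2 * C' * (1 / √n + ε) := by nlinarith
  · obtain ⟨n0, hn0, h3, h4, h5⟩ := S10_n hε (by linarith)
    have h6 : n0 ≤ n := by
      have h7 : (n0 : ℝ) ≤ n := by
        refine h5.trans ?_
        rw [div_le_iff₀ (by positivity)]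
        have h8 : 1 ≤ ε * √n := by
          rw [div_le_iff₀ (by positivity)] at hle
          exact hle
        have h9 : √(n : ℝ) * √n = n := Real.mul_self_sqrt (by positivity)
        nlinarith [mul_nonneg hε.le (Real.sqrt_nonneg (n : ℝ))]
      exact_mod_cast h7
    have h7 := h2 (pc d + ε) n0 (by linarith) hε1 hn0 (by linarith)
    calc Pge d (pc d + ε) n ≤ Pge d (pc d + ε) n0 := Pge_anti (by linarith) (by linarith) h6
      _ ≤ C' / √n0 := h7
      _ = C' * (1 / √n0) := by ring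
      _ ≤ C' * (2 * ε) := mul_le_mul_of_nonneg_left h4 h1.le
      _ ≤ 2 * C' * (1 / √n + ε) := by nlinarith

open Classical in
private theorem S10_card (T : Finset (Ed d)) (V : Finset (Vx d)) (a : Vx d) :
    ((cl T V a).card : ℝ) = ∑ x ∈ V, if Conn T V a x then (1 : ℝ) else 0 := by
  unfold cl
  rw [Finset.card_filter]
  push_cast
  refine Finset.sum_congr rfl fun x _ => ?_
  congr

/-- The mean volume of the cluster. -/
private theorem S10_mean (p : ℝ) (V : Finset (Vx d)) (a : Vx d) :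
    (EE p (edges V) fun T => ((cl T V a).card : ℝ)) = ∑ x ∈ V, tau p V a x := by
  classical
  have h1 : (EE p (edges V) fun T => ((cl T V a).card : ℝ)) =
      EE p (edges V) fun T => ∑ x ∈ V, if Conn T V a x then (1 : ℝ) else 0 :=
    EE_congr fun T _ => S10_card T V a
  rw [h1, EE_sum]
  refine Finset.sum_congr rfl fun x _ => ?_
  unfold tau
  rw [PP_def]
  congr!

private theorem S10_sum_tau {p : ℝ} (hp : 0 ≤ p) (hp1 : p ≤ 1) (V : Finset (Vx d)) (w : Vx d) :
    ∑ x ∈ V, ENNReal.ofReal (tau p V w x) ≤ chi d p := by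
  calc ∑ x ∈ V, ENNReal.ofReal (tau p V w x) ≤ ∑ x ∈ V, tt p (x - w) := by
        refine Finset.sum_le_sum fun x _ => ?_
        exact (le_tauI p (subset_refl _) w x).trans (tauI_le_tt hp hp1 _ w x)
    _ ≤ ∑' x : Vx d, tt p (x - w) := ENNReal.sum_le_tsum _
    _ = chi d p := (Equiv.subRight w).tsum_eq (fun x => tt p x)

theorem second_moment_le {p : ℝ} (hp : 0 ≤ p) (hp1 : p ≤ 1 / 2) (V : Finset (Vx d)) :
    ENNReal.ofReal (EE p (edges V) fun T => ((cl T V 0).card : ℝ) ^ 2) ≤ chi d p ^ 3 := by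
  classical
  have hp1' : p ≤ 1 := by linarith
  have ht : ∀ a x : Vx d, 0 ≤ tau p V a x := fun a x => tau_nonneg hp hp1' V a x
  have h1 : (EE p (edges V) fun T => ((cl T V 0).card : ℝ) ^ 2) =
      ∑ x ∈ V, ∑ y ∈ V, PP p (edges V) {T | Conn T V 0 x ∧ Conn T V 0 y} := by
    have h2 : (EE p (edges V) fun T => ((cl T V 0).card : ℝ) ^ 2) =
        EE p (edges V) fun T => ∑ x ∈ V, ∑ y ∈ V,
          if T ∈ {T : Finset (Ed d) | Conn T V 0 x ∧ Conn T V 0 y} then (1 : ℝ) else 0 := by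
      refine EE_congr fun T _ => ?_
      rw [sq, S10_card, Finset.sum_mul_sum]
      refine Finset.sum_congr rfl fun x _ => Finset.sum_congr rfl fun y _ => ?_
      by_cases hx : Conn T V 0 x <;> by_cases hy : Conn T V 0 y <;> simp [hx, hy]
    rw [h2, EE_sum]
    refine Finset.sum_congr rfl fun x _ => ?_
    rw [EE_sum]
    refine Finset.sum_congr rfl fun y _ => ?_
    rw [PP_def]
    congr!
  have h3 : (EE p (edges V) fun T => ((cl T V 0).card : ℝ) ^ 2) ≤
      ∑ w ∈ V, tau p V 0 w * ((∑ x ∈ V, tau p V w x) * ∑ y ∈ V, tau p V w y) := by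
    rw [h1]
    calc ∑ x ∈ V, ∑ y ∈ V, PP p (edges V) {T | Conn T V 0 x ∧ Conn T V 0 y}
        ≤ ∑ x ∈ V, ∑ y ∈ V, ∑ w ∈ V, tau p V 0 w * tau p V w x * tau p V w y :=
          Finset.sum_le_sum fun x _ => Finset.sum_le_sum fun y _ => TG hp hp1 V 0 x y
      _ = ∑ x ∈ V, ∑ w ∈ V, ∑ y ∈ V, tau p V 0 w * tau p V w x * tau p V w y :=
          Finset.sum_congr rfl fun x _ => Finset.sum_comm
      _ = ∑ w ∈ V, ∑ x ∈ V, ∑ y ∈ V, tau p V 0 w * tau p V w x * tau p V w y :=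
          Finset.sum_comm
      _ = _ := by
          refine Finset.sum_congr rfl fun w _ => ?_
          rw [Finset.sum_mul_sum, Finset.mul_sum]
          refine Finset.sum_congr rfl fun x _ => ?_
          rw [Finset.mul_sum]
          refine Finset.sum_congr rfl fun y _ => ?_
          ring
  refine (ENNReal.ofReal_le_ofReal h3).trans ?_
  rw [ENNReal.ofReal_sum_of_nonneg (fun w _ => mul_nonneg (ht 0 w) (mul_nonneg
    (Finset.sum_nonneg fun x _ => ht w x) (Finset.sum_nonneg fun x _ => ht w x)))]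
  calc ∑ w ∈ V, ENNReal.ofReal (tau p V 0 w * ((∑ x ∈ V, tau p V w x) * ∑ y ∈ V, tau p V w y))
      ≤ ∑ w ∈ V, ENNReal.ofReal (tau p V 0 w) * (chi d p * chi d p) := by
        refine Finset.sum_le_sum fun w _ => ?_
        rw [ENNReal.ofReal_mul (ht 0 w), ENNReal.ofReal_mul (Finset.sum_nonneg fun x _ => ht w x),
          ENNReal.ofReal_sum_of_nonneg (fun x _ => ht w x)]
        exact mul_le_mul' le_rfl (mul_le_mul' (S10_sum_tau hp hp1' V w) (S10_sum_tau hp hp1' V w))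
    _ = (∑ w ∈ V, ENNReal.ofReal (tau p V 0 w)) * (chi d p * chi d p) := by
        rw [Finset.sum_mul]
    _ ≤ chi d p * (chi d p * chi d p) := mul_le_mul' (S10_sum_tau hp hp1' V 0) le_rfl
    _ = chi d p ^ 3 := by ring

/-- The susceptibility is bounded by the volume of the cluster in large finite domains. -/
private theorem S10_chi_le {p : ℝ} (hp : 0 ≤ p) (hp1 : p ≤ 1) (n : ℕ) {c : ℝ}
    (hc : ∀ k, n ≤ k → (EE p (edges (Bx d k)) fun T => ((cl T (Bx d k) 0).card : ℝ)) ≤ c) :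
    chi d p ≤ ENNReal.ofReal c := by
  classical
  unfold chi
  rw [ENNReal.tsum_eq_iSup_sum]
  refine iSup_le fun s => ?_
  have hBx : ∀ {i j : ℕ}, i ≤ j → Bx d i ⊆ Bx d j := fun {i j} hij x hx => by
    rw [mem_Bx] at hx ⊢
    exact hx.trans hij
  have h1 : ∀ x : Vx d, tt p x = ⨆ k : ℕ, ENNReal.ofReal (tau p (Bx d k) 0 x) := by
    intro x
    unfold tt
    rw [tauI_seq hp hp1 Set.univ 0 x]
    refine iSup_congr fun k => ?_
    congr 2
    ext y
    simp
  have h2 : ∑ x ∈ s, tt p x = ⨆ k : ℕ, ∑ x ∈ s, ENNReal.ofReal (tau p (Bx d k) 0 x) := by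
    rw [← ENNReal.finsetSum_iSup_of_monotone]
    · exact Finset.sum_congr rfl fun x _ => h1 x
    · intro x i j hij
      exact ENNReal.ofReal_le_ofReal (tau_mono hp hp1 (hBx hij) 0 x)
  rw [h2]
  refine iSup_le fun k => ?_
  calc ∑ x ∈ s, ENNReal.ofReal (tau p (Bx d k) 0 x)
      ≤ ∑ x ∈ s, ENNReal.ofReal (tau p (Bx d (max k n)) 0 x) :=
        Finset.sum_le_sum fun x _ =>
          ENNReal.ofReal_le_ofReal (tau_mono hp hp1 (hBx (le_max_left k n)) 0 x)
    _ ≤ ∑ x ∈ s ∪ Bx d (max k n), ENNReal.ofReal (tau p (Bx d (max k n)) 0 x) :=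
        Finset.sum_le_sum_of_subset Finset.subset_union_left
    _ = ∑ x ∈ Bx d (max k n), ENNReal.ofReal (tau p (Bx d (max k n)) 0 x) := by
        symm
        apply Finset.sum_subset Finset.subset_union_right
        intro x _ hx
        rw [tau_zero_right p hx, ENNReal.ofReal_zero]
    _ = ENNReal.ofReal (∑ x ∈ Bx d (max k n), tau p (Bx d (max k n)) 0 x) :=
        (ENNReal.ofReal_sum_of_nonneg fun x _ => tau_nonneg hp hp1 _ 0 x).symm
    _ ≤ ENNReal.ofReal c := by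
        rw [← S10_mean]
        exact ENNReal.ofReal_le_ofReal (hc _ (le_max_right k n))

/-- `vv ≥ chi - chi³ / n`. -/
private theorem S10_lower {p X : ℝ} (hp : 0 ≤ p) (hp1 : p ≤ 1 / 2) (hX : 0 ≤ X)
    (hchi : chi d p = ENNReal.ofReal X) {n : ℕ} (hn : 1 ≤ n) : X ≤ vv d p n + X ^ 3 / n := by
  have hp1' : p ≤ 1 := by linarith
  have hn0 : (0 : ℝ) < n := by exact_mod_cast hn
  have hBx : ∀ {i j : ℕ}, i ≤ j → Bx d i ⊆ Bx d j := fun {i j} hij x hx => by
    rw [mem_Bx] at hx ⊢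
    exact hx.trans hij
  have hv : 0 ≤ vv d p n := EE_nonneg hp hp1' fun T _ => Nat.cast_nonneg _
  have h1 : chi d p ≤ ENNReal.ofReal (vv d p n + X ^ 3 / n) := by
    refine S10_chi_le hp hp1' n fun k hk => ?_
    have h2 := second_moment_le hp hp1 (Bx d k)
    rw [hchi, ← ENNReal.ofReal_pow hX, ENNReal.ofReal_le_ofReal_iff (by positivity)] at h2
    have h3 : (EE p (edges (Bx d k)) fun T => ((cl T (Bx d k) 0).card : ℝ)) ≤
        EE p (edges (Bx d k)) (fun T => ((min (cl T (Bx d k) 0).card n : ℕ) : ℝ)) +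
          EE p (edges (Bx d k)) (fun T => ((cl T (Bx d k) 0).card : ℝ) ^ 2) * (1 / n) := by
      rw [← EE_mul_const, ← EE_add]
      refine EE_mono hp hp1' fun T _ => ?_
      set c : ℝ := ((cl T (Bx d k) 0).card : ℝ) with hcdef
      have hc0 : 0 ≤ c := Nat.cast_nonneg _
      rw [Nat.cast_min, ← hcdef]
      rcases le_total c n with hcn | hcn
      · rw [min_eq_left hcn]
        have : 0 ≤ c ^ 2 * (1 / n) := by positivity
        linarith
      · rw [min_eq_right hcn]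
        have h4 : c ^ 2 * (1 / n) = c ^ 2 / n := by ring
        rw [h4, ← sub_le_iff_le_add', le_div_iff₀ hn0]
        nlinarith
    rw [vv_eq p (hBx hk)] at h3
    refine h3.trans ?_
    have h5 : X ^ 3 / n = X ^ 3 * (1 / n) := by ring
    rw [h5]
    gcongr
  rw [hchi] at h1
  exact (ENNReal.ofReal_le_ofReal_iff (by positivity)).1 h1

theorem vv_ge (hc : Crit m d h C) : ∃ c : ℝ, 0 < c ∧ ∀ n : ℕ, c * √n ≤ vv d (pc d) n := by
  have h0 := S10_pc hc
  have h1 := hc.pc_hi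
  have hC := hc.one_le
  have hd : (0 : ℝ) < d := by exact_mod_cast hc.pos
  refine ⟨min (1 / (16 * d * C)) (pc d / (4 * C)), by positivity, fun n => ?_⟩
  rcases Nat.eq_zero_or_pos n with rfl | hn
  · have : 0 ≤ vv d (pc d) 0 := EE_nonneg h0.le (by linarith) fun T _ => Nat.cast_nonneg _
    simpa using this
  have hn0 : (0 : ℝ) < n := by exact_mod_cast hn
  have hs : (0 : ℝ) < √n := Real.sqrt_pos.2 hn0
  by_cases hsm : √(n : ℝ) < 4 * C / pc d
  · have h2 := one_le_vv (d := d) h0.le (by linarith : pc d ≤ 1) hn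
    refine le_trans ?_ h2
    calc min (1 / (16 * d * C)) (pc d / (4 * C)) * √n ≤ pc d / (4 * C) * (4 * C / pc d) := by
          gcongr
          exact min_le_right _ _
      _ = 1 := by field_simp
  rw [not_lt] at hsm
  have h2 : 2 * C / √n ≤ pc d / 2 := by
    rw [div_le_iff₀ hs]
    rw [div_le_iff₀ h0] at hsm
    linarith
  have h2' : 0 < 2 * C / √n := by positivity
  set p : ℝ := pc d - 2 * C / √n with hpdef
  have hp : 0 ≤ p := by linarith
  have hpp : p < pc d := by linarith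
  have hp1 : p ≤ 1 / 2 := by linarith
  have hfin : chi d p < ⊤ := sub_chi hp (by linarith) (sub_of_lt hp hpp)
  obtain ⟨X, hX, hchi⟩ : ∃ X : ℝ, 0 ≤ X ∧ chi d p = ENNReal.ofReal X :=
    ⟨(chi d p).toReal, ENNReal.toReal_nonneg, (ENNReal.ofReal_toReal hfin.ne).symm⟩
  have h3 := S10_lower (d := d) hp hp1 hX hchi hn
  have hdiff : pc d - p = 2 * C / √n := by rw [hpdef]; ring
  have h4 := hc.chi_le p hp hpp
  rw [hchi, hdiff, ENNReal.ofReal_le_ofReal_iff (by positivity)] at h4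
  have h4' : X ≤ √n / 2 := by
    refine h4.trans (le_of_eq ?_)
    field_simp
  have h5 := chi_ge hc.pos (by linarith : pc d < 1) hp hpp
  rw [hchi, hdiff, ENNReal.ofReal_le_ofReal_iff hX] at h5
  have h5' : √n / (8 * d * C) ≤ X := by
    refine le_trans ?_ h5
    have e1 : (1 - p) / (2 * d * (2 * C / √n)) = (1 - p) * 2 * (√n / (8 * d * C)) := by
      field_simp
      ring
    rw [e1]
    have e2 : 0 < √(n : ℝ) / (8 * d * C) := by positivity
    nlinarith
  have h6 : X ^ 3 / n ≤ X / 4 := by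
    rw [div_le_iff₀ hn0]
    have h7 : √(n : ℝ) * √n = n := Real.mul_self_sqrt hn0.le
    have h8 : X ^ 2 ≤ n / 4 := by nlinarith
    calc X ^ 3 = X * X ^ 2 := by ring
      _ ≤ X * (n / 4) := mul_le_mul_of_nonneg_left h8 hX
      _ = X / 4 * n := by ring
  have h7 : X / 2 ≤ vv d p n := by linarith
  have h8 := vv_mono_p (d := d) hp hpp.le (by linarith) n
  calc min (1 / (16 * d * C)) (pc d / (4 * C)) * √n ≤ 1 / (16 * d * C) * √n := by
        gcongr
        exact min_le_left _ _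
    _ = √n / (8 * d * C) / 2 := by
        field_simp
        ring
    _ ≤ X / 2 := by linarith
    _ ≤ _ := h7.trans h8

theorem Pge_ge (hc : Crit m d h C) : ∃ c : ℝ, 0 < c ∧ ∀ n : ℕ, 1 ≤ n →
    c / √n ≤ Pge d (pc d) n := by
  have h0 := S10_pc hc
  have h1 := hc.pc_hi
  obtain ⟨c0, hc0, hlow⟩ := vv_ge hc
  obtain ⟨C0, hC0, hup⟩ := vv_le hc 0
  obtain ⟨K, hK⟩ := exists_nat_ge ((2 * C0 / c0) ^ 2 + 1)
  have hK1 : (1 : ℝ) ≤ K := by
    have : 0 ≤ (2 * C0 / c0) ^ 2 := by positivity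
    linarith
  have hK1' : 1 ≤ K := by exact_mod_cast hK1
  have hKs : 2 * C0 ≤ c0 * √K := by
    have h2 : 2 * C0 / c0 ≤ √K := Real.le_sqrt_of_sq_le (by linarith)
    rw [div_le_iff₀ hc0] at h2
    linarith
  refine ⟨C0 / K, by positivity, fun n hn => ?_⟩
  have hn0 : (0 : ℝ) < n := by exact_mod_cast hn
  have hs : (0 : ℝ) < √n := Real.sqrt_pos.2 hn0
  have h2 : vv d (pc d) (K * n) ≤ vv d (pc d) n + (K * n - n : ℕ) * Pge d (pc d) n := by
    rw [vv_eq_sum, vv_eq_sum]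
    have hle : n ≤ K * n := Nat.le_mul_of_pos_left n hK1'
    have h3 : Icc 1 (K * n) = Icc 1 n ∪ Ioc n (K * n) := by
      ext k
      simp only [Finset.mem_union, Finset.mem_Icc, Finset.mem_Ioc]
      omega
    have h4 : Disjoint (Icc 1 n) (Ioc n (K * n)) := by
      rw [Finset.disjoint_left]
      intro k
      simp only [Finset.mem_Icc, Finset.mem_Ioc]
      omega
    rw [h3, Finset.sum_union h4]
    have h5 : ∑ k ∈ Ioc n (K * n), Pge d (pc d) k ≤ (K * n - n : ℕ) * Pge d (pc d) n := by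
      calc ∑ k ∈ Ioc n (K * n), Pge d (pc d) k ≤ ∑ _k ∈ Ioc n (K * n), Pge d (pc d) n :=
            Finset.sum_le_sum fun k hk => Pge_anti h0.le (by linarith) (Finset.mem_Ioc.1 hk).1.le
        _ = _ := by
            rw [Finset.sum_const, Nat.card_Ioc, nsmul_eq_mul]
    linarith
  have h3 := hlow (K * n)
  have h4 := hup (pc d) n h0.le (by linarith) hn (by rw [sub_self]; positivity)
  have h5 : √((K * n : ℕ) : ℝ) = √K * √n := by
    rw [Nat.cast_mul, Real.sqrt_mul (by positivity)]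
  rw [h5] at h3
  have hP := Pge_nonneg (d := d) h0.le (by linarith : pc d ≤ 1) n
  have h6 : ((K * n - n : ℕ) : ℝ) * Pge d (pc d) n ≤ K * n * Pge d (pc d) n := by
    refine mul_le_mul_of_nonneg_right ?_ hP
    calc ((K * n - n : ℕ) : ℝ) ≤ ((K * n : ℕ) : ℝ) := by exact_mod_cast Nat.sub_le _ _
      _ = K * n := by push_cast; ring
  have h7 : C0 * √n ≤ K * n * Pge d (pc d) n := by
    have h8 : 2 * C0 * √n ≤ c0 * √K * √n := mul_le_mul_of_nonneg_right hKs hs.le
    have h9 : c0 * (√K * √n) = c0 * √K * √n := by ring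
    linarith
  have h8 : √(n : ℝ) * √n = n := Real.mul_self_sqrt hn0.le
  rw [div_le_iff₀ hs, div_le_iff₀ (by positivity)]
  have h9 : C0 * √n ≤ (Pge d (pc d) n * √n * K) * √n := by
    calc C0 * √n ≤ K * n * Pge d (pc d) n := h7
      _ = K * (√n * √n) * Pge d (pc d) n := by rw [h8]
      _ = _ := by ring
  exact le_of_mul_le_mul_right h9 hs

/-- A13: the lower bound of the truncated susceptibility. -/
theorem chif_ge (hc : Crit m d h C) : ∃ c : ℝ, 0 < c ∧ ∀ ε : ℝ, 0 < ε → ε ≤ c →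
    ENNReal.ofReal (c / ε) ≤ chif d (pc d + ε) := by
  classical
  have h0 := S10_pc hc
  have h1 := hc.pc_hi
  obtain ⟨c0, hc0, hlow⟩ := Pge_ge hc
  obtain ⟨C0, hC0, hth⟩ := theta_le hc
  -- `δ = (c0 / (2 C0))²`
  set s : ℝ := c0 / (2 * C0) with hsdef
  have hs : 0 < s := by positivity
  refine ⟨min (s ^ 2 * C0 / 2) (min (s / 2) (1 / 4)), by positivity, fun ε hε hεc => ?_⟩
  have hε1 : ε ≤ 1 / 4 := hεc.trans ((min_le_right _ _).trans (min_le_right _ _))
  have hε2 : ε ≤ s / 2 := hεc.trans ((min_le_right _ _).trans (min_le_left _ _))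
  have hp : 0 ≤ pc d + ε := by linarith
  have hp1 : pc d + ε ≤ 1 / 2 := by linarith
  set N : ℕ := ⌊s ^ 2 / ε ^ 2⌋₊ with hN
  have hN1 : (N : ℝ) ≤ s ^ 2 / ε ^ 2 := Nat.floor_le (by positivity)
  have hN2 : s ^ 2 / ε ^ 2 < N + 1 := Nat.lt_floor_add_one _
  have h4 : (4 : ℝ) ≤ s ^ 2 / ε ^ 2 := by
    rw [le_div_iff₀ (by positivity)]
    nlinarith
  have hN3 : s ^ 2 / ε ^ 2 / 2 ≤ N := by linarith
  -- the terms
  have hterm : ∀ k ∈ Icc 1 N, ENNReal.ofReal (C0 * ε) ≤
      EF (pc d + ε) (fun K : Finset (Vx d) => if k ≤ K.card then 1 else 0) := by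
    intro k hk
    rw [Finset.mem_Icc] at hk
    have hk0 : (0 : ℝ) < k := by exact_mod_cast hk.1
    have hkN : (k : ℝ) ≤ N := by exact_mod_cast hk.2
    have h5 := EF_ge (d := d) hp (by linarith : pc d + ε ≤ 1) k
    have h6 := hth ε hε hp1
    have h7 : 2 * (C0 * ε) ≤ Pge d (pc d + ε) k := by
      refine le_trans ?_ ((hlow k hk.1).trans (Pge_mono_p h0.le (by linarith) (by linarith) k))
      have h8 : √(k : ℝ) ≤ s / ε := by
        rw [Real.sqrt_le_left (by positivity), div_pow]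
        exact hkN.trans hN1
      rw [le_div_iff₀ (Real.sqrt_pos.2 hk0)]
      calc 2 * (C0 * ε) * √k ≤ 2 * (C0 * ε) * (s / ε) := by gcongr
        _ = c0 := by
            rw [hsdef]
            field_simp
    have h8 : ENNReal.ofReal (C0 * ε) + ENNReal.ofReal (C0 * ε) ≤
        EF (pc d + ε) (fun K : Finset (Vx d) => if k ≤ K.card then 1 else 0) +
          ENNReal.ofReal (C0 * ε) := by
      calc ENNReal.ofReal (C0 * ε) + ENNReal.ofReal (C0 * ε) = ENNReal.ofReal (2 * (C0 * ε)) := by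
            rw [← ENNReal.ofReal_add (by positivity) (by positivity)]
            congr 1
            ring
        _ ≤ ENNReal.ofReal (Pge d (pc d + ε) k) := ENNReal.ofReal_le_ofReal h7
        _ = _ := h5.symm
        _ ≤ _ := by gcongr
    exact (ENNReal.add_le_add_iff_right ENNReal.ofReal_ne_top).1 h8
  -- the sum
  have hsum : ∑ k ∈ Icc 1 N, EF (pc d + ε)
      (fun K : Finset (Vx d) => if k ≤ K.card then 1 else 0) ≤ chif d (pc d + ε) := by
    unfold chif EF
    rw [← Summable.tsum_finsetSum (fun _ _ => ENNReal.summable)]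
    refine ENNReal.tsum_le_tsum fun K => ?_
    rw [← Finset.mul_sum]
    refine mul_le_mul' le_rfl ?_
    rw [Finset.sum_boole]
    show (((Icc 1 N).filter fun k => k ≤ K.card).card : ℝ≥0∞) ≤ ((K.card : ℕ) : ℝ≥0∞)
    have : ((Icc 1 N).filter fun k => k ≤ K.card).card ≤ K.card := by
      calc ((Icc 1 N).filter fun k => k ≤ K.card).card ≤ (Icc 1 K.card).card := by
            refine Finset.card_le_card fun k hk => ?_
            rw [Finset.mem_filter, Finset.mem_Icc] at hk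
            rw [Finset.mem_Icc]
            exact ⟨hk.1.1, hk.2⟩
        _ = K.card := by simp
    exact Nat.cast_le.2 this
  refine le_trans ?_ hsum
  calc ENNReal.ofReal (min (s ^ 2 * C0 / 2) (min (s / 2) (1 / 4)) / ε)
      ≤ ENNReal.ofReal (N * (C0 * ε)) := by
        refine ENNReal.ofReal_le_ofReal ?_
        calc min (s ^ 2 * C0 / 2) (min (s / 2) (1 / 4)) / ε ≤ s ^ 2 * C0 / 2 / ε := by
              gcongr
              exact min_le_left _ _
          _ = s ^ 2 / ε ^ 2 / 2 * (C0 * ε) := by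
              field_simp
          _ ≤ _ := by gcongr
    _ = ∑ _k ∈ Icc 1 N, ENNReal.ofReal (C0 * ε) := by
        rw [Finset.sum_const, Nat.card_Icc, nsmul_eq_mul, ENNReal.ofReal_mul (by positivity),
          ENNReal.ofReal_natCast]
        simp
    _ ≤ _ := Finset.sum_le_sum hterm

end Pool.Agent.HD
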