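import Pool.Agent.Lib.MP_8ca597_hd.N10
import Pool.Agent.Lib.MP_8ca597_hd.N11
import Pool.Agent.Lib.MP_8ca597_hd.B01
import Pool.Agent.Lib.MP_8ca597_hd.Crit
import Pool.Agent.Lib.MP_8ca597_hd.S10

/-!
# Row N12: the sum of the half-space fluxes and the susceptibility

`F = 2` (`ff` is monotone in `p`), `H = Hs p e 0 ≤ chi < ∞` (`sub_of_lt`, `sub_chi`), `Rs = p H`. Sum `bonfI` with
`S = Hf e r`, `W = Hf e (r + 1)`, `a = 0`, over `x` and over `r ≥ 1`; the first terms telescope: for every `N`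
`∑_{r=1}^N ∑_x (tauI W 0 x - tauI S 0 x) ≤ chi` (finite sums, cancel), so `Rs * H ≤ chi + e1 + e2`
(`∑_x tauI W v x = H` for `v` on the top plane, `sum_tauI_Hf`; `ff_eq_flux`). `e1`: put `y = q.1 - z`,
`u = c - z`, `j = dt y e ≥ 0` (depth of `z` below the top plane of `S`); `∑_x tauI W c x = Hs (j + 1 - dt u e)
≤ (j + 2 + nm u) 2 H ≤ 2 (1 + j) (1 + nm u) 2 H`, the sum over `r` and over the `z` at depth `j` of `tauI S 0 z` is
`Hs j ≤ (j + 1) 2 H` (`sum_lev_eq`), so `e1 ≤ 8 p H² ∑_{y, u} tw y tw u tw (u - y - uv e) = 8 p H² cpw tw 3 (uv e)`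
`≤ 8 p H² / 1000`. `e2`: `y = q.1 - z`, `y' = q'.1 - z`, `u = w - q.2`: `∑_x tauI W w x ≤ (1 + nm u) 2 H`,
`e2 ≤ 4 p² H² ∑ (1 + j) (1 + nm u) tt y tt y' tt u tt (y - y' + u) ≤ 4 p² H² cpw tw 4 0 ≤ 8 p² H² ≤ 8 p H² / 1000`.
So `p H² (1 - 16/1000) ≤ chi`. `tw p ≤ tw pc`.
-/

set_option autoImplicit false

namespace Pool.Agent.HD

open Finset
open scoped ENNReal

variable {m d : ℕ} {h : m ≤ d} {C : ℝ}

/-! ### Exits of half-spaces -/

private theorem N12_ex {e : Dir d} {r : ℤ} {x y : Vx d} (hx : x ∈ Hf e r) (hy : y ∉ Hf e r)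
    (ha : Adj x y) : y = x + uv e ∧ dt x e = r - 1 := by
  obtain ⟨e', rfl⟩ := (adj_iff_uv _ _).1 ha
  have h1 : dt x e ≤ r - 1 := hx
  have h2 : ¬ dt (x + uv e') e ≤ r - 1 := hy
  rw [dt_add] at h2
  by_cases he : e' = e
  · subst he
    rw [dt_uv] at h2
    exact ⟨rfl, by omega⟩
  · have h3 := dt_uv_le e' e he
    omega

private theorem N12_tsum_sub (P : Vx d → Prop) [DecidablePred P] (f : Vx d → ℝ≥0∞) :
    ∑' z : {z : Vx d // P z}, f z.1 = ∑' z : Vx d, if P z then f z else 0 := by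
  have h1 : ∑' z : {z : Vx d // P z}, f z.1 = ∑' z : ({z | P z} : Set (Vx d)), f z.1 := rfl
  rw [h1, _root_.tsum_subtype]
  refine tsum_congr fun z => ?_
  rw [Set.indicator_apply]
  rfl

private theorem N12_exI (e : Dir d) (r : ℤ) (W : Set (Vx d)) (hW : Hf e (r + 1) ⊆ W)
    (f : Vx d → Vx d → ℝ≥0∞) :
    ∑' q : exI (Hf e r) W, f q.1.1 q.1.2 =
      ∑' v : Vx d, if dt v e = r - 1 then f v (v + uv e) else 0 := by
  rw [← N12_tsum_sub (fun v => dt v e = r - 1) (fun v => f v (v + uv e))]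
  let E : exI (Hf e r) W ≃ {v : Vx d // dt v e = r - 1} :=
    { toFun := fun q => ⟨q.1.1, (N12_ex q.2.1 q.2.2.2.1 q.2.2.2.2).2⟩
      invFun := fun v => ⟨(v.1, v.1 + uv e), by
        have h0 := v.2
        refine ⟨?_, hW ?_, ?_, uv_adj e v.1⟩
        · show dt v.1 e ≤ r - 1
          omega
        · show dt (v.1 + uv e) e ≤ (r + 1) - 1
          rw [dt_add, dt_uv]
          omega
        · show ¬ dt (v.1 + uv e) e ≤ r - 1
          rw [dt_add, dt_uv]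
          omega⟩
      left_inv := fun q => by
        have h1 := (N12_ex q.2.1 q.2.2.2.1 q.2.2.2.2).1
        apply Subtype.ext
        exact Prod.ext rfl h1.symm
      right_inv := fun v => rfl }
  rw [← E.tsum_eq]
  refine tsum_congr fun q => ?_
  have h1 := (N12_ex q.2.1 q.2.2.2.1 q.2.2.2.2).1
  show f q.1.1 q.1.2 = f q.1.1 (q.1.1 + uv e)
  rw [h1]

private theorem N12_shift (z : Vx d) (f : Vx d → ℝ≥0∞) : ∑' v, f v = ∑' y, f (z + y) :=
  ((Equiv.addLeft z).tsum_eq f).symm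

/-! ### The sum over the radii -/

private theorem N12_lev (p : ℝ) (e : Dir d) (r : ℕ) (G : ℤ → ℝ≥0∞) :
    ∑' z : Vx d, tauI p (Hf e ((r : ℤ) + 1)) 0 z * G ((r : ℤ) - dt z e) =
      ∑' j : ℕ, lev p e ((r : ℤ) + 1) j * G j := by
  have h1 : ∀ j : ℕ, lev p e ((r : ℤ) + 1) j * G j =
      ∑' z : Vx d, if dt z e = (r : ℤ) + 1 - 1 - j then
        tauI p (Hf e ((r : ℤ) + 1)) 0 z * G j else 0 := by
    intro j
    rw [lev, ← ENNReal.tsum_mul_right]
    exact N12_tsum_sub (fun z => dt z e = (r : ℤ) + 1 - 1 - j)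
      (fun z => tauI p (Hf e ((r : ℤ) + 1)) 0 z * G j)
  simp_rw [h1]
  rw [ENNReal.tsum_comm]
  refine tsum_congr fun z => ?_
  by_cases hz : z ∈ Hf e ((r : ℤ) + 1)
  · have hz' : dt z e ≤ (r : ℤ) + 1 - 1 := hz
    rw [tsum_eq_single ((r : ℤ) - dt z e).toNat]
    · rw [if_pos (by omega)]
      congr 2
      omega
    · intro j hj
      rw [if_neg]
      intro h2
      apply hj
      omega
  · rw [tauI_zero_right p hz]
    simp

private theorem N12_sum (p : ℝ) (e : Dir d) (G : ℤ → ℝ≥0∞) :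
    ∑' r : ℕ, ∑' z : Vx d, tauI p (Hf e ((r : ℤ) + 1)) 0 z * G ((r : ℤ) - dt z e) =
      ∑' j : ℕ, Hs p e j * G j := by
  simp_rw [N12_lev]
  rw [ENNReal.tsum_comm]
  refine tsum_congr fun j => ?_
  rw [ENNReal.tsum_mul_right, sum_lev_eq]

private theorem N12_sum_le {p : ℝ} (e : Dir d) {F : ℝ≥0∞}
    (hH : ∀ l : ℕ, Hs p e l ≤ (l + 1) * F) (A : Vx d → ℝ≥0∞) :
    ∑' r : ℕ, ∑' z : Vx d, tauI p (Hf e ((r : ℤ) + 1)) 0 z *
      (∑' y : Vx d, if dt y e = (r : ℤ) - dt z e then A y else 0) ≤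
      ∑' y : Vx d, (1 + nm y) * F * A y := by
  rw [N12_sum p e (fun j => ∑' y : Vx d, if dt y e = j then A y else 0)]
  have h1 : ∀ j : ℕ, Hs p e j * (∑' y : Vx d, if dt y e = (j : ℤ) then A y else 0) ≤
      ∑' y : Vx d, if dt y e = (j : ℤ) then (1 + nm y) * F * A y else 0 := by
    intro j
    rw [← ENNReal.tsum_mul_left]
    refine ENNReal.tsum_le_tsum fun y => ?_
    split_ifs with hy
    · refine mul_le_mul' ((hH j).trans ?_) le_rfl
      refine mul_le_mul' ?_ le_rfl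
      have h2 := abs_dt_le y e
      have h3 : j ≤ nm y := by
        have := le_abs_self (dt y e)
        omega
      rw [add_comm]
      have h4 : (j : ℝ≥0∞) ≤ nm y := by exact_mod_cast h3
      exact add_le_add le_rfl h4
    · simp
  refine (ENNReal.tsum_le_tsum h1).trans ?_
  rw [ENNReal.tsum_comm]
  refine ENNReal.tsum_le_tsum fun y => ?_
  by_cases hy : 0 ≤ dt y e
  · rw [tsum_eq_single (dt y e).toNat]
    · split_ifs
      · exact le_rfl
      · exact zero_le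
    · intro j hj
      rw [if_neg]
      omega
  · have : ∀ j : ℕ, (if dt y e = (j : ℤ) then (1 + (nm y : ℝ≥0∞)) * F * A y else 0) = 0 := by
      intro j
      rw [if_neg]
      omega
    simp [this]

/-! ### The first error -/

/-- The summand of the first error. -/
private noncomputable def N12A (p : ℝ) (e : Dir d) (H : ℝ≥0∞) (y : Vx d) : ℝ≥0∞ :=
  ∑' u : Vx d, tt p y * ENNReal.ofReal p * tt p u * tt p (u - y - uv e) *
    (2 * (1 + nm y) * (1 + nm u) * H)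

/-- The summand of the second error. -/
private noncomputable def N12B (p : ℝ) (H : ℝ≥0∞) (y : Vx d) : ℝ≥0∞ :=
  ∑' y' : Vx d, ∑' u : Vx d, tt p y * tt p y' * ENNReal.ofReal p ^ 2 *
    (tt p u * tt p (u + y - y') * ((1 + nm u) * H))

private theorem N12_W {p : ℝ} (e : Dir d) {H : ℝ≥0∞} (hH : ∀ l : ℕ, Hs p e l ≤ (l + 1) * H)
    (s : ℤ) (w : Vx d) (n : ℕ) (hn : s - dt w e ≤ n + 1) :
    ∑' x : Vx d, tauI p (Hf e s) w x ≤ (n + 1) * H := by
  by_cases hw : w ∈ Hf e s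
  · have hw' : dt w e ≤ s - 1 := hw
    rw [sum_tauI_Hf p e (l := (s - 1 - dt w e).toNat) (by omega)]
    refine (hH _).trans (mul_le_mul' ?_ le_rfl)
    have h3 : (s - 1 - dt w e).toNat ≤ n := by omega
    have h4 : (((s - 1 - dt w e).toNat : ℕ) : ℝ≥0∞) ≤ n := by exact_mod_cast h3
    exact add_le_add h4 le_rfl
  · simp_rw [tauI_zero_left p hw]
    simp

private theorem N12_e1 {p : ℝ} (hp : 0 ≤ p) (hp1 : p ≤ 1) (e : Dir d) {H : ℝ≥0∞}
    (hH : ∀ l : ℕ, Hs p e l ≤ (l + 1) * H) (r : ℤ) :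
    ∑' x : Vx d, ∑' q : exI (Hf e r) (Hf e (r + 1)), ∑' z : Vx d, ∑' c : Vx d,
      tauI p (Hf e r) 0 z * tauI p (Hf e r) z q.1.1 * ENNReal.ofReal p * tauI p (Hf e r) z c *
        (tauI p (Hf e (r + 1)) q.1.2 c * tauI p (Hf e (r + 1)) c x) ≤
      ∑' z : Vx d, tauI p (Hf e r) 0 z *
        (∑' y : Vx d, if dt y e = r - 1 - dt z e then N12A p e H y else 0) := by
  have h1 : ∀ x : Vx d, ∑' q : exI (Hf e r) (Hf e (r + 1)), ∑' z : Vx d, ∑' c : Vx d,
      tauI p (Hf e r) 0 z * tauI p (Hf e r) z q.1.1 * ENNReal.ofReal p * tauI p (Hf e r) z c *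
        (tauI p (Hf e (r + 1)) q.1.2 c * tauI p (Hf e (r + 1)) c x) =
      ∑' v : Vx d, if dt v e = r - 1 then ∑' z : Vx d, ∑' c : Vx d,
      tauI p (Hf e r) 0 z * tauI p (Hf e r) z v * ENNReal.ofReal p * tauI p (Hf e r) z c *
        (tauI p (Hf e (r + 1)) (v + uv e) c * tauI p (Hf e (r + 1)) c x) else 0 := fun x =>
    N12_exI e r (Hf e (r + 1)) le_rfl (fun v w => ∑' z : Vx d, ∑' c : Vx d,
      tauI p (Hf e r) 0 z * tauI p (Hf e r) z v * ENNReal.ofReal p * tauI p (Hf e r) z c *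
        (tauI p (Hf e (r + 1)) w c * tauI p (Hf e (r + 1)) c x))
  simp_rw [h1]
  rw [ENNReal.tsum_comm]
  have h2 : ∀ v : Vx d, (∑' x : Vx d, if dt v e = r - 1 then ∑' z : Vx d, ∑' c : Vx d,
      tauI p (Hf e r) 0 z * tauI p (Hf e r) z v * ENNReal.ofReal p * tauI p (Hf e r) z c *
        (tauI p (Hf e (r + 1)) (v + uv e) c * tauI p (Hf e (r + 1)) c x) else 0) =
      ∑' z : Vx d, if dt v e = r - 1 then ∑' c : Vx d,
        tauI p (Hf e r) 0 z * tauI p (Hf e r) z v * ENNReal.ofReal p * tauI p (Hf e r) z c *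
        (tauI p (Hf e (r + 1)) (v + uv e) c * ∑' x : Vx d, tauI p (Hf e (r + 1)) c x) else 0 := by
    intro v
    split_ifs with hv
    · rw [ENNReal.tsum_comm]
      refine tsum_congr fun z => ?_
      rw [ENNReal.tsum_comm]
      refine tsum_congr fun c => ?_
      rw [ENNReal.tsum_mul_left, ENNReal.tsum_mul_left]
    · simp
  simp_rw [h2]
  rw [ENNReal.tsum_comm]
  refine ENNReal.tsum_le_tsum fun z => ?_
  rw [← ENNReal.tsum_mul_left, N12_shift z]
  refine ENNReal.tsum_le_tsum fun y => ?_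
  by_cases hz : z ∈ Hf e r
  swap
  · rw [tauI_zero_right p hz]
    simp
  have hz' : dt z e ≤ r - 1 := hz
  by_cases hy : dt (z + y) e = r - 1
  swap
  · rw [if_neg hy]
    exact zero_le
  have hy' : dt y e = r - 1 - dt z e := by
    rw [dt_add] at hy
    omega
  rw [if_pos hy, if_pos hy', N12A, ← ENNReal.tsum_mul_left, N12_shift z]
  refine ENNReal.tsum_le_tsum fun u => ?_
  have h3 : tauI p (Hf e r) z (z + y) ≤ tt p y := by
    refine (tauI_le_tt hp hp1 _ _ _).trans (le_of_eq ?_)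
    congr 1
    abel
  have h4 : tauI p (Hf e r) z (z + u) ≤ tt p u := by
    refine (tauI_le_tt hp hp1 _ _ _).trans (le_of_eq ?_)
    congr 1
    abel
  have h5 : tauI p (Hf e (r + 1)) (z + y + uv e) (z + u) ≤ tt p (u - y - uv e) := by
    refine (tauI_le_tt hp hp1 _ _ _).trans (le_of_eq ?_)
    congr 1
    abel
  have h6 : ∑' x : Vx d, tauI p (Hf e (r + 1)) (z + u) x ≤ 2 * (1 + nm y) * (1 + nm u) * H := by
    refine (N12_W e hH (r + 1) (z + u) (nm y + 1 + nm u) ?_).trans (mul_le_mul' ?_ le_rfl)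
    · have h7 := neg_abs_le (dt u e)
      have h8 := abs_dt_le u e
      have h9 := le_abs_self (dt y e)
      have h10 := abs_dt_le y e
      rw [dt_add]
      push_cast
      omega
    · have : (nm y + 1 + nm u) + 1 ≤ 2 * (1 + nm y) * (1 + nm u) := by
        nlinarith [Nat.zero_le (nm y * nm u)]
      exact_mod_cast this
  calc tauI p (Hf e r) 0 z * tauI p (Hf e r) z (z + y) * ENNReal.ofReal p *
        tauI p (Hf e r) z (z + u) * (tauI p (Hf e (r + 1)) (z + y + uv e) (z + u) *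
          ∑' x : Vx d, tauI p (Hf e (r + 1)) (z + u) x)
      ≤ tauI p (Hf e r) 0 z * tt p y * ENNReal.ofReal p * tt p u *
        (tt p (u - y - uv e) * (2 * (1 + nm y) * (1 + nm u) * H)) := by gcongr
    _ = _ := by ring

private theorem N12_e2 {p : ℝ} (hp : 0 ≤ p) (hp1 : p ≤ 1) (e : Dir d) {H : ℝ≥0∞}
    (hH : ∀ l : ℕ, Hs p e l ≤ (l + 1) * H) (r : ℤ) :
    ∑' x : Vx d, ∑' q : exI (Hf e r) (Hf e (r + 1)), ∑' q' : exI (Hf e r) (Hf e (r + 1)),
      ∑' z : Vx d, tauI p (Hf e r) 0 z * tauI p (Hf e r) z q.1.1 * tauI p (Hf e r) z q'.1.1 *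
        ENNReal.ofReal p ^ 2 * ∑' w : Vx d, tauI p (Hf e (r + 1)) q.1.2 w *
          tauI p (Hf e (r + 1)) q'.1.2 w * tauI p (Hf e (r + 1)) w x ≤
      ∑' z : Vx d, tauI p (Hf e r) 0 z *
        (∑' y : Vx d, if dt y e = r - 1 - dt z e then N12B p H y else 0) := by
  have h1 : ∀ x : Vx d, ∑' q : exI (Hf e r) (Hf e (r + 1)), ∑' q' : exI (Hf e r) (Hf e (r + 1)),
      ∑' z : Vx d, tauI p (Hf e r) 0 z * tauI p (Hf e r) z q.1.1 * tauI p (Hf e r) z q'.1.1 *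
        ENNReal.ofReal p ^ 2 * ∑' w : Vx d, tauI p (Hf e (r + 1)) q.1.2 w *
          tauI p (Hf e (r + 1)) q'.1.2 w * tauI p (Hf e (r + 1)) w x ≤
      ∑' v : Vx d, if dt v e = r - 1 then ∑' v' : Vx d, ∑' z : Vx d,
        tauI p (Hf e r) 0 z * tauI p (Hf e r) z v * tauI p (Hf e r) z v' *
        ENNReal.ofReal p ^ 2 * ∑' w : Vx d, tauI p (Hf e (r + 1)) (v + uv e) w *
          tauI p (Hf e (r + 1)) (v' + uv e) w * tauI p (Hf e (r + 1)) w x else 0 := by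
    intro x
    refine (N12_exI e r (Hf e (r + 1)) le_rfl (fun v v1 => ∑' q' : exI (Hf e r) (Hf e (r + 1)),
      ∑' z : Vx d, tauI p (Hf e r) 0 z * tauI p (Hf e r) z v * tauI p (Hf e r) z q'.1.1 *
        ENNReal.ofReal p ^ 2 * ∑' w : Vx d, tauI p (Hf e (r + 1)) v1 w *
          tauI p (Hf e (r + 1)) q'.1.2 w * tauI p (Hf e (r + 1)) w x)).trans_le ?_
    refine ENNReal.tsum_le_tsum fun v => ?_
    split_ifs with hv
    swap
    · exact le_rfl
    refine (N12_exI e r (Hf e (r + 1)) le_rfl (fun v' v1' =>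
      ∑' z : Vx d, tauI p (Hf e r) 0 z * tauI p (Hf e r) z v * tauI p (Hf e r) z v' *
        ENNReal.ofReal p ^ 2 * ∑' w : Vx d, tauI p (Hf e (r + 1)) (v + uv e) w *
          tauI p (Hf e (r + 1)) v1' w * tauI p (Hf e (r + 1)) w x)).trans_le ?_
    refine ENNReal.tsum_le_tsum fun v' => ?_
    split_ifs with hv'
    · exact le_rfl
    · exact zero_le
  refine (ENNReal.tsum_le_tsum h1).trans ?_
  rw [ENNReal.tsum_comm]
  have h2 : ∀ v : Vx d, (∑' x : Vx d, if dt v e = r - 1 then ∑' v' : Vx d, ∑' z : Vx d,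
        tauI p (Hf e r) 0 z * tauI p (Hf e r) z v * tauI p (Hf e r) z v' *
        ENNReal.ofReal p ^ 2 * ∑' w : Vx d, tauI p (Hf e (r + 1)) (v + uv e) w *
          tauI p (Hf e (r + 1)) (v' + uv e) w * tauI p (Hf e (r + 1)) w x else 0) =
      ∑' z : Vx d, if dt v e = r - 1 then ∑' v' : Vx d,
        tauI p (Hf e r) 0 z * tauI p (Hf e r) z v * tauI p (Hf e r) z v' *
        ENNReal.ofReal p ^ 2 * ∑' w : Vx d, tauI p (Hf e (r + 1)) (v + uv e) w *
          tauI p (Hf e (r + 1)) (v' + uv e) w * (∑' x : Vx d, tauI p (Hf e (r + 1)) w x)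
          else 0 := by
    intro v
    split_ifs with hv
    · rw [ENNReal.tsum_comm]
      rw [ENNReal.tsum_comm (f := fun z v' : Vx d =>
        tauI p (Hf e r) 0 z * tauI p (Hf e r) z v * tauI p (Hf e r) z v' *
        ENNReal.ofReal p ^ 2 * ∑' w : Vx d, tauI p (Hf e (r + 1)) (v + uv e) w *
          tauI p (Hf e (r + 1)) (v' + uv e) w * (∑' x : Vx d, tauI p (Hf e (r + 1)) w x))]
      refine tsum_congr fun v' => ?_
      rw [ENNReal.tsum_comm]
      refine tsum_congr fun z => ?_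
      rw [ENNReal.tsum_mul_left, ENNReal.tsum_comm]
      congr 1
      refine tsum_congr fun w => ?_
      rw [ENNReal.tsum_mul_left]
    · simp
  simp_rw [h2]
  rw [ENNReal.tsum_comm]
  refine ENNReal.tsum_le_tsum fun z => ?_
  rw [← ENNReal.tsum_mul_left, N12_shift z]
  refine ENNReal.tsum_le_tsum fun y => ?_
  by_cases hy : dt (z + y) e = r - 1
  swap
  · rw [if_neg hy]
    exact zero_le
  have hy' : dt y e = r - 1 - dt z e := by
    rw [dt_add] at hy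
    omega
  rw [if_pos hy, if_pos hy', N12B, ← ENNReal.tsum_mul_left, N12_shift z]
  refine ENNReal.tsum_le_tsum fun y' => ?_
  rw [N12_shift (z + y + uv e), ← ENNReal.tsum_mul_left, ← ENNReal.tsum_mul_left]
  refine ENNReal.tsum_le_tsum fun u => ?_
  have h3 : tauI p (Hf e r) z (z + y) ≤ tt p y := by
    refine (tauI_le_tt hp hp1 _ _ _).trans (le_of_eq ?_)
    congr 1
    abel
  have h4 : tauI p (Hf e r) z (z + y') ≤ tt p y' := by
    refine (tauI_le_tt hp hp1 _ _ _).trans (le_of_eq ?_)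
    congr 1
    abel
  have h5 : tauI p (Hf e (r + 1)) (z + y + uv e) (z + y + uv e + u) ≤ tt p u := by
    refine (tauI_le_tt hp hp1 _ _ _).trans (le_of_eq ?_)
    congr 1
    abel
  have h5' : tauI p (Hf e (r + 1)) (z + y' + uv e) (z + y + uv e + u) ≤ tt p (u + y - y') := by
    refine (tauI_le_tt hp hp1 _ _ _).trans (le_of_eq ?_)
    congr 1
    abel
  have h6 : ∑' x : Vx d, tauI p (Hf e (r + 1)) (z + y + uv e + u) x ≤ (1 + nm u) * H := by
    rw [add_comm (1 : ℝ≥0∞)]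
    refine N12_W e hH (r + 1) (z + y + uv e + u) (nm u) ?_
    have h7 := neg_abs_le (dt u e)
    have h8 := abs_dt_le u e
    rw [dt_add, dt_add, hy, dt_uv]
    omega
  calc tauI p (Hf e r) 0 z * tauI p (Hf e r) z (z + y) * tauI p (Hf e r) z (z + y') *
        ENNReal.ofReal p ^ 2 * (tauI p (Hf e (r + 1)) (z + y + uv e) (z + y + uv e + u) *
          tauI p (Hf e (r + 1)) (z + y' + uv e) (z + y + uv e + u) *
            ∑' x : Vx d, tauI p (Hf e (r + 1)) (z + y + uv e + u) x)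
      ≤ tauI p (Hf e r) 0 z * tt p y * tt p y' * ENNReal.ofReal p ^ 2 *
        (tt p u * tt p (u + y - y') * ((1 + nm u) * H)) := by gcongr
    _ = _ := by ring

/-! ### The sums of the errors -/

private theorem N12_nm1 (p : ℝ) (y : Vx d) : (1 + (nm y : ℝ≥0∞)) * tt p y ≤ tw p y := by
  rw [tw, sq, mul_assoc]
  have h1 : (1 : ℝ≥0∞) ≤ 1 + nm y := le_self_add
  calc (1 + (nm y : ℝ≥0∞)) * tt p y = 1 * ((1 + (nm y : ℝ≥0∞)) * tt p y) := (one_mul _).symm
    _ ≤ _ := mul_le_mul' h1 le_rfl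

private theorem N12_sumA (p : ℝ) (e : Dir d) (H : ℝ≥0∞) :
    ∑' y : Vx d, (1 + (nm y : ℝ≥0∞)) * H * N12A p e H y ≤
      2 * ENNReal.ofReal p * H ^ 2 * cpw (tw p) 3 (uv e) := by
  have h1 : ∀ y : Vx d, (1 + (nm y : ℝ≥0∞)) * H * N12A p e H y ≤
      2 * ENNReal.ofReal p * H ^ 2 * ∑' u : Vx d, tw p y * (tw p u * tw p (u - y - uv e)) := by
    intro y
    rw [N12A, ← ENNReal.tsum_mul_left, ← ENNReal.tsum_mul_left]
    refine ENNReal.tsum_le_tsum fun u => ?_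
    calc (1 + (nm y : ℝ≥0∞)) * H * (tt p y * ENNReal.ofReal p * tt p u * tt p (u - y - uv e) *
          (2 * (1 + nm y) * (1 + nm u) * H))
        = 2 * ENNReal.ofReal p * H ^ 2 * (((1 + (nm y : ℝ≥0∞)) ^ 2 * tt p y) *
          (((1 + (nm u : ℝ≥0∞)) * tt p u) * tt p (u - y - uv e))) := by ring
      _ ≤ _ := by
        refine mul_le_mul' le_rfl (mul_le_mul' le_rfl (mul_le_mul' (N12_nm1 p u) ?_))
        exact tt_le_tw p _
  refine (ENNReal.tsum_le_tsum h1).trans ?_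
  rw [ENNReal.tsum_mul_left]
  refine mul_le_mul' le_rfl (le_of_eq ?_)
  rw [show (3 : ℕ) = 1 + 1 + 1 from rfl, cpw, cpw, cpw_one]
  rw [cv, ← (Equiv.neg (Vx d)).tsum_eq]
  refine tsum_congr fun y => ?_
  rw [ENNReal.tsum_mul_left, cv, Equiv.neg_apply, tw_neg]
  congr 1
  refine tsum_congr fun u => ?_
  congr 1
  rw [← tw_neg]
  congr 1
  abel

private theorem N12_sumB (p : ℝ) (H : ℝ≥0∞) :
    ∑' y : Vx d, (1 + (nm y : ℝ≥0∞)) * H * N12B p H y ≤
      ENNReal.ofReal p ^ 2 * H ^ 2 * cpw (tw p) 4 (0 : Vx d) := by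
  have h1 : ∀ y : Vx d, (1 + (nm y : ℝ≥0∞)) * H * N12B p H y ≤
      ENNReal.ofReal p ^ 2 * H ^ 2 * ∑' y' : Vx d, ∑' u : Vx d,
        tw p y * (tw p y' * (tw p u * tw p (u + y - y'))) := by
    intro y
    rw [N12B, ← ENNReal.tsum_mul_left, ← ENNReal.tsum_mul_left]
    refine ENNReal.tsum_le_tsum fun y' => ?_
    rw [← ENNReal.tsum_mul_left, ← ENNReal.tsum_mul_left]
    refine ENNReal.tsum_le_tsum fun u => ?_
    calc (1 + (nm y : ℝ≥0∞)) * H * (tt p y * tt p y' * ENNReal.ofReal p ^ 2 *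
          (tt p u * tt p (u + y - y') * ((1 + nm u) * H)))
        = ENNReal.ofReal p ^ 2 * H ^ 2 * (((1 + (nm y : ℝ≥0∞)) * tt p y) * (tt p y' *
          (((1 + (nm u : ℝ≥0∞)) * tt p u) * tt p (u + y - y')))) := by ring
      _ ≤ _ := by
        refine mul_le_mul' le_rfl (mul_le_mul' (N12_nm1 p y) (mul_le_mul' (tt_le_tw p _)
          (mul_le_mul' (N12_nm1 p u) (tt_le_tw p _))))
  refine (ENNReal.tsum_le_tsum h1).trans ?_
  rw [ENNReal.tsum_mul_left]
  refine mul_le_mul' le_rfl (le_of_eq ?_)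
  rw [show (4 : ℕ) = 1 + 1 + 1 + 1 from rfl, cpw, cpw, cpw, cpw_one, cv]
  refine tsum_congr fun y => ?_
  simp_rw [ENNReal.tsum_mul_left]
  congr 1
  rw [cv, ← (Equiv.neg (Vx d)).tsum_eq]
  refine tsum_congr fun y' => ?_
  rw [Equiv.neg_apply, tw_neg]
  congr 1
  rw [cv]
  refine tsum_congr fun u => ?_
  congr 1
  rw [← tw_neg]
  congr 1
  abel

/-! ### The telescoping -/

private theorem N12_step {p : ℝ} (hp : 0 ≤ p) (hp1 : p ≤ 1 / 2) (e : Dir d) {H : ℝ≥0∞}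
    (hH : ∀ l : ℕ, Hs p e l ≤ (l + 1) * H) (r : ℕ) :
    (∑' x : Vx d, tauI p (Hf e ((r : ℤ) + 1)) 0 x) + ff p e ((r : ℤ) + 1) * Hs p e 0 ≤
      (∑' x : Vx d, tauI p (Hf e ((r : ℤ) + 1 + 1)) 0 x) +
      (∑' z : Vx d, tauI p (Hf e ((r : ℤ) + 1)) 0 z *
        (∑' y : Vx d, if dt y e = (r : ℤ) - dt z e then N12A p e H y else 0)) +
      ∑' z : Vx d, tauI p (Hf e ((r : ℤ) + 1)) 0 z *
        (∑' y : Vx d, if dt y e = (r : ℤ) - dt z e then N12B p H y else 0) := by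
  classical
  have hp1' : p ≤ 1 := by linarith
  have hSW : Hf e ((r : ℤ) + 1) ⊆ Hf e ((r : ℤ) + 1 + 1) := by
    intro z hz
    have hz' : dt z e ≤ (r : ℤ) + 1 - 1 := hz
    show dt z e ≤ (r : ℤ) + 1 + 1 - 1
    omega
  have h0 : (0 : Vx d) ∈ Hf e ((r : ℤ) + 1) := by
    show dt 0 e ≤ (r : ℤ) + 1 - 1
    simp [dt]
  -- the main term
  have hmain : ∑' x : Vx d, ∑' q : exI (Hf e ((r : ℤ) + 1)) (Hf e ((r : ℤ) + 1 + 1)),
      tauI p (Hf e ((r : ℤ) + 1)) 0 q.1.1 * ENNReal.ofReal p *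
        tauI p (Hf e ((r : ℤ) + 1 + 1)) q.1.2 x = ff p e ((r : ℤ) + 1) * Hs p e 0 := by
    have h1 : ∀ x : Vx d, ∑' q : exI (Hf e ((r : ℤ) + 1)) (Hf e ((r : ℤ) + 1 + 1)),
      tauI p (Hf e ((r : ℤ) + 1)) 0 q.1.1 * ENNReal.ofReal p *
        tauI p (Hf e ((r : ℤ) + 1 + 1)) q.1.2 x =
        ∑' v : Vx d, if dt v e = (r : ℤ) + 1 - 1 then tauI p (Hf e ((r : ℤ) + 1)) 0 v *
          ENNReal.ofReal p * tauI p (Hf e ((r : ℤ) + 1 + 1)) (v + uv e) x else 0 := fun x =>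
      N12_exI e ((r : ℤ) + 1) (Hf e ((r : ℤ) + 1 + 1)) le_rfl (fun v w =>
        tauI p (Hf e ((r : ℤ) + 1)) 0 v * ENNReal.ofReal p *
          tauI p (Hf e ((r : ℤ) + 1 + 1)) w x)
    simp_rw [h1]
    rw [ENNReal.tsum_comm, ff, lev, N12_tsum_sub (fun v => dt v e = (r : ℤ) + 1 - 1 - (0 : ℕ))
      (fun v => tauI p (Hf e ((r : ℤ) + 1)) 0 v), mul_assoc, mul_comm (∑' z : Vx d, _) (Hs p e 0),
      ← mul_assoc, ← ENNReal.tsum_mul_left]
    refine tsum_congr fun v => ?_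
    by_cases hv : dt v e = (r : ℤ) + 1 - 1
    · simp only [if_pos hv]
      rw [if_pos (by rw [hv]; simp), ENNReal.tsum_mul_left,
        sum_tauI_Hf p e (s := (r : ℤ) + 1 + 1) (v := v + uv e) (l := 0)
          (by rw [dt_add, dt_uv]; push_cast; omega)]
      ring
    · simp only [if_neg hv]
      rw [if_neg (by simpa using hv)]
      simp
  have hb : ∀ x : Vx d, tauI p (Hf e ((r : ℤ) + 1)) 0 x +
      ∑' q : exI (Hf e ((r : ℤ) + 1)) (Hf e ((r : ℤ) + 1 + 1)),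
      tauI p (Hf e ((r : ℤ) + 1)) 0 q.1.1 * ENNReal.ofReal p *
        tauI p (Hf e ((r : ℤ) + 1 + 1)) q.1.2 x ≤
      tauI p (Hf e ((r : ℤ) + 1 + 1)) 0 x +
      (∑' q : exI (Hf e ((r : ℤ) + 1)) (Hf e ((r : ℤ) + 1 + 1)), ∑' z : Vx d, ∑' c : Vx d,
        tauI p (Hf e ((r : ℤ) + 1)) 0 z * tauI p (Hf e ((r : ℤ) + 1)) z q.1.1 *
        ENNReal.ofReal p * tauI p (Hf e ((r : ℤ) + 1)) z c *
        (tauI p (Hf e ((r : ℤ) + 1 + 1)) q.1.2 c * tauI p (Hf e ((r : ℤ) + 1 + 1)) c x)) +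
      ∑' q : exI (Hf e ((r : ℤ) + 1)) (Hf e ((r : ℤ) + 1 + 1)),
      ∑' q' : exI (Hf e ((r : ℤ) + 1)) (Hf e ((r : ℤ) + 1 + 1)),
      ∑' z : Vx d, tauI p (Hf e ((r : ℤ) + 1)) 0 z * tauI p (Hf e ((r : ℤ) + 1)) z q.1.1 *
        tauI p (Hf e ((r : ℤ) + 1)) z q'.1.1 *
        ENNReal.ofReal p ^ 2 * ∑' w : Vx d, tauI p (Hf e ((r : ℤ) + 1 + 1)) q.1.2 w *
          tauI p (Hf e ((r : ℤ) + 1 + 1)) q'.1.2 w * tauI p (Hf e ((r : ℤ) + 1 + 1)) w x := by
    intro x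
    refine (bonfI hp hp1 hSW h0 x).trans (add_le_add le_rfl ?_)
    refine ENNReal.tsum_le_tsum fun q => ENNReal.tsum_le_tsum fun q' => ?_
    split_ifs
    · exact zero_le
    · exact le_rfl
  have hs := ENNReal.tsum_le_tsum hb
  rw [ENNReal.tsum_add, ENNReal.tsum_add, ENNReal.tsum_add, hmain] at hs
  refine hs.trans (add_le_add (add_le_add le_rfl ?_) ?_)
  · have := N12_e1 hp hp1' e hH ((r : ℤ) + 1)
    simpa only [add_sub_cancel_right] using this
  · have := N12_e2 hp hp1' e hH ((r : ℤ) + 1)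
    simpa only [add_sub_cancel_right] using this

private theorem N12_tele {B a E : ℕ → ℝ≥0∞} (h : ∀ r, B r + a r ≤ B (r + 1) + E r) (N : ℕ) :
    B 0 + ∑ r ∈ range N, a r ≤ B N + ∑ r ∈ range N, E r := by
  induction N with
  | zero => simp
  | succ N ih =>
    rw [sum_range_succ, sum_range_succ]
    calc B 0 + (∑ r ∈ range N, a r + a N) = (B 0 + ∑ r ∈ range N, a r) + a N := by ring
      _ ≤ (B N + ∑ r ∈ range N, E r) + a N := add_le_add ih le_rfl
      _ = (B N + a N) + ∑ r ∈ range N, E r := by ring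
      _ ≤ (B (N + 1) + E N) + ∑ r ∈ range N, E r := add_le_add (h N) le_rfl
      _ = _ := by ring

private theorem N12_main {p : ℝ} (hp : 0 ≤ p) (hp1 : p ≤ 1 / 2) (e : Dir d) {H : ℝ≥0∞}
    (hH : ∀ l : ℕ, Hs p e l ≤ (l + 1) * H) :
    Rs p e * Hs p e 0 ≤ chi d p + 2 * ENNReal.ofReal p * H ^ 2 * cpw (tw p) 3 (uv e) +
      ENNReal.ofReal p ^ 2 * H ^ 2 * cpw (tw p) 4 (0 : Vx d) := by
  have hp1' : p ≤ 1 := by linarith
  set E1 : ℕ → ℝ≥0∞ := fun r => ∑' z : Vx d, tauI p (Hf e ((r : ℤ) + 1)) 0 z *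
        (∑' y : Vx d, if dt y e = (r : ℤ) - dt z e then N12A p e H y else 0) with hE1
  set E2 : ℕ → ℝ≥0∞ := fun r => ∑' z : Vx d, tauI p (Hf e ((r : ℤ) + 1)) 0 z *
        (∑' y : Vx d, if dt y e = (r : ℤ) - dt z e then N12B p H y else 0) with hE2
  have h1 : ∑' r : ℕ, E1 r ≤ 2 * ENNReal.ofReal p * H ^ 2 * cpw (tw p) 3 (uv e) :=
    (N12_sum_le e hH (N12A p e H)).trans (N12_sumA p e H)
  have h2 : ∑' r : ℕ, E2 r ≤ ENNReal.ofReal p ^ 2 * H ^ 2 * cpw (tw p) 4 (0 : Vx d) :=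
    (N12_sum_le e hH (N12B p H)).trans (N12_sumB p H)
  have h3 : ∀ N : ℕ, ∑ r ∈ range N, ff p e ((r : ℤ) + 1) * Hs p e 0 ≤
      chi d p + 2 * ENNReal.ofReal p * H ^ 2 * cpw (tw p) 3 (uv e) +
      ENNReal.ofReal p ^ 2 * H ^ 2 * cpw (tw p) 4 (0 : Vx d) := by
    intro N
    have h4 := N12_tele (B := fun r => ∑' x : Vx d, tauI p (Hf e ((r : ℤ) + 1)) 0 x)
      (a := fun r => ff p e ((r : ℤ) + 1) * Hs p e 0) (E := fun r => E1 r + E2 r) (by
        intro r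
        have := N12_step hp hp1 e hH r
        push_cast
        rw [← add_assoc]
        exact this) N
    refine (le_add_self.trans h4).trans ?_
    rw [sum_add_distrib, ← add_assoc]
    refine add_le_add (add_le_add ?_ ((ENNReal.sum_le_tsum _).trans h1))
      ((ENNReal.sum_le_tsum _).trans h2)
    rw [chi]
    refine ENNReal.tsum_le_tsum fun x => ?_
    refine (tauI_le_tt hp hp1' _ _ _).trans (le_of_eq ?_)
    rw [sub_zero]
  rw [Rs, ← ENNReal.tsum_mul_right]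
  exact le_of_tendsto' (ENNReal.tendsto_nat_tsum _) h3

theorem Rs_sq_le (hc : Crit m d h C) {p : ℝ} (hp : 0 ≤ p) (hpc : p < pc d) (e : Dir d) :
    Rs p e ^ 2 ≤ 2 * ENNReal.ofReal p * chi d p := by
  have h0 := hc.pc_hi
  have hp1 : p ≤ 1 / 1000 := by linarith
  have hp1' : p ≤ 1 := by linarith
  have hpc1 : pc d ≤ 1 := by linarith
  have hchi : chi d p < ⊤ := sub_chi hp hp1' (sub_of_lt hp hpc)
  have htt : ∀ x : Vx d, tt p x ≤ tt (pc d) x := fun x =>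
    tauI_mono_p hp hpc.le hpc1 _ _ _
  have htw : ∀ x : Vx d, tw p x ≤ tw (pc d) x := fun x => mul_le_mul' le_rfl (htt x)
  have hff : ∀ (e : Dir d) (r : ℤ), 1 ≤ r → ff p e r ≤ 2 := by
    intro e r hr
    refine le_trans ?_ (hc.ff_le e r hr)
    rw [ff, ff, lev, lev]
    exact mul_le_mul' (ENNReal.ofReal_le_ofReal hpc.le)
      (ENNReal.tsum_le_tsum fun z => tauI_mono_p hp hpc.le hpc1 _ _ _)
  have hH : ∀ l : ℕ, Hs p e l ≤ (l + 1) * (2 * Hs p e 0) := by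
    intro l
    rw [← mul_assoc]
    exact Hs_le hp hp1' one_le_two hff e l
  have hH0 : Hs p e 0 ≤ chi d p := by
    rw [Hs, chi]
    refine ENNReal.tsum_le_tsum fun x => ?_
    refine (tauI_le_tt hp hp1' _ _ _).trans (le_of_eq ?_)
    rw [sub_zero]
  have hH0' : Hs p e 0 ≠ ⊤ := (hH0.trans_lt hchi).ne
  have h1 := N12_main hp (by linarith) e hH
  have hw3 : cpw (tw p) 3 (uv e) ≤ ENNReal.ofReal (1 / 1000) :=
    (cpw_mono htw 3 _).trans (hc.w3 e)
  have hw4 : cpw (tw p) 4 (0 : Vx d) ≤ 2 := (cpw_mono htw 4 _).trans (hc.w4 0)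
  rw [Rs_eq] at h1 ⊢
  -- pass to real numbers
  set a : ℝ := (Hs p e 0).toReal with ha
  set b : ℝ := (chi d p).toReal with hb
  have ha' : Hs p e 0 = ENNReal.ofReal a := (ENNReal.ofReal_toReal hH0').symm
  have hb' : chi d p = ENNReal.ofReal b := (ENNReal.ofReal_toReal hchi.ne).symm
  have ha0 : 0 ≤ a := ENNReal.toReal_nonneg
  have hb0 : 0 ≤ b := ENNReal.toReal_nonneg
  have h2 : ENNReal.ofReal (p * a * a) ≤
      ENNReal.ofReal (b + 2 * p * (2 * a) ^ 2 * (1 / 1000) + p ^ 2 * (2 * a) ^ 2 * 2) := by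
    have e2 : ENNReal.ofReal 2 = 2 := by simp
    rw [ENNReal.ofReal_add (by positivity) (by positivity),
      ENNReal.ofReal_add (by positivity) (by positivity),
      ENNReal.ofReal_mul (by positivity), ENNReal.ofReal_mul hp,
      ENNReal.ofReal_mul (p := 2 * p * (2 * a) ^ 2) (by positivity),
      ENNReal.ofReal_mul (p := 2 * p) (by positivity),
      ENNReal.ofReal_mul (p := 2) (by positivity), ENNReal.ofReal_pow (p := 2 * a) (by positivity),
      ENNReal.ofReal_mul (p := 2) (q := a) (by positivity),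
      ENNReal.ofReal_mul (p := p ^ 2 * (2 * a) ^ 2) (by positivity),
      ENNReal.ofReal_mul (p := p ^ 2) (by positivity), ENNReal.ofReal_pow hp,
      ENNReal.ofReal_pow (p := 2 * a) (by positivity),
      ENNReal.ofReal_mul (p := 2) (q := a) (by positivity), e2, ← ha', ← hb']
    refine h1.trans ?_
    gcongr
  rw [ENNReal.ofReal_le_ofReal_iff (by positivity)] at h2
  have h3 : p * (p * a * a) ≤ (1 / 1000) * (p * a * a) :=
    mul_le_mul_of_nonneg_right hp1 (by positivity)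
  have h4 : p * a * a ≤ 2 * b := by nlinarith
  rw [ha', hb', ← ENNReal.ofReal_mul hp, ← ENNReal.ofReal_pow (by positivity),
    show (2 : ℝ≥0∞) = ENNReal.ofReal 2 by simp, ← ENNReal.ofReal_mul (by positivity),
    ← ENNReal.ofReal_mul (by positivity)]
  apply ENNReal.ofReal_le_ofReal
  calc (p * a) ^ 2 = p * (p * a * a) := by ring
    _ ≤ p * (2 * b) := mul_le_mul_of_nonneg_left h4 hp
    _ = 2 * p * b := by ring

/-- The lower bound, from `chi_le_Hs`. -/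
theorem chi_le_Rs {p : ℝ} (hp0 : 0 ≤ p) (hp1 : p ≤ 1) (e : Dir d) :
    ENNReal.ofReal p * chi d p ≤ (1 + Rs p e) * Rs p e := by
  calc ENNReal.ofReal p * chi d p ≤ ENNReal.ofReal p * ((1 + Rs p e) * Hs p e 0) :=
        mul_le_mul' le_rfl (chi_le_Hs hp0 hp1 e)
    _ = (1 + Rs p e) * (ENNReal.ofReal p * Hs p e 0) := by ring
    _ = (1 + Rs p e) * Rs p e := by rw [← Rs_eq]

end Pool.Agent.HD
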