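import Pool.Agent.Lib.MP_8ca597_hd.S03
import Pool.Agent.Lib.MP_8ca597_hd.A02

/-!
# Row S06: lower bounds of the capacity (A5)

`cap_ge`: if `en K ≤ |K|` take `Z = K`. Otherwise let `Z` be the random subset of `K` with
parameter `λ = |K| / en K`: the expectation of `kap Z` is `λ |K| - λ² en K / 2 = |K|² / (2 en K)`
(`EE` with `S = K`, `α = Vx d`). `cap_ge_pow`: the sum over `z ∈ K` with `nm (x - z) ≤ R` is at most
`C R ^ 40`, the rest is at most `|K| C R ^ (-800)`; `R = ⌈|K| ^ (1/800)⌉`.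
-/

set_option autoImplicit false

namespace Pool.Agent.HD

open Finset
open scoped ENNReal

variable {d : ℕ}

theorem en_nonneg {bb : Vx d → ℝ} (hb : ∀ x, 0 ≤ bb x) (K : Finset (Vx d)) : 0 ≤ en bb K :=
  Finset.sum_nonneg fun _ _ => Finset.sum_nonneg fun _ _ => hb _

open Classical in
private theorem S06_ind {l : ℝ} {K : Finset (Vx d)} {z : Vx d} (hz : z ∈ K) :
    EE l K (fun Z => if z ∈ Z then (1 : ℝ) else 0) = l := by
  have h1 := PP_mem (α := Vx d) l hz
  rw [PP_def] at h1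
  refine Eq.trans (EE_congr fun T _ => ?_) h1
  simp only [Set.mem_setOf_eq]

open Classical in
private theorem S06_card (l : ℝ) (K : Finset (Vx d)) :
    EE l K (fun Z => (Z.card : ℝ)) = l * K.card := by
  have h1 : EE l K (fun Z => (Z.card : ℝ)) =
      EE l K (fun Z => ∑ z ∈ K, if z ∈ Z then (1 : ℝ) else 0) := by
    apply EE_congr
    intro T hT
    rw [← Finset.sum_filter, Finset.sum_const, nsmul_eq_mul, mul_one,
      Finset.filter_mem_eq_inter, Finset.inter_eq_right.2 hT]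
  rw [h1, EE_sum, Finset.sum_congr rfl fun z hz => S06_ind hz, Finset.sum_const, nsmul_eq_mul]
  ring

open Classical in
private theorem S06_en (l : ℝ) (bb : Vx d → ℝ) (K : Finset (Vx d)) :
    EE l K (en bb) = l ^ 2 * en bb K := by
  have h1 : EE l K (en bb) = EE l K (fun Z => ∑ z ∈ K, ∑ z' ∈ K.erase z,
      ((if z ∈ Z then (1 : ℝ) else 0) * (if z' ∈ Z then (1 : ℝ) else 0)) * bb (z - z')) := by
    apply EE_congr
    intro T hT
    unfold en
    rw [← Finset.sum_subset hT (f := fun z => ∑ z' ∈ K.erase z,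
      ((if z ∈ T then (1 : ℝ) else 0) * (if z' ∈ T then (1 : ℝ) else 0)) * bb (z - z'))]
    · refine Finset.sum_congr rfl fun z hz => ?_
      rw [← Finset.sum_subset (Finset.erase_subset_erase z hT) (f := fun z' =>
        ((if z ∈ T then (1 : ℝ) else 0) * (if z' ∈ T then (1 : ℝ) else 0)) * bb (z - z'))]
      · refine Finset.sum_congr rfl fun z' hz' => ?_
        rw [if_pos hz, if_pos (Finset.mem_of_mem_erase hz')]
        ring
      · intro z' hz' hz'T
        have : z' ∉ T := fun h => hz'T (Finset.mem_erase.2 ⟨(Finset.mem_erase.1 hz').1, h⟩)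
        rw [if_neg this]
        ring
    · intro z _ hz
      refine Finset.sum_eq_zero fun z' _ => ?_
      rw [if_neg hz]
      ring
  rw [h1, EE_sum]
  unfold en
  rw [Finset.mul_sum]
  refine Finset.sum_congr rfl fun z hz => ?_
  rw [EE_sum, Finset.mul_sum]
  refine Finset.sum_congr rfl fun z' hz' => ?_
  rw [EE_mul_const, EE_mul l (Finset.singleton_subset_iff.2 hz)
    (Finset.singleton_subset_iff.2 (Finset.mem_of_mem_erase hz')), S06_ind hz,
    S06_ind (Finset.mem_of_mem_erase hz')]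
  · ring
  · rw [Finset.disjoint_singleton_left, Finset.mem_singleton]
    exact (Finset.mem_erase.1 hz').1.symm
  · intro T T' h
    have : z ∈ T ∩ {z} ↔ z ∈ T' ∩ {z} := by rw [h]
    simp only [Finset.mem_inter, Finset.mem_singleton, and_true] at this
    simp only [this]
  · intro T T' h
    have : z' ∈ T ∩ {z'} ↔ z' ∈ T' ∩ {z'} := by rw [h]
    simp only [Finset.mem_inter, Finset.mem_singleton, and_true] at this
    simp only [this]

theorem cap_ge {bb : Vx d → ℝ} (hb : ∀ x, 0 ≤ bb x) (K : Finset (Vx d)) :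
    (K.card : ℝ) ^ 2 ≤ 2 * cap bb K * (K.card + en bb K) := by
  have hen := en_nonneg hb K
  have hc : (0 : ℝ) ≤ K.card := by positivity
  rcases le_or_gt (en bb K) K.card with h | h
  · have h1 : kap bb K ≤ cap bb K := kap_le_cap bb (Finset.Subset.refl K)
    unfold kap at h1
    have h2 : (K.card : ℝ) / 2 ≤ cap bb K := by linarith
    nlinarith [mul_nonneg hc hen]
  · have hpos : 0 < en bb K := lt_of_le_of_lt hc h
    have hl0 : 0 ≤ (K.card : ℝ) / en bb K := by positivity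
    have hl1 : (K.card : ℝ) / en bb K ≤ 1 := (div_le_one hpos).2 h.le
    have h1 : EE ((K.card : ℝ) / en bb K) K (kap bb) ≤ cap bb K := by
      have := EE_mono (S := K) hl0 hl1 (f := kap bb) (g := fun _ => cap bb K)
        (fun T hT => kap_le_cap bb hT)
      rwa [EE_const] at this
    have h2 : EE ((K.card : ℝ) / en bb K) K (kap bb) =
        (K.card : ℝ) / en bb K * K.card - ((K.card : ℝ) / en bb K) ^ 2 * en bb K / 2 := by
      have e : EE ((K.card : ℝ) / en bb K) K (kap bb) =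
          EE ((K.card : ℝ) / en bb K) K (fun T => (T.card : ℝ) - en bb T * (1 / 2)) := by
        apply EE_congr
        intro T _
        unfold kap
        ring
      rw [e, EE_sub, EE_mul_const, S06_card, S06_en]
      ring
    rw [h2] at h1
    have h3 : (K.card : ℝ) / en bb K * K.card - ((K.card : ℝ) / en bb K) ^ 2 * en bb K / 2 =
        (K.card : ℝ) ^ 2 / (2 * en bb K) := by
      field_simp
      ring
    rw [h3, div_le_iff₀ (by positivity)] at h1
    have h4 : 0 ≤ cap bb K := cap_nonneg bb K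
    nlinarith [mul_nonneg h4 hc]

private theorem S06_R {n : ℕ} (hn : 1 ≤ n) : ∃ R : ℕ, 1 ≤ R ∧ (n : ℝ) ≤ (R : ℝ) ^ 800 ∧
    (R : ℝ) ^ 40 ≤ 2 ^ 40 * (n : ℝ) ^ (1 / 20 : ℝ) := by
  have hn' : (1 : ℝ) ≤ n := by exact_mod_cast hn
  have hn0 : (0 : ℝ) ≤ n := by positivity
  set t : ℝ := (n : ℝ) ^ (1 / 800 : ℝ) with ht
  have ht1 : 1 ≤ t := Real.one_le_rpow hn' (by norm_num)
  have ht800 : t ^ 800 = n := by
    rw [ht, ← Real.rpow_natCast, ← Real.rpow_mul hn0]
    norm_num
  have ht40 : t ^ 40 = (n : ℝ) ^ (1 / 20 : ℝ) := by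
    rw [ht, ← Real.rpow_natCast, ← Real.rpow_mul hn0]
    norm_num
  have hR1 : 1 ≤ ⌈t⌉₊ := Nat.one_le_ceil_iff.2 (by linarith)
  have hRt : t ≤ ⌈t⌉₊ := Nat.le_ceil t
  have hR2 : (⌈t⌉₊ : ℝ) ≤ 2 * t := by
    have := Nat.ceil_lt_add_one (by linarith : 0 ≤ t)
    linarith
  refine ⟨⌈t⌉₊, hR1, ?_, ?_⟩
  · rw [← ht800]
    exact pow_le_pow_left₀ (by linarith) hRt 800
  · rw [← ht40, ← mul_pow]
    exact pow_le_pow_left₀ (by positivity) hR2 40

/-- The sum of a decaying kernel over a set. -/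
theorem sum_ker_le {bb : Vx d → ℝ} (hb : ∀ x, 0 ≤ bb x) {C : ℝ} (hC : 1 ≤ C)
    (h1 : ∀ R : ℕ, 1 ≤ R → ∑ x ∈ (Bx d R).erase 0, bb x ≤ C * (R : ℝ) ^ 40)
    (h2 : ∀ x : Vx d, x ≠ 0 → bb x ≤ C / (nm x : ℝ) ^ 800) (K : Finset (Vx d)) (x : Vx d) :
    ∑ z ∈ K.erase x, bb (x - z) ≤ 2 ^ 42 * C * (K.card : ℝ) ^ (1 / 20 : ℝ) := by
  classical
  rcases K.eq_empty_or_nonempty with rfl | hne
  · rw [Finset.erase_empty, Finset.sum_empty]
    positivity
  have hn : 1 ≤ K.card := hne.card_pos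
  have hn' : (1 : ℝ) ≤ K.card := by exact_mod_cast hn
  obtain ⟨R, hR1, hR2, hR3⟩ := S06_R hn
  have hn20 : (1 : ℝ) ≤ (K.card : ℝ) ^ (1 / 20 : ℝ) := Real.one_le_rpow hn' (by norm_num)
  rw [← Finset.sum_filter_add_sum_filter_not (K.erase x) (fun z => nm (x - z) ≤ R)]
  have hA : ∑ z ∈ (K.erase x).filter (fun z => nm (x - z) ≤ R), bb (x - z) ≤
      C * (2 ^ 40 * (K.card : ℝ) ^ (1 / 20 : ℝ)) := by
    calc ∑ z ∈ (K.erase x).filter (fun z => nm (x - z) ≤ R), bb (x - z)
        = ∑ y ∈ ((K.erase x).filter (fun z => nm (x - z) ≤ R)).image (fun z => x - z), bb y := by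
          rw [Finset.sum_image]
          intro a _ b _ hab
          exact sub_right_injective hab
      _ ≤ ∑ y ∈ (Bx d R).erase 0, bb y := by
          refine Finset.sum_le_sum_of_subset_of_nonneg ?_ fun y _ _ => hb y
          intro y hy
          obtain ⟨z, hz, rfl⟩ := Finset.mem_image.1 hy
          rw [Finset.mem_filter, Finset.mem_erase] at hz
          rw [Finset.mem_erase, mem_Bx]
          exact ⟨fun h => hz.1.1 (sub_eq_zero.1 h).symm, hz.2⟩
      _ ≤ C * (R : ℝ) ^ 40 := h1 R hR1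
      _ ≤ _ := mul_le_mul_of_nonneg_left hR3 (by linarith)
  have hB : ∑ z ∈ (K.erase x).filter (fun z => ¬ nm (x - z) ≤ R), bb (x - z) ≤ C := by
    calc ∑ z ∈ (K.erase x).filter (fun z => ¬ nm (x - z) ≤ R), bb (x - z)
        ≤ ∑ z ∈ (K.erase x).filter (fun z => ¬ nm (x - z) ≤ R), C / K.card := by
          refine Finset.sum_le_sum fun z hz => ?_
          rw [Finset.mem_filter, Finset.mem_erase, not_le] at hz
          have hne : x - z ≠ 0 := fun h => hz.1.1 (sub_eq_zero.1 h).symm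
          refine (h2 _ hne).trans ?_
          have hR : (R : ℝ) ≤ nm (x - z) := by exact_mod_cast hz.2.le
          have hR0 : (0 : ℝ) < R := by exact_mod_cast hR1
          refine div_le_div_of_nonneg_left (by linarith) (by linarith) (hR2.trans ?_)
          exact pow_le_pow_left₀ hR0.le hR 800
      _ = ((K.erase x).filter (fun z => ¬ nm (x - z) ≤ R)).card * (C / K.card) := by
          rw [Finset.sum_const, nsmul_eq_mul]
      _ ≤ K.card * (C / K.card) := by
          refine mul_le_mul_of_nonneg_right ?_ (by positivity)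
          have : ((K.erase x).filter (fun z => ¬ nm (x - z) ≤ R)).card ≤ K.card :=
            (Finset.card_filter_le _ _).trans (Finset.card_le_card (Finset.erase_subset _ _))
          exact_mod_cast this
      _ = C := by field_simp
  nlinarith [mul_le_mul_of_nonneg_left hn20 (by linarith : (0 : ℝ) ≤ C)]

theorem cap_ge_pow {bb : Vx d → ℝ} (hb : ∀ x, 0 ≤ bb x) {C : ℝ} (hC : 1 ≤ C)
    (h1 : ∀ R : ℕ, 1 ≤ R → ∑ x ∈ (Bx d R).erase 0, bb x ≤ C * (R : ℝ) ^ 40)
    (h2 : ∀ x : Vx d, x ≠ 0 → bb x ≤ C / (nm x : ℝ) ^ 800) (K : Finset (Vx d)) :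
    (K.card : ℝ) ^ (19 / 20 : ℝ) ≤ 2 ^ 44 * C * cap bb K := by
  have hcap := cap_nonneg bb K
  rcases K.eq_empty_or_nonempty with rfl | hne
  · rw [Finset.card_empty, Nat.cast_zero, Real.zero_rpow (by norm_num)]
    positivity
  have hn : 1 ≤ K.card := hne.card_pos
  have hn' : (1 : ℝ) ≤ K.card := by exact_mod_cast hn
  have hn0 : (0 : ℝ) < K.card := by linarith
  set t : ℝ := (K.card : ℝ) ^ (1 / 20 : ℝ) with ht
  have ht1 : 1 ≤ t := Real.one_le_rpow hn' (by norm_num)
  have hen : en bb K ≤ K.card * (2 ^ 42 * C * t) := by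
    unfold en
    calc ∑ z ∈ K, ∑ z' ∈ K.erase z, bb (z - z') ≤ ∑ z ∈ K, 2 ^ 42 * C * t :=
          Finset.sum_le_sum fun z _ => sum_ker_le hb hC h1 h2 K z
      _ = _ := by rw [Finset.sum_const, nsmul_eq_mul]
  have hge := cap_ge hb K
  have h3 : (K.card : ℝ) + en bb K ≤ K.card * (2 ^ 43 * C * t) := by
    have : (1 : ℝ) ≤ 2 ^ 42 * C * t := by
      have : (1 : ℝ) ≤ C * t := by nlinarith
      nlinarith
    nlinarith
  have h4 : (K.card : ℝ) ^ 2 ≤ (K.card * t) * (2 ^ 44 * C * cap bb K) := by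
    refine hge.trans ?_
    calc 2 * cap bb K * (K.card + en bb K) ≤ 2 * cap bb K * (K.card * (2 ^ 43 * C * t)) :=
          mul_le_mul_of_nonneg_left h3 (by positivity)
      _ = _ := by ring
  have h5 : (K.card : ℝ) ^ (19 / 20 : ℝ) * (K.card * t) = (K.card : ℝ) ^ 2 := by
    rw [ht]
    nth_rewrite 2 [← Real.rpow_one (K.card : ℝ)]
    rw [← Real.rpow_add hn0, ← Real.rpow_add hn0, ← Real.rpow_natCast]
    norm_num
  rw [← h5, mul_comm] at h4
  exact le_of_mul_le_mul_left h4 (by positivity)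

end Pool.Agent.HD
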