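import Pool.Agent.Lib.MP_8ca597_hd.A16

/-!
# Supercritical part: definitions
-/

set_option autoImplicit false

namespace Pool.Agent.HD

open Finset
open scoped ENNReal

variable {d : ℕ}

/-- The vertices of the box of radius `n` which are joined to its boundary. -/
noncomputable def JJ (n : ℕ) (T : Finset (Ed d)) : Finset (Vx d) := clS T (Bx d n) (Bd d n)

/-- The energy of a set. -/
noncomputable def en (bb : Vx d → ℝ) (K : Finset (Vx d)) : ℝ :=
  ∑ z ∈ K, ∑ z' ∈ K.erase z, bb (z - z')

/-- The number of elements minus half of the energy. -/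
noncomputable def kap (bb : Vx d → ℝ) (Z : Finset (Vx d)) : ℝ := Z.card - en bb Z / 2

/-- The capacity. -/
noncomputable def cap (bb : Vx d → ℝ) (K : Finset (Vx d)) : ℝ :=
  K.powerset.sup' ⟨∅, empty_mem_powerset K⟩ (kap bb)

open Classical in
/-- The number of pairs of neighbours in `K × J`. -/
noncomputable def cont (K J : Finset (Vx d)) : ℕ := ((K ×ˢ J).filter fun q => Adj q.1 q.2).card

/-- The expectation of `F C`, where `C` is the cluster of `0`, on the event that `C` is finite. -/
noncomputable def EF (p : ℝ) (F : Finset (Vx d) → ℝ≥0∞) : ℝ≥0∞ :=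
  ∑' K : Finset (Vx d), ENNReal.ofReal (ww p K) * F K

open Classical in
/-- The truncated two-point function. -/
noncomputable def tauf (p : ℝ) (x : Vx d) : ℝ≥0∞ := EF p fun K => if x ∈ K then 1 else 0

/-- The truncated susceptibility. -/
noncomputable def chif (d : ℕ) (p : ℝ) : ℝ≥0∞ := EF p fun K : Finset (Vx d) => (K.card : ℝ≥0∞)

/-- The hypothesis that the flux out of every finite set is at least one. -/
def FluxGe (d : ℕ) (p : ℝ) : Prop :=
  ∀ (S : Finset (Vx d)) (a : Vx d), a ∈ S → 1 ≤ ∑ q ∈ exits S (nbh S), tau p S a q.1 * p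

/-- The hypothesis on the kernel `bb`. -/
structure Ker (d : ℕ) (p : ℝ) (bb : Vx d → ℝ) : Prop where
  nonneg : ∀ x, 0 ≤ bb x
  even : ∀ x, bb (-x) = bb x
  bound : ∀ (S : Finset (Vx d)) (z z' : Vx d), z ∈ S → z' ∈ S → z ≠ z' →
    tau p S z z' + ∑ y ∈ S, tau p S z y * (p * ∑ x ∈ nbr y, tau p S z' x) ≤ bb (z - z')

end Pool.Agent.HD
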