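import Pool.Agent.Lib.MP_8ca597_hd.BX
import Pool.Agent.Lib.MP_8ca597_hd.Crit
import Pool.Agent.Lib.MP_8ca597_hd.S06
import Pool.Agent.Lib.MP_8ca597_hd.SDefs

/-!
# Row S11: the kernel of the energy

`dc_pow8`: `tt ≤ tw` (B02 `tt_le_tw`) so `Dc h (tt pc) C 10 (m - 11)` (symmetry: `tt_sp`), and `dc_cv` with the
pairs of exponents `(10, m-11), (31, m-31), (72, m-72), (154, m-154), (318, m-318), (646, m-646),
(1302, m-1302), (2614, m-2614)` for the powers `1, …, 8` (`Dc.mono` before each use: `dc_cv m α 10 a`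
with `a` the smaller decay exponent); finally `Dc.mono`. `cpw_bdd`: for `x ≠ 0` from `Dc.sup`, for `x = 0` from
`vol` with `R = 1`; power `0` is `dl`. `cv_bI_bdd`: `cv (cpw τ j) bI = cpw τ (j+1) + pc ∑_e cpw τ (j+2) (· - e)`.
`bR_sum`, `bR_le`: the powers `1` and `2` (`(10, m-11)`, `(31, m-31)`); the points of `Bx d R` are among those
with `nm (pj h x) ≤ R`; a shift by `e` changes `R` to `R + 1`, `nm x` to at least `nm x - 1`. `ker_bR`:
`tau p S z z' ≤ tt (z - z')` and, in `[0, ∞]`, the sum over `y` of `tt (y - z) tt (z' - y - e)` is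
`cv tt tt (z' - z - e)`; `tt`, `cv tt tt` are even, `nbr y` is the set of the `y + e`, `e ∈ nbr 0`.
-/

set_option autoImplicit false

namespace Pool.Agent.HD

open Finset
open scoped ENNReal

/-- The kernel of the energy. -/
noncomputable def bI (d : ℕ) (x : Vx d) : ℝ≥0∞ :=
  tt (pc d) x + ENNReal.ofReal (pc d) * ∑ e ∈ nbr (0 : Vx d), cv (tt (pc d)) (tt (pc d)) (x - e)

/-- The kernel of the energy as a real function. -/
noncomputable def bR (d : ℕ) (x : Vx d) : ℝ := (bI d x).toReal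

variable {m d : ℕ} {h : m ≤ d} {C : ℝ}

private theorem S11_base (hc : Crit m d h C) :
    Dc h (tt (pc d)) (ENNReal.ofReal C) 10 (m - 11) :=
  hc.dc.mono_fun (fun x => tt_le_tw (pc d) x) (fun π x => tt_perm (pc d) π x)

private theorem S11_b {j n : ℕ} (hj : j ≤ n) (hn : n ≤ 8) : 21 * 2 ^ j ≤ 21 * 2 ^ 8 :=
  Nat.mul_le_mul_left 21 (Nat.pow_le_pow_right (by norm_num) (hj.trans hn))

private theorem S11_pow (hc : Crit m d h C) (n : ℕ) (hn : n ≤ 8) : ∃ C' : ℝ, 0 < C' ∧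
    ∀ j : ℕ, j < n → Dc h (cpw (tt (pc d)) (j + 1)) (ENNReal.ofReal C') (21 * 2 ^ j - 10)
      (m - (21 * 2 ^ j - 10)) := by
  have hm := hc.m_ge
  have hC := hc.one_le
  induction n with
  | zero => exact ⟨1, one_pos, fun j hj => absurd hj (Nat.not_lt_zero j)⟩
  | succ n ih =>
    obtain ⟨C', hC', H⟩ := ih (by omega)
    rcases Nat.eq_zero_or_pos n with rfl | hn0
    · refine ⟨C, by linarith, fun j hj => ?_⟩
      have hj0 : j = 0 := by omega
      subst hj0
      rw [cpw_one]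
      exact (S11_base hc).mono le_rfl (by norm_num) (by omega) (by omega)
    · obtain ⟨k, rfl⟩ : ∃ k, n = k + 1 := ⟨n - 1, by omega⟩
      have hk : 21 * 2 ^ k ≤ 21 * 2 ^ 6 :=
        Nat.mul_le_mul_left 21 (Nat.pow_le_pow_right (by norm_num) (by omega))
      have hk1 : 1 ≤ 2 ^ k := Nat.one_le_two_pow
      have hk2 : (2 : ℕ) ^ 6 = 64 := by norm_num
      have hk3 : (2 : ℕ) ^ (k + 1) = 2 * 2 ^ k := by ring
      have H1 := H k (by omega)
      have H2 : Dc h (tt (pc d)) (ENNReal.ofReal C) 10 (m - (21 * 2 ^ k - 10)) :=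
        (S11_base hc).mono le_rfl le_rfl (by omega) (by omega)
      have H3 := Dc.conv (by omega) (by omega) H2 H1
      refine ⟨max C' (64 ^ m * C * C'), lt_max_of_lt_left hC', fun j hj => ?_⟩
      rcases Nat.lt_succ_iff_lt_or_eq.1 hj with hj | rfl
      · have h21 : 21 * 2 ^ j ≤ 21 * 2 ^ 8 := S11_b (le_of_lt hj) (by omega)
        have h1 : 1 ≤ 2 ^ j := Nat.one_le_two_pow
        have h8 : (2 : ℕ) ^ 8 = 256 := by norm_num
        exact (H j hj).mono (ENNReal.ofReal_le_ofReal (le_max_left _ _)) le_rfl le_rfl (by omega)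
      · have h64 : (64 : ℝ≥0∞) ^ m * ENNReal.ofReal C * ENNReal.ofReal C' =
            ENNReal.ofReal (64 ^ m * C * C') := by
          rw [ENNReal.ofReal_mul (by positivity), ENNReal.ofReal_mul (by positivity),
            ENNReal.ofReal_pow (by norm_num)]
          norm_num
        rw [h64] at H3
        exact H3.mono (ENNReal.ofReal_le_ofReal (le_max_right _ _)) (by omega) (by omega)
          (by omega)

private theorem S11_two (hc : Crit m d h C) : ∃ C' : ℝ, 0 < C' ∧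
    Dc h (cv (tt (pc d)) (tt (pc d))) (ENNReal.ofReal C') 40 800 := by
  obtain ⟨C', hC', H⟩ := S11_pow hc 2 (by norm_num)
  have hm := hc.m_ge
  have h1 := (H 1 (by norm_num)).mono (A' := ENNReal.ofReal C') (α' := 40) (a' := 800) le_rfl
    (by norm_num) (by omega) (by norm_num)
  have h2 : cpw (tt (pc d) : Vx d → ℝ≥0∞) (1 + 1) = cv (tt (pc d)) (tt (pc d)) := by
    show cv (tt (pc d)) (cpw (tt (pc d)) 1) = _
    rw [cpw_one]
  rw [h2] at h1
  exact ⟨C', hC', h1⟩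

private theorem S11_pc0 (d : ℕ) : 0 ≤ pc d := Real.sInf_nonneg fun _ h => h.1.1

private theorem S11_pc1 (hc : Crit m d h C) : pc d ≤ 1 := by
  have := hc.pc_hi
  linarith

private theorem S11_neg_nbr (F : Vx d → ℝ≥0∞) :
    ∑ e ∈ nbr (0 : Vx d), F (-e) = ∑ e ∈ nbr (0 : Vx d), F e := by
  refine Finset.sum_bij' (fun e _ => -e) (fun e _ => -e) ?_ ?_ ?_ ?_ ?_
  · intro e he
    rw [mem_nbr] at he ⊢
    have := (adj_neg 0 e).2 he
    rwa [neg_zero] at this
  · intro e he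
    rw [mem_nbr] at he ⊢
    have := (adj_neg 0 e).2 he
    rwa [neg_zero] at this
  · intro e _
    exact neg_neg e
  · intro e _
    exact neg_neg e
  · intro e _
    rfl

private theorem S11_bI_even (d : ℕ) (x : Vx d) : bI d (-x) = bI d x := by
  unfold bI
  rw [tt_neg, ← S11_neg_nbr (fun e => cv (tt (pc d)) (tt (pc d)) (x - e))]
  congr 2
  refine Finset.sum_congr rfl fun e _ => ?_
  have h1 : -x - e = -(x - -e) := by abel
  rw [h1, cv_neg (fun y => tt_neg (pc d) y) (fun y => tt_neg (pc d) y)]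

private theorem S11_cv_shift (f g : Vx d → ℝ≥0∞) (e x : Vx d) :
    cv f (fun y => g (y - e)) x = cv f g (x - e) := by
  unfold cv
  refine tsum_congr fun y => ?_
  show f y * g (x - y - e) = f y * g (x - e - y)
  have : x - y - e = x - e - y := by abel
  rw [this]

theorem dc_pow8 (hc : Crit m d h C) : ∃ C' : ℝ, 0 < C' ∧ ∀ j : ℕ, 1 ≤ j → j ≤ 8 →
    Dc h (cpw (tt (pc d)) j) (ENNReal.ofReal C') 2700 (m - 2700) := by
  obtain ⟨C', hC', H⟩ := S11_pow hc 8 le_rfl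
  refine ⟨C', hC', fun j h1 h8 => ?_⟩
  obtain ⟨k, rfl⟩ : ∃ k, j = k + 1 := ⟨j - 1, by omega⟩
  have hm := hc.m_ge
  have hk : 21 * 2 ^ k ≤ 21 * 2 ^ 7 :=
    Nat.mul_le_mul_left 21 (Nat.pow_le_pow_right (by norm_num) (by omega))
  have h7 : (2 : ℕ) ^ 7 = 128 := by norm_num
  exact (H k (by omega)).mono le_rfl (by omega) (by omega) (by omega)

theorem cpw_bdd (hc : Crit m d h C) : ∃ C' : ℝ, 0 < C' ∧ ∀ j : ℕ, j ≤ 8 → ∀ x : Vx d,
    cpw (tt (pc d)) j x ≤ ENNReal.ofReal C' := by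
  obtain ⟨C', hC', H⟩ := dc_pow8 hc
  refine ⟨max C' 1, lt_max_of_lt_left hC', fun j hj x => ?_⟩
  rcases Nat.eq_zero_or_pos j with rfl | hj0
  · show dl x ≤ _
    have h1 : (dl x : ℝ≥0∞) ≤ 1 := by
      unfold dl
      split_ifs
      · exact le_rfl
      · exact zero_le_one
    refine h1.trans ?_
    rw [← ENNReal.ofReal_one]
    exact ENNReal.ofReal_le_ofReal (le_max_right _ _)
  · exact ((H j hj0 hj).le_const x).trans (ENNReal.ofReal_le_ofReal (le_max_left _ _))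

theorem cv_bI_bdd (hc : Crit m d h C) : ∃ C' : ℝ, 0 < C' ∧ ∀ j : ℕ, j ≤ 6 → ∀ x : Vx d,
    cv (cpw (tt (pc d)) j) (bI d) x ≤ ENNReal.ofReal C' := by
  obtain ⟨C', hC', H⟩ := cpw_bdd hc
  refine ⟨C' + 1 * ((2 * d : ℕ) * C'), by positivity, fun j hj x => ?_⟩
  have h1 : cv (cpw (tt (pc d)) j) (bI d) x = cpw (tt (pc d)) (j + 1) x +
      ENNReal.ofReal (pc d) * ∑ e ∈ nbr (0 : Vx d), cpw (tt (pc d)) (j + 2) (x - e) := by
    have e1 : bI d = fun x => tt (pc d) x +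
      (fun x => ENNReal.ofReal (pc d) *
        (fun x => ∑ e ∈ nbr (0 : Vx d), (fun e x => cv (tt (pc d)) (tt (pc d)) (x - e)) e x) x) x :=
      rfl
    rw [e1, cv_add, cv_smul, cv_sum]
    congr 1
    · rw [cpw_add, cpw_one]
    · congr 1
      refine Finset.sum_congr rfl fun e _ => ?_
      rw [S11_cv_shift, cpw_add]
      congr 1
      have e2 : cpw (tt (pc d) : Vx d → ℝ≥0∞) 2 = cv (tt (pc d)) (tt (pc d)) := by
        show cv (tt (pc d)) (cpw (tt (pc d)) 1) = _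
        rw [cpw_one]
      rw [e2]
  rw [h1, ENNReal.ofReal_add hC'.le (by positivity), ENNReal.ofReal_mul zero_le_one]
  refine add_le_add (H (j + 1) (by omega) x) (mul_le_mul' ?_ ?_)
  · exact ENNReal.ofReal_le_ofReal (S11_pc1 hc)
  · calc ∑ e ∈ nbr (0 : Vx d), cpw (tt (pc d)) (j + 2) (x - e)
        ≤ ∑ _e ∈ nbr (0 : Vx d), ENNReal.ofReal C' :=
          Finset.sum_le_sum fun e _ => H (j + 2) (by omega) (x - e)
      _ = ENNReal.ofReal ((2 * d : ℕ) * C') := by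
          rw [Finset.sum_const, card_nbr, nsmul_eq_mul, ENNReal.ofReal_mul (by positivity),
            ENNReal.ofReal_natCast]

private theorem S11_bI_ne_top (hc : Crit m d h C) (x : Vx d) : bI d x ≠ ⊤ := by
  obtain ⟨C', _, H⟩ := cv_bI_bdd hc
  have h1 := H 0 (by norm_num) x
  have h2 : cpw (tt (pc d)) 0 = (dl : Vx d → ℝ≥0∞) := rfl
  rw [h2, dl_cv] at h1
  exact ne_top_of_le_ne_top ENNReal.ofReal_ne_top h1

theorem ofReal_bR (hc : Crit m d h C) (x : Vx d) : ENNReal.ofReal (bR d x) = bI d x :=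
  ENNReal.ofReal_toReal (S11_bI_ne_top hc x)

theorem bR_nonneg (d : ℕ) (x : Vx d) : 0 ≤ bR d x := ENNReal.toReal_nonneg

theorem bR_even (d : ℕ) (x : Vx d) : bR d (-x) = bR d x := by
  unfold bR
  rw [S11_bI_even]

private theorem S11_vol_shift (g : Vx d → ℝ≥0∞) {e : Vx d} (he : e ∈ nbr (0 : Vx d)) (R : ℕ) :
    Vv h (fun x => g (x - e)) R ≤ Vv h g (R + 1) := by
  have hne : nm e ≤ 1 := by
    have h1 := nm_adj ((mem_nbr).1 he)
    have h2 : nm (0 : Vx d) = 0 := nm_eq_zero.2 rfl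
    omega
  unfold Vv
  rw [← Equiv.tsum_eq (Equiv.addRight e)]
  refine ENNReal.tsum_le_tsum fun x => ?_
  show (if nm (pj h (x + e)) ≤ R then g (x + e - e) else 0) ≤
    if nm (pj h x) ≤ R + 1 then g x else 0
  rw [add_sub_cancel_right]
  by_cases h1 : nm (pj h (x + e)) ≤ R
  · rw [if_pos h1, if_pos]
    have h2 : nm (pj h x) ≤ nm (pj h (x + e)) + nm (pj h e) := by
      have h3 : pj h x = pj h (x + e) - pj h e := by
        rw [pj_add, add_sub_cancel_right]
      rw [h3]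
      have h4 := nm_sub_le (pj h (x + e)) (pj h e)
      exact h4
    have h5 := nm_pj_le h e
    omega
  · rw [if_neg h1]
    exact bot_le

private theorem S11_sum (hc : Crit m d h C) : ∃ C' : ℝ, 0 < C' ∧ ∀ R : ℕ, 1 ≤ R →
    ∑ x ∈ Bx d R, bI d x ≤ ENNReal.ofReal C' * (R : ℝ≥0∞) ^ 40 := by
  obtain ⟨C2, hC2, H2⟩ := S11_two hc
  have H1 := S11_base hc
  have hC := hc.one_le
  refine ⟨C + (2 * d : ℕ) * (C2 * 2 ^ 40), by positivity, fun R hR => ?_⟩
  have hR1 : (1 : ℝ≥0∞) ≤ R := by exact_mod_cast hR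
  have h1 : ∑ x ∈ Bx d R, tt (pc d) x ≤ ENNReal.ofReal C * (R : ℝ≥0∞) ^ 40 := by
    refine le_trans ?_ ((H1.vol R hR).trans (mul_le_mul_right (pow_le_pow_right₀ hR1
      (by norm_num)) _))
    unfold Vv
    refine le_trans (Finset.sum_le_sum (g := fun x => if nm (pj h x) ≤ R then tt (pc d) x else 0)
      fun x hx => ?_) (ENNReal.sum_le_tsum _)
    have h2 := nm_pj_le h x
    rw [mem_Bx] at hx
    rw [if_pos (h2.trans hx)]
  have h2 : ∀ e ∈ nbr (0 : Vx d), ∑ x ∈ Bx d R, cv (tt (pc d)) (tt (pc d)) (x - e) ≤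
      ENNReal.ofReal (C2 * 2 ^ 40) * (R : ℝ≥0∞) ^ 40 := by
    intro e he
    have h3 : ∑ x ∈ Bx d R, cv (tt (pc d)) (tt (pc d)) (x - e) ≤
        Vv h (fun x => cv (tt (pc d)) (tt (pc d)) (x - e)) R := by
      unfold Vv
      refine le_trans (Finset.sum_le_sum (g := fun x => if nm (pj h x) ≤ R then
        cv (tt (pc d)) (tt (pc d)) (x - e) else 0)
        fun x hx => ?_) (ENNReal.sum_le_tsum _)
      have h2 := nm_pj_le h x
      rw [mem_Bx] at hx
      rw [if_pos (h2.trans hx)]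
    refine h3.trans ((S11_vol_shift _ he R).trans ((H2.vol (R + 1) (by omega)).trans ?_))
    rw [ENNReal.ofReal_mul hC2.le, mul_assoc]
    refine mul_le_mul_right ?_ _
    have h4 : ((R + 1 : ℕ) : ℝ≥0∞) ≤ 2 * R := by
      have : R + 1 ≤ 2 * R := by omega
      exact_mod_cast this
    calc ((R + 1 : ℕ) : ℝ≥0∞) ^ 40 ≤ (2 * R) ^ 40 := pow_le_pow_left' h4 40
      _ = ENNReal.ofReal (2 ^ 40) * (R : ℝ≥0∞) ^ 40 := by
          rw [mul_pow, ENNReal.ofReal_pow (by norm_num)]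
          norm_num
  unfold bI
  rw [Finset.sum_add_distrib, ← Finset.mul_sum, Finset.sum_comm,
    ENNReal.ofReal_add (by linarith) (by positivity), add_mul]
  refine add_le_add h1 ?_
  have h5 : ENNReal.ofReal (pc d) ≤ 1 := by
    rw [← ENNReal.ofReal_one]
    exact ENNReal.ofReal_le_ofReal (S11_pc1 hc)
  calc ENNReal.ofReal (pc d) * ∑ e ∈ nbr (0 : Vx d), ∑ x ∈ Bx d R,
        cv (tt (pc d)) (tt (pc d)) (x - e)
      ≤ 1 * ∑ _e ∈ nbr (0 : Vx d), ENNReal.ofReal (C2 * 2 ^ 40) * (R : ℝ≥0∞) ^ 40 :=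
        mul_le_mul' h5 (Finset.sum_le_sum h2)
    _ = ENNReal.ofReal ((2 * d : ℕ) * (C2 * 2 ^ 40)) * (R : ℝ≥0∞) ^ 40 := by
        rw [one_mul, Finset.sum_const, card_nbr, nsmul_eq_mul, ← mul_assoc,
          ENNReal.ofReal_mul (Nat.cast_nonneg _) (q := C2 * 2 ^ 40), ENNReal.ofReal_natCast]

private theorem S11_dec (hc : Crit m d h C) : ∃ C' : ℝ, 0 < C' ∧ ∀ x : Vx d, x ≠ 0 →
    bI d x * (nm x : ℝ≥0∞) ^ 800 ≤ ENNReal.ofReal C' := by
  obtain ⟨C2, hC2, H2⟩ := S11_two hc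
  have hm := hc.m_ge
  have hC := hc.one_le
  have H1 : Dc h (tt (pc d)) (ENNReal.ofReal C) 10 800 :=
    (S11_base hc).mono le_rfl le_rfl (by omega) (by norm_num)
  refine ⟨C + (2 * d : ℕ) * (C2 * 2 ^ 800), by positivity, fun x hx => ?_⟩
  have h1 : tt (pc d) x * (nm x : ℝ≥0∞) ^ 800 ≤ ENNReal.ofReal C := H1.sup (by omega) x
  have h2 : ∀ e ∈ nbr (0 : Vx d), cv (tt (pc d)) (tt (pc d)) (x - e) * (nm x : ℝ≥0∞) ^ 800 ≤
      ENNReal.ofReal (C2 * 2 ^ 800) := by
    intro e he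
    have hne : nm e ≤ 1 := by
      have h1 := nm_adj ((mem_nbr).1 he)
      have h2 : nm (0 : Vx d) = 0 := nm_eq_zero.2 rfl
      omega
    have h3 := nm_le_sub_add x e
    have h800 : ENNReal.ofReal ((2 : ℝ) ^ 800) = 2 ^ 800 := by
      have h8 : ENNReal.ofReal (2 : ℝ) = 2 := by norm_num
      rw [ENNReal.ofReal_pow zero_le_two, h8]
    rw [ENNReal.ofReal_mul hC2.le, h800]
    rcases Nat.eq_zero_or_pos (nm (x - e)) with h0 | h0
    · have h4 : (nm x : ℝ≥0∞) ≤ 1 := by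
        have : nm x ≤ 1 := by omega
        exact_mod_cast this
      have h5 : (nm x : ℝ≥0∞) ^ 800 ≤ 2 ^ 800 :=
        pow_le_pow_left' (h4.trans one_le_two) 800
      exact mul_le_mul' (H2.le_const (x - e)) h5
    · have h4 : (nm x : ℝ≥0∞) ≤ 2 * nm (x - e) := by
        have : nm x ≤ 2 * nm (x - e) := by omega
        exact_mod_cast this
      calc cv (tt (pc d)) (tt (pc d)) (x - e) * (nm x : ℝ≥0∞) ^ 800
          ≤ cv (tt (pc d)) (tt (pc d)) (x - e) * (2 * nm (x - e)) ^ 800 :=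
            mul_le_mul_right (pow_le_pow_left' h4 800) _
        _ = (cv (tt (pc d)) (tt (pc d)) (x - e) * (nm (x - e)) ^ 800) * 2 ^ 800 := by
            rw [mul_pow]
            ring
        _ ≤ ENNReal.ofReal C2 * 2 ^ 800 := mul_le_mul_left (H2.sup (by omega) (x - e)) _
  unfold bI
  rw [add_mul, mul_assoc, Finset.sum_mul, ENNReal.ofReal_add (by linarith) (by positivity)]
  refine add_le_add h1 ?_
  have h5 : ENNReal.ofReal (pc d) ≤ 1 := by
    rw [← ENNReal.ofReal_one]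
    exact ENNReal.ofReal_le_ofReal (S11_pc1 hc)
  calc ENNReal.ofReal (pc d) * ∑ e ∈ nbr (0 : Vx d),
        cv (tt (pc d)) (tt (pc d)) (x - e) * (nm x : ℝ≥0∞) ^ 800
      ≤ 1 * ∑ _e ∈ nbr (0 : Vx d), ENNReal.ofReal (C2 * 2 ^ 800) :=
        mul_le_mul' h5 (Finset.sum_le_sum h2)
    _ = ENNReal.ofReal ((2 * d : ℕ) * (C2 * 2 ^ 800)) := by
        rw [one_mul, Finset.sum_const, card_nbr, nsmul_eq_mul,
          ENNReal.ofReal_mul (Nat.cast_nonneg _) (q := C2 * 2 ^ 800), ENNReal.ofReal_natCast]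

theorem bR_le (hc : Crit m d h C) : ∃ C' : ℝ, 1 ≤ C' ∧
    (∀ R : ℕ, 1 ≤ R → ∑ x ∈ (Bx d R).erase 0, bR d x ≤ C' * (R : ℝ) ^ 40) ∧
    ∀ x : Vx d, x ≠ 0 → bR d x ≤ C' / (nm x : ℝ) ^ 800 := by
  obtain ⟨C1, hC1, H1⟩ := S11_sum hc
  obtain ⟨C2, hC2, H2⟩ := S11_dec hc
  refine ⟨max 1 (max C1 C2), le_max_left _ _, fun R hR => ?_, fun x hx => ?_⟩
  · have hR0 : (0 : ℝ) ≤ (R : ℝ) ^ 40 := by positivity
    have h1 : ∑ x ∈ (Bx d R).erase 0, bR d x ≤ C1 * (R : ℝ) ^ 40 := by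
      rw [← ENNReal.ofReal_le_ofReal_iff (by positivity),
        ENNReal.ofReal_sum_of_nonneg (fun x _ => bR_nonneg d x),
        Finset.sum_congr rfl (fun x _ => ofReal_bR hc x), ENNReal.ofReal_mul hC1.le,
        ENNReal.ofReal_pow (Nat.cast_nonneg R), ENNReal.ofReal_natCast]
      exact (Finset.sum_le_sum_of_subset (Finset.erase_subset _ _)).trans (H1 R hR)
    exact h1.trans (mul_le_mul_of_nonneg_right ((le_max_left _ _).trans (le_max_right _ _)) hR0)
  · have hn : 1 ≤ nm x := by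
      rcases Nat.eq_zero_or_pos (nm x) with h0 | h0
      · exact absurd (nm_eq_zero.1 h0) hx
      · exact h0
    have hn' : (0 : ℝ) < (nm x : ℝ) ^ 800 := by
      have : (0 : ℝ) < nm x := by exact_mod_cast hn
      exact pow_pos this 800
    rw [le_div_iff₀ hn']
    have h1 : bR d x * (nm x : ℝ) ^ 800 ≤ C2 := by
      rw [← ENNReal.ofReal_le_ofReal_iff hC2.le, ENNReal.ofReal_mul (bR_nonneg d x),
        ofReal_bR hc x, ENNReal.ofReal_pow (Nat.cast_nonneg (nm x)), ENNReal.ofReal_natCast]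
      exact H2 x hx
    exact h1.trans ((le_max_right _ _).trans (le_max_right _ _))

theorem ker_bR (hc : Crit m d h C) : Ker d (pc d) (bR d) := by
  have hp := S11_pc0 d
  have hp1 := S11_pc1 hc
  refine ⟨bR_nonneg d, bR_even d, fun S z z' _ _ _ => ?_⟩
  have ht : ∀ a b : Vx d, 0 ≤ tau (pc d) S a b := fun a b => PP_nonneg hp hp1
  have hle : ∀ a b : Vx d, ENNReal.ofReal (tau (pc d) S a b) ≤ tt (pc d) (b - a) := by
    intro a b
    rw [← tauI_univ]
    exact le_tauI (pc d) (Set.subset_univ _) a b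
  unfold bR
  rw [← ENNReal.ofReal_le_iff_le_toReal (S11_bI_ne_top hc _)]
  have h1 : 0 ≤ ∑ y ∈ S, tau (pc d) S z y * (pc d * ∑ x ∈ nbr y, tau (pc d) S z' x) :=
    Finset.sum_nonneg fun y _ => mul_nonneg (ht _ _)
      (mul_nonneg hp (Finset.sum_nonneg fun x _ => ht _ _))
  have hz : z - z' = -(z' - z) := by abel
  rw [ENNReal.ofReal_add (ht _ _) h1, hz, S11_bI_even]
  unfold bI
  refine add_le_add (hle z z') ?_
  rw [ENNReal.ofReal_sum_of_nonneg (fun y _ => mul_nonneg (ht _ _)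
      (mul_nonneg hp (Finset.sum_nonneg fun x _ => ht _ _)))]
  have hnb : ∀ y : Vx d, ∑ x ∈ nbr y, tt (pc d) (x - z') =
      ∑ e ∈ nbr (0 : Vx d), tt (pc d) (y + e - z') := by
    intro y
    refine Finset.sum_bij' (fun x _ => x - y) (fun e _ => y + e) ?_ ?_ ?_ ?_ ?_
    · intro x hx
      rw [mem_nbr] at hx ⊢
      have h2 := (adj_add y x (-y)).2 hx
      rwa [add_neg_cancel, ← sub_eq_add_neg] at h2
    · intro e he
      rw [mem_nbr] at he ⊢
      have h2 := (adj_add 0 e y).2 he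
      rwa [zero_add, add_comm e y] at h2
    · intro x _
      exact add_sub_cancel y x
    · intro e _
      exact add_sub_cancel_left y e
    · intro x _
      rw [add_sub_cancel]
  calc ∑ y ∈ S, ENNReal.ofReal (tau (pc d) S z y * (pc d * ∑ x ∈ nbr y, tau (pc d) S z' x))
      ≤ ∑ y ∈ S, ENNReal.ofReal (pc d) * ∑ e ∈ nbr (0 : Vx d),
          tt (pc d) (y - z) * tt (pc d) (y + e - z') := by
        refine Finset.sum_le_sum fun y _ => ?_
        rw [ENNReal.ofReal_mul (ht _ _), ENNReal.ofReal_mul hp,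
          ENNReal.ofReal_sum_of_nonneg (fun x _ => ht _ _), ← Finset.mul_sum, ← hnb y,
          mul_left_comm]
        exact mul_le_mul_right (mul_le_mul' (hle z y)
          (Finset.sum_le_sum fun x _ => hle z' x)) _
    _ = ENNReal.ofReal (pc d) * ∑ e ∈ nbr (0 : Vx d), ∑ y ∈ S,
          tt (pc d) (y - z) * tt (pc d) (y + e - z') := by
        rw [← Finset.mul_sum, Finset.sum_comm]
    _ ≤ ENNReal.ofReal (pc d) * ∑ e ∈ nbr (0 : Vx d),
          cv (tt (pc d)) (tt (pc d)) (z' - z - e) := by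
        refine mul_le_mul_right (Finset.sum_le_sum fun e _ => ?_) _
        refine (ENNReal.sum_le_tsum S).trans (le_of_eq ?_)
        unfold cv
        rw [← Equiv.tsum_eq (Equiv.subRight z)
          (fun u => tt (pc d) u * tt (pc d) (z' - z - e - u))]
        refine tsum_congr fun y => ?_
        show tt (pc d) (y - z) * tt (pc d) (y + e - z') =
          tt (pc d) (y - z) * tt (pc d) (z' - z - e - (y - z))
        have h3 : z' - z - e - (y - z) = -(y + e - z') := by abel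
        rw [h3, tt_neg]

theorem cap_pow (hc : Crit m d h C) : ∃ c : ℝ, 0 < c ∧ ∀ K : Finset (Vx d),
    c * (K.card : ℝ) ^ (19 / 20 : ℝ) ≤ cap (bR d) K := by
  obtain ⟨C', hC', H1, H2⟩ := bR_le hc
  have hpos : (0 : ℝ) < 2 ^ 44 * C' := by positivity
  refine ⟨(2 ^ 44 * C')⁻¹, inv_pos.2 hpos, fun K => ?_⟩
  rw [inv_mul_le_iff₀ hpos]
  exact cap_ge_pow (bR_nonneg d) hC' H1 H2 K

/-- The volume of the critical two-point function. -/
theorem vol_tt (hc : Crit m d h C) (R : ℕ) (hR : 1 ≤ R) :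
    Vv h (tt (pc d)) R ≤ ENNReal.ofReal C * R ^ 10 := (S11_base hc).vol R hR

end Pool.Agent.HD
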