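import Pool.Agent.Lib.MP_8ca597_hd.S01
import Pool.Agent.Lib.MP_8ca597_hd.A15
import Pool.Agent.Lib.MP_8ca597_hd.A18

/-!
# Row S12: calculus of `EF`, finite volume approximation

`0 ∉ JJ n T` iff the cluster of `0` in `Bx d n` is contained in `Bx d n \ Bd d n`, then its neighbours are in
`Bx d n` and `PP_cl_eq` applies (`0 < d`). `EF_eq_iSup`: the finite sets `(Bx d n \ Bd d n).powerset`
increase to all finite sets. `EE_trunc_le`: `PP {cl T (Bx d n) w = K} = ww p (K - w)` for
`nbh K ⊆ Bx d n`, `w ∈ K` (translation of the domain `nbh K`, as in A15).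
-/

set_option autoImplicit false

namespace Pool.Agent.HD

open Finset
open scoped ENNReal

variable {d : ℕ} {p : ℝ}

theorem EF_mono {F G : Finset (Vx d) → ℝ≥0∞} (h : ∀ K, (0 : Vx d) ∈ K → F K ≤ G K) :
    EF p F ≤ EF p G := by
  refine ENNReal.tsum_le_tsum fun K => ?_
  by_cases h0 : (0 : Vx d) ∈ K
  · exact mul_le_mul_right (h K h0) _
  · rw [ww_zero p h0]
    simp

theorem EF_add (p : ℝ) (F G : Finset (Vx d) → ℝ≥0∞) :
    EF p (fun K => F K + G K) = EF p F + EF p G := by
  unfold EF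
  rw [← ENNReal.tsum_add]
  exact tsum_congr fun K => mul_add _ _ _

theorem EF_const_mul (p : ℝ) (c : ℝ≥0∞) (F : Finset (Vx d) → ℝ≥0∞) :
    EF p (fun K => c * F K) = c * EF p F := by
  unfold EF
  rw [← ENNReal.tsum_mul_left]
  exact tsum_congr fun K => mul_left_comm _ _ _

theorem EF_tsum {ι : Type} (p : ℝ) (F : ι → Finset (Vx d) → ℝ≥0∞) :
    EF p (fun K => ∑' i, F i K) = ∑' i, EF p (F i) := by
  unfold EF
  rw [ENNReal.tsum_comm]
  exact tsum_congr fun K => ENNReal.tsum_mul_left.symm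

theorem EF_sum {ι : Type} (p : ℝ) (s : Finset ι) (F : ι → Finset (Vx d) → ℝ≥0∞) :
    EF p (fun K => ∑ i ∈ s, F i K) = ∑ i ∈ s, EF p (F i) := by
  classical
  induction s using Finset.induction_on with
  | empty => simp [EF]
  | insert a s ha ih =>
    simp only [Finset.sum_insert ha]
    rw [EF_add, ih]

theorem EF_const_le (hp : 0 ≤ p) (hp1 : p ≤ 1) (c : ℝ≥0∞) :
    EF p (fun _ : Finset (Vx d) => c) ≤ c := by
  unfold EF
  rw [ENNReal.tsum_mul_right]
  calc (∑' K : Finset (Vx d), ENNReal.ofReal (ww p K)) * c ≤ 1 * c :=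
        mul_le_mul_left (tsum_ww_le hp hp1) c
    _ = c := one_mul c

/-- The truncated susceptibility is the sum of the truncated two-point function. -/
theorem chif_eq_tsum (p : ℝ) : chif d p = ∑' x : Vx d, tauf p x := by
  classical
  unfold chif tauf
  rw [← EF_tsum]
  congr 1
  funext K
  rw [tsum_eq_sum (s := K) (fun x hx => if_neg hx)]
  rw [Finset.sum_congr rfl (fun x hx => if_pos hx)]
  simp

private theorem S12_EF_equiv (p : ℝ) (σ : Vx d ≃ Vx d) (hσ : ∀ x y, Adj (σ x) (σ y) ↔ Adj x y)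
    (h0 : σ 0 = 0) (x : Vx d) : tauf p (σ x) = tauf p x := by
  classical
  unfold tauf EF
  rw [← Equiv.tsum_eq (Equiv.finsetCongr σ)]
  refine tsum_congr fun K => ?_
  have h1 : (Equiv.finsetCongr σ) K = K.map σ.toEmbedding := rfl
  rw [h1, ww_equiv p σ hσ h0]
  have h2 : σ x ∈ K.map σ.toEmbedding ↔ x ∈ K := Finset.mem_map' σ.toEmbedding
  show ENNReal.ofReal (ww p K) * (if σ x ∈ K.map σ.toEmbedding then 1 else 0) =
    ENNReal.ofReal (ww p K) * (if x ∈ K then 1 else 0)
  by_cases h : x ∈ K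
  · rw [if_pos h, if_pos (h2.2 h)]
  · rw [if_neg h, if_neg (fun h' => h (h2.1 h'))]

theorem tauf_sp_perm (p : ℝ) (π : Equiv.Perm (Fin d)) (x : Vx d) :
    tauf p (fun i => x (π i)) = tauf p x := by
  let σ : Vx d ≃ Vx d :=
    { toFun := fun y i => y (π i)
      invFun := fun y i => y (π.symm i)
      left_inv := fun y => by funext i; simp
      right_inv := fun y => by funext i; simp }
  have hσ : ∀ x y, Adj (σ x) (σ y) ↔ Adj x y := by
    intro x y
    have h := adj_signed π (fun _ => 1) (fun _ => Or.inl rfl) x y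
    simp only [one_mul] at h
    exact h
  exact S12_EF_equiv p σ hσ rfl x

theorem tauf_neg (p : ℝ) (x : Vx d) : tauf p (-x) = tauf p x :=
  S12_EF_equiv p (Equiv.neg (Vx d)) (fun x y => adj_neg x y) neg_zero x

private theorem S12_EE_map {α β : Type} [DecidableEq α] [DecidableEq β] (p : ℝ) (E : α ↪ β)
    (S : Finset α) (f : Finset β → ℝ) : EE p (S.map E) f = EE p S fun T => f (T.map E) := by
  induction S using Finset.induction_on generalizing f with
  | empty => rw [Finset.map_empty, EE_empty, EE_empty, Finset.map_empty]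
  | insert a S ha ih =>
    have h1 : E a ∉ S.map E := by
      rw [Finset.mem_map']
      exact ha
    rw [Finset.map_insert, EE_insert p h1, EE_insert p ha, ih, ih]
    simp only [Finset.map_insert]

/-- The action on the edges. -/
private def S12_E (σ : Vx d ≃ Vx d) : Ed d ↪ Ed d := ⟨Sym2.map σ, Sym2.map.injective σ.injective⟩

private theorem S12_E_mk (σ : Vx d ≃ Vx d) (x y : Vx d) : S12_E σ s(x, y) = s(σ x, σ y) := rfl

private theorem S12_edges (σ : Vx d ≃ Vx d) (hσ : ∀ x y, Adj (σ x) (σ y) ↔ Adj x y)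
    (V : Finset (Vx d)) : edges (V.map σ.toEmbedding) = (edges V).map (S12_E σ) := by
  ext e
  induction e using Sym2.ind with
  | _ a b =>
    obtain ⟨a, rfl⟩ := σ.surjective a
    obtain ⟨b, rfl⟩ := σ.surjective b
    have hm : ∀ v : Vx d, σ v ∈ V.map σ.toEmbedding ↔ v ∈ V := by
      intro v
      exact Finset.mem_map' σ.toEmbedding
    rw [← S12_E_mk, Finset.mem_map', S12_E_mk, mem_edges, mem_edges, hm, hm, hσ]

private theorem S12_conn (σ : Vx d ≃ Vx d) (hσ : ∀ x y, Adj (σ x) (σ y) ↔ Adj x y)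
    (V : Finset (Vx d)) (T : Finset (Ed d)) (x y : Vx d) :
    Conn (T.map (S12_E σ)) (V.map σ.toEmbedding : Finset (Vx d)) (σ x) (σ y) ↔ Conn T V x y := by
  have hm : ∀ v : Vx d, σ v ∈ ((V.map σ.toEmbedding : Finset (Vx d)) : Set (Vx d)) ↔
      v ∈ (V : Set (Vx d)) := by
    intro v
    exact Finset.mem_map' σ.toEmbedding
  have hs : ∀ u v : Vx d, Step (T.map (S12_E σ)) ((V.map σ.toEmbedding : Finset (Vx d)) :
      Set (Vx d)) (σ u) (σ v) ↔ Step T V u v := by
    intro u v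
    unfold Step
    rw [hm, hσ, ← S12_E_mk, Finset.mem_map']
  constructor
  · rintro ⟨h1, h2⟩
    refine ⟨(hm x).1 h1, ?_⟩
    have h3 : ∀ u v, Relation.ReflTransGen (Step (T.map (S12_E σ))
        ((V.map σ.toEmbedding : Finset (Vx d)) : Set (Vx d))) u v →
        Relation.ReflTransGen (Step T (V : Set (Vx d))) (σ.symm u) (σ.symm v) := by
      intro u v huv
      refine Relation.ReflTransGen.lift (fun w => σ.symm w) (fun a b hab => ?_) u v huv
      show Step T V (σ.symm a) (σ.symm b)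
      rw [← hs, σ.apply_symm_apply, σ.apply_symm_apply]
      exact hab
    have h4 := h3 _ _ h2
    rwa [σ.symm_apply_apply, σ.symm_apply_apply] at h4
  · rintro ⟨h1, h2⟩
    refine ⟨(hm x).2 h1, ?_⟩
    exact Relation.ReflTransGen.lift (fun w => σ w) (fun a b hab => (hs a b).2 hab) x y h2

private theorem S12_PP_cl (p : ℝ) {V K : Finset (Vx d)} (h : nbh K ⊆ V) {w : Vx d} (hw : w ∈ K) :
    PP p (edges V) {T | cl T V w = K} = ww p (K.image (· - w)) := by
  classical
  set σ : Vx d ≃ Vx d := Equiv.subRight w with hσd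
  have hσv : ∀ x, σ x = x - w := fun x => rfl
  have hσ : ∀ x y, Adj (σ x) (σ y) ↔ Adj x y := by
    intro x y
    have := adj_add x y (-w)
    rw [hσv, hσv, sub_eq_add_neg, sub_eq_add_neg]
    exact this
  have hK : K.image (· - w) = K.map σ.toEmbedding := by
    rw [Finset.map_eq_image]
    rfl
  have h0 : (0 : Vx d) ∈ K.map σ.toEmbedding := by
    rw [Finset.mem_map]
    exact ⟨w, hw, sub_self w⟩
  have hn : nbh (K.map σ.toEmbedding) ⊆ V.map σ.toEmbedding := by
    intro y hy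
    obtain ⟨y, rfl⟩ := σ.surjective y
    have h1 : y ∈ nbh K := by
      rw [mem_nbh] at hy ⊢
      rcases hy with hy | ⟨x, hx, hxy⟩
      · exact Or.inl ((Finset.mem_map' σ.toEmbedding).1 hy)
      · obtain ⟨x, rfl⟩ := σ.surjective x
        exact Or.inr ⟨x, (Finset.mem_map' σ.toEmbedding).1 hx, (hσ x y).1 hxy⟩
    exact (Finset.mem_map' σ.toEmbedding).2 (h h1)
  rw [hK, ← PP_cl_eq p hn h0, S12_edges σ hσ, PP_def, PP_def, S12_EE_map]
  refine EE_congr fun T _ => ?_
  have hw0 : σ w = 0 := sub_self w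
  have hcl : cl (T.map (S12_E σ)) (V.map σ.toEmbedding) 0 = (cl T V w).map σ.toEmbedding := by
    ext y
    obtain ⟨y, rfl⟩ := σ.surjective y
    have h1 : σ y ∈ (cl T V w).map σ.toEmbedding ↔ y ∈ cl T V w :=
      Finset.mem_map' σ.toEmbedding
    rw [h1, mem_cl, mem_cl, ← hw0]
    exact S12_conn σ hσ V T w y
  have h2 : T ∈ {T : Finset (Ed d) | cl T V w = K} ↔ T.map (S12_E σ) ∈
      {T : Finset (Ed d) | cl T (V.map σ.toEmbedding) 0 = K.map σ.toEmbedding} := by
    show cl T V w = K ↔ cl (T.map (S12_E σ)) (V.map σ.toEmbedding) 0 = K.map σ.toEmbedding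
    rw [hcl, (Finset.map_injective σ.toEmbedding).eq_iff]
  by_cases h3 : T ∈ {T : Finset (Ed d) | cl T V w = K}
  · rw [if_pos h3, if_pos (h2.1 h3)]
  · rw [if_neg h3, if_neg (fun h' => h3 (h2.2 h'))]

private theorem S12_nbh {n : ℕ} {K : Finset (Vx d)} (hK : K ⊆ Bx d n \ Bd d n) :
    nbh K ⊆ Bx d n := by
  intro y hy
  rw [mem_nbh] at hy
  rcases hy with hy | ⟨x, hx, hxy⟩
  · exact (Finset.mem_sdiff.1 (hK hy)).1
  · have h1 := Finset.mem_sdiff.1 (hK hx)
    rw [mem_Bx, mem_Bd] at h1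
    rw [mem_Bx]
    have h2 := nm_adj hxy
    omega

private theorem S12_JJ {n : ℕ} {T : Finset (Ed d)} {w : Vx d} :
    w ∈ JJ n T ↔ w ∈ Bx d n ∧ ¬ cl T (Bx d n) w ⊆ Bx d n \ Bd d n := by
  classical
  unfold JJ
  rw [mem_clS]
  constructor
  · rintro ⟨b, hb, hc⟩
    refine ⟨by exact_mod_cast hc.right, fun h => ?_⟩
    have h1 := h ((mem_cl).2 hc.symm)
    exact (Finset.mem_sdiff.1 h1).2 hb
  · rintro ⟨hw, h⟩
    rw [Finset.not_subset] at h
    obtain ⟨b, hb, hb2⟩ := h
    have hbB : b ∈ Bd d n := by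
      by_contra hn
      exact hb2 (Finset.mem_sdiff.2 ⟨cl_subset _ _ _ hb, hn⟩)
    exact ⟨b, hbB, ((mem_cl).1 hb).symm⟩

open Classical in
private theorem S12_EE (p : ℝ) (n : ℕ) {w : Vx d} (hw : w ∈ Bx d n) (G : Finset (Vx d) → ℝ) :
    (EE p (edges (Bx d n)) fun T => if w ∈ JJ n T then 0 else G (cl T (Bx d n) w)) =
      ∑ K ∈ (Bx d n \ Bd d n).powerset.filter (w ∈ ·), ww p (K.image (· - w)) * G K := by
  obtain ⟨A, hA⟩ : ∃ A : Finset (Vx d) → Set (Finset (Ed d)),
      A = fun K => {T : Finset (Ed d) | cl T (Bx d n) w = K} := ⟨_, rfl⟩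
  have hAm : ∀ K T, T ∈ A K ↔ cl T (Bx d n) w = K := by
    intro K T
    rw [hA]
    exact Iff.rfl
  have h1 : ∀ T ⊆ edges (Bx d n), (if w ∈ JJ n T then 0 else G (cl T (Bx d n) w)) =
      ∑ K ∈ (Bx d n \ Bd d n).powerset.filter (w ∈ ·),
        (if T ∈ A K then 1 else 0) * G K := by
    intro T _
    by_cases hJ : w ∈ JJ n T
    · rw [if_pos hJ]
      refine (Finset.sum_eq_zero fun K hK => ?_).symm
      rw [if_neg, zero_mul]
      intro h
      have h' : cl T (Bx d n) w = K := (hAm K T).1 h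
      have h2 := (S12_JJ.1 hJ).2
      rw [h'] at h2
      exact h2 (Finset.mem_powerset.1 (Finset.mem_filter.1 hK).1)
    · rw [if_neg hJ]
      have h2 : cl T (Bx d n) w ⊆ Bx d n \ Bd d n := by
        by_contra h
        exact hJ (S12_JJ.2 ⟨hw, h⟩)
      rw [Finset.sum_eq_single (cl T (Bx d n) w)]
      · rw [if_pos ((hAm _ T).2 rfl), one_mul]
      · intro K _ hK
        rw [if_neg (fun h => hK ((hAm K T).1 h).symm), zero_mul]
      · intro h
        exact absurd (Finset.mem_filter.2 ⟨Finset.mem_powerset.2 h2, self_mem_cl hw⟩) h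
  rw [EE_congr h1, EE_sum]
  refine Finset.sum_congr rfl fun K hK => ?_
  obtain ⟨hK1, hK2⟩ := Finset.mem_filter.1 hK
  rw [EE_mul_const, ← PP_def, ← S12_PP_cl p (S12_nbh (Finset.mem_powerset.1 hK1)) hK2, hA]

private theorem S12_zero_mem (n : ℕ) : (0 : Vx d) ∈ Bx d n := by
  rw [mem_Bx]
  have : nm (0 : Vx d) = 0 := by
    unfold nm
    simp
  omega

open Classical in
/-- The expectation over the clusters which do not reach the boundary of the box. -/
theorem EE_trunc (hd : 0 < d) (p : ℝ) (n : ℕ) (F : Finset (Vx d) → ℝ) :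
    (EE p (edges (Bx d n)) fun T => if (0 : Vx d) ∈ JJ n T then 0 else F (cl T (Bx d n) 0)) =
      ∑ K ∈ (Bx d n \ Bd d n).powerset, ww p K * F K := by
  have _ := hd
  rw [S12_EE p n (S12_zero_mem n) F, Finset.sum_filter]
  refine Finset.sum_congr rfl fun K _ => ?_
  by_cases h : (0 : Vx d) ∈ K
  · rw [if_pos h]
    simp
  · rw [if_neg h, ww_zero p h, zero_mul]

theorem EF_eq_iSup (hd : 0 < d) (p : ℝ) (F : Finset (Vx d) → ℝ≥0∞) :
    EF p F = ⨆ n : ℕ, ∑ K ∈ (Bx d n \ Bd d n).powerset, ENNReal.ofReal (ww p K) * F K := by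
  have _ := hd
  classical
  unfold EF
  refine ENNReal.tsum_eq_iSup_sum' _ fun t => ?_
  obtain ⟨n, hn⟩ := exists_box (t.sup id)
  refine ⟨n + 1, fun K hK => Finset.mem_powerset.2 fun x hx => ?_⟩
  have h1 : x ∈ Bx d n := hn ((Finset.le_sup (f := id) hK : K ≤ t.sup id) hx)
  rw [mem_Bx] at h1
  rw [Finset.mem_sdiff, mem_Bx, mem_Bd]
  omega

open Classical in
/-- Other base points. -/
theorem EE_trunc_le (hd : 0 < d) (hp : 0 ≤ p) (hp1 : p ≤ 1) (n : ℕ) {w : Vx d}
    (hw : w ∈ Bx d n) {F : Finset (Vx d) → ℝ} (hF : ∀ K, 0 ≤ F K) :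
    ENNReal.ofReal (EE p (edges (Bx d n)) fun T =>
      if w ∈ JJ n T then 0 else F ((cl T (Bx d n) w).image (· - w))) ≤
      EF p fun K => ENNReal.ofReal (F K) := by
  have _ := hd
  rw [S12_EE p n hw (fun K => F (K.image (· - w))),
    ENNReal.ofReal_sum_of_nonneg (fun K _ => mul_nonneg (ww_nonneg hp hp1 _) (hF _))]
  have h1 : ∀ K ∈ (Bx d n \ Bd d n).powerset.filter (w ∈ ·),
      ENNReal.ofReal (ww p (K.image (· - w)) * F (K.image (· - w))) =
      (fun K' : Finset (Vx d) => ENNReal.ofReal (ww p K') * ENNReal.ofReal (F K'))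
        (K.image (· - w)) := fun K _ => ENNReal.ofReal_mul (ww_nonneg hp hp1 _)
  rw [Finset.sum_congr rfl h1]
  have hinj : Function.Injective (fun K : Finset (Vx d) => K.image (· - w)) :=
    Finset.image_injective (sub_left_injective (b := w))
  calc ∑ K ∈ (Bx d n \ Bd d n).powerset.filter (w ∈ ·),
        (fun K' : Finset (Vx d) => ENNReal.ofReal (ww p K') * ENNReal.ofReal (F K'))
          (K.image (· - w))
      ≤ ∑' K : Finset (Vx d),
        (fun K' : Finset (Vx d) => ENNReal.ofReal (ww p K') * ENNReal.ofReal (F K'))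
          (K.image (· - w)) := ENNReal.sum_le_tsum _
    _ ≤ EF p fun K => ENNReal.ofReal (F K) :=
        ENNReal.tsum_comp_le_tsum_of_injective hinj _

/-- The two-point function off the vertices joined to the boundary. -/
theorem tauf_trunc (hd : 0 < d) (hp : 0 ≤ p) (hp1 : p ≤ 1) (n : ℕ) (w z : Vx d) :
    ENNReal.ofReal (PP p (edges (Bx d n)) {T | w ∉ JJ n T ∧ Conn T (Bx d n) w z}) ≤
      tauf p (z - w) := by
  classical
  by_cases hw : w ∈ Bx d n
  · have h := EE_trunc_le hd hp hp1 n hw (F := fun K => if z - w ∈ K then 1 else 0)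
      (fun K => by split_ifs <;> norm_num)
    have h1 : (EF p fun K : Finset (Vx d) => ENNReal.ofReal (if z - w ∈ K then 1 else 0)) =
        tauf p (z - w) := by
      unfold tauf
      congr 1
      funext K
      split_ifs <;> simp
    rw [h1] at h
    refine le_trans (le_of_eq ?_) h
    congr 1
    rw [PP_def]
    refine EE_congr fun T _ => ?_
    have h2 : z - w ∈ (cl T (Bx d n) w).image (· - w) ↔ Conn T (Bx d n) w z := by
      rw [Finset.mem_image]
      constructor
      · rintro ⟨y, hy, hyz⟩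
        have : y = z := sub_left_injective (b := w) hyz
        rw [← this]
        exact mem_cl.1 hy
      · intro hc
        exact ⟨z, mem_cl.2 hc, rfl⟩
    have h3 : T ∈ {T : Finset (Ed d) | w ∉ JJ n T ∧ Conn T (Bx d n) w z} ↔
        w ∉ JJ n T ∧ Conn T (Bx d n) w z := Iff.rfl
    by_cases hJ : w ∈ JJ n T
    · rw [if_pos hJ, if_neg (fun h' => (h3.1 h').1 hJ)]
    · rw [if_neg hJ]
      by_cases hc : Conn T (Bx d n) w z
      · rw [if_pos (h2.2 hc), if_pos (h3.2 ⟨hJ, hc⟩)]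
      · rw [if_neg (fun h' => hc (h2.1 h')), if_neg (fun h' => hc (h3.1 h').2)]
  · have h1 : PP p (edges (Bx d n)) {T | w ∉ JJ n T ∧ Conn T (Bx d n) w z} = 0 := by
      rw [← PP_empty p (edges (Bx d n))]
      refine PP_congr fun T _ => ⟨fun h => ?_, fun h => absurd h (Set.notMem_empty _)⟩
      exact absurd (by exact_mod_cast h.2.left) hw
    rw [h1, ENNReal.ofReal_zero]
    exact bot_le

/-- Mass transport for `EF`. -/
theorem EF_mt (hp : 0 ≤ p) (hp1 : p ≤ 1) (φ : Vx d → Finset (Vx d) → ℝ≥0∞)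
    (hφ : ∀ x z K, φ (x - z) (K.image (· - z)) = φ x K) :
    EF p (fun K => ∑ x ∈ K, φ x K) = EF p fun K => K.card * φ 0 K :=
  mass_transport hp hp1 φ hφ

end Pool.Agent.HD
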