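import Pool.Agent.Lib.MP_8ca597_hd.S05
import Pool.Agent.Lib.MP_8ca597_hd.S10
import Pool.Agent.Lib.MP_8ca597_hd.S11
import Pool.Agent.Lib.MP_8ca597_hd.S12

/-!
# Row S13: a priori bounds (A7) and the moments of the capacity

`apriori`: for `|K| ≥ ε⁻³`, `ε² cap K ≥ c |K| ^ (19/20 - 2/3)`, so `|K| ^ k ≤ exp (ε² cap K) - 1` if `ε` is
small, and `EF (exp (ε² cap) - 1) ≤ theta ≤ 1` (`K1`); the rest is at most `ε ^ (-3 k)`. `tail_le`: Markov, with
`exp (ε² cap K) - 1 ≥ exp (|K| ^ (1/4))` for `|K| ≥ n ≥ ε⁻³`. `cap_moment`: on `cap ≤ ε⁻²` use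
`cap ^ k ≤ ε ^ (-2 (k - 1)) min |K| N`, `N = ⌈ε⁻²⌉`, `EF_min_le`, `vv_le`; on `cap > ε⁻²` use
`cap ^ k ≤ k! ε ^ (-2 k) exp (ε² cap) ≤ 2 k! ε ^ (-2 k) (exp (ε² cap) - 1)`, `K1` and `theta_le`.
-/

set_option autoImplicit false

namespace Pool.Agent.HD

open Finset
open scoped ENNReal

variable {m d : ℕ} {h : m ≤ d} {C : ℝ}

theorem S13_pc (hc : Crit m d h C) : 0 < pc d := by
  have h1 := hc.pc_lo
  have h2 : (0 : ℝ) < d := by exact_mod_cast hc.pos
  have h3 : (0 : ℝ) < 1 / (2 * d) := by positivity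
  linarith

/-- The exponential moment. -/
theorem S13_exp (hc : Crit m d h C) {ε : ℝ} (h0 : 0 < ε) (h1 : ε ≤ pc d) :
    EF (pc d + ε) (fun K => ENNReal.ofReal (Real.exp (ε ^ 2 * cap (bR d) K) - 1)) ≤
      theta d (pc d + ε) :=
  K1 hc.pos (S13_pc hc) (by have := hc.pc_hi; linarith) h0 h1 hc.fluxGe (ker_bR hc)

/-- The real inequality. -/
theorem S13_real {c : ℝ} (hc : 0 < c) : ∃ x0 : ℝ, 1 ≤ x0 ∧ ∀ x : ℝ, x0 ≤ x →
    Real.exp (x ^ (1 / 4 : ℝ)) ≤ Real.exp (c * x ^ (17 / 60 : ℝ)) - 1 := by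
  refine ⟨max 1 ((2 / c) ^ (30 : ℝ)), le_max_left _ _, fun x hx => ?_⟩
  have hx1 : 1 ≤ x := (le_max_left _ _).trans hx
  have hx2 : (2 / c) ^ (30 : ℝ) ≤ x := (le_max_right _ _).trans hx
  have hx0 : 0 < x := by linarith
  have h1 : 2 / c ≤ x ^ (1 / 30 : ℝ) := by
    have h2 := Real.rpow_le_rpow (by positivity) hx2 (by norm_num : (0 : ℝ) ≤ 1 / 30)
    rw [← Real.rpow_mul (by positivity)] at h2
    norm_num at h2
    norm_num
    exact h2
  have h3 : 2 ≤ c * x ^ (1 / 30 : ℝ) := by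
    rw [div_le_iff₀ hc] at h1
    linarith
  have h4 : x ^ (17 / 60 : ℝ) = x ^ (1 / 30 : ℝ) * x ^ (1 / 4 : ℝ) := by
    rw [← Real.rpow_add hx0]
    norm_num
  have h5 : 1 ≤ x ^ (1 / 4 : ℝ) := Real.one_le_rpow hx1 (by norm_num)
  have h6 : 2 * x ^ (1 / 4 : ℝ) ≤ c * x ^ (17 / 60 : ℝ) := by
    rw [h4, ← mul_assoc]
    exact mul_le_mul_of_nonneg_right h3 (by linarith)
  have h7 : Real.exp (2 * x ^ (1 / 4 : ℝ)) ≤ Real.exp (c * x ^ (17 / 60 : ℝ)) :=
    Real.exp_le_exp.mpr h6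
  have h8 : Real.exp (2 * x ^ (1 / 4 : ℝ)) = Real.exp (x ^ (1 / 4 : ℝ)) *
      Real.exp (x ^ (1 / 4 : ℝ)) := by
    rw [← Real.exp_add]
    congr 1
    ring
  have h9 := Real.add_one_le_exp (x ^ (1 / 4 : ℝ))
  nlinarith

/-- The lower bound of the exponential. -/
theorem S13_ge (hc : Crit m d h C) : ∃ ε0 : ℝ, 0 < ε0 ∧ ε0 ≤ 1 ∧ ε0 ≤ pc d ∧
    ∀ (ε : ℝ) (K : Finset (Vx d)), 0 < ε → ε ≤ ε0 → 1 / ε ^ 3 ≤ K.card →
      Real.exp ((K.card : ℝ) ^ (1 / 4 : ℝ)) ≤ Real.exp (ε ^ 2 * cap (bR d) K) - 1 := by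
  obtain ⟨c, hc0, hcap⟩ := cap_pow hc
  obtain ⟨x0, hx1, hx0⟩ := S13_real hc0
  refine ⟨min (1 / x0) (pc d), lt_min (by positivity) (S13_pc hc), ?_, min_le_right _ _,
    fun ε K hε hε0 hK => ?_⟩
  · refine (min_le_left _ _).trans ?_
    rw [div_le_one (by linarith)]
    exact hx1
  · have h1 : ε ≤ 1 / x0 := hε0.trans (min_le_left _ _)
    have hxp : 0 < x0 := by linarith
    have h2 : x0 ≤ 1 / ε := by
      rw [le_div_iff₀ hε]
      rw [le_div_iff₀ hxp] at h1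
      linarith
    have hε1 : ε ≤ 1 := h1.trans (by rw [div_le_one hxp]; exact hx1)
    have h3 : 1 / ε ≤ 1 / ε ^ 3 := by
      apply one_div_le_one_div_of_le (by positivity)
      calc ε ^ 3 = ε ^ 2 * ε := by ring
        _ ≤ 1 * ε := by
            apply mul_le_mul_of_nonneg_right _ hε.le
            exact pow_le_one₀ hε.le hε1
        _ = ε := one_mul ε
    have h4 := hx0 (K.card : ℝ) ((h2.trans h3).trans hK)
    refine h4.trans ?_
    have hn : 0 < (K.card : ℝ) := lt_of_lt_of_le (by positivity) hK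
    have h5 : (K.card : ℝ) ^ (-(2 / 3) : ℝ) ≤ ε ^ 2 := by
      have h6 : (1 / ε ^ 3 : ℝ) ^ (2 / 3 : ℝ) ≤ (K.card : ℝ) ^ (2 / 3 : ℝ) :=
        Real.rpow_le_rpow (by positivity) hK (by norm_num)
      have h7 : (1 / ε ^ 3 : ℝ) ^ (2 / 3 : ℝ) = (ε ^ 2)⁻¹ := by
        rw [one_div, Real.inv_rpow (by positivity), ← Real.rpow_natCast ε 3,
          ← Real.rpow_mul hε.le, ← Real.rpow_natCast ε 2]
        norm_num
      rw [Real.rpow_neg hn.le]
      rw [h7] at h6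
      exact inv_le_of_inv_le₀ (by positivity) h6
    have h8 : c * (K.card : ℝ) ^ (17 / 60 : ℝ) ≤ ε ^ 2 * cap (bR d) K := by
      calc c * (K.card : ℝ) ^ (17 / 60 : ℝ) =
            (K.card : ℝ) ^ (-(2 / 3) : ℝ) * (c * (K.card : ℝ) ^ (19 / 20 : ℝ)) := by
              rw [mul_left_comm, ← Real.rpow_add hn]
              norm_num
        _ ≤ ε ^ 2 * cap (bR d) K := by
            apply mul_le_mul h5 (hcap K) (by positivity) (by positivity)
    have := Real.exp_le_exp.mpr h8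
    linarith

theorem S13_pow (k : ℕ) : ∃ x0 : ℝ, 1 ≤ x0 ∧ ∀ x : ℝ, x0 ≤ x →
    x ^ k ≤ Real.exp (x ^ (1 / 4 : ℝ)) := by
  have h1 := tendsto_exp_mul_div_rpow_atTop (4 * k : ℝ) 1 one_pos
  obtain ⟨y0, hy0⟩ := Filter.eventually_atTop.mp (h1.eventually_ge_atTop 1)
  refine ⟨max 1 (|y0| ^ (4 : ℝ)), le_max_left _ _, fun x hx => ?_⟩
  have hx1 : 1 ≤ x := (le_max_left _ _).trans hx
  have hx0 : 0 < x := by linarith
  have hx2 : |y0| ^ (4 : ℝ) ≤ x := (le_max_right _ _).trans hx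
  have h2 : y0 ≤ x ^ (1 / 4 : ℝ) := by
    have h3 := Real.rpow_le_rpow (by positivity) hx2 (by norm_num : (0 : ℝ) ≤ 1 / 4)
    rw [← Real.rpow_mul (abs_nonneg _)] at h3
    norm_num at h3
    norm_num
    exact (le_abs_self y0).trans h3
  have h4 := hy0 _ h2
  have h5 : 0 < x ^ (1 / 4 : ℝ) := by positivity
  rw [le_div_iff₀ (by positivity), one_mul, one_mul, ← Real.rpow_mul hx0.le] at h4
  rw [← Real.rpow_natCast x k]
  refine le_trans (le_of_eq ?_) h4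
  congr 1
  ring

theorem apriori (hc : Crit m d h C) (k : ℕ) : ∃ ε0 : ℝ, 0 < ε0 ∧ ∀ ε : ℝ, 0 < ε → ε ≤ ε0 →
    EF (d := d) (pc d + ε) (fun K => (K.card : ℝ≥0∞) ^ k) ≤ ENNReal.ofReal (2 / ε ^ (3 * k)) := by
  obtain ⟨ε0, h0, h1, hpc, hge⟩ := S13_ge hc
  obtain ⟨x0, hx1, hx0⟩ := S13_pow k
  have hxp : 0 < x0 := by linarith
  refine ⟨min ε0 (1 / x0), lt_min h0 (by positivity), fun ε hε hε0 => ?_⟩
  have hε1 : ε ≤ ε0 := hε0.trans (min_le_left _ _)
  have hε2 : ε ≤ 1 / x0 := hε0.trans (min_le_right _ _)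
  have hp0 : 0 ≤ pc d + ε := by have := S13_pc hc; linarith
  have hp1 : pc d + ε ≤ 1 := by have := hc.pc_hi; linarith
  have hexp := (S13_exp hc hε (hε1.trans hpc)).trans (theta_le_one d _)
  have hle1 : ε ≤ 1 := hε1.trans h1
  have hkey : ∀ K : Finset (Vx d), (0 : Vx d) ∈ K → (K.card : ℝ≥0∞) ^ k ≤
      ENNReal.ofReal (1 / ε ^ (3 * k)) +
        ENNReal.ofReal (Real.exp (ε ^ 2 * cap (bR d) K) - 1) := by
    intro K _
    have e1 : (K.card : ℝ≥0∞) ^ k = ENNReal.ofReal ((K.card : ℝ) ^ k) := by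
      rw [ENNReal.ofReal_pow (by positivity), ENNReal.ofReal_natCast]
    rw [e1]
    rcases le_or_gt (1 / ε ^ 3) (K.card : ℝ) with h2 | h2
    · refine le_trans ?_ le_add_self
      apply ENNReal.ofReal_le_ofReal
      have h3 : x0 ≤ (K.card : ℝ) := by
        refine le_trans ?_ h2
        rw [le_div_iff₀ (by positivity)]
        rw [le_div_iff₀ hxp] at hε2
        have h4 : ε ^ 3 ≤ ε := by
          calc ε ^ 3 = ε ^ 2 * ε := by ring
            _ ≤ 1 * ε := mul_le_mul_of_nonneg_right (pow_le_one₀ hε.le hle1) hε.le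
            _ = ε := one_mul ε
        nlinarith
      exact (hx0 _ h3).trans (hge ε K hε hε1 h2)
    · refine le_trans ?_ le_self_add
      apply ENNReal.ofReal_le_ofReal
      rw [pow_mul, ← one_div_pow]
      exact pow_le_pow_left₀ (by positivity) h2.le k
  refine (EF_mono hkey).trans ?_
  rw [EF_add]
  refine (add_le_add (EF_const_le hp0 hp1 _) hexp).trans ?_
  rw [← ENNReal.ofReal_one, ← ENNReal.ofReal_add (by positivity) (by norm_num)]
  apply ENNReal.ofReal_le_ofReal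
  have h5 : 1 ≤ 1 / ε ^ (3 * k) := by
    rw [le_div_iff₀ (by positivity), one_mul]
    exact pow_le_one₀ hε.le hle1
  have h6 : 2 / ε ^ (3 * k) = 1 / ε ^ (3 * k) + 1 / ε ^ (3 * k) := by ring
  linarith

theorem tail_le (hc : Crit m d h C) : ∃ ε0 : ℝ, 0 < ε0 ∧ ∀ (ε : ℝ) (n : ℕ), 0 < ε → ε ≤ ε0 →
    1 / ε ^ 3 ≤ n → EF (d := d) (pc d + ε) (fun K => if n ≤ K.card then 1 else 0) ≤
      ENNReal.ofReal (Real.exp (-(n : ℝ) ^ (1 / 4 : ℝ))) := by
  obtain ⟨ε0, h0, h1, hpc, hge⟩ := S13_ge hc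
  refine ⟨ε0, h0, fun ε n hε hε0 hn => ?_⟩
  have hexp := (S13_exp hc hε (hε0.trans hpc)).trans (theta_le_one d _)
  have hkey : ∀ K : Finset (Vx d), (0 : Vx d) ∈ K → (if n ≤ K.card then (1 : ℝ≥0∞) else 0) ≤
      ENNReal.ofReal (Real.exp (-(n : ℝ) ^ (1 / 4 : ℝ))) *
        ENNReal.ofReal (Real.exp (ε ^ 2 * cap (bR d) K) - 1) := by
    intro K _
    split_ifs with h2
    · have h3 : (n : ℝ) ≤ K.card := by exact_mod_cast h2
      have h4 := hge ε K hε hε0 (hn.trans h3)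
      have h5 : (n : ℝ) ^ (1 / 4 : ℝ) ≤ (K.card : ℝ) ^ (1 / 4 : ℝ) :=
        Real.rpow_le_rpow (by positivity) h3 (by norm_num)
      have h6 := Real.exp_le_exp.mpr h5
      rw [← ENNReal.ofReal_mul (Real.exp_pos _).le, ← ENNReal.ofReal_one]
      apply ENNReal.ofReal_le_ofReal
      calc (1 : ℝ) = Real.exp (-(n : ℝ) ^ (1 / 4 : ℝ)) * Real.exp ((n : ℝ) ^ (1 / 4 : ℝ)) := by
            rw [← Real.exp_add, neg_add_cancel, Real.exp_zero]
        _ ≤ _ := mul_le_mul_of_nonneg_left (h6.trans h4) (Real.exp_pos _).le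
    · exact zero_le
  refine (EF_mono hkey).trans ?_
  rw [EF_const_mul]
  calc ENNReal.ofReal (Real.exp (-(n : ℝ) ^ (1 / 4 : ℝ))) *
        EF (pc d + ε) (fun K => ENNReal.ofReal (Real.exp (ε ^ 2 * cap (bR d) K) - 1))
      ≤ ENNReal.ofReal (Real.exp (-(n : ℝ) ^ (1 / 4 : ℝ))) * 1 := by gcongr
    _ = _ := mul_one _

theorem cap_moment (hc : Crit m d h C) (k : ℕ) (hk : 1 ≤ k) : ∃ C' ε0 : ℝ, 0 < C' ∧ 0 < ε0 ∧
    ∀ ε : ℝ, 0 < ε → ε ≤ ε0 →
      EF (d := d) (pc d + ε) (fun K => ENNReal.ofReal (cap (bR d) K ^ k)) ≤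
        ENNReal.ofReal (C' / ε ^ (2 * k - 1)) := by
  obtain ⟨C1, hC1, hvv⟩ := vv_le hc 2
  obtain ⟨C2, hC2, hth⟩ := theta_le hc
  have hpc0 := S13_pc hc
  have hpc1 := hc.pc_hi
  refine ⟨2 * C1 + 2 * k.factorial * C2, pc d, by positivity, hpc0, fun ε hε hε0 => ?_⟩
  have hp0 : 0 ≤ pc d + ε := by linarith
  have hp1 : pc d + ε ≤ 1 := by linarith
  have hp2 : pc d + ε ≤ 1 / 2 := by linarith
  have hle1 : ε ≤ 1 := by linarith
  have hexp := (S13_exp hc hε hε0).trans (hth ε hε hp2)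
  obtain ⟨N, hN⟩ : ∃ N : ℕ, N = ⌈1 / ε ^ 2⌉₊ := ⟨_, rfl⟩
  have hN1 : 1 / ε ^ 2 ≤ N := by rw [hN]; exact Nat.le_ceil _
  have hone : 1 ≤ 1 / ε ^ 2 := by
    rw [le_div_iff₀ (by positivity), one_mul]
    exact pow_le_one₀ hε.le hle1
  have hN2 : (N : ℝ) ≤ 2 ^ 2 * (1 / ε ^ 2) := by
    have := (Nat.ceil_lt_add_one (by positivity : (0 : ℝ) ≤ 1 / ε ^ 2)).le
    rw [← hN] at this
    linarith
  have hN3 : 1 ≤ N := by
    have : (1 : ℝ) ≤ N := hone.trans hN1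
    exact_mod_cast this
  have hs : √(N : ℝ) ≤ 2 / ε := by
    rw [Real.sqrt_le_left (by positivity), div_pow]
    rw [mul_one_div] at hN2
    exact hN2
  have hs0 : 0 < √(N : ℝ) := by
    apply Real.sqrt_pos.mpr
    exact_mod_cast hN3
  have hv := hvv (pc d + ε) N hp0 hp2 hN3 (by
    rw [add_sub_cancel_left, le_div_iff₀ hs0]
    calc ε * √(N : ℝ) ≤ ε * (2 / ε) := mul_le_mul_of_nonneg_left hs hε.le
      _ = 2 := by field_simp)
  have hv2 : vv d (pc d + ε) N ≤ 2 * C1 / ε := by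
    refine hv.trans ((mul_le_mul_of_nonneg_left hs hC1.le).trans (le_of_eq ?_))
    ring
  have hmin : EF (pc d + ε) (fun K : Finset (Vx d) => ((min K.card N : ℕ) : ℝ≥0∞)) ≤
      ENNReal.ofReal (2 * C1 / ε) :=
    (EF_min_le hp0 hp1 N).trans (ENNReal.ofReal_le_ofReal hv2)
  have hkey : ∀ K : Finset (Vx d), (0 : Vx d) ∈ K → ENNReal.ofReal (cap (bR d) K ^ k) ≤
      ENNReal.ofReal (1 / ε ^ (2 * (k - 1))) * ((min K.card N : ℕ) : ℝ≥0∞) +
        ENNReal.ofReal (2 * k.factorial / ε ^ (2 * k)) *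
          ENNReal.ofReal (Real.exp (ε ^ 2 * cap (bR d) K) - 1) := by
    intro K _
    have hcap0 := cap_nonneg (bR d) K
    rcases le_or_gt (cap (bR d) K) (1 / ε ^ 2) with h2 | h2
    · refine le_trans ?_ le_self_add
      rw [← ENNReal.ofReal_natCast, ← ENNReal.ofReal_mul (by positivity)]
      apply ENNReal.ofReal_le_ofReal
      obtain ⟨j, rfl⟩ : ∃ j, k = j + 1 := ⟨k - 1, by omega⟩
      rw [pow_succ, Nat.add_sub_cancel, pow_mul, ← one_div_pow]
      apply mul_le_mul (pow_le_pow_left₀ hcap0 h2 j) _ hcap0 (by positivity)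
      push_cast
      exact le_min (cap_le_card (bR_nonneg d) K) (h2.trans hN1)
    · refine le_trans ?_ le_add_self
      rw [← ENNReal.ofReal_mul (by positivity)]
      apply ENNReal.ofReal_le_ofReal
      have h3 : 1 < ε ^ 2 * cap (bR d) K := by
        rw [div_lt_iff₀ (by positivity)] at h2
        linarith
      obtain ⟨u, hu⟩ : ∃ u, u = ε ^ 2 * cap (bR d) K := ⟨_, rfl⟩
      rw [← hu] at h3 ⊢
      have h4 : cap (bR d) K ^ k = u ^ k / ε ^ (2 * k) := by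
        rw [hu, mul_pow, ← pow_mul]
        field_simp
      have h5 : u ^ k ≤ k.factorial * Real.exp u := by
        have h6 := Real.pow_div_factorial_le_exp u (by linarith) k
        rw [div_le_iff₀ (by positivity)] at h6
        linarith
      have h7 : Real.exp u ≤ 2 * (Real.exp u - 1) := by
        have := Real.add_one_le_exp u
        linarith
      have h8 : u ^ k ≤ 2 * k.factorial * (Real.exp u - 1) := by
        have h9 : (0 : ℝ) < k.factorial := by positivity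
        nlinarith
      rw [h4, div_mul_eq_mul_div]
      exact div_le_div_of_nonneg_right h8 (by positivity)
  refine (EF_mono hkey).trans ?_
  rw [EF_add, EF_const_mul, EF_const_mul]
  calc ENNReal.ofReal (1 / ε ^ (2 * (k - 1))) *
        EF (pc d + ε) (fun K : Finset (Vx d) => ((min K.card N : ℕ) : ℝ≥0∞)) +
      ENNReal.ofReal (2 * k.factorial / ε ^ (2 * k)) *
        EF (pc d + ε) (fun K => ENNReal.ofReal (Real.exp (ε ^ 2 * cap (bR d) K) - 1))
      ≤ ENNReal.ofReal (1 / ε ^ (2 * (k - 1))) * ENNReal.ofReal (2 * C1 / ε) +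
        ENNReal.ofReal (2 * k.factorial / ε ^ (2 * k)) * ENNReal.ofReal (C2 * ε) := by
          gcongr
    _ = ENNReal.ofReal ((2 * C1 + 2 * k.factorial * C2) / ε ^ (2 * k - 1)) := by
          rw [← ENNReal.ofReal_mul (by positivity), ← ENNReal.ofReal_mul (by positivity),
            ← ENNReal.ofReal_add (by positivity) (by positivity)]
          congr 1
          obtain ⟨j, rfl⟩ : ∃ j, k = j + 1 := ⟨k - 1, by omega⟩
          rw [Nat.add_sub_cancel, show 2 * (j + 1) - 1 = 2 * j + 1 by omega,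
            show 2 * (j + 1) = 2 * j + 1 + 1 by ring, pow_succ ε (2 * j + 1), pow_succ ε (2 * j)]
          field_simp

end Pool.Agent.HD
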