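import Pool.Agent.Lib.MP_8ca597_hd.N13
import Pool.Agent.Lib.MP_8ca597_hd.N20
import Pool.Agent.Lib.MP_8ca597_hd.S13

/-!
# Row N21: the lower bound of the second moment (N2)

`n = ⌊ε⁻²⌋`, `r = ⌊δ n ^ (1/4)⌋`, `p = pc + ε`, `q = pc - 1/√n`, `p' = 2 p - q` (`≤ pc + 4/√n`), tilt parameter
`ε + 1/√n ≤ 2/√n + ...`, so the exponential factor is a constant. `Y K = #{x ∈ K, |x_1| ≤ r}` (choose a
coordinate, `0 < d`): `EF_tilt1`: `EF p (Y; |K| ≤ n)² ≤ C (∑_{|x_1| ≤ r} tt q x) (vv p' n) ≤ C r n^(1/4) n^(1/2)`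
(`plane_tt`, `EF_min_le`, `vv_le`). On the other hand `EF p (|K|; |K| ≤ n) ≥ vv p n' - n' Pge p n ≥ c √n` with
`n' = ⌊n / K⌋`, `K` a large constant (`vv_ge`, `vv_mono_p`, `Pge_le'`; `vv = EF (min |K| n') + n' theta`
and `EF (1 (n < |K|)) + theta ≤ Pge p n`). So for a small constant `δ`,
`EF (∑_{x ∈ K} |x_1|²) ≥ r² (c - C δ^(1/2)) √n ≥ c' ε⁻²`; `EF_sum_mem`.
-/

set_option autoImplicit false

namespace Pool.Agent.HD

open Finset
open scoped ENNReal

variable {m d : ℕ} {h : m ≤ d} {C : ℝ}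

private theorem N21_min_sum (a n : ℕ) :
    ∑ k ∈ Icc 1 n, (if k ≤ a then (1 : ℝ≥0∞) else 0) = ((min a n : ℕ) : ℝ≥0∞) := by
  rw [Finset.sum_boole]
  congr 1
  have h1 : (Icc 1 n).filter (fun k => k ≤ a) = Icc 1 (min a n) := by
    ext k
    simp only [mem_filter, mem_Icc, le_min_iff]
    omega
  rw [h1, Nat.card_Icc]
  omega

private theorem N21_vv_eq {p : ℝ} (hp : 0 ≤ p) (hp1 : p ≤ 1) (n : ℕ) :
    ENNReal.ofReal (vv d p n) =
      EF (d := d) p (fun K => ((min K.card n : ℕ) : ℝ≥0∞)) + n * theta d p := by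
  rw [vv_eq_sum, ENNReal.ofReal_sum_of_nonneg (fun k _ => Pge_nonneg hp hp1 k)]
  have h1 : ∀ k ∈ Icc 1 n, ENNReal.ofReal (Pge d p k) =
      EF (d := d) p (fun K => if k ≤ K.card then 1 else 0) + theta d p := fun k _ =>
    (EF_ge hp hp1 k).symm
  rw [Finset.sum_congr rfl h1, Finset.sum_add_distrib, ← EF_sum, Finset.sum_const,
    Nat.card_Icc, nsmul_eq_mul, Nat.add_sub_cancel]
  congr 2
  funext K
  exact N21_min_sum K.card n

private theorem N21_vv_le {p : ℝ} (hp : 0 ≤ p) (hp1 : p ≤ 1) (n n' : ℕ) :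
    ENNReal.ofReal (vv d p n') ≤
      EF (d := d) p (fun K => if K.card ≤ n then (K.card : ℝ≥0∞) else 0) +
        n' * ENNReal.ofReal (Pge d p n) := by
  rw [N21_vv_eq hp hp1, ← EF_ge hp hp1 n, mul_add, ← add_assoc, ← EF_const_mul, ← EF_add]
  gcongr
  apply EF_mono
  intro K _
  rcases le_or_gt K.card n with h1 | h1
  · rw [if_pos h1]
    refine le_trans ?_ le_self_add
    exact_mod_cast min_le_left _ _
  · rw [if_neg (by omega), if_pos h1.le, zero_add, mul_one]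
    exact_mod_cast min_le_right _ _

theorem EF_card_ge (hc : Crit m d h C) : ∃ c ε0 : ℝ, 0 < c ∧ 0 < ε0 ∧ ∀ (ε : ℝ) (n : ℕ), 0 < ε →
    ε ≤ ε0 → (n : ℝ) ≤ 1 / ε ^ 2 → 1 / ε ^ 2 - 1 ≤ n →
      ENNReal.ofReal (c / ε) ≤
        EF (d := d) (pc d + ε) (fun K => if K.card ≤ n then (K.card : ℝ≥0∞) else 0) := by
  obtain ⟨c, hc0, hvv⟩ := vv_ge hc
  obtain ⟨C1, hC1, hP⟩ := Pge_le' hc
  have hpc0 := S13_pc hc
  have hpc1 := hc.pc_hi
  obtain ⟨M, hM⟩ := exists_nat_gt ((6 * C1 / c) ^ 2)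
  have hM0 : (0 : ℝ) < M := lt_of_le_of_lt (by positivity) hM
  have hMn : 0 < M := by exact_mod_cast hM0
  have hsM : 6 * C1 / c ≤ √(M : ℝ) := Real.le_sqrt_of_sq_le hM.le
  have hsM0 : 0 < √(M : ℝ) := Real.sqrt_pos.mpr hM0
  refine ⟨c / 2 * (1 / √(8 * M)), 1 / (4 * M), by positivity, by positivity,
    fun ε n hε hε0 hn1 hn2 => ?_⟩
  have hM1 : (1 : ℝ) ≤ M := by exact_mod_cast hMn
  have hε1 : ε ≤ 1 / 4 := by
    refine hε0.trans ?_
    apply one_div_le_one_div_of_le (by norm_num)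
    linarith
  have hεM : ε * M ≤ 1 / 4 := by
    calc ε * M ≤ 1 / (4 * M) * M := mul_le_mul_of_nonneg_right hε0 hM0.le
      _ = 1 / 4 := by field_simp
  have hp0 : 0 ≤ pc d + ε := by linarith
  have hp2 : pc d + ε ≤ 1 / 2 := by linarith
  have hp1 : pc d + ε ≤ 1 := by linarith
  have he2 : 16 ≤ 1 / ε ^ 2 := by
    rw [le_div_iff₀ (by positivity)]
    nlinarith
  have hn4 : 1 / (4 * ε ^ 2) ≤ (n : ℝ) := by
    have e1 : 1 / (4 * ε ^ 2) = (1 / ε ^ 2) / 4 := by field_simp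
    rw [e1]
    linarith
  have hn0 : (0 : ℝ) < n := lt_of_lt_of_le (by positivity) hn4
  have hn1' : 1 ≤ n := by exact_mod_cast (Nat.cast_pos (α := ℝ)).mp hn0
  -- the square root of n
  have hs1 : 1 / √(n : ℝ) ≤ 2 * ε := by
    have h2 : 1 / (2 * ε) ≤ √(n : ℝ) := by
      apply Real.le_sqrt_of_sq_le
      rw [div_pow, one_pow, mul_pow]
      norm_num
      norm_num at hn4
      exact hn4
    rw [div_le_iff₀ (Real.sqrt_pos.mpr hn0)]
    calc (1 : ℝ) = 2 * ε * (1 / (2 * ε)) := by field_simp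
      _ ≤ 2 * ε * √(n : ℝ) := mul_le_mul_of_nonneg_left h2 (by positivity)
  have hPn : Pge d (pc d + ε) n ≤ 3 * C1 * ε := by
    refine (hP ε n hε hp2 hn1').trans ?_
    nlinarith
  -- the second scale
  obtain ⟨n', hn'⟩ : ∃ n' : ℕ, n' = n / M := ⟨_, rfl⟩
  have hn'1 : (n' : ℝ) ≤ n / M := by
    rw [hn']
    exact Nat.cast_div_le
  have hn'2 : (n : ℝ) / M - 1 ≤ n' := by
    have h3 := Nat.lt_div_mul_add (a := n) hMn
    rw [← hn'] at h3
    have h4 : (n : ℝ) < n' * M + M := by exact_mod_cast h3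
    rw [sub_le_iff_le_add, div_le_iff₀ hM0]
    linarith
  have hn'3 : 1 / (8 * M * ε ^ 2) ≤ (n' : ℝ) := by
    refine le_trans ?_ hn'2
    have h5 : 1 / (4 * ε ^ 2) / M ≤ n / M := div_le_div_of_nonneg_right hn4 hM0.le
    have h6 : 1 / (4 * ε ^ 2) / M = 2 * (1 / (8 * M * ε ^ 2)) := by field_simp; norm_num
    have h7 : 1 ≤ 1 / (8 * M * ε ^ 2) := by
      rw [le_div_iff₀ (by positivity)]
      nlinarith
    linarith
  have hn'0 : (0 : ℝ) < n' := lt_of_lt_of_le (by positivity) hn'3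
  have hs2 : ε * √(n' : ℝ) ≤ 1 / √(M : ℝ) := by
    have h8 : √(n' : ℝ) ≤ 1 / (ε * √(M : ℝ)) := by
      rw [Real.sqrt_le_left (by positivity), div_pow, mul_pow, Real.sq_sqrt hM0.le, one_pow]
      refine hn'1.trans ?_
      calc (n : ℝ) / M ≤ 1 / ε ^ 2 / M := div_le_div_of_nonneg_right hn1 hM0.le
        _ = 1 / (ε ^ 2 * M) := by field_simp
    calc ε * √(n' : ℝ) ≤ ε * (1 / (ε * √(M : ℝ))) := mul_le_mul_of_nonneg_left h8 hε.le
      _ = 1 / √(M : ℝ) := by field_simp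
  have hs3 : 3 * C1 * (1 / √(M : ℝ)) ≤ c / 2 := by
    rw [div_le_iff₀ hc0] at hsM
    rw [mul_one_div, div_le_iff₀ hsM0]
    linarith
  have hs4 : 1 / √(8 * M) / ε ≤ √(n' : ℝ) := by
    apply Real.le_sqrt_of_sq_le
    rw [div_pow, div_pow, Real.sq_sqrt (by positivity), one_pow]
    refine le_trans (le_of_eq ?_) hn'3
    field_simp
  have hv1 : c * √(n' : ℝ) ≤ vv d (pc d + ε) n' :=
    (hvv n').trans (vv_mono_p hpc0.le (by linarith) hp1 n')
  have hmain : c / 2 * (1 / √(8 * M)) / ε ≤ vv d (pc d + ε) n' - n' * Pge d (pc d + ε) n := by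
    have h9 : (n' : ℝ) * Pge d (pc d + ε) n ≤ √(n' : ℝ) * (c / 2) := by
      calc (n' : ℝ) * Pge d (pc d + ε) n ≤ n' * (3 * C1 * ε) :=
            mul_le_mul_of_nonneg_left hPn hn'0.le
        _ = √(n' : ℝ) * (3 * C1 * (ε * √(n' : ℝ))) := by
            have := Real.mul_self_sqrt hn'0.le
            calc (n' : ℝ) * (3 * C1 * ε) = (√(n' : ℝ) * √(n' : ℝ)) * (3 * C1 * ε) := by rw [this]
              _ = _ := by ring
        _ ≤ √(n' : ℝ) * (3 * C1 * (1 / √(M : ℝ))) := by gcongr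
        _ ≤ √(n' : ℝ) * (c / 2) := by gcongr
    have h10 : c / 2 * (1 / √(8 * M)) / ε = c / 2 * (1 / √(8 * M) / ε) := by ring
    rw [h10]
    have h11 : c / 2 * (1 / √(8 * M) / ε) ≤ c / 2 * √(n' : ℝ) := by gcongr
    linarith
  refine (ENNReal.ofReal_le_ofReal hmain).trans ?_
  rw [ENNReal.ofReal_sub _ (mul_nonneg hn'0.le (Pge_nonneg hp0 hp1 n)), tsub_le_iff_right,
    ENNReal.ofReal_mul hn'0.le, ENNReal.ofReal_natCast]
  exact N21_vv_le hp0 hp1 n n'

/-- The sum over a slab. -/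
private theorem N21_slab {p : ℝ} (i : Fin d) (r : ℕ) {A : ℝ≥0∞}
    (hA : ∀ j : ℤ, ∑' z : {z : Vx d // dt z (i, true) = j}, tt p z.1 ≤ A) :
    ∑' x : Vx d, (if (x i).natAbs ≤ r then (1 : ℝ≥0∞) else 0) * tt p x ≤ (2 * r + 1 : ℕ) * A := by
  have h1 : ∀ x : Vx d, (if (x i).natAbs ≤ r then (1 : ℝ≥0∞) else 0) * tt p x =
      ∑ j ∈ Icc (-(r : ℤ)) r, (if dt x (i, true) = j then tt p x else 0) := by
    intro x
    have h2 : dt x (i, true) = x i := by simp [dt, sg]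
    rw [h2, Finset.sum_ite_eq]
    by_cases h3 : (x i).natAbs ≤ r
    · have h4 : x i ∈ Icc (-(r : ℤ)) r := by rw [mem_Icc]; omega
      rw [if_pos h3, if_pos h4, one_mul]
    · have h4 : x i ∉ Icc (-(r : ℤ)) r := by rw [mem_Icc]; omega
      rw [if_neg h3, if_neg h4, zero_mul]
  rw [tsum_congr h1, Summable.tsum_finsetSum (fun _ _ => ENNReal.summable)]
  have h4 : ∀ j ∈ Icc (-(r : ℤ)) r,
      (∑' x : Vx d, if dt x (i, true) = j then tt p x else 0) ≤ A := by
    intro j _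
    refine le_trans (le_of_eq ?_) (hA j)
    have h5 := Function.Injective.tsum_eq
      (f := fun x : Vx d => if dt x (i, true) = j then tt p x else 0)
      (Subtype.val_injective (p := fun z : Vx d => dt z (i, true) = j)) (by
        intro x hx
        rw [Function.mem_support] at hx
        by_cases h6 : dt x (i, true) = j
        · exact ⟨⟨x, h6⟩, rfl⟩
        · exact absurd (if_neg h6) hx)
    rw [← h5]
    refine tsum_congr fun x => ?_
    exact if_pos x.2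
  refine (Finset.sum_le_sum h4).trans (le_of_eq ?_)
  rw [Finset.sum_const, Int.card_Icc, nsmul_eq_mul]
  congr 2
  omega

private theorem N21_pt (i : Fin d) (r : ℕ) (K : Finset (Vx d)) :
    (r : ℝ≥0∞) ^ 2 * K.card ≤ (∑ x ∈ K, (nm x : ℝ≥0∞) ^ 2) +
      (r : ℝ≥0∞) ^ 2 * ∑ x ∈ K, (if (x i).natAbs ≤ r then (1 : ℝ≥0∞) else 0) := by
  rw [Finset.mul_sum, ← Finset.sum_add_distrib, mul_comm, ← nsmul_eq_mul, ← Finset.sum_const]
  refine Finset.sum_le_sum fun x _ => ?_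
  by_cases h1 : (x i).natAbs ≤ r
  · rw [if_pos h1, mul_one]
    exact le_add_self
  · refine le_trans ?_ le_self_add
    have h2 : r ≤ nm x := by
      have h3 : (x i).natAbs ≤ nm x := Finset.le_sup (f := fun i => (x i).natAbs) (mem_univ i)
      omega
    have h4 : (r : ℝ≥0∞) ≤ nm x := by exact_mod_cast h2
    gcongr

theorem second_ge (hc : Crit m d h C) : ∃ c ε0 : ℝ, 0 < c ∧ 0 < ε0 ∧ ∀ ε : ℝ, 0 < ε → ε ≤ ε0 →
    ENNReal.ofReal (c / ε ^ 2) ≤ ∑' x : Vx d, (nm x : ℝ≥0∞) ^ 2 * tauf (pc d + ε) x := by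
  obtain ⟨c, ε0, hc0, hε0, hcard⟩ := EF_card_ge hc
  obtain ⟨C1, ε1, hC1, hε1, hε1p, hpl⟩ := plane_tt hc
  obtain ⟨C2, hC2, hvv⟩ := vv_le hc 3
  have hpc0 := S13_pc hc
  have hpc1 := hc.pc_hi
  obtain ⟨i⟩ : Nonempty (Fin d) := ⟨⟨0, hc.pos⟩⟩
  obtain ⟨E0, hE0⟩ : ∃ E0 : ℝ, E0 = Real.exp (16 * d / pc d ^ 2) := ⟨_, rfl⟩
  have hE0p : 0 < E0 := by rw [hE0]; exact Real.exp_pos _
  obtain ⟨δ, hδ⟩ : ∃ δ : ℝ, δ = c ^ 2 / (12 * (E0 * C1 * C2)) := ⟨_, rfl⟩
  have hδ0 : 0 < δ := by rw [hδ]; positivity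
  refine ⟨δ ^ 2 * c / 8, min (min ε0 ε1) (min (pc d / 3) (δ ^ 2 / 4)), by positivity,
    lt_min (lt_min hε0 hε1) (lt_min (by positivity) (by positivity)), fun ε hε hle => ?_⟩
  have hle0 : ε ≤ ε0 := hle.trans ((min_le_left _ _).trans (min_le_left _ _))
  have hle1 : ε ≤ ε1 := hle.trans ((min_le_left _ _).trans (min_le_right _ _))
  have hle2 : ε ≤ pc d / 3 := hle.trans ((min_le_right _ _).trans (min_le_left _ _))
  have hle3 : ε ≤ δ ^ 2 / 4 := hle.trans ((min_le_right _ _).trans (min_le_right _ _))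
  have hs0 : 0 < √ε := Real.sqrt_pos.mpr hε
  have hss : √ε * √ε = ε := Real.mul_self_sqrt hε.le
  have hq0 : 0 ≤ pc d - ε := by linarith
  have hq1 : pc d - ε ≤ 1 := by linarith
  have hp0 : 0 < pc d + ε := by linarith
  have hp2 : pc d + ε ≤ 1 / 2 := by linarith
  have hp1 : pc d + ε ≤ 1 := by linarith
  have hp'0 : 0 ≤ pc d + 3 * ε := by linarith
  have hp'1 : pc d + 3 * ε ≤ 1 := by linarith
  have hp'2 : pc d + 3 * ε ≤ 1 / 2 := by linarith
  -- the scales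
  obtain ⟨n, hn⟩ : ∃ n : ℕ, n = ⌊1 / ε ^ 2⌋₊ := ⟨_, rfl⟩
  have hn1 : (n : ℝ) ≤ 1 / ε ^ 2 := by rw [hn]; exact Nat.floor_le (by positivity)
  have hn2 : 1 / ε ^ 2 - 1 ≤ n := by
    have := Nat.lt_floor_add_one (1 / ε ^ 2)
    rw [← hn] at this
    linarith
  have hεs : ε ≤ 1 / 100 := by linarith
  have hn3 : 1 ≤ n := by
    have h1 : (2 : ℝ) ≤ 1 / ε ^ 2 := by
      rw [le_div_iff₀ (by positivity)]
      nlinarith
    have h2 : (1 : ℝ) ≤ n := by linarith
    exact_mod_cast h2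
  have hn0 : (0 : ℝ) < n := by exact_mod_cast hn3
  have hsn : √(n : ℝ) ≤ 1 / ε := by
    rw [Real.sqrt_le_left (by positivity), div_pow, one_pow]
    exact hn1
  have hsn0 : 0 < √(n : ℝ) := Real.sqrt_pos.mpr hn0
  obtain ⟨r, hr⟩ : ∃ r : ℕ, r = ⌊δ / √ε⌋₊ := ⟨_, rfl⟩
  have hr1 : (r : ℝ) ≤ δ / √ε := by rw [hr]; exact Nat.floor_le (by positivity)
  have hδs : 2 ≤ δ / √ε := by
    rw [le_div_iff₀ hs0]
    have h1 : √ε ≤ δ / 2 := by
      rw [Real.sqrt_le_left (by positivity), div_pow]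
      norm_num
      exact hle3
    linarith
  have hr2 : δ / √ε / 2 ≤ r := by
    have := Nat.lt_floor_add_one (δ / √ε)
    rw [← hr] at this
    linarith
  have hr3 : (1 : ℝ) ≤ r := by linarith
  -- the parts
  have hA := hcard ε n hε hle0 hn1 hn2
  obtain ⟨g, hg⟩ : ∃ g : Vx d → ℝ≥0∞, g = fun x => if (x i).natAbs ≤ r then (1 : ℝ≥0∞) else 0 :=
    ⟨_, rfl⟩
  obtain ⟨S, hS⟩ : ∃ S : ℝ≥0∞, S = ∑' x : Vx d, (nm x : ℝ≥0∞) ^ 2 * tauf (pc d + ε) x := ⟨_, rfl⟩
  have hYle : ∀ K : Finset (Vx d), ∑ x ∈ K, g x ≤ K.card := by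
    intro K
    calc ∑ x ∈ K, g x ≤ ∑ x ∈ K, 1 := by
          refine Finset.sum_le_sum fun x _ => ?_
          rw [hg]
          dsimp only
          split_ifs <;> simp
      _ = K.card := by simp
  -- the bound of B
  have hB : EF (d := d) (pc d + ε) (fun K => if K.card ≤ n then ∑ x ∈ K, g x else 0) ≤
      ENNReal.ofReal (c / (2 * ε)) := by
    have ht := EF_tilt1 (d := d) (p := pc d + ε) (q := pc d - ε) (p' := pc d + 3 * ε)
      (δ := 2 * ε) hp2 hp0 (by ring) (by ring) (by positivity) (by linarith) n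
      (fun K => ∑ x ∈ K, g x)
    have hq : EF (d := d) (pc d - ε) (fun K => if K.card ≤ n then ∑ x ∈ K, g x else 0) ≤
        ENNReal.ofReal (3 * r * (C1 / √ε)) := by
      calc EF (d := d) (pc d - ε) (fun K => if K.card ≤ n then ∑ x ∈ K, g x else 0)
          ≤ EF (d := d) (pc d - ε) (fun K => ∑ x ∈ K, g x) := by
            apply EF_mono
            intro K _
            split_ifs
            · exact le_rfl
            · exact zero_le
        _ = ∑' x : Vx d, g x * tauf (pc d - ε) x := EF_sum_mem _ g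
        _ ≤ ∑' x : Vx d, g x * tt (pc d - ε) x := by
            refine ENNReal.tsum_le_tsum fun x => ?_
            have := tauf_le_tt (d := d) hq0 hq1 x
            gcongr
        _ ≤ (2 * r + 1 : ℕ) * ENNReal.ofReal (C1 / √ε) := by
            rw [hg]
            exact N21_slab i r fun j => hpl ε hε hle1 (i, true) j
        _ ≤ ENNReal.ofReal (3 * r * (C1 / √ε)) := by
            rw [← ENNReal.ofReal_natCast, ← ENNReal.ofReal_mul (by positivity)]
            apply ENNReal.ofReal_le_ofReal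
            apply mul_le_mul_of_nonneg_right _ (by positivity)
            push_cast
            linarith
    have hp' : EF (d := d) (pc d + 3 * ε) (fun K => if K.card ≤ n then ∑ x ∈ K, g x else 0) ≤
        ENNReal.ofReal (C2 / ε) := by
      calc EF (d := d) (pc d + 3 * ε) (fun K => if K.card ≤ n then ∑ x ∈ K, g x else 0)
          ≤ EF (d := d) (pc d + 3 * ε) (fun K => ((min K.card n : ℕ) : ℝ≥0∞)) := by
            apply EF_mono
            intro K _
            split_ifs with h1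
            · rw [min_eq_left h1]
              exact hYle K
            · exact zero_le
        _ ≤ ENNReal.ofReal (vv d (pc d + 3 * ε) n) := EF_min_le hp'0 hp'1 n
        _ ≤ ENNReal.ofReal (C2 / ε) := by
            apply ENNReal.ofReal_le_ofReal
            have h1 := hvv (pc d + 3 * ε) n hp'0 hp'2 hn3 (by
              rw [add_sub_cancel_left, le_div_iff₀ hsn0]
              calc 3 * ε * √(n : ℝ) ≤ 3 * ε * (1 / ε) :=
                    mul_le_mul_of_nonneg_left hsn (by positivity)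
                _ = 3 := by field_simp)
            refine h1.trans ((mul_le_mul_of_nonneg_left hsn hC2.le).trans (le_of_eq ?_))
            ring
    have hex : Real.exp (2 * ((2 * ε) ^ 2 * (2 * d * n) / (pc d + ε) ^ 2)) ≤ E0 := by
      rw [hE0]
      apply Real.exp_le_exp.mpr
      have h1 : (2 * ε) ^ 2 * (2 * (d : ℝ) * n) ≤ 8 * d := by
        have h2 : ε ^ 2 * n ≤ 1 := by
          calc ε ^ 2 * n ≤ ε ^ 2 * (1 / ε ^ 2) := mul_le_mul_of_nonneg_left hn1 (by positivity)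
            _ = 1 := by field_simp
        calc (2 * ε) ^ 2 * (2 * (d : ℝ) * n) = 8 * (d : ℝ) * (ε ^ 2 * n) := by ring
          _ ≤ 8 * (d : ℝ) * 1 := mul_le_mul_of_nonneg_left h2 (by positivity)
          _ = 8 * (d : ℝ) := mul_one _
      calc 2 * ((2 * ε) ^ 2 * (2 * d * n) / (pc d + ε) ^ 2) ≤ 2 * (8 * d / pc d ^ 2) := by
            apply mul_le_mul_of_nonneg_left _ (by norm_num)
            apply div_le_div₀ (by positivity) h1 (by positivity)
            apply pow_le_pow_left₀ hpc0.le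
            linarith
        _ = 16 * d / pc d ^ 2 := by ring
    have hsq : EF (d := d) (pc d + ε) (fun K => if K.card ≤ n then ∑ x ∈ K, g x else 0) ^ 2 ≤
        ENNReal.ofReal (c / (2 * ε)) ^ 2 := by
      refine ht.trans ?_
      calc ENNReal.ofReal (Real.exp (2 * ((2 * ε) ^ 2 * (2 * d * n) / (pc d + ε) ^ 2))) *
            (EF (d := d) (pc d - ε) (fun K => if K.card ≤ n then ∑ x ∈ K, g x else 0) *
              EF (d := d) (pc d + 3 * ε) (fun K => if K.card ≤ n then ∑ x ∈ K, g x else 0))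
          ≤ ENNReal.ofReal E0 * (ENNReal.ofReal (3 * r * (C1 / √ε)) *
              ENNReal.ofReal (C2 / ε)) := by
            have := ENNReal.ofReal_le_ofReal hex
            gcongr
        _ = ENNReal.ofReal (E0 * (3 * r * (C1 / √ε) * (C2 / ε))) := by
            rw [← ENNReal.ofReal_mul (by positivity), ← ENNReal.ofReal_mul (by positivity)]
        _ ≤ ENNReal.ofReal ((c / (2 * ε)) ^ 2) := by
            apply ENNReal.ofReal_le_ofReal
            calc E0 * (3 * r * (C1 / √ε) * (C2 / ε)) = 3 * (E0 * C1 * C2) * r * (1 / √ε / ε) := by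
                  ring
              _ ≤ 3 * (E0 * C1 * C2) * (δ / √ε) * (1 / √ε / ε) := by gcongr
              _ = 3 * (E0 * C1 * C2) * δ * (1 / (√ε * √ε) / ε) := by
                  field_simp
              _ = (c / (2 * ε)) ^ 2 := by
                  rw [hss, hδ]
                  field_simp
                  norm_num
        _ = ENNReal.ofReal (c / (2 * ε)) ^ 2 := by rw [ENNReal.ofReal_pow (by positivity)]
    by_contra hcon
    rw [not_le] at hcon
    exact absurd hsq (not_le.mpr (ENNReal.pow_lt_pow_left two_ne_zero hcon))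
  -- the comparison
  have hcmp : (r : ℝ≥0∞) ^ 2 *
      EF (d := d) (pc d + ε) (fun K => if K.card ≤ n then (K.card : ℝ≥0∞) else 0) ≤
      S + (r : ℝ≥0∞) ^ 2 *
        EF (d := d) (pc d + ε) (fun K => if K.card ≤ n then ∑ x ∈ K, g x else 0) := by
    have h1 : S = EF (d := d) (pc d + ε) (fun K => ∑ x ∈ K, (nm x : ℝ≥0∞) ^ 2) := by
      rw [hS, EF_sum_mem]
    rw [h1, ← EF_const_mul, ← EF_const_mul, ← EF_add]
    apply EF_mono
    intro K _
    split_ifs
    · rw [hg]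
      exact N21_pt i r K
    · rw [mul_zero]
      exact zero_le
  have hfin : ENNReal.ofReal ((r : ℝ) ^ 2 * (c / ε)) ≤
      S + ENNReal.ofReal ((r : ℝ) ^ 2 * (c / (2 * ε))) := by
    have e1 : ENNReal.ofReal ((r : ℝ) ^ 2) = (r : ℝ≥0∞) ^ 2 := by
      rw [ENNReal.ofReal_pow (by positivity), ENNReal.ofReal_natCast]
    rw [ENNReal.ofReal_mul (by positivity), ENNReal.ofReal_mul (by positivity), e1]
    calc (r : ℝ≥0∞) ^ 2 * ENNReal.ofReal (c / ε)
        ≤ (r : ℝ≥0∞) ^ 2 *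
          EF (d := d) (pc d + ε) (fun K => if K.card ≤ n then (K.card : ℝ≥0∞) else 0) := by gcongr
      _ ≤ _ := hcmp
      _ ≤ _ := by gcongr
  rw [← tsub_le_iff_right, ← ENNReal.ofReal_sub _ (by positivity)] at hfin
  rw [← hS]
  refine le_trans (ENNReal.ofReal_le_ofReal ?_) hfin
  have h1 : (r : ℝ) ^ 2 * (c / ε) - (r : ℝ) ^ 2 * (c / (2 * ε)) = (r : ℝ) ^ 2 * (c / (2 * ε)) := by
    field_simp
    norm_num
  rw [h1]
  have h2 : (δ / √ε / 2) ^ 2 ≤ (r : ℝ) ^ 2 := pow_le_pow_left₀ (by positivity) hr2 2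
  calc δ ^ 2 * c / 8 / ε ^ 2 = (δ / √ε / 2) ^ 2 * (c / (2 * ε)) := by
        rw [div_pow, div_pow, Real.sq_sqrt hε.le]
        field_simp
        norm_num
    _ ≤ (r : ℝ) ^ 2 * (c / (2 * ε)) := by gcongr

end Pool.Agent.HD
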