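import Pool.Agent.Lib.MP_8ca597_hd.NDefs

/-!
# Row N40: walks and intrinsic balls, elementary facts

`mem_nb`: induction on `s` (a walk with `n < s + 1` steps from `A`: if `n = 0` the end is in `A`,
otherwise take away the last step). Everything else follows from `mem_nb` and elementary facts on
walks; `Wk.symm` by induction with `Wk.cons`.
-/

set_option autoImplicit false

namespace Pool.Agent.HD

open Finset
open scoped ENNReal

variable {d : ℕ} {T T' : Finset (Ed d)} {V V' A A' : Finset (Vx d)} {x y z : Vx d} {m n s t : ℕ}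

theorem Wk.left (h : Wk T V n x y) : x ∈ V := by
  induction n generalizing y with
  | zero => exact h.1
  | succ n ih => obtain ⟨w, h1, _⟩ := h; exact ih h1

theorem Wk.right (h : Wk T V n x y) : y ∈ V := by
  cases n with
  | zero => rw [← h.2]; exact h.1
  | succ n => obtain ⟨w, _, h2⟩ := h; exact h2.1

theorem Wk.mono (h : Wk T V n x y) (hT : T ⊆ T') (hV : V ⊆ V') : Wk T' V' n x y := by
  induction n generalizing y with
  | zero => exact ⟨hV h.1, h.2⟩
  | succ n ih =>
    obtain ⟨w, h1, h2⟩ := h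
    exact ⟨w, ih h1, hV h2.1, h2.2.1, hT h2.2.2⟩

theorem Wk.trans (h : Wk T V m x y) (h' : Wk T V n y z) : Wk T V (m + n) x z := by
  induction n generalizing z with
  | zero => rw [← h'.2]; exact h
  | succ n ih =>
    obtain ⟨w, h1, h2⟩ := h'
    exact ⟨w, ih h1, h2⟩

/-- A walk splits at every time. -/
theorem Wk.split (h : Wk T V (m + n) x z) : ∃ y, Wk T V m x y ∧ Wk T V n y z := by
  induction n generalizing z with
  | zero => exact ⟨z, h, h.right, rfl⟩
  | succ n ih =>
    obtain ⟨w, h1, h2⟩ := h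
    obtain ⟨y, h3, h4⟩ := ih h1
    exact ⟨y, h3, w, h4, h2⟩

theorem Wk.symm (h : Wk T V n x y) : Wk T V n y x := by
  induction n generalizing y with
  | zero => exact ⟨h.right, h.2.symm⟩
  | succ n ih =>
    obtain ⟨w, h1, h2⟩ := h
    have h3 : Wk T V 1 y w :=
      ⟨y, ⟨h2.1, rfl⟩, h1.right, h2.2.1.symm, by rw [Sym2.eq_swap]; exact h2.2.2⟩
    have h4 := h3.trans (ih h1)
    rw [add_comm] at h4
    exact h4

theorem Wk.conn (h : Wk T V n x y) : Conn T V x y := by
  induction n generalizing y with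
  | zero => rw [← h.2]; exact Conn.refl h.1
  | succ n ih =>
    obtain ⟨w, h1, h2⟩ := h
    exact (ih h1).step h2.1 h2.2.1 h2.2.2

private theorem N40_exists (h : Conn T V x y) : ∃ n, Wk T V n x y := by
  obtain ⟨hx, h⟩ := h
  induction h with
  | refl => exact ⟨0, hx, rfl⟩
  | tail _ h2 ih =>
    obtain ⟨n, hn⟩ := ih
    exact ⟨n + 1, _, hn, h2⟩

theorem exists_wk (h : Conn T V x y) : ∃ n < V.card, Wk T V n x y := by
  classical
  have hex := N40_exists h
  refine ⟨Nat.find hex, ?_, Nat.find_spec hex⟩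
  set n := Nat.find hex with hn
  have hw : Wk T V n x y := Nat.find_spec hex
  have hmin : ∀ k < n, ¬ Wk T V k x y := fun k hk => Nat.find_min hex hk
  have hsp : ∀ i : ℕ, ∃ u, i ≤ n → Wk T V i x u ∧ Wk T V (n - i) u y := by
    intro i
    by_cases hi : i ≤ n
    · have h1 : Wk T V (i + (n - i)) x y := by rw [Nat.add_sub_cancel' hi]; exact hw
      obtain ⟨u, hu⟩ := h1.split
      exact ⟨u, fun _ => hu⟩
    · exact ⟨x, fun h => absurd h hi⟩
  choose f hf using hsp
  have hcard : (range (n + 1)).card ≤ V.card := by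
    refine Finset.card_le_card_of_injOn f ?_ ?_
    · intro i hi
      have hi' : i ≤ n := Nat.lt_succ_iff.1 (Finset.mem_range.1 (Finset.mem_coe.1 hi))
      exact (hf i hi').1.right
    · have key : ∀ i j, i < j → j ≤ n → f i ≠ f j := by
        intro i j hij hj he
        have h1 := (hf i (hij.le.trans hj)).1
        have h2 := (hf j hj).2
        rw [← he] at h2
        exact hmin (i + (n - j)) (by omega) (h1.trans h2)
      intro i hi j hj he
      have hi' : i ≤ n := Nat.lt_succ_iff.1 (Finset.mem_range.1 (Finset.mem_coe.1 hi))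
      have hj' : j ≤ n := Nat.lt_succ_iff.1 (Finset.mem_range.1 (Finset.mem_coe.1 hj))
      rcases lt_trichotomy i j with hlt | heq | hgt
      · exact absurd he (key i j hlt hj')
      · exact heq
      · exact absurd he.symm (key j i hgt hi')
  rw [Finset.card_range] at hcard
  omega

theorem mem_nb : y ∈ nb T V A s ↔ ∃ a ∈ A, ∃ n < s, Wk T V n a y := by
  classical
  induction s generalizing y with
  | zero => simp [nb]
  | succ s ih =>
    unfold nb
    rw [Finset.mem_filter]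
    constructor
    · rintro ⟨hV, hA | ⟨w, hw, ha, he⟩⟩
      · exact ⟨y, hA, 0, Nat.succ_pos s, hV, rfl⟩
      · obtain ⟨a, haA, n, hn, hwk⟩ := ih.1 hw
        exact ⟨a, haA, n + 1, Nat.succ_lt_succ hn, w, hwk, hV, ha, he⟩
    · rintro ⟨a, haA, n, hn, hwk⟩
      refine ⟨hwk.right, ?_⟩
      cases n with
      | zero => left; rw [← hwk.2]; exact haA
      | succ n =>
        right
        obtain ⟨w, h1, h2⟩ := hwk
        exact ⟨w, ih.2 ⟨a, haA, n, Nat.lt_of_succ_lt_succ hn, h1⟩, h2.2.1, h2.2.2⟩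

theorem mem_nb_single : y ∈ nb T V {x} s ↔ ∃ n < s, Wk T V n x y := by
  rw [mem_nb]
  simp

theorem nb_subset (T : Finset (Ed d)) (V A : Finset (Vx d)) (s : ℕ) : nb T V A s ⊆ V := by
  intro y hy
  obtain ⟨a, _, n, _, h⟩ := mem_nb.1 hy
  exact h.right

theorem nb_mono (hT : T ⊆ T') (hV : V ⊆ V') (hA : A ⊆ A') (hs : s ≤ t) :
    nb T V A s ⊆ nb T' V' A' t := by
  intro y hy
  obtain ⟨a, ha, n, hn, h⟩ := mem_nb.1 hy
  exact mem_nb.2 ⟨a, hA ha, n, hn.trans_le hs, h.mono hT hV⟩

private theorem N40_inter : Wk (T ∩ edges V) V n x y ↔ Wk T V n x y := by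
  constructor
  · intro h
    exact h.mono Finset.inter_subset_left (Finset.Subset.refl V)
  · intro h
    induction n generalizing y with
    | zero => exact h
    | succ n ih =>
      obtain ⟨w, h1, h2⟩ := h
      exact ⟨w, ih h1, h2.1, h2.2.1,
        Finset.mem_inter.2 ⟨h2.2.2, mem_edges.2 ⟨h1.right, h2.1, h2.2.1⟩⟩⟩

theorem nb_inter_edges (T : Finset (Ed d)) (V A : Finset (Vx d)) (s : ℕ) :
    nb (T ∩ edges V) V A s = nb T V A s := by
  ext y
  rw [mem_nb, mem_nb]
  simp_rw [N40_inter]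

theorem wk_inter_edges : Wk (T ∩ edges V) V n x y ↔ Wk T V n x y := N40_inter

theorem up_nb (V A : Finset (Vx d)) (s : ℕ) (y : Vx d) :
    Up {T : Finset (Ed d) | y ∈ nb T V A s} := fun _ _ h hy =>
  nb_mono h (Finset.Subset.refl V) (Finset.Subset.refl A) le_rfl hy

theorem dep_nb (V A : Finset (Vx d)) (s : ℕ) (y : Vx d) :
    Dep {T : Finset (Ed d) | y ∈ nb T V A s} (edges V) := by
  intro T T' h
  change y ∈ nb T V A s ↔ y ∈ nb T' V A s
  rw [← nb_inter_edges T, h, nb_inter_edges T']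

theorem nb_symm : y ∈ nb T V {x} s ↔ x ∈ nb T V {y} s := by
  rw [mem_nb_single, mem_nb_single]
  exact ⟨fun ⟨n, hn, h⟩ => ⟨n, hn, h.symm⟩, fun ⟨n, hn, h⟩ => ⟨n, hn, h.symm⟩⟩

theorem nb_subset_cl (T : Finset (Ed d)) (V : Finset (Vx d)) (x : Vx d) (s : ℕ) :
    nb T V {x} s ⊆ cl T V x := by
  intro y hy
  obtain ⟨n, _, h⟩ := mem_nb_single.1 hy
  exact mem_cl.2 h.conn

/-- The exact distance. -/
theorem mem_sph : y ∈ sph T V A s ↔ (∃ a ∈ A, Wk T V s a y) ∧ ∀ a ∈ A, ∀ n < s, ¬ Wk T V n a y := by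
  unfold sph
  rw [Finset.mem_sdiff, mem_nb, mem_nb]
  constructor
  · rintro ⟨⟨a, ha, n, hn, h⟩, h2⟩
    have hns : n = s := by
      by_contra hne
      exact h2 ⟨a, ha, n, by omega, h⟩
    subst hns
    exact ⟨⟨a, ha, h⟩, fun b hb k hk hw => h2 ⟨b, hb, k, hk, hw⟩⟩
  · rintro ⟨⟨a, ha, h⟩, h2⟩
    exact ⟨⟨a, ha, s, Nat.lt_succ_self s, h⟩, fun ⟨b, hb, k, hk, hw⟩ => h2 b hb k hk hw⟩

theorem sph_subset (T : Finset (Ed d)) (V A : Finset (Vx d)) (s : ℕ) : sph T V A s ⊆ V :=
  Finset.sdiff_subset.trans (nb_subset T V A (s + 1))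

theorem sph_inter_edges (T : Finset (Ed d)) (V A : Finset (Vx d)) (s : ℕ) :
    sph (T ∩ edges V) V A s = sph T V A s := by
  unfold sph
  rw [nb_inter_edges, nb_inter_edges]

theorem sph_zero (T : Finset (Ed d)) (V A : Finset (Vx d)) : sph T V A 0 = A ∩ V := by
  ext y
  rw [mem_sph, Finset.mem_inter]
  constructor
  · rintro ⟨⟨a, ha, h1, h2⟩, _⟩
    rw [← h2]
    exact ⟨ha, h1⟩
  · rintro ⟨hA, hV⟩
    exact ⟨⟨y, hA, hV, rfl⟩, fun _ _ n hn => absurd hn (Nat.not_lt_zero n)⟩

theorem sph_disjoint (h : s ≠ t) : Disjoint (sph T V A s) (sph T V A t) := by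
  rw [Finset.disjoint_left]
  intro y h1 h2
  rw [mem_sph] at h1 h2
  obtain ⟨⟨a, ha, hw⟩, h1'⟩ := h1
  obtain ⟨⟨b, hb, hw'⟩, h2'⟩ := h2
  rcases lt_or_gt_of_ne h with hlt | hgt
  · exact h2' a ha s hlt hw
  · exact h1' b hb t hgt hw'

/-- If the sphere of radius `t` is not empty, all smaller spheres are not empty. -/
theorem sph_nonempty (h : (sph T V A t).Nonempty) (hs : s ≤ t) : (sph T V A s).Nonempty := by
  obtain ⟨v, hv⟩ := h
  rw [mem_sph] at hv
  obtain ⟨⟨a, ha, hw⟩, hmin⟩ := hv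
  have h1 : Wk T V (s + (t - s)) a v := by rw [Nat.add_sub_cancel' hs]; exact hw
  obtain ⟨w, h2, h3⟩ := h1.split
  refine ⟨w, mem_sph.2 ⟨⟨a, ha, h2⟩, fun b hb n hn h4 => ?_⟩⟩
  exact hmin b hb (n + (t - s)) (by omega) (h4.trans h3)

/-- The spheres are disjoint and contained in the ball. -/
theorem sum_card_sph (T : Finset (Ed d)) (V A : Finset (Vx d)) (s : ℕ) :
    ∑ i ∈ range s, (sph T V A i).card = (nb T V A s).card := by
  induction s with
  | zero => simp [nb]
  | succ s ih =>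
    rw [Finset.sum_range_succ, ih, add_comm]
    exact Finset.card_sdiff_add_card_eq_card
      (nb_mono (Finset.Subset.refl T) (Finset.Subset.refl V) (Finset.Subset.refl A)
        (Nat.le_succ s))

/-- A ball which is larger than the cluster. -/
theorem nb_eq_cl (T : Finset (Ed d)) (V : Finset (Vx d)) (x : Vx d) (h : V.card ≤ s) :
    nb T V {x} s = cl T V x := by
  refine Finset.Subset.antisymm (nb_subset_cl T V x s) fun y hy => ?_
  obtain ⟨n, hn, hw⟩ := exists_wk (mem_cl.1 hy)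
  exact mem_nb_single.2 ⟨n, hn.trans_le h, hw⟩

end Pool.Agent.HD
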