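import Pool.Agent.Lib.MP_8ca597_hd.N40
import Pool.Agent.Lib.MP_8ca597_hd.A06

/-!
# Row N41: exploration of intrinsic balls

`nb_eq_of_touch`: induction on `i`. `layer`: distances `s + j` from `A` are distances `j` from
`sph T V A s` in `V \ nb T V A s` (`mem_nb`, `Wk.split`; a walk with `s + j` steps from `A` to a vertex
at distance `s + j` visits at time `s + i` a vertex at distance exactly `s + i`).
`follow`: let `y'` be the vertex at time `s` on a walk with `m` steps from `y` to `v`; its distances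
from `y` and from `L` are `s`, and the rest of the walk avoids `nb T V L s`.
`expl_gen`: sum over the value `K` of `K T`; `{T | K T = K}` depends only on `touch V K`; then
`EE_union` for `edges V = touch V K ∪ edges (V \ K)`.
-/

set_option autoImplicit false

namespace Pool.Agent.HD

open Finset
open scoped ENNReal

variable {d : ℕ} {T T' : Finset (Ed d)} {V A L : Finset (Vx d)} {v x y : Vx d} {m s t : ℕ}

/-- The ball of radius `s` (distance `< s + 1`) is determined by the edges which touch the ball of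
radius `s - 1`. -/
theorem nb_eq_of_touch (h : T ∩ touch V (nb T V A s) = T' ∩ touch V (nb T V A s)) {i : ℕ}
    (hi : i ≤ s + 1) : nb T' V A i = nb T V A i := by
  classical
  induction i with
  | zero => rfl
  | succ i ih =>
    have hi' : i ≤ s := Nat.le_of_succ_le_succ hi
    have ih' := ih (hi'.trans (Nat.le_succ s))
    have hsub : nb T V A i ⊆ nb T V A s :=
      nb_mono (Finset.Subset.refl T) (Finset.Subset.refl V) (Finset.Subset.refl A) hi'
    have hmem : ∀ x ∈ nb T V A i, ∀ y ∈ V, Adj x y → (s(x, y) ∈ T' ↔ s(x, y) ∈ T) := by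
      intro x hx y hy ha
      have ht : s(x, y) ∈ touch V (nb T V A s) :=
        mem_touch.2 ⟨⟨nb_subset T V A i hx, hy, ha⟩, Or.inl (hsub hx)⟩
      constructor
      · intro h1
        have h2 : s(x, y) ∈ T' ∩ touch V (nb T V A s) := Finset.mem_inter.2 ⟨h1, ht⟩
        rw [← h] at h2
        exact (Finset.mem_inter.1 h2).1
      · intro h1
        have h2 : s(x, y) ∈ T ∩ touch V (nb T V A s) := Finset.mem_inter.2 ⟨h1, ht⟩
        rw [h] at h2
        exact (Finset.mem_inter.1 h2).1
    unfold nb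
    rw [ih']
    ext y
    rw [Finset.mem_filter, Finset.mem_filter]
    constructor
    · rintro ⟨hV, hA | ⟨x, hx, ha, he⟩⟩
      · exact ⟨hV, Or.inl hA⟩
      · exact ⟨hV, Or.inr ⟨x, hx, ha, (hmem x hx y hV ha).1 he⟩⟩
    · rintro ⟨hV, hA | ⟨x, hx, ha, he⟩⟩
      · exact ⟨hV, Or.inl hA⟩
      · exact ⟨hV, Or.inr ⟨x, hx, ha, (hmem x hx y hV ha).2 he⟩⟩

private theorem N41_restrict {K : Finset (Vx d)} {n : ℕ} (h : Wk T V n x y)
    (hK : ∀ i ≤ n, ∀ u, Wk T V i x u → Wk T V (n - i) u y → u ∉ K) : Wk T (V \ K) n x y := by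
  induction n generalizing y with
  | zero =>
    refine ⟨Finset.mem_sdiff.2 ⟨h.1, hK 0 le_rfl x ⟨h.1, rfl⟩ h⟩, h.2⟩
  | succ n ih =>
    obtain ⟨w, h1, h2⟩ := h
    refine ⟨w, ih h1 fun i hi u hu hu' => ?_, ?_, h2.2⟩
    · refine hK i (hi.trans (Nat.le_succ n)) u hu ?_
      have e : n + 1 - i = (n - i) + 1 := by omega
      rw [e]
      exact ⟨w, hu', h2⟩
    · refine Finset.mem_coe.2 (Finset.mem_sdiff.2 ⟨h2.1, ?_⟩)
      refine hK (n + 1) le_rfl y ⟨w, h1, h2⟩ ?_
      rw [Nat.sub_self]
      exact ⟨h2.1, rfl⟩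

/-- Layers. -/
theorem layer (T : Finset (Ed d)) (V A : Finset (Vx d)) (s t : ℕ) :
    nb T V A (s + t) = nb T V A s ∪ nb T (V \ nb T V A s) (sph T V A s) t := by
  classical
  ext y
  rw [Finset.mem_union]
  constructor
  · intro hy
    by_cases hys : y ∈ nb T V A s
    · exact Or.inl hys
    · right
      have hex : ∃ n, n < s + t ∧ ∃ a ∈ A, Wk T V n a y := by
        obtain ⟨a, ha, n, hn, h⟩ := mem_nb.1 hy
        exact ⟨n, hn, a, ha, h⟩
      obtain ⟨hn, a, ha, hw⟩ := Nat.find_spec hex
      set n := Nat.find hex with hndef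
      have hmin : ∀ k < n, ∀ b ∈ A, ¬ Wk T V k b y := by
        intro k hk b hb hwk
        exact Nat.find_min hex hk ⟨hk.trans hn, b, hb, hwk⟩
      have hns : s ≤ n := by
        by_contra hlt
        exact hys (mem_nb.2 ⟨a, ha, n, by omega, hw⟩)
      have h1 : Wk T V (s + (n - s)) a y := by rw [Nat.add_sub_cancel' hns]; exact hw
      obtain ⟨w, h2, h3⟩ := h1.split
      have hwsp : w ∈ sph T V A s := by
        refine mem_sph.2 ⟨⟨a, ha, h2⟩, fun b hb k hk h4 => ?_⟩
        exact hmin (k + (n - s)) (by omega) b hb (h4.trans h3)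
      refine mem_nb.2 ⟨w, hwsp, n - s, by omega, N41_restrict h3 fun i hi u hu hu' hus => ?_⟩
      obtain ⟨b, hb, k, hk, h4⟩ := mem_nb.1 hus
      exact hmin (k + (n - s - i)) (by omega) b hb (h4.trans hu')
  · rintro (hy | hy)
    · exact nb_mono (Finset.Subset.refl T) (Finset.Subset.refl V) (Finset.Subset.refl A)
        (Nat.le_add_right s t) hy
    · obtain ⟨w, hw, j, hj, h⟩ := mem_nb.1 hy
      obtain ⟨⟨a, ha, h1⟩, _⟩ := mem_sph.1 hw
      exact mem_nb.2 ⟨a, ha, s + j, by omega,
        h1.trans (h.mono (Finset.Subset.refl T) Finset.sdiff_subset)⟩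

theorem sph_layer (T : Finset (Ed d)) (V A : Finset (Vx d)) (s t : ℕ) :
    sph T V A (s + t) = sph T (V \ nb T V A s) (sph T V A s) t := by
  have h1 := layer T V A s (t + 1)
  have h2 := layer T V A s t
  have h3 := nb_subset T (V \ nb T V A s) (sph T V A s) (t + 1)
  have e : sph T V A (s + t) = nb T V A (s + (t + 1)) \ nb T V A (s + t) := rfl
  have e' : sph T (V \ nb T V A s) (sph T V A s) t =
      nb T (V \ nb T V A s) (sph T V A s) (t + 1) \
        nb T (V \ nb T V A s) (sph T V A s) t := rfl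
  rw [e, e', h1, h2]
  ext y
  rw [Finset.mem_sdiff, Finset.mem_union, Finset.mem_union, Finset.mem_sdiff]
  constructor
  · rintro ⟨h4 | h4, h5⟩
    · exact absurd (Or.inl h4) h5
    · exact ⟨h4, fun h6 => h5 (Or.inr h6)⟩
  · rintro ⟨h4, h5⟩
    refine ⟨Or.inr h4, ?_⟩
    rintro (h6 | h6)
    · exact (Finset.mem_sdiff.1 (h3 h4)).2 h6
    · exact h5 h6

/-- A vertex at distance `s + t` has an ancestor at distance `s`. -/
theorem sph_anc (h : v ∈ sph T V A (s + t)) :
    ∃ y ∈ sph T V A s, v ∈ sph T (V \ nb T V A s) {y} t := by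
  rw [sph_layer, mem_sph] at h
  obtain ⟨⟨y, hy, hw⟩, hmin⟩ := h
  refine ⟨y, hy, mem_sph.2 ⟨⟨y, Finset.mem_singleton_self y, hw⟩, fun b hb n hn h' => ?_⟩⟩
  rw [Finset.mem_singleton] at hb
  subst hb
  exact hmin b hy n hn h'

/-- Follow a target. -/
theorem follow (hy : y ∈ L) (h : v ∈ sph T V {y} m) (h' : v ∈ sph T V L m) (hs : s ≤ m) :
    ∃ y', y' ∈ sph T V {y} s ∧ y' ∈ sph T V L s ∧
      v ∈ sph T (V \ nb T V L s) {y'} (m - s) ∧
      v ∈ sph T (V \ nb T V L s) (sph T V L s) (m - s) := by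
  have hlay : v ∈ sph T (V \ nb T V L s) (sph T V L s) (m - s) := by
    rw [← sph_layer, Nat.add_sub_cancel' hs]
    exact h'
  rw [mem_sph] at h h'
  obtain ⟨⟨b, hb, hw⟩, hmin⟩ := h
  rw [Finset.mem_singleton] at hb
  subst hb
  obtain ⟨_, hmin'⟩ := h'
  have h1 : Wk T V (s + (m - s)) b v := by rw [Nat.add_sub_cancel' hs]; exact hw
  obtain ⟨w, h2, h3⟩ := h1.split
  refine ⟨w, ?_, ?_, ?_, hlay⟩
  · refine mem_sph.2 ⟨⟨b, Finset.mem_singleton_self b, h2⟩, fun c hc n hn h4 => ?_⟩
    exact hmin c hc (n + (m - s)) (by omega) (h4.trans h3)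
  · refine mem_sph.2 ⟨⟨b, hy, h2⟩, fun c hc n hn h4 => ?_⟩
    exact hmin' c hc (n + (m - s)) (by omega) (h4.trans h3)
  · refine mem_sph.2 ⟨⟨w, Finset.mem_singleton_self w, N41_restrict h3 ?_⟩, ?_⟩
    · intro i hi u hu hu' hus
      obtain ⟨c, hc, k, hk, h4⟩ := mem_nb.1 hus
      exact hmin' c hc (k + (m - s - i)) (by omega) (h4.trans hu')
    · intro c hc n hn h4
      rw [Finset.mem_singleton] at hc
      subst hc
      exact hmin b (Finset.mem_singleton_self b) (s + n) (by omega)
        (h2.trans (h4.mono (Finset.Subset.refl T) Finset.sdiff_subset))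

/-- The ball around a point of `L` is contained in the ball around `L`. -/
theorem nb_single_subset (hy : y ∈ L) (T : Finset (Ed d)) (V : Finset (Vx d)) (s : ℕ) :
    nb T V {y} s ⊆ nb T V L s :=
  nb_mono (Finset.Subset.refl T) (Finset.Subset.refl V) (Finset.singleton_subset_iff.2 hy) le_rfl

private theorem N41_one (p : ℝ) (V : Finset (Vx d)) (K : Finset (Ed d) → Finset (Vx d))
    (hK : ∀ T T', T ∩ touch V (K T) = T' ∩ touch V (K T) → K T' = K T)
    (k : Finset (Vx d)) (F : Finset (Ed d) → Finset (Ed d) → ℝ) :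
    EE p (edges V) (fun T => if K T = k then F (T ∩ touch V k) (T ∩ edges (V \ k)) else 0) =
      EE p (touch V k) fun T => if K T = k then EE p (edges (V \ k)) (F T) else 0 := by
  classical
  have hun : edges V = touch V k ∪ edges (V \ k) := by
    rw [← edges_sdiff_touch]
    exact (Finset.union_sdiff_of_subset (touch_subset V k)).symm
  have hdis : Disjoint (touch V k) (edges (V \ k)) := by
    rw [← edges_sdiff_touch]
    exact Finset.disjoint_sdiff
  conv_lhs => rw [hun]
  rw [EE_union p hdis]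
  refine EE_congr fun T hT => ?_
  have hin : ∀ T' ⊆ edges (V \ k), (T ∪ T') ∩ touch V k = T := by
    intro T' hT'
    ext e
    rw [Finset.mem_inter, Finset.mem_union]
    constructor
    · rintro ⟨h1 | h1, h2⟩
      · exact h1
      · exact absurd (hT' h1) (Finset.disjoint_left.1 hdis h2)
    · intro h1
      exact ⟨Or.inl h1, hT h1⟩
  have hout : ∀ T' ⊆ edges (V \ k), (T ∪ T') ∩ edges (V \ k) = T' := by
    intro T' hT'
    ext e
    rw [Finset.mem_inter, Finset.mem_union]
    constructor
    · rintro ⟨h1 | h1, h2⟩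
      · exact absurd h2 (Finset.disjoint_left.1 hdis (hT h1))
      · exact h1
    · intro h1
      exact ⟨Or.inr h1, hT' h1⟩
  have hTT : T ∩ touch V k = T := Finset.inter_eq_left.2 hT
  have hiff : ∀ T' ⊆ edges (V \ k), (K (T ∪ T') = k ↔ K T = k) := by
    intro T' hT'
    constructor
    · intro h
      have h1 : K T = K (T ∪ T') := by
        refine hK (T ∪ T') T ?_
        rw [h, hin T' hT', hTT]
      rw [h1, h]
    · intro h
      have h1 : K (T ∪ T') = K T := by
        refine hK T (T ∪ T') ?_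
        rw [h, hin T' hT', hTT]
      rw [h1, h]
  by_cases hk : K T = k
  · rw [if_pos hk]
    refine EE_congr fun T' hT' => ?_
    rw [if_pos ((hiff T' hT').2 hk), hin T' hT', hout T' hT']
  · rw [if_neg hk]
    have : ∀ T' ⊆ edges (V \ k), (if K (T ∪ T') = k then
        F ((T ∪ T') ∩ touch V k) ((T ∪ T') ∩ edges (V \ k)) else 0) = (0 : ℝ) := by
      intro T' hT'
      rw [if_neg (fun h => hk ((hiff T' hT').1 h))]
    rw [EE_congr (g := fun _ => (0 : ℝ)) this, EE_const]

private theorem N41_split (p : ℝ) (S : Finset (Ed d)) (K : Finset (Ed d) → Finset (Vx d))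
    (f : Finset (Ed d) → ℝ) : EE p S f =
      ∑ k ∈ S.powerset.image K, EE p S fun T => if K T = k then f T else 0 := by
  classical
  rw [← EE_sum]
  refine EE_congr fun T hT => ?_
  rw [Finset.sum_ite_eq, if_pos]
  exact Finset.mem_image_of_mem K (Finset.mem_powerset.2 hT)

/-- Exploration: the set `K T` is determined by the edges which touch it. -/
theorem expl_gen (p : ℝ) (V : Finset (Vx d)) (K : Finset (Ed d) → Finset (Vx d))
    (hK : ∀ T T', T ∩ touch V (K T) = T' ∩ touch V (K T) → K T' = K T)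
    (g : Finset (Ed d) → Finset (Ed d) → ℝ) :
    EE p (edges V) (fun T => g (T ∩ touch V (K T)) (T ∩ edges (V \ K T))) =
      EE p (edges V) fun T => EE p (edges (V \ K T)) (g (T ∩ touch V (K T))) := by
  classical
  rw [N41_split p (edges V) K, N41_split p (edges V) K]
  refine Finset.sum_congr rfl fun k _ => ?_
  have h1 : EE p (edges V) (fun T => if K T = k then
      g (T ∩ touch V (K T)) (T ∩ edges (V \ K T)) else 0) =
      EE p (edges V) (fun T => if K T = k then
        (fun T1 T2 => g T1 T2) (T ∩ touch V k) (T ∩ edges (V \ k)) else 0) := by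
    refine EE_congr fun T _ => ?_
    by_cases hk : K T = k
    · rw [if_pos hk, if_pos hk, hk]
    · rw [if_neg hk, if_neg hk]
  have h2 : EE p (edges V) (fun T => if K T = k then
      EE p (edges (V \ K T)) (g (T ∩ touch V (K T))) else 0) =
      EE p (edges V) (fun T => if K T = k then
        (fun T1 _ => EE p (edges (V \ k)) (g T1)) (T ∩ touch V k) (T ∩ edges (V \ k)) else 0) := by
    refine EE_congr fun T _ => ?_
    by_cases hk : K T = k
    · rw [if_pos hk, if_pos hk, hk]
    · rw [if_neg hk, if_neg hk]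
  rw [h1, h2, N41_one p V K hK k, N41_one p V K hK k
    (fun T1 _ => EE p (edges (V \ k)) (g T1))]
  refine EE_congr fun T _ => ?_
  rw [EE_const]

/-- Exploration of the ball: `f` is determined by the explored edges, `g` depends on the state and
on the edges outside. -/
theorem expl_nb (p : ℝ) (V A : Finset (Vx d)) (s : ℕ) (f : Finset (Ed d) → ℝ)
    (hf : ∀ T T', T ∩ touch V (nb T V A s) = T' ∩ touch V (nb T V A s) → f T' = f T)
    (g : Finset (Vx d) → Finset (Vx d) → Finset (Ed d) → ℝ) :
    EE p (edges V) (fun T => f T * g (nb T V A s) (sph T V A s) (T ∩ edges (V \ nb T V A s))) =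
      EE p (edges V) fun T => f T *
        EE p (edges (V \ nb T V A s)) (g (nb T V A s) (sph T V A s)) := by
  have hK : ∀ T T' : Finset (Ed d), T ∩ touch V (nb T V A s) = T' ∩ touch V (nb T V A s) →
      nb T' V A s = nb T V A s := fun T T' h => nb_eq_of_touch h (Nat.le_succ s)
  have hself : ∀ T : Finset (Ed d), T ∩ touch V (nb T V A s) =
      (T ∩ touch V (nb T V A s)) ∩ touch V (nb T V A s) := by
    intro T
    rw [Finset.inter_assoc, Finset.inter_self]
  have hnb : ∀ T : Finset (Ed d), nb (T ∩ touch V (nb T V A s)) V A s = nb T V A s :=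
    fun T => hK T _ (hself T)
  have hsp : ∀ T : Finset (Ed d), sph (T ∩ touch V (nb T V A s)) V A s = sph T V A s := by
    intro T
    unfold sph
    rw [nb_eq_of_touch (hself T) le_rfl, hnb T]
  have hff : ∀ T : Finset (Ed d), f (T ∩ touch V (nb T V A s)) = f T :=
    fun T => hf T _ (hself T)
  have h := expl_gen p V (fun T => nb T V A s) hK
    (fun T1 T2 => f T1 * g (nb T1 V A s) (sph T1 V A s) T2)
  simp_rw [hnb, hsp, hff, EE_const_mul] at h
  exact h

end Pool.Agent.HD
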