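import Pool.Agent.Lib.MP_8ca597_hd.N40
import Pool.Agent.Lib.MP_8ca597_hd.A07

/-!
# Row N42: the geodesic retention tilt

`EE_thin`: percolation with parameter `r p` is percolation with parameter `r` on the open set of a
percolation with parameter `p`; induction on `S` with `EE_insert`. `PP_retain`: for `T ∈ A` the
probability (parameter `r = q / p`) that all elements of `W` are retained is `r ^ |W| ≥ r ^ s`.
`wk_edges`: the edges of a walk. `sph_retain`: if the edges of a geodesic from `a` to a vertex at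
distance `s` are retained, the vertex is still at distance `s` (distances only increase).
-/

set_option autoImplicit false

namespace Pool.Agent.HD

open Finset
open scoped ENNReal

theorem EE_thin {α : Type} [DecidableEq α] {p q r : ℝ} (h : q = r * p) (S : Finset α)
    (f : Finset α → ℝ) : EE q S f = EE p S fun T => EE r T f := by
  induction S using Finset.induction_on generalizing f with
  | empty => rw [EE_empty, EE_empty, EE_empty]
  | insert e S he ih =>
    have h1 : EE p S (fun T => EE r (insert e T) f) =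
        EE p S (fun T => r * EE r T (fun T' => f (insert e T')) + (1 - r) * EE r T f) := by
      refine EE_congr fun T hT => ?_
      exact EE_insert r (fun h => he (hT h)) f
    rw [EE_insert q he, EE_insert p he, h1, EE_add, EE_const_mul, EE_const_mul, ← ih, ← ih, h]
    ring

private theorem N42_pow {α : Type} [DecidableEq α] (r : ℝ) {W T : Finset α} (hW : W ⊆ T) :
    PP r T {T' | W ⊆ T'} = r ^ W.card := by
  have hdep : Dep {T' : Finset α | W ⊆ T'} W := by
    intro T1 T2 h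
    change W ⊆ T1 ↔ W ⊆ T2
    rw [← Finset.inter_eq_right, ← Finset.inter_eq_right, h]
  rw [PP_dep r hW hdep]
  unfold PP EE
  rw [Finset.sum_eq_single W]
  · simp
  · intro T' hT' hne
    have h0 : T' ∉ {T' : Finset α | W ⊆ T'} := fun h =>
      hne (Finset.Subset.antisymm (Finset.mem_powerset.1 hT') h)
    dsimp only
    rw [if_neg h0, mul_zero]
  · intro h
    exact absurd (Finset.mem_powerset.2 (Finset.Subset.refl W)) h

theorem PP_retain {α : Type} [DecidableEq α] {p q : ℝ} (hq : 0 ≤ q) (hqp : q ≤ p) (hp0 : 0 < p)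
    (hp : p ≤ 1) {S : Finset α} {A B : Set (Finset α)} {s : ℕ}
    (h : ∀ T ⊆ S, T ∈ A → ∃ W ⊆ T, W.card ≤ s ∧ ∀ T', W ⊆ T' → T' ⊆ T → T' ∈ B) :
    (q / p) ^ s * PP p S A ≤ PP q S B := by
  classical
  have hr0 : 0 ≤ q / p := div_nonneg hq hp0.le
  have hr1 : q / p ≤ 1 := (div_le_one hp0).2 hqp
  have hqr : q = q / p * p := (div_mul_cancel₀ q hp0.ne').symm
  rw [PP_def p S A, PP_def q S B, EE_thin hqr, ← EE_const_mul]
  refine EE_mono hp0.le hp fun T hT => ?_
  by_cases hA : T ∈ A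
  · obtain ⟨W, hWT, hWs, hW⟩ := h T hT hA
    rw [if_pos hA, mul_one, ← PP_def]
    calc (q / p) ^ s ≤ (q / p) ^ W.card := pow_le_pow_of_le_one hr0 hr1 hWs
      _ = PP (q / p) T {T' | W ⊆ T'} := (N42_pow (q / p) hWT).symm
      _ ≤ PP (q / p) T B := PP_mono hr0 hr1 fun T' hT' hWT' => hW T' hWT' hT'
  · rw [if_neg hA, mul_zero]
    refine EE_nonneg hr0 hr1 fun T' _ => ?_
    split_ifs
    · exact zero_le_one
    · exact le_rfl

variable {d : ℕ} {T : Finset (Ed d)} {V A : Finset (Vx d)} {x y : Vx d} {n s : ℕ} {p q : ℝ}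

/-- The edges of a walk with `n` steps. -/
theorem wk_edges (h : Wk T V n x y) : ∃ W ⊆ T, W.card ≤ n ∧ Wk W V n x y := by
  induction n generalizing y with
  | zero => exact ⟨∅, Finset.empty_subset T, le_rfl, h⟩
  | succ n ih =>
    obtain ⟨w, h1, h2⟩ := h
    obtain ⟨W, hW, hc, hw⟩ := ih h1
    refine ⟨insert s(w, y) W, Finset.insert_subset h2.2.2 hW,
      (Finset.card_insert_le _ _).trans (Nat.succ_le_succ hc), w,
      hw.mono (Finset.subset_insert _ _) (Finset.Subset.refl V), h2.1, h2.2.1,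
      Finset.mem_insert_self _ _⟩

theorem nb_retain (hq : 0 ≤ q) (hqp : q ≤ p) (hp0 : 0 < p) (hp : p ≤ 1) (V : Finset (Vx d))
    (x y : Vx d) (s : ℕ) :
    (q / p) ^ s * PP p (edges V) {T | y ∈ nb T V {x} (s + 1)} ≤ tau q V x y := by
  refine PP_retain hq hqp hp0 hp fun T _ hT => ?_
  obtain ⟨n, hn, hw⟩ := mem_nb_single.1 hT
  obtain ⟨W, hW, hc, hw'⟩ := wk_edges hw
  exact ⟨W, hW, by omega, fun T' hT' _ => (hw'.mono hT' (Finset.Subset.refl V)).conn⟩

theorem nb_retain_set (hq : 0 ≤ q) (hqp : q ≤ p) (hp0 : 0 < p) (hp : p ≤ 1) (V : Finset (Vx d))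
    (x : Vx d) (Y : Finset (Vx d)) (s : ℕ) :
    (q / p) ^ s * PP p (edges V) {T | ∃ y ∈ Y, y ∈ nb T V {x} (s + 1)} ≤
      ∑ y ∈ Y, tau q V x y := by
  have h1 : (q / p) ^ s * PP p (edges V) {T | ∃ y ∈ Y, y ∈ nb T V {x} (s + 1)} ≤
      PP q (edges V) {T | ∃ y ∈ Y, T ∈ {T : Finset (Ed d) | Conn T V x y}} := by
    refine PP_retain hq hqp hp0 hp fun T _ hT => ?_
    obtain ⟨y, hy, hyn⟩ := hT
    obtain ⟨n, hn, hw⟩ := mem_nb_single.1 hyn
    obtain ⟨W, hW, hc, hw'⟩ := wk_edges hw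
    exact ⟨W, hW, by omega, fun T' hT' _ => ⟨y, hy, (hw'.mono hT' (Finset.Subset.refl V)).conn⟩⟩
  exact h1.trans (PP_exists_le hq (hqp.trans hp) Y fun y => {T : Finset (Ed d) | Conn T V x y})

theorem sph_retain (hq : 0 ≤ q) (hqp : q ≤ p) (hp0 : 0 < p) (hp : p ≤ 1) (V A : Finset (Vx d))
    (s : ℕ) : (q / p) ^ s * PP p (edges V) {T | (sph T V A s).Nonempty} ≤
      PP q (edges V) {T | (sph T V A s).Nonempty} := by
  refine PP_retain hq hqp hp0 hp fun T _ hT => ?_
  obtain ⟨v, hv⟩ := hT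
  obtain ⟨⟨a, ha, hw⟩, hmin⟩ := mem_sph.1 hv
  obtain ⟨W, hW, hc, hw'⟩ := wk_edges hw
  refine ⟨W, hW, hc, fun T' hT' hT'' => ⟨v, mem_sph.2 ⟨⟨a, ha, ?_⟩, fun b hb n hn h => ?_⟩⟩⟩
  · exact hw'.mono hT' (Finset.Subset.refl V)
  · exact hmin b hb n hn (h.mono hT'' (Finset.Subset.refl V))

end Pool.Agent.HD
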