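import Pool.Agent.Lib.MP_8ca597_hd.N41
import Pool.Agent.Lib.MP_8ca597_hd.A02

/-!
# Row N43: the intrinsic one arm probability at the critical point (Kozma-Nachmias)

Let `C1 ≥ 1`, `M = (3 * (C1 + 1)) ^ 3`, `α = M ^ (-4/3)` (i.e. `α = (3 * (C1 + 1)) ^ (-4)`), and let
`G u` be the supremum over `V`, `a` of the probability of `{sph T V {a} u ≠ ∅}`.
Step: `G (3 * u) ≤ C1 / √(α u^2) + α u (G u)^2` (`u ≥ 1`): let `3 * u` be reached. If
`|cl T V a| < α u^2` some level `j`, `u ≤ j < 2 * u`, has at most `α u` vertices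
(`sum_card_sph`); let `j` be the first one. Explore `nb T V {a} j` (`expl_nb`; the indicator of (`j` is
the first such level and `sph T V {a} u ≠ ∅`) is determined by the explored edges). By `sph_anc` some
vertex `v` of `sph T V {a} j` satisfies `sph T (V \ nb T V {a} j) {v} (3 * u - j) ≠ ∅`, hence (`sph_nonempty`)
`sph T (V \ nb T V {a} j) {v} u ≠ ∅`, which has probability at most `G u` in the new domain; at most
`α u` vertices. Sum over `j`: `≤ α u G u P(sph T V {a} u ≠ ∅)`.
Hence `G (3 ^ k) ≤ M / 3 ^ k` by induction (`k = 0`: `M ≥ 1`), and for `3 ^ k ≤ s < 3 ^ (k + 1)`,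
`G s ≤ G (3 ^ k) ≤ 3 M / s`.
-/

set_option autoImplicit false

namespace Pool.Agent.HD

open Finset
open scoped ENNReal

variable {d : ℕ} {p : ℝ}

open Classical in
/-- `j` is the first level `≥ u` with at most `x` vertices, and the level `u` is reached. -/
noncomputable def n43F (V : Finset (Vx d)) (a : Vx d) (u : ℕ) (x : ℝ) (j : ℕ)
    (T : Finset (Ed d)) : ℝ :=
  if ((sph T V {a} j).card : ℝ) ≤ x ∧ (∀ i, u ≤ i → i < j → ¬ ((sph T V {a} i).card : ℝ) ≤ x) ∧
    (sph T V {a} u).Nonempty then 1 else 0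

open Classical in
/-- The level `m` is reached from one of the vertices of `L`. -/
noncomputable def n43G (V : Finset (Vx d)) (m : ℕ) (N L : Finset (Vx d))
    (S : Finset (Ed d)) : ℝ :=
  if ∃ v ∈ L, (sph S (V \ N) {v} m).Nonempty then 1 else 0

theorem n43F_nonneg (V : Finset (Vx d)) (a : Vx d) (u : ℕ) (x : ℝ) (j : ℕ)
    (T : Finset (Ed d)) : 0 ≤ n43F V a u x j T := by
  unfold n43F; split_ifs <;> norm_num

theorem n43F_dep (V : Finset (Vx d)) (a : Vx d) {u : ℕ} (x : ℝ) {j : ℕ} (hj : u ≤ j)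
    (T T' : Finset (Ed d)) (h : T ∩ touch V (nb T V {a} j) = T' ∩ touch V (nb T V {a} j)) :
    n43F V a u x j T' = n43F V a u x j T := by
  have hs : ∀ i ≤ j, sph T' V {a} i = sph T V {a} i := by
    intro i hi
    unfold sph
    rw [nb_eq_of_touch h (by omega), nb_eq_of_touch h (by omega)]
  unfold n43F
  rw [hs j le_rfl, hs u hj]
  have : (∀ i, u ≤ i → i < j → ¬ ((sph T' V {a} i).card : ℝ) ≤ x) ↔
      (∀ i, u ≤ i → i < j → ¬ ((sph T V {a} i).card : ℝ) ≤ x) := by
    constructor
    · intro h1 i h2 h3; rw [← hs i h3.le]; exact h1 i h2 h3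
    · intro h1 i h2 h3; rw [hs i h3.le]; exact h1 i h2 h3
  simp only [this]

theorem n43F_sum (V : Finset (Vx d)) (a : Vx d) {u w : ℕ} (x : ℝ) (T : Finset (Ed d)) :
    ∑ j ∈ Finset.Ico u w, n43F V a u x j T ≤
      (if T ∈ {T : Finset (Ed d) | (sph T V {a} u).Nonempty} then (1 : ℝ) else 0) := by
  classical
  by_cases hu : (sph T V {a} u).Nonempty
  · have hif : (if T ∈ {T : Finset (Ed d) | (sph T V {a} u).Nonempty} then (1 : ℝ) else 0) = 1 :=
      if_pos hu
    rw [hif]
    by_cases hall : ∀ j ∈ Finset.Ico u w, n43F V a u x j T = 0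
    · rw [Finset.sum_eq_zero hall]; norm_num
    · push Not at hall
      obtain ⟨j, hj, hne⟩ := hall
      have hcond : ((sph T V {a} j).card : ℝ) ≤ x ∧
          (∀ i, u ≤ i → i < j → ¬ ((sph T V {a} i).card : ℝ) ≤ x) ∧
          (sph T V {a} u).Nonempty := by
        by_contra hc
        exact hne (if_neg hc)
      rw [Finset.sum_eq_single_of_mem j hj]
      · unfold n43F; split_ifs <;> norm_num
      · intro k hk hkj
        unfold n43F
        rw [if_neg]
        rintro ⟨h1, h2, _⟩
        rw [Finset.mem_Ico] at hj hk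
        rcases lt_or_gt_of_ne hkj with h | h
        · exact hcond.2.1 k hk.1 h h1
        · exact h2 j hj.1 h hcond.1
  · have hif : (if T ∈ {T : Finset (Ed d) | (sph T V {a} u).Nonempty} then (1 : ℝ) else 0) = 0 :=
      if_neg hu
    rw [hif]
    apply le_of_eq
    apply Finset.sum_eq_zero
    intro j _
    unfold n43F
    rw [if_neg]
    rintro ⟨_, _, h⟩
    exact hu h

/-- The step. -/
theorem arm_step (hp : 0 ≤ p) (hp1 : p ≤ 1) {C1 G α : ℝ} (hα : 0 < α)
    (h1 : ∀ (V : Finset (Vx d)) (a : Vx d) (x : ℝ), 0 < x →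
      PP p (edges V) {T | x ≤ (cl T V a).card} ≤ C1 / √x) {u : ℕ} (hu : 1 ≤ u)
    (hG : ∀ (V : Finset (Vx d)) (a : Vx d), PP p (edges V) {T | (sph T V {a} u).Nonempty} ≤ G)
    (V : Finset (Vx d)) (a : Vx d) :
    PP p (edges V) {T | (sph T V {a} (3 * u)).Nonempty} ≤ C1 / √(α * u ^ 2) + α * u * G ^ 2 := by
  classical
  have hu0 : (0 : ℝ) < u := by exact_mod_cast hu
  have hx0 : 0 < α * (u : ℝ) ^ 2 := by positivity
  have hG0 : 0 ≤ G := (PP_nonneg hp hp1).trans (hG V a)
  set B : Set (Finset (Ed d)) := {T | (sph T V {a} (3 * u)).Nonempty ∧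
    ((cl T V a).card : ℝ) < α * (u : ℝ) ^ 2} with hB
  have hsub : PP p (edges V) {T | (sph T V {a} (3 * u)).Nonempty} ≤
      PP p (edges V) ({T | α * (u : ℝ) ^ 2 ≤ (cl T V a).card} ∪ B) := by
    apply PP_mono hp hp1
    intro T _ hT
    by_cases hc : α * (u : ℝ) ^ 2 ≤ (cl T V a).card
    · exact Or.inl hc
    · exact Or.inr ⟨hT, not_le.mp hc⟩
  refine hsub.trans ((PP_union_le hp hp1).trans (add_le_add (h1 V a _ hx0) ?_))
  -- the second event
  have key : PP p (edges V) B ≤ EE p (edges V) fun T =>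
      ∑ j ∈ Finset.Ico u (2 * u), n43F V a u (α * u) j T *
        n43G V (3 * u - j) (nb T V {a} j) (sph T V {a} j) (T ∩ edges (V \ nb T V {a} j)) := by
    rw [PP_def]
    apply EE_mono hp hp1
    intro T _
    have hnn : ∀ j ∈ Finset.Ico u (2 * u), 0 ≤ n43F V a u (α * u) j T *
        n43G V (3 * u - j) (nb T V {a} j) (sph T V {a} j) (T ∩ edges (V \ nb T V {a} j)) := by
      intro j _
      apply mul_nonneg (n43F_nonneg _ _ _ _ _ _)
      unfold n43G; split_ifs <;> norm_num
    by_cases hTB : T ∈ B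
    · rw [if_pos hTB]
      obtain ⟨hT1, hT2⟩ := hTB
      -- a small level
      have hex : ∃ j, u ≤ j ∧ j < 2 * u ∧ ((sph T V {a} j).card : ℝ) ≤ α * u := by
        by_contra hc
        push Not at hc
        have hle : (nb T V {a} (2 * u)).card ≤ (cl T V a).card :=
          Finset.card_le_card (nb_subset_cl T V a _)
        have hsum := sum_card_sph T V {a} (2 * u)
        have h3 : ∑ j ∈ Finset.Ico u (2 * u), (sph T V {a} j).card ≤ (nb T V {a} (2 * u)).card := by
          rw [← hsum]
          apply Finset.sum_le_sum_of_subset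
          intro j hj
          rw [Finset.mem_Ico] at hj
          exact Finset.mem_range.mpr hj.2
        have h4 : (u : ℝ) * (α * u) ≤ ∑ j ∈ Finset.Ico u (2 * u), ((sph T V {a} j).card : ℝ) := by
          have : ∑ _j ∈ Finset.Ico u (2 * u), (α * (u : ℝ)) ≤
              ∑ j ∈ Finset.Ico u (2 * u), ((sph T V {a} j).card : ℝ) := by
            apply Finset.sum_le_sum
            intro j hj
            rw [Finset.mem_Ico] at hj
            exact (hc j hj.1 hj.2).le
          rw [Finset.sum_const, Nat.card_Ico, nsmul_eq_mul] at this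
          have e : 2 * u - u = u := by omega
          rw [e] at this
          exact this
        have h5 : (∑ j ∈ Finset.Ico u (2 * u), ((sph T V {a} j).card : ℝ)) ≤
            ((cl T V a).card : ℝ) := by
          have := h3.trans hle
          exact_mod_cast this
        nlinarith
      -- the first one
      obtain ⟨hj1, hj2, hj3⟩ := Nat.find_spec hex
      have hjmin := fun i (hi : i < Nat.find hex) => Nat.find_min hex hi
      set j := Nat.find hex with hjdef
      have hF : n43F V a u (α * u) j T = 1 := by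
        unfold n43F
        rw [if_pos]
        refine ⟨hj3, ?_, sph_nonempty hT1 (by omega)⟩
        intro i hi1 hi2 hi3
        exact hjmin i hi2 ⟨hi1, by omega, hi3⟩
      have hGG : n43G V (3 * u - j) (nb T V {a} j) (sph T V {a} j)
          (T ∩ edges (V \ nb T V {a} j)) = 1 := by
        unfold n43G
        rw [if_pos]
        obtain ⟨v, hv⟩ := hT1
        have e : 3 * u = j + (3 * u - j) := by omega
        rw [e] at hv
        obtain ⟨y, hy1, hy2⟩ := sph_anc hv
        refine ⟨y, hy1, v, ?_⟩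
        rw [sph_inter_edges]
        exact hy2
      calc (1 : ℝ) = n43F V a u (α * u) j T *
            n43G V (3 * u - j) (nb T V {a} j) (sph T V {a} j)
              (T ∩ edges (V \ nb T V {a} j)) := by rw [hF, hGG, mul_one]
        _ ≤ _ := Finset.single_le_sum (f := fun j => n43F V a u (α * u) j T *
            n43G V (3 * u - j) (nb T V {a} j) (sph T V {a} j)
              (T ∩ edges (V \ nb T V {a} j))) hnn (Finset.mem_Ico.mpr ⟨hj1, hj2⟩)
    · rw [if_neg hTB]
      exact Finset.sum_nonneg hnn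
  refine key.trans ?_
  rw [EE_sum]
  have hterm : ∀ j ∈ Finset.Ico u (2 * u), EE p (edges V) (fun T => n43F V a u (α * u) j T *
      n43G V (3 * u - j) (nb T V {a} j) (sph T V {a} j) (T ∩ edges (V \ nb T V {a} j))) ≤
      EE p (edges V) (fun T => n43F V a u (α * u) j T) * (α * u * G) := by
    intro j hj
    rw [Finset.mem_Ico] at hj
    rw [expl_nb p V {a} j (n43F V a u (α * u) j)
      (fun T T' h => n43F_dep V a (α * u) hj.1 T T' h) (n43G V (3 * u - j)), ← EE_mul_const]
    apply EE_mono hp hp1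
    intro T _
    by_cases hc : ((sph T V {a} j).card : ℝ) ≤ α * u
    · apply mul_le_mul_of_nonneg_left _ (n43F_nonneg _ _ _ _ _ _)
      have hE : EE p (edges (V \ nb T V {a} j))
          (n43G V (3 * u - j) (nb T V {a} j) (sph T V {a} j)) =
          PP p (edges (V \ nb T V {a} j)) {S | ∃ v ∈ sph T V {a} j,
            S ∈ {S : Finset (Ed d) | (sph S (V \ nb T V {a} j) {v} (3 * u - j)).Nonempty}} := by
        rw [PP_def]
        apply EE_congr
        intro S _
        unfold n43G
        by_cases hS : ∃ v ∈ sph T V {a} j, (sph S (V \ nb T V {a} j) {v} (3 * u - j)).Nonempty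
        · rw [if_pos hS]; exact (if_pos hS).symm
        · rw [if_neg hS]; exact (if_neg hS).symm
      rw [hE]
      refine (PP_exists_le hp hp1 _ _).trans ?_
      calc ∑ v ∈ sph T V {a} j, PP p (edges (V \ nb T V {a} j))
            {S : Finset (Ed d) | (sph S (V \ nb T V {a} j) {v} (3 * u - j)).Nonempty}
          ≤ ∑ _v ∈ sph T V {a} j, G := by
            apply Finset.sum_le_sum
            intro v _
            refine (PP_mono hp hp1 ?_).trans (hG (V \ nb T V {a} j) v)
            intro S _ hS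
            exact sph_nonempty hS (by omega)
        _ = ((sph T V {a} j).card : ℝ) * G := by rw [Finset.sum_const, nsmul_eq_mul]
        _ ≤ α * u * G := mul_le_mul_of_nonneg_right hc hG0
    · have : n43F V a u (α * u) j T = 0 := by
        unfold n43F
        rw [if_neg]
        rintro ⟨h, _⟩
        exact hc h
      rw [this, zero_mul, zero_mul]
  refine (Finset.sum_le_sum hterm).trans ?_
  rw [← Finset.sum_mul, ← EE_sum]
  have hlast : EE p (edges V) (fun T => ∑ j ∈ Finset.Ico u (2 * u), n43F V a u (α * u) j T) ≤ G := by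
    refine le_trans ?_ (hG V a)
    rw [PP_def]
    apply EE_mono hp hp1
    intro T _
    exact (n43F_sum V a (α * u) T).trans (le_of_eq (by congr))
  calc EE p (edges V) (fun T => ∑ j ∈ Finset.Ico u (2 * u), n43F V a u (α * u) j T) *
        (α * u * G) ≤ G * (α * u * G) := mul_le_mul_of_nonneg_right hlast (by positivity)
    _ = α * u * G ^ 2 := by ring

/-- The one arm bound, uniform in the domain. -/
theorem one_arm (hp : 0 ≤ p) (hp1 : p ≤ 1) {C1 : ℝ} (hC : 1 ≤ C1)
    (h1 : ∀ (V : Finset (Vx d)) (a : Vx d) (x : ℝ), 0 < x →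
      PP p (edges V) {T | x ≤ (cl T V a).card} ≤ C1 / √x) :
    ∀ (V : Finset (Vx d)) (a : Vx d) (s : ℕ), 1 ≤ s →
      PP p (edges V) {T | (sph T V {a} s).Nonempty} ≤ 3 * (3 * (C1 + 1)) ^ 3 / s := by
  set L : ℝ := 3 * (C1 + 1) with hL
  have hL6 : 6 ≤ L := by rw [hL]; linarith
  have hL0 : 0 < L := by linarith
  have hpow : ∀ (k : ℕ) (V : Finset (Vx d)) (a : Vx d),
      PP p (edges V) {T | (sph T V {a} (3 ^ k)).Nonempty} ≤ L ^ 3 / (3 ^ k : ℝ) := by
    intro k
    induction k with
    | zero =>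
      intro V a
      refine (PP_le_one hp hp1).trans ?_
      rw [pow_zero, div_one]
      exact one_le_pow₀ (by linarith)
    | succ k ih =>
      intro V a
      have hu : 1 ≤ 3 ^ k := Nat.one_le_pow _ _ (by norm_num)
      have hstep := arm_step hp hp1 (C1 := C1) (G := L ^ 3 / (3 ^ k : ℝ)) (α := (L ^ 4)⁻¹)
        (by positivity) h1 hu ih V a
      have e3 : 3 ^ (k + 1) = 3 * 3 ^ k := by rw [pow_succ, mul_comm]
      rw [e3]
      refine hstep.trans (le_of_eq ?_)
      have hU : (0 : ℝ) < 3 ^ k := by positivity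
      have hc : ((3 ^ k : ℕ) : ℝ) = 3 ^ k := by push_cast; ring
      rw [hc]
      have hsq : √((L ^ 4)⁻¹ * (3 ^ k : ℝ) ^ 2) = (L ^ 2)⁻¹ * 3 ^ k := by
        have : (L ^ 4)⁻¹ * (3 ^ k : ℝ) ^ 2 = ((L ^ 2)⁻¹ * 3 ^ k) ^ 2 := by
          rw [mul_pow (L ^ 2)⁻¹, inv_pow]
          ring
        rw [this]
        exact Real.sqrt_sq (by positivity)
      rw [hsq]
      have hC1 : C1 = L / 3 - 1 := by rw [hL]; ring
      rw [hC1, pow_succ (3 : ℝ) k]
      field_simp
      ring
  intro V a s hs
  set k := Nat.log 3 s with hk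
  have hk1 : 3 ^ k ≤ s := Nat.pow_log_le_self 3 (by omega)
  have hk2 : s < 3 ^ (k + 1) := Nat.lt_pow_succ_log_self (by norm_num) s
  refine (PP_mono hp hp1 (B := {T | (sph T V {a} (3 ^ k)).Nonempty}) ?_).trans
    ((hpow k V a).trans ?_)
  · intro T _ hT
    exact sph_nonempty hT hk1
  · have hs0 : (0 : ℝ) < s := by exact_mod_cast hs
    have hk2' : (s : ℝ) ≤ 3 * 3 ^ k := by
      have : (s : ℝ) < 3 ^ (k + 1) := by exact_mod_cast hk2
      rw [pow_succ] at this
      linarith
    rw [div_le_div_iff₀ (by positivity) hs0]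
    have hL3 : 0 < L ^ 3 := by positivity
    calc L ^ 3 * s ≤ L ^ 3 * (3 * 3 ^ k) := mul_le_mul_of_nonneg_left hk2' hL3.le
      _ = 3 * L ^ 3 * 3 ^ k := by ring

end Pool.Agent.HD
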