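import Pool.Agent.Lib.MP_8ca597_hd.N40
import Pool.Agent.Lib.MP_8ca597_hd.A02
import Pool.Agent.Lib.MP_8ca597_hd.A04

/-!
# Row N44: tree graph inequalities for intrinsic balls

`nb_tree`: as `conn_tree` (A11): `P` a self-avoiding open walk with `< s` steps from `a` to `x`, `Q` one
from `a` to `y`, `w` the last vertex of `Q` on `P`; the part of `P` before `w`, the part of `P` after `w`
and the part of `Q` after `w` use disjoint sets of edges and have `< s` steps.
`nb_tree3`: let `R` be a self-avoiding open walk with `< s` steps from `a` to `z`, and `v` the last vertex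
of `R` on the tree `P ∪ (Q after w)`. If `v` is on `P` before `w`: the branching vertices are `v`, `w`
(leaf `z` at `v`); if `v` is on `P` after `w`: `w`, `v` (leaf `y` at `w`); if `v` is on `Q` after `w`:
`w`, `v` (leaf `x` at `w`). Union bound and `bkL`, `bk3`.
-/

set_option autoImplicit false

namespace Pool.Agent.HD

open Finset
open scoped ENNReal

variable {d : ℕ} {T : Finset (Ed d)} {V : Finset (Vx d)} {a x y z : Vx d} {s : ℕ} {p : ℝ}

/-- The event that `y` is at intrinsic distance `< s` from `x`. -/
def NE (V : Finset (Vx d)) (s : ℕ) (x y : Vx d) : Set (Finset (Ed d)) :=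
  {T | y ∈ nb T V {x} s}

/-- The graph of the open edges in `V`. -/
private def N44_G (T : Finset (Ed d)) (V : Finset (Vx d)) : SimpleGraph (Vx d) where
  Adj x y := x ∈ V ∧ y ∈ V ∧ Adj x y ∧ s(x, y) ∈ T
  symm := ⟨fun x y h => ⟨h.2.1, h.1, h.2.2.1.symm, by rw [Sym2.eq_swap]; exact h.2.2.2⟩⟩
  loopless := ⟨fun _ h => h.2.2.1.ne rfl⟩

private theorem N44_walk {n : ℕ} (h : Wk T V n x y) : ∃ q : (N44_G T V).Walk x y, q.length = n := by
  induction n generalizing y with
  | zero =>
    obtain ⟨_, rfl⟩ := h
    exact ⟨SimpleGraph.Walk.nil, rfl⟩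
  | succ n ih =>
    obtain ⟨w, hw, hs⟩ := h
    obtain ⟨q, hq⟩ := ih hw
    have hadj : (N44_G T V).Adj w y := ⟨hw.right, by simpa using hs.1, hs.2.1, hs.2.2⟩
    exact ⟨q.concat hadj, by rw [SimpleGraph.Walk.length_concat, hq]⟩

private theorem N44_path (h : y ∈ nb T V {x} s) :
    x ∈ V ∧ ∃ q : (N44_G T V).Walk x y, q.IsPath ∧ q.length < s := by
  classical
  obtain ⟨n, hn, hw⟩ := mem_nb_single.1 h
  obtain ⟨q, hq⟩ := N44_walk hw
  refine ⟨hw.left, q.bypass, q.bypass_isPath, ?_⟩
  exact (q.length_bypass_le_length.trans hq.le).trans_lt hn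

private theorem N44_wk {K : Finset (Ed d)} (q : (N44_G T V).Walk x y) (hx : x ∈ V)
    (h : ∀ e ∈ q.edges, e ∈ K) : Wk K V q.length x y := by
  induction q with
  | nil => exact ⟨hx, rfl⟩
  | @cons u v w hadj q ih =>
    rw [SimpleGraph.Walk.edges_cons] at h
    have h1 : Wk K V 1 u v :=
      ⟨u, ⟨hx, rfl⟩, by simpa using hadj.2.1, hadj.2.2.1, h _ (by simp)⟩
    have h2 := ih hadj.2.1 fun e he => h e (by simp [he])
    have h3 := h1.trans h2
    rw [SimpleGraph.Walk.length_cons, add_comm]
    exact h3

private theorem N44_ne {K : Finset (Ed d)} (q : (N44_G T V).Walk x y) (hx : x ∈ V)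
    (h : ∀ e ∈ q.edges, e ∈ K) (hs : q.length < s) : K ∈ NE V s x y :=
  mem_nb_single.2 ⟨q.length, hs, N44_wk q hx h⟩

private theorem N44_ne' {K : Finset (Ed d)} (q : (N44_G T V).Walk x y) (hx : x ∈ V)
    (h : ∀ e ∈ q.edges, e ∈ K) (hs : q.length < s) : K ∈ NE V s y x :=
  nb_symm.1 (N44_ne q hx h hs)

private theorem N44_mem (q : (N44_G T V).Walk x y) {e : Ed d} (he : e ∈ q.edges) : e ∈ T := by
  have := q.edges_subset_edgeSet he
  induction e using Sym2.ind with
  | _ u v => exact this.2.2.2

private theorem N44_end (q : (N44_G T V).Walk x y) (hx : x ∈ V) : y ∈ V :=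
  (N44_wk q hx fun e he => N44_mem q he).right

/-- Walks which meet a set `F` of vertices only at the end do not use edges with both ends
in `F`. -/
private theorem N44_off {F : Finset (Vx d)} {w : Vx d} (q : (N44_G T V).Walk x w)
    (hw : ∀ u ∈ F, u ∈ q.support → u = w) {E : Set (Ed d)}
    (hE : ∀ u v, s(u, v) ∈ E → u ∈ F ∧ v ∈ F) : ∀ e ∈ q.edges, e ∉ E := by
  intro e he heE
  have hadj := q.edges_subset_edgeSet he
  induction e using Sym2.ind with
  | _ u v =>
    obtain ⟨h1, h2⟩ := hE u v heE
    have hu := hw u h1 (q.fst_mem_support_of_mem_edges he)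
    have hv := hw v h2 (q.snd_mem_support_of_mem_edges he)
    exact hadj.2.2.1.ne (hu.trans hv.symm)

private theorem N44_box (L : List (Finset (Ed d) × Set (Finset (Ed d))))
    (h1 : ∀ q ∈ L, q.1 ∈ q.2) (h2 : L.Pairwise fun q r => Disjoint q.1 r.1)
    {T : Finset (Ed d)} (h3 : ∀ q ∈ L, q.1 ⊆ T) : T ∈ boxL (L.map Prod.snd) := by
  classical
  induction L generalizing T with
  | nil => exact Set.mem_univ _
  | cons q L ih =>
    rw [List.pairwise_cons] at h2
    refine ⟨q.1, T \ q.1, h3 q (by simp), Finset.sdiff_subset, Finset.disjoint_sdiff, h1 q (by simp),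
      ih (fun r hr => h1 r (by simp [hr])) h2.2 fun r hr => ?_⟩
    exact Finset.subset_sdiff.2 ⟨h3 r (by simp [hr]), (h2.1 r hr).symm⟩

/-- The first branching. -/
private theorem N44_first (P : (N44_G T V).Walk a x) (R : (N44_G T V).Walk y a) (hR : R.length < s) :
    ∃ w, w ∈ P.support ∧ ∃ R' : (N44_G T V).Walk y w, R'.length < s ∧ (R.IsPath → R'.IsPath) ∧
      (∀ u ∈ P.support, u ∈ R'.support → u = w) := by
  classical
  obtain ⟨w, hwP, hwR, hw⟩ := R.exists_mem_support_forall_mem_support_imp_eq P.support.toFinset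
    ⟨a, by simp⟩
  refine ⟨w, by simpa using hwP, R.takeUntil w hwR, (R.length_takeUntil_le_length hwR).trans_lt hR,
    fun h => h.takeUntil hwR, fun u hu hu' => hw u (by simpa using hu) hu'⟩

theorem nb_tree (h : x ∈ nb T V {a} s) (h' : y ∈ nb T V {a} s) :
    ∃ w ∈ V, T ∈ box (NE V s a w) (box (NE V s w x) (NE V s w y)) := by
  classical
  obtain ⟨haV, P, hP, hPl⟩ := N44_path h
  obtain ⟨hyV, R, hR, hRl⟩ := N44_path (nb_symm.1 h')
  obtain ⟨w, hwP, R', hR'l, -, hw⟩ := N44_first P R hRl
  have htakeP : ∀ e ∈ (P.takeUntil w hwP).edges, e ∈ P.edges := fun e he =>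
    P.edges_takeUntil_subset_edges hwP he
  have hdropP : ∀ e ∈ (P.dropUntil w hwP).edges, e ∈ P.edges := fun e he =>
    P.edges_dropUntil_subset_edges hwP he
  have hwV : w ∈ V := N44_end (P.takeUntil w hwP) haV
  have hoff : ∀ e ∈ R'.edges, e ∉ {e | e ∈ P.edges} := by
    refine N44_off (F := P.support.toFinset) R' (fun u hu hu' => hw u (by simpa using hu) hu') ?_
    intro u v huv
    exact ⟨by simpa using P.fst_mem_support_of_mem_edges huv,
      by simpa using P.snd_mem_support_of_mem_edges huv⟩
  refine ⟨w, hwV, (P.takeUntil w hwP).edges.toFinset,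
    (P.dropUntil w hwP).edges.toFinset ∪ R'.edges.toFinset, ?_, ?_, ?_, ?_, ?_⟩
  · intro e he
    exact N44_mem _ (by simpa using he)
  · intro e he
    rw [Finset.mem_union] at he
    rcases he with he | he
    · exact N44_mem _ (by simpa using he)
    · exact N44_mem _ (by simpa using he)
  · rw [Finset.disjoint_union_right]
    constructor
    · rw [Finset.disjoint_left]
      intro e he he'
      exact hP.isTrail.disjoint_edges_takeUntil_dropUntil hwP (by simpa using he)
        (by simpa using he')
    · rw [Finset.disjoint_left]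
      intro e he he'
      exact hoff e (by simpa using he') (htakeP e (by simpa using he))
  · exact N44_ne _ haV (fun e he => by simpa using he)
      ((P.length_takeUntil_le_length hwP).trans_lt hPl)
  · refine ⟨(P.dropUntil w hwP).edges.toFinset, R'.edges.toFinset,
      Finset.subset_union_left, Finset.subset_union_right, ?_, ?_, ?_⟩
    · rw [Finset.disjoint_left]
      intro e he he'
      exact hoff e (by simpa using he') (hdropP e (by simpa using he))
    · exact N44_ne _ hwV (fun e he => by simpa using he)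
        ((P.length_dropUntil_le_length hwP).trans_lt hPl)
    · exact N44_ne' _ hyV (fun e he => by simpa using he) hR'l

theorem PP_nb2 (hp : 0 ≤ p) (hp1 : p ≤ 1 / 2) (V : Finset (Vx d)) (s : ℕ) (a x y : Vx d) :
    PP p (edges V) (NE V s a x ∩ NE V s a y) ≤
      ∑ w ∈ V, PP p (edges V) (NE V s a w) * PP p (edges V) (NE V s w x) *
        PP p (edges V) (NE V s w y) := by
  have hp1' : p ≤ 1 := hp1.trans (by norm_num)
  refine (PP_mono hp hp1' (B := {T | ∃ w ∈ V, T ∈ box (NE V s a w) (box (NE V s w x)
    (NE V s w y))}) fun T _ hT => nb_tree hT.1 hT.2).trans ?_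
  refine (PP_exists_le hp hp1' V _).trans ?_
  exact Finset.sum_le_sum fun w _ => bk3 hp hp1 (edges V) (up_nb _ _ _ _) (up_nb _ _ _ _)
    (up_nb _ _ _ _)

private theorem N44_disj {u v u' v' : Vx d} {q : (N44_G T V).Walk u v}
    {r : (N44_G T V).Walk u' v'} [DecidableEq (Ed d)] (h : ∀ e ∈ q.edges, e ∉ r.edges) :
    Disjoint q.edges.toFinset r.edges.toFinset := by
  rw [Finset.disjoint_left]
  intro e he he'
  exact h e (by simpa using he) (by simpa using he')

theorem nb_tree3 (hx : x ∈ nb T V {a} s) (hy : y ∈ nb T V {a} s) (hz : z ∈ nb T V {a} s) :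
    ∃ u ∈ V, ∃ v ∈ V,
      T ∈ boxL [NE V s a u, NE V s u v, NE V s u x, NE V s v y, NE V s v z] ∨
      T ∈ boxL [NE V s a u, NE V s u v, NE V s u y, NE V s v x, NE V s v z] ∨
      T ∈ boxL [NE V s a u, NE V s u v, NE V s u z, NE V s v x, NE V s v y] := by
  classical
  obtain ⟨haV, P, hP, hPl⟩ := N44_path hx
  obtain ⟨hyV, R, hR, hRl⟩ := N44_path (nb_symm.1 hy)
  obtain ⟨hzV, S, hS, hSl⟩ := N44_path (nb_symm.1 hz)
  obtain ⟨w, hwP, R', hR'l, hR', hw⟩ := N44_first P R hRl
  have hR' := hR' hR
  obtain ⟨v, hvF, hvS, hv⟩ := S.exists_mem_support_forall_mem_support_imp_eq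
    (P.support.toFinset ∪ R'.support.toFinset) ⟨a, by simp⟩
  set S' := S.takeUntil v hvS with hS'def
  have hS'l : S'.length < s := (S.length_takeUntil_le_length hvS).trans_lt hSl
  set P1 := P.takeUntil w hwP with hP1def
  set P2 := P.dropUntil w hwP with hP2def
  have hP1 : P1.IsPath := hP.takeUntil hwP
  have hP2 : P2.IsPath := hP.dropUntil hwP
  have hP1l : P1.length < s := (P.length_takeUntil_le_length hwP).trans_lt hPl
  have hP2l : P2.length < s := (P.length_dropUntil_le_length hwP).trans_lt hPl
  have hwV : w ∈ V := N44_end P1 haV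
  have s1 : ∀ e ∈ P1.edges, e ∈ P.edges := fun e he => P.edges_takeUntil_subset_edges hwP he
  have s2 : ∀ e ∈ P2.edges, e ∈ P.edges := fun e he => P.edges_dropUntil_subset_edges hwP he
  have d12 : ∀ e ∈ P1.edges, e ∉ P2.edges := fun e he he' =>
    hP.isTrail.disjoint_edges_takeUntil_dropUntil hwP he he'
  have dR : ∀ e ∈ R'.edges, e ∉ P.edges := by
    refine N44_off (F := P.support.toFinset) (E := {e | e ∈ P.edges}) R'
      (fun u hu hu' => hw u (by simpa using hu) hu') ?_
    intro u v huv
    exact ⟨by simpa using P.fst_mem_support_of_mem_edges huv,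
      by simpa using P.snd_mem_support_of_mem_edges huv⟩
  have dS : ∀ e ∈ S'.edges, e ∉ P.edges ∧ e ∉ R'.edges := by
    intro e he
    have := N44_off (F := P.support.toFinset ∪ R'.support.toFinset)
      (E := {e | e ∈ P.edges ∨ e ∈ R'.edges}) S' hv (by
      rintro u v (huv | huv)
      · exact ⟨by simp [P.fst_mem_support_of_mem_edges huv],
          by simp [P.snd_mem_support_of_mem_edges huv]⟩
      · exact ⟨by simp [R'.fst_mem_support_of_mem_edges huv],
          by simp [R'.snd_mem_support_of_mem_edges huv]⟩) e he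
    exact ⟨fun h => this (Or.inl h), fun h => this (Or.inr h)⟩
  have hT : ∀ {u v : Vx d} (q : (N44_G T V).Walk u v), q.edges.toFinset ⊆ T := by
    intro u v q e he
    exact N44_mem q (by simpa using he)
  by_cases hvR : v ∈ R'.support
  · -- `v` on `Q` after `w`
    set Ra := R'.takeUntil v hvR
    set Rb := R'.dropUntil v hvR
    have hRal : Ra.length < s := (R'.length_takeUntil_le_length hvR).trans_lt hR'l
    have hRbl : Rb.length < s := (R'.length_dropUntil_le_length hvR).trans_lt hR'l
    have sa : ∀ e ∈ Ra.edges, e ∈ R'.edges := fun e he => R'.edges_takeUntil_subset_edges hvR he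
    have sb : ∀ e ∈ Rb.edges, e ∈ R'.edges := fun e he => R'.edges_dropUntil_subset_edges hvR he
    have dab : ∀ e ∈ Ra.edges, e ∉ Rb.edges := fun e he he' =>
      hR'.isTrail.disjoint_edges_takeUntil_dropUntil hvR he he'
    have hvV : v ∈ V := N44_end Ra hyV
    refine ⟨w, hwV, v, hvV, Or.inl ?_⟩
    refine N44_box [(P1.edges.toFinset, NE V s a w), (Rb.edges.toFinset, NE V s w v),
      (P2.edges.toFinset, NE V s w x), (Ra.edges.toFinset, NE V s v y),
      (S'.edges.toFinset, NE V s v z)] ?_ ?_ ?_
    · simp only [List.mem_cons, List.not_mem_nil, or_false, forall_eq_or_imp, forall_eq]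
      exact ⟨N44_ne P1 haV (fun e he => by simpa using he) hP1l,
        N44_ne' Rb hvV (fun e he => by simpa using he) hRbl,
        N44_ne P2 hwV (fun e he => by simpa using he) hP2l,
        N44_ne' Ra hyV (fun e he => by simpa using he) hRal,
        N44_ne' S' hzV (fun e he => by simpa using he) hS'l⟩
    · simp only [List.pairwise_cons, List.mem_cons, List.not_mem_nil, or_false, forall_eq_or_imp,
        forall_eq, List.Pairwise.nil, and_true, implies_true, IsEmpty.forall_iff]
      refine ⟨⟨?_, ?_, ?_, ?_⟩, ⟨?_, ?_, ?_⟩, ⟨?_, ?_⟩, ?_⟩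
      · exact N44_disj fun e he he' => dR e (sb e he') (s1 e he)
      · exact N44_disj d12
      · exact N44_disj fun e he he' => dR e (sa e he') (s1 e he)
      · exact N44_disj fun e he he' => (dS e he').1 (s1 e he)
      · exact N44_disj fun e he he' => dR e (sb e he) (s2 e he')
      · exact N44_disj fun e he he' => dab e he' he
      · exact N44_disj fun e he he' => (dS e he').2 (sb e he)
      · exact N44_disj fun e he he' => dR e (sa e he') (s2 e he)
      · exact N44_disj fun e he he' => (dS e he').1 (s2 e he)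
      · exact N44_disj fun e he he' => (dS e he').2 (sa e he)
    · simp only [List.mem_cons, List.not_mem_nil, or_false, forall_eq_or_imp, forall_eq]
      exact ⟨hT _, hT _, hT _, hT _, hT _⟩
  · have hvP : v ∈ P.support := by
      rw [Finset.mem_union] at hvF
      rcases hvF with h | h
      · simpa using h
      · exact absurd (by simpa using h) hvR
    have hvP12 : v ∈ P1.support ∨ v ∈ P2.support := by
      have h1 := P.take_spec hwP
      rw [← h1, SimpleGraph.Walk.mem_support_append_iff] at hvP
      exact hvP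
    rcases hvP12 with hv1 | hv2
    · -- `v` on `P` before `w`
      set Pa := P1.takeUntil v hv1
      set Pb := P1.dropUntil v hv1
      have hPal : Pa.length < s := (P1.length_takeUntil_le_length hv1).trans_lt hP1l
      have hPbl : Pb.length < s := (P1.length_dropUntil_le_length hv1).trans_lt hP1l
      have sa : ∀ e ∈ Pa.edges, e ∈ P1.edges := fun e he =>
        P1.edges_takeUntil_subset_edges hv1 he
      have sb : ∀ e ∈ Pb.edges, e ∈ P1.edges := fun e he =>
        P1.edges_dropUntil_subset_edges hv1 he
      have dab : ∀ e ∈ Pa.edges, e ∉ Pb.edges := fun e he he' =>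
        hP1.isTrail.disjoint_edges_takeUntil_dropUntil hv1 he he'
      have hvV : v ∈ V := N44_end Pa haV
      refine ⟨v, hvV, w, hwV, Or.inr (Or.inr ?_)⟩
      refine N44_box [(Pa.edges.toFinset, NE V s a v), (Pb.edges.toFinset, NE V s v w),
        (S'.edges.toFinset, NE V s v z), (P2.edges.toFinset, NE V s w x),
        (R'.edges.toFinset, NE V s w y)] ?_ ?_ ?_
      · simp only [List.mem_cons, List.not_mem_nil, or_false, forall_eq_or_imp, forall_eq]
        exact ⟨N44_ne Pa haV (fun e he => by simpa using he) hPal,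
          N44_ne Pb hvV (fun e he => by simpa using he) hPbl,
          N44_ne' S' hzV (fun e he => by simpa using he) hS'l,
          N44_ne P2 hwV (fun e he => by simpa using he) hP2l,
          N44_ne' R' hyV (fun e he => by simpa using he) hR'l⟩
      · simp only [List.pairwise_cons, List.mem_cons, List.not_mem_nil, or_false, forall_eq_or_imp,
          forall_eq, List.Pairwise.nil, and_true, implies_true, IsEmpty.forall_iff]
        refine ⟨⟨?_, ?_, ?_, ?_⟩, ⟨?_, ?_, ?_⟩, ⟨?_, ?_⟩, ?_⟩
        · exact N44_disj dab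
        · exact N44_disj fun e he he' => (dS e he').1 (s1 e (sa e he))
        · exact N44_disj fun e he he' => d12 e (sa e he) he'
        · exact N44_disj fun e he he' => dR e he' (s1 e (sa e he))
        · exact N44_disj fun e he he' => (dS e he').1 (s1 e (sb e he))
        · exact N44_disj fun e he he' => d12 e (sb e he) he'
        · exact N44_disj fun e he he' => dR e he' (s1 e (sb e he))
        · exact N44_disj fun e he he' => (dS e he).1 (s2 e he')
        · exact N44_disj fun e he he' => (dS e he).2 he'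
        · exact N44_disj fun e he he' => dR e he' (s2 e he)
      · simp only [List.mem_cons, List.not_mem_nil, or_false, forall_eq_or_imp, forall_eq]
        exact ⟨hT _, hT _, hT _, hT _, hT _⟩
    · -- `v` on `P` after `w`
      set Pa := P2.takeUntil v hv2
      set Pb := P2.dropUntil v hv2
      have hPal : Pa.length < s := (P2.length_takeUntil_le_length hv2).trans_lt hP2l
      have hPbl : Pb.length < s := (P2.length_dropUntil_le_length hv2).trans_lt hP2l
      have sa : ∀ e ∈ Pa.edges, e ∈ P2.edges := fun e he =>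
        P2.edges_takeUntil_subset_edges hv2 he
      have sb : ∀ e ∈ Pb.edges, e ∈ P2.edges := fun e he =>
        P2.edges_dropUntil_subset_edges hv2 he
      have dab : ∀ e ∈ Pa.edges, e ∉ Pb.edges := fun e he he' =>
        hP2.isTrail.disjoint_edges_takeUntil_dropUntil hv2 he he'
      have hvV : v ∈ V := N44_end Pa hwV
      refine ⟨w, hwV, v, hvV, Or.inr (Or.inl ?_)⟩
      refine N44_box [(P1.edges.toFinset, NE V s a w), (Pa.edges.toFinset, NE V s w v),
        (R'.edges.toFinset, NE V s w y), (Pb.edges.toFinset, NE V s v x),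
        (S'.edges.toFinset, NE V s v z)] ?_ ?_ ?_
      · simp only [List.mem_cons, List.not_mem_nil, or_false, forall_eq_or_imp, forall_eq]
        exact ⟨N44_ne P1 haV (fun e he => by simpa using he) hP1l,
          N44_ne Pa hwV (fun e he => by simpa using he) hPal,
          N44_ne' R' hyV (fun e he => by simpa using he) hR'l,
          N44_ne Pb hvV (fun e he => by simpa using he) hPbl,
          N44_ne' S' hzV (fun e he => by simpa using he) hS'l⟩
      · simp only [List.pairwise_cons, List.mem_cons, List.not_mem_nil, or_false, forall_eq_or_imp,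
          forall_eq, List.Pairwise.nil, and_true, implies_true, IsEmpty.forall_iff]
        refine ⟨⟨?_, ?_, ?_, ?_⟩, ⟨?_, ?_, ?_⟩, ⟨?_, ?_⟩, ?_⟩
        · exact N44_disj fun e he he' => d12 e he (sa e he')
        · exact N44_disj fun e he he' => dR e he' (s1 e he)
        · exact N44_disj fun e he he' => d12 e he (sb e he')
        · exact N44_disj fun e he he' => (dS e he').1 (s1 e he)
        · exact N44_disj fun e he he' => dR e he' (s2 e (sa e he))
        · exact N44_disj dab
        · exact N44_disj fun e he he' => (dS e he').1 (s2 e (sa e he))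
        · exact N44_disj fun e he he' => dR e he (s2 e (sb e he'))
        · exact N44_disj fun e he he' => (dS e he').2 he
        · exact N44_disj fun e he he' => (dS e he').1 (s2 e (sb e he))
      · simp only [List.mem_cons, List.not_mem_nil, or_false, forall_eq_or_imp, forall_eq]
        exact ⟨hT _, hT _, hT _, hT _, hT _⟩

theorem PP_nb3 (hp : 0 ≤ p) (hp1 : p ≤ 1 / 2) (V : Finset (Vx d)) (s : ℕ) (a x y z : Vx d) :
    PP p (edges V) (NE V s a x ∩ (NE V s a y ∩ NE V s a z)) ≤
      ∑ u ∈ V, ∑ v ∈ V, PP p (edges V) (NE V s a u) * PP p (edges V) (NE V s u v) *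
        (PP p (edges V) (NE V s u x) * PP p (edges V) (NE V s v y) * PP p (edges V) (NE V s v z) +
         PP p (edges V) (NE V s u y) * PP p (edges V) (NE V s v x) * PP p (edges V) (NE V s v z) +
         PP p (edges V) (NE V s u z) * PP p (edges V) (NE V s v x) *
          PP p (edges V) (NE V s v y)) := by
  have hp1' : p ≤ 1 := hp1.trans (by norm_num)
  refine (PP_mono hp hp1' (B := {T | ∃ u ∈ V, T ∈ {T | ∃ v ∈ V, T ∈
      boxL [NE V s a u, NE V s u v, NE V s u x, NE V s v y, NE V s v z] ∪
      (boxL [NE V s a u, NE V s u v, NE V s u y, NE V s v x, NE V s v z] ∪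
      boxL [NE V s a u, NE V s u v, NE V s u z, NE V s v x, NE V s v y])}})
      fun T _ hT => nb_tree3 hT.1 hT.2.1 hT.2.2).trans ?_
  refine (PP_exists_le hp hp1' V _).trans (Finset.sum_le_sum fun u _ => ?_)
  refine (PP_exists_le hp hp1' V _).trans (Finset.sum_le_sum fun v _ => ?_)
  have key : ∀ A B C D E : Set (Finset (Ed d)), Up A → Up B → Up C → Up D → Up E →
      PP p (edges V) (boxL [A, B, C, D, E]) ≤ PP p (edges V) A * PP p (edges V) B *
        (PP p (edges V) C * PP p (edges V) D * PP p (edges V) E) := by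
    intro A B C D E hA hB hC hD hE
    refine (bkL hp hp1 (edges V) [A, B, C, D, E] (by
      simp only [List.mem_cons, List.not_mem_nil, or_false, forall_eq_or_imp, forall_eq]
      exact ⟨hA, hB, hC, hD, hE⟩)).trans (le_of_eq ?_)
    simp only [List.map_cons, List.map_nil, List.prod_cons, List.prod_nil]
    ring
  have hup : ∀ u v : Vx d, Up (NE V s u v) := fun u v => up_nb _ _ _ _
  refine (PP_union_le hp hp1').trans ?_
  refine (add_le_add (key _ _ _ _ _ (hup _ _) (hup _ _) (hup _ _) (hup _ _) (hup _ _))
    ((PP_union_le hp hp1').trans (add_le_add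
      (key _ _ _ _ _ (hup _ _) (hup _ _) (hup _ _) (hup _ _) (hup _ _))
      (key _ _ _ _ _ (hup _ _) (hup _ _) (hup _ _) (hup _ _) (hup _ _))))).trans (le_of_eq ?_)
  ring

end Pool.Agent.HD
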