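import Pool.Agent.Lib.MP_8ca597_hd.N44
import Pool.Agent.Lib.MP_8ca597_hd.SDefs

/-!
# Row N45: moments of intrinsic balls

`σ` is a bound of the two-point function of the ball, `X` a bound of its sums. All estimates: write
the expectation as a sum of probabilities over `x, y (, z) ∈ V` (`EE_sum`), use `PP_nb2`, `PP_nb3`,
bound every probability by `σ`, and sum in the right order.
-/

set_option autoImplicit false

namespace Pool.Agent.HD

open Finset
open scoped ENNReal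

variable {d : ℕ}

/-- `σ` bounds the two-point function of the intrinsic ball of radius `s`. -/
structure SigK (d : ℕ) (p : ℝ) (s : ℕ) (σ : Vx d → ℝ) (X : ℝ) : Prop where
  nonneg : ∀ x, 0 ≤ σ x
  bound : ∀ (V : Finset (Vx d)) (a y : Vx d), PP p (edges V) (NE V s a y) ≤ σ (y - a)
  sum : ∀ F : Finset (Vx d), ∑ x ∈ F, σ x ≤ X

/-- The bounds of the diagrams. -/
structure DiaK (d : ℕ) (σ bb : Vx d → ℝ) (B2 B3 : ℝ) (H : ℕ → ℝ) : Prop where
  b2 : ∀ (V : Finset (Vx d)) (v : Vx d),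
    ∑ x ∈ V, ∑ z ∈ V.erase x, σ (x - v) * σ (z - v) * bb (x - z) ≤ B2
  b3 : ∀ (V : Finset (Vx d)) (u : Vx d),
    ∑ v ∈ V, ∑ x ∈ V, ∑ z ∈ V.erase x, σ (v - u) * σ (x - u) * σ (z - v) * bb (x - z) ≤ B3
  b4 : ∀ (V F : Finset (Vx d)) (a : Vx d), Disjoint F V →
    ∑ u ∈ V, ∑ z ∈ V, σ (u - a) * σ (z - u) * ∑ z' ∈ F, bb (z - z') ≤ H F.card

variable {p : ℝ} {s : ℕ} {σ bb : Vx d → ℝ} {X B2 B3 : ℝ} {H : ℕ → ℝ}

/-! Auxiliary sums. -/

private theorem N45_shift {σ : Vx d → ℝ} {X : ℝ} (hs : ∀ F : Finset (Vx d), ∑ x ∈ F, σ x ≤ X)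
    (V : Finset (Vx d)) (a : Vx d) : ∑ y ∈ V, σ (y - a) ≤ X := by
  classical
  have h : ∑ x ∈ V.image (fun y => y - a), σ x = ∑ y ∈ V, σ (y - a) :=
    Finset.sum_image (fun x _ y _ h => sub_left_injective h)
  rw [← h]
  exact hs _

private theorem N45_rot3 {ι : Type} (V : Finset ι) (G : ι → ι → ι → ℝ) :
    ∑ x ∈ V, ∑ z ∈ V, ∑ w ∈ V, G x z w = ∑ w ∈ V, ∑ x ∈ V, ∑ z ∈ V, G x z w := by
  rw [Finset.sum_comm]
  rw [Finset.sum_congr rfl (fun z _ => Finset.sum_comm)]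
  rw [Finset.sum_comm]
  refine Finset.sum_congr rfl fun w _ => Finset.sum_comm

private theorem N45_rot4 {ι : Type} (V : Finset ι) (G : ι → ι → ι → ι → ℝ) :
    ∑ x ∈ V, ∑ y ∈ V, ∑ z ∈ V, ∑ u ∈ V, G x y z u =
      ∑ u ∈ V, ∑ x ∈ V, ∑ y ∈ V, ∑ z ∈ V, G x y z u := by
  rw [Finset.sum_congr rfl (fun x _ => N45_rot3 V (G x))]
  rw [Finset.sum_comm]

/-- The two-leg sum. -/
private theorem N45_abs2 {ι : Type} (V : Finset ι) (α : ι → ℝ) (β : ι → ι → ℝ) (g : ι → ℝ)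
    {X H : ℝ} (hα : ∀ u, 0 ≤ α u) (hβ : ∀ u v, 0 ≤ β u v) (hg : ∀ z, 0 ≤ g z)
    (hX : 0 ≤ X) (hX2 : ∀ u, ∑ x ∈ V, β u x ≤ X)
    (hH : ∑ w ∈ V, ∑ z ∈ V, α w * β w z * g z ≤ H) :
    ∑ x ∈ V, ∑ z ∈ V, g z * ∑ w ∈ V, α w * β w x * β w z ≤ X * H := by
  have e : ∑ x ∈ V, ∑ z ∈ V, g z * ∑ w ∈ V, α w * β w x * β w z =
      ∑ w ∈ V, (∑ x ∈ V, β w x) * ∑ z ∈ V, α w * β w z * g z := by
    have e1 : ∑ x ∈ V, ∑ z ∈ V, g z * ∑ w ∈ V, α w * β w x * β w z =
        ∑ x ∈ V, ∑ z ∈ V, ∑ w ∈ V, g z * (α w * β w x * β w z) := by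
      simp only [Finset.mul_sum]
    rw [e1, N45_rot3]
    refine Finset.sum_congr rfl fun w _ => ?_
    rw [Finset.sum_mul]
    refine Finset.sum_congr rfl fun x _ => ?_
    rw [Finset.mul_sum]
    refine Finset.sum_congr rfl fun z _ => ?_
    ring
  rw [e]
  calc ∑ w ∈ V, (∑ x ∈ V, β w x) * ∑ z ∈ V, α w * β w z * g z
      ≤ ∑ w ∈ V, X * ∑ z ∈ V, α w * β w z * g z := by
        refine Finset.sum_le_sum fun w _ => mul_le_mul_of_nonneg_right (hX2 w) ?_
        exact Finset.sum_nonneg fun z _ => mul_nonneg (mul_nonneg (hα w) (hβ w z)) (hg z)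
    _ = X * ∑ w ∈ V, ∑ z ∈ V, α w * β w z * g z := by rw [Finset.mul_sum]
    _ ≤ X * H := mul_le_mul_of_nonneg_left hH hX

private theorem N45_fac {ι : Type} (V : Finset ι) (f : ι → ℝ) (h : ι → ι → ℝ) (c : ℝ) :
    ∑ x ∈ V, ∑ y ∈ V, ∑ z ∈ V, c * (f x * h y z) =
      c * ((∑ x ∈ V, f x) * ∑ y ∈ V, ∑ z ∈ V, h y z) := by
  rw [Finset.sum_mul, Finset.mul_sum]
  refine Finset.sum_congr rfl fun x _ => ?_
  simp only [Finset.mul_sum]

/-- The three-leg sum. -/
private theorem N45_abs3 {ι : Type} (V : Finset ι) (α : ι → ℝ) (β b : ι → ι → ℝ)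
    {X B2 B3 : ℝ} (hα : ∀ u, 0 ≤ α u) (hβ : ∀ u v, 0 ≤ β u v) (hb : ∀ y z, 0 ≤ b y z)
    (hbs : ∀ y z, b y z = b z y) (hX : 0 ≤ X) (hX1 : ∑ u ∈ V, α u ≤ X)
    (hX2 : ∀ u, ∑ x ∈ V, β u x ≤ X) (h2 : 0 ≤ B2) (h3 : 0 ≤ B3)
    (hB2 : ∀ v, ∑ y ∈ V, ∑ z ∈ V, β v y * β v z * b y z ≤ B2)
    (hB3 : ∀ u, ∑ v ∈ V, ∑ y ∈ V, ∑ z ∈ V, β u v * β u y * β v z * b y z ≤ B3) :
    ∑ x ∈ V, ∑ y ∈ V, ∑ z ∈ V, b y z * ∑ u ∈ V, ∑ v ∈ V, α u * β u v *
      (β u x * β v y * β v z + β u y * β v x * β v z + β u z * β v x * β v y) ≤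
      X ^ 3 * B2 + 2 * X ^ 2 * B3 := by
  have e : ∑ x ∈ V, ∑ y ∈ V, ∑ z ∈ V, b y z * ∑ u ∈ V, ∑ v ∈ V, α u * β u v *
      (β u x * β v y * β v z + β u y * β v x * β v z + β u z * β v x * β v y) =
      ∑ u ∈ V, ∑ v ∈ V, (α u * β u v * ((∑ x ∈ V, β u x) *
          ∑ y ∈ V, ∑ z ∈ V, β v y * β v z * b y z) +
        α u * β u v * ((∑ x ∈ V, β v x) * ∑ y ∈ V, ∑ z ∈ V, β u y * β v z * b y z) +
        α u * β u v * ((∑ x ∈ V, β v x) * ∑ y ∈ V, ∑ z ∈ V, β u z * β v y * b y z)) := by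
    have e1 : ∑ x ∈ V, ∑ y ∈ V, ∑ z ∈ V, b y z * ∑ u ∈ V, ∑ v ∈ V, α u * β u v *
        (β u x * β v y * β v z + β u y * β v x * β v z + β u z * β v x * β v y) =
        ∑ x ∈ V, ∑ y ∈ V, ∑ z ∈ V, ∑ u ∈ V, ∑ v ∈ V, b y z * (α u * β u v *
        (β u x * β v y * β v z + β u y * β v x * β v z + β u z * β v x * β v y)) := by
      simp only [Finset.mul_sum]
    rw [e1, N45_rot4]
    refine Finset.sum_congr rfl fun u _ => ?_
    rw [N45_rot4]
    refine Finset.sum_congr rfl fun v _ => ?_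
    rw [← N45_fac, ← N45_fac, ← N45_fac, ← Finset.sum_add_distrib, ← Finset.sum_add_distrib]
    refine Finset.sum_congr rfl fun x _ => ?_
    rw [← Finset.sum_add_distrib, ← Finset.sum_add_distrib]
    refine Finset.sum_congr rfl fun y _ => ?_
    rw [← Finset.sum_add_distrib, ← Finset.sum_add_distrib]
    refine Finset.sum_congr rfl fun z _ => ?_
    ring
  have hB3' : ∀ u, ∑ v ∈ V, ∑ y ∈ V, ∑ z ∈ V, β u v * β u z * β v y * b y z ≤ B3 := by
    intro u
    refine le_trans (le_of_eq ?_) (hB3 u)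
    refine Finset.sum_congr rfl fun v _ => ?_
    rw [Finset.sum_comm]
    refine Finset.sum_congr rfl fun y _ => Finset.sum_congr rfl fun z _ => ?_
    rw [hbs z y]
  have n3 : ∀ (f : ι → ι → ℝ), (∀ y z, 0 ≤ f y z) → 0 ≤ ∑ y ∈ V, ∑ z ∈ V, f y z := fun f hf =>
    Finset.sum_nonneg fun y _ => Finset.sum_nonneg fun z _ => hf y z
  rw [e]
  have step : ∀ u ∈ V, ∑ v ∈ V, (α u * β u v * ((∑ x ∈ V, β u x) *
          ∑ y ∈ V, ∑ z ∈ V, β v y * β v z * b y z) +
        α u * β u v * ((∑ x ∈ V, β v x) * ∑ y ∈ V, ∑ z ∈ V, β u y * β v z * b y z) +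
        α u * β u v * ((∑ x ∈ V, β v x) * ∑ y ∈ V, ∑ z ∈ V, β u z * β v y * b y z)) ≤
      α u * (X ^ 2 * B2 + 2 * X * B3) := by
    intro u _
    have t1 : ∑ v ∈ V, α u * β u v * ((∑ x ∈ V, β u x) *
        ∑ y ∈ V, ∑ z ∈ V, β v y * β v z * b y z) ≤ α u * (X ^ 2 * B2) := by
      calc ∑ v ∈ V, α u * β u v * ((∑ x ∈ V, β u x) *
            ∑ y ∈ V, ∑ z ∈ V, β v y * β v z * b y z)
          ≤ ∑ v ∈ V, α u * β u v * (X * B2) := by
            refine Finset.sum_le_sum fun v _ => mul_le_mul_of_nonneg_left ?_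
              (mul_nonneg (hα u) (hβ u v))
            exact mul_le_mul (hX2 u) (hB2 v)
              (n3 _ fun y z => mul_nonneg (mul_nonneg (hβ v y) (hβ v z)) (hb y z)) hX
        _ = α u * (X * B2) * ∑ v ∈ V, β u v := by
            rw [Finset.mul_sum]
            exact Finset.sum_congr rfl fun v _ => by ring
        _ ≤ α u * (X * B2) * X := mul_le_mul_of_nonneg_left (hX2 u)
            (mul_nonneg (hα u) (mul_nonneg hX h2))
        _ = α u * (X ^ 2 * B2) := by ring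
    have t2 : ∑ v ∈ V, α u * β u v * ((∑ x ∈ V, β v x) *
        ∑ y ∈ V, ∑ z ∈ V, β u y * β v z * b y z) ≤ α u * (X * B3) := by
      calc ∑ v ∈ V, α u * β u v * ((∑ x ∈ V, β v x) *
            ∑ y ∈ V, ∑ z ∈ V, β u y * β v z * b y z)
          ≤ ∑ v ∈ V, α u * β u v * (X * ∑ y ∈ V, ∑ z ∈ V, β u y * β v z * b y z) := by
            refine Finset.sum_le_sum fun v _ => mul_le_mul_of_nonneg_left ?_
              (mul_nonneg (hα u) (hβ u v))
            exact mul_le_mul_of_nonneg_right (hX2 v)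
              (n3 _ fun y z => mul_nonneg (mul_nonneg (hβ u y) (hβ v z)) (hb y z))
        _ = α u * X * ∑ v ∈ V, ∑ y ∈ V, ∑ z ∈ V, β u v * β u y * β v z * b y z := by
            rw [Finset.mul_sum]
            refine Finset.sum_congr rfl fun v _ => ?_
            simp only [Finset.mul_sum]
            exact Finset.sum_congr rfl fun y _ => Finset.sum_congr rfl fun z _ => by ring
        _ ≤ α u * X * B3 := mul_le_mul_of_nonneg_left (hB3 u) (mul_nonneg (hα u) hX)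
        _ = α u * (X * B3) := by ring
    have t3 : ∑ v ∈ V, α u * β u v * ((∑ x ∈ V, β v x) *
        ∑ y ∈ V, ∑ z ∈ V, β u z * β v y * b y z) ≤ α u * (X * B3) := by
      calc ∑ v ∈ V, α u * β u v * ((∑ x ∈ V, β v x) *
            ∑ y ∈ V, ∑ z ∈ V, β u z * β v y * b y z)
          ≤ ∑ v ∈ V, α u * β u v * (X * ∑ y ∈ V, ∑ z ∈ V, β u z * β v y * b y z) := by
            refine Finset.sum_le_sum fun v _ => mul_le_mul_of_nonneg_left ?_
              (mul_nonneg (hα u) (hβ u v))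
            exact mul_le_mul_of_nonneg_right (hX2 v)
              (n3 _ fun y z => mul_nonneg (mul_nonneg (hβ u z) (hβ v y)) (hb y z))
        _ = α u * X * ∑ v ∈ V, ∑ y ∈ V, ∑ z ∈ V, β u v * β u z * β v y * b y z := by
            rw [Finset.mul_sum]
            refine Finset.sum_congr rfl fun v _ => ?_
            simp only [Finset.mul_sum]
            exact Finset.sum_congr rfl fun y _ => Finset.sum_congr rfl fun z _ => by ring
        _ ≤ α u * X * B3 := mul_le_mul_of_nonneg_left (hB3' u) (mul_nonneg (hα u) hX)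
        _ = α u * (X * B3) := by ring
    rw [Finset.sum_add_distrib, Finset.sum_add_distrib]
    have : α u * (X ^ 2 * B2 + 2 * X * B3) =
      α u * (X ^ 2 * B2) + α u * (X * B3) + α u * (X * B3) := by ring
    linarith
  calc _ ≤ ∑ u ∈ V, α u * (X ^ 2 * B2 + 2 * X * B3) := Finset.sum_le_sum step
    _ = (∑ u ∈ V, α u) * (X ^ 2 * B2 + 2 * X * B3) := by rw [Finset.sum_mul]
    _ ≤ X * (X ^ 2 * B2 + 2 * X * B3) := mul_le_mul_of_nonneg_right hX1 (by positivity)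
    _ = X ^ 3 * B2 + 2 * X ^ 2 * B3 := by ring

/-! Indicators. -/

open Classical in
private noncomputable def N45_I (V : Finset (Vx d)) (s : ℕ) (a : Vx d) (T : Finset (Ed d))
    (y : Vx d) : ℝ := if T ∈ NE V s a y then 1 else 0

private theorem N45_I_sum (V : Finset (Vx d)) (s : ℕ) (a : Vx d) (T : Finset (Ed d))
    (f : Vx d → ℝ) : ∑ y ∈ nb T V {a} s, f y = ∑ y ∈ V, N45_I V s a T y * f y := by
  classical
  have e : nb T V {a} s = V.filter (fun y => y ∈ nb T V {a} s) := by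
    ext y
    rw [Finset.mem_filter]
    exact ⟨fun h => ⟨nb_subset T V {a} s h, h⟩, fun h => h.2⟩
  rw [e, Finset.sum_filter]
  refine Finset.sum_congr rfl fun y _ => ?_
  unfold N45_I NE
  rw [Set.mem_setOf_eq]
  split_ifs <;> simp

private theorem N45_card (V : Finset (Vx d)) (s : ℕ) (a : Vx d) (T : Finset (Ed d)) :
    ((nb T V {a} s).card : ℝ) = ∑ y ∈ V, N45_I V s a T y := by
  have h := N45_I_sum V s a T (fun _ => 1)
  rw [Finset.sum_const, nsmul_eq_mul, mul_one] at h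
  rw [h]
  exact Finset.sum_congr rfl fun y _ => by ring

private theorem N45_EE1 (p : ℝ) (V : Finset (Vx d)) (s : ℕ) (a y : Vx d) :
    EE p (edges V) (fun T => N45_I V s a T y) = PP p (edges V) (NE V s a y) := by
  rw [PP_def]
  rfl

private theorem N45_EE2 (p : ℝ) (V : Finset (Vx d)) (s : ℕ) (a x y : Vx d) :
    EE p (edges V) (fun T => N45_I V s a T x * N45_I V s a T y) =
      PP p (edges V) (NE V s a x ∩ NE V s a y) := by
  classical
  rw [PP_def]
  refine EE_congr fun T _ => ?_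
  unfold N45_I
  rw [Set.mem_inter_iff]
  by_cases h1 : T ∈ NE V s a x <;> by_cases h2 : T ∈ NE V s a y <;> simp [h1, h2]

private theorem N45_EE3 (p : ℝ) (V : Finset (Vx d)) (s : ℕ) (a x y z : Vx d) :
    EE p (edges V) (fun T => N45_I V s a T x * (N45_I V s a T y * N45_I V s a T z)) =
      PP p (edges V) (NE V s a x ∩ (NE V s a y ∩ NE V s a z)) := by
  classical
  rw [PP_def]
  refine EE_congr fun T _ => ?_
  unfold N45_I
  rw [Set.mem_inter_iff, Set.mem_inter_iff]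
  by_cases h1 : T ∈ NE V s a x <;> by_cases h2 : T ∈ NE V s a y <;>
    by_cases h3 : T ∈ NE V s a z <;> simp [h1, h2, h3]

private theorem N45_X (h : SigK d p s σ X) : 0 ≤ X := by
  have := h.sum ∅
  rwa [Finset.sum_empty] at this

private theorem N45_bd2 (hp : 0 ≤ p) (hp1 : p ≤ 1 / 2) (h : SigK d p s σ X)
    (V : Finset (Vx d)) (a x y : Vx d) : PP p (edges V) (NE V s a x ∩ NE V s a y) ≤
      ∑ w ∈ V, σ (w - a) * σ (x - w) * σ (y - w) := by
  refine (PP_nb2 hp hp1 V s a x y).trans (Finset.sum_le_sum fun w _ => ?_)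
  have n : ∀ u v, 0 ≤ PP p (edges V) (NE V s u v) := fun u v => PP_nonneg hp (by linarith)
  exact mul_le_mul (mul_le_mul (h.bound V a w) (h.bound V w x) (n _ _) (h.nonneg _))
    (h.bound V w y) (n _ _) (mul_nonneg (h.nonneg _) (h.nonneg _))

private theorem N45_bd3 (hp : 0 ≤ p) (hp1 : p ≤ 1 / 2) (h : SigK d p s σ X)
    (V : Finset (Vx d)) (a x y z : Vx d) :
    PP p (edges V) (NE V s a x ∩ (NE V s a y ∩ NE V s a z)) ≤
      ∑ u ∈ V, ∑ v ∈ V, σ (u - a) * σ (v - u) *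
        (σ (x - u) * σ (y - v) * σ (z - v) + σ (y - u) * σ (x - v) * σ (z - v) +
          σ (z - u) * σ (x - v) * σ (y - v)) := by
  refine (PP_nb3 hp hp1 V s a x y z).trans
    (Finset.sum_le_sum fun u _ => Finset.sum_le_sum fun v _ => ?_)
  have n : ∀ u v, 0 ≤ PP p (edges V) (NE V s u v) := fun u v => PP_nonneg hp (by linarith)
  have m3 : ∀ a1 b1 a2 b2 a3 b3, PP p (edges V) (NE V s a1 b1) * PP p (edges V) (NE V s a2 b2) *
      PP p (edges V) (NE V s a3 b3) ≤ σ (b1 - a1) * σ (b2 - a2) * σ (b3 - a3) := by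
    intro a1 b1 a2 b2 a3 b3
    exact mul_le_mul (mul_le_mul (h.bound V a1 b1) (h.bound V a2 b2) (n _ _) (h.nonneg _))
      (h.bound V a3 b3) (n _ _) (mul_nonneg (h.nonneg _) (h.nonneg _))
  refine mul_le_mul (mul_le_mul (h.bound V a u) (h.bound V u v) (n _ _) (h.nonneg _))
    (add_le_add (add_le_add (m3 u x v y v z) (m3 u y v x v z)) (m3 u z v x v y)) ?_
    (mul_nonneg (h.nonneg _) (h.nonneg _))
  exact add_nonneg (add_nonneg (mul_nonneg (mul_nonneg (n _ _) (n _ _)) (n _ _))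
    (mul_nonneg (mul_nonneg (n _ _) (n _ _)) (n _ _)))
    (mul_nonneg (mul_nonneg (n _ _) (n _ _)) (n _ _))

theorem EE_nb (hp : 0 ≤ p) (hp1 : p ≤ 1) (h : SigK d p s σ X) (V : Finset (Vx d)) (a : Vx d) :
    EE p (edges V) (fun T => ((nb T V {a} s).card : ℝ)) ≤ X := by
  have e : EE p (edges V) (fun T => ((nb T V {a} s).card : ℝ)) =
      ∑ y ∈ V, PP p (edges V) (NE V s a y) := by
    rw [show (fun T => ((nb T V {a} s).card : ℝ)) = fun T => ∑ y ∈ V, N45_I V s a T y from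
      funext fun T => N45_card V s a T, EE_sum]
    exact Finset.sum_congr rfl fun y _ => N45_EE1 p V s a y
  rw [e]
  exact (Finset.sum_le_sum fun y _ => h.bound V a y).trans (N45_shift h.sum V a)

theorem EE_nb_sq (hp : 0 ≤ p) (hp1 : p ≤ 1 / 2) (h : SigK d p s σ X) (V : Finset (Vx d))
    (a : Vx d) : EE p (edges V) (fun T => ((nb T V {a} s).card : ℝ) ^ 2) ≤ X ^ 3 := by
  have e : EE p (edges V) (fun T => ((nb T V {a} s).card : ℝ) ^ 2) =
      ∑ x ∈ V, ∑ y ∈ V, PP p (edges V) (NE V s a x ∩ NE V s a y) := by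
    have e1 : (fun T => ((nb T V {a} s).card : ℝ) ^ 2) =
        fun T => ∑ x ∈ V, ∑ y ∈ V, N45_I V s a T x * N45_I V s a T y := by
      funext T
      rw [N45_card, sq, Finset.sum_mul_sum]
    rw [e1, EE_sum]
    refine Finset.sum_congr rfl fun x _ => ?_
    rw [EE_sum]
    exact Finset.sum_congr rfl fun y _ => N45_EE2 p V s a x y
  rw [e]
  have hX := N45_X h
  calc ∑ x ∈ V, ∑ y ∈ V, PP p (edges V) (NE V s a x ∩ NE V s a y)
      ≤ ∑ x ∈ V, ∑ y ∈ V, (1 : ℝ) * ∑ w ∈ V, σ (w - a) * σ (x - w) * σ (y - w) := by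
        refine Finset.sum_le_sum fun x _ => Finset.sum_le_sum fun y _ => ?_
        rw [one_mul]
        exact N45_bd2 hp hp1 h V a x y
    _ ≤ X * X ^ 2 := by
        refine N45_abs2 V (fun w => σ (w - a)) (fun w x => σ (x - w)) (fun _ => 1)
          (fun _ => h.nonneg _) (fun _ _ => h.nonneg _) (fun _ => zero_le_one) hX
          (fun u => N45_shift h.sum V u) ?_
        calc ∑ w ∈ V, ∑ z ∈ V, σ (w - a) * σ (z - w) * 1
            = ∑ w ∈ V, σ (w - a) * ∑ z ∈ V, σ (z - w) := by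
              refine Finset.sum_congr rfl fun w _ => ?_
              rw [Finset.mul_sum]
              exact Finset.sum_congr rfl fun z _ => by ring
          _ ≤ ∑ w ∈ V, σ (w - a) * X := Finset.sum_le_sum fun w _ =>
              mul_le_mul_of_nonneg_left (N45_shift h.sum V w) (h.nonneg _)
          _ = (∑ w ∈ V, σ (w - a)) * X := by rw [Finset.sum_mul]
          _ ≤ X * X := mul_le_mul_of_nonneg_right (N45_shift h.sum V a) hX
          _ = X ^ 2 := by ring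
    _ = X ^ 3 := by ring

theorem EE_nb_en (hp : 0 ≤ p) (hp1 : p ≤ 1 / 2) (h : SigK d p s σ X)
    (hb : ∀ x, 0 ≤ bb x) (he : ∀ x, bb (-x) = bb x) (hD : DiaK d σ bb B2 B3 H)
    (V : Finset (Vx d)) (a : Vx d) :
    EE p (edges V) (fun T => ((nb T V {a} s).card : ℝ) * en bb (nb T V {a} s)) ≤
      X ^ 3 * B2 + 2 * X ^ 2 * B3 := by
  classical
  let b : Vx d → Vx d → ℝ := fun y z => if z = y then 0 else bb (y - z)
  have hbn : ∀ y z, 0 ≤ b y z := by
    intro y z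
    show 0 ≤ if z = y then 0 else bb (y - z)
    split_ifs
    · exact le_rfl
    · exact hb _
  have hbs : ∀ y z, b y z = b z y := by
    intro y z
    show (if z = y then 0 else bb (y - z)) = if y = z then 0 else bb (z - y)
    by_cases h1 : z = y
    · rw [if_pos h1, if_pos h1.symm]
    · rw [if_neg h1, if_neg (fun e => h1 e.symm), ← he (y - z), neg_sub]
  have er : ∀ (S : Finset (Vx d)) (y : Vx d) (f : Vx d → ℝ),
      ∑ z ∈ S.erase y, f z * bb (y - z) = ∑ z ∈ S, f z * b y z := by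
    intro S y f
    have h1 : ∀ z ∈ S.erase y, f z * bb (y - z) = f z * b y z := by
      intro z hz
      show _ = f z * if z = y then 0 else bb (y - z)
      rw [if_neg (Finset.ne_of_mem_erase hz)]
    rw [Finset.sum_congr rfl h1]
    refine Finset.sum_subset (Finset.erase_subset _ _) ?_
    intro z hz hz'
    have : z = y := by
      by_contra hc
      exact hz' (Finset.mem_erase.mpr ⟨hc, hz⟩)
    show f z * (if z = y then 0 else bb (y - z)) = 0
    rw [if_pos this, mul_zero]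
  have een : ∀ T : Finset (Ed d), en bb (nb T V {a} s) =
      ∑ y ∈ V, ∑ z ∈ V, N45_I V s a T y * N45_I V s a T z * b y z := by
    intro T
    unfold en
    rw [N45_I_sum]
    refine Finset.sum_congr rfl fun y _ => ?_
    have h1 := er (nb T V {a} s) y (fun _ => 1)
    simp only [one_mul] at h1
    rw [h1, N45_I_sum, Finset.mul_sum]
    exact Finset.sum_congr rfl fun z _ => by ring
  have e : EE p (edges V) (fun T => ((nb T V {a} s).card : ℝ) * en bb (nb T V {a} s)) =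
      ∑ x ∈ V, ∑ y ∈ V, ∑ z ∈ V, b y z *
        PP p (edges V) (NE V s a x ∩ (NE V s a y ∩ NE V s a z)) := by
    have e1 : (fun T => ((nb T V {a} s).card : ℝ) * en bb (nb T V {a} s)) =
        fun T => ∑ x ∈ V, ∑ y ∈ V, ∑ z ∈ V, b y z *
          (N45_I V s a T x * (N45_I V s a T y * N45_I V s a T z)) := by
      funext T
      rw [N45_card, een, Finset.sum_mul]
      refine Finset.sum_congr rfl fun x _ => ?_
      rw [Finset.mul_sum]
      refine Finset.sum_congr rfl fun y _ => ?_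
      rw [Finset.mul_sum]
      exact Finset.sum_congr rfl fun z _ => by ring
    rw [e1, EE_sum]
    refine Finset.sum_congr rfl fun x _ => ?_
    rw [EE_sum]
    refine Finset.sum_congr rfl fun y _ => ?_
    rw [EE_sum]
    refine Finset.sum_congr rfl fun z _ => ?_
    rw [EE_const_mul, N45_EE3]
  rw [e]
  have h2 : 0 ≤ B2 := by simpa using hD.b2 ∅ 0
  have h3 : 0 ≤ B3 := by simpa using hD.b3 ∅ 0
  refine le_trans (Finset.sum_le_sum fun x _ => Finset.sum_le_sum fun y _ =>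
    Finset.sum_le_sum fun z _ => mul_le_mul_of_nonneg_left (N45_bd3 hp hp1 h V a x y z)
      (hbn y z)) ?_
  refine N45_abs3 V (fun u => σ (u - a)) (fun u x => σ (x - u)) b (fun _ => h.nonneg _)
    (fun _ _ => h.nonneg _) hbn hbs (N45_X h) (N45_shift h.sum V a)
    (fun u => N45_shift h.sum V u) h2 h3 ?_ ?_
  · intro v
    refine le_trans (le_of_eq ?_) (hD.b2 V v)
    refine Finset.sum_congr rfl fun y _ => ?_
    rw [← er V y (fun z => σ (y - v) * σ (z - v))]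
  · intro u
    refine le_trans (le_of_eq ?_) (hD.b3 V u)
    refine Finset.sum_congr rfl fun v _ => Finset.sum_congr rfl fun y _ => ?_
    rw [← er V y (fun z => σ (v - u) * σ (y - u) * σ (z - v))]

theorem EE_nb_cross (hp : 0 ≤ p) (hp1 : p ≤ 1 / 2) (h : SigK d p s σ X)
    (hb : ∀ x, 0 ≤ bb x) (hD : DiaK d σ bb B2 B3 H) (V F : Finset (Vx d)) (hF : Disjoint F V)
    (a : Vx d) :
    EE p (edges V) (fun T => ((nb T V {a} s).card : ℝ) *
      ∑ z ∈ nb T V {a} s, ∑ z' ∈ F, bb (z - z')) ≤ X * H F.card := by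
  have e : EE p (edges V) (fun T => ((nb T V {a} s).card : ℝ) *
      ∑ z ∈ nb T V {a} s, ∑ z' ∈ F, bb (z - z')) =
      ∑ x ∈ V, ∑ z ∈ V, (∑ z' ∈ F, bb (z - z')) *
        PP p (edges V) (NE V s a x ∩ NE V s a z) := by
    have e1 : (fun T => ((nb T V {a} s).card : ℝ) *
        ∑ z ∈ nb T V {a} s, ∑ z' ∈ F, bb (z - z')) =
        fun T => ∑ x ∈ V, ∑ z ∈ V, (∑ z' ∈ F, bb (z - z')) *
          (N45_I V s a T x * N45_I V s a T z) := by
      funext T
      rw [N45_card, N45_I_sum, Finset.sum_mul_sum]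
      exact Finset.sum_congr rfl fun x _ => Finset.sum_congr rfl fun z _ => by ring
    rw [e1, EE_sum]
    refine Finset.sum_congr rfl fun x _ => ?_
    rw [EE_sum]
    refine Finset.sum_congr rfl fun y _ => ?_
    rw [EE_const_mul, N45_EE2]
  rw [e]
  have hg : ∀ z, 0 ≤ ∑ z' ∈ F, bb (z - z') := fun z => Finset.sum_nonneg fun z' _ => hb _
  refine le_trans (Finset.sum_le_sum fun x _ => Finset.sum_le_sum fun z _ =>
    mul_le_mul_of_nonneg_left (N45_bd2 hp hp1 h V a x z) (hg z)) ?_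
  exact N45_abs2 V (fun w => σ (w - a)) (fun w x => σ (x - w))
    (fun z => ∑ z' ∈ F, bb (z - z')) (fun _ => h.nonneg _) (fun _ _ => h.nonneg _) hg (N45_X h)
    (fun u => N45_shift h.sum V u) (hD.b4 V F a hF)

end Pool.Agent.HD
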