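import Pool.Agent.Lib.MP_8ca597_hd.N41
import Pool.Agent.Lib.MP_8ca597_hd.N45

/-!
# Row N46: bad steps

`mean_sph`: the spheres of radius `ρ + U`, `U < 2 ρ`, are disjoint subsets of `nb T V {y} (3 * ρ)`.
`bad_big`, `bad_en`, `bad_cross`: `1(a ≤ Y) ≤ Y / a` and monotonicity of the ball, `mean_sph` pointwise:
`∑_U |sph (ρ + U)| * Y_U ≤ |nb (3 ρ)| * Y(nb (3 ρ))`.
`bad_small`: let `u = ρ / 4` and `i` the first level in `[u, 2 u)` with `|sph i| ≤ a1 / u` (it exists if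
`|nb (ρ + U)| ≤ a1`, since `2 u ≤ ρ`). Explore `nb T V {y} i` (`expl_nb`);
`|sph T V {y} (ρ + U)| ≤ ∑ v ∈ sph T V {y} i, |sph T (V \ nb T V {y} i) {v} (ρ + U - i)|` (`sph_anc`), and the sum
over `U` has conditional expectation `≤ |sph i| X ≤ (a1 / u) X` (`mean_sph` in the new domain); sum over `i`: factor
`P(sph T V {y} u ≠ ∅) ≤ G`.
-/

set_option autoImplicit false

namespace Pool.Agent.HD

open Finset
open scoped ENNReal

variable {d : ℕ}

/-- A step is bad if the ball is too small or too large, has too much energy, or too much cross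
energy with `F`. -/
def Bad (bb : Vx d → ℝ) (a1 a2 : ℝ) (T : Finset (Ed d)) (V : Finset (Vx d)) (y : Vx d) (t : ℕ)
    (F : Finset (Vx d)) : Prop :=
  ((nb T V {y} t).card : ℝ) ≤ a1 ∨ a2 ≤ (nb T V {y} t).card ∨ a2 ≤ en bb (nb T V {y} t) ∨
    a2 ≤ ∑ z ∈ nb T V {y} t, ∑ z' ∈ F, bb (z - z')

variable {p : ℝ} {ρ : ℕ} {σ bb : Vx d → ℝ} {X B2 B3 G a1 a2 : ℝ} {H : ℕ → ℝ}

private lemma N46_sum_sph (T : Finset (Ed d)) (V : Finset (Vx d)) (y : Vx d) (i : ℕ) (hi : i ≤ ρ) :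
    ∑ U ∈ range (2 * ρ), ((sph T V {y} (ρ + U - i)).card : ℝ) ≤ ((nb T V {y} (3 * ρ)).card : ℝ) := by
  rw [← sum_card_sph, Nat.cast_sum]
  have h1 : ∑ U ∈ range (2 * ρ), ((sph T V {y} (ρ + U - i)).card : ℝ) =
      ∑ j ∈ Ico (ρ - i) (ρ - i + 2 * ρ), ((sph T V {y} j).card : ℝ) := by
    rw [sum_Ico_eq_sum_range]
    have h2 : ρ - i + 2 * ρ - (ρ - i) = 2 * ρ := by omega
    rw [h2]
    refine sum_congr rfl fun U _ => ?_
    have h3 : ρ + U - i = ρ - i + U := by omega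
    rw [h3]
  rw [h1]
  refine sum_le_sum_of_subset_of_nonneg ?_ fun _ _ _ => Nat.cast_nonneg _
  intro j hj
  rw [mem_Ico] at hj
  rw [mem_range]
  omega

theorem mean_sph (hp : 0 ≤ p) (hp1 : p ≤ 1) (h : SigK d p (3 * ρ) σ X) (V : Finset (Vx d))
    (y : Vx d) (i : ℕ) (hi : i ≤ ρ) :
    ∑ U ∈ range (2 * ρ), EE p (edges V) (fun T => ((sph T V {y} (ρ + U - i)).card : ℝ)) ≤ X := by
  rw [← EE_sum]
  exact (EE_mono hp hp1 fun T _ => N46_sum_sph T V y i hi).trans (EE_nb hp hp1 h V y)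

open Classical in
private lemma N46_gen (hp : 0 ≤ p) (hp1 : p ≤ 1) (ha : 0 < a2) (V : Finset (Vx d)) (y : Vx d)
    (Y : ℕ → Finset (Ed d) → ℝ) (hY0 : ∀ t T, 0 ≤ Y t T)
    (hYm : ∀ U < 2 * ρ, ∀ T, Y (ρ + U) T ≤ Y (3 * ρ) T) {B : ℝ}
    (hB : EE p (edges V) (fun T => ((nb T V {y} (3 * ρ)).card : ℝ) * Y (3 * ρ) T) ≤ B) :
    ∑ U ∈ range (2 * ρ), EE p (edges V) (fun T =>
      if a2 ≤ Y (ρ + U) T then ((sph T V {y} (ρ + U)).card : ℝ) else 0) ≤ B / a2 := by
  rw [← EE_sum]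
  have h1 : ∀ T : Finset (Ed d), ∑ U ∈ range (2 * ρ),
      (if a2 ≤ Y (ρ + U) T then ((sph T V {y} (ρ + U)).card : ℝ) else 0) ≤
      ((nb T V {y} (3 * ρ)).card : ℝ) * Y (3 * ρ) T * a2⁻¹ := by
    intro T
    have h2 : ∀ U ∈ range (2 * ρ),
        (if a2 ≤ Y (ρ + U) T then ((sph T V {y} (ρ + U)).card : ℝ) else 0) ≤
        ((sph T V {y} (ρ + U - 0)).card : ℝ) * (Y (3 * ρ) T * a2⁻¹) := by
      intro U hU
      rw [Nat.sub_zero]
      have h3 := hYm U (mem_range.1 hU) T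
      split_ifs with h4
      · have h5 : 1 ≤ Y (3 * ρ) T * a2⁻¹ := by
          rw [← div_eq_mul_inv, le_div_iff₀ ha, one_mul]
          exact h4.trans h3
        exact le_mul_of_one_le_right (Nat.cast_nonneg _) h5
      · exact mul_nonneg (Nat.cast_nonneg _) (mul_nonneg (hY0 _ _) (inv_nonneg.2 ha.le))
    refine (sum_le_sum h2).trans ?_
    rw [← sum_mul, mul_assoc]
    exact mul_le_mul_of_nonneg_right (N46_sum_sph T V y 0 (Nat.zero_le _))
      (mul_nonneg (hY0 _ _) (inv_nonneg.2 ha.le))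
  refine (EE_mono hp hp1 fun T _ => h1 T).trans ?_
  rw [EE_mul_const, div_eq_mul_inv]
  exact mul_le_mul_of_nonneg_right hB (inv_nonneg.2 ha.le)

private lemma N46_en_nonneg (hb : ∀ x, 0 ≤ bb x) (K : Finset (Vx d)) : 0 ≤ en bb K :=
  sum_nonneg fun _ _ => sum_nonneg fun _ _ => hb _

private lemma N46_en_mono (hb : ∀ x, 0 ≤ bb x) {K K' : Finset (Vx d)} (h : K ⊆ K') :
    en bb K ≤ en bb K' := by
  unfold en
  refine (sum_le_sum fun z _ => sum_le_sum_of_subset_of_nonneg (erase_subset_erase z h)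
    fun _ _ _ => hb _).trans ?_
  exact sum_le_sum_of_subset_of_nonneg h fun _ _ _ => sum_nonneg fun _ _ => hb _

private lemma N46_X (h : SigK d p (3 * ρ) σ X) : 0 ≤ X := by
  have := h.sum ∅
  rwa [sum_empty] at this

open Classical in
/-- The level `i` is the first one in `[u, 2 u)` with at most `c` elements. -/
private noncomputable def N46_f (V : Finset (Vx d)) (y : Vx d) (u : ℕ) (c : ℝ) (i : ℕ)
    (T : Finset (Ed d)) : ℝ :=
  if (∀ j, u ≤ j → j < i → c < ((sph T V {y} j).card : ℝ)) ∧ ((sph T V {y} i).card : ℝ) ≤ c then 1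
    else 0

private lemma N46_f_nonneg (V : Finset (Vx d)) (y : Vx d) (u : ℕ) (c : ℝ) (i : ℕ)
    (T : Finset (Ed d)) : 0 ≤ N46_f V y u c i T := by
  unfold N46_f
  split_ifs <;> norm_num

private lemma N46_f_touch (V : Finset (Vx d)) (y : Vx d) (u : ℕ) (c : ℝ) (i : ℕ)
    (T T' : Finset (Ed d))
    (h : T ∩ touch V (nb T V {y} i) = T' ∩ touch V (nb T V {y} i)) :
    N46_f V y u c i T' = N46_f V y u c i T := by
  have h1 : ∀ j ≤ i, sph T' V {y} j = sph T V {y} j := by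
    intro j hj
    unfold sph
    rw [nb_eq_of_touch h (i := j + 1) (by omega), nb_eq_of_touch h (i := j) (by omega)]
  unfold N46_f
  have h2 : ((∀ j, u ≤ j → j < i → c < ((sph T' V {y} j).card : ℝ)) ∧
      ((sph T' V {y} i).card : ℝ) ≤ c) ↔ ((∀ j, u ≤ j → j < i → c < ((sph T V {y} j).card : ℝ)) ∧
      ((sph T V {y} i).card : ℝ) ≤ c) := by
    rw [h1 i le_rfl]
    refine and_congr_left fun _ => forall_congr' fun j => forall_congr' fun _ =>
      forall_congr' fun hj => ?_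
    rw [h1 j hj.le]
  simp only [h2]

/-- At most one level is the first. -/
private lemma N46_sum_f (V : Finset (Vx d)) (y : Vx d) (u : ℕ) (c : ℝ) (T : Finset (Ed d)) :
    ∑ i ∈ Ico u (2 * u), N46_f V y u c i T ≤ 1 := by
  by_cases h : ∃ i ∈ Ico u (2 * u), N46_f V y u c i T ≠ 0
  · obtain ⟨i, hi, hf⟩ := h
    have h1 : ∀ j ∈ Ico u (2 * u), j ≠ i → N46_f V y u c j T = 0 := by
      intro j hj hji
      by_contra hne
      unfold N46_f at hf hne
      rw [ite_ne_right_iff] at hf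
      rw [ite_eq_right_iff] at hne
      push Not at hne
      obtain ⟨⟨h2, h3⟩, _⟩ := hf
      obtain ⟨⟨h4, h5⟩, _⟩ := hne
      rw [mem_Ico] at hi hj
      rcases lt_or_gt_of_ne hji with hlt | hlt
      · exact absurd h5 (not_le.2 (h2 j hj.1 hlt))
      · exact absurd h3 (not_le.2 (h4 i hi.1 hlt))
    rw [sum_eq_single_of_mem i hi h1]
    unfold N46_f
    split_ifs <;> norm_num
  · push Not at h
    rw [sum_eq_zero h]
    norm_num

/-- If the ball is small, some level is small. -/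
private lemma N46_exists (V : Finset (Vx d)) (y : Vx d) {u : ℕ} (hu : 0 < u)
    (T : Finset (Ed d)) {t : ℕ} (ht : 2 * u ≤ t) (h : ((nb T V {y} t).card : ℝ) ≤ a1) :
    ∑ i ∈ Ico u (2 * u), N46_f V y u (a1 / u) i T = 1 := by
  classical
  have hu' : (0 : ℝ) < u := Nat.cast_pos.2 hu
  have h1 : ∃ i, i ∈ Ico u (2 * u) ∧ ((sph T V {y} i).card : ℝ) ≤ a1 / u := by
    by_contra hcon
    push Not at hcon
    have h2 : ∑ i ∈ Ico u (2 * u), a1 / u < ∑ i ∈ Ico u (2 * u), ((sph T V {y} i).card : ℝ) :=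
      sum_lt_sum_of_nonempty (by rw [nonempty_Ico]; omega) fun i hi => hcon i hi
    rw [sum_const, Nat.card_Ico, nsmul_eq_mul] at h2
    have h3 : 2 * u - u = u := by omega
    rw [h3, mul_div_cancel₀ _ hu'.ne'] at h2
    have h4 : ∑ i ∈ Ico u (2 * u), ((sph T V {y} i).card : ℝ) ≤ ((nb T V {y} t).card : ℝ) := by
      rw [← sum_card_sph, Nat.cast_sum]
      refine sum_le_sum_of_subset_of_nonneg ?_ fun _ _ _ => Nat.cast_nonneg _
      intro j hj
      rw [mem_Ico] at hj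
      rw [mem_range]
      omega
    linarith
  obtain ⟨h2, h3⟩ := Nat.find_spec h1
  have h4 : N46_f V y u (a1 / u) (Nat.find h1) T = 1 := by
    unfold N46_f
    rw [if_pos]
    refine ⟨fun j hj hji => ?_, h3⟩
    have h5 := Nat.find_min h1 hji
    by_contra h6
    refine h5 ⟨?_, not_lt.1 h6⟩
    rw [mem_Ico] at h2 ⊢
    omega
  refine le_antisymm (N46_sum_f V y u _ T) ?_
  rw [← h4]
  exact single_le_sum (f := fun i => N46_f V y u (a1 / u) i T)
    (fun i _ => N46_f_nonneg V y u _ i T) h2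

/-- One level. -/
private lemma N46_level (hp : 0 ≤ p) (hp1 : p ≤ 1) (h : SigK d p (3 * ρ) σ X)
    (V : Finset (Vx d)) (y : Vx d) (u : ℕ) (c : ℝ) {i : ℕ} (hui : u ≤ i) (hi : i ≤ ρ) :
    ∑ U ∈ range (2 * ρ), EE p (edges V) (fun T =>
      N46_f V y u c i T * ((sph T V {y} (ρ + U)).card : ℝ)) ≤
      X * c * EE p (edges V) (fun T => N46_f V y u c i T *
        (if T ∈ {T : Finset (Ed d) | (sph T V {y} u).Nonempty} then 1 else 0)) := by
  classical
  have hX := N46_X h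
  have h1 : ∀ U ∈ range (2 * ρ), EE p (edges V) (fun T =>
      N46_f V y u c i T * ((sph T V {y} (ρ + U)).card : ℝ)) ≤
      EE p (edges V) (fun T => N46_f V y u c i T * EE p (edges (V \ nb T V {y} i)) (fun T' =>
        ∑ v ∈ sph T V {y} i, ((sph T' (V \ nb T V {y} i) {v} (ρ + U - i)).card : ℝ))) := by
    intro U _
    rw [← expl_nb p V {y} i (N46_f V y u c i)
      (fun T T' hT => N46_f_touch V y u c i T T' hT)
      (fun K S T' => ∑ v ∈ S, ((sph T' (V \ K) {v} (ρ + U - i)).card : ℝ))]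
    refine EE_mono hp hp1 fun T _ => mul_le_mul_of_nonneg_left ?_ (N46_f_nonneg V y u c i T)
    simp only [sph_inter_edges]
    have h2 : sph T V {y} (ρ + U) ⊆
        (sph T V {y} i).biUnion fun v => sph T (V \ nb T V {y} i) {v} (ρ + U - i) := by
      intro x hx
      have h3 : i + (ρ + U - i) = ρ + U := by omega
      rw [← h3] at hx
      obtain ⟨v, hv, hxv⟩ := sph_anc hx
      exact mem_biUnion.2 ⟨v, hv, hxv⟩
    have h4 : (sph T V {y} (ρ + U)).card ≤
        ∑ v ∈ sph T V {y} i, (sph T (V \ nb T V {y} i) {v} (ρ + U - i)).card :=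
      (card_le_card h2).trans card_biUnion_le
    exact_mod_cast h4
  refine (sum_le_sum h1).trans ?_
  rw [← EE_sum, ← EE_const_mul]
  refine EE_mono hp hp1 fun T _ => ?_
  rw [← mul_sum]
  have h5 : ∑ U ∈ range (2 * ρ), EE p (edges (V \ nb T V {y} i)) (fun T' =>
      ∑ v ∈ sph T V {y} i, ((sph T' (V \ nb T V {y} i) {v} (ρ + U - i)).card : ℝ)) ≤
      ((sph T V {y} i).card : ℝ) * X := by
    simp only [EE_sum]
    rw [sum_comm]
    refine (sum_le_sum fun v _ => mean_sph hp hp1 h (V \ nb T V {y} i) v i hi).trans ?_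
    rw [sum_const, nsmul_eq_mul]
  refine (mul_le_mul_of_nonneg_left h5 (N46_f_nonneg V y u c i T)).trans ?_
  by_cases h6 : (sph T V {y} u).Nonempty
  · have h6' : T ∈ {T : Finset (Ed d) | (sph T V {y} u).Nonempty} := h6
    rw [if_pos h6', mul_one]
    unfold N46_f
    split_ifs with h7
    · rw [one_mul, mul_one, mul_comm]
      exact mul_le_mul_of_nonneg_left h7.2 hX
    · rw [zero_mul, mul_zero]
  · have h6' : T ∉ {T : Finset (Ed d) | (sph T V {y} u).Nonempty} := h6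
    have h7 : sph T V {y} i = ∅ := by
      rw [← not_nonempty_iff_eq_empty]
      exact fun h8 => h6 (sph_nonempty h8 hui)
    rw [if_neg h6', h7, card_empty, Nat.cast_zero, zero_mul, mul_zero, mul_zero]

open Classical in
theorem bad_small (hp : 0 ≤ p) (hp1 : p ≤ 1) (h : SigK d p (3 * ρ) σ X) (hρ : 8 ≤ ρ)
    (ha : 0 ≤ a1)
    (hG : ∀ (V : Finset (Vx d)) (a : Vx d),
      PP p (edges V) {T | (sph T V {a} (ρ / 4)).Nonempty} ≤ G)
    (V : Finset (Vx d)) (y : Vx d) :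
    ∑ U ∈ range (2 * ρ), EE p (edges V) (fun T =>
      if ((nb T V {y} (ρ + U)).card : ℝ) ≤ a1 then ((sph T V {y} (ρ + U)).card : ℝ) else 0) ≤
      8 * a1 * X * G / ρ := by
  have hX := N46_X h
  have hG0 : 0 ≤ G := (PP_nonneg hp hp1).trans (hG V y)
  obtain ⟨u, hu⟩ : ∃ u, u = ρ / 4 := ⟨_, rfl⟩
  have hu0 : 0 < u := by omega
  have hu' : (0 : ℝ) < u := Nat.cast_pos.2 hu0
  have h1 : ∀ U ∈ range (2 * ρ), EE p (edges V) (fun T =>
      if ((nb T V {y} (ρ + U)).card : ℝ) ≤ a1 then ((sph T V {y} (ρ + U)).card : ℝ) else 0) ≤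
      ∑ i ∈ Ico u (2 * u), EE p (edges V) (fun T =>
        N46_f V y u (a1 / u) i T * ((sph T V {y} (ρ + U)).card : ℝ)) := by
    intro U _
    rw [← EE_sum]
    refine EE_mono hp hp1 fun T _ => ?_
    rw [← sum_mul]
    split_ifs with h2
    · rw [N46_exists V y hu0 T (by omega) h2, one_mul]
    · exact mul_nonneg (sum_nonneg fun i _ => N46_f_nonneg V y u _ i T) (Nat.cast_nonneg _)
  refine (sum_le_sum h1).trans ?_
  rw [sum_comm]
  have h3 : ∀ i ∈ Ico u (2 * u), ∑ U ∈ range (2 * ρ), EE p (edges V) (fun T =>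
      N46_f V y u (a1 / u) i T * ((sph T V {y} (ρ + U)).card : ℝ)) ≤
      X * (a1 / u) * EE p (edges V) (fun T => N46_f V y u (a1 / u) i T *
        (if T ∈ {T : Finset (Ed d) | (sph T V {y} u).Nonempty} then 1 else 0)) := by
    intro i hi
    rw [mem_Ico] at hi
    exact N46_level hp hp1 h V y u (a1 / u) hi.1 (by omega)
  refine (sum_le_sum h3).trans ?_
  rw [← mul_sum, ← EE_sum]
  have h4 : EE p (edges V) (fun T => ∑ i ∈ Ico u (2 * u), N46_f V y u (a1 / u) i T *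
      (if T ∈ {T : Finset (Ed d) | (sph T V {y} u).Nonempty} then 1 else 0)) ≤ G := by
    have h5 := hG V y
    rw [← hu, PP_def] at h5
    refine le_trans (EE_mono hp hp1 fun T _ => ?_) h5
    rw [← sum_mul]
    by_cases hT : T ∈ {T : Finset (Ed d) | (sph T V {y} u).Nonempty}
    · rw [if_pos hT, if_pos hT, mul_one]
      exact N46_sum_f V y u _ T
    · rw [if_neg hT, if_neg hT, mul_zero]
  have h6 : (ρ : ℝ) / 8 ≤ u := by
    have h7 : ρ ≤ 8 * u := by omega
    have h8 : (ρ : ℝ) ≤ 8 * u := by exact_mod_cast h7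
    linarith
  have hρ' : (0 : ℝ) < ρ := Nat.cast_pos.2 (by omega)
  have h9 : a1 / u ≤ 8 * a1 / ρ := by
    rw [div_le_div_iff₀ hu' hρ']
    nlinarith
  have h10 : 0 ≤ a1 / u := div_nonneg ha hu'.le
  calc X * (a1 / u) * EE p (edges V) (fun T => ∑ i ∈ Ico u (2 * u), N46_f V y u (a1 / u) i T *
      (if T ∈ {T : Finset (Ed d) | (sph T V {y} u).Nonempty} then 1 else 0))
      ≤ X * (a1 / u) * G := mul_le_mul_of_nonneg_left h4 (mul_nonneg hX h10)
    _ ≤ X * (8 * a1 / ρ) * G :=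
      mul_le_mul_of_nonneg_right (mul_le_mul_of_nonneg_left h9 hX) hG0
    _ = 8 * a1 * X * G / ρ := by ring

open Classical in
theorem bad_big (hp : 0 ≤ p) (hp1 : p ≤ 1 / 2) (h : SigK d p (3 * ρ) σ X) (ha : 0 < a2)
    (V : Finset (Vx d)) (y : Vx d) :
    ∑ U ∈ range (2 * ρ), EE p (edges V) (fun T =>
      if a2 ≤ ((nb T V {y} (ρ + U)).card : ℝ) then ((sph T V {y} (ρ + U)).card : ℝ) else 0) ≤
      X ^ 3 / a2 := by
  refine N46_gen hp (by linarith) ha V y (fun t T => ((nb T V {y} t).card : ℝ))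
    (fun _ _ => Nat.cast_nonneg _) (fun U hU T => ?_) ?_
  · exact_mod_cast card_le_card (nb_mono (subset_refl T) (subset_refl V) (subset_refl {y})
      (by omega))
  · have h1 := EE_nb_sq hp hp1 h V y
    simpa only [sq] using h1

open Classical in
theorem bad_en (hp : 0 ≤ p) (hp1 : p ≤ 1 / 2) (h : SigK d p (3 * ρ) σ X) (ha : 0 < a2)
    (hb : ∀ x, 0 ≤ bb x) (he : ∀ x, bb (-x) = bb x) (hD : DiaK d σ bb B2 B3 H)
    (V : Finset (Vx d)) (y : Vx d) :
    ∑ U ∈ range (2 * ρ), EE p (edges V) (fun T =>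
      if a2 ≤ en bb (nb T V {y} (ρ + U)) then ((sph T V {y} (ρ + U)).card : ℝ) else 0) ≤
      (X ^ 3 * B2 + 2 * X ^ 2 * B3) / a2 := by
  refine N46_gen hp (by linarith) ha V y (fun t T => en bb (nb T V {y} t))
    (fun _ _ => N46_en_nonneg hb _) (fun U hU T => ?_) (EE_nb_en hp hp1 h hb he hD V y)
  exact N46_en_mono hb (nb_mono (subset_refl T) (subset_refl V) (subset_refl {y}) (by omega))

open Classical in
theorem bad_cross (hp : 0 ≤ p) (hp1 : p ≤ 1 / 2) (h : SigK d p (3 * ρ) σ X) (ha : 0 < a2)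
    (hb : ∀ x, 0 ≤ bb x) (hD : DiaK d σ bb B2 B3 H) (V F : Finset (Vx d)) (hF : Disjoint F V)
    (y : Vx d) :
    ∑ U ∈ range (2 * ρ), EE p (edges V) (fun T =>
      if a2 ≤ ∑ z ∈ nb T V {y} (ρ + U), ∑ z' ∈ F, bb (z - z') then
        ((sph T V {y} (ρ + U)).card : ℝ) else 0) ≤ X * H F.card / a2 := by
  refine N46_gen hp (by linarith) ha V y (fun t T => ∑ z ∈ nb T V {y} t, ∑ z' ∈ F, bb (z - z'))
    (fun _ _ => sum_nonneg fun _ _ => sum_nonneg fun _ _ => hb _) (fun U hU T => ?_)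
    (EE_nb_cross hp hp1 h hb hD V F hF y)
  exact sum_le_sum_of_subset_of_nonneg (nb_mono (subset_refl T) (subset_refl V)
    (subset_refl {y}) (by omega)) fun _ _ _ => sum_nonneg fun _ _ => hb _

open Classical in
/-- The expected number of vertices of a random sphere on a bad step. -/
theorem mean_bad (hp : 0 ≤ p) (hp1 : p ≤ 1 / 2) (h : SigK d p (3 * ρ) σ X) (hρ : 8 ≤ ρ)
    (ha1 : 0 ≤ a1) (ha : 0 < a2)
    (hG : ∀ (V : Finset (Vx d)) (a : Vx d),
      PP p (edges V) {T | (sph T V {a} (ρ / 4)).Nonempty} ≤ G)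
    (hb : ∀ x, 0 ≤ bb x) (he : ∀ x, bb (-x) = bb x) (hD : DiaK d σ bb B2 B3 H)
    (V F : Finset (Vx d)) (hF : Disjoint F V) (y : Vx d) :
    ∑ U ∈ range (2 * ρ), EE p (edges V) (fun T =>
      if Bad bb a1 a2 T V y (ρ + U) F then ((sph T V {y} (ρ + U)).card : ℝ) else 0) ≤
      8 * a1 * X * G / ρ + (X ^ 3 + X ^ 3 * B2 + 2 * X ^ 2 * B3 + X * H F.card) / a2 := by
  have h1 := bad_small hp (by linarith : p ≤ 1) h hρ ha1 hG V y
  have h2 := bad_big hp hp1 h ha V y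
  have h3 := bad_en hp hp1 h ha hb he hD V y
  have h4 := bad_cross hp hp1 h ha hb hD V F hF y
  have h5 : ∀ U ∈ range (2 * ρ), EE p (edges V) (fun T =>
      if Bad bb a1 a2 T V y (ρ + U) F then ((sph T V {y} (ρ + U)).card : ℝ) else 0) ≤
      EE p (edges V) (fun T =>
        if ((nb T V {y} (ρ + U)).card : ℝ) ≤ a1 then ((sph T V {y} (ρ + U)).card : ℝ) else 0) +
      EE p (edges V) (fun T =>
        if a2 ≤ ((nb T V {y} (ρ + U)).card : ℝ) then ((sph T V {y} (ρ + U)).card : ℝ) else 0) +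
      EE p (edges V) (fun T =>
        if a2 ≤ en bb (nb T V {y} (ρ + U)) then ((sph T V {y} (ρ + U)).card : ℝ) else 0) +
      EE p (edges V) (fun T =>
        if a2 ≤ ∑ z ∈ nb T V {y} (ρ + U), ∑ z' ∈ F, bb (z - z') then
          ((sph T V {y} (ρ + U)).card : ℝ) else 0) := by
    intro U _
    rw [← EE_add, ← EE_add, ← EE_add]
    refine EE_mono hp (by linarith) fun T _ => ?_
    have h6 : (0 : ℝ) ≤ ((sph T V {y} (ρ + U)).card : ℝ) := Nat.cast_nonneg _
    have e : ∀ (P : Prop) [Decidable P], (0 : ℝ) ≤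
        (if P then ((sph T V {y} (ρ + U)).card : ℝ) else 0) := by
      intro P _
      split_ifs
      · exact h6
      · exact le_rfl
    have e1 := e (((nb T V {y} (ρ + U)).card : ℝ) ≤ a1)
    have e2 := e (a2 ≤ ((nb T V {y} (ρ + U)).card : ℝ))
    have e3 := e (a2 ≤ en bb (nb T V {y} (ρ + U)))
    have e4 := e (a2 ≤ ∑ z ∈ nb T V {y} (ρ + U), ∑ z' ∈ F, bb (z - z'))
    by_cases hbad : Bad bb a1 a2 T V y (ρ + U) F
    · rw [if_pos hbad]
      rcases hbad with hb1 | hb1 | hb1 | hb1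
      · rw [if_pos hb1]
        linarith
      · rw [if_pos hb1]
        linarith
      · rw [if_pos hb1]
        linarith
      · rw [if_pos hb1]
        linarith
    · rw [if_neg hbad]
      linarith
  refine (sum_le_sum h5).trans ?_
  rw [sum_add_distrib, sum_add_distrib, sum_add_distrib]
  have h6 : (X ^ 3 + X ^ 3 * B2 + 2 * X ^ 2 * B3 + X * H F.card) / a2 =
      X ^ 3 / a2 + (X ^ 3 * B2 + 2 * X ^ 2 * B3) / a2 + X * H F.card / a2 := by ring
  rw [h6]
  linarith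

end Pool.Agent.HD
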