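import Pool.Agent.Lib.MP_8ca597_hd.N46

/-!
# Row N47: the expected number of chains with many bad steps

State of a chain: the fresh domain `V`, the level set `L` (a set of vertices of `V`), the current vertex
`y ∈ L`, the set `F` of the vertices of the good balls so far (disjoint from `V`).
`cnt k T V L y F b` is the mean over the lengths `ρ + U` of the number of chains with `k` further steps,
at least `b` of them bad.
`EE_cnt`: induction on `k`. For fixed `U`, `t = ρ + U`, explore `nb T V L t` (`expl_nb`): the sets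
`sph T V {y} t`, `sph T V L t`, `nb T V {y} t` and `Bad` are determined by the explored edges
(`nb_single_subset`, `nb_eq_of_touch`); the new state has the domain `V' = V \ nb T V L t`, in which
everything is fresh, and `F ∪ nb T V {y} t` is disjoint from `V'`. By the induction hypothesis the
contribution of `U` is at most
`E[∑_{y'} 1_bad] (2 C0)^(k-1) (η/C0)^(b-1) + E[∑_{y'} 1] (2 C0)^(k-1) (η/C0)^b`
(for `b = 0` use the second bound also for the bad steps); mean over `U`.
-/

set_option autoImplicit false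

namespace Pool.Agent.HD

open Finset
open scoped ENNReal

variable {d : ℕ}

open Classical in
/-- The mean number of chains with `k` further steps, at least `b` of them bad. -/
noncomputable def cnt (bb : Vx d → ℝ) (a1 a2 : ℝ) (ρ : ℕ) :
    ℕ → Finset (Ed d) → Finset (Vx d) → Finset (Vx d) → Vx d → Finset (Vx d) → ℕ → ℝ
  | 0, _, _, _, _, _, b => if b = 0 then 1 else 0
  | k + 1, T, V, L, y, F, b =>
    (∑ U ∈ range (2 * ρ), ∑ y' ∈ sph T V {y} (ρ + U) ∩ sph T V L (ρ + U),
      if Bad bb a1 a2 T V y (ρ + U) F then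
        cnt bb a1 a2 ρ k (T ∩ edges (V \ nb T V L (ρ + U))) (V \ nb T V L (ρ + U))
          (sph T V L (ρ + U)) y' F (b - 1)
      else
        cnt bb a1 a2 ρ k (T ∩ edges (V \ nb T V L (ρ + U))) (V \ nb T V L (ρ + U))
          (sph T V L (ρ + U)) y' (F ∪ nb T V {y} (ρ + U)) b) / (2 * ρ)

variable {bb : Vx d → ℝ} {a1 a2 p C0 η MF : ℝ} {ρ : ℕ}

theorem cnt_nonneg (bb : Vx d → ℝ) (a1 a2 : ℝ) (ρ k : ℕ) (T : Finset (Ed d))
    (V L : Finset (Vx d)) (y : Vx d) (F : Finset (Vx d)) (b : ℕ) :
    0 ≤ cnt bb a1 a2 ρ k T V L y F b := by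
  induction k generalizing T V L y F b with
  | zero => rw [cnt]; split_ifs <;> norm_num
  | succ k ih =>
    rw [cnt]
    refine div_nonneg (sum_nonneg fun U _ => sum_nonneg fun y' _ => ?_) (by positivity)
    split_ifs
    · exact ih _ _ _ _ _ _
    · exact ih _ _ _ _ _ _

private theorem N47_sph_inter (T : Finset (Ed d)) (V A : Finset (Vx d)) (s : ℕ) :
    sph (T ∩ edges V) V A s = sph T V A s := by
  rw [sph, sph, nb_inter_edges, nb_inter_edges]

private theorem N47_bad_congr {T T' : Finset (Ed d)} {V : Finset (Vx d)} {y : Vx d} {t : ℕ}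
    (F : Finset (Vx d)) (h : nb T V {y} t = nb T' V {y} t) :
    Bad bb a1 a2 T V y t F ↔ Bad bb a1 a2 T' V y t F := by
  rw [Bad, Bad, h]

private theorem N47_cnt_inter (bb : Vx d → ℝ) (a1 a2 : ℝ) (ρ k : ℕ) (T : Finset (Ed d))
    (V L : Finset (Vx d)) (y : Vx d) (F : Finset (Vx d)) (b : ℕ) :
    cnt bb a1 a2 ρ k (T ∩ edges V) V L y F b = cnt bb a1 a2 ρ k T V L y F b := by
  cases k with
  | zero => rw [cnt, cnt]
  | succ k =>
    rw [cnt, cnt]
    congr 1
    refine sum_congr rfl fun U _ => ?_
    simp only [N47_sph_inter, nb_inter_edges]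
    have h1 : T ∩ edges V ∩ edges (V \ nb T V L (ρ + U)) = T ∩ edges (V \ nb T V L (ρ + U)) := by
      rw [inter_assoc, inter_eq_right.2 (edges_mono sdiff_subset)]
    refine sum_congr rfl fun y' _ => ?_
    rw [h1]
    by_cases hb : Bad bb a1 a2 T V y (ρ + U) F
    · rw [if_pos hb, if_pos ((N47_bad_congr F (nb_inter_edges T V {y} (ρ + U))).2 hb)]
    · rw [if_neg hb, if_neg (fun h => hb ((N47_bad_congr F (nb_inter_edges T V {y} (ρ + U))).1 h))]

theorem depF_cnt (bb : Vx d → ℝ) (a1 a2 : ℝ) (ρ k : ℕ) (V L : Finset (Vx d)) (y : Vx d)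
    (F : Finset (Vx d)) (b : ℕ) :
    DepF (fun T => cnt bb a1 a2 ρ k T V L y F b) (edges V) := by
  intro T T' h
  show cnt bb a1 a2 ρ k T V L y F b = cnt bb a1 a2 ρ k T' V L y F b
  rw [← N47_cnt_inter, h, N47_cnt_inter]

open Classical in
theorem EE_cnt (hp : 0 ≤ p) (hp1 : p ≤ 1) (hρ : 1 ≤ ρ) (hC : 0 < C0) (hη : 0 ≤ η) (hηC : η ≤ C0)
    (ha2 : 0 ≤ a2)
    (h1 : ∀ (V : Finset (Vx d)) (y : Vx d), ∑ U ∈ range (2 * ρ),
      EE p (edges V) (fun T => ((sph T V {y} (ρ + U)).card : ℝ)) ≤ 2 * ρ * C0)
    (h2 : ∀ (V F : Finset (Vx d)) (y : Vx d), Disjoint F V → (F.card : ℝ) ≤ MF →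
      ∑ U ∈ range (2 * ρ), EE p (edges V) (fun T =>
        if Bad bb a1 a2 T V y (ρ + U) F then ((sph T V {y} (ρ + U)).card : ℝ) else 0) ≤
      2 * ρ * η)
    (k : ℕ) (V L F : Finset (Vx d)) (y : Vx d) (b : ℕ) (hy : y ∈ L) (hF : Disjoint F V)
    (hFM : F.card + k * a2 ≤ MF) :
    EE p (edges V) (fun T => cnt bb a1 a2 ρ k T V L y F b) ≤
      (2 * C0) ^ k * (η / C0) ^ b := by
  have hr : 0 ≤ η / C0 := div_nonneg hη hC.le
  induction k generalizing V L F y b with
  | zero =>
    simp only [cnt]
    rw [EE_const, pow_zero, one_mul]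
    split_ifs with hb
    · rw [hb, pow_zero]
    · positivity
  | succ k ih =>
    -- the two bounds
    obtain ⟨A, B, hA, hB, hA0, hB0, hfin⟩ : ∃ A B : ℝ, A = (2 * C0) ^ k * (η / C0) ^ (b - 1) ∧
        B = (2 * C0) ^ k * (η / C0) ^ b ∧ 0 ≤ A ∧ 0 ≤ B ∧ True :=
      ⟨_, _, rfl, rfl, by positivity, by positivity, trivial⟩
    have hρ0 : (0 : ℝ) < 2 * ρ := by
      have : (1 : ℝ) ≤ ρ := by exact_mod_cast hρ
      linarith
    have hFM' : (F.card : ℝ) ≤ MF := by
      have : (0 : ℝ) ≤ ((k + 1 : ℕ) : ℝ) * a2 := by positivity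
      linarith
    -- bound for one length
    have key : ∀ U ∈ range (2 * ρ), EE p (edges V) (fun T =>
        ∑ y' ∈ sph T V {y} (ρ + U) ∩ sph T V L (ρ + U),
          if Bad bb a1 a2 T V y (ρ + U) F then
            cnt bb a1 a2 ρ k (T ∩ edges (V \ nb T V L (ρ + U))) (V \ nb T V L (ρ + U))
              (sph T V L (ρ + U)) y' F (b - 1)
          else
            cnt bb a1 a2 ρ k (T ∩ edges (V \ nb T V L (ρ + U))) (V \ nb T V L (ρ + U))
              (sph T V L (ρ + U)) y' (F ∪ nb T V {y} (ρ + U)) b) ≤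
        EE p (edges V) (fun T =>
          if Bad bb a1 a2 T V y (ρ + U) F then ((sph T V {y} (ρ + U)).card : ℝ) * A
          else ((sph T V {y} (ρ + U)).card : ℝ) * B) := by
      intro U _
      set t := ρ + U with ht
      -- the explored quantities
      have hnb : ∀ T T' : Finset (Ed d), T ∩ touch V (nb T V L t) = T' ∩ touch V (nb T V L t) →
          ∀ i ≤ t + 1, nb T' V L i = nb T V L i := fun T T' h i hi => nb_eq_of_touch h hi
      have htouch : ∀ T : Finset (Ed d), touch V (nb T V {y} t) ⊆ touch V (nb T V L t) := by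
        intro T e he
        rw [touch, mem_filter] at he ⊢
        obtain ⟨x, hx, hxe⟩ := he.2
        exact ⟨he.1, x, nb_single_subset hy T V t hx, hxe⟩
      have hnby : ∀ T T' : Finset (Ed d), T ∩ touch V (nb T V L t) = T' ∩ touch V (nb T V L t) →
          ∀ i ≤ t + 1, nb T' V {y} i = nb T V {y} i := by
        intro T T' h i hi
        refine nb_eq_of_touch ?_ hi
        have h3 := congrArg (· ∩ touch V (nb T V {y} t)) h
        simp only [inter_assoc, inter_eq_right.2 (htouch T)] at h3
        exact h3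
      let g : Finset (Ed d) → Finset (Ed d) → ℝ := fun T1 T2 =>
        ∑ y' ∈ sph T1 V {y} t ∩ sph T1 V L t,
          if Bad bb a1 a2 T1 V y t F then
            cnt bb a1 a2 ρ k T2 (V \ nb T1 V L t) (sph T1 V L t) y' F (b - 1)
          else
            cnt bb a1 a2 ρ k T2 (V \ nb T1 V L t) (sph T1 V L t) y' (F ∪ nb T1 V {y} t) b
      have hself : ∀ T : Finset (Ed d), T ∩ touch V (nb T V L t) =
          (T ∩ touch V (nb T V L t)) ∩ touch V (nb T V L t) := by
        intro T; rw [inter_assoc, inter_self]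
      have hg : ∀ T T2 : Finset (Ed d), g (T ∩ touch V (nb T V L t)) T2 = g T T2 := by
        intro T T2
        have e1 := hnb T _ (hself T) t (by omega)
        have e2 := hnb T _ (hself T) (t + 1) le_rfl
        have e3 := hnby T _ (hself T) t (by omega)
        have e4 := hnby T _ (hself T) (t + 1) le_rfl
        have e5 : sph (T ∩ touch V (nb T V L t)) V L t = sph T V L t := by rw [sph, sph, e1, e2]
        have e6 : sph (T ∩ touch V (nb T V L t)) V {y} t = sph T V {y} t := by
          rw [sph, sph, e3, e4]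
        show (∑ y' ∈ sph (T ∩ touch V (nb T V L t)) V {y} t ∩ sph (T ∩ touch V (nb T V L t)) V L t,
          if Bad bb a1 a2 (T ∩ touch V (nb T V L t)) V y t F then
            cnt bb a1 a2 ρ k T2 (V \ nb (T ∩ touch V (nb T V L t)) V L t)
              (sph (T ∩ touch V (nb T V L t)) V L t) y' F (b - 1)
          else
            cnt bb a1 a2 ρ k T2 (V \ nb (T ∩ touch V (nb T V L t)) V L t)
              (sph (T ∩ touch V (nb T V L t)) V L t) y'
              (F ∪ nb (T ∩ touch V (nb T V L t)) V {y} t) b) = _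
        rw [e1, e3, e5, e6]
        refine sum_congr rfl fun y' _ => ?_
        by_cases hb : Bad bb a1 a2 T V y t F
        · rw [if_pos hb, if_pos ((N47_bad_congr F e3).2 hb)]
        · rw [if_neg hb, if_neg (fun h => hb ((N47_bad_congr F e3).1 h))]
      have hexp := expl_gen p V (fun T => nb T V L t)
        (fun T T' h => hnb T T' h t (by omega)) g
      have h5 : EE p (edges V) (fun T => g (T ∩ touch V (nb T V L t))
          (T ∩ edges (V \ nb T V L t))) = EE p (edges V) (fun T =>
        ∑ y' ∈ sph T V {y} t ∩ sph T V L t,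
          if Bad bb a1 a2 T V y t F then
            cnt bb a1 a2 ρ k (T ∩ edges (V \ nb T V L t)) (V \ nb T V L t)
              (sph T V L t) y' F (b - 1)
          else
            cnt bb a1 a2 ρ k (T ∩ edges (V \ nb T V L t)) (V \ nb T V L t)
              (sph T V L t) y' (F ∪ nb T V {y} t) b) :=
        EE_congr fun T _ => hg T _
      rw [← h5]
      refine (le_of_eq hexp).trans (EE_mono hp hp1 fun T _ => ?_)
      have h6 : EE p (edges (V \ nb T V L t)) (g (T ∩ touch V (nb T V L t))) =
          EE p (edges (V \ nb T V L t)) (g T) := EE_congr fun T2 _ => hg T T2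
      rw [h6]
      show EE p (edges (V \ nb T V L t)) (fun T2 => ∑ y' ∈ sph T V {y} t ∩ sph T V L t,
          if Bad bb a1 a2 T V y t F then
            cnt bb a1 a2 ρ k T2 (V \ nb T V L t) (sph T V L t) y' F (b - 1)
          else
            cnt bb a1 a2 ρ k T2 (V \ nb T V L t) (sph T V L t) y' (F ∪ nb T V {y} t) b) ≤ _
      rw [EE_sum]
      have hcard : ((sph T V {y} t ∩ sph T V L t).card : ℝ) ≤ (sph T V {y} t).card := by
        exact_mod_cast card_le_card inter_subset_left
      by_cases hb : Bad bb a1 a2 T V y t F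
      · simp only [if_pos hb]
        refine (sum_le_card_nsmul _ _ A fun y' hy' => ?_).trans ?_
        · rw [hA]
          exact ih (V \ nb T V L t) (sph T V L t) F y' (b - 1) (mem_inter.1 hy').2
            (hF.mono_right sdiff_subset) (by
              have : ((k + 1 : ℕ) : ℝ) * a2 = k * a2 + a2 := by push_cast; ring
              linarith)
        · rw [nsmul_eq_mul]
          exact mul_le_mul_of_nonneg_right hcard hA0
      · simp only [if_neg hb]
        refine (sum_le_card_nsmul _ _ B fun y' hy' => ?_).trans ?_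
        · rw [hB]
          refine ih (V \ nb T V L t) (sph T V L t) (F ∪ nb T V {y} t) y' b (mem_inter.1 hy').2 ?_ ?_
          · rw [disjoint_union_left]
            refine ⟨hF.mono_right sdiff_subset, ?_⟩
            rw [disjoint_left]
            intro x hx hx2
            exact (mem_sdiff.1 hx2).2 (nb_single_subset hy T V t hx)
          · have h7 : ((nb T V {y} t).card : ℝ) ≤ a2 := by
              by_contra hlt
              push Not at hlt
              exact hb (Or.inr (Or.inl hlt.le))
            have h8 : ((F ∪ nb T V {y} t).card : ℝ) ≤ F.card + (nb T V {y} t).card := by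
              exact_mod_cast card_union_le _ _
            have : ((k + 1 : ℕ) : ℝ) * a2 = k * a2 + a2 := by push_cast; ring
            linarith
        · rw [nsmul_eq_mul]
          exact mul_le_mul_of_nonneg_right hcard hB0
    -- sum over the lengths
    have hsum : EE p (edges V) (fun T => cnt bb a1 a2 ρ (k + 1) T V L y F b) ≤
        (∑ U ∈ range (2 * ρ), EE p (edges V) (fun T =>
          if Bad bb a1 a2 T V y (ρ + U) F then ((sph T V {y} (ρ + U)).card : ℝ) * A
          else ((sph T V {y} (ρ + U)).card : ℝ) * B)) / (2 * ρ) := by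
      simp only [cnt]
      simp only [div_eq_mul_inv]
      rw [EE_mul_const, EE_sum]
      exact mul_le_mul_of_nonneg_right (sum_le_sum key) (by positivity)
    refine hsum.trans ?_
    rw [div_le_iff₀ hρ0]
    rcases Nat.eq_zero_or_pos b with hb | hb
    · have hAB : A = B := by rw [hA, hB, hb]
      have h3 : ∀ U ∈ range (2 * ρ), EE p (edges V) (fun T =>
          if Bad bb a1 a2 T V y (ρ + U) F then ((sph T V {y} (ρ + U)).card : ℝ) * A
          else ((sph T V {y} (ρ + U)).card : ℝ) * B) =
          EE p (edges V) (fun T => ((sph T V {y} (ρ + U)).card : ℝ)) * B := by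
        intro U _
        rw [← EE_mul_const]
        refine EE_congr fun T _ => ?_
        rw [hAB, ite_self]
      rw [sum_congr rfl h3, ← sum_mul]
      refine (mul_le_mul_of_nonneg_right (h1 V y) hB0).trans ?_
      rw [hB, hb, pow_zero, pow_succ]
      have : 0 ≤ (2 * C0) ^ k := by positivity
      nlinarith [mul_nonneg this (mul_nonneg hρ0.le hC.le)]
    · have h3 : ∀ U ∈ range (2 * ρ), EE p (edges V) (fun T =>
          if Bad bb a1 a2 T V y (ρ + U) F then ((sph T V {y} (ρ + U)).card : ℝ) * A
          else ((sph T V {y} (ρ + U)).card : ℝ) * B) ≤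
          EE p (edges V) (fun T =>
            if Bad bb a1 a2 T V y (ρ + U) F then ((sph T V {y} (ρ + U)).card : ℝ) else 0) * A +
          EE p (edges V) (fun T => ((sph T V {y} (ρ + U)).card : ℝ)) * B := by
        intro U _
        rw [← EE_mul_const, ← EE_mul_const, ← EE_add]
        refine EE_mono hp hp1 fun T _ => ?_
        have : (0 : ℝ) ≤ ((sph T V {y} (ρ + U)).card : ℝ) * B := by positivity
        split_ifs
        · linarith
        · linarith
      refine (sum_le_sum h3).trans ?_
      rw [sum_add_distrib, ← sum_mul, ← sum_mul]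
      have h4 := mul_le_mul_of_nonneg_right (h2 V F y hF hFM') hA0
      have h5 := mul_le_mul_of_nonneg_right (h1 V y) hB0
      have h6 : η * A = C0 * B := by
        rw [hA, hB]
        obtain ⟨c, rfl⟩ : ∃ c, b = c + 1 := ⟨b - 1, by omega⟩
        rw [Nat.add_sub_cancel, pow_succ]
        field_simp
      have h7 : (2 * C0) ^ (k + 1) * (η / C0) ^ b * (2 * ρ) = 2 * ρ * (C0 * B) + 2 * ρ * (C0 * B) := by
        rw [hB, pow_succ]; ring
      rw [h7]
      have h8 : 2 * (ρ : ℝ) * η * A = 2 * ρ * (C0 * B) := by rw [mul_assoc, h6]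
      have h9 : 2 * (ρ : ℝ) * C0 * B = 2 * ρ * (C0 * B) := by rw [mul_assoc]
      linarith

end Pool.Agent.HD
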