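import Pool.Agent.Lib.MP_8ca597_hd.N47
import Pool.Agent.Lib.MP_8ca597_hd.S06

/-!
# Row N48: a long cluster of small capacity contains chains with many bad steps

`cap_good`: from `cap_ge` (S06; or directly) `cap ≥ |F|² / (2 (|F| + en F)) ≥ (g a1)² / (2 (g a2 + 3 g a2))`,
monotone in the set.
`en_union`: `en (F ∪ P) = en F + en P + 2 ∑_{z ∈ P} ∑_{z' ∈ F} bb (z - z')` for disjoint `F`, `P`.
`cnt_ge_one`: induction on `k`. Follow the target `v` (`follow` with `s = t = ρ + U ≤ 3 ρ ≤ m`): for every `U`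
the sum over `y'` contains the vertex `y'` on a geodesic from `y` to `v`. If the step is bad, apply
the induction hypothesis with `b - 1`. If it is good, `F ∪ nb T V {y} t` is `(g + 1)`-good and contained
in `D`. For `k = 0`: `g < g1`, so `b = 0`. The mean over `U` of numbers `≥ 1` is `≥ 1` (`ρ ≥ 1`).
-/

set_option autoImplicit false

namespace Pool.Agent.HD

open Finset
open scoped ENNReal

variable {d : ℕ} {bb : Vx d → ℝ} {a1 a2 : ℝ} {ρ : ℕ}

/-- `F` looks like a union of `g` good balls. -/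
structure GoodF (bb : Vx d → ℝ) (a1 a2 : ℝ) (g : ℕ) (F : Finset (Vx d)) : Prop where
  lo : g * a1 ≤ F.card
  hi : (F.card : ℝ) ≤ g * a2
  en : en bb F ≤ 3 * (g * a2)

theorem cap_good (hb : ∀ x, 0 ≤ bb x) (ha1 : 0 ≤ a1) (ha2 : 0 < a2) {g : ℕ}
    {F D : Finset (Vx d)} (h : GoodF bb a1 a2 g F) (hD : F ⊆ D) :
    g * a1 ^ 2 / (8 * a2) ≤ cap bb D := by
  have h1 : cap bb F ≤ cap bb D := by
    unfold cap
    exact Finset.sup'_mono _ (Finset.powerset_mono.2 hD) _
  refine le_trans ?_ h1
  have h0 : 0 ≤ cap bb F := by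
    have h2 : kap bb ∅ ≤ cap bb F :=
      Finset.le_sup' (kap bb) (Finset.empty_mem_powerset F)
    have h3 : kap bb ∅ = 0 := by simp [kap, en]
    rwa [h3] at h2
  rcases Nat.eq_zero_or_pos g with rfl | hg
  · simpa using h0
  have hg' : (0 : ℝ) < g := by exact_mod_cast hg
  have h2 := cap_ge hb F
  have h3 : (g * a1) ^ 2 ≤ (F.card : ℝ) ^ 2 := pow_le_pow_left₀ (by positivity) h.lo 2
  have h4 : 2 * cap bb F * (F.card + en bb F) ≤ 2 * cap bb F * (4 * (g * a2)) := by
    have := h.hi
    have := h.en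
    exact mul_le_mul_of_nonneg_left (by linarith) (by positivity)
  rw [div_le_iff₀ (by positivity)]
  have h5 : g * (g * a1 ^ 2) ≤ g * (cap bb F * (8 * a2)) := by nlinarith
  exact le_of_mul_le_mul_left h5 hg'

theorem en_union (he : ∀ x, bb (-x) = bb x) {F P : Finset (Vx d)} (h : Disjoint F P) :
    en bb (F ∪ P) = en bb F + en bb P + 2 * ∑ z ∈ P, ∑ z' ∈ F, bb (z - z') := by
  classical
  have h1 : ∑ z ∈ F, ∑ z' ∈ (F ∪ P).erase z, bb (z - z') =
      en bb F + ∑ z ∈ F, ∑ z' ∈ P, bb (z - z') := by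
    unfold en
    rw [← Finset.sum_add_distrib]
    refine Finset.sum_congr rfl fun z hz => ?_
    have hzP : z ∉ P := Finset.disjoint_left.1 h hz
    rw [Finset.erase_union_distrib, Finset.erase_eq_of_notMem hzP,
      Finset.sum_union (h.mono_left (Finset.erase_subset _ _))]
  have h2 : ∑ z ∈ P, ∑ z' ∈ (F ∪ P).erase z, bb (z - z') =
      en bb P + ∑ z ∈ P, ∑ z' ∈ F, bb (z - z') := by
    unfold en
    rw [← Finset.sum_add_distrib]
    refine Finset.sum_congr rfl fun z hz => ?_
    have hzF : z ∉ F := Finset.disjoint_right.1 h hz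
    rw [Finset.erase_union_distrib, Finset.erase_eq_of_notMem hzF,
      Finset.sum_union (h.mono_right (Finset.erase_subset _ _)), add_comm]
  have h3 : ∑ z ∈ F, ∑ z' ∈ P, bb (z - z') = ∑ z ∈ P, ∑ z' ∈ F, bb (z - z') := by
    rw [Finset.sum_comm]
    refine Finset.sum_congr rfl fun z _ => Finset.sum_congr rfl fun z' _ => ?_
    rw [← he (z - z'), neg_sub]
  have h4 : en bb (F ∪ P) = ∑ z ∈ F ∪ P, ∑ z' ∈ (F ∪ P).erase z, bb (z - z') := rfl
  rw [h4, Finset.sum_union h, h1, h2, h3]
  ring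

private theorem n48_good (he : ∀ x, bb (-x) = bb x) {T : Finset (Ed d)} {V F : Finset (Vx d)}
    {y : Vx d} {t g : ℕ} (hF : Disjoint F V) (hg : GoodF bb a1 a2 g F)
    (hbad : ¬ Bad bb a1 a2 T V y t F) : GoodF bb a1 a2 (g + 1) (F ∪ nb T V {y} t) := by
  unfold Bad at hbad
  push Not at hbad
  obtain ⟨b1, b2, b3, b4⟩ := hbad
  have hd : Disjoint F (nb T V {y} t) := hF.mono_right (nb_subset T V {y} t)
  have hc : ((F ∪ nb T V {y} t).card : ℝ) = F.card + (nb T V {y} t).card := by
    rw [Finset.card_union_of_disjoint hd]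
    push_cast
    ring
  refine ⟨?_, ?_, ?_⟩
  · rw [hc]
    push_cast
    have := hg.lo
    linarith
  · rw [hc]
    push_cast
    have := hg.hi
    linarith
  · rw [en_union he hd]
    push_cast
    have := hg.en
    linarith

theorem cnt_ge_one (he : ∀ x, bb (-x) = bb x) (hρ : 1 ≤ ρ) (D : Finset (Vx d)) {g1 : ℕ}
    (hD : ∀ g F, g1 ≤ g → F ⊆ D → ¬ GoodF bb a1 a2 g F)
    (k : ℕ) (T : Finset (Ed d)) (V L F : Finset (Vx d)) (y v : Vx d) (b g m : ℕ) (hy : y ∈ L)
    (hF : Disjoint F V) (hg : GoodF bb a1 a2 g F) (hFD : F ⊆ D) (hcl : cl T V y ⊆ D)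
    (hv : v ∈ sph T V {y} m) (hv' : v ∈ sph T V L m) (hm : 3 * ρ * k ≤ m)
    (hb : b = 0 ∨ b + g1 ≤ k + g + 1) :
    1 ≤ cnt bb a1 a2 ρ k T V L y F b := by
  classical
  induction k generalizing T V L F y b g m with
  | zero =>
    have h1 : ¬ g1 ≤ g := fun h => hD g F h hFD hg
    have h2 : b = 0 := by omega
    simp [cnt, h2]
  | succ k ih =>
    have hstep : ∀ U ∈ range (2 * ρ), (1 : ℝ) ≤
        ∑ y' ∈ sph T V {y} (ρ + U) ∩ sph T V L (ρ + U),
          if Bad bb a1 a2 T V y (ρ + U) F then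
            cnt bb a1 a2 ρ k (T ∩ edges (V \ nb T V L (ρ + U))) (V \ nb T V L (ρ + U))
              (sph T V L (ρ + U)) y' F (b - 1)
          else
            cnt bb a1 a2 ρ k (T ∩ edges (V \ nb T V L (ρ + U))) (V \ nb T V L (ρ + U))
              (sph T V L (ρ + U)) y' (F ∪ nb T V {y} (ρ + U)) b := by
      intro U hU
      have hU' := Finset.mem_range.1 hU
      generalize ht : ρ + U = t
      have ht3 : t + 1 ≤ 3 * ρ := by omega
      have hmk : 3 * ρ * (k + 1) = 3 * ρ * k + 3 * ρ := by ring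
      have htm : t ≤ m := by omega
      obtain ⟨y', hy1, hy2, hv1, hv2⟩ := follow hy hv hv' htm
      have hnb : nb T V {y} t ⊆ nb T V L t := nb_single_subset hy T V t
      have hFV : Disjoint F (V \ nb T V L t) := hF.mono_right Finset.sdiff_subset
      have hcl1 : cl (T ∩ edges (V \ nb T V L t)) (V \ nb T V L t) y' ⊆ cl T V y := by
        have h1 : y' ∈ cl T V y := by
          have h2 : y' ∈ nb T V {y} (t + 1) := by
            unfold sph at hy1
            exact (Finset.mem_sdiff.1 hy1).1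
          exact nb_subset_cl T V y (t + 1) h2
        intro z hz
        rw [mem_cl] at h1 hz ⊢
        exact h1.trans (hz.mono Finset.inter_subset_left
          (by exact_mod_cast (Finset.sdiff_subset : V \ nb T V L t ⊆ V)))
      have hcl2 := hcl1.trans hcl
      have hge : (1 : ℝ) ≤ if Bad bb a1 a2 T V y t F then
            cnt bb a1 a2 ρ k (T ∩ edges (V \ nb T V L t)) (V \ nb T V L t)
              (sph T V L t) y' F (b - 1)
          else
            cnt bb a1 a2 ρ k (T ∩ edges (V \ nb T V L t)) (V \ nb T V L t)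
              (sph T V L t) y' (F ∪ nb T V {y} t) b := by
        split_ifs with hbad
        · refine ih (T ∩ edges (V \ nb T V L t)) (V \ nb T V L t) (sph T V L t) F y' (b - 1) g
            (m - t) hy2 hFV hg hFD hcl2 ?_ ?_ (by omega) (by omega)
          · rw [sph_inter_edges]; exact hv1
          · rw [sph_inter_edges]; exact hv2
        · refine ih (T ∩ edges (V \ nb T V L t)) (V \ nb T V L t) (sph T V L t)
            (F ∪ nb T V {y} t) y' b (g + 1)
            (m - t) hy2 ?_ (n48_good he hF hg hbad) ?_ hcl2 ?_ ?_ (by omega) (by omega)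
          · rw [Finset.disjoint_union_left]
            refine ⟨hFV, ?_⟩
            exact (Finset.disjoint_sdiff (s := nb T V L t) (t := V)).mono_left hnb
          · exact Finset.union_subset hFD ((nb_subset_cl T V y t).trans hcl)
          · rw [sph_inter_edges]; exact hv1
          · rw [sph_inter_edges]; exact hv2
      refine hge.trans (Finset.single_le_sum (f := fun y' => if Bad bb a1 a2 T V y t F then
            cnt bb a1 a2 ρ k (T ∩ edges (V \ nb T V L t)) (V \ nb T V L t)
              (sph T V L t) y' F (b - 1)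
          else
            cnt bb a1 a2 ρ k (T ∩ edges (V \ nb T V L t)) (V \ nb T V L t)
              (sph T V L t) y' (F ∪ nb T V {y} t) b) (fun z _ => ?_)
        (Finset.mem_inter.2 ⟨hy1, hy2⟩))
      show 0 ≤ ite _ _ _
      split_ifs
      · exact cnt_nonneg _ _ _ _ _ _ _ _ _ _ _
      · exact cnt_nonneg _ _ _ _ _ _ _ _ _ _ _
    have hρ' : (0 : ℝ) < 2 * ρ := by
      have : (1 : ℝ) ≤ ρ := by exact_mod_cast hρ
      linarith
    rw [cnt, le_div_iff₀ hρ', one_mul]
    have h5 := Finset.sum_le_sum hstep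
    simp only [Finset.sum_const, Finset.card_range, nsmul_eq_mul, mul_one] at h5
    push_cast at h5
    exact h5

/-- If the cluster has radius at least `3 ρ k` and its capacity is small, the mean number of chains
with many bad steps is at least one. -/
theorem cnt_start (hbb : ∀ x, 0 ≤ bb x) (he : ∀ x, bb (-x) = bb x) (hρ : 1 ≤ ρ) (ha1 : 0 ≤ a1)
    (ha2 : 0 < a2) {g1 k : ℕ} {T : Finset (Ed d)} {V : Finset (Vx d)} {o : Vx d}
    (hcap : cap bb (cl T V o) < g1 * a1 ^ 2 / (8 * a2)) (hg : g1 ≤ k + 1)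
    (h : (sph T V {o} (3 * ρ * k)).Nonempty) :
    1 ≤ cnt bb a1 a2 ρ k T V {o} o ∅ (k + 1 - g1) := by
  obtain ⟨v, hv⟩ := h
  refine cnt_ge_one (g1 := g1) he hρ (cl T V o) (fun g F hgg hF hG => ?_) k T V {o} ∅ o v
    (k + 1 - g1) 0 (3 * ρ * k) (Finset.mem_singleton_self o) (Finset.disjoint_empty_left V) ?_
    (Finset.empty_subset _) (Finset.Subset.refl _) hv hv le_rfl (by omega)
  · have h1 := cap_good hbb ha1 ha2 hG hF
    have h2 : (g1 : ℝ) ≤ g := by exact_mod_cast hgg
    have h3 : (g1 : ℝ) * a1 ^ 2 / (8 * a2) ≤ g * a1 ^ 2 / (8 * a2) := by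
      apply div_le_div_of_nonneg_right _ (by positivity)
      exact mul_le_mul_of_nonneg_right h2 (by positivity)
    linarith
  · refine ⟨by simp, by simp, by simp [en]⟩

end Pool.Agent.HD
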