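import Pool.Agent.Lib.MP_8ca597_hd.A05

/-!
# Definitions of part N4: intrinsic balls

`Wk T V n x y`: there is a walk with `n` open steps from `x` to `y` in `V`.
`nb T V A s`: the vertices of `V` at intrinsic distance `< s` from `A`.
`sph T V A s`: the vertices of `V` at intrinsic distance exactly `s` from `A`.
-/

set_option autoImplicit false

namespace Pool.Agent.HD

open Finset
open scoped ENNReal

variable {d : ℕ}

/-- There is a walk with `n` open steps from `x` to `y` in `V`. -/
def Wk (T : Finset (Ed d)) (V : Finset (Vx d)) : ℕ → Vx d → Vx d → Prop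
  | 0, x, y => x ∈ V ∧ x = y
  | n + 1, x, z => ∃ y, Wk T V n x y ∧ Step T V y z

open Classical in
/-- The vertices of `V` at intrinsic distance `< s` from `A`. -/
noncomputable def nb (T : Finset (Ed d)) (V A : Finset (Vx d)) : ℕ → Finset (Vx d)
  | 0 => ∅
  | s + 1 => V.filter fun y => y ∈ A ∨ ∃ x ∈ nb T V A s, Adj x y ∧ s(x, y) ∈ T

open Classical in
/-- The vertices of `V` at intrinsic distance `s` from `A`. -/
noncomputable def sph (T : Finset (Ed d)) (V A : Finset (Vx d)) (s : ℕ) : Finset (Vx d) :=
  nb T V A (s + 1) \ nb T V A s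

end Pool.Agent.HD
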