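import Pool.Agent.Lib.MP_8ca597_hd.SDefs
import Pool.Agent.Lib.MP_8ca597_hd.NDefs

/-!
# Part N: the input from the other parts
-/

set_option autoImplicit false

namespace Pool.Agent.HD

open Finset
open scoped ENNReal

variable {d : ℕ}

/-- The critical two-point function. -/
noncomputable def tc (d : ℕ) (x : Vx d) : ℝ := (tt (pc d) x).toReal

/-- What part N needs from the critical theory: `bb` is the kernel of part S, `C` a large
constant, `c > 0` a small one. -/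
structure NIn (d : ℕ) (bb : Vx d → ℝ) (C c : ℝ) : Prop where
  dpos : 0 < d
  C1 : 1 ≤ C
  c0 : 0 < c
  pc4 : pc d ≤ 1 / 4
  flux : FluxGe d (pc d)
  ker : Ker d (pc d) bb
  grow : ∀ R : ℕ, 1 ≤ R → ∑ x ∈ (Bx d R).erase 0, bb x ≤ C * (R : ℝ) ^ 40
  decay : ∀ x : Vx d, x ≠ 0 → bb x ≤ C / (nm x : ℝ) ^ 800
  /-- the susceptibility -/
  chi : ∀ ε : ℝ, 0 < ε → ε ≤ pc d / 2 → HD.chi d (pc d - ε) ≤ ENNReal.ofReal (C / ε)
  /-- exponential moment (N1.3) -/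
  expm : ∀ ε : ℝ, 0 < ε → ε ≤ pc d / 2 →
    ∑' x : Vx d, ENNReal.ofReal (Real.exp (c * √ε * nm x)) * tt (pc d - ε) x ≤
      ENNReal.ofReal (C / ε)
  /-- the volume at the critical point (A6.2) -/
  vol : ∀ (V : Finset (Vx d)) (a : Vx d) (x : ℝ), 0 < x →
    PP (pc d) (edges V) {T | x ≤ (cl T V a).card} ≤ C / √x
  /-- diagrams -/
  b2 : ∀ (V : Finset (Vx d)) (v : Vx d),
    ∑ x ∈ V, ∑ z ∈ V.erase x, tc d (x - v) * tc d (z - v) * bb (x - z) ≤ C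
  b3 : ∀ (V : Finset (Vx d)) (u : Vx d),
    ∑ v ∈ V, ∑ x ∈ V, ∑ z ∈ V.erase x, tc d (v - u) * tc d (x - u) * tc d (z - v) * bb (x - z) ≤ C
  b4 : ∀ (V F : Finset (Vx d)) (a : Vx d), Disjoint F V →
    ∑ u ∈ V, ∑ z ∈ V, tc d (u - a) * tc d (z - u) * ∑ z' ∈ F, bb (z - z') ≤
      C * √(F.card : ℝ)

end Pool.Agent.HD
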