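import Pool.Agent.Lib.MP_8ca597_hd.N42
import Pool.Agent.Lib.MP_8ca597_hd.N43
import Pool.Agent.Lib.MP_8ca597_hd.N48
import Pool.Agent.Lib.MP_8ca597_hd.NIn
import Pool.Agent.Lib.MP_8ca597_hd.A13

/-!
# Row N49: long clusters of small capacity (THIN)

`p = pc + ε`, `q = pc - ε`, `ρ = ⌊1/ε⌋`, `Θ = exp (24 d)`: `(p/q)^(3 ρ) ≤ Θ`, `(p/pc)^ρ ≤ Θ` (`pc ≥ 1/(2d)`, `ε` small).
`sigK`: `σ x = Θ (tt q x).toReal ≤ Θ tc x`, `X = Θ C / ε ≤ 2 Θ C ρ` (`nb_retain`, `le_tauI`, `tt_neg`..).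
`diaK`: `B2 = Θ² C`, `B3 = Θ³ C`, `H n = Θ² C √n`.
`armK`: `G = Θ * M / (ρ / 4) ≤ 8 Θ M / ρ` (`sph_retain`, `one_arm` with `C1 = C`, `M = 3 (3 (C + 1))³`).
With `a1 = s ρ²`, `a2 = A ρ²` (`mean_bad`) `2 ρ η ≤ C' ρ (s + 1/A + 1/(A ρ) + √MF / (A ρ²))`, `C0 = X / (2 ρ)`;
`MF = k A ρ²`, `k = ⌈2 (C4 + 1) log (1/ε)⌉`: `√MF / ρ² → 0`. Choose `s` small, `A` large, then `ε` small
such that `4 C0 η ≤ e^(-2)`; `η ≤ C0` (if necessary increase `η`).
Slow: `cnt_start` with `g1 = k / 2`, `b = k + 1 - g1 ≥ k / 2`: Markov, `EE_cnt`: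
`≤ (2 C0)^k (η/C0)^b ≤ (4 C0 η)^(k/2) ≤ e^(-k) ≤ ε^(C4 + 1)` (if `2 C0 ≥ 1` and `η ≤ C0`; increase `C0`).
Fast: `x ∈ nb T V {o} (3 ρ k)`: `nb_retain_set` with `Y = {y ∈ V : |y - o| ≥ L}`:
`≤ Θ^k ∑_{|x| ≥ L} tt q x ≤ Θ^k e^(- c √ε L) C / ε ≤ ε^(C4 + 1)` for `L = C3 ε^(-1/2) log (1/ε)`, `C3` large.
If `x ∈ cl T V o` is not in `nb T V {o} (3 ρ k)` then `sph T V {o} (3 ρ k)` is not empty.
Capacity: `g1 a1² / (8 a2) ≥ (k/4) s² ρ² / (8 A) ≥ η' ε^(-2) log (1/ε)`.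
-/

set_option autoImplicit false

namespace Pool.Agent.HD

open Finset
open scoped ENNReal

variable {d : ℕ} {bb : Vx d → ℝ} {C c : ℝ}

/-! ### Elementary facts -/

private theorem pc_ge (h : NIn d bb C c) : 1 / (2 * d) ≤ pc d := by
  have hd : (0 : ℝ) < d := by exact_mod_cast h.dpos
  have h0 : 0 ≤ pc d := Real.sInf_nonneg fun x hx => hx.1.1
  have h1 := h.flux {0} 0 (mem_singleton_self 0)
  have h2 : ∀ q ∈ exits ({0} : Finset (Vx d)) (nbh {0}), tau (pc d) {0} 0 q.1 * pc d = pc d := by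
    intro q hq
    rw [mem_exits] at hq
    have : q.1 = 0 := by simpa using hq.1
    rw [this, tau_self _ (mem_singleton_self 0), one_mul]
  rw [Finset.sum_congr rfl h2, Finset.sum_const, nsmul_eq_mul] at h1
  have h3 : (exits ({0} : Finset (Vx d)) (nbh {0})).card ≤ 2 * d := by
    rw [← card_nbr (0 : Vx d)]
    refine Finset.card_le_card_of_injOn (fun q => q.2) ?_ ?_
    · intro q hq
      have hq' := mem_exits.1 (Finset.mem_coe.1 hq)
      have hq1 : q.1 = 0 := by simpa using hq'.1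
      refine Finset.mem_coe.2 (mem_nbr.2 ?_)
      rw [← hq1]
      exact hq'.2.2.2
    · intro q hq q' hq' he
      have hq1 : q.1 = 0 := by simpa using (mem_exits.1 (Finset.mem_coe.1 hq)).1
      have hq2 : q'.1 = 0 := by simpa using (mem_exits.1 (Finset.mem_coe.1 hq')).1
      exact Prod.ext (hq1.trans hq2.symm) he
  have h4 : ((exits ({0} : Finset (Vx d)) (nbh {0})).card : ℝ) ≤ 2 * d := by exact_mod_cast h3
  rw [div_le_iff₀ (by positivity)]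
  calc (1 : ℝ) ≤ _ := h1
    _ ≤ 2 * d * pc d := mul_le_mul_of_nonneg_right h4 h0
    _ = pc d * (2 * d) := by ring

private theorem pc_pos (h : NIn d bb C c) : 0 < pc d := by
  have hd : (0 : ℝ) < d := by exact_mod_cast h.dpos
  exact lt_of_lt_of_le (by positivity) (pc_ge h)

/-- Elementary facts on `ε` and `ρ`. -/
private structure Eb (d : ℕ) (ε : ℝ) : Prop where
  e0 : 0 < ε
  e16 : ε ≤ 1 / 16
  q0 : 0 < pc d - ε
  p2 : pc d + ε ≤ 1 / 2
  half : ε ≤ pc d / 2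
  r1 : (⌊1 / ε⌋₊ : ℝ) ≤ 1 / ε
  r2 : 1 / (2 * ε) ≤ (⌊1 / ε⌋₊ : ℝ)
  r16 : 16 ≤ ⌊1 / ε⌋₊

private theorem eb (h : NIn d bb C c) {ε : ℝ} (h0 : 0 < ε) (h1 : ε ≤ pc d / 4) : Eb d ε := by
  have hp := pc_pos h
  have hp4 := h.pc4
  have h16 : ε ≤ 1 / 16 := by linarith
  have hinv : (16 : ℝ) ≤ 1 / ε := by
    rw [le_div_iff₀ h0]
    linarith
  have hr1 : (⌊1 / ε⌋₊ : ℝ) ≤ 1 / ε := Nat.floor_le (by positivity)
  have hr2 : 1 / ε < (⌊1 / ε⌋₊ : ℝ) + 1 := Nat.lt_floor_add_one _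
  refine ⟨h0, h16, by linarith, by linarith, by linarith, hr1, ?_, ?_⟩
  · have : 1 / (2 * ε) = 1 / ε / 2 := by
      field_simp
    rw [this]
    linarith
  · exact Nat.le_floor (by exact_mod_cast hinv)

private theorem pt (h : NIn d bb C c) {ε : ℝ} (h0 : 0 < ε) (h1 : ε ≤ pc d / 4) :
    ((pc d + ε) / (pc d - ε)) ^ (3 * ⌊1 / ε⌋₊) ≤ Real.exp (24 * d) := by
  have hb := eb h h0 h1
  have hd : (0 : ℝ) < d := by exact_mod_cast h.dpos
  have hp := pc_ge h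
  have hq : 3 / (8 * d) ≤ pc d - ε := by
    have : 3 / (8 * d) = 3 / 4 * (1 / (2 * d) : ℝ) := by
      field_simp
      norm_num
    rw [this]
    linarith
  have h2 : (pc d + ε) / (pc d - ε) ≤ Real.exp (8 * d * ε) := by
    have h3 : (pc d + ε) / (pc d - ε) = 1 + 2 * ε / (pc d - ε) := by
      have := hb.q0.ne'
      field_simp
      ring
    have h4 : 2 * ε / (pc d - ε) ≤ 8 * d * ε := by
      rw [div_le_iff₀ hb.q0]
      have h5 : 8 * d * ε * (3 / (8 * d)) ≤ 8 * d * ε * (pc d - ε) :=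
        mul_le_mul_of_nonneg_left hq (by positivity)
      have h6 : 8 * d * ε * (3 / (8 * d)) = 3 * ε := by
        field_simp
      linarith
    rw [h3]
    have h7 := Real.add_one_le_exp (8 * d * ε)
    linarith
  calc ((pc d + ε) / (pc d - ε)) ^ (3 * ⌊1 / ε⌋₊) ≤ (Real.exp (8 * d * ε)) ^ (3 * ⌊1 / ε⌋₊) :=
        pow_le_pow_left₀ (div_nonneg (by linarith [hb.q0]) hb.q0.le) h2 _
    _ = Real.exp ((3 * ⌊1 / ε⌋₊ : ℕ) * (8 * d * ε)) := (Real.exp_nat_mul _ _).symm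
    _ ≤ Real.exp (24 * d) := by
        refine Real.exp_le_exp.2 ?_
        have h8 : (⌊1 / ε⌋₊ : ℝ) * ε ≤ 1 := by
          have := mul_le_mul_of_nonneg_right hb.r1 h0.le
          rwa [div_mul_cancel₀ _ h0.ne'] at this
        push_cast
        calc (3 * (⌊1 / ε⌋₊ : ℝ)) * (8 * d * ε) = 24 * d * ((⌊1 / ε⌋₊ : ℝ) * ε) := by ring
          _ ≤ 24 * d * 1 := mul_le_mul_of_nonneg_left h8 (by positivity)
          _ = 24 * d := mul_one _

private theorem ret_div {q p B P : ℝ} {s n : ℕ} (hq : 0 < q) (hqp : q ≤ p) (hs : s ≤ n)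
    (hB : 0 ≤ B) (h : (q / p) ^ s * P ≤ B) : P ≤ (p / q) ^ n * B := by
  have hp : 0 < p := lt_of_lt_of_le hq hqp
  have h1 : (p / q) ^ s * (q / p) ^ s = 1 := by
    rw [← mul_pow]
    have : p / q * (q / p) = 1 := by
      field_simp
    rw [this, one_pow]
  have h2 : 1 ≤ p / q := by
    rw [le_div_iff₀ hq]
    linarith
  calc P = (p / q) ^ s * ((q / p) ^ s * P) := by rw [← mul_assoc, h1, one_mul]
    _ ≤ (p / q) ^ s * B := mul_le_mul_of_nonneg_left h (by positivity)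
    _ ≤ (p / q) ^ n * B := mul_le_mul_of_nonneg_right (pow_le_pow_right₀ h2 hs) hB

private theorem tt_ne_top {q : ℝ} (h0 : 0 ≤ q) (h1 : q ≤ 1) (x : Vx d) : tt q x ≠ ⊤ :=
  ne_top_of_le_ne_top ENNReal.one_ne_top (tauI_le_one h0 h1 _ _ _)

private theorem tau_le_tt {q : ℝ} (h0 : 0 ≤ q) (h1 : q ≤ 1) (V : Finset (Vx d)) (x y : Vx d) :
    tau q V x y ≤ (tt q (y - x)).toReal := by
  refine (ENNReal.ofReal_le_iff_le_toReal (tt_ne_top h0 h1 _)).1 ?_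
  rw [← tauI_univ]
  exact le_tauI q (Set.subset_univ _) x y

private theorem tt_le_tc (h : NIn d bb C c) {ε : ℝ} (h0 : 0 < ε) (h1 : ε ≤ pc d / 4) (x : Vx d) :
    (tt (pc d - ε) x).toReal ≤ tc d x := by
  have hb := eb h h0 h1
  have hp4 := h.pc4
  refine ENNReal.toReal_mono (tt_ne_top (pc_pos h).le (by linarith) x) ?_
  exact tauI_mono_p hb.q0.le (by linarith) (by linarith) _ _ _

/-! ### The inputs -/

theorem pow_tilt (h : NIn d bb C c) : ∃ ε0 : ℝ, 0 < ε0 ∧ ε0 ≤ pc d / 4 ∧ ∀ ε : ℝ, 0 < ε → ε ≤ ε0 →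
    ((pc d + ε) / (pc d - ε)) ^ (3 * ⌊1 / ε⌋₊) ≤ Real.exp (24 * d) := by
  exact ⟨pc d / 4, by linarith [pc_pos h], le_rfl, fun ε h0 h1 => pt h h0 h1⟩

theorem sigK (h : NIn d bb C c) : ∃ ε0 : ℝ, 0 < ε0 ∧ ε0 ≤ pc d / 4 ∧ ∀ ε : ℝ, 0 < ε → ε ≤ ε0 →
    SigK d (pc d + ε) (3 * ⌊1 / ε⌋₊) (fun x => Real.exp (24 * d) * (tt (pc d - ε) x).toReal)
      (Real.exp (24 * d) * (C / ε)) := by
  refine ⟨pc d / 4, by linarith [pc_pos h], le_rfl, fun ε h0 h1 => ?_⟩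
  have hb := eb h h0 h1
  have hq1 : pc d - ε ≤ 1 := by linarith [h.pc4]
  refine ⟨fun x => by positivity, fun V a y => ?_, fun F => ?_⟩
  · obtain ⟨s, hs⟩ : ∃ s, 3 * ⌊1 / ε⌋₊ = s + 1 := ⟨3 * ⌊1 / ε⌋₊ - 1, by
      have := hb.r16
      omega⟩
    have h2 := nb_retain hb.q0.le (by linarith : pc d - ε ≤ pc d + ε) (by linarith [hb.q0])
      (by linarith [hb.p2]) V a y s
    rw [← hs] at h2
    have h3 := ret_div hb.q0 (by linarith : pc d - ε ≤ pc d + ε)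
      (show s ≤ 3 * ⌊1 / ε⌋₊ by omega) (PP_nonneg hb.q0.le hq1) h2
    refine h3.trans (mul_le_mul (pt h h0 h1) (tau_le_tt hb.q0.le hq1 V a y)
      (PP_nonneg hb.q0.le hq1) (Real.exp_pos _).le)
  · rw [← Finset.mul_sum]
    refine mul_le_mul_of_nonneg_left ?_ (Real.exp_pos _).le
    rw [← ENNReal.toReal_sum fun x _ => tt_ne_top hb.q0.le hq1 x]
    have h2 : ∑ x ∈ F, tt (pc d - ε) x ≤ ENNReal.ofReal (C / ε) :=
      (ENNReal.sum_le_tsum F).trans (h.chi ε h0 hb.half)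
    have h3 := ENNReal.toReal_mono ENNReal.ofReal_ne_top h2
    rwa [ENNReal.toReal_ofReal (div_nonneg (by linarith [h.C1]) h0.le)] at h3

theorem diaK (h : NIn d bb C c) : ∀ ε : ℝ, 0 < ε → ε ≤ pc d / 4 →
    DiaK d (fun x => Real.exp (24 * d) * (tt (pc d - ε) x).toReal) bb (Real.exp (24 * d) ^ 2 * C)
      (Real.exp (24 * d) ^ 3 * C) (fun n => Real.exp (24 * d) ^ 2 * C * √(n : ℝ)) := by
  intro ε h0 h1
  have hσ : ∀ x : Vx d, Real.exp (24 * d) * (tt (pc d - ε) x).toReal ≤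
      Real.exp (24 * d) * tc d x := fun x =>
    mul_le_mul_of_nonneg_left (tt_le_tc h h0 h1 x) (Real.exp_pos _).le
  have hσ0 : ∀ x : Vx d, 0 ≤ Real.exp (24 * d) * (tt (pc d - ε) x).toReal := fun x => by
    positivity
  have htc : ∀ x : Vx d, 0 ≤ Real.exp (24 * d) * tc d x := fun x => (hσ0 x).trans (hσ x)
  have hbb := h.ker.nonneg
  refine ⟨fun V v => ?_, fun V u => ?_, fun V F a hF => ?_⟩
  · calc _ ≤ ∑ x ∈ V, ∑ z ∈ V.erase x, (Real.exp (24 * d) * tc d (x - v)) *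
          (Real.exp (24 * d) * tc d (z - v)) * bb (x - z) := by
          refine Finset.sum_le_sum fun x _ => Finset.sum_le_sum fun z _ => ?_
          exact mul_le_mul_of_nonneg_right (mul_le_mul (hσ _) (hσ _) (hσ0 _) (htc _)) (hbb _)
      _ = Real.exp (24 * d) ^ 2 * ∑ x ∈ V, ∑ z ∈ V.erase x,
          tc d (x - v) * tc d (z - v) * bb (x - z) := by
          simp_rw [Finset.mul_sum]
          refine Finset.sum_congr rfl fun x _ => Finset.sum_congr rfl fun z _ => ?_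
          ring
      _ ≤ _ := mul_le_mul_of_nonneg_left (h.b2 V v) (by positivity)
  · calc _ ≤ ∑ v ∈ V, ∑ x ∈ V, ∑ z ∈ V.erase x, (Real.exp (24 * d) * tc d (v - u)) *
          (Real.exp (24 * d) * tc d (x - u)) * (Real.exp (24 * d) * tc d (z - v)) *
          bb (x - z) := by
          refine Finset.sum_le_sum fun v _ => Finset.sum_le_sum fun x _ =>
            Finset.sum_le_sum fun z _ => ?_
          exact mul_le_mul_of_nonneg_right (mul_le_mul (mul_le_mul (hσ _) (hσ _) (hσ0 _)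
            (htc _)) (hσ _) (hσ0 _) (mul_nonneg (htc _) (htc _))) (hbb _)
      _ = Real.exp (24 * d) ^ 3 * ∑ v ∈ V, ∑ x ∈ V, ∑ z ∈ V.erase x,
          tc d (v - u) * tc d (x - u) * tc d (z - v) * bb (x - z) := by
          simp_rw [Finset.mul_sum]
          refine Finset.sum_congr rfl fun v _ => Finset.sum_congr rfl fun x _ =>
            Finset.sum_congr rfl fun z _ => ?_
          ring
      _ ≤ _ := mul_le_mul_of_nonneg_left (h.b3 V u) (by positivity)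
  · calc _ ≤ ∑ u ∈ V, ∑ z ∈ V, (Real.exp (24 * d) * tc d (u - a)) *
          (Real.exp (24 * d) * tc d (z - u)) * ∑ z' ∈ F, bb (z - z') := by
          refine Finset.sum_le_sum fun u _ => Finset.sum_le_sum fun z _ => ?_
          exact mul_le_mul_of_nonneg_right (mul_le_mul (hσ _) (hσ _) (hσ0 _) (htc _))
            (Finset.sum_nonneg fun z' _ => hbb _)
      _ = Real.exp (24 * d) ^ 2 * ∑ u ∈ V, ∑ z ∈ V,
          tc d (u - a) * tc d (z - u) * ∑ z' ∈ F, bb (z - z') := by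
          rw [Finset.mul_sum]
          refine Finset.sum_congr rfl fun u _ => ?_
          rw [Finset.mul_sum]
          refine Finset.sum_congr rfl fun z _ => ?_
          ring
      _ ≤ Real.exp (24 * d) ^ 2 * (C * √(F.card : ℝ)) :=
          mul_le_mul_of_nonneg_left (h.b4 V F a hF) (by positivity)
      _ = _ := by ring

theorem armK (h : NIn d bb C c) : ∃ ε0 : ℝ, 0 < ε0 ∧ ε0 ≤ pc d / 4 ∧ ∀ ε : ℝ, 0 < ε → ε ≤ ε0 →
    ∀ (V : Finset (Vx d)) (a : Vx d),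
      PP (pc d + ε) (edges V) {T | (sph T V {a} (⌊1 / ε⌋₊ / 4)).Nonempty} ≤
        Real.exp (24 * d) * (3 * (3 * (C + 1)) ^ 3) * 8 * ε := by
  refine ⟨pc d / 4, by linarith [pc_pos h], le_rfl, fun ε h0 h1 V a => ?_⟩
  have hb := eb h h0 h1
  have hp := pc_pos h
  have hp1 : pc d ≤ 1 := by linarith [h.pc4]
  have hC := h.C1
  have h2 := sph_retain hp.le (by linarith : pc d ≤ pc d + ε) (by linarith) (by linarith [hb.p2])
    V {a} (⌊1 / ε⌋₊ / 4)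
  have hs1 : 1 ≤ ⌊1 / ε⌋₊ / 4 := by
    have := hb.r16
    omega
  have h3 := one_arm hp.le hp1 hC h.vol V a (⌊1 / ε⌋₊ / 4) hs1
  have hM : (0 : ℝ) < 3 * (3 * (C + 1)) ^ 3 := by positivity
  have h4 := ret_div hp (by linarith : pc d ≤ pc d + ε)
    (show ⌊1 / ε⌋₊ / 4 ≤ 3 * ⌊1 / ε⌋₊ by omega) (PP_nonneg hp.le hp1) h2
  have h5 : ((pc d + ε) / pc d) ^ (3 * ⌊1 / ε⌋₊) ≤ Real.exp (24 * d) := by
    refine le_trans ?_ (pt h h0 h1)
    refine pow_le_pow_left₀ (by positivity) ?_ _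
    exact div_le_div_of_nonneg_left (by linarith) hb.q0 (by linarith)
  have h6 : 3 * (3 * (C + 1)) ^ 3 / ((⌊1 / ε⌋₊ / 4 : ℕ) : ℝ) ≤
      3 * (3 * (C + 1)) ^ 3 * (8 * ε) := by
    rw [div_eq_mul_inv]
    refine mul_le_mul_of_nonneg_left ?_ hM.le
    have h7 : 1 / (8 * ε) ≤ ((⌊1 / ε⌋₊ / 4 : ℕ) : ℝ) := by
      have h8 : ⌊1 / ε⌋₊ ≤ 4 * (⌊1 / ε⌋₊ / 4) + 3 := by omega
      have h9 : (⌊1 / ε⌋₊ : ℝ) ≤ 4 * ((⌊1 / ε⌋₊ / 4 : ℕ) : ℝ) + 3 := by exact_mod_cast h8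
      have h10 : 1 / ε < (⌊1 / ε⌋₊ : ℝ) + 1 := Nat.lt_floor_add_one _
      have h11 : 1 / (8 * ε) = 1 / ε / 8 := by
        field_simp
      have h12 : (16 : ℝ) ≤ 1 / ε := by
        rw [le_div_iff₀ h0]
        linarith [hb.e16]
      rw [h11]
      linarith
    rw [inv_le_comm₀ (by exact_mod_cast hs1) (by positivity), ← one_div]
    exact h7
  calc _ ≤ ((pc d + ε) / pc d) ^ (3 * ⌊1 / ε⌋₊) *
        PP (pc d) (edges V) {T | (sph T V {a} (⌊1 / ε⌋₊ / 4)).Nonempty} := h4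
    _ ≤ Real.exp (24 * d) * (3 * (3 * (C + 1)) ^ 3 * (8 * ε)) :=
        mul_le_mul h5 (h3.trans h6) (PP_nonneg hp.le hp1) (Real.exp_pos _).le
    _ = _ := by ring

/-- The arithmetic of the bad steps. -/
private theorem bad_arith {s A C0 g0 h0 X G B2 B3 ρ k n : ℝ} (hρ : 1 ≤ ρ) (hs : 0 ≤ s)
    (hA : 1 ≤ A) (hX0 : 0 ≤ X) (hX : X ≤ 2 * ρ * C0) (hG0 : 0 ≤ G) (hG : G ≤ g0 / ρ)
    (hB2 : 0 ≤ B2) (hB3 : 0 ≤ B3) (hC0 : 0 ≤ C0)
    (hk : 1 ≤ k) (hn0 : 0 ≤ n) (hn : n ≤ k * (A * ρ ^ 2))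
    (e1 : 8 * s * C0 * g0 ≤ h0 / 4)
    (e2 : 4 * (C0 ^ 3 * (1 + B2) + C0 ^ 2 * B3) ≤ h0 / 4 * A)
    (e3 : C0 * B2 * k ≤ h0 / 4 * ρ) (h00 : 0 ≤ h0) :
    8 * (s * ρ ^ 2) * X * G / ρ + (X ^ 3 + X ^ 3 * B2 + 2 * X ^ 2 * B3 + X * (B2 * √n)) /
      (A * ρ ^ 2) ≤ 2 * ρ * h0 := by
  have hρ0 : 0 < ρ := by linarith
  have hA0 : 0 < A := by linarith
  have hX2 : X ^ 2 ≤ (2 * ρ * C0) ^ 2 := pow_le_pow_left₀ hX0 hX 2
  have hX3 : X ^ 3 ≤ (2 * ρ * C0) ^ 3 := pow_le_pow_left₀ hX0 hX 3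
  -- first term
  have t1 : 8 * (s * ρ ^ 2) * X * G / ρ ≤ 2 * ρ * (h0 / 4) := by
    have hXG : X * G ≤ (2 * ρ * C0) * (g0 / ρ) := mul_le_mul hX hG hG0 (by positivity)
    calc 8 * (s * ρ ^ 2) * X * G / ρ = 8 * s * ρ * (X * G) := by
          field_simp
      _ ≤ 8 * s * ρ * ((2 * ρ * C0) * (g0 / ρ)) :=
          mul_le_mul_of_nonneg_left hXG (by positivity)
      _ = 2 * ρ * (8 * s * C0 * g0) := by
          field_simp
      _ ≤ 2 * ρ * (h0 / 4) := mul_le_mul_of_nonneg_left e1 (by positivity)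
  -- second term
  have t2 : (X ^ 3 + X ^ 3 * B2 + 2 * X ^ 2 * B3) / (A * ρ ^ 2) ≤ 2 * ρ * (h0 / 4) := by
    rw [div_le_iff₀ (by positivity)]
    have i1 : X ^ 3 * (1 + B2) ≤ (2 * ρ * C0) ^ 3 * (1 + B2) :=
      mul_le_mul_of_nonneg_right hX3 (by positivity)
    have i2 : 2 * X ^ 2 * B3 ≤ 2 * (2 * ρ * C0) ^ 2 * B3 :=
      mul_le_mul_of_nonneg_right (by linarith) hB3
    have i3 : 2 * (2 * ρ * C0) ^ 2 * B3 ≤ 8 * ρ ^ 3 * (C0 ^ 2 * B3) := by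
      have : ρ ^ 2 * 1 ≤ ρ ^ 2 * ρ := mul_le_mul_of_nonneg_left hρ (by positivity)
      have h5 : (0 : ℝ) ≤ 8 * (C0 ^ 2 * B3) := by positivity
      calc 2 * (2 * ρ * C0) ^ 2 * B3 = 8 * (C0 ^ 2 * B3) * (ρ ^ 2 * 1) := by ring
        _ ≤ 8 * (C0 ^ 2 * B3) * (ρ ^ 2 * ρ) := mul_le_mul_of_nonneg_left this h5
        _ = 8 * ρ ^ 3 * (C0 ^ 2 * B3) := by ring
    calc X ^ 3 + X ^ 3 * B2 + 2 * X ^ 2 * B3 = X ^ 3 * (1 + B2) + 2 * X ^ 2 * B3 := by ring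
      _ ≤ (2 * ρ * C0) ^ 3 * (1 + B2) + 8 * ρ ^ 3 * (C0 ^ 2 * B3) :=
          add_le_add i1 (i2.trans i3)
      _ = 2 * ρ ^ 3 * (4 * (C0 ^ 3 * (1 + B2) + C0 ^ 2 * B3)) := by ring
      _ ≤ 2 * ρ ^ 3 * (h0 / 4 * A) := mul_le_mul_of_nonneg_left e2 (by positivity)
      _ = 2 * ρ * (h0 / 4) * (A * ρ ^ 2) := by ring
  -- third term
  have t3 : X * (B2 * √n) / (A * ρ ^ 2) ≤ 2 * ρ * (h0 / 4) := by
    rw [div_le_iff₀ (by positivity)]
    have hkA : 1 ≤ k * A := by nlinarith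
    have hsq : √n ≤ k * A * ρ := by
      rw [Real.sqrt_le_left (by positivity)]
      refine hn.trans ?_
      calc k * (A * ρ ^ 2) = (k * A) * 1 * ρ ^ 2 := by ring
        _ ≤ (k * A) * (k * A) * ρ ^ 2 := by
            refine mul_le_mul_of_nonneg_right ?_ (by positivity)
            exact mul_le_mul_of_nonneg_left hkA (by positivity)
        _ = (k * A * ρ) ^ 2 := by ring
    calc X * (B2 * √n) ≤ (2 * ρ * C0) * (B2 * (k * A * ρ)) :=
          mul_le_mul hX (mul_le_mul_of_nonneg_left hsq hB2)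
            (mul_nonneg hB2 (Real.sqrt_nonneg _)) (by positivity)
      _ = 2 * A * ρ ^ 2 * (C0 * B2 * k) := by ring
      _ ≤ 2 * A * ρ ^ 2 * (h0 / 4 * ρ) := mul_le_mul_of_nonneg_left e3 (by positivity)
      _ = 2 * ρ * (h0 / 4) * (A * ρ ^ 2) := by ring
  have hsplit : (X ^ 3 + X ^ 3 * B2 + 2 * X ^ 2 * B3 + X * (B2 * √n)) / (A * ρ ^ 2) =
      (X ^ 3 + X ^ 3 * B2 + 2 * X ^ 2 * B3) / (A * ρ ^ 2) + X * (B2 * √n) / (A * ρ ^ 2) :=
    add_div _ _ _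
  rw [hsplit]
  have : 0 ≤ 2 * ρ * h0 := by positivity
  linarith

private theorem log_le {ε : ℝ} (h0 : 0 < ε) : Real.log (1 / ε) * √ε ≤ 2 := by
  have hs : 0 < √ε := Real.sqrt_pos.2 h0
  have h1 : Real.log (1 / ε) = 2 * Real.log (1 / √ε) := by
    have h2 : (1 : ℝ) / ε = (1 / √ε) ^ 2 := by
      rw [div_pow, one_pow, Real.sq_sqrt h0.le]
    rw [h2, Real.log_pow]
    norm_num
  have h3 : Real.log (1 / √ε) ≤ 1 / √ε := by
    have := Real.log_le_sub_one_of_pos (show 0 < 1 / √ε by positivity)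
    linarith
  rw [h1]
  calc 2 * Real.log (1 / √ε) * √ε ≤ 2 * (1 / √ε) * √ε :=
        mul_le_mul_of_nonneg_right (by linarith) hs.le
    _ = 2 := by
        field_simp

/-- The final bound of the number of chains. -/
private theorem chain_arith {C0 x : ℝ} (hC0 : 1 ≤ C0) {k b : ℕ} (hb : k ≤ 2 * b)
    (hx : x ≤ k) : (2 * C0) ^ k * (Real.exp (-2) / (4 * C0) / C0) ^ b ≤ Real.exp (-x) := by
  have hC : 0 < C0 := by linarith
  have h1 : (2 * C0) ^ k ≤ (2 * C0) ^ (2 * b) := pow_le_pow_right₀ (by linarith) hb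
  calc (2 * C0) ^ k * (Real.exp (-2) / (4 * C0) / C0) ^ b
      ≤ (2 * C0) ^ (2 * b) * (Real.exp (-2) / (4 * C0) / C0) ^ b :=
        mul_le_mul_of_nonneg_right h1 (by positivity)
    _ = (Real.exp (-2)) ^ b := by
        rw [pow_mul, ← mul_pow]
        congr 1
        field_simp
        norm_num
    _ = Real.exp (b * (-2)) := (Real.exp_nat_mul _ _).symm
    _ ≤ Real.exp (-x) := by
        refine Real.exp_le_exp.2 ?_
        have : (k : ℝ) ≤ 2 * b := by exact_mod_cast hb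
        linarith

private theorem rpow_eq {ε a : ℝ} (h0 : 0 < ε) : ε ^ a = Real.exp (-(a * Real.log (1 / ε))) := by
  rw [Real.rpow_def_of_pos h0, one_div, Real.log_inv]
  congr 1
  ring

/-- Slow crossings. -/
theorem thin_slow (h : NIn d bb C c) (C4 : ℝ) (hC4 : 1 ≤ C4) : ∃ κ η ε0 : ℝ, 1 ≤ κ ∧ 0 < η ∧
    0 < ε0 ∧ ε0 ≤ pc d / 4 ∧ ∀ ε : ℝ, 0 < ε → ε ≤ ε0 → ∀ (V : Finset (Vx d)) (o : Vx d),
      PP (pc d + ε) (edges V) {T | (sph T V {o} (3 * ⌊1 / ε⌋₊ * ⌈κ * Real.log (1 / ε)⌉₊)).Nonempty ∧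
        cap bb (cl T V o) < η * Real.log (1 / ε) / ε ^ 2} ≤ ε ^ C4 := by
  classical
  obtain ⟨Θ, hΘ⟩ : ∃ Θ : ℝ, Θ = Real.exp (24 * d) := ⟨_, rfl⟩
  have hΘ1 : 1 ≤ Θ := by
    rw [hΘ]
    exact Real.one_le_exp (by positivity)
  have hC := h.C1
  obtain ⟨C0, hC0⟩ : ∃ C0 : ℝ, C0 = Θ * C := ⟨_, rfl⟩
  have hC01 : 1 ≤ C0 := by
    rw [hC0]
    nlinarith
  obtain ⟨g0, hg0⟩ : ∃ g0 : ℝ, g0 = Θ * (3 * (3 * (C + 1)) ^ 3) * 8 := ⟨_, rfl⟩
  have hg00 : 0 < g0 := by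
    rw [hg0]
    positivity
  obtain ⟨h0, hh0⟩ : ∃ h0 : ℝ, h0 = Real.exp (-2) / (4 * C0) := ⟨_, rfl⟩
  have hh00 : 0 < h0 := by
    rw [hh0]
    positivity
  have hh0C : h0 ≤ C0 := by
    have h1 : Real.exp (-2) ≤ 1 := by
      rw [Real.exp_le_one_iff]
      norm_num
    rw [hh0, div_le_iff₀ (by positivity)]
    nlinarith
  obtain ⟨B2, hB2⟩ : ∃ B2 : ℝ, B2 = Θ ^ 2 * C := ⟨_, rfl⟩
  obtain ⟨B3, hB3⟩ : ∃ B3 : ℝ, B3 = Θ ^ 3 * C := ⟨_, rfl⟩
  have hB20 : 0 < B2 := by rw [hB2]; positivity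
  have hB30 : 0 < B3 := by rw [hB3]; positivity
  obtain ⟨s, hs⟩ : ∃ s : ℝ, s = h0 / (32 * C0 * g0) := ⟨_, rfl⟩
  have hs0 : 0 < s := by rw [hs]; positivity
  obtain ⟨A, hA⟩ : ∃ A : ℝ, A = 1 + 16 * (C0 ^ 3 * (1 + B2) + C0 ^ 2 * B3) / h0 := ⟨_, rfl⟩
  have hA1 : 1 ≤ A := by
    rw [hA]
    have : 0 ≤ 16 * (C0 ^ 3 * (1 + B2) + C0 ^ 2 * B3) / h0 := by positivity
    linarith
  have e1 : 8 * s * C0 * g0 ≤ h0 / 4 := by
    rw [hs]
    apply le_of_eq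
    field_simp
    norm_num
  have e2 : 4 * (C0 ^ 3 * (1 + B2) + C0 ^ 2 * B3) ≤ h0 / 4 * A := by
    rw [hA]
    have : h0 / 4 * (1 + 16 * (C0 ^ 3 * (1 + B2) + C0 ^ 2 * B3) / h0) =
        h0 / 4 + 4 * (C0 ^ 3 * (1 + B2) + C0 ^ 2 * B3) := by
      field_simp
      ring
    rw [this]
    linarith
  have hpc := pc_pos h
  have hC40 : 0 < C4 := by linarith
  obtain ⟨εs, hεs, hεs4, hsig⟩ := sigK h
  obtain ⟨εa, hεa, hεa4, harm⟩ := armK h
  refine ⟨C4, s ^ 2 / (128 * A), min (min εs εa) (min (Real.exp (-2))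
    ((h0 / (32 * C4 * C0 * B2)) ^ 2)), hC4, by positivity, by positivity,
    (min_le_left _ _).trans ((min_le_left _ _).trans hεs4), fun ε he0 he V o => ?_⟩
  have hes : ε ≤ εs := he.trans ((min_le_left _ _).trans (min_le_left _ _))
  have hea : ε ≤ εa := he.trans ((min_le_left _ _).trans (min_le_right _ _))
  have hee : ε ≤ Real.exp (-2) := he.trans ((min_le_right _ _).trans (min_le_left _ _))
  have heb : ε ≤ (h0 / (32 * C4 * C0 * B2)) ^ 2 :=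
    he.trans ((min_le_right _ _).trans (min_le_right _ _))
  have he4 : ε ≤ pc d / 4 := hes.trans hεs4
  have hb := eb h he0 he4
  obtain ⟨ρ, hρ⟩ : ∃ ρ : ℕ, ρ = ⌊1 / ε⌋₊ := ⟨_, rfl⟩
  have hr1 : (ρ : ℝ) ≤ 1 / ε := by rw [hρ]; exact hb.r1
  have hr2 : 1 / (2 * ε) ≤ (ρ : ℝ) := by rw [hρ]; exact hb.r2
  have hr16 : 16 ≤ ρ := by rw [hρ]; exact hb.r16
  have hr1R : (1 : ℝ) ≤ ρ := by
    have : (16 : ℝ) ≤ ρ := by exact_mod_cast hr16
    linarith
  have hr0 : (0 : ℝ) < ρ := by linarith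
  obtain ⟨Lg, hLg⟩ : ∃ Lg : ℝ, Lg = Real.log (1 / ε) := ⟨_, rfl⟩
  have hLg2 : 2 ≤ Lg := by
    rw [hLg, one_div, Real.log_inv]
    have := Real.log_le_log he0 hee
    rw [Real.log_exp] at this
    linarith
  obtain ⟨k, hk⟩ : ∃ k : ℕ, k = ⌈C4 * Real.log (1 / ε)⌉₊ := ⟨_, rfl⟩
  have hk1 : C4 * Lg ≤ k := by
    rw [hk, hLg]
    exact Nat.le_ceil _
  have hk2 : (k : ℝ) < C4 * Lg + 1 := by
    rw [hk, hLg]
    refine Nat.ceil_lt_add_one ?_
    rw [← hLg]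
    positivity
  have hCL : 2 ≤ C4 * Lg := by nlinarith
  have hk3 : (k : ℝ) ≤ 2 * C4 * Lg := by linarith
  have hkR1 : (1 : ℝ) ≤ k := by linarith
  have h1ε : 1 ≤ 2 * ε * ρ := by
    have := mul_le_mul_of_nonneg_left hr2 (show (0 : ℝ) ≤ 2 * ε by positivity)
    rwa [mul_one_div_cancel (by positivity)] at this
  -- the condition on `ε`
  have e3 : C0 * B2 * k ≤ h0 / 4 * ρ := by
    have hsq : √ε ≤ h0 / (32 * C4 * C0 * B2) := by
      rw [Real.sqrt_le_left (by positivity)]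
      exact heb
    have hl := log_le he0
    rw [← hLg] at hl
    have hsε : √ε * √ε = ε := Real.mul_self_sqrt he0.le
    have hsp : 0 < √ε := Real.sqrt_pos.2 he0
    have h5 : Lg * ε ≤ 2 * √ε := by
      calc Lg * ε = (Lg * √ε) * √ε := by rw [mul_assoc, hsε]
        _ ≤ 2 * √ε := mul_le_mul_of_nonneg_right hl hsp.le
    have h6 : C0 * B2 * k * ε ≤ h0 / 8 := by
      calc C0 * B2 * k * ε ≤ C0 * B2 * (2 * C4 * Lg) * ε := by
            refine mul_le_mul_of_nonneg_right ?_ he0.le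
            exact mul_le_mul_of_nonneg_left hk3 (by positivity)
        _ = 2 * C0 * B2 * C4 * (Lg * ε) := by ring
        _ ≤ 2 * C0 * B2 * C4 * (2 * √ε) := mul_le_mul_of_nonneg_left h5 (by positivity)
        _ ≤ 2 * C0 * B2 * C4 * (2 * (h0 / (32 * C4 * C0 * B2))) :=
            mul_le_mul_of_nonneg_left (by linarith) (by positivity)
        _ = h0 / 8 := by
            field_simp
            norm_num
    have h7 : C0 * B2 * k ≤ C0 * B2 * k * (2 * ε * ρ) :=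
      le_mul_of_one_le_right (by positivity) h1ε
    calc C0 * B2 * k ≤ C0 * B2 * k * (2 * ε * ρ) := h7
      _ = 2 * ρ * (C0 * B2 * k * ε) := by ring
      _ ≤ 2 * ρ * (h0 / 8) := mul_le_mul_of_nonneg_left h6 (by positivity)
      _ = h0 / 4 * ρ := by ring
  have hS := hsig ε he0 hes
  have hD := diaK h ε he0 he4
  have hG := harm ε he0 hea
  rw [← hρ, ← hΘ] at hS
  rw [← hΘ] at hD
  rw [← hρ, ← hΘ] at hG
  obtain ⟨X, hX⟩ : ∃ X : ℝ, X = Θ * (C / ε) := ⟨_, rfl⟩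
  rw [← hX] at hS
  have hX0 : 0 ≤ X := by rw [hX]; positivity
  have hXC : X ≤ 2 * ρ * C0 := by
    rw [hX, hC0]
    have : C / ε ≤ 2 * ρ * C := by
      rw [div_le_iff₀ he0]
      nlinarith
    calc Θ * (C / ε) ≤ Θ * (2 * ρ * C) := mul_le_mul_of_nonneg_left this (by linarith)
      _ = 2 * ρ * (Θ * C) := by ring
  have hp0 : 0 ≤ pc d + ε := by linarith
  have hp2 := hb.p2
  have hp1 : pc d + ε ≤ 1 := by linarith
  -- expectations
  have hh1 : ∀ (V : Finset (Vx d)) (y : Vx d), ∑ U ∈ range (2 * ρ),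
      EE (pc d + ε) (edges V) (fun T => ((sph T V {y} (ρ + U)).card : ℝ)) ≤ 2 * ρ * C0 := by
    intro V y
    have := mean_sph hp0 hp1 hS V y 0 (Nat.zero_le _)
    simp only [Nat.sub_zero] at this
    exact this.trans hXC
  have hh2 : ∀ (V F : Finset (Vx d)) (y : Vx d), Disjoint F V →
      (F.card : ℝ) ≤ k * (A * ρ ^ 2) → ∑ U ∈ range (2 * ρ), EE (pc d + ε) (edges V) (fun T =>
        if Bad bb (s * ρ ^ 2) (A * ρ ^ 2) T V y (ρ + U) F then
          ((sph T V {y} (ρ + U)).card : ℝ) else 0) ≤ 2 * ρ * h0 := by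
    intro V F y hF hFM
    have h5 := mean_bad (a1 := s * ρ ^ 2) (a2 := A * ρ ^ 2) hp0 hp2 hS (by omega : 8 ≤ ρ)
      (by positivity) (by positivity) hG h.ker.nonneg h.ker.even hD V F hF y
    refine h5.trans ?_
    have hGr : Θ * (3 * (3 * (C + 1)) ^ 3) * 8 * ε ≤ g0 / ρ := by
      rw [← hg0, le_div_iff₀ hr0, mul_assoc]
      have : ε * ρ ≤ 1 := by
        have h7 := mul_le_mul_of_nonneg_left hr1 he0.le
        rwa [mul_one_div_cancel he0.ne'] at h7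
      calc g0 * (ε * ρ) ≤ g0 * 1 := mul_le_mul_of_nonneg_left this hg00.le
        _ = g0 := mul_one _
    have h6 := bad_arith (s := s) (A := A) (C0 := C0) (g0 := g0) (h0 := h0) (X := X)
      (G := Θ * (3 * (3 * (C + 1)) ^ 3) * 8 * ε) (B2 := B2) (B3 := B3) (ρ := ρ) (k := k)
      (n := F.card) hr1R hs0.le hA1 hX0 hXC (by positivity) hGr hB20.le hB30.le (by linarith)
      hkR1 (by positivity) hFM e1 e2 e3 hh00.le
    rw [hB2, hB3] at h6
    exact h6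
  have hcnt := EE_cnt (bb := bb) (a1 := s * ρ ^ 2) (a2 := A * ρ ^ 2) (C0 := C0) (η := h0)
    (MF := k * (A * ρ ^ 2)) (ρ := ρ) hp0 hp1 (by omega : 1 ≤ ρ) (by linarith) hh00.le hh0C
    (by positivity) hh1 hh2 k V {o} ∅ o (k + 1 - k / 2)
    (mem_singleton_self o) (disjoint_empty_left V) (by simp)
  have hfin : EE (pc d + ε) (edges V)
      (fun T => cnt bb (s * ρ ^ 2) (A * ρ ^ 2) ρ k T V {o} o ∅ (k + 1 - k / 2)) ≤
      Real.exp (-(C4 * Lg)) := by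
    refine hcnt.trans ?_
    rw [hh0]
    exact chain_arith (x := C4 * Lg) hC01 (by omega : k ≤ 2 * (k + 1 - k / 2)) hk1
  rw [rpow_eq he0, ← hρ, ← hk, ← hLg]
  refine le_trans ?_ hfin
  rw [PP_def]
  refine EE_mono hp0 hp1 fun T _ => ?_
  split_ifs with hT
  · refine cnt_start h.ker.nonneg h.ker.even (by omega) (by positivity) (by positivity) ?_
      (by omega) hT.1
    refine lt_of_lt_of_le hT.2 ?_
    have hg1 : Lg / 4 ≤ ((k / 2 : ℕ) : ℝ) := by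
      have h8 : k ≤ 2 * (k / 2) + 1 := by omega
      have h9 : (k : ℝ) ≤ 2 * ((k / 2 : ℕ) : ℝ) + 1 := by exact_mod_cast h8
      have h10 : Lg ≤ C4 * Lg := by nlinarith
      linarith
    have h11 : 1 / (4 * ε ^ 2) ≤ (ρ : ℝ) ^ 2 := by
      have := pow_le_pow_left₀ (by positivity) hr2 2
      refine le_trans (le_of_eq ?_) this
      field_simp
      norm_num
    calc s ^ 2 / (128 * A) * Lg / ε ^ 2 = (s ^ 2 / (8 * A)) * (Lg / 4) * (1 / (4 * ε ^ 2)) := by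
          field_simp
          norm_num
      _ ≤ (s ^ 2 / (8 * A)) * ((k / 2 : ℕ) : ℝ) * (ρ : ℝ) ^ 2 := by
          refine mul_le_mul (mul_le_mul_of_nonneg_left hg1 (by positivity)) h11
            (by positivity) (by positivity)
      _ = ((k / 2 : ℕ) : ℝ) * (s * ρ ^ 2) ^ 2 / (8 * (A * ρ ^ 2)) := by
          field_simp
  · exact cnt_nonneg _ _ _ _ _ _ _ _ _ _ _

/-- Fast crossings. -/
theorem thin_fast (h : NIn d bb C c) (C4 κ : ℝ) (hC4 : 1 ≤ C4) (hκ : 1 ≤ κ) : ∃ C3 ε0 : ℝ,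
    0 < C3 ∧ 0 < ε0 ∧ ε0 ≤ pc d / 4 ∧ ∀ ε : ℝ, 0 < ε → ε ≤ ε0 →
      ∀ (V : Finset (Vx d)) (o : Vx d), PP (pc d + ε) (edges V)
        {T | ∃ x ∈ nb T V {o} (3 * ⌊1 / ε⌋₊ * ⌈κ * Real.log (1 / ε)⌉₊),
          C3 * Real.log (1 / ε) / √ε ≤ nm (x - o)} ≤ ε ^ C4 := by
  classical
  have hC := h.C1
  have hc := h.c0
  have hd : (0 : ℝ) < d := by exact_mod_cast h.dpos
  have hpc := pc_pos h
  refine ⟨(C4 + 48 * d * κ + 2) / c, min (pc d / 4) (min (Real.exp (-1)) (1 / C)),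
    by positivity, by positivity, min_le_left _ _, fun ε he0 he V o => ?_⟩
  have he4 : ε ≤ pc d / 4 := he.trans (min_le_left _ _)
  have hee : ε ≤ Real.exp (-1) := he.trans ((min_le_right _ _).trans (min_le_left _ _))
  have heC : ε ≤ 1 / C := he.trans ((min_le_right _ _).trans (min_le_right _ _))
  have hb := eb h he0 he4
  have hq1 : pc d - ε ≤ 1 := by linarith [h.pc4]
  have hp1 : pc d + ε ≤ 1 := by linarith [hb.p2]
  have hp0 : 0 ≤ pc d + ε := by linarith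
  obtain ⟨Lg, hLg⟩ : ∃ Lg : ℝ, Lg = Real.log (1 / ε) := ⟨_, rfl⟩
  have hLg1 : 1 ≤ Lg := by
    rw [hLg, one_div, Real.log_inv]
    have := Real.log_le_log he0 hee
    rw [Real.log_exp] at this
    linarith
  have hexpL : Real.exp Lg = 1 / ε := by
    rw [hLg, Real.exp_log (by positivity)]
  obtain ⟨k, hk⟩ : ∃ k : ℕ, k = ⌈κ * Real.log (1 / ε)⌉₊ := ⟨_, rfl⟩
  have hk2 : (k : ℝ) < κ * Lg + 1 := by
    rw [hk, hLg]
    refine Nat.ceil_lt_add_one ?_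
    rw [← hLg]
    positivity
  have hkL : 1 ≤ κ * Lg := by nlinarith
  have hk3 : (k : ℝ) ≤ 2 * κ * Lg := by linarith
  have hk1 : 1 ≤ k := by
    have : κ * Lg ≤ k := by
      rw [hk, hLg]
      exact Nat.le_ceil _
    have h2 : (1 : ℝ) ≤ k := hkL.trans this
    exact_mod_cast h2
  rw [← hk, ← hLg]
  obtain ⟨L, hL⟩ : ∃ L : ℝ, L = (C4 + 48 * d * κ + 2) / c * Lg / √ε := ⟨_, rfl⟩
  rw [← hL]
  obtain ⟨s, hs⟩ : ∃ s, 3 * ⌊1 / ε⌋₊ * k = s + 1 := ⟨3 * ⌊1 / ε⌋₊ * k - 1, by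
    have h1 := hb.r16
    have h2 : 0 < 3 * ⌊1 / ε⌋₊ * k := by positivity
    omega⟩
  have hsq : 0 < √ε := Real.sqrt_pos.2 he0
  have hcL : c * √ε * L = (C4 + 48 * d * κ + 2) * Lg := by
    rw [hL]
    field_simp
  -- reduction to a set of vertices
  have h1 : PP (pc d + ε) (edges V) {T | ∃ x ∈ nb T V {o} (3 * ⌊1 / ε⌋₊ * k),
      L ≤ nm (x - o)} ≤ PP (pc d + ε) (edges V)
      {T | ∃ y ∈ V.filter (fun y => L ≤ nm (y - o)), y ∈ nb T V {o} (s + 1)} := by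
    refine PP_mono hp0 hp1 fun T _ hT => ?_
    obtain ⟨x, hx, hxL⟩ := hT
    refine ⟨x, Finset.mem_filter.2 ⟨nb_subset _ _ _ _ hx, hxL⟩, ?_⟩
    rw [← hs]
    exact hx
  have h2 := nb_retain_set hb.q0.le (by linarith : pc d - ε ≤ pc d + ε) (by linarith) hp1 V o
    (V.filter (fun y => L ≤ nm (y - o))) s
  -- the sum over the far vertices
  have h3 : ∑ y ∈ V.filter (fun y => L ≤ nm (y - o)), tau (pc d - ε) V o y ≤
      Real.exp (-(c * √ε * L)) * (C / ε) := by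
    have h4 : ∀ y ∈ V.filter (fun y => L ≤ nm (y - o)), tau (pc d - ε) V o y ≤
        Real.exp (-(c * √ε * L)) * (ENNReal.ofReal (Real.exp (c * √ε * nm (y - o))) *
          tt (pc d - ε) (y - o)).toReal := by
      intro y hy
      have hy2 := (Finset.mem_filter.1 hy).2
      rw [ENNReal.toReal_mul, ENNReal.toReal_ofReal (Real.exp_pos _).le, ← mul_assoc,
        ← Real.exp_add]
      refine (tau_le_tt hb.q0.le hq1 V o y).trans ?_
      refine le_mul_of_one_le_left ENNReal.toReal_nonneg ?_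
      refine Real.one_le_exp ?_
      have : c * √ε * L ≤ c * √ε * nm (y - o) :=
        mul_le_mul_of_nonneg_left hy2 (by positivity)
      linarith
    refine (Finset.sum_le_sum h4).trans ?_
    rw [← Finset.mul_sum]
    refine mul_le_mul_of_nonneg_left ?_ (Real.exp_pos _).le
    rw [← ENNReal.toReal_sum fun y _ =>
      ENNReal.mul_ne_top ENNReal.ofReal_ne_top (tt_ne_top hb.q0.le hq1 _)]
    have h5 : ∑ y ∈ V.filter (fun y => L ≤ nm (y - o)),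
        ENNReal.ofReal (Real.exp (c * √ε * nm (y - o))) * tt (pc d - ε) (y - o) ≤
        ENNReal.ofReal (C / ε) := by
      refine le_trans (ENNReal.sum_le_tsum _) ?_
      refine le_trans (le_of_eq ?_) (h.expm ε he0 hb.half)
      exact (Equiv.subRight o).tsum_eq
        (fun x => ENNReal.ofReal (Real.exp (c * √ε * nm x)) * tt (pc d - ε) x)
    have h6 := ENNReal.toReal_mono ENNReal.ofReal_ne_top h5
    rwa [ENNReal.toReal_ofReal (by positivity)] at h6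
  have h7 := ret_div hb.q0 (by linarith : pc d - ε ≤ pc d + ε)
    (show s ≤ 3 * ⌊1 / ε⌋₊ * k by omega) (by positivity) (h2.trans h3)
  have h8 : ((pc d + ε) / (pc d - ε)) ^ (3 * ⌊1 / ε⌋₊ * k) ≤ Real.exp (48 * d * κ * Lg) := by
    rw [pow_mul]
    calc (((pc d + ε) / (pc d - ε)) ^ (3 * ⌊1 / ε⌋₊)) ^ k ≤ (Real.exp (24 * d)) ^ k :=
          pow_le_pow_left₀ (pow_nonneg (div_nonneg hp0 hb.q0.le) _) (pt h he0 he4) _
      _ = Real.exp (k * (24 * d)) := (Real.exp_nat_mul _ _).symm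
      _ ≤ Real.exp (48 * d * κ * Lg) := by
          refine Real.exp_le_exp.2 ?_
          calc (k : ℝ) * (24 * d) ≤ (2 * κ * Lg) * (24 * d) :=
                mul_le_mul_of_nonneg_right hk3 (by positivity)
            _ = 48 * d * κ * Lg := by ring
  have h9 : C / ε ≤ Real.exp (2 * Lg) := by
    have h10 : C ≤ Real.exp Lg := by
      rw [hexpL, le_div_iff₀ he0]
      have := mul_le_mul_of_nonneg_left heC (show (0 : ℝ) ≤ C by linarith)
      rwa [mul_one_div_cancel (by positivity)] at this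
    calc C / ε = C * (1 / ε) := by ring
      _ ≤ Real.exp Lg * Real.exp Lg := by
          rw [← hexpL]
          exact mul_le_mul_of_nonneg_right h10 (Real.exp_pos _).le
      _ = Real.exp (2 * Lg) := by
          rw [← Real.exp_add]
          congr 1
          ring
  rw [rpow_eq he0, ← hLg]
  calc _ ≤ _ := h1
    _ ≤ ((pc d + ε) / (pc d - ε)) ^ (3 * ⌊1 / ε⌋₊ * k) *
        (Real.exp (-(c * √ε * L)) * (C / ε)) := h7
    _ ≤ Real.exp (48 * d * κ * Lg) * (Real.exp (-(c * √ε * L)) * Real.exp (2 * Lg)) :=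
        mul_le_mul h8 (mul_le_mul_of_nonneg_left h9 (Real.exp_pos _).le) (by positivity)
          (Real.exp_pos _).le
    _ = Real.exp (-(C4 * Lg)) := by
        rw [← Real.exp_add, ← Real.exp_add, hcL]
        congr 1
        ring

/-- The thin lemma. -/
theorem thin (h : NIn d bb C c) (C4 : ℝ) (hC4 : 1 ≤ C4) : ∃ η C3 ε0 : ℝ, 0 < η ∧ 0 < C3 ∧
    0 < ε0 ∧ ε0 ≤ pc d / 4 ∧ ∀ ε : ℝ, 0 < ε → ε ≤ ε0 → ∀ (V : Finset (Vx d)) (o : Vx d),
      PP (pc d + ε) (edges V) {T | (∃ x ∈ cl T V o, C3 * Real.log (1 / ε) / √ε ≤ nm (x - o)) ∧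
        cap bb (cl T V o) < η * Real.log (1 / ε) / ε ^ 2} ≤ ε ^ C4 := by
  obtain ⟨κ, η, ε1, hκ, hη, hε1, hε14, hslow⟩ := thin_slow h (C4 + 1) (by linarith)
  obtain ⟨C3, ε2, hC3, hε2, hε24, hfast⟩ := thin_fast h (C4 + 1) κ (by linarith) hκ
  refine ⟨η, C3, min ε1 ε2, hη, hC3, lt_min hε1 hε2, (min_le_left _ _).trans hε14,
    fun ε he0 he V o => ?_⟩
  have he1 : ε ≤ ε1 := he.trans (min_le_left _ _)
  have he2 : ε ≤ ε2 := he.trans (min_le_right _ _)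
  have hb := eb h he0 (he1.trans hε14)
  have hp0 : 0 ≤ pc d + ε := by linarith [pc_pos h]
  have hp1 : pc d + ε ≤ 1 := by linarith [hb.p2]
  refine (PP_mono hp0 hp1 fun T _ hT => ?_).trans ((PP_union_le hp0 hp1).trans
    ((add_le_add (hslow ε he0 he1 V o) (hfast ε he0 he2 V o)).trans ?_))
  · obtain ⟨⟨x, hx, hxL⟩, hcap⟩ := hT
    by_cases hnb : x ∈ nb T V {o} (3 * ⌊1 / ε⌋₊ * ⌈κ * Real.log (1 / ε)⌉₊)
    · exact Or.inr ⟨x, hnb, hxL⟩
    · refine Or.inl ⟨?_, hcap⟩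
      classical
      have hconn : Conn T V o x := (Finset.mem_filter.1 hx).2
      obtain ⟨n0, -, hn0⟩ := exists_wk hconn
      have hex : ∃ n, Wk T V n o x := ⟨n0, hn0⟩
      have hmin := Nat.find_spec hex
      have hmem : x ∈ sph T V {o} (Nat.find hex) := by
        rw [mem_sph]
        refine ⟨⟨o, mem_singleton_self o, hmin⟩, fun a ha n hn hw => ?_⟩
        rw [mem_singleton] at ha
        subst ha
        exact Nat.find_min hex hn hw
      refine sph_nonempty ⟨x, hmem⟩ ?_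
      by_contra hlt
      push Not at hlt
      exact hnb (mem_nb_single.2 ⟨_, hlt, hmin⟩)
  · rw [Real.rpow_add he0, Real.rpow_one]
    have h1 : 0 < ε ^ C4 := Real.rpow_pos_of_pos he0 _
    have h2 := hb.e16
    nlinarith

end Pool.Agent.HD
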