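import Pool.Agent.Lib.MP_8ca597_hd.N41
import Pool.Agent.Lib.MP_8ca597_hd.A16

/-!
# Row N50: exploration of the cluster through disjoint regions (N5.1)

Strong induction on `|V|`, for all `Y`, `I`, `M`. If `I = ∅` the bound is `1`. If no element of `Y` is in
`V`, `clS T V Y = ∅` and the event is empty. Otherwise let `v ∈ Y ∩ V`.
(a) `v` is in no `S t`, `t ∈ I`: explore `{v}` (`expl_gen` with `K T = {v}`): with `Y' = Y ∪ {u : s(v, u) ∈ T}`,
`clS T V Y = {v} ∪ clS T (V \ {v}) Y'`, and `(V \ {v}).filter (· ∈ S t) = V.filter (· ∈ S t)`.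
(b) `v ∈ S t`, `t ∈ I`: let `W = cl T (V.filter (· ∈ S t)) v` (self-determined by the edges of `V` which
touch `W`: `expl_gen` with `K T = W`), `Y' = Y ∪ {u ∈ V \ S t : s(w, u) ∈ T for some w ∈ W}`:
`clS T V Y = W ∪ clS T (V \ W) Y'`; the clusters in `V.filter (· ∈ S t')` of the vertices outside `W` do not change
(an open edge from `W` to `S t ∩ V` ends in `W`). If `Q W` (probability `≤ π`) forget `t`:
`≤ ∏_{t' ≠ t}`. Otherwise the witness of `t` is outside `W`, and
`|clS T (V \ W) Y' ∩ S t| ≤ M t - |W| ≤ M t - 1`: the bound with `M t - 1` (`M t ≥ 1` since `v ∈ W`).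
-/

set_option autoImplicit false

namespace Pool.Agent.HD

open Finset
open scoped ENNReal

variable {d : ℕ}

open Classical in
/-- The part of `V` in the region `S`. -/
noncomputable def inn (V : Finset (Vx d)) (S : Set (Vx d)) : Finset (Vx d) := V.filter (· ∈ S)

theorem mem_inn {V : Finset (Vx d)} {S : Set (Vx d)} {x : Vx d} :
    x ∈ inn V S ↔ x ∈ V ∧ x ∈ S := by
  classical
  unfold inn
  rw [Finset.mem_filter]

private theorem N50_sub (V : Finset (Vx d)) (S : Set (Vx d)) : inn V S ⊆ V := fun _ hx =>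
  (mem_inn.1 hx).1

open Classical in
theorem clS_peel {T : Finset (Ed d)} {V Y : Finset (Vx d)} {v : Vx d} (hv : v ∈ V)
    (hvY : v ∈ Y) :
    clS T V Y = insert v (clS T (V.erase v) (Y ∪ V.filter fun u => Adj v u ∧ s(v, u) ∈ T)) := by
  ext y
  rw [mem_clS, Finset.mem_insert, mem_clS]
  constructor
  · rintro ⟨b, hb, hbV, hcon⟩
    have hbV' : b ∈ V := by simpa using hbV
    induction hcon with
    | refl =>
      by_cases hbv : b = v
      · exact Or.inl hbv
      · refine Or.inr ⟨b, Finset.mem_union_left _ hb, Conn.refl ?_⟩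
        rw [Finset.mem_coe]
        exact Finset.mem_erase.2 ⟨hbv, hbV'⟩
    | @tail u w _ hs ih =>
      have hwV : w ∈ V := by simpa using hs.1
      by_cases hwv : w = v
      · exact Or.inl hwv
      · right
        have hwE : w ∈ ((V.erase v : Finset (Vx d)) : Set (Vx d)) := by
          rw [Finset.mem_coe]
          exact Finset.mem_erase.2 ⟨hwv, hwV⟩
        rcases ih with rfl | ⟨b', hb', hcon'⟩
        · refine ⟨w, Finset.mem_union_right _ ?_, Conn.refl hwE⟩
          exact Finset.mem_filter.2 ⟨hwV, hs.2.1, hs.2.2⟩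
        · exact ⟨b', hb', hcon'.step hwE hs.2.1 hs.2.2⟩
  · rintro (rfl | ⟨b, hb, hcon⟩)
    · exact ⟨y, hvY, Conn.refl (by simpa using hv)⟩
    · have hcon' : Conn T V b y := hcon.mono (le_refl _) (by
        intro z hz
        rw [Finset.mem_coe] at hz ⊢
        exact Finset.mem_of_mem_erase hz)
      rcases Finset.mem_union.1 hb with hb | hb
      · exact ⟨b, hb, hcon'⟩
      · rw [Finset.mem_filter] at hb
        exact ⟨v, hvY, ((Conn.refl (by simpa using hv)).step (by simpa using hb.1) hb.2.1
          hb.2.2).trans hcon'⟩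

open Classical in
theorem clS_peel_comp {T : Finset (Ed d)} {V Y : Finset (Vx d)} {S : Set (Vx d)} {v : Vx d}
    (hv : v ∈ inn V S) (hvY : v ∈ Y) :
    clS T V Y = cl T (inn V S) v ∪ clS T (V \ cl T (inn V S) v)
      (Y ∪ V.filter fun u => u ∉ S ∧ ∃ w ∈ cl T (inn V S) v, Adj w u ∧ s(w, u) ∈ T) := by
  have hsub : ((inn V S : Finset (Vx d)) : Set (Vx d)) ⊆ V := by
    intro z hz
    rw [Finset.mem_coe] at hz ⊢
    exact N50_sub V S hz
  set W := cl T (inn V S) v with hW
  ext y
  rw [mem_clS, Finset.mem_union, mem_clS]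
  constructor
  · rintro ⟨b, hb, hbV, hcon⟩
    have hbV' : b ∈ V := by simpa using hbV
    induction hcon with
    | refl =>
      by_cases hbv : b ∈ W
      · exact Or.inl hbv
      · refine Or.inr ⟨b, Finset.mem_union_left _ hb, Conn.refl ?_⟩
        rw [Finset.mem_coe]
        exact Finset.mem_sdiff.2 ⟨hbV', hbv⟩
    | @tail u w _ hs ih =>
      have hwV : w ∈ V := by simpa using hs.1
      by_cases hwv : w ∈ W
      · exact Or.inl hwv
      · right
        have hwE : w ∈ ((V \ W : Finset (Vx d)) : Set (Vx d)) := by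
          rw [Finset.mem_coe]
          exact Finset.mem_sdiff.2 ⟨hwV, hwv⟩
        rcases ih with hu | ⟨b', hb', hcon'⟩
        · refine ⟨w, Finset.mem_union_right _ ?_, Conn.refl hwE⟩
          refine Finset.mem_filter.2 ⟨hwV, fun hwS => hwv ?_, u, hu, hs.2.1, hs.2.2⟩
          exact cl_closed hu (mem_inn.2 ⟨hwV, hwS⟩) hs.2.1 hs.2.2
        · exact ⟨b', hb', hcon'.step hwE hs.2.1 hs.2.2⟩
  · rintro (hy | ⟨b, hb, hcon⟩)
    · exact ⟨v, hvY, (mem_cl.1 hy).mono (le_refl _) hsub⟩
    · have hcon' : Conn T V b y := hcon.mono (le_refl _) (by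
        intro z hz
        rw [Finset.mem_coe] at hz ⊢
        exact (Finset.mem_sdiff.1 hz).1)
      rcases Finset.mem_union.1 hb with hb | hb
      · exact ⟨b, hb, hcon'⟩
      · rw [Finset.mem_filter] at hb
        obtain ⟨hbV, -, w, hw, hadj, he⟩ := hb
        exact ⟨v, hvY, (((mem_cl.1 hw).mono (le_refl _) hsub).step (by simpa using hbV) hadj
          he).trans hcon'⟩

/-- The clusters in a region, of vertices outside an explored cluster. -/
theorem cl_inn_sdiff {T : Finset (Ed d)} {V : Finset (Vx d)} {S : Set (Vx d)} {v u : Vx d}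
    (hu : u ∉ cl T (inn V S) v) :
    cl T (inn (V \ cl T (inn V S) v) S) u = cl T (inn V S) u := by
  ext x
  rw [mem_cl, mem_cl]
  constructor
  · intro h
    refine h.mono (le_refl _) ?_
    intro z hz
    rw [Finset.mem_coe, mem_inn, Finset.mem_sdiff] at hz
    rw [Finset.mem_coe, mem_inn]
    exact ⟨hz.1.1, hz.2⟩
  · rintro ⟨huV, h⟩
    have huV' : u ∈ inn V S := by simpa using huV
    induction h with
    | refl =>
      refine Conn.refl ?_
      rw [Finset.mem_coe, mem_inn, Finset.mem_sdiff]
      exact ⟨⟨(mem_inn.1 huV').1, hu⟩, (mem_inn.1 huV').2⟩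
    | @tail a b _ hs ih =>
      have hb : b ∈ inn V S := by simpa using hs.1
      have ha := ih.right
      rw [Finset.mem_coe, mem_inn, Finset.mem_sdiff] at ha
      refine ih.step ?_ hs.2.1 hs.2.2
      rw [Finset.mem_coe, mem_inn, Finset.mem_sdiff]
      refine ⟨⟨(mem_inn.1 hb).1, fun hbW => ha.1.2 ?_⟩, (mem_inn.1 hb).2⟩
      exact cl_closed hbW (mem_inn.2 ⟨ha.1.1, ha.2⟩) hs.2.1.symm
        (by rw [Sym2.eq_swap]; exact hs.2.2)

private theorem N50_cl (T : Finset (Ed d)) {V V' : Finset (Vx d)} (h : V' ⊆ V) (u : Vx d) :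
    cl (T ∩ edges V) V' u = cl T V' u := by
  rw [← cl_inter_edges (T ∩ edges V) V' u, Finset.inter_assoc,
    Finset.inter_eq_right.2 (edges_mono h), cl_inter_edges]

private theorem N50_clS (T : Finset (Ed d)) (V Y : Finset (Vx d)) :
    clS (T ∩ edges V) V Y = clS T V Y := by
  ext y
  rw [mem_clS, mem_clS]
  simp only [conn_inter_edges]

/-- The event. -/
private def N50_E {ι : Type} (Q : Finset (Vx d) → Prop) (S : ι → Set (Vx d))
    (V Y : Finset (Vx d)) (I : Finset ι) (M : ι → ℕ) : Set (Finset (Ed d)) :=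
  {T | ∀ i ∈ I, (inn (clS T V Y) (S i)).card ≤ M i ∧
      ∃ v ∈ inn (clS T V Y) (S i), Q (cl T (inn V (S i)) v)}

private theorem N50_E_inter {ι : Type} (Q : Finset (Vx d) → Prop) (S : ι → Set (Vx d))
    (V Y : Finset (Vx d)) (I : Finset ι) (M : ι → ℕ) (T : Finset (Ed d)) :
    T ∩ edges V ∈ N50_E Q S V Y I M ↔ T ∈ N50_E Q S V Y I M := by
  unfold N50_E
  simp only [Set.mem_setOf_eq, N50_clS, N50_cl T (N50_sub V _)]

/-- Exploration bound. -/
private theorem N50_expl {p : ℝ} (hp : 0 ≤ p) (hp1 : p ≤ 1) (V : Finset (Vx d))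
    (K : Finset (Ed d) → Finset (Vx d))
    (hK : ∀ T T', T ∩ touch V (K T) = T' ∩ touch V (K T) → K T' = K T)
    (A : Set (Finset (Ed d))) (B : Finset (Ed d) → Set (Finset (Ed d)))
    (hAB : ∀ T ∈ A, T ∩ edges (V \ K T) ∈ B (T ∩ touch V (K T))) :
    PP p (edges V) A ≤ EE p (edges V) fun T =>
      PP p (edges (V \ K T)) (B (T ∩ touch V (K T))) := by
  classical
  have h1 := expl_gen p V K hK (fun a b => if b ∈ B a then (1 : ℝ) else 0)
  rw [PP_def]
  refine (EE_mono hp hp1 (g := fun T => if T ∩ edges (V \ K T) ∈ B (T ∩ touch V (K T)) then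
    (1 : ℝ) else 0) fun T _ => ?_).trans (le_of_eq ?_)
  · by_cases hT : T ∈ A
    · simp [hT, hAB T hT]
    · simp only [hT, if_false]
      split_ifs <;> norm_num
  · rw [h1]
    apply EE_congr
    intro T _
    rw [PP_def]

theorem slab_expl {p π : ℝ} (hp : 0 ≤ p) (hp1 : p ≤ 1) (hπ : 0 ≤ π)
    (Q : Finset (Vx d) → Prop)
    (hQ : ∀ (V : Finset (Vx d)) (v : Vx d), v ∈ V → PP p (edges V) {T | Q (cl T V v)} ≤ π)
    {ι : Type} [DecidableEq ι] (S : ι → Set (Vx d)) (hS : ∀ i j, i ≠ j → Disjoint (S i) (S j))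
    (V Y : Finset (Vx d)) (I : Finset ι) (M : ι → ℕ) :
    PP p (edges V) {T | ∀ i ∈ I, (inn (clS T V Y) (S i)).card ≤ M i ∧
      ∃ v ∈ inn (clS T V Y) (S i), Q (cl T (inn V (S i)) v)} ≤ ∏ i ∈ I, (M i * π) := by
  classical
  suffices H : ∀ (n : ℕ) (V Y : Finset (Vx d)) (I : Finset ι) (M : ι → ℕ), V.card = n →
      PP p (edges V) (N50_E Q S V Y I M) ≤ ∏ i ∈ I, (M i * π) from H _ V Y I M rfl
  intro n
  induction n using Nat.strong_induction_on with
  | _ n ih =>
  intro V Y I M hVn
  have hprod : ∀ (J : Finset ι) (M : ι → ℕ), 0 ≤ ∏ i ∈ J, ((M i : ℝ) * π) := fun J M =>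
    Finset.prod_nonneg fun i _ => by positivity
  rcases I.eq_empty_or_nonempty with rfl | ⟨i0, hi0⟩
  · rw [Finset.prod_empty]
    exact PP_le_one hp hp1
  by_cases hex : ∃ v ∈ Y, v ∈ V
  swap
  · -- nothing to explore
    have hemp : N50_E Q S V Y I M = ∅ := by
      ext T
      simp only [Set.mem_empty_iff_false, iff_false]
      intro hT
      obtain ⟨v, hv, -⟩ := (hT i0 hi0).2
      obtain ⟨b, hb, hcon⟩ := mem_clS.1 (mem_inn.1 hv).1
      exact hex ⟨b, hb, by simpa using hcon.left⟩
    rw [hemp, PP_empty]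
    exact hprod I M
  obtain ⟨v, hvY, hvV⟩ := hex
  by_cases hvS : ∀ i ∈ I, v ∉ S i
  · -- case (a)
    have hinn : ∀ i ∈ I, inn V (S i) = inn (V \ {v}) (S i) := by
      intro i hi
      ext x
      rw [mem_inn, mem_inn, Finset.mem_sdiff, Finset.mem_singleton]
      constructor
      · rintro ⟨h1, h2⟩
        exact ⟨⟨h1, fun h => hvS i hi (h ▸ h2)⟩, h2⟩
      · rintro ⟨h1, h2⟩
        exact ⟨h1.1, h2⟩
    have hbound := N50_expl hp hp1 V (fun _ => {v}) (fun _ _ _ => rfl)
      (N50_E Q S V Y I M)
      (fun a => N50_E Q S (V \ {v}) (Y ∪ V.filter fun u => Adj v u ∧ s(v, u) ∈ a) I M) (by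
        intro T hT
        rw [N50_E_inter]
        have hY' : (V.filter fun u => Adj v u ∧ s(v, u) ∈ T ∩ touch V {v}) =
            V.filter fun u => Adj v u ∧ s(v, u) ∈ T := by
          apply Finset.filter_congr
          intro u hu
          rw [Finset.mem_inter]
          constructor
          · rintro ⟨h1, h2, _⟩
            exact ⟨h1, h2⟩
          · rintro ⟨h1, h2⟩
            exact ⟨h1, h2, mem_touch.2 ⟨⟨hvV, hu, h1⟩, Or.inl (Finset.mem_singleton_self v)⟩⟩
        rw [hY']
        intro i hi
        obtain ⟨h1, u, hu, hQu⟩ := hT i hi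
        have hcl := clS_peel (T := T) hvV hvY
        have hinn' : inn (clS T V Y) (S i) = inn (clS T (V \ {v})
            (Y ∪ V.filter fun u => Adj v u ∧ s(v, u) ∈ T)) (S i) := by
          ext x
          rw [mem_inn, mem_inn, hcl, Finset.sdiff_singleton_eq_erase, Finset.mem_insert]
          constructor
          · rintro ⟨rfl | h, hx⟩
            · exact absurd hx (hvS i hi)
            · exact ⟨h, hx⟩
          · rintro ⟨h, hx⟩
            exact ⟨Or.inr h, hx⟩
        rw [hinn'] at h1 hu
        exact ⟨h1, u, hu, by rw [← hinn i hi]; exact hQu⟩)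
    refine hbound.trans ?_
    have hlt : (V \ {v}).card < n := by
      rw [← hVn, Finset.sdiff_singleton_eq_erase]
      exact Finset.card_erase_lt_of_mem hvV
    calc EE p (edges V) (fun T => PP p (edges (V \ {v})) (N50_E Q S (V \ {v})
          (Y ∪ V.filter fun u => Adj v u ∧ s(v, u) ∈ T ∩ touch V {v}) I M))
        ≤ EE p (edges V) (fun _ => ∏ i ∈ I, ((M i : ℝ) * π)) :=
          EE_mono hp hp1 fun T _ => ih _ hlt _ _ _ _ rfl
      _ = _ := EE_const _ _ _
  · -- case (b)
    push Not at hvS
    obtain ⟨t, htI, hvt⟩ := hvS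
    have hvi : v ∈ inn V (S t) := mem_inn.2 ⟨hvV, hvt⟩
    rcases Nat.eq_zero_or_pos (M t) with hM0 | hMpos
    · have hemp : N50_E Q S V Y I M = ∅ := by
        ext T
        simp only [Set.mem_empty_iff_false, iff_false]
        intro hT
        obtain ⟨h1, u, hu, -⟩ := hT t htI
        have := Finset.card_pos.2 ⟨u, hu⟩
        omega
      rw [hemp, PP_empty]
      exact hprod I M
    set K : Finset (Ed d) → Finset (Vx d) := fun T => cl T (inn V (S t)) v with hKdef
    have hsubT : ∀ W : Finset (Vx d), touch (inn V (S t)) W ⊆ touch V W := by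
      intro W e he
      induction e using Sym2.ind with
      | _ x y =>
        obtain ⟨⟨hx, hy, hadj⟩, hxy⟩ := mem_touch.1 he
        exact mem_touch.2 ⟨⟨N50_sub _ _ hx, N50_sub _ _ hy, hadj⟩, hxy⟩
    have hK : ∀ T T', T ∩ touch V (K T) = T' ∩ touch V (K T) → K T' = K T := by
      intro T T' h
      refine cl_eq_of_touch (T := T) (T' := T') ?_ rfl
      have h1 : touch (inn V (S t)) (K T) = touch V (K T) ∩ touch (inn V (S t)) (K T) :=
        (Finset.inter_eq_right.2 (hsubT _)).symm
      show T ∩ touch (inn V (S t)) (K T) = T' ∩ touch (inn V (S t)) (K T)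
      rw [h1, ← Finset.inter_assoc, ← Finset.inter_assoc, h]
    have hKtouch : ∀ T, K (T ∩ touch V (K T)) = K T := by
      intro T
      apply hK
      rw [Finset.inter_assoc, Finset.inter_self]
    have hvK : ∀ T, v ∈ K T := fun T => self_mem_cl hvi
    have hKV : ∀ T, K T ⊆ V := fun T => (cl_subset _ _ _).trans (N50_sub _ _)
    have hKS : ∀ T, ∀ x ∈ K T, x ∈ S t := fun T x hx => (mem_inn.1 (cl_subset _ _ _ hx)).2
    set Y' : Finset (Ed d) → Finset (Vx d) := fun a =>
      Y ∪ V.filter fun u => u ∉ S t ∧ ∃ w ∈ K a, Adj w u ∧ s(w, u) ∈ a with hY'def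
    set M' : ι → ℕ := Function.update M t (M t - 1) with hM'
    -- the new event
    set B : Finset (Ed d) → Set (Finset (Ed d)) := fun a =>
      if Q (K a) then N50_E Q S (V \ K a) (Y' a) (I.erase t) M
      else N50_E Q S (V \ K a) (Y' a) I M' with hB
    have hAB : ∀ T ∈ N50_E Q S V Y I M, T ∩ edges (V \ K T) ∈ B (T ∩ touch V (K T)) := by
      intro T hT
      have hYT : Y' (T ∩ touch V (K T)) =
          Y ∪ V.filter fun u => u ∉ S t ∧ ∃ w ∈ K T, Adj w u ∧ s(w, u) ∈ T := by
        rw [hY'def]
        simp only [hKtouch]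
        congr 1
        apply Finset.filter_congr
        intro u hu
        refine and_congr_right fun _ => ?_
        constructor
        · rintro ⟨w, hw, hadj, he⟩
          exact ⟨w, hw, hadj, (Finset.mem_inter.1 he).1⟩
        · rintro ⟨w, hw, hadj, he⟩
          exact ⟨w, hw, hadj, Finset.mem_inter.2
            ⟨he, mem_touch.2 ⟨⟨hKV T hw, hu, hadj⟩, Or.inl hw⟩⟩⟩
      have hcl : clS T V Y = K T ∪ clS T (V \ K T) (Y' (T ∩ touch V (K T))) := by
        rw [hYT]
        exact clS_peel_comp hvi hvY
      -- regions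
      have hother : ∀ i, i ≠ t → inn (clS T V Y) (S i) =
          inn (clS T (V \ K T) (Y' (T ∩ touch V (K T)))) (S i) := by
        intro i hi
        ext x
        rw [mem_inn, mem_inn, hcl, Finset.mem_union]
        constructor
        · rintro ⟨h | h, hx⟩
          · exact absurd (hKS T x h) (Set.disjoint_left.1 (hS i t hi) hx)
          · exact ⟨h, hx⟩
        · rintro ⟨h, hx⟩
          exact ⟨Or.inr h, hx⟩
      have hother' : ∀ i, i ≠ t → inn (V \ K T) (S i) = inn V (S i) := by
        intro i hi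
        ext x
        rw [mem_inn, mem_inn, Finset.mem_sdiff]
        constructor
        · rintro ⟨h1, h2⟩
          exact ⟨h1.1, h2⟩
        · rintro ⟨h1, h2⟩
          exact ⟨⟨h1, fun h => Set.disjoint_left.1 (hS i t hi) h2 (hKS T x h)⟩, h2⟩
      have hi_other : ∀ i ∈ I, i ≠ t →
          (inn (clS T (V \ K T) (Y' (T ∩ touch V (K T)))) (S i)).card ≤ M i ∧
          ∃ u ∈ inn (clS T (V \ K T) (Y' (T ∩ touch V (K T)))) (S i),
            Q (cl T (inn (V \ K T) (S i)) u) := by
        intro i hi hit
        obtain ⟨h1, u, hu, hQu⟩ := hT i hi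
        rw [hother i hit] at h1 hu
        exact ⟨h1, u, hu, by rw [hother' i hit]; exact hQu⟩
      rw [hB]
      simp only [hKtouch]
      split_ifs with hQK
      · rw [N50_E_inter]
        intro i hi
        exact hi_other i (Finset.mem_of_mem_erase hi) (Finset.ne_of_mem_erase hi)
      · rw [N50_E_inter]
        intro i hi
        by_cases hit : i = t
        · subst hit
          obtain ⟨h1, u, hu, hQu⟩ := hT i hi
          have hsplit : inn (clS T V Y) (S i) = K T ∪
              inn (clS T (V \ K T) (Y' (T ∩ touch V (K T)))) (S i) := by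
            ext x
            rw [mem_inn, Finset.mem_union, mem_inn, hcl, Finset.mem_union]
            constructor
            · rintro ⟨h | h, hx⟩
              · exact Or.inl h
              · exact Or.inr ⟨h, hx⟩
            · rintro (h | ⟨h, hx⟩)
              · exact ⟨Or.inl h, hKS T x h⟩
              · exact ⟨Or.inr h, hx⟩
          have hdisj : Disjoint (K T)
              (inn (clS T (V \ K T) (Y' (T ∩ touch V (K T)))) (S i)) := by
            rw [Finset.disjoint_left]
            intro x hx hx'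
            obtain ⟨b, -, hcon⟩ := mem_clS.1 (mem_inn.1 hx').1
            have := hcon.right
            rw [Finset.mem_coe, Finset.mem_sdiff] at this
            exact this.2 hx
          have hcard : (K T).card +
              (inn (clS T (V \ K T) (Y' (T ∩ touch V (K T)))) (S i)).card ≤ M i := by
            rw [← Finset.card_union_of_disjoint hdisj, ← hsplit]
            exact h1
          have hKpos : 0 < (K T).card := Finset.card_pos.2 ⟨v, hvK T⟩
          refine ⟨?_, ?_⟩
          · rw [hM', Function.update_self]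
            omega
          · rw [hsplit, Finset.mem_union] at hu
            rcases hu with hu | hu
            · exfalso
              apply hQK
              have he : cl T (inn V (S i)) u = K T := by
                have hvu : Conn T (inn V (S i)) v u := mem_cl.1 hu
                ext x
                rw [mem_cl]
                show _ ↔ x ∈ cl T (inn V (S i)) v
                rw [mem_cl]
                exact ⟨fun h => hvu.trans h, fun h => hvu.symm.trans h⟩
              rw [← he]
              exact hQu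
            · refine ⟨u, hu, ?_⟩
              have huK : u ∉ cl T (inn V (S i)) v := Finset.disjoint_right.1 hdisj hu
              have := cl_inn_sdiff huK
              show Q (cl T (inn (V \ cl T (inn V (S i)) v) (S i)) u)
              rw [this]
              exact hQu
        · rw [hM', Function.update_of_ne hit]
          exact hi_other i hi hit
    have hbound := N50_expl hp hp1 V K hK (N50_E Q S V Y I M) B hAB
    refine hbound.trans ?_
    set P' : ℝ := ∏ i ∈ I.erase t, ((M i : ℝ) * π) with hP'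
    have hP'0 : 0 ≤ P' := hprod _ _
    have hM1 : (1 : ℝ) ≤ M t := by exact_mod_cast hMpos
    have hprodM' : ∏ i ∈ I, ((M' i : ℝ) * π) = ((M t : ℝ) - 1) * π * P' := by
      rw [← Finset.mul_prod_erase I _ htI, hM', Function.update_self]
      congr 1
      · rw [Nat.cast_sub hMpos, Nat.cast_one]
      · refine Finset.prod_congr rfl fun i hi => ?_
        rw [Function.update_of_ne (Finset.ne_of_mem_erase hi)]
    have hpoint : ∀ T ⊆ edges V, PP p (edges (V \ K T)) (B (T ∩ touch V (K T))) ≤
        (if Q (K T) then (1 : ℝ) else 0) * P' + ((M t : ℝ) - 1) * π * P' := by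
      intro T _
      have hlt : (V \ K T).card < n := by
        rw [← hVn]
        apply Finset.card_lt_card
        rw [Finset.ssubset_iff_of_subset Finset.sdiff_subset]
        exact ⟨v, hvV, fun h => (Finset.mem_sdiff.1 h).2 (hvK T)⟩
      have hr : 0 ≤ ((M t : ℝ) - 1) * π * P' := by
        have : 0 ≤ (M t : ℝ) - 1 := by linarith
        positivity
      rw [hB]
      simp only [hKtouch]
      split_ifs with hQK
      · rw [one_mul]
        have := ih _ hlt (V \ K T) (Y' (T ∩ touch V (K T))) (I.erase t) M rfl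
        linarith
      · rw [zero_mul, zero_add, ← hprodM']
        exact ih _ hlt (V \ K T) (Y' (T ∩ touch V (K T))) I M' rfl
    refine (EE_mono hp hp1 hpoint).trans ?_
    rw [EE_add, EE_mul_const, EE_const]
    have hPQ : EE p (edges V) (fun T => if Q (K T) then (1 : ℝ) else 0) ≤ π := by
      have h1 : EE p (edges V) (fun T => if Q (K T) then (1 : ℝ) else 0) =
          PP p (edges V) {T | Q (cl T (inn V (S t)) v)} := by
        rw [PP_def]
        apply EE_congr
        intro T _
        simp only [Set.mem_setOf_eq, hKdef]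
      have hdep : Dep {T : Finset (Ed d) | Q (cl T (inn V (S t)) v)} (edges (inn V (S t))) := by
        intro T T' h
        simp only [Set.mem_setOf_eq]
        rw [← cl_inter_edges T, ← cl_inter_edges T', h]
      rw [h1, PP_dep p (edges_mono (N50_sub V (S t))) hdep]
      exact hQ _ _ hvi
    rw [← Finset.mul_prod_erase I _ htI, ← hP']
    have := mul_le_mul_of_nonneg_right hPQ hP'0
    linarith

end Pool.Agent.HD
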