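import Pool.Agent.Lib.MP_8ca597_hd.N50
import Pool.Agent.Lib.MP_8ca597_hd.S06

/-!
# Row N51: crossings of slabs, capacity of separated sets (N5.2, N5.3)

`cross_slab`: on an open path from `a` to `x` take the last vertex `u` with `u i = lo` before the first
vertex with coordinate `hi` (the coordinate changes by at most one in a step).
`cap_sep`: for `t ∈ I` let `Z ⊆ K ∩ S t` with `kap Z = cap (K ∩ S t)` (`exists_cap`) and `|Z|` minimal;
removing `z` from `Z` does not increase `kap`, so `∑ z' ∈ Z.erase z, bb (z - z') ≤ 1`; hence every subset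
`Z'` of `Z` satisfies `en Z' ≤ |Z'|`; choose `|Z'| = ⌈n1⌉` (`|Z| ≥ kap Z ≥ n1`). With `n = ⌈n1⌉` the union `U` of the `Z'`
satisfies `|U| = |I| n`, `en U ≤ |I| n + |I| n² δ ∑_{k ≠ 0} 1/k² ≤ |I| n + 4 |I| n² δ`, so
`kap U ≥ |I| n / 2 - 2 |I| n² δ ≥ |I| n / 4`.
-/

set_option autoImplicit false

namespace Pool.Agent.HD

open Finset
open scoped ENNReal

variable {d : ℕ}

private theorem N51_adj {x y : Vx d} (h : Adj x y) (i : Fin d) : |x i - y i| ≤ 1 := by
  unfold Adj at h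
  rw [← h]
  exact Finset.single_le_sum (f := fun j => |x j - y j|) (fun j _ => abs_nonneg _)
    (Finset.mem_univ i)

theorem cross_slab {T : Finset (Ed d)} {V : Finset (Vx d)} {a x : Vx d} (h : Conn T V a x)
    (i : Fin d) {lo hi : ℤ} (ha : a i ≤ lo) (hlo : lo ≤ hi) (hx : hi ≤ x i) :
    ∃ u v : Vx d, u i = lo ∧ v i = hi ∧ Conn T V a u ∧
      Conn T (inn V {z | lo ≤ z i ∧ z i ≤ hi}) u v := by
  obtain ⟨haV, h⟩ := h
  have key : Conn T V a x ∧ ((∃ u v : Vx d, u i = lo ∧ v i = hi ∧ Conn T V a u ∧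
      Conn T (inn V {z | lo ≤ z i ∧ z i ≤ hi}) u v) ∨ x i < lo ∨ (x i ≤ hi ∧ ∃ u : Vx d,
        u i = lo ∧ Conn T V a u ∧ Conn T (inn V {z | lo ≤ z i ∧ z i ≤ hi}) u x)) := by
    clear hx
    induction h with
    | refl =>
      refine ⟨Conn.refl haV, ?_⟩
      rcases ha.lt_or_eq with ha | ha
      · exact Or.inr (Or.inl ha)
      · refine Or.inr (Or.inr ⟨ha.le.trans hlo, a, ha, Conn.refl haV, Conn.refl ?_⟩)
        rw [Finset.mem_coe, mem_inn]
        exact ⟨by simpa using haV, ha.ge, ha.le.trans hlo⟩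
    | @tail y y' _ hs ih =>
      obtain ⟨hcy, ih⟩ := ih
      have hcy' : Conn T V a y' := hcy.step hs.1 hs.2.1 hs.2.2
      refine ⟨hcy', ?_⟩
      have hstep := abs_le.1 (N51_adj hs.2.1 i)
      rcases ih with hf | hlt | ⟨hyhi, u, hu, hau, huy⟩
      · exact Or.inl hf
      · have h1 : y' i ≤ lo := by omega
        rcases h1.lt_or_eq with h1 | h1
        · exact Or.inr (Or.inl h1)
        · refine Or.inr (Or.inr ⟨h1.le.trans hlo, y', h1, hcy', Conn.refl ?_⟩)
          rw [Finset.mem_coe, mem_inn]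
          exact ⟨by simpa using hs.1, h1.ge, h1.le.trans hlo⟩
      · rcases hyhi.lt_or_eq with hy | hy
        · by_cases hlo' : y' i < lo
          · exact Or.inr (Or.inl hlo')
          · refine Or.inr (Or.inr ⟨by omega, u, hu, hau, huy.step ?_ hs.2.1 hs.2.2⟩)
            rw [Finset.mem_coe, mem_inn]
            exact ⟨by simpa using hs.1, not_lt.1 hlo', by omega⟩
        · exact Or.inl ⟨u, y, hu, hy, hau, huy⟩
  rcases key.2 with hf | hlt | ⟨hxhi, u, hu, hau, hux⟩
  · exact hf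
  · omega
  · exact ⟨u, x, hu, le_antisymm hxhi hx, hau, hux⟩

/-- The sum of the inverse squares. -/
private theorem N51_sum (J : Finset ℕ) (i : ℕ) (hi : i ∉ J) :
    ∑ j ∈ J, 1 / ((i : ℝ) - j) ^ 2 ≤ 4 := by
  classical
  rw [← Finset.sum_filter_add_sum_filter_not J (fun j => j < i)]
  have hbase : ∀ F : Finset ℕ, (∀ k ∈ F, 0 < k) → ∑ k ∈ F, ((k : ℝ) ^ 2)⁻¹ ≤ 2 := by
    intro F hF
    have h1 : F ⊆ Finset.Ioo 0 (F.sup id + 1) := by
      intro k hk
      rw [Finset.mem_Ioo]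
      exact ⟨hF k hk, Nat.lt_succ_of_le (Finset.le_sup (f := id) hk)⟩
    refine (Finset.sum_le_sum_of_subset_of_nonneg h1 fun k _ _ => by positivity).trans ?_
    have := sum_Ioo_inv_sq_le (α := ℝ) 0 (F.sup id + 1)
    simpa using this
  have hA : ∑ j ∈ J.filter (fun j => j < i), 1 / ((i : ℝ) - j) ^ 2 ≤ 2 := by
    have hinj : Set.InjOn (fun j => i - j) (J.filter (fun j => j < i) : Finset ℕ) := by
      intro a ha b hb hab
      rw [Finset.mem_coe, Finset.mem_filter] at ha hb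
      have : i - a = i - b := hab
      omega
    have h1 : ∑ j ∈ J.filter (fun j => j < i), 1 / ((i : ℝ) - j) ^ 2 =
        ∑ k ∈ (J.filter (fun j => j < i)).image (fun j => i - j), ((k : ℝ) ^ 2)⁻¹ := by
      rw [Finset.sum_image hinj]
      refine Finset.sum_congr rfl fun j hj => ?_
      rw [Finset.mem_filter] at hj
      rw [Nat.cast_sub hj.2.le, one_div]
    rw [h1]
    apply hbase
    intro k hk
    obtain ⟨j, hj, rfl⟩ := Finset.mem_image.1 hk
    rw [Finset.mem_filter] at hj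
    omega
  have hB : ∑ j ∈ J.filter (fun j => ¬ j < i), 1 / ((i : ℝ) - j) ^ 2 ≤ 2 := by
    have hlt : ∀ j ∈ J.filter (fun j => ¬ j < i), i < j := by
      intro j hj
      rw [Finset.mem_filter] at hj
      have : j ≠ i := fun h => hi (h ▸ hj.1)
      omega
    have hinj : Set.InjOn (fun j => j - i) (J.filter (fun j => ¬ j < i) : Finset ℕ) := by
      intro a ha b hb hab
      have h1 := hlt a ha
      have h2 := hlt b hb
      have : a - i = b - i := hab
      omega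
    have h1 : ∑ j ∈ J.filter (fun j => ¬ j < i), 1 / ((i : ℝ) - j) ^ 2 =
        ∑ k ∈ (J.filter (fun j => ¬ j < i)).image (fun j => j - i), ((k : ℝ) ^ 2)⁻¹ := by
      rw [Finset.sum_image hinj]
      refine Finset.sum_congr rfl fun j hj => ?_
      rw [Nat.cast_sub (hlt j hj).le, one_div]
      congr 1
      ring
    rw [h1]
    apply hbase
    intro k hk
    obtain ⟨j, hj, rfl⟩ := Finset.mem_image.1 hk
    have := hlt j hj
    omega
  linarith

/-- A good subset of every slab. -/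
private theorem N51_good {bb : Vx d → ℝ} (hb : ∀ x, 0 ≤ bb x) (he : ∀ x, bb (-x) = bb x)
    (A : Finset (Vx d)) {n1 : ℝ} (hc : n1 ≤ cap bb A) :
    ∃ Z ⊆ A, Z.card = ⌈n1⌉₊ ∧ ∀ z ∈ Z, ∑ z' ∈ Z.erase z, bb (z - z') ≤ 1 := by
  classical
  obtain ⟨Z, hZ, hkap⟩ := exists_cap bb A
  have h1 : ∀ z ∈ Z, ∑ z' ∈ Z.erase z, bb (z - z') ≤ 1 := by
    intro z hz
    have h2 := kap_insert he (Finset.notMem_erase z Z)
    rw [Finset.insert_erase hz, hkap] at h2
    have h3 : kap bb (Z.erase z) ≤ cap bb A :=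
      kap_le_cap bb ((Finset.erase_subset _ _).trans hZ)
    linarith
  have h2 : n1 ≤ Z.card := by
    have h3 : kap bb Z ≤ Z.card := by
      unfold kap
      have := en_nonneg hb Z
      linarith
    linarith
  have h3 : ⌈n1⌉₊ ≤ Z.card := Nat.ceil_le.2 h2
  obtain ⟨Z', hZ', hcard⟩ := Finset.exists_subset_card_eq h3
  refine ⟨Z', hZ'.trans hZ, hcard, fun z hz => ?_⟩
  refine le_trans ?_ (h1 z (hZ' hz))
  exact Finset.sum_le_sum_of_subset_of_nonneg (Finset.erase_subset_erase z hZ')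
    fun _ _ _ => hb _

/-- The capacity of a set which contains many separated sets of large capacity. -/
theorem cap_sep {bb : Vx d → ℝ} (hb : ∀ x, 0 ≤ bb x) (he : ∀ x, bb (-x) = bb x)
    (K : Finset (Vx d)) (I : Finset ℕ) (S : ℕ → Set (Vx d)) {n1 δ : ℝ} (hn : 0 < n1)
    (hδ : 0 ≤ δ) (hδ' : 8 * (n1 + 1) * δ ≤ 1)
    (hS : ∀ i ∈ I, ∀ j ∈ I, i ≠ j → ∀ z ∈ S i, ∀ z' ∈ S j,
      z ≠ z' ∧ bb (z - z') ≤ δ / ((i : ℝ) - j) ^ 2)
    (hc : ∀ i ∈ I, n1 ≤ cap bb (inn K (S i))) :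
    I.card * n1 / 4 ≤ cap bb K := by
  classical
  have hex : ∀ i : ℕ, ∃ Z : Finset (Vx d), i ∈ I → Z ⊆ inn K (S i) ∧ Z.card = ⌈n1⌉₊ ∧
      ∀ z ∈ Z, ∑ z' ∈ Z.erase z, bb (z - z') ≤ 1 := by
    intro i
    by_cases hi : i ∈ I
    · obtain ⟨Z, h1, h2, h3⟩ := N51_good hb he (inn K (S i)) (hc i hi)
      exact ⟨Z, fun _ => ⟨h1, h2, h3⟩⟩
    · exact ⟨∅, fun h => absurd h hi⟩
  choose Z hZ using hex
  set n : ℕ := ⌈n1⌉₊ with hndef
  have hn1 : n1 ≤ n := Nat.le_ceil n1
  have hn2 : (n : ℝ) ≤ n1 + 1 := (Nat.ceil_lt_add_one hn.le).le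
  have hn0 : (0 : ℝ) ≤ n := by positivity
  have hdisj : ∀ i ∈ I, ∀ j ∈ I, i ≠ j → Disjoint (Z i) (Z j) := by
    intro i hi j hj hij
    rw [Finset.disjoint_left]
    intro z hz hz'
    exact (hS i hi j hj hij z (mem_inn.1 ((hZ i hi).1 hz)).2 z
      (mem_inn.1 ((hZ j hj).1 hz')).2).1 rfl
  have hpd : (I : Set ℕ).PairwiseDisjoint Z := by
    intro i hi j hj hij
    exact hdisj i hi j hj hij
  set U : Finset (Vx d) := I.biUnion Z with hU
  have hUK : U ⊆ K := by
    intro z hz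
    obtain ⟨i, hi, hz⟩ := Finset.mem_biUnion.1 hz
    exact (mem_inn.1 ((hZ i hi).1 hz)).1
  have hUcard : (U.card : ℝ) = I.card * n := by
    rw [hU, Finset.card_biUnion hdisj, Finset.sum_congr rfl fun i hi => (hZ i hi).2.1,
      Finset.sum_const, smul_eq_mul]
    push_cast
    ring
  -- the energy
  have hrow : ∀ i ∈ I, ∀ z ∈ Z i, ∑ z' ∈ U.erase z, bb (z - z') ≤ 1 + 4 * n * δ := by
    intro i hi z hz
    have hsub : U.erase z ⊆ (Z i).erase z ∪ (I.erase i).biUnion Z := by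
      intro z' hz'
      rw [Finset.mem_erase, hU, Finset.mem_biUnion] at hz'
      obtain ⟨hne, j, hj, hzj⟩ := hz'
      rw [Finset.mem_union, Finset.mem_erase, Finset.mem_biUnion]
      by_cases hji : j = i
      · subst hji
        exact Or.inl ⟨hne, hzj⟩
      · exact Or.inr ⟨j, Finset.mem_erase.2 ⟨hji, hj⟩, hzj⟩
    have h1 : ∑ z' ∈ U.erase z, bb (z - z') ≤
        ∑ z' ∈ (Z i).erase z, bb (z - z') + ∑ z' ∈ (I.erase i).biUnion Z, bb (z - z') := by
      refine (Finset.sum_le_sum_of_subset_of_nonneg hsub fun _ _ _ => hb _).trans ?_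
      have h2 := Finset.sum_union_inter (s₁ := (Z i).erase z) (s₂ := (I.erase i).biUnion Z)
        (f := fun z' => bb (z - z'))
      have h3 : 0 ≤ ∑ z' ∈ (Z i).erase z ∩ (I.erase i).biUnion Z, bb (z - z') :=
        Finset.sum_nonneg fun _ _ => hb _
      linarith
    have h2 : ∑ z' ∈ (I.erase i).biUnion Z, bb (z - z') ≤ 4 * n * δ := by
      rw [Finset.sum_biUnion]
      · calc ∑ j ∈ I.erase i, ∑ z' ∈ Z j, bb (z - z')
            ≤ ∑ j ∈ I.erase i, n * δ * (1 / ((i : ℝ) - j) ^ 2) := by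
              refine Finset.sum_le_sum fun j hj => ?_
              rw [Finset.mem_erase] at hj
              calc ∑ z' ∈ Z j, bb (z - z') ≤ ∑ z' ∈ Z j, δ / ((i : ℝ) - j) ^ 2 := by
                    refine Finset.sum_le_sum fun z' hz' => ?_
                    exact (hS i hi j hj.2 (Ne.symm hj.1) z (mem_inn.1 ((hZ i hi).1 hz)).2 z'
                      (mem_inn.1 ((hZ j hj.2).1 hz')).2).2
                _ = _ := by
                    rw [Finset.sum_const, (hZ j hj.2).2.1, nsmul_eq_mul]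
                    ring
          _ = n * δ * ∑ j ∈ I.erase i, 1 / ((i : ℝ) - j) ^ 2 := by rw [Finset.mul_sum]
          _ ≤ n * δ * 4 := mul_le_mul_of_nonneg_left (N51_sum _ i (Finset.notMem_erase i I))
              (by positivity)
          _ = _ := by ring
      · intro j hj j' hj' hjj
        exact hdisj j (Finset.mem_of_mem_erase (Finset.mem_coe.1 hj)) j'
          (Finset.mem_of_mem_erase (Finset.mem_coe.1 hj')) hjj
    have h3 := (hZ i hi).2.2 z hz
    linarith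
  have hen : en bb U ≤ I.card * n * (1 + 4 * n * δ) := by
    unfold en
    rw [hU, Finset.sum_biUnion hpd]
    calc ∑ i ∈ I, ∑ z ∈ Z i, ∑ z' ∈ (I.biUnion Z).erase z, bb (z - z')
        ≤ ∑ i ∈ I, n * (1 + 4 * n * δ) := by
          refine Finset.sum_le_sum fun i hi => ?_
          calc ∑ z ∈ Z i, ∑ z' ∈ (I.biUnion Z).erase z, bb (z - z')
              ≤ ∑ z ∈ Z i, (1 + 4 * n * δ) := Finset.sum_le_sum fun z hz => hrow i hi z hz
            _ = _ := by rw [Finset.sum_const, (hZ i hi).2.1, nsmul_eq_mul]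
      _ = _ := by
          rw [Finset.sum_const, nsmul_eq_mul]
          ring
  have hkap : (I.card : ℝ) * n / 4 ≤ kap bb U := by
    unfold kap
    rw [hUcard]
    have h1 : 8 * (n : ℝ) * δ ≤ 1 := by nlinarith
    have h2 : (I.card : ℝ) * n * (8 * n * δ) ≤ I.card * n * 1 :=
      mul_le_mul_of_nonneg_left h1 (by positivity)
    nlinarith
  have h1 : (I.card : ℝ) * n1 / 4 ≤ I.card * n / 4 := by
    have : (I.card : ℝ) * n1 ≤ I.card * n := mul_le_mul_of_nonneg_left hn1 (by positivity)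
    linarith
  exact h1.trans (hkap.trans (kap_le_cap bb hUK))

end Pool.Agent.HD
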