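import Pool.Agent.Lib.MP_8ca597_hd.S04

/-!
# Row S05: exponential moment of the capacity of the finite cluster (K1)

`p0 = pc`, `p1 = p0 + ε / 2`, `p2 = p = p0 + ε`. For `K ∋ 0` with `nbh K ⊆ V = Bx d n` (`Y = Bd d n`)
`escape_cap` at `p1` and `no_contact` give `EE p1 ((1 - p1) ^ N) ≤ exp (-(cap K ε / (2 p0)))`.
With `s = log ((1 - p1) / (1 - p2)) / (- log (1 - p1)) > 0` one has
`((1 - p1) / (1 - p2)) ^ N = ((1 - p1) ^ N) ^ (-s)`, so Jensen's inequality (`EE_jensen`) gives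
`EE p1 (((1 - p1)/(1 - p2)) ^ N) ≥ exp (s cap K ε / (2 p0))`; `log ((1-p1)/(1-p2)) ≥ ε / 2`,
`- log (1 - p1) ≤ 2 p1 ≤ 3 p0`, `p0 ≤ 1/4`: `s ε / (2 p0) ≥ ε² / (12 p0²) ≥ ε²`.
So `∑ K ∈ s, ww p K exp (ε² cap K) ≤ 1` for every finite family (`killing`, `killing_sum`; choose `n`
large). `K1_sum` is the limit, `K1` follows since `∑' K, ww p K = 1 - theta`.
-/

set_option autoImplicit false

namespace Pool.Agent.HD

open Finset
open scoped ENNReal

variable {d : ℕ}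

/-- The lower bound for the expectation of the killing factor. -/
private theorem S05_low {p0 ε : ℝ} (hp0 : 0 < p0) (hp4 : p0 ≤ 1 / 4) (hε : 0 < ε)
    (hε' : ε ≤ p0) {bb : Vx d → ℝ} (hF : FluxGe d p0) (hb : Ker d p0 bb) {n : ℕ}
    {K : Finset (Vx d)} (hK : K ⊆ Bx d n) (hY : Disjoint K (Bd d n)) :
    Real.exp (ε ^ 2 * cap bb K) ≤ EE (p0 + ε / 2) (edges (Bx d n \ K)) (fun T =>
      ((1 - (p0 + ε / 2)) / (1 - (p0 + ε))) ^ cont K (clS T (Bx d n \ K) (Bd d n))) := by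
  classical
  set p1 : ℝ := p0 + ε / 2 with hp1def
  set p2 : ℝ := p0 + ε with hp2def
  have hp1 : 0 < p1 := by rw [hp1def]; linarith
  have hp1' : p1 ≤ 3 / 8 := by rw [hp1def]; linarith
  have hp2' : p2 ≤ 1 / 2 := by rw [hp2def]; linarith
  have h12 : p1 < p2 := by rw [hp1def, hp2def]; linarith
  have hcap : 0 ≤ cap bb K := cap_nonneg bb K
  -- the logarithms
  have hq1 : 0 < 1 - p1 := by linarith
  have hq2 : 0 < 1 - p2 := by linarith
  have hr : 0 < (1 - p1) / (1 - p2) := div_pos hq1 hq2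
  have hlogr : ε / 2 ≤ Real.log ((1 - p1) / (1 - p2)) := by
    have h1 := Real.one_sub_inv_le_log_of_pos hr
    refine le_trans ?_ h1
    rw [inv_div]
    have h2 : 1 - (1 - p2) / (1 - p1) = (ε / 2) / (1 - p1) := by
      field_simp
      rw [hp1def, hp2def]
      ring
    rw [h2, le_div_iff₀ hq1]
    nlinarith
  have hlog1 : 0 < -Real.log (1 - p1) := by
    have := Real.log_neg hq1 (by linarith)
    linarith
  have hlog1' : -Real.log (1 - p1) ≤ 3 * p0 := by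
    have h1 := Real.one_sub_inv_le_log_of_pos hq1
    have h2 : (1 - p1)⁻¹ ≤ 1 + 2 * p1 := by
      rw [inv_le_iff_one_le_mul₀ hq1]
      nlinarith
    have h3 : 2 * p1 ≤ 3 * p0 := by rw [hp1def]; linarith
    linarith
  set s : ℝ := Real.log ((1 - p1) / (1 - p2)) / (-Real.log (1 - p1)) with hs
  have hs0 : 0 ≤ s := div_nonneg (by linarith) hlog1.le
  have hs1 : ε / (6 * p0) ≤ s := by
    rw [hs, le_div_iff₀ hlog1, div_mul_eq_mul_div, div_le_iff₀ (by positivity)]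
    have := mul_le_mul_of_nonneg_left hlog1' hε.le
    nlinarith
  -- the powers
  have hpow : ∀ N : ℕ, ((1 - p1) ^ N) ^ (-s) = ((1 - p1) / (1 - p2)) ^ N := by
    intro N
    rw [← Real.rpow_natCast (1 - p1) N, ← Real.rpow_mul hq1.le,
      ← Real.rpow_natCast ((1 - p1) / (1 - p2)) N, Real.rpow_def_of_pos hq1,
      Real.rpow_def_of_pos hr]
    congr 1
    have hne : Real.log (1 - p1) ≠ 0 := fun h => by rw [h] at hlog1; simp at hlog1
    rw [hs]
    field_simp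
  -- escape
  have hesc := escape_cap hp0 (by linarith : p0 ≤ p1) (by linarith) hF hb hK
  unfold JJ at hesc
  rw [no_contact p1 hK hY] at hesc
  have hexp : (p1 - p0) / p0 = ε / (2 * p0) := by
    rw [hp1def]
    field_simp
    ring
  rw [hexp] at hesc
  have hX : ∀ T : Finset (Ed d),
      0 < (1 - p1) ^ cont K (clS T (Bx d n \ K) (Bd d n)) := fun T => pow_pos hq1 _
  have hjen := EE_jensen hp1.le (by linarith : p1 ≤ 1) (edges (Bx d n \ K)) hX hs0
  simp only [hpow] at hjen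
  refine le_trans ?_ hjen
  have hpos : 0 < EE p1 (edges (Bx d n \ K)) fun T =>
      (1 - p1) ^ cont K (clS T (Bx d n \ K) (Bd d n)) := by
    obtain ⟨T0, -, hT0⟩ := Finset.exists_min_image (edges (Bx d n \ K)).powerset
      (fun T => (1 - p1) ^ cont K (clS T (Bx d n \ K) (Bd d n)))
      ⟨∅, Finset.empty_mem_powerset _⟩
    have h1 : EE p1 (edges (Bx d n \ K)) (fun _ =>
        (1 - p1) ^ cont K (clS T0 (Bx d n \ K) (Bd d n))) ≤
        EE p1 (edges (Bx d n \ K)) fun T =>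
          (1 - p1) ^ cont K (clS T (Bx d n \ K) (Bd d n)) :=
      EE_mono hp1.le (by linarith) fun T hT => hT0 T (Finset.mem_powerset.2 hT)
    rw [EE_const] at h1
    exact lt_of_lt_of_le (hX T0) h1
  have h1 : (Real.exp (-(cap bb K * (ε / (2 * p0))))) ^ (-s) ≤
      (EE p1 (edges (Bx d n \ K)) fun T =>
        (1 - p1) ^ cont K (clS T (Bx d n \ K) (Bd d n))) ^ (-s) :=
    Real.rpow_le_rpow_of_nonpos hpos hesc (by linarith)
  refine le_trans ?_ h1
  rw [← Real.exp_mul]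
  apply Real.exp_le_exp.2
  have h2 : ε ^ 2 ≤ ε / (2 * p0) * s := by
    have h3 : ε / (2 * p0) * (ε / (6 * p0)) ≤ ε / (2 * p0) * s :=
      mul_le_mul_of_nonneg_left hs1 (by positivity)
    refine le_trans ?_ h3
    rw [div_mul_div_comm, le_div_iff₀ (by positivity)]
    have h4 : 2 * p0 * (6 * p0) ≤ 1 := by nlinarith
    nlinarith [sq_nonneg ε]
  calc ε ^ 2 * cap bb K ≤ ε / (2 * p0) * s * cap bb K := mul_le_mul_of_nonneg_right h2 hcap
    _ = _ := by ring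

theorem ww_exp_cap_le {p0 ε : ℝ} (hd : 0 < d) (hp0 : 0 < p0) (hp4 : p0 ≤ 1 / 4) (hε : 0 < ε)
    (hε' : ε ≤ p0) {bb : Vx d → ℝ} (hF : FluxGe d p0) (hb : Ker d p0 bb)
    (s : Finset (Finset (Vx d))) :
    ∑ K ∈ s, ww (p0 + ε) K * Real.exp (ε ^ 2 * cap bb K) ≤ 1 := by
  classical
  have h1 : ∑ K ∈ s, ww (p0 + ε) K * Real.exp (ε ^ 2 * cap bb K) =
      ∑ K ∈ s.filter ((0 : Vx d) ∈ ·), ww (p0 + ε) K * Real.exp (ε ^ 2 * cap bb K) := by
    rw [Finset.sum_filter]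
    refine Finset.sum_congr rfl fun K _ => ?_
    split_ifs with h
    · rfl
    · rw [ww_zero _ h, zero_mul]
  rw [h1]
  obtain ⟨n, hn⟩ := exists_box (s.biUnion nbh)
  refine le_trans ?_ (killing_sum (p1 := p0 + ε / 2) (p2 := p0 + ε) (by linarith) (by linarith)
    (by linarith) (by linarith) (Bx d n) (Bd d n) (s.filter ((0 : Vx d) ∈ ·)))
  refine Finset.sum_le_sum fun K hK => ?_
  rw [Finset.mem_filter] at hK
  have hnb : nbh K ⊆ Bx d n := (Finset.subset_biUnion_of_mem nbh hK.1).trans hn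
  have hKV : K ⊆ Bx d n := fun x hx => hnb (mem_nbh.2 (Or.inl hx))
  have hY := disjoint_Bd hnb hd
  rw [← killing (by linarith) hnb hY hK.2]
  exact mul_le_mul_of_nonneg_left (S05_low hp0 hp4 hε hε' hF hb hKV hY)
    (ww_nonneg (by linarith) (by linarith) K)

theorem K1_sum {p0 ε : ℝ} (hd : 0 < d) (hp0 : 0 < p0) (hp4 : p0 ≤ 1 / 4) (hε : 0 < ε)
    (hε' : ε ≤ p0) {bb : Vx d → ℝ} (hF : FluxGe d p0) (hb : Ker d p0 bb) :
    EF (p0 + ε) (fun K => ENNReal.ofReal (Real.exp (ε ^ 2 * cap bb K))) ≤ 1 := by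
  unfold EF
  rw [ENNReal.tsum_eq_iSup_sum]
  refine iSup_le fun s => ?_
  have hw : ∀ K : Finset (Vx d), 0 ≤ ww (p0 + ε) K := fun K =>
    ww_nonneg (by linarith) (by linarith) K
  have h1 : ∀ K ∈ s, ENNReal.ofReal (ww (p0 + ε) K) *
      ENNReal.ofReal (Real.exp (ε ^ 2 * cap bb K)) =
      ENNReal.ofReal (ww (p0 + ε) K * Real.exp (ε ^ 2 * cap bb K)) := fun K _ => by
    rw [ENNReal.ofReal_mul (hw K)]
  rw [Finset.sum_congr rfl h1, ← ENNReal.ofReal_sum_of_nonneg fun K _ =>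
    mul_nonneg (hw K) (Real.exp_pos _).le, ← ENNReal.ofReal_one]
  exact ENNReal.ofReal_le_ofReal (ww_exp_cap_le hd hp0 hp4 hε hε' hF hb s)

private theorem S05_one {p : ℝ} :
    EF (d := d) p (fun _ => 1) = ∑' K : Finset (Vx d), ENNReal.ofReal (ww p K) := by
  unfold EF
  exact tsum_congr fun K => mul_one _

theorem K1 {p0 ε : ℝ} (hd : 0 < d) (hp0 : 0 < p0) (hp4 : p0 ≤ 1 / 4) (hε : 0 < ε)
    (hε' : ε ≤ p0) {bb : Vx d → ℝ} (hF : FluxGe d p0) (hb : Ker d p0 bb) :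
    EF (p0 + ε) (fun K => ENNReal.ofReal (Real.exp (ε ^ 2 * cap bb K) - 1)) ≤
      theta d (p0 + ε) := by
  have h1 := K1_sum hd hp0 hp4 hε hε' hF hb
  have hle : ∑' K : Finset (Vx d), ENNReal.ofReal (ww (p0 + ε) K) ≤ 1 :=
    tsum_ww_le (by linarith) (by linarith)
  have h2 : EF (p0 + ε) (fun K => ENNReal.ofReal (Real.exp (ε ^ 2 * cap bb K))) =
      EF (p0 + ε) (fun K => ENNReal.ofReal (Real.exp (ε ^ 2 * cap bb K) - 1)) +
        EF (d := d) (p0 + ε) (fun _ => 1) := by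
    unfold EF
    rw [← ENNReal.tsum_add]
    refine tsum_congr fun K => ?_
    rw [← mul_add]
    congr 1
    have hc : 0 ≤ Real.exp (ε ^ 2 * cap bb K) - 1 := by
      have := Real.one_le_exp (mul_nonneg (sq_nonneg ε) (cap_nonneg bb K))
      linarith
    rw [← ENNReal.ofReal_one, ← ENNReal.ofReal_add hc (by norm_num), sub_add_cancel]
  rw [h2, S05_one] at h1
  unfold theta
  exact ENNReal.le_sub_of_add_le_right (ne_top_of_le_ne_top ENNReal.one_ne_top hle) h1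

/-- The total mass. -/
theorem EF_one (hd : 0 < d) {p : ℝ} (hp : 0 ≤ p) (hp1 : p ≤ 1) :
    EF (d := d) p (fun _ => 1) = 1 - theta d p := by
  have hle : ∑' K : Finset (Vx d), ENNReal.ofReal (ww p K) ≤ 1 := tsum_ww_le hp hp1
  rw [S05_one]
  unfold theta
  rw [ENNReal.sub_sub_cancel ENNReal.one_ne_top hle]

theorem theta_le_one (d : ℕ) (p : ℝ) : theta d p ≤ 1 :=
  tsub_le_self

end Pool.Agent.HD
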