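import Pool.Agent.Lib.MP_8ca597_hd.N49
import Pool.Agent.Lib.MP_8ca597_hd.N51
import Pool.Agent.Lib.MP_8ca597_hd.S05

/-!
# Row N52: exponential decay of the truncated two-point function (upper bound of `ξ`)

Let `η`, `C3` be the constants of `thin` for `C4 = 7`, `n1 = η log (1/ε) / ε²`, `l = ⌈C3 log (1/ε) / √ε⌉`,
`w = 4 l`, `S t = {z | w t ≤ z i < w (t + 1)}`, `x = n e_i`, `R = ⌊(n + 1) / (2 w)⌋`, `N = ⌈ε^(-5)⌉`; the even slabs
`S (2 j)`, `j < R`, are crossed by every cluster which contains `0` and `x`.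
`Q W`: two vertices of `W` have coordinates with difference `≥ 2 l`, and `cap W < n1`. If `v ∈ W`, one of
the two has distance `≥ l` from `v`, so `thin` gives `hQ` of `slab_expl` with `π = ε ^ 7`.
`sum_ww_eq`: `PP_cl_eq`, disjoint events.
`thin_slabs`: if `0, x ∈ K = cl T V 0` and `cap (inn K (S t)) < n1`, then `|inn K (S t)| ≤ N` (`cap_ge_pow`: otherwise
`cap ≥ N^(19/20) / (2^44 C) ≥ n1` for small `ε`) and, by `cross_slab`, some `u ∈ K ∩ S t` has a cluster in `inn V (S t)`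
which contains `u`, `v` with `v i - u i = w - 1 ≥ 2 l`; it is contained in `inn K (S t)`, so its
capacity is `< n1` (`cap_mono`). `slab_expl` with `Y = {0}` (`clS_single`): probability `≤ (N ε^7)^|I| ≤ ε^|I|`.
`nu_upper`: either at least `R / 2` of the slabs `S (2 j)` satisfy `cap (inn K (S (2 j))) ≥ n1`, then `cap K ≥ R n1 / 8`
(`cap_sep`, `δ = C (2 w)... ^ (-800)`: two different even slabs have distance `≥ w |i - j| / 2` in the
coordinate `i`) and by `K1_sum` the sum of the weights is at most `exp (- ε² R n1 / 8)`; or there is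
`I ⊆ {2 j}` with `|I| = ⌈R/2⌉` of thin slabs: `≤ 2^R ε^(R/2)`. Hence `tauf ≤ ε^(η R / 8) + (4 ε)^(R/2)`,
`R ≥ n √ε / (16 C3 log (1/ε)) - 1`.
-/

set_option autoImplicit false

namespace Pool.Agent.HD

open Finset
open scoped ENNReal

variable {d : ℕ} {bb : Vx d → ℝ} {C c : ℝ}

/-- The sum of the weights of the clusters of a finite family. -/
theorem sum_ww_eq (p : ℝ) {V : Finset (Vx d)} (s : Finset (Finset (Vx d)))
    (h : ∀ K ∈ s, (0 : Vx d) ∈ K ∧ nbh K ⊆ V) :
    ∑ K ∈ s, ww p K = PP p (edges V) {T | cl T V 0 ∈ s} := by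
  rw [Finset.sum_congr rfl fun K hK => (PP_cl_eq p (h K hK).2 (h K hK).1).symm, ← PP_exists_eq]
  · apply PP_congr
    intro T _
    simp only [Set.mem_setOf_eq]
    constructor
    · rintro ⟨K, hK, hcl⟩
      rw [hcl]
      exact hK
    · intro hK
      exact ⟨_, hK, rfl⟩
  · intro T _ K _ K' _ hK hK'
    exact hK.symm.trans hK'

/-- Every truncated probability is a supremum of finite volume probabilities. -/
theorem EF_ind_le {p : ℝ} (hp : 0 ≤ p) (hp1 : p ≤ 1) (A : Finset (Vx d) → Prop)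
    [DecidablePred A] {b : ℝ}
    (h : ∀ V : Finset (Vx d), PP p (edges V) {T | (0 : Vx d) ∈ cl T V 0 ∧ A (cl T V 0)} ≤ b) :
    EF p (fun K => if A K then 1 else 0) ≤ ENNReal.ofReal b := by
  classical
  unfold EF
  rw [ENNReal.tsum_eq_iSup_sum]
  refine iSup_le fun s => ?_
  have h1 : ∑ K ∈ s, ENNReal.ofReal (ww p K) * (if A K then 1 else 0) =
      ∑ K ∈ s.filter (fun K => (0 : Vx d) ∈ K ∧ A K), ENNReal.ofReal (ww p K) := by
    rw [Finset.sum_filter]
    refine Finset.sum_congr rfl fun K _ => ?_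
    by_cases h0 : (0 : Vx d) ∈ K
    · by_cases hA : A K <;> simp [h0, hA]
    · simp [h0, ww_zero p h0]
  rw [h1, ← ENNReal.ofReal_sum_of_nonneg fun K _ => ww_nonneg hp hp1 K]
  apply ENNReal.ofReal_le_ofReal
  rw [sum_ww_eq p (V := s.biUnion nbh)]
  · refine (PP_mono hp hp1 fun T _ hT => ?_).trans (h (s.biUnion nbh))
    have hT' : cl T (s.biUnion nbh) 0 ∈ s.filter (fun K => (0 : Vx d) ∈ K ∧ A K) := hT
    rw [Finset.mem_filter] at hT'
    exact hT'.2
  · intro K hK
    rw [Finset.mem_filter] at hK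
    exact ⟨hK.2.1, Finset.subset_biUnion_of_mem nbh hK.1⟩

/-- The slab. -/
def slb (i : Fin d) (w : ℕ) (t : ℕ) : Set (Vx d) := {z | (w * t : ℤ) ≤ z i ∧ z i < w * (t + 1)}

private theorem N52_disj (i : Fin d) (w : ℕ) (s t : ℕ) (h : s ≠ t) :
    Disjoint (slb i w s) (slb i w t) := by
  rw [Set.disjoint_left]
  rintro z ⟨h1, h2⟩ ⟨h3, h4⟩
  have key : ∀ a b : ℕ, a < b → (w * b : ℤ) ≤ z i → z i < w * (a + 1) → False := by
    intro a b hab h5 h6
    have h7 : (w : ℤ) * (a + 1) ≤ w * b := by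
      apply mul_le_mul_of_nonneg_left _ (by positivity)
      exact_mod_cast hab
    omega
  rcases lt_or_gt_of_ne h with h | h
  · exact key s t h h3 h2
  · exact key t s h h1 h4

private theorem N52_pos (h : NIn d bb C c) {ε : ℝ} (hε : 0 < ε) (h4 : ε ≤ pc d / 4) :
    0 < pc d ∧ 0 ≤ pc d + ε ∧ pc d + ε ≤ 1 := by
  have := h.pc4
  refine ⟨by linarith, by linarith, by linarith⟩

theorem thin_slabs (h : NIn d bb C c) : ∃ η C3 ε0 : ℝ, 0 < η ∧ 0 < C3 ∧ 0 < ε0 ∧
    ε0 ≤ pc d / 4 ∧ ∀ ε : ℝ, 0 < ε → ε ≤ ε0 → ∀ (i : Fin d) (n : ℕ) (I : Finset ℕ),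
      (∀ t ∈ I, 4 * ⌈C3 * Real.log (1 / ε) / √ε⌉₊ * (t + 1) ≤ n + 1) →
      ∀ V : Finset (Vx d), PP (pc d + ε) (edges V) {T | Pi.single i (n : ℤ) ∈ cl T V 0 ∧
        ∀ t ∈ I, cap bb (inn (cl T V 0) (slb i (4 * ⌈C3 * Real.log (1 / ε) / √ε⌉₊) t)) <
          η * Real.log (1 / ε) / ε ^ 2} ≤ ε ^ I.card := by
  classical
  obtain ⟨η, C3, ε1, hη, hC3, hε1, hε14, hthin⟩ := thin h 7 (by norm_num)
  have hC1 := h.C1
  have hCη : 0 < 2 ^ 44 * C * η := by positivity
  refine ⟨η, C3, min ε1 (min (1 / 2) (1 / (2 ^ 44 * C * η))), hη, hC3, by positivity,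
    (min_le_left _ _).trans hε14, ?_⟩
  intro ε hε hε0 i n I hI V
  have hεa : ε ≤ ε1 := hε0.trans (min_le_left _ _)
  have hεb : ε ≤ 1 / 2 := hε0.trans ((min_le_right _ _).trans (min_le_left _ _))
  have hεc : ε ≤ 1 / (2 ^ 44 * C * η) := hε0.trans ((min_le_right _ _).trans (min_le_right _ _))
  obtain ⟨hpc, hp, hp1⟩ := N52_pos h hε (hεa.trans hε14)
  have hs2 : 2 ≤ 1 / ε := by
    rw [le_div_iff₀ hε]; linarith
  have hlog : 0 < Real.log (1 / ε) := Real.log_pos (by linarith)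
  have hlog' : Real.log (1 / ε) ≤ 1 / ε := Real.log_le_self (by positivity)
  set l : ℕ := ⌈C3 * Real.log (1 / ε) / √ε⌉₊ with hl
  have hlpos : 0 < C3 * Real.log (1 / ε) / √ε := by positivity
  have hl1 : 1 ≤ l := Nat.one_le_ceil_iff.2 hlpos
  have hlge : C3 * Real.log (1 / ε) / √ε ≤ l := Nat.le_ceil _
  set n1 : ℝ := η * Real.log (1 / ε) / ε ^ 2 with hn1
  set N : ℕ := ⌈(1 / ε) ^ 5⌉₊ with hN
  -- the exploration lemma
  set Q : Finset (Vx d) → Prop := fun W =>
    (∃ a ∈ W, ∃ b ∈ W, (2 * l : ℤ) ≤ a i - b i) ∧ cap bb W < n1 with hQdef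
  have hQ : ∀ (V : Finset (Vx d)) (v : Vx d), v ∈ V →
      PP (pc d + ε) (edges V) {T | Q (cl T V v)} ≤ ε ^ 7 := by
    intro V v _
    have h1 := hthin ε hε hεa V v
    have h2 : ε ^ (7 : ℝ) = ε ^ 7 := by exact_mod_cast Real.rpow_natCast ε 7
    rw [h2] at h1
    refine (PP_mono hp hp1 fun T _ hT => ?_).trans h1
    obtain ⟨⟨a, ha, b, hb, hab⟩, hcap⟩ := hT
    refine ⟨?_, hcap⟩
    have hnm : ∀ x : Vx d, |x i - v i| ≤ nm (x - v) := by
      intro x
      have := Finset.le_sup (f := fun j => ((x - v) j).natAbs) (Finset.mem_univ i)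
      have h3 : ((x - v) i).natAbs ≤ nm (x - v) := this
      have h4 : (((x - v) i).natAbs : ℤ) = |x i - v i| := by
        rw [Int.natCast_natAbs]; rfl
      omega
    have hor : (l : ℤ) ≤ |a i - v i| ∨ (l : ℤ) ≤ |b i - v i| := by
      by_contra hcon
      push Not at hcon
      have h3 := abs_lt.1 hcon.1
      have h4 := abs_lt.1 hcon.2
      omega
    rcases hor with h3 | h3
    · refine ⟨a, ha, hlge.trans ?_⟩
      have := h3.trans (hnm a)
      exact_mod_cast this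
    · refine ⟨b, hb, hlge.trans ?_⟩
      have := h3.trans (hnm b)
      exact_mod_cast this
  have hmain := slab_expl hp hp1 (by positivity : (0 : ℝ) ≤ ε ^ 7) Q hQ (slb i (4 * l))
    (N52_disj i (4 * l)) V {0} I (fun _ => N)
  rw [Finset.prod_const] at hmain
  -- the size
  have hNε : (N : ℝ) * ε ^ 7 ≤ ε := by
    have h1 : (N : ℝ) ≤ (1 / ε) ^ 5 + 1 := (Nat.ceil_lt_add_one (by positivity)).le
    have h2 : (1 : ℝ) ≤ (1 / ε) ^ 5 := one_le_pow₀ (by linarith)
    calc (N : ℝ) * ε ^ 7 ≤ (2 * (1 / ε) ^ 5) * ε ^ 7 := by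
          apply mul_le_mul_of_nonneg_right _ (by positivity)
          linarith
      _ = 2 * ε * ε := by
          field_simp
      _ ≤ ε := by nlinarith
  have hsize : ∀ A : Finset (Vx d), cap bb A < n1 → A.card ≤ N := by
    intro A hA
    by_contra hcon
    rw [not_le] at hcon
    have h1 : ((1 / ε) ^ 5 : ℝ) ≤ A.card := by
      have : ((1 / ε) ^ 5 : ℝ) ≤ N := Nat.le_ceil _
      have h2 : (N : ℝ) ≤ A.card := by exact_mod_cast hcon.le
      linarith
    have h2 := cap_ge_pow h.ker.nonneg h.C1 h.grow h.decay A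
    have h3 : (1 / ε) ^ 4 ≤ (A.card : ℝ) ^ (19 / 20 : ℝ) := by
      have h4 : ((1 / ε) ^ 5 : ℝ) ^ (19 / 20 : ℝ) ≤ (A.card : ℝ) ^ (19 / 20 : ℝ) :=
        Real.rpow_le_rpow (by positivity) h1 (by norm_num)
      refine le_trans ?_ h4
      rw [← Real.rpow_natCast (1 / ε) 5, ← Real.rpow_mul (by positivity),
        ← Real.rpow_natCast (1 / ε) 4]
      apply Real.rpow_le_rpow_of_exponent_le (by linarith)
      norm_num
    have h4 : 2 ^ 44 * C * cap bb A < 2 ^ 44 * C * n1 :=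
      mul_lt_mul_of_pos_left hA (by positivity)
    have h5 : 2 ^ 44 * C * n1 ≤ (1 / ε) ^ 4 := by
      rw [le_div_iff₀ hCη] at hεc
      have h6 : n1 ≤ η * (1 / ε) ^ 3 := by
        rw [hn1, div_le_iff₀ (by positivity)]
        have : η * (1 / ε) ^ 3 * ε ^ 2 = η * (1 / ε) := by field_simp
        rw [this]
        exact mul_le_mul_of_nonneg_left hlog' hη.le
      calc 2 ^ 44 * C * n1 ≤ 2 ^ 44 * C * (η * (1 / ε) ^ 3) :=
            mul_le_mul_of_nonneg_left h6 (by positivity)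
        _ = (ε * (2 ^ 44 * C * η)) * (1 / ε) ^ 4 := by field_simp
        _ ≤ 1 * (1 / ε) ^ 4 := mul_le_mul_of_nonneg_right hεc (by positivity)
        _ = _ := one_mul _
    linarith
  refine le_trans (PP_mono hp hp1 fun T _ hT => ?_) (hmain.trans ?_)
  · obtain ⟨hx, hthinT⟩ := hT
    intro t ht
    rw [clS_single]
    have hcap := hthinT t ht
    refine ⟨hsize _ hcap, ?_⟩
    have hcon : Conn T V 0 (Pi.single i (n : ℤ)) := mem_cl.1 hx
    have hIt := hI t ht
    have hset : {z : Vx d | (((4 * l : ℕ) : ℤ) * t : ℤ) ≤ z i ∧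
        z i ≤ ((4 * l : ℕ) : ℤ) * (t + 1) - 1} = slb i (4 * l) t := by
      ext z
      unfold slb
      simp only [Set.mem_setOf_eq]
      omega
    obtain ⟨u, v, hu, hv, hau, huv⟩ := cross_slab hcon i (lo := ((4 * l : ℕ) : ℤ) * t)
      (hi := ((4 * l : ℕ) : ℤ) * (t + 1) - 1) (by
        show (0 : Vx d) i ≤ _
        simp only [Pi.zero_apply]
        positivity) (by
        have : (4 * l : ℕ) ≥ 4 := by omega
        have h5 : ((4 * l : ℕ) : ℤ) ≥ 4 := by exact_mod_cast this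
        nlinarith) (by
        rw [Pi.single_eq_same]
        have h5 : (((4 * l * (t + 1) : ℕ)) : ℤ) ≤ ((n + 1 : ℕ) : ℤ) := by exact_mod_cast hIt
        push_cast at h5 ⊢
        linarith)
    rw [hset] at huv
    have huS : u ∈ inn (cl T V 0) (slb i (4 * l) t) := by
      rw [mem_inn, mem_cl]
      refine ⟨hau, ?_⟩
      have := huv.left
      rw [Finset.mem_coe, mem_inn] at this
      exact this.2
    refine ⟨u, huS, ⟨v, mem_cl.2 huv, u, ?_, ?_⟩, ?_⟩
    · exact self_mem_cl (by have := huv.left; rwa [Finset.mem_coe] at this)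
    · rw [hu, hv]
      push_cast
      have : (1 : ℤ) ≤ l := by exact_mod_cast hl1
      nlinarith
    · refine lt_of_le_of_lt (cap_mono bb ?_) hcap
      intro y hy
      have hy' := mem_cl.1 hy
      rw [mem_inn, mem_cl]
      have hyr := hy'.right
      rw [Finset.mem_coe, mem_inn] at hyr
      refine ⟨hau.trans (hy'.mono (le_refl _) ?_), hyr.2⟩
      intro z hz
      rw [Finset.mem_coe, mem_inn] at hz
      exact hz.1
  · exact pow_le_pow_left₀ (by positivity) hNε _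

/-- Different even slabs. -/
private theorem N52_sep (h : NIn d bb C c) (i : Fin d) {l : ℕ} (hl : 1 ≤ l) {s t : ℕ}
    (hs : Even s) (ht : Even t) (hst : s ≠ t) {z z' : Vx d} (hz : z ∈ slb i (4 * l) s)
    (hz' : z' ∈ slb i (4 * l) t) :
    z ≠ z' ∧ bb (z - z') ≤ (C / (2 * (l : ℝ)) ^ 800) / ((s : ℝ) - t) ^ 2 := by
  have hC := h.C1
  obtain ⟨h1, h2⟩ := hz
  obtain ⟨h3, h4⟩ := hz'
  have hl' : (1 : ℤ) ≤ l := by exact_mod_cast hl
  push_cast at h1 h2 h3 h4
  -- the distance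
  have hdist : 2 * (l : ℤ) * |(s : ℤ) - t| ≤ |z i - z' i| := by
    rcases lt_or_gt_of_ne hst with hlt | hlt
    · have h5 : s + 2 ≤ t := by
        obtain ⟨a, rfl⟩ := hs
        obtain ⟨b, rfl⟩ := ht
        omega
      have h5' : (s : ℤ) + 2 ≤ t := by exact_mod_cast h5
      rw [abs_of_nonpos (by linarith : (s : ℤ) - t ≤ 0)]
      have h6 : 2 * (l : ℤ) * -((s : ℤ) - t) ≤ z' i - z i := by nlinarith
      rw [abs_sub_comm]
      exact h6.trans (le_abs_self _)
    · have h5 : t + 2 ≤ s := by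
        obtain ⟨a, rfl⟩ := hs
        obtain ⟨b, rfl⟩ := ht
        omega
      have h5' : (t : ℤ) + 2 ≤ s := by exact_mod_cast h5
      rw [abs_of_nonneg (by linarith : 0 ≤ (s : ℤ) - t)]
      have h6 : 2 * (l : ℤ) * ((s : ℤ) - t) ≤ z i - z' i := by nlinarith
      exact h6.trans (le_abs_self _)
  have hst' : 1 ≤ |(s : ℤ) - t| := by
    apply Int.one_le_abs
    intro h0
    apply hst
    omega
  have hpos : 0 < |z i - z' i| := by nlinarith
  have hne : z ≠ z' := by
    rintro rfl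
    simp at hpos
  refine ⟨hne, ?_⟩
  have hnm : |z i - z' i| ≤ nm (z - z') := by
    have h3 : ((z - z') i).natAbs ≤ nm (z - z') :=
      Finset.le_sup (f := fun j => ((z - z') j).natAbs) (Finset.mem_univ i)
    have h4 : (((z - z') i).natAbs : ℤ) = |z i - z' i| := by
      rw [Int.natCast_natAbs]; rfl
    omega
  have hnmR : 2 * (l : ℝ) * |(s : ℝ) - t| ≤ nm (z - z') := by
    have := hdist.trans hnm
    exact_mod_cast this
  have hstR : (1 : ℝ) ≤ |(s : ℝ) - t| := by exact_mod_cast hst'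
  have hlR : (1 : ℝ) ≤ l := by exact_mod_cast hl
  refine (h.decay _ (sub_ne_zero.2 hne)).trans ?_
  rw [div_div]
  apply div_le_div_of_nonneg_left (by linarith)
  · have : 0 < ((s : ℝ) - t) ^ 2 := by
      rw [← sq_abs]
      positivity
    positivity
  · calc (2 * (l : ℝ)) ^ 800 * ((s : ℝ) - t) ^ 2
        ≤ (2 * (l : ℝ)) ^ 800 * |(s : ℝ) - t| ^ 800 := by
          apply mul_le_mul_of_nonneg_left _ (by positivity)
          rw [← sq_abs]
          exact pow_le_pow_right₀ hstR (by norm_num)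
      _ = (2 * (l : ℝ) * |(s : ℝ) - t|) ^ 800 := (mul_pow _ _ _).symm
      _ ≤ _ := pow_le_pow_left₀ (by positivity) hnmR 800

private theorem N52_EF_add (p : ℝ) (F G : Finset (Vx d) → ℝ≥0∞) :
    EF p (fun K => F K + G K) = EF p F + EF p G := by
  unfold EF
  rw [← ENNReal.tsum_add]
  exact tsum_congr fun K => mul_add _ _ _

private theorem N52_EF_mono {p : ℝ} {F G : Finset (Vx d) → ℝ≥0∞} (h : ∀ K, F K ≤ G K) :
    EF p F ≤ EF p G :=
  ENNReal.tsum_le_tsum fun K => mul_le_mul' (le_refl _) (h K)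

open Classical in
/-- Markov for the capacity. -/
private theorem N52_cap (h : NIn d bb C c) {ε : ℝ} (hε : 0 < ε) (hε' : ε ≤ pc d) (hpc : 0 < pc d)
    (A : ℝ) : EF (pc d + ε) (fun K => if A ≤ cap bb K then 1 else 0) ≤
      ENNReal.ofReal (Real.exp (-(ε ^ 2 * A))) := by
  have h1 := K1_sum h.dpos hpc h.pc4 hε hε' h.flux h.ker
  have h2 : EF (pc d + ε) (fun K => if A ≤ cap bb K then 1 else 0) ≤
      ENNReal.ofReal (Real.exp (-(ε ^ 2 * A))) *
        EF (pc d + ε) (fun K => ENNReal.ofReal (Real.exp (ε ^ 2 * cap bb K))) := by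
    unfold EF
    rw [← ENNReal.tsum_mul_left]
    refine ENNReal.tsum_le_tsum fun K => ?_
    rw [mul_left_comm]
    refine mul_le_mul' (le_refl _) ?_
    rw [← ENNReal.ofReal_mul (Real.exp_pos _).le, ← Real.exp_add]
    show (if A ≤ cap bb K then (1 : ℝ≥0∞) else 0) ≤ _
    split_ifs with hA
    · rw [ENNReal.one_le_ofReal]
      apply Real.one_le_exp
      have := mul_le_mul_of_nonneg_left hA (sq_nonneg ε)
      linarith
    · exact zero_le
  refine h2.trans ?_
  calc ENNReal.ofReal (Real.exp (-(ε ^ 2 * A))) *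
        EF (pc d + ε) (fun K => ENNReal.ofReal (Real.exp (ε ^ 2 * cap bb K)))
      ≤ ENNReal.ofReal (Real.exp (-(ε ^ 2 * A))) * 1 := mul_le_mul' (le_refl _) h1
    _ = _ := mul_one _

open Classical in
/-- The thin slabs of a cluster. -/
private noncomputable def N52_T (bb : Vx d → ℝ) (i : Fin d) (l : ℕ) (n1 : ℝ) (R : ℕ)
    (K : Finset (Vx d)) : Finset ℕ :=
  (Finset.range R).filter fun j => cap bb (inn K (slb i (4 * l) (2 * j))) < n1

/-- Many thick slabs. -/
private theorem N52_thick (h : NIn d bb C c) (i : Fin d) {l : ℕ} (hl : 1 ≤ l) {n1 : ℝ}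
    (hn : 0 < n1) (hδ : 8 * (n1 + 1) * (C / (2 * (l : ℝ)) ^ 800) ≤ 1) (R : ℕ)
    (K : Finset (Vx d)) (hK : (N52_T bb i l n1 R K).card < (R + 1) / 2) :
    R * n1 / 8 ≤ cap bb K := by
  classical
  have hC := h.C1
  set Th : Finset ℕ := (Finset.range R).filter fun j =>
    ¬ cap bb (inn K (slb i (4 * l) (2 * j))) < n1 with hTh
  have hcard : (N52_T bb i l n1 R K).card + Th.card = R := by
    have := Finset.card_filter_add_card_filter_not (s := Finset.range R)
      (fun j => cap bb (inn K (slb i (4 * l) (2 * j))) < n1)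
    rw [Finset.card_range] at this
    rw [hTh]
    unfold N52_T
    convert this using 2
  have hinj : Function.Injective fun j : ℕ => 2 * j := fun x y hxy => by
    have : 2 * x = 2 * y := hxy
    omega
  have h1 := cap_sep h.ker.nonneg h.ker.even K (Th.image fun j => 2 * j) (slb i (4 * l)) hn
    (δ := C / (2 * (l : ℝ)) ^ 800) (by positivity) hδ (by
      intro s hs t ht hst z hz z' hz'
      obtain ⟨s, -, rfl⟩ := Finset.mem_image.1 hs
      obtain ⟨t, -, rfl⟩ := Finset.mem_image.1 ht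
      exact N52_sep h i hl (even_two_mul s) (even_two_mul t) hst hz hz') (by
      intro s hs
      obtain ⟨s, hsT, rfl⟩ := Finset.mem_image.1 hs
      rw [hTh, Finset.mem_filter, not_lt] at hsT
      exact hsT.2)
  rw [Finset.card_image_of_injective _ hinj] at h1
  have h2 : (R : ℝ) ≤ 2 * Th.card := by
    have : R ≤ 2 * Th.card := by omega
    exact_mod_cast this
  have h3 : (R : ℝ) * n1 ≤ 2 * Th.card * n1 := mul_le_mul_of_nonneg_right h2 hn.le
  linarith

open Classical in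
/-- Many thin slabs. -/
private theorem N52_thin (h : NIn d bb C c) {ε n1 : ℝ} (hε : 0 < ε) (hp : 0 ≤ pc d + ε)
    (hp1 : pc d + ε ≤ 1) {i : Fin d} {l n R : ℕ} (hR : 8 * l * R ≤ n + 1)
    (hs : ∀ I : Finset ℕ, (∀ t ∈ I, 4 * l * (t + 1) ≤ n + 1) → ∀ V : Finset (Vx d),
      PP (pc d + ε) (edges V) {T | Pi.single i (n : ℤ) ∈ cl T V 0 ∧
        ∀ t ∈ I, cap bb (inn (cl T V 0) (slb i (4 * l) t)) < n1} ≤ ε ^ I.card) (r : ℕ) :
    EF (pc d + ε) (fun K => if Pi.single i (n : ℤ) ∈ K ∧ r ≤ (N52_T bb i l n1 R K).card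
      then 1 else 0) ≤ ENNReal.ofReal (2 ^ R * ε ^ r) := by
  have hinj : Function.Injective fun j : ℕ => 2 * j := fun x y hxy => by
    have : 2 * x = 2 * y := hxy
    omega
  refine EF_ind_le hp hp1 (fun K => Pi.single i (n : ℤ) ∈ K ∧
    r ≤ (N52_T bb i l n1 R K).card) fun V => ?_
  have h1 := PP_exists_le hp hp1 (S := edges V) (Finset.powersetCard r (Finset.range R))
    (fun J => {T : Finset (Ed d) | Pi.single i (n : ℤ) ∈ cl T V 0 ∧
        ∀ t ∈ J.image (fun j => 2 * j), cap bb (inn (cl T V 0) (slb i (4 * l) t)) < n1})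
  refine (PP_mono hp hp1 fun T _ hT => ?_).trans (h1.trans ?_)
  · obtain ⟨-, hx, hr⟩ := hT
    obtain ⟨J, hJ, hJc⟩ := Finset.exists_subset_card_eq hr
    refine ⟨J, ?_, hx, ?_⟩
    · rw [Finset.mem_powersetCard]
      exact ⟨hJ.trans (Finset.filter_subset _ _), hJc⟩
    · intro t ht
      obtain ⟨j, hj, rfl⟩ := Finset.mem_image.1 ht
      have := hJ hj
      unfold N52_T at this
      exact (Finset.mem_filter.1 this).2
  · have h2 : ∀ J ∈ Finset.powersetCard r (Finset.range R), PP (pc d + ε) (edges V)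
        {T : Finset (Ed d) | Pi.single i (n : ℤ) ∈ cl T V 0 ∧
        ∀ t ∈ J.image (fun j => 2 * j), cap bb (inn (cl T V 0) (slb i (4 * l) t)) < n1} ≤
        ε ^ r := by
      intro J hJ
      rw [Finset.mem_powersetCard] at hJ
      have h3 := hs (J.image fun j => 2 * j) (by
        intro t ht
        obtain ⟨j, hj, rfl⟩ := Finset.mem_image.1 ht
        have hjR := Finset.mem_range.1 (hJ.1 hj)
        have h4 : 4 * l * (2 * j + 1) ≤ 8 * l * R := by
          calc 4 * l * (2 * j + 1) ≤ 4 * l * (2 * R) := Nat.mul_le_mul_left _ (by omega)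
            _ = _ := by ring
        exact h4.trans hR) V
      rwa [Finset.card_image_of_injective _ hinj, hJ.2] at h3
    refine (Finset.sum_le_sum h2).trans ?_
    rw [Finset.sum_const, Finset.card_powersetCard, Finset.card_range, nsmul_eq_mul]
    apply mul_le_mul_of_nonneg_right _ (by positivity)
    exact_mod_cast Nat.choose_le_two_pow R r

theorem nu_upper (h : NIn d bb C c) : ∃ c' ε0 : ℝ, 0 < c' ∧ 0 < ε0 ∧ ∀ ε : ℝ, 0 < ε → ε ≤ ε0 →
    ∃ n0 : ℕ, ∀ (i : Fin d) (n : ℕ), n0 ≤ n →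
      tauf (pc d + ε) (Pi.single i (n : ℤ)) ≤ ENNReal.ofReal (Real.exp (-(c' * √ε * n))) := by
  classical
  obtain ⟨η, C3, ε1, hη, hC3, hε1, hε14, hslab⟩ := thin_slabs h
  have hC1 := h.C1
  set a : ℝ := min (η / 256) (1 / 128) / C3 with ha
  have hapos : 0 < a := by positivity
  have hE : 0 < 8 * (η + 1) * C := by positivity
  refine ⟨a / 2, min ε1 (min (1 / 16) (min (C3 ^ 4) (1 / (8 * (η + 1) * C)))), by positivity,
    by positivity, ?_⟩
  intro ε hε hε0
  have hεa : ε ≤ ε1 := hε0.trans (min_le_left _ _)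
  have hεb : ε ≤ 1 / 16 := hε0.trans ((min_le_right _ _).trans (min_le_left _ _))
  have hεc : ε ≤ C3 ^ 4 := hε0.trans ((min_le_right _ _).trans ((min_le_right _ _).trans
    (min_le_left _ _)))
  have hεd : ε ≤ 1 / (8 * (η + 1) * C) := hε0.trans ((min_le_right _ _).trans
    ((min_le_right _ _).trans (min_le_right _ _)))
  obtain ⟨hpc, hp, hp1⟩ := N52_pos h hε (hεa.trans hε14)
  have hs16 : 16 ≤ 1 / ε := by
    rw [le_div_iff₀ hε]; linarith
  have hΛ1 : 1 ≤ Real.log (1 / ε) := by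
    rw [Real.le_log_iff_exp_le (by positivity)]
    have := Real.exp_one_lt_d9
    linarith
  have hlog' : Real.log (1 / ε) ≤ 1 / ε := Real.log_le_self (by positivity)
  have hexpΛ : ε = Real.exp (-Real.log (1 / ε)) := by
    rw [one_div, Real.log_inv, neg_neg, Real.exp_log hε]
  set Λ : ℝ := Real.log (1 / ε) with hΛ
  set l : ℕ := ⌈C3 * Λ / √ε⌉₊ with hl
  have hsq : 0 < √ε := Real.sqrt_pos.2 hε
  have hsqsq : √ε * √ε = ε := Real.mul_self_sqrt hε.le
  -- lower bound of `l`: `(1 / ε) ≤ l ^ 4`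
  have hX0 : 1 / ε ≤ (C3 / √ε) ^ 4 := by
    have h2 : (C3 / √ε) ^ 4 = C3 ^ 4 / (ε * ε) := by
      rw [div_pow]
      congr 1
      calc √ε ^ 4 = (√ε * √ε) * (√ε * √ε) := by ring
        _ = ε * ε := by rw [hsqsq]
    rw [h2, div_le_div_iff₀ hε (by positivity)]
    nlinarith
  have hX1 : 1 ≤ C3 / √ε := by
    by_contra hcon
    rw [not_le] at hcon
    have h1 : (C3 / √ε) ^ 4 < 1 := pow_lt_one₀ (by positivity) hcon (by norm_num)
    linarith
  have hX2 : C3 / √ε ≤ C3 * Λ / √ε := by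
    apply div_le_div_of_nonneg_right _ hsq.le
    nlinarith
  have hX : C3 / √ε ≤ l := hX2.trans (Nat.le_ceil _)
  have hX4 : 1 / ε ≤ (l : ℝ) ^ 4 := hX0.trans (pow_le_pow_left₀ (by positivity) hX 4)
  have hlR : (1 : ℝ) ≤ l := hX1.trans hX
  have hl1 : 1 ≤ l := by exact_mod_cast hlR
  have hlup : (l : ℝ) ≤ 2 * (C3 * Λ / √ε) := by
    have h1 : (l : ℝ) < C3 * Λ / √ε + 1 := Nat.ceil_lt_add_one (by positivity)
    linarith
  set n1 : ℝ := η * Λ / ε ^ 2 with hn1
  have hn1pos : 0 < n1 := by positivity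
  -- the separation constant
  have hδ1 : 8 * (n1 + 1) * (C / (2 * (l : ℝ)) ^ 800) ≤ 1 := by
    rw [← mul_div_assoc, div_le_one (by positivity)]
    have h1 : n1 ≤ η * (1 / ε) ^ 3 := by
      rw [hn1, div_le_iff₀ (by positivity)]
      have : η * (1 / ε) ^ 3 * ε ^ 2 = η * (1 / ε) := by field_simp
      rw [this]
      exact mul_le_mul_of_nonneg_left hlog' hη.le
    have h2 : (1 : ℝ) ≤ (1 / ε) ^ 3 := one_le_pow₀ (by linarith)
    have h3 : 8 * (n1 + 1) * C ≤ (1 / ε) ^ 4 := by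
      rw [le_div_iff₀ hE] at hεd
      calc 8 * (n1 + 1) * C ≤ 8 * ((η + 1) * (1 / ε) ^ 3) * C := by
            apply mul_le_mul_of_nonneg_right _ (by linarith)
            linarith
        _ = (ε * (8 * (η + 1) * C)) * (1 / ε) ^ 4 := by field_simp
        _ ≤ 1 * (1 / ε) ^ 4 := mul_le_mul_of_nonneg_right hεd (by positivity)
        _ = _ := one_mul _
    have h4 : (1 / ε) ^ 4 ≤ (2 * (l : ℝ)) ^ 800 := by
      calc (1 / ε) ^ 4 ≤ ((l : ℝ) ^ 4) ^ 4 := pow_le_pow_left₀ (by positivity) hX4 4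
        _ = (l : ℝ) ^ 16 := by rw [← pow_mul]
        _ ≤ (l : ℝ) ^ 800 := pow_le_pow_right₀ hlR (by norm_num)
        _ ≤ (2 * (l : ℝ)) ^ 800 := pow_le_pow_left₀ (by positivity) (by linarith) 800
    linarith
  -- the choice of `n0`
  refine ⟨⌈(64 * C3 * Λ + 2 / a) / √ε⌉₊, ?_⟩
  intro i n hn
  set R : ℕ := (n + 1) / (8 * l) with hR
  have hR8 : 8 * l * R ≤ n + 1 := Nat.mul_div_le _ _
  have hR8' : n + 1 < 8 * l * (R + 1) := by
    have := Nat.lt_mul_div_succ (n + 1) (by omega : 0 < 8 * l)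
    simpa using this
  have hnR : 64 * C3 * Λ + 2 / a ≤ n * √ε := by
    have h1 : (64 * C3 * Λ + 2 / a) / √ε ≤ n :=
      (Nat.le_ceil _).trans (by exact_mod_cast hn)
    rwa [div_le_iff₀ hsq] at h1
  have h2a : 0 < 2 / a := by positivity
  -- `R Λ ≥ n √ε / (32 C3)`
  have hRΛ : n * √ε / (32 * C3) ≤ R * Λ := by
    have h1 : (n : ℝ) ≤ 8 * l * (R + 1) := by
      have : (n : ℝ) + 1 ≤ 8 * l * (R + 1) := by exact_mod_cast hR8'.le
      linarith
    have h2 : (n : ℝ) ≤ 16 * (C3 * Λ / √ε) * (R + 1) := by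
      refine h1.trans ?_
      have hR0 : (0 : ℝ) ≤ (R : ℝ) + 1 := by positivity
      have : 8 * (l : ℝ) ≤ 16 * (C3 * Λ / √ε) := by linarith
      exact mul_le_mul_of_nonneg_right this hR0
    have h3 : (n : ℝ) * √ε ≤ 16 * (C3 * Λ) * (R + 1) := by
      calc (n : ℝ) * √ε ≤ 16 * (C3 * Λ / √ε) * (R + 1) * √ε :=
            mul_le_mul_of_nonneg_right h2 hsq.le
        _ = _ := by field_simp
    rw [div_le_iff₀ (by positivity)]
    nlinarith
  set r : ℕ := (R + 1) / 2 with hr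
  have hEFsplit : tauf (pc d + ε) (Pi.single i (n : ℤ)) ≤
      EF (pc d + ε) (fun K => if R * n1 / 8 ≤ cap bb K then 1 else 0) +
      EF (pc d + ε) (fun K => if Pi.single i (n : ℤ) ∈ K ∧ r ≤ (N52_T bb i l n1 R K).card
        then 1 else 0) := by
    unfold tauf
    rw [← N52_EF_add]
    refine N52_EF_mono fun K => ?_
    by_cases hx : Pi.single i (n : ℤ) ∈ K
    · by_cases hK : r ≤ (N52_T bb i l n1 R K).card
      · simp [hx, hK]
      · have := N52_thick h i hl1 hn1pos hδ1 R K (not_le.1 hK)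
        simp [hx, hK, this]
    · simp [hx]
  have hA := N52_cap h hε (by linarith [hεa.trans hε14]) hpc (R * n1 / 8)
  have hB := N52_thin (bb := bb) (n1 := n1) h hε hp hp1 (i := i) hR8
    (fun I hI V => hslab ε hε hεa i n I hI V) r
  refine hEFsplit.trans ((add_le_add hA hB).trans ?_)
  rw [← ENNReal.ofReal_add (Real.exp_pos _).le (by positivity)]
  apply ENNReal.ofReal_le_ofReal
  -- the two terms
  have hy : 0 ≤ (n : ℝ) * √ε := by positivity
  have ha1 : a * (n * √ε) ≤ η / 8 * (n * √ε / (32 * C3)) := by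
    have h1 : a ≤ (η / 256) / C3 := by
      rw [ha]
      exact div_le_div_of_nonneg_right (min_le_left _ _) hC3.le
    calc a * (n * √ε) ≤ (η / 256) / C3 * (n * √ε) := mul_le_mul_of_nonneg_right h1 hy
      _ = _ := by ring
  have ha2 : a * (n * √ε) ≤ 1 / 4 * (n * √ε / (32 * C3)) := by
    have h1 : a ≤ (1 / 128) / C3 := by
      rw [ha]
      exact div_le_div_of_nonneg_right (min_le_right _ _) hC3.le
    calc a * (n * √ε) ≤ (1 / 128) / C3 * (n * √ε) := mul_le_mul_of_nonneg_right h1 hy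
      _ = _ := by ring
  have ht1 : Real.exp (-(ε ^ 2 * (R * n1 / 8))) ≤ Real.exp (-(a * (n * √ε))) := by
    apply Real.exp_le_exp.2
    have h1 : ε ^ 2 * (R * n1 / 8) = η / 8 * (R * Λ) := by
      rw [hn1]
      field_simp
    rw [h1]
    have h2 := mul_le_mul_of_nonneg_left hRΛ (by positivity : (0 : ℝ) ≤ η / 8)
    linarith
  have ht2 : 2 ^ R * ε ^ r ≤ Real.exp (-(a * (n * √ε))) := by
    have h1 : R ≤ 2 * r := by omega
    have h4 : 4 * ε ≤ √ε := by
      have : √ε ≤ 1 / 4 := by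
        rw [Real.sqrt_le_left (by norm_num)]
        linarith
      nlinarith
    have hse : √ε = Real.exp (-(Λ / 2)) := by
      have h5 : Real.exp (-(Λ / 2)) * Real.exp (-(Λ / 2)) = ε := by
        rw [← Real.exp_add]
        conv_rhs => rw [hexpΛ]
        congr 1
        ring
      rw [← h5, Real.sqrt_mul_self (Real.exp_pos _).le]
    calc (2 : ℝ) ^ R * ε ^ r ≤ 2 ^ (2 * r) * ε ^ r := by
          apply mul_le_mul_of_nonneg_right _ (by positivity)
          exact pow_le_pow_right₀ (by norm_num) h1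
      _ = (4 * ε) ^ r := by
          rw [pow_mul, mul_pow]
          norm_num
      _ ≤ (√ε) ^ r := pow_le_pow_left₀ (by positivity) h4 r
      _ = Real.exp (-(r * Λ / 2)) := by
          rw [hse, ← Real.exp_nat_mul]
          congr 1
          ring
      _ ≤ _ := by
          apply Real.exp_le_exp.2
          have h5 : (R : ℝ) ≤ 2 * r := by exact_mod_cast h1
          have h6 : (R : ℝ) * Λ ≤ 2 * r * Λ := mul_le_mul_of_nonneg_right h5 (by linarith)
          linarith
  have h2 : (2 : ℝ) ≤ Real.exp (a / 2 * (n * √ε)) := by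
    have h3 : 1 ≤ a / 2 * (n * √ε) := by
      have h4 : 2 / a ≤ n * √ε := by
        have : 0 ≤ 64 * C3 * Λ := by positivity
        linarith
      calc (1 : ℝ) = a / 2 * (2 / a) := by field_simp
        _ ≤ _ := mul_le_mul_of_nonneg_left h4 (by positivity)
    have h4 := Real.exp_le_exp.2 h3
    have h5 := Real.exp_one_gt_d9
    linarith
  calc Real.exp (-(ε ^ 2 * (R * n1 / 8))) + 2 ^ R * ε ^ r
      ≤ 2 * Real.exp (-(a * (n * √ε))) := by linarith
    _ ≤ Real.exp (a / 2 * (n * √ε)) * Real.exp (-(a * (n * √ε))) :=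
        mul_le_mul_of_nonneg_right h2 (Real.exp_pos _).le
    _ = Real.exp (-(a / 2 * √ε * n)) := by
        rw [← Real.exp_add]
        congr 1
        ring

end Pool.Agent.HD
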