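import Pool.Agent.Lib.MP_8ca597_hd.S10

/-!
# Row N55: the volume of clusters in arbitrary finite domains

`PP_shift`: translation of the configuration (bijection of the powersets of the edges; as in
`tau_equiv`, A12). `PP_vol_le`: enlarge `V` to a translate by `a` of a box which contains `V` and the translate of
`Bx d n`, `n = ⌈x⌉` (`cl` is monotone in the domain), translate by `-a`, `Pge_eq`, `Pge_le` with `A = 0` (for `x ≤ 1`
the bound `C' / √x` with `C' ≥ 1` is trivial; for `x ≥ 1`, `√n ≥ √x`).
-/

set_option autoImplicit false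

namespace Pool.Agent.HD

open Finset
open scoped ENNReal

variable {m d : ℕ} {h : m ≤ d} {C : ℝ}

private theorem N55_cl (b : Vx d) (V : Finset (Vx d)) (T : Finset (Ed d)) (a : Vx d) :
    (cl (T.map (A12_E (Equiv.addRight b))) (V.map (Equiv.addRight b).toEmbedding)
      (Equiv.addRight b a)).card = (cl T V a).card := by
  have hσ : ∀ x y : Vx d, Adj (Equiv.addRight b x) (Equiv.addRight b y) ↔ Adj x y :=
    fun x y => adj_add x y b
  have h1 : cl (T.map (A12_E (Equiv.addRight b))) (V.map (Equiv.addRight b).toEmbedding)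
      (Equiv.addRight b a) = (cl T V a).map (Equiv.addRight b).toEmbedding := by
    ext y
    obtain ⟨y, rfl⟩ := (Equiv.addRight b).surjective y
    have h2 : Equiv.addRight b y ∈ (cl T V a).map (Equiv.addRight b).toEmbedding ↔
        y ∈ cl T V a := Finset.mem_map' (Equiv.addRight b).toEmbedding
    rw [h2, mem_cl, mem_cl]
    exact A12_conn (Equiv.addRight b) hσ V T a y
  rw [h1, Finset.card_map]

theorem PP_shift (p : ℝ) (V : Finset (Vx d)) (a b : Vx d) (A : ℕ → Prop) :
    PP p (edges (V.image (· + b))) {T | A (cl T (V.image (· + b)) (a + b)).card} =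
      PP p (edges V) {T | A (cl T V a).card} := by
  have hσ : ∀ x y : Vx d, Adj (Equiv.addRight b x) (Equiv.addRight b y) ↔ Adj x y :=
    fun x y => adj_add x y b
  have e1 : V.image (· + b) = V.map (Equiv.addRight b).toEmbedding := by
    rw [Finset.map_eq_image]
    rfl
  have e2 : a + b = Equiv.addRight b a := rfl
  rw [e1, e2, A12_edges _ hσ, PP_def, A12_EE_map, PP_def]
  refine EE_congr fun T _ => ?_
  have h3 := N55_cl b V T a
  by_cases hc : A (cl T V a).card
  · rw [if_pos (show T ∈ {T : Finset (Ed d) | A (cl T V a).card} from hc)]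
    refine if_pos ?_
    show A _
    rw [h3]
    exact hc
  · rw [if_neg (show ¬ T ∈ {T : Finset (Ed d) | A (cl T V a).card} from hc)]
    refine if_neg fun h' => hc ?_
    have h'' : A (cl (T.map (A12_E (Equiv.addRight b))) (V.map (Equiv.addRight b).toEmbedding)
      (Equiv.addRight b a)).card := h'
    rw [h3] at h''
    exact h''

private theorem N55_dep (V : Finset (Vx d)) (a : Vx d) (n : ℕ) :
    Dep {T : Finset (Ed d) | n ≤ (cl T V a).card} (edges V) := by
  classical
  intro T T' hT
  simp only [Set.mem_ofPred_eq]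
  rw [← cl_inter_edges T V a, ← cl_inter_edges T' V a]
  have h1 : T ∩ edges V = T' ∩ edges V := by
    convert hT
  rw [h1]

theorem PP_vol_le (hc : Crit m d h C) : ∃ C' : ℝ, 1 ≤ C' ∧ ∀ (V : Finset (Vx d)) (a : Vx d)
    (x : ℝ), 0 < x → PP (pc d) (edges V) {T | x ≤ (cl T V a).card} ≤ C' / √x := by
  classical
  obtain ⟨C0, hC0, hP⟩ := Pge_le hc 0
  have hlo := hc.pc_lo
  have hhi := hc.pc_hi
  have hd : (0 : ℝ) < d := by exact_mod_cast hc.pos
  have hp0 : 0 ≤ pc d := le_trans (by positivity) hlo
  have hp1 : pc d ≤ 1 := by linarith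
  refine ⟨C0 + 1, by linarith, fun V a x hx => ?_⟩
  have hsx : 0 < √x := Real.sqrt_pos.2 hx
  rcases le_total x 1 with hx1 | hx1
  · refine (PP_le_one hp0 hp1).trans ?_
    rw [le_div_iff₀ hsx]
    have : √x ≤ 1 := by
      rw [Real.sqrt_le_one]
      exact hx1
    linarith
  · set n : ℕ := ⌈x⌉₊ with hn
    have hxn : x ≤ n := Nat.le_ceil x
    have hn1 : 1 ≤ n := by
      have : (1 : ℝ) ≤ n := hx1.trans hxn
      exact_mod_cast this
    -- the enlarged domain
    set W' : Finset (Vx d) := V.image (· + (-a)) ∪ Bx d n with hW'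
    have hVW : V ⊆ W'.image (· + a) := by
      intro v hv
      rw [Finset.mem_image]
      refine ⟨v + -a, ?_, by simp⟩
      rw [hW', Finset.mem_union]
      exact Or.inl (Finset.mem_image_of_mem _ hv)
    have h1 : PP (pc d) (edges V) {T | x ≤ (cl T V a).card} =
        PP (pc d) (edges (W'.image (· + a))) {T | n ≤ (cl T V a).card} := by
      rw [PP_dep (pc d) (edges_mono hVW) (N55_dep V a n)]
      refine PP_congr fun T _ => ?_
      simp only [Set.mem_ofPred_eq]
      rw [hn, Nat.ceil_le]
    have h2 : PP (pc d) (edges (W'.image (· + a))) {T | n ≤ (cl T V a).card} ≤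
        PP (pc d) (edges (W'.image (· + a))) {T | n ≤ (cl T (W'.image (· + a)) (0 + a)).card} := by
      refine PP_mono hp0 hp1 fun T _ hT => ?_
      simp only [Set.mem_ofPred_eq] at hT ⊢
      refine hT.trans (Finset.card_le_card fun y hy => ?_)
      rw [mem_cl] at hy ⊢
      rw [zero_add]
      exact hy.mono (Finset.Subset.refl _) (Finset.coe_subset.2 hVW)
    have h3 := PP_shift (pc d) W' 0 a (fun k => n ≤ k)
    have h4 : PP (pc d) (edges W') {T | n ≤ (cl T W' 0).card} = Pge d (pc d) n :=
      Pge_eq (pc d) (by rw [hW']; exact Finset.subset_union_right)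
    rw [h1]
    refine h2.trans ?_
    rw [h3, h4]
    have h5 := hP (pc d) n hp0 (by linarith) hn1 (by rw [sub_self, zero_div])
    refine h5.trans ?_
    have h6 : √x ≤ √(n : ℝ) := Real.sqrt_le_sqrt hxn
    calc C0 / √(n : ℝ) ≤ C0 / √x := div_le_div_of_nonneg_left hC0.le hsx h6
      _ ≤ (C0 + 1) / √x := div_le_div_of_nonneg_right (by linarith) hsx.le

end Pool.Agent.HD
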