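import Pool.Agent.Lib.MP_8ca597_hd.S11
import Pool.Agent.Lib.MP_8ca597_hd.NIn

/-!
# Row N56: the diagrams for the kernel `bR`

`tc d x = (tt (pc d) x).toReal`, so `ENNReal.ofReal (tc d x) = tt (pc d) x` (`tt ≤ 1`), and
`ofReal_bR`. `dia2`, `dia3`: in `[0, ∞]` the sums are at most `cv (cpw (tt pc) j) bI 0`, `j = 2, 3` (`tt`, `bI` are even),
`cv_bI_bdd`. `dia4`: the sum is at most `∑ z' ∈ F, G (a - z')` with
`G = cv (cpw tt 2) bI = cpw tt 3 + pc ∑_e cpw tt 4 (· - e)`; by `dc_pow8` `G x ≤ C nm(x)^(-7000)` for `x ≠ 0` and the sum of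
`G` over `Bx d R` is at most `C R^2700` (`R ≥ 1`); for `|F| ≥ 1` split at `nm (z' - a) ≤ R`, where
`R` is the least number with `|F| ≤ R^5400`.
-/

set_option autoImplicit false

namespace Pool.Agent.HD

open Finset
open scoped ENNReal

variable {m d : ℕ} {h : m ≤ d} {C : ℝ}

section N56conv

variable {f g : Vx d → ℝ≥0∞}

lemma N56_L1 (hf : ∀ x, f (-x) = f x) (g : Vx d → ℝ≥0∞) (v z : Vx d) :
    ∑' x, f (x - v) * g (x - z) = cv f g (v - z) := by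
  unfold cv
  rw [← (Equiv.subLeft v).tsum_eq (fun y => f y * g (v - z - y))]
  refine tsum_congr fun x => ?_
  rw [Equiv.subLeft_apply, ← neg_sub x v, hf, neg_sub]
  congr 2
  abel

lemma N56_L2 (f g : Vx d → ℝ≥0∞) (v : Vx d) :
    ∑' z, f (z - v) * g (v - z) = cv f g 0 := by
  unfold cv
  rw [← (Equiv.subRight v).tsum_eq (fun y => f y * g (0 - y))]
  refine tsum_congr fun x => ?_
  rw [Equiv.subRight_apply]
  congr 2
  abel

lemma N56_L3 (f g : Vx d → ℝ≥0∞) (v x : Vx d) :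
    ∑' z, f (z - v) * g (x - z) = cv f g (x - v) := by
  unfold cv
  rw [← (Equiv.subRight v).tsum_eq (fun y => f y * g (x - v - y))]
  refine tsum_congr fun z => ?_
  rw [Equiv.subRight_apply]
  congr 2
  abel

lemma N56_cpw2 (f : Vx d → ℝ≥0∞) : cpw f 2 = cv f f := by
  show cv f (cpw f 1) = _
  rw [cpw_one]

lemma N56_cpw3 (f : Vx d → ℝ≥0∞) : cpw f 3 = cv f (cv f f) := by
  show cv f (cpw f 2) = _
  rw [N56_cpw2]

end N56conv

section N56basic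

lemma N56_pos (hc : Crit m d h C) : 0 ≤ pc d ∧ pc d ≤ 1 := by
  have hd : 0 < d := by have := hc.m_ge; omega
  exact ⟨le_trans (by positivity) (pc_pos hd), pc_le_one d⟩

lemma N56_tt_le (hc : Crit m d h C) (x : Vx d) : tt (pc d) x ≤ 1 :=
  tauI_le_one (N56_pos hc).1 (N56_pos hc).2 _ _ _

lemma N56_tc (hc : Crit m d h C) (x : Vx d) : ENNReal.ofReal (tc d x) = tt (pc d) x :=
  ENNReal.ofReal_toReal (ne_top_of_le_ne_top ENNReal.one_ne_top (N56_tt_le hc x))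

lemma N56_tc0 (x : Vx d) : 0 ≤ tc d x := ENNReal.toReal_nonneg

/-- from `[0, ∞]` to the reals -/
lemma N56_le {S c : ℝ} (hc : 0 ≤ c) (h : ENNReal.ofReal S ≤ ENNReal.ofReal c) : S ≤ c :=
  (ENNReal.ofReal_le_ofReal_iff hc).1 h

end N56basic

theorem dia2 (hc : Crit m d h C) : ∃ C' : ℝ, 1 ≤ C' ∧ ∀ (V : Finset (Vx d)) (v : Vx d),
    ∑ x ∈ V, ∑ z ∈ V.erase x, tc d (x - v) * tc d (z - v) * bR d (x - z) ≤ C' := by
  obtain ⟨K, hK, hb⟩ := cv_bI_bdd hc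
  refine ⟨max K 1, le_max_right _ _, fun V v => (N56_le hK.le ?_).trans (le_max_left _ _)⟩
  have hnn : ∀ x z : Vx d, 0 ≤ tc d (x - v) * tc d (z - v) * bR d (x - z) := fun x z =>
    mul_nonneg (mul_nonneg (N56_tc0 _) (N56_tc0 _)) (bR_nonneg _ _)
  rw [ENNReal.ofReal_sum_of_nonneg (fun x _ => Finset.sum_nonneg fun z _ => hnn x z)]
  have h1 : ∀ x ∈ V, ENNReal.ofReal (∑ z ∈ V.erase x, tc d (x - v) * tc d (z - v) * bR d (x - z))
      ≤ ∑' z, tt (pc d) (x - v) * (tt (pc d) (z - v) * bI d (x - z)) := by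
    intro x _
    rw [ENNReal.ofReal_sum_of_nonneg (fun z _ => hnn x z)]
    refine le_trans (Finset.sum_le_sum fun z _ => ?_) (ENNReal.sum_le_tsum (V.erase x))
    rw [ENNReal.ofReal_mul (mul_nonneg (N56_tc0 _) (N56_tc0 _)), ENNReal.ofReal_mul (N56_tc0 _),
      N56_tc hc, N56_tc hc, ofReal_bR hc, mul_assoc]
  refine (Finset.sum_le_sum h1).trans ((ENNReal.sum_le_tsum V).trans ?_)
  refine le_trans (le_of_eq ?_) (hb 2 (by norm_num) 0)
  have h2 : ∀ x, ∑' z, tt (pc d) (x - v) * (tt (pc d) (z - v) * bI d (x - z))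
      = tt (pc d) (x - v) * cv (tt (pc d)) (bI d) (x - v) := by
    intro x
    rw [ENNReal.tsum_mul_left, N56_L3]
  have hbe : ∀ x, bI d (-x) = bI d x := fun x => by
    rw [← ofReal_bR hc, bR_even, ofReal_bR hc]
  rw [tsum_congr h2, N56_cpw2, cv_assoc, ← N56_L2 _ _ v]
  refine tsum_congr fun x => ?_
  rw [← neg_sub x v, cv_neg (tt_neg (pc d)) hbe]

theorem dia3 (hc : Crit m d h C) : ∃ C' : ℝ, 1 ≤ C' ∧ ∀ (V : Finset (Vx d)) (u : Vx d),
    ∑ v ∈ V, ∑ x ∈ V, ∑ z ∈ V.erase x,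
      tc d (v - u) * tc d (x - u) * tc d (z - v) * bR d (x - z) ≤ C' := by
  obtain ⟨K, hK, hb⟩ := cv_bI_bdd hc
  refine ⟨max K 1, le_max_right _ _, fun V u => (N56_le hK.le ?_).trans (le_max_left _ _)⟩
  have hnn : ∀ v x z : Vx d, 0 ≤ tc d (v - u) * tc d (x - u) * tc d (z - v) * bR d (x - z) :=
    fun v x z => mul_nonneg (mul_nonneg (mul_nonneg (N56_tc0 _) (N56_tc0 _)) (N56_tc0 _))
      (bR_nonneg _ _)
  rw [ENNReal.ofReal_sum_of_nonneg (fun v _ => Finset.sum_nonneg fun x _ =>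
    Finset.sum_nonneg fun z _ => hnn v x z)]
  have h1 : ∀ v x : Vx d, ENNReal.ofReal (∑ z ∈ V.erase x,
      tc d (v - u) * tc d (x - u) * tc d (z - v) * bR d (x - z))
      ≤ tt (pc d) (v - u) * (tt (pc d) (x - u) * cv (tt (pc d)) (bI d) (x - v)) := by
    intro v x
    rw [ENNReal.ofReal_sum_of_nonneg (fun z _ => hnn v x z), ← N56_L3, ← ENNReal.tsum_mul_left,
      ← ENNReal.tsum_mul_left]
    refine le_trans (Finset.sum_le_sum fun z _ => ?_) (ENNReal.sum_le_tsum (V.erase x))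
    rw [ENNReal.ofReal_mul (mul_nonneg (mul_nonneg (N56_tc0 _) (N56_tc0 _)) (N56_tc0 _)),
      ENNReal.ofReal_mul (mul_nonneg (N56_tc0 _) (N56_tc0 _)), ENNReal.ofReal_mul (N56_tc0 _),
      N56_tc hc, N56_tc hc, N56_tc hc, ofReal_bR hc, mul_assoc, mul_assoc]
  have h2 : ∀ v ∈ V, ENNReal.ofReal (∑ x ∈ V, ∑ z ∈ V.erase x,
      tc d (v - u) * tc d (x - u) * tc d (z - v) * bR d (x - z))
      ≤ tt (pc d) (v - u) * cv (tt (pc d)) (cv (tt (pc d)) (bI d)) (u - v) := by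
    intro v _
    rw [ENNReal.ofReal_sum_of_nonneg (fun x _ => Finset.sum_nonneg fun z _ => hnn v x z),
      ← N56_L1 (tt_neg (pc d)), ← ENNReal.tsum_mul_left]
    exact le_trans (Finset.sum_le_sum fun x _ => h1 v x) (ENNReal.sum_le_tsum V)
  refine (Finset.sum_le_sum h2).trans ((ENNReal.sum_le_tsum V).trans ?_)
  refine le_trans (le_of_eq ?_) (hb 3 (by norm_num) 0)
  rw [N56_L2, N56_cpw3, cv_assoc, cv_assoc]

section N56dia4

/-- the kernel `G` -/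
lemma N56_G (d : ℕ) (x : Vx d) : cv (cpw (tt (pc d)) 2) (bI d) x
    = cpw (tt (pc d)) 3 x + ENNReal.ofReal (pc d) *
      ∑ e ∈ nbr (0 : Vx d), cpw (tt (pc d)) 4 (x - e) := by
  have h1 : cv (cpw (tt (pc d)) 2) (bI d) x = cv (cpw (tt (pc d)) 2) (fun y => tt (pc d) y +
      ENNReal.ofReal (pc d) * ∑ e ∈ nbr (0 : Vx d), cv (tt (pc d)) (tt (pc d)) (y - e)) x := rfl
  rw [h1, cv_add, cv_comm (cpw (tt (pc d)) 2) (fun y => tt (pc d) y)]
  congr 1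
  rw [cv_smul, cv_sum]
  congr 1
  refine Finset.sum_congr rfl fun e _ => ?_
  rw [show (4 : ℕ) = 2 + 2 from rfl, cpw_add, N56_cpw2]
  show ∑' y, _ = ∑' y, _
  refine tsum_congr fun y => ?_
  rw [sub_right_comm]

/-- sums over boxes -/
lemma N56_box (h : m ≤ d) (g : Vx d → ℝ≥0∞) (R : ℕ) : ∑ x ∈ Bx d R, g x ≤ Vv h g R := by
  have h1 : ∑ x ∈ Bx d R, g x = ∑ x ∈ Bx d R, (if nm (pj h x) ≤ R then g x else 0) :=
    Finset.sum_congr rfl fun x hx => by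
      rw [if_pos ((nm_pj_le h x).trans (mem_Bx.1 hx))]
  rw [h1]
  exact ENNReal.sum_le_tsum _

lemma N56_box_shift (h : m ≤ d) (g : Vx d → ℝ≥0∞) (R : ℕ) {e : Vx d} (he : nm e ≤ 1) :
    ∑ x ∈ Bx d R, g (x - e) ≤ Vv h g (R + 1) := by
  classical
  have h1 : ∑ x ∈ Bx d R, g (x - e) = ∑ y ∈ (Bx d R).image (· - e), g y := by
    rw [Finset.sum_image]
    intro x _ y _ hxy
    exact sub_left_injective hxy
  rw [h1]
  refine le_trans (Finset.sum_le_sum_of_subset ?_) (N56_box h g (R + 1))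
  intro y hy
  obtain ⟨x, hx, rfl⟩ := Finset.mem_image.1 hy
  rw [mem_Bx] at hx ⊢
  exact (nm_sub_le x e).trans (by omega)

/-- the choice of the radius -/
lemma N56_rad (n k : ℕ) (hn : 1 ≤ n) (hk : 1 ≤ k) :
    ∃ R : ℕ, 1 ≤ R ∧ n ≤ R ^ (2 * k) ∧ (R : ℝ) ^ k ≤ 2 ^ k * √(n : ℝ) := by
  classical
  have hex : ∃ R : ℕ, n ≤ R ^ (2 * k) := ⟨n, by
    calc n = n ^ 1 := (pow_one n).symm
      _ ≤ n ^ (2 * k) := Nat.pow_le_pow_right hn (by omega)⟩
  set R := Nat.find hex with hR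
  have hRn : n ≤ R ^ (2 * k) := Nat.find_spec hex
  have hR1 : 1 ≤ R := by
    by_contra hcon
    have : R = 0 := by omega
    rw [this, zero_pow (by omega)] at hRn
    omega
  refine ⟨R, hR1, hRn, ?_⟩
  have hs1 : (1 : ℝ) ≤ √(n : ℝ) := by
    rw [Real.one_le_sqrt]
    exact_mod_cast hn
  by_cases h1 : R = 1
  · rw [h1, Nat.cast_one, one_pow]
    have : (1 : ℝ) ≤ 2 ^ k := one_le_pow₀ (by norm_num)
    nlinarith
  · have hlt : (R - 1) ^ (2 * k) < n := by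
      have := Nat.find_min hex (m := R - 1) (by omega)
      omega
    have h2 : ((R - 1 : ℕ) : ℝ) ^ k ≤ √(n : ℝ) := by
      apply Real.le_sqrt_of_sq_le
      rw [← pow_mul, mul_comm k 2]
      exact_mod_cast hlt.le
    have h3 : (R : ℝ) ≤ 2 * ((R - 1 : ℕ) : ℝ) := by
      have : R ≤ 2 * (R - 1) := by omega
      exact_mod_cast this
    calc (R : ℝ) ^ k ≤ (2 * ((R - 1 : ℕ) : ℝ)) ^ k := pow_le_pow_left₀ (by positivity) h3 k
      _ = 2 ^ k * ((R - 1 : ℕ) : ℝ) ^ k := mul_pow _ _ _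
      _ ≤ 2 ^ k * √(n : ℝ) := by
        apply mul_le_mul_of_nonneg_left h2
        positivity

/-- the sum of `G` over a finite set, for any radius -/
lemma N56_split {G : Vx d → ℝ≥0∞} {R : ℕ} {K₁ K₂ : ℝ≥0∞} {α : ℕ} (hR : 1 ≤ R)
    (h1 : ∑ x ∈ Bx d R, G x ≤ K₁) (h2 : ∀ x, R < nm x → G x * (R : ℝ≥0∞) ^ α ≤ K₂)
    (F : Finset (Vx d)) (hF : F.card ≤ R ^ α) (a : Vx d) :
    ∑ z ∈ F, G (a - z) ≤ K₁ + K₂ := by
  classical
  rw [← Finset.sum_filter_add_sum_filter_not F (fun z => nm (a - z) ≤ R)]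
  refine add_le_add ?_ ?_
  · have h3 : ∑ z ∈ F with nm (a - z) ≤ R, G (a - z)
        = ∑ y ∈ (F.filter fun z => nm (a - z) ≤ R).image (a - ·), G y := by
      rw [Finset.sum_image]
      intro x _ y _ hxy
      exact sub_right_injective hxy
    rw [h3]
    refine le_trans (Finset.sum_le_sum_of_subset ?_) h1
    intro y hy
    obtain ⟨z, hz, rfl⟩ := Finset.mem_image.1 hy
    exact mem_Bx.2 (Finset.mem_filter.1 hz).2
  · have hR0 : (R : ℝ≥0∞) ^ α ≠ 0 := pow_ne_zero _ (by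
      simpa using (show R ≠ 0 by omega))
    have hRt : (R : ℝ≥0∞) ^ α ≠ ∞ := ENNReal.pow_ne_top (ENNReal.natCast_ne_top R)
    have h4 : ∀ z ∈ F.filter (fun z => ¬ nm (a - z) ≤ R), G (a - z) ≤ K₂ / (R : ℝ≥0∞) ^ α := by
      intro z hz
      rw [ENNReal.le_div_iff_mul_le (Or.inl hR0) (Or.inl hRt)]
      exact h2 _ (not_le.1 (Finset.mem_filter.1 hz).2)
    refine (Finset.sum_le_sum h4).trans ?_
    rw [Finset.sum_const, nsmul_eq_mul]
    have h5 : (((F.filter fun z => ¬ nm (a - z) ≤ R).card : ℕ) : ℝ≥0∞) ≤ (R : ℝ≥0∞) ^ α := by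
      have : (F.filter fun z => ¬ nm (a - z) ≤ R).card ≤ R ^ α :=
        (Finset.card_filter_le _ _).trans hF
      exact_mod_cast this
    calc _ ≤ (R : ℝ≥0∞) ^ α * (K₂ / (R : ℝ≥0∞) ^ α) := by gcongr
      _ = K₂ := ENNReal.mul_div_cancel hR0 hRt

end N56dia4

theorem dia4 (hc : Crit m d h C) : ∃ C' : ℝ, 1 ≤ C' ∧ ∀ (V F : Finset (Vx d)) (a : Vx d),
    Disjoint F V → ∑ u ∈ V, ∑ z ∈ V, tc d (u - a) * tc d (z - u) * ∑ z' ∈ F, bR d (z - z') ≤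
      C' * √(F.card : ℝ) := by
  classical
  obtain ⟨K, hK, hD⟩ := dc_pow8 hc
  have hm := hc.m_ge
  have hp := N56_pos hc
  obtain ⟨k, hk⟩ : ∃ k : ℕ, k = 2700 := ⟨_, rfl⟩
  obtain ⟨a₀, ha₀⟩ : ∃ a₀ : ℕ, a₀ = m - 2700 := ⟨_, rfl⟩
  rw [← ha₀, ← hk] at hD
  set τ : Vx d → ℝ≥0∞ := tt (pc d) with hτ
  set G : Vx d → ℝ≥0∞ := cv (cpw τ 2) (bI d) with hG
  set κ : ℝ≥0∞ := ENNReal.ofReal K with hκ
  set P : ℝ≥0∞ := ENNReal.ofReal (pc d) with hP
  have hnb : ∀ e ∈ nbr (0 : Vx d), nm e ≤ 1 := by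
    intro e he
    have h1 := nm_adj (mem_nbr.1 he)
    rw [nm_eq_zero.2 rfl] at h1
    omega
  have hD3 := hD 3 (by norm_num) (by norm_num)
  have hD4 := hD 4 (by norm_num) (by norm_num)
  set M₁ : ℝ≥0∞ := κ + P * ∑ _e ∈ nbr (0 : Vx d), κ * 2 ^ k with hM₁
  set M₂ : ℝ≥0∞ := κ + P * ∑ _e ∈ nbr (0 : Vx d), κ with hM₂
  have hM₁t : M₁ ≠ ∞ := by
    rw [hM₁]
    refine ENNReal.add_ne_top.2 ⟨ENNReal.ofReal_ne_top, ENNReal.mul_ne_top ENNReal.ofReal_ne_top ?_⟩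
    refine ENNReal.sum_ne_top.2 fun _ _ => ENNReal.mul_ne_top ENNReal.ofReal_ne_top ?_
    exact ENNReal.pow_ne_top ENNReal.ofNat_ne_top
  have hM₂t : M₂ ≠ ∞ := by
    rw [hM₂]
    refine ENNReal.add_ne_top.2 ⟨ENNReal.ofReal_ne_top, ENNReal.mul_ne_top ENNReal.ofReal_ne_top ?_⟩
    exact ENNReal.sum_ne_top.2 fun _ _ => ENNReal.ofReal_ne_top
  -- the sum over the box
  have hbox : ∀ R : ℕ, 1 ≤ R → ∑ x ∈ Bx d R, G x ≤ M₁ * (R : ℝ≥0∞) ^ k := by
    intro R hR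
    have h1 : ∑ x ∈ Bx d R, G x = ∑ x ∈ Bx d R, cpw τ 3 x +
        P * ∑ e ∈ nbr (0 : Vx d), ∑ x ∈ Bx d R, cpw τ 4 (x - e) := by
      rw [Finset.sum_comm, Finset.mul_sum, ← Finset.sum_add_distrib]
      exact Finset.sum_congr rfl fun x _ => N56_G d x
    have h2 : ((R + 1 : ℕ) : ℝ≥0∞) ^ k ≤ 2 ^ k * (R : ℝ≥0∞) ^ k := by
      rw [← mul_pow]
      apply pow_le_pow_left' (?_ : _ ≤ _)
      have : R + 1 ≤ 2 * R := by omega
      exact_mod_cast this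
    rw [h1, hM₁, add_mul, mul_assoc, Finset.sum_mul]
    refine add_le_add ((N56_box h _ R).trans (hD3.vol R hR)) ?_
    gcongr with e he
    refine (N56_box_shift h _ R (hnb e he)).trans ((hD4.vol (R + 1) (by omega)).trans ?_)
    rw [mul_assoc]
    gcongr
  -- decay
  have hdec : ∀ R : ℕ, ∀ x : Vx d, R < nm x → G x * (R : ℝ≥0∞) ^ a₀ ≤ M₂ := by
    intro R x hx
    rw [hG, N56_G, add_mul, hM₂, mul_assoc, Finset.sum_mul]
    refine add_le_add ?_ ?_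
    · refine le_trans ?_ (hD3.sup (by omega) x)
      gcongr
    · gcongr with e he
      refine le_trans ?_ (hD4.sup (by omega) (x - e))
      have h1 : R ≤ nm (x - e) := by
        have h2 := nm_le_sub_add x e
        have h3 := hnb e he
        omega
      gcongr
  refine ⟨max 1 (M₁.toReal * 2 ^ k + M₂.toReal), le_max_left _ _, fun V F a _ => ?_⟩
  rcases F.eq_empty_or_nonempty with rfl | hne
  · simp
  have hn : 1 ≤ F.card := hne.card_pos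
  obtain ⟨R, hR1, hRn, hRs⟩ := N56_rad F.card k hn (by omega)
  have hs1 : (1 : ℝ) ≤ √(F.card : ℝ) := by
    rw [Real.one_le_sqrt]
    exact_mod_cast hn
  have hsum : ∑ z' ∈ F, G (a - z') ≤ M₁ * (R : ℝ≥0∞) ^ k + M₂ := by
    refine N56_split hR1 (hbox R hR1) (hdec R) F (hRn.trans ?_) a
    exact Nat.pow_le_pow_right hR1 (by omega)
  -- the left side
  have hS : ENNReal.ofReal (∑ u ∈ V, ∑ z ∈ V, tc d (u - a) * tc d (z - u) *
      ∑ z' ∈ F, bR d (z - z')) ≤ ∑ z' ∈ F, G (a - z') := by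
    have e1 : ∑ u ∈ V, ∑ z ∈ V, tc d (u - a) * tc d (z - u) * ∑ z' ∈ F, bR d (z - z')
        = ∑ z' ∈ F, ∑ u ∈ V, ∑ z ∈ V, tc d (u - a) * tc d (z - u) * bR d (z - z') := by
      symm
      rw [Finset.sum_comm]
      refine Finset.sum_congr rfl fun u _ => ?_
      rw [Finset.sum_comm]
      refine Finset.sum_congr rfl fun z _ => ?_
      rw [Finset.mul_sum]
    have hnn : ∀ z' u z : Vx d, 0 ≤ tc d (u - a) * tc d (z - u) * bR d (z - z') :=
      fun z' u z => mul_nonneg (mul_nonneg (N56_tc0 _) (N56_tc0 _)) (bR_nonneg _ _)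
    rw [e1, ENNReal.ofReal_sum_of_nonneg (fun z' _ => Finset.sum_nonneg fun u _ =>
      Finset.sum_nonneg fun z _ => hnn z' u z)]
    refine Finset.sum_le_sum fun z' _ => ?_
    rw [ENNReal.ofReal_sum_of_nonneg (fun u _ => Finset.sum_nonneg fun z _ => hnn z' u z), hG,
      N56_cpw2, cv_assoc, ← N56_L1 (tt_neg (pc d))]
    refine le_trans (Finset.sum_le_sum fun u _ => ?_) (ENNReal.sum_le_tsum V)
    rw [ENNReal.ofReal_sum_of_nonneg (fun z _ => hnn z' u z), ← N56_L1 (tt_neg (pc d)),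
      ← ENNReal.tsum_mul_left]
    refine le_trans (Finset.sum_le_sum fun z _ => ?_) (ENNReal.sum_le_tsum V)
    rw [ENNReal.ofReal_mul (mul_nonneg (N56_tc0 _) (N56_tc0 _)), ENNReal.ofReal_mul (N56_tc0 _),
      N56_tc hc, N56_tc hc, ofReal_bR hc, mul_assoc]
  have hR0 : (0 : ℝ) ≤ R := Nat.cast_nonneg R
  have hMR : 0 ≤ M₁.toReal * (R : ℝ) ^ k := mul_nonneg ENNReal.toReal_nonneg (pow_nonneg hR0 k)
  have hfin : M₁ * (R : ℝ≥0∞) ^ k + M₂
      = ENNReal.ofReal (M₁.toReal * (R : ℝ) ^ k + M₂.toReal) := by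
    rw [ENNReal.ofReal_add hMR ENNReal.toReal_nonneg,
      ENNReal.ofReal_mul ENNReal.toReal_nonneg, ENNReal.ofReal_toReal hM₁t,
      ENNReal.ofReal_toReal hM₂t, ENNReal.ofReal_pow hR0, ENNReal.ofReal_natCast]
  have h1 := N56_le (add_nonneg hMR ENNReal.toReal_nonneg) ((hS.trans hsum).trans hfin.le)
  have h2 : 0 ≤ M₁.toReal := ENNReal.toReal_nonneg
  have h3 : 0 ≤ M₂.toReal := ENNReal.toReal_nonneg
  calc _ ≤ M₁.toReal * (R : ℝ) ^ k + M₂.toReal := h1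
    _ ≤ M₁.toReal * (2 ^ k * √(F.card : ℝ)) + M₂.toReal * √(F.card : ℝ) := by
      refine add_le_add (mul_le_mul_of_nonneg_left hRs h2) ?_
      exact le_mul_of_one_le_right h3 hs1
    _ = (M₁.toReal * 2 ^ k + M₂.toReal) * √(F.card : ℝ) := by ring
    _ ≤ _ := mul_le_mul_of_nonneg_right (le_max_right _ _) (Real.sqrt_nonneg _)

end Pool.Agent.HD
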