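import Pool.Agent.Lib.MP_8ca597_hd.N55
import Pool.Agent.Lib.MP_8ca597_hd.N56

/-!
# Row N59: the input of part N from the critical theory

Take the maximum of the constants of `bR_le`, `PP_vol_le`, `dia2`, `dia3`, `dia4`, of `C` and of the constant
of the exponential moment. `Crit.pos`, `Crit.fluxGe`, `ker_bR`, `Crit.chi_le`.
-/

set_option autoImplicit false

namespace Pool.Agent.HD

open Finset
open scoped ENNReal

variable {m d : ℕ} {h : m ≤ d} {C : ℝ}

theorem nIn_of_crit (hc : Crit m d h C)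
    (hexp : ∃ c C' : ℝ, 0 < c ∧ ∀ ε : ℝ, 0 < ε → ε ≤ pc d / 2 →
      ∑' x : Vx d, ENNReal.ofReal (Real.exp (c * √ε * nm x)) * tt (pc d - ε) x ≤
        ENNReal.ofReal (C' / ε)) : ∃ C' c : ℝ, NIn d (bR d) C' c := by
  obtain ⟨c, Ce, hcp, hexp⟩ := hexp
  obtain ⟨C1, h1, hgrow, hdecay⟩ := bR_le hc
  obtain ⟨C2, h2, hvol⟩ := PP_vol_le hc
  obtain ⟨C3, h3, hb2⟩ := dia2 hc
  obtain ⟨C4, h4, hb3⟩ := dia3 hc
  obtain ⟨C5, h5, hb4⟩ := dia4 hc
  have h6 := hc.one_le
  have h7 := abs_nonneg Ce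
  have h8 := le_abs_self Ce
  generalize hKdef : C1 + C2 + C3 + C4 + C5 + C + |Ce| = K
  have k1 : C1 ≤ K := by rw [← hKdef]; linarith
  have k2 : C2 ≤ K := by rw [← hKdef]; linarith
  have k3 : C3 ≤ K := by rw [← hKdef]; linarith
  have k4 : C4 ≤ K := by rw [← hKdef]; linarith
  have k5 : C5 ≤ K := by rw [← hKdef]; linarith
  have k6 : C ≤ K := by rw [← hKdef]; linarith
  have k7 : Ce ≤ K := by rw [← hKdef]; linarith
  refine ⟨K, c, ⟨hc.pos, h1.trans k1, hcp, ?_, hc.fluxGe, ker_bR hc, ?_, ?_, ?_, ?_, ?_, ?_,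
    ?_, ?_⟩⟩
  · have := hc.pc_hi
    linarith
  · intro R hR
    exact (hgrow R hR).trans (mul_le_mul_of_nonneg_right k1 (by positivity))
  · intro x hx
    exact (hdecay x hx).trans (div_le_div_of_nonneg_right k1 (by positivity))
  · intro ε hε hε2
    refine (hc.chi_le (pc d - ε) (by linarith) (by linarith)).trans
      (ENNReal.ofReal_le_ofReal ?_)
    rw [sub_sub_cancel]
    exact div_le_div_of_nonneg_right k6 hε.le
  · intro ε hε hε2
    exact (hexp ε hε hε2).trans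
      (ENNReal.ofReal_le_ofReal (div_le_div_of_nonneg_right k7 hε.le))
  · intro V a x hx
    exact (hvol V a x hx).trans (div_le_div_of_nonneg_right k2 (Real.sqrt_nonneg x))
  · intro V v
    exact (hb2 V v).trans k3
  · intro V u
    exact (hb3 V u).trans k4
  · intro V F a hFV
    exact (hb4 V F a hFV).trans (mul_le_mul_of_nonneg_right k5 (Real.sqrt_nonneg _))

end Pool.Agent.HD
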