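import Pool.Agent.Lib.MP_8ca597_hd.N10
import Pool.Agent.Lib.MP_8ca597_hd.B06
import Pool.Agent.Lib.MP_8ca597_hd.B07
import Pool.Agent.Lib.MP_8ca597_hd.B41
import Pool.Agent.Lib.MP_8ca597_hd.S10

/-!
# Row N60: the lower recursion for the flux of half-spaces (N6a)

`ff_rec`: `bonfI` (N10) for `W = Hf e (n + r)`, `S = Hf e r` (all exits `(u, v)` satisfy `v = u + uv e`,
`dt v e = r`), summed over the `x` with `dt x e = n + r - 1` and multiplied by `q`. For `w ∈ Hf e (n + r)` with `dt w e = h` the sum over `x` of `q * tauI (Hf e (n + r)) w x` is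
`ff q e (n + r - h)` (translation). Left side: `ff r * ff n`. First error: `c ∈ Hf e r`, factor
`ff (n + r - dt c e) ≤ ff n * 2` (`ff_submul`): at most `2 * ff n * er1 ≤ 2 * ff n * 4 / 1000` (`er1_box` with
`E = {e}`, `F = 2`, `tw q ≤ tw pc`). Second error: `w` with `dt w e ≤ r`: at most
`2 * ff n * er2 ≤ 2 * ff n * 4 * pc * 2`; `w` with `dt w e = r + i`, `1 ≤ i < n`: factor `ff (n - i)`; the rest is,
for `z` at depth `l` below the plane `r - 1` (sum over `z`: `lev q e r l ≤ (l + 1) * 2 * (2 / q)`, `lev_le`),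
`q² ∑_w (cv tt tt (w - uv e - z))²` with `dt (w - uv e - z) e = i + l`; in total at most `kapi e i`.
`kapi_sum`: `∑_{i ≥ 1} (dt y e - i + 1) ≤ (1 + nm y)²`, `(1 + nm y)² (cv tt tt y) ≤ cpw (tw pc) 2 y`, so the sum is
at most `4 pc * cpw (tw pc) 4 0 ≤ 8 pc`. `kapi_dec`: `Dc.tail` with `g = g' = cpw (tw pc) 2`, `x = 0`, `L = i - 1`.
-/

set_option autoImplicit false

namespace Pool.Agent.HD

open Finset
open scoped ENNReal

variable {m d : ℕ} {h : m ≤ d} {C : ℝ}

/-- The kernel of the recursion. -/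
noncomputable def kapi (d : ℕ) (e : Dir d) (i : ℕ) : ℝ≥0∞ :=
  ENNReal.ofReal (4 * pc d) * ∑' y : Vx d, if (i : ℤ) ≤ dt y e then
    ((dt y e - i + 1).toNat : ℝ≥0∞) * cv (tt (pc d)) (tt (pc d)) y ^ 2 else 0

private theorem N60_zero (e : Dir d) : dt (0 : Vx d) e = 0 := by
  unfold dt
  rw [Pi.zero_apply, mul_zero]

private theorem N60_exit {e : Dir d} {r : ℤ} {q : Vx d × Vx d} (h1 : dt q.1 e ≤ r - 1)
    (h2 : ¬ dt q.2 e ≤ r - 1) (h3 : Adj q.1 q.2) : dt q.1 e = r - 1 ∧ q.2 = q.1 + uv e := by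
  obtain ⟨e', he⟩ := (adj_iff_uv q.1 q.2).1 h3
  rw [he, dt_add] at h2
  by_cases hee : e' = e
  · subst hee
    rw [dt_uv] at h2
    exact ⟨by omega, he⟩
  · have := dt_uv_le e' e hee
    omega

private theorem N60_at (p : ℝ) (e : Dir d) (r : ℤ) (l : ℕ) (v : Vx d) :
    ∑' z : {z : Vx d // dt z e = r - 1 - l}, tauI p (Hf e r) v z = lev p e (r - dt v e) l := by
  unfold lev
  have hE : ∀ z : Vx d, dt z e = r - 1 - l ↔
      dt (Equiv.addRight (-v) z) e = r - dt v e - 1 - l := by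
    intro z
    rw [Equiv.coe_addRight, dt_add, dt_neg]
    constructor <;> intro h <;> omega
  refine Eq.trans ?_ ((Equiv.subtypeEquiv (Equiv.addRight (-v)) hE).tsum_eq
    (fun z : {z : Vx d // dt z e = r - dt v e - 1 - l} => tauI p (Hf e (r - dt v e)) 0 z.1))
  refine tsum_congr fun z => ?_
  have h1 := tauI_add p (Hf e r) v z.1 (-v)
  rw [add_neg_cancel] at h1
  have hi : (· + -v) '' Hf e r = Hf e (r - dt v e) := by
    ext w
    constructor
    · rintro ⟨u, hu, rfl⟩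
      have hu' : dt u e ≤ r - 1 := hu
      show dt (u + -v) e ≤ r - dt v e - 1
      rw [dt_add, dt_neg]
      omega
    · intro hw
      have hw' : dt w e ≤ r - dt v e - 1 := hw
      refine ⟨w + v, ?_, by simp⟩
      show dt (w + v) e ≤ r - 1
      rw [dt_add]
      omega
  rw [hi] at h1
  exact h1.symm

/-- The flux through the top plane from a point. -/
private theorem N60_G (p : ℝ) (e : Dir d) (r : ℤ) (v : Vx d) :
    ENNReal.ofReal p * ∑' z : {z : Vx d // dt z e = r - 1 - (0 : ℕ)}, tauI p (Hf e r) v z =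
      ff p e (r - dt v e) := by
  rw [N60_at]
  rfl

private theorem N60_exI (e : Dir d) {r R : ℤ} (h : r < R) :
    exI (Hf e r) (Hf e R) = exI (Hf e r) Set.univ := by
  ext q
  constructor
  · rintro ⟨h1, _, h3, h4⟩
    exact ⟨h1, Set.mem_univ _, h3, h4⟩
  · rintro ⟨h1, _, h3, h4⟩
    refine ⟨h1, ?_, h3, h4⟩
    obtain ⟨h5, h6⟩ := N60_exit h1 h3 h4
    show dt q.2 e ≤ R - 1
    rw [h6, dt_add, dt_uv]
    omega

private theorem N60_swap {ι α β γ : Type} (F : α → β → γ → ℝ≥0∞) (T : γ → ι → ℝ≥0∞) (c : ℝ≥0∞) :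
    ∑' x : ι, c * (∑' a, ∑' b, ∑' g, F a b g * T g x) =
      ∑' a, ∑' b, ∑' g, F a b g * (c * ∑' x, T g x) := by
  simp_rw [← ENNReal.tsum_mul_left]
  rw [ENNReal.tsum_comm]
  refine tsum_congr fun a => ?_
  rw [ENNReal.tsum_comm]
  refine tsum_congr fun b => ?_
  rw [ENNReal.tsum_comm]
  refine tsum_congr fun g => ?_
  refine tsum_congr fun x => ?_
  rw [mul_left_comm]

open Classical in
private theorem N60_swap2 {ι α β γ : Type} (X : α → α → β → ℝ≥0∞) (Y : α → α → γ → ℝ≥0∞)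
    (T : γ → ι → ℝ≥0∞) (c : ℝ≥0∞) :
    ∑' x : ι, c * (∑' a, ∑' a', if a = a' then 0 else ∑' b, X a a' b * ∑' g, Y a a' g * T g x) =
      ∑' a, ∑' a', if a = a' then 0 else ∑' b, X a a' b * ∑' g, Y a a' g * (c * ∑' x, T g x) := by
  simp_rw [← ENNReal.tsum_mul_left]
  rw [ENNReal.tsum_comm]
  refine tsum_congr fun a => ?_
  rw [ENNReal.tsum_comm]
  refine tsum_congr fun a' => ?_
  by_cases haa : a = a'
  · simp [haa]
  · simp_rw [if_neg haa]
    simp_rw [← ENNReal.tsum_mul_left]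
    rw [ENNReal.tsum_comm]
    refine tsum_congr fun b => ?_
    rw [ENNReal.tsum_comm]
    refine tsum_congr fun g => ?_
    refine tsum_congr fun x => ?_
    ring

private theorem N60_mono_p {p p' : ℝ} (hp : 0 ≤ p) (hpp : p ≤ p') (hp1 : p' ≤ 1) (e : Dir d)
    (r : ℤ) : ff p e r ≤ ff p' e r := by
  unfold ff lev
  exact mul_le_mul' (ENNReal.ofReal_le_ofReal hpp)
    (ENNReal.tsum_le_tsum fun z => tauI_mono_p hp hpp hp1 _ _ _)

private theorem N60_tt {p p' : ℝ} (hp : 0 ≤ p) (hpp : p ≤ p') (hp1 : p' ≤ 1) (x : Vx d) :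
    tt p x ≤ tt p' x := tauI_mono_p hp hpp hp1 _ _ _

private theorem N60_tw {p p' : ℝ} (hp : 0 ≤ p) (hpp : p ≤ p') (hp1 : p' ≤ 1) (x : Vx d) :
    tw p x ≤ tw p' x := mul_le_mul' le_rfl (N60_tt hp hpp hp1 x)

private theorem N60_box (e : Dir d) (r : ℤ) : BoxS {e} (fun _ => r) = Hf e r := by
  ext z
  simp [BoxS, Hf]

/-- The main inequality before the estimates of the errors. -/
private theorem N60_sum {q : ℝ} (hq : 0 ≤ q) (hq1 : q ≤ 1 / 2) (e : Dir d) {r R : ℤ} (hr : 1 ≤ r)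
    (hR : r < R) :
    open Classical in
    ff q e r * ff q e (R - r) ≤ ff q e R +
      (∑' a : exI (Hf e r) Set.univ, ∑' z : Vx d, ∑' c : Vx d,
        tauI q (Hf e r) 0 z * tauI q (Hf e r) z a.1.1 * ENNReal.ofReal q * tauI q (Hf e r) z c *
          tauI q (Hf e R) a.1.2 c * ff q e (R - dt c e)) +
      ∑' a : exI (Hf e r) Set.univ, ∑' a' : exI (Hf e r) Set.univ, if a = a' then 0 else
        ∑' z : Vx d, tauI q (Hf e r) 0 z * tauI q (Hf e r) z a.1.1 * tauI q (Hf e r) z a'.1.1 *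
          ENNReal.ofReal q ^ 2 * ∑' w : Vx d, tauI q (Hf e R) a.1.2 w *
            tauI q (Hf e R) a'.1.2 w * ff q e (R - dt w e) := by
  classical
  have hS : Hf e r ⊆ Hf (d := d) e R := fun z hz => by
    have hz' : dt z e ≤ r - 1 := hz
    show dt z e ≤ R - 1
    omega
  have h0 : (0 : Vx d) ∈ Hf e r := by
    show dt (0 : Vx d) e ≤ r - 1
    rw [N60_zero]
    omega
  have hb := fun x : {z : Vx d // dt z e = R - 1 - (0 : ℕ)} =>
    bonfI hq hq1 hS h0 x.1
  rw [N60_exI e hR] at hb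
  have hsum := ENNReal.tsum_le_tsum fun x => mul_le_mul_right (hb x) (ENNReal.ofReal q)
  have hG : ∀ v : Vx d, ENNReal.ofReal q * ∑' x : {z : Vx d // dt z e = R - 1 - (0 : ℕ)},
      tauI q (Hf e R) v x.1 = ff q e (R - dt v e) := fun v => N60_G q e R v
  have hL : ff q e r * ff q e (R - r) ≤ ∑' x : {z : Vx d // dt z e = R - 1 - (0 : ℕ)},
      ENNReal.ofReal q * (tauI q (Hf e r) 0 x.1 + ∑' a : exI (Hf e r) Set.univ,
        tauI q (Hf e r) 0 a.1.1 * ENNReal.ofReal q * tauI q (Hf e R) a.1.2 x.1) := by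
    have h1 : ∀ a : exI (Hf (d := d) e r) Set.univ,
        tauI q (Hf e r) 0 a.1.1 * ENNReal.ofReal q * (ENNReal.ofReal q *
          ∑' x : {z : Vx d // dt z e = R - 1 - (0 : ℕ)}, tauI q (Hf e R) a.1.2 x.1) =
        tauI q (Hf e r) 0 a.1.1 * ENNReal.ofReal q * ff q e (R - r) := by
      intro a
      obtain ⟨h1, _, h3, h4⟩ := a.2
      obtain ⟨h5, h6⟩ := N60_exit h1 h3 h4
      have h7 : dt a.1.2 e = r := by rw [h6, dt_add, dt_uv]; omega
      rw [hG, h7]
    calc ff q e r * ff q e (R - r)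
        = ∑' a : exI (Hf (d := d) e r) Set.univ,
          tauI q (Hf e r) 0 a.1.1 * ENNReal.ofReal q * (ENNReal.ofReal q *
          ∑' x : {z : Vx d // dt z e = R - 1 - (0 : ℕ)}, tauI q (Hf e R) a.1.2 x.1) := by
          rw [tsum_congr h1, ENNReal.tsum_mul_right, ff_eq_flux q e r hr]
          rfl
      _ = ∑' x : {z : Vx d // dt z e = R - 1 - (0 : ℕ)},
          ENNReal.ofReal q * (∑' a : exI (Hf e r) Set.univ,
            tauI q (Hf e r) 0 a.1.1 * ENNReal.ofReal q * tauI q (Hf e R) a.1.2 x.1) := by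
          simp_rw [← ENNReal.tsum_mul_left]
          rw [ENNReal.tsum_comm]
          refine tsum_congr fun x => tsum_congr fun a => ?_
          rw [mul_left_comm]
      _ ≤ _ := ENNReal.tsum_le_tsum fun x => mul_le_mul_right le_add_self _
  refine (hL.trans hsum).trans (le_of_eq ?_)
  simp_rw [mul_add]
  rw [ENNReal.tsum_add, ENNReal.tsum_add]
  refine congrArg₂ (· + ·) (congrArg₂ (· + ·) ?_ ?_) ?_
  · rw [ENNReal.tsum_mul_left, hG, N60_zero, sub_zero]
  · have e1 := N60_swap (ι := {z : Vx d // dt z e = R - 1 - (0 : ℕ)})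
      (fun (a : exI (Hf (d := d) e r) Set.univ) (z c : Vx d) =>
        tauI q (Hf e r) 0 z * tauI q (Hf e r) z a.1.1 * ENNReal.ofReal q * tauI q (Hf e r) z c *
          tauI q (Hf e R) a.1.2 c) (fun c x => tauI q (Hf e R) c x.1) (ENNReal.ofReal q)
    simp_rw [hG] at e1
    rw [← e1]
    simp_rw [mul_assoc]
  · have e2 := N60_swap2 (ι := {z : Vx d // dt z e = R - 1 - (0 : ℕ)})
      (fun (a a' : exI (Hf (d := d) e r) Set.univ) (z : Vx d) =>
        tauI q (Hf e r) 0 z * tauI q (Hf e r) z a.1.1 * tauI q (Hf e r) z a'.1.1 *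
          ENNReal.ofReal q ^ 2)
      (fun (a a' : exI (Hf (d := d) e r) Set.univ) (w : Vx d) => tauI q (Hf e R) a.1.2 w *
            tauI q (Hf e R) a'.1.2 w) (fun c x => tauI q (Hf e R) c x.1) (ENNReal.ofReal q)
    simp_rw [hG] at e2
    refine Eq.trans ?_ e2
    refine tsum_congr fun x => ?_
    refine congrArg _ (tsum_congr fun a => tsum_congr fun a' => ?_)
    by_cases haa : a = a'
    · rw [if_pos haa, if_pos haa]
    · rw [if_neg haa, if_neg haa]

private theorem N60_cv (p : ℝ) (a b : Vx d) :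
    ∑' c : Vx d, tt p (c - a) * tt p (c - b) = cv (tt p) (tt p) (b - a) := by
  unfold cv
  rw [← (Equiv.addRight a).tsum_eq (fun c : Vx d => tt p (c - a) * tt p (c - b))]
  refine tsum_congr fun y => ?_
  have h1 : (Equiv.addRight a) y - a = y := by simp
  have h2 : (Equiv.addRight a) y - b = -(b - a - y) := by
    show y + a - b = -(b - a - y)
    abel
  rw [h1, h2, tt_neg]

/-- The first error. -/
private theorem N60_e1 {q : ℝ} (hq : 0 ≤ q) (hq1 : q ≤ 1) (e : Dir d) {r n : ℤ}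
    (hn : 1 ≤ n) (hF : ∀ (e : Dir d) (r : ℤ), 1 ≤ r → ff q e r ≤ 2) :
    (∑' a : exI (Hf e r) Set.univ, ∑' z : Vx d, ∑' c : Vx d,
        tauI q (Hf e r) 0 z * tauI q (Hf e r) z a.1.1 * ENNReal.ofReal q * tauI q (Hf e r) z c *
          tauI q (Hf e (n + r)) a.1.2 c * ff q e (n + r - dt c e)) ≤
      er1 q (Hf e r) * (ff q e n * 2) := by
  unfold er1
  rw [← ENNReal.tsum_mul_right]
  refine ENNReal.tsum_le_tsum fun a => ?_
  rw [← ENNReal.tsum_mul_right]
  refine ENNReal.tsum_le_tsum fun z => ?_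
  rw [← N60_cv, ← ENNReal.tsum_mul_left, ← ENNReal.tsum_mul_right]
  refine ENNReal.tsum_le_tsum fun c => ?_
  by_cases hcS : c ∈ Hf e r
  · have hc' : dt c e ≤ r - 1 := hcS
    have h1 : ff q e (n + r - dt c e) ≤ ff q e n * 2 := by
      have h2 : n + r - dt c e = n + (r - dt c e) := by ring
      rw [h2]
      exact (ff_submul hq hq1 e hn (by omega)).trans (mul_le_mul' le_rfl (hF e _ (by omega)))
    have h3 := tauI_le_tt hq hq1 (Hf e r) z a.1.1
    have h4 := tauI_le_tt hq hq1 (Hf e r) z c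
    have h5 := tauI_le_tt hq hq1 (Hf e (n + r)) a.1.2 c
    calc tauI q (Hf e r) 0 z * tauI q (Hf e r) z a.1.1 * ENNReal.ofReal q * tauI q (Hf e r) z c *
          tauI q (Hf e (n + r)) a.1.2 c * ff q e (n + r - dt c e)
        ≤ tauI q (Hf e r) 0 z * tt q (a.1.1 - z) * ENNReal.ofReal q * tt q (c - z) *
          tt q (c - a.1.2) * (ff q e n * 2) := by gcongr
      _ = _ := by ring
  · rw [tauI_zero_right q hcS z]
    simp

private theorem N60_pt {q : ℝ} (hq : 0 ≤ q) (hq1 : q ≤ 1) (e : Dir d) {r n : ℕ}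
    (hn : 1 ≤ n) (hF : ∀ (e : Dir d) (r : ℤ), 1 ≤ r → ff q e r ≤ 2) (v v' w : Vx d) :
    tauI q (Hf e (n + r : ℕ)) v w * tauI q (Hf e (n + r : ℕ)) v' w *
        ff q e ((n + r : ℕ) - dt w e) ≤
      tt q (w - v') * tt q (w - v) * (ff q e n * 2) + ∑ i ∈ Ico 1 n,
        (if dt w e = r + i then tt q (w - v) * tt q (w - v') else 0) * ff q e (n - i : ℕ) := by
  have h3 := tauI_le_tt hq hq1 (Hf e (n + r : ℕ)) v w
  have h4 := tauI_le_tt hq hq1 (Hf e (n + r : ℕ)) v' w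
  by_cases hw : w ∈ Hf (d := d) e (n + r : ℕ)
  · have hw' : dt w e ≤ (n + r : ℕ) - 1 := hw
    push_cast at hw'
    by_cases h1 : dt w e ≤ r
    · refine le_trans ?_ le_self_add
      have h5 : ff q e ((n + r : ℕ) - dt w e) ≤ ff q e n * 2 := by
        rcases h1.eq_or_lt with h6 | h6
        · have h7 : ((n + r : ℕ) : ℤ) - dt w e = n := by push_cast; omega
          rw [h7]
          exact le_mul_of_one_le_right zero_le (by norm_num)
        · have h7 : ((n + r : ℕ) : ℤ) - dt w e = n + (r - dt w e) := by push_cast; ring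
          rw [h7]
          exact (ff_submul hq hq1 e (by exact_mod_cast hn) (by omega)).trans
            (mul_le_mul' le_rfl (hF e _ (by omega)))
      rw [mul_comm (tt q (w - v'))]
      exact mul_le_mul' (mul_le_mul' h3 h4) h5
    · refine le_trans ?_ le_add_self
      push Not at h1
      obtain ⟨i, hi⟩ : ∃ i : ℕ, dt w e = r + i := ⟨(dt w e - r).toNat, by omega⟩
      have hin : i ∈ Ico 1 n := by
        rw [Finset.mem_Ico]
        constructor <;> omega
      refine le_trans ?_ (Finset.single_le_sum (f := fun i : ℕ =>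
        (if dt w e = r + i then tt q (w - v) * tt q (w - v') else 0) * ff q e (n - i : ℕ))
        (fun _ _ => zero_le) hin)
      rw [Finset.mem_Ico] at hin
      have h7 : ((n + r : ℕ) : ℤ) - dt w e = (n - i : ℕ) := by
        push_cast
        rw [Nat.cast_sub (by omega), hi]
        ring
      show _ ≤ (if dt w e = r + i then tt q (w - v) * tt q (w - v') else 0) * ff q e (n - i : ℕ)
      rw [if_pos hi, h7]
      exact mul_le_mul' (mul_le_mul' h3 h4) le_rfl
  · rw [tauI_zero_right q hw v]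
    simp

/-- The part of the second error at height `i`. -/
private noncomputable def N60_K (q : ℝ) (e : Dir d) (r : ℕ) (i : ℕ) : ℝ≥0∞ :=
  ∑' a : exI (Hf (d := d) e r) Set.univ, ∑' a' : exI (Hf (d := d) e r) Set.univ, ∑' z : Vx d,
    tauI q (Hf e r) 0 z * tt q (a.1.1 - z) * tt q (a'.1.1 - z) * ENNReal.ofReal q ^ 2 *
      ∑' w : Vx d, if dt w e = r + i then tt q (w - a.1.2) * tt q (w - a'.1.2) else 0

private theorem N60_e2 {q : ℝ} (hq : 0 ≤ q) (hq1 : q ≤ 1) (e : Dir d) {r n : ℕ}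
    (hn : 1 ≤ n) (hF : ∀ (e : Dir d) (r : ℤ), 1 ≤ r → ff q e r ≤ 2) :
    open Classical in
    (∑' a : exI (Hf (d := d) e r) Set.univ, ∑' a' : exI (Hf (d := d) e r) Set.univ,
        if a = a' then 0 else
        ∑' z : Vx d, tauI q (Hf e r) 0 z * tauI q (Hf e r) z a.1.1 * tauI q (Hf e r) z a'.1.1 *
          ENNReal.ofReal q ^ 2 * ∑' w : Vx d, tauI q (Hf e (n + r : ℕ)) a.1.2 w *
            tauI q (Hf e (n + r : ℕ)) a'.1.2 w * ff q e ((n + r : ℕ) - dt w e)) ≤
      er2 q (Hf e r) * (ff q e n * 2) + ∑ i ∈ Ico 1 n, N60_K q e r i * ff q e (n - i : ℕ) := by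
  classical
  have hterm : ∀ a a' : exI (Hf (d := d) e r) Set.univ,
      (if a = a' then 0 else
        ∑' z : Vx d, tauI q (Hf e r) 0 z * tauI q (Hf e r) z a.1.1 * tauI q (Hf e r) z a'.1.1 *
          ENNReal.ofReal q ^ 2 * ∑' w : Vx d, tauI q (Hf e (n + r : ℕ)) a.1.2 w *
            tauI q (Hf e (n + r : ℕ)) a'.1.2 w * ff q e ((n + r : ℕ) - dt w e)) ≤
      (if a = a' then 0 else
        ∑' z : Vx d, tauI q (Hf e r) 0 z * tt q (a.1.1 - z) * tt q (a'.1.1 - z) *
          ENNReal.ofReal q ^ 2 * cv (tt q) (tt q) (a.1.2 - a'.1.2)) * (ff q e n * 2) +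
      ∑ i ∈ Ico 1 n, (∑' z : Vx d,
        tauI q (Hf e r) 0 z * tt q (a.1.1 - z) * tt q (a'.1.1 - z) * ENNReal.ofReal q ^ 2 *
        ∑' w : Vx d, if dt w e = r + i then tt q (w - a.1.2) * tt q (w - a'.1.2) else 0) *
        ff q e (n - i : ℕ) := by
    intro a a'
    by_cases haa : a = a'
    · rw [if_pos haa]
      exact zero_le
    · rw [if_neg haa, if_neg haa]
      have hw : ∑' w : Vx d, tauI q (Hf e (n + r : ℕ)) a.1.2 w *
            tauI q (Hf e (n + r : ℕ)) a'.1.2 w * ff q e ((n + r : ℕ) - dt w e) ≤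
          cv (tt q) (tt q) (a.1.2 - a'.1.2) * (ff q e n * 2) + ∑ i ∈ Ico 1 n,
            (∑' w : Vx d, if dt w e = r + i then tt q (w - a.1.2) * tt q (w - a'.1.2) else 0) *
              ff q e (n - i : ℕ) := by
        refine (ENNReal.tsum_le_tsum fun w => N60_pt hq hq1 e hn hF a.1.2 a'.1.2 w).trans
          (le_of_eq ?_)
        rw [ENNReal.tsum_add, ENNReal.tsum_mul_right, N60_cv,
          Summable.tsum_finsetSum fun _ _ => ENNReal.summable]
        refine congrArg _ (Finset.sum_congr rfl fun i _ => ?_)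
        rw [ENNReal.tsum_mul_right]
      calc ∑' z : Vx d, tauI q (Hf e r) 0 z * tauI q (Hf e r) z a.1.1 *
          tauI q (Hf e r) z a'.1.1 * ENNReal.ofReal q ^ 2 *
          ∑' w : Vx d, tauI q (Hf e (n + r : ℕ)) a.1.2 w *
            tauI q (Hf e (n + r : ℕ)) a'.1.2 w * ff q e ((n + r : ℕ) - dt w e)
          ≤ ∑' z : Vx d, tauI q (Hf e r) 0 z * tt q (a.1.1 - z) * tt q (a'.1.1 - z) *
            ENNReal.ofReal q ^ 2 * (cv (tt q) (tt q) (a.1.2 - a'.1.2) * (ff q e n * 2) +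
            ∑ i ∈ Ico 1 n, (∑' w : Vx d, if dt w e = r + i then
              tt q (w - a.1.2) * tt q (w - a'.1.2) else 0) * ff q e (n - i : ℕ)) := by
            refine ENNReal.tsum_le_tsum fun z => ?_
            have h3 := tauI_le_tt hq hq1 (Hf e r) z a.1.1
            have h4 := tauI_le_tt hq hq1 (Hf e r) z a'.1.1
            exact mul_le_mul' (mul_le_mul' (mul_le_mul' (mul_le_mul' le_rfl h3) h4) le_rfl) hw
        _ = _ := by
            simp_rw [mul_add, Finset.mul_sum]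
            rw [ENNReal.tsum_add, Summable.tsum_finsetSum fun _ _ => ENNReal.summable]
            refine congrArg₂ (· + ·) ?_ (Finset.sum_congr rfl fun i _ => ?_)
            · refine Eq.trans (tsum_congr fun z => ?_) ENNReal.tsum_mul_right
              rw [mul_assoc (tauI q (Hf e r) 0 z * tt q (a.1.1 - z) * tt q (a'.1.1 - z) *
                ENNReal.ofReal q ^ 2)]
            · refine Eq.trans (tsum_congr fun z => ?_) ENNReal.tsum_mul_right
              rw [mul_assoc (tauI q (Hf e r) 0 z * tt q (a.1.1 - z) * tt q (a'.1.1 - z) *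
                ENNReal.ofReal q ^ 2)]
  refine (ENNReal.tsum_le_tsum fun a => ENNReal.tsum_le_tsum fun a' => hterm a a').trans
    (le_of_eq ?_)
  unfold er2 N60_K
  simp_rw [ENNReal.tsum_add]
  refine congrArg₂ (· + ·) ?_ ?_
  · simp_rw [ENNReal.tsum_mul_right]
  · have h1 : ∀ a : exI (Hf (d := d) e r) Set.univ, ∑' a' : exI (Hf (d := d) e r) Set.univ,
        ∑ i ∈ Ico 1 n, (∑' z : Vx d,
        tauI q (Hf e r) 0 z * tt q (a.1.1 - z) * tt q (a'.1.1 - z) * ENNReal.ofReal q ^ 2 *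
        ∑' w : Vx d, if dt w e = r + i then tt q (w - a.1.2) * tt q (w - a'.1.2) else 0) *
        ff q e (n - i : ℕ) = ∑ i ∈ Ico 1 n, ∑' a' : exI (Hf (d := d) e r) Set.univ, (∑' z : Vx d,
        tauI q (Hf e r) 0 z * tt q (a.1.1 - z) * tt q (a'.1.1 - z) * ENNReal.ofReal q ^ 2 *
        ∑' w : Vx d, if dt w e = r + i then tt q (w - a.1.2) * tt q (w - a'.1.2) else 0) *
        ff q e (n - i : ℕ) := fun a => Summable.tsum_finsetSum fun _ _ => ENNReal.summable
    rw [tsum_congr h1, Summable.tsum_finsetSum fun _ _ => ENNReal.summable]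
    refine Finset.sum_congr rfl fun i _ => ?_
    simp_rw [ENNReal.tsum_mul_right]

private theorem N60_comm4 {α β γ : Type} (F : α → α → β → γ → ℝ≥0∞) :
    ∑' a, ∑' a', ∑' z, ∑' w, F a a' z w = ∑' z, ∑' w, ∑' a, ∑' a', F a a' z w := by
  calc ∑' a, ∑' a', ∑' z, ∑' w, F a a' z w
      = ∑' a, ∑' z, ∑' a', ∑' w, F a a' z w := tsum_congr fun a => ENNReal.tsum_comm
    _ = ∑' z, ∑' a, ∑' a', ∑' w, F a a' z w := ENNReal.tsum_comm
    _ = ∑' z, ∑' a, ∑' w, ∑' a', F a a' z w :=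
        tsum_congr fun z => tsum_congr fun a => ENNReal.tsum_comm
    _ = ∑' z, ∑' w, ∑' a, ∑' a', F a a' z w := tsum_congr fun z => ENNReal.tsum_comm

private theorem N60_sq {α : Type} (f : α → ℝ≥0∞) (c : ℝ≥0∞) :
    ∑' a, ∑' a', c * (f a * f a') = c * (∑' a, f a) ^ 2 := by
  simp_rw [ENNReal.tsum_mul_left, ENNReal.tsum_mul_right]
  rw [sq]

private theorem N60_f (q : ℝ) (e : Dir d) (r : ℤ) (z w : Vx d) :
    ∑' a : exI (Hf (d := d) e r) Set.univ, tt q (a.1.1 - z) * tt q (w - a.1.2) ≤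
      cv (tt q) (tt q) (w - uv e - z) := by
  have hinj : Function.Injective (fun a : exI (Hf (d := d) e r) Set.univ => a.1.1) := by
    intro a b hab
    obtain ⟨h1, _, h3, h4⟩ := a.2
    obtain ⟨h1', _, h3', h4'⟩ := b.2
    have e1 := (N60_exit h1 h3 h4).2
    have e2 := (N60_exit h1' h3' h4').2
    have hab' : a.1.1 = b.1.1 := hab
    exact Subtype.ext (Prod.ext hab' (by rw [e1, e2, hab']))
  rw [← N60_cv]
  refine le_trans (ENNReal.tsum_le_tsum fun a => ?_)
    (ENNReal.tsum_comp_le_tsum_of_injective hinj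
      (fun u : Vx d => tt q (u - z) * tt q (u - (w - uv e))))
  obtain ⟨h1, _, h3, h4⟩ := a.2
  have e1 := (N60_exit h1 h3 h4).2
  refine mul_le_mul' le_rfl (le_of_eq ?_)
  rw [← tt_neg, e1]
  congr 1
  abel

private noncomputable def N60_H (q : ℝ) (e : Dir d) (j : ℤ) : ℝ≥0∞ :=
  ∑' y : Vx d, if dt y e = j then cv (tt q) (tt q) y ^ 2 else 0

private theorem N60_C (q : ℝ) (e : Dir d) (j : ℤ) (z : Vx d) :
    (∑' w : Vx d, if dt w e = j then cv (tt q) (tt q) (w - uv e - z) ^ 2 else 0) =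
      N60_H q e (j - 1 - dt z e) := by
  unfold N60_H
  rw [← (Equiv.subRight (uv e + z)).tsum_eq (fun y : Vx d =>
    if dt y e = j - 1 - dt z e then cv (tt q) (tt q) y ^ 2 else 0)]
  refine tsum_congr fun w => ?_
  have h1 : (Equiv.subRight (uv e + z)) w = w - uv e - z := by
    show w - (uv e + z) = w - uv e - z
    abel
  have h2 : dt (w - uv e - z) e = dt w e - 1 - dt z e := by
    rw [sub_eq_add_neg, sub_eq_add_neg, dt_add, dt_add, dt_neg, dt_neg, dt_uv]
    ring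
  rw [h1, h2]
  by_cases h : dt w e = j
  · rw [if_pos h, if_pos (by omega)]
  · rw [if_neg h, if_neg (by omega)]

private theorem N60_A (q : ℝ) (e : Dir d) (r i : ℕ) :
    N60_K q e r i ≤ ∑' z : Vx d, tauI q (Hf e r) 0 z *
      (ENNReal.ofReal q ^ 2 * N60_H q e (r + i - 1 - dt z e)) := by
  unfold N60_K
  simp_rw [← ENNReal.tsum_mul_left]
  rw [N60_comm4]
  refine ENNReal.tsum_le_tsum fun z => ?_
  rw [← N60_C, ← ENNReal.tsum_mul_left, ← ENNReal.tsum_mul_left]
  refine ENNReal.tsum_le_tsum fun w => ?_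
  by_cases h : dt w e = r + i
  · simp_rw [if_pos h]
    have h1 := N60_sq (fun a : exI (Hf (d := d) e r) Set.univ =>
      tt q (a.1.1 - z) * tt q (w - a.1.2)) (tauI q (Hf e r) 0 z * ENNReal.ofReal q ^ 2)
    calc ∑' a : exI (Hf (d := d) e r) Set.univ, ∑' a' : exI (Hf (d := d) e r) Set.univ,
          tauI q (Hf e r) 0 z * tt q (a.1.1 - z) * tt q (a'.1.1 - z) * ENNReal.ofReal q ^ 2 *
          (tt q (w - a.1.2) * tt q (w - a'.1.2))
        = ∑' a : exI (Hf (d := d) e r) Set.univ, ∑' a' : exI (Hf (d := d) e r) Set.univ,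
          (tauI q (Hf e r) 0 z * ENNReal.ofReal q ^ 2) *
          ((tt q (a.1.1 - z) * tt q (w - a.1.2)) * (tt q (a'.1.1 - z) * tt q (w - a'.1.2))) :=
          tsum_congr fun a => tsum_congr fun a' => by ring
      _ = (tauI q (Hf e r) 0 z * ENNReal.ofReal q ^ 2) *
          (∑' a : exI (Hf (d := d) e r) Set.univ, tt q (a.1.1 - z) * tt q (w - a.1.2)) ^ 2 := h1
      _ ≤ (tauI q (Hf e r) 0 z * ENNReal.ofReal q ^ 2) *
          (cv (tt q) (tt q) (w - uv e - z)) ^ 2 :=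
          mul_le_mul' le_rfl (pow_le_pow_left' (N60_f q e r z w) 2)
      _ = _ := by rw [mul_assoc]
  · simp_rw [if_neg h, mul_zero]
    simp

private theorem N60_D (q : ℝ) (e : Dir d) (r i : ℕ) :
    ∑' z : Vx d, tauI q (Hf e r) 0 z *
      (ENNReal.ofReal q ^ 2 * N60_H q e (r + i - 1 - dt z e)) ≤
      ∑' l : ℕ, lev q e r l * (ENNReal.ofReal q ^ 2 * N60_H q e (i + l)) := by
  have h1 : ∀ z : Vx d, tauI q (Hf e r) 0 z *
      (ENNReal.ofReal q ^ 2 * N60_H q e (r + i - 1 - dt z e)) ≤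
      ∑' l : ℕ, ({z : Vx d | dt z e = (r : ℤ) - 1 - l}.indicator
        (fun z => tauI q (Hf e r) 0 z) z) * (ENNReal.ofReal q ^ 2 * N60_H q e (i + l)) := by
    intro z
    by_cases hz : z ∈ Hf (d := d) e r
    · have hz' : dt z e ≤ r - 1 := hz
      obtain ⟨l, hl⟩ : ∃ l : ℕ, dt z e = (r : ℤ) - 1 - l := ⟨((r : ℤ) - 1 - dt z e).toNat, by omega⟩
      refine le_trans ?_ (ENNReal.le_tsum l)
      rw [Set.indicator_of_mem (show z ∈ {z : Vx d | dt z e = (r : ℤ) - 1 - l} from hl)]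
      have h2 : (r : ℤ) + i - 1 - dt z e = i + l := by rw [hl]; ring
      rw [h2]
    · rw [tauI_zero_right q hz 0]
      simp
  refine (ENNReal.tsum_le_tsum h1).trans (le_of_eq ?_)
  rw [ENNReal.tsum_comm]
  refine tsum_congr fun l => ?_
  rw [ENNReal.tsum_mul_right, ← _root_.tsum_subtype]
  rfl

private theorem N60_F (q : ℝ) (e : Dir d) (i : ℕ) :
    ∑' l : ℕ, ((l : ℝ≥0∞) + 1) * N60_H q e (i + l) ≤ ∑' y : Vx d, if (i : ℤ) ≤ dt y e then
      ((dt y e - i + 1).toNat : ℝ≥0∞) * cv (tt q) (tt q) y ^ 2 else 0 := by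
  unfold N60_H
  simp_rw [← ENNReal.tsum_mul_left]
  rw [ENNReal.tsum_comm]
  refine ENNReal.tsum_le_tsum fun y => ?_
  by_cases h : (i : ℤ) ≤ dt y e
  · rw [if_pos h]
    obtain ⟨l0, hl0⟩ : ∃ l : ℕ, dt y e = i + l := ⟨(dt y e - i).toNat, by omega⟩
    rw [tsum_eq_single l0]
    · rw [if_pos hl0]
      have h3 : (dt y e - i + 1).toNat = l0 + 1 := by omega
      rw [h3]
      push_cast
      exact le_rfl
    · intro l hl
      rw [if_neg (by omega), mul_zero]
  · rw [if_neg h]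
    refine le_of_eq (ENNReal.tsum_eq_zero.2 fun l => ?_)
    rw [if_neg (by omega), mul_zero]

private theorem N60_Kk {q : ℝ} (hq : 0 < q) {p : ℝ} (hqp : q ≤ p) (hp1 : p ≤ 1) (e : Dir d)
    {r : ℕ} (hr : 1 ≤ r) (i : ℕ) (hp : p = pc d)
    (hF : ∀ (e : Dir d) (r : ℤ), 1 ≤ r → ff q e r ≤ 2) : N60_K q e r i ≤ kapi d e i := by
  have hq1 : q ≤ 1 := hqp.trans hp1
  have hq0 : ENNReal.ofReal q ≠ 0 := by
    rw [Ne, ENNReal.ofReal_eq_zero]
    exact not_le.2 hq
  have hlev : ∀ (e : Dir d) (r : ℤ), 1 ≤ r → lev q e r 0 ≤ 2 / ENNReal.ofReal q := by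
    intro e r hr
    rw [ENNReal.le_div_iff_mul_le (Or.inl hq0) (Or.inl ENNReal.ofReal_ne_top), mul_comm]
    exact hF e r hr
  have hl := lev_le hq.le hq1 (by norm_num : (1 : ℝ≥0∞) ≤ 2) hF hlev e
    (r := r) (by exact_mod_cast hr)
  have hH : ∀ j : ℤ, N60_H q e j ≤ N60_H p e j := by
    intro j
    unfold N60_H
    refine ENNReal.tsum_le_tsum fun y => ?_
    by_cases h : dt y e = j
    · rw [if_pos h, if_pos h]
      exact pow_le_pow_left' (cv_mono (N60_tt hq.le hqp hp1) (N60_tt hq.le hqp hp1) y) 2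
    · rw [if_neg h, if_neg h]
  refine (N60_A q e r i).trans ((N60_D q e r i).trans ?_)
  unfold kapi
  rw [← hp]
  refine le_trans ?_ (mul_le_mul' le_rfl (N60_F p e i))
  rw [← ENNReal.tsum_mul_left]
  refine ENNReal.tsum_le_tsum fun l => ?_
  calc lev q e r l * (ENNReal.ofReal q ^ 2 * N60_H q e (i + l))
      ≤ ((l + 1) * 2 * (2 / ENNReal.ofReal q)) * (ENNReal.ofReal q ^ 2 * N60_H p e (i + l)) := by
        gcongr
        · exact hl l
        · exact hH _
    _ = 4 * ((ENNReal.ofReal q)⁻¹ * ENNReal.ofReal q) * ENNReal.ofReal q *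
        ((l + 1) * N60_H p e (i + l)) := by
        rw [div_eq_mul_inv]
        ring
    _ = ENNReal.ofReal (4 * q) * ((l + 1) * N60_H p e (i + l)) := by
        rw [ENNReal.inv_mul_cancel hq0 ENNReal.ofReal_ne_top, mul_one,
          ENNReal.ofReal_mul (by norm_num : (0 : ℝ) ≤ 4)]
        norm_num
    _ ≤ _ := by
        gcongr

theorem ff_rec (hc : Crit m d h C) {q : ℝ} (hq : 1 / (4 * d : ℝ) ≤ q) (hq' : q < pc d) (e : Dir d)
    {r n : ℕ} (hr : 1 ≤ r) (hn : 1 ≤ n) :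
    ff q e r * ff q e n ≤ ff q e (n + r : ℕ) + ENNReal.ofReal (1 / 40) * ff q e n +
      ∑ i ∈ Ico 1 n, kapi d e i * ff q e (n - i : ℕ) := by
  classical
  have hd : 0 < d := lt_of_lt_of_le (by norm_num) (hc.m_ge.trans h)
  have hd' : (0 : ℝ) < d := by exact_mod_cast hd
  have hq0 : 0 < q := lt_of_lt_of_le (by positivity) hq
  have hpc := hc.pc_hi
  have hq1 : q ≤ 1 := by linarith
  have hq2 : q ≤ 1 / 2 := by linarith
  have hpc1 : pc d ≤ 1 := by linarith
  have hF : ∀ (e : Dir d) (r : ℤ), 1 ≤ r → ff q e r ≤ 2 := fun e r hr =>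
    (N60_mono_p hq0.le hq'.le hpc1 e r).trans (hc.ff_le e r hr)
  have hr' : (1 : ℤ) ≤ r := by exact_mod_cast hr
  have hn' : (1 : ℤ) ≤ n := by exact_mod_cast hn
  have hR : (r : ℤ) < (n + r : ℕ) := by push_cast; omega
  have h0 := N60_sum hq0.le hq2 e hr' hR
  have hnr : ((n + r : ℕ) : ℤ) - r = n := by push_cast; ring
  rw [hnr] at h0
  have h1 := N60_e1 hq0.le hq1 e (r := r) hn' hF
  rw [show (n : ℤ) + r = (n + r : ℕ) from by push_cast; rfl] at h1
  have h2 := N60_e2 hq0.le hq1 e (r := r) hn hF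
  have h3 : er1 q (Hf e r) ≤ 4 * ENNReal.ofReal (1 / 1000) := by
    have := er1_box (p := q) hq0.le hq1 (F := 2) (w := ENNReal.ofReal (1 / 1000)) (by norm_num) hF
      (fun e => (cpw_mono (N60_tw hq0.le hq'.le hpc1) 3 _).trans (hc.w3 e)) {e}
      (R := fun _ => (r : ℤ)) (fun _ _ => hr')
    rw [N60_box] at this
    refine this.trans (le_of_eq ?_)
    rw [Finset.card_singleton, Nat.cast_one, one_mul]
    norm_num
  have h4 : er2 q (Hf e r) ≤ 8 * ENNReal.ofReal (1 / 1000) := by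
    have := er2_box (p := q) hq0.le hq1 (F := 2) (w := 2) (by norm_num) hF
      (fun e e' => (cpw_mono (N60_tw hq0.le hq'.le hpc1) 4 _).trans (hc.w4 _)) {e}
      (R := fun _ => (r : ℤ)) (fun _ _ => hr')
    rw [N60_box] at this
    refine this.trans ?_
    rw [Finset.card_singleton, Nat.cast_one, one_pow, one_mul]
    calc ENNReal.ofReal q * 2 ^ 2 * 2 = 8 * ENNReal.ofReal q := by ring
      _ ≤ _ := mul_le_mul' le_rfl (ENNReal.ofReal_le_ofReal (by linarith))
  have h5 : ∑ i ∈ Ico 1 n, N60_K q e r i * ff q e (n - i : ℕ) ≤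
      ∑ i ∈ Ico 1 n, kapi d e i * ff q e (n - i : ℕ) :=
    Finset.sum_le_sum fun i _ =>
      mul_le_mul' (N60_Kk hq0 hq'.le hpc1 e hr i rfl hF) le_rfl
  have h6 : er1 q (Hf e r) * (ff q e n * 2) + er2 q (Hf e r) * (ff q e n * 2) ≤
      ENNReal.ofReal (1 / 40) * ff q e n := by
    calc er1 q (Hf e r) * (ff q e n * 2) + er2 q (Hf e r) * (ff q e n * 2)
        ≤ 4 * ENNReal.ofReal (1 / 1000) * (ff q e n * 2) +
          8 * ENNReal.ofReal (1 / 1000) * (ff q e n * 2) :=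
          add_le_add (mul_le_mul' h3 le_rfl) (mul_le_mul' h4 le_rfl)
      _ = (24 * ENNReal.ofReal (1 / 1000)) * ff q e n := by ring
      _ ≤ _ := by
        refine mul_le_mul' ?_ le_rfl
        rw [show (24 : ℝ≥0∞) = ENNReal.ofReal 24 from by norm_num,
          ← ENNReal.ofReal_mul (by norm_num)]
        exact ENNReal.ofReal_le_ofReal (by norm_num)
  refine h0.trans ?_
  refine (add_le_add (add_le_add le_rfl h1) h2).trans ?_
  · calc ff q e (n + r : ℕ) + er1 q (Hf e r) * (ff q e n * 2) +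
          (er2 q (Hf e r) * (ff q e n * 2) + ∑ i ∈ Ico 1 n, N60_K q e r i * ff q e (n - i : ℕ))
        = ff q e (n + r : ℕ) + (er1 q (Hf e r) * (ff q e n * 2) +
          er2 q (Hf e r) * (ff q e n * 2)) + ∑ i ∈ Ico 1 n, N60_K q e r i * ff q e (n - i : ℕ) := by
          ring
      _ ≤ _ := add_le_add (add_le_add le_rfl h6) h5

/-! ### The kernel -/

private theorem N60_w2 (p : ℝ) (y : Vx d) :
    (1 + nm y : ℝ≥0∞) ^ 2 * cv (tt p) (tt p) y ≤ cpw (tw p) 2 y := by
  have e2 : cpw (tw (d := d) p) 2 = cv (tw p) (cpw (tw p) 1) := rfl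
  rw [e2, cpw_one]
  unfold cv
  rw [← ENNReal.tsum_mul_left]
  refine ENNReal.tsum_le_tsum fun x => ?_
  have h1 : nm y ≤ nm x + nm (y - x) := by
    have := nm_add_le x (y - x)
    rwa [add_sub_cancel] at this
  have h2 : (1 + nm y : ℝ≥0∞) ≤ (1 + nm x) * (1 + nm (y - x)) := by
    have h3 : 1 + nm y ≤ (1 + nm x) * (1 + nm (y - x)) := by nlinarith
    exact_mod_cast h3
  unfold tw
  calc (1 + nm y : ℝ≥0∞) ^ 2 * (tt p x * tt p (y - x))
      ≤ ((1 + nm x) * (1 + nm (y - x))) ^ 2 * (tt p x * tt p (y - x)) :=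
        mul_le_mul' (pow_le_pow_left' h2 2) le_rfl
    _ = _ := by ring

private theorem N60_sq2 (p : ℝ) (y : Vx d) :
    (1 + nm y : ℝ≥0∞) ^ 2 * cv (tt p) (tt p) y ^ 2 ≤ cpw (tw p) 2 y ^ 2 := by
  have h1 := N60_w2 p y
  have h2 : cv (tt p) (tt p) y ≤ cpw (tw p) 2 y := by
    refine le_trans ?_ h1
    refine le_mul_of_one_le_left zero_le ?_
    exact one_le_pow₀ le_self_add
  calc (1 + nm y : ℝ≥0∞) ^ 2 * cv (tt p) (tt p) y ^ 2
      = ((1 + nm y : ℝ≥0∞) ^ 2 * cv (tt p) (tt p) y) * cv (tt p) (tt p) y := by ring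
    _ ≤ cpw (tw p) 2 y * cpw (tw p) 2 y := mul_le_mul' h1 h2
    _ = _ := by rw [sq]

private theorem N60_four (p : ℝ) : ∑' y : Vx d, cpw (tw p) 2 y ^ 2 = cpw (tw (d := d) p) 4 0 := by
  have h1 : cpw (tw (d := d) p) 4 = cv (cpw (tw p) 2) (cpw (tw p) 2) := cpw_add (tw p) 2 2
  rw [h1]
  unfold cv
  refine tsum_congr fun y => ?_
  rw [zero_sub, cpw_neg (tw_neg p), sq]

private theorem N60_tri (D : ℕ) : ∑ i ∈ Finset.range D, (D - i) ≤ (1 + D) ^ 2 := by
  calc ∑ i ∈ Finset.range D, (D - i) ≤ ∑ i ∈ Finset.range D, D :=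
        Finset.sum_le_sum fun i _ => Nat.sub_le _ _
    _ = D * D := by simp
    _ ≤ _ := by nlinarith

theorem kapi_sum (hc : Crit m d h C) (e : Dir d) :
    ∑' i : ℕ, kapi d e (i + 1) ≤ ENNReal.ofReal (1 / 100) := by
  have hpc := hc.pc_hi
  unfold kapi
  rw [ENNReal.tsum_mul_left, ENNReal.tsum_comm]
  have h1 : ∀ y : Vx d, (∑' i : ℕ, if ((i + 1 : ℕ) : ℤ) ≤ dt y e then
      ((dt y e - (i + 1 : ℕ) + 1).toNat : ℝ≥0∞) * cv (tt (pc d)) (tt (pc d)) y ^ 2 else 0) ≤
      cpw (tw (pc d)) 2 y ^ 2 := by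
    intro y
    refine le_trans ?_ (N60_sq2 (pc d) y)
    obtain ⟨D, hD⟩ : ∃ D : ℕ, D = (dt y e).toNat := ⟨_, rfl⟩
    have hDn : D ≤ nm y := by
      have := abs_dt_le y e
      have := abs_le.1 this
      omega
    rw [tsum_eq_sum (s := Finset.range D) (fun i hi => ?_)]
    · have h2 : ∀ i ∈ Finset.range D, (if ((i + 1 : ℕ) : ℤ) ≤ dt y e then
          ((dt y e - (i + 1 : ℕ) + 1).toNat : ℝ≥0∞) * cv (tt (pc d)) (tt (pc d)) y ^ 2 else 0) =
          ((D - i : ℕ) : ℝ≥0∞) * cv (tt (pc d)) (tt (pc d)) y ^ 2 := by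
        intro i hi
        rw [Finset.mem_range] at hi
        rw [if_pos (by push_cast; omega)]
        congr 2
        push_cast
        omega
      rw [Finset.sum_congr rfl h2, ← Finset.sum_mul]
      refine mul_le_mul' ?_ le_rfl
      have h3 : ∑ i ∈ Finset.range D, (D - i) ≤ (1 + nm y) ^ 2 :=
        (N60_tri D).trans (Nat.pow_le_pow_left (by omega) 2)
      exact_mod_cast h3
    · rw [Finset.mem_range] at hi
      rw [if_neg (by push_cast; omega)]
  refine (mul_le_mul' le_rfl (ENNReal.tsum_le_tsum h1)).trans ?_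
  rw [N60_four]
  refine (mul_le_mul' le_rfl (hc.w4 0)).trans ?_
  rw [show (2 : ℝ≥0∞) = ENNReal.ofReal 2 from by norm_num, mul_comm,
    ← ENNReal.ofReal_mul (by norm_num)]
  exact ENNReal.ofReal_le_ofReal (by linarith)

theorem kapi_dec (hc : Crit m d h C) : ∃ C' : ℝ, 0 < C' ∧ ∀ (e : Dir d) (i : ℕ), 1 ≤ i →
    kapi d e i ≤ ENNReal.ofReal (C' / i ^ 6) := by
  have hm := hc.m_ge
  have hpc := hc.pc_hi
  obtain ⟨C2, hC2, H2⟩ := dc_cv m 10 10 (m - 11) (by omega) (by omega)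
  have hD0 := H2 d h _ _ _ _ hc.dc hc.dc
  have hcp : cpw (tw (d := d) (pc d)) 2 = cv (tw (pc d)) (tw (pc d)) := by
    have e2 : cpw (tw (d := d) (pc d)) 2 = cv (tw (pc d)) (cpw (tw (pc d)) 1) := rfl
    rw [e2, cpw_one]
  rw [← hcp] at hD0
  obtain ⟨A, hA⟩ : ∃ A : ℝ≥0∞, A = ENNReal.ofReal C2 * ENNReal.ofReal C * ENNReal.ofReal C :=
    ⟨_, rfl⟩
  rw [← hA] at hD0
  have hD : Dc h (cpw (tw (pc d)) 2) A 31 (m - 31) :=
    hD0.mono le_rfl (by omega) (by omega) (by omega)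
  obtain ⟨C3, hC3, H3⟩ := Dc.tail m 31 (m - 31) (by omega) (by omega)
  have hT := H3 d h _ _ _ _ _ _ hD hD
  obtain ⟨B, hB⟩ : ∃ B : ℝ≥0∞, B = ENNReal.ofReal C3 * A * A := ⟨_, rfl⟩
  have hBtop : B ≠ ⊤ := by
    rw [hB, hA]
    finiteness
  refine ⟨64 * B.toReal + 1, by positivity, fun e i hi => ?_⟩
  rcases hi.eq_or_lt with h1 | h1
  · subst h1
    have h2 := (ENNReal.le_tsum (f := fun i : ℕ => kapi d e (i + 1)) 0).trans (kapi_sum hc e)
    refine le_trans h2 (ENNReal.ofReal_le_ofReal ?_)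
    have : 0 ≤ B.toReal := ENNReal.toReal_nonneg
    norm_num
    linarith
  · have hL : 1 ≤ i - 1 := by omega
    have hnm : nm (0 : Vx d) = 0 := Nat.le_zero.1 (Finset.sup_le fun i _ => by simp)
    have h3 := hT (i - 1) hL 0 (by rw [hnm]; omega)
    have h4 : kapi d e i ≤
        cv (trc (i - 1) (cpw (tw (d := d) (pc d)) 2)) (cpw (tw (pc d)) 2) 0 := by
      unfold kapi
      refine (mul_le_of_le_one_left zero_le ?_).trans ?_
      · rw [show (1 : ℝ≥0∞) = ENNReal.ofReal 1 from by norm_num]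
        exact ENNReal.ofReal_le_ofReal (by linarith)
      · unfold cv
        refine ENNReal.tsum_le_tsum fun y => ?_
        by_cases hy : (i : ℤ) ≤ dt y e
        · have h5 : dt y e ≤ nm y := (abs_le.1 (abs_dt_le y e)).2
          have h6 : ¬ nm y ≤ i - 1 := by omega
          rw [if_pos hy]
          unfold trc
          rw [if_neg h6, zero_sub, cpw_neg (tw_neg (pc d)), ← sq]
          refine le_trans (mul_le_mul' ?_ le_rfl) (N60_sq2 (pc d) y)
          have h7 : (dt y e - i + 1).toNat ≤ (1 + nm y) ^ 2 := by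
            have : (dt y e - i + 1).toNat ≤ 1 + nm y := by omega
            nlinarith
          exact_mod_cast h7
        · rw [if_neg hy]
          exact zero_le
    have h5 : kapi d e i * (i : ℝ≥0∞) ^ 6 ≤ 64 * B := by
      have h6 : (i : ℝ≥0∞) ^ 6 ≤ 64 * ((i - 1 : ℕ) : ℝ≥0∞) ^ (m - 31 - 31) := by
        have h7 : i ^ 6 ≤ 64 * (i - 1) ^ (m - 31 - 31) := by
          calc i ^ 6 ≤ (2 * (i - 1)) ^ 6 := Nat.pow_le_pow_left (by omega) 6
            _ = 64 * (i - 1) ^ 6 := by rw [mul_pow]; norm_num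
            _ ≤ _ := Nat.mul_le_mul_left _ (Nat.pow_le_pow_right (by omega) (by omega))
        exact_mod_cast h7
      calc kapi d e i * (i : ℝ≥0∞) ^ 6
          ≤ cv (trc (i - 1) (cpw (tw (d := d) (pc d)) 2)) (cpw (tw (pc d)) 2) 0 *
            (64 * ((i - 1 : ℕ) : ℝ≥0∞) ^ (m - 31 - 31)) := mul_le_mul' h4 h6
        _ = 64 * (cv (trc (i - 1) (cpw (tw (d := d) (pc d)) 2)) (cpw (tw (pc d)) 2) 0 *
            ((i - 1 : ℕ) : ℝ≥0∞) ^ (m - 31 - 31)) := by ring
        _ ≤ 64 * B := by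
            rw [hB]
            exact mul_le_mul' le_rfl h3
    have hi0 : (0 : ℝ) < (i : ℝ) ^ 6 := by positivity
    rw [ENNReal.ofReal_div_of_pos hi0, ENNReal.ofReal_pow (by positivity), ENNReal.ofReal_natCast]
    have hi1 : (i : ℝ≥0∞) ^ 6 ≠ 0 := by
      have : (i : ℝ≥0∞) ≠ 0 := by
        exact_mod_cast (by omega : i ≠ 0)
      exact pow_ne_zero _ this
    rw [ENNReal.le_div_iff_mul_le (Or.inl hi1) (Or.inl (by finiteness))]
    refine h5.trans ?_
    rw [ENNReal.ofReal_add (by positivity) (by norm_num), ENNReal.ofReal_mul (by norm_num),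
      ENNReal.ofReal_toReal hBtop]
    refine le_trans (le_of_eq ?_) le_self_add
    norm_num

end Pool.Agent.HD
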