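import Mathlib

/-!
# Row N61: the window argument (real sequences)

Let `W k = {k r0 + 1, .., (k+1) r0}`, `A k = ∑_{n ∈ W k} f n`. Sum the recursion with `r = r0` over `n ∈ W k`:
`f r0 * A k ≤ A (k+1) + A k / 40 + (1/100) (A k + A (k-1)) + M r0 ∑_{j < k} A j` (the terms `i ≤ r0` lead to
`W k ∪ W (k-1)`; for `i > r0`, `κ i ≤ M`, and every `n' ≤ k r0` occurs at most `r0` times; `A (-1) = 0`).
Induction: `A j ≤ 4 A (j+1)` for `j < k` gives `A (k-1) ≤ 4 A k`, `∑_{j<k} A j ≤ 2 * 4^k A k`, so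
`A (k+1) ≥ A k (1/2 - 1/40 - 5/100 - 2 M r0 4^k) ≥ A k / 4`. `A 0 ≥ r0 / 2`, and some `n ∈ W K` has
`f n ≥ A K / r0`.
-/

set_option autoImplicit false

namespace Pool.Agent.HD

open Finset

private theorem N61_card (k r0 : ℕ) : (Ioc (k * r0) ((k + 1) * r0)).card = r0 := by
  rw [Nat.card_Ioc, add_mul, one_mul]
  omega

private theorem N61_small {f κ : ℕ → ℝ} (hf : ∀ n, 0 ≤ f n) (hκ : ∀ i, 0 ≤ κ i)
    (hs : ∀ N, ∑ i ∈ Ico 1 N, κ i ≤ 1 / 100) {r0 : ℕ} (k : ℕ) :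
    ∑ n ∈ Ioc (k * r0) ((k + 1) * r0), ∑ i ∈ (Ico 1 n).filter (fun i => i ≤ r0),
      κ i * f (n - i) ≤ 1 / 100 * ∑ n ∈ Ioc ((k - 1) * r0) ((k + 1) * r0), f n := by
  have h1 : ∀ n ∈ Ioc (k * r0) ((k + 1) * r0), ∑ i ∈ (Ico 1 n).filter (fun i => i ≤ r0),
      κ i * f (n - i) ≤ ∑ i ∈ Ico 1 (r0 + 1), κ i * (if i < n then f (n - i) else 0) := by
    intro n _
    calc ∑ i ∈ (Ico 1 n).filter (fun i => i ≤ r0), κ i * f (n - i)
        = ∑ i ∈ (Ico 1 n).filter (fun i => i ≤ r0), κ i * (if i < n then f (n - i) else 0) := by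
          refine Finset.sum_congr rfl fun i hi => ?_
          rw [Finset.mem_filter, Finset.mem_Ico] at hi
          rw [if_pos hi.1.2]
      _ ≤ ∑ i ∈ Ico 1 (r0 + 1), κ i * (if i < n then f (n - i) else 0) := by
          refine Finset.sum_le_sum_of_subset_of_nonneg ?_ ?_
          · intro i hi
            rw [Finset.mem_filter, Finset.mem_Ico] at hi
            rw [Finset.mem_Ico]
            omega
          · intro i _ _
            refine mul_nonneg (hκ i) ?_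
            split_ifs
            · exact hf _
            · exact le_rfl
  refine (Finset.sum_le_sum h1).trans ?_
  rw [Finset.sum_comm]
  have h2 : ∀ i ∈ Ico 1 (r0 + 1), ∑ n ∈ Ioc (k * r0) ((k + 1) * r0),
      κ i * (if i < n then f (n - i) else 0) ≤
      κ i * ∑ n ∈ Ioc ((k - 1) * r0) ((k + 1) * r0), f n := by
    intro i hi
    rw [Finset.mem_Ico] at hi
    rw [← Finset.mul_sum]
    refine mul_le_mul_of_nonneg_left ?_ (hκ i)
    rw [← Finset.sum_filter]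
    have h3 : ∑ n ∈ (Ioc (k * r0) ((k + 1) * r0)).filter (fun n => i < n), f (n - i) =
        ∑ n ∈ ((Ioc (k * r0) ((k + 1) * r0)).filter (fun n => i < n)).image (fun n => n - i),
          f n := by
      rw [Finset.sum_image]
      intro a ha b hb hab
      rw [Finset.mem_coe, Finset.mem_filter] at ha hb
      have : a - i = b - i := hab
      omega
    rw [h3]
    refine Finset.sum_le_sum_of_subset_of_nonneg ?_ (fun n _ _ => hf n)
    intro n hn
    obtain ⟨n', hn', rfl⟩ := Finset.mem_image.1 hn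
    rw [Finset.mem_filter, Finset.mem_Ioc] at hn'
    rw [Finset.mem_Ioc]
    refine ⟨?_, by omega⟩
    rcases Nat.eq_zero_or_pos k with hk | hk
    · subst hk
      simp only [Nat.zero_sub, zero_mul]
      omega
    · obtain ⟨j, rfl⟩ : ∃ j, k = j + 1 := ⟨k - 1, by omega⟩
      rw [Nat.add_sub_cancel]
      have h4 : (j + 1) * r0 = j * r0 + r0 := by ring
      omega
  refine (Finset.sum_le_sum h2).trans ?_
  rw [← Finset.sum_mul]
  exact mul_le_mul_of_nonneg_right (hs _) (Finset.sum_nonneg fun n _ => hf n)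

private theorem N61_large {f κ : ℕ → ℝ} (hf : ∀ n, 0 ≤ f n) {r0 : ℕ} {M : ℝ} (hM0 : 0 ≤ M)
    (hM : ∀ i, r0 < i → κ i ≤ M) (k : ℕ) :
    ∑ n ∈ Ioc (k * r0) ((k + 1) * r0), ∑ i ∈ (Ico 1 n).filter (fun i => ¬ i ≤ r0),
      κ i * f (n - i) ≤ r0 * (M * ∑ n ∈ Ioc 0 (k * r0), f n) := by
  have h1 : ∀ n ∈ Ioc (k * r0) ((k + 1) * r0), ∑ i ∈ (Ico 1 n).filter (fun i => ¬ i ≤ r0),
      κ i * f (n - i) ≤ M * ∑ n ∈ Ioc 0 (k * r0), f n := by
    intro n hn
    rw [Finset.mem_Ioc] at hn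
    calc ∑ i ∈ (Ico 1 n).filter (fun i => ¬ i ≤ r0), κ i * f (n - i)
        ≤ ∑ i ∈ (Ico 1 n).filter (fun i => ¬ i ≤ r0), M * f (n - i) := by
          refine Finset.sum_le_sum fun i hi => ?_
          rw [Finset.mem_filter] at hi
          exact mul_le_mul_of_nonneg_right (hM i (not_le.1 hi.2)) (hf _)
      _ = M * ∑ i ∈ (Ico 1 n).filter (fun i => ¬ i ≤ r0), f (n - i) := by rw [Finset.mul_sum]
      _ ≤ M * ∑ n ∈ Ioc 0 (k * r0), f n := by
          refine mul_le_mul_of_nonneg_left ?_ hM0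
          have h3 : ∑ i ∈ (Ico 1 n).filter (fun i => ¬ i ≤ r0), f (n - i) =
              ∑ j ∈ ((Ico 1 n).filter (fun i => ¬ i ≤ r0)).image (fun i => n - i), f j := by
            rw [Finset.sum_image]
            intro a ha b hb hab
            rw [Finset.mem_coe, Finset.mem_filter, Finset.mem_Ico] at ha hb
            have : n - a = n - b := hab
            omega
          rw [h3]
          refine Finset.sum_le_sum_of_subset_of_nonneg ?_ (fun n _ _ => hf n)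
          intro j hj
          obtain ⟨i, hi, rfl⟩ := Finset.mem_image.1 hj
          rw [Finset.mem_filter, Finset.mem_Ico] at hi
          rw [Finset.mem_Ioc]
          have h4 : (k + 1) * r0 = k * r0 + r0 := by ring
          omega
  refine (Finset.sum_le_card_nsmul _ _ _ h1).trans (le_of_eq ?_)
  rw [N61_card, nsmul_eq_mul]

theorem windows {f κ : ℕ → ℝ} (hf : ∀ n, 0 ≤ f n) (hκ : ∀ i, 0 ≤ κ i)
    (hrec : ∀ r n, 1 ≤ r → 1 ≤ n →
      f r * f n ≤ f (n + r) + f n / 40 + ∑ i ∈ Ico 1 n, κ i * f (n - i))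
    (hs : ∀ N, ∑ i ∈ Ico 1 N, κ i ≤ 1 / 100) {r0 K : ℕ} (hr : 1 ≤ r0)
    (hhalf : ∀ n, 1 ≤ n → n ≤ r0 → 1 / 2 ≤ f n) {M : ℝ} (hM : ∀ i, r0 < i → κ i ≤ M)
    (hM' : 2 * M * r0 * 4 ^ K ≤ 1 / 10) :
    ∃ n, K * r0 < n ∧ n ≤ (K + 1) * r0 ∧ (1 / 4 : ℝ) ^ K / 2 ≤ f n := by
  have hM0 : 0 ≤ M := (hκ (r0 + 1)).trans (hM (r0 + 1) (Nat.lt_succ_self r0))
  obtain ⟨A, hA⟩ : ∃ A : ℕ → ℝ, ∀ k, A k = ∑ n ∈ Ioc (k * r0) ((k + 1) * r0), f n :=
    ⟨_, fun _ => rfl⟩
  obtain ⟨B, hB⟩ : ∃ B : ℕ → ℝ, ∀ k, B k = ∑ n ∈ Ioc ((k - 1) * r0) ((k + 1) * r0), f n :=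
    ⟨_, fun _ => rfl⟩
  obtain ⟨Sm, hSm⟩ : ∃ Sm : ℕ → ℝ, ∀ k, Sm k = ∑ n ∈ Ioc 0 (k * r0), f n := ⟨_, fun _ => rfl⟩
  have hA0 : ∀ k, 0 ≤ A k := by
    intro k
    rw [hA]
    exact Finset.sum_nonneg fun n _ => hf n
  have hstep : ∀ k, A k / 2 ≤ A (k + 1) + A k / 40 + 1 / 100 * B k + r0 * (M * Sm k) := by
    intro k
    have h1 : ∀ n ∈ Ioc (k * r0) ((k + 1) * r0), f n / 2 ≤ f (n + r0) + f n / 40 +
        (∑ i ∈ (Ico 1 n).filter (fun i => i ≤ r0), κ i * f (n - i) +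
        ∑ i ∈ (Ico 1 n).filter (fun i => ¬ i ≤ r0), κ i * f (n - i)) := by
      intro n hn
      rw [Finset.mem_Ioc] at hn
      have h2 := hrec r0 n hr (by omega)
      have h3 := hhalf r0 hr le_rfl
      rw [Finset.sum_filter_add_sum_filter_not]
      have h4 : f n / 2 ≤ f r0 * f n := by nlinarith [hf n]
      linarith
    have h5 := Finset.sum_le_sum h1
    rw [Finset.sum_add_distrib, Finset.sum_add_distrib, Finset.sum_add_distrib,
      ← Finset.sum_div, ← Finset.sum_div] at h5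
    have h6 : ∑ n ∈ Ioc (k * r0) ((k + 1) * r0), f (n + r0) = A (k + 1) := by
      rw [hA, show (k + 1) * r0 = k * r0 + r0 by ring,
        show (k + 1 + 1) * r0 = (k * r0 + r0) + r0 by ring,
        ← Finset.map_add_right_Ioc (k * r0) (k * r0 + r0) r0, Finset.sum_map]
      rfl
    rw [h6, ← hA] at h5
    have h7 := N61_small (f := f) (κ := κ) hf hκ hs (r0 := r0) k
    have h8 := N61_large (f := f) (κ := κ) hf hM0 hM k
    rw [← hB] at h7
    rw [← hSm] at h8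
    linarith
  have hB0 : B 0 = A 0 := by
    rw [hB, hA]
  have hBs : ∀ k, B (k + 1) = A k + A (k + 1) := by
    intro k
    rw [hB, hA, hA, Nat.add_sub_cancel]
    exact (Finset.sum_Ioc_consecutive f (Nat.mul_le_mul_right _ (Nat.le_succ k))
      (Nat.mul_le_mul_right _ (Nat.le_succ (k + 1)))).symm
  have hS0 : Sm 0 = 0 := by
    rw [hSm]
    simp
  have hSs : ∀ k, Sm (k + 1) = Sm k + A k := by
    intro k
    rw [hSm, hSm, hA]
    exact (Finset.sum_Ioc_consecutive f (Nat.zero_le _)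
      (Nat.mul_le_mul_right _ (Nat.le_succ k))).symm
  have key : ∀ k, k ≤ K → B k ≤ 5 * A k ∧ Sm k ≤ 4 / 3 * (4 ^ k - 1) * A k ∧
      (1 / 4) ^ k * A 0 ≤ A k := by
    intro k
    induction k with
    | zero =>
      intro _
      refine ⟨?_, ?_, ?_⟩
      · rw [hB0]
        linarith [hA0 0]
      · rw [hS0]
        simp
      · simp
    | succ k ih =>
      intro hk
      obtain ⟨i1, i2, i3⟩ := ih (by omega)
      have h1 := hstep k
      have h4K : (4 : ℝ) ^ k ≤ 4 ^ K := pow_le_pow_right₀ (by norm_num) (by omega)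
      have hr0 : (0 : ℝ) ≤ r0 := Nat.cast_nonneg _
      have h4k : (1 : ℝ) ≤ 4 ^ k := one_le_pow₀ (by norm_num)
      have h2 : (r0 : ℝ) * (M * Sm k) ≤ 1 / 10 * A k := by
        have e1 : (r0 : ℝ) * (M * Sm k) ≤ r0 * (M * (4 / 3 * (4 ^ k - 1) * A k)) :=
          mul_le_mul_of_nonneg_left (mul_le_mul_of_nonneg_left i2 hM0) hr0
        have e2 : (r0 : ℝ) * M * (2 * 4 ^ K) ≤ 1 / 10 := by linarith
        have e3 : (r0 : ℝ) * M * (4 / 3 * (4 ^ k - 1)) ≤ r0 * M * (2 * 4 ^ K) :=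
          mul_le_mul_of_nonneg_left (by linarith) (mul_nonneg hr0 hM0)
        have e4 : (r0 : ℝ) * M * (4 / 3 * (4 ^ k - 1)) * A k ≤ 1 / 10 * A k :=
          mul_le_mul_of_nonneg_right (e3.trans e2) (hA0 k)
        calc (r0 : ℝ) * (M * Sm k) ≤ r0 * (M * (4 / 3 * (4 ^ k - 1) * A k)) := e1
          _ = r0 * M * (4 / 3 * (4 ^ k - 1)) * A k := by ring
          _ ≤ 1 / 10 * A k := e4
      have h3 : A k / 4 ≤ A (k + 1) := by linarith [hA0 k]
      refine ⟨?_, ?_, ?_⟩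
      · rw [hBs]
        linarith
      · rw [hSs, pow_succ]
        have e5 : 0 ≤ 4 / 3 * ((4 : ℝ) ^ k - 1) + 1 := by linarith
        have e6 : Sm k + A k ≤ (4 / 3 * (4 ^ k - 1) + 1) * A k := by linarith
        have e7 : (4 / 3 * ((4 : ℝ) ^ k - 1) + 1) * A k ≤
            (4 / 3 * (4 ^ k - 1) + 1) * (4 * A (k + 1)) :=
          mul_le_mul_of_nonneg_left (by linarith) e5
        have e8 : (4 / 3 * ((4 : ℝ) ^ k - 1) + 1) * (4 * A (k + 1)) =
            4 / 3 * (4 ^ k * 4 - 1) * A (k + 1) := by ring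
        linarith
      · rw [pow_succ]
        linarith
  obtain ⟨-, -, h9⟩ := key K le_rfl
  have hA00 : (r0 : ℝ) / 2 ≤ A 0 := by
    rw [hA]
    have h1 : ∀ n ∈ Ioc (0 * r0) ((0 + 1) * r0), (1 / 2 : ℝ) ≤ f n := by
      intro n hn
      rw [Finset.mem_Ioc] at hn
      exact hhalf n (by omega) (by omega)
    have h2 := Finset.card_nsmul_le_sum _ _ _ h1
    rw [N61_card, nsmul_eq_mul] at h2
    linarith
  have h10 : ∑ n ∈ Ioc (K * r0) ((K + 1) * r0), (1 / 4 : ℝ) ^ K / 2 ≤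
      ∑ n ∈ Ioc (K * r0) ((K + 1) * r0), f n := by
    rw [Finset.sum_const, N61_card, nsmul_eq_mul, ← hA]
    have h11 : (1 / 4 : ℝ) ^ K * (r0 / 2) ≤ (1 / 4) ^ K * A 0 :=
      mul_le_mul_of_nonneg_left hA00 (by positivity)
    calc (r0 : ℝ) * ((1 / 4) ^ K / 2) = (1 / 4 : ℝ) ^ K * (r0 / 2) := by ring
      _ ≤ (1 / 4) ^ K * A 0 := h11
      _ ≤ A K := h9
  have hne : (Ioc (K * r0) ((K + 1) * r0)).Nonempty := by
    rw [← Finset.card_pos, N61_card]
    exact hr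
  obtain ⟨n, hn, hfn⟩ := Finset.exists_le_of_sum_le hne h10
  rw [Finset.mem_Ioc] at hn
  exact ⟨n, hn.1, hn.2, hfn⟩

end Pool.Agent.HD
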