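import Pool.Agent.Lib.MP_8ca597_hd.B02
import Pool.Agent.Lib.MP_8ca597_hd.S10

/-!
# Row N62: the probability to reach a plane

`sub_EF`: for `K := cl T (Bx d n) 0`, `n` large, `cl T V 0 ⊆ K` (monotone in the domain), and
`PP (Bx d n) {A K} ≤ ∑_{K ⊆ Bx d n \ Bd d n, A K} ww q K + PP {0 ↔ Bd d n}`; the last probability is
`1 - ∑_{K ⊆ Bx d n \ Bd d n} ww q K` (`sum_ww_box`) and tends to `theta = 0` (`sub_theta`).
`reach_ge`: for finite `V ⊆ Hf e H` and finite `F ⊆ {dt z e = H - 1}` let `X = |cl T V 0 ∩ F|`: `EE X ≤ √(EE X²) √(PP (X > 0))`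
(`EE_cs` with the indicator), `X ≤ |cl|`, `second_moment_le`, `sub_EF`; take suprema.
-/

set_option autoImplicit false

namespace Pool.Agent.HD

open Finset
open scoped ENNReal

variable {d : ℕ}

private theorem n62_cl_mono {T : Finset (Ed d)} {V W : Finset (Vx d)} (h : V ⊆ W) (x : Vx d) :
    cl T V x ⊆ cl T W x := by
  intro y hy
  rw [mem_cl] at hy ⊢
  exact hy.mono (Finset.Subset.refl T) (by exact_mod_cast h)

private theorem n62_dep (V : Finset (Vx d)) (A : Finset (Vx d) → Prop) :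
    Dep {T : Finset (Ed d) | A (cl T V 0)} (edges V) := by
  intro T T' h
  have h1 := cl_inter_edges T V (0 : Vx d)
  have h2 := cl_inter_edges T' V (0 : Vx d)
  rw [h] at h1
  rw [Set.mem_ofPred_eq, Set.mem_ofPred_eq, ← h1, ← h2]

private theorem n62_nbh {n : ℕ} {K : Finset (Vx d)} (hK : K ⊆ Bx d n \ Bd d n) :
    nbh K ⊆ Bx d n := by
  intro y hy
  rw [mem_nbh] at hy
  rcases hy with hy | ⟨x, hx, ha⟩
  · exact (Finset.mem_sdiff.1 (hK hy)).1
  · have h1 := Finset.mem_sdiff.1 (hK hx)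
    rw [mem_Bx, mem_Bd] at h1
    rw [mem_Bx]
    have h2 := nm_adj ha
    omega

open Classical in
private theorem n62_box {q : ℝ} (hq : 0 ≤ q) (hq1 : q ≤ 1) (A : Finset (Vx d) → Prop) (n : ℕ) :
    ENNReal.ofReal (PP q (edges (Bx d n)) {T | A (cl T (Bx d n) 0)}) ≤
      ENNReal.ofReal (1 - ∑ K ∈ (Bx d n \ Bd d n).powerset, ww q K) +
        EF q fun K => if A K then 1 else 0 := by
  have h1 : PP q (edges (Bx d n)) {T | A (cl T (Bx d n) 0)} ≤
      (1 - ∑ K ∈ (Bx d n \ Bd d n).powerset, ww q K) +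
        ∑ K ∈ (Bx d n \ Bd d n).powerset.filter A, ww q K := by
    have e1 : 1 - ∑ K ∈ (Bx d n \ Bd d n).powerset, ww q K =
        PP q (edges (Bx d n)) {T | ¬ ∃ b ∈ Bd d n, Conn T (Bx d n) 0 b}ᶜ := by
      rw [sum_ww_box, PP_compl]
    have e2 : ∑ K ∈ (Bx d n \ Bd d n).powerset.filter A,
        PP q (edges (Bx d n)) {T | cl T (Bx d n) 0 = K} ≤
        ∑ K ∈ (Bx d n \ Bd d n).powerset.filter A, ww q K := by
      refine Finset.sum_le_sum fun K hK => ?_
      rw [Finset.mem_filter, Finset.mem_powerset] at hK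
      by_cases h0 : (0 : Vx d) ∈ K
      · exact (PP_cl_eq q (n62_nbh hK.1) h0).le
      · have h0B : (0 : Vx d) ∈ Bx d n := by
          rw [mem_Bx]
          have : nm (0 : Vx d) = 0 := by
            unfold nm
            simp
          omega
        have e3 : PP q (edges (Bx d n)) {T | cl T (Bx d n) 0 = K} =
            PP q (edges (Bx d n)) (∅ : Set (Finset (Ed d))) := by
          refine PP_congr fun T _ => ?_
          refine ⟨fun h => ?_, fun h => absurd h (Set.notMem_empty T)⟩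
          have h2 : cl T (Bx d n) 0 = K := h
          exact absurd (h2 ▸ self_mem_cl h0B) h0
        rw [e3, PP_empty]
        exact ww_nonneg hq hq1 K
    rw [e1]
    refine le_trans ?_ (add_le_add_right e2 _)
    have e4 := PP_exists_le (S := edges (Bx d n)) hq hq1
      ((Bx d n \ Bd d n).powerset.filter A) (fun K => {T | cl T (Bx d n) 0 = K})
    refine le_trans ?_ (add_le_add_right e4 _)
    refine le_trans ?_ (PP_union_le hq hq1)
    refine PP_mono hq hq1 fun T _ hT => ?_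
    by_cases hb : ∃ b ∈ Bd d n, Conn T (Bx d n) 0 b
    · left
      exact fun hn => hn hb
    · right
      refine ⟨cl T (Bx d n) 0, ?_, rfl⟩
      rw [Finset.mem_filter, Finset.mem_powerset]
      refine ⟨fun y hy => ?_, hT⟩
      rw [Finset.mem_sdiff]
      refine ⟨cl_subset _ _ _ hy, fun hyb => hb ⟨y, hyb, mem_cl.1 hy⟩⟩
  have h2 : (0 : ℝ) ≤ ∑ K ∈ (Bx d n \ Bd d n).powerset.filter A, ww q K :=
    Finset.sum_nonneg fun K _ => ww_nonneg hq hq1 K
  refine (ENNReal.ofReal_le_ofReal h1).trans ?_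
  refine (ENNReal.ofReal_add_le).trans ?_
  refine add_le_add_right ?_ _
  rw [ENNReal.ofReal_sum_of_nonneg fun K _ => ww_nonneg hq hq1 K, Finset.sum_filter]
  unfold EF
  refine le_trans (Finset.sum_le_sum fun K _ => ?_)
    (ENNReal.sum_le_tsum ((Bx d n \ Bd d n).powerset))
  by_cases hA : A K
  · simp only [if_pos hA, mul_one]
    exact le_rfl
  · simp only [if_neg hA]
    exact zero_le

open Classical in
theorem sub_EF {q : ℝ} (hq : 0 ≤ q) (hq1 : q ≤ 1) (hs : Sub d q) (A : Finset (Vx d) → Prop)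
    (hA : ∀ K K', K ⊆ K' → A K → A K') (V : Finset (Vx d)) :
    ENNReal.ofReal (PP q (edges V) {T | A (cl T V 0)}) ≤ EF q fun K => if A K then 1 else 0 := by
  refine ENNReal.le_of_forall_pos_le_add fun ε hε _ => ?_
  have hth := sub_theta hq hq1 hs
  unfold theta at hth
  have h1 : (1 : ℝ≥0∞) ≤ ∑' K : Finset (Vx d), ENNReal.ofReal (ww q K) := tsub_eq_zero_iff_le.1 hth
  have h2 : (1 : ℝ≥0∞) - ε < ∑' K : Finset (Vx d), ENNReal.ofReal (ww q K) := by
    refine lt_of_lt_of_le ?_ h1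
    exact ENNReal.sub_lt_self ENNReal.one_ne_top one_ne_zero (by exact_mod_cast hε.ne')
  rw [ENNReal.tsum_eq_iSup_sum, lt_iSup_iff] at h2
  obtain ⟨s, hs2⟩ := h2
  obtain ⟨n1, hn1⟩ := exists_box (s.sup id)
  obtain ⟨n2, hn2⟩ := exists_box V
  set n : ℕ := max n1 n2 + 1 with hn
  have hVn : V ⊆ Bx d n := by
    intro x hx
    have := hn2 hx
    rw [mem_Bx] at this ⊢
    omega
  have hsn : s ⊆ (Bx d n \ Bd d n).powerset := by
    intro K hK
    rw [Finset.mem_powerset]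
    intro x hx
    have h3 : K ≤ s.sup id := Finset.le_sup (f := id) hK
    have h4 := hn1 (h3 hx)
    rw [Finset.mem_sdiff, mem_Bx, mem_Bd]
    rw [mem_Bx] at h4
    omega
  have h5 : PP q (edges V) {T | A (cl T V 0)} ≤
      PP q (edges (Bx d n)) {T | A (cl T (Bx d n) 0)} := by
    rw [← PP_dep q (edges_mono hVn) (n62_dep V A)]
    exact PP_mono hq hq1 fun T _ hT => hA _ _ (n62_cl_mono hVn 0) hT
  refine (ENNReal.ofReal_le_ofReal h5).trans ((n62_box hq hq1 A n).trans ?_)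
  rw [add_comm]
  refine add_le_add_right ?_ _
  have h6 : (1 : ℝ≥0∞) ≤ ENNReal.ofReal (∑ K ∈ (Bx d n \ Bd d n).powerset, ww q K) + ε := by
    rw [← tsub_le_iff_right]
    refine hs2.le.trans ?_
    rw [ENNReal.ofReal_sum_of_nonneg fun K _ => ww_nonneg hq hq1 K]
    exact Finset.sum_le_sum_of_subset hsn
  have h7 : (0 : ℝ) ≤ ∑ K ∈ (Bx d n \ Bd d n).powerset, ww q K :=
    Finset.sum_nonneg fun K _ => ww_nonneg hq hq1 K
  rw [ENNReal.ofReal_sub _ h7, ENNReal.ofReal_one, tsub_le_iff_left]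
  exact h6

private theorem n62_finite {q : ℝ} (hq : 0 ≤ q) (hq1 : q ≤ 1 / 2) (e : Dir d)
    {H : ℕ} (V : Finset (Vx d)) (F : Finset {z : Vx d // dt z e = (H : ℤ) - 1 - (0 : ℕ)})
    {c : ℝ≥0∞} (hc : ∀ W : Finset (Vx d),
      ENNReal.ofReal (PP q (edges W) {T | ∃ x ∈ cl T W 0, (H : ℤ) - 1 ≤ dt x e}) ≤ c) :
    (∑ z ∈ F, ENNReal.ofReal (tau q V 0 z.1)) ^ 2 ≤ chi d q ^ 3 * c := by
  classical
  have hq1' : q ≤ 1 := by linarith
  set X : Finset (Ed d) → ℝ := fun T => ∑ z ∈ F, if z.1 ∈ cl T V 0 then (1 : ℝ) else 0 with hX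
  set B : Set (Finset (Ed d)) := {T | ∃ x ∈ cl T V 0, (H : ℤ) - 1 ≤ dt x e} with hB
  have h1 : EE q (edges V) X = ∑ z ∈ F, tau q V 0 z.1 := by
    rw [hX, EE_sum]
    exact Finset.sum_congr rfl fun z _ => (tau_eq_EE q V 0 z.1).symm
  have h2 : ∀ T, X T * (if T ∈ B then (1 : ℝ) else 0) = X T := by
    intro T
    by_cases hT : T ∈ B
    · rw [if_pos hT, mul_one]
    · rw [if_neg hT, mul_zero]
      symm
      refine Finset.sum_eq_zero fun z _ => ?_
      refine if_neg fun hz => hT ⟨z.1, hz, ?_⟩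
      have := z.2
      push_cast at this
      omega
  have h3 : EE q (edges V) X ^ 2 ≤
      EE q (edges V) (fun T => ((cl T V 0).card : ℝ) ^ 2) * PP q (edges V) B := by
    have h4 := EE_cs (S := edges V) hq hq1' X (fun T => if T ∈ B then (1 : ℝ) else 0)
    have h5 : (fun T => X T * (if T ∈ B then (1 : ℝ) else 0)) = X := funext h2
    rw [h5] at h4
    refine h4.trans ?_
    refine mul_le_mul ?_ ?_ (EE_nonneg hq hq1' fun T _ => sq_nonneg _)
      (EE_nonneg hq hq1' fun T _ => sq_nonneg _)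
    · refine EE_mono hq hq1' fun T _ => ?_
      have h6 : X T ≤ ((cl T V 0).card : ℝ) := by
        have h7 : X T = ((F.filter fun z => z.1 ∈ cl T V 0).card : ℝ) := by
          rw [hX]
          simp only
          rw [Finset.sum_ite, Finset.sum_const_zero, add_zero, Finset.sum_const, nsmul_eq_mul,
            mul_one]
        rw [h7]
        norm_cast
        refine Finset.card_le_card_of_injOn (fun z => z.1) ?_ ?_
        · intro z hz
          exact (Finset.mem_filter.1 hz).2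
        · intro a _ b _ hab
          exact Subtype.ext hab
      have h8 : 0 ≤ X T := Finset.sum_nonneg fun z _ => by
        by_cases hz : z.1 ∈ cl T V 0
        · rw [if_pos hz]; exact zero_le_one
        · rw [if_neg hz]
      exact pow_le_pow_left₀ h8 h6 2
    · rw [PP_def]
      refine EE_mono hq hq1' fun T _ => ?_
      by_cases hT : T ∈ B
      · rw [if_pos hT, if_pos hT, one_pow]
      · rw [if_neg hT, if_neg hT]
        norm_num
  have h9 : (∑ z ∈ F, ENNReal.ofReal (tau q V 0 z.1)) ^ 2 =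
      ENNReal.ofReal (EE q (edges V) X ^ 2) := by
    rw [h1, ENNReal.ofReal_pow (Finset.sum_nonneg fun z _ => tau_nonneg hq hq1' _ _ _),
      ENNReal.ofReal_sum_of_nonneg fun z _ => tau_nonneg hq hq1' _ _ _]
  rw [h9]
  refine (ENNReal.ofReal_le_ofReal h3).trans ?_
  rw [ENNReal.ofReal_mul (EE_nonneg hq hq1' fun T _ => sq_nonneg _)]
  exact mul_le_mul' (second_moment_le hq hq1 V) (hc V)

open Classical in
theorem reach_ge {q : ℝ} (hq : 0 ≤ q) (hq1 : q ≤ 1 / 2) (hs : Sub d q) (e : Dir d) {H : ℕ}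
    (hH : 1 ≤ H) : ff q e H ^ 2 ≤
      chi d q ^ 3 * EF q fun K => if ∃ x ∈ K, (H : ℤ) - 1 ≤ dt x e then 1 else 0 := by
  have hq1' : q ≤ 1 := by linarith
  set c : ℝ≥0∞ := EF q fun K => if ∃ x ∈ K, (H : ℤ) - 1 ≤ dt x e then 1 else 0 with hcdef
  have hc : ∀ W : Finset (Vx d),
      ENNReal.ofReal (PP q (edges W) {T | ∃ x ∈ cl T W 0, (H : ℤ) - 1 ≤ dt x e}) ≤ c := by
    intro W
    refine (sub_EF hq hq1' hs (fun K => ∃ x ∈ K, (H : ℤ) - 1 ≤ dt x e) ?_ W).trans (le_of_eq ?_)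
    · rintro K K' hK ⟨x, hx, hx'⟩
      exact ⟨x, hK hx, hx'⟩
    · rw [hcdef]
      congr 1
      funext K
      congr
  have hfin : ∀ F : Finset {z : Vx d // dt z e = (H : ℤ) - 1 - (0 : ℕ)},
      ∑ z ∈ F, tauI q (Hf e H) 0 z.1 ≤ (chi d q ^ 3 * c) ^ (1 / 2 : ℝ) := by
    intro F
    have e1 : ∑ z ∈ F, tauI q (Hf e H) 0 z.1 =
        ⨆ n : ℕ, ∑ z ∈ F, ENNReal.ofReal (tau q ((Bx d n).filter (· ∈ Hf e H)) 0 z.1) := by
      rw [← ENNReal.finsetSum_iSup_of_monotone]
      · exact Finset.sum_congr rfl fun z _ => tauI_seq hq hq1' (Hf e H) 0 z.1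
      · intro z m n hmn
        refine ENNReal.ofReal_le_ofReal (tau_mono hq hq1' ?_ 0 z.1)
        intro x hx
        rw [Finset.mem_filter, mem_Bx] at hx ⊢
        exact ⟨hx.1.trans hmn, hx.2⟩
    rw [e1]
    refine iSup_le fun n => ?_
    have h1 := n62_finite hq hq1 e ((Bx d n).filter (· ∈ Hf e H)) F hc
    have h2 := ENNReal.rpow_le_rpow h1 (by norm_num : (0 : ℝ) ≤ 1 / 2)
    rw [← ENNReal.rpow_natCast, ← ENNReal.rpow_mul] at h2
    have h3 : ((2 : ℕ) : ℝ) * (1 / 2) = 1 := by norm_num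
    rw [h3, ENNReal.rpow_one] at h2
    exact h2
  have hlev : lev q e H 0 ≤ (chi d q ^ 3 * c) ^ (1 / 2 : ℝ) := by
    unfold lev
    rw [ENNReal.tsum_eq_iSup_sum]
    exact iSup_le hfin
  have hff : ff q e H ≤ (chi d q ^ 3 * c) ^ (1 / 2 : ℝ) := by
    unfold ff
    refine le_trans ?_ hlev
    refine mul_le_of_le_one_left' ?_
    exact ENNReal.ofReal_le_one.2 hq1'
  refine (pow_le_pow_left' hff 2).trans (le_of_eq ?_)
  rw [← ENNReal.rpow_natCast, ← ENNReal.rpow_mul]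
  have h3 : (1 / 2 : ℝ) * ((2 : ℕ) : ℝ) = 1 := by norm_num
  rw [h3, ENNReal.rpow_one]

end Pool.Agent.HD
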