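import Pool.Agent.Lib.MP_8ca597_hd.SDefs
import Pool.Agent.Lib.MP_8ca597_hd.A15
import Pool.Agent.Lib.MP_8ca597_hd.A18

/-!
# Row S08: the truncated volume of the cluster

`vv p n = E (|C| ∧ n)`, `Pge p n = P (|C| ≥ n)`, computed in `Bx d n`. A connected set of fewer than `n`
vertices which contains `0`, together with its neighbours, is contained in `Bx d n`; so for
`V ⊇ Bx d n` both quantities can be computed in `V`:
`Pge p n = 1 - ∑ K, |K| < n, ww p K` (`PP_cl_eq`; `ww p K = 0` unless `K` is connected and contains `0`).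
-/

set_option autoImplicit false

namespace Pool.Agent.HD

open Finset
open scoped ENNReal

variable {d : ℕ} {p : ℝ}

/-- The expectation of the minimum of the volume of the cluster of `0` and `n`. -/
noncomputable def vv (d : ℕ) (p : ℝ) (n : ℕ) : ℝ :=
  EE p (edges (Bx d n)) fun T => (min (cl T (Bx d n) 0).card n : ℕ)

/-- The probability that the cluster of `0` has at least `n` vertices. -/
noncomputable def Pge (d : ℕ) (p : ℝ) (n : ℕ) : ℝ :=
  PP p (edges (Bx d n)) {T | n ≤ (cl T (Bx d n) 0).card}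

private theorem S08_nm_zero : nm (0 : Vx d) = 0 := by
  unfold nm
  simp

private theorem S08_Bx_mono {n m : ℕ} (h : n ≤ m) : Bx d n ⊆ Bx d m := by
  intro x hx
  rw [mem_Bx] at hx ⊢
  omega

private theorem S08_zero_mem (n : ℕ) : (0 : Vx d) ∈ Bx d n := by
  rw [mem_Bx, S08_nm_zero]
  exact Nat.zero_le n

/-- The cluster of `0` is small in the sup norm. -/
private theorem S08_cl {T : Finset (Ed d)} {V : Finset (Vx d)} (hV : (0 : Vx d) ∈ V) :
    nbh (cl T V 0) ⊆ Bx d (cl T V 0).card := by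
  classical
  obtain ⟨K, hK⟩ : ∃ K, K = cl T V 0 := ⟨_, rfl⟩
  have h1 : ∀ x : Vx d, x ∈ K → ∀ j ≤ nm x, ∃ y ∈ K, nm y = j := by
    intro x hx
    have h2 := conn_in_cl (hK ▸ hx)
    rw [← hK] at h2
    obtain ⟨h3, h4⟩ := h2
    clear hx
    induction h4 with
    | refl =>
      intro j hj
      rw [S08_nm_zero] at hj
      exact ⟨0, h3, by rw [S08_nm_zero]; omega⟩
    | @tail b c _ hs ih =>
      intro j hj
      by_cases hb : j ≤ nm b
      · exact ih j hb
      · have h5 := nm_adj hs.2.1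
        exact ⟨c, hs.1, by omega⟩
  have h2 : ∀ x ∈ K, nm x + 1 ≤ K.card := by
    intro x hx
    have h3 : range (nm x + 1) ⊆ K.image nm := by
      intro j hj
      rw [mem_range] at hj
      obtain ⟨y, hy, hyj⟩ := h1 x hx j (by omega)
      exact mem_image.2 ⟨y, hy, hyj⟩
    have h4 := card_le_card h3
    rw [card_range] at h4
    exact h4.trans card_image_le
  rw [← hK]
  intro y hy
  rw [mem_nbh] at hy
  rw [mem_Bx]
  rcases hy with hy | ⟨x, hx, hxy⟩
  · have := h2 y hy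
    omega
  · have h3 := h2 x hx
    have h4 := nm_adj hxy
    omega

private theorem S08_subset_nbh (K : Finset (Vx d)) : K ⊆ nbh K := fun x hx =>
  mem_nbh.2 (Or.inl hx)

/-- A cluster is small in the sup norm. -/
theorem nbh_subset_of_ww {K : Finset (Vx d)} (h : ww p K ≠ 0) : nbh K ⊆ Bx d K.card := by
  by_contra hcon
  apply h
  unfold ww
  rw [← PP_empty p (edges (nbh K))]
  refine PP_congr fun T _ => ⟨fun hT => ?_, fun hT => absurd hT (Set.notMem_empty _)⟩
  exfalso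
  apply hcon
  obtain ⟨h0, h1⟩ := hT
  have h2 := S08_cl (T := T) (V := nbh K) (S08_subset_nbh K h0)
  rwa [h1] at h2

private theorem S08_PP_cl (p : ℝ) {n : ℕ} {V K : Finset (Vx d)} (hV : Bx d n ⊆ V)
    (hK : K.card < n) : PP p (edges V) {T | cl T V 0 = K} = ww p K := by
  have h0V : (0 : Vx d) ∈ V := hV (S08_zero_mem n)
  have hempty : ∀ A : Set (Finset (Ed d)), (∀ T, T ∉ A) → PP p (edges V) A = 0 := by
    intro A hA
    rw [← PP_empty p (edges V)]
    exact PP_congr fun T _ => ⟨fun hT => absurd hT (hA T), fun hT => absurd hT (Set.notMem_empty _)⟩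
  by_cases h0 : (0 : Vx d) ∈ K
  · by_cases hn : nbh K ⊆ V
    · exact PP_cl_eq p hn h0
    · have h1 : ww p K = 0 := by
        by_contra hcon
        exact hn ((nbh_subset_of_ww hcon).trans ((S08_Bx_mono hK.le).trans hV))
      rw [h1]
      refine hempty _ fun T hT => hn ?_
      have h2 := S08_cl (T := T) h0V
      have h3 : cl T V 0 = K := hT
      rw [h3] at h2
      exact h2.trans ((S08_Bx_mono hK.le).trans hV)
  · rw [ww_zero p h0]
    refine hempty _ fun T hT => h0 ?_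
    have h3 : cl T V 0 = K := hT
    rw [← h3]
    exact self_mem_cl h0V

private theorem S08_key (p : ℝ) {n : ℕ} {V : Finset (Vx d)} (hV : Bx d n ⊆ V) :
    PP p (edges V) {T | n ≤ (cl T V 0).card} =
      1 - ∑ K ∈ (Bx d n).powerset.filter (fun K => K.card < n), ww p K := by
  have h0V : (0 : Vx d) ∈ V := hV (S08_zero_mem n)
  have h1 : ∑ K ∈ (Bx d n).powerset.filter (fun K => K.card < n), ww p K =
      PP p (edges V) {T | ∃ K ∈ (Bx d n).powerset.filter (fun K => K.card < n),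
        T ∈ {T | cl T V 0 = K}} := by
    rw [PP_exists_eq p _ (fun K : Finset (Vx d) => {T | cl T V 0 = K})]
    · refine sum_congr rfl fun K hK => ?_
      exact (S08_PP_cl p hV (mem_filter.1 hK).2).symm
    · intro T _ K _ K' _ h2 h3
      exact h2.symm.trans h3
  have h2 : PP p (edges V) {T | ∃ K ∈ (Bx d n).powerset.filter (fun K => K.card < n),
        T ∈ {T | cl T V 0 = K}} = PP p (edges V) {T | n ≤ (cl T V 0).card}ᶜ := by
    refine PP_congr fun T _ => ⟨?_, ?_⟩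
    · rintro ⟨K, hK, hT⟩ h3
      have h4 : cl T V 0 = K := hT
      have h5 : n ≤ (cl T V 0).card := h3
      rw [h4] at h5
      have h6 := (mem_filter.1 hK).2
      omega
    · intro h3
      have h4 : (cl T V 0).card < n := not_le.1 h3
      refine ⟨cl T V 0, mem_filter.2 ⟨mem_powerset.2 ?_, h4⟩, rfl⟩
      exact (S08_subset_nbh _).trans ((S08_cl h0V).trans (S08_Bx_mono h4.le))
  rw [h1, h2, PP_compl]
  ring

theorem Pge_eq_sub (p : ℝ) (n : ℕ) :
    Pge d p n = 1 - ∑ K ∈ (Bx d n).powerset.filter (fun K => K.card < n), ww p K :=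
  S08_key p (Subset.refl _)

theorem Pge_eq (p : ℝ) {n : ℕ} {V : Finset (Vx d)} (hV : Bx d n ⊆ V) :
    PP p (edges V) {T | n ≤ (cl T V 0).card} = Pge d p n := by
  rw [Pge_eq_sub, S08_key p hV]

private theorem S08_min (c n : ℕ) : ((min c n : ℕ) : ℝ) =
    ∑ k ∈ Icc 1 n, if k ≤ c then (1 : ℝ) else 0 := by
  rw [← sum_filter, sum_const, nsmul_eq_mul, mul_one]
  congr 1
  have h1 : (Icc 1 n).filter (fun k => k ≤ c) = Icc 1 (min c n) := by
    ext k
    rw [mem_filter, mem_Icc, mem_Icc, le_min_iff]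
    tauto
  rw [h1, Nat.card_Icc]
  omega

private theorem S08_vv (p : ℝ) {n : ℕ} {V : Finset (Vx d)} (hV : Bx d n ⊆ V) :
    (EE p (edges V) fun T => ((min (cl T V 0).card n : ℕ) : ℝ)) = ∑ k ∈ Icc 1 n, Pge d p k := by
  classical
  have h1 : (EE p (edges V) fun T => ((min (cl T V 0).card n : ℕ) : ℝ)) =
      EE p (edges V) fun T => ∑ k ∈ Icc 1 n, if k ≤ (cl T V 0).card then (1 : ℝ) else 0 :=
    EE_congr fun T _ => S08_min _ _
  rw [h1, EE_sum]
  refine sum_congr rfl fun k hk => ?_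
  rw [← Pge_eq p ((S08_Bx_mono (mem_Icc.1 hk).2).trans hV), PP_def]
  apply EE_congr
  intro T _
  by_cases h2 : k ≤ (cl T V 0).card
  · rw [if_pos h2, if_pos]
    exact h2
  · rw [if_neg h2, if_neg]
    exact h2

theorem vv_eq_sum (p : ℝ) (n : ℕ) : vv d p n = ∑ k ∈ Icc 1 n, Pge d p k :=
  S08_vv p (Subset.refl _)

theorem vv_eq (p : ℝ) {n : ℕ} {V : Finset (Vx d)} (hV : Bx d n ⊆ V) :
    (EE p (edges V) fun T => ((min (cl T V 0).card n : ℕ) : ℝ)) = vv d p n := by
  rw [vv_eq_sum, S08_vv p hV]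

theorem Pge_nonneg (hp : 0 ≤ p) (hp1 : p ≤ 1) (n : ℕ) : 0 ≤ Pge d p n := PP_nonneg hp hp1

theorem Pge_le_one (hp : 0 ≤ p) (hp1 : p ≤ 1) (n : ℕ) : Pge d p n ≤ 1 := PP_le_one hp hp1

theorem Pge_anti (hp : 0 ≤ p) (hp1 : p ≤ 1) {n n' : ℕ} (h : n ≤ n') :
    Pge d p n' ≤ Pge d p n := by
  rw [← Pge_eq p (S08_Bx_mono (d := d) h)]
  unfold Pge
  exact PP_mono hp hp1 fun T _ hT => h.trans hT

private theorem S08_cl_mono {T T' : Finset (Ed d)} (V : Finset (Vx d)) (h : T ⊆ T') (x : Vx d) :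
    cl T V x ⊆ cl T' V x := fun _ hy =>
  mem_cl.2 ((mem_cl.1 hy).mono h (Set.Subset.refl _))

theorem Pge_mono_p {p' : ℝ} (hp : 0 ≤ p) (hpp : p ≤ p') (hp1 : p' ≤ 1) (n : ℕ) :
    Pge d p n ≤ Pge d p' n := by
  unfold Pge
  refine PP_mono_p hp hpp hp1 ?_
  intro T T' h hT
  exact le_trans (show n ≤ (cl T (Bx d n) 0).card from hT) (card_le_card (S08_cl_mono _ h 0))

theorem vv_mono_p {p' : ℝ} (hp : 0 ≤ p) (hpp : p ≤ p') (hp1 : p' ≤ 1) (n : ℕ) :
    vv d p n ≤ vv d p' n := by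
  rw [vv_eq_sum, vv_eq_sum]
  exact sum_le_sum fun k _ => Pge_mono_p hp hpp hp1 k

theorem one_le_vv (hp : 0 ≤ p) (hp1 : p ≤ 1) {n : ℕ} (hn : 1 ≤ n) : 1 ≤ vv d p n := by
  unfold vv
  rw [← EE_const p (edges (Bx d n)) 1]
  refine EE_mono hp hp1 fun T _ => ?_
  have h1 : 1 ≤ (cl T (Bx d n) 0).card :=
    card_pos.2 ⟨0, self_mem_cl (S08_zero_mem n)⟩
  have h2 : 1 ≤ min (cl T (Bx d n) 0).card n := le_min h1 hn
  exact_mod_cast h2

theorem mul_Pge_le (hp : 0 ≤ p) (hp1 : p ≤ 1) (n : ℕ) : n * Pge d p n ≤ vv d p n := by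
  rw [vv_eq_sum]
  have h1 : ∑ k ∈ Icc 1 n, Pge d p n = n * Pge d p n := by
    rw [sum_const, nsmul_eq_mul, Nat.card_Icc]
    congr 2
  rw [← h1]
  exact sum_le_sum fun k hk => Pge_anti hp hp1 (mem_Icc.1 hk).2

/-- `P (|C| ≥ n)` is the sum of the probability that `n ≤ |C| < ∞` and of `theta`. -/
theorem EF_ge (hp : 0 ≤ p) (hp1 : p ≤ 1) (n : ℕ) :
    EF p (fun K : Finset (Vx d) => if n ≤ K.card then 1 else 0) + theta d p =
      ENNReal.ofReal (Pge d p n) := by
  classical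
  have hS := tsum_ww_le (d := d) hp hp1
  obtain ⟨s, hs⟩ : ∃ s : ℝ, s = ∑ K ∈ (Bx d n).powerset.filter (fun K => K.card < n), ww p K :=
    ⟨_, rfl⟩
  have hs0 : 0 ≤ s := by
    rw [hs]
    exact sum_nonneg fun K _ => ww_nonneg hp hp1 K
  have hlt : ∑' K : Finset (Vx d), (ENNReal.ofReal (ww p K) * if n ≤ K.card then 0 else 1) =
      ENNReal.ofReal s := by
    rw [tsum_eq_sum (s := (Bx d n).powerset.filter (fun K => K.card < n)), hs,
      ENNReal.ofReal_sum_of_nonneg fun K _ => ww_nonneg hp hp1 K]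
    · refine sum_congr rfl fun K hK => ?_
      rw [if_neg (not_le.2 (mem_filter.1 hK).2), mul_one]
    · intro K hK
      by_cases h1 : n ≤ K.card
      · rw [if_pos h1, mul_zero]
      · have h2 : ww p K = 0 := by
          by_contra hcon
          apply hK
          refine mem_filter.2 ⟨mem_powerset.2 ?_, not_le.1 h1⟩
          exact (S08_subset_nbh K).trans ((nbh_subset_of_ww hcon).trans
            (S08_Bx_mono (not_le.1 h1).le))
        rw [h2, ENNReal.ofReal_zero, zero_mul]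
  have hsplit : ∑' K : Finset (Vx d), ENNReal.ofReal (ww p K) =
      EF p (fun K : Finset (Vx d) => if n ≤ K.card then 1 else 0) + ENNReal.ofReal s := by
    rw [← hlt]
    unfold EF
    rw [← ENNReal.tsum_add]
    refine tsum_congr fun K => ?_
    show ENNReal.ofReal (ww p K) = ENNReal.ofReal (ww p K) * (if n ≤ K.card then 1 else 0) +
      ENNReal.ofReal (ww p K) * (if n ≤ K.card then 0 else 1)
    rw [← mul_add]
    split_ifs
    · rw [add_zero, mul_one]
    · rw [zero_add, mul_one]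
  rw [hsplit] at hS
  have hEt : EF p (fun K : Finset (Vx d) => if n ≤ K.card then 1 else 0) ≠ ⊤ := by
    intro h1
    rw [h1, top_add] at hS
    exact absurd hS (by simp)
  unfold theta
  rw [hsplit, Pge_eq_sub, ← hs, ENNReal.ofReal_sub _ hs0, ENNReal.ofReal_one]
  obtain ⟨E, hE⟩ : ∃ E, E = EF p (fun K : Finset (Vx d) => if n ≤ K.card then 1 else 0) :=
    ⟨_, rfl⟩
  rw [← hE] at hS ⊢
  rw [add_comm E (ENNReal.ofReal s)] at hS
  have h1 : E ≤ 1 - ENNReal.ofReal s := ENNReal.le_sub_of_add_le_left ENNReal.ofReal_ne_top hS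
  rw [add_comm E (ENNReal.ofReal s), ← tsub_tsub]
  exact add_tsub_cancel_of_le h1

theorem theta_le_Pge (hp : 0 ≤ p) (hp1 : p ≤ 1) (n : ℕ) :
    theta d p ≤ ENNReal.ofReal (Pge d p n) := by
  rw [← EF_ge hp hp1 n]
  exact le_add_self

/-- The truncated volume of the finite cluster. -/
theorem EF_min_le (hp : 0 ≤ p) (hp1 : p ≤ 1) (n : ℕ) :
    EF p (fun K : Finset (Vx d) => ((min K.card n : ℕ) : ℝ≥0∞)) ≤ ENNReal.ofReal (vv d p n) := by
  classical
  have h1 : ∀ K : Finset (Vx d), ((min K.card n : ℕ) : ℝ≥0∞) =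
      ∑ k ∈ Icc 1 n, if k ≤ K.card then (1 : ℝ≥0∞) else 0 := by
    intro K
    rw [← sum_filter, sum_const, nsmul_eq_mul, mul_one]
    congr 1
    have h1 : (Icc 1 n).filter (fun k => k ≤ K.card) = Icc 1 (min K.card n) := by
      ext k
      rw [mem_filter, mem_Icc, mem_Icc, le_min_iff]
      tauto
    rw [h1, Nat.card_Icc]
    omega
  have h2 : EF p (fun K : Finset (Vx d) => ((min K.card n : ℕ) : ℝ≥0∞)) =
      ∑ k ∈ Icc 1 n, EF p (fun K : Finset (Vx d) => if k ≤ K.card then 1 else 0) := by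
    unfold EF
    rw [← Summable.tsum_finsetSum fun _ _ => ENNReal.summable]
    refine tsum_congr fun K => ?_
    show ENNReal.ofReal (ww p K) * ((min K.card n : ℕ) : ℝ≥0∞) =
      ∑ k ∈ Icc 1 n, ENNReal.ofReal (ww p K) * (if k ≤ K.card then 1 else 0)
    rw [h1, mul_sum]
  rw [h2, vv_eq_sum, ENNReal.ofReal_sum_of_nonneg fun k _ => Pge_nonneg hp hp1 k]
  refine sum_le_sum fun k _ => ?_
  rw [← EF_ge hp hp1 k]
  exact le_self_add

theorem vv_le_chi (hp : 0 ≤ p) (hp1 : p ≤ 1) (n : ℕ) :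
    ENNReal.ofReal (vv d p n) ≤ chi d p := by
  classical
  have h1 : vv d p n ≤ ∑ x ∈ Bx d n, tau p (Bx d n) 0 x := by
    have h2 : ∑ x ∈ Bx d n, tau p (Bx d n) 0 x = EE p (edges (Bx d n)) fun T =>
        ∑ x ∈ Bx d n, if x ∈ cl T (Bx d n) 0 then (1 : ℝ) else 0 := by
      rw [EE_sum]
      exact sum_congr rfl fun x _ => tau_eq_EE p (Bx d n) 0 x
    rw [h2]
    refine EE_mono hp hp1 fun T _ => ?_
    have h3 : (∑ x ∈ Bx d n, if x ∈ cl T (Bx d n) 0 then (1 : ℝ) else 0) =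
        (cl T (Bx d n) 0).card := by
      rw [← sum_filter, sum_const, nsmul_eq_mul, mul_one]
      congr 2
      ext x
      rw [mem_filter]
      exact ⟨fun h => h.2, fun h => ⟨cl_subset _ _ _ h, h⟩⟩
    rw [h3]
    exact_mod_cast min_le_left _ _
  refine (ENNReal.ofReal_le_ofReal h1).trans ?_
  rw [ENNReal.ofReal_sum_of_nonneg fun x _ => tau_nonneg hp hp1 _ _ _]
  exact (sum_le_sum fun x _ => le_tauI p (Set.subset_univ _) 0 x).trans
    (ENNReal.sum_le_tsum (Bx d n))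

end Pool.Agent.HD
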