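import Pool.Agent.Lib.MP_8ca597_hd.A04
import Pool.Agent.Lib.MP_8ca597_hd.A07
import Pool.Agent.Lib.MP_8ca597_hd.S08

/-!
# Row N63: exponential tail of the volume in the subcritical phase

`branch`: strong induction on `|T ∩ edges V|` for all `a`. If `a ∈ S`: `w = a`, `I = {a}`, witnesses `∅`, `∅`, `T`.
Otherwise choose `x0 ∈ S` and an open self-avoiding path `a, u, .., x0`; with `T' = T.erase s(a, u)`,
`Conn T' V u x0`. If `u` is connected in `T'` to all of `S`, apply the induction hypothesis to `T'`, `u` and add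
the edge `s(a, u)` to the first witness. If not, let `J` be the set of the `x ∈ S` connected to `u` in `T'` (`x0 ∈ J`)
and `I = S \ J ≠ ∅`. A path in `T` from `a` to `x ∈ I` does not visit the component of `u` in `T'`, so `x` is connected
to `a` in `T'`, and `a` is not in the component of `u`. `w = a`, witnesses `∅`, the edges of `T'` in the component of
`a` (for `I`), and `s(a, u)` with the edges of `T'` in the component of `u` (for `J`).
`gen_le`: `|S| = 1` gives `t χ`; for `|S| ≥ 2` sum `branch` over `w`, `I ⊆ S`, with `bk3`; the map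
`(S, I) ↦ (I, S \ I)` is injective: `≤ X G²`.
`gen_small`: if the maximum over the (finitely many) `V ⊆ V0`, `a ∈ V0` of `gen t` is a continuous function
`g` of `t` (polynomials), `g 0 = 0`; if `g t > 1/(2X)` for some `t ≤ 1/(8X²)`, then `g t' = 1/(2X)` for some `t' ≤ t`
(intermediate value theorem), and `1/(2X) ≤ t' X + X / (4 X²)`, a contradiction.
`vol_tail`: `(1 + t)^{|C|} = ∑_{S ⊆ C} t^{|S|}`, so `EE (1 + t)^{|C|} ≤ 1 + 1/(2X) ≤ 2`, Markov, and
`(1 + 1/(8X²))^n ≥ exp (n / (16 X²))`.
-/

set_option autoImplicit false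

namespace Pool.Agent.HD

open Finset
open scoped ENNReal

variable {d : ℕ}

/-- The event that `a` is connected to all elements of `S`. -/
def CA (V : Finset (Vx d)) (a : Vx d) (S : Finset (Vx d)) : Set (Finset (Ed d)) :=
  {T | ∀ x ∈ S, Conn T V a x}

private theorem n63_next {T : Finset (Ed d)} {V : Finset (Vx d)} {a x : Vx d}
    (h : Conn T V a x) (hne : x ≠ a) : ∃ u, u ∈ V ∧ Adj a u ∧ s(a, u) ∈ T ∧
      Conn (T.erase s(a, u)) V u x := by
  classical
  have ha : a ∈ V := h.left
  have hsub : ({a} : Finset (Vx d)) ⊆ V := by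
    rw [Finset.singleton_subset_iff]
    exact ha
  rcases conn_cases hsub (Finset.mem_singleton_self a) h with h1 | ⟨q, hq, h1, h2, h3⟩
  · exact absurd (Finset.mem_singleton.1 (cl_subset _ _ _ h1)) hne
  · have hq1 : q.1 = a := Finset.mem_singleton.1 (cl_subset _ _ _ h1)
    unfold exits at hq
    rw [Finset.mem_filter, Finset.mem_product, Finset.mem_sdiff] at hq
    rw [hq1] at h2 hq
    have hmem : a ∈ cl T {a} a := self_mem_cl (Finset.mem_singleton_self a)
    have h4 : Conn T ((V.erase a : Finset (Vx d)) : Set (Vx d)) q.2 x := by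
      refine h3.mono (Finset.Subset.refl T) ?_
      rintro y ⟨hy1, hy2⟩
      rw [Finset.mem_coe, Finset.mem_erase]
      refine ⟨fun h0 => hy2 ?_, hy1⟩
      rw [h0]
      exact hmem
    rw [← conn_inter_edges] at h4
    refine ⟨q.2, hq.1.2.1, hq.2, h2, ?_⟩
    refine h4.mono ?_ (by exact_mod_cast Finset.erase_subset a V)
    intro e he
    rw [Finset.mem_inter] at he
    rw [Finset.mem_erase]
    refine ⟨?_, he.1⟩
    rintro rfl
    rw [mem_edges, Finset.mem_erase] at he
    exact he.2.1.1 rfl

private theorem n63_dich {T : Finset (Ed d)} {V : Finset (Vx d)} {a u x : Vx d} (ha : a ∈ V)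
    (hu : u ∈ V) (h : Conn T V a x) :
    Conn (T.erase s(a, u)) V a x ∨ Conn (T.erase s(a, u)) V u x := by
  classical
  obtain ⟨h0, h1⟩ := h
  induction h1 with
  | refl => exact Or.inl (Conn.refl ha)
  | @tail y z _ hyz ih =>
    obtain ⟨hz, hadj, hT⟩ := hyz
    by_cases he : s(y, z) = s(a, u)
    · rw [Sym2.eq_iff] at he
      rcases he with ⟨-, rfl⟩ | ⟨-, rfl⟩
      · exact Or.inr (Conn.refl hu)
      · exact Or.inl (Conn.refl ha)
    · have hT' : s(y, z) ∈ T.erase s(a, u) := Finset.mem_erase.2 ⟨he, hT⟩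
      rcases ih with ih | ih
      · exact Or.inl (ih.step hz hadj hT')
      · exact Or.inr (ih.step hz hadj hT')

private theorem n63_inner {T : Finset (Ed d)} {V : Finset (Vx d)} {a x : Vx d}
    (h : Conn T V a x) : Conn (T ∩ edges (cl T V a)) V a x := by
  have h1 := conn_in_cl (mem_cl.2 h)
  rw [← conn_inter_edges] at h1
  exact h1.mono (Finset.Subset.refl _) (by exact_mod_cast cl_subset T V a)

theorem branch {T : Finset (Ed d)} {V S : Finset (Vx d)} {a : Vx d} (h : T ∈ CA V a S)
    (hS : 2 ≤ S.card) : ∃ w ∈ V, ∃ I ⊆ S, I.Nonempty ∧ (S \ I).Nonempty ∧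
      T ∈ box (CA V a {w}) (box (CA V w I) (CA V w (S \ I))) := by
  classical
  induction T using Finset.strongInduction generalizing a with
  | H T ih =>
    have hSne : S.Nonempty := Finset.card_pos.1 (by omega)
    obtain ⟨x0, hx0⟩ := hSne
    have haV : a ∈ V := (h x0 hx0).left
    by_cases haS : a ∈ S
    · refine ⟨a, haV, {a}, Finset.singleton_subset_iff.2 haS, Finset.singleton_nonempty a, ?_,
        ∅, T, Finset.empty_subset _, Finset.Subset.refl _, Finset.disjoint_empty_left _, ?_,
        ∅, T, Finset.empty_subset _, Finset.Subset.refl _, Finset.disjoint_empty_left _, ?_, ?_⟩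
      · rw [← Finset.card_pos, Finset.card_sdiff_of_subset (Finset.singleton_subset_iff.2 haS),
          Finset.card_singleton]
        omega
      · intro x hx
        rw [Finset.mem_singleton.1 hx]
        exact Conn.refl haV
      · intro x hx
        rw [Finset.mem_singleton.1 hx]
        exact Conn.refl haV
      · intro x hx
        exact h x (Finset.mem_sdiff.1 hx).1
    · have hne : x0 ≠ a := fun h0 => haS (h0 ▸ hx0)
      obtain ⟨u, huV, hadj, heT, hux⟩ := n63_next (h x0 hx0) hne
      set T' := T.erase s(a, u) with hT'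
      have hT'T : T' ⊆ T := Finset.erase_subset _ _
      have heT' : s(a, u) ∉ T' := Finset.notMem_erase _ _
      by_cases hall : ∀ x ∈ S, Conn T' V u x
      · obtain ⟨w, hw, I, hI, hI1, hI2, K, L, hK, hL, hKL, hKw, hLb⟩ :=
          ih T' (Finset.erase_ssubset heT) hall
        refine ⟨w, hw, I, hI, hI1, hI2, insert s(a, u) K, L, ?_, hL.trans hT'T, ?_, ?_, hLb⟩
        · exact Finset.insert_subset heT (hK.trans hT'T)
        · rw [Finset.disjoint_insert_left]
          exact ⟨fun h0 => heT' (hL h0), hKL⟩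
        · intro x hx
          have h1 : Conn (insert s(a, u) K) V a u :=
            (Conn.refl haV).step huV hadj (Finset.mem_insert_self _ _)
          exact h1.trans ((hKw x hx).mono (Finset.subset_insert _ _) (Set.Subset.refl _))
      · push Not at hall
        obtain ⟨x1, hx1, hx1n⟩ := hall
        have key : ∀ x ∈ S, ¬ Conn T' V u x → Conn T' V a x := by
          intro x hx hn
          rcases n63_dich haV huV (h x hx) with h1 | h1
          · exact h1
          · exact absurd h1 hn
        have hau : ¬ Conn T' V a u := fun h0 => hx1n (h0.symm.trans (key x1 hx1 hx1n))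
        have hdisj : Disjoint (cl T' V a) (cl T' V u) := by
          rw [Finset.disjoint_left]
          intro y hy hy'
          rw [mem_cl] at hy hy'
          exact hau (hy.trans hy'.symm)
        refine ⟨a, haV, S.filter (fun x => ¬ Conn T' V u x), Finset.filter_subset _ _,
          ⟨x1, Finset.mem_filter.2 ⟨hx1, hx1n⟩⟩, ⟨x0, ?_⟩,
          ∅, T, Finset.empty_subset _, Finset.Subset.refl _, Finset.disjoint_empty_left _, ?_,
          T' ∩ edges (cl T' V a), insert s(a, u) (T' ∩ edges (cl T' V u)), ?_, ?_, ?_, ?_, ?_⟩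
        · rw [Finset.mem_sdiff, Finset.mem_filter]
          exact ⟨hx0, fun h0 => h0.2 hux⟩
        · intro x hx
          rw [Finset.mem_singleton.1 hx]
          exact Conn.refl haV
        · exact Finset.inter_subset_left.trans hT'T
        · exact Finset.insert_subset heT (Finset.inter_subset_left.trans hT'T)
        · rw [Finset.disjoint_insert_right]
          refine ⟨fun h0 => heT' (Finset.mem_inter.1 h0).1, ?_⟩
          rw [Finset.disjoint_left]
          intro e he he'
          rw [Finset.mem_inter] at he he'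
          induction e using Sym2.ind with
          | _ y z =>
            rw [mem_edges] at he he'
            exact Finset.disjoint_left.1 hdisj he.2.1 he'.2.1
        · intro x hx
          rw [Finset.mem_filter] at hx
          exact n63_inner (key x hx.1 hx.2)
        · intro x hx
          rw [Finset.mem_sdiff, Finset.mem_filter, not_and, not_not] at hx
          have h1 := n63_inner (hx.2 hx.1)
          have h2 : Conn (insert s(a, u) (T' ∩ edges (cl T' V u))) V a u :=
            (Conn.refl haV).step huV hadj (Finset.mem_insert_self _ _)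
          exact h2.trans (h1.mono (Finset.subset_insert _ _) (Set.Subset.refl _))

/-- The generating function of the volume, without the constant term. -/
noncomputable def gen (p t : ℝ) (V : Finset (Vx d)) (a : Vx d) : ℝ :=
  ∑ S ∈ V.powerset.erase ∅, t ^ S.card * PP p (edges V) (CA V a S)

private theorem n63_up (V : Finset (Vx d)) (a : Vx d) (S : Finset (Vx d)) : Up (CA V a S) := by
  intro T T' hT h x hx
  exact (h x hx).mono hT (Set.Subset.refl _)

private theorem n63_single (p : ℝ) (V : Finset (Vx d)) (a w : Vx d) :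
    PP p (edges V) (CA V a {w}) = tau p V a w := by
  unfold tau
  refine PP_congr fun T _ => ?_
  exact ⟨fun h => h w (Finset.mem_singleton_self w), fun h x hx => by
    rw [Finset.mem_singleton.1 hx]; exact h⟩

theorem gen_eq (p t : ℝ) {V : Finset (Vx d)} {a : Vx d} (ha : a ∈ V) :
    EE p (edges V) (fun T => (1 + t) ^ (cl T V a).card) = 1 + gen p t V a := by
  classical
  have h1 : ∀ T : Finset (Ed d), (1 + t) ^ (cl T V a).card =
      1 + ∑ S ∈ V.powerset.erase ∅, t ^ S.card * (if T ∈ CA V a S then (1 : ℝ) else 0) := by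
    intro T
    have h2 : (1 + t) ^ (cl T V a).card = ∑ S ∈ (cl T V a).powerset, t ^ S.card := by
      rw [add_comm, ← Finset.sum_pow_mul_eq_add_pow]
      exact Finset.sum_congr rfl fun S _ => by rw [one_pow, mul_one]
    have h3 : ∑ S ∈ (cl T V a).powerset, t ^ S.card =
        ∑ S ∈ V.powerset, t ^ S.card * (if T ∈ CA V a S then (1 : ℝ) else 0) := by
      have h4 : (cl T V a).powerset = V.powerset.filter (fun S => T ∈ CA V a S) := by
        ext S
        rw [Finset.mem_filter, Finset.mem_powerset, Finset.mem_powerset]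
        constructor
        · intro h
          exact ⟨h.trans (cl_subset _ _ _), fun x hx => mem_cl.1 (h hx)⟩
        · intro h x hx
          exact mem_cl.2 (h.2 x hx)
      rw [h4, Finset.sum_filter]
      refine Finset.sum_congr rfl fun S _ => ?_
      split_ifs <;> simp
    rw [h2, h3, ← Finset.add_sum_erase _ _ (Finset.empty_mem_powerset V)]
    congr 1
    have h5 : T ∈ CA V a ∅ := fun x hx => absurd hx (Finset.notMem_empty x)
    rw [if_pos h5, Finset.card_empty, pow_zero, mul_one]
  have h6 : (fun T : Finset (Ed d) => (1 + t) ^ (cl T V a).card) = fun T =>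
      1 + ∑ S ∈ V.powerset.erase ∅, t ^ S.card * (if T ∈ CA V a S then (1 : ℝ) else 0) :=
    funext h1
  rw [h6, EE_add, EE_const, EE_sum]
  congr 1
  unfold gen
  refine Finset.sum_congr rfl fun S _ => ?_
  rw [EE_const_mul, PP_def]

private theorem gen_nonneg {p t : ℝ} (hp : 0 ≤ p) (hp1 : p ≤ 1) (ht : 0 ≤ t)
    (V : Finset (Vx d)) (a : Vx d) : 0 ≤ gen p t V a :=
  Finset.sum_nonneg fun S _ => mul_nonneg (pow_nonneg ht _) (PP_nonneg hp hp1)

open Classical in
private theorem n63_branch_bound {p : ℝ} (hp : 0 ≤ p) (hp1 : p ≤ 1 / 2)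
    (V : Finset (Vx d)) (a : Vx d) {S : Finset (Vx d)} (hS : 2 ≤ S.card) :
    PP p (edges V) (CA V a S) ≤ ∑ w ∈ V, ∑ I ∈ (S.powerset.erase ∅).erase S,
      tau p V a w * PP p (edges V) (CA V w I) * PP p (edges V) (CA V w (S \ I)) := by
  have hp1' : p ≤ 1 := by linarith
  have h1 : PP p (edges V) (CA V a S) ≤ PP p (edges V) {T | ∃ w ∈ V, T ∈
      {T | ∃ I ∈ (S.powerset.erase ∅).erase S,
        T ∈ box (CA V a {w}) (box (CA V w I) (CA V w (S \ I)))}} := by
    refine PP_mono hp hp1' fun T _ hT => ?_
    obtain ⟨w, hw, I, hI, hI1, hI2, hb⟩ := branch hT hS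
    refine ⟨w, hw, I, ?_, hb⟩
    rw [Finset.mem_erase, Finset.mem_erase, Finset.mem_powerset]
    refine ⟨?_, hI1.ne_empty, hI⟩
    rintro rfl
    rw [Finset.sdiff_self] at hI2
    exact Finset.not_nonempty_empty hI2
  refine h1.trans ((PP_exists_le hp hp1' V _).trans (Finset.sum_le_sum fun w _ => ?_))
  refine (PP_exists_le hp hp1' _ _).trans (Finset.sum_le_sum fun I _ => ?_)
  have h2 := bk3 hp hp1 (edges V) (n63_up V a {w}) (n63_up V w I) (n63_up V w (S \ I))
  rw [n63_single] at h2
  exact h2

theorem gen_le {p t X G : ℝ} (hp : 0 ≤ p) (hp1 : p ≤ 1 / 2) (ht : 0 ≤ t)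
    (V : Finset (Vx d)) (a : Vx d) (hX : ∑ w ∈ V, tau p V a w ≤ X)
    (hG : ∀ w ∈ V, gen p t V w ≤ G) : gen p t V a ≤ t * X + X * G ^ 2 := by
  classical
  have hp1' : p ≤ 1 := by linarith
  -- the two parts of the sum
  have hsplit : gen p t V a =
      (∑ S ∈ (V.powerset.erase ∅).filter (fun S => S.card = 1),
        t ^ S.card * PP p (edges V) (CA V a S)) +
      ∑ S ∈ (V.powerset.erase ∅).filter (fun S => ¬ S.card = 1),
        t ^ S.card * PP p (edges V) (CA V a S) := by
    unfold gen
    rw [Finset.sum_filter_add_sum_filter_not]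
  have hone : (∑ S ∈ (V.powerset.erase ∅).filter (fun S => S.card = 1),
        t ^ S.card * PP p (edges V) (CA V a S)) = t * ∑ w ∈ V, tau p V a w := by
    have h1 : (V.powerset.erase ∅).filter (fun S => S.card = 1) =
        V.image (fun w => ({w} : Finset (Vx d))) := by
      ext S
      rw [Finset.mem_filter, Finset.mem_erase, Finset.mem_powerset, Finset.mem_image,
        Finset.card_eq_one]
      constructor
      · rintro ⟨⟨-, hSV⟩, w, rfl⟩
        exact ⟨w, Finset.singleton_subset_iff.1 hSV, rfl⟩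
      · rintro ⟨w, hw, rfl⟩
        exact ⟨⟨Finset.singleton_ne_empty w, Finset.singleton_subset_iff.2 hw⟩, w, rfl⟩
    rw [h1, Finset.sum_image (fun _ _ _ _ h => Finset.singleton_injective h), Finset.mul_sum]
    refine Finset.sum_congr rfl fun w _ => ?_
    rw [Finset.card_singleton, pow_one, n63_single]
  have htwo : (∑ S ∈ (V.powerset.erase ∅).filter (fun S => ¬ S.card = 1),
        t ^ S.card * PP p (edges V) (CA V a S)) ≤
      ∑ w ∈ V, tau p V a w * gen p t V w ^ 2 := by
    have h1 : ∀ S ∈ (V.powerset.erase ∅).filter (fun S => ¬ S.card = 1),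
        t ^ S.card * PP p (edges V) (CA V a S) ≤
          ∑ w ∈ V, tau p V a w * ∑ I ∈ (S.powerset.erase ∅).erase S,
            (t ^ I.card * PP p (edges V) (CA V w I)) *
              (t ^ (S \ I).card * PP p (edges V) (CA V w (S \ I))) := by
      intro S hS
      rw [Finset.mem_filter, Finset.mem_erase] at hS
      have h2 : 2 ≤ S.card := by
        have h3 : S.card ≠ 0 := fun h0 => hS.1.1 (Finset.card_eq_zero.1 h0)
        have h4 := hS.2
        omega
      refine (mul_le_mul_of_nonneg_left (n63_branch_bound hp hp1 V a h2)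
        (pow_nonneg ht _)).trans (le_of_eq ?_)
      rw [Finset.mul_sum]
      refine Finset.sum_congr rfl fun w _ => ?_
      rw [Finset.mul_sum, Finset.mul_sum]
      refine Finset.sum_congr rfl fun I hI => ?_
      rw [Finset.mem_erase, Finset.mem_erase, Finset.mem_powerset] at hI
      have h5 : t ^ S.card = t ^ I.card * t ^ (S \ I).card := by
        rw [← pow_add, Finset.card_sdiff_of_subset hI.2.2]
        congr 1
        have := Finset.card_le_card hI.2.2
        omega
      rw [h5]
      ring
    refine (Finset.sum_le_sum h1).trans ?_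
    rw [Finset.sum_comm]
    refine Finset.sum_le_sum fun w _ => ?_
    rw [← Finset.mul_sum]
    refine mul_le_mul_of_nonneg_left ?_ (tau_nonneg hp hp1' _ _ _)
    have h6 : gen p t V w ^ 2 = ∑ q ∈ (V.powerset.erase ∅) ×ˢ (V.powerset.erase ∅),
        (t ^ q.1.card * PP p (edges V) (CA V w q.1)) *
          (t ^ q.2.card * PP p (edges V) (CA V w q.2)) := by
      rw [sq]
      unfold gen
      rw [Finset.sum_mul_sum, Finset.sum_product]
    rw [h6, Finset.sum_sigma']
    have hnn : ∀ S : Finset (Vx d), 0 ≤ t ^ S.card * PP p (edges V) (CA V w S) := fun S =>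
      mul_nonneg (pow_nonneg ht _) (PP_nonneg hp hp1')
    rw [← Finset.sum_image (s := ((V.powerset.erase ∅).filter (fun S => ¬ S.card = 1)).sigma
        fun S => (S.powerset.erase ∅).erase S)
      (g := fun z : (_ : Finset (Vx d)) × Finset (Vx d) => (z.2, z.1 \ z.2))
      (f := fun q : Finset (Vx d) × Finset (Vx d) =>
        (t ^ q.1.card * PP p (edges V) (CA V w q.1)) *
          (t ^ q.2.card * PP p (edges V) (CA V w q.2)))]
    · refine Finset.sum_le_sum_of_subset_of_nonneg ?_ fun q _ _ => mul_nonneg (hnn _) (hnn _)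
      intro q hq
      rw [Finset.mem_image] at hq
      obtain ⟨z, hz, rfl⟩ := hq
      rw [Finset.mem_sigma, Finset.mem_filter, Finset.mem_erase, Finset.mem_erase,
        Finset.mem_erase, Finset.mem_powerset, Finset.mem_powerset] at hz
      obtain ⟨⟨⟨hz1, hz2⟩, hz3⟩, hz4, hz5, hz6⟩ := hz
      rw [Finset.mem_product, Finset.mem_erase, Finset.mem_erase, Finset.mem_powerset,
        Finset.mem_powerset]
      refine ⟨⟨hz5, hz6.trans hz2⟩, ?_, Finset.sdiff_subset.trans hz2⟩
      intro h0
      rw [Finset.sdiff_eq_empty_iff_subset] at h0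
      exact hz4 (Finset.Subset.antisymm hz6 h0)
    · intro z hz z' hz' hzz
      rw [Finset.mem_coe, Finset.mem_sigma, Finset.mem_erase, Finset.mem_erase,
        Finset.mem_powerset] at hz hz'
      obtain ⟨S, I⟩ := z
      obtain ⟨S', I'⟩ := z'
      simp only [Prod.mk.injEq] at hzz
      obtain ⟨rfl, h8⟩ := hzz
      have k1 : I ⊆ S := hz.2.2.2
      have k2 : I ⊆ S' := hz'.2.2.2
      have h9 : S = S' := by
        rw [← Finset.sdiff_union_of_subset k1, h8, Finset.sdiff_union_of_subset k2]
      rw [h9]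
  rw [hsplit, hone]
  refine add_le_add (mul_le_mul_of_nonneg_left hX ht) (htwo.trans ?_)
  have h10 : ∑ w ∈ V, tau p V a w * gen p t V w ^ 2 ≤ ∑ w ∈ V, tau p V a w * G ^ 2 := by
    refine Finset.sum_le_sum fun w hw => ?_
    refine mul_le_mul_of_nonneg_left ?_ (tau_nonneg hp hp1' _ _ _)
    exact pow_le_pow_left₀ (gen_nonneg hp hp1' ht V w) (hG w hw) 2
  refine h10.trans ?_
  rw [← Finset.sum_mul]
  exact mul_le_mul_of_nonneg_right hX (sq_nonneg G)

private theorem n63_cont (p : ℝ) (V : Finset (Vx d)) (a : Vx d) :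
    Continuous fun t => gen p t V a := by
  unfold gen
  fun_prop

theorem gen_small {p t X : ℝ} (hp : 0 ≤ p) (hp1 : p ≤ 1 / 2) (hX1 : 1 ≤ X) (ht : 0 ≤ t)
    (ht' : t ≤ 1 / (8 * X ^ 2)) (V : Finset (Vx d))
    (hX : ∀ a ∈ V, ∑ w ∈ V, tau p V a w ≤ X) : ∀ a ∈ V, gen p t V a ≤ 1 / (2 * X) := by
  classical
  intro a ha
  have hV : V.Nonempty := ⟨a, ha⟩
  set g : ℝ → ℝ := fun s => V.sup' hV (fun b => gen p s V b) with hg
  have hgc : Continuous g :=
    Continuous.finset_sup'_apply hV fun b _ => n63_cont p V b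
  have hg0 : g 0 = 0 := by
    have h1 : ∀ b ∈ V, gen p 0 V b = 0 := by
      intro b _
      unfold gen
      refine Finset.sum_eq_zero fun S hS => ?_
      rw [Finset.mem_erase] at hS
      rw [zero_pow (fun h0 => hS.1 (Finset.card_eq_zero.1 h0)), zero_mul]
    rw [hg]
    simp only
    rw [Finset.sup'_congr hV rfl h1, Finset.sup'_const]
  have hX0 : 0 < X := by linarith
  by_contra hcon
  push Not at hcon
  have hgt : 1 / (2 * X) ≤ g t := hcon.le.trans (Finset.le_sup' (fun b => gen p t V b) ha)
  have hth0 : g 0 ≤ 1 / (2 * X) := by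
    rw [hg0]
    positivity
  obtain ⟨s, hs, hsg⟩ := intermediate_value_Icc ht hgc.continuousOn ⟨hth0, hgt⟩
  have h2 : ∀ b ∈ V, gen p s V b ≤ 1 / (2 * X) := by
    intro b hb
    rw [← hsg]
    exact Finset.le_sup' (fun b => gen p s V b) hb
  have h3 : g s ≤ s * X + X * (1 / (2 * X)) ^ 2 := by
    rw [hg]
    simp only
    rw [Finset.sup'_le_iff]
    intro b hb
    exact gen_le hp hp1 hs.1 V b (hX b hb) h2
  rw [hsg] at h3
  have h4 : X * (1 / (2 * X)) ^ 2 = 1 / (4 * X) := by
    field_simp
    norm_num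
  have h5 : s * X ≤ 1 / (8 * X) := by
    have h6 : s ≤ 1 / (8 * X ^ 2) := hs.2.trans ht'
    calc s * X ≤ 1 / (8 * X ^ 2) * X := mul_le_mul_of_nonneg_right h6 hX0.le
      _ = 1 / (8 * X) := by
        field_simp
  rw [h4] at h3
  have h7 : 1 / (2 * X) = 4 * (1 / (8 * X)) := by
    field_simp
    norm_num
  have h8 : 1 / (4 * X) = 2 * (1 / (8 * X)) := by
    field_simp
    norm_num
  have h9 : 0 < 1 / (8 * X) := by positivity
  rw [h7, h8] at h3
  linarith

/-- The exponential tail. -/
theorem vol_tail {p X : ℝ} (hp : 0 ≤ p) (hp1 : p ≤ 1 / 2) (hX1 : 1 ≤ X) (V : Finset (Vx d))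
    (hX : ∀ a ∈ V, ∑ w ∈ V, tau p V a w ≤ X) (a : Vx d) (n : ℕ) :
    PP p (edges V) {T | n ≤ (cl T V a).card} ≤ 2 * Real.exp (-(n / (16 * X ^ 2))) := by
  classical
  have hp1' : p ≤ 1 := by linarith
  have hX0 : 0 < X := by linarith
  by_cases ha : a ∈ V
  · set t : ℝ := 1 / (8 * X ^ 2) with ht
    have ht0 : 0 ≤ t := by positivity
    have ht1 : t ≤ 1 / 8 := by
      rw [ht]
      apply one_div_le_one_div_of_le (by norm_num)
      nlinarith
    have h1 := gen_small hp hp1 hX1 ht0 le_rfl V hX a ha
    have h2 := gen_eq p t ha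
    have h3 : EE p (edges V) (fun T => (1 + t) ^ (cl T V a).card) ≤ 2 := by
      rw [h2]
      have h4 : 1 / (2 * X) ≤ 1 / 2 := by
        apply one_div_le_one_div_of_le (by norm_num)
        linarith
      linarith
    have h5 : PP p (edges V) {T | n ≤ (cl T V a).card} * (1 + t) ^ n ≤ 2 := by
      refine le_trans ?_ h3
      rw [PP_def, ← EE_mul_const]
      refine EE_mono hp hp1' fun T _ => ?_
      by_cases hT : T ∈ {T : Finset (Ed d) | n ≤ (cl T V a).card}
      · rw [if_pos hT, one_mul]
        exact pow_le_pow_right₀ (by linarith) hT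
      · rw [if_neg hT, zero_mul]
        positivity
    have h6 : Real.exp (n / (16 * X ^ 2)) ≤ (1 + t) ^ n := by
      have h7 : Real.exp (t / 2) ≤ 1 + t := by
        have h8 : Real.exp (t / 2) ≤ 1 / (1 - t / 2) :=
          Real.exp_bound_div_one_sub_of_interval (by linarith) (by linarith)
        refine h8.trans ?_
        rw [div_le_iff₀ (by linarith)]
        nlinarith
      have h9 : (n : ℝ) / (16 * X ^ 2) = n * (t / 2) := by
        rw [ht]
        field_simp
        ring
      rw [h9, Real.exp_nat_mul]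
      exact pow_le_pow_left₀ (Real.exp_pos _).le h7 n
    have h10 : PP p (edges V) {T | n ≤ (cl T V a).card} * Real.exp (n / (16 * X ^ 2)) ≤ 2 :=
      (mul_le_mul_of_nonneg_left h6 (PP_nonneg hp hp1')).trans h5
    rw [Real.exp_neg, ← div_eq_mul_inv, le_div_iff₀ (Real.exp_pos _)]
    exact h10
  · have hcl : ∀ T : Finset (Ed d), (cl T V a).card = 0 := by
      intro T
      rw [Finset.card_eq_zero, Finset.eq_empty_iff_forall_notMem]
      intro y hy
      exact ha (mem_cl.1 hy).left
    rcases Nat.eq_zero_or_pos n with hn | hn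
    · subst hn
      refine (PP_le_one hp hp1').trans ?_
      simp
    · have h1 : PP p (edges V) {T | n ≤ (cl T V a).card} =
          PP p (edges V) (∅ : Set (Finset (Ed d))) := by
        refine PP_congr fun T _ => ?_
        refine ⟨fun h => ?_, fun h => absurd h (Set.notMem_empty T)⟩
        have h2 : n ≤ (cl T V a).card := h
        rw [hcl] at h2
        omega
      rw [h1, PP_empty]
      positivity

/-- The exponential tail for the finite cluster in the subcritical phase. -/
theorem EF_vol_tail {p X : ℝ} (hp : 0 ≤ p) (hp1 : p ≤ 1 / 2) (hX1 : 1 ≤ X)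
    (hX : chi d p ≤ ENNReal.ofReal X) (n : ℕ) :
    EF p (fun K : Finset (Vx d) => if n ≤ K.card then 1 else 0) ≤
      ENNReal.ofReal (2 * Real.exp (-(n / (16 * X ^ 2)))) := by
  have hp1' : p ≤ 1 := by linarith
  have h1 := EF_ge (d := d) hp hp1' n
  refine le_trans (le_trans le_self_add (le_of_eq h1)) ?_
  refine ENNReal.ofReal_le_ofReal ?_
  unfold Pge
  refine vol_tail hp hp1 hX1 (Bx d n) ?_ 0 n
  intro a _
  have hX0 : 0 ≤ X := by linarith
  have hnn : ∀ w ∈ Bx d n, 0 ≤ tau p (Bx d n) a w := fun w _ => tau_nonneg hp hp1' _ _ _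
  rw [← ENNReal.ofReal_le_ofReal_iff hX0, ENNReal.ofReal_sum_of_nonneg hnn]
  refine le_trans ?_ hX
  have h2 : ∀ w ∈ Bx d n, ENNReal.ofReal (tau p (Bx d n) a w) ≤ tt p (w - a) := by
    intro w _
    rw [← tauI_univ]
    exact le_tauI p (Set.subset_univ _) a w
  refine (Finset.sum_le_sum h2).trans ?_
  refine (ENNReal.sum_le_tsum (Bx d n)).trans (le_of_eq ?_)
  exact (Equiv.subRight a).tsum_eq (fun x => tt p x)

end Pool.Agent.HD
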