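import Pool.Agent.Lib.MP_8ca597_hd.B02
import Pool.Agent.Lib.MP_8ca597_hd.S08

/-!
# Row N64: bottoms and tops of clusters (N6c)

`ww_conn`: if `ww p K ≠ 0` then `K` is connected, so `nm (x - y) < |K|` for `x, y ∈ K` (compare
`nbh_subset_of_ww`). `mt_bot`: mass transport (`mass_transport`, A15) with
`φ x K = 1(A K) 1(x is a bottom of K) / |bottoms of K|`: `∑_{x ∈ K} φ x K = 1(A K)` for nonempty `K`, and
`|K| φ 0 K ≤ n 1(A K) 1(0 is a bottom)`. `bt_pigeon`: `mt_bot` for `A K = (|K| ≤ n and some x, y ∈ K satisfy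
s ≤ dt x e - dt y e)`; if `0` is a bottom of `K`, a top `x` of `K` satisfies `s ≤ dt x e`, `x ∈ Bx d n`; union bound over
`x ∈ Bx d n`. `bt_tilt`: `ww_tilt` and Cauchy-Schwarz for the sums over `K`.
-/

set_option autoImplicit false

namespace Pool.Agent.HD

open Finset
open scoped ENNReal

variable {d : ℕ} {p : ℝ}

/-- `0` is a lowest point of `K` and `y` is a highest point of `K`, in the direction `e`. -/
def BT (e : Dir d) (y : Vx d) (K : Finset (Vx d)) : Prop :=
  0 ∈ K ∧ y ∈ K ∧ ∀ z ∈ K, 0 ≤ dt z e ∧ dt z e ≤ dt y e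

open Classical in
/-- The probability that the cluster of `0` is finite, `0` is a lowest and `y` a highest point. -/
noncomputable def bt (p : ℝ) (e : Dir d) (y : Vx d) : ℝ≥0∞ :=
  EF p fun K => if BT e y K then 1 else 0

open Classical in
/-- The same with at most `n` vertices. -/
noncomputable def btn (p : ℝ) (e : Dir d) (n : ℕ) (y : Vx d) : ℝ≥0∞ :=
  EF p fun K => if BT e y K ∧ K.card ≤ n then 1 else 0

theorem nm_lt_of_ww {K : Finset (Vx d)} (h : ww p K ≠ 0) {x y : Vx d} (hx : x ∈ K)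
    (hy : y ∈ K) : nm (x - y) < K.card := by
  classical
  have h0 : (0 : Vx d) ∈ K := by
    by_contra h0
    exact h (ww_zero p h0)
  have hr : ww p (K.image (· - y)) ≠ 0 := by
    rw [ww_root p K hy h0]
    exact h
  have hsub := nbh_subset_of_ww hr
  have hcard : (K.image (· - y)).card = K.card :=
    Finset.card_image_of_injective _ (sub_left_injective)
  rw [hcard] at hsub
  have hz : x - y ∈ K.image (· - y) := Finset.mem_image.2 ⟨x, hx, rfl⟩
  obtain ⟨z, hzd⟩ : ∃ z, z = x - y := ⟨_, rfl⟩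
  rw [← hzd] at hz ⊢
  rcases Nat.eq_zero_or_pos (nm z) with h1 | h1
  · rw [h1]
    exact Finset.card_pos.2 ⟨x, hx⟩
  · have hne : (Finset.univ : Finset (Fin d)).Nonempty := by
      by_contra hcon
      rw [Finset.not_nonempty_iff_eq_empty] at hcon
      unfold nm at h1
      rw [hcon] at h1
      simp at h1
    obtain ⟨i, -, hi⟩ := Finset.exists_mem_eq_sup Finset.univ hne (fun i => (z i).natAbs)
    have hi' : nm z = (z i).natAbs := hi
    let e : Dir d := (i, decide (0 < z i))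
    have hadj := uv_adj e z
    have hmem : z + uv e ∈ nbh (K.image (· - y)) := mem_nbh.2 (Or.inr ⟨z, hz, hadj⟩)
    have h2 := mem_Bx.1 (hsub hmem)
    have h3 : ((z + uv e) i).natAbs ≤ nm (z + uv e) := by
      unfold nm
      exact Finset.le_sup (f := fun i => ((z + uv e) i).natAbs) (Finset.mem_univ i)
    have h4 : (z + uv e) i = z i + sg (decide (0 < z i)) := by
      simp [uv, e]
    rw [h4] at h3
    have h5 : (z i + sg (decide (0 < z i))).natAbs = (z i).natAbs + 1 := by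
      unfold sg
      by_cases hpos : 0 < z i
      · simp only [hpos, decide_true, if_true]
        omega
      · simp only [hpos, decide_false]
        rw [hi'] at h1
        simp only [Bool.false_eq_true, if_false]
        omega
    omega

open Classical in
theorem mt_bot (hp : 0 ≤ p) (hp1 : p ≤ 1) (e : Dir d) (n : ℕ) (A : Finset (Vx d) → Prop)
    (hA : ∀ (z : Vx d) (K : Finset (Vx d)), A (K.image (· - z)) ↔ A K)
    (hn : ∀ K, A K → K.card ≤ n) :
    EF p (fun K => if A K then 1 else 0) ≤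
      n * EF p fun K => if A K ∧ ∀ z ∈ K, 0 ≤ dt z e then 1 else 0 := by
  obtain ⟨Bot, hBot⟩ : ∃ Bot : Finset (Vx d) → Finset (Vx d),
      ∀ K, Bot K = K.filter (fun x => ∀ z ∈ K, dt x e ≤ dt z e) := ⟨_, fun _ => rfl⟩
  have hdts : ∀ x z : Vx d, dt (x - z) e = dt x e - dt z e := by
    intro x z
    rw [sub_eq_add_neg, dt_add, dt_neg, sub_eq_add_neg]
  have hBotim : ∀ (z : Vx d) (K : Finset (Vx d)), Bot (K.image (· - z)) = (Bot K).image (· - z) := by
    intro z K
    rw [hBot, hBot]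
    ext x
    simp only [Finset.mem_filter, Finset.mem_image]
    constructor
    · rintro ⟨⟨u, hu, rfl⟩, h⟩
      refine ⟨u, ⟨hu, fun w hw => ?_⟩, rfl⟩
      have h1 := h (w - z) ⟨w, hw, rfl⟩
      rw [hdts, hdts] at h1
      linarith
    · rintro ⟨u, ⟨hu, h⟩, rfl⟩
      refine ⟨⟨u, hu, rfl⟩, ?_⟩
      rintro _ ⟨w, hw, rfl⟩
      rw [hdts, hdts]
      linarith [h w hw]
  have hBne : ∀ K : Finset (Vx d), K.Nonempty → (Bot K).Nonempty := by
    intro K hK
    obtain ⟨x, hx, hmin⟩ := Finset.exists_min_image K (fun x => dt x e) hK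
    exact ⟨x, by rw [hBot]; exact Finset.mem_filter.2 ⟨hx, hmin⟩⟩
  let φ : Vx d → Finset (Vx d) → ℝ≥0∞ := fun x K =>
    if A K ∧ x ∈ Bot K then ((Bot K).card : ℝ≥0∞)⁻¹ else 0
  have hφ : ∀ x z K, φ (x - z) (K.image (· - z)) = φ x K := by
    intro x z K
    simp only [φ]
    have h1 : (x - z ∈ Bot (K.image (· - z))) ↔ x ∈ Bot K := by
      rw [hBotim]
      constructor
      · intro h
        obtain ⟨u, hu, hux⟩ := Finset.mem_image.1 h
        rw [sub_left_inj] at hux
        rwa [← hux]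
      · intro h
        exact Finset.mem_image.2 ⟨x, h, rfl⟩
    have h2 : (Bot (K.image (· - z))).card = (Bot K).card := by
      rw [hBotim]
      exact Finset.card_image_of_injective _ sub_left_injective
    rw [h2]
    simp only [hA, h1]
  have hmt := mass_transport hp hp1 φ hφ
  have hleft : EF p (fun K => if A K then 1 else 0) ≤
      ∑' K : Finset (Vx d), ENNReal.ofReal (ww p K) * ∑ x ∈ K, φ x K := by
    unfold EF
    refine ENNReal.tsum_le_tsum fun K => ?_
    by_cases h0 : (0 : Vx d) ∈ K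
    · refine mul_le_mul' le_rfl ?_
      beta_reduce
      by_cases hAK : A K
      · rw [if_pos hAK]
        have hne := hBne K ⟨0, h0⟩
        have h1 : ∑ x ∈ K, φ x K = ∑ x ∈ Bot K, ((Bot K).card : ℝ≥0∞)⁻¹ := by
          have h2 : Bot K ⊆ K := by
            rw [hBot]
            exact Finset.filter_subset _ _
          rw [← Finset.sum_subset h2]
          · refine Finset.sum_congr rfl fun x hx => ?_
            simp only [φ]
            rw [if_pos ⟨hAK, hx⟩]
          · intro x _ hx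
            simp only [φ]
            rw [if_neg (fun h => hx h.2)]
        rw [h1, Finset.sum_const, nsmul_eq_mul]
        rw [ENNReal.mul_inv_cancel]
        · exact_mod_cast (Finset.card_pos.2 hne).ne'
        · exact ENNReal.natCast_ne_top _
      · rw [if_neg hAK]
        exact zero_le
    · rw [ww_zero p h0]
      simp
  refine hleft.trans (le_of_eq_of_le hmt ?_)
  unfold EF
  rw [← ENNReal.tsum_mul_left]
  refine ENNReal.tsum_le_tsum fun K => ?_
  rw [mul_left_comm (n : ℝ≥0∞)]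
  refine mul_le_mul' le_rfl ?_
  beta_reduce
  by_cases h1 : A K ∧ (0 : Vx d) ∈ Bot K
  · have h2 : ∀ z ∈ K, 0 ≤ dt z e := by
      have h3 := h1.2
      rw [hBot, Finset.mem_filter] at h3
      intro z hz
      have h4 := h3.2 z hz
      have h5 : dt (0 : Vx d) e = 0 := by simp [dt]
      rwa [h5] at h4
    rw [if_pos ⟨h1.1, h2⟩, mul_one]
    simp only [φ]
    rw [if_pos h1]
    have h6 : (1 : ℝ≥0∞) ≤ (Bot K).card := by
      exact_mod_cast (Finset.card_pos.2 ⟨0, h1.2⟩ : 0 < (Bot K).card)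
    calc (K.card : ℝ≥0∞) * ((Bot K).card : ℝ≥0∞)⁻¹ ≤ K.card * 1 := by
          refine mul_le_mul' le_rfl ?_
          rw [ENNReal.inv_le_one]
          exact h6
      _ = K.card := mul_one _
      _ ≤ n := by exact_mod_cast hn K h1.1
  · simp only [φ]
    rw [if_neg h1, mul_zero]
    exact zero_le

open Classical in
/-- If the cluster has extension at least `s` with probability `a`, some `bt` is large. -/
theorem bt_pigeon (hp : 0 ≤ p) (hp1 : p ≤ 1) (e : Dir d) (n s : ℕ) {a : ℝ≥0∞}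
    (ha : ∀ x ∈ Bx d n, (s : ℤ) ≤ dt x e → btn p e n x ≤ a) :
    EF p (fun K => if K.card ≤ n ∧ ∃ x ∈ K, ∃ y ∈ K, (s : ℤ) ≤ dt x e - dt y e then 1 else 0) ≤
      n * (2 * n + 1) ^ d * a := by
  have hdts : ∀ x z : Vx d, dt (x - z) e = dt x e - dt z e := by
    intro x z
    rw [sub_eq_add_neg, dt_add, dt_neg, sub_eq_add_neg]
  have h1 := mt_bot hp hp1 e n
    (fun K : Finset (Vx d) => K.card ≤ n ∧ ∃ x ∈ K, ∃ y ∈ K, (s : ℤ) ≤ dt x e - dt y e)
    (by
      intro z K
      have hc : (K.image (· - z)).card = K.card :=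
        Finset.card_image_of_injective _ sub_left_injective
      rw [hc]
      refine and_congr Iff.rfl ?_
      constructor
      · rintro ⟨x, hx, y, hy, h⟩
        obtain ⟨u, hu, rfl⟩ := Finset.mem_image.1 hx
        obtain ⟨v, hv, rfl⟩ := Finset.mem_image.1 hy
        refine ⟨u, hu, v, hv, ?_⟩
        rw [hdts, hdts] at h
        linarith
      · rintro ⟨x, hx, y, hy, h⟩
        refine ⟨x - z, Finset.mem_image.2 ⟨x, hx, rfl⟩, y - z, Finset.mem_image.2 ⟨y, hy, rfl⟩, ?_⟩
        rw [hdts, hdts]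
        linarith)
    (fun K hK => hK.1)
  refine le_trans (le_of_eq (congrArg (EF p) (funext fun K => by congr))) (h1.trans ?_)
  rw [mul_assoc]
  refine mul_le_mul' le_rfl ?_
  obtain ⟨P, hP⟩ : ∃ P : Finset (Vx d), P = (Bx d n).filter (fun x => (s : ℤ) ≤ dt x e) :=
    ⟨_, rfl⟩
  have h2 : EF p (fun K : Finset (Vx d) => if (K.card ≤ n ∧
      ∃ x ∈ K, ∃ y ∈ K, (s : ℤ) ≤ dt x e - dt y e) ∧ ∀ z ∈ K, 0 ≤ dt z e then 1 else 0) ≤
      ∑ x ∈ P, btn p e n x := by
    unfold btn EF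
    rw [← Summable.tsum_finsetSum (fun _ _ => ENNReal.summable)]
    refine ENNReal.tsum_le_tsum fun K => ?_
    beta_reduce
    rw [← Finset.mul_sum]
    by_cases hw : ww p K = 0
    · rw [hw]
      simp
    · refine mul_le_mul' le_rfl ?_
      by_cases hK : (K.card ≤ n ∧ ∃ x ∈ K, ∃ y ∈ K, (s : ℤ) ≤ dt x e - dt y e) ∧
          ∀ z ∈ K, 0 ≤ dt z e
      · rw [if_pos hK]
        obtain ⟨⟨hc, x0, hx0, y0, hy0, hxy⟩, hz⟩ := hK
        have h0 : (0 : Vx d) ∈ K := by
          by_contra h0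
          exact hw (ww_zero p h0)
        obtain ⟨x, hx, hmax⟩ := Finset.exists_max_image K (fun x => dt x e) ⟨0, h0⟩
        have hxP : x ∈ P := by
          rw [hP, Finset.mem_filter, mem_Bx]
          have h3 := nm_lt_of_ww hw hx h0
          rw [sub_zero] at h3
          refine ⟨by omega, ?_⟩
          have h4 := hmax x0 hx0
          have h5 := hz y0 hy0
          linarith
        have hBT : BT e x K ∧ K.card ≤ n := ⟨⟨h0, hx, fun z hz' => ⟨hz z hz', hmax z hz'⟩⟩, hc⟩
        calc (1 : ℝ≥0∞) = if BT e x K ∧ K.card ≤ n then 1 else 0 := by rw [if_pos hBT]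
          _ ≤ ∑ x ∈ P, if BT e x K ∧ K.card ≤ n then 1 else 0 :=
            Finset.single_le_sum (f := fun x => if BT e x K ∧ K.card ≤ n then (1 : ℝ≥0∞) else 0)
              (fun _ _ => zero_le) hxP
      · rw [if_neg hK]
        exact zero_le
  refine le_trans (le_of_eq (congrArg (EF p) (funext fun K => by congr))) (h2.trans ?_)
  have h3 : ∑ x ∈ P, btn p e n x ≤ P.card • a := by
    refine Finset.sum_le_card_nsmul _ _ _ fun x hx => ?_
    rw [hP, Finset.mem_filter] at hx
    exact ha x hx.1 hx.2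
  refine h3.trans ?_
  rw [nsmul_eq_mul]
  refine mul_le_mul' ?_ le_rfl
  have h4 : P.card ≤ (2 * n + 1) ^ d := by
    rw [hP]
    refine (Finset.card_filter_le _ _).trans (le_of_eq ?_)
    unfold Bx
    rw [Fintype.card_piFinset]
    simp only [Int.card_Icc, Finset.prod_const, Finset.card_univ, Fintype.card_fin]
    congr 1
    omega
  exact_mod_cast h4

/-- The tilt. -/
theorem bt_tilt {q p' δ : ℝ} (hp : p ≤ 1 / 2) (hp0 : 0 < p) (hq : q = p - δ) (hp' : p' = p + δ)
    (h0 : 0 ≤ δ) (h1 : δ ≤ p / 2) (e : Dir d) (n : ℕ) (y : Vx d) :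
    btn p e n y ^ 2 ≤ ENNReal.ofReal (Real.exp (2 * (δ ^ 2 * (2 * d * n) / p ^ 2))) *
      bt p' e y := by
  classical
  obtain ⟨c, hc⟩ : ∃ c : ℝ, c = δ ^ 2 * (2 * d * n) / p ^ 2 := ⟨_, rfl⟩
  rw [← hc]
  have hq0 : 0 ≤ q := by linarith
  have hq1 : q ≤ 1 := by linarith
  have hp0' : 0 ≤ p' := by linarith
  have hp1' : p' ≤ 1 := by linarith
  obtain ⟨R, hR⟩ : ∃ R : ℝ≥0∞, R = ENNReal.ofReal (Real.exp (2 * c)) * bt p' e y := ⟨_, rfl⟩
  rw [← hR]
  have hfin : ∀ s : Finset (Finset (Vx d)), (∑ K ∈ s, ENNReal.ofReal (ww p K) *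
      (if BT e y K ∧ K.card ≤ n then 1 else 0)) ^ 2 ≤ R := by
    intro s
    obtain ⟨s', hs'⟩ : ∃ s', s' = s.filter (fun K : Finset (Vx d) => BT e y K ∧ K.card ≤ n) :=
      ⟨_, rfl⟩
    have e1 : ∑ K ∈ s, ENNReal.ofReal (ww p K) * (if BT e y K ∧ K.card ≤ n then 1 else 0) =
        ENNReal.ofReal (∑ K ∈ s', ww p K) := by
      rw [ENNReal.ofReal_sum_of_nonneg (fun K _ => ww_nonneg hp0.le (by linarith) K), hs',
        Finset.sum_filter]
      refine Finset.sum_congr rfl fun K _ => ?_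
      split_ifs <;> simp
    rw [e1]
    have hmem : ∀ K ∈ s', K.card ≤ n := by
      intro K hK
      rw [hs', Finset.mem_filter] at hK
      exact hK.2.2
    have e2 : ∑ K ∈ s', ww p K ≤ Real.exp c * ∑ K ∈ s', √(ww q K) * √(ww p' K) := by
      rw [Finset.mul_sum]
      refine Finset.sum_le_sum fun K hK => ?_
      rw [hc]
      exact ww_tilt hp hp0 hq hp' h0 h1 K (hmem K hK)
    have e3 : (∑ K ∈ s', √(ww q K) * √(ww p' K)) ^ 2 ≤
        (∑ K ∈ s', √(ww q K) ^ 2) * ∑ K ∈ s', √(ww p' K) ^ 2 :=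
      Finset.sum_mul_sq_le_sq_mul_sq _ _ _
    have e4 : ∑ K ∈ s', √(ww q K) ^ 2 ≤ 1 := by
      rw [Finset.sum_congr rfl fun K _ => Real.sq_sqrt (ww_nonneg hq0 hq1 K)]
      exact sum_ww_le hq0 hq1 s'
    have e5 : ∑ K ∈ s', √(ww p' K) ^ 2 = ∑ K ∈ s', ww p' K :=
      Finset.sum_congr rfl fun K _ => Real.sq_sqrt (ww_nonneg hp0' hp1' K)
    have hnn : 0 ≤ ∑ K ∈ s', ww p' K := Finset.sum_nonneg fun K _ => ww_nonneg hp0' hp1' K
    have hnn2 : 0 ≤ ∑ K ∈ s', ww p K :=
      Finset.sum_nonneg fun K _ => ww_nonneg hp0.le (by linarith) K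
    have e6 : (∑ K ∈ s', ww p K) ^ 2 ≤ Real.exp (2 * c) * ∑ K ∈ s', ww p' K := by
      have hsq : 0 ≤ ∑ K ∈ s', √(ww q K) * √(ww p' K) :=
        Finset.sum_nonneg fun K _ => mul_nonneg (Real.sqrt_nonneg _) (Real.sqrt_nonneg _)
      calc (∑ K ∈ s', ww p K) ^ 2 ≤ (Real.exp c * ∑ K ∈ s', √(ww q K) * √(ww p' K)) ^ 2 :=
            pow_le_pow_left₀ hnn2 e2 2
        _ = Real.exp (2 * c) * (∑ K ∈ s', √(ww q K) * √(ww p' K)) ^ 2 := by
            rw [mul_pow, ← Real.exp_nat_mul]
            norm_num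
        _ ≤ Real.exp (2 * c) * (1 * ∑ K ∈ s', ww p' K) := by
            refine mul_le_mul_of_nonneg_left ?_ (Real.exp_nonneg _)
            rw [e5] at e3
            exact e3.trans (mul_le_mul_of_nonneg_right e4 hnn)
        _ = _ := by ring
    rw [← ENNReal.ofReal_pow hnn2]
    refine (ENNReal.ofReal_le_ofReal e6).trans ?_
    rw [ENNReal.ofReal_mul (Real.exp_nonneg _), hR]
    refine mul_le_mul' le_rfl ?_
    rw [ENNReal.ofReal_sum_of_nonneg (fun K _ => ww_nonneg hp0' hp1' K)]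
    unfold bt EF
    calc ∑ K ∈ s', ENNReal.ofReal (ww p' K) = ∑ K ∈ s', ENNReal.ofReal (ww p' K) *
          (if BT e y K then 1 else 0) := by
          refine Finset.sum_congr rfl fun K hK => ?_
          rw [hs', Finset.mem_filter] at hK
          rw [if_pos hK.2.1, mul_one]
      _ ≤ _ := ENNReal.sum_le_tsum _
  have h2 : (btn p e n y) ^ (2 : ℝ) ≤ R := by
    rw [← ENNReal.le_rpow_inv_iff (by norm_num)]
    unfold btn EF
    refine ENNReal.summable.tsum_le_of_sum_le fun s => ?_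
    rw [ENNReal.le_rpow_inv_iff (by norm_num)]
    have h3 := hfin s
    rw [← ENNReal.rpow_natCast] at h3
    exact_mod_cast h3
  rw [← ENNReal.rpow_natCast]
  exact_mod_cast h2

theorem btn_le_bt (p : ℝ) (e : Dir d) (n : ℕ) (y : Vx d) : btn p e n y ≤ bt p e y := by
  unfold btn bt EF
  refine ENNReal.tsum_le_tsum fun K => mul_le_mul' le_rfl ?_
  beta_reduce
  by_cases h : BT e y K
  · rw [if_pos h]
    split_ifs
    · exact le_rfl
    · exact zero_le
  · rw [if_neg h, if_neg (fun h' => h h'.1)]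

theorem bt_le_one (hp : 0 ≤ p) (hp1 : p ≤ 1) (e : Dir d) (y : Vx d) : bt p e y ≤ 1 := by
  unfold bt EF
  refine le_trans (ENNReal.tsum_le_tsum fun K => ?_) (tsum_ww_le hp hp1)
  beta_reduce
  split_ifs
  · rw [mul_one]
  · rw [mul_zero]
    exact zero_le

theorem bt_le_tauf (hp : 0 ≤ p) (hp1 : p ≤ 1) (e : Dir d) (y : Vx d) : bt p e y ≤ tauf p y := by
  unfold bt tauf EF
  refine ENNReal.tsum_le_tsum fun K => mul_le_mul' le_rfl ?_
  beta_reduce
  by_cases h : BT e y K
  · rw [if_pos h, if_pos h.2.1]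
  · rw [if_neg h]
    exact zero_le

/-- Reflection of the coordinates different from `e.1`. -/
theorem bt_reflect (hp : 0 ≤ p) (hp1 : p ≤ 1) (e : Dir d) (y : Vx d) :
    bt p e (fun i => if i = e.1 then y i else -y i) = bt p e y := by
  classical
  obtain ⟨ε, hε⟩ : ∃ ε : Fin d → ℤˣ, ∀ i, ε i = if i = e.1 then 1 else -1 := ⟨_, fun _ => rfl⟩
  have hsp : ∀ (x : Vx d) (i : Fin d), sp 1 ε x i = if i = e.1 then x i else -x i := by
    intro x i
    have h1 : sp 1 ε x i = (ε i : ℤ) * x i := rfl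
    rw [h1, hε]
    split_ifs <;> simp
  have hy : (fun i => if i = e.1 then y i else -y i) = sp 1 ε y := by
    funext i
    exact (hsp y i).symm
  rw [hy]
  have hdt : ∀ x : Vx d, dt (sp 1 ε x) e = dt x e := by
    intro x
    unfold dt
    rw [hsp, if_pos rfl]
  unfold bt EF
  rw [← Equiv.tsum_eq (Equiv.finsetCongr (sp 1 ε).toEquiv)]
  refine tsum_congr fun K => ?_
  rw [Equiv.finsetCongr_apply]
  have h1 : ww p (K.map (sp 1 ε).toEquiv.toEmbedding) = ww p K :=
    ww_equiv p (sp 1 ε).toEquiv (fun x y => sp_adj 1 ε x y) (map_zero (sp 1 ε)) K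
  rw [h1]
  have hmem : ∀ x : Vx d, sp 1 ε x ∈ K.map (sp 1 ε).toEquiv.toEmbedding ↔ x ∈ K := fun x =>
    Finset.mem_map' (sp 1 ε).toEquiv.toEmbedding
  have h2 : BT e (sp 1 ε y) (K.map (sp 1 ε).toEquiv.toEmbedding) ↔ BT e y K := by
    unfold BT
    constructor
    · rintro ⟨a0, a1, a2⟩
      refine ⟨?_, (hmem y).1 a1, fun z hz => ?_⟩
      · rw [← hmem, map_zero]
        exact a0
      · have h3 := a2 (sp 1 ε z) ((hmem z).2 hz)
        rwa [hdt, hdt] at h3
    · rintro ⟨a0, a1, a2⟩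
      refine ⟨?_, (hmem y).2 a1, fun z hz => ?_⟩
      · rw [← map_zero (sp 1 ε)]
        exact (hmem 0).2 a0
      · obtain ⟨u, hu, rfl⟩ := Finset.mem_map.1 hz
        have h3 := a2 u hu
        have h4 : dt ((sp 1 ε).toEquiv.toEmbedding u) e = dt u e := hdt u
        rw [h4, hdt]
        exact h3
  simp only [h2]

theorem bt_zero_ge (hp : 0 ≤ p) (hp1 : p ≤ 1) (e : Dir d) :
    ENNReal.ofReal ((1 - p) ^ (2 * d)) ≤ bt p e (0 : Vx d) := by
  classical
  have hBT : BT e (0 : Vx d) {0} := by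
    refine ⟨Finset.mem_singleton_self _, Finset.mem_singleton_self _, fun z hz => ?_⟩
    rw [Finset.mem_singleton] at hz
    rw [hz]
    simp [dt]
  have h1 : ENNReal.ofReal (ww p {(0 : Vx d)}) ≤ bt p e (0 : Vx d) := by
    unfold bt EF
    refine le_trans (le_of_eq ?_) (ENNReal.le_tsum {(0 : Vx d)})
    beta_reduce
    rw [if_pos hBT, mul_one]
  refine le_trans (ENNReal.ofReal_le_ofReal ?_) h1
  obtain ⟨V, hV⟩ : ∃ V : Finset (Vx d), V = nbh {(0 : Vx d)} := ⟨_, rfl⟩
  have h0V : (0 : Vx d) ∈ V := by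
    rw [hV]
    exact mem_nbh.2 (Or.inl (Finset.mem_singleton_self _))
  obtain ⟨F, hF⟩ : ∃ F : Finset (Ed d), F = touch V {(0 : Vx d)} := ⟨_, rfl⟩
  have hww : ww p {(0 : Vx d)} = PP p F {T | cl T V 0 = {(0 : Vx d)}} := by
    unfold ww
    rw [← hV, hF, ← PP_dep p (touch_subset V {(0 : Vx d)})]
    · refine PP_congr fun T _ => ?_
      exact ⟨fun h => h.2, fun h => ⟨Finset.mem_singleton_self _, h⟩⟩
    · intro T T' h
      exact ⟨fun hT => cl_eq_of_touch h hT, fun hT => cl_eq_of_touch h.symm hT⟩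
  rw [hww]
  have hFc : F.card ≤ 2 * d := by
    rw [hF, ← card_nbr (0 : Vx d)]
    refine le_trans (Finset.card_le_card (t := (nbr (0 : Vx d)).image (fun y => s((0 : Vx d), y))) ?_)
      Finset.card_image_le
    intro f hf
    induction f using Sym2.ind with
    | _ x y =>
      rw [mem_touch, Finset.mem_singleton, Finset.mem_singleton] at hf
      obtain ⟨⟨_, _, ha⟩, hx | hy⟩ := hf
      · subst hx
        exact Finset.mem_image.2 ⟨y, mem_nbr.2 ha, rfl⟩
      · subst hy
        exact Finset.mem_image.2 ⟨x, mem_nbr.2 ha.symm, Sym2.eq_swap⟩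
  have hempty : cl (∅ : Finset (Ed d)) V 0 = {(0 : Vx d)} := by
    ext x
    rw [mem_cl, Finset.mem_singleton]
    constructor
    · rintro ⟨_, h⟩
      induction h with
      | refl => rfl
      | tail _ h _ => exact absurd h.2.2 (Finset.notMem_empty _)
    · rintro rfl
      exact Conn.refl h0V
  have h1p : 0 ≤ 1 - p := by linarith
  have h2 : (1 - p) ^ F.card ≤ PP p F {T | cl T V 0 = {(0 : Vx d)}} := by
    rw [PP_def]
    unfold EE
    have h3 := Finset.single_le_sum (s := F.powerset) (f := fun T : Finset (Ed d) =>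
      p ^ T.card * (1 - p) ^ (F \ T).card *
        (if T ∈ {T : Finset (Ed d) | cl T V 0 = {(0 : Vx d)}} then (1 : ℝ) else 0)) (by
      intro T _
      refine mul_nonneg (mul_nonneg (pow_nonneg hp _) (pow_nonneg h1p _)) ?_
      split_ifs
      · exact zero_le_one
      · exact le_rfl) (Finset.empty_mem_powerset F)
    refine le_trans (le_of_eq ?_) (h3.trans (le_of_eq ?_))
    · rw [if_pos (show (∅ : Finset (Ed d)) ∈ {T : Finset (Ed d) | cl T V 0 = {(0 : Vx d)}} from
        hempty)]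
      simp
    · refine Finset.sum_congr rfl fun T _ => ?_
      beta_reduce
      congr
  refine le_trans ?_ h2
  exact pow_le_pow_of_le_one h1p (by linarith) hFc

end Pool.Agent.HD
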