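import Pool.Agent.Lib.MP_8ca597_hd.N64

/-!
# Row N65: gluing of clusters (N6d)

Let `BT e y K1`, `BT e y' K2`, `z = y + uv e`, `K2' = K2 + z`: `K1 ⊆ {0 ≤ dt ≤ dt y e}`,
`K2' ⊆ {dt y e + 1 ≤ dt ≤ dt y e + 1 + dt y' e}`, so `K1`, `K2'` are disjoint, `s(y, z)` joins them, `0` is a
lowest and `y' + z` a highest point of `K = K1 ∪ K2'`, and `K1`, `K2` are determined by `K`, `y`
(`K1 = K.filter (dt · e ≤ dt y e)`).
`ww_glue`: let `V = nbh K` (large), `F1 = touch V K1`, `F2 = touch V K2'`. `{cl T V 0 = K1}` depends only on `F1`,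
`{cl T V z = K2'}` only on `F2`. Factor the sets by `F1 ∩ F2` = the edges between `K1` and `K2'`, which are closed on both
events: `PP {cl T V 0 = K1, cl T V z = K2'} (1 - p)^{|F1 ∩ F2|} = ww p K1 * ww p K2`, and opening the edge `s(y, z)`
(all other edges between `K1` and `K2'` remain closed) gives configurations with `cl T V 0 = K`:
`ww p K ≥ p / (1 - p) * PP {..} ≥ p / (1 - p) * ww p K1 * ww p K2`.
-/

set_option autoImplicit false

namespace Pool.Agent.HD

open Finset
open scoped ENNReal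

variable {d : ℕ} {p : ℝ}

private theorem N65_EE_map {α β : Type} [DecidableEq α] [DecidableEq β] (p : ℝ) (S : Finset α)
    (e : α ↪ β) (f : Finset β → ℝ) : EE p (S.map e) f = EE p S fun T => f (T.map e) := by
  unfold EE
  have h : (S.map e).powerset = S.powerset.map (Finset.mapEmbedding e).toEmbedding := by
    ext T
    simp only [Finset.mem_powerset, Finset.mem_map, RelEmbedding.coe_toEmbedding,
      Finset.mapEmbedding_apply]
    constructor
    · intro hT
      obtain ⟨U, hU, rfl⟩ := Finset.subset_map_iff.1 hT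
      exact ⟨U, hU, rfl⟩
    · rintro ⟨U, hU, rfl⟩
      exact Finset.map_subset_map.2 hU
  rw [h, Finset.sum_map]
  refine Finset.sum_congr rfl fun T _ => ?_
  simp only [RelEmbedding.coe_toEmbedding, Finset.mapEmbedding_apply, Finset.card_map]
  rw [← Finset.map_sdiff, Finset.card_map]

private theorem N65_PP_map {α β : Type} [DecidableEq α] [DecidableEq β] (p : ℝ) (S : Finset α)
    (e : α ↪ β) (A : Set (Finset β)) : PP p (S.map e) A = PP p S {T | T.map e ∈ A} := by
  classical
  rw [PP_def, N65_EE_map, PP_def]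
  apply EE_congr
  intro T _
  simp only [Set.mem_ofPred_eq]

private theorem N65_edges_map (σ : Vx d ≃ Vx d) (hσ : ∀ x y, Adj (σ x) (σ y) ↔ Adj x y)
    (V : Finset (Vx d)) :
    edges (V.map σ.toEmbedding) = (edges V).map σ.toEmbedding.sym2Map := by
  ext e
  induction e using Sym2.ind with
  | _ x y =>
    rw [mem_edges]
    refine Iff.trans ?_ Finset.mem_map.symm
    constructor
    · rintro ⟨hx, hy, hadj⟩
      obtain ⟨x', hx', rfl⟩ := Finset.mem_map.1 hx
      obtain ⟨y', hy', rfl⟩ := Finset.mem_map.1 hy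
      exact ⟨s(x', y'), mem_edges.2 ⟨hx', hy', (hσ _ _).1 hadj⟩, by simp⟩
    · rintro ⟨e, he, h⟩
      induction e using Sym2.ind with
      | _ a b =>
        obtain ⟨ha, hb, hab⟩ := mem_edges.1 he
        have h' : s(σ a, σ b) = s(x, y) := by simpa using h
        have h1 : s(σ a, σ b) ∈ edges (V.map σ.toEmbedding) :=
          mem_edges.2 ⟨by simpa using ha, by simpa using hb, (hσ _ _).2 hab⟩
        rw [h'] at h1
        exact mem_edges.1 h1

private theorem N65_conn_map (σ : Vx d ≃ Vx d) (hσ : ∀ x y, Adj (σ x) (σ y) ↔ Adj x y)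
    {T : Finset (Ed d)} {V : Finset (Vx d)} {x y : Vx d} (h : Conn T V x y) :
    Conn (T.map σ.toEmbedding.sym2Map) ((V.map σ.toEmbedding : Finset (Vx d)) : Set (Vx d))
      (σ x) (σ y) := by
  refine ⟨by simpa using h.left, ?_⟩
  refine h.2.lift σ (fun a b hab => ?_)
  refine ⟨by simpa using hab.1, (hσ _ _).2 hab.2.1, ?_⟩
  exact Finset.mem_map.2 ⟨s(a, b), hab.2.2, by simp⟩

private theorem N65_conn_map_iff (σ : Vx d ≃ Vx d) (hσ : ∀ x y, Adj (σ x) (σ y) ↔ Adj x y)
    {T : Finset (Ed d)} {V : Finset (Vx d)} {x y : Vx d} :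
    Conn (T.map σ.toEmbedding.sym2Map) ((V.map σ.toEmbedding : Finset (Vx d)) : Set (Vx d))
      (σ x) (σ y) ↔ Conn T V x y := by
  refine ⟨fun h => ?_, N65_conn_map σ hσ⟩
  have h' := N65_conn_map σ.symm (fun x y => by
    have := hσ (σ.symm x) (σ.symm y)
    simpa using this.symm) h
  have e1 : ((T.map σ.toEmbedding.sym2Map).map σ.symm.toEmbedding.sym2Map) = T := by
    ext e
    simp only [Finset.mem_map]
    constructor
    · rintro ⟨_, ⟨e', he', rfl⟩, rfl⟩
      induction e' using Sym2.ind with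
      | _ a b => simpa using he'
    · intro he
      refine ⟨_, ⟨e, he, rfl⟩, ?_⟩
      induction e using Sym2.ind with
      | _ a b => simp
  have e2 : ((V.map σ.toEmbedding).map σ.symm.toEmbedding) = V := by
    ext v
    simp
  rw [e1, e2] at h'
  simpa using h'

private theorem N65_cl_map (σ : Vx d ≃ Vx d) (hσ : ∀ x y, Adj (σ x) (σ y) ↔ Adj x y)
    (T : Finset (Ed d)) (V : Finset (Vx d)) (x : Vx d) :
    cl (T.map σ.toEmbedding.sym2Map) (V.map σ.toEmbedding) (σ x) =
      (cl T V x).map σ.toEmbedding := by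
  ext y
  obtain ⟨y, rfl⟩ := σ.surjective y
  rw [mem_cl, N65_conn_map_iff σ hσ]
  simp [mem_cl]

private theorem N65_nbh_map (σ : Vx d ≃ Vx d) (hσ : ∀ x y, Adj (σ x) (σ y) ↔ Adj x y)
    (K : Finset (Vx d)) : nbh (K.map σ.toEmbedding) = (nbh K).map σ.toEmbedding := by
  ext y
  obtain ⟨y, rfl⟩ := σ.surjective y
  rw [mem_nbh]
  have h1 : ∀ z : Vx d, σ z ∈ K.map σ.toEmbedding ↔ z ∈ K := fun z => by simp
  have h2 : σ y ∈ (nbh K).map σ.toEmbedding ↔ y ∈ nbh K := by simp
  rw [h1, h2, mem_nbh]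
  refine or_congr_right ⟨?_, ?_⟩
  · rintro ⟨x, hx, hadj⟩
    obtain ⟨x, rfl⟩ := σ.surjective x
    exact ⟨x, (h1 x).1 hx, (hσ _ _).1 hadj⟩
  · rintro ⟨x, hx, hadj⟩
    exact ⟨σ x, (h1 x).2 hx, (hσ _ _).2 hadj⟩

/-- The weight of the image under an automorphism. -/
private theorem N65_ww_map (p : ℝ) (σ : Vx d ≃ Vx d) (hσ : ∀ x y, Adj (σ x) (σ y) ↔ Adj x y)
    (K : Finset (Vx d)) : ww p (K.map σ.toEmbedding) =
      PP p (edges (nbh K)) {T | σ.symm 0 ∈ K ∧ cl T (nbh K) (σ.symm 0) = K} := by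
  unfold ww
  rw [N65_nbh_map σ hσ, N65_edges_map σ hσ, N65_PP_map]
  apply PP_congr
  intro T _
  have h0 : (0 : Vx d) = σ (σ.symm 0) := by simp
  simp only [Set.mem_ofPred_eq]
  refine and_congr ?_ ?_
  · conv_lhs => rw [h0]
    simp
  · conv_lhs => rw [h0]
    rw [N65_cl_map σ hσ]
    exact Finset.map_inj

/-! ### Clusters -/

private theorem N65_cl_char {T : Finset (Ed d)} {V K : Finset (Vx d)} {a : Vx d} (ha : a ∈ K)
    (hK : K ⊆ V) : cl T V a = K ↔ (∀ x ∈ K, Conn T K a x) ∧
      ∀ u ∈ K, ∀ v ∈ V, Adj u v → s(u, v) ∈ T → v ∈ K := by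
  constructor
  · rintro rfl
    exact ⟨fun x hx => conn_in_cl hx, fun u hu v hv hadj he => cl_closed hu hv hadj he⟩
  · rintro ⟨h1, h2⟩
    ext x
    rw [mem_cl]
    constructor
    · rintro ⟨_, h⟩
      induction h with
      | refl => exact ha
      | tail _ hs ih => exact h2 _ ih _ (by simpa using hs.1) hs.2.1 hs.2.2
    · intro hx
      exact (h1 x hx).mono (le_refl _) (by simpa using hK)

private theorem N65_cl_iff {T : Finset (Ed d)} {V K : Finset (Vx d)} (h : nbh K ⊆ V) {a : Vx d}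
    (ha : a ∈ K) : cl T V a = K ↔ cl T (nbh K) a = K := by
  have hK : K ⊆ nbh K := fun x hx => mem_nbh.2 (Or.inl hx)
  rw [N65_cl_char ha (hK.trans h), N65_cl_char ha hK]
  refine and_congr_right fun _ => ⟨fun h2 u hu v hv => h2 u hu v (h hv), fun h2 u hu v _ hadj => ?_⟩
  exact h2 u hu v (mem_nbh.2 (Or.inr ⟨u, hu, hadj⟩)) hadj

private theorem N65_touch {V K : Finset (Vx d)} (h : nbh K ⊆ V) :
    touch V K = touch (nbh K) K := by
  ext e
  induction e using Sym2.ind with
  | _ x y =>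
    rw [mem_touch, mem_touch]
    constructor
    · rintro ⟨⟨_, _, hadj⟩, hxy⟩
      refine ⟨⟨?_, ?_, hadj⟩, hxy⟩
      · rcases hxy with hx | hy
        · exact mem_nbh.2 (Or.inl hx)
        · exact mem_nbh.2 (Or.inr ⟨y, hy, hadj.symm⟩)
      · rcases hxy with hx | hy
        · exact mem_nbh.2 (Or.inr ⟨x, hx, hadj⟩)
        · exact mem_nbh.2 (Or.inl hy)
    · rintro ⟨⟨hx, hy, hadj⟩, hxy⟩
      exact ⟨⟨h hx, h hy, hadj⟩, hxy⟩

/-- The weight as a probability in the edges which touch the set. -/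
private theorem N65_ww_touch (p : ℝ) {K : Finset (Vx d)} (h0 : (0 : Vx d) ∈ K) :
    ww p K = PP p (touch (nbh K) K) {T | cl T (nbh K) 0 = K} := by
  unfold ww
  rw [← PP_dep p (touch_subset (nbh K) K) (dep_cl (nbh K) K 0)]
  apply PP_congr
  intro T _
  simp [h0]

/-! ### The factorisation -/

private theorem N65_q0 {α : Type} [DecidableEq α] (p : ℝ) (F : Finset α) (X : Finset α)
    (hX : X ⊆ F) : EE p F (fun T => if T = X then 1 else 0) = p ^ X.card * (1 - p) ^ (F \ X).card := by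
  unfold EE
  rw [Finset.sum_eq_single X]
  · simp
  · intro T _ hne
    simp [hne]
  · intro h
    exact absurd (Finset.mem_powerset.2 hX) h

/-- An event on which the edges of `F` are closed. -/
private theorem N65_closed {α : Type} [DecidableEq α] (hp : 0 ≤ p) (hp1 : p ≤ 1)
    {F G : Finset α} (hFG : Disjoint G F) {A : Set (Finset α)}
    (hA : ∀ T ⊆ G, ∀ T' ⊆ F, T ∪ T' ∈ A → T' = ∅) :
    PP p (G ∪ F) A ≤ (1 - p) ^ F.card * PP p G A := by
  classical
  rw [PP_def, EE_union p hFG, PP_def, ← EE_const_mul]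
  refine EE_mono hp hp1 fun T hT => ?_
  have h0 := N65_q0 p F ∅ (Finset.empty_subset F)
  simp only [Finset.card_empty, pow_zero, one_mul, Finset.sdiff_empty] at h0
  rw [← h0, mul_comm, ← EE_const_mul]
  refine EE_mono hp hp1 fun T' hT' => ?_
  by_cases h : T ∪ T' ∈ A
  · have h1 := hA T hT T' hT' h
    subst h1
    rw [Finset.union_empty] at h
    simp [h]
  · simp only [h, if_false]
    split_ifs <;> simp

/-- Opening one edge of `F`. -/
private theorem N65_open {α : Type} [DecidableEq α] (hp : 0 ≤ p) (hp1 : p ≤ 1)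
    {F G1 G2 : Finset α} (h12 : Disjoint G1 G2) (hF : Disjoint F (G1 ∪ G2)) {g : α} (hg : g ∈ F)
    {A A1 A2 : Set (Finset α)}
    (hA : ∀ T ⊆ G1, ∀ T' ⊆ G2, T ∈ A1 → T' ∈ A2 → {g} ∪ (T ∪ T') ∈ A) :
    p * (1 - p) ^ (F.card - 1) * (PP p G1 A1 * PP p G2 A2) ≤ PP p (F ∪ (G1 ∪ G2)) A := by
  classical
  rw [PP_def p (F ∪ (G1 ∪ G2)), EE_union p hF]
  have h0 := N65_q0 p F {g} (by simpa using hg)
  rw [Finset.card_singleton, pow_one, Finset.card_sdiff_of_subset (by simpa using hg),
    Finset.card_singleton] at h0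
  rw [← h0, mul_comm, ← EE_const_mul]
  refine EE_mono hp hp1 fun T hT => ?_
  by_cases h : T = {g}
  · subst h
    simp only [if_true, mul_one]
    rw [EE_union p h12, PP_def p G1, mul_comm, ← EE_const_mul]
    refine EE_mono hp hp1 fun T1 hT1 => ?_
    rw [PP_def p G2, mul_comm, ← EE_const_mul]
    refine EE_mono hp hp1 fun T2 hT2 => ?_
    by_cases h1 : T1 ∈ A1
    · by_cases h2 : T2 ∈ A2
      · have := hA T1 hT1 T2 hT2 h1 h2
        rw [if_pos h1, if_pos h2, if_pos this, mul_one]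
      · simp only [h2, if_false, mul_zero]
        split_ifs <;> simp
    · simp only [h1, if_false, zero_mul]
      split_ifs <;> simp
  · simp only [h, if_false, mul_zero]
    refine EE_nonneg hp hp1 fun T' _ => ?_
    split_ifs <;> simp

/-- The translation of a cluster. -/
private theorem N65_ww_trans (p : ℝ) {K : Finset (Vx d)} (h0 : (0 : Vx d) ∈ K) (z : Vx d)
    {V : Finset (Vx d)} (hV : nbh (K.image (· + z)) ⊆ V) :
    ww p K = PP p (touch V (K.image (· + z))) {T | cl T V z = K.image (· + z)} := by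
  classical
  have h1 : K = (K.image (· + z)).map (Equiv.subRight z).toEmbedding := by
    ext x
    simp only [Finset.mem_map, Finset.mem_image, Equiv.coe_toEmbedding, Equiv.subRight_apply]
    constructor
    · intro hx
      exact ⟨x + z, ⟨x, hx, rfl⟩, by simp⟩
    · rintro ⟨_, ⟨w, hw, rfl⟩, h⟩
      have : x = w := by
        rw [← h]
        simp
      rw [this]
      exact hw
  have hz : z ∈ K.image (· + z) := Finset.mem_image.2 ⟨0, h0, by simp⟩
  obtain ⟨K', hK'⟩ : ∃ K', K' = K.image (· + z) := ⟨_, rfl⟩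
  rw [← hK'] at h1 hz hV ⊢
  conv_lhs => rw [h1]
  rw [N65_ww_map p (Equiv.subRight z) (fun x y => by
    have := adj_add (x - z) (y - z) z
    simpa [sub_add_cancel] using this.symm)]
  have h2 : (Equiv.subRight z).symm 0 = z := by
    rw [Equiv.symm_apply_eq]
    simp
  rw [h2, N65_touch hV, ← PP_dep p (touch_subset (nbh K') K') ?_]
  · apply PP_congr
    intro T _
    simp only [Set.mem_ofPred_eq, hz, true_and]
    exact (N65_cl_iff hV hz).symm
  · intro T T' h
    have := dep_cl (nbh K') K' z T T' h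
    simp only [Set.mem_ofPred_eq] at this ⊢
    rw [N65_cl_iff hV hz, N65_cl_iff hV hz]
    exact this

/-- The probability of two disjoint clusters joined by one open edge. -/
theorem ww_glue (hp : 0 < p) (hp1 : p < 1) (e : Dir d) {y y' : Vx d} {K1 K2 : Finset (Vx d)}
    (h1 : BT e y K1) (h2 : BT e y' K2) :
    p / (1 - p) * (ww p K1 * ww p K2) ≤ ww p (K1 ∪ K2.image (· + (y + uv e))) := by
  classical
  obtain ⟨z, hz⟩ : ∃ z, z = y + uv e := ⟨_, rfl⟩
  rw [← hz]
  have hdz : dt z e = dt y e + 1 := by rw [hz, dt_add, dt_uv]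
  have hadj : Adj y z := by rw [hz]; exact uv_adj e y
  have hz2 : z ∈ K2.image (· + z) := Finset.mem_image.2 ⟨0, h2.1, by simp⟩
  have hdt2 : ∀ x ∈ K2.image (· + z), dt y e + 1 ≤ dt x e := by
    intro x hx
    obtain ⟨w, hw, rfl⟩ := Finset.mem_image.1 hx
    have := (h2.2.2 w hw).1
    rw [dt_add, hdz]
    omega
  obtain ⟨K2', hK2'⟩ : ∃ K2', K2' = K2.image (· + z) := ⟨_, rfl⟩
  have hdisj : ∀ x ∈ K1, x ∉ K2' := by
    intro x hx hx2
    have h3 := (h1.2.2 x hx).2
    have h4 := hdt2 x (hK2' ▸ hx2)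
    omega
  have hsub1 : K1 ⊆ K1 ∪ K2' := Finset.subset_union_left
  have hsub2 : K2' ⊆ K1 ∪ K2' := Finset.subset_union_right
  have hnbh : ∀ {A B : Finset (Vx d)}, A ⊆ B → nbh A ⊆ nbh B := by
    intro A B hAB x hx
    rcases mem_nbh.1 hx with h | ⟨w, hw, hwx⟩
    · exact mem_nbh.2 (Or.inl (hAB h))
    · exact mem_nbh.2 (Or.inr ⟨w, hAB hw, hwx⟩)
  obtain ⟨V, hV⟩ : ∃ V, V = nbh (K1 ∪ K2') := ⟨_, rfl⟩
  have hV1 : nbh K1 ⊆ V := by rw [hV]; exact hnbh hsub1
  have hV2 : nbh K2' ⊆ V := by rw [hV]; exact hnbh hsub2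
  have hKV : K1 ∪ K2' ⊆ V := by rw [hV]; exact fun x hx => mem_nbh.2 (Or.inl hx)
  have hK1V : K1 ⊆ V := hsub1.trans hKV
  have hK2V : K2' ⊆ V := hsub2.trans hKV
  have hw1 : ww p K1 = PP p (touch V K1) {T | cl T V 0 = K1} := by
    rw [← PP_cl_eq p hV1 h1.1, PP_dep p (touch_subset V K1) (dep_cl V K1 0)]
  have hw2 : ww p K2 = PP p (touch V K2') {T | cl T V z = K2'} := by
    rw [hK2']
    refine N65_ww_trans p h2.1 z ?_
    rw [← hK2']
    exact hV2
  have hw : ww p (K1 ∪ K2') = PP p (touch V (K1 ∪ K2')) {T | cl T V 0 = K1 ∪ K2'} := by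
    rw [← PP_cl_eq p hV.ge (hsub1 h1.1), PP_dep p (touch_subset V _) (dep_cl V _ 0)]
  obtain ⟨F, hF⟩ : ∃ F, F = touch V K1 ∩ touch V K2' := ⟨_, rfl⟩
  obtain ⟨G1, hG1⟩ : ∃ G1, G1 = touch V K1 \ F := ⟨_, rfl⟩
  obtain ⟨G2, hG2⟩ : ∃ G2, G2 = touch V K2' \ F := ⟨_, rfl⟩
  have hF1 : touch V K1 = G1 ∪ F := by
    rw [hG1, hF]
    ext a
    simp only [Finset.mem_union, Finset.mem_sdiff, Finset.mem_inter]
    tauto
  have hF2 : touch V K2' = G2 ∪ F := by
    rw [hG2, hF]
    ext a
    simp only [Finset.mem_union, Finset.mem_sdiff, Finset.mem_inter]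
    tauto
  have hFF : touch V (K1 ∪ K2') = F ∪ (G1 ∪ G2) := by
    rw [hG2, hG1, hF]
    ext a
    induction a using Sym2.ind with
    | _ a b =>
      simp only [Finset.mem_union, Finset.mem_sdiff, Finset.mem_inter, mem_touch]
      tauto
  have hd1 : Disjoint G1 F := by rw [hG1]; exact Finset.sdiff_disjoint
  have hd2 : Disjoint G2 F := by rw [hG2]; exact Finset.sdiff_disjoint
  have hd12 : Disjoint G1 G2 := by
    rw [Finset.disjoint_left]
    intro a ha ha'
    rw [hG1, hF] at ha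
    rw [hG2, hF] at ha'
    simp only [Finset.mem_sdiff, Finset.mem_inter] at ha ha'
    tauto
  have hdF : Disjoint F (G1 ∪ G2) := by
    rw [Finset.disjoint_union_right]
    exact ⟨hd1.symm, hd2.symm⟩
  have hyK : y ∈ K1 := h1.2.1
  have hzK : z ∈ K2' := by rw [hK2']; exact hz2
  have hgF : s(y, z) ∈ F := by
    rw [hF, Finset.mem_inter, mem_touch, mem_touch]
    exact ⟨⟨⟨hK1V hyK, hK2V hzK, hadj⟩, Or.inl hyK⟩, ⟨⟨hK1V hyK, hK2V hzK, hadj⟩, Or.inr hzK⟩⟩
  -- an edge of `F` joins `K1` and `K2'`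
  have hFe : ∀ a ∈ F, ∃ u v, a = s(u, v) ∧ u ∈ K1 ∧ v ∈ K2' ∧ Adj u v := by
    intro a ha
    rw [hF] at ha
    induction a using Sym2.ind with
    | _ a b =>
      rw [Finset.mem_inter, mem_touch, mem_touch] at ha
      obtain ⟨⟨⟨_, _, hab⟩, h3⟩, ⟨_, h4⟩⟩ := ha
      rcases h3 with h3 | h3
      · rcases h4 with h4 | h4
        · exact absurd h4 (hdisj _ h3)
        · exact ⟨a, b, rfl, h3, h4, hab⟩
      · rcases h4 with h4 | h4
        · exact ⟨b, a, Sym2.eq_swap, h3, h4, hab.symm⟩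
        · exact absurd h4 (hdisj _ h3)
  have hc1 : PP p (touch V K1) {T | cl T V 0 = K1} ≤
      (1 - p) ^ F.card * PP p G1 {T | cl T V 0 = K1} := by
    rw [hF1]
    refine N65_closed hp.le hp1.le hd1 fun T _ T' hT' h => ?_
    by_contra hne
    obtain ⟨a, ha⟩ := Finset.nonempty_iff_ne_empty.2 hne
    obtain ⟨u, v, rfl, hu, hv, huv⟩ := hFe a (hT' ha)
    have h' : cl (T ∪ T') V 0 = K1 := h
    have h5 : v ∈ cl (T ∪ T') V 0 :=
      cl_closed (h'.symm ▸ hu) (hK2V hv) huv (Finset.mem_union_right _ ha)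
    rw [h'] at h5
    exact hdisj _ h5 hv
  have hc2 : PP p (touch V K2') {T | cl T V z = K2'} ≤
      (1 - p) ^ F.card * PP p G2 {T | cl T V z = K2'} := by
    rw [hF2]
    refine N65_closed hp.le hp1.le hd2 fun T _ T' hT' h => ?_
    by_contra hne
    obtain ⟨a, ha⟩ := Finset.nonempty_iff_ne_empty.2 hne
    obtain ⟨u, v, rfl, hu, hv, huv⟩ := hFe a (hT' ha)
    have h' : cl (T ∪ T') V z = K2' := h
    have h5 : u ∈ cl (T ∪ T') V z :=
      cl_closed (h'.symm ▸ hv) (hK1V hu) huv.symm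
        (Finset.mem_union_right _ (by rw [Sym2.eq_swap]; exact ha))
    rw [h'] at h5
    exact hdisj _ hu h5
  have hc : p * (1 - p) ^ (F.card - 1) * (PP p G1 {T | cl T V 0 = K1} *
      PP p G2 {T | cl T V z = K2'}) ≤ PP p (touch V (K1 ∪ K2')) {T | cl T V 0 = K1 ∪ K2'} := by
    rw [hFF]
    refine N65_open hp.le hp1.le hd12 hdF hgF fun T hT T' hT' h h' => ?_
    have hh : cl T V 0 = K1 := h
    have hh' : cl T' V z = K2' := h'
    rw [N65_cl_char h1.1 hK1V] at hh
    rw [N65_cl_char hzK hK2V] at hh'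
    refine (N65_cl_char (hsub1 h1.1) hKV).2 ⟨?_, ?_⟩
    · have h6 : ∀ x ∈ K1, Conn ({s(y, z)} ∪ (T ∪ T')) ((K1 ∪ K2' : Finset (Vx d)) : Set (Vx d)) 0 x :=
        fun x hx => (hh.1 x hx).mono
          (fun a ha => Finset.mem_union_right _ (Finset.mem_union_left _ ha))
          (by exact_mod_cast hsub1)
      intro x hx
      rcases Finset.mem_union.1 hx with hx | hx
      · exact h6 x hx
      · refine ((h6 y hyK).step ?_ ?_ ?_).trans ((hh'.1 x hx).mono
          (fun a ha => Finset.mem_union_right _ (Finset.mem_union_right _ ha))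
          (by exact_mod_cast hsub2))
        all_goals first
          | exact hadj
          | exact Finset.mem_union_left _ (Finset.mem_singleton_self _)
          | exact_mod_cast hsub2 hzK
    · intro u hu v hv huv he
      rcases Finset.mem_union.1 he with he | he
      · rw [Finset.mem_singleton] at he
        rcases Sym2.eq_iff.1 he with ⟨_, rfl⟩ | ⟨_, rfl⟩
        · exact hsub2 hzK
        · exact hsub1 hyK
      · rcases Finset.mem_union.1 he with he | he
        · by_cases huK : u ∈ K1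
          · exact hsub1 (hh.2 u huK v hv huv he)
          · have h7 : s(u, v) ∈ touch V K1 := by
              rw [hF1]
              exact Finset.mem_union_left _ (hT he)
            rcases (mem_touch.1 h7).2 with h8 | h8
            · exact absurd h8 huK
            · exact hsub1 h8
        · by_cases huK : u ∈ K2'
          · exact hsub2 (hh'.2 u huK v hv huv he)
          · have h7 : s(u, v) ∈ touch V K2' := by
              rw [hF2]
              exact Finset.mem_union_left _ (hT' he)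
            rcases (mem_touch.1 h7).2 with h8 | h8
            · exact absurd h8 huK
            · exact hsub2 h8
  rw [← hK2', hw]
  refine le_trans ?_ hc
  rw [hw1, hw2]
  have hq : 0 < 1 - p := by linarith
  have hF0 : 0 < F.card := Finset.card_pos.2 ⟨_, hgF⟩
  have hP1 : 0 ≤ PP p G1 {T | cl T V 0 = K1} := PP_nonneg hp.le hp1.le
  have hP2 : 0 ≤ PP p G2 {T | cl T V z = K2'} := PP_nonneg hp.le hp1.le
  have hP1' : 0 ≤ PP p (touch V K1) {T | cl T V 0 = K1} := PP_nonneg hp.le hp1.le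
  have hP2' : 0 ≤ PP p (touch V K2') {T | cl T V z = K2'} := PP_nonneg hp.le hp1.le
  have hpow : (1 - p) ^ F.card ≤ 1 := pow_le_one₀ hq.le (by linarith)
  have hpow0 : 0 ≤ (1 - p) ^ F.card := by positivity
  have hstep : p / (1 - p) * (1 - p) ^ F.card = p * (1 - p) ^ (F.card - 1) := by
    have : (1 - p) ^ F.card = (1 - p) ^ (F.card - 1) * (1 - p) := by
      rw [← pow_succ]
      congr 1
      omega
    rw [this]
    field_simp
  calc p / (1 - p) * (PP p (touch V K1) {T | cl T V 0 = K1} *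
        PP p (touch V K2') {T | cl T V z = K2'})
      ≤ p / (1 - p) * (((1 - p) ^ F.card * PP p G1 {T | cl T V 0 = K1}) *
        (1 * PP p G2 {T | cl T V z = K2'})) := by
        refine mul_le_mul_of_nonneg_left ?_ (by positivity)
        refine mul_le_mul hc1 (hc2.trans ?_) hP2' (by positivity)
        exact mul_le_mul_of_nonneg_right hpow hP2
    _ = p / (1 - p) * (1 - p) ^ F.card * (PP p G1 {T | cl T V 0 = K1} *
        PP p G2 {T | cl T V z = K2'}) := by ring
    _ = _ := by rw [hstep]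

/-- Gluing. -/
theorem bt_glue (hp : 0 < p) (hp1 : p < 1) (e : Dir d) {y y' : Vx d} (hy : 0 ≤ dt y e)
    (hy' : 0 ≤ dt y' e) :
    ENNReal.ofReal (p / (1 - p)) * (bt p e y * bt p e y') ≤ bt p e (y + y' + uv e) := by
  classical
  obtain ⟨z, hz⟩ : ∃ z, z = y + uv e := ⟨_, rfl⟩
  have hdz : dt z e = dt y e + 1 := by rw [hz, dt_add, dt_uv]
  have hyz : y + y' + uv e = y' + z := by rw [hz]; abel
  have hq : 0 < 1 - p := by linarith
  have hpp : 0 ≤ p / (1 - p) := by positivity
  -- the glued set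
  have hBT : ∀ K1 K2 : Finset (Vx d), BT e y K1 → BT e y' K2 →
      BT e (y + y' + uv e) (K1 ∪ K2.image (· + z)) := by
    intro K1 K2 h1 h2
    refine ⟨Finset.mem_union_left _ h1.1, Finset.mem_union_right _ ?_, ?_⟩
    · rw [hyz]
      exact Finset.mem_image.2 ⟨y', h2.2.1, rfl⟩
    · intro x hx
      rw [hyz, dt_add, hdz]
      rcases Finset.mem_union.1 hx with hx | hx
      · have := h1.2.2 x hx
        omega
      · obtain ⟨w, hw, rfl⟩ := Finset.mem_image.1 hx
        have := h2.2.2 w hw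
        rw [dt_add, hdz]
        omega
  have hK1 : ∀ K1 K2 : Finset (Vx d), BT e y K1 → BT e y' K2 →
      (K1 ∪ K2.image (· + z)).filter (fun x => dt x e ≤ dt y e) = K1 := by
    intro K1 K2 h1 h2
    ext x
    rw [Finset.mem_filter, Finset.mem_union]
    constructor
    · rintro ⟨hx | hx, h⟩
      · exact hx
      · obtain ⟨w, hw, rfl⟩ := Finset.mem_image.1 hx
        have := h2.2.2 w hw
        rw [dt_add, hdz] at h
        omega
    · intro hx
      exact ⟨Or.inl hx, (h1.2.2 x hx).2⟩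
  have hK2 : ∀ K1 K2 : Finset (Vx d), BT e y K1 → BT e y' K2 →
      (K1 ∪ K2.image (· + z)).filter (fun x => ¬ dt x e ≤ dt y e) = K2.image (· + z) := by
    intro K1 K2 h1 h2
    ext x
    rw [Finset.mem_filter, Finset.mem_union]
    constructor
    · rintro ⟨hx | hx, h⟩
      · exact absurd (h1.2.2 x hx).2 h
      · exact hx
    · intro hx
      refine ⟨Or.inr hx, ?_⟩
      obtain ⟨w, hw, rfl⟩ := Finset.mem_image.1 hx
      have := h2.2.2 w hw
      rw [dt_add, hdz]
      omega
  let W : Type := {q : Finset (Vx d) × Finset (Vx d) // BT e y q.1 ∧ BT e y' q.2}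
  let φ : W → Finset (Vx d) := fun q => q.1.1 ∪ q.1.2.image (· + z)
  have hφ : Function.Injective φ := by
    rintro ⟨⟨A, B⟩, hA, hB⟩ ⟨⟨A', B'⟩, hA', hB'⟩ h
    have h' : A ∪ B.image (· + z) = A' ∪ B'.image (· + z) := h
    have e1 : A = A' := by
      rw [← hK1 A B hA hB, ← hK1 A' B' hA' hB', h']
    have e2 : B.image (· + z) = B'.image (· + z) := by
      rw [← hK2 A B hA hB, ← hK2 A' B' hA' hB', h']
    have e3 : B = B' := Finset.image_injective (add_left_injective z) e2
    subst e1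
    subst e3
    rfl
  have hbt : bt p e y * bt p e y' = ∑' q : Finset (Vx d) × Finset (Vx d),
      (if BT e y q.1 ∧ BT e y' q.2 then ENNReal.ofReal (ww p q.1) * ENNReal.ofReal (ww p q.2)
        else 0) := by
    unfold bt EF
    rw [← ENNReal.tsum_mul_right]
    rw [ENNReal.tsum_prod' (f := fun q : Finset (Vx d) × Finset (Vx d) =>
      (if BT e y q.1 ∧ BT e y' q.2 then ENNReal.ofReal (ww p q.1) * ENNReal.ofReal (ww p q.2)
        else 0))]
    refine tsum_congr fun K1 => ?_
    rw [← ENNReal.tsum_mul_left]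
    refine tsum_congr fun K2 => ?_
    by_cases h1 : BT e y K1
    · by_cases h2 : BT e y' K2
      · simp [h1, h2]
      · simp [h1, h2]
    · simp [h1]
  rw [hbt, ← ENNReal.tsum_mul_left]
  calc ∑' q : Finset (Vx d) × Finset (Vx d), ENNReal.ofReal (p / (1 - p)) *
        (if BT e y q.1 ∧ BT e y' q.2 then ENNReal.ofReal (ww p q.1) * ENNReal.ofReal (ww p q.2)
          else 0)
      ≤ ∑' q : Finset (Vx d) × Finset (Vx d),
        (if BT e y q.1 ∧ BT e y' q.2 then ENNReal.ofReal (ww p (q.1 ∪ q.2.image (· + z)))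
          else 0) := by
        refine ENNReal.tsum_le_tsum fun q => ?_
        by_cases h : BT e y q.1 ∧ BT e y' q.2
        · simp only [h, if_true, and_self]
          rw [← ENNReal.ofReal_mul (ww_nonneg hp.le hp1.le _), ← ENNReal.ofReal_mul hpp]
          refine ENNReal.ofReal_le_ofReal ?_
          rw [hz]
          exact ww_glue hp hp1 e h.1 h.2
        · simp [h]
    _ = ∑' q : W, ENNReal.ofReal (ww p (φ q)) := by
        have hind : (fun q : Finset (Vx d) × Finset (Vx d) =>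
            (if BT e y q.1 ∧ BT e y' q.2 then
              ENNReal.ofReal (ww p (q.1 ∪ q.2.image (· + z))) else 0)) =
            Set.indicator {q : Finset (Vx d) × Finset (Vx d) | BT e y q.1 ∧ BT e y' q.2}
              (fun q => ENNReal.ofReal (ww p (q.1 ∪ q.2.image (· + z)))) := by
          funext q
          rw [Set.indicator_apply]
          rfl
        rw [hind, ← _root_.tsum_subtype]
        rfl
    _ ≤ ∑' q : W, (ENNReal.ofReal (ww p (φ q)) *
        (if BT e (y + y' + uv e) (φ q) then 1 else 0)) := by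
        refine ENNReal.tsum_le_tsum fun q => ?_
        rw [if_pos (hBT q.1.1 q.1.2 q.2.1 q.2.2), mul_one]
    _ ≤ bt p e (y + y' + uv e) := by
        unfold bt EF
        exact ENNReal.tsum_comp_le_tsum_of_injective hφ
          (fun K => ENNReal.ofReal (ww p K) * (if BT e (y + y' + uv e) K then 1 else 0))

end Pool.Agent.HD
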