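import Pool.Agent.Lib.MP_8ca597_hd.N60
import Pool.Agent.Lib.MP_8ca597_hd.N61
import Pool.Agent.Lib.MP_8ca597_hd.N62
import Pool.Agent.Lib.MP_8ca597_hd.N63
import Pool.Agent.Lib.MP_8ca597_hd.N65

/-!
# Row N66: the lower bound of the truncated two-point function (upper bound of `1 / ξ`)

`p = pc + ε`, `q = pc - ε`. `far_flux`: `windows` (N61) for `f n = (ff q e n).toReal`, `κ = (kapi d e ·).toReal`,
`r0 = ⌊c1 / √ε⌋`, `K = ⌊log (1/ε)⌋`: `4 ^ K ≤ ε^(-7/5)`, `M = C' / r0 ^ 6`, so `M r0 4 ^ K → 0`; `(1/4)^K / 2 ≥ ε^2` for small `ε`.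
`some_bt`: with `H` from `far_flux`, `reach_ge`: the probability to reach `H - 1` is at least
`ε^4 / chi^3 ≥ ε^8`; `EF_vol_tail` with `n0 = ⌈C'' log (1/ε) / ε²⌉`: `P(|C| ≥ n0) ≤ ε^9`; so
`EF q (|K| ≤ n0, extension ≥ H - 1) ≥ ε^9`; `bt_pigeon`: some `x` with `dt x e ≥ H - 1` has
`btn q e n0 x ≥ ε^9 / (n0 (2 n0 + 1)^d) ≥ ε^(12 + 3 d)`; `bt_tilt` with `δ = 2 ε`, `p = pc - ε`, `p' = pc + ε`:
`bt (pc + ε) e x ≥ btn² exp (- C ε² n0) ≥ ε^A`.
`nu_lower`: `y = x`, `ybar` (reflection): `bt e (y + ybar + uv e) ≥ p/(1-p) (ε^A)²` (`bt_glue`, `bt_reflect`) and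
`y + ybar + uv e = (2 dt y e + 1) • uv e`. `s n = p/(1-p) bt ((n-1) uv e)` satisfies `s (n + n') ≥ s n s n'`; with
`N = 2 dt y e + 2 ≥ 2 H`, `s N ≥ ε^(2A+1)`, `s 1 ≥ c(d) > 0`: `s n ≥ (ε^(2A+1))^(n / N) (s 1)^N`, and
`log (1/ε) / N ≤ log (1/ε) / (2 K r0) ≤ C √ε`; finally `bt_le_tauf`.
-/

set_option autoImplicit false

namespace Pool.Agent.HD

open Finset
open scoped ENNReal

variable {m d : ℕ} {h : m ≤ d} {C : ℝ}

private theorem N66_pc (hc : Crit m d h C) : 0 < pc d := by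
  have h1 := hc.pc_lo
  have h2 : (0 : ℝ) < d := by exact_mod_cast hc.pos
  have h3 : (0 : ℝ) < 1 / (2 * d) := by positivity
  linarith

private theorem N66_ff (hc : Crit m d h C) {q : ℝ} (hq0 : 0 ≤ q) (hq : q ≤ pc d) (e : Dir d)
    {r : ℤ} (hr : 1 ≤ r) : ff q e r ≤ 2 := by
  have h1 := hc.pc_hi
  refine le_trans ?_ (hc.ff_le e r hr)
  unfold ff lev
  refine mul_le_mul' (ENNReal.ofReal_le_ofReal hq) (ENNReal.tsum_le_tsum fun z => ?_)
  exact tauI_mono_p hq0 hq (by linarith) _ _ _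

private theorem N66_fin (hc : Crit m d h C) {q : ℝ} (hq0 : 0 ≤ q) (hq : q ≤ pc d) (e : Dir d)
    {r : ℤ} (hr : 1 ≤ r) : ff q e r ≠ ⊤ :=
  ne_top_of_le_ne_top (by simp) (N66_ff hc hq0 hq e hr)

private theorem N66_kfin (hc : Crit m d h C) (e : Dir d) {i : ℕ} (hi : 1 ≤ i) :
    kapi d e i ≠ ⊤ := by
  obtain ⟨C', -, hC⟩ := kapi_dec hc
  exact ne_top_of_le_ne_top ENNReal.ofReal_ne_top (hC e i hi)

private theorem N66_rec (hc : Crit m d h C) {q : ℝ} (hq : 1 / (4 * d : ℝ) ≤ q) (hq' : q < pc d)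
    (e : Dir d) {r n : ℕ} (hr : 1 ≤ r) (hn : 1 ≤ n) :
    (ff q e r).toReal * (ff q e n).toReal ≤ (ff q e (n + r : ℕ)).toReal +
      (ff q e n).toReal / 40 +
      ∑ i ∈ Ico 1 n, (kapi d e i).toReal * (ff q e (n - i : ℕ)).toReal := by
  have hq0 : 0 ≤ q := le_trans (by positivity) hq
  have h1 := ff_rec hc hq hq' e hr hn
  have hf : ∀ k : ℕ, 1 ≤ k → ff q e k ≠ ⊤ := fun k hk =>
    N66_fin hc hq0 hq'.le e (by exact_mod_cast hk)
  have hs : ∀ i ∈ Ico 1 n, kapi d e i * ff q e (n - i : ℕ) ≠ ⊤ := by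
    intro i hi
    rw [mem_Ico] at hi
    exact ENNReal.mul_ne_top (N66_kfin hc e hi.1) (hf _ (by omega))
  have hsum : ∑ i ∈ Ico 1 n, kapi d e i * ff q e (n - i : ℕ) ≠ ⊤ := by
    rw [Ne, ENNReal.sum_eq_top]
    rintro ⟨i, hi, h⟩
    exact hs i hi h
  have ha : ff q e (n + r : ℕ) ≠ ⊤ := hf _ (by omega)
  have hb : ENNReal.ofReal (1 / 40) * ff q e n ≠ ⊤ :=
    ENNReal.mul_ne_top ENNReal.ofReal_ne_top (hf n hn)
  have hab : ff q e (n + r : ℕ) + ENNReal.ofReal (1 / 40) * ff q e n ≠ ⊤ :=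
    ENNReal.add_ne_top.2 ⟨ha, hb⟩
  have h2 := ENNReal.toReal_mono (ENNReal.add_ne_top.2 ⟨hab, hsum⟩) h1
  rw [ENNReal.toReal_mul, ENNReal.toReal_add hab hsum, ENNReal.toReal_add ha hb,
    ENNReal.toReal_mul, ENNReal.toReal_ofReal (by norm_num), ENNReal.toReal_sum hs] at h2
  simp only [ENNReal.toReal_mul] at h2
  linarith

private theorem N66_ksum (hc : Crit m d h C) (e : Dir d) (N : ℕ) :
    ∑ i ∈ Ico 1 N, (kapi d e i).toReal ≤ 1 / 100 := by
  have h1 : ∑ i ∈ Ico 1 N, kapi d e i ≤ ENNReal.ofReal (1 / 100) := by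
    rw [Finset.sum_Ico_eq_sum_range]
    refine le_trans ?_ (kapi_sum hc e)
    have h2 := ENNReal.sum_le_tsum (f := fun i : ℕ => kapi d e (i + 1)) (range (N - 1))
    refine le_trans (le_of_eq ?_) h2
    refine Finset.sum_congr rfl fun i _ => ?_
    rw [add_comm]
  have h2 := ENNReal.toReal_mono ENNReal.ofReal_ne_top h1
  rw [ENNReal.toReal_ofReal (by norm_num), ENNReal.toReal_sum] at h2
  · exact h2
  · intro i hi
    rw [mem_Ico] at hi
    exact N66_kfin hc e hi.1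

/-- The number `L = log (1 / ε)`. -/
private theorem N66_L {ε : ℝ} (h0 : 0 < ε) :
    Real.exp (Real.log (1 / ε)) = 1 / ε ∧ Real.log (1 / ε) = 2 * Real.log (1 / √ε) ∧
      Real.log (1 / ε) = -Real.log ε := by
  refine ⟨Real.exp_log (by positivity), ?_, ?_⟩
  · have h1 : 1 / ε = (1 / √ε) ^ 2 := by
      rw [div_pow, Real.sq_sqrt h0.le, one_pow]
    rw [h1, Real.log_pow]
    norm_num
  · rw [one_div, Real.log_inv]

private theorem N66_L2 {ε : ℝ} (h0 : 0 < ε) (h1 : ε ≤ 1 / 8) : 2 ≤ Real.log (1 / ε) := by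
  rw [Real.le_log_iff_exp_le (by positivity)]
  have h2 : Real.exp 2 = Real.exp 1 ^ 2 := by
    rw [← Real.exp_nat_mul]
    norm_num
  have h3 := Real.exp_one_lt_d9
  have h4 := Real.exp_pos 1
  have h5 : (8 : ℝ) ≤ 1 / ε := by
    rw [le_div_iff₀ h0]
    linarith
  rw [h2]
  nlinarith

theorem far_flux (hc : Crit m d h C) {c1 : ℝ} (hc1 : 0 < c1)
    (hhalf : ∀ ε : ℝ, 0 < ε → ε ≤ c1 → ∀ (e : Dir d) (r : ℕ), 1 ≤ r → (r : ℝ) ≤ c1 / √ε →
      ENNReal.ofReal (1 / 2) ≤ ff (pc d - ε) e r) :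
    ∃ c2 ε0 : ℝ, 0 < c2 ∧ 0 < ε0 ∧ ∀ ε : ℝ, 0 < ε → ε ≤ ε0 → ∀ e : Dir d, ∃ H : ℕ, 1 ≤ H ∧
      c2 * Real.log (1 / ε) / √ε ≤ H ∧ ENNReal.ofReal (ε ^ 2) ≤ ff (pc d - ε) e H := by
  obtain ⟨C', hC', hdec⟩ := kapi_dec hc
  have hd : (0 : ℝ) < d := by exact_mod_cast hc.pos
  have hlo := hc.pc_lo
  refine ⟨c1 / 4, min (min (min c1 (c1 ^ 2)) (min (1 / 8) (1 / (4 * d)))) (c1 ^ 5 / (640 * C')),
    by positivity, by positivity, ?_⟩
  intro ε h0 hε e
  have e1 : ε ≤ c1 := hε.trans ((min_le_left _ _).trans ((min_le_left _ _).trans (min_le_left _ _)))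
  have e2 : ε ≤ c1 ^ 2 :=
    hε.trans ((min_le_left _ _).trans ((min_le_left _ _).trans (min_le_right _ _)))
  have e3 : ε ≤ 1 / 8 :=
    hε.trans ((min_le_left _ _).trans ((min_le_right _ _).trans (min_le_left _ _)))
  have e4 : ε ≤ 1 / (4 * d) :=
    hε.trans ((min_le_left _ _).trans ((min_le_right _ _).trans (min_le_right _ _)))
  have e5 : ε ≤ c1 ^ 5 / (640 * C') := hε.trans (min_le_right _ _)
  have hs : 0 < √ε := Real.sqrt_pos.2 h0
  have hss : √ε ^ 2 = ε := Real.sq_sqrt h0.le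
  have hsc : √ε ≤ c1 := by
    rw [Real.sqrt_le_left hc1.le]
    exact e2
  have hs2 : √ε ≤ 1 / 2 := by
    rw [Real.sqrt_le_left (by norm_num)]
    linarith
  obtain ⟨hL1, hL2, -⟩ := N66_L h0
  have hL := N66_L2 h0 e3
  set L := Real.log (1 / ε) with hLd
  -- the radius
  have hx : 1 ≤ c1 / √ε := by
    rw [le_div_iff₀ hs]
    linarith
  set r0 := ⌊c1 / √ε⌋₊ with hr0
  have hr1 : (r0 : ℝ) ≤ c1 / √ε := Nat.floor_le (by positivity)
  have hr2 : c1 / √ε / 2 ≤ r0 := by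
    have h1 := Nat.lt_floor_add_one (c1 / √ε)
    have h2 : 1 ≤ r0 := Nat.le_floor (by exact_mod_cast hx)
    have h3 : (1 : ℝ) ≤ r0 := by exact_mod_cast h2
    rw [← hr0] at h1
    linarith
  have hr3 : 1 ≤ r0 := Nat.le_floor (by exact_mod_cast hx)
  have hr4 : (0 : ℝ) < r0 := by exact_mod_cast hr3
  -- the number of windows
  set K := ⌊L⌋₊ with hK
  have hK1 : (K : ℝ) ≤ L := Nat.floor_le (by linarith)
  have hK2 : L / 2 ≤ K := by
    have h1 := Nat.lt_floor_add_one L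
    rw [← hK] at h1
    linarith
  have h4K : (4 : ℝ) ^ K ≤ 1 / √ε ^ 3 := by
    have hl : 0 ≤ Real.log (1 / √ε) := by linarith
    have h1 : (4 : ℝ) ^ K = Real.exp (K * (2 * Real.log 2)) := by
      have h2 : (2 : ℝ) * Real.log 2 = Real.log 4 := by
        rw [show (4 : ℝ) = 2 ^ 2 by norm_num, Real.log_pow]
        norm_num
      rw [h2, Real.exp_nat_mul, Real.exp_log (by norm_num)]
    have h3 : 1 / √ε ^ 3 = Real.exp (3 * Real.log (1 / √ε)) := by
      rw [show (3 : ℝ) = ((3 : ℕ) : ℝ) by norm_num, Real.exp_nat_mul,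
        Real.exp_log (by positivity), div_pow, one_pow]
    rw [h1, h3, Real.exp_le_exp]
    have h5 := Real.log_two_lt_d9
    have h6 : 0 < Real.log 2 := Real.log_pos (by norm_num)
    calc (K : ℝ) * (2 * Real.log 2) ≤ L * (2 * Real.log 2) :=
          mul_le_mul_of_nonneg_right hK1 (by positivity)
      _ = (4 * Real.log 2) * Real.log (1 / √ε) := by rw [hL2]; ring
      _ ≤ 3 * Real.log (1 / √ε) := mul_le_mul_of_nonneg_right (by linarith) hl
  -- the windows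
  have hq : 1 / (4 * d : ℝ) ≤ pc d - ε := by
    have h1 : 1 / (2 * d : ℝ) = 1 / (4 * d) + 1 / (4 * d) := by
      field_simp
      norm_num
    linarith
  have hq' : pc d - ε < pc d := by linarith
  have hq0 : 0 ≤ pc d - ε := le_trans (by positivity) hq
  have hfin : ∀ k : ℕ, 1 ≤ k → ff (pc d - ε) e k ≠ ⊤ := fun k hk =>
    N66_fin hc hq0 hq'.le e (by exact_mod_cast hk)
  obtain ⟨n, hn1, -, hn3⟩ := windows (f := fun n : ℕ => (ff (pc d - ε) e n).toReal)
    (κ := fun i => (kapi d e i).toReal) (fun _ => ENNReal.toReal_nonneg)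
    (fun _ => ENNReal.toReal_nonneg)
    (fun r n hr hn => N66_rec hc hq hq' e hr hn) (N66_ksum hc e) (r0 := r0) (K := K) hr3
    (by
      intro n hn hn'
      have h1 : (n : ℝ) ≤ c1 / √ε := le_trans (by exact_mod_cast hn') hr1
      have h2 := hhalf ε h0 e1 e n hn h1
      rwa [ENNReal.ofReal_le_iff_le_toReal (hfin n hn)] at h2)
    (M := C' / (r0 : ℝ) ^ 6)
    (by
      intro i hi
      have h1 : 1 ≤ i := by omega
      have h2 := ENNReal.toReal_mono ENNReal.ofReal_ne_top (hdec e i h1)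
      have h3 : (r0 : ℝ) ≤ i := by exact_mod_cast hi.le
      rw [ENNReal.toReal_ofReal (by positivity)] at h2
      refine h2.trans ?_
      exact div_le_div_of_nonneg_left hC'.le (by positivity)
        (pow_le_pow_left₀ hr4.le h3 6))
    (by
      have h1 : 2 * (C' / (r0 : ℝ) ^ 6) * r0 * 4 ^ K = 2 * C' * 4 ^ K / (r0 : ℝ) ^ 5 := by
        field_simp
      rw [h1, div_le_iff₀ (by positivity)]
      have h2 : (c1 / √ε / 2) ^ 5 ≤ (r0 : ℝ) ^ 5 := pow_le_pow_left₀ (by positivity) hr2 5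
      have h3 : 2 * C' * (4 : ℝ) ^ K ≤ 2 * C' * (1 / √ε ^ 3) :=
        mul_le_mul_of_nonneg_left h4K (by positivity)
      refine h3.trans (le_trans ?_ (mul_le_mul_of_nonneg_left h2 (by norm_num)))
      have h4 : 640 * C' * √ε ^ 2 ≤ c1 ^ 5 := by
        rw [hss]
        rw [le_div_iff₀ (by positivity)] at e5
        linarith
      have h5 : 1 / 10 * (c1 / √ε / 2) ^ 5 = c1 ^ 5 / (320 * √ε ^ 5) := by
        field_simp
        norm_num
      have h6 : 2 * C' * (1 / √ε ^ 3) = (640 * C' * √ε ^ 2) / (320 * √ε ^ 5) := by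
        field_simp
        norm_num
      rw [h5, h6]
      exact div_le_div_of_nonneg_right h4 (by positivity))
  refine ⟨n, by omega, ?_, ?_⟩
  · have h1 : ((K * r0 : ℕ) : ℝ) ≤ n := by exact_mod_cast hn1.le
    rw [Nat.cast_mul] at h1
    refine le_trans ?_ h1
    calc c1 / 4 * L / √ε = L / 2 * (c1 / √ε / 2) := by ring
      _ ≤ K * r0 := mul_le_mul hK2 hr2 (by positivity) (by positivity)
  · rw [ENNReal.ofReal_le_iff_le_toReal (hfin n (by omega))]
    refine le_trans ?_ hn3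
    have h1 : √ε ^ 3 ≤ (1 / 4 : ℝ) ^ K := by
      rw [div_pow, one_pow, le_div_iff₀ (by positivity)]
      calc √ε ^ 3 * 4 ^ K ≤ √ε ^ 3 * (1 / √ε ^ 3) :=
            mul_le_mul_of_nonneg_left h4K (by positivity)
        _ = 1 := by field_simp
    have h2 : ε ^ 2 = √ε ^ 3 * √ε := by
      rw [← hss]
      rw [Real.sqrt_sq hs.le]
      ring
    rw [h2]
    calc √ε ^ 3 * √ε ≤ (1 / 4 : ℝ) ^ K * (1 / 2) :=
          mul_le_mul h1 hs2 hs.le (by positivity)
      _ = (1 / 4 : ℝ) ^ K / 2 := by ring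

/-! ### The choice of `x` -/

open Classical in
private theorem N66_reach (hc : Crit m d h C) {ε : ℝ} (h0 : 0 < ε) (hε : ε ≤ 1 / C ^ 3)
    (hq : 0 ≤ pc d - ε) (e : Dir d) {H : ℕ} (hH : 1 ≤ H)
    (hf : ENNReal.ofReal (ε ^ 2) ≤ ff (pc d - ε) e H) :
    ENNReal.ofReal (ε ^ 8) ≤
      EF (pc d - ε) fun K => if ∃ x ∈ K, (H : ℤ) - 1 ≤ dt x e then 1 else 0 := by
  have hC := hc.one_le
  have hpc := hc.pc_hi
  have hC0 : 0 < C := by linarith
  have hX : 0 < C / ε := by positivity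
  have h1 := reach_ge hq (by linarith) (sub_of_lt hq (by linarith)) e hH
  have h2 := hc.chi_le (pc d - ε) hq (by linarith)
  rw [show pc d - (pc d - ε) = ε by ring] at h2
  set R := EF (pc d - ε) fun K => if ∃ x ∈ K, (H : ℤ) - 1 ≤ dt x e then 1 else 0 with hR
  have h3 : ENNReal.ofReal (ε ^ 4) ≤ ENNReal.ofReal ((C / ε) ^ 3) * R := by
    calc ENNReal.ofReal (ε ^ 4) = ENNReal.ofReal (ε ^ 2) ^ 2 := by
          rw [← ENNReal.ofReal_pow (by positivity)]
          congr 1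
          ring
      _ ≤ ff (pc d - ε) e H ^ 2 := pow_le_pow_left' hf 2
      _ ≤ chi d (pc d - ε) ^ 3 * R := h1
      _ ≤ ENNReal.ofReal ((C / ε) ^ 3) * R := by
          rw [ENNReal.ofReal_pow hX.le]
          exact mul_le_mul_left (pow_le_pow_left' h2 3) _
  have h4 : ENNReal.ofReal ((C / ε) ^ 3) * ENNReal.ofReal (ε ^ 8) ≤ ENNReal.ofReal (ε ^ 4) := by
    rw [← ENNReal.ofReal_mul (by positivity)]
    refine ENNReal.ofReal_le_ofReal ?_
    have h5 : (C / ε) ^ 3 * ε ^ 8 = (C ^ 3 * ε) * ε ^ 4 := by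
      field_simp
    rw [h5]
    have h6 : C ^ 3 * ε ≤ 1 := by
      rw [le_div_iff₀ (by positivity)] at hε
      linarith
    have h7 : 0 ≤ ε ^ 4 := by positivity
    nlinarith
  have h8 : ENNReal.ofReal ((C / ε) ^ 3) ≠ 0 := by
    rw [Ne, ENNReal.ofReal_eq_zero, not_le]
    positivity
  exact (ENNReal.mul_le_mul_iff_right h8 ENNReal.ofReal_ne_top).1 (h4.trans h3)

open Classical in
private theorem N66_tail (hc : Crit m d h C) {ε : ℝ} (h0 : 0 < ε) (hε : ε ≤ 1 / 8)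
    (hq : 0 ≤ pc d - ε) {n : ℕ} (hn : 160 * (C / ε) ^ 2 * Real.log (1 / ε) ≤ n) :
    EF (pc d - ε) (fun K : Finset (Vx d) => if n ≤ K.card then 1 else 0) ≤
      ENNReal.ofReal (ε ^ 9) := by
  have hC := hc.one_le
  have hpc := hc.pc_hi
  have hC0 : 0 < C := by linarith
  have hX : 0 < C / ε := by positivity
  have hX1 : 1 ≤ C / ε := by
    rw [le_div_iff₀ h0]
    linarith
  have h2 := hc.chi_le (pc d - ε) hq (by linarith)
  rw [show pc d - (pc d - ε) = ε by ring] at h2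
  refine (EF_vol_tail hq (by linarith) hX1 h2 n).trans (ENNReal.ofReal_le_ofReal ?_)
  obtain ⟨hL1, -, -⟩ := N66_L h0
  have h3 : 10 * Real.log (1 / ε) ≤ n / (16 * (C / ε) ^ 2) := by
    rw [le_div_iff₀ (by positivity)]
    linarith
  have h4 : Real.exp (-(n / (16 * (C / ε) ^ 2))) ≤ ε ^ 10 := by
    calc Real.exp (-(n / (16 * (C / ε) ^ 2))) ≤ Real.exp (-(10 * Real.log (1 / ε))) := by
          rw [Real.exp_le_exp]
          linarith
      _ = ε ^ 10 := by
          rw [Real.exp_neg, show (10 : ℝ) = ((10 : ℕ) : ℝ) by norm_num, Real.exp_nat_mul, hL1,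
            div_pow, one_pow, one_div, inv_inv]
  calc 2 * Real.exp (-(n / (16 * (C / ε) ^ 2))) ≤ 2 * ε ^ 10 := by linarith
    _ = (2 * ε) * ε ^ 9 := by ring
    _ ≤ 1 * ε ^ 9 := mul_le_mul_of_nonneg_right (by linarith) (by positivity)
    _ = ε ^ 9 := one_mul _

open Classical in
private theorem N66_ext (hc : Crit m d h C) {ε : ℝ} (h0 : 0 < ε) (hε : ε ≤ 1 / 8)
    (hε' : ε ≤ 1 / C ^ 3) (hq : 0 ≤ pc d - ε) (e : Dir d) {H : ℕ} (hH : 1 ≤ H)
    (hf : ENNReal.ofReal (ε ^ 2) ≤ ff (pc d - ε) e H) {n : ℕ}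
    (hn : 160 * (C / ε) ^ 2 * Real.log (1 / ε) ≤ n) :
    ENNReal.ofReal (ε ^ 9) ≤ EF (pc d - ε) fun K => if K.card ≤ n ∧
      ∃ x ∈ K, ∃ y ∈ K, ((H - 1 : ℕ) : ℤ) ≤ dt x e - dt y e then 1 else 0 := by
  have h1 := N66_reach hc h0 hε' hq e hH hf
  have h2 := N66_tail hc h0 hε hq hn
  set R := EF (pc d - ε) fun K => if K.card ≤ n ∧
      ∃ x ∈ K, ∃ y ∈ K, ((H - 1 : ℕ) : ℤ) ≤ dt x e - dt y e then 1 else 0 with hR
  have h3 : (EF (pc d - ε) fun K => if ∃ x ∈ K, (H : ℤ) - 1 ≤ dt x e then 1 else 0) ≤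
      R + EF (pc d - ε) (fun K : Finset (Vx d) => if n ≤ K.card then 1 else 0) := by
    rw [hR]
    unfold EF
    rw [← ENNReal.tsum_add]
    refine ENNReal.tsum_le_tsum fun K => ?_
    rw [← mul_add]
    by_cases hK : (0 : Vx d) ∈ K
    · refine mul_le_mul_right ?_ _
      beta_reduce
      by_cases ha : ∃ x ∈ K, (H : ℤ) - 1 ≤ dt x e
      · rw [if_pos ha]
        by_cases hb : n ≤ K.card
        · rw [if_pos hb]
          exact le_add_self
        · have hcd : K.card ≤ n ∧ ∃ x ∈ K, ∃ y ∈ K, ((H - 1 : ℕ) : ℤ) ≤ dt x e - dt y e := by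
            refine ⟨by omega, ?_⟩
            obtain ⟨x, hx, hx'⟩ := ha
            refine ⟨x, hx, 0, hK, ?_⟩
            have h5 : dt (0 : Vx d) e = 0 := by simp [dt]
            rw [h5]
            push_cast [hH]
            linarith
          rw [if_pos hcd]
          exact le_self_add
      · rw [if_neg ha]
        exact zero_le
    · rw [ww_zero _ hK]
      simp
  have h4 : ENNReal.ofReal (ε ^ 9) + ENNReal.ofReal (ε ^ 9) ≤ ENNReal.ofReal (ε ^ 8) := by
    rw [← ENNReal.ofReal_add (by positivity) (by positivity)]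
    refine ENNReal.ofReal_le_ofReal ?_
    have h5 : ε ^ 9 + ε ^ 9 = (2 * ε) * ε ^ 8 := by ring
    rw [h5]
    have h6 : 0 ≤ ε ^ 8 := by positivity
    nlinarith
  have h5 : ENNReal.ofReal (ε ^ 9) + ENNReal.ofReal (ε ^ 9) ≤ R + ENNReal.ofReal (ε ^ 9) :=
    h4.trans (h1.trans (h3.trans (add_le_add le_rfl h2)))
  exact (ENNReal.add_le_add_iff_right ENNReal.ofReal_ne_top).1 h5

/-- The bounds for `n0`. -/
private theorem N66_n0 (hC : 1 ≤ C) {ε : ℝ} (h0 : 0 < ε) (hε : ε ≤ 1 / 8)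
    (hε' : ε ≤ 1 / (160 * C ^ 2 + 1)) :
    (⌈160 * (C / ε) ^ 2 * Real.log (1 / ε)⌉₊ : ℝ) ≤
      (160 * C ^ 2 + 1) * Real.log (1 / ε) / ε ^ 2 ∧
    (⌈160 * (C / ε) ^ 2 * Real.log (1 / ε)⌉₊ : ℝ) ≤ 1 / ε ^ 4 := by
  have hL := N66_L2 h0 hε
  have hL' : Real.log (1 / ε) ≤ 1 / ε := Real.log_le_self (by positivity)
  have hC0 : 0 < C := by linarith
  set L := Real.log (1 / ε) with hLd
  have h1 : (⌈160 * (C / ε) ^ 2 * L⌉₊ : ℝ) ≤ (160 * C ^ 2 + 1) * L / ε ^ 2 := by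
    have h2 := (Nat.ceil_lt_add_one (a := 160 * (C / ε) ^ 2 * L) (by positivity)).le
    refine h2.trans ?_
    have h3 : (1 : ℝ) ≤ L / ε ^ 2 := by
      rw [le_div_iff₀ (by positivity)]
      nlinarith
    have h4 : (160 * C ^ 2 + 1) * L / ε ^ 2 = 160 * (C / ε) ^ 2 * L + L / ε ^ 2 := by
      field_simp
    rw [h4]
    linarith
  refine ⟨h1, h1.trans ?_⟩
  rw [div_le_div_iff₀ (by positivity) (by positivity)]
  have h5 : (160 * C ^ 2 + 1) * ε ≤ 1 := by
    rw [le_div_iff₀ (by positivity)] at hε'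
    linarith
  have h6 : L * ε ≤ 1 := by
    rw [le_div_iff₀ h0] at hL'
    exact hL'
  calc (160 * C ^ 2 + 1) * L * ε ^ 4 = ((160 * C ^ 2 + 1) * ε) * (L * ε) * ε ^ 2 := by ring
    _ ≤ 1 * 1 * ε ^ 2 := by
        refine mul_le_mul_of_nonneg_right ?_ (by positivity)
        exact mul_le_mul h5 h6 (by positivity) (by norm_num)
    _ = 1 * ε ^ 2 := by ring

private theorem N66_btn (hc : Crit m d h C) {ε : ℝ} (h0 : 0 < ε) (hε : ε ≤ 1 / 8)
    (hε' : ε ≤ 1 / C ^ 3) (hε'' : ε ≤ 1 / (160 * C ^ 2 + 1)) (hq : 0 ≤ pc d - ε) (e : Dir d)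
    {H : ℕ} (hH : 1 ≤ H) (hf : ENNReal.ofReal (ε ^ 2) ≤ ff (pc d - ε) e H) :
    ∃ x : Vx d, (H : ℤ) - 1 ≤ dt x e ∧ ENNReal.ofReal (ε ^ (14 + 5 * d)) ≤
      btn (pc d - ε) e ⌈160 * (C / ε) ^ 2 * Real.log (1 / ε)⌉₊ x := by
  classical
  set n := ⌈160 * (C / ε) ^ 2 * Real.log (1 / ε)⌉₊ with hn
  have hpc := hc.pc_hi
  have h1 := N66_ext hc h0 hε hε' hq e hH hf (n := n) (Nat.le_ceil _)
  obtain ⟨-, h2⟩ := N66_n0 hc.one_le h0 hε hε''
  rw [← hn] at h2
  by_contra hcon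
  push Not at hcon
  have h3 := bt_pigeon hq (by linarith) e n (H - 1) (a := ENNReal.ofReal (ε ^ (14 + 5 * d)))
    (by
      intro x _ hx
      refine (hcon x ?_).le
      push_cast [hH] at hx
      linarith)
  have h4 : (n : ℝ≥0∞) * (2 * n + 1) ^ d * ENNReal.ofReal (ε ^ (14 + 5 * d)) ≤
      ENNReal.ofReal (ε ^ 10) := by
    have h5 : (n : ℝ≥0∞) * (2 * n + 1) ^ d * ENNReal.ofReal (ε ^ (14 + 5 * d)) =
        ENNReal.ofReal (n * (2 * n + 1) ^ d * ε ^ (14 + 5 * d)) := by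
      have h6 : ENNReal.ofReal ((2 * (n : ℝ) + 1) ^ d) = (2 * n + 1) ^ d := by
        rw [ENNReal.ofReal_pow (by positivity), ENNReal.ofReal_add (by positivity) (by norm_num),
          ENNReal.ofReal_mul (by norm_num), ENNReal.ofReal_natCast]
        simp
      rw [ENNReal.ofReal_mul (by positivity), ENNReal.ofReal_mul (by positivity), h6,
        ENNReal.ofReal_natCast]
    rw [h5]
    refine ENNReal.ofReal_le_ofReal ?_
    have h6 : 2 * (n : ℝ) + 1 ≤ 1 / ε ^ 5 := by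
      have h7 : (1 : ℝ) ≤ 1 / ε ^ 4 := by
        rw [le_div_iff₀ (by positivity), one_mul]
        exact pow_le_one₀ h0.le (by linarith)
      have h8 : 3 * (1 / ε ^ 4) ≤ 1 / ε ^ 5 := by
        have h9 : 1 / ε ^ 5 = (1 / ε) * (1 / ε ^ 4) := by
          field_simp
        have h10 : 3 ≤ 1 / ε := by
          rw [le_div_iff₀ h0]
          linarith
        rw [h9]
        exact mul_le_mul_of_nonneg_right h10 (by positivity)
      linarith
    calc (n : ℝ) * (2 * n + 1) ^ d * ε ^ (14 + 5 * d) ≤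
          1 / ε ^ 4 * (1 / ε ^ 5) ^ d * ε ^ (14 + 5 * d) := by
            refine mul_le_mul_of_nonneg_right ?_ (by positivity)
            exact mul_le_mul h2 (pow_le_pow_left₀ (by positivity) h6 d) (by positivity)
              (by positivity)
      _ = ε ^ 10 := by
          rw [div_pow, one_pow, ← pow_mul]
          rw [show ε ^ (14 + 5 * d) = ε ^ 10 * ε ^ 4 * ε ^ (5 * d) by
            rw [← pow_add, ← pow_add]]
          field_simp
  have h7 : ENNReal.ofReal (ε ^ 9) ≤ ENNReal.ofReal (ε ^ 10) := h1.trans (h3.trans h4)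
  rw [ENNReal.ofReal_le_ofReal_iff (by positivity)] at h7
  have h8 : ε ^ 10 = ε * ε ^ 9 := by ring
  have h9 : 0 < ε ^ 9 := by positivity
  nlinarith

theorem some_bt (hc : Crit m d h C) {c1 : ℝ} (hc1 : 0 < c1)
    (hhalf : ∀ ε : ℝ, 0 < ε → ε ≤ c1 → ∀ (e : Dir d) (r : ℕ), 1 ≤ r → (r : ℝ) ≤ c1 / √ε →
      ENNReal.ofReal (1 / 2) ≤ ff (pc d - ε) e r) :
    ∃ c2 A ε0 : ℝ, 0 < c2 ∧ 0 < A ∧ 0 < ε0 ∧ ∀ ε : ℝ, 0 < ε → ε ≤ ε0 → ∀ e : Dir d,
      ∃ x : Vx d, c2 * Real.log (1 / ε) / √ε ≤ dt x e ∧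
        ENNReal.ofReal (ε ^ A) ≤ bt (pc d + ε) e x := by
  obtain ⟨c, ε1, hc0, hε1, hfar⟩ := far_flux hc hc1 hhalf
  have hd : (0 : ℝ) < d := by exact_mod_cast hc.pos
  have hpc := N66_pc hc
  have hpc' := hc.pc_hi
  have hC := hc.one_le
  have hC0 : 0 < C := by linarith
  set E : ℝ := 64 * d * (160 * C ^ 2 + 1) / pc d ^ 2 with hE
  have hE0 : 0 < E := by positivity
  refine ⟨c / 2, 2 * ((14 + 5 * d : ℕ) : ℝ) + E,
    min (min (min ε1 ((c / 2) ^ 2)) (min (1 / 8) (pc d / 5)))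
      (min (1 / C ^ 3) (1 / (160 * C ^ 2 + 1))), by positivity, by positivity, by positivity, ?_⟩
  intro ε h0 hε e
  have a1 : ε ≤ ε1 := hε.trans ((min_le_left _ _).trans ((min_le_left _ _).trans (min_le_left _ _)))
  have a2 : ε ≤ (c / 2) ^ 2 :=
    hε.trans ((min_le_left _ _).trans ((min_le_left _ _).trans (min_le_right _ _)))
  have a3 : ε ≤ 1 / 8 :=
    hε.trans ((min_le_left _ _).trans ((min_le_right _ _).trans (min_le_left _ _)))
  have a4 : ε ≤ pc d / 5 :=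
    hε.trans ((min_le_left _ _).trans ((min_le_right _ _).trans (min_le_right _ _)))
  have a5 : ε ≤ 1 / C ^ 3 := hε.trans ((min_le_right _ _).trans (min_le_left _ _))
  have a6 : ε ≤ 1 / (160 * C ^ 2 + 1) := hε.trans ((min_le_right _ _).trans (min_le_right _ _))
  have hq : 0 ≤ pc d - ε := by linarith
  obtain ⟨H, hH, hH1, hH2⟩ := hfar ε h0 a1 e
  obtain ⟨x, hx, hx'⟩ := N66_btn hc h0 a3 a5 a6 hq e hH hH2
  obtain ⟨hn1, -⟩ := N66_n0 hC h0 a3 a6
  set n := ⌈160 * (C / ε) ^ 2 * Real.log (1 / ε)⌉₊ with hn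
  have hL := N66_L2 h0 a3
  obtain ⟨hL1, -, hL3⟩ := N66_L h0
  set L := Real.log (1 / ε) with hLd
  have hs : 0 < √ε := Real.sqrt_pos.2 h0
  refine ⟨x, ?_, ?_⟩
  · have h1 : (H : ℝ) - 1 ≤ dt x e := by exact_mod_cast hx
    have h2 : √ε ≤ c / 2 := by
      rw [Real.sqrt_le_left (by positivity)]
      exact a2
    have h3 : 1 ≤ c / 2 * L / √ε := by
      rw [le_div_iff₀ hs]
      nlinarith
    have h4 : c * L / √ε = c / 2 * L / √ε + c / 2 * L / √ε := by ring
    linarith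
  · have h1 := bt_tilt (p := pc d - ε) (q := pc d - 3 * ε) (p' := pc d + ε) (δ := 2 * ε)
      (by linarith) (by linarith) (by ring) (by ring) (by linarith) (by linarith) e n x
    have h2 : 2 * ((2 * ε) ^ 2 * (2 * d * n) / (pc d - ε) ^ 2) ≤ E * L := by
      have h3 : (pc d / 2) ^ 2 ≤ (pc d - ε) ^ 2 := pow_le_pow_left₀ (by positivity) (by linarith) 2
      have h4 : (2 * ε) ^ 2 * (2 * d * n) / (pc d - ε) ^ 2 ≤
          (2 * ε) ^ 2 * (2 * d * n) / (pc d / 2) ^ 2 :=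
        div_le_div_of_nonneg_left (by positivity) (by positivity) h3
      have h5 : (2 * ε) ^ 2 * (2 * d * n) ≤
          (2 * ε) ^ 2 * (2 * d * ((160 * C ^ 2 + 1) * L / ε ^ 2)) :=
        mul_le_mul_of_nonneg_left (mul_le_mul_of_nonneg_left hn1 (by positivity)) (by positivity)
      have h6 : (2 * ε) ^ 2 * (2 * d * n) / (pc d / 2) ^ 2 ≤
          (2 * ε) ^ 2 * (2 * d * ((160 * C ^ 2 + 1) * L / ε ^ 2)) / (pc d / 2) ^ 2 :=
        div_le_div_of_nonneg_right h5 (by positivity)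
      have h7 : E * L =
          2 * ((2 * ε) ^ 2 * (2 * d * ((160 * C ^ 2 + 1) * L / ε ^ 2)) / (pc d / 2) ^ 2) := by
        rw [hE]
        field_simp
        norm_num
      rw [h7]
      linarith
    have h3 : ENNReal.ofReal ((ε ^ (14 + 5 * d)) ^ 2) ≤
        ENNReal.ofReal (Real.exp (E * L)) * bt (pc d + ε) e x := by
      rw [ENNReal.ofReal_pow (by positivity)]
      refine (pow_le_pow_left' hx' 2).trans (h1.trans ?_)
      refine mul_le_mul_left ?_ _
      exact ENNReal.ofReal_le_ofReal (Real.exp_le_exp.2 h2)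
    have h4 : ENNReal.ofReal ((ε ^ (14 + 5 * d)) ^ 2) = ENNReal.ofReal (Real.exp (E * L)) *
        ENNReal.ofReal (ε ^ (2 * ((14 + 5 * d : ℕ) : ℝ) + E)) := by
      rw [← ENNReal.ofReal_mul (Real.exp_pos _).le]
      congr 1
      rw [Real.rpow_add h0, ← pow_mul, mul_comm (14 + 5 * d) 2]
      have h5 : ε ^ (2 * ((14 + 5 * d : ℕ) : ℝ)) = ε ^ (2 * (14 + 5 * d)) := by
        rw [← Real.rpow_natCast]
        congr 1
        push_cast
        ring
      have h6 : ε ^ E = Real.exp (-(E * L)) := by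
        rw [Real.rpow_def_of_pos h0]
        congr 1
        rw [hL3]
        ring
      rw [h5, h6, Real.exp_neg]
      have h7 := (Real.exp_pos (E * L)).ne'
      field_simp
    rw [h4] at h3
    have h8 : ENNReal.ofReal (Real.exp (E * L)) ≠ 0 := by
      rw [Ne, ENNReal.ofReal_eq_zero, not_le]
      positivity
    exact (ENNReal.mul_le_mul_iff_right h8 ENNReal.ofReal_ne_top).1 h3

/-! ### The lower bound on the axis -/

private theorem N66_super {s : ℕ → ℝ} (h1 : s 0 = 1) (hs : ∀ n, 0 ≤ s n)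
    (hm : ∀ a b, s a * s b ≤ s (a + b)) (N a j : ℕ) : s N ^ a * s 1 ^ j ≤ s (a * N + j) := by
  have h2 : ∀ N a : ℕ, s N ^ a ≤ s (a * N) := by
    intro N a
    induction a with
    | zero => simp [h1]
    | succ a ih =>
      rw [pow_succ, add_mul, one_mul]
      exact (mul_le_mul_of_nonneg_right ih (hs N)).trans (hm _ _)
  have h3 := h2 1 j
  rw [mul_one] at h3
  exact (mul_le_mul (h2 N a) h3 (pow_nonneg (hs 1) _) (hs _)).trans (hm _ _)

private theorem N66_dt (e : Dir d) (n : ℕ) : dt (n • uv e) e = n := by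
  have h1 := dt_uv e
  unfold dt at h1 ⊢
  rw [Pi.smul_apply, nsmul_eq_mul]
  linear_combination (n : ℤ) * h1

private theorem N66_refl (e : Dir d) (x : Vx d) (hx : 0 ≤ dt x e) :
    x + (fun i => if i = e.1 then x i else -x i) + uv e =
      (2 * (dt x e).toNat + 1) • uv e := by
  funext i
  have h1 : ((dt x e).toNat : ℤ) = dt x e := Int.toNat_of_nonneg hx
  rw [Pi.add_apply, Pi.add_apply, Pi.smul_apply, nsmul_eq_mul]
  push_cast
  rw [h1]
  by_cases hi : i = e.1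
  · subst hi
    have h2 : sg e.2 * sg e.2 = 1 := by
      cases e.2 <;> simp [sg]
    simp only [if_true, uv, dt, Pi.single_eq_same]
    linear_combination (-2 * x e.1) * h2
  · have h3 : uv e i = 0 := by
      unfold uv
      exact Pi.single_eq_of_ne hi _
    rw [if_neg hi, h3]
    ring

/-- The sequence. -/
private noncomputable def N66_s (p : ℝ) (e : Dir d) (n : ℕ) : ℝ :=
  if n = 0 then 1 else p / (1 - p) * (bt p e ((n - 1) • uv e)).toReal

private theorem N66_bfin {p : ℝ} (hp : 0 ≤ p) (hp1 : p ≤ 1) (e : Dir d) (y : Vx d) :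
    bt p e y ≠ ⊤ := ne_top_of_le_ne_top ENNReal.one_ne_top (bt_le_one hp hp1 e y)

private theorem N66_s_mul {p : ℝ} (hp : 0 < p) (hp1 : p < 1) (e : Dir d) (a b : ℕ) :
    N66_s p e a * N66_s p e b ≤ N66_s p e (a + b) := by
  rcases Nat.eq_zero_or_pos a with rfl | ha
  · simp [N66_s]
  rcases Nat.eq_zero_or_pos b with rfl | hb
  · simp [N66_s]
  have hr : 0 < p / (1 - p) := div_pos hp (by linarith)
  have h4 := bt_glue hp hp1 e (y := (a - 1) • uv e) (y' := (b - 1) • uv e)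
    (by rw [N66_dt]; positivity) (by rw [N66_dt]; positivity)
  have h5 : (a - 1) • uv e + (b - 1) • uv e + uv e = (a + b - 1) • uv e := by
    rw [← add_smul, ← succ_nsmul]
    congr 1
    omega
  rw [h5] at h4
  have h6 := ENNReal.toReal_mono (N66_bfin hp.le hp1.le e _) h4
  rw [ENNReal.toReal_mul, ENNReal.toReal_mul, ENNReal.toReal_ofReal hr.le] at h6
  unfold N66_s
  rw [if_neg (by omega), if_neg (by omega), if_neg (by omega)]
  calc p / (1 - p) * (bt p e ((a - 1) • uv e)).toReal *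
        (p / (1 - p) * (bt p e ((b - 1) • uv e)).toReal) =
        p / (1 - p) * (p / (1 - p) * ((bt p e ((a - 1) • uv e)).toReal *
          (bt p e ((b - 1) • uv e)).toReal)) := by ring
    _ ≤ p / (1 - p) * (bt p e ((a + b - 1) • uv e)).toReal :=
        mul_le_mul_of_nonneg_left h6 hr.le

private theorem N66_s_nn {p : ℝ} (hp : 0 < p) (hp1 : p < 1) (e : Dir d) (n : ℕ) :
    0 ≤ N66_s p e n := by
  have hr : 0 < p / (1 - p) := div_pos hp (by linarith)
  unfold N66_s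
  split_ifs
  · norm_num
  · positivity

private theorem N66_one (hc : Crit m d h C) {c A ε : ℝ} (hc0 : 0 < c) (hA : 0 < A) (h0 : 0 < ε)
    (hε : ε ≤ 1 / 8) (e : Dir d) {x : Vx d} (hx : c * Real.log (1 / ε) / √ε ≤ dt x e)
    (hx' : ENNReal.ofReal (ε ^ A) ≤ bt (pc d + ε) e x) :
    ∃ n0 : ℕ, ∀ n : ℕ, n0 ≤ n →
      ENNReal.ofReal (Real.exp (-((2 * (A - Real.log (pc d)) / c + 1) * √ε * n))) ≤
        bt (pc d + ε) e (n • uv e) := by
  have hpc := N66_pc hc
  have hpc' := hc.pc_hi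
  have hL := N66_L2 h0 hε
  obtain ⟨hL1, -, hL3⟩ := N66_L h0
  set L := Real.log (1 / ε) with hLd
  have hs : 0 < √ε := Real.sqrt_pos.2 h0
  set l := -Real.log (pc d) with hl
  have hl0 : 0 ≤ l := by
    rw [hl, neg_nonneg]
    exact Real.log_nonpos hpc.le (by linarith)
  have hle : Real.exp (-l) = pc d := by
    rw [hl, neg_neg, Real.exp_log hpc]
  have hAe : ε ^ A = Real.exp (-(A * L)) := by
    rw [Real.rpow_def_of_pos h0]
    congr 1
    rw [hL3]
    ring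
  set p := pc d + ε with hp
  have hp0 : 0 < p := by linarith
  have hp1 : p ≤ 1 / 2 := by linarith
  have hp1' : p < 1 := by linarith
  have hr1 : pc d ≤ p / (1 - p) := by
    rw [le_div_iff₀ (by linarith)]
    nlinarith
  have hr2 : p / (1 - p) ≤ 1 := by
    rw [div_le_one (by linarith)]
    linarith
  have hr0 : 0 < p / (1 - p) := div_pos hp0 (by linarith)
  have hdx : 0 < dt x e := by
    have h1 : (0 : ℝ) < dt x e := lt_of_lt_of_le (by positivity) hx
    exact_mod_cast h1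
  set k := (dt x e).toNat with hk
  have hk' : (k : ℤ) = dt x e := Int.toNat_of_nonneg hdx.le
  -- the value at `N`
  have hN : Real.exp (-(2 * A * L + 2 * l)) ≤ N66_s p e (2 * k + 2) := by
    have h1 := bt_glue hp0 hp1' e (y := x) (y' := fun i => if i = e.1 then x i else -x i)
      hdx.le (by
        have h2 : dt (fun i => if i = e.1 then x i else -x i) e = dt x e := by
          simp [dt]
        rw [h2]
        exact hdx.le)
    rw [N66_refl e x hdx.le, bt_reflect hp0.le hp1'.le] at h1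
    have h2 := ENNReal.toReal_mono (N66_bfin hp0.le hp1'.le e _) h1
    rw [ENNReal.toReal_mul, ENNReal.toReal_mul, ENNReal.toReal_ofReal hr0.le] at h2
    have h3 : ε ^ A ≤ (bt p e x).toReal :=
      (ENNReal.ofReal_le_iff_le_toReal (N66_bfin hp0.le hp1'.le e _)).1 hx'
    have h4 : 0 < ε ^ A := Real.rpow_pos_of_pos h0 _
    have h5 : N66_s p e (2 * k + 2) =
        p / (1 - p) * (bt p e ((2 * k + 1) • uv e)).toReal := if_neg (by omega)
    rw [h5]
    calc Real.exp (-(2 * A * L + 2 * l)) = Real.exp (-l) * (Real.exp (-l) *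
          (Real.exp (-(A * L)) * Real.exp (-(A * L)))) := by
          rw [← Real.exp_add, ← Real.exp_add, ← Real.exp_add]
          congr 1
          ring
      _ = pc d * (pc d * (ε ^ A * ε ^ A)) := by rw [hle, hAe]
      _ ≤ p / (1 - p) * (p / (1 - p) * ((bt p e x).toReal * (bt p e x).toReal)) := by
          refine mul_le_mul hr1 ?_ (by positivity) hr0.le
          refine mul_le_mul hr1 ?_ (by positivity) hr0.le
          exact mul_le_mul h3 h3 h4.le (h4.le.trans h3)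
      _ ≤ p / (1 - p) * (bt p e ((2 * k + 1) • uv e)).toReal :=
          mul_le_mul_of_nonneg_left h2 hr0.le
  -- the value at `1`
  have hS1 : Real.exp (-(l + 2 * d * Real.log 2)) ≤ N66_s p e 1 := by
    have h1 := bt_zero_ge hp0.le hp1'.le e
    have h2 : (1 - p) ^ (2 * d) ≤ (bt p e 0).toReal :=
      (ENNReal.ofReal_le_iff_le_toReal (N66_bfin hp0.le hp1'.le e _)).1 h1
    have h5 : N66_s p e 1 = p / (1 - p) * (bt p e 0).toReal := by
      unfold N66_s
      simp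
    rw [h5]
    have h6 : Real.exp (-(2 * d * Real.log 2)) = (1 / 2) ^ (2 * d) := by
      rw [show -(2 * (d : ℝ) * Real.log 2) = ((2 * d : ℕ) : ℝ) * (-Real.log 2) by
        push_cast
        ring, Real.exp_nat_mul, Real.exp_neg, Real.exp_log (by norm_num), one_div]
    calc Real.exp (-(l + 2 * d * Real.log 2)) = Real.exp (-l) *
          Real.exp (-(2 * d * Real.log 2)) := by
          rw [← Real.exp_add]
          congr 1
          ring
      _ = pc d * (1 / 2) ^ (2 * d) := by rw [hle, h6]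
      _ ≤ p / (1 - p) * (bt p e 0).toReal := by
          refine mul_le_mul hr1 (le_trans ?_ h2) (by positivity) hr0.le
          exact pow_le_pow_left₀ (by norm_num) (by linarith) _
  set L1 := 2 * A * L + 2 * l with hL1d
  set L0 := l + 2 * d * Real.log 2 with hL0d
  have hL0 : 0 ≤ L0 := by
    have h1 : 0 < Real.log 2 := Real.log_pos (by norm_num)
    positivity
  have hL1p : 0 ≤ L1 := by positivity
  set N := 2 * k + 2 with hNd
  have hN0 : (0 : ℝ) < N := by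
    rw [hNd]
    positivity
  have hN1 : 2 * (c * L / √ε) ≤ N := by
    have h1 : (k : ℝ) = dt x e := by exact_mod_cast hk'
    rw [hNd]
    push_cast
    rw [h1]
    linarith
  refine ⟨⌈L0 * N / √ε⌉₊ + 1, fun n hn => ?_⟩
  have hn1 : (1 : ℝ) ≤ n := by
    have h1 : 1 ≤ n := by omega
    exact_mod_cast h1
  have hn2 : L0 * N ≤ √ε * n := by
    have h1 : L0 * N / √ε ≤ n := by
      refine (Nat.le_ceil _).trans ?_
      have h2 : ⌈L0 * N / √ε⌉₊ ≤ n := by omega
      exact_mod_cast h2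
    rw [div_le_iff₀ hs] at h1
    linarith
  have h1 := N66_super (s := N66_s p e) (by simp [N66_s]) (N66_s_nn hp0 hp1' e)
    (N66_s_mul hp0 hp1' e) N ((n + 1) / N) ((n + 1) % N)
  have h2 : (n + 1) / N * N + (n + 1) % N = n + 1 := by
    rw [mul_comm]
    exact Nat.div_add_mod _ _
  rw [h2] at h1
  set a := (n + 1) / N with ha
  set j := (n + 1) % N with hj
  have h3 : Real.exp (-(L1 * a + L0 * j)) ≤ N66_s p e N ^ a * N66_s p e 1 ^ j := by
    calc Real.exp (-(L1 * a + L0 * j)) = Real.exp (-L1) ^ a * Real.exp (-L0) ^ j := by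
          rw [← Real.exp_nat_mul, ← Real.exp_nat_mul, ← Real.exp_add]
          congr 1
          ring
      _ ≤ N66_s p e N ^ a * N66_s p e 1 ^ j :=
          mul_le_mul (pow_le_pow_left₀ (Real.exp_pos _).le hN _)
            (pow_le_pow_left₀ (Real.exp_pos _).le hS1 _) (by positivity)
            (pow_nonneg (N66_s_nn hp0 hp1' e N) _)
  have h4 : N66_s p e (n + 1) ≤ (bt p e (n • uv e)).toReal := by
    have h5 : N66_s p e (n + 1) = p / (1 - p) * (bt p e (n • uv e)).toReal := by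
      unfold N66_s
      rw [if_neg (by omega)]
      simp
    rw [h5]
    have h6 : 0 ≤ (bt p e (n • uv e)).toReal := ENNReal.toReal_nonneg
    nlinarith
  rw [ENNReal.ofReal_le_iff_le_toReal (N66_bfin hp0.le hp1'.le e _)]
  refine le_trans ?_ (h3.trans (h1.trans h4))
  rw [Real.exp_le_exp, neg_le_neg_iff]
  have h7 : L0 * j ≤ √ε * n := by
    refine le_trans (mul_le_mul_of_nonneg_left ?_ hL0) hn2
    have h8 : j < N := Nat.mod_lt _ (by omega)
    exact_mod_cast h8.le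
  have h8 : (a : ℝ) ≤ (n + 1) / N := by
    have h9 := Nat.cast_div_le (m := n + 1) (n := N) (α := ℝ)
    push_cast at h9
    exact h9
  have h9 : L1 ≤ 2 * (A + l) * L := by
    rw [hL1d]
    nlinarith
  have h10 : L1 * a ≤ 2 * (A + l) / c * √ε * n := by
    have h11 : L1 * a ≤ (2 * (A + l) * L) * ((n + 1) / N) :=
      mul_le_mul h9 h8 (by positivity) (by positivity)
    refine h11.trans ?_
    have h12 : (n + 1 : ℝ) / N ≤ (2 * n) / (2 * (c * L / √ε)) := by
      rw [div_le_div_iff₀ hN0 (by positivity)]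
      refine mul_le_mul (by linarith) hN1 (by positivity) (by positivity)
    have h13 : 2 * (A + l) / c * √ε * n = (2 * (A + l) * L) * ((2 * n) / (2 * (c * L / √ε))) := by
      have hLne : L ≠ 0 := by linarith
      field_simp
    rw [h13]
    exact mul_le_mul_of_nonneg_left h12 (by positivity)
  have h14 : A - Real.log (pc d) = A + l := by
    rw [hl]
    ring
  rw [h14]
  calc L1 * a + L0 * j ≤ 2 * (A + l) / c * √ε * n + √ε * n := add_le_add h10 h7
    _ = (2 * (A + l) / c + 1) * √ε * n := by ring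

theorem nu_lower_bt (hc : Crit m d h C) {c1 : ℝ} (hc1 : 0 < c1)
    (hhalf : ∀ ε : ℝ, 0 < ε → ε ≤ c1 → ∀ (e : Dir d) (r : ℕ), 1 ≤ r → (r : ℝ) ≤ c1 / √ε →
      ENNReal.ofReal (1 / 2) ≤ ff (pc d - ε) e r) :
    ∃ C' ε0 : ℝ, 0 < C' ∧ 0 < ε0 ∧ ∀ ε : ℝ, 0 < ε → ε ≤ ε0 → ∃ n0 : ℕ, ∀ (e : Dir d) (n : ℕ),
      n0 ≤ n → ENNReal.ofReal (Real.exp (-(C' * √ε * n))) ≤ bt (pc d + ε) e (n • uv e) := by
  obtain ⟨c, A, ε1, hc0, hA, hε1, hsome⟩ := some_bt hc hc1 hhalf
  have hpc := N66_pc hc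
  have hpc' := hc.pc_hi
  have hl0 : 0 ≤ -Real.log (pc d) := by
    rw [neg_nonneg]
    exact Real.log_nonpos hpc.le (by linarith)
  have hAl : 0 < A - Real.log (pc d) := by linarith
  refine ⟨2 * (A - Real.log (pc d)) / c + 1, min ε1 (1 / 8), by positivity, by positivity, ?_⟩
  intro ε h0 hε
  have a1 : ε ≤ ε1 := hε.trans (min_le_left _ _)
  have a2 : ε ≤ 1 / 8 := hε.trans (min_le_right _ _)
  have h1 : ∀ e : Dir d, ∃ n0 : ℕ, ∀ n : ℕ, n0 ≤ n →
      ENNReal.ofReal (Real.exp (-((2 * (A - Real.log (pc d)) / c + 1) * √ε * n))) ≤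
        bt (pc d + ε) e (n • uv e) := by
    intro e
    obtain ⟨x, hx, hx'⟩ := hsome ε h0 a1 e
    exact N66_one hc hc0 hA h0 a2 e hx hx'
  choose f hf using h1
  refine ⟨univ.sup f, fun e n hn => hf e n (le_trans (Finset.le_sup (mem_univ e)) hn)⟩

end Pool.Agent.HD
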