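import Pool.Agent.Lib.MP_8ca597_hd.N65
import Pool.Agent.Lib.MP_8ca597_hd.S05
import Pool.Agent.Lib.MP_8ca597_hd.S06

/-!
# Row N70: the limit exists (N7)

`s n = (p/(1-p) bt ((n-1) uv e)).toReal` for `n ≥ 1` is positive, at most `1` and supermultiplicative (`bt_glue`), so
`- log (s n) / n` converges to its infimum `m` (`Subadditive.tendsto_lim`) and `s n ≤ exp (- m n)`.
Lower bound: `bt_le_tauf`. Upper bound: `tauf (n uv e) ≤ EF (|K| ≥ n²) + EF (n uv e ∈ K, |K| < n²)`. First term: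
`cap_ge_pow` and `K1_sum`: `≤ exp (- ε² n^(19/10) / (2^34 C))`. Second term: `bt_pigeon` with `n := n²`, `s := n`
(`x = n uv e`, `y = 0`): `≤ n² (2 n² + 1)^d max bt(y)` over `dt y e ≥ n`; and
`bt(y)² ≤ (1-p)/p bt ((2 dt y e + 1) uv e) ≤ C exp (- m (2 dt y e + 2))` (`bt_reflect`, `bt_glue`).
-/

set_option autoImplicit false

namespace Pool.Agent.HD

open Finset Filter Topology
open scoped ENNReal

variable {d : ℕ}

private theorem N70_sg (b : Bool) : sg b * sg b = 1 := by
  cases b <;> simp [sg]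

private theorem N70_dt_nsmul (e : Dir d) (n : ℕ) : dt (n • uv e) e = n := by
  unfold dt uv
  rw [Pi.smul_apply, Pi.single_eq_same, nsmul_eq_mul]
  have := N70_sg e.2
  calc sg e.2 * ((n : ℤ) * sg e.2) = n * (sg e.2 * sg e.2) := by ring
    _ = n := by rw [this, mul_one]

private theorem N70_ne_top {p : ℝ} (hp : 0 ≤ p) (hp1 : p ≤ 1) (e : Dir d) (y : Vx d) :
    bt p e y ≠ ⊤ := ne_top_of_le_ne_top ENNReal.one_ne_top (bt_le_one hp hp1 e y)

/-- The real sequence. -/
private noncomputable def N70_b (p : ℝ) (e : Dir d) (n : ℕ) : ℝ := (bt p e (n • uv e)).toReal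

private theorem N70_glue {p : ℝ} (hp : 0 < p) (hp1 : p < 1) (e : Dir d) {y y' : Vx d}
    (hy : 0 ≤ dt y e) (hy' : 0 ≤ dt y' e) :
    p / (1 - p) * ((bt p e y).toReal * (bt p e y').toReal) ≤ (bt p e (y + y' + uv e)).toReal := by
  have h := bt_glue hp hp1 e hy hy'
  have h2 := ENNReal.toReal_mono (N70_ne_top hp.le hp1.le e _) h
  rw [ENNReal.toReal_mul, ENNReal.toReal_mul, ENNReal.toReal_ofReal
    (div_nonneg hp.le (by linarith))] at h2
  exact h2

private theorem N70_pos {p : ℝ} (hp : 0 < p) (hp1 : p < 1) (e : Dir d) (n : ℕ) :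
    0 < N70_b p e n := by
  induction n with
  | zero =>
    unfold N70_b
    rw [zero_smul]
    have h := bt_zero_ge hp.le hp1.le e
    have h1 : 0 < ENNReal.ofReal ((1 - p) ^ (2 * d)) := by
      rw [ENNReal.ofReal_pos]
      have : 0 < 1 - p := by linarith
      positivity
    exact ENNReal.toReal_pos (lt_of_lt_of_le h1 h).ne' (N70_ne_top hp.le hp1.le e _)
  | succ n ih =>
    have h0 : 0 < (bt p e (0 : Vx d)).toReal := by
      have h := bt_zero_ge hp.le hp1.le e
      have h1 : 0 < ENNReal.ofReal ((1 - p) ^ (2 * d)) := by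
        rw [ENNReal.ofReal_pos]
        have : 0 < 1 - p := by linarith
        positivity
      exact ENNReal.toReal_pos (lt_of_lt_of_le h1 h).ne' (N70_ne_top hp.le hp1.le e _)
    have hd0 : (0 : ℤ) ≤ dt (0 : Vx d) e := by simp [dt]
    have hg := N70_glue hp hp1 e (y := n • uv e) (y' := 0)
      (by rw [N70_dt_nsmul]; positivity) hd0
    unfold N70_b at ih ⊢
    rw [succ_nsmul]
    rw [add_zero] at hg
    refine lt_of_lt_of_le ?_ hg
    have : 0 < p / (1 - p) := div_pos hp (by linarith)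
    positivity

private theorem N70_le_one {p : ℝ} (hp : 0 ≤ p) (hp1 : p ≤ 1) (e : Dir d) (y : Vx d) :
    (bt p e y).toReal ≤ 1 := by
  have := ENNReal.toReal_mono ENNReal.one_ne_top (bt_le_one hp hp1 e y)
  simpa using this

private theorem N70_super {p : ℝ} (hp : 0 < p) (hp1 : p < 1) (e : Dir d) (m n : ℕ) :
    p / (1 - p) * (N70_b p e m * N70_b p e n) ≤ N70_b p e (m + n + 1) := by
  have hg := N70_glue hp hp1 e (y := m • uv e) (y' := n • uv e)
    (by rw [N70_dt_nsmul]; positivity) (by rw [N70_dt_nsmul]; positivity)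
  unfold N70_b
  rw [add_smul, add_smul, one_smul]
  exact hg

private noncomputable def N70_u (p : ℝ) (e : Dir d) (n : ℕ) : ℝ :=
  if n = 0 then 0 else -Real.log (p / (1 - p) * N70_b p e (n - 1))

private theorem N70_sub {p : ℝ} (hp : 0 < p) (hp1 : p < 1) (e : Dir d) :
    Subadditive (N70_u p e) := by
  have hc : 0 < p / (1 - p) := div_pos hp (by linarith)
  intro m n
  by_cases hm : m = 0
  · subst hm; simp [N70_u]
  by_cases hn : n = 0
  · subst hn; simp [N70_u]
  obtain ⟨m, rfl⟩ := Nat.exists_eq_succ_of_ne_zero hm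
  obtain ⟨n, rfl⟩ := Nat.exists_eq_succ_of_ne_zero hn
  have h := N70_super hp hp1 e m n
  have hm1 := N70_pos hp hp1 e m
  have hn1 := N70_pos hp hp1 e n
  have hmn := N70_pos hp hp1 e (m + n + 1)
  unfold N70_u
  rw [if_neg (by omega), if_neg (by omega), if_neg (by omega)]
  have e1 : m.succ + n.succ - 1 = m + n + 1 := by omega
  rw [e1, Nat.succ_sub_one, Nat.succ_sub_one, ← neg_add, ← Real.log_mul (by positivity)
    (by positivity)]
  apply neg_le_neg
  apply Real.log_le_log (by positivity)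
  calc p / (1 - p) * N70_b p e m * (p / (1 - p) * N70_b p e n)
      = p / (1 - p) * (p / (1 - p) * (N70_b p e m * N70_b p e n)) := by ring
    _ ≤ p / (1 - p) * N70_b p e (m + n + 1) := mul_le_mul_of_nonneg_left h hc.le

private theorem N70_u_nonneg {p : ℝ} (hp : 0 < p) (hp1 : p ≤ 1 / 2) (e : Dir d) (n : ℕ) :
    0 ≤ N70_u p e n := by
  unfold N70_u
  split_ifs with h
  · exact le_rfl
  · have hc : 0 < p / (1 - p) := div_pos hp (by linarith)
    have hc1 : p / (1 - p) ≤ 1 := by rw [div_le_one (by linarith)]; linarith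
    have h1 : N70_b p e (n - 1) ≤ 1 := N70_le_one hp.le (by linarith) e _
    have h0 := N70_pos hp (by linarith) e (n - 1)
    rw [neg_nonneg]
    apply Real.log_nonpos (by positivity)
    exact mul_le_one₀ hc1 h0.le h1

theorem bt_lim {p : ℝ} (hp : 0 < p) (hp1 : p ≤ 1 / 2) (e : Dir d) : ∃ mm : ℝ, 0 ≤ mm ∧
    Tendsto (fun n : ℕ => -Real.log (bt p e (n • uv e)).toReal / n) atTop (𝓝 mm) ∧
    (∀ n : ℕ, 0 < bt p e (n • uv e)) ∧
    ∀ y : Vx d, 0 ≤ dt y e →
      bt p e y ≤ ENNReal.ofReal ((1 - p) / p * Real.exp (-(mm * (dt y e + 1)))) := by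
  have hp1' : p < 1 := by linarith
  have hc : 0 < p / (1 - p) := div_pos hp (by linarith)
  have hsub := N70_sub hp hp1' e
  have hbdd : BddBelow (Set.range fun n : ℕ => N70_u p e n / n) := by
    refine ⟨0, ?_⟩
    rintro x ⟨n, rfl⟩
    exact div_nonneg (N70_u_nonneg hp hp1 e n) (Nat.cast_nonneg n)
  have htend := hsub.tendsto_lim hbdd
  have hmm : 0 ≤ hsub.lim :=
    ge_of_tendsto' htend fun n => div_nonneg (N70_u_nonneg hp hp1 e n) (Nat.cast_nonneg n)
  have hle : ∀ n : ℕ, n ≠ 0 → hsub.lim * n ≤ N70_u p e n := by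
    intro n hn
    have h := hsub.lim_le_div hbdd hn
    have hn' : (0 : ℝ) < n := by exact_mod_cast Nat.pos_of_ne_zero hn
    rwa [le_div_iff₀ hn'] at h
  -- the bound for the real sequence
  have hb : ∀ n : ℕ, p / (1 - p) * N70_b p e n ≤ Real.exp (-(hsub.lim * (n + 1))) := by
    intro n
    have h := hle (n + 1) (by omega)
    unfold N70_u at h
    rw [if_neg (by omega), Nat.add_sub_cancel] at h
    have h0 := N70_pos hp hp1' e n
    rw [← Real.log_le_iff_le_exp (by positivity)]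
    push_cast at h
    exact le_neg.mp h
  refine ⟨hsub.lim, hmm, ?_, ?_, ?_⟩
  · have h1 : Tendsto (fun n : ℕ => N70_u p e (n + 1) / ((n + 1 : ℕ) : ℝ)) atTop
        (𝓝 hsub.lim) := (tendsto_add_atTop_iff_nat 1).mpr htend
    have h2 : Tendsto (fun n : ℕ => ((n + 1 : ℕ) : ℝ) / n) atTop (𝓝 1) := by
      have h3 : Tendsto (fun n : ℕ => 1 + 1 / (n : ℝ)) atTop (𝓝 (1 + 0)) :=
        tendsto_const_nhds.add tendsto_one_div_atTop_nhds_zero_nat
      rw [add_zero] at h3
      refine h3.congr' ?_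
      filter_upwards [eventually_gt_atTop 0] with n hn
      have : (n : ℝ) ≠ 0 := by exact_mod_cast hn.ne'
      push_cast
      field_simp
    have h4 : Tendsto (fun n : ℕ => Real.log (p / (1 - p)) / (n : ℝ)) atTop (𝓝 0) :=
      tendsto_const_div_atTop_nhds_zero_nat _
    have h5 := (h1.mul h2).add h4
    rw [mul_one, add_zero] at h5
    refine h5.congr' ?_
    filter_upwards [eventually_gt_atTop 0] with n hn
    have hn0 : (n : ℝ) ≠ 0 := by exact_mod_cast hn.ne'
    have h0 := N70_pos hp hp1' e n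
    unfold N70_u
    rw [if_neg (by omega), Nat.add_sub_cancel, Real.log_mul hc.ne' h0.ne']
    have hn1 : ((n + 1 : ℕ) : ℝ) ≠ 0 := by positivity
    unfold N70_b
    field_simp
    ring
  · intro n
    have h0 := N70_pos hp hp1' e n
    unfold N70_b at h0
    exact (ENNReal.toReal_pos_iff.mp h0).1
  · intro y hy
    have hfin := N70_ne_top hp.le hp1'.le e y
    rw [← ENNReal.toReal_le_toReal hfin ENNReal.ofReal_ne_top,
      ENNReal.toReal_ofReal (by have : 0 < 1 - p := by linarith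
                                positivity)]
    obtain ⟨N, hN⟩ := Int.eq_ofNat_of_zero_le hy
    set y' : Vx d := fun i => if i = e.1 then y i else -y i with hy'def
    have hdy' : dt y' e = dt y e := by simp [dt, hy'def]
    have hsum : y + y' + uv e = (2 * N + 1) • uv e := by
      funext i
      simp only [Pi.add_apply, Pi.smul_apply, hy'def, uv]
      by_cases hi : i = e.1
      · subst hi
        rw [if_pos rfl, Pi.single_eq_same, nsmul_eq_mul]
        have h1 : y e.1 = sg e.2 * N := by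
          unfold dt at hN
          calc y e.1 = (sg e.2 * sg e.2) * y e.1 := by rw [N70_sg, one_mul]
            _ = sg e.2 * (sg e.2 * y e.1) := by ring
            _ = sg e.2 * N := by rw [hN]
        rw [h1]; push_cast; try ring
      · rw [if_neg hi, Pi.single_eq_of_ne hi]; simp
    have hg := N70_glue hp hp1' e (y := y) (y' := y') hy (by rw [hdy']; exact hy)
    rw [hsum, hy'def, bt_reflect hp.le hp1'.le e y] at hg
    have hbN := hb (2 * N + 1)
    unfold N70_b at hbN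
    have hdt : (dt y e : ℝ) = N := by rw [hN]; simp
    rw [hdt]
    set t := (bt p e y).toReal with ht
    have ht0 : 0 ≤ t := ENNReal.toReal_nonneg
    have h1 : (p / (1 - p) * t) ^ 2 ≤ (Real.exp (-(hsub.lim * (N + 1)))) ^ 2 := by
      calc (p / (1 - p) * t) ^ 2 = p / (1 - p) * (p / (1 - p) * (t * t)) := by ring
        _ ≤ p / (1 - p) * (bt p e ((2 * N + 1) • uv e)).toReal :=
            mul_le_mul_of_nonneg_left hg hc.le
        _ ≤ Real.exp (-(hsub.lim * ((2 * N + 1 : ℕ) + 1))) := hbN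
        _ = (Real.exp (-(hsub.lim * (N + 1)))) ^ 2 := by
            rw [← Real.exp_nat_mul]
            congr 1
            push_cast
            ring
    have h2 := abs_le_of_sq_le_sq h1 (Real.exp_pos _).le
    have h3 := (le_abs_self _).trans h2
    calc t = (1 - p) / p * (p / (1 - p) * t) := by
          have : 1 - p ≠ 0 := by linarith
          field_simp
      _ ≤ (1 - p) / p * Real.exp (-(hsub.lim * (N + 1))) :=
          mul_le_mul_of_nonneg_left h3 (div_nonneg (by linarith) hp.le)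

private theorem N70_EF_mono {p : ℝ} {F G : Finset (Vx d) → ℝ≥0∞}
    (h : ∀ K, ww p K ≠ 0 → F K ≤ G K) : EF p F ≤ EF p G := by
  unfold EF
  apply ENNReal.tsum_le_tsum
  intro K
  by_cases h0 : ww p K = 0
  · rw [h0]; simp
  · exact mul_le_mul_right (h K h0) _

private theorem N70_EF_add (p : ℝ) (F G : Finset (Vx d) → ℝ≥0∞) :
    EF p (fun K => F K + G K) = EF p F + EF p G := by
  unfold EF
  rw [← ENNReal.tsum_add]
  refine tsum_congr fun K => ?_
  rw [mul_add]

private theorem N70_EF_mul (p : ℝ) (c : ℝ≥0∞) (F : Finset (Vx d) → ℝ≥0∞) :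
    EF p (fun K => c * F K) = c * EF p F := by
  unfold EF
  rw [← ENNReal.tsum_mul_left]
  refine tsum_congr fun K => ?_
  ring

theorem tauf_lim {p0 ε C : ℝ} (hd : 0 < d) (hp0 : 0 < p0) (hp4 : p0 ≤ 1 / 4) (hε : 0 < ε)
    (hε' : ε ≤ p0) {bb : Vx d → ℝ} (hF : FluxGe d p0) (hb : Ker d p0 bb) (hC : 1 ≤ C)
    (h1 : ∀ R : ℕ, 1 ≤ R → ∑ x ∈ (Bx d R).erase 0, bb x ≤ C * (R : ℝ) ^ 40)
    (h2 : ∀ x : Vx d, x ≠ 0 → bb x ≤ C / (nm x : ℝ) ^ 800) (e : Dir d) : ∃ mm : ℝ,
    Tendsto (fun n : ℕ => -Real.log (bt (p0 + ε) e (n • uv e)).toReal / n) atTop (𝓝 mm) ∧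
    Tendsto (fun n : ℕ => -Real.log (tauf (p0 + ε) (n • uv e)).toReal / n) atTop (𝓝 mm) := by
  classical
  have hp : 0 < p0 + ε := by linarith
  have hp2 : p0 + ε ≤ 1 / 2 := by linarith
  obtain ⟨mm, hmm, hlim, hpos, hbt⟩ := bt_lim hp hp2 e
  refine ⟨mm, hlim, ?_⟩
  set p := p0 + ε with hpdef
  -- the first term
  set κ : ℝ := ε ^ 2 / (2 ^ 44 * C) with hκ
  have hκ0 : 0 < κ := by positivity
  set Cp : ℝ := (1 - p) / p with hCp
  have hCp0 : 0 ≤ Cp := div_nonneg (by linarith) hp.le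
  have hfirst : ∀ n : ℕ, EF p (fun K : Finset (Vx d) => if n ^ 2 ≤ K.card then 1 else 0) ≤
      ENNReal.ofReal (Real.exp (-(κ * ((n : ℝ) ^ 2) ^ (19 / 20 : ℝ)))) := by
    intro n
    have hK := K1_sum hd hp0 hp4 hε hε' hF hb
    calc EF p (fun K : Finset (Vx d) => if n ^ 2 ≤ K.card then 1 else 0)
        ≤ EF p (fun K => ENNReal.ofReal (Real.exp (-(κ * ((n : ℝ) ^ 2) ^ (19 / 20 : ℝ)))) *
            ENNReal.ofReal (Real.exp (ε ^ 2 * cap bb K))) := by
          apply N70_EF_mono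
          intro K _
          split_ifs with hc
          · rw [← ENNReal.ofReal_mul (Real.exp_pos _).le, ← Real.exp_add]
            rw [← ENNReal.ofReal_one]
            apply ENNReal.ofReal_le_ofReal
            apply Real.one_le_exp
            have h3 := cap_ge_pow hb.nonneg hC h1 h2 K
            have h4 : ((n : ℝ) ^ 2) ^ (19 / 20 : ℝ) ≤ (K.card : ℝ) ^ (19 / 20 : ℝ) := by
              apply Real.rpow_le_rpow (by positivity) _ (by norm_num)
              exact_mod_cast hc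
            have h5 : κ * ((n : ℝ) ^ 2) ^ (19 / 20 : ℝ) ≤ ε ^ 2 * cap bb K := by
              rw [hκ, div_mul_eq_mul_div, div_le_iff₀ (by positivity)]
              calc ε ^ 2 * ((n : ℝ) ^ 2) ^ (19 / 20 : ℝ)
                  ≤ ε ^ 2 * (2 ^ 44 * C * cap bb K) :=
                    mul_le_mul_of_nonneg_left (h4.trans h3) (by positivity)
                _ = ε ^ 2 * cap bb K * (2 ^ 44 * C) := by ring
            linarith
          · exact zero_le
      _ = ENNReal.ofReal (Real.exp (-(κ * ((n : ℝ) ^ 2) ^ (19 / 20 : ℝ)))) *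
            EF p (fun K => ENNReal.ofReal (Real.exp (ε ^ 2 * cap bb K))) := N70_EF_mul _ _ _
      _ ≤ ENNReal.ofReal (Real.exp (-(κ * ((n : ℝ) ^ 2) ^ (19 / 20 : ℝ)))) * 1 :=
          mul_le_mul_right hK _
      _ = _ := mul_one _
  have hsecond : ∀ n : ℕ, EF p (fun K : Finset (Vx d) => if K.card ≤ n ^ 2 ∧
      ∃ x ∈ K, ∃ y ∈ K, (n : ℤ) ≤ dt x e - dt y e then 1 else 0) ≤
      ENNReal.ofReal ((n : ℝ) ^ 2 * (2 * (n : ℝ) ^ 2 + 1) ^ d * (Cp * Real.exp (-(mm * n)))) := by
    intro n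
    have h3 : ∀ x ∈ Bx d (n ^ 2), (n : ℤ) ≤ dt x e → btn p e (n ^ 2) x ≤
        ENNReal.ofReal (Cp * Real.exp (-(mm * n))) := by
      intro x _ hx
      refine (btn_le_bt p e (n ^ 2) x).trans ((hbt x (by omega)).trans ?_)
      apply ENNReal.ofReal_le_ofReal
      apply mul_le_mul_of_nonneg_left _ hCp0
      apply Real.exp_le_exp.mpr
      have h4 : (n : ℝ) ≤ (dt x e : ℝ) := by exact_mod_cast hx
      nlinarith
    have h4 := bt_pigeon hp.le (by linarith) e (n ^ 2) n h3
    refine h4.trans (le_of_eq ?_)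
    have e2 : ENNReal.ofReal ((n : ℝ) ^ 2 * (2 * (n : ℝ) ^ 2 + 1) ^ d) =
        ((n ^ 2 : ℕ) : ℝ≥0∞) * (2 * ((n ^ 2 : ℕ) : ℝ≥0∞) + 1) ^ d := by
      have e3 : ((n : ℝ) ^ 2 * (2 * (n : ℝ) ^ 2 + 1) ^ d) =
          ((n ^ 2 * (2 * n ^ 2 + 1) ^ d : ℕ) : ℝ) := by push_cast; ring
      rw [e3, ENNReal.ofReal_natCast]
      push_cast
      ring
    rw [ENNReal.ofReal_mul (by positivity : (0 : ℝ) ≤ (n : ℝ) ^ 2 * (2 * (n : ℝ) ^ 2 + 1) ^ d), e2]
  have hsplit : ∀ n : ℕ, tauf p (n • uv e) ≤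
      ENNReal.ofReal (Real.exp (-(κ * ((n : ℝ) ^ 2) ^ (19 / 20 : ℝ)))) +
      ENNReal.ofReal ((n : ℝ) ^ 2 * (2 * (n : ℝ) ^ 2 + 1) ^ d *
        (Cp * Real.exp (-(mm * n)))) := by
    intro n
    refine le_trans ?_ (add_le_add (hfirst n) (hsecond n))
    rw [← N70_EF_add]
    unfold tauf
    apply N70_EF_mono
    intro K hK
    have hK0 : (0 : Vx d) ∈ K := by
      by_contra hc
      exact hK (ww_zero p hc)
    by_cases c1 : n • uv e ∈ K
    · rw [if_pos c1]
      by_cases c2 : n ^ 2 ≤ K.card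
      · rw [if_pos c2]
        exact le_self_add
      · have c3 : K.card ≤ n ^ 2 ∧ ∃ x ∈ K, ∃ y ∈ K, (n : ℤ) ≤ dt x e - dt y e := by
          refine ⟨by omega, n • uv e, c1, 0, hK0, ?_⟩
          rw [N70_dt_nsmul]
          simp [dt]
        rw [if_pos c3]
        exact le_add_self
    · rw [if_neg c1]
      exact zero_le
  have htauf_top : ∀ n : ℕ, tauf p (n • uv e) ≠ ⊤ := fun n =>
    ne_top_of_le_ne_top (ENNReal.add_ne_top.mpr ⟨ENNReal.ofReal_ne_top, ENNReal.ofReal_ne_top⟩)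
      (hsplit n)
  have hreal : ∀ n : ℕ, (tauf p (n • uv e)).toReal ≤
      Real.exp (-(κ * ((n : ℝ) ^ 2) ^ (19 / 20 : ℝ))) +
      (n : ℝ) ^ 2 * (2 * (n : ℝ) ^ 2 + 1) ^ d * (Cp * Real.exp (-(mm * n))) := by
    intro n
    have h3 := ENNReal.toReal_mono (ENNReal.add_ne_top.mpr ⟨ENNReal.ofReal_ne_top,
      ENNReal.ofReal_ne_top⟩) (hsplit n)
    rwa [ENNReal.toReal_add ENNReal.ofReal_ne_top ENNReal.ofReal_ne_top,
      ENNReal.toReal_ofReal (Real.exp_pos _).le, ENNReal.toReal_ofReal (by positivity)] at h3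
  -- the first term is small
  have hev : ∀ᶠ n : ℕ in atTop, Real.exp (-(κ * ((n : ℝ) ^ 2) ^ (19 / 20 : ℝ))) ≤
      Real.exp (-(mm * n)) := by
    have h3 : Tendsto (fun n : ℕ => κ * (n : ℝ) ^ (9 / 10 : ℝ)) atTop atTop :=
      (((tendsto_rpow_atTop (by norm_num : (0 : ℝ) < 9 / 10)).comp
        tendsto_natCast_atTop_atTop)).const_mul_atTop hκ0
    filter_upwards [h3.eventually_ge_atTop mm, eventually_gt_atTop 0] with n hn hn0
    apply Real.exp_le_exp.mpr
    apply neg_le_neg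
    have hn1 : (0 : ℝ) < n := by exact_mod_cast hn0
    have h4 : ((n : ℝ) ^ 2) ^ (19 / 20 : ℝ) = (n : ℝ) ^ (9 / 10 : ℝ) * n := by
      rw [← Real.rpow_natCast, ← Real.rpow_mul hn1.le]
      nth_rewrite 3 [← Real.rpow_one (n : ℝ)]
      rw [← Real.rpow_add hn1]
      norm_num
    rw [h4]
    calc mm * n ≤ κ * (n : ℝ) ^ (9 / 10 : ℝ) * n := mul_le_mul_of_nonneg_right hn hn1.le
      _ = κ * ((n : ℝ) ^ (9 / 10 : ℝ) * n) := by ring
  set D : ℝ := 1 + 3 ^ d * Cp with hD
  have hD1 : 1 ≤ D := by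
    rw [hD]
    have : 0 ≤ 3 ^ d * Cp := by positivity
    linarith
  have hup : ∀ᶠ n : ℕ in atTop, (tauf p (n • uv e)).toReal ≤
      D * (n : ℝ) ^ (2 * d + 2) * Real.exp (-(mm * n)) := by
    filter_upwards [hev, eventually_gt_atTop 0] with n hn hn0
    have hn1 : (1 : ℝ) ≤ n := by exact_mod_cast hn0
    have hexp := Real.exp_pos (-(mm * n))
    have h3 : (2 * (n : ℝ) ^ 2 + 1) ^ d ≤ 3 ^ d * (n : ℝ) ^ (2 * d) := by
      rw [pow_mul, ← mul_pow]
      apply pow_le_pow_left₀ (by positivity)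
      nlinarith
    have h4 : (1 : ℝ) ≤ (n : ℝ) ^ (2 * d + 2) := one_le_pow₀ hn1
    calc (tauf p (n • uv e)).toReal
        ≤ Real.exp (-(κ * ((n : ℝ) ^ 2) ^ (19 / 20 : ℝ))) +
          (n : ℝ) ^ 2 * (2 * (n : ℝ) ^ 2 + 1) ^ d * (Cp * Real.exp (-(mm * n))) := hreal n
      _ ≤ Real.exp (-(mm * n)) * (n : ℝ) ^ (2 * d + 2) +
          (n : ℝ) ^ 2 * (3 ^ d * (n : ℝ) ^ (2 * d)) * (Cp * Real.exp (-(mm * n))) := by
          apply add_le_add
          · calc Real.exp (-(κ * ((n : ℝ) ^ 2) ^ (19 / 20 : ℝ))) ≤ Real.exp (-(mm * n)) := hn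
              _ = Real.exp (-(mm * n)) * 1 := by ring
              _ ≤ Real.exp (-(mm * n)) * (n : ℝ) ^ (2 * d + 2) :=
                  mul_le_mul_of_nonneg_left h4 hexp.le
          · apply mul_le_mul_of_nonneg_right _ (by positivity)
            exact mul_le_mul_of_nonneg_left h3 (by positivity)
      _ = D * (n : ℝ) ^ (2 * d + 2) * Real.exp (-(mm * n)) := by
          rw [hD, pow_add]; ring
  have hlow : ∀ n : ℕ, (bt p e (n • uv e)).toReal ≤ (tauf p (n • uv e)).toReal := fun n =>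
    ENNReal.toReal_mono (htauf_top n) (bt_le_tauf hp.le (by linarith) e _)
  have hbpos : ∀ n : ℕ, 0 < (bt p e (n • uv e)).toReal := fun n =>
    ENNReal.toReal_pos (hpos n).ne' (N70_ne_top hp.le (by linarith) e _)
  -- the lower comparison sequence
  have hlim2 : Tendsto (fun n : ℕ => mm - (Real.log D / n + (2 * d + 2 : ℕ) *
      (Real.log n / n))) atTop (𝓝 mm) := by
    have h3 : Tendsto (fun n : ℕ => Real.log D / (n : ℝ)) atTop (𝓝 0) :=
      tendsto_const_div_atTop_nhds_zero_nat _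
    have h4 : Tendsto (fun n : ℕ => Real.log n / (n : ℝ)) atTop (𝓝 0) := by
      have h5 := (Real.isLittleO_log_id_atTop.tendsto_div_nhds_zero).comp
        tendsto_natCast_atTop_atTop
      exact h5
    have h6 := (tendsto_const_nhds (x := mm)).sub (h3.add (h4.const_mul ((2 * d + 2 : ℕ) : ℝ)))
    simpa using h6
  refine tendsto_of_tendsto_of_tendsto_of_le_of_le' hlim2 hlim ?_ ?_
  · filter_upwards [hup, eventually_gt_atTop 0] with n hn hn0
    have hn1 : (0 : ℝ) < n := by exact_mod_cast hn0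
    have ht := lt_of_lt_of_le (hbpos n) (hlow n)
    have h3 : Real.log (tauf p (n • uv e)).toReal ≤
        Real.log D + (2 * d + 2 : ℕ) * Real.log n - mm * n := by
      have h4 := Real.log_le_log ht hn
      rw [Real.log_mul (by positivity) (Real.exp_pos _).ne', Real.log_mul (by positivity)
        (by positivity), Real.log_pow, Real.log_exp] at h4
      linarith
    rw [le_div_iff₀ hn1]
    have h5 : (mm - (Real.log D / n + (2 * d + 2 : ℕ) * (Real.log n / n))) * n =
        mm * n - (Real.log D + (2 * d + 2 : ℕ) * Real.log n) := by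
      field_simp
    rw [h5]
    linarith
  · filter_upwards with n
    apply div_le_div_of_nonneg_right _ (Nat.cast_nonneg n)
    exact neg_le_neg (Real.log_le_log (hbpos n) (hlow n))

end Pool.Agent.HD
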