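import Pool.Agent.Lib.MP_8ca597_hd.N52
import Pool.Agent.Lib.MP_8ca597_hd.N59
import Pool.Agent.Lib.MP_8ca597_hd.N66
import Pool.Agent.Lib.MP_8ca597_hd.N70

/-!
# Row N71: the third exponent

`nIn_of_crit`, `nu_upper`, `nu_lower_bt`, `tauf_lim` (`p0 = pc d`, `bb = bR d`, `bR_le`), for the direction
`e = (i, true)`: `n • uv e = Pi.single i (n : ℤ)`. With `mm = 1/ξ`: `c' √ε ≤ mm ≤ C' √ε` (limits of the bounds of
`- log (tauf ..) / n`).
-/

set_option autoImplicit false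

namespace Pool.Agent.HD

open Finset Filter Topology
open scoped ENNReal

variable {m d : ℕ} {h : m ≤ d} {C : ℝ}

theorem nu_prime0 (hc : Crit m d h C)
    (hexp : ∃ c C' : ℝ, 0 < c ∧ ∀ ε : ℝ, 0 < ε → ε ≤ pc d / 2 →
      ∑' x : Vx d, ENNReal.ofReal (Real.exp (c * √ε * nm x)) * tt (pc d - ε) x ≤
        ENNReal.ofReal (C' / ε))
    {c1 : ℝ} (hc1 : 0 < c1)
    (hhalf : ∀ ε : ℝ, 0 < ε → ε ≤ c1 → ∀ (e : Dir d) (r : ℕ), 1 ≤ r → (r : ℝ) ≤ c1 / √ε →
      ENNReal.ofReal (1 / 2) ≤ ff (pc d - ε) e r) (i : Fin d) :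
    ∃ c C' ε0 : ℝ, 0 < c ∧ 0 < C' ∧ 0 < ε0 ∧ ∀ ε : ℝ, 0 < ε → ε ≤ ε0 → ∃ ξ : ℝ,
      Tendsto (fun n : ℕ => -Real.log (tauf (pc d + ε) (Pi.single i (n : ℤ))).toReal / n) atTop
        (𝓝 (1 / ξ)) ∧ c / √ε ≤ ξ ∧ ξ ≤ C' / √ε := by
  obtain ⟨C1, c2, hN⟩ := nIn_of_crit hc hexp
  obtain ⟨cu, εu, hcu, hεu, hup⟩ := nu_upper hN
  obtain ⟨Cl, εl, hCl, hεl, hlow⟩ := nu_lower_bt hc hc1 hhalf
  have hd : 0 < d := hN.dpos
  have hpc : 0 < pc d := lt_of_lt_of_le (by positivity) (pc_pos hd)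
  refine ⟨1 / Cl, 1 / cu, min (min εu εl) (pc d), by positivity, by positivity,
    lt_min (lt_min hεu hεl) hpc, ?_⟩
  intro ε hε hε'
  have h1 : ε ≤ εu := hε'.trans ((min_le_left _ _).trans (min_le_left _ _))
  have h2 : ε ≤ εl := hε'.trans ((min_le_left _ _).trans (min_le_right _ _))
  have h3 : ε ≤ pc d := hε'.trans (min_le_right _ _)
  have hpc4 := hN.pc4
  have hp0 : 0 ≤ pc d + ε := by linarith
  have hp1 : pc d + ε ≤ 1 := by linarith
  have hsq : 0 < √ε := Real.sqrt_pos.2 hε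
  obtain ⟨mm, hm1, hm2⟩ := tauf_lim hd hpc hN.pc4 hε h3 hN.flux hN.ker hN.C1 hN.grow hN.decay
    (i, true)
  have huv : ∀ n : ℕ, n • uv (d := d) (i, true) = Pi.single i (n : ℤ) := by
    intro n
    funext j
    by_cases hj : j = i
    · subst hj
      simp [uv, sg]
    · simp [uv, sg, Pi.single_eq_of_ne hj]
  simp only [huv] at hm1 hm2
  obtain ⟨n1, hn1⟩ := hup ε hε h1
  obtain ⟨n2, hn2⟩ := hlow ε hε h2
  have hbtlow : ∀ n : ℕ, n2 ≤ n →
      Real.exp (-(Cl * √ε * n)) ≤ (bt (pc d + ε) (i, true) (Pi.single i (n : ℤ))).toReal := by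
    intro n hn
    have h4 := hn2 (i, true) n hn
    rw [huv] at h4
    have h5 : bt (pc d + ε) (i, true) (Pi.single i (n : ℤ)) ≠ ⊤ :=
      ne_top_of_le_ne_top ENNReal.one_ne_top (bt_le_one hp0 hp1 _ _)
    exact (ENNReal.ofReal_le_iff_le_toReal h5).1 h4
  have hmmge : cu * √ε ≤ mm := by
    refine ge_of_tendsto hm2 ?_
    filter_upwards [eventually_ge_atTop (max (max n1 n2) 1)] with n hn
    have hn1' : n1 ≤ n := (le_max_left _ _).trans ((le_max_left _ _).trans hn)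
    have hn2' : n2 ≤ n := (le_max_right _ _).trans ((le_max_left _ _).trans hn)
    have hn0 : (0 : ℝ) < n := by
      have : 1 ≤ n := (le_max_right _ _).trans hn
      exact_mod_cast this
    have h4 := hn1 i n hn1'
    have h5 : (tauf (pc d + ε) (Pi.single i (n : ℤ))).toReal ≤ Real.exp (-(cu * √ε * n)) :=
      ENNReal.toReal_le_of_le_ofReal (Real.exp_pos _).le h4
    have h6 : 0 < (tauf (pc d + ε) (Pi.single i (n : ℤ))).toReal := by
      have h7 : tauf (pc d + ε) (Pi.single i (n : ℤ)) ≠ ⊤ :=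
        ne_top_of_le_ne_top ENNReal.ofReal_ne_top h4
      have h8 := ENNReal.toReal_mono h7 (bt_le_tauf hp0 hp1 (i, true) (Pi.single i (n : ℤ)))
      exact lt_of_lt_of_le (Real.exp_pos _) ((hbtlow n hn2').trans h8)
    rw [le_div_iff₀ hn0]
    have h9 := Real.log_le_log h6 h5
    rw [Real.log_exp] at h9
    linarith
  have hmmle : mm ≤ Cl * √ε := by
    refine le_of_tendsto hm1 ?_
    filter_upwards [eventually_ge_atTop (max n2 1)] with n hn
    have hn2' : n2 ≤ n := (le_max_left _ _).trans hn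
    have hn0 : (0 : ℝ) < n := by
      have : 1 ≤ n := (le_max_right _ _).trans hn
      exact_mod_cast this
    rw [div_le_iff₀ hn0]
    have h9 := Real.log_le_log (Real.exp_pos _) (hbtlow n hn2')
    rw [Real.log_exp] at h9
    linarith
  have hmm : 0 < mm := lt_of_lt_of_le (by positivity) hmmge
  refine ⟨1 / mm, ?_, ?_, ?_⟩
  · rw [one_div_one_div]
    exact hm2
  · rw [div_div]
    exact one_div_le_one_div_of_le hmm hmmle
  · rw [div_div]
    exact one_div_le_one_div_of_le (by positivity) hmmge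

end Pool.Agent.HD
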