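import Pool.Agent.Lib.MP_8ca597_hd.SDefs

/-!
# Row S01: further facts on the cluster of a set

`EE_clS_sum`: `explS_out` (A16) with `S = V`, then sum over the value `J` of `clS T V Y`
(`J ∈ V.powerset`).
-/

set_option autoImplicit false

namespace Pool.Agent.HD

open Finset
open scoped ENNReal

variable {d : ℕ}

theorem clS_subset (T : Finset (Ed d)) (V Y : Finset (Vx d)) : clS T V Y ⊆ V := by
  intro y hy
  rw [mem_clS] at hy
  obtain ⟨b, _, h⟩ := hy
  exact_mod_cast h.right

theorem clS_inter_edges (T : Finset (Ed d)) (V Y : Finset (Vx d)) :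
    clS (T ∩ edges V) V Y = clS T V Y := by
  ext y
  rw [mem_clS, mem_clS]
  constructor
  · rintro ⟨b, hb, h⟩
    exact ⟨b, hb, conn_inter_edges.mp h⟩
  · rintro ⟨b, hb, h⟩
    exact ⟨b, hb, conn_inter_edges.mpr h⟩

/-- An open edge from a vertex of the cluster ends in the cluster. -/
theorem clS_closed {T : Finset (Ed d)} {V Y : Finset (Vx d)} {u v : Vx d} (hu : u ∈ clS T V Y)
    (hv : v ∈ V) (ha : Adj u v) (he : s(u, v) ∈ T) : v ∈ clS T V Y := by
  rw [mem_clS] at hu ⊢
  obtain ⟨b, hb, h⟩ := hu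
  exact ⟨b, hb, h.step (by exact_mod_cast hv) ha he⟩

/-- Off the cluster of `Y` all connections avoid it. -/
theorem conn_off_clS {T : Finset (Ed d)} {V Y : Finset (Vx d)} {a : Vx d}
    (ha : a ∉ clS T V Y) (x : Vx d) :
    Conn T V a x ↔ Conn T ((V \ clS T V Y : Finset (Vx d)) : Set (Vx d)) a x := by
  constructor
  · intro h
    have haV : a ∈ (V : Set (Vx d)) := h.left
    have hmem : a ∈ ((V \ clS T V Y : Finset (Vx d)) : Set (Vx d)) := by
      rw [Finset.mem_coe, Finset.mem_sdiff]
      exact ⟨by exact_mod_cast haV, ha⟩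
    have h2 := h.2
    clear h
    induction h2 with
    | refl => exact Conn.refl hmem
    | @tail b c _ hbc ih =>
      obtain ⟨hcV, hadj, hopen⟩ := hbc
      have hb := ih.right
      rw [Finset.mem_coe, Finset.mem_sdiff] at hb
      refine ih.step ?_ hadj hopen
      rw [Finset.mem_coe, Finset.mem_sdiff]
      refine ⟨by exact_mod_cast hcV, fun hc => hb.2 ?_⟩
      refine clS_closed hc hb.1 hadj.symm ?_
      rw [Sym2.eq_swap]
      exact hopen
  · intro h
    refine h.mono (subset_refl _) ?_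
    exact_mod_cast Finset.sdiff_subset

theorem disjoint_cl_clS {T : Finset (Ed d)} {V Y : Finset (Vx d)} {a : Vx d}
    (ha : a ∉ clS T V Y) : Disjoint (cl T V a) (clS T V Y) := by
  rw [Finset.disjoint_left]
  intro y hy hy'
  apply ha
  rw [mem_cl] at hy
  rw [mem_clS] at hy' ⊢
  obtain ⟨b, hb, h⟩ := hy'
  exact ⟨b, hb, h.trans hy.symm⟩

theorem Bd_subset_JJ (n : ℕ) (T : Finset (Ed d)) : Bd d n ⊆ JJ n T := by
  intro x hx
  have hxB : x ∈ Bx d n := (Finset.mem_filter.mp hx).1
  unfold JJ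
  rw [mem_clS]
  exact ⟨x, hx, Conn.refl (by exact_mod_cast hxB)⟩

/-- Fresh percolation off the cluster of `Y`. -/
theorem EE_clS_sum (p : ℝ) (V Y : Finset (Vx d)) (g : Finset (Vx d) → Finset (Ed d) → ℝ) :
    EE p (edges V) (fun T => g (clS T V Y) (T ∩ edges (V \ clS T V Y))) =
      ∑ J ∈ V.powerset, PP p (edges V) {T | clS T V Y = J} * EE p (edges (V \ J)) (g J) := by
  rw [explS_out p (subset_refl V) Y g]
  have h1 : EE p (edges V) (fun T' => EE p (edges (V \ clS T' V Y)) (g (clS T' V Y))) =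
      EE p (edges V) (fun T' => ∑ J ∈ V.powerset,
        (if T' ∈ {T : Finset (Ed d) | clS T V Y = J} then (1 : ℝ) else 0) *
          EE p (edges (V \ J)) (g J)) := by
    refine EE_congr fun T' _ => ?_
    rw [Finset.sum_eq_single (clS T' V Y)]
    · rw [if_pos (by simp), one_mul]
    · intro J _ hJ
      rw [if_neg (by simpa using fun h => hJ h.symm), zero_mul]
    · intro h
      exact absurd (Finset.mem_powerset.mpr (clS_subset T' V Y)) h
  rw [h1, EE_sum]
  refine Finset.sum_congr rfl fun J _ => ?_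
  rw [EE_mul_const, PP_def]
  congr!

end Pool.Agent.HD
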