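import Pool.Agent.Lib.MP_8ca597_hd.S01
import Pool.Agent.Lib.MP_8ca597_hd.A12

/-!
# Row S02: the flux out of a finite set (A1)

Induction on the number of elements of `Z`, for all `S`. Let `z ∈ Z`, `Z = insert z Z0`, explore
`K = cl T S z` (`expl_out` with `V = S`). For an exit `(x, y)` of `S` the event `Z ↔ x` occurs if
`x ∈ K`, or `x ∉ K` and `Z0 \ K ↔ x` in `S \ K`. The first part gives the flux from `z`, at least
`1` by `FluxGe`. For the second part use the induction hypothesis for `S \ K`, `Z0 \ K`: the exits of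
`S \ K` are exits of `S` or pairs `(x, y)` with `x ∈ S \ K`, `y ∈ K`; the latter cost at most
`∑ z' ∈ Z0 \ K, ∑ y ∈ K, p ∑ x ∈ nbr y, tau p S z' x`. Also
`kap (Z0 \ K) ≥ kap Z0 - |Z0 ∩ K|` (`bb ≥ 0`). Taking expectations, the total loss is at most
`∑ z' ∈ Z0, (tau p S z z' + ∑ y ∈ S, tau p S z y * (p * ∑ x ∈ nbr y, tau p S z' x))
≤ ∑ z' ∈ Z0, bb (z - z')`, and `kap Z = 1 + kap Z0 - ∑ z' ∈ Z0, bb (z - z')` (`even`).
-/

set_option autoImplicit false

namespace Pool.Agent.HD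

open Finset
open scoped ENNReal

variable {d : ℕ}

theorem kap_empty (bb : Vx d → ℝ) : kap bb ∅ = 0 := by
  simp [kap, en]

theorem kap_insert {bb : Vx d → ℝ} (he : ∀ x, bb (-x) = bb x) {z : Vx d} {Z : Finset (Vx d)}
    (hz : z ∉ Z) : kap bb (insert z Z) = 1 + kap bb Z - ∑ z' ∈ Z, bb (z - z') := by
  have h1 : en bb (insert z Z) = en bb Z + 2 * ∑ z' ∈ Z, bb (z - z') := by
    unfold en
    rw [sum_insert hz, erase_insert hz]
    have h2 : ∀ w ∈ Z, ∑ z' ∈ (insert z Z).erase w, bb (w - z') =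
        bb (z - w) + ∑ z' ∈ Z.erase w, bb (w - z') := by
      intro w hw
      have hzw : z ≠ w := fun h => hz (h ▸ hw)
      rw [erase_insert_of_ne hzw, sum_insert (fun h => hz (mem_of_mem_erase h))]
      congr 1
      rw [← he (w - z), neg_sub]
    rw [sum_congr rfl h2, sum_add_distrib]
    ring
  unfold kap
  rw [h1, card_insert_of_notMem hz]
  push_cast
  ring

/-- Removing a set. -/
theorem s02_kap_sdiff {bb : Vx d → ℝ} (h0 : ∀ x, 0 ≤ bb x) (Z K : Finset (Vx d)) :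
    kap bb Z - ∑ z ∈ Z, (if z ∈ K then (1 : ℝ) else 0) ≤ kap bb (Z \ K) := by
  have h1 : en bb (Z \ K) ≤ en bb Z := by
    unfold en
    refine le_trans (sum_le_sum fun z _ => ?_)
      (sum_le_sum_of_subset_of_nonneg sdiff_subset fun z _ _ => sum_nonneg fun _ _ => h0 _)
    exact sum_le_sum_of_subset_of_nonneg (erase_subset_erase z sdiff_subset) fun _ _ _ => h0 _
  have h2 : (Z.card : ℝ) = (Z \ K).card + ∑ z ∈ Z, (if z ∈ K then (1 : ℝ) else 0) := by
    have h3 : (∑ z ∈ Z, (if z ∈ K then (1 : ℝ) else 0)) = ((Z ∩ K).card : ℝ) := by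
      rw [← sum_filter, sum_const, nsmul_eq_mul, mul_one, filter_mem_eq_inter]
    rw [h3]
    exact_mod_cast (card_sdiff_add_card_inter Z K).symm
  unfold kap
  linarith

/-- The decomposition of the event. -/
theorem s02_iff {T : Finset (Ed d)} {S Z : Finset (Vx d)} {z : Vx d} (x : Vx d) :
    (∃ w ∈ insert z Z, Conn T S w x) ↔ (x ∈ cl T S z ∨
      ∃ w ∈ Z \ cl T S z, Conn T ((S \ cl T S z : Finset (Vx d)) : Set (Vx d)) w x) := by
  constructor
  · rintro ⟨w, hw, hc⟩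
    rcases mem_insert.mp hw with rfl | hw
    · exact Or.inl (mem_cl.mpr hc)
    · by_cases hk : w ∈ cl T S z
      · exact Or.inl (mem_cl.mpr ((mem_cl.mp hk).trans hc))
      · refine Or.inr ⟨w, mem_sdiff.mpr ⟨hw, hk⟩, ?_⟩
        have h1 : w ∉ clS T S {z} := by rwa [clS_single]
        have h2 := (conn_off_clS h1 x).mp hc
        rwa [clS_single] at h2
  · rintro (hx | ⟨w, hw, hc⟩)
    · exact ⟨z, mem_insert_self _ _, mem_cl.mp hx⟩
    · refine ⟨w, mem_insert_of_mem (mem_sdiff.mp hw).1, hc.mono (subset_refl _) ?_⟩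
      exact_mod_cast sdiff_subset

theorem s02_PP (p : ℝ) (S Z : Finset (Vx d)) (z x : Vx d) :
    PP p (edges S) {T | ∃ w ∈ insert z Z, Conn T S w x} = tau p S z x +
      EE p (edges S) fun T => PP p (edges (S \ cl T S z)) {T' | ∃ w ∈ Z \ cl T S z,
        Conn T' ((S \ cl T S z : Finset (Vx d)) : Set (Vx d)) w x} := by
  classical
  have h1 := expl_out p (subset_refl S) z (fun K T' =>
    if ∃ w ∈ Z \ K, Conn T' ((S \ K : Finset (Vx d)) : Set (Vx d)) w x then (1 : ℝ) else 0)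
  have h2 : (fun T : Finset (Ed d) => PP p (edges (S \ cl T S z)) {T' | ∃ w ∈ Z \ cl T S z,
        Conn T' ((S \ cl T S z : Finset (Vx d)) : Set (Vx d)) w x}) =
      fun T : Finset (Ed d) => EE p (edges (S \ cl T S z)) ((fun K T' =>
    if ∃ w ∈ Z \ K, Conn T' ((S \ K : Finset (Vx d)) : Set (Vx d)) w x then (1 : ℝ) else 0)
      (cl T S z)) := by
    funext T
    rw [PP_def]
    apply EE_congr
    intro T' _
    simp only [Set.mem_ofPred_eq]
    congr 1
  rw [h2, ← h1, tau_eq_EE, ← EE_add, PP_def]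
  apply EE_congr
  intro T _
  have h3 : (∃ w ∈ Z \ cl T S z, Conn (T ∩ edges (S \ cl T S z))
      ((S \ cl T S z : Finset (Vx d)) : Set (Vx d)) w x) ↔
      ∃ w ∈ Z \ cl T S z, Conn T ((S \ cl T S z : Finset (Vx d)) : Set (Vx d)) w x := by
    simp only [conn_inter_edges]
  simp only [Set.mem_ofPred_eq, h3, s02_iff]
  by_cases hx : x ∈ cl T S z
  · have h4 : ¬ ∃ w ∈ Z \ cl T S z,
        Conn T ((S \ cl T S z : Finset (Vx d)) : Set (Vx d)) w x := by
      rintro ⟨w, _, hc⟩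
      have h5 : x ∈ S \ cl T S z := by exact_mod_cast hc.right
      exact (mem_sdiff.mp h5).2 hx
    rw [if_pos (Or.inl hx), if_pos hx, if_neg h4, add_zero]
  · simp [hx]

/-- The exits of a difference. -/
theorem s02_exits (S K : Finset (Vx d)) {G : Vx d → ℝ} (hG : ∀ x, 0 ≤ G x) :
    ∑ q ∈ exits (S \ K) (nbh (S \ K)), G q.1 ≤
      ∑ q ∈ exits S (nbh S), G q.1 + ∑ y ∈ K, ∑ x ∈ nbr y, G x := by
  classical
  rw [sum_sigma' K (fun y => nbr y) (fun _ x => G x)]
  rw [← sum_filter_add_sum_filter_not (exits (S \ K) (nbh (S \ K))) (fun q => q.2 ∉ S)]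
  apply add_le_add
  · apply sum_le_sum_of_subset_of_nonneg
    · intro q hq
      rw [mem_filter, mem_exits] at hq
      obtain ⟨⟨h1, h2, h3, h4⟩, h5⟩ := hq
      rw [mem_exits]
      exact ⟨(mem_sdiff.mp h1).1, mem_nbh.mpr (Or.inr ⟨q.1, (mem_sdiff.mp h1).1, h4⟩), h5, h4⟩
    · intro q _ _
      exact hG _
  · have h1 : ∑ q ∈ (exits (S \ K) (nbh (S \ K))).filter (fun q => ¬ q.2 ∉ S), G q.1 =
        ∑ r ∈ ((exits (S \ K) (nbh (S \ K))).filter (fun q => ¬ q.2 ∉ S)).image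
          (fun q => (⟨q.2, q.1⟩ : Σ _ : Vx d, Vx d)), G r.2 := by
      rw [sum_image]
      intro q _ q' _ h
      simp only [Sigma.mk.injEq, heq_eq_eq] at h
      exact Prod.ext h.2 h.1
    rw [h1]
    apply sum_le_sum_of_subset_of_nonneg
    · intro r hr
      rw [mem_image] at hr
      obtain ⟨q, hq, rfl⟩ := hr
      rw [mem_filter, mem_exits] at hq
      obtain ⟨⟨h2, h3, h4, h5⟩, h6⟩ := hq
      rw [mem_sigma]
      push Not at h6
      refine ⟨?_, mem_nbr.mpr h5.symm⟩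
      by_contra h7
      exact h4 (mem_sdiff.mpr ⟨h6, h7⟩)
    · intro r _ _
      exact hG _

/-- The flux of a set. -/
theorem flux_set {p : ℝ} (hp : 0 ≤ p) (hp1 : p ≤ 1) {bb : Vx d → ℝ} (hF : FluxGe d p)
    (hb : Ker d p bb) (S Z : Finset (Vx d)) (hZ : Z ⊆ S) :
    kap bb Z ≤ ∑ q ∈ exits S (nbh S), p * PP p (edges S) {T | ∃ z ∈ Z, Conn T S z q.1} := by
  classical
  obtain ⟨n, hn⟩ : ∃ n, Z.card = n := ⟨_, rfl⟩
  induction n using Nat.strong_induction_on generalizing S Z with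
  | _ n IH =>
  rcases Z.eq_empty_or_nonempty with rfl | ⟨z, hz⟩
  · rw [kap_empty]
    exact sum_nonneg fun q _ => mul_nonneg hp (PP_nonneg hp hp1)
  obtain ⟨Z0, hz0, rfl⟩ : ∃ Z0 : Finset (Vx d), z ∉ Z0 ∧ Z = insert z Z0 :=
    ⟨Z.erase z, notMem_erase z Z, (insert_erase hz).symm⟩
  have hzS : z ∈ S := hZ hz
  have hZ0 : Z0 ⊆ S := fun w hw => hZ (mem_insert_of_mem hw)
  -- the cost of the vertex `y` of the cluster for `z'`
  obtain ⟨c, hc⟩ : ∃ c : Vx d → Vx d → ℝ, c = fun z' y => p * ∑ x ∈ nbr y, tau p S z' x :=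
    ⟨_, rfl⟩
  -- the flux of `Z0 \ K` in `S \ K`
  obtain ⟨A, hA⟩ : ∃ A : Vx d → Finset (Ed d) → ℝ, A = fun x T =>
      PP p (edges (S \ cl T S z)) {T' | ∃ w ∈ Z0 \ cl T S z,
        Conn T' ((S \ cl T S z : Finset (Vx d)) : Set (Vx d)) w x} := ⟨_, rfl⟩
  have hA0 : ∀ x T, 0 ≤ A x T := fun x T => by rw [hA]; exact PP_nonneg hp hp1
  have hA1 : ∀ x T, A x T ≤ ∑ w ∈ Z0, tau p S w x := by
    intro x T
    rw [hA]
    refine (PP_exists_le hp hp1 (Z0 \ cl T S z) fun w =>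
      {T' | Conn T' ((S \ cl T S z : Finset (Vx d)) : Set (Vx d)) w x}).trans ?_
    refine le_trans (sum_le_sum fun w _ => ?_)
      (sum_le_sum_of_subset_of_nonneg sdiff_subset fun w _ _ => tau_nonneg hp hp1 S w x)
    exact tau_mono hp hp1 sdiff_subset w x
  -- the pointwise bound
  have hkey : ∀ T : Finset (Ed d), kap bb Z0 - ∑ w ∈ Z0, ((if w ∈ cl T S z then (1 : ℝ) else 0) +
      ∑ y ∈ S, (if y ∈ cl T S z then (1 : ℝ) else 0) * c w y) ≤
        ∑ q ∈ exits S (nbh S), p * A q.1 T := by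
    intro T
    have h1 : (Z0 \ cl T S z).card < n := by
      rw [← hn, card_insert_of_notMem hz0]
      exact Nat.lt_succ_of_le (card_le_card sdiff_subset)
    have h2 := IH _ h1 (S \ cl T S z) (Z0 \ cl T S z) (sdiff_subset_sdiff hZ0 (subset_refl _)) rfl
    have h3 := s02_kap_sdiff hb.nonneg Z0 (cl T S z)
    have h4 := s02_exits S (cl T S z) (G := fun x => p * A x T) fun x => mul_nonneg hp (hA0 x T)
    have h5 : ∑ q ∈ exits (S \ cl T S z) (nbh (S \ cl T S z)), p * PP p (edges (S \ cl T S z))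
        {T' | ∃ w ∈ Z0 \ cl T S z, Conn T' ((S \ cl T S z : Finset (Vx d)) : Set (Vx d)) w q.1} =
        ∑ q ∈ exits (S \ cl T S z) (nbh (S \ cl T S z)), p * A q.1 T := by
      rw [hA]
    rw [h5] at h2
    have h6 : ∑ y ∈ cl T S z, ∑ x ∈ nbr y, p * A x T ≤
        ∑ w ∈ Z0, ∑ y ∈ S, (if y ∈ cl T S z then (1 : ℝ) else 0) * c w y := by
      rw [sum_comm]
      have h7 : ∑ y ∈ S, ∑ w ∈ Z0, (if y ∈ cl T S z then (1 : ℝ) else 0) * c w y =
          ∑ y ∈ cl T S z, ∑ w ∈ Z0, c w y := by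
        rw [← sum_filter_add_sum_filter_not S (fun y => y ∈ cl T S z)]
        rw [filter_mem_eq_inter, inter_eq_right.mpr (cl_subset T S z)]
        rw [add_eq_left.mpr]
        · apply sum_congr rfl
          intro y hy
          simp [hy]
        · apply sum_eq_zero
          intro y hy
          have hy2 := (mem_filter.mp hy).2
          simp [hy2]
      rw [h7]
      apply sum_le_sum
      intro y _
      rw [hc, ← mul_sum, ← mul_sum, sum_comm]
      apply mul_le_mul_of_nonneg_left _ hp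
      exact sum_le_sum fun x _ => hA1 x T
    rw [sum_add_distrib]
    linarith
  -- take expectations
  have h1 : ∑ q ∈ exits S (nbh S), p * PP p (edges S) {T | ∃ w ∈ insert z Z0, Conn T S w q.1} =
      ∑ q ∈ exits S (nbh S), tau p S z q.1 * p +
        EE p (edges S) fun T => ∑ q ∈ exits S (nbh S), p * A q.1 T := by
    rw [EE_sum, ← sum_add_distrib]
    apply sum_congr rfl
    intro q _
    rw [s02_PP, EE_const_mul, hA]
    ring
  have h2 := EE_mono (S := edges S) hp hp1 fun T _ => hkey T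
  have h3 : EE p (edges S) (fun T => kap bb Z0 - ∑ w ∈ Z0,
      ((if w ∈ cl T S z then (1 : ℝ) else 0) +
        ∑ y ∈ S, (if y ∈ cl T S z then (1 : ℝ) else 0) * c w y)) =
      kap bb Z0 - ∑ w ∈ Z0, (tau p S z w + ∑ y ∈ S, tau p S z y * c w y) := by
    rw [EE_sub, EE_const, EE_sum]
    congr 1
    apply sum_congr rfl
    intro w _
    rw [EE_add, EE_sum, tau_eq_EE p S z w]
    congr 1
    apply sum_congr rfl
    intro y _
    rw [EE_mul_const, tau_eq_EE p S z y]
  rw [h3] at h2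
  have h4 : ∑ w ∈ Z0, (tau p S z w + ∑ y ∈ S, tau p S z y * c w y) ≤ ∑ w ∈ Z0, bb (z - w) := by
    apply sum_le_sum
    intro w hw
    rw [hc]
    exact hb.bound S z w hzS (hZ0 hw) fun h => hz0 (h ▸ hw)
  have h5 := hF S z hzS
  rw [kap_insert hb.even hz0, h1]
  linarith

end Pool.Agent.HD
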