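import Pool.Agent.Lib.MP_8ca597_hd.S03
import Pool.Agent.Lib.MP_8ca597_hd.A15

/-!
# Row S04: contacts and the killing identity (A3, A4)

`PP_cl_off`: with `V' = V \ J`: the cluster of `0` in `V` is `K` if and only if the cluster in `V'` is `K`
and the `cont K J` edges from `K` to `J` are closed; the two events depend on disjoint sets of edges
(`touch V' K` and the edges from `K` to `J`). `PP_clS_off`: the same with the roles exchanged.
`no_contact`: sum `PP_clS_off` over `J`. `killing`: sum of the product of the two over `J`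
disjoint from `K` (`PP (clS = J)` is `0` unless `J ⊆ V`).
-/

set_option autoImplicit false

namespace Pool.Agent.HD

open Finset
open scoped ENNReal

variable {d : ℕ}

theorem disjoint_Bd {n : ℕ} {K : Finset (Vx d)} (h : nbh K ⊆ Bx d n) (hd : 0 < d) :
    Disjoint K (Bd d n) := by
  classical
  rw [Finset.disjoint_left]
  intro x hx hxn
  rw [mem_Bd] at hxn
  have hne : (Finset.univ : Finset (Fin d)).Nonempty := ⟨⟨0, hd⟩, Finset.mem_univ _⟩
  obtain ⟨i, -, hi⟩ := Finset.exists_mem_eq_sup Finset.univ hne (fun i => (x i).natAbs)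
  have hi' : (x i).natAbs = n := by
    rw [← hxn]
    exact hi.symm
  obtain ⟨s, hs, hs'⟩ : ∃ s : ℤ, |s| = 1 ∧ (x i + s).natAbs = n + 1 := by
    rcases le_total 0 (x i) with h0 | h0
    · exact ⟨1, by norm_num, by omega⟩
    · exact ⟨-1, by norm_num, by omega⟩
  set y : Vx d := Function.update x i (x i + s) with hy
  have hadj : Adj x y := by
    unfold Adj
    rw [Finset.sum_eq_single i]
    · rw [hy, Function.update_self]
      simpa [abs_neg] using hs
    · intro j _ hj
      rw [hy, Function.update_of_ne hj]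
      simp
    · intro h
      exact absurd (Finset.mem_univ i) h
  have h1 : nm y ≤ n := mem_Bx.1 (h (mem_nbh.2 (Or.inr ⟨x, hx, hadj⟩)))
  have h2 : (y i).natAbs ≤ nm y := Finset.le_sup (f := fun i => (y i).natAbs) (Finset.mem_univ i)
  rw [hy, Function.update_self, hs', ← hy] at h2
  omega

/-! ### The edges between two sets -/

open Classical in
private noncomputable def S04_E (K J : Finset (Vx d)) : Finset (Ed d) :=
  ((K ×ˢ J).filter fun q => Adj q.1 q.2).image fun q => s(q.1, q.2)

private theorem S04_mem {K J : Finset (Vx d)} {u v : Vx d} (hu : u ∈ K) (hv : v ∈ J)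
    (h : Adj u v) : s(u, v) ∈ S04_E K J := by
  classical
  unfold S04_E
  exact Finset.mem_image.2 ⟨(u, v), Finset.mem_filter.2 ⟨Finset.mem_product.2 ⟨hu, hv⟩, h⟩, rfl⟩

private theorem S04_of_mem {K J : Finset (Vx d)} {e : Ed d} (h : e ∈ S04_E K J) :
    ∃ u v : Vx d, e = s(u, v) ∧ u ∈ K ∧ v ∈ J ∧ Adj u v := by
  classical
  unfold S04_E at h
  obtain ⟨q, hq, rfl⟩ := Finset.mem_image.1 h
  rw [Finset.mem_filter, Finset.mem_product] at hq
  exact ⟨q.1, q.2, rfl, hq.1.1, hq.1.2, hq.2⟩

private theorem S04_card {K J : Finset (Vx d)} (hd : Disjoint K J) :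
    (S04_E K J).card = cont K J := by
  classical
  unfold S04_E cont
  rw [Finset.card_image_of_injOn]
  intro q hq q' hq' h
  rw [Finset.mem_coe, Finset.mem_filter, Finset.mem_product] at hq hq'
  simp only [Sym2.eq, Sym2.rel_iff', Prod.mk.injEq, Prod.swap_prod_mk] at h
  rcases h with h | h
  · exact Prod.ext h.1 h.2
  · exfalso
    exact Finset.disjoint_left.1 hd hq.1.1 (h.1 ▸ hq'.1.2)

private theorem S04_sub {V K J : Finset (Vx d)} (hK : K ⊆ V) (hJ : J ⊆ V) :
    S04_E K J ⊆ edges V := by
  intro e he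
  obtain ⟨u, v, rfl, hu, hv, hadj⟩ := S04_of_mem he
  exact mem_edges.2 ⟨hK hu, hJ hv, hadj⟩

/-- All edges of a set are closed. -/
private theorem S04_closed {α : Type} [DecidableEq α] (p : ℝ) {S E : Finset α} (hE : E ⊆ S) :
    PP p S {T | Disjoint T E} = (1 - p) ^ E.card := by
  classical
  have hdep : Dep {T : Finset α | Disjoint T E} E := by
    intro T T' h
    simp only [Set.mem_setOf_eq, Finset.disjoint_iff_inter_eq_empty, h]
  rw [PP_dep p hE hdep, PP_def]
  unfold EE
  rw [Finset.sum_eq_single ∅]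
  · simp
  · intro T hT hne
    rw [Finset.mem_powerset] at hT
    have : ¬ Disjoint T E := by
      rw [Finset.disjoint_iff_inter_eq_empty, Finset.inter_eq_left.2 hT]
      exact hne
    simp only [Set.mem_setOf_eq, this, if_false, mul_zero]
  · intro h
    exact absurd (Finset.empty_mem_powerset E) h

private theorem S04_dep {E : Finset (Ed d)} : Dep {T : Finset (Ed d) | Disjoint T E} E := by
  intro T T' h
  simp only [Set.mem_setOf_eq, Finset.disjoint_iff_inter_eq_empty, h]

private theorem S04_cl_char {T : Finset (Ed d)} {V K : Finset (Vx d)} {a : Vx d} (ha : a ∈ K)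
    (hK : K ⊆ V) : cl T V a = K ↔ (∀ x ∈ K, Conn T K a x) ∧
      ∀ u ∈ K, ∀ v ∈ V, Adj u v → s(u, v) ∈ T → v ∈ K := by
  constructor
  · rintro rfl
    exact ⟨fun x hx => conn_in_cl hx, fun u hu v hv hadj he => cl_closed hu hv hadj he⟩
  · rintro ⟨h1, h2⟩
    ext x
    rw [mem_cl]
    constructor
    · rintro ⟨_, h⟩
      induction h with
      | refl => exact ha
      | tail _ hs ih => exact h2 _ ih _ (by simpa using hs.1) hs.2.1 hs.2.2
    · intro hx
      exact (h1 x hx).mono (le_refl _) (by simpa using hK)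

private theorem S04_cl_iff {T : Finset (Ed d)} {V J K : Finset (Vx d)} (hd : Disjoint K J)
    (hJ : J ⊆ V) (hK : K ⊆ V) {a : Vx d} (ha : a ∈ K) :
    cl T V a = K ↔ cl T (V \ J) a = K ∧ Disjoint T (S04_E K J) := by
  have hK' : K ⊆ V \ J := fun x hx => Finset.mem_sdiff.2 ⟨hK hx, Finset.disjoint_left.1 hd hx⟩
  rw [S04_cl_char ha hK, S04_cl_char ha hK', and_assoc]
  refine and_congr_right fun _ => ?_
  constructor
  · intro h
    refine ⟨fun u hu v hv => h u hu v (Finset.mem_sdiff.1 hv).1, ?_⟩
    rw [Finset.disjoint_left]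
    intro e he he'
    obtain ⟨u, v, rfl, hu, hv, hadj⟩ := S04_of_mem he'
    exact Finset.disjoint_left.1 hd (h u hu v (hJ hv) hadj he) hv
  · rintro ⟨h1, h2⟩ u hu v hv hadj he
    by_cases hvJ : v ∈ J
    · exact absurd (S04_mem hu hvJ hadj) (Finset.disjoint_left.1 h2 he)
    · exact h1 u hu v (Finset.mem_sdiff.2 ⟨hv, hvJ⟩) hadj he

theorem PP_cl_off (p : ℝ) {V J K : Finset (Vx d)} (hd : Disjoint K J) (hJ : J ⊆ V)
    (hK : nbh K ⊆ V) (h0 : (0 : Vx d) ∈ K) :
    PP p (edges (V \ J)) {T | cl T (V \ J) 0 = K} * (1 - p) ^ cont K J = ww p K := by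
  classical
  have hKV : K ⊆ V := fun x hx => hK (mem_nbh.2 (Or.inl hx))
  have hsub : edges (V \ J) ⊆ edges V := edges_mono Finset.sdiff_subset
  have hdep : Dep {T : Finset (Ed d) | cl T (V \ J) 0 = K} (edges (V \ J)) := by
    intro T T' h
    have h1 := cl_inter_edges T (V \ J) 0
    have h2 := cl_inter_edges T' (V \ J) 0
    simp only [Set.mem_setOf_eq]
    rw [← h1, ← h2, h]
  have hdisj : Disjoint (edges (V \ J)) (S04_E K J) := by
    rw [Finset.disjoint_left]
    intro e he he'
    obtain ⟨u, v, rfl, hu, hv, hadj⟩ := S04_of_mem he'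
    exact (Finset.mem_sdiff.1 (mem_edges.1 he).2.1).2 hv
  have h1 := PP_inter p hsub (S04_sub hKV hJ) hdisj hdep (S04_dep (E := S04_E K J))
  rw [PP_dep p hsub hdep, S04_closed p (S04_sub hKV hJ), S04_card hd] at h1
  rw [← h1, ← PP_cl_eq p hK h0]
  apply PP_congr
  intro T _
  exact (S04_cl_iff hd hJ hKV h0).symm

private theorem S04_clS_iff {T : Finset (Ed d)} {V Y J K : Finset (Vx d)} (hd : Disjoint K J)
    (hK : K ⊆ V) (hJ : J ⊆ V) (hY : Disjoint K Y) :
    clS T V Y = J ↔ clS T (V \ K) Y = J ∧ Disjoint T (S04_E K J) := by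
  constructor
  · intro h
    have hcl : Disjoint T (S04_E K J) := by
      rw [Finset.disjoint_left]
      intro e he he'
      obtain ⟨u, v, rfl, hu, hv, hadj⟩ := S04_of_mem he'
      rw [← h] at hv
      have hu' : u ∈ clS T V Y := clS_closed hv (hK hu) hadj.symm (by rw [Sym2.eq_swap]; exact he)
      rw [h] at hu'
      exact Finset.disjoint_left.1 hd hu hu'
    refine ⟨?_, hcl⟩
    rw [← h]
    ext y
    rw [mem_clS, mem_clS]
    constructor
    · rintro ⟨b, hb, hcon⟩
      exact ⟨b, hb, hcon.mono (le_refl _) (by simp)⟩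
    · rintro ⟨b, hb, hbV, hcon⟩
      refine ⟨b, hb, ?_⟩
      have hbJ : b ∈ J := by
        rw [← h, mem_clS]
        exact ⟨b, hb, Conn.refl hbV⟩
      have hbK : b ∉ K := fun hbK => Finset.disjoint_left.1 hd hbK hbJ
      have hbV' : b ∈ V := by simpa using hbV
      have key : y ∈ J ∧ Conn T ((V \ K : Finset (Vx d)) : Set (Vx d)) b y := by
        induction hcon with
        | refl =>
          refine ⟨hbJ, Conn.refl ?_⟩
          rw [Finset.mem_coe, Finset.mem_sdiff]
          exact ⟨hbV', hbK⟩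
        | @tail u v _ hs ih =>
          have hvV : v ∈ V := by simpa using hs.1
          have hvJ : v ∈ J := by
            have hu := ih.1
            rw [← h] at hu ⊢
            exact clS_closed hu hvV hs.2.1 hs.2.2
          refine ⟨hvJ, ih.2.step ?_ hs.2.1 hs.2.2⟩
          rw [Finset.mem_coe, Finset.mem_sdiff]
          exact ⟨hvV, fun hvK => Finset.disjoint_left.1 hd hvK hvJ⟩
      exact key.2
  · rintro ⟨h, hcl⟩
    rw [← h]
    ext y
    rw [mem_clS, mem_clS]
    constructor
    · rintro ⟨b, hb, hbV, hcon⟩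
      refine ⟨b, hb, ?_⟩
      have hbK : b ∉ K := fun hbK => Finset.disjoint_left.1 hY hbK hb
      have hbV' : b ∈ V := by simpa using hbV
      induction hcon with
      | refl =>
        refine Conn.refl ?_
        rw [Finset.mem_coe, Finset.mem_sdiff]
        exact ⟨hbV', hbK⟩
      | @tail u v _ hs ih =>
        have hvV : v ∈ V := by simpa using hs.1
        have huJ : u ∈ J := by
          rw [← h, mem_clS]
          exact ⟨b, hb, ih⟩
        have hvK : v ∉ K := by
          intro hvK
          have := S04_mem hvK huJ hs.2.1.symm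
          rw [Sym2.eq_swap] at this
          exact Finset.disjoint_left.1 hcl hs.2.2 this
        refine ih.step ?_ hs.2.1 hs.2.2
        rw [Finset.mem_coe, Finset.mem_sdiff]
        exact ⟨hvV, hvK⟩
    · rintro ⟨b, hb, hcon⟩
      exact ⟨b, hb, hcon.mono (le_refl _) (by simp)⟩

theorem PP_clS_off (p : ℝ) {V Y J K : Finset (Vx d)} (hd : Disjoint K J) (hK : K ⊆ V)
    (hY : Disjoint K Y) : PP p (edges V) {T | clS T V Y = J} =
      PP p (edges (V \ K)) {T | clS T (V \ K) Y = J} * (1 - p) ^ cont K J := by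
  classical
  by_cases hJ : J ⊆ V
  · have hsub : edges (V \ K) ⊆ edges V := edges_mono Finset.sdiff_subset
    have hdep : Dep {T : Finset (Ed d) | clS T (V \ K) Y = J} (edges (V \ K)) := by
      intro T T' h
      have h1 := clS_inter_edges T (V \ K) Y
      have h2 := clS_inter_edges T' (V \ K) Y
      simp only [Set.mem_setOf_eq]
      rw [← h1, ← h2, h]
    have hdisj : Disjoint (edges (V \ K)) (S04_E K J) := by
      rw [Finset.disjoint_left]
      intro e he he'
      obtain ⟨u, v, rfl, hu, hv, hadj⟩ := S04_of_mem he'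
      exact (Finset.mem_sdiff.1 (mem_edges.1 he).1).2 hu
    have h1 := PP_inter p hsub (S04_sub hK hJ) hdisj hdep (S04_dep (E := S04_E K J))
    rw [PP_dep p hsub hdep, S04_closed p (S04_sub hK hJ), S04_card hd] at h1
    rw [← h1]
    apply PP_congr
    intro T _
    exact S04_clS_iff hd hK hJ hY
  · have h1 : {T : Finset (Ed d) | clS T V Y = J} = ∅ := by
      ext T
      simp only [Set.mem_setOf_eq, Set.mem_empty_iff_false, iff_false]
      rintro rfl
      exact hJ (clS_subset _ _ _)
    have h2 : {T : Finset (Ed d) | clS T (V \ K) Y = J} = ∅ := by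
      ext T
      simp only [Set.mem_setOf_eq, Set.mem_empty_iff_false, iff_false]
      rintro rfl
      exact hJ ((clS_subset _ _ _).trans Finset.sdiff_subset)
    rw [h1, h2, PP_empty, PP_empty, zero_mul]

/-- Decomposition according to the value of a function. -/
private theorem S04_split (p : ℝ) {α β : Type} [DecidableEq α] [DecidableEq β] (S : Finset α)
    (c : Finset α → β) (B : Finset β) (hc : ∀ T, c T ∈ B) (f : β → ℝ) :
    EE p S (fun T => f (c T)) = ∑ b ∈ B, PP p S {T | c T = b} * f b := by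
  classical
  have h1 : EE p S (fun T => f (c T)) =
      EE p S (fun T => ∑ b ∈ B, (if c T = b then (1 : ℝ) else 0) * f b) := by
    apply EE_congr
    intro T _
    rw [Finset.sum_eq_single (c T)]
    · simp
    · intro b _ hb
      rw [if_neg (Ne.symm hb), zero_mul]
    · intro h
      exact absurd (hc T) h
  rw [h1, EE_sum]
  refine Finset.sum_congr rfl fun b _ => ?_
  rw [EE_mul_const, PP_def]
  congr 1
  apply EE_congr
  intro T _
  simp only [Set.mem_setOf_eq]

theorem no_contact (p : ℝ) {V Y K : Finset (Vx d)} (hK : K ⊆ V) (hY : Disjoint K Y) :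
    PP p (edges V) {T | Disjoint K (clS T V Y)} =
      EE p (edges (V \ K)) fun T => (1 - p) ^ cont K (clS T (V \ K) Y) := by
  classical
  rw [S04_split p (edges (V \ K)) (fun T => clS T (V \ K) Y) (V \ K).powerset
    (fun T => Finset.mem_powerset.2 (clS_subset _ _ _)) (fun J => (1 - p) ^ cont K J)]
  have h1 : ∀ J ∈ (V \ K).powerset,
      PP p (edges (V \ K)) {T | clS T (V \ K) Y = J} * (1 - p) ^ cont K J =
      PP p (edges V) {T | clS T V Y = J} := by
    intro J hJ
    rw [Finset.mem_powerset] at hJ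
    refine (PP_clS_off p ?_ hK hY).symm
    rw [Finset.disjoint_right]
    exact fun x hx => (Finset.mem_sdiff.1 (hJ hx)).2
  rw [Finset.sum_congr rfl h1, ← PP_exists_eq]
  · apply PP_congr
    intro T _
    simp only [Set.mem_setOf_eq, Finset.mem_powerset]
    constructor
    · intro h
      refine ⟨_, ?_, rfl⟩
      intro x hx
      exact Finset.mem_sdiff.2 ⟨clS_subset _ _ _ hx, Finset.disjoint_right.1 h hx⟩
    · rintro ⟨J, hJ, h⟩
      rw [h, Finset.disjoint_right]
      exact fun x hx => (Finset.mem_sdiff.1 (hJ hx)).2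
  · intro T _ J _ J' _ hJ hJ'
    exact hJ.symm.trans hJ'

open Classical in
/-- The killing identity. -/
theorem killing {p1 p2 : ℝ} (h2 : p2 < 1) {V Y K : Finset (Vx d)} (hK : nbh K ⊆ V)
    (hY : Disjoint K Y) (h0 : (0 : Vx d) ∈ K) :
    ww p2 K * EE p1 (edges (V \ K)) (fun T => ((1 - p1) / (1 - p2)) ^ cont K (clS T (V \ K) Y)) =
      EE p1 (edges V) fun T => if Disjoint K (clS T V Y) then
        PP p2 (edges (V \ clS T V Y)) {T' | cl T' (V \ clS T V Y) 0 = K} else 0 := by
  have hKV : K ⊆ V := fun x hx => hK (mem_nbh.2 (Or.inl hx))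
  have hp2 : (1 - p2) ≠ 0 := by linarith
  rw [S04_split p1 (edges (V \ K)) (fun T => clS T (V \ K) Y) V.powerset
    (fun T => Finset.mem_powerset.2 ((clS_subset _ _ _).trans Finset.sdiff_subset))
    (fun J => ((1 - p1) / (1 - p2)) ^ cont K J),
    S04_split p1 (edges V) (fun T => clS T V Y) V.powerset
    (fun T => Finset.mem_powerset.2 (clS_subset _ _ _))
    (fun J => if Disjoint K J then PP p2 (edges (V \ J)) {T' | cl T' (V \ J) 0 = K} else 0),
    Finset.mul_sum]
  refine Finset.sum_congr rfl fun J hJ => ?_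
  rw [Finset.mem_powerset] at hJ
  by_cases hd : Disjoint K J
  · rw [if_pos hd, PP_clS_off p1 hd hKV hY, ← PP_cl_off p2 hd hJ hK h0, div_pow]
    field_simp
  · rw [if_neg hd, mul_zero]
    have : {T : Finset (Ed d) | clS T (V \ K) Y = J} = ∅ := by
      ext T
      simp only [Set.mem_setOf_eq, Set.mem_empty_iff_false, iff_false]
      rintro rfl
      apply hd
      rw [Finset.disjoint_right]
      exact fun x hx => (Finset.mem_sdiff.1 (clS_subset _ _ _ hx)).2
    rw [this, PP_empty, zero_mul, mul_zero]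

open Classical in
/-- The sum over the clusters of the right side of the killing identity. -/
theorem killing_sum {p1 p2 : ℝ} (h1 : 0 ≤ p1) (h1' : p1 ≤ 1) (h2 : 0 ≤ p2) (h2' : p2 ≤ 1)
    (V Y : Finset (Vx d)) (s : Finset (Finset (Vx d))) :
    ∑ K ∈ s, (EE p1 (edges V) fun T => if Disjoint K (clS T V Y) then
      PP p2 (edges (V \ clS T V Y)) {T' | cl T' (V \ clS T V Y) 0 = K} else 0) ≤ 1 := by
  rw [← EE_sum]
  have h3 : EE p1 (edges V) (fun _ => (1 : ℝ)) = 1 := EE_const _ _ _
  rw [← h3]
  apply EE_mono h1 h1'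
  intro T _
  calc ∑ K ∈ s, (if Disjoint K (clS T V Y) then
        PP p2 (edges (V \ clS T V Y)) {T' | cl T' (V \ clS T V Y) 0 = K} else 0)
      ≤ ∑ K ∈ s, PP p2 (edges (V \ clS T V Y)) {T' | cl T' (V \ clS T V Y) 0 = K} := by
        refine Finset.sum_le_sum fun K _ => ?_
        split_ifs
        · exact le_refl _
        · exact PP_nonneg h2 h2'
    _ = PP p2 (edges (V \ clS T V Y)) {T' | ∃ K ∈ s, T' ∈
          {T' : Finset (Ed d) | cl T' (V \ clS T V Y) 0 = K}} := by
        rw [PP_exists_eq]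
        intro T' _ K _ K' _ hK hK'
        exact hK.symm.trans hK'
    _ ≤ 1 := PP_le_one h2 h2'

/-- Jensen's inequality for negative powers. -/
theorem EE_jensen {α : Type} [DecidableEq α] {p : ℝ} (hp : 0 ≤ p) (hp1 : p ≤ 1) (S : Finset α)
    {X : Finset α → ℝ} (hX : ∀ T, 0 < X T) {s : ℝ} (hs : 0 ≤ s) :
    (EE p S X) ^ (-s) ≤ EE p S fun T => X T ^ (-s) := by
  obtain ⟨T0, -, hT0⟩ := Finset.exists_min_image S.powerset X ⟨∅, Finset.empty_mem_powerset S⟩
  have ha : 0 < EE p S X := by
    have : EE p S (fun _ => X T0) ≤ EE p S X :=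
      EE_mono hp hp1 fun T hT => hT0 T (Finset.mem_powerset.2 hT)
    rw [EE_const] at this
    exact lt_of_lt_of_le (hX T0) this
  set a := EE p S X with hadef
  have key : ∀ T, a ^ (-s) * (1 + s) - a ^ (-s) * s / a * X T ≤ X T ^ (-s) := by
    intro T
    have hy := hX T
    have hya : 0 < X T / a := div_pos hy ha
    have h1 : Real.log (X T / a) ≤ X T / a - 1 := Real.log_le_sub_one_of_pos hya
    have h2 : 1 + s - s * (X T / a) ≤ (X T / a) ^ (-s) := by
      rw [Real.rpow_def_of_pos hya]
      have := Real.add_one_le_exp (Real.log (X T / a) * -s)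
      nlinarith
    have h3 : X T ^ (-s) = a ^ (-s) * (X T / a) ^ (-s) := by
      rw [← Real.mul_rpow ha.le hya.le]
      congr 1
      field_simp
    have h4 : 0 < a ^ (-s) := Real.rpow_pos_of_pos ha _
    rw [h3]
    calc a ^ (-s) * (1 + s) - a ^ (-s) * s / a * X T
        = a ^ (-s) * (1 + s - s * (X T / a)) := by ring
      _ ≤ _ := mul_le_mul_of_nonneg_left h2 h4.le
  have h5 := EE_mono (S := S) hp hp1 fun T _ => key T
  rw [EE_sub, EE_const, EE_const_mul, ← hadef] at h5
  have h6 : a ^ (-s) * (1 + s) - a ^ (-s) * s / a * a = a ^ (-s) := by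
    field_simp
    ring
  rw [h6] at h5
  exact h5

end Pool.Agent.HD
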