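import Pool.Agent.Lib.MP_8ca597_hd.A03

/-!
# Row S07: a bound of the derivative for functions which explore few coordinates (A6.1)

`EE_selfdet`: sum over the value `R0` of `R T`; `{T | R T = R0}` depends only on `R0` (`SelfDet`), so
that the part `T ∩ R0` and the part `T \ R0` are independent. `score_bound`: with the score
`Z_F T = |T ∩ F| / p - |F \ T| / (1 - p)` (`EE p F Z_F = 0`, `EE p F Z_F ^ 2 = |F| / (p (1 - p))`), `EE_score`
gives `f' = EE (f Z_S)`, `Z_S = Z_{R T} + Z_{S \ R T}`; by `EE_selfdet` `EE (f Z_{S \ R}) = 0`,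
`EE (Z_R Z_{S \ R}) = 0`, `EE (Z_{S \ R}²) = EE |S \ R| / (p (1-p))`, so `EE (Z_R²) = EE |R| / (p (1-p))`;
Cauchy-Schwarz (`EE_cs`).
-/

set_option autoImplicit false

namespace Pool.Agent.HD

open Finset
open scoped ENNReal

section

variable {α : Type} [DecidableEq α] {p : ℝ} {S : Finset α}

/-- A random set of coordinates which is determined by the configuration on itself. -/
def SelfDet (R : Finset α → Finset α) : Prop := ∀ T T', T ∩ R T = T' ∩ R T → R T' = R T

private theorem S07_iff {R : Finset α → Finset α} (hR : SelfDet R) {R0 T1 T2 : Finset α}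
    (h1 : T1 ⊆ R0) (h2 : Disjoint T2 R0) : R (T1 ∪ T2) = R0 ↔ R T1 = R0 := by
  have e : (T1 ∪ T2) ∩ R0 = T1 := by
    rw [union_inter_distrib_right, inter_eq_left.2 h1, disjoint_iff_inter_eq_empty.1 h2,
      union_empty]
  have e' : T1 ∩ R0 = T1 := inter_eq_left.2 h1
  constructor
  · intro h
    have h3 := hR (T1 ∪ T2) T1 (by rw [h, e, e'])
    rw [h3, h]
  · intro h
    have h3 := hR T1 (T1 ∪ T2) (by rw [h, e, e'])
    rw [h3, h]

/-- Decomposition with respect to the value of `R`. -/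
private theorem S07_decomp (p : ℝ) {R : Finset α → Finset α} (hR : SelfDet R)
    (hS : ∀ T, R T ⊆ S) (g : Finset α → Finset α → Finset α → ℝ) :
    EE p S (fun T => g (R T) (T ∩ R T) (T \ R T)) = ∑ R0 ∈ S.powerset, EE p R0 fun T1 =>
      EE p (S \ R0) fun T2 => if R T1 = R0 then g R0 T1 T2 else 0 := by
  have h1 : EE p S (fun T => g (R T) (T ∩ R T) (T \ R T)) =
      EE p S (fun T => ∑ R0 ∈ S.powerset, if R T = R0 then g R0 (T ∩ R0) (T \ R0) else 0) := by
    apply EE_congr
    intro T _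
    rw [sum_ite_eq, if_pos (mem_powerset.2 (hS T))]
  rw [h1, EE_sum]
  refine sum_congr rfl fun R0 hR0 => ?_
  have hR0S : R0 ⊆ S := mem_powerset.1 hR0
  have h2 : EE p S (fun T => if R T = R0 then g R0 (T ∩ R0) (T \ R0) else 0) =
      EE p (R0 ∪ (S \ R0)) (fun T => if R T = R0 then g R0 (T ∩ R0) (T \ R0) else 0) := by
    rw [union_sdiff_of_subset hR0S]
  rw [h2, EE_union p disjoint_sdiff]
  apply EE_congr
  intro T1 hT1
  apply EE_congr
  intro T2 hT2
  have hd : Disjoint T2 R0 := by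
    rw [disjoint_left]
    intro x hx hx'
    exact (mem_sdiff.1 (hT2 hx)).2 hx'
  have e1 : (T1 ∪ T2) ∩ R0 = T1 := by
    rw [union_inter_distrib_right, inter_eq_left.2 hT1, disjoint_iff_inter_eq_empty.1 hd,
      union_empty]
  have e2 : (T1 ∪ T2) \ R0 = T2 := by
    rw [union_sdiff_distrib, sdiff_eq_empty_iff_subset.2 hT1, empty_union,
      sdiff_eq_self_of_disjoint hd]
  rw [e1, e2]
  by_cases h : R T1 = R0
  · rw [if_pos h, if_pos ((S07_iff hR hT1 hd).2 h)]
  · rw [if_neg h, if_neg (fun h' => h ((S07_iff hR hT1 hd).1 h'))]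

theorem EE_selfdet (p : ℝ) {R : Finset α → Finset α} (hR : SelfDet R) (hS : ∀ T, R T ⊆ S)
    (g : Finset α → Finset α → Finset α → ℝ) :
    EE p S (fun T => g (R T) (T ∩ R T) (T \ R T)) =
      EE p S fun T => EE p (S \ R T) fun U => g (R T) (T ∩ R T) U := by
  rw [S07_decomp p hR hS g, S07_decomp p hR hS (fun R0 A _ => EE p (S \ R0) fun U => g R0 A U)]
  refine sum_congr rfl fun R0 _ => ?_
  apply EE_congr
  intro T1 _
  by_cases h : R T1 = R0
  · simp only [if_pos h]
    rw [EE_const]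
  · simp only [if_neg h]

theorem EE_score_zero (hp : 0 < p) (hp1 : p < 1) (F : Finset α) :
    (EE p F fun T => (T.card : ℝ) / p - ((F \ T).card : ℝ) / (1 - p)) = 0 := by
  have h1 := EE_score F (fun _ => (1 : ℝ)) hp hp1
  have h2 : HasDerivAt (fun p => EE p F fun _ => (1 : ℝ)) 0 p := by
    have h3 : (fun p : ℝ => EE p F fun _ => (1 : ℝ)) = fun _ => 1 := by
      funext q
      exact EE_const q F 1
    rw [h3]
    exact hasDerivAt_const p 1
  have h4 := h1.unique h2
  simpa only [one_mul] using h4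

theorem EE_score_sq (hp : 0 < p) (hp1 : p < 1) (F : Finset α) :
    (EE p F fun T => ((T.card : ℝ) / p - ((F \ T).card : ℝ) / (1 - p)) ^ 2) =
      F.card / (p * (1 - p)) := by
  have h1 := EE_score F (fun T => (T.card : ℝ)) hp hp1
  have h2 := EE_deriv F (fun T => (T.card : ℝ)) p
  have h3 : (∑ e ∈ F, EE p F fun T => (((insert e T).card : ℝ)) - ((T.erase e).card : ℝ)) =
      F.card := by
    have h4 : ∀ e ∈ F, (EE p F fun T => (((insert e T).card : ℝ)) - ((T.erase e).card : ℝ)) =
        1 := by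
      intro e _
      rw [EE_congr (g := fun _ => (1 : ℝ)), EE_const]
      intro T _
      by_cases he : e ∈ T
      · rw [insert_eq_self.2 he]
        have h5 := card_erase_add_one he
        have h6 : (T.card : ℝ) = (T.erase e).card + 1 := by exact_mod_cast h5.symm
        linarith
      · rw [card_insert_of_notMem he, erase_eq_of_notMem he]
        push_cast
        ring
    rw [sum_congr rfl h4, sum_const, nsmul_eq_mul, mul_one]
  have h5 := h1.unique h2
  rw [h3] at h5
  have h6 := EE_score_zero hp hp1 F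
  have hp0 : p ≠ 0 := hp.ne'
  have hp0' : 1 - p ≠ 0 := by linarith
  have h7 : (EE p F fun T => ((T.card : ℝ) / p - ((F \ T).card : ℝ) / (1 - p)) ^ 2) =
      EE p F fun T => (1 / (p * (1 - p))) *
        ((T.card : ℝ) * ((T.card : ℝ) / p - ((F \ T).card : ℝ) / (1 - p))) -
        (F.card / (1 - p)) * ((T.card : ℝ) / p - ((F \ T).card : ℝ) / (1 - p)) := by
    apply EE_congr
    intro T hT
    have h8 : ((F \ T).card : ℝ) = F.card - T.card := by
      rw [card_sdiff_of_subset hT, Nat.cast_sub (card_le_card hT)]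
    rw [h8]
    field_simp
    ring
  rw [h7, EE_sub, EE_const_mul, EE_const_mul, h5, h6, mul_zero, sub_zero]
  ring

/-- The score. -/
private noncomputable def S07_Z (p : ℝ) (F T : Finset α) : ℝ :=
  (T.card : ℝ) / p - ((F \ T).card : ℝ) / (1 - p)

private theorem S07_split {R0 T : Finset α} (hR0 : R0 ⊆ S) (hT : T ⊆ S) :
    S07_Z p S T = S07_Z p R0 (T ∩ R0) + S07_Z p (S \ R0) (T \ R0) := by
  unfold S07_Z
  have h1 : (T.card : ℝ) = (T ∩ R0).card + (T \ R0).card := by
    exact_mod_cast (card_inter_add_card_sdiff T R0).symm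
  have h2 : ((S \ T).card : ℝ) = (R0 \ (T ∩ R0)).card + ((S \ R0) \ (T \ R0)).card := by
    have e1 : (S \ T) ∩ R0 = R0 \ (T ∩ R0) := by
      ext x
      simp only [mem_inter, mem_sdiff]
      constructor
      · rintro ⟨⟨-, h3⟩, h4⟩
        exact ⟨h4, fun h5 => h3 h5.1⟩
      · rintro ⟨h3, h4⟩
        exact ⟨⟨hR0 h3, fun h5 => h4 ⟨h5, h3⟩⟩, h3⟩
    have e2 : (S \ T) \ R0 = (S \ R0) \ (T \ R0) := by
      ext x
      simp only [mem_sdiff]
      constructor
      · rintro ⟨⟨h3, h4⟩, h5⟩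
        exact ⟨⟨h3, h5⟩, fun h6 => h4 h6.1⟩
      · rintro ⟨⟨h3, h4⟩, h5⟩
        exact ⟨⟨h3, fun h6 => h5 ⟨h6, h4⟩⟩, h4⟩
    rw [← e1, ← e2]
    exact_mod_cast (card_inter_add_card_sdiff (S \ T) R0).symm
  rw [h1, h2]
  ring

theorem score_bound {R : Finset α → Finset α} (hR : SelfDet R) (hS : ∀ T, R T ⊆ S)
    {f : Finset α → ℝ} (hf : ∀ T T', T ∩ R T = T' ∩ R T → f T' = f T) (hp : 0 < p)
    (hp1 : p < 1) : ∃ f' : ℝ, HasDerivAt (fun p => EE p S f) f' p ∧
      f' ^ 2 ≤ EE p S (fun T => f T ^ 2) * (EE p S (fun T => ((R T).card : ℝ)) / (p * (1 - p))) := by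
  have hZ0 : ∀ F : Finset α, EE p F (S07_Z p F) = 0 := fun F => EE_score_zero hp hp1 F
  have hZ2 : ∀ F : Finset α, EE p F (fun T => S07_Z p F T ^ 2) = F.card / (p * (1 - p)) :=
    fun F => EE_score_sq hp hp1 F
  have hf' : ∀ T, f T = f (T ∩ R T) := by
    intro T
    refine (hf T (T ∩ R T) ?_).symm
    rw [inter_assoc, inter_self]
  refine ⟨_, EE_score S f hp hp1, ?_⟩
  -- the product with the outer score
  have h1 : EE p S (fun T => f T * S07_Z p (S \ R T) (T \ R T)) = 0 := by
    have h2 := EE_selfdet p hR hS (fun R0 A U => f A * S07_Z p (S \ R0) U)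
    have h3 : EE p S (fun T => f T * S07_Z p (S \ R T) (T \ R T)) =
        EE p S (fun T => f (T ∩ R T) * S07_Z p (S \ R T) (T \ R T)) := by
      apply EE_congr
      intro T _
      rw [← hf' T]
    rw [h3]
    refine h2.trans ?_
    rw [EE_congr (g := fun _ => (0 : ℝ)), EE_const]
    intro T _
    show (EE p (S \ R T) fun U => f (T ∩ R T) * S07_Z p (S \ R T) U) = 0
    rw [EE_const_mul]
    have h4 : (EE p (S \ R T) fun U => S07_Z p (S \ R T) U) = 0 := hZ0 (S \ R T)
    rw [h4, mul_zero]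
  have h2 : EE p S (fun T => S07_Z p (R T) (T ∩ R T) * S07_Z p (S \ R T) (T \ R T)) = 0 := by
    have h2 := EE_selfdet p hR hS (fun R0 A U => S07_Z p R0 A * S07_Z p (S \ R0) U)
    refine h2.trans ?_
    rw [EE_congr (g := fun _ => (0 : ℝ)), EE_const]
    intro T _
    show (EE p (S \ R T) fun U => S07_Z p (R T) (T ∩ R T) * S07_Z p (S \ R T) U) = 0
    rw [EE_const_mul]
    have h4 : (EE p (S \ R T) fun U => S07_Z p (S \ R T) U) = 0 := hZ0 (S \ R T)
    rw [h4, mul_zero]
  have h3 : EE p S (fun T => S07_Z p (S \ R T) (T \ R T) ^ 2) =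
      EE p S (fun T => (((S \ R T).card : ℝ)) / (p * (1 - p))) := by
    have h2 := EE_selfdet p hR hS (fun R0 _ U => S07_Z p (S \ R0) U ^ 2)
    refine h2.trans ?_
    apply EE_congr
    intro T _
    exact hZ2 (S \ R T)
  have h4 : EE p S (fun T => S07_Z p (R T) (T ∩ R T) ^ 2) =
      EE p S (fun T => ((R T).card : ℝ)) / (p * (1 - p)) := by
    have h5 : EE p S (fun T => S07_Z p S T ^ 2) =
        EE p S (fun T => S07_Z p (R T) (T ∩ R T) ^ 2) +
        (2 * EE p S (fun T => S07_Z p (R T) (T ∩ R T) * S07_Z p (S \ R T) (T \ R T)) +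
        EE p S (fun T => S07_Z p (S \ R T) (T \ R T) ^ 2)) := by
      rw [← EE_const_mul, ← EE_add, ← EE_add]
      apply EE_congr
      intro T hT
      rw [S07_split (p := p) (hS T) hT]
      ring
    have h6 : EE p S (fun T => (((S \ R T).card : ℝ)) / (p * (1 - p))) =
        ((S.card : ℝ) - EE p S (fun T => ((R T).card : ℝ))) / (p * (1 - p)) := by
      have h7 : EE p S (fun T => (((S \ R T).card : ℝ)) / (p * (1 - p))) =
          EE p S (fun T => ((S.card : ℝ) - ((R T).card : ℝ)) * (1 / (p * (1 - p)))) := by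
        apply EE_congr
        intro T _
        rw [card_sdiff_of_subset (hS T), Nat.cast_sub (card_le_card (hS T))]
        ring
      rw [h7, EE_mul_const, EE_sub, EE_const]
      ring
    rw [hZ2 S, h2, h3, h6, mul_zero, zero_add] at h5
    have h8 : EE p S (fun T => S07_Z p (R T) (T ∩ R T) ^ 2) = (S.card : ℝ) / (p * (1 - p)) -
        ((S.card : ℝ) - EE p S (fun T => ((R T).card : ℝ))) / (p * (1 - p)) := by linarith
    rw [h8]
    ring
  have h5 : (EE p S fun T => f T * ((T.card : ℝ) / p - ((S \ T).card : ℝ) / (1 - p))) =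
      EE p S fun T => f T * S07_Z p (R T) (T ∩ R T) := by
    have h6 : (EE p S fun T => f T * ((T.card : ℝ) / p - ((S \ T).card : ℝ) / (1 - p))) =
        EE p S (fun T => f T * S07_Z p (R T) (T ∩ R T)) +
        EE p S (fun T => f T * S07_Z p (S \ R T) (T \ R T)) := by
      rw [← EE_add]
      apply EE_congr
      intro T hT
      have h7 := S07_split (p := p) (hS T) hT
      unfold S07_Z at h7 ⊢
      rw [h7]
      ring
    rw [h6, h1, add_zero]
  rw [h5, ← h4]
  exact EE_cs hp.le hp1.le f fun T => S07_Z p (R T) (T ∩ R T)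

end

end Pool.Agent.HD
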