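import Pool.Agent.Lib.MP_8ca597_hd.S07
import Pool.Agent.Lib.MP_8ca597_hd.S08

/-!
# Row S09: intrinsic balls, growth of the truncated volume with `p` (A6.1)

`ballT T V a k` is the set of the vertices at distance at most `k` from `a` in the graph of the open
edges of `V`. `RR T` is the set of the edges which touch the largest ball with fewer than `n`
vertices; it has at most `2 d (|C| ∧ n)` elements, it is self-determined, and it determines
`|C| ∧ n`.
-/

set_option autoImplicit false

namespace Pool.Agent.HD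

open Finset
open scoped ENNReal

variable {d : ℕ} {p : ℝ}

open Classical in
/-- The ball of radius `k` around `a` in the graph of the open edges of `V`. -/
noncomputable def ballT (T : Finset (Ed d)) (V : Finset (Vx d)) (a : Vx d) : ℕ → Finset (Vx d)
  | 0 => V.filter (· = a)
  | k + 1 => ballT T V a k ∪ V.filter fun y => ∃ x ∈ ballT T V a k, Adj x y ∧ s(x, y) ∈ T

theorem S09_mem_zero {T : Finset (Ed d)} {V : Finset (Vx d)} {a y : Vx d} :
    y ∈ ballT T V a 0 ↔ y ∈ V ∧ y = a := by
  classical
  show y ∈ V.filter (· = a) ↔ _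
  rw [Finset.mem_filter]

theorem S09_mem_succ {T : Finset (Ed d)} {V : Finset (Vx d)} {a y : Vx d} {k : ℕ} :
    y ∈ ballT T V a (k + 1) ↔ y ∈ ballT T V a k ∨
      (y ∈ V ∧ ∃ x ∈ ballT T V a k, Adj x y ∧ s(x, y) ∈ T) := by
  classical
  show y ∈ ballT T V a k ∪ V.filter (fun y => ∃ x ∈ ballT T V a k, Adj x y ∧ s(x, y) ∈ T) ↔ _
  rw [Finset.mem_union, Finset.mem_filter]

theorem ballT_mono (T : Finset (Ed d)) (V : Finset (Vx d)) (a : Vx d) {k l : ℕ} (h : k ≤ l) :
    ballT T V a k ⊆ ballT T V a l := by
  induction l, h using Nat.le_induction with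
  | base => exact Finset.Subset.refl _
  | succ l _ ih => exact ih.trans fun y hy => S09_mem_succ.2 (Or.inl hy)

theorem ballT_subset_cl (T : Finset (Ed d)) (V : Finset (Vx d)) (a : Vx d) (k : ℕ) :
    ballT T V a k ⊆ cl T V a := by
  induction k with
  | zero =>
    intro y hy
    obtain ⟨h1, h2⟩ := S09_mem_zero.1 hy
    rw [h2] at h1 ⊢
    exact self_mem_cl h1
  | succ k ih =>
    intro y hy
    rcases S09_mem_succ.1 hy with h | ⟨hV, x, hx, ha, he⟩
    · exact ih h
    · exact cl_closed (ih hx) hV ha he

/-- If two successive balls are equal then the ball is the cluster. -/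
theorem ballT_eq_cl {T : Finset (Ed d)} {V : Finset (Vx d)} {a : Vx d} {k : ℕ}
    (h : ballT T V a (k + 1) = ballT T V a k) : ballT T V a k = cl T V a := by
  refine Finset.Subset.antisymm (ballT_subset_cl T V a k) fun y hy => ?_
  obtain ⟨h1, h2⟩ := mem_cl.1 hy
  induction h2 with
  | refl => exact ballT_mono T V a (Nat.zero_le k) (S09_mem_zero.2 ⟨Finset.mem_coe.1 h1, rfl⟩)
  | @tail b c hb hc ih =>
    have hb2 : b ∈ ballT T V a k := ih (mem_cl.2 ⟨h1, hb⟩)
    rw [← h]
    exact S09_mem_succ.2 (Or.inr ⟨Finset.mem_coe.1 hc.1, b, hb2, hc.2.1, hc.2.2⟩)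

theorem ballT_card (T : Finset (Ed d)) (V : Finset (Vx d)) (a : Vx d) :
    ballT T V a V.card = cl T V a := by
  by_cases ha : a ∈ V
  · have key : ∀ k, ballT T V a k = cl T V a ∨ k + 1 ≤ (ballT T V a k).card := by
      intro k
      induction k with
      | zero =>
        right
        exact Finset.card_pos.2 ⟨a, S09_mem_zero.2 ⟨ha, rfl⟩⟩
      | succ k ih =>
        rcases ih with h | h
        · left
          exact Finset.Subset.antisymm (ballT_subset_cl T V a _)
            (h ▸ ballT_mono T V a (Nat.le_succ k))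
        · by_cases he : ballT T V a (k + 1) = ballT T V a k
          · left
            rw [he]
            exact ballT_eq_cl he
          · right
            have h3 : ballT T V a k ⊂ ballT T V a (k + 1) :=
              (ballT_mono T V a (Nat.le_succ k)).ssubset_of_ne fun h' => he h'.symm
            have h4 := Finset.card_lt_card h3
            omega
    rcases key V.card with h | h
    · exact h
    · have h5 := Finset.card_le_card ((ballT_subset_cl T V a V.card).trans (cl_subset T V a))
      omega
  · have h1 : cl T V a = ∅ := by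
      refine Finset.eq_empty_of_forall_notMem fun y hy => ha ?_
      exact Finset.mem_coe.1 (mem_cl.1 hy).1
    have h2 := ballT_subset_cl T V a V.card
    rw [h1] at h2 ⊢
    exact Finset.subset_empty.1 h2

theorem S09_ball_sub (T : Finset (Ed d)) (V : Finset (Vx d)) (a : Vx d) (k : ℕ) :
    ballT T V a k ⊆ V := (ballT_subset_cl T V a k).trans (cl_subset T V a)

/-- The ball of radius `k + 1` depends only on the edges which touch the ball of radius `k`. -/
theorem ballT_congr {T T' : Finset (Ed d)} {V : Finset (Vx d)} {a : Vx d} {k : ℕ}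
    (h : T ∩ touch V (ballT T V a k) = T' ∩ touch V (ballT T V a k)) :
    ∀ i ≤ k + 1, ballT T' V a i = ballT T V a i := by
  intro i
  induction i with
  | zero =>
    intro _
    ext y
    rw [S09_mem_zero, S09_mem_zero]
  | succ i ih =>
    intro hi
    have h1 := ih (by omega)
    ext y
    rw [S09_mem_succ, S09_mem_succ, h1]
    refine or_congr_right (and_congr_right fun hy => exists_congr fun x =>
      and_congr_right fun hx => and_congr_right fun hxy => ?_)
    have h2 : s(x, y) ∈ touch V (ballT T V a k) :=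
      mem_touch.2 ⟨⟨S09_ball_sub T V a i hx, hy, hxy⟩,
        Or.inl (ballT_mono T V a (by omega) hx)⟩
    constructor
    · intro h3
      have h4 : s(x, y) ∈ T' ∩ touch V (ballT T V a k) := Finset.mem_inter.2 ⟨h3, h2⟩
      rw [← h] at h4
      exact (Finset.mem_inter.1 h4).1
    · intro h3
      have h4 : s(x, y) ∈ T ∩ touch V (ballT T V a k) := Finset.mem_inter.2 ⟨h3, h2⟩
      rw [h] at h4
      exact (Finset.mem_inter.1 h4).1

open Classical in
/-- The edges which touch the largest ball with fewer than `n` vertices. -/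
noncomputable def RR (V : Finset (Vx d)) (a : Vx d) (n : ℕ) (T : Finset (Ed d)) : Finset (Ed d) :=
  touch V (((range (V.card + 1)).filter fun k => (ballT T V a k).card < n).biUnion
    fun k => ballT T V a k)

/-- The index set of the small balls is empty or an initial segment. -/
theorem S09_cases (V : Finset (Vx d)) (a : Vx d) (n : ℕ) (T : Finset (Ed d)) :
    (RR V a n T = ∅ ∧ n ≤ (ballT T V a 0).card) ∨
    ∃ k ≤ V.card, RR V a n T = touch V (ballT T V a k) ∧ (ballT T V a k).card < n ∧
      (k = V.card ∨ n ≤ (ballT T V a (k + 1)).card) := by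
  classical
  by_cases h0 : n ≤ (ballT T V a 0).card
  · left
    refine ⟨?_, h0⟩
    have h1 : (range (V.card + 1)).filter (fun k => (ballT T V a k).card < n) = ∅ := by
      refine Finset.filter_eq_empty_iff.2 fun k _ => ?_
      have h2 := Finset.card_le_card (ballT_mono T V a (Nat.zero_le k))
      omega
    unfold RR
    rw [h1, Finset.biUnion_empty]
    refine Finset.eq_empty_of_forall_notMem fun e => ?_
    induction e using Sym2.ind with
    | _ x y =>
      rw [mem_touch]
      rintro ⟨_, h | h⟩ <;> simp at h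
  · right
    set F := (range (V.card + 1)).filter (fun k => (ballT T V a k).card < n) with hF
    have h0F : 0 ∈ F := by
      rw [hF, Finset.mem_filter, Finset.mem_range]
      exact ⟨by omega, by omega⟩
    have hne : F.Nonempty := ⟨0, h0F⟩
    have hmem := F.max'_mem hne
    have hmax : ∀ k ∈ F, k ≤ F.max' hne := fun k hk => F.le_max' k hk
    generalize F.max' hne = k at hmem hmax
    rw [hF, Finset.mem_filter, Finset.mem_range] at hmem
    have hk : k ≤ V.card := by omega
    refine ⟨k, hk, ?_, hmem.2, ?_⟩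
    · unfold RR
      congr 1
      rw [← hF]
      refine Finset.Subset.antisymm ?_ ?_
      · refine Finset.biUnion_subset.2 fun i hi => ballT_mono T V a (hmax i hi)
      · exact Finset.subset_biUnion_of_mem (fun k => ballT T V a k)
          (by rw [hF, Finset.mem_filter, Finset.mem_range]; exact hmem)
    · by_cases hk2 : k = V.card
      · exact Or.inl hk2
      · right
        by_contra hlt
        have h3 : k + 1 ∈ F := by
          rw [hF, Finset.mem_filter, Finset.mem_range]
          exact ⟨by omega, by omega⟩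
        have h4 := hmax _ h3
        omega

theorem S09_zero_eq (T T' : Finset (Ed d)) (V : Finset (Vx d)) (a : Vx d) :
    ballT T' V a 0 = ballT T V a 0 := by
  ext y
  rw [S09_mem_zero, S09_mem_zero]

/-- The index set of the small balls determines `RR`. -/
theorem S09_RR_eq {V : Finset (Vx d)} {a : Vx d} {n k : ℕ} {T T' : Finset (Ed d)}
    (hk : k ≤ V.card) (hc : (ballT T V a k).card < n)
    (hk2 : k = V.card ∨ n ≤ (ballT T V a (k + 1)).card)
    (h : ∀ i ≤ k + 1, ballT T' V a i = ballT T V a i) : RR V a n T' = touch V (ballT T V a k) := by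
  classical
  unfold RR
  congr 1
  refine Finset.Subset.antisymm ?_ ?_
  · refine Finset.biUnion_subset.2 fun i hi => ?_
    rw [Finset.mem_filter, Finset.mem_range] at hi
    have hik : i ≤ k := by
      rcases hk2 with h2 | h2
      · omega
      · by_contra hlt
        have h3 := Finset.card_le_card (ballT_mono T' V a (show k + 1 ≤ i by omega))
        rw [h (k + 1) le_rfl] at h3
        omega
    rw [h i (by omega)]
    exact ballT_mono T V a hik
  · have hm : k ∈ (range (V.card + 1)).filter (fun k => (ballT T' V a k).card < n) := by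
      rw [Finset.mem_filter, Finset.mem_range, h k (by omega)]
      exact ⟨by omega, hc⟩
    have h3 := Finset.subset_biUnion_of_mem (fun k => ballT T' V a k) hm
    intro y hy
    refine h3 ?_
    show y ∈ ballT T' V a k
    rw [h k (by omega)]
    exact hy

theorem RR_selfDet (V : Finset (Vx d)) (a : Vx d) (n : ℕ) : SelfDet (RR V a n) := by
  intro T T' h
  rcases S09_cases V a n T with ⟨h1, h2⟩ | ⟨k, hk, h1, h2, h3⟩
  · rcases S09_cases V a n T' with ⟨h1', _⟩ | ⟨k, _, _, h2', _⟩
    · rw [h1, h1']
    · have h4 := Finset.card_le_card (ballT_mono T' V a (Nat.zero_le k))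
      rw [S09_zero_eq T T' V a] at h4
      omega
  · rw [h1] at h
    rw [S09_RR_eq hk h2 h3 (ballT_congr h), h1]

theorem RR_det (V : Finset (Vx d)) (a : Vx d) (n : ℕ) (T T' : Finset (Ed d))
    (h : T ∩ RR V a n T = T' ∩ RR V a n T) :
    min (cl T' V a).card n = min (cl T V a).card n := by
  rcases S09_cases V a n T with ⟨h1, h2⟩ | ⟨k, hk, h1, h2, h3⟩
  · have h4 := Finset.card_le_card (ballT_subset_cl T V a 0)
    have h5 := Finset.card_le_card (ballT_subset_cl T' V a 0)
    rw [S09_zero_eq T T' V a] at h5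
    omega
  · rw [h1] at h
    have hb := ballT_congr h
    rcases h3 with h3 | h3
    · rw [← ballT_card T V a, ← ballT_card T' V a, hb V.card (by omega)]
    · have h4 := Finset.card_le_card (ballT_subset_cl T V a (k + 1))
      have h5 := Finset.card_le_card (ballT_subset_cl T' V a (k + 1))
      rw [hb (k + 1) le_rfl] at h5
      omega

theorem S09_touch_card (V K : Finset (Vx d)) : (touch V K).card ≤ 2 * d * K.card := by
  classical
  have h1 : touch V K ⊆ K.biUnion fun x => (nbr x).image fun y => s(x, y) := by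
    intro e
    induction e using Sym2.ind with
    | _ x y =>
      rw [mem_touch]
      rintro ⟨⟨_, _, ha⟩, hx | hy⟩
      · exact Finset.mem_biUnion.2 ⟨x, hx, Finset.mem_image.2 ⟨y, mem_nbr.2 ha, rfl⟩⟩
      · exact Finset.mem_biUnion.2 ⟨y, hy, Finset.mem_image.2 ⟨x, mem_nbr.2 ha.symm,
          Sym2.eq_swap⟩⟩
  refine (Finset.card_le_card h1).trans ((Finset.card_biUnion_le_card_mul _ _ (2 * d)
    fun x _ => ?_).trans (by rw [mul_comm]))
  exact Finset.card_image_le.trans (card_nbr x).le

theorem RR_card (V : Finset (Vx d)) (a : Vx d) (n : ℕ) (T : Finset (Ed d)) :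
    (RR V a n T).card ≤ 2 * d * min (cl T V a).card n := by
  rcases S09_cases V a n T with ⟨h1, _⟩ | ⟨k, _, h1, h2, _⟩
  · rw [h1, Finset.card_empty]
    exact Nat.zero_le _
  · rw [h1]
    refine (S09_touch_card V _).trans (Nat.mul_le_mul_left _ ?_)
    have h4 := Finset.card_le_card (ballT_subset_cl T V a k)
    omega

theorem vv_deriv (hp : 0 < p) (hp1 : p < 1) (n : ℕ) :
    ∃ f' : ℝ, HasDerivAt (fun p => vv d p n) f' p ∧
      f' ^ 2 ≤ 2 * d * n / (p * (1 - p)) * vv d p n ^ 2 := by
  set f : Finset (Ed d) → ℝ := fun T => ((min (cl T (Bx d n) 0).card n : ℕ) : ℝ) with hf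
  have hpp : 0 < p * (1 - p) := mul_pos hp (by linarith)
  obtain ⟨f', h1, h2⟩ := score_bound (S := edges (Bx d n)) (RR_selfDet (Bx d n) (0 : Vx d) n)
    (fun T => touch_subset _ _) (f := f)
    (fun T T' h => by
      simp only [hf]
      rw [RR_det (Bx d n) 0 n T T' h]) hp hp1
  refine ⟨f', h1, h2.trans ?_⟩
  have e1 : EE p (edges (Bx d n)) (fun T => f T ^ 2) ≤ n * vv d p n := by
    have h3 : EE p (edges (Bx d n)) (fun T => f T ^ 2) ≤
        EE p (edges (Bx d n)) (fun T => n * f T) := by
      refine EE_mono hp.le hp1.le fun T _ => ?_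
      have h4 : (0 : ℝ) ≤ f T := Nat.cast_nonneg _
      have h5 : f T ≤ n := Nat.cast_le.2 (min_le_right _ _)
      rw [pow_two]
      exact mul_le_mul_of_nonneg_right h5 h4
    rw [EE_const_mul] at h3
    exact h3
  have e2 : EE p (edges (Bx d n)) (fun T => ((RR (Bx d n) (0 : Vx d) n T).card : ℝ)) ≤
      2 * d * vv d p n := by
    have h3 : EE p (edges (Bx d n)) (fun T => ((RR (Bx d n) (0 : Vx d) n T).card : ℝ)) ≤
        EE p (edges (Bx d n)) (fun T => 2 * d * f T) := by
      refine EE_mono hp.le hp1.le fun T _ => ?_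
      have h4 := RR_card (Bx d n) (0 : Vx d) n T
      have h5 : ((RR (Bx d n) (0 : Vx d) n T).card : ℝ) ≤
          ((2 * d * min (cl T (Bx d n) 0).card n : ℕ) : ℝ) := Nat.cast_le.2 h4
      refine h5.trans (le_of_eq ?_)
      simp only [hf]
      push_cast
      ring
    rw [EE_const_mul] at h3
    exact h3
  have e0 : 0 ≤ vv d p n := EE_nonneg hp.le hp1.le fun T _ => Nat.cast_nonneg _
  have e3 : 0 ≤ EE p (edges (Bx d n)) (fun T => f T ^ 2) :=
    EE_nonneg hp.le hp1.le fun T _ => sq_nonneg _
  calc EE p (edges (Bx d n)) (fun T => f T ^ 2) *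
        (EE p (edges (Bx d n)) (fun T => ((RR (Bx d n) (0 : Vx d) n T).card : ℝ)) /
          (p * (1 - p)))
      ≤ (n * vv d p n) * (2 * d * vv d p n / (p * (1 - p))) := by
        refine mul_le_mul e1 (div_le_div_of_nonneg_right e2 hpp.le) ?_ (by positivity)
        exact div_nonneg (EE_nonneg hp.le hp1.le fun T _ => Nat.cast_nonneg _) hpp.le
    _ = 2 * d * n / (p * (1 - p)) * vv d p n ^ 2 := by
        field_simp

theorem vv_growth {p1 p' : ℝ} (h1 : 0 < p1) (hp : p1 ≤ p) (hpp : p ≤ p') (hp' : p' ≤ 1 / 2)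
    (n : ℕ) : vv d p' n ≤ vv d p n * Real.exp (√(4 * d * n / p1) * (p' - p)) := by
  set c := √(4 * d * n / p1) with hc
  have hder : ∀ q ∈ Set.Icc p p', ∃ f' : ℝ, HasDerivAt (fun p => vv d p n) f' q ∧
      f' ≤ c * vv d q n := by
    intro q hq
    have hq0 : 0 < q := by linarith [hq.1]
    have hq1 : q ≤ 1 / 2 := hq.2.trans hp'
    obtain ⟨f', h2, h3⟩ := vv_deriv (d := d) hq0 (by linarith) n
    refine ⟨f', h2, ?_⟩
    have e0 : 0 ≤ vv d q n := EE_nonneg hq0.le (by linarith) fun T _ => Nat.cast_nonneg _
    have hpos : 0 < q * (1 - q) := mul_pos hq0 (by linarith)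
    have h4 : 2 * (d : ℝ) * n / (q * (1 - q)) ≤ 4 * d * n / p1 := by
      rw [div_le_div_iff₀ hpos h1]
      have h5 : p1 ≤ 2 * (q * (1 - q)) := by nlinarith [hq.1]
      have h6 : (0 : ℝ) ≤ 2 * d * n := by positivity
      nlinarith [mul_le_mul_of_nonneg_left h5 h6]
    have h7 : f' ^ 2 ≤ (c * vv d q n) ^ 2 := by
      rw [mul_pow, hc, Real.sq_sqrt (by positivity)]
      exact h3.trans (mul_le_mul_of_nonneg_right h4 (sq_nonneg _))
    exact (le_abs_self f').trans (abs_le_of_sq_le_sq h7 (mul_nonneg (Real.sqrt_nonneg _) e0))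
  have hder2 : ∀ q ∈ Set.Icc p p', ∃ g' : ℝ,
      HasDerivAt (fun q => vv d q n * Real.exp (-(c * q))) g' q ∧ g' ≤ 0 := by
    intro q hq
    obtain ⟨f', h2, h3⟩ := hder q hq
    have h4 : HasDerivAt (fun q => Real.exp (-(c * q))) (Real.exp (-(c * q)) * (-(c * 1))) q :=
      ((hasDerivAt_id q).const_mul c).neg.exp
    refine ⟨_, h2.mul h4, ?_⟩
    have h5 : 0 < Real.exp (-(c * q)) := Real.exp_pos _
    nlinarith [mul_le_mul_of_nonneg_right h3 h5.le]
  have hanti : AntitoneOn (fun q => vv d q n * Real.exp (-(c * q))) (Set.Icc p p') := by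
    refine antitoneOn_of_deriv_nonpos (convex_Icc p p') ?_ ?_ ?_
    · intro q hq
      obtain ⟨g', h2, _⟩ := hder2 q hq
      exact h2.continuousAt.continuousWithinAt
    · intro q hq
      obtain ⟨g', h2, _⟩ := hder2 q (interior_subset hq)
      exact h2.differentiableAt.differentiableWithinAt
    · intro q hq
      obtain ⟨g', h2, h3⟩ := hder2 q (interior_subset hq)
      rw [h2.deriv]
      exact h3
  have h6 := hanti (Set.left_mem_Icc.2 hpp) (Set.right_mem_Icc.2 hpp) hpp
  simp only at h6
  have h7 : vv d p' n = vv d p' n * Real.exp (-(c * p')) * Real.exp (c * p') := by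
    rw [mul_assoc, ← Real.exp_add, neg_add_cancel, Real.exp_zero, mul_one]
  rw [h7]
  refine (mul_le_mul_of_nonneg_right h6 (Real.exp_pos _).le).trans (le_of_eq ?_)
  rw [mul_assoc, ← Real.exp_add]
  congr 2
  ring

end Pool.Agent.HD
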