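import Pool.Agent.Lib.MP_8ca597_hd.S11
import Pool.Agent.Lib.MP_8ca597_hd.S10
import Pool.Agent.Lib.MP_8ca597_hd.A14
import Pool.Agent.Lib.MP_8ca597_hd.B01

/-!
# Row S14: the near kernel (A8)

The scale: `ρ ^ 50 ≤ 1 / ε ≤ (2 ρ) ^ 50`. `sum_tauI_le`: for a finite `V ⊆ S` let
`Y = max_{a ∈ V} ∑_{x ∈ V} tau p V a x`; `SL2` (`r = ε / (1 - p0) ≤ 2 ε`) gives `Y ≤ X + 2 d r X Y`, so `Y ≤ 2 X` if
`2 d r X ≤ 1/2`; then the supremum over `V`. `near_sum`: `tauI pc S a x ≤ tt (x - a)` and the sum over the `x` with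
`nm (pj h (x - a)) ≤ 4 ρ` is at most `C (4 ρ) ^ 10` (`vol_tt`). The error function is
`E x = r ∑' q, tauI pc S a q.1 * tauI p S q.2 x` (`SL2I`), with sum at most `r 2 d X (2 X) ≤ ρ ^ (-25)`. `cv_near`: by
induction on `j`, `sup cv (cpw f i) (cv (cpw g j) H) ≤ 2 ^ j A` when `g ≤ f + E`, `∑ E ≤ 1` and
`cv (cpw f i) H ≤ A` for all `i ≤ N`, `i + j ≤ N`. `Dk_conv`: `f = tt pc`, `g = Dk`, `H = bI` or `H = dl`.
-/

set_option autoImplicit false

namespace Pool.Agent.HD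

open Finset
open scoped ENNReal

/-- The relation of the scale `ρ` and of `ε`. -/
structure Scale (ρ : ℕ) (ε : ℝ) : Prop where
  pos : 0 < ε
  rho : 1 ≤ ρ
  le : ε * (ρ : ℝ) ^ 50 ≤ 1
  ge : 1 ≤ ε * (2 * ρ : ℝ) ^ 50

theorem exists_scale {ε : ℝ} (h : 0 < ε) (h1 : ε ≤ 1) : ∃ ρ : ℕ, Scale ρ ε := by
  have hex : ∃ n : ℕ, 1 < ε * ((n : ℝ) + 1) ^ 50 := by
    obtain ⟨n, hn⟩ := exists_nat_gt (1 / ε)
    refine ⟨n, ?_⟩
    rw [div_lt_iff₀ h] at hn
    have h2 : (n : ℝ) ≤ ((n : ℝ) + 1) ^ 50 := by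
      have h3 : (n : ℝ) + 1 ≤ ((n : ℝ) + 1) ^ 50 := by
        apply le_self_pow₀ _ (by norm_num)
        have : (0 : ℝ) ≤ n := Nat.cast_nonneg n
        linarith
      linarith
    nlinarith
  classical
  have h3 := Nat.find_spec hex
  have h4 : Nat.find hex ≠ 0 := by
    intro h5
    rw [h5] at h3
    norm_num at h3
    linarith
  have h6 := Nat.find_min hex (Nat.sub_lt (Nat.pos_of_ne_zero h4) one_pos)
  obtain ⟨n, hn⟩ : ∃ n, n = Nat.find hex := ⟨_, rfl⟩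
  rw [← hn] at h3 h4 h6
  have h7 : 1 ≤ n := Nat.one_le_iff_ne_zero.mpr h4
  rw [Nat.cast_sub h7, Nat.cast_one, sub_add_cancel] at h6
  push Not at h6
  refine ⟨n, h, h7, h6, h3.le.trans ?_⟩
  have h8 : (1 : ℝ) ≤ n := by exact_mod_cast h7
  apply mul_le_mul_of_nonneg_left _ h.le
  apply pow_le_pow_left₀ (by linarith)
  linarith

/-- The scale is large if `ε` is small. -/
theorem scale_large (ρ0 : ℕ) : ∃ ε0 : ℝ, 0 < ε0 ∧ ∀ (ε : ℝ) (ρ : ℕ), ε ≤ ε0 → Scale ρ ε →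
    ρ0 ≤ ρ := by
  obtain ⟨P, hP⟩ : ∃ P : ℝ, P = (2 * ρ0 + 1) ^ 50 := ⟨_, rfl⟩
  have hP0 : 0 < P := by rw [hP]; positivity
  refine ⟨1 / (2 * P), by positivity, fun ε ρ hε hs => ?_⟩
  by_contra hlt
  push Not at hlt
  have h1 : (ρ : ℝ) ≤ ρ0 := by exact_mod_cast hlt.le
  have h2 := hs.ge
  have h3 : (2 * ρ : ℝ) ^ 50 ≤ P := by
    rw [hP]
    apply pow_le_pow_left₀ (by positivity)
    linarith
  have h4 : ε * (2 * ρ : ℝ) ^ 50 ≤ 1 / (2 * P) * P :=
    mul_le_mul hε h3 (pow_nonneg (by positivity) 50) (by positivity)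
  have h5 : 1 / (2 * P) * P = 1 / 2 := by
    field_simp
  linarith

/-- The near kernel. -/
noncomputable def Dk (d : ℕ) (p : ℝ) (ρ : ℕ) (x : Vx d) : ℝ≥0∞ := tauI p (Bx d (2 * ρ)) 0 x

theorem sum_tauI_le {d : ℕ} {p1 p2 r : ℝ} (h1 : 0 ≤ p1) (h1' : p1 ≤ 1) (hr : 0 ≤ r) (hr1 : r ≤ 1)
    (h : 1 - p2 = (1 - p1) * (1 - r)) {S : Set (Vx d)} {X : ℝ} (hX0 : 0 ≤ X)
    (hX : ∀ a ∈ S, ∑' x : Vx d, tauI p1 S a x ≤ ENNReal.ofReal X) (hr2 : 2 * d * r * X ≤ 1 / 2)
    (a : Vx d) : ∑' x : Vx d, tauI p2 S a x ≤ ENNReal.ofReal (2 * X) := by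
  classical
  have h2 : 0 ≤ p2 ∧ p2 ≤ 1 := by
    constructor
    · nlinarith
    · nlinarith
  -- finite domains
  have hfin : ∀ V : Finset (Vx d), (V : Set (Vx d)) ⊆ S → ∀ a : Vx d,
      ∑ x ∈ V, tau p2 V a x ≤ 2 * X := by
    intro V hV
    have hs1 : ∀ a ∈ V, ∑ x ∈ V, tau p1 V a x ≤ X := by
      intro a ha
      have h3 : ENNReal.ofReal (∑ x ∈ V, tau p1 V a x) ≤ ENNReal.ofReal X := by
        rw [ENNReal.ofReal_sum_of_nonneg fun x _ => tau_nonneg h1 h1' V a x]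
        refine le_trans (sum_le_sum fun x _ => le_tauI p1 hV a x) ?_
        exact (ENNReal.sum_le_tsum V).trans (hX a (hV ha))
      exact (ENNReal.ofReal_le_ofReal_iff hX0).mp h3
    rcases V.eq_empty_or_nonempty with rfl | hne
    · intro a
      rw [sum_empty]
      linarith
    obtain ⟨b, hb, hmax⟩ := exists_max_image V (fun a => ∑ x ∈ V, tau p2 V a x) hne
    obtain ⟨Y, hY⟩ : ∃ Y, Y = ∑ x ∈ V, tau p2 V b x := ⟨_, rfl⟩
    have hY0 : 0 ≤ Y := by rw [hY]; exact sum_nonneg fun x _ => tau_nonneg h2.1 h2.2 V b x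
    have hkey : Y ≤ X + r * (2 * d * X * Y) := by
      have h4 : Y ≤ ∑ x ∈ V, (tau p1 V b x + r * ∑ q ∈ prs V, tau p1 V b q.1 * tau p2 V q.2 x) := by
        rw [hY]
        exact sum_le_sum fun x _ => SL2 h1 h1' hr hr1 h V b x
      refine h4.trans ?_
      rw [sum_add_distrib, ← mul_sum]
      apply add_le_add (hs1 b hb)
      apply mul_le_mul_of_nonneg_left _ hr
      rw [sum_comm]
      calc ∑ q ∈ prs V, ∑ x ∈ V, tau p1 V b q.1 * tau p2 V q.2 x
          ≤ ∑ q ∈ prs V, tau p1 V b q.1 * Y := by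
            apply sum_le_sum
            intro q hq
            rw [← mul_sum]
            apply mul_le_mul_of_nonneg_left _ (tau_nonneg h1 h1' V b q.1)
            rw [hY]
            exact hmax q.2 (mem_prs.mp hq).2.1
        _ ≤ ∑ u ∈ V, ∑ v ∈ nbr u, tau p1 V b u * Y := by
            rw [sum_sigma' V (fun u => nbr u) (fun u _ => tau p1 V b u * Y)]
            have h5 : ∑ q ∈ prs V, tau p1 V b q.1 * Y = ∑ s ∈ (prs V).image
                (fun q => (⟨q.1, q.2⟩ : Σ _ : Vx d, Vx d)), tau p1 V b s.1 * Y := by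
              rw [sum_image]
              intro q _ q' _ hqq
              simp only [Sigma.mk.injEq, heq_eq_eq] at hqq
              exact Prod.ext hqq.1 hqq.2
            rw [h5]
            apply sum_le_sum_of_subset_of_nonneg
            · intro s hs
              obtain ⟨q, hq, rfl⟩ := mem_image.mp hs
              have h6 := mem_prs.mp hq
              exact mem_sigma.mpr ⟨h6.1, mem_nbr.mpr h6.2.2⟩
            · intro s _ _
              exact mul_nonneg (tau_nonneg h1 h1' V b s.1) hY0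
        _ = 2 * d * (∑ u ∈ V, tau p1 V b u) * Y := by
            rw [mul_sum, sum_mul]
            apply sum_congr rfl
            intro u _
            rw [sum_const, card_nbr, nsmul_eq_mul]
            push_cast
            ring
        _ ≤ 2 * d * X * Y := by
            apply mul_le_mul_of_nonneg_right _ hY0
            exact mul_le_mul_of_nonneg_left (hs1 b hb) (by positivity)
    have hY2 : Y ≤ 2 * X := by
      have h7 : r * (2 * d * X * Y) = 2 * d * r * X * Y := by ring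
      rw [h7] at hkey
      have h8 : 2 * d * r * X * Y ≤ 1 / 2 * Y := mul_le_mul_of_nonneg_right hr2 hY0
      linarith
    intro a
    by_cases ha : a ∈ V
    · refine (hmax a ha).trans ?_
      rw [← hY]
      exact hY2
    · rw [sum_eq_zero fun x _ => tau_zero_left p2 ha x]
      linarith
  -- infinite domains
  rw [ENNReal.tsum_eq_iSup_sum]
  apply iSup_le
  intro s
  have h3 : ∀ x : Vx d, tauI p2 S a x =
      ⨆ n : ℕ, ENNReal.ofReal (tau p2 ((Bx d n).filter (· ∈ S)) a x) :=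
    fun x => tauI_seq h2.1 h2.2 S a x
  simp_rw [h3]
  rw [ENNReal.finsetSum_iSup_of_monotone]
  · apply iSup_le
    intro n
    rw [← ENNReal.ofReal_sum_of_nonneg fun x _ => tau_nonneg h2.1 h2.2 _ a x]
    apply ENNReal.ofReal_le_ofReal
    have hsub : (((Bx d n).filter (· ∈ S) : Finset (Vx d)) : Set (Vx d)) ⊆ S := by
      intro z hz
      exact (mem_filter.mp (by exact_mod_cast hz)).2
    refine le_trans ?_ (hfin _ hsub a)
    have h5 : ∑ x ∈ (Bx d n).filter (· ∈ S), tau p2 ((Bx d n).filter (· ∈ S)) a x =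
        ∑ x ∈ s ∪ (Bx d n).filter (· ∈ S), tau p2 ((Bx d n).filter (· ∈ S)) a x :=
      sum_subset subset_union_right fun x _ hx => tau_zero_right p2 hx a
    rw [h5]
    exact sum_le_sum_of_subset_of_nonneg subset_union_left
      fun x _ _ => tau_nonneg h2.1 h2.2 _ a x
  · intro x n k hnk
    apply ENNReal.ofReal_le_ofReal
    apply tau_mono h2.1 h2.2
    intro z hz
    rw [mem_filter, mem_Bx] at hz ⊢
    exact ⟨hz.1.trans hnk, hz.2⟩

theorem cv_near {n : ℕ} {f g E H : Vx n → ℝ≥0∞} {A : ℝ≥0∞} {N : ℕ}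
    (hg : ∀ x, g x ≤ f x + E x) (hE : ∑' x, E x ≤ 1)
    (hA : ∀ i ≤ N, ∀ x, cv (cpw f i) H x ≤ A) (j : ℕ) (hj : j ≤ N) (x : Vx n) :
    cv (cpw g j) H x ≤ 2 ^ j * A := by
  have key : ∀ j i : ℕ, i + j ≤ N → ∀ x, cv (cpw f i) (cv (cpw g j) H) x ≤ 2 ^ j * A := by
    intro j
    induction j with
    | zero =>
      intro i hi x
      rw [cpw, dl_cv, pow_zero, one_mul]
      exact hA i (by omega) x
    | succ j ih =>
      intro i hi x
      have e1 : cpw g (j + 1) = cv g (cpw g j) := rfl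
      rw [e1, cv_assoc]
      have h1 : cv (cpw f i) (cv g (cv (cpw g j) H)) x ≤
          cv (cpw f i) (fun y => cv f (cv (cpw g j) H) y + cv E (cv (cpw g j) H) y) x := by
        apply cv_mono (fun _ => le_rfl)
        intro y
        refine (cv_mono (f' := fun y => f y + E y) hg (fun _ => le_rfl) y).trans ?_
        rw [add_cv]
      refine h1.trans ?_
      rw [cv_add]
      have e2 : cv (cpw f i) (cv f (cv (cpw g j) H)) = cv (cpw f (i + 1)) (cv (cpw g j) H) := by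
        rw [← cv_assoc, cv_comm (cpw f i) f]
        rfl
      have e3 : cv (cpw f i) (cv E (cv (cpw g j) H)) = cv E (cv (cpw f i) (cv (cpw g j) H)) := by
        rw [← cv_assoc, cv_comm (cpw f i) E, cv_assoc]
      rw [e2, e3]
      have h2 := ih (i + 1) (by omega) x
      have h3 := cv_le_sup E (cv (cpw f i) (cv (cpw g j) H)) (fun y => ih i (by omega) y) x
      calc cv (cpw f (i + 1)) (cv (cpw g j) H) x + cv E (cv (cpw f i) (cv (cpw g j) H)) x
          ≤ 2 ^ j * A + (∑' y, E y) * (2 ^ j * A) := add_le_add h2 h3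
        _ ≤ 2 ^ j * A + 1 * (2 ^ j * A) := by gcongr
        _ = 2 ^ (j + 1) * A := by ring
  have h1 := key j 0 (by omega) x
  rw [cpw, dl_cv] at h1
  exact h1

variable {m d : ℕ} {h : m ≤ d} {C : ℝ}

theorem S14_pc (hc : Crit m d h C) : 0 < pc d := by
  have h1 := hc.pc_lo
  have h2 : (0 : ℝ) < d := by exact_mod_cast hc.pos
  have h3 : (0 : ℝ) < 1 / (2 * d) := by positivity
  linarith

theorem S14_pj (h : m ≤ d) (x : Vx d) : nm (pj h x) ≤ nm x := by
  unfold nm pj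
  apply Finset.sup_le
  intro i _
  exact Finset.le_sup (f := fun i => (x i).natAbs) (mem_univ (Fin.castLE h i))

theorem S14_box (h : m ≤ d) (ρ : ℕ) :
    ∀ z ∈ (Bx d (2 * ρ) : Set (Vx d)), nm (pj h z) ≤ 2 * ρ := by
  intro z hz
  exact (S14_pj h z).trans (mem_Bx.mp (mem_coe.mp hz))

/-- The sum over the pairs of neighbours. -/
theorem S14_pairs (S : Set (Vx d)) (F : Vx d → ℝ≥0∞) :
    ∑' q : {q : Vx d × Vx d | q.1 ∈ S ∧ q.2 ∈ S ∧ Adj q.1 q.2}, F q.1.1 ≤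
      2 * d * ∑' u : Vx d, F u := by
  classical
  rw [tsum_subtype {q : Vx d × Vx d | q.1 ∈ S ∧ q.2 ∈ S ∧ Adj q.1 q.2} (fun q => F q.1)]
  rw [← ENNReal.tsum_mul_left, ENNReal.tsum_prod']
  apply ENNReal.tsum_le_tsum
  intro u
  calc ∑' v : Vx d, Set.indicator {q : Vx d × Vx d | q.1 ∈ S ∧ q.2 ∈ S ∧ Adj q.1 q.2}
        (fun q => F q.1) (u, v)
      ≤ ∑' v : Vx d, if v ∈ nbr u then F u else 0 := by
        apply ENNReal.tsum_le_tsum
        intro v
        rw [Set.indicator_apply]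
        split_ifs with h1 h2
        · exact le_rfl
        · exact absurd (mem_nbr.mpr h1.2.2) h2
        · exact zero_le
        · exact zero_le
    _ = ∑ v ∈ nbr u, F u := by
        rw [tsum_eq_sum (s := nbr u) fun v hv => if_neg hv]
        exact sum_congr rfl fun v hv => if_pos hv
    _ = 2 * d * F u := by
        rw [sum_const, card_nbr, nsmul_eq_mul]
        push_cast
        ring

/-- The sum in a thin domain at the critical point. -/
theorem S14_sum (hc : Crit m d h C) {ρ : ℕ} (hρ : 1 ≤ ρ) {S : Set (Vx d)}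
    (hS : ∀ z ∈ S, nm (pj h z) ≤ 2 * ρ) (a : Vx d) :
    ∑' x : Vx d, tauI (pc d) S a x ≤ ENNReal.ofReal (C * 4 ^ 10 * (ρ : ℝ) ^ 10) := by
  have hpc := hc.pc_hi
  have hpc0 := S14_pc hc
  by_cases ha : a ∈ S
  · have h1 : ∑' x : Vx d, tauI (pc d) S a x ≤ Vv h (tt (pc d)) (4 * ρ) := by
      have h0 : Vv h (tt (pc d)) (4 * ρ) =
          ∑' x : Vx d, if nm (pj h (x - a)) ≤ 4 * ρ then tt (pc d) (x - a) else 0 :=
        ((Equiv.subRight a).tsum_eq fun x : Vx d =>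
          if nm (pj h x) ≤ 4 * ρ then tt (pc d) x else 0).symm
      rw [h0]
      apply ENNReal.tsum_le_tsum
      intro x
      by_cases hx : x ∈ S
      · rw [if_pos]
        · exact tauI_le_tt hpc0.le (by linarith) S a x
        · have h2 : pj h (x - a) = pj h x + -(pj h a) := by
            rw [← sub_eq_add_neg]
            rfl
          rw [h2]
          refine (nm_add_le _ _).trans ?_
          rw [nm_neg]
          have h3 := hS x hx
          have h4 := hS a ha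
          omega
      · rw [tauI_zero_right (pc d) hx a]
        exact zero_le
    refine h1.trans ((vol_tt hc (4 * ρ) (by omega)).trans (le_of_eq ?_))
    have hC := hc.one_le
    rw [mul_assoc, ENNReal.ofReal_mul (by linarith), ← mul_pow, ENNReal.ofReal_pow (by positivity)]
    congr 2
    rw [ENNReal.ofReal_mul (by norm_num), ENNReal.ofReal_natCast, ENNReal.ofReal_ofNat]
    push_cast
    rfl
  · have h1 : ∀ x : Vx d, tauI (pc d) S a x = 0 := fun x => tauI_zero_left (pc d) ha x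
    simp [h1]

/-- The sums of the two-point function in thin domains. -/
theorem near_sum (hc : Crit m d h C) : ∃ (C1 : ℝ) (ρ0 : ℕ), 0 < C1 ∧ ∀ (ρ : ℕ) (ε : ℝ), ρ0 ≤ ρ →
    Scale ρ ε → ∀ S : Set (Vx d), (∀ z ∈ S, nm (pj h z) ≤ 2 * ρ) → ∀ a : Vx d,
      (∑' x : Vx d, tauI (pc d + ε) S a x ≤ ENNReal.ofReal (C1 * (ρ : ℝ) ^ 10)) ∧
      ∃ E : Vx d → ℝ≥0∞, (∀ x, tauI (pc d + ε) S a x ≤ tauI (pc d) S a x + E x) ∧
        ∑' x, E x ≤ ENNReal.ofReal (1 / (ρ : ℝ) ^ 25) := by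
  have hC := hc.one_le
  have hpc := hc.pc_hi
  have hpc0 := S14_pc hc
  obtain ⟨B, hB⟩ : ∃ B : ℝ, B = C * 4 ^ 10 := ⟨_, rfl⟩
  have hB0 : 0 < B := by rw [hB]; positivity
  obtain ⟨N, hN⟩ := exists_nat_ge (8 * d * B + 8 * d * B ^ 2 + 1)
  refine ⟨2 * B, N, by positivity, fun ρ ε hρ hs S hS a => ?_⟩
  have hρN : (N : ℝ) ≤ ρ := by exact_mod_cast hρ
  have hρ1 : (1 : ℝ) ≤ ρ := by exact_mod_cast hs.rho
  have hρ0 : (0 : ℝ) < ρ := by linarith
  have hε := hs.pos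
  have hdB : (0 : ℝ) ≤ 8 * d * B := by positivity
  have hdB2 : (0 : ℝ) ≤ 8 * d * B ^ 2 := by positivity
  have hle1 : 8 * d * B ≤ (ρ : ℝ) := by linarith
  have hle2 : 8 * d * B ^ 2 ≤ (ρ : ℝ) := by linarith
  -- the parameter of the sprinkling
  obtain ⟨r, hr⟩ : ∃ r : ℝ, r = ε / (1 - pc d) := ⟨_, rfl⟩
  have h1p : 0 < 1 - pc d := by linarith
  have hr0 : 0 ≤ r := by rw [hr]; positivity
  have hr2 : r ≤ 2 * ε := by
    rw [hr, div_le_iff₀ h1p]
    nlinarith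
  have hερ : ε * (ρ : ℝ) ^ 50 ≤ 1 := hs.le
  have hε1 : ε ≤ 1 / (ρ : ℝ) ^ 50 := by
    rw [le_div_iff₀ (by positivity)]
    exact hερ
  have hrel : 1 - (pc d + ε) = (1 - pc d) * (1 - r) := by
    rw [hr]
    field_simp
    ring
  obtain ⟨X, hX⟩ : ∃ X : ℝ, X = B * (ρ : ℝ) ^ 10 := ⟨_, rfl⟩
  have hX0 : 0 < X := by rw [hX]; positivity
  have hsum : ∀ a : Vx d, ∑' x : Vx d, tauI (pc d) S a x ≤ ENNReal.ofReal X := by
    intro a
    rw [hX, hB]
    exact S14_sum hc hs.rho hS a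
  have h40 : ε * (ρ : ℝ) ^ 10 * (ρ : ℝ) ^ 40 ≤ 1 := by
    calc ε * (ρ : ℝ) ^ 10 * (ρ : ℝ) ^ 40 = ε * (ρ : ℝ) ^ 50 := by ring
      _ ≤ 1 := hερ
  have hsmall : 2 * d * r * X ≤ 1 / 2 := by
    have h3 : 2 * d * r * X ≤ 2 * d * (2 * ε) * X := by gcongr
    refine h3.trans ?_
    have h4 : 2 * d * (2 * ε) * X = 1 / 2 * (8 * d * B * (ε * (ρ : ℝ) ^ 10)) := by
      rw [hX]
      ring
    rw [h4]
    have h5 : 8 * d * B * (ε * (ρ : ℝ) ^ 10) ≤ 1 := by
      calc 8 * d * B * (ε * (ρ : ℝ) ^ 10) ≤ ρ * (ε * (ρ : ℝ) ^ 10) := by gcongr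
        _ ≤ (ρ : ℝ) ^ 40 * (ε * (ρ : ℝ) ^ 10) := by
            gcongr
            exact le_self_pow₀ hρ1 (by norm_num)
        _ ≤ 1 := by linarith
    linarith
  have hr1 : r ≤ 1 := by
    have h3 : ε ≤ 1 / 2 * 1 := by
      have h4 : (d : ℝ) ≥ 1 := by exact_mod_cast hc.pos
      have h5 : 1 ≤ X := by
        rw [hX, hB]
        have : (1 : ℝ) ≤ (ρ : ℝ) ^ 10 := one_le_pow₀ hρ1
        nlinarith
      have h6 : r ≤ 2 * d * r * X := by
        have h7 : 1 ≤ 2 * d * X := by nlinarith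
        nlinarith
      have h8 : ε ≤ r := by
        rw [hr, le_div_iff₀ h1p]
        nlinarith
      linarith
    linarith
  have hsum2 : ∀ a : Vx d, ∑' x : Vx d, tauI (pc d + ε) S a x ≤ ENNReal.ofReal (2 * X) :=
    fun a => sum_tauI_le hpc0.le (by linarith) hr0 hr1 hrel hX0.le (fun a _ => hsum a) hsmall a
  refine ⟨?_, ?_⟩
  · refine (hsum2 a).trans (le_of_eq ?_)
    rw [hX]
    congr 1
    ring
  · refine ⟨fun x => ENNReal.ofReal r *
      ∑' q : {q : Vx d × Vx d | q.1 ∈ S ∧ q.2 ∈ S ∧ Adj q.1 q.2},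
        tauI (pc d) S a q.1.1 * tauI (pc d + ε) S q.1.2 x,
      fun x => SL2I hpc0.le (by linarith) hr0 hr1 hrel S a x, ?_⟩
    rw [ENNReal.tsum_mul_left, ENNReal.tsum_comm]
    calc ENNReal.ofReal r * ∑' (q : {q : Vx d × Vx d | q.1 ∈ S ∧ q.2 ∈ S ∧ Adj q.1 q.2}),
          ∑' (x : Vx d), tauI (pc d) S a q.1.1 * tauI (pc d + ε) S q.1.2 x
        ≤ ENNReal.ofReal r * ∑' (q : {q : Vx d × Vx d | q.1 ∈ S ∧ q.2 ∈ S ∧ Adj q.1 q.2}),
          tauI (pc d) S a q.1.1 * ENNReal.ofReal (2 * X) := by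
          gcongr with q
          rw [ENNReal.tsum_mul_left]
          gcongr
          exact hsum2 _
      _ ≤ ENNReal.ofReal r * (2 * d * ∑' u : Vx d, tauI (pc d) S a u * ENNReal.ofReal (2 * X)) := by
          gcongr
          exact S14_pairs S fun u => tauI (pc d) S a u * ENNReal.ofReal (2 * X)
      _ ≤ ENNReal.ofReal r * (2 * d * (ENNReal.ofReal X * ENNReal.ofReal (2 * X))) := by
          rw [ENNReal.tsum_mul_right]
          gcongr
          exact hsum a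
      _ = ENNReal.ofReal (r * (2 * d * (X * (2 * X)))) := by
          have e1 : (2 * d : ℝ≥0∞) = ENNReal.ofReal (2 * d) := by
            rw [ENNReal.ofReal_mul (by norm_num), ENNReal.ofReal_natCast, ENNReal.ofReal_ofNat]
          rw [e1, ← ENNReal.ofReal_mul hX0.le, ← ENNReal.ofReal_mul (by positivity),
            ← ENNReal.ofReal_mul hr0]
      _ ≤ ENNReal.ofReal (1 / (ρ : ℝ) ^ 25) := by
          apply ENNReal.ofReal_le_ofReal
          rw [le_div_iff₀ (by positivity)]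
          calc r * (2 * d * (X * (2 * X))) * (ρ : ℝ) ^ 25
              ≤ 2 * ε * (2 * d * (X * (2 * X))) * (ρ : ℝ) ^ 25 := by gcongr
            _ = 8 * d * B ^ 2 * (ε * (ρ : ℝ) ^ 45) := by
                rw [hX]
                ring
            _ ≤ ρ * (ε * (ρ : ℝ) ^ 45) := by gcongr
            _ = ε * (ρ : ℝ) ^ 46 := by ring
            _ ≤ ε * (ρ : ℝ) ^ 50 := by
                gcongr
                norm_num
            _ ≤ 1 := hερ

/-- The convolutions of the near kernel. -/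
theorem Dk_conv (hc : Crit m d h C) : ∃ (C2 : ℝ) (ρ0 : ℕ), 0 < C2 ∧ ∀ (ρ : ℕ) (ε : ℝ), ρ0 ≤ ρ →
    Scale ρ ε → ∀ (j : ℕ) (x : Vx d), j ≤ 5 →
      cv (cpw (Dk d (pc d + ε) ρ) j) (bI d) x ≤ ENNReal.ofReal C2 := by
  obtain ⟨C', hC', hbd⟩ := cv_bI_bdd hc
  obtain ⟨C1, ρ0, hC1, hns⟩ := near_sum hc
  refine ⟨2 ^ 5 * C', ρ0, by positivity, fun ρ ε hρ hs j x hj => ?_⟩
  obtain ⟨_, E, hE1, hE2⟩ := hns ρ ε hρ hs (Bx d (2 * ρ) : Set (Vx d))
    (S14_box h ρ) 0
  have hρ1 : (1 : ℝ) ≤ ρ := by exact_mod_cast hs.rho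
  have hpc := hc.pc_hi
  have hpc0 := S14_pc hc
  have hpc1 : pc d ≤ 1 := by linarith
  have h0 : ∀ y : Vx d, Dk d (pc d + ε) ρ y ≤ tt (pc d) y + E y := by
    intro y
    have h2 := tauI_le_tt hpc0.le hpc1 (Bx d (2 * ρ) : Set (Vx d)) 0 y
    rw [sub_zero] at h2
    have h3 := hE1 y
    rw [Dk]
    exact h3.trans (add_le_add h2 le_rfl)
  have h1 := cv_near (f := tt (pc d)) (g := Dk d (pc d + ε) ρ) (E := E) (H := bI d)
    (A := ENNReal.ofReal C') (N := 5) h0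
    (hE2.trans (by
      rw [← ENNReal.ofReal_one]
      apply ENNReal.ofReal_le_ofReal
      rw [div_le_one (by positivity)]
      exact one_le_pow₀ hρ1))
    (fun i hi y => hbd i (by omega) y) j hj x
  refine h1.trans ?_
  rw [ENNReal.ofReal_mul (by positivity), ENNReal.ofReal_pow (by norm_num), ENNReal.ofReal_ofNat]
  gcongr
  · norm_num

theorem Dk_sum (hc : Crit m d h C) : ∃ (C1 : ℝ) (ρ0 : ℕ), 0 < C1 ∧ ∀ (ρ : ℕ) (ε : ℝ), ρ0 ≤ ρ →
    Scale ρ ε → ∑' x : Vx d, Dk d (pc d + ε) ρ x ≤ ENNReal.ofReal (C1 * (ρ : ℝ) ^ 10) := by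
  obtain ⟨C1, ρ0, hC1, hns⟩ := near_sum hc
  exact ⟨C1, ρ0, hC1, fun ρ ε hρ hs => (hns ρ ε hρ hs (Bx d (2 * ρ) : Set (Vx d))
    (S14_box h ρ) 0).1⟩

/-- The near kernel bounds the two-point function of the domains of radius `ρ`. -/
theorem tau_le_Dk {p : ℝ} (hp : 0 ≤ p) (hp1 : p ≤ 1) {V : Finset (Vx d)} {c a b : Vx d} {ρ : ℕ}
    (hV : ∀ z ∈ V, nm (z - c) ≤ ρ) :
    ENNReal.ofReal (tau p V a b) ≤ Dk d p ρ (b - a) := by
  by_cases ha : a ∈ V
  · have h1 := le_tauI p (subset_refl (V : Set (Vx d))) a b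
    refine h1.trans ?_
    rw [← tauI_add p (V : Set (Vx d)) a b (-a), add_neg_cancel, ← sub_eq_add_neg]
    apply tauI_mono hp hp1
    rintro _ ⟨z, hz, rfl⟩
    have h2 : nm (z + -a) ≤ 2 * ρ := by
      have h3 : z + -a = (z - c) + -(a - c) := by abel
      rw [h3]
      refine (nm_add_le _ _).trans ?_
      rw [nm_neg]
      have h4 := hV z (by exact_mod_cast hz)
      have h5 := hV a ha
      omega
    exact mem_coe.mpr (mem_Bx.mpr h2)
  · rw [tau_zero_left p ha, ENNReal.ofReal_zero]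
    exact zero_le

end Pool.Agent.HD
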