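import Pool.Agent.Lib.MP_8ca597_hd.S13
import Pool.Agent.Lib.MP_8ca597_hd.S14
import Pool.Agent.Lib.MP_8ca597_hd.B21
import Pool.Agent.Lib.MP_8ca597_hd.B24

/-!
# Row S15: far decay of the truncated two-point function (A8.3, A9)

`flux_near`: with `near_sum` for `S = Sm h r`, `a = 0`: the flux at `p = pc + ε` is at most
`(p / pc) (flux at pc + 2 d pc ρ ^ (-25))`, and `flux_le` of `Crit` (the set `Sm h r` is `BoxS` with the `2 m`
directions of the first `m` coordinates and `R = r`); `2 ^ (1/(64 m)) < 2 ^ (1/(32 m))`. `tauf_le_mu`: in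
`V = Bx d n`, `J = JJ n T`: for `x` with `nm (pj h x) ≥ r`, `SL` in `V \ J` with `S = (V \ J) ∩ Sm h r` and `EE_clS_sum`:
`P (0 ↔ x, 0 ∉ J) ≤ ∑ (u, v) exits, tau (S_r ∩ V) 0 u * p * P (v ↔ x, v ∉ J)`, `tauf_trunc` and `n → ∞` (`tauf` is the
limit of the left side: `EE_trunc`, `EF_eq_iSup`); then sum over the `x` with the same projection.
`far_decay`: `le_nu_cv` for `t = tpj h tauf`, `μ r = mu p h r` for `r < 2 ^ (J+1)` and `0` for the other `r`
(`mu_isFace`-type facts for single radii: see the proof of `mu_isFace`, rows B2x), `J` maximal with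
`64 m 2 ^ J ≤ ρ / 4`; `nu_sup`, `M0 = 2 ^ (1/(32 m))`, `∑ t = chif ≤ 2 ε⁻³` (`apriori`), so
`t k ≤ (C/ρ) ^ m ρ ^ (1/2) 2 (2ρ) ^ 150`, and `tauf x ≤ t (pj h x)` after a permutation of the coordinates which brings the
largest one into the first `m`.
-/

set_option autoImplicit false

namespace Pool.Agent.HD

open Finset
open scoped ENNReal

variable {m d : ℕ} {h : m ≤ d} {C : ℝ}

/-! ### Single radii (copies of B22) -/

private theorem S15_supp (p : ℝ) (h : m ≤ d) {r : ℕ} {k : Vx m} (hk : mu p h r k ≠ 0) :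
    nm k = r ∧ ∃! i, (k i).natAbs = r := by
  have hex : ∃ q : exI (Sm h r) (Set.univ : Set (Vx d)), pj h q.1.2 = k := by
    by_contra hcon
    push Not at hcon
    apply hk
    unfold mu
    rw [ENNReal.tsum_eq_zero]
    intro q
    rw [if_neg (hcon q)]
  obtain ⟨⟨⟨u, v⟩, hu, -, hv, hadj⟩, rfl⟩ := hex
  obtain ⟨e, rfl⟩ := (adj_iff_uv u v).1 hadj
  have hu' : ∀ i, |pj h u i| < r := hu
  have hv' : ∃ i, (r : ℤ) ≤ |pj h (u + uv e) i| := by
    by_contra hcon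
    push Not at hcon
    exact hv hcon
  obtain ⟨i, hi⟩ := hv'
  -- coordinates
  have hco : ∀ j : Fin m, Fin.castLE h j ≠ e.1 → pj h (u + uv e) j = pj h u j := by
    intro j hj
    show u (Fin.castLE h j) + (Pi.single e.1 (sg e.2) : Vx d) (Fin.castLE h j) =
      u (Fin.castLE h j)
    rw [Pi.single_eq_of_ne hj, add_zero]
  have hie : Fin.castLE h i = e.1 := by
    by_contra hne
    rw [hco i hne] at hi
    exact absurd (hu' i) (not_lt.2 hi)
  have hsg : |sg e.2| = 1 := by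
    unfold sg
    split_ifs <;> simp
  have hiv : pj h (u + uv e) i = pj h u i + sg e.2 := by
    show u (Fin.castLE h i) + (Pi.single e.1 (sg e.2) : Vx d) (Fin.castLE h i) =
      u (Fin.castLE h i) + sg e.2
    rw [hie, Pi.single_eq_same]
  have hir : |pj h (u + uv e) i| = r := by
    apply le_antisymm _ hi
    rw [hiv]
    have h1 := abs_add_le (pj h u i) (sg e.2)
    have h2 := hu' i
    rw [hsg] at h1
    omega
  have hir' : (pj h (u + uv e) i).natAbs = r := by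
    have : ((pj h (u + uv e) i).natAbs : ℤ) = r := by rw [Int.natCast_natAbs]; exact hir
    exact_mod_cast this
  have hother : ∀ j, j ≠ i → (pj h (u + uv e) j).natAbs < r := by
    intro j hj
    have hne : Fin.castLE h j ≠ e.1 := by
      rw [← hie]
      intro hc
      exact hj ((Fin.castLE_inj).1 hc)
    rw [hco j hne]
    have h1 := hu' j
    have : ((pj h u j).natAbs : ℤ) < r := by rw [Int.natCast_natAbs]; exact h1
    exact_mod_cast this
  refine ⟨?_, i, hir', ?_⟩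
  · apply le_antisymm
    · refine nm_le_iff.2 fun j => ?_
      by_cases hj : j = i
      · rw [hj, hir']
      · exact (hother j hj).le
    · exact hir'.symm.le.trans (natAbs_le_nm _ i)
  · intro j hj
    by_contra hne
    exact absurd hj (hother j hne).ne

private theorem S15_mass (p : ℝ) (h : m ≤ d) (r : ℕ) :
    ∑' k, mu p h r k = flux p (Sm h r) 0 := by
  unfold mu flux
  rw [ENNReal.tsum_comm]
  refine tsum_congr fun q => ?_
  rw [tsum_eq_single (pj h q.1.2) fun k hk => by rw [if_neg (Ne.symm hk)], if_pos rfl]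

private theorem S15_box (h : m ≤ d) (r : ℕ) :
    ∃ E : Finset (Dir d), E.card ≤ 2 * m ∧ Sm h r = BoxS E fun _ => (r : ℤ) := by
  classical
  refine ⟨(Finset.univ : Finset (Fin m × Bool)).image fun q => (Fin.castLE h q.1, q.2), ?_, ?_⟩
  · refine Finset.card_image_le.trans ?_
    rw [Finset.card_univ, Fintype.card_prod, Fintype.card_fin, Fintype.card_bool, mul_comm]
  · ext z
    unfold Sm BoxS
    simp only [Set.mem_ofPred_eq]
    constructor
    · intro hz e he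
      obtain ⟨q, -, rfl⟩ := Finset.mem_image.1 he
      have h1 : |z (Fin.castLE h q.1)| < r := hz q.1
      rw [abs_lt] at h1
      unfold dt sg
      simp only
      split_ifs
      · linarith [h1.2]
      · linarith [h1.1]
    · intro hz i
      have h1 := hz (Fin.castLE h i, true) (Finset.mem_image.2 ⟨(i, true), Finset.mem_univ _, rfl⟩)
      have h2 := hz (Fin.castLE h i, false)
        (Finset.mem_image.2 ⟨(i, false), Finset.mem_univ _, rfl⟩)
      unfold dt sg at h1 h2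
      simp only [if_true, one_mul] at h1
      simp only [Bool.false_eq_true, if_false] at h2
      show |z (Fin.castLE h i)| < r
      rw [abs_lt]
      constructor <;> linarith

/-! ### The flux near the critical point -/

/-- Every vertex has `2 d` neighbours. -/
private theorem S15_exits (S : Set (Vx d)) (G : Vx d → ℝ≥0∞) :
    ∑' q : exI S Set.univ, G q.1.1 ≤ (2 * d : ℕ) * ∑' x, G x := by
  classical
  have h1 : ∑' q : exI S Set.univ, G q.1.1 ≤
      ∑' q : Vx d × Vx d, if Adj q.1 q.2 then G q.1 else 0 := by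
    have h2 : ∀ q : exI S Set.univ, G q.1.1 = (fun q : Vx d × Vx d =>
        if Adj q.1 q.2 then G q.1 else 0) q.1 := by
      intro q
      have h3 : Adj q.1.1 q.1.2 := q.2.2.2.2
      dsimp only
      rw [if_pos h3]
    rw [tsum_congr h2]
    exact ENNReal.tsum_comp_le_tsum_of_injective Subtype.val_injective
      (fun q : Vx d × Vx d => if Adj q.1 q.2 then G q.1 else 0)
  refine h1.trans (le_of_eq ?_)
  rw [ENNReal.tsum_prod', ← ENNReal.tsum_mul_left]
  refine tsum_congr fun x => ?_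
  dsimp only
  have h4 : ∀ y : Vx d, (if Adj x y then G x else 0) = if y ∈ nbr x then G x else 0 := by
    intro y
    simp only [mem_nbr]
  rw [tsum_congr h4, tsum_eq_sum (s := nbr x) (fun y hy => if_neg hy),
    Finset.sum_congr rfl (fun y hy => if_pos hy), Finset.sum_const, card_nbr, nsmul_eq_mul]

private theorem S15_scale {ρ : ℕ} {ε : ℝ} (hs : Scale ρ ε) {j : ℕ} (hj : j ≤ 49) :
    ε * (ρ : ℝ) ^ j ≤ 1 / ρ := by
  have h1 : (1 : ℝ) ≤ ρ := by exact_mod_cast hs.rho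
  have h0 : (0 : ℝ) < ρ := by linarith
  rw [le_div_iff₀ h0, mul_assoc, ← pow_succ]
  refine (mul_le_mul_of_nonneg_left ?_ hs.pos.le).trans hs.le
  exact pow_le_pow_right₀ h1 (by omega)

private theorem S15_eps {ρ : ℕ} {ε : ℝ} (hs : Scale ρ ε) : ε ≤ 1 / ρ := by
  have h := S15_scale hs (Nat.zero_le 49)
  rwa [pow_zero, mul_one] at h

theorem flux_near (hc : Crit m d h C) : ∃ ρ0 : ℕ, ∀ (ρ : ℕ) (ε : ℝ), ρ0 ≤ ρ → Scale ρ ε →
    ∀ r : ℕ, 1 ≤ r → r ≤ ρ →
      flux (pc d + ε) (Sm h r) 0 ≤ ENNReal.ofReal ((2 : ℝ) ^ (1 / (32 * m) : ℝ)) := by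
  obtain ⟨C1, ρ1, hC1, hnear⟩ := near_sum hc
  have hm : 10000 ≤ m := hc.m_ge
  have hd : 0 < d := by omega
  have hm' : (0 : ℝ) < m := by exact_mod_cast (by omega : 0 < m)
  have hpc0 : 0 ≤ pc d := by
    have := pc_pos hd
    have h2 : (0 : ℝ) ≤ 1 / (2 * d) := by positivity
    linarith
  set u : ℝ := (2 : ℝ) ^ (1 / (64 * m) : ℝ) with hu
  set v : ℝ := (2 : ℝ) ^ (1 / (32 * m) : ℝ) with hv
  have huv : u < v := by
    rw [hu, hv]
    refine Real.rpow_lt_rpow_of_exponent_lt (by norm_num) ?_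
    refine one_div_lt_one_div_of_lt (by positivity) ?_
    linarith
  have hu0 : 0 < u := by positivity
  set B : ℝ := 2 * d * C1 + 4 * d with hB
  have hB0 : 0 ≤ B := by positivity
  obtain ⟨ρ2, hρ2⟩ := exists_nat_ge (B / (v - u))
  refine ⟨max (max ρ1 ρ2) 2, fun ρ ε hρ hs r hr hrρ => ?_⟩
  have hρa : ρ1 ≤ ρ := (le_max_left _ _).trans ((le_max_left _ _).trans hρ)
  have hρb : ρ2 ≤ ρ := (le_max_right _ _).trans ((le_max_left _ _).trans hρ)
  have hρc : 2 ≤ ρ := (le_max_right _ _).trans hρ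
  have hρ0 : (0 : ℝ) < ρ := by exact_mod_cast (by omega : 0 < ρ)
  have heps : ε ≤ 1 / ρ := S15_eps hs
  have hρr : (2 : ℝ) ≤ ρ := by exact_mod_cast hρc
  have hε2 : ε ≤ 1 / 2 := heps.trans (one_div_le_one_div_of_le (by norm_num) hρr)
  have hpc1 : pc d ≤ 1 / 1000 := hc.pc_hi
  have hε0 := hs.pos
  obtain ⟨hsum, E, hE1, hE2⟩ := hnear ρ ε hρa hs (Sm h r) (fun z hz => by
    refine nm_le_iff.2 fun i => ?_
    have h1 : |pj h z i| < r := hz i
    have h2 : ((pj h z i).natAbs : ℤ) = |pj h z i| := Int.natCast_natAbs _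
    omega) 0
  -- the three parts
  have hflux : flux (pc d) (Sm h r) 0 ≤ ENNReal.ofReal u := by
    obtain ⟨F, hF, hFe⟩ := S15_box h r
    rw [hFe]
    exact hc.flux_le F (fun _ => (r : ℤ)) hF (fun e _ => by exact_mod_cast hr)
  have hp : ENNReal.ofReal (pc d + ε) = ENNReal.ofReal (pc d) + ENNReal.ofReal ε :=
    ENNReal.ofReal_add hpc0 hε0.le
  have hp2 : ENNReal.ofReal (pc d + ε) ≤ 2 := by
    rw [← ENNReal.ofReal_ofNat]
    exact ENNReal.ofReal_le_ofReal (by linarith)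
  have hmono : ∀ x, tauI (pc d) (Sm h r) 0 x ≤ tauI (pc d + ε) (Sm h r) 0 x := fun x =>
    tauI_mono_p hpc0 (by linarith) (by linarith) (Sm h r) 0 x
  have hterm : ∀ q : exI (Sm h r) (Set.univ : Set (Vx d)),
      tauI (pc d + ε) (Sm h r) 0 q.1.1 * ENNReal.ofReal (pc d + ε) ≤
        tauI (pc d) (Sm h r) 0 q.1.1 * ENNReal.ofReal (pc d) +
          (tauI (pc d + ε) (Sm h r) 0 q.1.1 * ENNReal.ofReal ε + E q.1.1 * 2) := by
    intro q
    calc tauI (pc d + ε) (Sm h r) 0 q.1.1 * ENNReal.ofReal (pc d + ε)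
        ≤ (tauI (pc d) (Sm h r) 0 q.1.1 + E q.1.1) * ENNReal.ofReal (pc d + ε) :=
          mul_le_mul_left (hE1 q.1.1) _
      _ = tauI (pc d) (Sm h r) 0 q.1.1 * ENNReal.ofReal (pc d) +
          (tauI (pc d) (Sm h r) 0 q.1.1 * ENNReal.ofReal ε +
            E q.1.1 * ENNReal.ofReal (pc d + ε)) := by
          rw [add_mul]
          nth_rewrite 1 [hp]
          ring
      _ ≤ _ := by
          refine add_le_add le_rfl (add_le_add ?_ ?_)
          · exact mul_le_mul_left (hmono _) _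
          · exact mul_le_mul_right hp2 _
  have h1 : flux (pc d + ε) (Sm h r) 0 ≤ ENNReal.ofReal u +
      (ENNReal.ofReal (2 * d * (C1 * (ρ : ℝ) ^ 10) * ε) +
        ENNReal.ofReal (2 * d * (1 / (ρ : ℝ) ^ 25) * 2)) := by
    unfold flux
    refine (ENNReal.tsum_le_tsum hterm).trans ?_
    rw [ENNReal.tsum_add, ENNReal.tsum_add, ENNReal.tsum_mul_right, ENNReal.tsum_mul_right]
    rw [ENNReal.tsum_mul_right]
    have hdd : ENNReal.ofReal (2 * (d : ℝ)) = ((2 * d : ℕ) : ℝ≥0∞) := by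
      rw [← ENNReal.ofReal_natCast]
      push_cast
      rfl
    refine add_le_add ?_ (add_le_add ?_ ?_)
    · rw [← ENNReal.tsum_mul_right]
      exact hflux
    · rw [ENNReal.ofReal_mul (by positivity), ENNReal.ofReal_mul (by positivity), hdd]
      refine mul_le_mul_left ?_ _
      exact (S15_exits (Sm h r) _).trans (mul_le_mul_right hsum _)
    · rw [ENNReal.ofReal_mul (by positivity), ENNReal.ofReal_mul (by positivity), hdd,
        ENNReal.ofReal_ofNat]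
      refine mul_le_mul_left ?_ _
      exact (S15_exits (Sm h r) E).trans (mul_le_mul_right hE2 _)
  refine h1.trans ?_
  rw [← ENNReal.ofReal_add (by positivity) (by positivity),
    ← ENNReal.ofReal_add (by positivity) (by positivity)]
  refine ENNReal.ofReal_le_ofReal ?_
  have h2 : ε * (ρ : ℝ) ^ 10 ≤ 1 / ρ := S15_scale hs (by norm_num)
  have h3 : 1 / (ρ : ℝ) ^ 25 ≤ 1 / ρ := by
    refine one_div_le_one_div_of_le hρ0 ?_
    exact le_self_pow₀ (by linarith) (by norm_num)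
  have h4 : 2 * d * (C1 * (ρ : ℝ) ^ 10) * ε ≤ 2 * d * C1 * (1 / ρ) := by
    calc 2 * d * (C1 * (ρ : ℝ) ^ 10) * ε = 2 * d * C1 * (ε * (ρ : ℝ) ^ 10) := by ring
      _ ≤ _ := mul_le_mul_of_nonneg_left h2 (by positivity)
  have h5 : 2 * d * (1 / (ρ : ℝ) ^ 25) * 2 ≤ 4 * d * (1 / ρ) := by
    calc 2 * d * (1 / (ρ : ℝ) ^ 25) * 2 = 4 * d * (1 / (ρ : ℝ) ^ 25) := by ring
      _ ≤ _ := mul_le_mul_of_nonneg_left h3 (by positivity)
  have h6 : B * (1 / ρ) ≤ v - u := by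
    have h7 : B / (v - u) ≤ ρ := hρ2.trans (by exact_mod_cast hρb)
    rw [div_le_iff₀ (by linarith)] at h7
    rw [mul_one_div, div_le_iff₀ hρ0]
    linarith
  rw [hB] at h6
  linarith

/-! ### The Simon-Lieb inequality for the truncated two-point function -/

private theorem S15_dec (p : ℝ) (n : ℕ) (w x : Vx d) :
    PP p (edges (Bx d n)) {T | w ∉ JJ n T ∧ Conn T (Bx d n) w x} =
      ∑ J ∈ (Bx d n).powerset, PP p (edges (Bx d n)) {T | clS T (Bx d n) (Bd d n) = J} *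
        (if w ∈ J then 0 else tau p (Bx d n \ J) w x) := by
  classical
  have h1 := EE_clS_sum p (Bx d n) (Bd d n) (fun J T' => if w ∈ J then (0 : ℝ) else
    if T' ∈ {T' : Finset (Ed d) | Conn T' (Bx d n \ J : Finset (Vx d)) w x} then 1 else 0)
  have h2 : ∀ J : Finset (Vx d), EE p (edges (Bx d n \ J)) (fun T' => if w ∈ J then (0 : ℝ) else
      if T' ∈ {T' : Finset (Ed d) | Conn T' (Bx d n \ J : Finset (Vx d)) w x} then 1 else 0) =
      if w ∈ J then 0 else tau p (Bx d n \ J) w x := by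
    intro J
    by_cases hw : w ∈ J
    · simp only [if_pos hw]
      exact EE_const _ _ _
    · simp only [if_neg hw]
      unfold tau
      rw [PP_def]
  simp_rw [h2] at h1
  rw [← h1, PP_def]
  refine EE_congr fun T _ => ?_
  have hiff : w ∉ clS T (Bx d n) (Bd d n) → (Conn T (Bx d n) w x ↔
      Conn (T ∩ edges (Bx d n \ clS T (Bx d n) (Bd d n)))
        ((Bx d n \ clS T (Bx d n) (Bd d n) : Finset (Vx d)) : Set (Vx d)) w x) := by
    intro hw
    rw [conn_inter_edges]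
    exact conn_off_clS hw x
  by_cases hw : w ∈ clS T (Bx d n) (Bd d n)
  · rw [if_pos hw, if_neg]
    rintro ⟨h3, _⟩
    exact h3 hw
  · rw [if_neg hw]
    by_cases hcon : Conn T (Bx d n) w x
    · rw [if_pos, if_pos]
      · exact (hiff hw).1 hcon
      · exact ⟨hw, hcon⟩
    · rw [if_neg, if_neg]
      · exact fun h3 => hcon ((hiff hw).2 h3)
      · rintro ⟨_, h3⟩
        exact hcon h3

private theorem S15_fin {p : ℝ} (hp : 0 ≤ p) (hp1 : p ≤ 1) (n : ℕ) (S : Set (Vx d))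
    (S' : Finset (Vx d)) (hS' : ∀ z, z ∈ S' ↔ z ∈ Bx d n ∧ z ∈ S) (h0 : (0 : Vx d) ∈ S)
    {x : Vx d} (hx : x ∉ S) :
    PP p (edges (Bx d n)) {T | (0 : Vx d) ∉ JJ n T ∧ Conn T (Bx d n) 0 x} ≤
      ∑ q ∈ exits S' (Bx d n), tau p S' 0 q.1 * p *
        PP p (edges (Bx d n)) {T | q.2 ∉ JJ n T ∧ Conn T (Bx d n) q.2 x} := by
  classical
  have hB0 : (0 : Vx d) ∈ Bx d n := by
    rw [mem_Bx, nm_eq_zero.2 rfl]
    exact Nat.zero_le n
  have key : ∀ J ∈ (Bx d n).powerset, (if (0 : Vx d) ∈ J then 0 else tau p (Bx d n \ J) 0 x) ≤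
      ∑ q ∈ exits S' (Bx d n), tau p S' 0 q.1 * p *
        (if q.2 ∈ J then 0 else tau p (Bx d n \ J) q.2 x) := by
    intro J _
    have hnn : ∀ q ∈ exits S' (Bx d n), 0 ≤ tau p S' 0 q.1 * p *
        (if q.2 ∈ J then 0 else tau p (Bx d n \ J) q.2 x) := by
      intro q _
      refine mul_nonneg (mul_nonneg (tau_nonneg hp hp1 _ _ _) hp) ?_
      split_ifs
      · exact le_rfl
      · exact tau_nonneg hp hp1 _ _ _
    by_cases h0J : (0 : Vx d) ∈ J
    · rw [if_pos h0J]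
      exact Finset.sum_nonneg hnn
    · rw [if_neg h0J]
      have hsub : S' \ J ⊆ Bx d n \ J := by
        intro z hz
        rw [Finset.mem_sdiff] at hz ⊢
        exact ⟨((hS' z).1 hz.1).1, hz.2⟩
      have ha : (0 : Vx d) ∈ S' \ J := Finset.mem_sdiff.2 ⟨(hS' 0).2 ⟨hB0, h0⟩, h0J⟩
      have hSL := SL hp hp1 hsub ha x
      have hx' : x ∉ S' \ J := fun h => hx ((hS' x).1 (Finset.mem_sdiff.1 h).1).2
      rw [tau_zero_right p hx', zero_add] at hSL
      refine hSL.trans ?_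
      have hex : exits (S' \ J) (Bx d n \ J) ⊆ exits S' (Bx d n) := by
        intro q hq
        rw [mem_exits] at hq ⊢
        obtain ⟨h1, h2, h3, h4⟩ := hq
        rw [Finset.mem_sdiff] at h1 h2
        refine ⟨h1.1, h2.1, fun h5 => h3 (Finset.mem_sdiff.2 ⟨h5, h2.2⟩), h4⟩
      refine le_trans ?_ (Finset.sum_le_sum_of_subset_of_nonneg hex fun q hq _ => hnn q hq)
      refine Finset.sum_le_sum fun q hq => ?_
      rw [mem_exits] at hq
      have hq2 : q.2 ∉ J := (Finset.mem_sdiff.1 hq.2.1).2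
      rw [if_neg hq2]
      refine mul_le_mul_of_nonneg_right ?_ (tau_nonneg hp hp1 _ _ _)
      exact mul_le_mul_of_nonneg_right (tau_mono hp hp1 Finset.sdiff_subset _ _) hp
  rw [S15_dec]
  refine (Finset.sum_le_sum fun J hJ => mul_le_mul_of_nonneg_left (key J hJ)
    (PP_nonneg hp hp1)).trans (le_of_eq ?_)
  have h5 : ∀ q ∈ exits S' (Bx d n), tau p S' 0 q.1 * p *
      PP p (edges (Bx d n)) {T | q.2 ∉ JJ n T ∧ Conn T (Bx d n) q.2 x} =
      ∑ J ∈ (Bx d n).powerset, PP p (edges (Bx d n)) {T | clS T (Bx d n) (Bd d n) = J} *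
        (tau p S' 0 q.1 * p * (if q.2 ∈ J then 0 else tau p (Bx d n \ J) q.2 x)) := by
    intro q _
    rw [S15_dec, Finset.mul_sum]
    refine Finset.sum_congr rfl fun J _ => ?_
    ring
  rw [Finset.sum_congr rfl h5, Finset.sum_comm]
  refine Finset.sum_congr rfl fun J _ => ?_
  rw [Finset.mul_sum]

private theorem S15_SL (hd : 0 < d) {p : ℝ} (hp : 0 ≤ p) (hp1 : p ≤ 1) {S : Set (Vx d)}
    (h0 : (0 : Vx d) ∈ S) {x : Vx d} (hx : x ∉ S) :
    tauf p x ≤ ∑' q : exI S Set.univ, tauI p S 0 q.1.1 * ENNReal.ofReal p *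
      tauf p (x - q.1.2) := by
  classical
  unfold tauf
  rw [EF_eq_iSup hd]
  refine iSup_le fun n => ?_
  have h1 : ∑ K ∈ (Bx d n \ Bd d n).powerset, ENNReal.ofReal (ww p K) *
      (if x ∈ K then (1 : ℝ≥0∞) else 0) =
      ENNReal.ofReal (PP p (edges (Bx d n)) {T | (0 : Vx d) ∉ JJ n T ∧ Conn T (Bx d n) 0 x}) := by
    have h2 := EE_trunc hd p n (fun K : Finset (Vx d) => if x ∈ K then (1 : ℝ) else 0)
    have h3 : PP p (edges (Bx d n)) {T | (0 : Vx d) ∉ JJ n T ∧ Conn T (Bx d n) 0 x} =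
        ∑ K ∈ (Bx d n \ Bd d n).powerset, ww p K * (if x ∈ K then (1 : ℝ) else 0) := by
      rw [← h2, PP_def]
      refine EE_congr fun T _ => ?_
      by_cases hJ : (0 : Vx d) ∈ JJ n T
      · rw [if_pos hJ, if_neg]
        rintro ⟨h3, _⟩
        exact h3 hJ
      · rw [if_neg hJ]
        by_cases hcon : Conn T (Bx d n) 0 x
        · rw [if_pos, if_pos (mem_cl.2 hcon)]
          exact ⟨hJ, hcon⟩
        · rw [if_neg, if_neg (fun h => hcon (mem_cl.1 h))]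
          rintro ⟨_, h3⟩
          exact hcon h3
    rw [h3, ENNReal.ofReal_sum_of_nonneg]
    · refine Finset.sum_congr rfl fun K _ => ?_
      split_ifs
      · rw [mul_one, mul_one]
      · rw [mul_zero, mul_zero, ENNReal.ofReal_zero]
    · intro K _
      refine mul_nonneg (ww_nonneg hp hp1 K) ?_
      split_ifs
      · exact zero_le_one
      · exact le_rfl
  rw [h1]
  set S' : Finset (Vx d) := (Bx d n).filter (· ∈ S) with hS'
  have hmem : ∀ z, z ∈ S' ↔ z ∈ Bx d n ∧ z ∈ S := fun z => by rw [hS', Finset.mem_filter]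
  refine (ENNReal.ofReal_le_ofReal (S15_fin hp hp1 n S S' hmem h0 hx)).trans ?_
  rw [ENNReal.ofReal_sum_of_nonneg]
  · have h4 : ∀ q ∈ exits S' (Bx d n), q ∈ exI S (Set.univ : Set (Vx d)) := by
      intro q hq
      rw [mem_exits] at hq
      obtain ⟨h5, h6, h7, h8⟩ := hq
      exact ⟨((hmem q.1).1 h5).2, Set.mem_univ _, fun h9 => h7 ((hmem q.2).2 ⟨h6, h9⟩), h8⟩
    refine le_trans (Finset.sum_le_sum fun q _ => ?_) (A14_sum (exI S (Set.univ : Set (Vx d)))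
      (fun q : Vx d × Vx d => tauI p S 0 q.1 * ENNReal.ofReal p *
        EF p (fun K => if x - q.2 ∈ K then 1 else 0)) (exits S' (Bx d n)) h4)
    rw [ENNReal.ofReal_mul (mul_nonneg (tau_nonneg hp hp1 _ _ _) hp),
      ENNReal.ofReal_mul (tau_nonneg hp hp1 _ _ _)]
    refine mul_le_mul' (mul_le_mul_left ?_ _) ?_
    · exact le_tauI p (fun z hz => ((hmem z).1 (Finset.mem_coe.1 hz)).2) 0 q.1
    · exact tauf_trunc hd hp hp1 n q.2 x
  · intro q _
    exact mul_nonneg (mul_nonneg (tau_nonneg hp hp1 _ _ _) hp) (PP_nonneg hp hp1)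

theorem tauf_le_mu {p : ℝ} (hp : 0 ≤ p) (hp1 : p ≤ 1) (hm : 1 ≤ m) (h : m ≤ d) (r : ℕ)
    (hr : 1 ≤ r) (k : Vx m) (hk : r ≤ nm k) :
    tpj h (tauf p) k ≤ cv (mu p h r) (tpj h (tauf p)) k := by
  have h0 : (0 : Vx d) ∈ Sm h r := by
    intro i
    rw [pj_zero]
    show |(0 : ℤ)| < r
    rw [abs_zero]
    exact_mod_cast hr
  obtain ⟨i, hi⟩ := exists_natAbs_eq hm k
  have hout : ∀ x : Vx d, pj h x = k → x ∉ Sm h r := by
    intro x hx hxS
    have h1 : |pj h x i| < r := hxS i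
    rw [hx] at h1
    have h2 : ((k i).natAbs : ℤ) = |k i| := Int.natCast_natAbs _
    omega
  have h1 : tpj h (tauf p) k ≤ ∑' x : Vx d, ∑' q : exI (Sm h r) (Set.univ : Set (Vx d)),
      if pj h x = k then tauI p (Sm h r) 0 q.1.1 * ENNReal.ofReal p * tauf p (x - q.1.2)
        else 0 := by
    unfold tpj
    refine ENNReal.tsum_le_tsum fun x => ?_
    split_ifs with hx
    · exact S15_SL (by omega) hp hp1 h0 (hout x hx)
    · exact zero_le
  refine h1.trans (le_of_eq ?_)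
  rw [ENNReal.tsum_comm]
  unfold cv
  rw [tsum_mu_mul]
  refine tsum_congr fun q => ?_
  rw [← tpj_sub, ← tpj_smul]
  rfl

/-! ### Far decay -/

/-- The exit measures up to the radius `ρ`. -/
private noncomputable def S15_mu (p : ℝ) (h : m ≤ d) (ρ r : ℕ) (k : Vx m) : ℝ≥0∞ :=
  if r ≤ ρ then mu p h r k else 0

private theorem S15_isFace (p : ℝ) (h : m ≤ d) {M0 : ℝ} {ρ : ℕ}
    (hM : ∀ r : ℕ, 1 ≤ r → r ≤ ρ → flux p (Sm h r) 0 ≤ ENNReal.ofReal M0) :
    IsFace M0 (S15_mu p h ρ) where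
  perm r k π := by
    unfold S15_mu
    rw [mu_perm]
  refl r k i := by
    unfold S15_mu
    rw [mu_refl]
  supp r k _ hk := by
    unfold S15_mu at hk
    refine S15_supp p h (r := r) (k := k) fun h0 => hk ?_
    rw [h0, ite_self]
  mass r hr := by
    unfold S15_mu
    by_cases hrρ : r ≤ ρ
    · simp only [if_pos hrρ]
      rw [S15_mass]
      exact hM r hr hrρ
    · simp only [if_neg hrρ]
      rw [tsum_zero]
      exact zero_le

private theorem S15_perm (hm : 0 < m) (h : m ≤ d) (x : Vx d) :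
    ∃ π : Equiv.Perm (Fin d), nm x ≤ nm (pj h fun i => x (π i)) := by
  obtain ⟨i, hi⟩ := exists_natAbs_eq (by omega : 1 ≤ d) x
  refine ⟨Equiv.swap i (Fin.castLE h ⟨0, hm⟩), ?_⟩
  rw [← hi]
  have h1 := natAbs_le_nm (pj h fun j => x (Equiv.swap i (Fin.castLE h ⟨0, hm⟩) j)) ⟨0, hm⟩
  refine le_trans (le_of_eq ?_) h1
  change (x i).natAbs = (x (Equiv.swap i (Fin.castLE h ⟨0, hm⟩) (Fin.castLE h ⟨0, hm⟩))).natAbs
  rw [Equiv.swap_apply_right]

private theorem S15_real {m J : ℕ} (hm : 10000 ≤ m) {C0 : ℝ} (hC0 : 0 < C0) {ρ : ℕ} {ε : ℝ}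
    (hs : Scale ρ ε) (hJ : ρ ≤ 512 * m * 2 ^ J)
    (hρ : 4 * C0 ^ m * (512 * m) ^ (m - 1) * 2 ^ 150 ≤ (ρ : ℝ)) :
    ((2 : ℝ) ^ (1 / (32 * m) : ℝ)) ^ (16 * m * (J + 1)) * (C0 / 2 ^ J) ^ m * (2 / ε ^ 3) ≤
      1 / (ρ : ℝ) ^ 9000 := by
  have hm0 : (0 : ℝ) < m := by exact_mod_cast (by omega : 0 < m)
  have hρ1 : (1 : ℝ) ≤ ρ := by exact_mod_cast hs.rho
  have hρ0 : (0 : ℝ) < ρ := by linarith
  have hε0 := hs.pos
  have hJ0 : (0 : ℝ) < 2 ^ J := by positivity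
  -- the mass
  have h1 : ((2 : ℝ) ^ (1 / (32 * m) : ℝ)) ^ (16 * m * (J + 1)) ≤ 2 * 2 ^ J := by
    rw [← Real.rpow_natCast, ← Real.rpow_mul (by norm_num)]
    have e : (1 / (32 * m) : ℝ) * ((16 * m * (J + 1) : ℕ) : ℝ) = ((J : ℝ) + 1) / 2 := by
      push_cast
      field_simp
      ring
    rw [e]
    calc (2 : ℝ) ^ (((J : ℝ) + 1) / 2) ≤ (2 : ℝ) ^ ((J + 1 : ℕ) : ℝ) := by
          refine Real.rpow_le_rpow_of_exponent_le (by norm_num) ?_
          push_cast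
          have : (0 : ℝ) ≤ J := Nat.cast_nonneg J
          linarith
      _ = 2 * 2 ^ J := by
          rw [Real.rpow_natCast]
          ring
  -- the scale
  have h2 : 2 / ε ^ 3 ≤ 2 * (2 * ρ) ^ 150 := by
    rw [div_le_iff₀ (by positivity)]
    have h3 : 1 ≤ (ε * (2 * ρ : ℝ) ^ 50) ^ 3 := one_le_pow₀ hs.ge
    calc (2 : ℝ) = 2 * 1 := by ring
      _ ≤ 2 * (ε * (2 * ρ : ℝ) ^ 50) ^ 3 := by linarith
      _ = 2 * (2 * ρ) ^ 150 * ε ^ 3 := by ring
  have h4 : (ρ : ℝ) ^ (m - 1) ≤ (512 * m) ^ (m - 1) * (2 ^ J) ^ (m - 1) := by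
    rw [← mul_pow]
    refine pow_le_pow_left₀ (by positivity) ?_ _
    exact_mod_cast hJ
  have h5 : 2 * 2 ^ J * (C0 / 2 ^ J) ^ m * (ρ : ℝ) ^ (m - 1) ≤
      2 * C0 ^ m * (512 * m) ^ (m - 1) := by
    have h6 : (C0 / 2 ^ J) ^ m * ((2 : ℝ) ^ J) ^ (m - 1) * 2 ^ J = C0 ^ m := by
      have h7 : ((2 : ℝ) ^ J) ^ (m - 1) * 2 ^ J = ((2 : ℝ) ^ J) ^ m := by
        rw [← pow_succ]
        congr 1
        omega
      rw [mul_assoc, h7, div_pow]
      field_simp
    calc 2 * 2 ^ J * (C0 / 2 ^ J) ^ m * (ρ : ℝ) ^ (m - 1)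
        ≤ 2 * 2 ^ J * (C0 / 2 ^ J) ^ m * ((512 * m) ^ (m - 1) * (2 ^ J) ^ (m - 1)) :=
          mul_le_mul_of_nonneg_left h4 (by positivity)
      _ = 2 * (512 * m) ^ (m - 1) * ((C0 / 2 ^ J) ^ m * ((2 : ℝ) ^ J) ^ (m - 1) * 2 ^ J) := by
          ring
      _ = _ := by rw [h6]; ring
  rw [le_div_iff₀ (by positivity)]
  set A : ℝ := ((2 : ℝ) ^ (1 / (32 * m) : ℝ)) ^ (16 * m * (J + 1)) with hA
  have hA0 : 0 ≤ A := by positivity
  have h8 : A * (C0 / 2 ^ J) ^ m ≤ 2 * 2 ^ J * (C0 / 2 ^ J) ^ m :=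
    mul_le_mul_of_nonneg_right h1 (by positivity)
  set X : ℝ := 2 * 2 ^ J * (C0 / 2 ^ J) ^ m with hX
  have hX0 : 0 ≤ X := by positivity
  have h9 : A * (C0 / 2 ^ J) ^ m * (2 / ε ^ 3) * (ρ : ℝ) ^ 9000 ≤
      X * (2 * (2 * ρ) ^ 150) * (ρ : ℝ) ^ 9000 := by
    refine mul_le_mul_of_nonneg_right ?_ (by positivity)
    exact mul_le_mul h8 h2 (by positivity) hX0
  refine h9.trans ?_
  -- compare with the power of the scale
  have h10 : X * (2 * (2 * ρ) ^ 150) * (ρ : ℝ) ^ 9000 * ρ ≤ X * (ρ : ℝ) ^ (m - 1) *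
      (2 * 2 ^ 150) := by
    have h11 : (ρ : ℝ) ^ 9151 ≤ (ρ : ℝ) ^ (m - 1) := pow_le_pow_right₀ hρ1 (by omega)
    calc X * (2 * (2 * ρ) ^ 150) * (ρ : ℝ) ^ 9000 * ρ = X * (2 * 2 ^ 150) * (ρ : ℝ) ^ 9151 := by
          rw [mul_pow]
          ring
      _ ≤ X * (2 * 2 ^ 150) * (ρ : ℝ) ^ (m - 1) :=
          mul_le_mul_of_nonneg_left h11 (by positivity)
      _ = _ := by ring
  have h12 : X * (ρ : ℝ) ^ (m - 1) * (2 * 2 ^ 150) ≤ ρ := by
    calc X * (ρ : ℝ) ^ (m - 1) * (2 * 2 ^ 150)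
        ≤ (2 * C0 ^ m * (512 * m) ^ (m - 1)) * (2 * 2 ^ 150) :=
          mul_le_mul_of_nonneg_right h5 (by positivity)
      _ = 4 * C0 ^ m * (512 * m) ^ (m - 1) * 2 ^ 150 := by ring
      _ ≤ ρ := hρ
  have h13 : X * (2 * (2 * ρ) ^ 150) * (ρ : ℝ) ^ 9000 * ρ ≤ 1 * ρ := by
    rw [one_mul]
    exact h10.trans h12
  exact le_of_mul_le_mul_right h13 hρ0

theorem far_decay (hc : Crit m d h C) : ∃ ρ0 : ℕ, ∀ (ρ : ℕ) (ε : ℝ), ρ0 ≤ ρ → Scale ρ ε →
    ∀ x : Vx d, ρ ≤ 4 * nm x → tauf (pc d + ε) x ≤ ENNReal.ofReal (1 / (ρ : ℝ) ^ 9000) := by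
  obtain ⟨ρ1, hflux⟩ := flux_near hc
  obtain ⟨ε0, hε0, hap⟩ := apriori hc 1
  obtain ⟨C0, hC0, hnu⟩ := nu_sup
  have hm : 10000 ≤ m := hc.m_ge
  have hd : 0 < d := by omega
  have hpc0 : 0 ≤ pc d := by
    have := pc_pos hd
    have h2 : (0 : ℝ) ≤ 1 / (2 * d) := by positivity
    linarith
  obtain ⟨ρ2, hρ2⟩ := exists_nat_ge (1 / ε0)
  obtain ⟨ρ3, hρ3⟩ := exists_nat_ge (4 * C0 ^ m * (512 * m) ^ (m - 1) * 2 ^ 150)
  refine ⟨max (max ρ1 ρ2) (max ρ3 (256 * m)), fun ρ ε hρ hs x hx => ?_⟩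
  have hρa : ρ1 ≤ ρ := (le_max_left _ _).trans ((le_max_left _ _).trans hρ)
  have hρb : ρ2 ≤ ρ := (le_max_right _ _).trans ((le_max_left _ _).trans hρ)
  have hρc : ρ3 ≤ ρ := (le_max_left _ _).trans ((le_max_right _ _).trans hρ)
  have hρd : 256 * m ≤ ρ := (le_max_right _ _).trans ((le_max_right _ _).trans hρ)
  have hρ0 : (0 : ℝ) < ρ := by exact_mod_cast (by omega : 0 < ρ)
  have heps : ε ≤ 1 / ρ := S15_eps hs
  have hε1 : ε ≤ ε0 := by
    refine heps.trans ?_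
    have h1 : 1 / ε0 ≤ ρ := hρ2.trans (by exact_mod_cast hρb)
    rw [div_le_iff₀ hε0] at h1
    rw [div_le_iff₀ hρ0]
    linarith
  have hρr : (2 : ℝ) ≤ ρ := by exact_mod_cast (by omega : 2 ≤ ρ)
  have hε2 : ε ≤ 1 / 2 := heps.trans (one_div_le_one_div_of_le (by norm_num) hρr)
  have hpc1 : pc d ≤ 1 / 1000 := hc.pc_hi
  have hεp := hs.pos
  have hp : 0 ≤ pc d + ε := by linarith
  have hp1 : pc d + ε ≤ 1 := by linarith
  set p : ℝ := pc d + ε with hpdef
  -- the scale of the iteration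
  have hq0 : ρ / (256 * m) ≠ 0 := by
    rw [Nat.div_ne_zero_iff]
    exact ⟨by omega, hρd⟩
  set J := Nat.log 2 (ρ / (256 * m)) with hJ
  have hJ1 : 2 ^ J ≤ ρ / (256 * m) := Nat.pow_log_le_self 2 hq0
  have hJ2 : ρ / (256 * m) < 2 ^ (J + 1) := Nat.lt_pow_succ_log_self (by norm_num) _
  have hJρ : 256 * m * 2 ^ J ≤ ρ := by
    calc 256 * m * 2 ^ J ≤ 256 * m * (ρ / (256 * m)) := Nat.mul_le_mul_left _ hJ1
      _ ≤ ρ := Nat.mul_div_le _ _
  have hρJ : ρ ≤ 512 * m * 2 ^ J := by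
    have h1 : ρ < 256 * m * (ρ / (256 * m) + 1) := Nat.lt_mul_div_succ ρ (by omega)
    have h2 : 256 * m * (ρ / (256 * m) + 1) ≤ 256 * m * 2 ^ (J + 1) :=
      Nat.mul_le_mul_left _ hJ2
    have h3 : 256 * m * 2 ^ (J + 1) = 512 * m * 2 ^ J := by ring
    omega
  have h2J : 2 ^ (J + 1) ≤ ρ := by
    calc 2 ^ (J + 1) = 2 * 2 ^ J := by ring
      _ ≤ 256 * m * 2 ^ J := Nat.mul_le_mul_right _ (by omega)
      _ ≤ ρ := hJρ
  have hM1 : (1 : ℝ) ≤ (2 : ℝ) ^ (1 / (32 * m) : ℝ) :=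
    Real.one_le_rpow (by norm_num) (by positivity)
  have hface : IsFace ((2 : ℝ) ^ (1 / (32 * m) : ℝ)) (S15_mu p h ρ) :=
    S15_isFace p h fun r hr hrρ => hflux ρ ε hρa hs r hr hrρ
  -- the permutation
  obtain ⟨π, hπ⟩ := S15_perm (by omega : 0 < m) h x
  have ht1 : tauf p x ≤ tpj h (tauf p) (pj h fun i => x (π i)) := by
    rw [← tauf_sp_perm p π x]
    exact le_tpj h (tauf p) fun i => x (π i)
  have hk : 64 * m * 2 ^ J ≤ nm (pj h fun i => x (π i)) := by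
    have h1 : 4 * (64 * m * 2 ^ J) = 256 * m * 2 ^ J := by ring
    omega
  have ht2 : tpj h (tauf p) (pj h fun i => x (π i)) ≤
      cv (nu (S15_mu p h ρ) J) (tpj h (tauf p)) (pj h fun i => x (π i)) := by
    refine le_nu_cv (by omega) hface J (fun r hr hrJ k hrk => ?_) _ hk
    have h1 : S15_mu p h ρ r = mu p h r := by
      funext k
      unfold S15_mu
      rw [if_pos (by omega)]
    rw [h1]
    exact tauf_le_mu hp hp1 (by omega) h r hr k hrk
  have ht3 : cv (nu (S15_mu p h ρ) J) (tpj h (tauf p)) (pj h fun i => x (π i)) ≤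
      (∑' k, tpj h (tauf p) k) * ENNReal.ofReal
        (((2 : ℝ) ^ (1 / (32 * m) : ℝ)) ^ (16 * m * (J + 1)) * (C0 / 2 ^ J) ^ m) := by
    rw [cv_comm]
    exact cv_le_sup _ _ (fun k => hnu m (by omega) _ hM1 _ hface J k) _
  have ht4 : ∑' k, tpj h (tauf p) k ≤ ENNReal.ofReal (2 / ε ^ 3) := by
    rw [tsum_tpj, ← chif_eq_tsum]
    have h1 := hap ε hεp hε1
    simp only [pow_one, mul_one] at h1
    exact h1
  refine ht1.trans (ht2.trans (ht3.trans ?_))
  refine (mul_le_mul_left ht4 _).trans ?_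
  rw [← ENNReal.ofReal_mul (by positivity)]
  refine ENNReal.ofReal_le_ofReal ?_
  rw [mul_comm]
  exact S15_real hm hC0 hs hρJ (hρ3.trans (by exact_mod_cast hρc))

end Pool.Agent.HD
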