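import Pool.Agent.Lib.MP_8ca597_hd.A04
import Pool.Agent.Lib.MP_8ca597_hd.A05

/-!
# Row S16: self-avoiding paths as lists

`IsP T S l a z`: the list `l` is a self-avoiding path of open edges in `S` from `a` to `z`. `exists_isP`: a
shortest path (or induction along `Relation.ReflTransGen`, cutting loops, or `SimpleGraph.Walk.toPath`).
`card_le`: take `x ∈ cl T V a` and an open path from `x` to `a`; up to its first vertex `w` on `l` it uses no
edge of `l` (such an edge has its two ends on `l`), so `x ∈ cl (T \ pathE l) V w`. `box_mem`: the sublist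
`x` cuts `l` into pieces with disjoint sets of edges (`l` has no repeated vertex, so the edges of
consecutive pairs are different); a piece which joins `u` to `v` shows `Conn · S u v`; the piece is empty if
`u = v`. Do the induction for the remaining part of the list, with the statement that the witness of the
`boxL` is contained in the edges of that part together with `T \ pathE l`.
-/

set_option autoImplicit false

namespace Pool.Agent.HD

open Finset
open scoped ENNReal

variable {d : ℕ}

open Classical in
/-- The edges of a path. -/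
noncomputable def pathE (l : List (Vx d)) : Finset (Ed d) :=
  ((l.zip l.tail).map fun q => s(q.1, q.2)).toFinset

/-- Self-avoiding open paths. -/
structure IsP (T : Finset (Ed d)) (S : Finset (Vx d)) (l : List (Vx d)) (a z : Vx d) : Prop where
  nodup : l.Nodup
  head : l.head? = some a
  last : l.getLast? = some z
  mem : ∀ x ∈ l, x ∈ S
  edge : ∀ q ∈ l.zip l.tail, Adj q.1 q.2 ∧ s(q.1, q.2) ∈ T

private theorem S16_zip (l1 l2 : List (Vx d)) (v : Vx d) :
    (l1 ++ v :: l2).zip (l1 ++ v :: l2).tail =
      (l1 ++ [v]).zip (l1 ++ [v]).tail ++ (v :: l2).zip l2 := by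
  induction l1 with
  | nil => simp
  | cons b l1 ih =>
    cases l1 with
    | nil => simp
    | cons c l1 =>
      simp only [List.cons_append, List.tail_cons, List.zip_cons_cons] at ih ⊢
      rw [ih]

private theorem S16_mem_pathE {l : List (Vx d)} {e : Ed d} :
    e ∈ pathE l ↔ ∃ q ∈ l.zip l.tail, s(q.1, q.2) = e := by
  unfold pathE
  rw [List.mem_toFinset, List.mem_map]

private theorem S16_ends {l : List (Vx d)} {q : Vx d × Vx d} (h : q ∈ l.zip l.tail) :
    q.1 ∈ l ∧ q.2 ∈ l := by
  obtain ⟨x, y⟩ := q
  obtain ⟨h1, h2⟩ := List.of_mem_zip h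
  exact ⟨h1, List.mem_of_mem_tail h2⟩

private theorem S16_cons {T : Finset (Ed d)} {S : Finset (Vx d)} {a b z : Vx d}
    {l : List (Vx d)} (h : IsP T S (b :: l) b z) (ha : a ∈ S) (hn : a ∉ b :: l) (had : Adj a b)
    (he : s(a, b) ∈ T) : IsP T S (a :: b :: l) a z where
  nodup := List.nodup_cons.2 ⟨hn, h.nodup⟩
  head := rfl
  last := by rw [List.getLast?_cons_cons]; exact h.last
  mem := by
    intro x hx
    rcases List.mem_cons.1 hx with rfl | hx
    · exact ha
    · exact h.mem x hx
  edge := by
    intro q hq
    simp only [List.tail_cons, List.zip_cons_cons, List.mem_cons] at hq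
    rcases hq with rfl | hq
    · exact ⟨had, he⟩
    · exact h.edge q hq

private theorem S16_head {T : Finset (Ed d)} {S : Finset (Vx d)} {a z : Vx d}
    {l : List (Vx d)} (h : IsP T S l a z) : ∃ l', l = a :: l' := by
  cases l with
  | nil => exact absurd h.head (by simp)
  | cons b l =>
    have := h.head
    rw [List.head?_cons, Option.some_inj] at this
    exact ⟨l, by rw [this]⟩

/-- The end of a path. -/
private theorem S16_suffix {T : Finset (Ed d)} {S : Finset (Vx d)} {a v z : Vx d}
    {l1 l2 : List (Vx d)} (h : IsP T S (l1 ++ v :: l2) a z) : IsP T S (v :: l2) v z where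
  nodup := (List.nodup_append'.1 h.nodup).2.1
  head := rfl
  last := by
    have := h.last
    rw [List.getLast?_append_of_ne_nil _ (List.cons_ne_nil v l2)] at this
    exact this
  mem := fun x hx => h.mem x (List.mem_append_right l1 hx)
  edge := by
    intro q hq
    refine h.edge q ?_
    rw [S16_zip]
    exact List.mem_append_right _ hq

/-- The beginning of a path. -/
private theorem S16_prefix {T : Finset (Ed d)} {S : Finset (Vx d)} {a v z : Vx d}
    {l1 l2 : List (Vx d)} (h : IsP T S (l1 ++ v :: l2) a z) : IsP T S (l1 ++ [v]) a v where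
  nodup := by
    have h1 : (l1 ++ [v]).Sublist (l1 ++ v :: l2) :=
      List.Sublist.append_left (List.singleton_sublist.2 List.mem_cons_self) l1
    exact h.nodup.sublist h1
  head := by
    have := h.head
    cases l1 with
    | nil => exact this
    | cons b l1 => exact this
  last := by simp
  mem := by
    intro x hx
    refine h.mem x ?_
    rcases List.mem_append.1 hx with hx | hx
    · exact List.mem_append_left _ hx
    · rw [List.mem_singleton] at hx
      rw [hx]
      exact List.mem_append_right _ List.mem_cons_self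
  edge := by
    intro q hq
    refine h.edge q ?_
    rw [S16_zip]
    exact List.mem_append_left _ hq

theorem exists_isP {T : Finset (Ed d)} {S : Finset (Vx d)} {a z : Vx d} (h : Conn T S a z) :
    ∃ l, IsP T S l a z := by
  obtain ⟨ha, h⟩ := h
  have hz : z ∈ (S : Set (Vx d)) := Conn.right ⟨ha, h⟩
  induction h using Relation.ReflTransGen.head_induction_on with
  | refl =>
    refine ⟨[z], List.nodup_singleton z, rfl, rfl, fun x hx => ?_, fun q hq => ?_⟩
    · rw [List.mem_singleton] at hx
      rw [hx]
      exact ha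
    · simp at hq
  | head h1 hrest ih =>
    rename_i a c
    obtain ⟨l, hl⟩ := ih h1.1
    by_cases hal : a ∈ l
    · obtain ⟨l1, l2, hl'⟩ := List.append_of_mem hal
      rw [hl'] at hl
      exact ⟨a :: l2, S16_suffix hl⟩
    · obtain ⟨l', rfl⟩ := S16_head hl
      exact ⟨a :: c :: l', S16_cons hl ha hal h1.2.1 h1.2.2⟩

theorem IsP.card_le {T : Finset (Ed d)} {S V : Finset (Vx d)} {a z : Vx d} {l : List (Vx d)}
    (h : IsP T S l a z) (hS : S ⊆ V) :
    (cl T V a).card ≤ (l.map fun w => (cl (T \ pathE l) V w).card).sum := by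
  classical
  have hsub : cl T V a ⊆ l.toFinset.biUnion fun w => cl (T \ pathE l) V w := by
    intro x hx
    rw [Finset.mem_biUnion]
    have hx' := (mem_cl.1 hx).2
    clear hx
    induction hx' with
    | refl =>
      obtain ⟨l', hl'⟩ := S16_head h
      have hal : a ∈ l := by rw [hl']; exact List.mem_cons_self
      exact ⟨a, List.mem_toFinset.2 hal, self_mem_cl (hS (h.mem a hal))⟩
    | tail hrest h2 ih =>
      rename_i y x
      obtain ⟨w, hw, hy⟩ := ih
      by_cases he : s(y, x) ∈ pathE l
      · obtain ⟨q, hq, hqe⟩ := S16_mem_pathE.1 he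
        have hends := S16_ends hq
        have hxl : x ∈ l := by
          rw [Sym2.eq_iff] at hqe
          rcases hqe with ⟨_, h3⟩ | ⟨h3, _⟩
          · rw [← h3]; exact hends.2
          · rw [← h3]; exact hends.1
        exact ⟨x, List.mem_toFinset.2 hxl, self_mem_cl (Finset.mem_coe.1 h2.1)⟩
      · exact ⟨w, hw, cl_closed hy (Finset.mem_coe.1 h2.1) h2.2.1
          (Finset.mem_sdiff.2 ⟨h2.2.2, he⟩)⟩
  refine (Finset.card_le_card hsub).trans (Finset.card_biUnion_le.trans (le_of_eq ?_))
  exact List.sum_toFinset _ h.nodup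

/-- The connections between the consecutive elements of a list. -/
def legs (S : Finset (Vx d)) (l : List (Vx d)) : List (Set (Finset (Ed d))) :=
  (l.zip l.tail).map fun q => {T : Finset (Ed d) | Conn T S q.1 q.2}

private theorem S16_restrict {T : Finset (Ed d)} {S : Finset (Vx d)} {a z : Vx d}
    {l : List (Vx d)} (h : IsP T S l a z) : IsP (pathE l) S l a z :=
  ⟨h.nodup, h.head, h.last, h.mem, fun q hq => ⟨(h.edge q hq).1, S16_mem_pathE.2 ⟨q, hq, rfl⟩⟩⟩

private theorem S16_conn {T : Finset (Ed d)} {S : Finset (Vx d)} {a z : Vx d}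
    {l : List (Vx d)} (h : IsP T S l a z) : Conn T S a z := by
  induction l generalizing a with
  | nil => exact absurd h.head (by simp)
  | cons b l ih =>
    have hb : b = a := by
      have := h.head
      rwa [List.head?_cons, Option.some_inj] at this
    subst hb
    have hbS : b ∈ (S : Set (Vx d)) := h.mem b List.mem_cons_self
    cases l with
    | nil =>
      have h1 := h.last
      rw [List.getLast?_singleton, Option.some_inj] at h1
      rw [← h1]
      exact Conn.refl hbS
    | cons c l =>
      have h1 : IsP T S (c :: l) c z := S16_suffix (l1 := [b]) h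
      have h2 := ih h1
      have h3 := h.edge (b, c) (by simp)
      exact ⟨hbS, Relation.ReflTransGen.head ⟨h2.1, h3.1, h3.2⟩ h2.2⟩

private theorem S16_union (l1 l2 : List (Vx d)) (v : Vx d) :
    pathE (l1 ++ v :: l2) = pathE (l1 ++ [v]) ∪ pathE (v :: l2) := by
  classical
  ext e
  rw [Finset.mem_union, S16_mem_pathE, S16_mem_pathE, S16_mem_pathE, S16_zip]
  constructor
  · rintro ⟨q, hq, he⟩
    rcases List.mem_append.1 hq with hq | hq
    · exact Or.inl ⟨q, hq, he⟩
    · exact Or.inr ⟨q, hq, he⟩
  · rintro (⟨q, hq, he⟩ | ⟨q, hq, he⟩)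
    · exact ⟨q, List.mem_append_left _ hq, he⟩
    · exact ⟨q, List.mem_append_right _ hq, he⟩

private theorem S16_disj {T : Finset (Ed d)} {S : Finset (Vx d)} {a v z : Vx d}
    {l1 l2 : List (Vx d)} (h : IsP T S (l1 ++ v :: l2) a z) :
    Disjoint (pathE (l1 ++ [v])) (pathE (v :: l2)) := by
  have hcommon : ∀ u, u ∈ l1 ++ [v] → u ∈ v :: l2 → u = v := by
    intro u h1 h2
    rcases List.mem_append.1 h1 with h1 | h1
    · exact absurd h2 ((List.nodup_append'.1 h.nodup).2.2 h1)
    · exact List.mem_singleton.1 h1
  rw [Finset.disjoint_left]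
  intro e h1 h2
  obtain ⟨q, hq, rfl⟩ := S16_mem_pathE.1 h1
  obtain ⟨q', hq', he⟩ := S16_mem_pathE.1 h2
  have hne : q.1 ≠ q.2 := ((S16_prefix h).edge q hq).1.ne
  have e1 := S16_ends hq
  have e2 := S16_ends hq'
  rw [Sym2.eq_iff] at he
  rcases he with ⟨h3, h4⟩ | ⟨h3, h4⟩
  · rw [h3, h4] at e2
    exact hne ((hcommon _ e1.1 e2.1).trans (hcommon _ e1.2 e2.2).symm)
  · rw [h3, h4] at e2
    exact hne ((hcommon _ e1.1 e2.2).trans (hcommon _ e1.2 e2.1).symm)

private theorem S16_main {T : Finset (Ed d)} {S : Finset (Vx d)} {z : Vx d}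
    {B : Set (Finset (Ed d))} {F : Finset (Ed d)} (hF : F ∈ B) (x : List (Vx d)) :
    ∀ (l : List (Vx d)) (a : Vx d), IsP T S l a z → x.Sublist l → Disjoint (pathE l) F →
      pathE l ∪ F ∈ boxL (legs S (a :: (x ++ [z])) ++ [B]) := by
  classical
  induction x with
  | nil =>
    intro l a h _ hd
    have e : boxL (legs S (a :: ([] ++ [z])) ++ [B]) =
        box {T : Finset (Ed d) | Conn T S a z} (box B Set.univ) := by
      simp [legs, boxL]
    rw [e]
    exact ⟨pathE l, F, Finset.subset_union_left, Finset.subset_union_right, hd,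
      S16_conn (S16_restrict h), F, ∅, Finset.Subset.refl F, Finset.empty_subset F,
      Finset.disjoint_empty_right F, hF, Set.mem_univ _⟩
  | cons v x ih =>
    intro l a h hx hd
    obtain ⟨r1, r2, hr, hv, hxr⟩ := List.cons_sublist_iff.1 hx
    obtain ⟨s1, s2, hs⟩ := List.append_of_mem hv
    have hl : l = s1 ++ v :: (s2 ++ r2) := by rw [hr, hs]; simp
    rw [hl] at h hd ⊢
    have e : boxL (legs S (a :: ((v :: x) ++ [z])) ++ [B]) =
        box {T : Finset (Ed d) | Conn T S a v} (boxL (legs S (v :: (x ++ [z])) ++ [B])) := by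
      simp [legs, boxL]
    rw [S16_union] at hd ⊢
    rw [Finset.disjoint_union_left] at hd
    have h2 := ih (v :: (s2 ++ r2)) v (S16_suffix h)
      ((hxr.trans (List.sublist_append_right s2 r2)).trans (List.sublist_cons_self v _)) hd.2
    rw [e]
    refine ⟨pathE (s1 ++ [v]), pathE (v :: (s2 ++ r2)) ∪ F, ?_, ?_, ?_, ?_, h2⟩
    · rw [Finset.union_assoc]; exact Finset.subset_union_left
    · rw [Finset.union_assoc]; exact Finset.subset_union_right
    · rw [Finset.disjoint_union_right]
      exact ⟨S16_disj h, hd.1⟩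
    · exact S16_conn (S16_restrict (S16_prefix h))

theorem IsP.box_mem {T : Finset (Ed d)} {S : Finset (Vx d)} {a z : Vx d} {l : List (Vx d)}
    (h : IsP T S l a z) {x : List (Vx d)} (hx : x.Sublist l) {B : Set (Finset (Ed d))}
    (hB : T \ pathE l ∈ B) : T ∈ boxL (legs S (a :: (x ++ [z])) ++ [B]) := by
  classical
  have hsub : pathE l ⊆ T := by
    intro e he
    obtain ⟨q, hq, rfl⟩ := S16_mem_pathE.1 he
    exact (h.edge q hq).2
  have h1 := S16_main hB x l a h hx Finset.disjoint_sdiff
  rw [Finset.union_sdiff_of_subset hsub] at h1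
  exact h1

end Pool.Agent.HD
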