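import Mathlib

/-!
# Row S17: powers of a sum along a list

Power mean: `(∑ b) ^ k ≤ |l| ^ (k-1) ∑ b ^ k` (convert to a sum over `l.toFinset`, then
`inner`-free: `pow_sum_div_card_le_sum_pow`, or induction). If `w` is at position `A` (with `B` elements
after it, `A + B + 1 = |l|`): `|l| ^ (k-1) ≤ c ∑_{s < k} C(A + B, s)` (`pow_le_sum_choose`, e.g.
`c = (2 k) ^ k`: for `M ≥ k - 1` use `C(M, k-1) ≥ (M / (k-1)) ^ (k-1)`), and
`C(A+B, s) = ∑_{i + j = s} C(A, i) C(B, j)` (Vandermonde, `Nat.add_choose_eq`); `C(A, i) C(B, j)` is the number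
of pairs of sublists `x` (before `w`, length `i`), `y` (after `w`, length `j`), and these give different `(x, y)`
with `x ++ w :: y` a sublist of `l` (`l.Nodup`). Only the inequality is needed. An alternative
is an induction on the list.
-/

set_option autoImplicit false

namespace Pool.Agent.HD

open Finset

theorem pow_le_sum_choose (k : ℕ) (hk : 1 ≤ k) : ∃ c : ℝ, 0 < c ∧ ∀ M : ℕ,
    ((M : ℝ) + 1) ^ (k - 1) ≤ c * ∑ s ∈ range k, (M.choose s : ℝ) := by
  obtain ⟨r, rfl⟩ := Nat.exists_eq_add_of_le' hk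
  rw [Nat.add_sub_cancel]
  refine ⟨2 ^ r * (r.factorial : ℝ) + (2 * r + 1) ^ r, by positivity, fun M => ?_⟩
  have hS0 : ∀ s ∈ range (r + 1), (0 : ℝ) ≤ (M.choose s : ℝ) := fun s _ => by positivity
  have hSr : (M.choose r : ℝ) ≤ ∑ s ∈ range (r + 1), (M.choose s : ℝ) :=
    single_le_sum hS0 (mem_range.2 (Nat.lt_succ_self r))
  have hS1 : (1 : ℝ) ≤ ∑ s ∈ range (r + 1), (M.choose s : ℝ) := by
    have h1 : (M.choose 0 : ℝ) ≤ ∑ s ∈ range (r + 1), (M.choose s : ℝ) :=
      single_le_sum hS0 (mem_range.2 (Nat.succ_pos r))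
    simpa using h1
  rw [add_mul]
  rcases Nat.lt_or_ge (M + 1) (2 * r) with h | h
  · have h2 : ((M : ℝ) + 1) ^ r ≤ (2 * r + 1) ^ r := by
      refine pow_le_pow_left₀ (by positivity) ?_ r
      have h3 : ((M + 1 : ℕ) : ℝ) ≤ ((2 * r : ℕ) : ℝ) := by exact_mod_cast h.le
      push_cast at h3
      linarith
    have h4 : (0 : ℝ) ≤ 2 ^ r * (r.factorial : ℝ) * ∑ s ∈ range (r + 1), (M.choose s : ℝ) := by
      positivity
    have h5 : ((2 : ℝ) * r + 1) ^ r ≤ (2 * r + 1) ^ r * ∑ s ∈ range (r + 1), (M.choose s : ℝ) :=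
      le_mul_of_one_le_right (by positivity) hS1
    linarith
  · have h2 : (((M + 1 - r : ℕ) : ℝ)) ^ r ≤ (r.factorial : ℝ) * (M.choose r : ℝ) := by
      have := Nat.pow_le_choose (α := ℝ) r M
      rw [Nat.choose_eq_descFactorial_div_factorial] at *
      have h3 : (((M + 1 - r : ℕ) : ℝ)) ^ r / (r.factorial : ℝ) ≤
        ((M.descFactorial r / r.factorial : ℕ) : ℝ) := by exact_mod_cast this
      rw [div_le_iff₀ (by positivity)] at h3
      linarith
    have h3 : ((M : ℝ) + 1) ≤ 2 * ((M + 1 - r : ℕ) : ℝ) := by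
      have h4 : M + 1 ≤ 2 * (M + 1 - r) := by omega
      have h5 : ((M + 1 : ℕ) : ℝ) ≤ ((2 * (M + 1 - r) : ℕ) : ℝ) := by exact_mod_cast h4
      rw [Nat.cast_mul] at h5
      push_cast at h5 ⊢
      linarith
    have h4 : ((M : ℝ) + 1) ^ r ≤ 2 ^ r * ((r.factorial : ℝ) * (M.choose r : ℝ)) := by
      calc ((M : ℝ) + 1) ^ r ≤ (2 * ((M + 1 - r : ℕ) : ℝ)) ^ r :=
            pow_le_pow_left₀ (by positivity) h3 r
        _ = 2 ^ r * (((M + 1 - r : ℕ) : ℝ)) ^ r := mul_pow _ _ _
        _ ≤ _ := mul_le_mul_of_nonneg_left h2 (by positivity)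
    have h5 : (2 : ℝ) ^ r * ((r.factorial : ℝ) * (M.choose r : ℝ)) ≤
        2 ^ r * (r.factorial : ℝ) * ∑ s ∈ range (r + 1), (M.choose s : ℝ) := by
      rw [← mul_assoc]
      exact mul_le_mul_of_nonneg_left hSr (by positivity)
    have h6 : (0 : ℝ) ≤ (2 * r + 1) ^ r * ∑ s ∈ range (r + 1), (M.choose s : ℝ) := by positivity
    linarith

open Classical in
private theorem s17_sum_le {β : Type} (S : Finset β) (i : ℕ) (T : Finset (List β))
    (hT : ∀ X ∈ T, X.length = i ∧ ∀ w ∈ X, w ∈ S) (F : List β → ℝ) (hF : ∀ X, 0 ≤ F X) :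
    ∑ X ∈ T, F X ≤ ∑ x ∈ Fintype.piFinset fun _ : Fin i => S, F (List.ofFn x) := by
  have h1 : ∑ x ∈ Fintype.piFinset (fun _ : Fin i => S), F (List.ofFn x) =
      ∑ X ∈ (Fintype.piFinset (fun _ : Fin i => S)).image List.ofFn, F X := by
    rw [sum_image]
    intro x _ y _ h
    exact List.ofFn_injective h
  rw [h1]
  refine sum_le_sum_of_subset_of_nonneg ?_ fun X _ _ => hF X
  intro X hX
  obtain ⟨h2, h3⟩ := hT X hX
  subst h2
  rw [mem_image]
  refine ⟨X.get, ?_, List.ofFn_get X⟩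
  rw [Fintype.mem_piFinset]
  intro m
  exact h3 _ (List.get_mem X m)

open Classical in
private theorem s17_one {β : Type} (S : Finset β) (P Q : List β) (w : β) (hP : P.Nodup)
    (hQ : Q.Nodup) (hPS : ∀ v ∈ P, v ∈ S) (hQS : ∀ v ∈ Q, v ∈ S) (i j : ℕ) {t : ℝ}
    (ht : 0 ≤ t) :
    (P.length.choose i : ℝ) * (Q.length.choose j : ℝ) * t ≤
      ∑ x ∈ Fintype.piFinset fun _ : Fin i => S, ∑ y ∈ Fintype.piFinset fun _ : Fin j => S,
        if (List.ofFn x ++ w :: List.ofFn y).Sublist (P ++ w :: Q) then t else 0 := by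
  have hT1 : ∀ X ∈ (P.sublistsLen i).toFinset, X.length = i ∧ ∀ v ∈ X, v ∈ S := by
    intro X hX
    rw [List.mem_toFinset, List.mem_sublistsLen] at hX
    exact ⟨hX.2, fun v hv => hPS v (hX.1.subset hv)⟩
  have hT2 : ∀ X ∈ (Q.sublistsLen j).toFinset, X.length = j ∧ ∀ v ∈ X, v ∈ S := by
    intro X hX
    rw [List.mem_toFinset, List.mem_sublistsLen] at hX
    exact ⟨hX.2, fun v hv => hQS v (hX.1.subset hv)⟩
  have h1 := s17_sum_le S i (P.sublistsLen i).toFinset hT1
    (fun X => ∑ y ∈ Fintype.piFinset fun _ : Fin j => S,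
        if (X ++ w :: List.ofFn y).Sublist (P ++ w :: Q) then t else 0)
    (fun X => sum_nonneg fun y _ => by split_ifs <;> simp [ht])
  refine le_trans ?_ h1
  have h2 : ∀ X ∈ (P.sublistsLen i).toFinset, (Q.length.choose j : ℝ) * t ≤
      ∑ y ∈ Fintype.piFinset fun _ : Fin j => S,
        if (X ++ w :: List.ofFn y).Sublist (P ++ w :: Q) then t else 0 := by
    intro X hX
    have h3 := s17_sum_le S j (Q.sublistsLen j).toFinset hT2
      (fun Y => if (X ++ w :: Y).Sublist (P ++ w :: Q) then t else 0)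
      (fun Y => by split_ifs <;> simp [ht])
    refine le_trans ?_ h3
    have h4 : ∀ Y ∈ (Q.sublistsLen j).toFinset,
        (if (X ++ w :: Y).Sublist (P ++ w :: Q) then t else 0) = t := by
      intro Y hY
      rw [List.mem_toFinset, List.mem_sublistsLen] at hX hY
      rw [if_pos]
      exact hX.1.append (hY.1.cons_cons w)
    rw [sum_congr rfl h4, sum_const, List.toFinset_card_of_nodup (List.nodup_sublistsLen j hQ),
      List.length_sublistsLen, nsmul_eq_mul]
  calc (P.length.choose i : ℝ) * (Q.length.choose j : ℝ) * t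
      = ∑ X ∈ (P.sublistsLen i).toFinset, (Q.length.choose j : ℝ) * t := by
        rw [sum_const, List.toFinset_card_of_nodup (List.nodup_sublistsLen i hP),
          List.length_sublistsLen, nsmul_eq_mul, mul_assoc]
    _ ≤ _ := sum_le_sum h2

open Classical in
theorem list_pow_le (k : ℕ) (hk : 1 ≤ k) : ∃ c : ℝ, 0 < c ∧ ∀ (β : Type) (S : Finset β)
    (l : List β), l.Nodup → (∀ w ∈ l, w ∈ S) → ∀ b : β → ℝ, (∀ w, 0 ≤ b w) →
      (l.map b).sum ^ k ≤ c * ∑ i ∈ range k, ∑ j ∈ range (k - i), ∑ w ∈ S,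
        ∑ x ∈ Fintype.piFinset fun _ : Fin i => S, ∑ y ∈ Fintype.piFinset fun _ : Fin j => S,
          if (List.ofFn x ++ w :: List.ofFn y).Sublist l then b w ^ k else 0 := by
  obtain ⟨c, hc, hcM⟩ := pow_le_sum_choose k hk
  refine ⟨c, hc, fun β S l hl hlS b hb => ?_⟩
  set G : β → ℝ := fun w => ∑ i ∈ range k, ∑ j ∈ range (k - i),
    ∑ x ∈ Fintype.piFinset fun _ : Fin i => S, ∑ y ∈ Fintype.piFinset fun _ : Fin j => S,
      if (List.ofFn x ++ w :: List.ofFn y).Sublist l then b w ^ k else 0 with hG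
  have hG0 : ∀ w, 0 ≤ G w := by
    intro w
    refine sum_nonneg fun i _ => sum_nonneg fun j _ => sum_nonneg fun x _ =>
      sum_nonneg fun y _ => ?_
    split_ifs
    · exact pow_nonneg (hb w) k
    · exact le_rfl
  have hswap : ∑ i ∈ range k, ∑ j ∈ range (k - i), ∑ w ∈ S,
        ∑ x ∈ Fintype.piFinset fun _ : Fin i => S, ∑ y ∈ Fintype.piFinset fun _ : Fin j => S,
          (if (List.ofFn x ++ w :: List.ofFn y).Sublist l then b w ^ k else 0) =
      ∑ w ∈ S, G w := by
    simp only [hG]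
    rw [sum_comm]
    refine sum_congr rfl fun i _ => ?_
    rw [sum_comm]
  rw [hswap]
  -- the key estimate
  have key : ∀ w ∈ l.toFinset, (l.length : ℝ) ^ (k - 1) * b w ^ k ≤ c * G w := by
    intro w hw
    rw [List.mem_toFinset] at hw
    obtain ⟨P, Q, rfl⟩ := List.append_of_mem hw
    have hP : P.Nodup := (List.nodup_append.1 hl).1
    have hQ : Q.Nodup := (List.nodup_cons.1 (List.nodup_append.1 hl).2.1).2
    have hPS : ∀ v ∈ P, v ∈ S := fun v hv => hlS v (List.mem_append_left _ hv)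
    have hQS : ∀ v ∈ Q, v ∈ S := fun v hv =>
      hlS v (List.mem_append_right _ (List.mem_cons_of_mem _ hv))
    have ht : 0 ≤ b w ^ k := pow_nonneg (hb w) k
    have h1 := hcM (P.length + Q.length)
    have h2 : ((P ++ w :: Q).length : ℝ) = ((P.length + Q.length : ℕ) : ℝ) + 1 := by
      rw [List.length_append, List.length_cons]
      push_cast
      ring
    have h3 : ∑ s ∈ range k, ((P.length + Q.length).choose s : ℝ) =
        ∑ i ∈ range k, ∑ j ∈ range (k - i), (P.length.choose i : ℝ) * (Q.length.choose j : ℝ) := by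
      rw [← sum_range_diag_flip]
      refine sum_congr rfl fun s _ => ?_
      rw [Nat.add_choose_eq, Nat.cast_sum,
        Finset.Nat.sum_antidiagonal_eq_sum_range_succ_mk]
      refine sum_congr rfl fun i _ => ?_
      rw [Nat.cast_mul]
    rw [h2]
    calc (((P.length + Q.length : ℕ) : ℝ) + 1) ^ (k - 1) * b w ^ k
        ≤ (c * ∑ s ∈ range k, ((P.length + Q.length).choose s : ℝ)) * b w ^ k :=
          mul_le_mul_of_nonneg_right h1 ht
      _ = c * ∑ i ∈ range k, ∑ j ∈ range (k - i),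
            (P.length.choose i : ℝ) * (Q.length.choose j : ℝ) * b w ^ k := by
          rw [h3, mul_assoc, sum_mul]
          congr 1
          refine sum_congr rfl fun i _ => ?_
          rw [sum_mul]
      _ ≤ c * G w := by
          refine mul_le_mul_of_nonneg_left ?_ hc.le
          refine sum_le_sum fun i _ => sum_le_sum fun j _ => ?_
          exact s17_one S P Q w hP hQ hPS hQS i j ht
  -- power mean
  have hpm : (l.map b).sum ^ k ≤ (l.length : ℝ) ^ (k - 1) * ∑ w ∈ l.toFinset, b w ^ k := by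
    rw [← List.sum_toFinset b hl]
    obtain ⟨n, rfl⟩ := Nat.exists_eq_add_of_le' hk
    rw [Nat.add_sub_cancel]
    rcases Nat.eq_zero_or_pos l.length with h0 | h0
    · have : l = [] := List.length_eq_zero_iff.1 h0
      subst this
      simp
    · have h1 := pow_sum_div_card_le_sum_pow (s := l.toFinset) (f := b) (fun a _ => hb a) n
      rw [List.toFinset_card_of_nodup hl, div_le_iff₀ (by positivity)] at h1
      linarith
  refine hpm.trans ?_
  rw [mul_sum, mul_sum]
  refine (sum_le_sum key).trans ?_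
  refine sum_le_sum_of_subset_of_nonneg ?_ fun w _ _ => mul_nonneg hc.le (hG0 w)
  intro w hw
  exact hlS w (List.mem_toFinset.1 hw)

end Pool.Agent.HD
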