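import Pool.Agent.Lib.MP_8ca597_hd.S16
import Pool.Agent.Lib.MP_8ca597_hd.S17
import Pool.Agent.Lib.MP_8ca597_hd.A07
import Pool.Agent.Lib.MP_8ca597_hd.A12

/-!
# Row S18: the path and bush inequality (PB)

For every `T` with `Conn T S a z` choose a path `l T` (`exists_isP`), `b w = |cl (T \ pathE (l T)) V w|`. By
`IsP.card_le` and `list_pow_le` the integrand is at most the sum over `i, j, w, x, y` of
`1 (x ++ w :: y sublist of l T) * b w ^ k`, `b w ^ k = ∑_{t = 1}^{|V| ^ k} 1 (t ≤ b w ^ k)`, and by `IsP.box_mem`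
(`B = {T' | t ≤ |cl T' V w| ^ k}`, increasing) the event has, by `bkL`, probability at most
`∏ tau p S (consecutive elements of a :: x ++ [w] and of w :: y ++ [z]) * PP (t ≤ |cl T V w| ^ k)`
(for the connections in `S`, `PP p (edges V) = tau p S` by `PP_dep`; the list of legs of
`a :: (x ++ w :: y ++ [z])` is the concatenation). The sum over `t` of the last factor is `EE |C| ^ k`, the
sum over `x` is `kp (i + 1) a w`.
-/

set_option autoImplicit false

namespace Pool.Agent.HD

open Finset
open scoped ENNReal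

variable {d : ℕ} {p : ℝ}

/-- Powers of the two-point kernel in `S`. -/
noncomputable def kp (p : ℝ) (S : Finset (Vx d)) : ℕ → Vx d → Vx d → ℝ
  | 0, a, b => if a = b then 1 else 0
  | n + 1, a, b => ∑ u ∈ S, tau p S a u * kp p S n u b

private lemma S18_leg (hp : 0 ≤ p) (hp1 : p ≤ 1) {S V : Finset (Vx d)} (hS : S ⊆ V)
    (u v : Vx d) : PP p (edges V) {T : Finset (Ed d) | Conn T S u v} = tau p S u v :=
  PP_dep p (edges_mono hS) (dep_conn S u v)

private lemma S18_legs_cons (S : Finset (Vx d)) (a u : Vx d) (l : List (Vx d)) :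
    legs S (a :: u :: l) = {T : Finset (Ed d) | Conn T S a u} :: legs S (u :: l) := rfl

private lemma S18_legs_append (S : Finset (Vx d)) (x y : List (Vx d)) (w : Vx d) : ∀ a : Vx d,
    legs S (a :: (x ++ w :: y)) = legs S (a :: (x ++ [w])) ++ legs S (w :: y) := by
  induction x with
  | nil => intro a; rfl
  | cons u x ih =>
    intro a
    rw [List.cons_append, List.cons_append, S18_legs_cons, S18_legs_cons, ih u, List.cons_append]

private lemma S18_sum_succ {i : ℕ} (S : Finset (Vx d)) (f : (Fin (i + 1) → Vx d) → ℝ) :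
    ∑ x ∈ Fintype.piFinset fun _ : Fin (i + 1) => S, f x =
      ∑ u ∈ S, ∑ x ∈ Fintype.piFinset fun _ : Fin i => S, f (Fin.cons u x) := by
  rw [← sum_product']
  refine sum_nbij' (fun x => (x 0, Fin.tail x)) (fun q => Fin.cons q.1 q.2) ?_ ?_ ?_ ?_ ?_
  · intro x hx
    rw [Fintype.mem_piFinset] at hx
    rw [mem_product, Fintype.mem_piFinset]
    exact ⟨hx 0, fun j => hx j.succ⟩
  · intro q hq
    rw [mem_product, Fintype.mem_piFinset] at hq
    rw [Fintype.mem_piFinset]
    intro j
    refine Fin.cases ?_ (fun j => ?_) j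
    · rw [Fin.cons_zero]
      exact hq.1
    · rw [Fin.cons_succ]
      exact hq.2 j
  · intro x _
    exact Fin.cons_self_tail x
  · intro q _
    simp
  · intro x _
    simp only [Fin.cons_self_tail]

/-- The sum over the chains. -/
theorem sum_legs (hp : 0 ≤ p) (hp1 : p ≤ 1) {S V : Finset (Vx d)} (hS : S ⊆ V) (i : ℕ)
    (a w : Vx d) (hw : w ∈ S) : (∑ x ∈ Fintype.piFinset fun _ : Fin i => S,
      ((legs S (a :: (List.ofFn x ++ [w]))).map fun A => PP p (edges V) A).prod) =
        kp p S (i + 1) a w := by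
  induction i generalizing a with
  | zero =>
    have h1 : (Fintype.piFinset fun _ : Fin 0 => S) = {Fin.elim0} := by
      ext x
      rw [Fintype.mem_piFinset, mem_singleton]
      exact ⟨fun _ => funext fun j => j.elim0, fun _ j => j.elim0⟩
    rw [h1, sum_singleton, List.ofFn_zero, List.nil_append, S18_legs_cons]
    have h2 : legs S [w] = [] := rfl
    rw [h2, List.map_cons, List.map_nil, List.prod_cons, List.prod_nil, mul_one,
      S18_leg hp hp1 hS]
    show _ = ∑ u ∈ S, tau p S a u * kp p S 0 u w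
    rw [sum_eq_single_of_mem w hw]
    · show _ = tau p S a w * (if w = w then 1 else 0)
      rw [if_pos rfl, mul_one]
    · intro u _ huw
      show tau p S a u * (if u = w then 1 else 0) = 0
      rw [if_neg huw, mul_zero]
  | succ i ih =>
    rw [S18_sum_succ]
    show _ = ∑ u ∈ S, tau p S a u * kp p S (i + 1) u w
    refine sum_congr rfl fun u _ => ?_
    rw [← ih u, mul_sum]
    refine sum_congr rfl fun x _ => ?_
    rw [List.ofFn_cons, List.cons_append, S18_legs_cons, List.map_cons, List.prod_cons,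
      S18_leg hp hp1 hS]

private lemma S18_kp_nonneg (hp : 0 ≤ p) (hp1 : p ≤ 1) (S : Finset (Vx d)) (n : ℕ) :
    ∀ a b, 0 ≤ kp p S n a b := by
  induction n with
  | zero =>
    intro a b
    show 0 ≤ (if a = b then (1 : ℝ) else 0)
    split_ifs <;> norm_num
  | succ n ih =>
    intro a b
    exact sum_nonneg fun u _ => mul_nonneg (tau_nonneg hp hp1 S a u) (ih u b)

private lemma S18_cl_mono {T T' : Finset (Ed d)} (h : T ⊆ T') (V : Finset (Vx d)) (w : Vx d) :
    (cl T V w).card ≤ (cl T' V w).card :=
  card_le_card fun x hx => mem_cl.2 ((mem_cl.1 hx).mono h (Set.Subset.refl _))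

private lemma S18_pow (k n M : ℕ) (h : n ≤ M) :
    ((n : ℝ)) ^ k = ∑ t ∈ range (M ^ k), if t < n ^ k then (1 : ℝ) else 0 := by
  rw [← sum_filter, sum_const, nsmul_eq_mul, mul_one]
  have h1 : (range (M ^ k)).filter (fun t => t < n ^ k) = range (n ^ k) := by
    ext t
    rw [mem_filter, mem_range, mem_range]
    exact ⟨fun h2 => h2.2, fun h2 => ⟨lt_of_lt_of_le h2 (Nat.pow_le_pow_left h k), h2⟩⟩
  rw [h1, card_range, Nat.cast_pow]

open Classical in
private lemma S18_one (hp : 0 ≤ p) (hp1 : p ≤ 1 / 2) (S V : Finset (Vx d)) (a z w : Vx d)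
    (x y : List (Vx d)) (l : Finset (Ed d) → List (Vx d))
    (hl : ∀ T, Conn T S a z → IsP T S (l T) a z) (k : ℕ) :
    EE p (edges V) (fun T => if Conn T S a z ∧ (x ++ w :: y).Sublist (l T) then
      ((cl (T \ pathE (l T)) V w).card : ℝ) ^ k else 0) ≤
      ((legs S (a :: (x ++ [w]))).map fun A => PP p (edges V) A).prod *
        ((legs S (w :: (y ++ [z]))).map fun A => PP p (edges V) A).prod *
          EE p (edges V) fun T => ((cl T V w).card : ℝ) ^ k := by
  have hp1' : p ≤ 1 := by linarith
  have h1 : ∀ T : Finset (Ed d), ((cl T V w).card : ℝ) ^ k =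
      ∑ t ∈ range (V.card ^ k), if t < (cl T V w).card ^ k then (1 : ℝ) else 0 :=
    fun T => S18_pow k _ _ (card_le_card (cl_subset T V w))
  have h2 : EE p (edges V) (fun T => ((cl T V w).card : ℝ) ^ k) =
      ∑ t ∈ range (V.card ^ k), PP p (edges V) {T | t < (cl T V w).card ^ k} := by
    simp only [h1, EE_sum]
    refine sum_congr rfl fun t _ => ?_
    rw [PP_def]
    refine EE_congr fun T _ => ?_
    by_cases h3 : t < (cl T V w).card ^ k
    · rw [if_pos h3, if_pos (show T ∈ {T : Finset (Ed d) | t < (cl T V w).card ^ k} from h3)]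
    · rw [if_neg h3, if_neg (show T ∉ {T : Finset (Ed d) | t < (cl T V w).card ^ k} from h3)]
  have h4 : EE p (edges V) (fun T => if Conn T S a z ∧ (x ++ w :: y).Sublist (l T) then
      ((cl (T \ pathE (l T)) V w).card : ℝ) ^ k else 0) =
      ∑ t ∈ range (V.card ^ k), PP p (edges V) {T | (Conn T S a z ∧
        (x ++ w :: y).Sublist (l T)) ∧ t < (cl (T \ pathE (l T)) V w).card ^ k} := by
    have h5 : ∀ T : Finset (Ed d), (if Conn T S a z ∧ (x ++ w :: y).Sublist (l T) then
        ((cl (T \ pathE (l T)) V w).card : ℝ) ^ k else 0) =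
        ∑ t ∈ range (V.card ^ k), if T ∈ {T : Finset (Ed d) | (Conn T S a z ∧
          (x ++ w :: y).Sublist (l T)) ∧ t < (cl (T \ pathE (l T)) V w).card ^ k} then
            (1 : ℝ) else 0 := by
      intro T
      by_cases h6 : Conn T S a z ∧ (x ++ w :: y).Sublist (l T)
      · rw [if_pos h6, h1]
        refine sum_congr rfl fun t _ => ?_
        by_cases h7 : t < (cl (T \ pathE (l T)) V w).card ^ k
        · rw [if_pos h7, if_pos (show T ∈ {T : Finset (Ed d) | (Conn T S a z ∧
            (x ++ w :: y).Sublist (l T)) ∧ t < (cl (T \ pathE (l T)) V w).card ^ k} from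
            ⟨h6, h7⟩)]
        · rw [if_neg h7, if_neg (fun h8 : T ∈ {T : Finset (Ed d) | (Conn T S a z ∧
            (x ++ w :: y).Sublist (l T)) ∧ t < (cl (T \ pathE (l T)) V w).card ^ k} => h7 h8.2)]
      · rw [if_neg h6]
        refine (sum_eq_zero fun t _ => ?_).symm
        rw [if_neg (fun h8 : T ∈ {T : Finset (Ed d) | (Conn T S a z ∧
            (x ++ w :: y).Sublist (l T)) ∧ t < (cl (T \ pathE (l T)) V w).card ^ k} => h6 h8.1)]
    simp only [h5, EE_sum]
    refine sum_congr rfl fun t _ => ?_
    rw [PP_def]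
    refine EE_congr fun T _ => ?_
    by_cases h8 : T ∈ {T : Finset (Ed d) | (Conn T S a z ∧
        (x ++ w :: y).Sublist (l T)) ∧ t < (cl (T \ pathE (l T)) V w).card ^ k}
    · rw [if_pos h8, if_pos h8]
    · rw [if_neg h8, if_neg h8]
  rw [h2, h4, mul_sum]
  refine sum_le_sum fun t _ => ?_
  have hup : Up {T : Finset (Ed d) | t < (cl T V w).card ^ k} := fun T T' hT ht =>
    lt_of_lt_of_le ht (Nat.pow_le_pow_left (S18_cl_mono hT V w) k)
  have h9 : PP p (edges V) {T | (Conn T S a z ∧
        (x ++ w :: y).Sublist (l T)) ∧ t < (cl (T \ pathE (l T)) V w).card ^ k} ≤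
      PP p (edges V) (boxL (legs S (a :: ((x ++ w :: y) ++ [z])) ++
        [{T : Finset (Ed d) | t < (cl T V w).card ^ k}])) :=
    PP_mono hp hp1' fun T _ hT => (hl T hT.1.1).box_mem hT.1.2 hT.2
  refine h9.trans ((bkL hp hp1 (edges V) _ ?_).trans (le_of_eq ?_))
  · intro A hA
    rw [List.mem_append, List.mem_singleton] at hA
    rcases hA with hA | rfl
    · unfold legs at hA
      obtain ⟨q, _, rfl⟩ := List.mem_map.1 hA
      exact up_conn _ _ _
    · exact hup
  · rw [List.append_assoc, List.cons_append, S18_legs_append, List.map_append, List.map_append,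
      List.prod_append, List.prod_append, List.map_cons, List.map_nil, List.prod_cons,
      List.prod_nil, mul_one]

open Classical in
/-- The path and bush inequality. -/
theorem pathbush (k : ℕ) (hk : 1 ≤ k) : ∃ c : ℝ, 0 < c ∧ ∀ (d : ℕ) (p : ℝ), 0 ≤ p → p ≤ 1 / 2 →
    ∀ (S V : Finset (Vx d)), S ⊆ V → ∀ a z : Vx d,
      (EE p (edges V) fun T => if Conn T S a z then ((cl T V a).card : ℝ) ^ k else 0) ≤
        c * ∑ i ∈ range k, ∑ j ∈ range (k - i), ∑ w ∈ S,
          kp p S (i + 1) a w * kp p S (j + 1) w z *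
            EE p (edges V) fun T => ((cl T V w).card : ℝ) ^ k := by
  obtain ⟨c, hc, hL⟩ := list_pow_le k hk
  refine ⟨c, hc, fun d p hp hp1 S V hS a z => ?_⟩
  have hp1' : p ≤ 1 := by linarith
  by_cases hz : z ∈ S
  · have hex : ∀ T : Finset (Ed d), ∃ l, Conn T S a z → IsP T S l a z := by
      intro T
      by_cases h : Conn T S a z
      · obtain ⟨l, hl⟩ := exists_isP h
        exact ⟨l, fun _ => hl⟩
      · exact ⟨[], fun h' => absurd h' h⟩
    choose l hl using hex
    have h1 : ∀ T : Finset (Ed d), (if Conn T S a z then ((cl T V a).card : ℝ) ^ k else 0) ≤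
        c * ∑ i ∈ range k, ∑ j ∈ range (k - i), ∑ w ∈ S,
          ∑ x ∈ Fintype.piFinset fun _ : Fin i => S, ∑ y ∈ Fintype.piFinset fun _ : Fin j => S,
            if Conn T S a z ∧ (List.ofFn x ++ w :: List.ofFn y).Sublist (l T) then
              ((cl (T \ pathE (l T)) V w).card : ℝ) ^ k else 0 := by
      intro T
      by_cases h : Conn T S a z
      · rw [if_pos h]
        have hT := hl T h
        have h2 := hT.card_le hS
        have h3 : ((cl T V a).card : ℝ) ≤
            ((l T).map fun w => ((cl (T \ pathE (l T)) V w).card : ℝ)).sum := by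
          have h4 : (((l T).map fun w => (cl (T \ pathE (l T)) V w).card).sum : ℝ) =
              ((l T).map fun w => ((cl (T \ pathE (l T)) V w).card : ℝ)).sum := by
            rw [Nat.cast_list_sum, List.map_map]
            rfl
          rw [← h4]
          exact_mod_cast h2
        refine (pow_le_pow_left₀ (Nat.cast_nonneg _) h3 k).trans ?_
        refine (hL (Vx d) S (l T) hT.nodup hT.mem
          (fun w => ((cl (T \ pathE (l T)) V w).card : ℝ)) (fun w => Nat.cast_nonneg _)).trans
          (le_of_eq ?_)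
        congr 1
        refine sum_congr rfl fun i _ => sum_congr rfl fun j _ => sum_congr rfl fun w _ =>
          sum_congr rfl fun x _ => sum_congr rfl fun y _ => ?_
        by_cases h5 : (List.ofFn x ++ w :: List.ofFn y).Sublist (l T)
        · rw [if_pos h5, if_pos ⟨h, h5⟩]
        · rw [if_neg h5, if_neg (fun h6 => h5 h6.2)]
      · rw [if_neg h]
        refine mul_nonneg hc.le (sum_nonneg fun i _ => sum_nonneg fun j _ => sum_nonneg fun w _ =>
          sum_nonneg fun x _ => sum_nonneg fun y _ => ?_)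
        split_ifs
        · exact pow_nonneg (Nat.cast_nonneg _) _
        · exact le_rfl
    refine (EE_mono hp hp1' fun T _ => h1 T).trans ?_
    simp only [EE_const_mul, EE_sum]
    refine mul_le_mul_of_nonneg_left ?_ hc.le
    refine sum_le_sum fun i _ => sum_le_sum fun j _ => sum_le_sum fun w hw => ?_
    have h2 : ∀ x ∈ Fintype.piFinset fun _ : Fin i => S,
        ∀ y ∈ Fintype.piFinset fun _ : Fin j => S,
        EE p (edges V) (fun T => if Conn T S a z ∧
          (List.ofFn x ++ w :: List.ofFn y).Sublist (l T) then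
            ((cl (T \ pathE (l T)) V w).card : ℝ) ^ k else 0) ≤
        ((legs S (a :: (List.ofFn x ++ [w]))).map fun A => PP p (edges V) A).prod *
          ((legs S (w :: (List.ofFn y ++ [z]))).map fun A => PP p (edges V) A).prod *
            EE p (edges V) fun T => ((cl T V w).card : ℝ) ^ k :=
      fun x _ y _ => S18_one hp hp1 S V a z w _ _ l hl k
    refine (sum_le_sum fun x hx => sum_le_sum fun y hy => h2 x hx y hy).trans (le_of_eq ?_)
    simp only [← sum_mul, ← mul_sum]
    rw [sum_legs hp hp1' hS i a w hw, sum_legs hp hp1' hS j w z hz]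
  · have h1 : (EE p (edges V) fun T => if Conn T S a z then ((cl T V a).card : ℝ) ^ k else 0) =
        EE p (edges V) fun _ => 0 := by
      refine EE_congr fun T _ => ?_
      rw [if_neg]
      intro h
      exact hz h.right
    rw [h1, EE_const]
    refine mul_nonneg hc.le (sum_nonneg fun i _ => sum_nonneg fun j _ => sum_nonneg fun w _ => ?_)
    exact mul_nonneg (mul_nonneg (S18_kp_nonneg hp hp1' S _ _ _) (S18_kp_nonneg hp hp1' S _ _ _))
      (EE_nonneg hp hp1' fun T _ => pow_nonneg (Nat.cast_nonneg _) _)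

end Pool.Agent.HD
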