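import Pool.Agent.Lib.MP_8ca597_hd.S15
import Pool.Agent.Lib.MP_8ca597_hd.S18

/-!
# Row S19: the bush estimate (A10)

`p = pc + ε`. In `Bx d n`, with `J = JJ n T`, `V = Bx d n \ J`, `S = V ∩ {z | nm z ≤ ρ}`; by `EE_clS_sum` the event and
`|C|` are those of the fresh percolation in `V`. NEAR part (`0 ↔ z` in `S`): `pathbush`; `kp p S i ≤ cpw Dk i` of
the difference (`tau_le_Dk`, `c = 0`); the sum over `J` of `P(J) * EE (edges (Bx d n \ J)) |C(w)| ^ k` is at most
`EF |K| ^ k` (`EE_trunc_le`); the sum over `w` gives `cpw Dk (i + j + 2) z` (`cpw_add`). FAR part (`0 ↔ z` in `V` but not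
in `S`): its probability is at most `∑ (u, v), tau p S 0 u * p * P (v ↔ z, v ∉ J)` over the exits of `S` (`SL`; the
exits `v` are outside the box of radius `ρ`), `≤ (C1 ρ ^ 10) ρ ^ (-9000)` by `far_decay` (`nm (z - v) ≥ ρ / 2`); and
`|C| ^ k 1_far ≤ ρ ^ (-4000) |C| ^ (2k) + ρ ^ 4000 1_far` with `apriori` for `2 k` (`ε⁻¹ ≤ (2 ρ) ^ 50`, `6 k ≤ 24`).
Finally `n → ∞` (`EF_eq_iSup`, `EE_trunc`).
-/

set_option autoImplicit false

namespace Pool.Agent.HD

open Finset
open scoped ENNReal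

variable {m d : ℕ} {h : m ≤ d} {C : ℝ}

open Classical in
/-- The expectation of a function of the cluster of `w`, off the vertices joined to the boundary. -/
private noncomputable def S19_E (p : ℝ) (n : ℕ) (w : Vx d) (F : Finset (Vx d) → ℝ) : ℝ :=
  EE p (edges (Bx d n)) fun T => if w ∈ JJ n T then 0 else F (cl T (Bx d n) w)

/-- The probability that `J` is the set of the vertices joined to the boundary. -/
private noncomputable def S19_P (p : ℝ) (n : ℕ) (J : Finset (Vx d)) : ℝ :=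
  PP p (edges (Bx d n)) {T | clS T (Bx d n) (Bd d n) = J}

open Classical in
private theorem S19_dec (p : ℝ) (n : ℕ) (w : Vx d) (F : Finset (Vx d) → ℝ) :
    S19_E p n w F = ∑ J ∈ (Bx d n).powerset, S19_P p n J *
      (if w ∈ J then 0 else EE p (edges (Bx d n \ J)) fun T => F (cl T (Bx d n \ J) w)) := by
  have h1 := EE_clS_sum p (Bx d n) (Bd d n)
    (fun J T => if w ∈ J then (0 : ℝ) else F (cl T (Bx d n \ J) w))
  unfold S19_E S19_P
  have h2 : (fun T : Finset (Ed d) => if w ∈ JJ n T then (0 : ℝ) else F (cl T (Bx d n) w)) =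
      fun T => if w ∈ clS T (Bx d n) (Bd d n) then (0 : ℝ) else
        F (cl (T ∩ edges (Bx d n \ clS T (Bx d n) (Bd d n)))
          (Bx d n \ clS T (Bx d n) (Bd d n)) w) := by
    funext T
    unfold JJ
    split_ifs with h3
    · rfl
    · rw [cl_inter_edges, cl_sdiff_clS h3]
  rw [h2, h1]
  refine sum_congr rfl fun J _ => ?_
  congr 1
  split_ifs with h3
  · exact EE_const p _ 0
  · rfl

private theorem S19_P_nonneg {p : ℝ} (hp : 0 ≤ p) (hp1 : p ≤ 1) (n : ℕ) (J : Finset (Vx d)) :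
    0 ≤ S19_P p n J := PP_nonneg hp hp1

open Classical in
private theorem S19_card {p : ℝ} (hd : 0 < d) (hp : 0 ≤ p) (hp1 : p ≤ 1) (n k : ℕ) {w : Vx d}
    (hw : w ∈ Bx d n) :
    ENNReal.ofReal (S19_E p n w fun K => (K.card : ℝ) ^ k) ≤
      EF (d := d) p (fun K => (K.card : ℝ≥0∞) ^ k) := by
  have h1 := EE_trunc_le (p := p) hd hp hp1 n hw (F := fun K => (K.card : ℝ) ^ k)
    (fun K => by positivity)
  have h2 : (EE p (edges (Bx d n)) fun T =>
      if w ∈ JJ n T then 0 else (((cl T (Bx d n) w).image (· - w)).card : ℝ) ^ k) =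
      S19_E p n w fun K => (K.card : ℝ) ^ k := by
    unfold S19_E
    congr 1
    funext T
    rw [card_image_of_injective _ (sub_left_injective)]
  rw [h2] at h1
  refine h1.trans (le_of_eq ?_)
  unfold EF
  refine tsum_congr fun K => ?_
  beta_reduce
  rw [ENNReal.ofReal_pow (Nat.cast_nonneg _), ENNReal.ofReal_natCast]

open Classical in
private theorem S19_conn {p : ℝ} (hd : 0 < d) (hp : 0 ≤ p) (hp1 : p ≤ 1) (n : ℕ) (w z : Vx d) :
    ENNReal.ofReal (S19_E p n w fun K => if z ∈ K then 1 else 0) ≤ tauf p (z - w) := by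
  refine le_trans (le_of_eq ?_) (tauf_trunc hd hp hp1 n w z)
  congr 1
  unfold S19_E PP
  congr 1
  funext T
  beta_reduce
  by_cases h1 : w ∈ JJ n T
  · rw [if_pos h1, if_neg (fun h2 => h2.1 h1)]
  · rw [if_neg h1]
    by_cases h2 : Conn T (Bx d n) w z
    · rw [if_pos (mem_cl.2 h2), if_pos ⟨h1, h2⟩]
    · rw [if_neg (fun h3 => h2 (mem_cl.1 h3)), if_neg (fun h3 => h2 h3.2)]

/-- The kernel in a domain of radius `ρ`. -/
private theorem S19_kp {p : ℝ} (hp : 0 ≤ p) (hp1 : p ≤ 1) {S : Finset (Vx d)} {ρ : ℕ}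
    (hS : ∀ z ∈ S, nm z ≤ ρ) (i : ℕ) (a b : Vx d) :
    ENNReal.ofReal (kp p S i a b) ≤ cpw (Dk d p ρ) i (b - a) := by
  induction i generalizing a b with
  | zero =>
    change ENNReal.ofReal (if a = b then 1 else 0) ≤ dl (b - a)
    unfold dl
    by_cases h1 : a = b
    · rw [if_pos h1, if_pos (sub_eq_zero.2 h1.symm), ENNReal.ofReal_one]
    · rw [if_neg h1, ENNReal.ofReal_zero]
      exact zero_le
  | succ i ih =>
    change ENNReal.ofReal (∑ u ∈ S, tau p S a u * kp p S i u b) ≤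
      ∑' y, Dk d p ρ y * cpw (Dk d p ρ) i (b - a - y)
    have h0 : ∀ u ∈ S, 0 ≤ tau p S a u * kp p S i u b := by
      intro u _
      refine mul_nonneg (tau_nonneg hp hp1 _ _ _) ?_
      clear ih
      induction i generalizing u with
      | zero =>
        change (0 : ℝ) ≤ if u = b then 1 else 0
        split_ifs
        · exact zero_le_one
        · exact le_rfl
      | succ i ih =>
        change (0 : ℝ) ≤ ∑ u' ∈ S, tau p S u u' * kp p S i u' b
        exact sum_nonneg fun u' hu' => mul_nonneg (tau_nonneg hp hp1 _ _ _) (ih u' hu')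
    rw [ENNReal.ofReal_sum_of_nonneg h0]
    have h1 : ∀ u ∈ S, ENNReal.ofReal (tau p S a u * kp p S i u b) ≤
        Dk d p ρ (u - a) * cpw (Dk d p ρ) i (b - a - (u - a)) := by
      intro u _
      rw [ENNReal.ofReal_mul (tau_nonneg hp hp1 _ _ _)]
      have h2 : b - a - (u - a) = b - u := by abel
      rw [h2]
      refine mul_le_mul' (tau_le_Dk hp hp1 (c := 0) fun z hz => ?_) (ih u b)
      rw [sub_zero]
      exact hS z hz
    refine (sum_le_sum h1).trans ?_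
    refine (ENNReal.sum_le_tsum S).trans ?_
    rw [← (Equiv.subRight a).tsum_eq fun y => Dk d p ρ y * cpw (Dk d p ρ) i (b - a - y)]
    exact le_rfl

private theorem S19_kp_nonneg {p : ℝ} (hp : 0 ≤ p) (hp1 : p ≤ 1) (S : Finset (Vx d)) (i : ℕ)
    (a b : Vx d) : 0 ≤ kp p S i a b := by
  induction i generalizing a with
  | zero =>
    change (0 : ℝ) ≤ if a = b then 1 else 0
    split_ifs
    · exact zero_le_one
    · exact le_rfl
  | succ i ih =>
    change (0 : ℝ) ≤ ∑ u ∈ S, tau p S a u * kp p S i u b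
    exact sum_nonneg fun u hu => mul_nonneg (tau_nonneg hp hp1 _ _ _) (ih u)

open Classical in
/-- `P J` times the expectation off `J`. -/
private theorem S19_sum {p : ℝ} (hp : 0 ≤ p) (hp1 : p ≤ 1) (n : ℕ) (w : Vx d)
    {F : Finset (Vx d) → ℝ} (hF : ∀ K, 0 ≤ F K) :
    ∑ J ∈ (Bx d n).powerset, ENNReal.ofReal (S19_P p n J) *
      (if w ∈ J then 0 else ENNReal.ofReal (EE p (edges (Bx d n \ J)) fun T =>
        F (cl T (Bx d n \ J) w))) = ENNReal.ofReal (S19_E p n w F) := by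
  classical
  rw [S19_dec, ENNReal.ofReal_sum_of_nonneg]
  · refine sum_congr rfl fun J _ => ?_
    rw [ENNReal.ofReal_mul (S19_P_nonneg hp hp1 n J)]
    congr 1
    split_ifs with h1
    · rw [ENNReal.ofReal_zero]
    · rfl
  · intro J _
    refine mul_nonneg (S19_P_nonneg hp hp1 n J) ?_
    split_ifs
    · exact le_rfl
    · exact EE_nonneg hp hp1 fun T _ => hF _

open Classical in
/-- The exits from the domain of radius `ρ`. -/
private theorem S19_exit {p : ℝ} (hp : 0 ≤ p) (hp1 : p ≤ 1) {S V : Finset (Vx d)} (hS : S ⊆ V)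
    (h0 : (0 : Vx d) ∈ S) (z : Vx d) :
    (EE p (edges V) fun T => if Conn T V 0 z ∧ ¬ Conn T S 0 z then (1 : ℝ) else 0) ≤
      ∑ q ∈ exits S V, tau p S 0 q.1 * p * tau p V q.2 z := by
  have h1 := SL hp hp1 hS h0 z
  have h2 : tau p S 0 z = EE p (edges V) fun T => if Conn T S 0 z then (1 : ℝ) else 0 := by
    unfold tau
    rw [← PP_dep p (edges_mono hS) (dep_conn S 0 z), PP_def]
    rfl
  have h3 : tau p V 0 z = EE p (edges V) fun T => if Conn T V 0 z then (1 : ℝ) else 0 := by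
    unfold tau
    rw [PP_def]
    rfl
  have h4 : (EE p (edges V) fun T => if Conn T V 0 z ∧ ¬ Conn T S 0 z then (1 : ℝ) else 0) =
      tau p V 0 z - tau p S 0 z := by
    rw [h2, h3, ← EE_sub]
    refine EE_congr fun T _ => ?_
    by_cases h5 : Conn T S 0 z
    · have h6 : Conn T V 0 z := Conn.mono h5 (subset_refl T) (by exact_mod_cast hS)
      rw [if_neg (fun h7 => h7.2 h5), if_pos h5, if_pos h6, sub_self]
    · rw [if_neg h5, sub_zero]
      by_cases h6 : Conn T V 0 z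
      · rw [if_pos ⟨h6, h5⟩, if_pos h6]
      · rw [if_neg (fun h7 => h6 h7.1), if_neg h6]
  rw [h4]
  linarith

private theorem S19_real {a x : ℝ} (ha : 0 < a) (hx : 0 ≤ x) : x ≤ a⁻¹ * x ^ 2 + a := by
  by_cases h : x ≤ a
  · have : 0 ≤ a⁻¹ * x ^ 2 := by positivity
    linarith
  · push Not at h
    have h1 : x ≤ a⁻¹ * x ^ 2 := by
      rw [inv_mul_eq_div, le_div_iff₀ ha, pow_two]
      exact mul_le_mul_of_nonneg_left h.le hx
    linarith

open Classical in
/-- The decomposition for a fixed domain. -/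
private theorem S19_fix {p a : ℝ} (hp : 0 ≤ p) (hp1 : p ≤ 1) (ha : 0 < a) (S V : Finset (Vx d))
    (z : Vx d) (k : ℕ) :
    (EE p (edges V) fun T => if z ∈ cl T V 0 then ((cl T V 0).card : ℝ) ^ k else 0) ≤
      (EE p (edges V) fun T => if Conn T S 0 z then ((cl T V 0).card : ℝ) ^ k else 0) +
      (a⁻¹ * (EE p (edges V) fun T => ((cl T V 0).card : ℝ) ^ (2 * k)) +
      a * (EE p (edges V) fun T => if Conn T V 0 z ∧ ¬ Conn T S 0 z then (1 : ℝ) else 0)) := by
  rw [← EE_const_mul, ← EE_const_mul, ← EE_add, ← EE_add]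
  refine EE_mono hp hp1 fun T _ => ?_
  have hx : (0 : ℝ) ≤ ((cl T V 0).card : ℝ) ^ k := by positivity
  have hx2 : (0 : ℝ) ≤ a⁻¹ * ((cl T V 0).card : ℝ) ^ (2 * k) := by positivity
  have h2 : ((cl T V 0).card : ℝ) ^ (2 * k) = (((cl T V 0).card : ℝ) ^ k) ^ 2 := by
    rw [← pow_mul, mul_comm]
  by_cases h3 : z ∈ cl T V 0
  · rw [if_pos h3]
    by_cases h4 : Conn T S 0 z
    · rw [if_pos h4, if_neg (fun h5 => h5.2 h4), mul_zero, add_zero]
      linarith
    · rw [if_neg h4, if_pos ⟨mem_cl.1 h3, h4⟩, mul_one, zero_add, h2]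
      exact S19_real ha hx
  · rw [if_neg h3]
    have h5 : ¬ (Conn T V 0 z ∧ ¬ Conn T S 0 z) := fun h6 => h3 (mem_cl.2 h6.1)
    rw [if_neg h5, mul_zero, add_zero]
    have h6 : (0 : ℝ) ≤ if Conn T S 0 z then ((cl T V 0).card : ℝ) ^ k else 0 := by
      split_ifs
      · exact hx
      · exact le_rfl
    linarith

open Classical in
/-- The near part. -/
private theorem S19_near {p c : ℝ} (hd : 0 < d) (hp : 0 ≤ p) (hp1 : p ≤ 1) (hc : 0 ≤ c) {k : ℕ}
    (hpb : ∀ (S V : Finset (Vx d)), S ⊆ V → ∀ a z : Vx d,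
      (EE p (edges V) fun T => if Conn T S a z then ((cl T V a).card : ℝ) ^ k else 0) ≤
        c * ∑ i ∈ range k, ∑ j ∈ range (k - i), ∑ w ∈ S,
          kp p S (i + 1) a w * kp p S (j + 1) w z *
            EE p (edges V) fun T => ((cl T V w).card : ℝ) ^ k)
    (n ρ : ℕ) (z : Vx d) :
    ∑ J ∈ (Bx d n).powerset, ENNReal.ofReal (S19_P p n J) *
      (if (0 : Vx d) ∈ J then 0 else ENNReal.ofReal (EE p (edges (Bx d n \ J)) fun T =>
        if Conn T ((Bx d n \ J).filter (fun x => nm x ≤ ρ) : Finset (Vx d)) 0 z then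
          ((cl T (Bx d n \ J) 0).card : ℝ) ^ k else 0)) ≤
      ENNReal.ofReal c * (∑ i ∈ range k, ∑ j ∈ range (k - i), cpw (Dk d p ρ) (i + 1 + (j + 1)) z) *
        EF (d := d) p (fun K => (K.card : ℝ≥0∞) ^ k) := by
  set W : Vx d → ℝ≥0∞ := fun w => ∑ i ∈ range k, ∑ j ∈ range (k - i),
    cpw (Dk d p ρ) (i + 1) w * cpw (Dk d p ρ) (j + 1) (z - w) with hW
  have h1 : ∀ J ∈ (Bx d n).powerset, ENNReal.ofReal (S19_P p n J) *
      (if (0 : Vx d) ∈ J then 0 else ENNReal.ofReal (EE p (edges (Bx d n \ J)) fun T =>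
        if Conn T ((Bx d n \ J).filter (fun x => nm x ≤ ρ) : Finset (Vx d)) 0 z then
          ((cl T (Bx d n \ J) 0).card : ℝ) ^ k else 0)) ≤
      ENNReal.ofReal c * ∑ w ∈ Bx d n, W w * (ENNReal.ofReal (S19_P p n J) *
        (if w ∈ J then 0 else ENNReal.ofReal (EE p (edges (Bx d n \ J)) fun T =>
          ((cl T (Bx d n \ J) w).card : ℝ) ^ k))) := by
    intro J _
    by_cases h0 : (0 : Vx d) ∈ J
    · rw [if_pos h0, mul_zero]
      exact zero_le
    rw [if_neg h0]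
    set V := Bx d n \ J with hV
    set S := V.filter (fun x => nm x ≤ ρ) with hS
    have hSV : S ⊆ V := filter_subset _ _
    have hSρ : ∀ x ∈ S, nm x ≤ ρ := fun x hx => (mem_filter.1 hx).2
    have hE : ∀ w, 0 ≤ EE p (edges V) fun T => ((cl T V w).card : ℝ) ^ k := fun w =>
      EE_nonneg hp hp1 fun T _ => by positivity
    have h2 : ENNReal.ofReal (EE p (edges V) fun T =>
        if Conn T S 0 z then ((cl T V 0).card : ℝ) ^ k else 0) ≤
        ENNReal.ofReal c * ∑ w ∈ Bx d n, W w * (if w ∈ J then 0 else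
          ENNReal.ofReal (EE p (edges V) fun T => ((cl T V w).card : ℝ) ^ k)) := by
      refine (ENNReal.ofReal_le_ofReal (hpb S V hSV 0 z)).trans ?_
      rw [ENNReal.ofReal_mul hc]
      refine mul_le_mul_right ?_ _
      have h3 : ∀ i j w, 0 ≤ kp p S (i + 1) 0 w * kp p S (j + 1) w z *
          EE p (edges V) fun T => ((cl T V w).card : ℝ) ^ k := fun i j w =>
        mul_nonneg (mul_nonneg (S19_kp_nonneg hp hp1 S _ _ _) (S19_kp_nonneg hp hp1 S _ _ _)) (hE w)
      rw [ENNReal.ofReal_sum_of_nonneg fun i _ => sum_nonneg fun j _ => sum_nonneg fun w _ => h3 i j w]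
      have h4 : ∀ w ∈ Bx d n, W w * (if w ∈ J then 0 else
          ENNReal.ofReal (EE p (edges V) fun T => ((cl T V w).card : ℝ) ^ k)) =
          ∑ i ∈ range k, ∑ j ∈ range (k - i), cpw (Dk d p ρ) (i + 1) w *
            cpw (Dk d p ρ) (j + 1) (z - w) * (if w ∈ J then 0 else
          ENNReal.ofReal (EE p (edges V) fun T => ((cl T V w).card : ℝ) ^ k)) := by
        intro w _
        rw [hW, sum_mul]
        refine sum_congr rfl fun i _ => ?_
        rw [sum_mul]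
      rw [sum_congr rfl h4, sum_comm]
      refine sum_le_sum fun i _ => ?_
      rw [ENNReal.ofReal_sum_of_nonneg fun j _ => sum_nonneg fun w _ => h3 i j w, sum_comm]
      refine sum_le_sum fun j _ => ?_
      rw [ENNReal.ofReal_sum_of_nonneg fun w _ => h3 i j w]
      have h5 : ∀ w ∈ S, ENNReal.ofReal (kp p S (i + 1) 0 w * kp p S (j + 1) w z *
          EE p (edges V) fun T => ((cl T V w).card : ℝ) ^ k) ≤
          cpw (Dk d p ρ) (i + 1) w * cpw (Dk d p ρ) (j + 1) (z - w) * (if w ∈ J then 0 else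
          ENNReal.ofReal (EE p (edges V) fun T => ((cl T V w).card : ℝ) ^ k)) := by
        intro w hw
        have hwJ : w ∉ J := (mem_sdiff.1 (hSV hw)).2
        rw [if_neg hwJ, ENNReal.ofReal_mul (mul_nonneg (S19_kp_nonneg hp hp1 S _ _ _)
          (S19_kp_nonneg hp hp1 S _ _ _)), ENNReal.ofReal_mul (S19_kp_nonneg hp hp1 S _ _ _)]
        refine mul_le_mul' (mul_le_mul' ?_ ?_) le_rfl
        · have h6 := S19_kp hp hp1 hSρ (i + 1) 0 w
          rwa [sub_zero] at h6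
        · exact S19_kp hp hp1 hSρ (j + 1) w z
      refine (sum_le_sum h5).trans ?_
      exact sum_le_sum_of_subset (hSV.trans sdiff_subset)
    calc ENNReal.ofReal (S19_P p n J) * ENNReal.ofReal (EE p (edges V) fun T =>
          if Conn T S 0 z then ((cl T V 0).card : ℝ) ^ k else 0)
        ≤ ENNReal.ofReal (S19_P p n J) * (ENNReal.ofReal c * ∑ w ∈ Bx d n, W w *
          (if w ∈ J then 0 else
            ENNReal.ofReal (EE p (edges V) fun T => ((cl T V w).card : ℝ) ^ k))) :=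
          mul_le_mul_right h2 _
      _ = _ := by
          rw [mul_left_comm, mul_sum]
          congr 1
          refine sum_congr rfl fun w _ => ?_
          rw [mul_left_comm]
  refine (sum_le_sum h1).trans ?_
  rw [← mul_sum, sum_comm, mul_assoc]
  refine mul_le_mul_right ?_ _
  have h7 : ∀ w ∈ Bx d n, ∑ J ∈ (Bx d n).powerset, W w * (ENNReal.ofReal (S19_P p n J) *
        (if w ∈ J then 0 else ENNReal.ofReal (EE p (edges (Bx d n \ J)) fun T =>
          ((cl T (Bx d n \ J) w).card : ℝ) ^ k))) ≤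
        W w * EF (d := d) p (fun K => (K.card : ℝ≥0∞) ^ k) := by
    intro w hw
    rw [← mul_sum]
    refine mul_le_mul_right ?_ _
    have h8 := S19_sum hp hp1 n w (F := fun K : Finset (Vx d) => (K.card : ℝ) ^ k)
      (fun K => by positivity)
    rw [h8]
    exact S19_card hd hp hp1 n k hw
  refine (sum_le_sum h7).trans ?_
  rw [← sum_mul]
  refine mul_le_mul_left ?_ _
  refine (ENNReal.sum_le_tsum _).trans (le_of_eq ?_)
  rw [hW]
  have h9 : ∑' w : Vx d, ∑ i ∈ range k, ∑ j ∈ range (k - i),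
      cpw (Dk d p ρ) (i + 1) w * cpw (Dk d p ρ) (j + 1) (z - w) =
      ∑ i ∈ range k, ∑ j ∈ range (k - i), ∑' w : Vx d,
        cpw (Dk d p ρ) (i + 1) w * cpw (Dk d p ρ) (j + 1) (z - w) := by
    rw [Summable.tsum_finsetSum fun i _ => ENNReal.summable]
    refine sum_congr rfl fun i _ => ?_
    rw [Summable.tsum_finsetSum fun j _ => ENNReal.summable]
  rw [h9]
  refine sum_congr rfl fun i _ => sum_congr rfl fun j _ => ?_
  exact (congrFun (cpw_add (Dk d p ρ) (i + 1) (j + 1)) z).symm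

/-- The number of the exponents. -/
private theorem S19_exps (f : ℕ → ℝ≥0∞) (k : ℕ) :
    ∑ i ∈ range k, ∑ j ∈ range (k - i), f (i + 1 + (j + 1)) ≤ k * ∑ j ∈ Icc 1 k, f (j + 1) := by
  have h1 : ∀ i ∈ range k, ∑ j ∈ range (k - i), f (i + 1 + (j + 1)) ≤ ∑ j ∈ Icc 1 k, f (j + 1) := by
    intro i hi
    have h2 : ∑ j ∈ range (k - i), f (i + 1 + (j + 1)) =
        ∑ j ∈ (range (k - i)).map ⟨fun j => i + 1 + j, add_right_injective _⟩, f (j + 1) := by
      rw [sum_map]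
      rfl
    rw [h2]
    refine sum_le_sum_of_subset fun j hj => ?_
    obtain ⟨l, hl, rfl⟩ := mem_map.1 hj
    rw [mem_range] at hi hl
    rw [mem_Icc]
    change 1 ≤ i + 1 + l ∧ i + 1 + l ≤ k
    omega
  refine (sum_le_sum h1).trans ?_
  rw [sum_const, card_range, nsmul_eq_mul]

open Classical in
/-- The far part. -/
private theorem S19_far {p : ℝ} (hd : 0 < d) (hp : 0 ≤ p) (hp1 : p ≤ 1) {ρ : ℕ} {b M : ℝ≥0∞}
    (hb : ∀ x : Vx d, ρ ≤ 4 * nm x → tauf p x ≤ b) (hM : ∑' x : Vx d, Dk d p ρ x ≤ M)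
    (n : ℕ) {z : Vx d} (hz : 4 * nm z ≤ ρ) :
    ∑ J ∈ (Bx d n).powerset, ENNReal.ofReal (S19_P p n J) *
      (if (0 : Vx d) ∈ J then 0 else ENNReal.ofReal (EE p (edges (Bx d n \ J)) fun T =>
        if Conn T ((Bx d n \ J : Finset (Vx d)) : Set (Vx d)) 0 z ∧
          ¬ Conn T ((Bx d n \ J).filter (fun x => nm x ≤ ρ) : Finset (Vx d)) 0 z then
          (1 : ℝ) else 0)) ≤ 2 * d * M * b := by
  set E : Finset (Vx d × Vx d) :=
    ((Bx d n ×ˢ Bx d n).filter fun q => Adj q.1 q.2 ∧ ρ < nm q.2) with hE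
  have h1 : ∀ J ∈ (Bx d n).powerset, ENNReal.ofReal (S19_P p n J) *
      (if (0 : Vx d) ∈ J then 0 else ENNReal.ofReal (EE p (edges (Bx d n \ J)) fun T =>
        if Conn T ((Bx d n \ J : Finset (Vx d)) : Set (Vx d)) 0 z ∧
          ¬ Conn T ((Bx d n \ J).filter (fun x => nm x ≤ ρ) : Finset (Vx d)) 0 z then
          (1 : ℝ) else 0)) ≤
      ∑ q ∈ E, Dk d p ρ q.1 * (ENNReal.ofReal (S19_P p n J) *
        (if q.2 ∈ J then 0 else ENNReal.ofReal (EE p (edges (Bx d n \ J)) fun T =>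
          (fun K : Finset (Vx d) => if z ∈ K then (1 : ℝ) else 0) (cl T (Bx d n \ J) q.2)))) := by
    intro J _
    by_cases h0 : (0 : Vx d) ∈ J
    · rw [if_pos h0, mul_zero]
      exact zero_le
    rw [if_neg h0]
    set V := Bx d n \ J with hV
    set S := V.filter (fun x => nm x ≤ ρ) with hS
    have hSV : S ⊆ V := filter_subset _ _
    have hSρ : ∀ x ∈ S, nm x ≤ ρ := fun x hx => (mem_filter.1 hx).2
    have hnm0 : nm (0 : Vx d) = 0 := by
      unfold nm
      simp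
    have h0S : (0 : Vx d) ∈ S := by
      rw [hS, mem_filter, hV, mem_sdiff, mem_Bx, hnm0]
      exact ⟨⟨Nat.zero_le _, h0⟩, Nat.zero_le _⟩
    have h2 : ENNReal.ofReal (EE p (edges V) fun T =>
        if Conn T (V : Set (Vx d)) 0 z ∧ ¬ Conn T (S : Set (Vx d)) 0 z then (1 : ℝ) else 0) ≤
        ∑ q ∈ E, Dk d p ρ q.1 * (if q.2 ∈ J then 0 else ENNReal.ofReal (EE p (edges V) fun T =>
          (fun K : Finset (Vx d) => if z ∈ K then (1 : ℝ) else 0) (cl T V q.2))) := by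
      refine (ENNReal.ofReal_le_ofReal (S19_exit hp hp1 hSV h0S z)).trans ?_
      rw [ENNReal.ofReal_sum_of_nonneg fun q _ => mul_nonneg (mul_nonneg
        (tau_nonneg hp hp1 _ _ _) hp) (tau_nonneg hp hp1 _ _ _)]
      have hsub : exits S V ⊆ E := by
        intro q hq
        unfold exits at hq
        rw [mem_filter, mem_product, mem_sdiff] at hq
        obtain ⟨⟨hq1, hq2, hq3⟩, hq4⟩ := hq
        rw [hE, mem_filter, mem_product]
        refine ⟨⟨(mem_sdiff.1 (hSV hq1)).1, (mem_sdiff.1 hq2).1⟩, hq4, ?_⟩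
        by_contra h5
        exact hq3 (mem_filter.2 ⟨hq2, not_lt.1 h5⟩)
      refine le_trans (sum_le_sum fun q hq => ?_) (sum_le_sum_of_subset hsub)
      unfold exits at hq
      rw [mem_filter, mem_product, mem_sdiff] at hq
      obtain ⟨⟨hq1, hq2, hq3⟩, hq4⟩ := hq
      rw [if_neg (mem_sdiff.1 hq2).2, ENNReal.ofReal_mul (mul_nonneg (tau_nonneg hp hp1 _ _ _) hp),
        ENNReal.ofReal_mul (tau_nonneg hp hp1 _ _ _), ← tau_eq_EE]
      refine mul_le_mul' ?_ le_rfl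
      have h6 : ENNReal.ofReal p ≤ 1 := ENNReal.ofReal_le_one.2 hp1
      have h7 := tau_le_Dk hp hp1 (V := S) (c := 0) (a := 0) (b := q.1) (ρ := ρ)
        (fun x hx => by rw [sub_zero]; exact hSρ x hx)
      rw [sub_zero] at h7
      calc ENNReal.ofReal (tau p S 0 q.1) * ENNReal.ofReal p ≤ Dk d p ρ q.1 * 1 :=
            mul_le_mul' h7 h6
        _ = Dk d p ρ q.1 := mul_one _
    calc ENNReal.ofReal (S19_P p n J) * ENNReal.ofReal (EE p (edges V) fun T =>
          if Conn T (V : Set (Vx d)) 0 z ∧ ¬ Conn T (S : Set (Vx d)) 0 z then (1 : ℝ) else 0)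
        ≤ ENNReal.ofReal (S19_P p n J) * ∑ q ∈ E, Dk d p ρ q.1 * (if q.2 ∈ J then 0 else
          ENNReal.ofReal (EE p (edges V) fun T =>
            (fun K : Finset (Vx d) => if z ∈ K then (1 : ℝ) else 0) (cl T V q.2))) :=
          mul_le_mul_right h2 _
      _ = _ := by
          rw [mul_sum]
          refine sum_congr rfl fun q _ => ?_
          rw [mul_left_comm]
  refine (sum_le_sum h1).trans ?_
  rw [sum_comm]
  have h8 : ∀ q ∈ E, ∑ J ∈ (Bx d n).powerset, Dk d p ρ q.1 * (ENNReal.ofReal (S19_P p n J) *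
        (if q.2 ∈ J then 0 else ENNReal.ofReal (EE p (edges (Bx d n \ J)) fun T =>
          (fun K : Finset (Vx d) => if z ∈ K then (1 : ℝ) else 0) (cl T (Bx d n \ J) q.2)))) ≤
      Dk d p ρ q.1 * b := by
    intro q hq
    rw [← mul_sum]
    refine mul_le_mul_right ?_ _
    rw [S19_sum hp hp1 n q.2 (F := fun K : Finset (Vx d) => if z ∈ K then (1 : ℝ) else 0)
      (fun K => by split_ifs <;> norm_num)]
    refine (S19_conn hd hp hp1 n q.2 z).trans (hb _ ?_)
    rw [hE, mem_filter] at hq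
    have h9 : nm q.2 ≤ nm (z - q.2) + nm z := by
      have h10 := nm_add_le (-(z - q.2)) z
      rw [nm_neg] at h10
      have h11 : -(z - q.2) + z = q.2 := by abel
      rwa [h11] at h10
    have h12 := hq.2.2
    omega
  refine (sum_le_sum h8).trans ?_
  rw [← sum_mul]
  refine mul_le_mul_left ?_ _
  rw [hE, sum_filter, sum_product]
  have h13 : ∀ u ∈ Bx d n, (∑ v ∈ Bx d n, if Adj (u, v).1 (u, v).2 ∧ ρ < nm (u, v).2 then
      Dk d p ρ (u, v).1 else 0) ≤ 2 * d * Dk d p ρ u := by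
    intro u _
    rw [← sum_filter]
    change ∑ _v ∈ (Bx d n).filter (fun v => Adj u v ∧ ρ < nm v), Dk d p ρ u ≤ _
    rw [sum_const, nsmul_eq_mul]
    refine mul_le_mul_left ?_ _
    have h14 : ((Bx d n).filter fun v => Adj u v ∧ ρ < nm v) ⊆ nbr u := by
      intro v hv
      exact mem_nbr.2 (mem_filter.1 hv).2.1
    have h15 := card_le_card h14
    rw [card_nbr] at h15
    exact_mod_cast h15
  refine (sum_le_sum h13).trans ?_
  rw [← mul_sum]
  exact mul_le_mul_right ((ENNReal.sum_le_tsum _).trans hM) _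

private theorem S19_num1 {ρ ε : ℝ} (hρ : 2 ≤ ρ) (hε : 0 < ε) (h : 1 ≤ ε * (2 * ρ) ^ 50) {k : ℕ}
    (hk : k ≤ 4) : (ρ ^ 4000)⁻¹ * (2 / ε ^ (3 * (2 * k))) ≤ 1 / 2 * (1 / ρ ^ 1000) := by
  have hρ0 : 0 < ρ := by linarith
  have h1 : 1 / ε ≤ (2 * ρ) ^ 50 := by
    rw [div_le_iff₀ hε, mul_comm]
    exact h
  have h2 : (1 / ε) ^ (3 * (2 * k)) ≤ 2 ^ 1200 * ρ ^ 1200 := by
    calc (1 / ε) ^ (3 * (2 * k)) ≤ ((2 * ρ) ^ 50) ^ (3 * (2 * k)) :=
          pow_le_pow_left₀ (by positivity) h1 _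
      _ ≤ ((2 * ρ) ^ 50) ^ 24 :=
          pow_le_pow_right₀ (one_le_pow₀ (by linarith)) (by omega)
      _ = 2 ^ 1200 * ρ ^ 1200 := by rw [← pow_mul, mul_pow]
  have h3 : 2 / ε ^ (3 * (2 * k)) = 2 * (1 / ε) ^ (3 * (2 * k)) := by
    rw [one_div_pow]
    ring
  have h4 : (4 : ℝ) * 2 ^ 1200 ≤ ρ ^ 1800 := by
    calc (4 : ℝ) * 2 ^ 1200 = 2 ^ (2 + 1200) := by
          rw [pow_add]
          congr 1
          norm_num
      _ ≤ 2 ^ 1800 := pow_le_pow_right₀ (by norm_num) (by norm_num)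
      _ ≤ ρ ^ 1800 := pow_le_pow_left₀ (by norm_num) hρ _
  have h5 : ρ ^ 4000 = ρ ^ 1800 * ρ ^ 1200 * ρ ^ 1000 := by
    rw [← pow_add, ← pow_add]
  have h6 : 0 < ρ ^ 1200 := pow_pos hρ0 _
  have h7 : 0 < ρ ^ 1000 := pow_pos hρ0 _
  have h8 : 0 < ρ ^ 1800 := pow_pos hρ0 _
  rw [h3, h5]
  generalize ρ ^ 1200 = x at *
  generalize ρ ^ 1000 = y at *
  generalize ρ ^ 1800 = w at *
  generalize (2 : ℝ) ^ 1200 = t at *
  generalize (1 / ε) ^ (3 * (2 * k)) = r at *
  rw [inv_mul_le_iff₀ (by positivity)]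
  have h9 : w * x * y * (1 / 2 * (1 / y)) = 1 / 2 * (w * x) := by
    field_simp
  rw [h9]
  have h10 : 4 * t * x ≤ w * x := mul_le_mul_of_nonneg_right h4 h6.le
  linarith

private theorem S19_num2 {ρ D C1 : ℝ} (hρ : 2 ≤ ρ) (h : 4 * D * C1 ≤ ρ) :
    ρ ^ 4000 * (2 * D * (C1 * ρ ^ 10) * (1 / ρ ^ 9000)) ≤ 1 / 2 * (1 / ρ ^ 1000) := by
  have hρ0 : 0 < ρ := by linarith
  have h1 : ρ ^ 9000 = ρ ^ 3989 * (ρ * (ρ ^ 10 * (ρ ^ 4000 * ρ ^ 1000))) := by
    rw [← pow_add, ← pow_add, ← pow_succ', ← pow_add]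
  have h2 : 1 ≤ ρ ^ 3989 := one_le_pow₀ (by linarith)
  have h6 : 0 < ρ ^ 10 := pow_pos hρ0 _
  have h7 : 0 < ρ ^ 1000 := pow_pos hρ0 _
  have h8 : 0 < ρ ^ 4000 := pow_pos hρ0 _
  rw [h1]
  generalize ρ ^ 10 = x at *
  generalize ρ ^ 1000 = y at *
  generalize ρ ^ 4000 = w at *
  generalize ρ ^ 3989 = t at *
  have ht : 0 < t := by linarith
  have h9 : w * (2 * D * (C1 * x) * (1 / (t * (ρ * (x * (w * y)))))) =
      (4 * D * C1) / (t * ρ) * (1 / 2 * (1 / y)) := by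
    field_simp
    ring
  rw [h9]
  have h10 : (4 * D * C1) / (t * ρ) ≤ 1 := by
    rw [div_le_one (by positivity)]
    have h11 : ρ ≤ t * ρ := le_mul_of_one_le_left hρ0.le h2
    linarith
  exact mul_le_of_le_one_left (by positivity) h10

open Classical in
theorem bush (hc : Crit m d h C) (k : ℕ) (hk : 1 ≤ k) (hk4 : k ≤ 4) : ∃ (c : ℝ) (ρ0 : ℕ),
    0 < c ∧ ∀ (ρ : ℕ) (ε : ℝ), ρ0 ≤ ρ → Scale ρ ε → ∀ z : Vx d, 4 * nm z ≤ ρ →
      EF (pc d + ε) (fun K => if z ∈ K then (K.card : ℝ≥0∞) ^ k else 0) ≤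
        ENNReal.ofReal c * (∑ j ∈ Icc 1 k, cpw (Dk d (pc d + ε) ρ) (j + 1) z) *
          EF (d := d) (pc d + ε) (fun K => (K.card : ℝ≥0∞) ^ k) +
        ENNReal.ofReal (1 / (ρ : ℝ) ^ 1000) := by
  have hd : 0 < d := hc.pos
  obtain ⟨c, hc0, hpb⟩ := pathbush k hk
  obtain ⟨ε1, hε1, hap⟩ := apriori hc (2 * k)
  obtain ⟨ρ1, hfar⟩ := far_decay hc
  obtain ⟨C1, ρ2, hC1, hDk⟩ := Dk_sum hc
  obtain ⟨N1, hN1⟩ := exists_nat_gt (1 / ε1)
  obtain ⟨N2, hN2⟩ := exists_nat_gt (4 * (d : ℝ) * C1)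
  refine ⟨c * k, ρ1 + ρ2 + N1 + N2 + 2, mul_pos hc0 (by exact_mod_cast hk), ?_⟩
  intro ρ ε hρ hsc z hz
  have hρ2 : (2 : ℝ) ≤ ρ := by exact_mod_cast (by omega : 2 ≤ ρ)
  have hρ0 : (0 : ℝ) < ρ := by linarith
  have hρN1 : (N1 : ℝ) ≤ ρ := by exact_mod_cast (by omega : N1 ≤ ρ)
  have hρN2 : (N2 : ℝ) ≤ ρ := by exact_mod_cast (by omega : N2 ≤ ρ)
  have hε := hsc.pos
  -- the size of `ε`
  have hερ : ε * ρ ≤ 1 := by
    refine le_trans (mul_le_mul_of_nonneg_left ?_ hε.le) hsc.le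
    exact le_self_pow₀ (by linarith) (by norm_num)
  have hεle : ε ≤ ε1 := by
    have h1 : 1 / ε1 ≤ ρ := hN1.le.trans hρN1
    rw [div_le_iff₀ hε1] at h1
    have h2 : ε * ρ ≤ ρ * ε1 := hερ.trans h1
    rw [mul_comm (ρ : ℝ) ε1] at h2
    exact le_of_mul_le_mul_right h2 hρ0
  have hε4 : ε ≤ 1 / 4 := by
    have h1 : ε * (ρ * ρ) ≤ 1 := by
      refine le_trans (mul_le_mul_of_nonneg_left ?_ hε.le) hsc.le
      rw [← pow_two]
      exact pow_le_pow_right₀ (by linarith) (by norm_num)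
    have h2 : (2 : ℝ) * 2 ≤ ρ * ρ := mul_le_mul hρ2 hρ2 (by norm_num) hρ0.le
    have h3 : ε * (2 * 2) ≤ ε * (ρ * ρ) := mul_le_mul_of_nonneg_left h2 hε.le
    linarith
  have hpc0 : 0 ≤ pc d := by
    have h1 := hc.pc_lo
    have h2 : (0 : ℝ) < d := by exact_mod_cast hd
    have h3 : 0 ≤ 1 / (2 * d : ℝ) := by positivity
    linarith
  have hpc1 := hc.pc_hi
  have hp0 : 0 ≤ pc d + ε := by linarith
  have hp2 : pc d + ε ≤ 1 / 2 := by linarith
  have hp1 : pc d + ε ≤ 1 := by linarith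
  have hap' := hap ε hε hεle
  have hfar' := hfar ρ ε (by omega) hsc
  have hDk' := hDk ρ ε (by omega) hsc
  set p := pc d + ε with hp
  rw [EF_eq_iSup hd]
  refine iSup_le fun n => ?_
  set F : Finset (Vx d) → ℝ := fun K => if z ∈ K then (K.card : ℝ) ^ k else 0 with hF
  have hF0 : ∀ K, 0 ≤ F K := by
    intro K
    rw [hF]
    beta_reduce
    split_ifs
    · positivity
    · exact le_rfl
  have hkey : ∑ K ∈ (Bx d n \ Bd d n).powerset, ENNReal.ofReal (ww p K) *
      (if z ∈ K then (K.card : ℝ≥0∞) ^ k else 0) = ENNReal.ofReal (S19_E p n 0 F) := by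
    unfold S19_E
    rw [EE_trunc hd p n F, ENNReal.ofReal_sum_of_nonneg fun K _ =>
      mul_nonneg (ww_nonneg hp0 hp1 K) (hF0 K)]
    refine sum_congr rfl fun K _ => ?_
    rw [ENNReal.ofReal_mul (ww_nonneg hp0 hp1 K), hF]
    beta_reduce
    congr 1
    split_ifs
    · rw [ENNReal.ofReal_pow (Nat.cast_nonneg _), ENNReal.ofReal_natCast]
    · rw [ENNReal.ofReal_zero]
  rw [hkey, ← S19_sum hp0 hp1 n 0 hF0]
  set a : ℝ := (ρ : ℝ) ^ 4000 with ha
  have ha0 : 0 < a := pow_pos hρ0 _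
  -- the decomposition
  have hdec : ∀ J ∈ (Bx d n).powerset, ENNReal.ofReal (S19_P p n J) *
      (if (0 : Vx d) ∈ J then 0 else ENNReal.ofReal (EE p (edges (Bx d n \ J)) fun T =>
        F (cl T (Bx d n \ J) 0))) ≤
      ENNReal.ofReal (S19_P p n J) *
      (if (0 : Vx d) ∈ J then 0 else ENNReal.ofReal (EE p (edges (Bx d n \ J)) fun T =>
        if Conn T ((Bx d n \ J).filter (fun x => nm x ≤ ρ) : Finset (Vx d)) 0 z then
          ((cl T (Bx d n \ J) 0).card : ℝ) ^ k else 0)) +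
      (ENNReal.ofReal a⁻¹ * (ENNReal.ofReal (S19_P p n J) *
        (if (0 : Vx d) ∈ J then 0 else ENNReal.ofReal (EE p (edges (Bx d n \ J)) fun T =>
          (fun K : Finset (Vx d) => (K.card : ℝ) ^ (2 * k)) (cl T (Bx d n \ J) 0)))) +
      ENNReal.ofReal a * (ENNReal.ofReal (S19_P p n J) *
      (if (0 : Vx d) ∈ J then 0 else ENNReal.ofReal (EE p (edges (Bx d n \ J)) fun T =>
        if Conn T ((Bx d n \ J : Finset (Vx d)) : Set (Vx d)) 0 z ∧
          ¬ Conn T ((Bx d n \ J).filter (fun x => nm x ≤ ρ) : Finset (Vx d)) 0 z then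
          (1 : ℝ) else 0)))) := by
    intro J _
    by_cases h0 : (0 : Vx d) ∈ J
    · simp only [if_pos h0, mul_zero, add_zero, le_refl]
    simp only [if_neg h0]
    have h1 := S19_fix hp0 hp1 ha0 ((Bx d n \ J).filter (fun x => nm x ≤ ρ)) (Bx d n \ J) z k
    have h2 : ENNReal.ofReal (EE p (edges (Bx d n \ J)) fun T => F (cl T (Bx d n \ J) 0)) ≤
        ENNReal.ofReal (EE p (edges (Bx d n \ J)) fun T =>
        if Conn T ((Bx d n \ J).filter (fun x => nm x ≤ ρ) : Finset (Vx d)) 0 z then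
          ((cl T (Bx d n \ J) 0).card : ℝ) ^ k else 0) +
        (ENNReal.ofReal a⁻¹ * ENNReal.ofReal (EE p (edges (Bx d n \ J)) fun T =>
          ((cl T (Bx d n \ J) 0).card : ℝ) ^ (2 * k)) +
        ENNReal.ofReal a * ENNReal.ofReal (EE p (edges (Bx d n \ J)) fun T =>
        if Conn T ((Bx d n \ J : Finset (Vx d)) : Set (Vx d)) 0 z ∧
          ¬ Conn T ((Bx d n \ J).filter (fun x => nm x ≤ ρ) : Finset (Vx d)) 0 z then
          (1 : ℝ) else 0)) := by
      refine (ENNReal.ofReal_le_ofReal h1).trans ?_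
      refine ENNReal.ofReal_add_le.trans (add_le_add le_rfl ?_)
      refine ENNReal.ofReal_add_le.trans (add_le_add (le_of_eq ?_) (le_of_eq ?_))
      · rw [ENNReal.ofReal_mul (by positivity)]
      · rw [ENNReal.ofReal_mul ha0.le]
    refine (mul_le_mul_right h2 _).trans (le_of_eq ?_)
    rw [mul_add, mul_add, mul_left_comm, mul_left_comm (ENNReal.ofReal (S19_P p n J))]
  refine (sum_le_sum hdec).trans ?_
  rw [sum_add_distrib, sum_add_distrib, ← mul_sum, ← mul_sum]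
  refine add_le_add ?_ ?_
  · refine (S19_near hd hp0 hp1 hc0.le (fun S V hS a z => hpb d p hp0 hp2 S V hS a z) n ρ z).trans ?_
    refine mul_le_mul_left ?_ _
    rw [ENNReal.ofReal_mul hc0.le, ENNReal.ofReal_natCast, mul_assoc]
    exact mul_le_mul_right (S19_exps (fun i => cpw (Dk d p ρ) i z) k) _
  · have h3 := S19_sum hp0 hp1 n 0 (F := fun K : Finset (Vx d) => (K.card : ℝ) ^ (2 * k))
      (fun K => by positivity)
    rw [h3]
    have hnm0 : nm (0 : Vx d) = 0 := by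
      unfold nm
      simp
    have h4 := S19_card hd hp0 hp1 n (2 * k) (w := (0 : Vx d))
      (by rw [mem_Bx, hnm0]; exact Nat.zero_le _)
    have h5 := S19_far hd hp0 hp1 (b := ENNReal.ofReal (1 / (ρ : ℝ) ^ 9000)) hfar' hDk' n hz
    have h6 : ENNReal.ofReal a⁻¹ *
        ENNReal.ofReal (S19_E (d := d) p n 0 fun K => (K.card : ℝ) ^ (2 * k)) ≤
        ENNReal.ofReal (1 / 2 * (1 / (ρ : ℝ) ^ 1000)) := by
      refine (mul_le_mul_right (h4.trans hap') _).trans ?_
      rw [← ENNReal.ofReal_mul (by positivity)]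
      exact ENNReal.ofReal_le_ofReal (S19_num1 hρ2 hε hsc.ge hk4)
    have h7 : ENNReal.ofReal a * (2 * d * ENNReal.ofReal (C1 * (ρ : ℝ) ^ 10) *
        ENNReal.ofReal (1 / (ρ : ℝ) ^ 9000)) ≤ ENNReal.ofReal (1 / 2 * (1 / (ρ : ℝ) ^ 1000)) := by
      have h8 : (2 * d : ℝ≥0∞) = ENNReal.ofReal (2 * d) := by
        rw [ENNReal.ofReal_mul (by norm_num), ENNReal.ofReal_natCast, ENNReal.ofReal_ofNat]
      rw [h8, ← ENNReal.ofReal_mul (by positivity), ← ENNReal.ofReal_mul (by positivity),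
        ← ENNReal.ofReal_mul (by positivity)]
      refine ENNReal.ofReal_le_ofReal ?_
      exact S19_num2 hρ2 (hN2.le.trans hρN2)
    refine (add_le_add h6 ((mul_le_mul_right h5 _).trans h7)).trans (le_of_eq ?_)
    rw [← ENNReal.ofReal_add (by positivity) (by positivity)]
    congr 1
    ring

end Pool.Agent.HD
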