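import Pool.Agent.Lib.MP_8ca597_hd.Defs
import Pool.Agent.Lib.MP_8ca597_hd.Model

/-!
# Row Z01: the law of the open edges in a finite set of edges

`perc_cyl`: the event is the disjoint union over `T ∈ F.powerset`, `T ∈ A`, of the events
`opn F ω = T`, each of which is a box (`Measure.infinitePi_pi`).
-/

set_option autoImplicit false

namespace Pool.Agent.HD

open Finset MeasureTheory
open scoped ENNReal

variable {d : ℕ}

open Classical in
/-- The open edges in the finite set `F`. -/
noncomputable def opn (F : Finset (Ed d)) (ω : HDM.Edge d → Bool) : Finset (Ed d) :=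
  F.filter fun e => ∃ h : ∃ x y, e = s(x, y) ∧ HDM.NN x y, ω ⟨e, h⟩ = true

private instance perc_prob (p : ℝ) : IsProbabilityMeasure (HDM.Perc d p) := by
  unfold HDM.Perc
  infer_instance

private lemma isEd_NN {e : Ed d} (h : IsEd e) : ∃ x y, e = s(x, y) ∧ HDM.NN x y := h

/-- An edge in `F`, as an element of the type of edges. -/
private def mkE (F : Finset (Ed d)) (hF : ∀ e ∈ F, IsEd e) (e : {x // x ∈ F}) : HDM.Edge d :=
  ⟨e.1, isEd_NN (hF e.1 e.2)⟩

private lemma mkE_val (F : Finset (Ed d)) (hF : ∀ e ∈ F, IsEd e) (e : {x // x ∈ F}) :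
    (mkE F hF e).1 = e.1 := rfl

open Classical in
/-- The edges in `F`, as elements of the type of edges. -/
private noncomputable def toE (F : Finset (Ed d)) (hF : ∀ e ∈ F, IsEd e) :
    Finset (HDM.Edge d) :=
  F.attach.image (mkE F hF)

private lemma mem_toE {F : Finset (Ed d)} {hF : ∀ e ∈ F, IsEd e} {e : HDM.Edge d} :
    e ∈ toE F hF ↔ e.1 ∈ F := by
  classical
  unfold toE
  constructor
  · intro h
    obtain ⟨a, -, rfl⟩ := Finset.mem_image.1 h
    exact a.2
  · intro h
    exact Finset.mem_image.2 ⟨⟨e.1, h⟩, Finset.mem_attach _ _, rfl⟩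

open Classical in
private lemma prod_toE (F : Finset (Ed d)) (hF : ∀ e ∈ F, IsEd e) (g : Ed d → ℝ≥0∞) :
    ∏ e ∈ toE F hF, g e.1 = ∏ e ∈ F, g e := by
  unfold toE
  rw [Finset.prod_image, ← Finset.prod_attach F g]
  · rfl
  · intro a _ b _ h
    have h := congrArg Subtype.val h
    rw [mkE_val, mkE_val] at h
    exact Subtype.ext h

open Classical in
/-- The box of the configurations with the open edges `T` in `F`. -/
private lemma opn_eq_iff {F T : Finset (Ed d)} (hF : ∀ e ∈ F, IsEd e) (hT : T ⊆ F) :
    {ω : HDM.Edge d → Bool | opn F ω = T} =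
      Set.pi (toE F hF : Set (HDM.Edge d)) fun e => if e.1 ∈ T then {true} else {false} := by
  ext ω
  simp only [Set.mem_ofPred_eq, Set.mem_pi, Finset.mem_coe]
  constructor
  · intro h e he
    have heF : e.1 ∈ F := mem_toE.1 he
    by_cases heT : e.1 ∈ T
    · rw [if_pos heT]
      rw [← h] at heT
      obtain ⟨-, h1, h2⟩ := Finset.mem_filter.1 heT
      exact h2
    · rw [if_neg heT]
      rw [← h] at heT
      have : ¬ ω e = true := by
        intro h2
        exact heT (Finset.mem_filter.2 ⟨heF, e.2, h2⟩)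
      simpa using this
  · intro h
    ext e
    constructor
    · intro he
      obtain ⟨heF, h1, h2⟩ := Finset.mem_filter.1 he
      by_contra heT
      have := h ⟨e, h1⟩ (mem_toE.2 heF)
      rw [if_neg heT] at this
      simp only [Set.mem_singleton_iff] at this
      rw [this] at h2
      exact absurd h2 (by decide)
    · intro he
      have heF := hT he
      have := h ⟨e, hF e heF⟩ (mem_toE.2 heF)
      rw [if_pos he] at this
      exact Finset.mem_filter.2 ⟨heF, hF e heF, this⟩

private lemma edgeLaw_true (p : unitInterval) : HDM.edgeLaw p {true} = ENNReal.ofReal p := by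
  simp [HDM.edgeLaw]

private lemma edgeLaw_false (p : unitInterval) :
    HDM.edgeLaw p {false} = ENNReal.ofReal (1 - p) := by
  simp [HDM.edgeLaw]

open Classical in
private lemma meas_box {F T : Finset (Ed d)} (hF : ∀ e ∈ F, IsEd e) (hT : T ⊆ F) :
    MeasurableSet {ω : HDM.Edge d → Bool | opn F ω = T} := by
  rw [opn_eq_iff hF hT]
  refine MeasurableSet.pi (Finset.countable_toSet _) fun e _ => ?_
  exact MeasurableSet.of_discrete

open Classical in
private lemma perc_box {p : ℝ} (hp : 0 ≤ p) (hp1 : p ≤ 1) {F T : Finset (Ed d)}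
    (hF : ∀ e ∈ F, IsEd e) (hT : T ⊆ F) :
    HDM.Perc d p {ω | opn F ω = T} = ENNReal.ofReal (p ^ T.card * (1 - p) ^ (F \ T).card) := by
  have hpr : ((Set.projIcc 0 1 zero_le_one p : unitInterval) : ℝ) = p := by
    rw [Set.projIcc_of_mem zero_le_one ⟨hp, hp1⟩]
  rw [opn_eq_iff hF hT]
  unfold HDM.Perc
  rw [Measure.infinitePi_pi]
  · have h1 : ∀ e ∈ toE F hF,
        HDM.edgeLaw (Set.projIcc 0 1 zero_le_one p) (if e.1 ∈ T then {true} else {false}) =
          (fun e : Ed d => if e ∈ T then ENNReal.ofReal p else ENNReal.ofReal (1 - p)) e.1 := by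
      intro e _
      by_cases h : e.1 ∈ T
      · simp only [h, if_true]
        rw [edgeLaw_true, hpr]
      · simp only [h, if_false]
        rw [edgeLaw_false, hpr]
    rw [Finset.prod_congr rfl h1,
      prod_toE F hF (fun e : Ed d => if e ∈ T then ENNReal.ofReal p else ENNReal.ofReal (1 - p)),
      Finset.prod_ite, Finset.prod_const, Finset.prod_const,
      ENNReal.ofReal_mul (by positivity), ENNReal.ofReal_pow hp,
      ENNReal.ofReal_pow (by linarith)]
    congr 2
    · congr 1
      ext e
      simp only [Finset.mem_filter]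
      exact ⟨fun h => h.2, fun h => ⟨hT h, h⟩⟩
    · congr 1
      ext e
      simp only [Finset.mem_filter, Finset.mem_sdiff]
  · intro e _
    exact MeasurableSet.of_discrete

theorem perc_cyl {p : ℝ} (hp : 0 ≤ p) (hp1 : p ≤ 1) (F : Finset (Ed d)) (hF : ∀ e ∈ F, IsEd e)
    (A : Set (Finset (Ed d))) : MeasurableSet {ω : HDM.Edge d → Bool | opn F ω ∈ A} ∧
      HDM.Perc d p {ω | opn F ω ∈ A} = ENNReal.ofReal (PP p F A) := by
  classical
  have hU : {ω : HDM.Edge d → Bool | opn F ω ∈ A} =
      ⋃ T ∈ F.powerset.filter (fun T => T ∈ A), {ω | opn F ω = T} := by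
    ext ω
    simp only [Set.mem_ofPred_eq, Set.mem_iUnion, Finset.mem_filter, Finset.mem_powerset,
      exists_prop]
    constructor
    · intro h
      exact ⟨opn F ω, ⟨Finset.filter_subset _ _, h⟩, rfl⟩
    · rintro ⟨T, ⟨-, h⟩, rfl⟩
      exact h
  have hm : ∀ T ∈ F.powerset.filter (fun T => T ∈ A),
      MeasurableSet {ω : HDM.Edge d → Bool | opn F ω = T} := by
    intro T hT
    exact meas_box hF (Finset.mem_powerset.1 (Finset.mem_filter.1 hT).1)
  refine ⟨?_, ?_⟩
  · rw [hU]
    exact Finset.measurableSet_biUnion _ hm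
  · rw [hU, measure_biUnion_finset _ hm]
    · unfold PP EE
      rw [← Finset.sum_filter_add_sum_filter_not F.powerset (fun T => T ∈ A)]
      rw [Finset.sum_eq_zero (s := F.powerset.filter fun T => ¬ T ∈ A), add_zero,
        ENNReal.ofReal_sum_of_nonneg]
      · refine Finset.sum_congr rfl fun T hT => ?_
        obtain ⟨h1, h2⟩ := Finset.mem_filter.1 hT
        simp only [if_pos h2, mul_one]
        exact perc_box hp hp1 hF (Finset.mem_powerset.1 h1)
      · intro T hT
        have : (0 : ℝ) ≤ 1 - p := by linarith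
        have h2 := (Finset.mem_filter.1 hT).2
        simp only [if_pos h2, mul_one]
        positivity
      · intro T hT
        have h2 := (Finset.mem_filter.1 hT).2
        simp only [if_neg h2, mul_zero]
    · intro T _ T' _ hne
      refine Set.disjoint_left.2 fun ω h1 h2 => hne ?_
      have h1 : opn F ω = T := h1
      have h2 : opn F ω = T' := h2
      rw [← h1, ← h2]

end Pool.Agent.HD
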