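import Pool.Agent.Lib.MP_8ca597_hd.Z01
import Pool.Agent.Lib.MP_8ca597_hd.A05
import Pool.Agent.Lib.MP_8ca597_hd.SDefs

/-!
# Row Z02: the bridge from the measure to the weights of the clusters

`cluster_eq_iff`: a path of open edges which starts in `K` and leaves `K` uses an edge of `nbh K`.
`perc_cluster`: `perc_cyl` with `F = edges (nbh K)`. The others: `{x ∈ Cluster ω, finite}` is the countable
disjoint union over the finite sets `K` (containing `x`) of `{Cluster ω = K}`; `chiF`: the integrand is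
`∑' K, indicator {Cluster ω = K} |K|` (`lintegral_tsum`); `theta`: complement, `EF`, `tauf`, `chif` of SDefs.
`ww p K = 0` if `0 ∉ K`.
-/

set_option autoImplicit false

namespace Pool.Agent.HD

open Finset MeasureTheory
open scoped ENNReal

variable {d : ℕ}

private def Z02_st (ω : HDM.Edge d → Bool) (u v : Vx d) : Prop :=
  ∃ h : HDM.NN u v, ω ⟨s(u, v), u, v, rfl, h⟩ = true

private theorem Z02_mem (ω : HDM.Edge d → Bool) (x : Vx d) :
    x ∈ HDM.Cluster ω ↔ Relation.ReflTransGen (Z02_st ω) 0 x := Iff.rfl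

private theorem Z02_opn (ω : HDM.Edge d → Bool) (V : Finset (Vx d)) (u v : Vx d) :
    s(u, v) ∈ opn (edges V) ω ↔ u ∈ V ∧ v ∈ V ∧ Z02_st ω u v := by
  classical
  unfold opn
  rw [Finset.mem_filter, mem_edges]
  constructor
  · rintro ⟨⟨hu, hv, ha⟩, h, hω⟩
    exact ⟨hu, hv, ha, hω⟩
  · rintro ⟨hu, hv, ha, hω⟩
    exact ⟨⟨hu, hv, ha⟩, ⟨u, v, rfl, ha⟩, hω⟩

private theorem Z02_conn (ω : HDM.Edge d → Bool) (V : Finset (Vx d)) {x : Vx d}
    (h : Conn (opn (edges V) ω) V 0 x) : x ∈ HDM.Cluster ω := by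
  rw [Z02_mem]
  exact Relation.ReflTransGen.lift id
    (fun u v (huv : Step (opn (edges V) ω) V u v) => ((Z02_opn ω V u v).1 huv.2.2).2.2) _ _ h.2

theorem cluster_eq_iff (ω : HDM.Edge d → Bool) (K : Finset (Vx d)) :
    HDM.Cluster ω = (K : Set (Vx d)) ↔
      opn (edges (nbh K)) ω ∈ {T | 0 ∈ K ∧ cl T (nbh K) 0 = K} := by
  constructor
  · intro hC
    have h0 : (0 : Vx d) ∈ K := by
      have h1 : (0 : Vx d) ∈ HDM.Cluster ω := Relation.ReflTransGen.refl
      rw [hC] at h1
      exact h1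
    refine ⟨h0, ?_⟩
    have hK : ∀ x ∈ K, x ∈ nbh K := fun x hx => mem_nbh.2 (Or.inl hx)
    have key : ∀ x, Relation.ReflTransGen (Z02_st ω) 0 x →
        Conn (opn (edges (nbh K)) ω) (nbh K) 0 x := by
      intro x hx
      induction hx with
      | refl => exact Conn.refl (hK 0 h0)
      | @tail u v hu huv ih =>
        have hu' : u ∈ K := by
          have h1 : u ∈ HDM.Cluster ω := hu
          rw [hC] at h1
          exact h1
        have hv' : v ∈ K := by
          have h1 : v ∈ HDM.Cluster ω := hu.tail huv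
          rw [hC] at h1
          exact h1
        obtain ⟨ha, hω⟩ := huv
        exact ih.step (hK v hv') ha ((Z02_opn ω _ u v).2 ⟨hK u hu', hK v hv', ha, hω⟩)
    ext x
    rw [mem_cl]
    constructor
    · intro h
      have h1 := Z02_conn ω _ h
      rw [hC] at h1
      exact h1
    · intro h
      have h1 : x ∈ HDM.Cluster ω := by
        rw [hC]
        exact h
      exact key x h1
  · rintro ⟨h0, hcl⟩
    ext x
    constructor
    · intro hx
      have hx' : Relation.ReflTransGen (Z02_st ω) 0 x := hx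
      induction hx' with
      | refl => exact h0
      | @tail u v hu huv ih =>
        have hu' : u ∈ K := ih hu
        obtain ⟨ha, hω⟩ := huv
        have hv : v ∈ nbh K := mem_nbh.2 (Or.inr ⟨u, hu', ha⟩)
        have hu'' : u ∈ nbh K := mem_nbh.2 (Or.inl hu')
        have h1 : u ∈ cl (opn (edges (nbh K)) ω) (nbh K) 0 := by
          rw [hcl]
          exact hu'
        have h2 := cl_closed h1 hv ha ((Z02_opn ω _ u v).2 ⟨hu'', hv, ha, hω⟩)
        rw [hcl] at h2
        exact h2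
    · intro hx
      have hx' : x ∈ K := hx
      rw [← hcl, mem_cl] at hx'
      exact Z02_conn ω _ hx'

theorem perc_cluster {p : ℝ} (hp : 0 ≤ p) (hp1 : p ≤ 1) (K : Finset (Vx d)) :
    MeasurableSet {ω : HDM.Edge d → Bool | HDM.Cluster ω = (K : Set (Vx d))} ∧
      HDM.Perc d p {ω | HDM.Cluster ω = (K : Set (Vx d))} = ENNReal.ofReal (ww p K) := by
  have h1 : {ω : HDM.Edge d → Bool | HDM.Cluster ω = (K : Set (Vx d))} =
      {ω | opn (edges (nbh K)) ω ∈ {T | 0 ∈ K ∧ cl T (nbh K) 0 = K}} := by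
    ext ω
    exact cluster_eq_iff ω K
  rw [h1]
  classical
  refine perc_cyl hp hp1 (edges (nbh K)) (fun e he => ?_) _
  unfold edges at he
  exact (Finset.mem_filter.1 he).2

open Classical in
private theorem Z02_union {p : ℝ} (hp : 0 ≤ p) (hp1 : p ≤ 1) (P : Finset (Vx d) → Prop) :
    MeasurableSet {ω : HDM.Edge d → Bool | ∃ K, P K ∧ HDM.Cluster ω = (K : Set (Vx d))} ∧
      HDM.Perc d p {ω | ∃ K, P K ∧ HDM.Cluster ω = (K : Set (Vx d))} =
        ∑' K, ENNReal.ofReal (ww p K) * (if P K then 1 else 0) := by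
  have h1 : {ω : HDM.Edge d → Bool | ∃ K, P K ∧ HDM.Cluster ω = (K : Set (Vx d))} =
      ⋃ K : Finset (Vx d), {ω | P K ∧ HDM.Cluster ω = (K : Set (Vx d))} := by
    ext ω
    simp only [Set.mem_iUnion, Set.mem_ofPred_eq]
  have h2 : ∀ K : Finset (Vx d),
      MeasurableSet {ω : HDM.Edge d → Bool | P K ∧ HDM.Cluster ω = (K : Set (Vx d))} ∧
      HDM.Perc d p {ω | P K ∧ HDM.Cluster ω = (K : Set (Vx d))} =
        ENNReal.ofReal (ww p K) * (if P K then 1 else 0) := by
    intro K
    by_cases hK : P K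
    · have h3 : {ω : HDM.Edge d → Bool | P K ∧ HDM.Cluster ω = (K : Set (Vx d))} =
          {ω | HDM.Cluster ω = (K : Set (Vx d))} := by
        ext ω
        exact ⟨fun h => h.2, fun h => ⟨hK, h⟩⟩
      rw [h3, if_pos hK, mul_one]
      exact perc_cluster hp hp1 K
    · have h3 : {ω : HDM.Edge d → Bool | P K ∧ HDM.Cluster ω = (K : Set (Vx d))} = ∅ := by
        ext ω
        exact ⟨fun h => absurd h.1 hK, fun h => absurd h (Set.notMem_empty _)⟩
      rw [h3, if_neg hK, mul_zero]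
      exact ⟨MeasurableSet.empty, measure_empty⟩
  rw [h1]
  refine ⟨MeasurableSet.iUnion fun K => (h2 K).1, ?_⟩
  rw [measure_iUnion ?_ (fun K => (h2 K).1)]
  · exact tsum_congr fun K => (h2 K).2
  · intro K K' hne
    rw [Function.onFun, Set.disjoint_left]
    rintro ω ⟨_, hω⟩ ⟨_, hω'⟩
    exact hne (Finset.coe_injective (hω.symm.trans hω'))

private theorem Z02_finite (ω : HDM.Edge d → Bool) :
    (HDM.Cluster ω).Finite ↔ ∃ K : Finset (Vx d), HDM.Cluster ω = (K : Set (Vx d)) := by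
  constructor
  · intro h
    exact ⟨h.toFinset, h.coe_toFinset.symm⟩
  · rintro ⟨K, hK⟩
    rw [hK]
    exact K.finite_toSet

private theorem Z02_prob (d : ℕ) (p : ℝ) : IsProbabilityMeasure (HDM.Perc d p) := by
  unfold HDM.Perc
  infer_instance

theorem theta_eq {p : ℝ} (hp : 0 ≤ p) (hp1 : p ≤ 1) : HDM.theta d p = theta d p := by
  have hprob := Z02_prob d p
  obtain ⟨h1, h2⟩ := Z02_union (d := d) hp hp1 (fun _ => True)
  have h3 : {ω : HDM.Edge d → Bool | (HDM.Cluster ω).Infinite} =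
      {ω | ∃ K : Finset (Vx d), True ∧ HDM.Cluster ω = (K : Set (Vx d))}ᶜ := by
    ext ω
    simp only [Set.mem_ofPred_eq, Set.mem_compl_iff, true_and]
    rw [← Z02_finite]
    exact Iff.rfl
  unfold HDM.theta theta
  rw [h3, prob_compl_eq_one_sub h1, h2]
  simp

theorem pc_eq (d : ℕ) : HDM.pc d = pc d := by
  unfold HDM.pc pc
  congr 1
  ext p
  constructor
  · rintro ⟨h, h'⟩
    refine ⟨h, ?_⟩
    rwa [← theta_eq h.1 h.2]
  · rintro ⟨h, h'⟩
    refine ⟨h, ?_⟩
    rwa [theta_eq h.1 h.2]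

theorem tauF_eq {p : ℝ} (hp : 0 ≤ p) (hp1 : p ≤ 1) (x : Vx d) :
    HDM.tauF d p x = tauf p x := by
  obtain ⟨h1, h2⟩ := Z02_union (d := d) hp hp1 (fun K => x ∈ K)
  have h3 : {ω : HDM.Edge d → Bool | x ∈ HDM.Cluster ω ∧ (HDM.Cluster ω).Finite} =
      {ω | ∃ K : Finset (Vx d), x ∈ K ∧ HDM.Cluster ω = (K : Set (Vx d))} := by
    ext ω
    simp only [Set.mem_ofPred_eq]
    rw [Z02_finite]
    constructor
    · rintro ⟨hx, K, hK⟩
      rw [hK] at hx
      exact ⟨K, hx, hK⟩
    · rintro ⟨K, hx, hK⟩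
      refine ⟨?_, K, hK⟩
      rw [hK]
      exact hx
  unfold HDM.tauF tauf EF
  rw [h3]
  refine h2.trans (tsum_congr fun K => ?_)
  by_cases hx : x ∈ K <;> simp [hx]

theorem chiF_eq {p : ℝ} (hp : 0 ≤ p) (hp1 : p ≤ 1) : HDM.chiF d p = chif d p := by
  classical
  unfold HDM.chiF chif EF
  have h1 : ∀ ω : HDM.Edge d → Bool,
      (if (HDM.Cluster ω).Finite then ((HDM.Cluster ω).ncard : ℝ≥0∞) else 0) =
      ∑' K : Finset (Vx d), Set.indicator {ω : HDM.Edge d → Bool |
        HDM.Cluster ω = (K : Set (Vx d))} (fun _ => (K.card : ℝ≥0∞)) ω := by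
    intro ω
    by_cases h : (HDM.Cluster ω).Finite
    · rw [if_pos h]
      obtain ⟨K, hK⟩ := (Z02_finite ω).1 h
      rw [tsum_eq_single K]
      · rw [Set.indicator_of_mem (show ω ∈ {ω : HDM.Edge d → Bool |
          HDM.Cluster ω = (K : Set (Vx d))} from hK), hK, Set.ncard_coe_finset]
      · intro K' hne
        refine Set.indicator_of_notMem ?_ _
        intro hK'
        exact hne (Finset.coe_injective (Eq.trans (Eq.symm hK') hK))
    · rw [if_neg h]
      symm
      rw [ENNReal.tsum_eq_zero]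
      intro K
      refine Set.indicator_of_notMem ?_ _
      intro hK
      exact h ((Z02_finite ω).2 ⟨K, hK⟩)
  rw [lintegral_congr h1, lintegral_tsum]
  · refine tsum_congr fun K => ?_
    rw [lintegral_indicator_const (perc_cluster hp hp1 K).1, (perc_cluster hp hp1 K).2, mul_comm]
  · intro K
    exact (measurable_const.indicator (perc_cluster hp hp1 K).1).aemeasurable

end Pool.Agent.HD
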